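import Pool.Agent.Lib.MP_60ec62_ag.DL.Dim

/-!
Smooth algebras over a field: reducedness, and the dimension from the number of tangent vectors.
-/

open scoped TensorProduct

namespace Pool.Agent.Lib.MP_557161_ag.DL.Model

namespace ModelC

open Pool.Agent.Lib.MP_60ec62_ag.DL

lemma etale_reduced (A B : Type) [CommRing A] [IsDomain A] [CommRing B] [Algebra A B]
    [Algebra.Etale A B] : IsReduced B := by
  have hi : Function.Injective
      (Algebra.TensorProduct.includeRight : B →ₐ[A] FractionRing A ⊗[A] B) :=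
    Algebra.TensorProduct.includeRight_injective (IsFractionRing.injective A (FractionRing A))
  have : IsReduced (FractionRing A ⊗[A] B) :=
    Algebra.FormallyUnramified.isReduced_of_field (FractionRing A) _
  exact isReduced_of_injective _ hi

lemma etale_algebraic (A B : Type) [CommRing A] [IsDomain A] [CommRing B] [Algebra A B]
    [Algebra.Etale A B] (b : B) : IsAlgebraic A b := by
  have hi : Function.Injective
      (Algebra.TensorProduct.includeRight : B →ₐ[A] FractionRing A ⊗[A] B) :=
    Algebra.TensorProduct.includeRight_injective (IsFractionRing.injective A (FractionRing A))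
  have : Module.Finite (FractionRing A) (FractionRing A ⊗[A] B) :=
    Algebra.FormallyUnramified.finite_of_free (FractionRing A) _
  rw [← isAlgebraic_algHom_iff _ hi, IsFractionRing.isAlgebraic_iff A (FractionRing A)]
  exact (Algebra.IsIntegral.isIntegral _).isAlgebraic

lemma etale_nzd (A B : Type) [CommRing A] [IsDomain A] [CommRing B] [Algebra A B]
    [Algebra.Etale A B] (a : A) (ha : a ≠ 0) : algebraMap A B a ∈ nonZeroDivisors B := by
  have h : IsSMulRegular B a := Module.Flat.isSMulRegular_of_nonZeroDivisors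
    (mem_nonZeroDivisors_of_ne_zero ha)
  rw [mem_nonZeroDivisors_iff_right]
  intro x hx
  apply h
  simp only [smul_zero]
  rw [Algebra.smul_def, mul_comm, hx]

lemma etale_trdeg {k : Type} [Field k] (A B : Type) [CommRing A] [IsDomain A] [CommRing B]
    [Algebra A B] [Algebra k A] [Algebra k B] [IsScalarTower k A B] [Algebra.Etale A B]
    (Q : Ideal B) (hQ : Q ∈ minimalPrimes B) : Algebra.trdeg k A = Algebra.trdeg k (B ⧸ Q) := by
  have : Q.IsPrime := hQ.1.1
  refine Dim.trdeg_eq_of_alg ((Ideal.Quotient.mkₐ k Q).comp (IsScalarTower.toAlgHom k A B)) ?_ ?_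
  · rw [injective_iff_map_eq_zero]
    intro a ha
    by_contra h0
    refine notMem_nonZeroDivisors_of_mem_mem_minimalPrimes ?_ hQ (etale_nzd A B a h0)
    exact Ideal.Quotient.eq_zero_iff_mem.mp ha
  · intro b
    obtain ⟨b, rfl⟩ := Ideal.Quotient.mk_surjective b
    exact (etale_algebraic A B b).algHom (Ideal.Quotient.mkₐ A Q)

lemma fst_nil (L : Type) [Field L] :
    IsNilpotent (RingHom.ker (TrivSqZeroExt.fstHom L L L : DualNumber L →+* L)) := by
  refine ⟨2, (pow_two (RingHom.ker (TrivSqZeroExt.fstHom L L L : DualNumber L →+* L))).trans ?_⟩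
  rw [Ideal.zero_eq_bot, eq_bot_iff, Ideal.mul_le]
  intro a ha b hb
  have ha' : a.fst = 0 := ha
  have hb' : b.fst = 0 := hb
  rw [Ideal.mem_bot]
  ext <;> simp [ha', hb']

lemma lifts_card {k : Type} [Field k] (S S' L : Type) [CommRing S] [CommRing S'] [Algebra S S']
    [Algebra k S] [Algebra k S'] [IsScalarTower k S S'] [Algebra.FormallyEtale S S'] [Field L]
    [Algebra k L] (x : S' →ₐ[k] L) :
    Nat.card {g : S' →ₐ[k] DualNumber L // ∀ r, (g r).fst = x r} =
      Nat.card {g : S →ₐ[k] DualNumber L //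
        ∀ r, (g r).fst = x.comp (IsScalarTower.toAlgHom k S S') r} := by
  refine Nat.card_eq_of_bijective
    (fun g => ⟨g.1.comp (IsScalarTower.toAlgHom k S S'), fun r => g.2 _⟩) ⟨?_, ?_⟩
  · rintro ⟨g₁, h₁⟩ ⟨g₂, h₂⟩ e
    have e' : ∀ s, g₁ (algebraMap S S' s) = g₂ (algebraMap S S' s) := fun s =>
      AlgHom.congr_fun (congrArg Subtype.val e) s
    let : Algebra S (DualNumber L) :=
      ((g₁ : S' →+* DualNumber L).comp (algebraMap S S')).toAlgebra
    let G₁ : S' →ₐ[S] DualNumber L := { (g₁ : S' →+* DualNumber L) with commutes' := fun _ => rfl }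
    let G₂ : S' →ₐ[S] DualNumber L :=
      { (g₂ : S' →+* DualNumber L) with commutes' := fun s => (e' s).symm }
    have := Algebra.FormallyUnramified.ext' (TrivSqZeroExt.fstHom L L L : DualNumber L →+* L)
      (fst_nil L) G₁ G₂ (fun r => (h₁ r).trans (h₂ r).symm)
    exact Subtype.ext (AlgHom.ext fun r => AlgHom.congr_fun this r)
  · rintro ⟨g, hg⟩
    let : Algebra S (DualNumber L) := (g : S →+* DualNumber L).toAlgebra
    let : Algebra S L := ((x : S' →+* L).comp (algebraMap S S')).toAlgebra
    let X : S' →ₐ[S] L := { (x : S' →+* L) with commutes' := fun _ => rfl }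
    let F : DualNumber L →ₐ[S] L :=
      { (TrivSqZeroExt.fstHom L L L : DualNumber L →+* L) with commutes' := fun s => hg s }
    have hF : Function.Surjective F := fun l => ⟨TrivSqZeroExt.inl l, rfl⟩
    let G := Algebra.FormallySmooth.liftOfSurjective X F hF (fst_nil L)
    have hG : ∀ r, (G r).fst = x r := fun r =>
      Algebra.FormallySmooth.liftOfSurjective_apply X F hF (fst_nil L) r
    have hG' : ∀ s, G (algebraMap S S' s) = g s := fun s => G.commutes s
    refine ⟨⟨{ (G : S' →+* DualNumber L) with commutes' := fun c => ?_ }, hG⟩, ?_⟩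
    · change G (algebraMap k S' c) = _
      rw [IsScalarTower.algebraMap_apply k S S', hG', AlgHom.commutes]
    · exact Subtype.ext (AlgHom.ext hG')

lemma lifts_poly {k : Type} [Field k] (n : ℕ) (L : Type) [Field L] [Algebra k L]
    (x : MvPolynomial (Fin n) k →ₐ[k] L) :
    Nat.card {g : MvPolynomial (Fin n) k →ₐ[k] DualNumber L // ∀ r, (g r).fst = x r} =
      Nat.card L ^ n := by
  have : Nat.card L ^ n = Nat.card (Fin n → L) := by simp [Nat.card_fun]
  rw [this]
  refine Nat.card_eq_of_bijective (fun g i => (g.1 (MvPolynomial.X i)).snd) ⟨?_, ?_⟩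
  · rintro ⟨g₁, h₁⟩ ⟨g₂, h₂⟩ e
    refine Subtype.ext (MvPolynomial.algHom_ext fun i => ?_)
    exact TrivSqZeroExt.ext ((h₁ _).trans (h₂ _).symm) (congrFun e i)
  · intro v
    let g : MvPolynomial (Fin n) k →ₐ[k] DualNumber L := MvPolynomial.aeval
      fun i => (TrivSqZeroExt.inl (x (MvPolynomial.X i)) + TrivSqZeroExt.inr (v i) : DualNumber L)
    have hg : ((TrivSqZeroExt.fstHom L L L).restrictScalars k).comp g = x :=
      MvPolynomial.algHom_ext fun i => by simp [g]
    refine ⟨⟨g, fun r => AlgHom.congr_fun hg r⟩, ?_⟩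
    funext i
    simp [g]

end ModelC

open ModelC Pool.Agent.Lib.MP_60ec62_ag.DL

theorem smooth_reduced (k R : Type) [Field k] [CommRing R] [Algebra k R] [Algebra.Smooth k R] :
    IsReduced R := by
  constructor
  intro x hx
  apply eq_zero_of_localization
  intro m hm
  obtain ⟨f, hf, n, _, _, _⟩ :=
    Algebra.IsSmoothAt.exists_isStandardEtale_mvPolynomial (R := k) (p := m)
  have := etale_reduced (MvPolynomial (Fin n) k) (Localization.Away f)
  have h0 : algebraMap R (Localization.Away f) x = 0 := (hx.map _).eq_zero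
  obtain ⟨⟨_, j, rfl⟩, hj⟩ := (IsLocalization.map_eq_zero_iff (Submonoid.powers f) _ _).mp h0
  exact (IsLocalization.map_eq_zero_iff m.primeCompl _ _).mpr
    ⟨⟨f ^ j, fun h => hf (hm.isPrime.mem_of_pow_mem _ h)⟩, hj⟩

theorem smooth_trdeg {k R : Type} [Field k] [Finite k] [CommRing R] [Algebra k R]
    [Algebra.Smooth k R] (d : ℕ)
    (h : ∀ (L : Type) [Field L] [Finite L] [Algebra k L] (x : R →ₐ[k] L),
      Nat.card {g : R →ₐ[k] DualNumber L // ∀ r, (g r).fst = x r} = Nat.card L ^ d)
    (Q : Ideal R) (hQ : Q ∈ minimalPrimes R) : Algebra.trdeg k (R ⧸ Q) = d := by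
  have hQp : Q.IsPrime := hQ.1.1
  obtain ⟨m, hm, hQm⟩ := Ideal.exists_le_maximal Q hQp.ne_top
  let := Ideal.Quotient.field m
  have : Module.Finite k (R ⧸ m) := finite_of_finite_type_of_isJacobsonRing k (R ⧸ m)
  have : Finite (R ⧸ m) := Module.finite_of_finite k
  obtain ⟨f, hf, n, _, _, _⟩ :=
    Algebra.IsSmoothAt.exists_isStandardEtale_mvPolynomial (R := k) (p := m)
  have hu : ∀ y : Submonoid.powers f, IsUnit (Ideal.Quotient.mkₐ k m y) := by
    rintro ⟨_, j, rfl⟩
    rw [isUnit_iff_ne_zero]
    intro h0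
    exact hf (hm.isPrime.mem_of_pow_mem j (Ideal.Quotient.eq_zero_iff_mem.mp h0))
  let x : Localization.Away f →ₐ[k] R ⧸ m := IsLocalization.liftAlgHom hu
  have : Algebra.FormallyEtale R (Localization.Away f) :=
    Algebra.FormallyEtale.of_isLocalization (Submonoid.powers f)
  have h1 := lifts_card R (Localization.Away f) (R ⧸ m) x
  have h2 := lifts_card (MvPolynomial (Fin n) k) (Localization.Away f) (R ⧸ m) x
  rw [h, h2, lifts_poly] at h1
  have hnd : n = d := Nat.pow_right_injective (Finite.one_lt_card (α := R ⧸ m)) h1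
  have hdis : Disjoint (Submonoid.powers f : Set R) Q :=
    (Ideal.disjoint_powers_iff_notMem_of_isPrime _).mpr fun h0 => hf (hQm h0)
  have hP : (Q.map (algebraMap R (Localization.Away f))).IsPrime :=
    IsLocalization.isPrime_of_isPrime_disjoint (.powers f) _ _ hQp hdis
  have hc : (Q.map (algebraMap R (Localization.Away f))).under R = Q :=
    IsLocalization.under_map_of_isPrime_disjoint (.powers f) _ hQp hdis
  have hmin : Q.map (algebraMap R (Localization.Away f)) ∈ minimalPrimes (Localization.Away f) := by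
    have := IsLocalization.minimalPrimes_map (Submonoid.powers f) (Localization.Away f)
      (⊥ : Ideal R)
    rw [Ideal.map_bot] at this
    change _ ∈ (⊥ : Ideal (Localization.Away f)).minimalPrimes
    rw [this, Set.mem_preimage, hc]
    exact hQ
  have h3 := etale_trdeg (k := k) (MvPolynomial (Fin n) k) (Localization.Away f) _ hmin
  have hls : LocSurj (IsScalarTower.toAlgHom k R (Localization.Away f)) := by
    intro r
    obtain ⟨⟨a, s⟩, e⟩ := IsLocalization.surj (Submonoid.powers f) r
    exact ⟨a, s, IsLocalization.map_units _ s, e⟩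
  have h4 := Dim.trdeg_locSurj hls ⟨_, hP⟩
  have h5 : (cm (IsScalarTower.toAlgHom k R (Localization.Away f)) ⟨_, hP⟩).asIdeal = Q := hc
  rw [h5] at h4
  rw [h4, ← h3, MvPolynomial.trdeg_of_isDomain, ← hnd]
  simp

end Pool.Agent.Lib.MP_557161_ag.DL.Model
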