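import Pool.Agent.Lib.MP_557161_ag.DL.Model1

/-!
The points of a chart with values in a field are the points of the cone with coordinate one.
-/

namespace Pool.Agent.Lib.MP_557161_ag.DL.Model

open Matrix

variable {ι : Type} {n l : ℕ}

theorem mat_plk {B : Type} [CommRing B] {s : Idx ι n l} {M : Fin (l + 1) → Fl ι n B}
    (h : ∀ j i, cols (M j i) (s j i) = 1) : mat s (plk' M) = M := by
  funext j i
  ext a c
  rw [mat, Matrix.of_apply, plk', Finset.prod_eq_single j (fun j' _ hj => by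
      simp only [Function.update_of_ne hj, h, det_one, Finset.prod_const_one]) (by simp),
    Function.update_self, Finset.prod_eq_single i (fun i' _ hi => by
      rw [Function.update_of_ne hi, h, det_one]) (by simp), Function.update_self]
  have e : cols (M j i) (Function.update (s j i) a c) =
      (cols (M j i) (s j i)).updateCol a fun r => M j i r c := by
    ext r c'
    by_cases hc : c' = a
    · subst hc
      simp
    · simp [hc]
  rw [e, h, ← cramer_apply, cramer_one]
  rfl

namespace ModelD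

variable {L : Type} [Field L] {α β : Type}

/-- The row space. -/
abbrev rs (A : Matrix α ι L) : Submodule L (ι → L) := Submodule.span L (Set.range A.row)

theorem sub_iff [Fintype β] {A : Matrix α ι L} {A' : Matrix β ι L} : Sub A A' ↔ rs A ≤ rs A' := by
  constructor
  · rintro ⟨C, rfl⟩
    refine Submodule.span_le.2 (Set.range_subset_iff.2 fun a => ?_)
    refine (Submodule.mem_span_range_iff_exists_fun L).2 ⟨C a, funext fun c => ?_⟩
    simp [Matrix.mul_apply]
  · intro h
    choose C hC using fun a => (Submodule.mem_span_range_iff_exists_fun L).1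
      (h (Submodule.subset_span ⟨a, rfl⟩))
    refine ⟨Matrix.of C, Matrix.ext fun a c => ?_⟩
    simpa [Matrix.mul_apply] using (congrFun (hC a) c).symm

theorem rank_norm {m : ℕ} {A : Matrix (Fin m) ι L} {t : Fin m → ι} (h : cols A t = 1) :
    Module.finrank L (rs A) = m := by
  rw [finrank_span_eq_card, Fintype.card_fin]
  refine Fintype.linearIndependent_iff.2 fun g hg j => ?_
  have e : ∀ a, A a (t j) = (1 : Matrix (Fin m) (Fin m) L) a j := fun a =>
    congrFun (congrFun h a) j
  simpa [e, Matrix.one_apply] using congrFun hg (t j)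

theorem frob_rs {q : ℕ} (hq : ∀ a b : L, (a + b) ^ q = a ^ q + b ^ q) (hq0 : q ≠ 0)
    (A : Matrix α ι L) : frob q (rs A) = rs (A.map (· ^ q)) := by
  refine le_antisymm (Submodule.span_le.2 ?_) (Submodule.span_mono ?_)
  · rintro _ ⟨v, hv, rfl⟩
    induction hv using Submodule.span_induction with
    | mem v hv =>
      obtain ⟨a, rfl⟩ := hv
      exact Submodule.subset_span ⟨a, rfl⟩
    | zero =>
      have e : (fun i => (0 : ι → L) i ^ q) = 0 := funext fun _ => zero_pow hq0
      exact Set.mem_of_eq_of_mem e (Submodule.zero_mem _)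
    | add u v _ _ hu hv =>
      have e : (fun i => (u + v) i ^ q) = (fun i => u i ^ q) + fun i => v i ^ q :=
        funext fun i => hq _ _
      exact Set.mem_of_eq_of_mem e (Submodule.add_mem _ hu hv)
    | smul c v _ hv =>
      have e : (fun i => (c • v) i ^ q) = c ^ q • fun i => v i ^ q :=
        funext fun i => mul_pow _ _ _
      exact Set.mem_of_eq_of_mem e (Submodule.smul_mem _ _ hv)
  · rintro _ ⟨a, rfl⟩
    exact ⟨A.row a, Submodule.subset_span ⟨a, rfl⟩, rfl⟩

theorem exists_minor [Fintype ι] {m : ℕ} {A : Matrix (Fin m) ι L}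
    (h : Module.finrank L (rs A) = m) : ∃ t : Fin m → ι, (cols A t).det ≠ 0 := by
  rw [← rank_eq_finrank_span_row, rank_eq_finrank_span_cols] at h
  obtain ⟨f, f1, -, f2⟩ := Submodule.exists_fun_fin_finrank_span_eq L (Set.range A.col)
  choose t ht using f1
  refine ⟨t ∘ Fin.cast h.symm, isUnit_iff_ne_zero.1 ((isUnit_iff_isUnit_det _).1
    (linearIndependent_cols_iff_isUnit.1 ?_))⟩
  have e : (cols A (t ∘ Fin.cast h.symm)).col = f ∘ Fin.cast h.symm := funext fun c => ht _
  rw [e]
  exact f2.comp _ (Fin.cast_injective _)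

variable [Fintype ι] {G : Matrix ι ι L}

theorem iso_iff {A : Matrix α ι L} :
    A * G * Aᵀ = 0 ↔ ∀ x ∈ rs A, ∀ y ∈ rs A, x ⬝ᵥ G *ᵥ y = 0 := by
  have e : ∀ a b, (A * G * Aᵀ) a b = A.row a ⬝ᵥ G *ᵥ A.row b := fun a b => by
    rw [Matrix.mul_assoc]
    rfl
  refine ⟨fun h x hx y hy => ?_, fun h => Matrix.ext fun a b => (e a b).trans
    (h _ (Submodule.subset_span ⟨a, rfl⟩) _ (Submodule.subset_span ⟨b, rfl⟩))⟩
  induction hx using Submodule.span_induction with
  | mem x hx =>
    obtain ⟨a, rfl⟩ := hx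
    induction hy using Submodule.span_induction with
    | mem y hy =>
      obtain ⟨b, rfl⟩ := hy
      rw [← e, h, Matrix.zero_apply]
    | zero => simp
    | add u v _ _ hu hv => rw [mulVec_add, dotProduct_add, hu, hv, add_zero]
    | smul c v _ hv => rw [mulVec_smul, dotProduct_smul, hv, smul_zero]
  | zero => simp
  | add u v _ _ hu hv => rw [add_dotProduct, hu, hv, add_zero]
  | smul c v _ hv => rw [smul_dotProduct, hv, smul_zero]

theorem isPt_iff {q : ℕ} {w : Fin l → Fin n} (hq : ∀ a b : L, (a + b) ^ q = a ^ q + b ^ q)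
    (hq0 : q ≠ 0) {s : Idx ι n l} {M : Fin (l + 1) → Fl ι n L}
    (h : ∀ j i, cols (M j i) (s j i) = 1) :
    IsPt G q w s M ↔ IsChain G q w fun j i => rs (M j i) := by
  constructor
  · intro hp
    refine ⟨fun j => ⟨fun i i' hi => sub_iff.1 ((hp.fl j).mono i i' hi).sub,
      fun i => rank_norm (h j i), fun i => iso_iff.1 ((hp.fl j).iso i)⟩, fun j i hi =>
      le_antisymm (sub_iff.1 (hp.adj j i hi).sub) (sub_iff.1 ((hp.adj j i hi).sub.symm (h _ _))),
      fun i => ?_⟩
    have e : cols ((M 0 i).map (· ^ q)) (s 0 i) = 1 := by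
      rw [cols_map, h, Matrix.map_one (fun a : L => a ^ q) (zero_pow hq0) (one_pow q)]
    rw [frob_rs hq hq0]
    exact le_antisymm (sub_iff.1 ((hp.frob i).sub.symm e)) (sub_iff.1 (hp.frob i).sub)
  · rintro ⟨h1, h2, h3⟩
    refine ⟨fun j => ⟨h j, fun i i' hi => (sub_iff.2 ((h1 j).1 hi)).inc (h j i'),
      fun i => iso_iff.2 ((h1 j).2.2 i)⟩, fun j i hi => (sub_iff.2 (h2 j i hi).le).inc (h _ _),
      fun i => (sub_iff.2 ?_).inc (h _ _)⟩
    rw [← frob_rs hq hq0]
    exact (h3 i).ge

end ModelD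

open ModelD

variable [Fintype ι] {L : Type} [Field L] {G : Matrix ι ι L} {q : ℕ} {w : Fin l → Fin n}

theorem cone_smul (c : L) {x : Idx ι n l → L} (hx : x ∈ cone G q w) : c • x ∈ cone G q w := by
  obtain ⟨c', b, hb, rfl⟩ := hx
  exact ⟨c * c', b, hb, smul_smul _ _ _⟩

theorem good_iff (hq : ∀ a b : L, (a + b) ^ q = a ^ q + b ^ q) (hq0 : q ≠ 0) (s : Idx ι n l)
    (x : Idx ι n l → L) : Good G q w s x ↔ x ∈ cone G q w ∧ x s = 1 := by
  constructor
  · rintro ⟨hp, hx⟩
    have h : ∀ j i, cols (mat s x j i) (s j i) = 1 := fun j => (hp.fl j).norm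
    refine ⟨⟨1, mat s x, (isPt_iff hq hq0 h).1 hp, hx.trans (one_smul _ _).symm⟩, ?_⟩
    rw [hx]
    simp only [plk', h, det_one, Finset.prod_const_one]
  · rintro ⟨⟨c, b, hb, rfl⟩, h1⟩
    obtain ⟨A, hA⟩ : ∃ A : Fin (l + 1) → Fl ι n L, A = fun j i => Matrix.of (b j i) := ⟨_, rfl⟩
    have hb' : IsChain G q w fun j i => rs (A j i) := hA ▸ hb
    have e0 : plk b = plk' A := by rw [hA]; rfl
    rw [e0] at h1 ⊢
    have h2 : c * ∏ j, ∏ i, (cols (A j i) (s j i)).det = 1 := h1
    have hu : ∀ j i, IsUnit (cols (A j i) (s j i)).det := fun j i => isUnit_iff_ne_zero.2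
      (Finset.prod_ne_zero_iff.1 (Finset.prod_ne_zero_iff.1 (right_ne_zero_of_mul_eq_one h2) j
        (Finset.mem_univ j)) i (Finset.mem_univ i))
    obtain ⟨M, hM⟩ : ∃ M : Fin (l + 1) → Fl ι n L,
      ∀ j i, M j i = (cols (A j i) (s j i))⁻¹ * A j i := ⟨_, fun _ _ => rfl⟩
    have h : ∀ j i, cols (M j i) (s j i) = 1 := fun j i => by
      rw [hM, cols_mul, nonsing_inv_mul _ (hu j i)]
    have e1 : c • plk' A = plk' M := by
      funext t
      simp only [plk', hM, cols_mul, det_mul, det_nonsing_inv, Ring.inverse_eq_inv',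
        Finset.prod_mul_distrib, Finset.prod_inv_distrib, Pi.smul_apply, smul_eq_mul]
      rw [eq_inv_of_mul_eq_one_left h2]
    have e2 : (fun j i => rs (M j i)) = fun j i => rs (A j i) := by
      funext j i
      refine le_antisymm (sub_iff.1 ⟨_, hM j i⟩) (sub_iff.1 ⟨cols (A j i) (s j i), ?_⟩)
      rw [hM, ← Matrix.mul_assoc, mul_nonsing_inv _ (hu j i), Matrix.one_mul]
    rw [e1, Good, mat_plk h]
    exact ⟨(isPt_iff hq hq0 h).2 (e2 ▸ hb'), rfl⟩

theorem cone_nonempty (h : (cone G q w).Nonempty) : ∃ s, ∃ x ∈ cone G q w, x s = 1 := by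
  obtain ⟨_, c, b, hb, rfl⟩ := h
  choose s hs using fun j i => exists_minor (A := Matrix.of (b j i)) ((hb.1 j).2.1 i)
  refine ⟨s, _, ⟨(plk b s)⁻¹, b, hb, rfl⟩, inv_mul_cancel₀ ?_⟩
  exact Finset.prod_ne_zero_iff.2 fun j _ => Finset.prod_ne_zero_iff.2 fun i _ => hs j i

end Pool.Agent.Lib.MP_557161_ag.DL.Model
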