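import Pool.Agent.Lib.MP_557161_ag.DL.Defs
import Pool.Agent.Lib.MP_60ec62_ag.DL.Dim

/-!
Affine cones and their charts.
-/

namespace Pool.Agent.Lib.MP_557161_ag.DL.Model

open MvPolynomial

variable {k σ : Type} [Field k]

namespace ModelE

variable {K : Type} [Field K] [Algebra k K]

theorem aeval_smul_homog {f : MvPolynomial σ k} {n : ℕ} (hf : f.IsHomogeneous n) (c : K)
    (x : σ → K) : aeval (c • x) f = c ^ n * aeval x f := by
  rw [aeval_def, aeval_def, eval₂_eq, eval₂_eq, Finset.mul_sum]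
  refine Finset.sum_congr rfl fun d hd => ?_
  simp only [Pi.smul_apply, smul_eq_mul, mul_pow, Finset.prod_mul_distrib,
    Finset.prod_pow_eq_pow_sum]
  rw [← hf.degree_eq_sum_deg_support hd]
  ring

theorem aeval_smul (f : MvPolynomial σ k) (c : K) (x : σ → K) : aeval (c • x) f =
    ∑ n ∈ Finset.range (f.totalDegree + 1), c ^ n * aeval x (homogeneousComponent n f) := by
  conv_lhs => rw [← sum_homogeneousComponent f, map_sum]
  exact Finset.sum_congr rfl fun n _ =>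
    aeval_smul_homog (homogeneousComponent_isHomogeneous n f) c x

theorem smul_mem {I : Ideal (MvPolynomial σ k)} (hI : Homog I) {x : σ → K}
    (hx : x ∈ zeroLocus K I) (c : K) : c • x ∈ zeroLocus K I := fun f hf => by
  rw [aeval_smul]
  exact Finset.sum_eq_zero fun n _ => by rw [hx _ (hI f hf n), mul_zero]

attribute [local instance] MvPolynomial.gradedAlgebra

theorem exists_core (Q : Ideal (MvPolynomial σ k)) (hQ : Q.IsPrime) :
    ∃ Q' : Ideal (MvPolynomial σ k), Q'.IsPrime ∧ Homog Q' ∧ Q' ≤ Q ∧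
      ∀ J, Homog J → J ≤ Q → J ≤ Q' := by
  refine ⟨(Q.homogeneousCore (homogeneousSubmodule σ k)).toIdeal, hQ.homogeneousCore,
    fun f hf n => homogeneousComponent_mem_of_mem (HomogeneousIdeal.isHomogeneous _) hf n,
    Ideal.toIdeal_homogeneousCore_le _ _, fun J hJ h f hf => ?_⟩
  rw [← sum_homogeneousComponent f]
  exact Ideal.sum_mem _ fun n _ => Ideal.mem_homogeneousCore_of_homogeneous_of_mem
    ⟨n, homogeneousComponent_mem n f⟩ (h (hJ f hf n))

theorem coeff_zero_eq {P : Ideal (MvPolynomial σ k)} (hP : P ≠ ⊤) (h : Homog P)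
    {f : MvPolynomial σ k} (hf : f ∈ P) : coeff 0 f = 0 := by
  by_contra h0
  have h1 := h f hf 0
  rw [homogeneousComponent_zero] at h1
  exact hP (Ideal.eq_top_of_isUnit_mem _ h1 ((Ne.isUnit h0).map C))

theorem not_mem {P : Ideal (MvPolynomial σ k)} (hP : P ≠ ⊤) (h : Homog P) (s : σ) :
    X s - 1 ∉ P := fun h1 => by
  have := coeff_zero_eq hP h h1
  simp at this

theorem le_of_X {P Q : Ideal (MvPolynomial σ k)} (hX : ∀ s, X s ∈ P) (hQ : Q ≠ ⊤) (h : Homog Q) :
    Q ≤ P := fun f hf => by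
  have e : (Ideal.Quotient.mkₐ k P) = (Algebra.ofId k _).comp (aeval fun _ => 0) :=
    MvPolynomial.algHom_ext fun s => by simpa using Ideal.Quotient.eq_zero_iff_mem.2 (hX s)
  rw [← Ideal.Quotient.eq_zero_iff_mem, ← Ideal.Quotient.mkₐ_eq_mk k, e, AlgHom.comp_apply,
    aeval_zero', constantCoeff_eq, coeff_zero_eq hQ h hf, map_zero, map_zero]

theorem sup_ne_top {P : Ideal (MvPolynomial σ k)} (hP : P.IsPrime) (h : Homog P) {s : σ}
    (hs : X s ∉ P) : P ⊔ Ideal.span {X s - 1} ≠ ⊤ := by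
  let x : σ → P.ResidueField := fun t => algebraMap (MvPolynomial σ k) _ (X t)
  have e : aeval x = IsScalarTower.toAlgHom k (MvPolynomial σ k) P.ResidueField :=
    MvPolynomial.algHom_ext fun t => by simp [x]
  have hx : x ∈ zeroLocus P.ResidueField P := fun f hf => by
    rw [e]
    exact Ideal.algebraMap_residueField_eq_zero.2 hf
  have h0 : x s ≠ 0 := mt Ideal.algebraMap_residueField_eq_zero.1 hs
  refine ne_top_of_le_ne_top (RingHom.ker_ne_top (aeval ((x s)⁻¹ • x) :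
    MvPolynomial σ k →ₐ[k] P.ResidueField)) (sup_le (smul_mem h hx _) ?_)
  rw [Ideal.span_singleton_le_iff_mem, RingHom.mem_ker]
  simp [h0]

end ModelE

open Pool.Agent.Lib.MP_60ec62_ag.DL ModelE in
theorem cone_dim [Finite σ] {I : Ideal (MvPolynomial σ k)} (hI : Homog I) (d : ℕ)
    (h : ∀ s, ∀ Q ∈ minimalPrimes (Chart I s), Algebra.trdeg k (Chart I s ⧸ Q) = d)
    (h0 : I ≠ ⊤ → ∃ s, Nontrivial (Chart I s)) (P : Ideal (MvPolynomial σ k))
    (hP : P ∈ I.minimalPrimes) : ringKrullDim (MvPolynomial σ k ⧸ P) = (d + 1 : ℕ) := by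
  have p1 : P.IsPrime := hP.1.1
  have p2 : I ≤ P := hP.1.2
  have p3 : ∀ Q : Ideal (MvPolynomial σ k), Q.IsPrime → I ≤ Q → Q ≤ P → P ≤ Q :=
    fun Q h1 h2 h3 => hP.2 ⟨h1, h2⟩ h3
  have hH : Homog P := by
    obtain ⟨Q, q1, q2, q3, q4⟩ := exists_core P p1
    rwa [le_antisymm q3 (p3 Q q1 (q4 I hI p2) q3)] at q2
  have hX : ∀ (Q : Ideal (MvPolynomial σ k)) s, Ideal.span {X s - 1} ≤ Q → X s - 1 ∈ Q :=
    fun Q s => (Ideal.span_singleton_le_iff_mem _).1
  obtain ⟨s, hs⟩ : ∃ s, X s ∉ P := by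
    by_contra hs
    push Not at hs
    obtain ⟨s, hn⟩ := h0 (ne_top_of_le_ne_top p1.ne_top p2)
    obtain ⟨Q, hQ, hle⟩ := Ideal.exists_le_maximal _ (Ideal.Quotient.nontrivial_iff.1 hn)
    obtain ⟨Q', q1, q2, q3, q4⟩ := exists_core Q hQ.isPrime
    have h1 := q3 (p3 Q' q1 (q4 I hI (le_sup_left.trans hle)) (le_of_X hs q1.ne_top q2) (hs s))
    refine hQ.ne_top ((Ideal.eq_top_iff_one _).2 ?_)
    simpa using Q.sub_mem h1 (hX Q s (le_sup_right.trans hle))
  obtain ⟨M, hM, hle⟩ := Ideal.exists_le_maximal _ (sup_ne_top p1 hH hs)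
  obtain ⟨Q, hQ, -⟩ := Ideal.exists_minimalPrimes_le hle
  have q1 : Q.IsPrime := hQ.1.1
  have hd := Dim.dm_min (𝕜 := k) ⟨P, p1⟩ ⟨Q, q1⟩ _ (not_mem p1.ne_top hH s) hQ
  have hQ' : Q ∈ (I ⊔ Ideal.span {X s - 1}).minimalPrimes := by
    refine ⟨⟨q1, (sup_le_sup_right p2 _).trans hQ.1.2⟩, fun Q' hq hle => ?_⟩
    obtain ⟨Z, z1, z2, z3, z4⟩ := exists_core Q q1
    obtain ⟨Z', y1, y2, y3, y4⟩ := exists_core Q' hq.1
    have h1 : (⟨Z, z1⟩ : PrimeSpectrum _) < ⟨Q, q1⟩ := lt_of_le_of_ne z3 fun e =>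
      not_mem z1.ne_top z2 s (by
        rw [show Z = Q from congrArg PrimeSpectrum.asIdeal e]
        exact hX Q s (le_sup_right.trans hQ.1.2))
    have h2 := Dim.dm_lt (𝕜 := k) h1
    have h3 : Z ≤ P := by
      rcases (show (⟨P, p1⟩ : PrimeSpectrum _) ≤ ⟨Z, z1⟩ from
        z4 P hH (le_sup_left.trans hQ.1.2)).eq_or_lt with e | e
      · exact e.ge
      · have := Dim.dm_lt (𝕜 := k) e
        omega
    have h4 := (p3 Z' y1 (y4 I hI (le_sup_left.trans hq.2))
      ((z4 Z' y2 (y3.trans hle)).trans h3)).trans y3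
    exact hQ.2 ⟨hq.1, sup_le h4 (le_sup_right.trans hq.2)⟩ hle
  rw [Ideal.minimalPrimes_eq_comap] at hQ'
  obtain ⟨T, hT, rfl⟩ := hQ'
  have h5 := (Dim.trdeg_locSurj (Dim.mk_locSurj (𝕜 := k) (I ⊔ Ideal.span {X s - 1}))
    ⟨T, hT.1.1⟩).trans (h s T hT)
  have h6 : dm k (⟨T.comap (Ideal.Quotient.mk _), q1⟩ : PrimeSpectrum _) = d := by
    rw [dm]
    exact (congrArg Cardinal.toNat h5).trans (Cardinal.toNat_natCast d)
  obtain ⟨n, h7, h8⟩ := Dim.trdeg_ft (𝕜 := k) (⟨P, p1⟩ : PrimeSpectrum (MvPolynomial σ k))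
  rw [h6, dm, h7, Cardinal.toNat_natCast] at hd
  rw [← hd]
  exact (MP_2c79a0_ag.H68Dim.ringKrullDim_quot ⟨P, p1⟩).trans (by rw [h8]; rfl)

variable {K : Type} [Field K] [Algebra k K]

theorem homog_smul_mem {I : Ideal (MvPolynomial σ k)} (hI : Homog I) {x : σ → K}
    (hx : x ∈ zeroLocus K I) (c : K) : c • x ∈ zeroLocus K I := ModelE.smul_mem hI hx c

theorem homog_vanishing [Infinite K] {S : Set (σ → K)} (hS : ∀ c : K, ∀ x ∈ S, c • x ∈ S) :
    Homog (vanishingIdeal k S) := by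
  intro f hf n x hx
  rcases lt_or_ge f.totalDegree n with hn | hn
  · rw [homogeneousComponent_eq_zero _ _ hn, map_zero]
  have h : (∑ m ∈ Finset.range (f.totalDegree + 1),
      Polynomial.monomial m (aeval x (homogeneousComponent m f)) : Polynomial K) = 0 := by
    refine Polynomial.funext fun c => ?_
    rw [Polynomial.eval_zero, ← hf _ (hS c x hx), ModelE.aeval_smul, Polynomial.eval_finsetSum]
    exact Finset.sum_congr rfl fun m _ => by rw [Polynomial.eval_monomial, mul_comm]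
  have h1 := congrArg (Polynomial.coeff · n) h
  simpa [Polynomial.coeff_monomial, Nat.lt_succ_iff, hn] using h1

theorem vanishing_chart {S : Set (σ → K)} (hS : ∀ c : K, ∀ x ∈ S, c • x ∈ S) (s : σ) :
    vanishingIdeal k {x ∈ S | x s = 1} = vanishingIdeal k S ⊔ Ideal.span {X s - 1} := by
  refine le_antisymm (fun f hf => ?_) (sup_le (vanishingIdeal_anti_mono fun _ h => h.1) ?_)
  · set F := ∑ n ∈ Finset.range (f.totalDegree + 1),
      X s ^ (f.totalDegree - n) * homogeneousComponent n f with hF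
    have h1 : X s * F ∈ vanishingIdeal k S := fun x hx => by
      rw [map_mul, aeval_X, mul_eq_zero, or_iff_not_imp_left]
      intro h0
      have h2 := hf ((x s)⁻¹ • x) ⟨hS _ x hx, by simp [h0]⟩
      rw [ModelE.aeval_smul] at h2
      rw [← mul_zero (x s ^ f.totalDegree), ← h2, Finset.mul_sum, hF, map_sum]
      refine Finset.sum_congr rfl fun n hn => ?_
      rw [map_mul, map_pow, aeval_X, pow_sub₀ _ h0 (Nat.lt_succ_iff.1 (Finset.mem_range.1 hn)),
        inv_pow, mul_assoc]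
    have h2 : f - X s * F ∈ Ideal.span {(X s - 1 : MvPolynomial σ k)} := by
      have e : Ideal.Quotient.mk (Ideal.span {(X s - 1 : MvPolynomial σ k)}) (X s) = 1 :=
        Ideal.Quotient.eq.2 (Ideal.mem_span_singleton_self _)
      rw [← Ideal.Quotient.eq, map_mul, e, one_mul, hF, map_sum]
      simp only [map_mul, map_pow, e, one_pow, one_mul]
      rw [← map_sum, sum_homogeneousComponent]
    rw [← add_sub_cancel (X s * F) f]
    exact Submodule.add_mem_sup h1 h2
  · rw [Ideal.span_singleton_le_iff_mem]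
    intro x hx
    simp [hx.2]

end Pool.Agent.Lib.MP_557161_ag.DL.Model
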