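import Pool.Agent.Lib.MP_557161_ag.DL.ModelB
import Pool.Agent.Lib.MP_557161_ag.DL.ModelC
import Pool.Agent.Lib.MP_557161_ag.DL.ModelD
import Pool.Agent.Lib.MP_557161_ag.DL.ModelE

/-!
The projective model of the Deligne-Lusztig variety: homogeneous, smooth, of pure dimension `d`,
and its points over any algebraically closed field are the chains.
-/

namespace Pool.Agent.Lib.MP_557161_ag.DL

open MvPolynomial Matrix

variable {k : Type} [Field k] {ι : Type} [Fintype ι] [DecidableEq ι]

/-- The standing hypotheses on the form and on `q`. -/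
structure Form (G : Matrix ι ι k) (q : ℕ) : Prop where
  pow : ∃ p e : ℕ, p.Prime ∧ p ≠ 2 ∧ CharP k p ∧ 0 < e ∧ q = p ^ e
  symm : Gᵀ = G ∨ Gᵀ = -G
  det : G.det ≠ 0
  frob : ∀ i j, G i j ^ q = G i j

open Classical in
/-- The dimension: the number of letters, where the last node of an even orthogonal group (which
exchanges the two families of maximal isotropic subspaces) does not count. -/
noncomputable def dimW (G : Matrix ι ι k) {n l : ℕ} (w : Fin l → Fin n) : ℕ :=
  (Finset.univ.filter fun j => ¬ (Gᵀ = G ∧ 2 * ((w j : ℕ) + 1) = Fintype.card ι)).card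

namespace Model

variable {G : Matrix ι ι k} {q n l : ℕ}

omit [DecidableEq ι] in
/-- The ideal of the chart, cut out by the matrix equations. -/
noncomputable def cI (G : Matrix ι ι k) (q : ℕ) (w : Fin l → Fin n) (s : Idx ι n l) :
    Ideal (MvPolynomial (Idx ι n l) k) :=
  sInf {J | Good (G.map (algebraMap k (MvPolynomial (Idx ι n l) k ⧸ J))) q w s
    fun t => Ideal.Quotient.mk J (X t)}

omit [DecidableEq ι] in
lemma mem_iff_good (w : Fin l → Fin n) (s : Idx ι n l) {B : Type} [CommRing B] [Algebra k B]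
    (x : Idx ι n l → B) :
    (∀ f ∈ cI G q w s, aeval x f = 0) ↔ Good (G.map (algebraMap k B)) q w s x := by
  constructor
  · intro h
    have h0 : Good (G.map (algebraMap k (MvPolynomial (Idx ι n l) k ⧸ cI G q w s))) q w s
        fun t => Ideal.Quotient.mk (cI G q w s) (X t) := by
      refine Good.of_maps (τ := {J | Good (G.map (algebraMap k (MvPolynomial (Idx ι n l) k ⧸ J)))
        q w s fun t => Ideal.Quotient.mk J (X t)})
        (fun J => Ideal.Quotient.factor (sInf_le J.2)) (fun x y e => ?_) fun J => J.2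
      obtain ⟨x, rfl⟩ := Ideal.Quotient.mk_surjective x
      obtain ⟨y, rfl⟩ := Ideal.Quotient.mk_surjective y
      exact Ideal.Quotient.eq.2 (Submodule.mem_sInf.2 fun J hJ => Ideal.Quotient.eq.1 (e ⟨J, hJ⟩))
    have h1 := h0.map (Ideal.Quotient.liftₐ _ (aeval x) h).toRingHom
    have e1 : (G.map (algebraMap k (MvPolynomial (Idx ι n l) k ⧸ cI G q w s))).map
        (Ideal.Quotient.liftₐ _ (aeval x) h).toRingHom = G.map (algebraMap k B) :=
      Matrix.ext fun i j => (Ideal.Quotient.liftₐ (cI G q w s) (aeval x) h).commutes (G i j)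
    have e2 : ((Ideal.Quotient.liftₐ _ (aeval x) h).toRingHom ∘
        fun t => Ideal.Quotient.mk (cI G q w s) (X t)) = x := funext fun t => aeval_X x t
    rwa [e1, e2] at h1
  · intro h f hf
    refine Submodule.mem_sInf.1 hf (RingHom.ker (aeval x : _ →ₐ[k] B)) ?_
    refine Good.of_maps (τ := Unit) (fun _ => (Ideal.kerLiftAlg (aeval x : _ →ₐ[k] B)).toRingHom)
      (fun a b e => Ideal.kerLiftAlg_injective _ (e ())) fun _ => ?_
    have e1 : (G.map (algebraMap k (MvPolynomial (Idx ι n l) k ⧸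
        RingHom.ker (aeval x : _ →ₐ[k] B)))).map
        (Ideal.kerLiftAlg (aeval x : _ →ₐ[k] B)).toRingHom = G.map (algebraMap k B) :=
      Matrix.ext fun i j => (Ideal.kerLiftAlg (aeval x : _ →ₐ[k] B)).commutes _
    have e2 : ((Ideal.kerLiftAlg (aeval x : _ →ₐ[k] B)).toRingHom ∘
        fun t => Ideal.Quotient.mk (RingHom.ker (aeval x : _ →ₐ[k] B)) (X t)) = x :=
      funext fun t => aeval_X x t
    rwa [e1, e2]

omit [DecidableEq ι] in
lemma good_hom {w : Fin l → Fin n} {s : Idx ι n l} {B : Type} [CommRing B] [Algebra k B]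
    (g : (MvPolynomial (Idx ι n l) k ⧸ cI G q w s) →ₐ[k] B) :
    Good (G.map (algebraMap k B)) q w s fun t => g (Ideal.Quotient.mk _ (X t)) := by
  refine (mem_iff_good w s _).1 fun f hf => ?_
  have e : (aeval fun t => g (Ideal.Quotient.mk _ (X t))) = g.comp (Ideal.Quotient.mkₐ k _) :=
    MvPolynomial.algHom_ext fun t => aeval_X _ t
  rw [e, AlgHom.comp_apply, Ideal.Quotient.mkₐ_eq_mk, Ideal.Quotient.eq_zero_iff_mem.2 hf, map_zero]

omit [Fintype ι] [DecidableEq ι] in
lemma hom_ext {I : Ideal (MvPolynomial (Idx ι n l) k)} {B : Type} [CommRing B] [Algebra k B]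
    {g g' : (MvPolynomial (Idx ι n l) k ⧸ I) →ₐ[k] B}
    (h : ∀ t, g (Ideal.Quotient.mk _ (X t)) = g' (Ideal.Quotient.mk _ (X t))) : g = g' :=
  Ideal.Quotient.algHom_ext k (MvPolynomial.algHom_ext h)

omit [DecidableEq ι] in
lemma exists_hom {w : Fin l → Fin n} {s : Idx ι n l} {B : Type} [CommRing B] [Algebra k B]
    {M : Fin (l + 1) → Fl ι n B} (h : IsPt (G.map (algebraMap k B)) q w s M) :
    ∃ g : (MvPolynomial (Idx ι n l) k ⧸ cI G q w s) →ₐ[k] B,
      ∀ t, g (Ideal.Quotient.mk _ (X t)) = plk' M t := by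
  have e := mat_plk fun j => (h.fl j).norm
  exact ⟨Ideal.Quotient.liftₐ _ (aeval (plk' M)) ((mem_iff_good w s _).2
    ⟨e.symm ▸ h, by rw [e]⟩), fun t => aeval_X _ t⟩

variable (hG : Form G q)
include hG

lemma two_le : 2 ≤ q := by
  obtain ⟨p, e, hp, -, -, he, rfl⟩ := hG.pow
  exact hp.two_le.trans (Nat.le_self_pow he.ne' p)

lemma two_ne : (2 : k) ≠ 0 := by
  obtain ⟨p, e, hp, h2, hc, -, -⟩ := hG.pow
  intro h
  exact h2 ((Nat.prime_dvd_prime_iff_eq hp Nat.prime_two).1
    ((CharP.cast_eq_zero_iff k p 2).1 (by exact_mod_cast h)))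

variable (B : Type) [CommRing B] [Algebra k B]

lemma exists_frob : ∃ F : B →+* B, ∀ x, F x = x ^ q := by
  obtain ⟨p, e, hp, -, hc, -, rfl⟩ := hG.pow
  rcases subsingleton_or_nontrivial B with _ | _
  · exact ⟨RingHom.id B, fun _ => Subsingleton.elim _ _⟩
  · have := Fact.mk hp
    have := charP_of_injective_algebraMap (algebraMap k B).injective p
    exact ⟨iterateFrobenius B p e, fun x => iterateFrobenius_def p e x⟩

lemma unit_two : IsUnit (2 : B) := by
  simpa only [map_ofNat] using (Ne.isUnit (two_ne hG)).map (algebraMap k B)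

lemma unit_det : IsUnit (G.map (algebraMap k B)).det :=
  (algebraMap k B).map_det G ▸ (Ne.isUnit hG.det).map (algebraMap k B)

lemma map_symm : (G.map (algebraMap k B))ᵀ = G.map (algebraMap k B) ∨
    (G.map (algebraMap k B))ᵀ = -G.map (algebraMap k B) := by
  rw [← transpose_map]
  exact hG.symm.imp (fun h => by rw [h]) fun h => by rw [h, Matrix.map_neg _ (map_neg _)]

lemma map_frob : (G.map (algebraMap k B)).map (· ^ q) = G.map (algebraMap k B) :=
  Matrix.ext fun i j => by simp only [map_apply, ← map_pow, hG.frob]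

omit [CommRing B] [Algebra k B] in
lemma zero_cI [Field B] [Algebra k B] (w : Fin l → Fin n) (s : Idx ι n l) :
    zeroLocus B (cI G q w s) = {x ∈ cone (G.map (algebraMap k B)) q w | x s = 1} := by
  obtain ⟨F, hF⟩ := exists_frob hG B
  ext x
  exact (mem_iff_good w s x).trans (good_iff (fun a b => by rw [← hF, ← hF, ← hF, map_add])
    (by have := two_le hG; omega) s x)

omit [CommRing B] [Algebra k B] in
lemma smooth_cI (w : Fin l → Fin n) (s : Idx ι n l) :
    Algebra.Smooth k (MvPolynomial (Idx ι n l) k ⧸ cI G q w s) := by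
  refine ⟨.of_comp_surjective fun B _ _ J hJ g => ?_,
    Algebra.FinitePresentation.of_finiteType.1 inferInstance⟩
  obtain ⟨F, hF⟩ := exists_frob hG B
  have h : SqZ (Ideal.Quotient.mk J) := ⟨Ideal.Quotient.mk_surjective, fun a b ha hb => by
    have := Ideal.mul_mem_mul (Ideal.Quotient.eq_zero_iff_mem.1 ha)
      (Ideal.Quotient.eq_zero_iff_mem.1 hb)
    rwa [← pow_two, hJ] at this⟩
  have hg := good_hom g
  obtain ⟨M, m1, m2⟩ := pt_lift h (unit_two hG B) (two_le hG) F hF (map_symm hG B) (unit_det hG B)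
    (map_frob hG B) hg.1
  obtain ⟨g', hg'⟩ := exists_hom m1
  refine ⟨g', hom_ext fun t => ?_⟩
  show Ideal.Quotient.mk J (g' _) = _
  rw [hg', congrFun hg.2 t, ← funext₂ m2, plk'_map]
  rfl

lemma cI_eq (w : Fin l → Fin n) (s : Idx ι n l) :
    ideal k G q w ⊔ Ideal.span {X s - 1} = cI G q w s := by
  have := smooth_cI hG w s
  have h := (Ideal.isRadical_iff_quotient_reduced _).2
    (smooth_reduced k (MvPolynomial (Idx ι n l) k ⧸ cI G q w s))
  rw [← h.radical, ← vanishingIdeal_zeroLocus_eq_radical (K := AlgebraicClosure k), zero_cI hG,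
    vanishing_chart fun c x hx => cone_smul c hx]
  rfl

lemma card_lifts (hn : n = Fintype.card ι / 2) (w : Fin l → Fin n) (s : Idx ι n l) (L : Type)
    [Field L] [Finite L] [Algebra k L] (x : (MvPolynomial (Idx ι n l) k ⧸ cI G q w s) →ₐ[k] L) :
    Nat.card {g : (MvPolynomial (Idx ι n l) k ⧸ cI G q w s) →ₐ[k] DualNumber L //
      ∀ r, (g r).fst = x r} = Nat.card L ^ dimW G w := by
  classical
  have : Finite (DualNumber L) := inferInstanceAs (Finite (L × L))
  obtain ⟨F, hF⟩ := exists_frob hG (DualNumber L)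
  have e : (G.map (algebraMap k (DualNumber L))).map (fs L) = G.map (algebraMap k L) := rfl
  have hx := good_hom x
  have h2 : (2 : L) ≠ 0 := (unit_two hG L).ne_zero
  have h := pt_card sqz_fs (two_le hG) F hF (map_frob hG (DualNumber L)) (e ▸ hx.1) _
    fun j M' hM' adj => step_card h2 (map_symm hG _) (unit_det hG _) (sy := Gᵀ = G)
      (fun h => by rw [e, ← transpose_map, h])
      (fun h => by rw [e, ← transpose_map, hG.symm.resolve_left h, Matrix.map_neg _ (map_neg _)])
      hn ((e ▸ hx.1).fl _) hM' (w j) adj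
  rw [Finset.prod_pow_eq_pow_sum, card_sub (p := fun g => ∀ r, (g r).fst = x r)
    (fun g : (MvPolynomial (Idx ι n l) k ⧸ cI G q w s) →ₐ[k] DualNumber L =>
      mat s fun t => g (Ideal.Quotient.mk _ (X t)))
    (fun g hg => ⟨(good_hom g).1, fun j i => Matrix.ext fun a c => hg _⟩)
    (fun g g' e => hom_ext fun t => by
      rw [congrFun (good_hom g).2 t, congrFun (good_hom g').2 t, e])] at h
  · rw [h, dimW, Finset.card_filter]
    congr 1
    exact Finset.sum_congr rfl fun j _ => by split_ifs <;> simp_all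
  · rintro M ⟨m1, m2⟩
    obtain ⟨g, hg⟩ := exists_hom m1
    refine ⟨g, fun r => ?_, by rw [funext hg, mat_plk fun j => (m1.fl j).norm]⟩
    have : (TrivSqZeroExt.fstHom k L L).comp g = x := hom_ext fun t => by
      show fs L (g _) = _
      rw [hg, congrFun hx.2 t, ← funext₂ m2, plk'_map]
      rfl
    exact DFunLike.congr_fun this r

omit [CommRing B] [Algebra k B] in
lemma cI_ne_top [Field B] [Algebra k B] {w : Fin l → Fin n}
    (h : (cone (G.map (algebraMap k B)) q w).Nonempty) : ∃ s, cI G q w s ≠ ⊤ := by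
  obtain ⟨s, x, h1, h2⟩ := cone_nonempty h
  refine ⟨s, fun e => ?_⟩
  have : x ∈ zeroLocus B (cI G q w s) := by rw [zero_cI hG]; exact ⟨h1, h2⟩
  rw [e, zeroLocus_top] at this
  exact this

omit [CommRing B] [Algebra k B] in
lemma zero_mem [Field B] [Algebra k B] (L : Type) [Field L] [IsAlgClosed L] [Algebra k L]
    {w : Fin l → Fin n} (h : (cone (G.map (algebraMap k B)) q w).Nonempty) :
    0 ∈ cone (G.map (algebraMap k L)) q w := by
  obtain ⟨s, hs⟩ := cI_ne_top hG B h
  rcases (zeroLocus L (cI G q w s)).eq_empty_or_nonempty with e | ⟨x, hx⟩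
  · refine absurd (Ideal.radical_eq_top.1 ?_) hs
    rw [← vanishingIdeal_zeroLocus_eq_radical (K := L), e, vanishingIdeal_empty]
  · rw [zero_cI hG] at hx
    simpa using cone_smul 0 hx.1

omit hG [DecidableEq ι] in
lemma cone_ne {w : Fin l → Fin n} (h : ideal k G q w ≠ ⊤) :
    (cone (G.map (algebraMap k (AlgebraicClosure k))) q w).Nonempty :=
  Set.nonempty_iff_ne_empty.2 fun e => h (by rw [ideal, e, vanishingIdeal_empty])

end Model

open Model

variable [Finite k] {G : Matrix ι ι k} {q n l : ℕ} (hG : Form G q) (hn : n = Fintype.card ι / 2)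
  (w : Fin l → Fin n)

omit [DecidableEq ι] [Finite k] in
theorem model_homog : Homog (ideal k G q w) :=
  homog_vanishing fun c _ hx => cone_smul c hx

include hG hn

omit [Finite k] hn in
theorem model_smooth' (s : Idx ι n l) : Algebra.Smooth k (Chart (ideal k G q w) s) := by
  unfold Chart
  rw [cI_eq hG]
  exact smooth_cI hG w s

omit [Finite k] hn in
theorem model_points' (L : Type) [Field L] [IsAlgClosed L] [Algebra k L] :
    zeroLocus L (ideal k G q w) = cone (G.map (algebraMap k L)) q w := by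
  have key : ∀ (x : Idx ι n l → L) s, x s = 1 →
      (x ∈ zeroLocus L (ideal k G q w) ↔ x ∈ cone (G.map (algebraMap k L)) q w) := by
    intro x s hs
    have e := Set.ext_iff.1 (zero_cI hG L w s) x
    rw [← cI_eq hG] at e
    refine ⟨fun h => (e.1 fun f hf => ?_).1, fun h f hf => e.2 ⟨h, hs⟩ f (Ideal.mem_sup_left hf)⟩
    refine (sup_le (fun f hf => h f hf) ((Ideal.span_singleton_le_iff_mem _).2 ?_) :
      _ ≤ RingHom.ker (aeval x : _ →ₐ[k] L)) hf
    simp [RingHom.mem_ker, hs]
  ext x
  by_cases hx : x = 0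
  · subst hx
    refine ⟨fun h => zero_mem hG _ L (cone_ne fun e => ?_), fun h f hf => ?_⟩
    · rw [e, zeroLocus_top] at h
      exact h
    · have h0 := hf 0 (zero_mem hG L (AlgebraicClosure k) ⟨0, h⟩)
      rw [aeval_zero, map_eq_zero] at h0
      rw [aeval_zero, h0, map_zero]
  · obtain ⟨s, hs⟩ := Function.ne_iff.1 hx
    have hs' : x s ≠ 0 := hs
    have e : x s • (x s)⁻¹ • x = x := smul_inv_smul₀ hs' x
    have h1 := key ((x s)⁻¹ • x) s (inv_mul_cancel₀ hs')
    exact ⟨fun h => e ▸ cone_smul _ (h1.1 (homog_smul_mem (model_homog w) h _)),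
      fun h => e ▸ homog_smul_mem (model_homog w) (h1.2 (cone_smul _ h)) _⟩

set_option linter.unusedSectionVars false in
theorem model_smooth (s : Idx ι n l) : Algebra.Smooth k (Chart (ideal k G q w) s) :=
  model_smooth' hG w s

theorem model_dim (P : Ideal (MvPolynomial (Idx ι n l) k)) (hP : P ∈ (ideal k G q w).minimalPrimes) :
    ringKrullDim (MvPolynomial (Idx ι n l) k ⧸ P) = (dimW G w + 1 : ℕ) := by
  refine cone_dim (model_homog w) _ (fun s => ?_) (fun h => ?_) P hP
  · unfold Chart
    rw [cI_eq hG]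
    have := smooth_cI hG w s
    exact smooth_trdeg _ fun L _ _ _ => card_lifts hG hn w s L
  · obtain ⟨s, hs⟩ := cI_ne_top hG _ (cone_ne h)
    exact ⟨s, Ideal.Quotient.nontrivial_iff.2 (by rwa [cI_eq hG])⟩

set_option linter.unusedSectionVars false in
theorem model_points (L : Type) [Field L] [IsAlgClosed L] [Algebra k L] :
    zeroLocus L (ideal k G q w) = cone (G.map (algebraMap k L)) q w :=
  model_points' hG w L

end Pool.Agent.Lib.MP_557161_ag.DL
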