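import Pool.Agent.Lib.MP_557161_ag.DL.T0e

/-!
The conjecture of Tate for a smooth projective scheme whose square has Chow groups generated by
exterior products.
-/

namespace Pool.Agent.Lib.MP_557161_ag.DL

open MvPolynomial Filter

variable {k : Type} [Field k] [Finite k] {σ : Type} [Finite σ]

/-- The ideal over the algebraic closure. -/
noncomputable abbrev upI (I : Ideal (MvPolynomial σ k)) :
    Ideal (MvPolynomial σ (AlgebraicClosure k)) :=
  I.map (MvPolynomial.map (algebraMap k (AlgebraicClosure k)))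

omit [Finite k] [Finite σ] in
theorem Homog.upI {I : Ideal (MvPolynomial σ k)} (hI : Homog I) : Homog (upI I) :=
  T0.homog_up hI

instance : Base (AlgebraicClosure k) :=
  ⟨inferInstance, ringChar k, (T0.fbar k).prime, inferInstance⟩

omit [Finite k] in
theorem nonempty_res {I P : Ideal (MvPolynomial σ k)} (hI : Homog I) (hP : Homog P) (h : I ≤ P) :
    Nonempty (Res I P) :=
  T0.nonempty_res hI hP h

variable {I : Ideal (MvPolynomial σ k)} (hI : Homog I) (hs : ∀ s, Algebra.Smooth k (Chart I s))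
  {d : ℕ} (hd : ∀ P ∈ I.minimalPrimes, ringKrullDim (MvPolynomial σ k ⧸ P) = (d + 1 : ℕ))

include hI hs hd

theorem chi_eventually {i n : ℕ} (h : i + n = d) (P : Var I i) (Q : Var I n) (F : Res I P.1) :
    ∀ᶠ m in atTop, F.chi Q.1 d m = F.inter Q.1 d :=
  haveI := T0.fbar k
  (T0.chi_ev (AlgebraicClosure k) hI hs hd h P Q F).1

theorem tate (hV : Van (XS (upI I) hI.upI) (XS (upI I) hI.upI)) (L : ℕ → Type)
    [∀ m, Field (L m)] [∀ m, Algebra k (L m)] (hL : ∀ m, Module.finrank k (L m) = m + 1) :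
    ∃ ζ : ℂ → ℂ, Meromorphic ζ ∧
      (∀ s : ℂ, (d : ℝ) < s.re → ζ s = Complex.exp (∑' m : ℕ,
        (points I (L m) : ℂ) * (Nat.card k : ℂ) ^ (-((m + 1 : ℕ) : ℂ) * s) / (m + 1 : ℕ))) ∧
      (∀ i n : ℕ, i + n = d → ∀ F : ∀ P : Var I i, Res I P.1, ∃ ρ : ℕ,
        Module.rank ℤ (Num I i n F) = ρ ∧ meromorphicOrderAt ζ n = (-(ρ : ℤ) : ℤ)) ∧
      ∀ n : ℕ, d < n → meromorphicOrderAt ζ n = 0 := by
  have := T0.fbar k
  have := Fintype.ofFinite k
  obtain ⟨e, -, hq⟩ := FiniteField.card k (ringChar k)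
  obtain ⟨D⟩ := T0.exists_dec (T0.sm (AlgebraicClosure k) hI hs hd) hI.upI hV
  choose r₀ hr₀ hr₁ using fun t => T0.th_periodic hq (D.a t)
  have hr : 0 < ∏ t, r₀ t := Finset.prod_pos fun t _ => hr₀ t
  have hω := Complex.isPrimitiveRoot_exp _ hr.ne'
  choose hfin μ hμ0 hμ using fun n => T0.spec
    (ι := {t // MP_60ec62_ag.DL.dm (AlgebraicClosure k) (D.a t) + n = d + 1})
    (T0.th k (AlgebraicClosure k) σ)
    (fun u z => ((T0.sm (AlgebraicClosure k) hI hs hd).C1.ip u z : ℚ))
    (T0.cod (T0.sm (AlgebraicClosure k) hI hs hd) n) (T0.th_cod hI hs hd hq n)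
    (T0.ip_th hI hs hd hq) (fun t => D.c t.1) (fun t => D.a t.1) (fun t => D.b t.1)
    (fun t => ⟨D.ha t.1, t.2⟩) (D.star' n) hr (fun t => by
      obtain ⟨c, hc⟩ := Finset.dvd_prod_of_mem r₀ (Finset.mem_univ t.1)
      rw [hc, pow_mul, Equiv.Perm.pow_apply_eq_self_of_apply_eq_self (hr₁ _)]) hω
  obtain ⟨ζ, h1, h2, h3, h4⟩ := T0.zeta_all (Nat.card k) Finite.one_lt_card d hr hω μ
    (fun m => points I (L m)) fun m => by
      have : Module.Finite k (L m) := Module.finite_of_finrank_eq_succ (hL m)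
      have : Finite (L m) := Module.finite_of_finite k
      have := Fintype.ofFinite (L m)
      have hc : Fintype.card (L m) = ringChar k ^ (e * (m + 1)) := by
        rw [Module.card_eq_pow_finrank (K := k), hL, hq, pow_mul]
      have h5 := D.trace (Nat.mul_pos e.2 m.succ_pos) (T0.defOver_up' hq I (m + 1)) _
        fun t => T0.cm_th' hq (m + 1) (D.a t)
      have h6 : points I (L m) = (T0.sm (AlgebraicClosure k) hI hs hd).fixed
          (ringChar k ^ (e * (m + 1))) := by
        rw [T0.points_eq hI (IsAlgClosed.lift : L m →ₐ[k] AlgebraicClosure k), hc]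
        rfl
      have h7 := congrArg (fun x : ℚ => (x : ℂ)) h5
      simp only [Rat.cast_natCast, Rat.cast_sum (Finset.range _), Rat.cast_mul,
        Rat.cast_pow] at h7
      rw [h6]
      refine h7.trans (Finset.sum_congr rfl fun n _ => ?_)
      rw [Nat.card_eq_fintype_card, hq, pow_mul, Nat.cast_pow, ← pow_mul, ← pow_mul, mul_comm n,
        ← hμ]
      rfl
  refine ⟨ζ, h1, h2, fun i n h F => ⟨μ n 0, ?_, h3 n (by omega)⟩, h4⟩
  have := hfin n
  rw [T0.rank_num (K := AlgebraicClosure k) hI hs hd hq h F, hμ0, Module.finrank_eq_rank]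

end Pool.Agent.Lib.MP_557161_ag.DL
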