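import Pool.Agent.Lib.MP_557161_ag.DL.Main
import Pool.Agent.Lib.MP_557161_ag.DL.Model
import Pool.Agent.Lib.MP_557161_ag.DL.T0

/-!
The Pluecker-Segre map from the space of galleries onto the projective model.
-/

namespace Pool.Agent.Lib.MP_557161_ag.DL

open MvPolynomial Matrix

namespace Link

open Module Submodule

section Line

variable {L L' : Type} [Field L] [Field L'] {ι : Type} {n l : ℕ}

/-- The span of the Pluecker-Segre vectors of a family of subspaces. -/
def pline (E : Fin (l + 1) → Fin (n + 1) → Submodule L (ι → L)) :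
    Submodule L (Idx ι n l → L) :=
  span L {x | ∃ b : Fin (l + 1) → ∀ i : Fin (n + 1), Fin i → ι → L,
    (∀ j i a, b j i a ∈ E j i) ∧ x = plk b}

lemma pline_eq {E : Fin (l + 1) → Fin (n + 1) → Submodule L (ι → L)}
    {b : Fin (l + 1) → ∀ i : Fin (n + 1), Fin i → ι → L}
    (h : ∀ j i, span L (Set.range (b j i)) = E j i) : pline E = span L {plk b} := by
  refine le_antisymm (span_le.2 ?_) (span_mono ?_)
  · rintro _ ⟨b', hb', rfl⟩
    have h1 : ∀ j (i : Fin (n + 1)) a, ∃ c : Fin (i : ℕ) → L,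
        ∑ a', c a' • b j i a' = b' j i a := fun j i a =>
      (mem_span_range_iff_exists_fun L).1 (by rw [h]; exact hb' j i a)
    choose c hc using h1
    refine mem_span_singleton.2 ⟨∏ j, ∏ i, det (Matrix.of (c j i)), funext fun s => ?_⟩
    simp only [Pi.smul_apply, smul_eq_mul, plk, ← Finset.prod_mul_distrib, ← det_mul]
    refine Finset.prod_congr rfl fun j _ => Finset.prod_congr rfl fun i _ => ?_
    congr 1
    ext a a'
    simp [Matrix.mul_apply, ← hc, Finset.sum_apply]
  · rintro _ rfl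
    exact ⟨b, fun j i a => h j i ▸ subset_span ⟨a, rfl⟩, rfl⟩

lemma plk_nb {E : Fin (l + 1) → Fin (n + 1) → Submodule L (ι → L)}
    {b : Fin (l + 1) → ∀ i : Fin (n + 1), Fin i → ι → L} {s : Idx ι n l}
    (h : ∀ j i, NB (E j i) (b j i) (s j i)) : plk b ≠ 0 := by
  have e : plk b s = 1 := by
    refine Finset.prod_eq_one fun j _ => Finset.prod_eq_one fun i _ => ?_
    rw [← det_one (n := Fin (i : ℕ))]
    congr 1
    ext a c
    rw [Matrix.of_apply, (h j i).delta, Matrix.one_apply]
  intro e'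
  rw [e'] at e
  exact zero_ne_one e

lemma mapV_plk (κ : L →+* L') (b : Fin (l + 1) → ∀ i : Fin (n + 1), Fin i → ι → L) :
    mapV κ (plk b) = plk fun j i a => mapV κ (b j i a) := by
  funext s
  simp only [mapV, plk, map_prod, RingHom.map_det]
  rfl

variable {K : Type} [Field K] {M : Fld K}

lemma rdV_plk (O : Pl M) {b : Fin (l + 1) → ∀ i : Fin (n + 1), Fin i → ι → M}
    (h : ∀ j i a, IntV O (b j i a)) :
    IntV O (plk b) ∧ rdV O (plk b) = plk fun j i a => rdV O (b j i a) := by
  have e : ∀ s, plk b s = ((∏ j, ∏ i, det (Matrix.of fun a c =>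
      (⟨b j i a (s j i c), h j i a _⟩ : O.O)) : O.O) : M) := fun s => by
    change _ = O.O.subtype _
    simp only [plk, map_prod, RingHom.map_det]
    rfl
  refine ⟨fun s => by rw [e]; exact Subtype.property _, funext fun s => ?_⟩
  change O.rd _ = _
  rw [e, O.rd_coe]
  simp only [plk, map_prod, RingHom.map_det]
  refine Finset.prod_congr rfl fun j _ => Finset.prod_congr rfl fun i _ => ?_
  congr 1
  ext a c
  exact (O.rd_of_mem (h j i a _)).symm

variable [Finite ι]

lemma exists_nbs (O : Pl M) {E : Fin (l + 1) → Fin (n + 1) → Submodule M (ι → M)}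
    (h : ∀ j i, finrank M (E j i) = i) :
    ∃ (b : Fin (l + 1) → ∀ i : Fin (n + 1), Fin i → ι → M) (s : Idx ι n l),
      ∀ j i, NB (E j i) (b j i) (s j i) ∧ ∀ a, IntV O (b j i a) := by
  have h1 : ∀ j (i : Fin (n + 1)), ∃ (b : Fin i → ι → M) (s : Fin i → ι),
      NB (E j i) b s ∧ ∀ a, IntV O (b a) := fun j i => by
    obtain ⟨r, b, s, h1, h2⟩ := exists_nb O (E j i)
    have e : r = i := h1.finrank.symm.trans (h j i)
    subst e
    exact ⟨b, s, h1, h2⟩
  choose b s hb using h1
  exact ⟨b, s, hb⟩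

lemma exists_nbs' {E : Fin (l + 1) → Fin (n + 1) → Submodule L (ι → L)}
    (h : ∀ j i, finrank L (E j i) = i) :
    ∃ (b : Fin (l + 1) → ∀ i : Fin (n + 1), Fin i → ι → L) (s : Idx ι n l),
      ∀ j i, NB (E j i) (b j i) (s j i) := by
  obtain ⟨b, s, h⟩ := exists_nbs (Pl.top (Fld.base L)) h
  exact ⟨b, s, fun j i => (h j i).1⟩

lemma smap_pline (κ : L →+* L') {E : Fin (l + 1) → Fin (n + 1) → Submodule L (ι → L)}
    (h : ∀ j i, finrank L (E j i) = i) :
    smap κ (pline E) = pline fun j i => smap κ (E j i) := by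
  obtain ⟨b, s, hb⟩ := exists_nbs' h
  rw [pline_eq fun j i => (hb j i).span, pline_eq fun j i => ((hb j i).smap κ).span, smap_single,
    mapV_plk]

lemma sred_pline (O : Pl M) {E : Fin (l + 1) → Fin (n + 1) → Submodule M (ι → M)}
    (h : ∀ j i, finrank M (E j i) = i) :
    sred O (pline E) = pline fun j i => sred O (E j i) := by
  obtain ⟨b, s, hb⟩ := exists_nbs O h
  have h1 := rdV_plk O fun j i => (hb j i).2
  have h2 := fun j i => (hb j i).1.sred (hb j i).2
  rw [pline_eq fun j i => (hb j i).1.span, pline_eq fun j i => (h2 j i).span,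
    sred_single h1.1 (by rw [h1.2]; exact plk_nb h2), h1.2]

end Line

section Chain

variable {L : Type} [Field L] {ι : Type} [Fintype ι] {G : Matrix ι ι L} {n l : ℕ}

lemma path_iff {u : List ℕ} {D Z : Flg L ι} {Es : List (Flg L ι)} :
    Path G n u D Es Z ↔ Es.length = u.length ∧ (∀ j < u.length,
      Adj (u.getD j 0) ((D :: Es).getD j 0) ((D :: Es).getD (j + 1) 0) ∧
        IsFl G n ((D :: Es).getD (j + 1) 0)) ∧ (D :: Es).getD u.length 0 = Z := by
  induction u generalizing D Es with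
  | nil =>
    cases Es with
    | nil => simp [Path]
    | cons D' Es => simp [Path]
  | cons s u ih =>
    cases Es with
    | nil => simp [Path]
    | cons D' Es =>
      rw [Path, ih, List.length_cons, List.length_cons, Nat.forall_lt_succ_left]
      simp only [List.getD_cons_zero, List.getD_cons_succ, add_left_inj]
      tauto

/-- The members of a gallery. -/
def mb (n l : ℕ) (D : Flg L ι) (Es : List (Flg L ι)) :
    Fin (l + 1) → Fin (n + 1) → Submodule L (ι → L) := fun j i => (D :: Es).getD j 0 i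

/-- The word of the letters. -/
def word (w : Fin l → Fin n) : List ℕ := List.ofFn fun j => (w j : ℕ) + 1

lemma word_getD (w : Fin l → Fin n) (j : Fin l) : (word w).getD j 0 = (w j : ℕ) + 1 := by
  simp [word]

lemma word_length (w : Fin l → Fin n) : (word w).length = l := List.length_ofFn

lemma isFlag_of {D : Flg L ι} (h : IsFl G n D) : IsFlag G fun i : Fin (n + 1) => D i :=
  ⟨fun _ j hij => h.mono hij (Nat.lt_succ_iff.1 j.2), fun i => h.rank i (Nat.lt_succ_iff.1 i.2),
    fun i x hx _ hy => h.le_perp i i hy x hx⟩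

lemma chain_of {w : Fin l → Fin n} {φ : L →+* L} {q : ℕ} (hφ : ∀ x, φ x = x ^ q) {D : Flg L ι}
    {Es : List (Flg L ι)} (hD : IsFl G n D) (h : Path G n (word w) D Es (fmap φ D)) :
    IsChain G q w (mb n l D Es) := by
  obtain ⟨-, h2, h3⟩ := path_iff.1 h
  rw [word_length] at h2 h3
  refine ⟨fun j => isFlag_of ?_, fun j i hi => ?_, fun i => ?_⟩
  · refine Fin.cases hD (fun j => (h2 j j.2).2) j
  · refine (h2 j j.2).1 i fun e => hi (Fin.ext ?_)
    rw [e, word_getD]
    rfl
  · have e : (fun (v : ι → L) i => v i ^ q) = mapV φ := funext fun v => funext fun i => (hφ _).symm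
    change (D :: Es).getD l 0 i = span L _
    rw [h3, e]
    rfl

/-- A flag as a finite sequence. -/
noncomputable def toF (E : Fin (n + 1) → Submodule L (ι → L)) : Flg L ι :=
  Finsupp.onFinset (Finset.range (n + 1)) (fun i => if h : i < n + 1 then E ⟨i, h⟩ else ⊥)
    fun i hi => Finset.mem_range.2 (by
      by_contra h
      exact hi (dif_neg h))

omit [Fintype ι] in
lemma toF_lt (E : Fin (n + 1) → Submodule L (ι → L)) {i : ℕ} (h : i < n + 1) :
    toF E i = E ⟨i, h⟩ := dif_pos h

omit [Fintype ι] in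
lemma toF_ge (E : Fin (n + 1) → Submodule L (ι → L)) {i : ℕ} (h : ¬ i < n + 1) :
    toF E i = ⊥ := dif_neg h

lemma isFl_toF {E : Fin (n + 1) → Submodule L (ι → L)} (h : IsFlag G E) : IsFl G n (toF E) := by
  refine ⟨fun i hi => ?_, fun i hi => ?_, fun y hy x hx => ?_, fun i hi => toF_ge E (by omega)⟩
  · rw [toF_lt E (Nat.lt_succ_of_le hi)]
    exact h.2.1 _
  · rw [toF_lt E (by omega : i < n + 1), toF_lt E (by omega : i + 1 < n + 1)]
    exact h.1 (Nat.le_succ i)
  · rw [toF_lt E (Nat.lt_succ_self n)] at hx hy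
    exact h.2.2 _ x hx y hy

lemma of_chain {w : Fin l → Fin n} {φ : L →+* L} {q : ℕ} (hφ : ∀ x, φ x = x ^ q)
    {E : Fin (l + 1) → Fin (n + 1) → Submodule L (ι → L)} (h : IsChain G q w E) :
    ∃ D Es, IsFl G n D ∧ Path G n (word w) D Es (fmap φ D) ∧ mb n l D Es = E := by
  have e : ∀ j (hj : j < l + 1), (toF (E 0) :: List.ofFn fun j : Fin l => toF (E j.succ)).getD j 0
      = toF (E ⟨j, hj⟩) := fun j hj => by
    rw [← List.ofFn_succ (f := fun j => toF (E j)),
      List.getD_eq_getElem _ _ (by rw [List.length_ofFn]; exact hj), List.getElem_ofFn]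
  refine ⟨toF (E 0), List.ofFn fun j : Fin l => toF (E j.succ), isFl_toF (h.1 0),
    path_iff.2 ⟨by rw [word_length, List.length_ofFn], fun j hj => ?_, ?_⟩, ?_⟩
  · rw [word_length] at hj
    rw [e j (by omega), e (j + 1) (by omega), word_getD w ⟨j, hj⟩]
    refine ⟨fun i hi => ?_, isFl_toF (h.1 _)⟩
    by_cases h1 : i < n + 1
    · rw [toF_lt _ h1, toF_lt _ h1]
      exact h.2.1 ⟨j, hj⟩ ⟨i, h1⟩ fun e' => hi (congrArg Fin.val e')
    · rw [toF_ge _ h1, toF_ge _ h1]
  · rw [word_length, e l (Nat.lt_succ_self l)]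
    refine Finsupp.ext fun i => ?_
    rw [fmap_apply]
    by_cases h1 : i < n + 1
    · have e' : (fun (v : ι → L) i => v i ^ q) = mapV φ :=
        funext fun v => funext fun i => (hφ _).symm
      rw [toF_lt _ h1, toF_lt _ h1]
      refine (h.2.2 ⟨i, h1⟩).trans ?_
      rw [frob, e']
      rfl
    · rw [toF_ge _ h1, toF_ge _ h1, smap_bot]
  · funext j i
    rw [mb, e j j.2, toF_lt _ i.2]

omit [Fintype ι] in
lemma mb_map {L' : Type} [Field L'] {f : Flg L ι → Flg L' ι}
    {g : Submodule L (ι → L) → Submodule L' (ι → L')} (h : ∀ D i, f D i = g (D i))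
    (h0 : f 0 = 0) (D : Flg L ι) (Es : List (Flg L ι)) :
    mb n l (f D) (Es.map f) = fun j i => g (mb n l D Es j i) := by
  funext j i
  rw [mb, mb, ← h, ← List.map_cons, ← h0, List.getD_map]

end Chain

section Core

variable {k₀ : Type} [Field k₀] [Fintype k₀] {K : Type} [Field K] [Algebra k₀ K]
  {ι : Type} [Fintype ι] {G : Matrix ι ι k₀} {n l : ℕ} {w : Fin l → Fin n}

lemma xc_chain {L : Fld K} {y : ((Fl K ι).prod (Fl K ι).list).pt L}
    (h : (XC K G n (word w)).mem y) : IsChain (gm G L) (Fintype.card k₀) w (mb n l y.1 y.2) :=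
  chain_of (frH_apply k₀ L) h.1 h.2

lemma xc_nat {L L' : Fld K} (κ : L →ₐ[K] L') (y : ((Fl K ι).prod (Fl K ι).list).pt L)
    (h : (XC K G n (word w)).mem y) :
    pline (mb n l (((Fl K ι).prod (Fl K ι).list).map κ y).1
      (((Fl K ι).prod (Fl K ι).list).map κ y).2) = smap κ.toRingHom (pline (mb n l y.1 y.2)) := by
  rw [smap_pline _ fun j => ((xc_chain h).1 j).2.1]
  exact congrArg pline (mb_map (fmap_apply κ.toRingHom) Finsupp.mapRange_zero y.1 y.2)

variable {I : Ideal (MvPolynomial (Idx ι n l) K)} (hI : Homog I)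
  (h : ∀ (L : Fld K) [IsAlgClosed L], zeroLocus L I = cone (gm G L) (Fintype.card k₀) w)

/-- The Pluecker-Segre map. -/
noncomputable def mor : Mor (XC K G n (word w)) (XS I hI) where
  f y := pline (mb n l y.1 y.2)
  mem {L} y hy := by
    refine ((XS I hI).map_iff L.toCl _).1 ?_
    have hy' := ((XC K G n (word w)).map_iff L.toCl y).2 hy
    have e := xc_nat L.toCl y hy
    have hc := xc_chain hy'
    obtain ⟨b, s, hb⟩ := exists_nbs' fun j => (hc.1 j).2.1
    refine ⟨plk b, plk_nb hb, ?_, e.symm.trans (pline_eq fun j i => (hb j i).span)⟩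
    rw [h L.cl]
    refine ⟨1, b, ?_, (one_smul _ _).symm⟩
    rw [funext₂ fun j i => (hb j i).span]
    exact hc
  nat κ y hy := xc_nat κ y hy
  cont O y _ hy _ := by
    change _ = sred O _
    rw [sred_pline _ fun j => ((xc_chain hy).1 j).2.1]
    exact congrArg pline (mb_map (fred_apply O) Finsupp.mapRange_zero y.1 y.2)

lemma mor_proper : (mor hI h).Proper := fun O y _ hy _ =>
  ⟨(gm_red G O).isFl hy.1, (congrArg (Path _ n _ _ _) (fred_frH O y.1)).mp
    ((gm_red G O).path hy.2)⟩

lemma mor_surj : (mor hI h).Surj := by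
  rintro L _ _ ⟨x, h0, hx, rfl⟩
  rw [h L] at hx
  obtain ⟨c, b, hb, rfl⟩ := hx
  obtain ⟨D, Es, h1, h2, h3⟩ := of_chain (frH_apply k₀ L) hb
  refine ⟨(D, Es), ⟨h1, h2⟩, ?_⟩
  change pline (mb n l D Es) = _
  rw [h3, pline_eq fun _ _ => rfl, span_singleton_smul_eq (left_ne_zero_of_smul h0).isUnit]

include h in
theorem core [Base K] [NeZero (2 : k₀)] (hG : EForm G) (hn : n = Fintype.card ι / 2) :
    CK (XS I hI) := by
  refine CK.image (mor hI h) (mor_proper hI h) (mor_surj hI h) (ck_xc hG hn fun s hs => ?_)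
  obtain ⟨j, rfl⟩ := (List.mem_ofFn' _ _).1 hs
  exact ⟨Nat.le_add_left _ _, (w j).2⟩

end Core

end Link

variable {k : Type} [Field k] [Finite k] {ι : Type} [Fintype ι] [DecidableEq ι] {G : Matrix ι ι k}
  {q n l : ℕ}

theorem ck_model (hG : Form G q) (hn : n = Fintype.card ι / 2) (w : Fin l → Fin n) :
    CK (XS (upI (ideal k G q w)) (model_homog w).upI) := by
  obtain ⟨p, e, hp, hp2, hc, he, hq⟩ := hG.pow
  have := Fact.mk hp
  let K := AlgebraicClosure k
  let k₀ := GaloisField p e
  let _ : Fintype k₀ := Fintype.ofFinite _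
  have hcard : Fintype.card k₀ = q := by
    rw [hq, ← Nat.card_eq_fintype_card]
    exact GaloisField.card p e he.ne'
  let _ : Algebra (ZMod p) K := ZMod.algebra K p
  let _ : Algebra k₀ K := (IsAlgClosed.lift (R := ZMod p) (S := k₀) (M := K)).toRingHom.toAlgebra
  have h1 : ∀ i j, ∃ c : k₀, algebraMap k₀ K c = algebraMap k K (G i j) := fun i j =>
    (frH_eq_iff (k₀ := k₀) (L := Fld.base K) (x := algebraMap k K (G i j))).1 (by
      rw [frH_apply, hcard, ← map_pow, hG.frob])
  choose G₀ hG₀ using h1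
  have e0 : (Matrix.of G₀).map (algebraMap k₀ K) = G.map (algebraMap k K) := Matrix.ext hG₀
  have hi := (algebraMap k₀ K).injective
  have : NeZero (2 : k₀) := ⟨fun h2 => hp2 ((Nat.prime_dvd_prime_iff_eq hp Nat.prime_two).1
    ((CharP.cast_eq_zero_iff k₀ p 2).1 (by exact_mod_cast h2)))⟩
  refine Link.core (G := Matrix.of G₀) (w := w) _ (fun L _ => ?_) ⟨?_, fun x hx => ?_⟩ hn
  · let _ : Algebra k L := ((algebraMap K L).comp (algebraMap k K)).toAlgebra
    have : IsScalarTower k K L := IsScalarTower.of_algebraMap_eq fun _ => rfl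
    have e1 : gm (Matrix.of G₀) L = G.map (algebraMap k L) :=
      Matrix.ext fun i j => congrArg (algebraMap K L) (hG₀ i j)
    rw [e1, hcard, ← model_points hG hn w L]
    ext x
    constructor
    · intro hx f hf
      rw [← aeval_map_algebraMap K]
      exact hx _ (Ideal.mem_map_of_mem _ hf)
    · intro hx f hf
      refine (Ideal.map_le_iff_le_comap.2 fun f hf => ?_ :
        upI _ ≤ RingHom.ker (aeval x : _ →ₐ[K] L)) hf
      rw [Ideal.mem_comap, RingHom.mem_ker, aeval_map_algebraMap]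
      exact hx f hf
  · refine hG.symm.imp (fun hs => Matrix.ext fun i j => hi ?_) fun hs => Matrix.ext fun i j => hi ?_
    · exact (hG₀ j i).trans ((congrArg _ (congrFun (congrFun hs i) j)).trans (hG₀ i j).symm)
    · refine (hG₀ j i).trans ((congrArg _ (congrFun (congrFun hs i) j)).trans ?_)
      rw [Matrix.neg_apply, Matrix.neg_apply, map_neg, map_neg]
      exact congrArg _ (hG₀ i j).symm
  · refine Matrix.eq_zero_of_mulVec_eq_zero (fun hd => hG.det ((algebraMap k K).injective ?_)) hx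
    rw [RingHom.map_det, RingHom.mapMatrix_apply, ← e0, ← RingHom.mapMatrix_apply,
      ← RingHom.map_det, hd, map_zero, map_zero]

end Pool.Agent.Lib.MP_557161_ag.DL
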