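import Pool.Agent.Lib.MP_557161_ag.DL.Pass

/-!
A letter is absorbed by the coset representative.
-/

namespace Pool.Agent.Lib.MP_557161_ag.DL

open Module Submodule Matrix

/-- The letter `s` exchanges the positions `(τ, b)` and `(τ', b')`, the first being the smaller. -/
def Pair (n s : ℕ) (τ : Bool) (b : ℕ) (τ' : Bool) (b' : ℕ) : Prop :=
  1 ≤ s ∧ ((s < n ∧ τ = true ∧ b = s ∧ τ' = true ∧ b' = s + 1) ∨
    (s = n ∧ τ = true ∧ b = n ∧ τ' = false ∧ b' = n) ∨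
    (s < n ∧ τ = false ∧ b = s + 1 ∧ τ' = false ∧ b' = s))

namespace Abs

section Lin

variable {L L' : Type} [Field L] [Field L'] {ι : Type} [Fintype ι]

/-- The position of the line that is common to both members of a pair. -/
def P0 (G : Matrix ι ι L) (s : ℕ) : Bool → Bool → Submodule L (ι → L) → Flg L ι → Prop
  | true, true, ℓ, D => ℓ ≤ D (s + 1) ∧ ¬ ℓ ≤ D (s - 1)
  | true, false, ℓ, D => ¬ ℓ ≤ D (s - 1)
  | false, _, ℓ, D => ¬ D (s + 1) ≤ perp G ℓ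

/-- The conditions that are common to both members of a pair. -/
structure R0 (G : Matrix ι ι L) (n s : ℕ) (τ τ' : Bool) (A D : Flg L ι) : Prop where
  pos : P0 G s τ τ' (A 1) D
  lo : ∀ i < s, D i ≤ A (i + 1)
  hi : ∀ i, s < i → i ≤ n → D i ⊓ perp G (A 1) ≤ A i

/-- The closed condition that distinguishes the smaller position. -/
def Cc (G : Matrix ι ι L) : Bool → Submodule L (ι → L) → Submodule L (ι → L) → Prop
  | true, ℓ, E => ℓ ≤ E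
  | false, ℓ, E => E ≤ perp G ℓ

variable {G : Matrix ι ι L} {n s b b' : ℕ} {τ τ' : Bool} {A D D' : Flg L ι}
  {ℓ E : Submodule L (ι → L)}

lemma cc_smap (κ : L →+* L') : Cc (G.map κ) τ (smap κ ℓ) (smap κ E) ↔ Cc G τ ℓ E := by
  cases τ <;> simp only [Cc]
  · rw [← smap_perp, smap_le_iff]
  · rw [smap_le_iff]

lemma p0_smap (κ : L →+* L') : P0 (G.map κ) s τ τ' (smap κ ℓ) (fmap κ D) ↔ P0 G s τ τ' ℓ D := by
  cases τ <;> cases τ' <;> simp only [P0, fmap_apply, ← smap_perp, smap_le_iff]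

lemma r0_fmap (κ : L →+* L') :
    R0 (G.map κ) n s τ τ' (fmap κ A) (fmap κ D) ↔ R0 G n s τ τ' A D := by
  have h1 : ∀ i, fmap κ D i ≤ fmap κ A (i + 1) ↔ D i ≤ A (i + 1) := fun i => smap_le_iff κ
  have h2 : ∀ i, fmap κ D i ⊓ perp (G.map κ) (fmap κ A 1) ≤ fmap κ A i ↔
      D i ⊓ perp G (A 1) ≤ A i := fun i => by
    simp only [fmap_apply]
    rw [← smap_perp, ← smap_inf, smap_le_iff]
  exact ⟨fun h => ⟨(p0_smap κ).1 h.pos, fun i hi => (h1 i).1 (h.lo i hi),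
      fun i hi hi' => (h2 i).1 (h.hi i hi hi')⟩,
    fun h => ⟨(p0_smap κ).2 h.pos, fun i hi => (h1 i).2 (h.lo i hi),
      fun i hi hi' => (h2 i).2 (h.hi i hi hi')⟩⟩

omit [Fintype ι] in
lemma adj_symm (h : Adj s D D') : Adj s D' D := fun i hi => (h i hi).symm

omit [Fintype ι] in
lemma adj_trans {D'' : Flg L ι} (h : Adj s D D') (h' : Adj s D' D'') : Adj s D D'' :=
  fun i hi => (h i hi).trans (h' i hi)

lemma R0.adj (h1 : 1 ≤ s) (h : R0 G n s τ τ' A D) (ha : Adj s D D') : R0 G n s τ τ' A D' := by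
  have e1 : D (s + 1) = D' (s + 1) := ha _ (by omega)
  have e2 : D (s - 1) = D' (s - 1) := ha _ (by omega)
  refine ⟨?_, fun i hi => ha i (by omega) ▸ h.lo i hi,
    fun i hi hi' => ha i (by omega) ▸ h.hi i hi hi'⟩
  have hp := h.pos
  cases τ <;> cases τ' <;> simp only [P0] at hp ⊢ <;> simp only [← e1, ← e2] <;> exact hp

lemma pair_le (hp : Pair n s τ b τ' b') : 1 ≤ s ∧ s ≤ n := by
  obtain ⟨h1, h | h | h⟩ := hp <;> exact ⟨h1, by omega⟩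

/-- A member that contains the line is the sum of the previous member and the line. -/
lemma eq_sup (h1 : 1 ≤ s) (hs : s ≤ n) (hD : IsFl G n D) (hℓ : finrank L ℓ = 1)
    (h : ¬ ℓ ≤ D (s - 1)) (h' : ℓ ≤ D s) : D (s - 1) ⊔ ℓ = D s := by
  refine eq_of_le_of_finrank_eq (sup_le (hD.mono (by omega) hs) h') ?_
  rw [finrank_sup_line hℓ h, hD.rank _ (by omega), hD.rank _ hs]
  omega

/-- A member that is orthogonal to the line is cut out from the next member. -/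
lemma eq_inf (hs : s < n) (hD : IsFl G n D) (hℓ : finrank L ℓ = 1)
    (h : ¬ D (s + 1) ≤ perp G ℓ) (h' : D s ≤ perp G ℓ) : D s = D (s + 1) ⊓ perp G ℓ := by
  refine eq_of_le_of_finrank_eq (le_inf (hD.le _ hs) h') ?_
  have := finrank_inf_perp_line_eq hℓ h
  rw [hD.rank _ (by omega)] at this
  rw [hD.rank _ hs.le]
  omega

lemma inf_le_of_not (h1 : 1 ≤ s) (hs : s ≤ n) (hA : IsFl G n A) (hD : IsFl G n D)
    (hlo : ∀ i < s, D i ≤ A (i + 1)) (h : ¬ D s ≤ perp G (A 1)) :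
    D s ⊓ perp G (A 1) ≤ A s := by
  obtain ⟨t, rfl⟩ : ∃ t, s = t + 1 := ⟨s - 1, by omega⟩
  have e := hlo t (by omega)
  rw [← eq_inf (by omega) hD (hA.rank 1 (by omega)) h (e.trans (hA.le_perp _ _))]
  exact e

lemma le_of_line (h1 : 1 ≤ s) (hs : s ≤ n) (hA : IsFl G n A) (hD : IsFl G n D)
    (hlo : ∀ i < s, D i ≤ A (i + 1)) (h : ¬ A 1 ≤ D (s - 1)) (h' : A 1 ≤ D s) : D s ≤ A s := by
  rw [← eq_sup h1 hs hD (hA.rank 1 (by omega)) h h']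
  refine sup_le ?_ (hA.mono h1 hs)
  have := hlo (s - 1) (by omega)
  rwa [Nat.sub_add_cancel h1] at this

lemma lt_succ_all {p : ℕ → Prop} (h : ∀ i < s, p i) (h' : p s) : ∀ i < s + 1, p i := fun i hi => by
  rcases Nat.lt_succ_iff_lt_or_eq.1 hi with e | rfl
  exacts [h i e, h']

lemma ge_all {p : ℕ → Prop} (h : ∀ i, s < i → i ≤ n → p i) (h' : p s) :
    ∀ i, s ≤ i → i ≤ n → p i := fun i hi hi' => by
  rcases hi.eq_or_lt with rfl | e
  exacts [h', h i e hi']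

lemma rel_lo (hp : Pair n s τ b τ' b') (hA : IsFl G n A) (hD : IsFl G n D) :
    Rel G n τ b A D ↔ R0 G n s τ τ' A D ∧ Cc G τ (A 1) (D s) := by
  obtain ⟨h1, ⟨hs, rfl, rfl, rfl, rfl⟩ | ⟨rfl, rfl, rfl, rfl, rfl⟩ | ⟨hs, rfl, rfl, rfl, rfl⟩⟩ := hp
  · refine ⟨fun h => ⟨⟨⟨h.pos.1.trans (hD.le _ hs), h.pos.2⟩, h.lo,
      fun i hi hi' => h.hi i hi.le hi'⟩, h.pos.1⟩, fun ⟨h, hc⟩ => ⟨⟨hc, h.pos.2⟩, h.lo, ?_⟩⟩
    exact ge_all h.hi (inf_le_left.trans (le_of_line h1 hs.le hA hD h.lo h.pos.2 hc))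
  · refine ⟨fun h => ⟨⟨h.pos.2, h.lo, fun i hi hi' => h.hi i hi.le hi'⟩, h.pos.1⟩,
      fun ⟨h, hc⟩ => ⟨⟨hc, h.pos⟩, h.lo, ?_⟩⟩
    exact ge_all h.hi (inf_le_left.trans (le_of_line h1 le_rfl hA hD h.lo h.pos hc))
  · refine ⟨fun h => ⟨⟨h.pos, fun i hi => h.lo i (by omega), h.hi⟩,
      (h.lo _ (Nat.lt_succ_self _)).trans (hA.le_perp _ _)⟩, fun ⟨h, hc⟩ => ⟨h.pos, ?_, h.hi⟩⟩
    exact lt_succ_all h.lo ((le_inf (hD.le _ hs) hc).trans (h.hi _ (by omega) hs))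

lemma rel_hi (hG : EForm G) (hn : n = Fintype.card ι / 2) (hp : Pair n s τ b τ' b')
    (hA : IsFl G n A) (hD : IsFl G n D) :
    Rel G n τ' b' A D ↔ R0 G n s τ τ' A D ∧ ¬ Cc G τ (A 1) (D s) := by
  obtain ⟨h1, ⟨hs, rfl, rfl, rfl, rfl⟩ | ⟨hs, rfl, rfl, rfl, rfl⟩ | ⟨hs, rfl, rfl, rfl, rfl⟩⟩ := hp
  · refine ⟨fun h => ⟨⟨⟨h.pos.1, fun e => h.pos.2 (e.trans (hD.mono (by omega) (by omega)))⟩,
      fun i hi => h.lo i (by omega), h.hi⟩, h.pos.2⟩, fun ⟨h, hc⟩ => ⟨⟨h.pos.1, hc⟩, ?_, h.hi⟩⟩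
    exact lt_succ_all h.lo ((le_inf (hD.le _ hs)
      ((hD.le_perp _ _).trans (perp_anti G h.pos.1))).trans (h.hi _ (by omega) hs))
  · subst hs
    have k : ¬ D s ≤ perp G (A 1) → ¬ A 1 ≤ D s := fun h e =>
      h ((hD.le_perp _ _).trans (perp_anti G e))
    refine ⟨fun h => ⟨⟨fun e => k h.pos (e.trans (hD.mono (by omega) le_rfl)), h.lo,
      fun i hi hi' => h.hi i hi.le hi'⟩, k h.pos⟩, fun ⟨h, hc⟩ => ?_⟩
    have k' : ¬ D s ≤ perp G (A 1) := fun e => by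
      have hi : Iso G (D s ⊔ A 1) := by
        rw [Iso, perp_sup]
        exact sup_le (le_inf (hD.le_perp _ _) e)
          (le_inf (hG.le_perp_comm.1 e) (hA.le_perp _ _))
      have := hG.iso_finrank hi
      rw [finrank_sup_line (hA.rank 1 h1) hc, hD.rank _ le_rfl] at this
      omega
    exact ⟨k', h.lo, ge_all h.hi (inf_le_of_not h1 le_rfl hA hD h.lo k')⟩
  · refine ⟨fun h => ⟨⟨fun e => h.pos ((hD.le _ hs).trans e), h.lo,
      fun i hi hi' => h.hi i hi.le hi'⟩, h.pos⟩, fun ⟨h, hc⟩ => ⟨hc, h.lo, ?_⟩⟩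
    exact ge_all h.hi (inf_le_of_not h1 hs.le hA hD h.lo hc)

/-- At most one member of a pencil satisfies the closed condition. -/
lemma unique_c (hp : Pair n s τ b τ' b') (hA : IsFl G n A) (hD : IsFl G n D) (hD' : IsFl G n D')
    (h : R0 G n s τ τ' A D) (ha : Adj s D D') (hc : Cc G τ (A 1) (D s))
    (hc' : Cc G τ (A 1) (D' s)) : D = D' := by
  obtain ⟨h1, hsn⟩ := pair_le hp
  have h' := h.adj h1 ha
  have hℓ := hA.rank 1 (by omega)
  have : D s = D' s := by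
    obtain ⟨-, ⟨hs, rfl, rfl, rfl, rfl⟩ | ⟨hs, rfl, rfl, rfl, rfl⟩ | ⟨hs, rfl, rfl, rfl, rfl⟩⟩ := hp
    · rw [← eq_sup h1 hsn hD hℓ h.pos.2 hc, ← eq_sup h1 hsn hD' hℓ h'.pos.2 hc', ha _ (by omega)]
    · rw [← eq_sup h1 hsn hD hℓ h.pos hc, ← eq_sup h1 hsn hD' hℓ h'.pos hc', ha _ (by omega)]
    · rw [eq_inf hs hD hℓ h.pos hc, eq_inf hs hD' hℓ h'.pos hc', ha _ (by omega)]
  ext1 i
  by_cases hi : i = s
  · rw [hi, this]
  · exact ha i hi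

lemma exists_update (h1 : 1 ≤ s) (hs : s ≤ n) (hD : IsFl G n D) (hE : finrank L E = s)
    (hl : D (s - 1) ≤ E) (hu : s < n → E ≤ D (s + 1)) (hI : s = n → Iso G E) :
    ∃ D', IsFl G n D' ∧ Adj s D' D ∧ D' s = E := by
  classical
  have e1 : (D.update s E) s = E := by simp
  have e2 : ∀ i, i ≠ s → (D.update s E) i = D i := fun i hi => by simp [hi]
  refine ⟨D.update s E, ⟨fun i hi => ?_, fun i hi => ?_, ?_, fun i hi => ?_⟩, e2, e1⟩
  · by_cases h : i = s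
    · rw [h, e1, hE]
    · rw [e2 i h, hD.rank i hi]
  · by_cases h : i = s
    · subst h
      rw [e1, e2 _ (by omega)]
      exact hu hi
    · rw [e2 i h]
      by_cases h' : i + 1 = s
      · rw [h', e1]
        obtain rfl : i = s - 1 := by omega
        exact hl
      · rw [e2 _ h']
        exact hD.le i hi
  · by_cases h : n = s
    · subst h
      rw [e1]
      exact hI rfl
    · rw [e2 n h]
      exact hD.iso
  · rw [e2 i (by omega)]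
    exact hD.out i hi

/-- Some member of a pencil satisfies the closed condition. -/
lemma exists_c (hp : Pair n s τ b τ' b') (hA : IsFl G n A) (hD : IsFl G n D)
    (h : R0 G n s τ τ' A D) : ∃ D', IsFl G n D' ∧ Adj s D' D ∧ Cc G τ (A 1) (D' s) := by
  obtain ⟨h1, hsn⟩ := pair_le hp
  have hℓ := hA.rank 1 (by omega)
  have hl : D (s - 1) ≤ A s := by
    have := h.lo (s - 1) (by omega)
    rwa [Nat.sub_add_cancel h1] at this
  have k : ¬ A 1 ≤ D (s - 1) → finrank L ↥(D (s - 1) ⊔ A 1) = s := fun e => by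
    rw [finrank_sup_line hℓ e, hD.rank _ (by omega)]
    omega
  obtain ⟨-, ⟨hs, rfl, -, rfl, -⟩ | ⟨hs, rfl, -, rfl, -⟩ | ⟨hs, rfl, -, rfl, -⟩⟩ := hp
  · obtain ⟨D', a1, a2, a3⟩ := exists_update h1 hsn hD (k h.pos.2) le_sup_left
      (fun _ => sup_le (hD.mono (by omega) hs) h.pos.1) (fun e => by omega)
    exact ⟨D', a1, a2, a3 ▸ (le_sup_right : A 1 ≤ _)⟩
  · obtain ⟨D', a1, a2, a3⟩ := exists_update h1 hsn hD (k h.pos) le_sup_left
      (fun _ => by omega)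
      (fun _ => Iso.mono (hA.le_perp s s) (sup_le hl (hA.mono h1 hsn)))
    exact ⟨D', a1, a2, a3 ▸ (le_sup_right : A 1 ≤ _)⟩
  · have k' : finrank L ↥(D (s + 1) ⊓ perp G (A 1)) = s := by
      have := finrank_inf_perp_line_eq hℓ h.pos
      rw [hD.rank _ hs] at this
      omega
    obtain ⟨D', a1, a2, a3⟩ := exists_update h1 hsn hD k'
      (le_inf (hD.mono (by omega) hs) (hl.trans (hA.le_perp _ _))) (fun _ => inf_le_left)
      (fun e => by omega)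
    exact ⟨D', a1, a2, a3 ▸ (inf_le_right : _ ≤ perp G (A 1))⟩

end Lin

lemma cc_red {K : Type} [Field K] {M : Fld K} {O : Pl M} {ι : Type} [Fintype ι] {G : Matrix ι ι M}
    {G' : Matrix ι ι O.res} (h : MRed O G G') {τ : Bool} {ℓ E : Submodule M (ι → M)}
    (hc : Cc G τ ℓ E) : Cc G' τ (sred O ℓ) (sred O E) := by
  cases τ
  · exact (sred_mono O hc).trans (h.perp_le ℓ)
  · exact sred_mono O hc

variable {k₀ : Type} [Field k₀] [Fintype k₀] {K : Type} [Field K] [Algebra k₀ K]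
  {ι : Type} [Fintype ι]

variable (K) in
/-- The union of the two spaces of a pair. -/
def B0 (G : Matrix ι ι k₀) (n s : ℕ) (τ τ' : Bool) (u : List ℕ) :
    Sp ((Fl K ι).prod ((Fl K ι).prod (Fl K ι).list)) where
  mem {L} y := IsFl (gm G L) n y.1 ∧ IsFl (gm G L) n y.2.1 ∧ R0 (gm G L) n s τ τ' y.1 y.2.1 ∧
    Path (gm G L) n u y.2.1 y.2.2 (fmap (frH k₀ L) y.1)
  map_iff κ y := by
    rw [← gm_map G κ]
    refine and_congr (isFl_fmap _) (and_congr (isFl_fmap _) (and_congr (r0_fmap _)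
      (Iff.trans ?_ (path_fmap κ.toRingHom))))
    rw [← fmap_frH]; rfl

variable (K) in
/-- The closed condition as a space. -/
def CS (G : Matrix ι ι k₀) (s : ℕ) (τ : Bool) :
    Sp ((Fl K ι).prod ((Fl K ι).prod (Fl K ι).list)) where
  mem {L} y := Cc (gm G L) τ ((show Flg L ι from y.1) 1) ((show Flg L ι from y.2.1) s)
  map_iff κ y := by
    rw [← gm_map G κ]
    exact cc_smap κ.toRingHom

variable {G : Matrix ι ι k₀} {n s b b' : ℕ} {τ τ' : Bool} {u : List ℕ}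

/-- Forget the second flag. -/
noncomputable def drop (hp : Pair n s τ b τ' b') :
    Mor (YS K G n τ b (s :: u)) (B0 K G n s τ τ' u) where
  f {L} y := (y.1, ((show List (Flg L ι) from y.2.2).headD 0, (show List (Flg L ι) from y.2.2).tail))
  mem := by
    rintro L ⟨A, D, Es⟩ ⟨hA, hD, hr, hq⟩
    obtain ⟨D', Es', rfl, ha, hD', hq'⟩ := path_cons.1 hq
    exact ⟨hA, hD', ((rel_lo hp hA hD).1 hr).1.adj hp.1 ha, hq'⟩
  nat := by
    rintro L L' κ ⟨A, D, Es⟩ ⟨-, -, -, hq⟩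
    obtain ⟨D', Es', rfl, -⟩ := path_cons.1 hq
    rfl
  cont := by
    rintro M O ⟨A, D, Es⟩ - ⟨-, -, -, hq⟩ -
    obtain ⟨D', Es', rfl, -⟩ := path_cons.1 hq
    rfl

variable (K) in
/-- The second flag. -/
noncomputable def snd (G : Matrix ι ι k₀) (n : ℕ) (τ : Bool) (b : ℕ) (u : List ℕ) :
    Mor (YS K G n τ b u) (FlS K G n) where
  f y := y.2.1
  mem _ h := h.2.1
  nat _ _ _ := rfl
  cont _ _ _ _ _ := rfl

/-- Replace the second flag. -/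
noncomputable def swap (hG : EForm G) (hn : n = Fintype.card ι / 2) (hp : Pair n s τ b τ' b') :
    Mor (FPen (snd K G n τ b (s :: u)) s) (YS K G n τ' b' (s :: u)) where
  f y := (y.1.1, (y.2, y.1.2.2))
  mem := by
    rintro L ⟨⟨A, C, Es⟩, D⟩ ⟨⟨hA, hC, hr, hq⟩, hD, ha, hne⟩
    obtain ⟨D', Es', rfl, ha', hD', hq'⟩ := path_cons.1 hq
    obtain ⟨h0, hc⟩ := (rel_lo hp hA hC).1 hr
    refine ⟨hA, hD, (rel_hi (hG.gm L) hn hp hA hD).2 ⟨h0.adj hp.1 ha, fun hc' => hne ?_⟩,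
      path_cons.2 ⟨D', Es', rfl, adj_trans (adj_symm ha) ha', hD', hq'⟩⟩
    exact (DFunLike.congr_fun (unique_c hp hA hC hD h0 ha hc hc') s).symm
  nat _ _ _ := rfl
  cont _ _ _ _ _ := rfl

variable [Base K]

theorem ck_b0 (hG : EForm G) (hn : n = Fintype.card ι / 2) (hp : Pair n s τ b τ' b')
    (h : CK (YS K G n τ b u)) (h' : CK (YS K G n τ' b' u)) : CK (B0 K G n s τ τ' u) := by
  refine CK.of_closed (Z := CS K G s τ) (fun O y _ _ hc _ => cc_red (gm_red G O) hc)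
    (h.congr fun L y => ?_) (h'.congr fun L y => ?_)
  · exact ⟨fun ⟨a, d, r, q⟩ => ⟨⟨a, d, ((rel_lo hp a d).1 r).1, q⟩, ((rel_lo hp a d).1 r).2⟩,
      fun ⟨⟨a, d, r, q⟩, c⟩ => ⟨a, d, (rel_lo hp a d).2 ⟨r, c⟩, q⟩⟩
  · exact ⟨fun ⟨a, d, r, q⟩ => ⟨⟨a, d, ((rel_hi (hG.gm L) hn hp a d).1 r).1, q⟩,
        ((rel_hi (hG.gm L) hn hp a d).1 r).2⟩,
      fun ⟨⟨a, d, r, q⟩, c⟩ => ⟨a, d, (rel_hi (hG.gm L) hn hp a d).2 ⟨r, c⟩, q⟩⟩

theorem ck_lo (hp : Pair n s τ b τ' b') (h : CK (B0 K G n s τ τ' u)) :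
    CK (YS K G n τ b (s :: u)) := by
  refine CK.of_bij (drop hp) ?_ ?_ ?_ h
  · rintro L ⟨A, D, Es⟩ ⟨A₁, D₁, Es₁⟩ ⟨hA, hD, hr, hq⟩ ⟨-, hD₁, hr₁, hq₁⟩ e
    obtain ⟨D', Es', rfl, ha, -⟩ := path_cons.1 hq
    obtain ⟨D₁', Es₁', rfl, ha₁, -⟩ := path_cons.1 hq₁
    obtain rfl : A = A₁ := congrArg Prod.fst e
    obtain rfl : D' = D₁' := congrArg (fun y => y.2.1) e
    obtain rfl : Es' = Es₁' := congrArg (fun y => y.2.2) e
    obtain ⟨h0, hc⟩ := (rel_lo hp hA hD).1 hr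
    obtain rfl : D = D₁ := unique_c hp hA hD hD₁ h0 (adj_trans ha (adj_symm ha₁)) hc
      ((rel_lo hp hA hD₁).1 hr₁).2
    rfl
  · rintro M O ⟨A, D, Es⟩ - ⟨hA, hD, hr, hq⟩ hz
    obtain ⟨D', Es', rfl, ha, -⟩ := path_cons.1 hq
    obtain ⟨rA, rD', r0, rq⟩ := hz
    have rD := (gm_red G O).isFl hD
    exact ⟨rA, rD, (rel_lo hp rA rD).2 ⟨R0.adj hp.1 r0 (adj_symm (ha.red O)),
      cc_red (gm_red G O) ((rel_lo hp hA hD).1 hr).2⟩,
      path_cons.2 ⟨_, _, rfl, ha.red O, rD', rq⟩⟩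
  · rintro L _ ⟨A, D', Es⟩ ⟨hA, hD', h0, hq⟩
    obtain ⟨D, hD, ha, hc⟩ := exists_c hp hA hD' h0
    exact ⟨(A, D, D' :: Es), ⟨hA, hD, (rel_lo hp hA hD).2 ⟨h0.adj hp.1 (adj_symm ha), hc⟩,
      path_cons.2 ⟨_, _, rfl, ha, hD', hq⟩⟩, rfl⟩

theorem ck_hi [NeZero (2 : k₀)] (hG : EForm G) (hn : n = Fintype.card ι / 2)
    (hp : Pair n s τ b τ' b') (h : CK (YS K G n τ b (s :: u))) :
    CK (YS K G n τ' b' (s :: u)) := by
  refine CK.image (swap hG hn hp) ?_ ?_ (ck_fpen hG hn _ (pair_le hp).1 (pair_le hp).2 h)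
  · rintro M O ⟨⟨A, C, Es⟩, D⟩ - ⟨⟨hA, hC, hr, hq⟩, hD, ha, -⟩ ⟨rA, rD, rr, rq⟩
    obtain ⟨D', Es', rfl, ha', -⟩ := path_cons.1 hq
    obtain ⟨E', Fs', e, -, rE', rq'⟩ := path_cons.1 rq
    obtain ⟨rfl, rfl⟩ := List.cons.inj e
    obtain ⟨r0, rc⟩ := (rel_hi (hG.gm O.res) hn hp rA rD).1 rr
    have rC := (gm_red G O).isFl hC
    have rc' := cc_red (gm_red G O) ((rel_lo hp hA hC).1 hr).2
    refine ⟨⟨rA, rC, (rel_lo hp rA rC).2 ⟨R0.adj hp.1 r0 (adj_symm (Adj.red ha O)), rc'⟩,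
      path_cons.2 ⟨_, _, rfl, ha'.red O, rE', rq'⟩⟩, rD, Adj.red ha O, fun e => rc ?_⟩
    exact (congrArg (Cc (gm G O.res) τ _) e).symm ▸ rc'
  · rintro L _ ⟨A, D, Es⟩ ⟨hA, hD, hr, hq⟩
    obtain ⟨D', Es', rfl, ha, hD', hq'⟩ := path_cons.1 hq
    obtain ⟨h0, hc⟩ := (rel_hi (hG.gm L) hn hp hA hD).1 hr
    obtain ⟨C, hC, ha', hc'⟩ := exists_c hp hA hD h0
    refine ⟨((A, C, D' :: Es'), D), ⟨⟨hA, hC,
      (rel_lo hp hA hC).2 ⟨h0.adj hp.1 (adj_symm ha'), hc'⟩,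
      path_cons.2 ⟨_, _, rfl, adj_trans ha' ha, hD', hq'⟩⟩, hD, ha', fun e => hc ?_⟩, rfl⟩
    exact (congrArg (Cc (gm G L) τ _) e).symm ▸ hc'

end Abs

variable {k₀ : Type} [Field k₀] [Fintype k₀] {K : Type} [Field K] [Algebra k₀ K] [Base K]
  {ι : Type} [Fintype ι] [NeZero (2 : k₀)]

theorem ck_absorb {G : Matrix ι ι k₀} (hG : EForm G) {n : ℕ} (hn : n = Fintype.card ι / 2)
    {s b b' : ℕ} {τ τ' : Bool} (hp : Pair n s τ b τ' b') {u : List ℕ} (h : CK (YS K G n τ b u))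
    (h' : CK (YS K G n τ' b' u)) :
    CK (YS K G n τ b (s :: u)) ∧ CK (YS K G n τ' b' (s :: u)) := by
  have h1 := Abs.ck_lo hp (Abs.ck_b0 hG hn hp h h')
  exact ⟨h1, Abs.ck_hi hG hn hp h1⟩

end Pool.Agent.Lib.MP_557161_ag.DL
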