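import Pool.Agent.Lib.MP_557161_ag.DL.Int

/-!
The contexts of a smooth projective scheme and of its square; graphs of Frobenius.
-/

namespace Pool.Agent.Lib.MP_557161_ag.DL

open MvPolynomial Filter
open Pool.Agent.Lib.MP_60ec62_ag.DL (dm dv cyc DimLE Cyc cm)

namespace TwoD

section Gen

variable {K : Type} [Field K] {τ Γ : Type} [AddCommMonoid Γ] {w : τ → Γ}
  {τ' Γ' : Type} [AddCommMonoid Γ'] {w' : τ' → Γ'}

lemma wHomog_map [IsCancelAdd Γ'] (P : Pb K w w') {J : Ideal (MvPolynomial τ K)}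
    (h : WHomog w J) : WHomog w' (J.map P.φ) := by
  have e : J = Ideal.span {f | f ∈ J ∧ ∃ g, f.IsWeightedHomogeneous w g} :=
    le_antisymm h.le_span (Ideal.span_le.2 fun f hf => hf.1)
  rw [e, Ideal.map_span]
  refine wHomog_span ?_
  rintro _ ⟨f, ⟨-, g, hg⟩, rfl⟩
  exact ⟨P.ρ g, P.map_hom hg⟩

lemma comp_map (P : Pb K w w') (hρ : Function.Injective P.ρ) (f : MvPolynomial τ K) (a : Γ) :
    P.φ (weightedHomogeneousComponent w a f) = weightedHomogeneousComponent w' (P.ρ a) (P.φ f) := by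
  classical
  induction f using MvPolynomial.induction_on' with
  | add p q hp hq => simp only [map_add, hp, hq]
  | monomial m c =>
    have h1 : (monomial m c : MvPolynomial τ K).IsWeightedHomogeneous w (Finsupp.weight w m) :=
      isWeightedHomogeneous_monomial w m c rfl
    rw [weightedHomogeneousComponent_of_mem h1,
      weightedHomogeneousComponent_of_mem (P.map_hom h1)]
    by_cases e : a = Finsupp.weight w m
    · rw [if_pos e, if_pos (by rw [e])]
    · rw [if_neg e, if_neg (fun h => e (hρ h)), map_zero]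

lemma wHomog_comap (P : Pb K w w') (hρ : Function.Injective P.ρ) {J : Ideal (MvPolynomial τ' K)}
    (h : WHomog w' J) : WHomog w (J.comap P.φ) := by
  intro f hf a
  rw [Ideal.mem_comap, comp_map P hρ]
  exact h _ hf _

/-- The parts of a finitely generated module are spanned by monomial multiples of generators. -/
lemma part_eq_bot (N : GMod K w) (hN : Module.Finite (MvPolynomial τ K) N.V) :
    ∃ G : Set Γ, G.Finite ∧ ∀ a, (∀ g ∈ G, ∀ m, Finsupp.weight w m + g = a → ∀ v : N.V,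
      (monomial m 1 : MvPolynomial τ K) • v = 0) → N.part a = ⊥ := by
  obtain ⟨s, hs⟩ := hN.fg_top
  refine ⟨⋃ v ∈ s, Function.support fun a => N.π a v,
    s.finite_toSet.biUnion fun v _ => N.π_fin v, fun a ha => ?_⟩
  have key : ∀ u ∈ Submodule.span (MvPolynomial τ K) (s : Set N.V), ∀ f : MvPolynomial τ K,
      N.π a (f • u) = 0 := by
    intro u hu
    induction hu using Submodule.span_induction with
    | zero => intro f; rw [smul_zero, map_zero]
    | add x y _ _ hx hy => intro f; rw [smul_add, map_add, hx, hy, add_zero]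
    | smul r x _ hx => intro f; rw [← mul_smul, hx]
    | mem u hu =>
      intro f
      rw [← N.sum_π u, Finset.smul_sum, map_sum]
      refine Finset.sum_eq_zero fun g hg => ?_
      rw [f.as_sum, Finset.sum_smul, map_sum]
      refine Finset.sum_eq_zero fun m _ => ?_
      by_cases e : Finsupp.weight w m + g = a
      · have h0 := ha g (Set.mem_biUnion hu (by simpa using hg)) m e (N.π g u)
        have e1 : (monomial m (coeff m f) : MvPolynomial τ K) = C (coeff m f) * monomial m 1 := by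
          rw [C_mul_monomial, mul_one]
        rw [e1, mul_smul, h0, smul_zero, map_zero]
      · exact GMod.π_of_mem_part (GMod.monomial_smul_mem (N.π_mem_part g u) m _) (Ne.symm e)
  rw [eq_bot_iff]
  intro v hv
  have := key v (hs ▸ Submodule.mem_top) 1
  rw [one_smul, GMod.mem_part.1 hv] at this
  exact this

lemma monomial_smul_zero {V : Type} [AddCommGroup V] [Module (MvPolynomial τ K) V]
    {m m' : τ →₀ ℕ} (h : m' ≤ m) (h0 : ∀ v : V, (monomial m' 1 : MvPolynomial τ K) • v = 0)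
    (v : V) : (monomial m 1 : MvPolynomial τ K) • v = 0 := by
  obtain ⟨k, rfl⟩ := exists_add_of_le h
  rw [add_comm, ← mul_one (1 : K), ← monomial_mul, mul_smul, h0, smul_zero]

lemma pow_smul_zero {S V : Type} [CommRing S] [AddCommGroup V] [Module S V] {f : S} {n n' : ℕ}
    (h : n ≤ n') (h0 : ∀ v : V, f ^ n • v = 0) (v : V) : f ^ n' • v = 0 := by
  obtain ⟨k, rfl⟩ := exists_add_of_le h
  rw [add_comm, pow_add, mul_smul, h0, smul_zero]

open TensorProduct in
/-- Exactness up to negligible modules is kept by tensoring with a vector space. -/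
lemma qex_tensor (P : Pb K w w') {U V W : Type} [AddCommGroup U] [Module (MvPolynomial τ K) U]
    [Module K U] [IsScalarTower K (MvPolynomial τ K) U] [AddCommGroup V]
    [Module (MvPolynomial τ' K) V] [Module K V] [AddCommGroup W] [Module K W]
    (ψ : U ⊗[K] W ≃ₗ[K] V) (hψ : ∀ f u x, P.φ f • ψ (u ⊗ₜ x) = ψ ((f • u) ⊗ₜ x))
    {E : Set (MvPolynomial τ K)} {E' : Set (MvPolynomial τ' K)}
    (hE : ∀ f' ∈ E', ∃ f ∈ E, P.φ f ∣ f') {F : Cx K w} (h : F.QEx E U) : (F.map P).QEx E' V := by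
  classical
  let Θ : ∀ i, (F.β i → U) ⊗[K] W ≃ₗ[K] (F.β i → V) := fun i =>
    (piLeft K W fun _ : F.β i => U).trans (LinearEquiv.piCongrRight fun _ => ψ)
  have hΘ : ∀ i (u : F.β i → U) (x : W) b, Θ i (u ⊗ₜ x) b = ψ (u b ⊗ₜ x) := fun i u x b => by
    simp [Θ]
  have hm : ∀ i z, mat ((F.D i).map P.φ) V (Θ (i + 1) z) =
      Θ i (((mat (F.D i) U).restrictScalars K).rTensor W z) := by
    intro i z
    induction z with
    | zero => simp
    | add x y hx hy => simp only [map_add, hx, hy]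
    | tmul u x =>
      funext b
      rw [LinearMap.rTensor_tmul, hΘ, LinearMap.restrictScalars_apply, mat_apply, mat_apply,
        sum_tmul, map_sum]
      exact Finset.sum_congr rfl fun c _ => by rw [hΘ, Matrix.map_apply, hψ]
  intro i f' hf'
  obtain ⟨f, hf, r, rfl⟩ := hE f' hf'
  obtain ⟨n, hn⟩ := h i f hf
  refine ⟨n, fun v hv => ?_⟩
  rw [mul_pow, mul_comm, mul_smul]
  refine Submodule.smul_mem _ _ ?_
  obtain ⟨z, rfl⟩ := (Θ (i + 1)).surjective v
  have hz : ((mat (F.D i) U).restrictScalars K).rTensor W z = 0 := by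
    apply (Θ i).injective
    rw [← hm, map_zero]
    exact hv
  have hex := Module.Flat.rTensor_exact W
    (LinearMap.exact_subtype_ker_map ((mat (F.D i) U).restrictScalars K))
  obtain ⟨y, rfl⟩ := (hex z).1 hz
  clear hz hv
  show P.φ f ^ n • Θ (i + 1) (LinearMap.rTensor W _ y) ∈
    LinearMap.range (mat ((F.D (i + 1)).map P.φ) V)
  induction y with
  | zero => rw [map_zero, map_zero, smul_zero]; exact Submodule.zero_mem _
  | add x y hx hy => rw [map_add, map_add, smul_add]; exact Submodule.add_mem _ hx hy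
  | tmul u x =>
    obtain ⟨t, ht⟩ := hn u.1 u.2
    refine ⟨Θ (i + 2) (t ⊗ₜ x), ?_⟩
    refine (hm (i + 1) _).trans ?_
    funext b
    rw [LinearMap.rTensor_tmul, LinearMap.rTensor_tmul, LinearMap.restrictScalars_apply, ht, hΘ]
    show _ = P.φ f ^ n • Θ (i + 1) (u.1 ⊗ₜ x) b
    rw [hΘ, ← map_pow, hψ]
    rfl

lemma dimLE_ker {S R : Type} [CommRing S] [CommRing R] [Algebra K S] [Algebra K R]
    [Algebra.EssFiniteType K S] [Algebra.EssFiniteType K R] (φ : S →ₐ[K] R) {d : ℕ} {J : Ideal S}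
    (hJ : ∀ f, φ f = 0 → f ∈ J) (h : ∀ P : PrimeSpectrum R, dm K P ≤ d) :
    DimLE K S d (S ⧸ J) := by
  intro p hp
  rw [Module.mem_support_iff_of_finite, Ideal.annihilator_quotient] at hp
  have := p.isPrime
  obtain ⟨q, hq, hqp⟩ := Ideal.exists_minimalPrimes_le (I := RingHom.ker φ)
    (fun f hf => hp (hJ f hf) : _ ≤ p.asIdeal)
  obtain ⟨P, hP, -, rfl⟩ := Ideal.exists_comap_eq_of_mem_minimalPrimes (I := ⊥)
    (φ : S →+* R) q hq
  have h1 : dm K p ≤ dm K (cm φ ⟨P, hP⟩) := by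
    rcases (show cm φ ⟨P, hP⟩ ≤ p from hqp).eq_or_lt with e | e
    · rw [e]
    · exact (MP_60ec62_ag.DL.Dim.dm_lt e).le
  have h2 : dm K (cm φ ⟨P, hP⟩) ≤ dm K (⟨P, hP⟩ : PrimeSpectrum R) := by
    have := trdeg_le_of_injective _ (MP_60ec62_ag.DL.Dim.qm_injective φ ⟨P, hP⟩)
    rw [MP_60ec62_ag.DL.Dim.trdeg_eq_dm, MP_60ec62_ag.DL.Dim.trdeg_eq_dm] at this
    exact_mod_cast this
  exact h1.trans (h2.trans (h _))

end Gen

section Two

variable {K : Type} [Field K] {σ σ' : Type}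

/-- The first degree. -/
def d1 : N2 →+ ℕ := ⟨⟨fun a => (ofLex a).1, rfl⟩, fun _ _ => rfl⟩

/-- The second degree. -/
def d2 : N2 →+ ℕ := ⟨⟨fun a => (ofLex a).2, rfl⟩, fun _ _ => rfl⟩

lemma d1_weight [Fintype σ] [Fintype σ'] (m : σ ⊕ σ' →₀ ℕ) :
    d1 (Finsupp.weight (w2 σ σ') m) = ∑ s, m (Sum.inl s) := by
  rw [Finsupp.weight_apply, Finsupp.sum_fintype _ _ (by simp), map_sum, Fintype.sum_sum_type]
  simp only [map_nsmul]
  simp [w2, d1]

lemma d2_weight [Fintype σ] [Fintype σ'] (m : σ ⊕ σ' →₀ ℕ) :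
    d2 (Finsupp.weight (w2 σ σ') m) = ∑ s, m (Sum.inr s) := by
  rw [Finsupp.weight_apply, Finsupp.sum_fintype _ _ (by simp), map_sum, Fintype.sum_sum_type]
  simp only [map_nsmul]
  simp [w2, d2]

lemma ev_l2 {p : N2 → Prop} : (∀ᶠ a in Filter.map toLex (atTop : Filter (ℕ × ℕ)), p a) ↔
    ∃ n : ℕ, ∀ a, n ≤ d1 a → n ≤ d2 a → p a := by
  rw [eventually_map, eventually_atTop]
  constructor
  · rintro ⟨⟨x, y⟩, h⟩
    exact ⟨max x y, fun a h1 h2 => h (ofLex a) ⟨(le_max_left _ _).trans h1,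
      (le_max_right _ _).trans h2⟩⟩
  · rintro ⟨n, h⟩
    exact ⟨(n, n), fun b hb => h _ hb.1 hb.2⟩

lemma neg1 [Finite σ] (N : GMod K (w1 σ)) (hN : Module.Finite (MvPolynomial σ K) N.V)
    (h : Neg (Set.range X) N) : ∀ᶠ a in atTop, N.part a = ⊥ := by
  have := Fintype.ofFinite σ
  obtain ⟨G, hG, H⟩ := part_eq_bot N hN
  choose n hn using fun s => h (X s) ⟨s, rfl⟩
  obtain ⟨b, hb⟩ := hG.bddAbove
  filter_upwards [eventually_gt_atTop (∑ s, n s + b)] with a ha
  refine H a fun g hg m e => ?_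
  have h1 : ∃ s, n s ≤ m s := by
    by_contra! hc
    have h2 : Finsupp.weight (w1 σ) m = ∑ s, m s := by
      rw [Finsupp.weight_apply, Finsupp.sum_fintype _ _ (by simp)]; simp [w1]
    have h3 : ∑ s, m s ≤ ∑ s, n s := Finset.sum_le_sum fun s _ => (hc s).le
    have := hb hg
    omega
  obtain ⟨s, hs⟩ := h1
  refine monomial_smul_zero (m' := Finsupp.single s (n s)) (Finsupp.single_le_iff.2 hs) ?_
  rw [← X_pow_eq_monomial]
  exact hn s

lemma neg2 [Finite σ] [Finite σ'] (N : GMod K (w2 σ σ'))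
    (hN : Module.Finite (MvPolynomial (σ ⊕ σ') K) N.V) (h : Neg (E2 K σ σ') N) :
    ∀ᶠ a in Filter.map toLex (atTop : Filter (ℕ × ℕ)), N.part a = ⊥ := by
  classical
  have := Fintype.ofFinite σ
  have := Fintype.ofFinite σ'
  obtain ⟨G, hG, H⟩ := part_eq_bot N hN
  choose n hn using fun (x : σ × σ') => h (X (Sum.inl x.1) * X (Sum.inr x.2)) ⟨x.1, x.2, rfl⟩
  obtain ⟨b1, hb1⟩ := (hG.image d1).bddAbove
  obtain ⟨b2, hb2⟩ := (hG.image d2).bddAbove
  obtain ⟨k, hk⟩ := (Set.finite_range n).bddAbove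
  refine ev_l2.2 ⟨∑ _s : σ, k + ∑ _s : σ', k + b1 + b2 + 1, fun a h1 h2 => ?_⟩
  refine H a fun g hg m e => ?_
  have e1 : ∃ s, k ≤ m (Sum.inl s) := by
    by_contra! hc
    have h3 : ∑ s, m (Sum.inl s) ≤ ∑ _s : σ, k := Finset.sum_le_sum fun s _ => (hc s).le
    have h4 := hb1 ⟨g, hg, rfl⟩
    rw [← e, map_add, d1_weight] at h1
    omega
  have e2 : ∃ s, k ≤ m (Sum.inr s) := by
    by_contra! hc
    have h3 : ∑ s, m (Sum.inr s) ≤ ∑ _s : σ', k := Finset.sum_le_sum fun s _ => (hc s).le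
    have h4 := hb2 ⟨g, hg, rfl⟩
    rw [← e, map_add, d2_weight] at h2
    omega
  obtain ⟨s, hs⟩ := e1
  obtain ⟨t, ht⟩ := e2
  refine monomial_smul_zero
    (m' := Finsupp.single (Sum.inl s) k + Finsupp.single (Sum.inr t) k) (fun i => ?_) ?_
  · rcases i with i | i
    · by_cases e : s = i
      · subst e; simpa using hs
      · simp [e]
    · by_cases e : t = i
      · subst e; simpa using ht
      · simp [e]
  · rw [← mul_one (1 : K), ← monomial_mul, ← X_pow_eq_monomial, ← X_pow_eq_monomial, ← mul_pow]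
    exact pow_smul_zero (hk ⟨(s, t), rfl⟩) (hn (s, t))

lemma fin_wt2 [Finite σ] [Finite σ'] (a : N2) :
    {m : σ ⊕ σ' →₀ ℕ | Finsupp.weight (w2 σ σ') m = a}.Finite := by
  have := Fintype.ofFinite σ
  have := Fintype.ofFinite σ'
  refine (Finsupp.finite_of_degree_eq (d1 a + d2 a)).subset fun m hm => ?_
  have hm' : Finsupp.weight (w2 σ σ') m = a := hm
  show Finsupp.degree m = _
  rw [Finsupp.degree_eq_sum, Fintype.sum_sum_type, ← hm', d1_weight, d2_weight]

lemma map_add1 (g : ℕ) : Filter.map (g + ·) atTop = atTop := by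
  simpa only [add_comm g] using map_add_atTop_eq_nat g

lemma map_add2 (g : N2) : Filter.map (g + ·) (Filter.map toLex (atTop : Filter (ℕ × ℕ))) =
    Filter.map toLex (atTop : Filter (ℕ × ℕ)) := by
  have : Filter.map (Prod.map (d1 g + ·) (d2 g + ·)) (atTop : Filter (ℕ × ℕ)) = atTop := by
    rw [← prod_atTop_atTop_eq, ← prod_map_map_eq', map_add1, map_add1]
  conv_rhs => rw [← this]
  rw [Filter.map_map, Filter.map_map]
  rfl

lemma const1 {u : ℕ → ℤ} (h : ∀ᶠ a in atTop, u (1 + a) = u a) : ∃ c, ∀ᶠ a in atTop, u a = c := by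
  obtain ⟨n, hn⟩ := eventually_atTop.1 h
  refine ⟨u n, eventually_atTop.2 ⟨n, fun b hb => ?_⟩⟩
  induction b, hb using Nat.le_induction with
  | base => rfl
  | succ k hk ih => rw [add_comm, hn k hk, ih]

lemma const2 {u : N2 → ℤ}
    (h1 : ∀ᶠ a in Filter.map toLex (atTop : Filter (ℕ × ℕ)), u (toLex (1, 0) + a) = u a)
    (h2 : ∀ᶠ a in Filter.map toLex (atTop : Filter (ℕ × ℕ)), u (toLex (0, 1) + a) = u a) :
    ∃ c, ∀ᶠ a in Filter.map toLex (atTop : Filter (ℕ × ℕ)), u a = c := by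
  obtain ⟨n, hn⟩ := ev_l2.1 (h1.and h2)
  have key : ∀ x, n ≤ x → ∀ y, n ≤ y → u (toLex (x, y)) = u (toLex (n, n)) := by
    intro x hx
    induction x, hx using Nat.le_induction with
    | base =>
      intro y hy
      induction y, hy using Nat.le_induction with
      | base => rfl
      | succ k hk ih =>
        rw [← ih, ← (hn (toLex (n, k)) le_rfl hk).2]
        congr 1
        show toLex (n, k + 1) = toLex (0 + n, 1 + k)
        rw [zero_add, add_comm]
    | succ k hk ih =>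
      intro y hy
      rw [← ih y hy, ← (hn (toLex (k, y)) hk hy).1]
      congr 1
      show toLex (k + 1, y) = toLex (1 + k, 0 + y)
      rw [zero_add, add_comm]
  exact ⟨u (toLex (n, n)), ev_l2.2 ⟨n, fun a ha hb => key _ ha _ hb⟩⟩

lemma mem_Ico {Q : ℕ} (hQ : 0 < Q) (a b : ℕ) : b ∈ Finset.Ico (Q * a) (Q * a + Q) ↔ b / Q = a := by
  rw [Finset.mem_Ico, Nat.div_eq_iff hQ, mul_comm a Q]
  omega

/-- The first embedding. -/
noncomputable def pL (K σ σ' : Type) [Field K] : Pb K (w1 σ) (w2 σ σ') where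
  ψ s := X (Sum.inl s)
  ρ := { toFun := fun n => toLex (n, 0), map_zero' := rfl, map_add' := fun _ _ => rfl }
  hom s := isWeightedHomogeneous_X K _ (Sum.inl s)

/-- The second embedding. -/
noncomputable def pR (K σ σ' : Type) [Field K] : Pb K (w1 σ') (w2 σ σ') where
  ψ s := X (Sum.inr s)
  ρ := { toFun := fun n => toLex (0, n), map_zero' := rfl, map_add' := fun _ _ => rfl }
  hom s := isWeightedHomogeneous_X K _ (Sum.inr s)

lemma pL_φ : (pL K σ σ').φ = rename Sum.inl := by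
  ext s : 1; simp [pL]

lemma pR_φ : (pR K σ σ').φ = rename Sum.inr := by
  ext s : 1; simp [pR]

/-- The weights of the parameter and of the coordinates. -/
def wo (σ : Type) : Option σ → N2 := fun o => o.elim (toLex (1, 0)) fun _ => toLex (0, 1)

/-- The parametrisation on the level of polynomial rings. -/
noncomputable def pG (K σ : Type) [Field K] (Q : ℕ) : Pb K (w2 σ σ) (wo σ) where
  ψ := Sum.elim (fun s => X none * X (some s) ^ Q) fun s => X (some s)
  ρ := { toFun := fun a => toLex (d1 a, Q * d1 a + d2 a)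
         map_zero' := rfl
         map_add' := fun a b => by
          show toLex (_, _) = toLex (d1 a + d1 b, Q * d1 a + d2 a + (Q * d1 b + d2 b))
          rw [map_add, map_add]; congr 2; ring }
  hom := by
    rintro (s | s)
    · have := (isWeightedHomogeneous_X K (wo σ) none).mul
        ((isWeightedHomogeneous_X K (wo σ) (some s)).pow Q)
      have e : wo σ none + Q • wo σ (some s) = toLex (1, Q * 1 + 0) := by
        show toLex (1 + Q * 0, 0 + Q * 1) = _
        simp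
      rw [e] at this
      exact this
    · have := isWeightedHomogeneous_X K (wo σ) (some s)
      exact this

lemma pG_inj (Q : ℕ) : Function.Injective (pG K σ Q).ρ := by
  intro a b h
  have h0 := congrArg d1 h
  have h0' := congrArg d2 h
  have h1 : d1 a = d1 b := h0
  have h2 : Q * d1 a + d2 a = Q * d1 b + d2 b := h0'
  rw [h1] at h2
  exact Prod.ext h1 (add_left_cancel h2)

/-- The inclusion of the coordinates. -/
noncomputable def pS (K σ : Type) [Field K] : Pb K (w1 σ) (wo σ) where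
  ψ s := X (some s)
  ρ := { toFun := fun n => toLex (0, n), map_zero' := rfl, map_add' := fun _ _ => rfl }
  hom s := isWeightedHomogeneous_X K _ (some s)

lemma aeval_scale {R : Type} [CommRing R] [Algebra K R] (t : R) (c : σ → R)
    {g : MvPolynomial σ K} {n : ℕ} (hg : g.IsWeightedHomogeneous (w1 σ) n) :
    aeval (fun s => t * c s) g = t ^ n * aeval c g := by
  rw [g.as_sum, map_sum, map_sum, Finset.mul_sum]
  refine Finset.sum_congr rfl fun m hm => ?_
  rw [← hg (mem_support_iff.1 hm), aeval_monomial, aeval_monomial, Finsupp.weight_apply,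
    mul_left_comm]
  congr 1
  simp only [Finsupp.prod, Finsupp.sum, mul_pow, Finset.prod_mul_distrib,
    Finset.prod_pow_eq_pow_sum, w1, smul_eq_mul, mul_one]

lemma dm_irrel {a : PrimeSpectrum (MvPolynomial σ K)} (h : ∀ s, X s ∈ a.asIdeal) : dm K a = 0 := by
  have : Algebra.IsAlgebraic K (MvPolynomial σ K ⧸ a.asIdeal) := ⟨fun x => by
    obtain ⟨f, rfl⟩ := Ideal.Quotient.mk_surjective x
    have e : Ideal.Quotient.mkₐ K a.asIdeal =
        (Algebra.ofId K _).comp (aeval fun _ => (0 : K)) := by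
      ext s : 1
      simpa [Ideal.Quotient.eq_zero_iff_mem] using h s
    have := DFunLike.congr_fun e f
    rw [Ideal.Quotient.mkₐ_eq_mk] at this
    rw [this]
    exact isAlgebraic_algebraMap _⟩
  rw [dm, trdeg_eq_zero, map_zero]

open TensorProduct in
lemma qexL {I : Ideal (MvPolynomial σ K)} (b : Ideal (MvPolynomial σ' K)) {F : Cx K (w1 σ)}
    (h : F.QEx (Set.range X) (MvPolynomial σ K ⧸ I)) :
    (F.map (pL K σ σ')).QEx (E2 K σ σ') (MvPolynomial (σ ⊕ σ') K ⧸ bx I b) := by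
  obtain ⟨φ, h1, -⟩ := exists_bx_equiv I b
  refine qex_tensor (pL K σ σ') φ.symm.toLinearEquiv (fun f u x => ?_) ?_ h
  · obtain ⟨u, rfl⟩ := Ideal.Quotient.mk_surjective u
    apply φ.injective
    rw [pL_φ]
    show φ (Ideal.Quotient.mk _ (rename Sum.inl f) * φ.symm _) = φ (φ.symm _)
    rw [map_mul, h1, φ.apply_symm_apply, φ.apply_symm_apply, Algebra.TensorProduct.tmul_mul_tmul,
      one_mul]
    rfl
  · rintro _ ⟨s, t, rfl⟩
    exact ⟨X s, ⟨s, rfl⟩, by rw [pL_φ, rename_X]; exact dvd_mul_right _ _⟩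

open TensorProduct in
lemma qexR (a : Ideal (MvPolynomial σ K)) {I : Ideal (MvPolynomial σ' K)} {F : Cx K (w1 σ')}
    (h : F.QEx (Set.range X) (MvPolynomial σ' K ⧸ I)) :
    (F.map (pR K σ σ')).QEx (E2 K σ σ') (MvPolynomial (σ ⊕ σ') K ⧸ bx a I) := by
  obtain ⟨φ, -, h1⟩ := exists_bx_equiv a I
  refine qex_tensor (pR K σ σ') ((TensorProduct.comm K _ _).trans φ.symm.toLinearEquiv)
    (fun f u x => ?_) ?_ h
  · obtain ⟨u, rfl⟩ := Ideal.Quotient.mk_surjective u
    apply φ.injective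
    rw [pR_φ]
    show φ (Ideal.Quotient.mk _ (rename Sum.inr f) * φ.symm (x ⊗ₜ _)) = φ (φ.symm (x ⊗ₜ _))
    rw [map_mul, h1, φ.apply_symm_apply, φ.apply_symm_apply, Algebra.TensorProduct.tmul_mul_tmul,
      one_mul]
    rfl
  · rintro _ ⟨s, t, rfl⟩
    exact ⟨X t, ⟨t, rfl⟩, by rw [pR_φ, rename_X]; exact dvd_mul_left _ _⟩

end Two

end TwoD

variable {K : Type} [Field K] {σ : Type} [Finite σ]

/-- Large bidegrees. -/
def l2 : Filter N2 := Filter.map toLex (atTop : Filter (ℕ × ℕ))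

omit [Finite σ] in
lemma wHomog_iff_homog {J : Ideal (MvPolynomial σ K)} : WHomog (w1 σ) J ↔ Homog J :=
  Iff.rfl

lemma WHomog.bx {σ' : Type} {a : Ideal (MvPolynomial σ K)} {b : Ideal (MvPolynomial σ' K)}
    (ha : WHomog (w1 σ) a) (hb : WHomog (w1 σ') b) : WHomog (w2 σ σ') (bx a b) := by
  have h1 := TwoD.wHomog_map (TwoD.pL K σ σ') ha
  have h2 := TwoD.wHomog_map (TwoD.pR K σ σ') hb
  rw [TwoD.pL_φ] at h1
  rw [TwoD.pR_φ] at h2
  exact h1.sup h2

/-- A smooth projective scheme of pure dimension `d`. -/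
structure Sm (K σ : Type) [Field K] where
  I : Ideal (MvPolynomial σ K)
  hI : WHomog (w1 σ) I
  d : ℕ
  et : LocEt I (Set.range X) (d + 1)

namespace Sm

variable (Y : Sm K σ)

/-- The context of the scheme. -/
noncomputable def C1 : Ctx K (w1 σ) where
  I := Y.I
  hI := Y.hI
  E := Set.range X
  l := atTop
  e := Y.d + 1
  r := 1
  neBot := inferInstance
  et := Y.et
  mon := by
    rintro _ ⟨s, rfl⟩ Q
    exact expand_X Q s
  fin_wt a := Finsupp.finite_of_nat_weight_eq _ (fun _ => one_ne_zero) a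
  neg := TwoD.neg1
  map_add := TwoD.map_add1
  const := by
    rintro p ⟨_, ⟨s, rfl⟩, hs⟩ u h
    exact TwoD.const1 (h s hs)
  fl Q a := a / Q
  fl_add Q hQ a b := Nat.mul_add_div hQ a b
  fib Q a := Finset.Ico (Q * a) (Q * a + Q)
  mem_fib Q hQ a b := TwoD.mem_Ico hQ a b
  card_fib Q a := by simp
  fib_ev Q hQ S hS := by
    obtain ⟨n, hn⟩ := mem_atTop_sets.1 hS
    filter_upwards [eventually_ge_atTop n] with a ha b hb
    exact hn b (ha.trans ((Nat.le_mul_of_pos_left a hQ).trans (Finset.mem_Ico.1 hb).1))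

/-- The context of the square. -/
noncomputable def C2 : Ctx K (w2 σ σ) where
  I := bx Y.I Y.I
  hI := Y.hI.bx Y.hI
  E := E2 K σ σ
  l := l2
  e := Y.d + 1 + (Y.d + 1)
  r := 2
  neBot := Filter.map_neBot
  et := Y.et.bx Y.et
  mon := by
    rintro _ ⟨s, t, rfl⟩ Q
    rw [map_mul, expand_X, expand_X, mul_pow]
  fin_wt := TwoD.fin_wt2
  neg := TwoD.neg2
  map_add := TwoD.map_add2
  const := by
    rintro p ⟨_, ⟨s, t, rfl⟩, hs⟩ u h
    exact TwoD.const2 (h (Sum.inl s) fun h' => hs (p.asIdeal.mul_mem_right _ h'))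
      (h (Sum.inr t) fun h' => hs (p.asIdeal.mul_mem_left _ h'))
  fl Q a := toLex ((ofLex a).1 / Q, (ofLex a).2 / Q)
  fl_add Q hQ a b := congrArg toLex (Prod.ext (Nat.mul_add_div hQ (ofLex a).1 (ofLex b).1)
    (Nat.mul_add_div hQ (ofLex a).2 (ofLex b).2))
  fib Q a := (Finset.Ico (Q * (ofLex a).1) (Q * (ofLex a).1 + Q) ×ˢ
    Finset.Ico (Q * (ofLex a).2) (Q * (ofLex a).2 + Q)).map toLex.toEmbedding
  mem_fib Q hQ a b := by
    rw [Finset.mem_map_equiv, Finset.mem_product, TwoD.mem_Ico hQ, TwoD.mem_Ico hQ]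
    exact ⟨fun h => congrArg toLex (Prod.ext h.1 h.2),
      fun h => ⟨congrArg (fun x => (ofLex x).1) h, congrArg (fun x => (ofLex x).2) h⟩⟩
  card_fib Q a := by simp [sq]
  fib_ev Q hQ S hS := by
    obtain ⟨n, hn⟩ := (TwoD.ev_l2 (p := (· ∈ S))).1 hS
    refine TwoD.ev_l2.2 ⟨n, fun a h1 h2 b hb => ?_⟩
    rw [Finset.mem_map_equiv, Finset.mem_product] at hb
    exact hn b (h1.trans ((Nat.le_mul_of_pos_left _ hQ).trans (Finset.mem_Ico.1 hb.1).1))
      (h2.trans ((Nat.le_mul_of_pos_left _ hQ).trans (Finset.mem_Ico.1 hb.2).1))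

/-- The parametrisation `x = T y ^ Q` of the cone over the graph of Frobenius. -/
noncomputable def par (Q : ℕ) : MvPolynomial (σ ⊕ σ) K →ₐ[K] Polynomial (MvPolynomial σ K ⧸ Y.I) :=
  aeval (Sum.elim (fun s => Polynomial.X * Polynomial.C (Ideal.Quotient.mk Y.I (X s ^ Q)))
    fun s => Polynomial.C (Ideal.Quotient.mk Y.I (X s)))

/-- The ideal of the graph of Frobenius. -/
noncomputable def gr (Q : ℕ) : Ideal (MvPolynomial (σ ⊕ σ) K) := RingHom.ker (Y.par Q)

lemma gr_hom (Q : ℕ) : WHomog (w2 σ σ) (Y.gr Q) := by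
  have h := TwoD.wHomog_comap (TwoD.pG K σ Q) (TwoD.pG_inj Q)
    (TwoD.wHomog_map (TwoD.pS K σ) Y.hI)
  have e1 : Y.par Q = (Polynomial.mapAlgHom (Ideal.Quotient.mkₐ K Y.I)).comp
      ((optionEquivLeft K σ).toAlgHom.comp (TwoD.pG K σ Q).φ) := by
    ext s : 1
    rcases s with s | s <;> simp [par, TwoD.pG, optionEquivLeft_X_some, optionEquivLeft_X_none]
  have e2 : (Polynomial.C : MvPolynomial σ K →+* _) = (optionEquivLeft K σ : _ →+* _).comp
      ((TwoD.pS K σ).φ : MvPolynomial σ K →+* MvPolynomial (Option σ) K) := by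
    refine MvPolynomial.ringHom_ext (fun r => ?_) fun s => ?_
    · simp [optionEquivLeft_C]
    · simp [TwoD.pS, optionEquivLeft_X_some]
  convert h using 1
  ext f
  rw [gr, RingHom.mem_ker, e1, Ideal.mem_comap]
  show (optionEquivLeft K σ ((TwoD.pG K σ Q).φ f)) ∈
    RingHom.ker (Polynomial.mapRingHom (Ideal.Quotient.mk Y.I)) ↔ _
  rw [Polynomial.ker_mapRingHom, Ideal.mk_ker, e2, ← Ideal.map_map]
  exact Ideal.apply_mem_of_equiv_iff (f := (optionEquivLeft K σ).toRingEquiv)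

lemma le_gr {Q : ℕ} (hQ : 0 < Q) (h : DefOver Q Y.I) : bx Y.I Y.I ≤ Y.gr Q := by
  have hE : Y.I ≤ Y.I.comap (expand Q : MvPolynomial σ K →ₐ[K] _) :=
    le_trans h (Ideal.span_le.2 fun g hg => by
      show expand Q g ∈ Y.I
      rw [hg.2]
      exact Y.I.pow_mem_of_mem hg.1 Q hQ)
  refine sup_le (Ideal.map_le_iff_le_comap.2 (Y.hI.le_span.trans (Ideal.span_le.2 ?_)))
    (Ideal.map_le_iff_le_comap.2 fun g hg => ?_)
  · rintro g ⟨hg, n, hn⟩
    show Y.par Q (rename Sum.inl g) = 0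
    have e : (aeval fun s => Polynomial.C (Ideal.Quotient.mk Y.I (X s ^ Q)) :
        MvPolynomial σ K →ₐ[K] _) =
        Polynomial.CAlgHom.comp ((Ideal.Quotient.mkₐ K Y.I).comp (expand Q)) := by
      ext s : 1; simp
    rw [par, aeval_rename, Sum.elim_comp_inl]
    refine (TwoD.aeval_scale Polynomial.X
      (fun s => Polynomial.C (Ideal.Quotient.mk Y.I (X s ^ Q))) hn).trans ?_
    rw [e]
    have : Ideal.Quotient.mk Y.I (expand Q g) = 0 := Ideal.Quotient.eq_zero_iff_mem.2 (hE hg)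
    simp [this]
  · show Y.par Q (rename Sum.inr g) = 0
    have e : (aeval fun s => Polynomial.C (Ideal.Quotient.mk Y.I (X s)) :
        MvPolynomial σ K →ₐ[K] _) = Polynomial.CAlgHom.comp (Ideal.Quotient.mkₐ K Y.I) := by
      ext s : 1; simp
    rw [par, aeval_rename, Sum.elim_comp_inr, e]
    simp [Ideal.Quotient.eq_zero_iff_mem.2 hg]

lemma dm_le {a : PrimeSpectrum (MvPolynomial σ K)} (h : Y.I ≤ a.asIdeal) : dm K a ≤ Y.d + 1 := by
  by_cases h' : ∀ s, X s ∈ a.asIdeal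
  · rw [TwoD.dm_irrel h']; exact Nat.zero_le _
  · push Not at h'
    obtain ⟨s, hs⟩ := h'
    exact Y.et.dm_le h ⟨_, ⟨s, rfl⟩, hs⟩

lemma dimLE_gr (Q : ℕ) :
    DimLE K (MvPolynomial (σ ⊕ σ) K) (Y.d + 2) (MvPolynomial (σ ⊕ σ) K ⧸ Y.gr Q) := by
  refine TwoD.dimLE_ker (S := MvPolynomial (σ ⊕ σ) K) (R := Polynomial (MvPolynomial σ K ⧸ Y.I))
    (Y.par Q) (fun f hf => RingHom.mem_ker.2 hf) fun P => ?_
  have h3 := MP_60ec62_ag.DL.Dim.dm_poly (𝕜 := K) P
  rw [← MP_60ec62_ag.DL.Dim.dm_locSurj (MP_60ec62_ag.DL.Dim.mk_locSurj Y.I)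
    (cm Polynomial.CAlgHom P)] at h3
  have h4 := Y.dm_le (a := cm (Ideal.Quotient.mkₐ K Y.I)
      (cm (𝕜 := K) Polynomial.CAlgHom P)) fun f hf => by
    rw [MP_60ec62_ag.DL.mem_cm, Ideal.Quotient.mkₐ_eq_mk, Ideal.Quotient.eq_zero_iff_mem.2 hf]
    exact Ideal.zero_mem _
  omega

/-- The cycle of the graph of Frobenius. -/
noncomputable def grC (Q : ℕ) : Cyc (MvPolynomial (σ ⊕ σ) K) :=
  cyc K (Y.d + 2) (MvPolynomial (σ ⊕ σ) K ⧸ Y.gr Q)

/-- The points fixed by Frobenius. -/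
noncomputable def fixed (Q : ℕ) : ℕ :=
  Nat.card {x : Projectivization K (σ → K) //
    x.rep ∈ zeroLocus K Y.I ∧ ∃ c : K, (fun s => x.rep s ^ Q) = c • x.rep}

end Sm

/-- The first embedding of the polynomial ring. -/
noncomputable def pbL (K σ σ' : Type) [Field K] : Pb K (w1 σ) (w2 σ σ') where
  ψ s := X (Sum.inl s)
  ρ := { toFun := fun n => toLex (n, 0), map_zero' := rfl, map_add' := fun _ _ => rfl }
  hom s := isWeightedHomogeneous_X K _ (Sum.inl s)

/-- The second embedding of the polynomial ring. -/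
noncomputable def pbR (K σ σ' : Type) [Field K] : Pb K (w1 σ') (w2 σ σ') where
  ψ s := X (Sum.inr s)
  ρ := { toFun := fun n => toLex (0, n), map_zero' := rfl, map_add' := fun _ _ => rfl }
  hom s := isWeightedHomogeneous_X K _ (Sum.inr s)

namespace Sm

variable (Y : Sm K σ)

/-- The two step formula for the Euler characteristic with an exterior product. -/
theorem chi_bx {a b : Ideal (MvPolynomial σ K)} (ha : WHomog (w1 σ) a) (hb : WHomog (w1 σ) b)
    {F G : Cx K (w1 σ)} (hF : F.CycRes Y.I (Set.range X) a) (hG : G.CycRes Y.I (Set.range X) b)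
    {N : GMod K (w2 σ σ)} (hN : Adm (bx Y.I Y.I) N) :
    Y.C2.chi (GMod.cyc (bx a b) (ha.bx hb)) N =
      (G.map (pbR K σ σ)).theta (Y.d + 1) ((F.map (pbL K σ σ)).theta (Y.d + 1) (mu l2)) N := by
  show _ = (G.map (TwoD.pR K σ σ)).theta (Y.d + 1)
    ((F.map (TwoD.pL K σ σ)).theta (Y.d + 1) (mu l2)) N
  have hIa : Y.I ≤ a := hF.gen ▸ le_sup_left
  have hIb : Y.I ≤ b := hG.gen ▸ le_sup_left
  have hL : ∀ c : Ideal (MvPolynomial σ K), Y.I.map (TwoD.pL K σ σ).φ ≤ bx Y.I c := fun c => by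
    rw [TwoD.pL_φ]; exact le_sup_left
  have hR : Y.I.map (TwoD.pR K σ σ).φ ≤ bx Y.I Y.I := by
    rw [TwoD.pR_φ]; exact le_sup_right
  have hb1 : bx Y.I Y.I ≤ bx Y.I b := sup_le_sup_left (Ideal.map_mono hIb) _
  have hb2 : bx Y.I b ≤ bx a b := sup_le_sup_right (Ideal.map_mono hIa) _
  have A1 := adm_cyc (Y.hI.bx hb) hb1
  have A2 := adm_cyc (ha.bx hb) (hb1.trans hb2)
  obtain ⟨H, hH⟩ := exists_resolves Y.C2.hI Y.C2.E hN
  have qH : (H.pres Y.C2.e).QProj Y.C2.I Y.C2.E := Y.C2.et.qproj hH.cx hH.ex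
  have qF : ((F.map (TwoD.pL K σ σ)).pres (Y.d + 1)).QProj (bx Y.I Y.I) (E2 K σ σ) := by
    refine (Y.et.qproj hF.cx hF.ex).map (TwoD.pL K σ σ) (hL _) ?_
    rintro _ ⟨s, t, rfl⟩
    refine Ideal.le_radical (Ideal.mem_sup_right (Ideal.mul_mem_right _ _ (Ideal.subset_span
      ⟨X s, ⟨s, rfl⟩, ?_⟩)))
    rw [TwoD.pL_φ, rename_X]
  have qG : ((G.map (TwoD.pR K σ σ)).pres (Y.d + 1)).QProj (bx Y.I Y.I) (E2 K σ σ) := by
    refine (Y.et.qproj hG.cx hG.ex).map (TwoD.pR K σ σ) hR ?_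
    rintro _ ⟨s, t, rfl⟩
    refine Ideal.le_radical (Ideal.mem_sup_right (Ideal.mul_mem_left _ _ (Ideal.subset_span
      ⟨X t, ⟨t, rfl⟩, ?_⟩)))
    rw [TwoD.pR_φ, rename_X]
  have cF : (F.map (TwoD.pL K σ σ)).CycRes (bx Y.I b) (E2 K σ σ) (bx a b) := by
    have := hF.map (TwoD.pL K σ σ) (hL b) (TwoD.qexL b hF.ex)
    have e : bx Y.I b ⊔ a.map (TwoD.pL K σ σ).φ = bx a b := by
      rw [TwoD.pL_φ]
      exact le_antisymm (sup_le hb2 le_sup_left) (sup_le le_sup_right
        (le_sup_right.trans le_sup_left))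
    rwa [e] at this
  have cG : (G.map (TwoD.pR K σ σ)).CycRes (bx Y.I Y.I) (E2 K σ σ) (bx Y.I b) := by
    have := hG.map (TwoD.pR K σ σ) hR (TwoD.qexR Y.I hG.ex)
    have e : bx Y.I Y.I ⊔ b.map (TwoD.pR K σ σ).φ = bx Y.I b := by
      rw [TwoD.pR_φ]
      exact le_antisymm (sup_le hb1 le_sup_right) (sup_le (le_sup_left.trans le_sup_left)
        le_sup_right)
    rwa [e] at this
  have hmu : AddF (w := w2 σ σ) (bx Y.I Y.I) (E2 K σ σ) (mu l2) := Y.C2.mu_addF
  have h1 := hmu.theta qH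
  rw [Y.C2.chi_symm A2 hN, Y.C2.chi_eq hH qH A2]
  refine (h1.congr A2 (cF.resolves (Y.hI.bx hb) (ha.bx hb)).iso.symm).trans ?_
  rw [Cx.tele h1 (hF.cx.map (TwoD.pL K σ σ) (hL _)) A1 cF.ex (Y.d + 1),
    Cx.theta_comm hmu _ _ _ _ A1]
  exact Cx.theta_symm (hmu.theta qF) hH (cG.resolves Y.C2.hI (Y.hI.bx hb)) qH qG

end Sm

end Pool.Agent.Lib.MP_557161_ag.DL
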