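import Pool.Agent.Lib.MP_557161_ag.DL.Bridge4
import Pool.Agent.Lib.MP_557161_ag.DL.TwoD

/-!
The functional on pairs of lines defined by a linear form on cycles.
-/

namespace Pool.Agent.Lib.MP_557161_ag.DL.Bridge

open MvPolynomial Function
open Pool.Agent.Lib.MP_60ec62_ag.DL

variable {K : Type} [Field K] {σ : Type} {L L' M : Fld K} {j : ℕ}

lemma ev_left (x y : σ → L) (f : MvPolynomial σ K) : ev x y (rename Sum.inl f) = aeval x f :=
  aeval_rename _ _ _

lemma ev_right (x y : σ → L) (f : MvPolynomial σ K) : ev x y (rename Sum.inr f) = aeval y f :=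
  aeval_rename _ _ _

/-- The homogeneous prime of a vector. -/
noncomputable def ln (x : σ → L) : PrimeSpectrum (MvPolynomial σ K) :=
  kr (aeval fun i => Polynomial.X ^ w1 σ i * (Polynomial.CAlgHom : L →ₐ[K] Polynomial L) (x i))

lemma mem_ln {x : σ → L} {f : MvPolynomial σ K} :
    f ∈ (ln x).asIdeal ↔ ∀ n, aeval x (weightedHomogeneousComponent (w1 σ) n f) = 0 := by
  rw [ln, mem_kr, Polynomial.ext_iff]
  refine forall_congr' fun n => ?_
  rw [← coef (w := w1 σ) (Polynomial.CAlgHom : L →ₐ[K] Polynomial L) (fun n => Polynomial.X ^ n)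
    (pow_zero _) (pow_add _) x (Polynomial.lcoeff L n).toAddMonoidHom n fun m a => by
      rw [mul_comm]; exact Polynomial.coeff_C_mul_X_pow a m n]
  rfl

lemma ln_hom (x : σ → L) : WHomog (w1 σ) (ln x).asIdeal := fun f hf n => mem_ln.2 fun m =>
  comp_mem (J := (kr (aeval x)).asIdeal) (weightedHomogeneousComponent_isWeightedHomogeneous n f)
    (mem_ln.1 hf n) m

lemma mem_zl (κ : L →ₐ[K] L') (x : σ → L) :
    mapV κ.toRingHom x ∈ zeroLocus L' (ln x).asIdeal := fun f hf => by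
  rw [aeval_mapV, map_eq_zero]
  exact mem_of_comp (J := (kr (aeval x)).asIdeal) (mem_ln.1 hf)

variable [Finite σ]

lemma dm_ln (x : σ → L) : (dm K (ln x) : Cardinal) ≤ L.tr + 1 := by
  rw [← Dim.trdeg_eq_dm, ← (trans_rat L).tr_eq (gen_rat L)]
  let ρ : MvPolynomial σ K →ₐ[K] Polynomial L :=
    aeval fun i => Polynomial.X ^ w1 σ i * (Polynomial.CAlgHom : L →ₐ[K] Polynomial L) (x i)
  exact (trdeg_le_of_injective (Ideal.kerLiftAlg ρ) (Ideal.kerLiftAlg_injective ρ)).trans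
    (trdeg_le_of_injective (IsScalarTower.toAlgHom K (Polynomial L) (RatFunc L))
      (RatFunc.algebraMap_injective L))

lemma bx_le {a b : Ideal (MvPolynomial σ K)} (ha : WHomog (w1 σ) a) (hb : WHomog (w1 σ) b)
    {x y : σ → L} (hx : x ∈ zeroLocus L a) (hy : y ∈ zeroLocus L b) :
    bx a b ≤ (PP x y).asIdeal := le_hom (ha.bx hb) (sup_le
  (Ideal.map_le_iff_le_comap.2 fun f hf => (ev_left x y f).trans (hx f hf))
  (Ideal.map_le_iff_le_comap.2 fun f hf => (ev_right x y f).trans (hy f hf)))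

variable {I : Ideal (MvPolynomial σ K)}

lemma mem_red (hI : Homog I) (O : Pl M) {E : Submodule M (σ → M)} (h : (XS I hI).mem E) :
    (XS I hI).mem (L := O.res) (sred O E) := by
  obtain ⟨x, h0, hx, rfl⟩ := h
  obtain ⟨s, h1, h2⟩ := exists_scale O h0
  obtain ⟨h3, h4⟩ := sred_nz h1 h2
  refine ⟨_, fun e => one_ne_zero (h3.symm.trans (congrFun e s)), fun f hf => ?_, h4⟩
  rw [← ev_left _ (rdV O (nz s x)), ← (ev_rd h2 h2 _).2, ev_left, hI.smul_mem hx _ f hf, O.rd_zero]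

variable (b : Cyc (SS K σ) →ₗ[ℚ] ℚ)

/-- The value at a pair of lines. -/
noncomputable def wt (E E' : Submodule L (σ → L)) : ℚ :=
  dg (FF (gn E) (gn E')) * b (Finsupp.single (PP (gn E) (gn E')) 1)

omit [Finite σ] in
lemma wt_span {x y : σ → L} (hx : x ≠ 0) (hy : y ≠ 0) :
    wt b (Submodule.span L {x}) (Submodule.span L {y}) =
      dg (FF x y) * b (Finsupp.single (PP x y) 1) := by
  rw [wt, (gn_pair hx hy).1, (gn_pair hx hy).2]

open Classical in
/-- The functional. -/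
noncomputable def vv (hI : Homog I) (j : ℕ) (L : Fld K)
    (y : ((Sub K σ).prod (Sub K σ)).pt L) : ℚ :=
  if Good j L ∧ ((XS I hI).prod (XS I hI)).mem y then wt b y.1 y.2 else 0

open Classical in
lemma vv_map (hI : Homog I) (κ : L →ₐ[K] L') (y : ((Sub K σ).prod (Sub K σ)).pt L)
    (h : Good j L') : vv b hI j L' (((Sub K σ).prod (Sub K σ)).map κ y) =
      deg κ * if ((XS I hI).prod (XS I hI)).mem y then wt b y.1 y.2 else 0 := by
  by_cases h1 : ((XS I hI).prod (XS I hI)).mem y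
  · rw [vv, if_pos ⟨h, (Sp.map_iff _ κ y).2 h1⟩, if_pos h1]
    obtain ⟨E, E'⟩ := y
    obtain ⟨⟨x, hx, -, rfl⟩, y, hy, -, rfl⟩ := h1
    show wt b (smap _ _) (smap _ _) = _ * wt b _ _
    rw [smap_single, smap_single, wt_span b hx hy, wt_span b (fun e => hx ((mapV_eq_zero _).1 e))
      fun e => hy ((mapV_eq_zero _).1 e), FF_map, dg_map, PP_map]
    push_cast
    ring
  · rw [vv, if_neg fun e => h1 ((Sp.map_iff _ κ y).1 e.2), if_neg h1, mul_zero]

lemma vv_ext (hI : Homog I) (κ : L →ₐ[K] L') (y : ((Sub K σ).prod (Sub K σ)).pt L)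
    (h : Good j L) (h' : Good j L') :
    vv b hI j L' (((Sub K σ).prod (Sub K σ)).map κ y) = deg κ * vv b hI j L y := by
  classical
  rw [vv_map b hI κ y h', vv]
  exact congrArg _ (if_congr (and_iff_right h).symm rfl rfl)

lemma vv_low (hI : Homog I) (κ : L →ₐ[K] L') (y : ((Sub K σ).prod (Sub K σ)).pt L)
    (h : L.tr < j) : vv b hI j L' (((Sub K σ).prod (Sub K σ)).map κ y) = 0 := by
  by_cases h1 : Good j L'
  · rw [vv_map b hI κ y h1, Nat.eq_zero_of_not_pos fun e =>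
      h.ne (((deg_pos_iff κ).1 e).tr_eq.symm.trans h1.2), Nat.cast_zero, zero_mul]
  · exact if_neg fun e => h1 e.1

variable [Base K]

lemma vv_rat (hI : Homog I)
    (b1 : ∀ (z : PrimeSpectrum (SS K σ)) (g h : SS K σ) (γ : N2), WHomog (w2 σ σ) z.asIdeal →
      bx I I ≤ z.asIdeal → g.IsWeightedHomogeneous (w2 σ σ) γ →
      h.IsWeightedHomogeneous (w2 σ σ) γ → g ∉ z.asIdeal → h ∉ z.asIdeal →
        b (dv K z g - dv K z h) = 0)
    (b2 : ∀ Z : PrimeSpectrum (SS K σ), (∀ s t, X (Sum.inl s) * X (Sum.inr t) ∈ Z.asIdeal) →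
      b (Finsupp.single Z 1) = 0) (y : ((Sub K σ).prod (Sub K σ)).pt M) {f : M}
    (hM : Good (j + 1) M) (hy : ((XS I hI).prod (XS I hI)).mem y) (hf : f ≠ 0) :
    RR j (vv b hI j) y f := by
  obtain ⟨E, E'⟩ := y
  obtain ⟨⟨x, hx, hx', rfl⟩, y, hy, hy', rfl⟩ := hy
  obtain ⟨s, hs⟩ := Function.ne_iff.1 hx
  obtain ⟨t, ht⟩ := Function.ne_iff.1 hy
  obtain ⟨x₀, y₀, e1, e2, h1, h2, h3⟩ := exists_desc hs ht
  have h4 : x₀ ≠ 0 := fun e => one_ne_zero (h1.symm.trans (congrFun e s))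
  have h5 : y₀ ≠ 0 := fun e => one_ne_zero (h2.symm.trans (congrFun e t))
  have h6 : ∀ f ∈ I, aeval x₀ f = 0 := fun f hf => by
    rw [← map_eq_zero (FF x y).val, ← aeval_mapV (L := M.sub (FF x y)), e1]
    exact hI.smul_mem hx' _ f hf
  have h7 : ∀ f ∈ I, aeval y₀ f = 0 := fun f hf => by
    rw [← map_eq_zero (FF x y).val, ← aeval_mapV (L := M.sub (FF x y)), e2]
    exact hI.smul_mem hy' _ f hf
  have e : ((Sub K σ).prod (Sub K σ)).map (L := M.sub (FF x y)) (FF x y).val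
      (Submodule.span _ {x₀}, Submodule.span _ {y₀}) =
      (Submodule.span M {x}, Submodule.span M {y}) := Prod.ext
    ((smap_single _ _).trans (e1 ▸ Submodule.span_singleton_smul_eq (inv_ne_zero hs).isUnit x))
    ((smap_single _ _).trans (e2 ▸ Submodule.span_singleton_smul_eq (inv_ne_zero ht).isUnit y))
  refine (congrArg (fun u => RR j (vv b hI j) u f) e).mp
    (rr_of_gen (vv_ext b hI) (vv_low b hI) _ _ (good_of_top h3) hM (fun h0 g hg => ?_) hf)
  have hw := wHomog_iff_homog.2 hI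
  obtain ⟨k1, k2⟩ := mt_sum h4 h5 h3 h0 hg b
    (fun g h γ => b1 _ g h γ (hom_hom _) (bx_le hw hw h6 h7)) b2
  have k3 : tm j (vv b hI j) (Submodule.span _ {x₀}, Submodule.span _ {y₀}) g =
      fun O => mt j x₀ y₀ g O * b (Finsupp.single (pr x₀ y₀ O) 1) := funext fun O => by
    by_cases k : O.IsDiv j
    · rw [tm, mt, if_pos k, if_pos k, vv, if_pos ⟨k.good h0, mem_red hI O ⟨_, h4, h6, rfl⟩,
        mem_red hI O ⟨_, h5, h7, rfl⟩⟩, mul_assoc]
      rfl
    · rw [tm, mt, if_neg k, if_neg k, zero_mul]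
  rw [RR, k3]
  exact ⟨k1.subset fun O hO => left_ne_zero_of_mul hO, k2⟩

lemma vv_kills (hI : Homog I)
    (b3 : ∀ a c : PrimeSpectrum (MvPolynomial σ K), WHomog (w1 σ) a.asIdeal →
      WHomog (w1 σ) c.asIdeal → I ≤ a.asIdeal → I ≤ c.asIdeal → dm K a + dm K c = j + 2 →
        b (Finsupp.single (bxP a c) 1) = 0) (L L₁ L₂ : Fld K) (ι₁ : L₁ →ₐ[K] L) (ι₂ : L₂ →ₐ[K] L)
    (E : (Sub K σ).pt L₁) (E' : (Sub K σ).pt L₂) (h : L₁.tr + L₂.tr ≤ j) :
    vv b hI j L ((Sub K σ).map ι₁ E, (Sub K σ).map ι₂ E') = 0 := by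
  rw [vv]
  split_ifs with h1
  swap
  · rfl
  obtain ⟨x, hx, hx', rfl⟩ := (Sp.map_iff _ ι₁ E).1 h1.2.1
  obtain ⟨y, hy, hy', rfl⟩ := (Sp.map_iff _ ι₂ E').1 h1.2.2
  have h2 : mapV ι₁.toRingHom x ≠ 0 := fun e => hx ((mapV_eq_zero _).1 e)
  have h3 : mapV ι₂.toRingHom y ≠ 0 := fun e => hy ((mapV_eq_zero _).1 e)
  show wt b (smap _ _) (smap _ _) = 0
  rw [smap_single, smap_single, wt_span b h2 h3, mul_eq_zero, or_iff_not_imp_left]
  intro h4
  have h5 := dm_PP h2 h3 h1.1.2 (Nat.cast_ne_zero.1 h4)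
  have h6 : dm K (ln x) + dm K (ln y) ≤ j + 2 := by
    have k := (add_le_add (dm_ln x) (dm_ln y)).trans
      ((add_add_add_comm _ _ _ _).le.trans (add_le_add_left h _))
    exact_mod_cast k
  have h7 : bxP (ln x) (ln y) = PP (mapV ι₁.toRingHom x) (mapV ι₂.toRingHom y) :=
    eq_of_le_of_dm_le (K := K) (bx_le (ln_hom x) (ln_hom y) (mem_zl ι₁ x) (mem_zl ι₂ y))
      (by rwa [dm_bxP, h5])
  have hw := wHomog_iff_homog.2 hI
  rw [← h7]
  exact b3 _ _ (ln_hom x) (ln_hom y) (fun f hf => mem_ln.2 fun n => hx' _ (hw f hf n))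
    (fun f hf => mem_ln.2 fun n => hy' _ (hw f hf n)) (by rw [← dm_bxP, h7, h5])

end Pool.Agent.Lib.MP_557161_ag.DL.Bridge
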