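import Pool.Agent.Lib.MP_557161_ag.DL.ValC3

/-!
Divisorial places: residue fields, extensions and norms, centres.
-/

namespace Pool.Agent.Lib.MP_557161_ag.DL.Pl

open Pool.Agent.Lib.MP_60ec62_ag.DL (dm dv gen)

variable {K : Type} [Field K] [Base K] {L M M' : Fld K} {j : ℕ}

/-- The residue field of a divisorial place is finitely generated. -/
lemma IsDiv.good {O : Pl M} (h : O.IsDiv j) (hM : Good (j + 1) M) : Good j O.res := by
  obtain ⟨D, _, _, _, ψ, q, h1, h2⟩ := ValC.model h hM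
  exact ⟨(h2.good h1).1, h.2⟩

lemma finite_over {ι : M →ₐ[K] M'} (hι : Fin' ι) (hM : Good (j + 1) M) {O : Pl M}
    (h : O.IsDiv j) : {O' : Pl M' | Over ι O O'}.Finite :=
  (ValC.over_main hι hM h).2.1

lemma Over.isDiv {ι : M →ₐ[K] M'} (hι : Fin' ι) (hM : Good (j + 1) M) {O : Pl M}
    (h : O.IsDiv j) {O' : Pl M'} (h' : Over ι O O') : O'.IsDiv j :=
  (ValC.over_main hι hM h).1 O' h'

/-- The push-forward of a principal divisor is the divisor of the norm. -/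
lemma sum_ord_nrm {ι : M →ₐ[K] M'} (hι : Fin' ι) (hM : Good (j + 1) M) {O : Pl M}
    (h : O.IsDiv j) {f : M'} (hf : f ≠ 0) :
    ∑ᶠ O' : {O' : Pl M' // Over ι O O'}, O'.1.ord f * (deg O'.2.resHom : ℤ) =
      O.ord (nrm ι f) :=
  (ValC.over_main hι hM h).2.2 f hf

end Pool.Agent.Lib.MP_557161_ag.DL.Pl

namespace Pool.Agent.Lib.MP_557161_ag.DL.ValC

open Pl

variable {K : Type} [Field K] [Base K] {L M M' : Fld K} {j : ℕ}

omit [Base K] in
lemma mem_of_alg {ι : L →ₐ[K] M} {O : Pl M} (h : Triv ι O) {f : M} (hf : ¬ Trans' ι f) :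
    f ∈ O.O := by
  let : Algebra L M := ι.toRingHom.toAlgebra
  refine mem_of_integral (A := L) h (IsAlgebraic.isIntegral ?_)
  simp only [Trans', not_forall] at hf
  obtain ⟨P, h1, h2⟩ := hf
  exact ⟨P, h2, h1⟩

open Classical in
lemma zeros {α : L →ₐ[K] M} {κ : M →ₐ[K] M'} (hL : Good j L) (hM : Good (j + 1) M') {T : M}
    (ht : Trans' α T) (hg : Gen α T) :
    {O : Pl M' | (Triv (κ.comp α) O ∧ O.IsDVR) ∧ (κ T)⁻¹ ∉ O.O}.Finite ∧
      ∑ᶠ O ∈ {O : Pl M' | (Triv (κ.comp α) O ∧ O.IsDVR) ∧ (κ T)⁻¹ ∉ O.O}, O.ord (κ T) *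
        (if h : Triv (κ.comp α) O then (deg h.hom : ℤ) else 0) = deg κ := by
  have h0 := hL.succ ht hg
  have hκ := Good.fin κ hM h0.2
  obtain ⟨O, h1, h2, h3, h4⟩ := exists_zero_place ht hg
  have hd : O.IsDiv j := ⟨h2, (Fin'.of_surj h4).tr_eq.trans hL.2⟩
  have h5 : T⁻¹ ∉ O.O := fun e => by
    have := (ord_nonneg_iff h2).2 e
    rw [ord_inv h2, h3] at this
    omega
  have tr : ∀ O', Over κ O O' → Triv (κ.comp α) O' := fun O' h' x => (h' _).1 (h1 x)
  have e : {O : Pl M' | (Triv (κ.comp α) O ∧ O.IsDVR) ∧ (κ T)⁻¹ ∉ O.O} = {O' | Over κ O O'} := by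
    ext O'
    refine ⟨fun h' => ?_, fun h' => ⟨⟨tr O' h', (Over.isDiv hκ h0 hd h').1⟩, fun e =>
      h5 ((h' _).2 (by rwa [map_inv₀]))⟩⟩
    rw [zero_place_unique ht hg h1 (O₂ := comap κ O') h'.1.1 h5 fun e => h'.2 (by
      rw [← map_inv₀]; exact e)]
    exact over_comap κ O'
  have T0 : κ T ≠ 0 := (map_ne_zero κ).2 fun e => ht.ne 0 (e.trans (map_zero α).symm)
  have s := sum_ord_nrm hκ h0 hd T0
  rw [nrm_map, ord_pow h2, h3, mul_one] at s
  rw [e, ← finsum_set_coe_eq_finsum_mem, ← s]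
  refine ⟨finite_over hκ h0 hd, finsum_congr fun O' => ?_⟩
  have e2 : (tr _ O'.2).hom = (Over.resHom O'.2).comp h1.hom := AlgHom.ext fun x => by
    rw [AlgHom.comp_apply, Triv.hom_apply, Triv.hom_apply, Over.resHom_rd]; rfl
  rw [dif_pos (tr _ O'.2), e2, deg_comp, deg_of_surj h4, one_mul]

end Pool.Agent.Lib.MP_557161_ag.DL.ValC

namespace Pool.Agent.Lib.MP_557161_ag.DL.Pl

open Pool.Agent.Lib.MP_60ec62_ag.DL (dm dv gen)

variable {K : Type} [Field K] [Base K] {L M M' : Fld K} {j : ℕ}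

/-- A principal divisor on a curve over `L` has finite support and degree zero. -/
lemma degree_zero (ι : L →ₐ[K] M) (hL : Good j L) (hM : Good (j + 1) M) {f : M} (hf : f ≠ 0) :
    {O : Pl M | Triv ι O ∧ O.IsDVR ∧ O.ord f ≠ 0}.Finite ∧
      ∑ᶠ O : {O : Pl M // Triv ι O ∧ O.IsDVR}, O.1.ord f * (deg O.2.1.hom : ℤ) = 0 := by
  classical
  by_cases ht : Trans' ι f
  swap
  · have z : ∀ O, Triv ι O → O.ord f = 0 := fun O h => ord_eq_zero_of_mem hf (ValC.mem_of_alg h ht)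
      (ValC.mem_of_alg h fun e => ht (inv_inv f ▸ e.inv))
    exact ⟨Set.finite_empty.subset fun O h => h.2.2 (z O h.1),
      finsum_eq_zero_of_forall_eq_zero fun O => by rw [z _ O.2.1, zero_mul]⟩
  obtain ⟨M0, α, κ, T, rfl, rfl, hg⟩ := exists_gen ι f
  have ht' := Trans'.of_map.1 ht
  obtain ⟨f1, s1⟩ := ValC.zeros hL hM ht' hg
  obtain ⟨f2, s2⟩ := ValC.zeros hL hM ht'.inv hg.inv
  simp only [map_inv₀, inv_inv] at f2 s2
  have sub : ∀ O : Pl M, O.ord (κ T) ≠ 0 → (κ T)⁻¹ ∉ O.O ∨ κ T ∉ O.O := fun O h => by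
    by_contra h1
    rw [not_or, not_not, not_not] at h1
    exact h (ord_eq_zero_of_mem hf h1.2 h1.1)
  refine ⟨(f1.union f2).subset fun O h => (sub O h.2.2).imp (fun e => ⟨⟨h.1, h.2.1⟩, e⟩)
    fun e => ⟨⟨h.1, h.2.1⟩, e⟩, ?_⟩
  rw [finsum_mem_congr rfl (g := fun O : Pl M => -(O.ord (κ T) *
    if h : Triv (κ.comp α) O then (deg h.hom : ℤ) else 0)) fun O h => by
      rw [ord_inv h.1.2, neg_mul], finsum_mem_neg_distrib _ f2, neg_eq_iff_eq_neg] at s2
  have s3 := finsum_mem_union (f := fun O : Pl M => O.ord (κ T) *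
    if h : Triv (κ.comp α) O then (deg h.hom : ℤ) else 0) (Set.disjoint_left.2 fun O h h' =>
      (O.O.mem_or_inv_mem (κ T)).elim h'.2 h.2) f1 f2
  rw [s1, s2, add_neg_cancel, finsum_mem_inter_support_eq' _ _
    {O | Triv (κ.comp α) O ∧ O.IsDVR}, ← finsum_set_coe_eq_finsum_mem] at s3
  · exact (finsum_congr fun O => by rw [dif_pos O.2.1]).trans s3
  · exact fun O h => ⟨fun e => e.elim And.left And.left, fun e =>
      (sub O (left_ne_zero_of_mul h)).imp (fun e' => ⟨e, e'⟩) fun e' => ⟨e, e'⟩⟩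

section Centre

variable {A : Type} [CommRing A] [Algebra K A]

variable [Algebra.FiniteType K A]

open Pool.Agent.Lib.MP_60ec62_ag.DL in
/-- The order of vanishing along a prime divisor `z` of the variety `w` with function field `M` is
the sum of the orders at the places with centre `z`. -/
lemma sum_cen (φ : A →ₐ[K] M) (w z : PrimeSpectrum A) (hw : ∀ a, φ a = 0 ↔ a ∈ w.asIdeal)
    (hfr : ∀ x : M, ∃ a b, φ b ≠ 0 ∧ x * φ b = φ a) (hM : M.tr = (j + 1 : ℕ)) (hz : dm K z = j) :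
    {O : Pl M | O.IsDiv j ∧ Cen φ z O}.Finite ∧ ∀ a, φ a ≠ 0 →
      ∑ᶠ O : {O : Pl M // O.IsDiv j ∧ Cen φ z O}, ((O.1.ord (φ a) * cenDeg φ O.1 : ℤ) : ℚ) =
        dv K w a z := by
  obtain ⟨p, hp, _⟩ := Base.char (K := K)
  have := Fact.mk hp
  obtain ⟨D, _, _, _, _, _, _, _, ψ, h1, h2⟩ := ValC.exists_model p φ hfr
  have : Algebra.EssFiniteType K D := Algebra.EssFiniteType.comp K A D
  have : IsNoetherianRing A := Algebra.EssFiniteType.isNoetherianRing K A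
  have hfr' : ∀ x : M, ∃ a b, ψ b ≠ 0 ∧ x * ψ b = ψ a := fun m => (hfr m).elim fun a ⟨b, h⟩ =>
    ⟨algebraMap A D a, algebraMap A D b, by rwa [h2, h2]⟩
  obtain ⟨m1, m2, m3⟩ := ValC.main ψ h1 hfr' hM h2 z hz
  have e : {O : Pl M | Cen φ z O} = {O | O.IsDiv j ∧ Cen φ z O} :=
    Set.ext fun O => ⟨fun h => ⟨(m1 O h).1, h⟩, And.right⟩
  refine ⟨e ▸ m2, fun a ha => ?_⟩
  have h3 := m3 (algebraMap A D a) fun e => ha (by rw [← h2, e, map_zero])
  have hw' : PrimeSpectrum.comap (algebraMap A D) (gen D) = w := PrimeSpectrum.ext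
    (Ideal.ext fun a => by rw [← hw, ← h2, map_eq_zero_iff _ h1]; rfl)
  obtain ⟨r, -, h4⟩ := Key.push_point (R := A) (hD K) (hC K) (gen D)
  have h5 := ValC.len_res ψ (gen D) (fun a => map_eq_zero_iff _ h1) hfr' M φ.toRingHom
    (fun a => (h2 a).symm) hfr
  rw [Key.push_single, hw'] at h4
  have h6 := congrArg (· w) h4
  simp only [Finsupp.smul_apply, Finsupp.single_eq_same, smul_eq_mul, mul_one] at h6
  rw [CycA.cyc_apply, if_pos (hw' ▸ Key.dm_comap (hD K) _), ← hw', h5, Module.finrank_self,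
    Nat.cast_one] at h6
  rw [e, ← finsum_set_coe_eq_finsum_mem, Key.push_G_single (hD K) (hC K), h4, ← h6, one_smul,
    Key.G_single, h2] at h3
  exact h3

end Centre

end Pool.Agent.Lib.MP_557161_ag.DL.Pl
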