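import Pool.Agent.Lib.MP_557161_ag.DL.Sub
import Pool.Agent.Lib.MP_557161_ag.DL.ValC
import Pool.Agent.Lib.MP_557161_ag.DL.TwoD
import Pool.Agent.Lib.MP_557161_ag.DL.Bridge5

/-!
From functionals on points over function fields to cycles modulo rational equivalence.
-/

namespace Pool.Agent.Lib.MP_557161_ag.DL

open MvPolynomial
open Pool.Agent.Lib.MP_60ec62_ag.DL (dm dv Cyc)

variable {K : Type} [Field K] [Base K] {σ : Type} [Finite σ]

/-- Divisors of rational functions on subvarieties of the square, and irrelevant primes. -/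
noncomputable def RatB (I : Ideal (MvPolynomial σ K)) : Submodule ℚ (Cyc (MvPolynomial (σ ⊕ σ) K)) :=
  Submodule.span ℚ {c | ∃ (z : PrimeSpectrum (MvPolynomial (σ ⊕ σ) K))
      (f g : MvPolynomial (σ ⊕ σ) K) (γ : N2), WHomog (w2 σ σ) z.asIdeal ∧ bx I I ≤ z.asIdeal ∧
      f.IsWeightedHomogeneous (w2 σ σ) γ ∧ g.IsWeightedHomogeneous (w2 σ σ) γ ∧
      f ∉ z.asIdeal ∧ g ∉ z.asIdeal ∧ c = dv K z f - dv K z g} ⊔
    Submodule.span ℚ {c | ∃ z : PrimeSpectrum (MvPolynomial (σ ⊕ σ) K),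
      E2 K σ σ ⊆ z.asIdeal ∧ c = Finsupp.single z 1}

/-- Exterior products of subvarieties. -/
noncomputable def ProdB (I : Ideal (MvPolynomial σ K)) (δ : ℕ) : Submodule ℚ (Cyc (MvPolynomial (σ ⊕ σ) K)) :=
  Submodule.span ℚ {c | ∃ a b : PrimeSpectrum (MvPolynomial σ K), WHomog (w1 σ) a.asIdeal ∧
    WHomog (w1 σ) b.asIdeal ∧ I ≤ a.asIdeal ∧ I ≤ b.asIdeal ∧ dm K a + dm K b = δ ∧
    c = Finsupp.single (bxP a b) 1}

open Bridge in
/-- Every subvariety of the square is rationally equivalent to a combination of products. -/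
theorem bridge {I : Ideal (MvPolynomial σ K)} (hI : Homog I) (h : Van (XS I hI) (XS I hI))
    (q : PrimeSpectrum (MvPolynomial (σ ⊕ σ) K)) (hq : WHomog (w2 σ σ) q.asIdeal)
    (hq' : bx I I ≤ q.asIdeal) : Finsupp.single q (1 : ℚ) ∈ RatB I ⊔ ProdB I (dm K q) := by
  by_contra h0
  obtain ⟨b, h1, h2⟩ := Submodule.exists_le_ker_of_notMem h0
  have b2 : ∀ Z : PrimeSpectrum (SS K σ), (∀ s t, X (Sum.inl s) * X (Sum.inr t) ∈ Z.asIdeal) →
      b (Finsupp.single Z 1) = 0 := fun Z hZ => h2 (Submodule.mem_sup_left (Submodule.mem_sup_right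
    (Submodule.subset_span ⟨Z, by rintro _ ⟨s, t, rfl⟩; exact hZ s t, rfl⟩)))
  obtain ⟨s, t, hst⟩ : ∃ s t, X (Sum.inl s) * X (Sum.inr t) ∉ q.asIdeal := by
    by_contra! e
    exact h1 (b2 q e)
  obtain ⟨L, x, y, hs, ht, hF, rfl⟩ := exists_point hq hst
  have hx : x ≠ 0 := fun e => one_ne_zero (hs.symm.trans (congrFun e s))
  have hy : y ≠ 0 := fun e => one_ne_zero (ht.symm.trans (congrFun e t))
  have hd : dm K (PP x y) = dm K (kr (ev x y)) + 2 := dm_hom (ch_ev hs ht)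
  let φ : Fn (dm K (kr (ev x y))) ((XS I hI).prod (XS I hI)) :=
    { v := vv b hI _
      supp := fun L y e => by_contra fun e' => e (if_neg e')
      ext := vv_ext b hI
      low := vv_low b hI
      rat := fun M y f hM hy hf => (vv_rat b hI (fun z g h γ k1 k2 k3 k4 k5 k6 => h2
        (Submodule.mem_sup_left (Submodule.mem_sup_left (Submodule.subset_span
          ⟨z, g, h, γ, k1, k2, k3, k4, k5, k6, rfl⟩)))) b2 y hM hy hf).out }
  have h3 := h _ φ (vv_kills b hI fun a c k1 k2 k3 k4 k5 => h2 (Submodule.mem_sup_right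
    (Submodule.subset_span ⟨a, c, k1, k2, k3, k4, k5.trans hd.symm, rfl⟩))) L
      (Submodule.span L {x}, Submodule.span L {y})
  have h4 : bx I I ≤ (kr (ev x y)).asIdeal := hq'.trans (hom_le _)
  refine h1 ?_
  have h5 := (if_pos ⟨good_of_top hF, ⟨x, hx, fun f hf => (ev_left x y f).symm.trans
    (h4 (Ideal.mem_sup_left (Ideal.mem_map_of_mem _ hf))), rfl⟩, y, hy,
      fun f hf => (ev_right x y f).symm.trans
        (h4 (Ideal.mem_sup_right (Ideal.mem_map_of_mem _ hf))), rfl⟩).symm.trans h3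
  rwa [wt_span b hx hy, hF, dg_top, Nat.cast_one, one_mul] at h5

end Pool.Agent.Lib.MP_557161_ag.DL
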