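import Pool.Agent.Lib.MP_557161_ag.DL.Gr
import Pool.Agent.Lib.MP_60ec62_ag.DL.Base

/-!
Cones over affine charts of a product of two projective spaces.
-/

namespace Pool.Agent.Lib.MP_557161_ag.DL.Bridge

open MvPolynomial
open Pool.Agent.Lib.MP_60ec62_ag.DL

variable {K : Type} [Field K]

section Coef

variable {τ Γ : Type} [AddCommMonoid Γ] {w : τ → Γ} {A A' : Type} [CommRing A] [Algebra K A]
  [CommRing A'] [Algebra K A']

lemma aeval_hom (c : Γ → A) (h0 : c 0 = 1) (hc : ∀ a b, c (a + b) = c a * c b) (x : τ → A)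
    {f : MvPolynomial τ K} {γ : Γ} (hf : f.IsWeightedHomogeneous w γ) :
    aeval (fun i => c (w i) * x i) f = c γ * aeval x f := by
  have h1 : ∀ (n : ℕ) a, c (n • a) = c a ^ n := fun n a => by
    induction n with
    | zero => rw [zero_smul, h0, pow_zero]
    | succ n ih => rw [succ_nsmul, hc, ih, pow_succ]
  have h2 : ∀ m : τ →₀ ℕ, (m.prod fun i k => (c (w i) * x i) ^ k) =
      c (Finsupp.weight w m) * m.prod fun i k => x i ^ k := fun m => by
    induction m using Finsupp.induction_linear with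
    | zero => simp [h0]
    | add f g hf hg =>
      rw [Finsupp.prod_add_index' (fun _ => pow_zero _) (fun _ _ _ => pow_add _ _ _),
        Finsupp.prod_add_index' (fun _ => pow_zero _) (fun _ _ _ => pow_add _ _ _), hf, hg,
        map_add, hc]
      ring
    | single i n =>
      rw [Finsupp.prod_single_index (by exact pow_zero _),
        Finsupp.prod_single_index (by exact pow_zero _), Finsupp.weight_single, h1, mul_pow]
  rw [f.as_sum, map_sum, map_sum, Finset.mul_sum]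
  refine Finset.sum_congr rfl fun m hm => ?_
  rw [aeval_monomial, aeval_monomial, h2, hf (mem_support_iff.1 hm), mul_left_comm]

lemma coef [DecidableEq Γ] (ι : A' →ₐ[K] A) (c : Γ → A) (h0 : c 0 = 1)
    (hc : ∀ a b, c (a + b) = c a * c b) (x : τ → A') (lam : A →+ A') (γ : Γ)
    (h : ∀ γ' a, lam (c γ' * ι a) = if γ = γ' then a else 0) (f : MvPolynomial τ K) :
    lam (aeval (fun i => c (w i) * ι (x i)) f) = aeval x (weightedHomogeneousComponent w γ f) := by
  induction f using MvPolynomial.induction_on' with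
  | add f g hf hg => simp only [map_add, hf, hg]
  | monomial m r =>
    have h1 := isWeightedHomogeneous_monomial w m r rfl
    rw [aeval_hom c h0 hc _ h1, ← comp_aeval_apply, h, weightedHomogeneousComponent_of_mem h1]
    split_ifs
    · rfl
    · exact (map_zero _).symm

lemma mem_of_comp {J : Ideal (MvPolynomial τ K)} {f : MvPolynomial τ K}
    (h : ∀ γ, weightedHomogeneousComponent w γ f ∈ J) : f ∈ J := by
  rw [← sum_weightedHomogeneousComponent w f, finsum_eq_sum _
    (weightedHomogeneousComponent_finsupp f)]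
  exact J.sum_mem fun γ _ => h γ

lemma comp_mem {J : Ideal (MvPolynomial τ K)} {f : MvPolynomial τ K} {γ : Γ}
    (hf : f.IsWeightedHomogeneous w γ) (h : f ∈ J) (γ' : Γ) :
    weightedHomogeneousComponent w γ' f ∈ J := by
  classical
  rw [weightedHomogeneousComponent_of_mem hf]
  split_ifs
  · exact h
  · exact J.zero_mem

end Coef

/-- The kernel of a map to a domain. -/
def kr {A B : Type} [CommRing A] [Algebra K A] [CommRing B] [IsDomain B] [Algebra K B]
    (φ : A →ₐ[K] B) : PrimeSpectrum A := ⟨RingHom.ker φ, RingHom.ker_isPrime φ⟩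

lemma mem_kr {A B : Type} [CommRing A] [Algebra K A] [CommRing B] [IsDomain B] [Algebra K B]
    {φ : A →ₐ[K] B} {a : A} : a ∈ (kr φ).asIdeal ↔ φ a = 0 := Iff.rfl

section Ex

variable {R : Type} [CommRing R]

/-- The extension of a prime to the polynomial ring. -/
noncomputable def ex (w : PrimeSpectrum R) : PrimeSpectrum (Polynomial R) :=
  ⟨w.asIdeal.map Polynomial.C, Ideal.isPrime_map_C_of_isPrime⟩

lemma mem_ex {w : PrimeSpectrum R} {f : Polynomial R} :
    f ∈ (ex w).asIdeal ↔ ∀ n, f.coeff n ∈ w.asIdeal := Ideal.mem_map_C_iff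

lemma C_mem_ex {w : PrimeSpectrum R} {a : R} : Polynomial.C a ∈ (ex w).asIdeal ↔ a ∈ w.asIdeal :=
  ⟨fun h => by simpa using mem_ex.1 h 0, Ideal.mem_map_of_mem _⟩

lemma X_not_mem_ex (w : PrimeSpectrum R) : Polynomial.X ∉ (ex w).asIdeal := fun h =>
  w.2.one_notMem (by simpa using mem_ex.1 h 1)

lemma ex_inj : Function.Injective (ex (R := R)) := fun _ _ h =>
  PrimeSpectrum.ext (Ideal.ext fun a => by rw [← C_mem_ex, h, C_mem_ex])

variable [Algebra K R] [Algebra.FiniteType K R]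

lemma dm_ex (w : PrimeSpectrum R) : dm K (ex w) = dm K w + 1 := by
  have e : cm (Polynomial.CAlgHom : R →ₐ[K] Polynomial R) (ex w) = w :=
    PrimeSpectrum.ext (Ideal.ext fun _ => C_mem_ex)
  have h1 := Dim.dm_poly (𝕜 := K) (ex w)
  let ev : Polynomial R →ₐ[K] R := Polynomial.aevalTower (AlgHom.id K R) 0
  have h2 : LocSurj ev := fun r => ⟨Polynomial.C r, 1, by simp, by simp [ev]⟩
  have h3 : ex w < cm ev w := lt_of_le_of_ne
    (Ideal.map_le_iff_le_comap.2 fun a ha => by simpa [ev] using ha)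
    fun h => X_not_mem_ex w (by rw [h]; simp [ev])
  have h4 := dm_lt (K := K) h3
  rw [Dim.dm_locSurj h2] at h4
  rw [e] at h1
  omega

lemma dv_ex (w z : PrimeSpectrum R) (a : R) :
    dv K (ex w) (Polynomial.C a) (ex z) = dv K w a z := by
  have hf : ((Ideal.Quotient.mk (⊥ : Ideal (Polynomial R))).comp
      ((Polynomial.CAlgHom : R →ₐ[K] Polynomial R) : R →+* Polynomial R)).Flat :=
    RingHom.Flat.comp (RingHom.flat_algebraMap_iff.2 inferInstance)
      (RingHom.Flat.of_bijective (Ideal.Quotient.mk_bijective_iff_eq_bot _ |>.2 rfl))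
  have h1 := ((hC K).2.2.2.2 R (Polynomial R) Polynomial.CAlgHom ⊥ 1 hf
    fun Z _ => Dim.dm_poly Z).1 w a
  have h2 : ∀ u : PrimeSpectrum R, pb (Polynomial.CAlgHom : R →ₐ[K] Polynomial R) ⊥ 1
      (Finsupp.single u 1) = Finsupp.single (ex u) 1 := fun u => by
    rw [Pb.pb_single, bot_sup_eq, ← dm_ex]
    exact CycA.cyc_self (hD K).1 (ex u)
  have h3 : pb (Polynomial.CAlgHom : R →ₐ[K] Polynomial R) ⊥ 1 = Finsupp.lmapDomain ℚ ℚ ex :=
    Finsupp.lhom_ext' fun u => LinearMap.ext_ring (by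
      simp only [LinearMap.comp_apply, Finsupp.lsingle_apply, h2, Finsupp.lmapDomain_apply,
        Finsupp.mapDomain_single])
  rw [h2, Key.G_single, h3, Finsupp.lmapDomain_apply] at h1
  rw [← Finsupp.mapDomain_apply ex_inj (dv K w a) z, h1]
  rfl

end Ex

variable {σ : Type}

/-- The polynomial ring in two sets of variables. -/
abbrev SS (K σ : Type) [Field K] : Type := MvPolynomial (σ ⊕ σ) K

/-- The monomial of a bidegree. -/
noncomputable def mon {A : Type} [CommRing A] (a b : A) (γ : N2) : A :=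
  a ^ (ofLex γ).1 * b ^ (ofLex γ).2

lemma mon_zero {A : Type} [CommRing A] (a b : A) : mon a b 0 = 1 := by
  simp [mon]

lemma mon_add {A : Type} [CommRing A] (a b : A) (γ γ' : N2) :
    mon a b (γ + γ') = mon a b γ * mon a b γ' := by
  simp only [mon, ofLex_add, Prod.fst_add, Prod.snd_add]
  ring

lemma mon_inl {A : Type} [CommRing A] (a b : A) (i : σ) : mon a b (w2 σ σ (Sum.inl i)) = a := by
  simp [mon, w2]

lemma mon_inr {A : Type} [CommRing A] (a b : A) (i : σ) : mon a b (w2 σ σ (Sum.inr i)) = b := by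
  simp [mon, w2]

/-- The constants in the ring with two more variables. -/
noncomputable def cc (K σ : Type) [Field K] : SS K σ →ₐ[K] Polynomial (Polynomial (SS K σ)) :=
  Polynomial.CAlgHom.comp Polynomial.CAlgHom

lemma cc_apply (f : SS K σ) : cc K σ f = Polynomial.C (Polynomial.C f) := rfl

/-- The monomials in the two new variables. -/
noncomputable abbrev tt (K σ : Type) [Field K] : N2 → Polynomial (Polynomial (SS K σ)) :=
  mon (Polynomial.C Polynomial.X) Polynomial.X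

/-- Scaling the two sets of variables. -/
noncomputable def scale (K σ : Type) [Field K] :
    SS K σ →ₐ[K] Polynomial (Polynomial (SS K σ)) :=
  aeval fun i => tt K σ (w2 σ σ i) * cc K σ (X i)

lemma scale_hom {f : SS K σ} {γ : N2} (hf : f.IsWeightedHomogeneous (w2 σ σ) γ) :
    scale K σ f = tt K σ γ * cc K σ f := by
  rw [scale, aeval_hom (tt K σ) (mon_zero _ _) (mon_add _ _) _ hf, ← comp_aeval_apply, aeval_X_left_apply]

lemma coeff_scale (f : SS K σ) (m n : ℕ) : ((scale K σ f).coeff n).coeff m =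
    weightedHomogeneousComponent (w2 σ σ) (toLex (m, n)) f := by
  have h := coef (w := w2 σ σ) (cc K σ) (tt K σ) (mon_zero _ _)
    (mon_add _ _) X ((Polynomial.lcoeff _ m).toAddMonoidHom.comp
      (Polynomial.lcoeff _ n).toAddMonoidHom) (toLex (m, n)) (fun γ a => by
      have e : tt K σ γ * cc K σ a = Polynomial.C (Polynomial.C a *
          Polynomial.X ^ (ofLex γ).1) * Polynomial.X ^ (ofLex γ).2 := by
        rw [tt, mon, cc_apply, map_mul, map_pow]
        ring
      show (Polynomial.coeff (tt K σ γ * cc K σ a) n).coeff m = _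
      rw [e, Polynomial.coeff_C_mul_X_pow]
      obtain ⟨a1, a2⟩ := γ
      show _ = if toLex (m, n) = toLex (a1, a2) then a else 0
      show Polynomial.coeff (if n = a2 then Polynomial.C a * Polynomial.X ^ a1 else 0) m = _
      by_cases h1 : n = a2
      · rw [if_pos h1, Polynomial.coeff_C_mul_X_pow]
        simp [h1]
      · simp [h1]) f
  rw [aeval_X_left_apply] at h
  exact h

/-- The largest bihomogeneous ideal inside a prime. -/
noncomputable def hom (w : PrimeSpectrum (SS K σ)) : PrimeSpectrum (SS K σ) :=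
  cm (scale K σ) (ex (ex w))

lemma mem_hom {w : PrimeSpectrum (SS K σ)} {f : SS K σ} : f ∈ (hom w).asIdeal ↔
    ∀ γ, weightedHomogeneousComponent (w2 σ σ) γ f ∈ w.asIdeal := by
  simp only [hom, mem_cm, mem_ex, coeff_scale]
  exact ⟨fun h γ => h (ofLex γ).2 (ofLex γ).1, fun h n m => h _⟩

lemma hom_le (w : PrimeSpectrum (SS K σ)) : hom w ≤ w := fun _ h => mem_of_comp (mem_hom.1 h)

lemma mem_hom_of {w : PrimeSpectrum (SS K σ)} {f : SS K σ} {γ : N2}
    (hf : f.IsWeightedHomogeneous (w2 σ σ) γ) : f ∈ (hom w).asIdeal ↔ f ∈ w.asIdeal :=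
  ⟨fun h => hom_le w h, fun h => mem_hom.2 (comp_mem hf h)⟩

lemma hom_hom (w : PrimeSpectrum (SS K σ)) : WHomog (w2 σ σ) (hom w).asIdeal := fun f h γ =>
  (mem_hom_of (weightedHomogeneousComponent_isWeightedHomogeneous γ f)).2 (mem_hom.1 h γ)

lemma le_hom {J : Ideal (SS K σ)} (hJ : WHomog (w2 σ σ) J) {w : PrimeSpectrum (SS K σ)}
    (h : J ≤ w.asIdeal) : J ≤ (hom w).asIdeal := fun f hf => mem_hom.2 fun γ => h (hJ f hf γ)

/-- The prime lies in the chart `X s = 1`, `Y t = 1`. -/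
def Ch (s t : σ) (w : PrimeSpectrum (SS K σ)) : Prop :=
  X (Sum.inl s) - 1 ∈ w.asIdeal ∧ X (Sum.inr t) - 1 ∈ w.asIdeal

lemma exists_chart (s t : σ) : ∃ (R : Type) (_ : CommRing R) (_ : Algebra K R)
    (ψ : Polynomial (Polynomial (SS K σ)) →ₐ[K] R), LocSurj (ψ.comp (scale K σ)) ∧
      IsUnit (ψ (Polynomial.C Polynomial.X)) ∧ IsUnit (ψ Polynomial.X) ∧
      ∀ w, Ch s t w → ∃ Q, cm ψ Q = ex (ex w) := by
  let p : SS K σ := X (Sum.inl s) * X (Sum.inr t)
  let R := Localization.Away p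
  let α : SS K σ →ₐ[K] R := IsScalarTower.toAlgHom K _ R
  obtain ⟨u, hu⟩ : IsUnit (α (X (Sum.inl s))) :=
    IsLocalization.Away.isUnit_of_dvd p (dvd_mul_right _ _)
  obtain ⟨v, hv⟩ : IsUnit (α (X (Sum.inr t))) :=
    IsLocalization.Away.isUnit_of_dvd p (dvd_mul_left _ _)
  let ψ : Polynomial (Polynomial (SS K σ)) →ₐ[K] R := Polynomial.aevalTower (Polynomial.aevalTower
    (aeval (Sum.elim (fun i => (u⁻¹ : Rˣ) * α (X (Sum.inl i)))
      fun i => (v⁻¹ : Rˣ) * α (X (Sum.inr i)))) u) v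
  have e : ψ.comp (scale K σ) = α := algHom_ext fun i => by
    rcases i with i | i
    · rw [AlgHom.comp_apply, scale, aeval_X, tt, mon_inl, map_mul]
      simp [ψ, cc_apply]
    · rw [AlgHom.comp_apply, scale, aeval_X, tt, mon_inr, map_mul]
      simp [ψ, cc_apply]
  refine ⟨R, inferInstance, inferInstance, ψ, fun r => ?_, by simp [ψ], by simp [ψ],
    fun w hw => ?_⟩
  · obtain ⟨⟨a, b⟩, h⟩ := IsLocalization.surj (Submonoid.powers p) r
    exact ⟨a, b, e ▸ IsLocalization.map_units R b, e ▸ h⟩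
  let F := FractionRing (Polynomial (Polynomial (SS K σ)) ⧸ (ex (ex w)).asIdeal)
  let μ : Polynomial (Polynomial (SS K σ)) →ₐ[K] F :=
    (IsScalarTower.toAlgHom K _ F).comp (Ideal.Quotient.mkₐ K (ex (ex w)).asIdeal)
  have hμ : ∀ b, μ b = 0 ↔ b ∈ (ex (ex w)).asIdeal := fun b =>
    (map_eq_zero_iff _ (IsFractionRing.injective (Polynomial (Polynomial (SS K σ)) ⧸
      (ex (ex w)).asIdeal) F)).trans Ideal.Quotient.eq_zero_iff_mem
  have h1 : ∀ i, X i - 1 ∈ w.asIdeal → μ (cc K σ (X i)) = 1 := fun i h => by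
    rw [← sub_eq_zero, ← map_one (μ.comp (cc K σ)), ← AlgHom.comp_apply, ← map_sub]
    exact (hμ _).2 (C_mem_ex.2 (C_mem_ex.2 h))
  have h2 : μ (Polynomial.C Polynomial.X) ≠ 0 := fun h =>
    X_not_mem_ex w (C_mem_ex.1 ((hμ _).1 h))
  have h3 : μ Polynomial.X ≠ 0 := fun h => X_not_mem_ex _ ((hμ _).1 h)
  have h4 : ∀ i, μ (scale K σ (X (Sum.inl i))) =
      μ (Polynomial.C Polynomial.X) * μ (cc K σ (X (Sum.inl i))) := fun i => by
    rw [scale, aeval_X, tt, mon_inl, map_mul]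
  have h5 : ∀ i, μ (scale K σ (X (Sum.inr i))) =
      μ Polynomial.X * μ (cc K σ (X (Sum.inr i))) := fun i => by
    rw [scale, aeval_X, tt, mon_inr, map_mul]
  have h6 : IsUnit ((μ.comp (scale K σ)) p) := by
    rw [map_mul, AlgHom.comp_apply μ, AlgHom.comp_apply μ, h4, h5, h1 _ hw.1, h1 _ hw.2, mul_one,
      mul_one]
    exact (mul_ne_zero h2 h3).isUnit
  let θ : R →ₐ[K] F := IsLocalization.Away.liftAlgHom p h6
  have h7 : ∀ a, θ (α a) = μ (scale K σ a) := fun a => IsLocalization.Away.lift_eq p h6 a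
  have h8 : θ u = μ (Polynomial.C Polynomial.X) := by rw [hu, h7, h4, h1 _ hw.1, mul_one]
  have h9 : θ v = μ Polynomial.X := by rw [hv, h7, h5, h1 _ hw.2, mul_one]
  have h10 : θ.comp ψ = μ := by
    refine Polynomial.algHom_ext' (Polynomial.algHom_ext' (algHom_ext fun i => ?_) ?_) ?_
    · rcases i with i | i
      · show θ (ψ (cc K σ _)) = μ (cc K σ _)
        rw [← mul_right_inj' h2, ← h4, ← h7, ← h8, ← map_mul]
        simp [ψ, cc_apply]
      · show θ (ψ (cc K σ _)) = μ (cc K σ _)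
        rw [← mul_right_inj' h3, ← h5, ← h7, ← h9, ← map_mul]
        simp [ψ, cc_apply]
    · show θ (ψ (Polynomial.C Polynomial.X)) = μ (Polynomial.C Polynomial.X)
      rw [← h8]
      simp [ψ]
    · show θ (ψ Polynomial.X) = μ Polynomial.X
      rw [← h9]
      simp [ψ]
  exact ⟨kr θ, PrimeSpectrum.ext (Ideal.ext fun b => by rw [← hμ, ← h10]; rfl)⟩

lemma hom_inj {s t : σ} {w z : PrimeSpectrum (SS K σ)} (hw : Ch s t w) (hz : Ch s t z)
    (h : hom w = hom z) : w = z := by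
  obtain ⟨R, _, _, ψ, h1, -, -, h2⟩ := exists_chart (K := K) s t
  obtain ⟨P, hP⟩ := h2 w hw
  obtain ⟨Q, hQ⟩ := h2 z hz
  rw [hom, hom, ← hP, ← hQ] at h
  rw [h1.cm_injective h, hQ] at hP
  exact (ex_inj (ex_inj hP)).symm

variable [Finite σ]

lemma dm_hom {s t : σ} {w : PrimeSpectrum (SS K σ)} (hw : Ch s t w) :
    dm K (hom w) = dm K w + 2 := by
  obtain ⟨R, _, _, ψ, h1, -, -, h2⟩ := exists_chart (K := K) s t
  obtain ⟨P, hP⟩ := h2 w hw
  have h3 : LocSurj ψ := fun r => (h1 r).elim fun a ⟨b, h⟩ => ⟨scale K σ a, scale K σ b, h⟩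
  have h4 := Dim.dm_locSurj h3 P
  rw [hP, dm_ex, dm_ex] at h4
  rw [hom, ← hP]
  exact (Dim.dm_locSurj h1 P).trans h4.symm

lemma dv_hom {s t : σ} {w z : PrimeSpectrum (SS K σ)} (hw : Ch s t w) (hz : Ch s t z)
    {g : SS K σ} {γ : N2} (hg : g.IsWeightedHomogeneous (w2 σ σ) γ) :
    dv K (hom w) g (hom z) = dv K w g z := by
  obtain ⟨R, _, _, ψ, h1, u1, u2, h2⟩ := exists_chart (K := K) s t
  obtain ⟨P, hP⟩ := h2 w hw
  obtain ⟨Q, hQ⟩ := h2 z hz
  have h3 : LocSurj ψ := fun r => (h1 r).elim fun a ⟨b, h⟩ => ⟨scale K σ a, scale K σ b, h⟩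
  have := Res.essFiniteType h1
  have h4 := congrArg (· Q) (Res.res_dv (hD K) (hC K).1 h1 P g)
  have h5 := congrArg (· Q) (Res.res_dv (hD K) (hC K).1 h3 P (cc K σ g))
  simp only [res_apply] at h4 h5
  rw [hP, hQ, cc_apply, dv_ex, dv_ex] at h5
  rw [hom, hom, ← hP, ← hQ, h5]
  refine h4.trans ?_
  have hu : IsUnit (ψ (tt K σ γ)) := by
    rw [tt, mon, map_mul, map_pow, map_pow]
    exact (u1.pow _).mul (u2.pow _)
  rw [AlgHom.comp_apply, scale_hom hg, map_mul, cc_apply]
  by_cases h6 : ψ (Polynomial.C (Polynomial.C g)) ∈ P.asIdeal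
  · rw [dv_of_mem h6, dv_of_mem (Ideal.mul_mem_left _ _ h6)]
  · rw [dv_mul (fun h => P.2.ne_top (Ideal.eq_top_of_isUnit_mem _ h hu)) h6, dv_unit hu, zero_add]

lemma dv_ne {R : Type} [CommRing R] [Algebra K R] [Algebra.EssFiniteType K R]
    {w z : PrimeSpectrum R} {a : R} (h : w ≤ z) (ha : a ∈ z.asIdeal) (ha' : a ∉ w.asIdeal)
    (hd : dm K z + 1 = dm K w) : dv K w a z ≠ 0 := by
  obtain ⟨p, hp, h1⟩ := Ideal.exists_minimalPrimes_le (I := w.asIdeal ⊔ Ideal.span {a})
    (J := z.asIdeal) (sup_le h ((Ideal.span_singleton_le_iff_mem _).2 ha))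
  have h2 := Dim.dm_min (𝕜 := K) w ⟨p, hp.1.1⟩ a ha' hp
  rw [← eq_of_le_of_dm_le (K := K) (p := ⟨p, hp.1.1⟩) h1 (by omega)]
  exact (dv_pos ha' hp).ne'

lemma hom_of_dv {w z : PrimeSpectrum (SS K σ)} (hw : WHomog (w2 σ σ) w.asIdeal) {g : SS K σ}
    {γ : N2} (hg : g.IsWeightedHomogeneous (w2 σ σ) γ) (h : dv K w g z ≠ 0) :
    WHomog (w2 σ σ) z.asIdeal := by
  obtain ⟨h1, h2, h3, h4⟩ := dv_supp h
  have h5 := dm_lt (K := K) (lt_of_le_of_ne (le_hom hw h1.le : w ≤ hom z)
    fun e => h3 (e ▸ (mem_hom_of hg).2 h2))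
  rw [← eq_of_le_of_dm_le (K := K) (hom_le z) (by omega)]
  exact hom_hom z

end Pool.Agent.Lib.MP_557161_ag.DL.Bridge
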