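import Pool.Agent.Lib.MP_557161_ag.DL.CK
import Pool.Agent.Lib.MP_557161_ag.DL.ValC

/-!
Reduction of the vanishing on principal divisors to the field generated by the point.
-/

namespace Pool.Agent.Lib.MP_557161_ag.DL.Bridge

open Function

section Sums

variable {α β : Type}

lemma fs_sub (p : α → Prop) (G : α → ℚ) (H : {a // p a} → ℚ) (h1 : ∀ a (h : p a), G a = H ⟨a, h⟩)
    (h2 : ∀ a, ¬ p a → G a = 0) : ∑ᶠ a, G a = ∑ᶠ a, H a := by
  classical
  rw [show H = fun a => G a.1 from funext fun a => (h1 a.1 a.2).symm,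
    finsum_subtype_eq_finsum_cond]
  refine finsum_congr fun a => ?_
  rw [finsum_eq_if]
  split_ifs with h
  · rfl
  · exact h2 a h

lemma fs_cast (H : α → ℤ) (c : ℚ) : ∑ᶠ a, (H a : ℚ) * c = ((∑ᶠ a, H a : ℤ) : ℚ) * c := by
  rw [← finsum_mul]
  exact congrArg (· * c)
    (AddMonoidHom.map_finsum_of_injective (Int.castAddHom ℚ) Int.cast_injective H).symm

open Classical in
lemma fs_fib (G : α → ℚ) (hG : (support G).Finite) (π : α → β) :
    ∑ᶠ a, G a = ∑ᶠ z, ∑ᶠ a, if π a = z then G a else 0 := by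
  have e : ∀ z, (∑ᶠ a, if π a = z then G a else 0) =
      ∑ a ∈ hG.toFinset, if π a = z then G a else 0 := fun z =>
    finsum_eq_sum_of_support_subset _ fun a ha => by
      rw [Set.Finite.coe_toFinset]
      exact fun h => ha (by simp [h])
  simp only [e]
  rw [finsum_sum_comm, finsum_eq_sum _ hG]
  · refine Finset.sum_congr rfl fun a _ => ?_
    rw [finsum_eq_single _ (π a) fun z hz => if_neg hz.symm, if_pos rfl]
  · exact fun a _ => (Set.finite_singleton (π a)).subset fun z hz => by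
      by_contra h
      exact hz (if_neg fun e => h e.symm)

lemma fs_lin (b : (β →₀ ℚ) →ₗ[ℚ] ℚ) (d : β →₀ ℚ) :
    ∑ᶠ z, d z * b (Finsupp.single z 1) = b d := by
  rw [finsum_eq_sum_of_support_subset (s := d.support) _ fun z hz => by
    simpa using left_ne_zero_of_mul hz]
  conv_rhs => rw [← d.sum_single, Finsupp.sum, map_sum]
  refine Finset.sum_congr rfl fun z _ => ?_
  rw [← smul_eq_mul, ← map_smul, Finsupp.smul_single_one]

end Sums

variable {K : Type} [Field K] {A : Amb K} {j : ℕ} {M₀ M : Fld K}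

lemma exists_coeffs {κ : M₀ →ₐ[K] M} (hκ : Fin' κ) (f : M) : ∃ s : Set M₀, s.Finite ∧
    ∀ O : Pl M, (∀ a ∈ s, κ a ∈ O.O) → f ∈ O.O := by
  obtain ⟨P, hP, h0⟩ := hκ.to_isIntegral f
  refine ⟨P.coeffs, P.coeffs.finite_toSet, fun O h => ?_⟩
  have h1 : P.map κ.toRingHom ∈ Polynomial.lifts (algebraMap O.O M) :=
    (Polynomial.lifts_iff_coeff_lifts _).2 fun n => by
      rw [Polynomial.coeff_map]
      by_cases h2 : P.coeff n = 0
      · rw [h2, map_zero]; exact ⟨0, map_zero _⟩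
      · exact ⟨⟨_, h _ (Polynomial.coeff_mem_coeffs h2)⟩, rfl⟩
  obtain ⟨Q, e, -, hQ⟩ := Polynomial.lifts_and_natDegree_eq_and_monic h1 (hP.map _)
  have h2 : IsIntegral O.O f := ⟨Q, hQ, by
    rw [Polynomial.eval₂_eq_eval_map, e, ← Polynomial.eval₂_eq_eval_map]; exact h0⟩
  obtain ⟨y, rfl⟩ := IsIntegrallyClosed.isIntegral_iff.1 h2
  exact y.2

open Classical in
/-- The term of a place. -/
noncomputable def tm (j : ℕ) (v : ∀ L : Fld K, A.pt L → ℚ) (y : A.pt M) (f : M) (O : Pl M) : ℚ :=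
  if O.IsDiv j then (O.ord f : ℚ) * v O.res (A.red O y) else 0

/-- Vanishing on the divisor of `f`. -/
def RR (j : ℕ) (v : ∀ L : Fld K, A.pt L → ℚ) (y : A.pt M) (f : M) : Prop :=
  (support (tm j v y f)).Finite ∧ ∑ᶠ O, tm j v y f O = 0

variable {v : ∀ L : Fld K, A.pt L → ℚ}

lemma RR.out {y : A.pt M} {f : M} (h : RR j v y f) :
    (support fun O : {O : Pl M // O.IsDiv j} => (O.1.ord f : ℚ) * v O.1.res (A.red O.1 y)).Finite ∧
    ∑ᶠ O : {O : Pl M // O.IsDiv j}, (O.1.ord f : ℚ) * v O.1.res (A.red O.1 y) = 0 :=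
  ⟨(h.1.preimage Subtype.val_injective.injOn).subset fun O hO => by
      rwa [Set.mem_preimage, mem_support, tm, if_pos O.2],
    (fs_sub _ _ _ (fun _ h => if_pos h) fun _ h => if_neg h).symm.trans h.2⟩

variable [Base K]

lemma rr_low (ext : ∀ {L L' : Fld K} (ι : L →ₐ[K] L') (y : A.pt L), Good j L → Good j L' →
      v L' (A.map ι y) = deg ι * v L y)
    (low : ∀ {L L' : Fld K} (ι : L →ₐ[K] L') (y : A.pt L), L.tr < j → v L' (A.map ι y) = 0)
    (κ : M₀ →ₐ[K] M) (y : A.pt M₀) {i : ℕ} (h0 : Good i M₀) (hi : i ≤ j) (hM : Good (j + 1) M)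
    {f : M} (hf : f ≠ 0) : RR j v (A.map κ y) f := by
  have h1 : ∀ O : Pl M, ¬ Pl.Triv κ O → tm j v (A.map κ y) f O = 0 := fun O h => by
    rw [tm, A.red_map (Pl.over_comap κ O), low, mul_zero, ite_self]
    refine Pl.tr_res_lt _ (fun e => h fun x => ?_) (h0.2.trans_le (by exact_mod_cast hi))
    exact (Pl.over_comap κ O x).1 (e ▸ ValuationSubring.mem_top _)
  rcases hi.lt_or_eq with hi | rfl
  · have h2 : ∀ O, tm j v (A.map κ y) f O = 0 := fun O => by
      by_cases h : Pl.Triv κ O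
      · rw [tm, A.red_triv h, low, mul_zero, ite_self]
        exact h0.2.trans_lt (by exact_mod_cast hi)
      · exact h1 O h
    exact ⟨Set.finite_empty.subset fun O h => h (h2 O), finsum_eq_zero_of_forall_eq_zero h2⟩
  obtain ⟨h2, h3⟩ := Pl.degree_zero κ h0 hM hf
  have h4 : ∀ O : Pl M, ¬ (Pl.Triv κ O ∧ O.IsDVR) → tm i v (A.map κ y) f O = 0 := fun O h => by
    by_cases h5 : Pl.Triv κ O
    · exact if_neg fun e => h ⟨h5, e.1⟩
    · exact h1 O h5
  refine ⟨h2.subset fun O h => ?_, ?_⟩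
  · have h5 : Pl.Triv κ O ∧ O.IsDVR := by_contra fun e => h (h4 O e)
    exact ⟨h5.1, h5.2, fun e => h (by rw [tm, e, Int.cast_zero, zero_mul, ite_self])⟩
  · rw [fs_sub _ _ (fun O => ((O.1.ord f * (deg O.2.1.hom : ℤ) : ℤ) : ℚ) * v M₀ y)
      (fun O h => ?_) h4, fs_cast, h3, Int.cast_zero, zero_mul]
    by_cases h5 : O.IsDiv i
    · rw [tm, if_pos h5, A.red_triv h.1, ext _ _ h0 (h5.good hM)]
      push_cast
      ring
    · have h6 : deg h.1.hom = 0 := Nat.eq_zero_of_not_pos fun e =>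
        h5 ⟨h.2, ((deg_pos_iff _).1 e).tr_eq.trans h0.2⟩
      rw [tm, if_neg h5, h6]
      simp

lemma rr_fin (ext : ∀ {L L' : Fld K} (ι : L →ₐ[K] L') (y : A.pt L), Good j L → Good j L' →
      v L' (A.map ι y) = deg ι * v L y)
    (κ : M₀ →ₐ[K] M) (y : A.pt M₀) (h0 : Good (j + 1) M₀) (hM : Good (j + 1) M)
    (H : ∀ g, g ≠ 0 → RR j v y g) {f : M} (hf : f ≠ 0) : RR j v (A.map κ y) f := by
  classical
  have hκ := Good.fin κ hM h0.2
  have h1 : ∀ {O O'}, Pl.Over κ O O' → O'.IsDiv j → O.IsDiv j := fun h h' =>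
    ⟨h.isDVR h'.1 (h.ne_top hκ h'.1.ne_top), (h.fin_res hκ).tr_eq.symm.trans h'.2⟩
  have h2 : ∀ {O O'} (h : Pl.Over κ O O'), O'.IsDiv j → tm j v (A.map κ y) f O' =
      ((O'.ord f * (deg h.resHom : ℤ) : ℤ) : ℚ) * v O.res (A.red O y) := fun h h' => by
    rw [tm, if_pos h', A.red_map h, ext _ _ ((h1 h h').good h0) (h'.good hM)]
    push_cast
    ring
  have h3 : (support (tm j v (A.map κ y) f)).Finite := by
    obtain ⟨s, hs, h4⟩ := exists_coeffs hκ f
    obtain ⟨t, ht, h5⟩ := exists_coeffs hκ f⁻¹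
    refine (((hs.union ht).subset (Set.sdiff_subset (t := {0}))).biUnion
      (t := fun a => ⋃ O ∈ support (tm j v y a), {O' | Pl.Over κ O O'}) fun a ha =>
        (H a ha.2).1.biUnion fun O hO => Pl.finite_over hκ h0
          (by_contra fun e => hO (if_neg e))).subset fun O' hO' => ?_
    have h6 : O'.IsDiv j := by_contra fun e => hO' (if_neg e)
    have h7 := Pl.over_comap κ O'
    rw [mem_support, h2 h7 h6] at hO'
    by_contra h8
    have h9 : ∀ a ∈ s ∪ t, κ a ∈ O'.O := fun a ha => by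
      by_cases ha0 : a = 0
      · rw [ha0, map_zero]; exact zero_mem _
      refine (h7 a).1 ((Pl.ord_nonneg_iff (h1 h7 h6).1).1 (le_of_eq (by_contra fun e => h8 ?_)))
      refine Set.mem_biUnion (x := a) ⟨ha, ha0⟩ (Set.mem_biUnion (x := Pl.comap κ O') ?_ h7)
      rw [mem_support, tm, if_pos (h1 h7 h6)]
      exact mul_ne_zero (Int.cast_ne_zero.2 (Ne.symm e)) (right_ne_zero_of_mul hO')
    rw [Pl.ord_eq_zero_of_mem hf (h4 _ fun a ha => h9 a (Or.inl ha))
      (h5 _ fun a ha => h9 a (Or.inr ha))] at hO'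
    simp at hO'
  refine ⟨h3, ?_⟩
  rw [fs_fib _ h3 (Pl.comap κ)]
  refine (finsum_congr fun O => ?_).trans (H _ (nrm_ne_zero hκ hf)).2
  by_cases h4 : O.IsDiv j
  · rw [fs_sub (Pl.Over κ O)
      (fun O' => if Pl.comap κ O' = O then tm j v (A.map κ y) f O' else 0)
      (fun O' => ((O'.1.ord f * (deg O'.2.resHom : ℤ) : ℤ) : ℚ) * v O.res (A.red O y))
      (fun O' h => by rw [if_pos h.eq_comap.symm, h2 h (h.isDiv hκ h0 h4)])
      (fun O' h => if_neg fun e : Pl.comap κ O' = O => h (e ▸ Pl.over_comap κ O')), fs_cast,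
      Pl.sum_ord_nrm hκ h0 h4 hf, tm, if_pos h4]
  · rw [tm, if_neg h4]
    refine finsum_eq_zero_of_forall_eq_zero fun O' => ?_
    split_ifs with h
    · exact if_neg fun e => h4 (h ▸ h1 (Pl.over_comap κ O') e)
    · rfl

lemma rr_of_gen (ext : ∀ {L L' : Fld K} (ι : L →ₐ[K] L') (y : A.pt L), Good j L → Good j L' →
      v L' (A.map ι y) = deg ι * v L y)
    (low : ∀ {L L' : Fld K} (ι : L →ₐ[K] L') (y : A.pt L), L.tr < j → v L' (A.map ι y) = 0)
    (κ : M₀ →ₐ[K] M) (y : A.pt M₀) {i : ℕ} (h0 : Good i M₀) (hM : Good (j + 1) M)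
    (H : Good (j + 1) M₀ → ∀ g, g ≠ 0 → RR j v y g) {f : M} (hf : f ≠ 0) :
    RR j v (A.map κ y) f := by
  have h1 : i ≤ j + 1 := by
    have := tr_le κ
    rw [h0.2, hM.2] at this
    exact_mod_cast this
  rcases h1.lt_or_eq with h | rfl
  · exact rr_low ext low κ y h0 (Nat.le_of_lt_succ h) hM hf
  · exact rr_fin ext κ y h0 hM (H h0) hf

end Pool.Agent.Lib.MP_557161_ag.DL.Bridge
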