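import Mathlib

/-!
Projective schemes given by a homogeneous ideal `I` of a polynomial ring, their subvarieties,
intersection numbers by the formula of Serre and numerical equivalence; chains of isotropic flags
closed up by Frobenius, in the Pluecker-Segre embedding.
-/

namespace Pool.Agent.Lib.MP_557161_ag.DL

open MvPolynomial Filter Matrix

section Proj

variable {k : Type} [Field k] {σ : Type}

/-- An ideal that contains the homogeneous components of its elements. -/
def Homog (J : Ideal (MvPolynomial σ k)) : Prop :=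
  ∀ f ∈ J, ∀ n, homogeneousComponent n f ∈ J

/-- The closed subvarieties of dimension `i` of `Proj (k[X] / I)`: homogeneous primes `P` that
contain `I`, with `k[X] / P` of Krull dimension `i + 1`. -/
abbrev Var (I : Ideal (MvPolynomial σ k)) (i : ℕ) : Type :=
  {P : Ideal (MvPolynomial σ k) //
    P.IsPrime ∧ Homog P ∧ I ≤ P ∧ ringKrullDim (MvPolynomial σ k ⧸ P) = (i + 1 : ℕ)}

/-- A graded free resolution of `k[X] / P` over `k[X] / I`: the `i`-th module has a finite basis
`β i` with degrees `deg i`, the differentials are given by matrices `D i` read modulo `I`. -/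
structure Res (I P : Ideal (MvPolynomial σ k)) where
  β : ℕ → Type
  [fin : ∀ i, Fintype (β i)]
  [one : Unique (β 0)]
  deg : ∀ i, β i → ℕ
  D : ∀ i, Matrix (β i) (β (i + 1)) (MvPolynomial σ k)
  deg_zero : ∀ b, deg 0 b = 0
  hom : ∀ i b c m, m + deg i b ≠ deg (i + 1) c → homogeneousComponent m (D i b c) = 0
  aug : ∀ f, f ∈ P ↔ ∃ u, ∀ b, f - (D 0 *ᵥ u) b ∈ I
  exact : ∀ i (v : β (i + 1) → MvPolynomial σ k),
    (∀ b, (D i *ᵥ v) b ∈ I) ↔ ∃ u, ∀ c, v c - (D (i + 1) *ᵥ u) c ∈ I

attribute [instance] Res.fin Res.one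

variable {I P : Ideal (MvPolynomial σ k)} (F : Res I P) (Q : Ideal (MvPolynomial σ k))

/-- The degree `n` part of the `i`-th free module. -/
noncomputable def Res.part (i n : ℕ) : Submodule k (F.β i → MvPolynomial σ k) :=
  Submodule.pi Set.univ fun b =>
    if F.deg i b ≤ n then homogeneousSubmodule σ k (n - F.deg i b) else ⊥

/-- The vectors that are cycles modulo `Q`. -/
noncomputable def Res.cycles : ∀ i, Submodule (MvPolynomial σ k) (F.β i → MvPolynomial σ k)
  | 0 => ⊤
  | i + 1 => (Submodule.pi Set.univ fun _ => Q).comap (F.D i).mulVecLin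

/-- The vectors that are boundaries modulo `Q`. -/
noncomputable def Res.bounds (i : ℕ) :
    Submodule (MvPolynomial σ k) (F.β i → MvPolynomial σ k) :=
  (Submodule.pi Set.univ fun _ => Q) ⊔ LinearMap.range (F.D i).mulVecLin

/-- The dimension of the degree `n` part of `Tor_i (k[X] / P, k[X] / Q)` over `k[X] / I`. -/
noncomputable def Res.tor (i n : ℕ) : ℤ :=
  (Module.finrank k ↥(F.part i n ⊓ (F.cycles Q i).restrictScalars k) : ℤ) -
    Module.finrank k ↥(F.part i n ⊓ (F.bounds Q i).restrictScalars k)

/-- For large `n` this is the Euler characteristic of the derived tensor product of the structure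
sheaves of `P` and `Q`, twisted by `O(n)`, on a smooth scheme of dimension at most `d`. -/
noncomputable def Res.chi (d n : ℕ) : ℤ :=
  ∑ i ∈ Finset.range (d + 2), (-1) ^ i * F.tor Q i n

/-- The intersection number of subvarieties of complementary dimension (formula of Serre). -/
noncomputable def Res.inter (d : ℕ) : ℤ :=
  limUnder atTop (F.chi Q d)

/-- Cycles of dimension `i` modulo numerical equivalence, on a smooth scheme of pure dimension
`i + n`. -/
abbrev Num (I : Ideal (MvPolynomial σ k)) (i n : ℕ) (F : ∀ P : Var I i, Res I P.1) : Type :=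
  (Var I i →₀ ℤ) ⧸ LinearMap.ker
    (Finsupp.linearCombination ℤ fun (P : Var I i) (Q : Var I n) => (F P).inter Q.1 (i + n))

/-- The affine chart `X s = 1` of `Proj (k[X] / I)`. -/
abbrev Chart (I : Ideal (MvPolynomial σ k)) (s : σ) : Type :=
  MvPolynomial σ k ⧸ (I ⊔ Ideal.span {X s - 1})

/-- The number of `L`-points of `Proj (k[X] / I)`. -/
noncomputable def points (I : Ideal (MvPolynomial σ k)) (L : Type) [Field L] [Algebra k L] : ℕ :=
  Nat.card {x : Projectivization L (σ → L) // x.rep ∈ zeroLocus L I}

end Proj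

section Flags

variable {L : Type} [Field L] {ι : Type} [Fintype ι]

/-- The span of the vectors obtained by raising the coordinates to the power `q`. -/
def frob (q : ℕ) (E : Submodule L (ι → L)) : Submodule L (ι → L) :=
  Submodule.span L ((fun v i => v i ^ q) '' (E : Set (ι → L)))

/-- A flag `D 0 ≤ D 1 ≤ ... ≤ D n` of subspaces, `D i` of dimension `i` and isotropic for the
bilinear form with matrix `G`. -/
def IsFlag (G : Matrix ι ι L) {n : ℕ} (D : Fin (n + 1) → Submodule L (ι → L)) : Prop :=
  Monotone D ∧ (∀ i, Module.finrank L (D i) = i) ∧ ∀ i, ∀ x ∈ D i, ∀ y ∈ D i, x ⬝ᵥ G *ᵥ y = 0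

/-- A chain of flags `E 0, ..., E l`: the flags `E j` and `E (j + 1)` agree except possibly in
dimension `w j + 1`, and `E l` is the Frobenius image of `E 0`. -/
def IsChain (G : Matrix ι ι L) (q : ℕ) {n l : ℕ} (w : Fin l → Fin n)
    (E : Fin (l + 1) → Fin (n + 1) → Submodule L (ι → L)) : Prop :=
  (∀ j, IsFlag G (E j)) ∧ (∀ (j : Fin l) i, i ≠ (w j).succ → E j.castSucc i = E j.succ i) ∧
    ∀ i, E (Fin.last l) i = frob q (E 0 i)

/-- The index set of the Pluecker-Segre coordinates: a choice of `i` columns for every member of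
dimension `i` of the chain. -/
abbrev Idx (ι : Type) (n l : ℕ) : Type := Fin (l + 1) → ∀ i : Fin (n + 1), Fin i → ι

/-- The Pluecker-Segre coordinates: products of maximal minors of basis matrices. -/
def plk {n l : ℕ} (b : Fin (l + 1) → ∀ i : Fin (n + 1), Fin i → ι → L) (s : Idx ι n l) : L :=
  ∏ j, ∏ i, Matrix.det (Matrix.of fun a c => b j i a (s j i c))

/-- The affine cone over the set of chains, in the Pluecker-Segre embedding. -/
def cone (G : Matrix ι ι L) (q : ℕ) {n l : ℕ} (w : Fin l → Fin n) : Set (Idx ι n l → L) :=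
  {x | ∃ (c : L) (b : Fin (l + 1) → ∀ i : Fin (n + 1), Fin i → ι → L),
    IsChain G q w (fun j i => Submodule.span L (Set.range (b j i))) ∧ x = c • plk b}

/-- The homogeneous ideal over `k` of the Deligne-Lusztig variety. -/
noncomputable def ideal (k : Type) [Field k] (G : Matrix ι ι k) (q : ℕ) {n l : ℕ}
    (w : Fin l → Fin n) : Ideal (MvPolynomial (Idx ι n l) k) :=
  vanishingIdeal k (cone (G.map (algebraMap k (AlgebraicClosure k))) q w)

end Flags

end Pool.Agent.Lib.MP_557161_ag.DL
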