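import Pool.Agent.Lib.MP_557161_ag.DL.CK
import Pool.Agent.Lib.MP_557161_ag.DL.Defs

/-!
Subspaces of a coordinate space as a functor of points.
-/

namespace Pool.Agent.Lib.MP_557161_ag.DL

open Module Submodule

section NB

variable {L L' L'' : Type} [Field L] [Field L'] [Field L''] {ι : Type}

/-- A basis in reduced echelon form with respect to the columns `s`. -/
structure NB (E : Submodule L (ι → L)) {r : ℕ} (b : Fin r → ι → L) (s : Fin r → ι) : Prop where
  delta : ∀ a c, b a (s c) = if a = c then 1 else 0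
  span : span L (Set.range b) = E

variable {E E' : Submodule L (ι → L)} {r : ℕ} {b : Fin r → ι → L} {s : Fin r → ι}

lemma NB.mem (h : NB E b s) (a : Fin r) : b a ∈ E := h.span ▸ subset_span ⟨a, rfl⟩

lemma NB.sum_apply (h : NB E b s) (c : Fin r → L) (a : Fin r) : (∑ i, c i • b i) (s a) = c a := by
  simp [Finset.sum_apply, h.delta]

lemma NB.eq_sum (h : NB E b s) {x : ι → L} (hx : x ∈ E) : x = ∑ a, x (s a) • b a := by
  rw [← h.span, mem_span_range_iff_exists_fun] at hx
  obtain ⟨c, rfl⟩ := hx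
  simp only [h.sum_apply]

lemma NB.indep (h : NB E b s) : LinearIndependent L b := by
  rw [Fintype.linearIndependent_iff]
  intro c hc a
  rw [← h.sum_apply c a, hc]; rfl

lemma NB.finrank (h : NB E b s) : finrank L E = r := by
  rw [← h.span, finrank_span_eq_card h.indep, Fintype.card_fin]

lemma mapV_add (κ : L →+* L') (x y : ι → L) : mapV κ (x + y) = mapV κ x + mapV κ y :=
  funext fun _ => map_add κ _ _

lemma mapV_sub (κ : L →+* L') (x y : ι → L) : mapV κ (x - y) = mapV κ x - mapV κ y :=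
  funext fun _ => map_sub κ _ _

lemma mapV_smul (κ : L →+* L') (c : L) (x : ι → L) : mapV κ (c • x) = κ c • mapV κ x :=
  funext fun _ => map_mul κ _ _

@[simp] lemma mapV_zero (κ : L →+* L') : mapV κ (0 : ι → L) = 0 := funext fun _ => map_zero κ

lemma mapV_sum (κ : L →+* L') {α : Type*} (t : Finset α) (x : α → ι → L) :
    mapV κ (∑ a ∈ t, x a) = ∑ a ∈ t, mapV κ (x a) := by
  ext i; simp [mapV, Finset.sum_apply]

lemma mapV_inj (κ : L →+* L') : Function.Injective (mapV κ : (ι → L) → ι → L') :=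
  fun _ _ h => funext fun i => κ.injective (congrFun h i)

lemma mapV_eq_zero (κ : L →+* L') {x : ι → L} : mapV κ x = 0 ↔ x = 0 := by
  rw [← mapV_zero κ, (mapV_inj κ).eq_iff]

lemma mapV_mem (κ : L →+* L') {x : ι → L} (h : x ∈ E) : mapV κ x ∈ smap κ E :=
  subset_span ⟨x, h, rfl⟩

lemma smap_le {κ : L →+* L'} {F : Submodule L' (ι → L')} :
    smap κ E ≤ F ↔ ∀ x ∈ E, mapV κ x ∈ F := by
  rw [smap, span_le]
  exact ⟨fun h x hx => h ⟨x, hx, rfl⟩, fun h _ ⟨x, hx, e⟩ => e ▸ h x hx⟩

lemma smap_mono (κ : L →+* L') (h : E ≤ E') : smap κ E ≤ smap κ E' :=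
  smap_le.2 fun _ hx => mapV_mem κ (h hx)

lemma smap_span (κ : L →+* L') (t : Set (ι → L)) :
    smap κ (span L t) = span L' (mapV κ '' t) := by
  refine le_antisymm (smap_le.2 fun x hx => ?_) (span_mono (Set.image_mono subset_span))
  induction hx using span_induction with
  | mem x hx => exact subset_span ⟨x, hx, rfl⟩
  | zero => simp
  | add x y _ _ hx hy => rw [mapV_add]; exact add_mem hx hy
  | smul c x _ hx => rw [mapV_smul]; exact smul_mem _ _ hx

lemma smap_single (κ : L →+* L') (x : ι → L) : smap κ (span L {x}) = span L' {mapV κ x} := by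
  rw [smap_span, Set.image_singleton]

@[simp] lemma smap_bot (κ : L →+* L') : smap κ (⊥ : Submodule L (ι → L)) = ⊥ := by
  rw [← span_empty, smap_span]; simp

lemma smap_sup (κ : L →+* L') (E E' : Submodule L (ι → L)) :
    smap κ (E ⊔ E') = smap κ E ⊔ smap κ E' := by
  conv_lhs => rw [← span_eq E, ← span_eq E', ← span_union, smap_span, Set.image_union, span_union]
  rfl

lemma smap_id (E : Submodule L (ι → L)) : smap (RingHom.id L) E = E := by
  have : mapV (RingHom.id L) = (id : (ι → L) → ι → L) := rfl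
  rw [smap, this, Set.image_id, span_eq]

lemma smap_comp (κ : L →+* L') (κ' : L' →+* L'') (E : Submodule L (ι → L)) :
    smap (κ'.comp κ) E = smap κ' (smap κ E) := by
  show _ = smap κ' (span L' _)
  rw [smap_span, ← Set.image_comp]; rfl

lemma NB.smap (h : NB E b s) (κ : L →+* L') : NB (smap κ E) (fun a => mapV κ (b a)) s := by
  refine ⟨fun a c => ?_, ?_⟩
  · simp only [mapV, h.delta]; split_ifs <;> simp
  · rw [← h.span, smap_span, ← Set.range_comp]; rfl

end NB

section Norm

variable {K : Type} [Field K] {M : Fld K} {ι : Type}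

lemma exists_scale (O : Pl M) [Finite ι] {x : ι → M} (hx : x ≠ 0) :
    ∃ s, x s ≠ 0 ∧ IntV O ((x s)⁻¹ • x) := by
  obtain ⟨i, hi⟩ := Function.ne_iff.1 hx
  have : Nonempty ι := ⟨i⟩
  obtain ⟨s, hs⟩ := Finite.exists_max fun i => O.O.valuation (x i)
  have h0 : x s ≠ 0 := fun e => hi (by
    have := hs i
    rw [e, map_zero, le_zero_iff, map_eq_zero] at this
    exact this)
  refine ⟨s, h0, fun j => ?_⟩
  rw [← O.O.valuation_le_one_iff, Pi.smul_apply, smul_eq_mul, map_mul, map_inv₀,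
    inv_mul_le_iff₀ (by simpa [pos_iff_ne_zero] using h0), mul_one]
  exact hs j

lemma IntV.add {O : Pl M} {x y : ι → M} (hx : IntV O x) (hy : IntV O y) : IntV O (x + y) :=
  fun i => add_mem (hx i) (hy i)

lemma IntV.sub {O : Pl M} {x y : ι → M} (hx : IntV O x) (hy : IntV O y) : IntV O (x - y) :=
  fun i => sub_mem (hx i) (hy i)

lemma IntV.smul {O : Pl M} {c : M} {x : ι → M} (hc : c ∈ O.O) (hx : IntV O x) : IntV O (c • x) :=
  fun i => mul_mem hc (hx i)

lemma IntV.sum {O : Pl M} {α : Type*} (t : Finset α) {x : α → ι → M} (h : ∀ a ∈ t, IntV O (x a)) :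
    IntV O (∑ a ∈ t, x a) := fun i => by
  rw [Finset.sum_apply]; exact sum_mem fun a ha => h a ha i

lemma rdV_add {O : Pl M} {x y : ι → M} (hx : IntV O x) (hy : IntV O y) :
    rdV O (x + y) = rdV O x + rdV O y := funext fun i => O.rd_add (hx i) (hy i)

lemma rdV_sub {O : Pl M} {x y : ι → M} (hx : IntV O x) (hy : IntV O y) :
    rdV O (x - y) = rdV O x - rdV O y := funext fun i => O.rd_sub (hx i) (hy i)

lemma rdV_smul {O : Pl M} {c : M} {x : ι → M} (hc : c ∈ O.O) (hx : IntV O x) :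
    rdV O (c • x) = O.rd c • rdV O x := funext fun i => O.rd_mul hc (hx i)

lemma rdV_sum {O : Pl M} {α : Type*} (t : Finset α) {x : α → ι → M} (h : ∀ a ∈ t, IntV O (x a)) :
    rdV O (∑ a ∈ t, x a) = ∑ a ∈ t, rdV O (x a) := funext fun i => by
  simp only [rdV, Finset.sum_apply]; exact O.rd_sum t _ fun a ha => h a ha i

@[simp] lemma rdV_zero (O : Pl M) : rdV O (0 : ι → M) = 0 := funext fun _ => O.rd_zero

lemma rdV_mem {O : Pl M} {E : Submodule M (ι → M)} {x : ι → M} (h : x ∈ E) (hx : IntV O x) :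
    rdV O x ∈ sred O E := ⟨x, h, hx, rfl⟩

variable [Finite ι]

lemma exists_nb (O : Pl M) (E : Submodule M (ι → M)) :
    ∃ (r : ℕ) (b : Fin r → ι → M) (s : Fin r → ι), NB E b s ∧ ∀ a, IntV O (b a) := by
  induction hn : finrank M E using Nat.strong_induction_on generalizing E with
  | _ n ih =>
  by_cases h0 : E = ⊥
  · exact ⟨0, Fin.elim0, Fin.elim0, ⟨fun a => a.elim0, by simp [h0]⟩, fun a => a.elim0⟩
  obtain ⟨x, hx, hx0⟩ := E.ne_bot_iff.1 h0
  obtain ⟨t, ht, hi⟩ := exists_scale O hx0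
  set v := (x t)⁻¹ • x with hv
  have hvE : v ∈ E := E.smul_mem _ hx
  have hvt : v t = 1 := by simp [hv, ht]
  have hlt : E ⊓ LinearMap.ker (LinearMap.proj (R := M) (φ := fun _ : ι => M.L) t) < E :=
    lt_of_le_of_ne inf_le_left fun e => by
      have := (e.ge hvE).2
      simp [hvt] at this
  obtain ⟨r, b, s, hb, ib⟩ := ih _ (hn ▸ Submodule.finrank_lt_finrank_of_lt hlt) _ rfl
  have hbt : ∀ a, b a t = 0 := fun a => (hb.mem a).2
  refine ⟨r + 1, Fin.cons (v - ∑ a, v (s a) • b a) b, Fin.cons t s, ⟨fun a c => ?_, ?_⟩, fun a => ?_⟩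
  · refine Fin.cases ?_ (fun a => ?_) a <;> refine Fin.cases ?_ (fun c => ?_) c
    · simp [Finset.sum_apply, hbt, hvt]
    · simp only [Fin.cons_zero, Fin.cons_succ, Pi.sub_apply, hb.sum_apply, sub_self]
      rw [if_neg (Fin.succ_ne_zero c).symm]
    · simp [hbt]
    · simp [hb.delta]
  · refine le_antisymm (span_le.2 ?_) fun y hy => ?_
    · rintro _ ⟨a, rfl⟩
      refine Fin.cases ?_ (fun a => (hb.mem a).1) a
      exact sub_mem hvE (sum_mem fun a _ => smul_mem _ _ (hb.mem a).1)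
    · have h1 : y - y t • v ∈ span M (Set.range b) := by
        rw [hb.span]
        exact ⟨sub_mem hy (smul_mem _ _ hvE), by simp [hvt]⟩
      have h2 : span M (Set.range b) ≤ span M (Set.range
          (Fin.cons (v - ∑ a, v (s a) • b a) b : Fin (r + 1) → ι → M)) :=
        span_mono (by rintro _ ⟨a, rfl⟩; exact ⟨a.succ, rfl⟩)
      have h3 : v ∈ span M (Set.range
          (Fin.cons (v - ∑ a, v (s a) • b a) b : Fin (r + 1) → ι → M)) := by
        have := add_mem (subset_span (R := M) (s := Set.range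
          (Fin.cons (v - ∑ a, v (s a) • b a) b : Fin (r + 1) → ι → M)) ⟨0, rfl⟩)
          (h2 (sum_mem fun a _ => smul_mem _ (v (s a)) (subset_span (Set.mem_range_self a)) :
            ∑ a, v (s a) • b a ∈ _))
        simpa using this
      simpa using add_mem (h2 h1) (smul_mem _ (y t) h3)
  · refine Fin.cases ?_ ib a
    exact hi.sub (IntV.sum _ fun a _ => IntV.smul (hi _) (ib a))

omit [Finite ι] in
lemma NB.sred {O : Pl M} {E : Submodule M (ι → M)} {r : ℕ} {b : Fin r → ι → M} {s : Fin r → ι}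
    (h : NB E b s) (hb : ∀ a, IntV O (b a)) : NB (sred O E) (fun a => rdV O (b a)) s := by
  refine ⟨fun a c => ?_, le_antisymm (span_le.2 ?_) ?_⟩
  · simp only [rdV, h.delta]; split_ifs <;> simp
  · rintro _ ⟨a, rfl⟩; exact rdV_mem (h.mem a) (hb a)
  · rintro _ ⟨x, hx, ix, rfl⟩
    rw [h.eq_sum hx, rdV_sum _ fun a _ => IntV.smul (ix _) (hb a)]
    refine sum_mem fun a _ => ?_
    rw [rdV_smul (ix _) (hb a)]
    exact smul_mem _ _ (subset_span ⟨a, rfl⟩)

/-- The trivial place. -/
def Pl.top (M : Fld K) : Pl M := ⟨⊤, fun _ => trivial⟩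

end Norm

lemma exists_nb' {L : Type} [Field L] {ι : Type} [Finite ι] (E : Submodule L (ι → L)) :
    ∃ (r : ℕ) (b : Fin r → ι → L) (s : Fin r → ι), NB E b s := by
  obtain ⟨r, b, s, h, -⟩ := exists_nb (Pl.top (Fld.base L)) E
  exact ⟨r, b, s, h⟩

section Fin

variable {L L' : Type} [Field L] [Field L'] {ι : Type} [Finite ι] {E E' : Submodule L (ι → L)}

@[simp] lemma finrank_smap (κ : L →+* L') (E : Submodule L (ι → L)) :
    finrank L' (smap κ E) = finrank L E := by
  obtain ⟨r, b, s, h⟩ := exists_nb' E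
  rw [h.finrank, (h.smap κ).finrank]

lemma mapV_mem_iff (κ : L →+* L') {x : ι → L} : mapV κ x ∈ smap κ E ↔ x ∈ E := by
  refine ⟨fun hx => ?_, mapV_mem κ⟩
  obtain ⟨r, b, s, h⟩ := exists_nb' E
  have := (h.smap κ).eq_sum hx
  have e : x = ∑ a, x (s a) • b a := mapV_inj κ (by
    rw [this, mapV_sum]; simp only [mapV_smul]; rfl)
  rw [e]
  exact sum_mem fun a _ => smul_mem _ _ (h.mem a)

lemma smap_le_iff (κ : L →+* L') : smap κ E ≤ smap κ E' ↔ E ≤ E' :=
  ⟨fun h _ hx => (mapV_mem_iff κ).1 (h (mapV_mem κ hx)), smap_mono κ⟩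

lemma smap_inj (κ : L →+* L') : Function.Injective (smap κ : Submodule L (ι → L) → _) :=
  fun _ _ h => le_antisymm ((smap_le_iff κ).1 h.le) ((smap_le_iff κ).1 h.ge)

lemma smap_eq_bot (κ : L →+* L') : smap κ E = ⊥ ↔ E = ⊥ := by
  rw [← smap_bot κ, (smap_inj κ).eq_iff]

lemma smap_inf (κ : L →+* L') (E E' : Submodule L (ι → L)) :
    smap κ (E ⊓ E') = smap κ E ⊓ smap κ E' := by
  refine eq_of_le_of_finrank_le (le_inf (smap_mono κ inf_le_left) (smap_mono κ inf_le_right)) ?_
  have h1 := finrank_sup_add_finrank_inf_eq E E'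
  have h2 := finrank_sup_add_finrank_inf_eq (smap κ E) (smap κ E')
  rw [← smap_sup] at h2
  simp only [finrank_smap] at h2 ⊢
  omega

@[simp] lemma smap_top (κ : L →+* L') : smap κ (⊤ : Submodule L (ι → L)) = ⊤ := by
  have := Fintype.ofFinite ι
  apply eq_top_of_finrank_eq
  simp

lemma smap_surj {κ : L →+* L'} (h : Function.Surjective κ) (F : Submodule L' (ι → L')) :
    ∃ E, smap κ E = F := by
  refine ⟨span L (mapV κ ⁻¹' F), ?_⟩
  rw [smap_span, Set.image_preimage_eq _ fun y => ?_, span_eq]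
  choose x hx using fun i => h (y i)
  exact ⟨x, funext hx⟩

variable {K : Type} [Field K] {M M' : Fld K} {O : Pl M} {P P' : Submodule M (ι → M)}

@[simp] lemma finrank_sred (O : Pl M) (P : Submodule M (ι → M)) :
    finrank O.res (sred O P) = finrank M P := by
  obtain ⟨r, b, s, h, hb⟩ := exists_nb O P
  rw [h.finrank, (h.sred hb).finrank]

omit [Finite ι] in
lemma sred_mono (O : Pl M) (h : P ≤ P') : sred O P ≤ sred O P' :=
  fun _ ⟨x, hx, ix, e⟩ => ⟨x, h hx, ix, e⟩

@[simp] lemma sred_bot (O : Pl M) : sred O (⊥ : Submodule M (ι → M)) = ⊥ := by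
  rw [← finrank_eq_zero]; simp

@[simp] lemma sred_top (O : Pl M) : sred O (⊤ : Submodule M (ι → M)) = ⊤ := by
  have := Fintype.ofFinite ι
  apply eq_top_of_finrank_eq
  simp

lemma sred_eq_bot : sred O P = ⊥ ↔ P = ⊥ := by
  rw [← finrank_eq_zero, finrank_sred, finrank_eq_zero]

omit [Finite ι] in
lemma sred_inf_le (O : Pl M) (P P' : Submodule M (ι → M)) :
    sred O (P ⊓ P') ≤ sred O P ⊓ sred O P' :=
  le_inf (sred_mono O inf_le_left) (sred_mono O inf_le_right)

omit [Finite ι] in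
lemma le_sred_sup (O : Pl M) (P P' : Submodule M (ι → M)) :
    sred O P ⊔ sred O P' ≤ sred O (P ⊔ P') :=
  sup_le (sred_mono O le_sup_left) (sred_mono O le_sup_right)

lemma sred_inf (h : finrank O.res ↥(sred O P ⊓ sred O P') ≤ finrank M ↥(P ⊓ P')) :
    sred O (P ⊓ P') = sred O P ⊓ sred O P' :=
  eq_of_le_of_finrank_le (sred_inf_le O P P') (by simpa using h)

lemma sred_sup (h : finrank M ↥(P ⊔ P') ≤ finrank O.res ↥(sred O P ⊔ sred O P')) :
    sred O (P ⊔ P') = sred O P ⊔ sred O P' :=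
  (eq_of_le_of_finrank_le (le_sred_sup O P P') (by simpa using h)).symm

lemma finrank_inf_le_sred (O : Pl M) (P P' : Submodule M (ι → M)) :
    finrank M ↥(P ⊓ P') ≤ finrank O.res ↥(sred O P ⊓ sred O P') := by
  rw [← finrank_sred O]; exact finrank_mono (sred_inf_le O P P')

lemma finrank_sred_sup_le (O : Pl M) (P P' : Submodule M (ι → M)) :
    finrank O.res ↥(sred O P ⊔ sred O P') ≤ finrank M ↥(P ⊔ P') := by
  rw [← finrank_sred O]; exact finrank_mono (le_sred_sup O P P')

lemma sred_single {x : ι → M} (hx : IntV O x) (h : rdV O x ≠ 0) :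
    sred O (span M {x}) = span O.res {rdV O x} := by
  have h0 : x ≠ 0 := fun e => h (by simp [e])
  refine (eq_of_le_of_finrank_le ?_ ?_).symm
  · rw [span_singleton_le_iff_mem]; exact rdV_mem (mem_span_singleton_self x) hx
  · rw [finrank_sred, finrank_span_singleton h, finrank_span_singleton h0]

/-- Reduction commutes with compatible ring homomorphisms. -/
lemma sred_smap {O' : Pl M'} (κ : M →+* M') (κ' : O.res →+* O'.res)
    (h : ∀ x ∈ O.O, κ x ∈ O'.O ∧ O'.rd (κ x) = κ' (O.rd x)) (P : Submodule M (ι → M)) :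
    sred O' (smap κ P) = smap κ' (sred O P) := by
  refine (eq_of_le_of_finrank_le (smap_le.2 ?_) (by simp)).symm
  rintro _ ⟨x, hx, ix, rfl⟩
  exact ⟨mapV κ x, mapV_mem κ hx, fun i => (h _ (ix i)).1, funext fun i => (h _ (ix i)).2⟩

lemma sred_smap_triv (κ : L →+* M) (κ' : L →+* O.res) (h : ∀ x, κ x ∈ O.O ∧ O.rd (κ x) = κ' x)
    (E : Submodule L (ι → L)) : sred O (smap κ E) = smap κ' E := by
  refine (eq_of_le_of_finrank_le (smap_le.2 fun x hx => ?_) (by simp)).symm
  exact ⟨mapV κ x, mapV_mem κ hx, fun i => (h _).1, funext fun i => (h _).2⟩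

end Fin

/-- Subspaces of the coordinate space. -/
noncomputable def Sub (K : Type) [Field K] (ι : Type) [Finite ι] : Amb K where
  pt L := Submodule L (ι → L)
  map κ E := smap κ.toRingHom E
  map_id := smap_id
  map_comp κ κ' := smap_comp κ.toRingHom κ'.toRingHom
  inj κ := smap_inj _
  red O E := sred O E
  red_map h := sred_smap _ _ fun x hx => ⟨(h x).1 hx, (h.resHom_rd x).symm⟩
  red_triv h := sred_smap_triv _ _ fun x => ⟨h x, (h.hom_apply x).symm⟩
  fg E := by
    classical
    obtain ⟨r, b, s, h⟩ := exists_nb' E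
    refine ⟨(Set.finite_range fun x : Fin r × ι => b x.1 x.2).toFinset, fun L₀ κ hκ => ?_⟩
    choose z hz using fun a i => hκ (b a i) (by simp only [Set.Finite.mem_toFinset]; exact ⟨(a, i), rfl⟩)
    refine ⟨span L₀ (Set.range z), ?_⟩
    show smap κ.toRingHom _ = E
    rw [smap_span, ← Set.range_comp, ← h.span]
    congr 2
    exact funext fun a => funext (hz a)

open MvPolynomial in
lemma aeval_smul_of_isHomogeneous {k L σ : Type} [Field k] [Field L] [Algebra k L]
    {f : MvPolynomial σ k} {n : ℕ} (hf : f.IsHomogeneous n) (c : L) (x : σ → L) :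
    aeval (c • x) f = c ^ n * aeval x f := by
  rw [f.as_sum, map_sum, map_sum, Finset.mul_sum]
  refine Finset.sum_congr rfl fun m hm => ?_
  have := hf (mem_support_iff.1 hm)
  rw [aeval_monomial, aeval_monomial, ← this, Finsupp.weight_apply, Finsupp.prod, Finsupp.prod,
    Finsupp.sum, ← Finset.prod_pow_eq_pow_sum, mul_left_comm, ← Finset.prod_mul_distrib]
  simp [mul_pow]

open MvPolynomial in
lemma Homog.smul_mem {k L σ : Type} [Field k] [Field L] [Algebra k L] {I : Ideal (MvPolynomial σ k)}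
    (hI : Homog I) {x : σ → L} (hx : x ∈ zeroLocus L I) (c : L) : c • x ∈ zeroLocus L I := by
  intro f hf
  rw [← sum_homogeneousComponent f, map_sum]
  refine Finset.sum_eq_zero fun n _ => ?_
  rw [aeval_smul_of_isHomogeneous (homogeneousComponent_isHomogeneous n f), hx _ (hI f hf n),
    mul_zero]

open MvPolynomial in
lemma aeval_mapV {K σ : Type} [Field K] {L L' : Fld K} (κ : L →ₐ[K] L') (x : σ → L)
    (f : MvPolynomial σ K) : aeval (mapV κ.toRingHom x) f = κ (aeval x f) := by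
  rw [← AlgHom.comp_apply, comp_aeval]; rfl

lemma exists_gen_line {L ι : Type} [Field L] [Finite ι] {E : Submodule L (ι → L)}
    (h1 : finrank L E = 1) : ∃ y : ι → L, y ≠ 0 ∧ E = span L {y} := by
  obtain ⟨y, hy, y0⟩ := (Submodule.ne_bot_iff _).1 (show E ≠ ⊥ from fun e' => by
    rw [e', finrank_bot] at h1; exact zero_ne_one h1)
  refine ⟨y, y0, (eq_of_le_of_finrank_le ((span_singleton_le_iff_mem _ _).2 hy) ?_).symm⟩
  rw [h1, finrank_span_singleton y0]

open MvPolynomial in
lemma xs_map_iff {K : Type} [Field K] {σ : Type} [Finite σ] {I : Ideal (MvPolynomial σ K)}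
    (hI : Homog I) {L L' : Fld K} (κ : L →ₐ[K] L') (E : Submodule L (σ → L)) :
    (∃ x : σ → L', x ≠ 0 ∧ x ∈ zeroLocus L' I ∧ smap κ.toRingHom E = span L' {x}) ↔
      ∃ x : σ → L, x ≠ 0 ∧ x ∈ zeroLocus L I ∧ E = span L {x} := by
  constructor
  · rintro ⟨x, h0, hx, e⟩
    obtain ⟨y, y0, hy⟩ := exists_gen_line (E := E) (by
      rw [← finrank_smap κ.toRingHom, e, finrank_span_singleton h0])
    refine ⟨y, y0, fun f hf => κ.injective ?_, hy⟩
    have := mapV_mem κ.toRingHom (hy.ge (mem_span_singleton_self y))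
    rw [e, mem_span_singleton] at this
    obtain ⟨c, hc⟩ := this
    have h2 := hI.smul_mem hx c f hf
    rw [hc, aeval_mapV] at h2
    exact h2.trans (map_zero _).symm
  · rintro ⟨x, h0, hx, rfl⟩
    exact ⟨mapV κ.toRingHom x, mt (mapV_eq_zero _).1 h0,
      fun f hf => by rw [aeval_mapV, hx f hf, map_zero], smap_single _ x⟩

open MvPolynomial in
/-- The projective scheme of a homogeneous ideal, as a set of lines. -/
def XS {K : Type} [Field K] {σ : Type} [Finite σ] (I : Ideal (MvPolynomial σ K)) (hI : Homog I) :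
    Sp (Sub K σ) where
  mem {L} E := ∃ x : σ → L, x ≠ 0 ∧ x ∈ zeroLocus L I ∧ E = span L {x}
  map_iff κ E := xs_map_iff hI κ E

end Pool.Agent.Lib.MP_557161_ag.DL
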