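import Pool.Agent.Lib.MP_557161_ag.DL.Bridge1
import Pool.Agent.Lib.MP_557161_ag.DL.Bridge2
import Pool.Agent.Lib.MP_557161_ag.DL.Sub

/-!
The bihomogeneous prime and the field of definition of a pair of lines.
-/

namespace Pool.Agent.Lib.MP_557161_ag.DL.Bridge

open MvPolynomial Function
open Pool.Agent.Lib.MP_60ec62_ag.DL

variable {K : Type} [Field K] {σ : Type} {L L' M : Fld K}

/-- Evaluation at a pair of vectors. -/
noncomputable def ev (x y : σ → L) : SS K σ →ₐ[K] L := aeval (Sum.elim x y)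

lemma ev_inl (x y : σ → L) (i : σ) : ev x y (X (Sum.inl i)) = x i := aeval_X _ _

lemma ev_inr (x y : σ → L) (i : σ) : ev x y (X (Sum.inr i)) = y i := aeval_X _ _

lemma ev_smul (a b : L) (x y : σ → L) {f : SS K σ} {γ : N2}
    (hf : f.IsWeightedHomogeneous (w2 σ σ) γ) :
    ev (a • x) (b • y) f = mon a b γ * ev x y f := by
  rw [ev, ev, ← aeval_hom (mon a b) (mon_zero _ _) (mon_add _ _) _ hf]
  congr 2
  funext i
  rcases i with i | i
  · rw [mon_inl]; rfl
  · rw [mon_inr]; rfl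

lemma mon_ne {a b : L} (ha : a ≠ 0) (hb : b ≠ 0) (γ : N2) : mon a b γ ≠ 0 :=
  mul_ne_zero (pow_ne_zero _ ha) (pow_ne_zero _ hb)

lemma ev_map (κ : L →ₐ[K] L') (x y : σ → L) (f : SS K σ) :
    ev (mapV κ.toRingHom x) (mapV κ.toRingHom y) f = κ (ev x y f) := by
  rw [ev, ev, ← aeval_mapV]
  congr 2
  funext i
  rcases i with i | i <;> rfl

lemma ev_rd {O : Pl M} {x y : σ → M} (hx : IntV O x) (hy : IntV O y) (f : SS K σ) :
    ev x y f ∈ O.O ∧ O.rd (ev x y f) = ev (rdV O x) (rdV O y) f := by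
  induction f using MvPolynomial.induction_on with
  | C c =>
    rw [← algebraMap_eq, AlgHom.commutes, AlgHom.commutes]
    exact ⟨O.const c, O.rd_const c⟩
  | add f g hf hg =>
    rw [map_add, map_add, O.rd_add hf.1 hg.1, hf.2, hg.2]
    exact ⟨add_mem hf.1 hg.1, rfl⟩
  | mul_X f i hf =>
    have h : ev x y (X i) ∈ O.O ∧ O.rd (ev x y (X i)) = ev (rdV O x) (rdV O y) (X i) := by
      rcases i with i | i
      · rw [ev_inl, ev_inl]; exact ⟨hx i, rfl⟩
      · rw [ev_inr, ev_inr]; exact ⟨hy i, rfl⟩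
    rw [map_mul, map_mul, O.rd_mul hf.1 h.1, hf.2, h.2]
    exact ⟨mul_mem hf.1 h.1, rfl⟩

lemma ch_ev {x y : σ → L} {s t : σ} (hs : x s = 1) (ht : y t = 1) : Ch s t (kr (ev x y)) :=
  ⟨mem_kr.2 (by rw [map_sub, ev_inl, hs, map_one, sub_self]),
    mem_kr.2 (by rw [map_sub, ev_inr, ht, map_one, sub_self])⟩

/-- The bihomogeneous prime of a pair of vectors. -/
noncomputable def PP (x y : σ → L) : PrimeSpectrum (SS K σ) := hom (kr (ev x y))

lemma mem_PP {x y : σ → L} {f : SS K σ} {γ : N2} (hf : f.IsWeightedHomogeneous (w2 σ σ) γ) :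
    f ∈ (PP x y).asIdeal ↔ ev x y f = 0 := mem_hom_of hf

lemma PP_smul {a b : L} (ha : a ≠ 0) (hb : b ≠ 0) (x y : σ → L) :
    PP (a • x) (b • y) = PP x y := PrimeSpectrum.ext (Ideal.ext fun f => by
  simp only [PP, mem_hom, mem_kr]
  refine forall_congr' fun γ => ?_
  rw [ev_smul a b x y (weightedHomogeneousComponent_isWeightedHomogeneous γ f),
    mul_eq_zero, or_iff_right (mon_ne ha hb γ)])

lemma kr_map (κ : L →ₐ[K] L') (x y : σ → L) :
    kr (ev (mapV κ.toRingHom x) (mapV κ.toRingHom y)) = kr (ev x y) :=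
  PrimeSpectrum.ext (Ideal.ext fun f => by rw [mem_kr, mem_kr, ev_map, map_eq_zero])

lemma PP_map (κ : L →ₐ[K] L') (x y : σ → L) :
    PP (mapV κ.toRingHom x) (mapV κ.toRingHom y) = PP x y := by rw [PP, kr_map, PP]

lemma PP_rd {O : Pl M} {x y : σ → M} (hx : IntV O x) (hy : IntV O y) :
    PP x y ≤ PP (rdV O x) (rdV O y) := le_hom (hom_hom _) fun f hf =>
  mem_kr.2 (by rw [← (ev_rd hx hy f).2, mem_kr.1 (hom_le _ hf), O.rd_zero])

/-- The ratios of the coordinates. -/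
def rat (x : σ → L) : Set L := Set.range fun p : σ × σ => x p.1 / x p.2

lemma rat_smul {a : L} (ha : a ≠ 0) (x : σ → L) : rat (a • x) = rat x := by
  simp only [rat, Pi.smul_apply, smul_eq_mul, mul_div_mul_left _ _ ha]

lemma rat_map (κ : L →ₐ[K] L') (x : σ → L) : rat (mapV κ.toRingHom x) = κ '' rat x := by
  rw [rat, rat, ← Set.range_comp]
  exact congrArg _ (funext fun p => (map_div₀ κ _ _).symm)

/-- The field of definition. -/
noncomputable def FF (x y : σ → L) : IntermediateField K L :=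
  IntermediateField.adjoin K (rat x ∪ rat y)

lemma FF_smul {a b : L} (ha : a ≠ 0) (hb : b ≠ 0) (x y : σ → L) :
    FF (a • x) (b • y) = FF x y := by rw [FF, rat_smul ha, rat_smul hb, FF]

lemma FF_map (κ : L →ₐ[K] L') (x y : σ → L) :
    FF (mapV κ.toRingHom x) (mapV κ.toRingHom y) = (FF x y).map κ := by
  rw [FF, FF, IntermediateField.adjoin_map, Set.image_union, rat_map, rat_map]

lemma FF_eq {x y : σ → L} {s t : σ} (hs : x s = 1) (ht : y t = 1) :
    FF x y = IntermediateField.adjoin K (Set.range (ev x y)) := by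
  refine le_antisymm (IntermediateField.adjoin_le_iff.2 ?_) (IntermediateField.adjoin_le_iff.2 ?_)
  · rintro _ (⟨p, rfl⟩ | ⟨p, rfl⟩)
    · exact div_mem (IntermediateField.subset_adjoin _ _ ⟨_, ev_inl x y _⟩)
        (IntermediateField.subset_adjoin _ _ ⟨_, ev_inl x y _⟩)
    · exact div_mem (IntermediateField.subset_adjoin _ _ ⟨_, ev_inr x y _⟩)
        (IntermediateField.subset_adjoin _ _ ⟨_, ev_inr x y _⟩)
  · rintro _ ⟨f, rfl⟩
    induction f using MvPolynomial.induction_on with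
    | C c => rw [← algebraMap_eq, AlgHom.commutes]; exact algebraMap_mem _ c
    | add f g hf hg => rw [map_add]; exact add_mem hf hg
    | mul_X f i hf =>
      rw [map_mul]
      refine mul_mem hf (IntermediateField.subset_adjoin _ _ ?_)
      rcases i with i | i
      · exact Or.inl ⟨(i, s), by simp only [hs, div_one, ev_inl]⟩
      · exact Or.inr ⟨(i, t), by simp only [ht, div_one, ev_inr]⟩

lemma exists_ratio {x y : σ → L} {m : L} (hm : m ∈ FF x y) : ∃ (γ : N2) (g h : SS K σ),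
    g.IsWeightedHomogeneous (w2 σ σ) γ ∧ h.IsWeightedHomogeneous (w2 σ σ) γ ∧ ev x y h ≠ 0 ∧
      m * ev x y h = ev x y g := by
  have h0 : ∃ (γ : N2) (g h : SS K σ), g.IsWeightedHomogeneous (w2 σ σ) γ ∧
      h.IsWeightedHomogeneous (w2 σ σ) γ ∧ ev x y h ≠ 0 ∧ 0 * ev x y h = ev x y g :=
    ⟨0, 0, 1, isWeightedHomogeneous_zero _ _ _, isWeightedHomogeneous_one _ _, by simp, by simp⟩
  induction hm using IntermediateField.adjoin_induction with
  | mem m hm =>
    rcases hm with ⟨p, rfl⟩ | ⟨p, rfl⟩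
    · by_cases h : x p.2 = 0
      · simpa only [h, div_zero] using h0
      · exact ⟨_, _, _, isWeightedHomogeneous_X K _ (Sum.inl p.1),
          isWeightedHomogeneous_X K _ (Sum.inl p.2), by rwa [ev_inl],
          by rw [ev_inl, ev_inl, div_mul_cancel₀ _ h]⟩
    · by_cases h : y p.2 = 0
      · simpa only [h, div_zero] using h0
      · exact ⟨_, _, _, isWeightedHomogeneous_X K _ (Sum.inr p.1),
          isWeightedHomogeneous_X K _ (Sum.inr p.2), by rwa [ev_inr],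
          by rw [ev_inr, ev_inr, div_mul_cancel₀ _ h]⟩
  | algebraMap c =>
    exact ⟨0, C c, 1, isWeightedHomogeneous_C _ _, isWeightedHomogeneous_one _ _, by simp,
      by rw [map_one, mul_one, ← algebraMap_eq, AlgHom.commutes]⟩
  | add a b _ _ ha hb =>
    obtain ⟨γ, g, h, h1, h2, h3, h4⟩ := ha
    obtain ⟨γ', g', h', h1', h2', h3', h4'⟩ := hb
    refine ⟨γ + γ', g * h' + h * g', h * h', (h1.mul h2').add (h2.mul h1'), h2.mul h2', ?_, ?_⟩
    · rw [map_mul]; exact mul_ne_zero h3 h3'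
    · rw [map_add, map_mul, map_mul, map_mul, ← h4, ← h4']; ring
  | inv a _ ha =>
    obtain ⟨γ, g, h, h1, h2, h3, h4⟩ := ha
    by_cases h5 : a = 0
    · rwa [h5, inv_zero]
    · exact ⟨γ, h, g, h2, h1, h4 ▸ mul_ne_zero h5 h3, by rw [← h4, inv_mul_cancel_left₀ h5]⟩
  | mul a b _ _ ha hb =>
    obtain ⟨γ, g, h, h1, h2, h3, h4⟩ := ha
    obtain ⟨γ', g', h', h1', h2', h3', h4'⟩ := hb
    refine ⟨γ + γ', g * g', h * h', h1.mul h1', h2.mul h2', ?_, ?_⟩
    · rw [map_mul]; exact mul_ne_zero h3 h3'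
    · rw [map_mul, map_mul, ← h4, ← h4']; ring

lemma frac_of_top {x y : σ → L} (h : FF x y = ⊤) (m : L) :
    ∃ a b, ev x y b ≠ 0 ∧ m * ev x y b = ev x y a := by
  obtain ⟨-, g, h, -, -, h1⟩ := exists_ratio (x := x) (y := y) (m := m) (h ▸ trivial)
  exact ⟨g, h, h1⟩

/-- The degree over a subfield. -/
noncomputable def dg (F : IntermediateField K L) : ℕ := deg (L := L.sub F) (L' := L) F.val

lemma dg_map (κ : L →ₐ[K] L') (F : IntermediateField K L) : dg (F.map κ) = dg F * deg κ := by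
  let e : L.sub F →ₐ[K] L'.sub (F.map κ) := (F.equivMap κ).toAlgHom
  have h := deg_comp (L'' := L') e (F.map κ).val
  rw [deg_of_surj (ι := e) (F.equivMap κ).surjective, one_mul] at h
  rw [dg, dg, ← h, ← deg_comp]
  rfl

lemma dg_top : dg (⊤ : IntermediateField K L) = 1 := deg_of_surj fun x => ⟨⟨x, trivial⟩, rfl⟩

/-- The vector with coordinate one at `s`. -/
abbrev nz (s : σ) (x : σ → L) : σ → L := (x s)⁻¹ • x

lemma nz_self {s : σ} {x : σ → L} (h : x s ≠ 0) : nz s x s = 1 := inv_mul_cancel₀ h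

lemma exists_desc {x y : σ → L} {s t : σ} (hs : x s ≠ 0) (ht : y t ≠ 0) :
    ∃ x₀ y₀ : σ → L.sub (FF x y), mapV (FF x y).val.toRingHom x₀ = nz s x ∧
      mapV (FF x y).val.toRingHom y₀ = nz t y ∧ x₀ s = 1 ∧ y₀ t = 1 ∧ FF x₀ y₀ = ⊤ := by
  let x₀ : σ → L.sub (FF x y) := fun i =>
    ⟨x i / x s, IntermediateField.subset_adjoin _ _ (Or.inl ⟨(i, s), rfl⟩)⟩
  let y₀ : σ → L.sub (FF x y) := fun i =>
    ⟨y i / y t, IntermediateField.subset_adjoin _ _ (Or.inr ⟨(i, t), rfl⟩)⟩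
  have e1 : mapV (FF x y).val.toRingHom x₀ = nz s x := funext fun i => div_eq_inv_mul _ _
  have e2 : mapV (FF x y).val.toRingHom y₀ = nz t y := funext fun i => div_eq_inv_mul _ _
  refine ⟨x₀, y₀, e1, e2, Subtype.ext (div_self hs), Subtype.ext (div_self ht),
    IntermediateField.map_injective (FF x y).val ?_⟩
  have h := FF_map (L := L.sub (FF x y)) (L' := L) (FF x y).val x₀ y₀
  rw [e1, e2, FF_smul (inv_ne_zero hs) (inv_ne_zero ht)] at h
  rw [← h, ← AlgHom.fieldRange_eq_map, IntermediateField.fieldRange_val]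

variable [Finite σ]

lemma good_of_top {x y : σ → L} (h : FF x y = ⊤) : Good (dm K (kr (ev x y))) L :=
  ValC.tr_eq_dm _ _ (fun _ => Iff.rfl) (frac_of_top h)

lemma good_FF {x y : σ → L} {s t : σ} (hs : x s ≠ 0) (ht : y t ≠ 0) :
    ∃ i, Good i (L.sub (FF x y)) ∧ dm K (PP x y) = i + 2 := by
  obtain ⟨x₀, y₀, e1, e2, h1, h2, h3⟩ := exists_desc hs ht
  refine ⟨_, good_of_top h3, ?_⟩
  rw [← dm_hom (ch_ev h1 h2), ← PP_smul (inv_ne_zero hs) (inv_ne_zero ht), ← nz, ← nz, ← e1, ← e2]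
  exact congrArg _ (PP_map (L := L.sub (FF x y)) (L' := L) (FF x y).val x₀ y₀)

lemma dm_PP {x y : σ → L} (hx : x ≠ 0) (hy : y ≠ 0) {j : ℕ} (hL : L.tr = j)
    (h : dg (FF x y) ≠ 0) : dm K (PP x y) = j + 2 := by
  obtain ⟨s, hs⟩ := Function.ne_iff.1 hx
  obtain ⟨t, ht⟩ := Function.ne_iff.1 hy
  obtain ⟨i, h1, h2⟩ := good_FF hs ht
  have h3 := ((deg_pos_iff _).1 (Nat.pos_of_ne_zero h)).tr_eq
  rw [hL, h1.2, Nat.cast_inj] at h3
  rw [h2, h3]

omit [Finite σ] in
lemma exists_point {Z : PrimeSpectrum (SS K σ)} (hZ : WHomog (w2 σ σ) Z.asIdeal) {s t : σ}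
    (h : X (Sum.inl s) * X (Sum.inr t) ∉ Z.asIdeal) : ∃ (L : Fld K) (x y : σ → L),
      x s = 1 ∧ y t = 1 ∧ FF x y = ⊤ ∧ PP x y = Z := by
  let F : Fld K := ⟨FractionRing (SS K σ ⧸ Z.asIdeal)⟩
  let μ : SS K σ →ₐ[K] F := (IsScalarTower.toAlgHom K _ (FractionRing (SS K σ ⧸ Z.asIdeal))).comp
    (Ideal.Quotient.mkₐ K Z.asIdeal)
  have hμ : ∀ b, μ b = 0 ↔ b ∈ Z.asIdeal := fun b =>
    (map_eq_zero_iff _ (IsFractionRing.injective (SS K σ ⧸ Z.asIdeal) _)).trans
      Ideal.Quotient.eq_zero_iff_mem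
  let x : σ → F := fun i => μ (X (Sum.inl i))
  let y : σ → F := fun i => μ (X (Sum.inr i))
  have e : ev x y = μ := algHom_ext fun i => by
    rcases i with i | i
    · exact ev_inl x y i
    · exact ev_inr x y i
  have hs : x s ≠ 0 := fun e => h (Ideal.mul_mem_right _ _ ((hμ _).1 e))
  have ht : y t ≠ 0 := fun e => h (Ideal.mul_mem_left _ _ ((hμ _).1 e))
  obtain ⟨x₀, y₀, e1, e2, h1, h2, h3⟩ := exists_desc hs ht
  refine ⟨_, x₀, y₀, h1, h2, h3, ?_⟩
  rw [← PP_map (L := F.sub (FF x y)) (L' := F) (FF x y).val, e1, e2,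
    PP_smul (inv_ne_zero hs) (inv_ne_zero ht), PP, e]
  exact le_antisymm (fun f hf => (hμ f).1 (hom_le _ hf)) (le_hom hZ fun f hf => (hμ f).2 hf)

open Classical in
/-- A generator of a line. -/
noncomputable def gn (E : Submodule L (σ → L)) : σ → L :=
  if h : ∃ x, x ≠ 0 ∧ E = Submodule.span L {x} then h.choose else 0

omit [Finite σ] in
lemma gn_span {x : σ → L} (hx : x ≠ 0) : ∃ c : L, c ≠ 0 ∧ gn (Submodule.span L {x}) = c • x := by
  have h : ∃ y, y ≠ 0 ∧ Submodule.span L {x} = Submodule.span L {y} := ⟨x, hx, rfl⟩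
  obtain ⟨c, hc⟩ := Submodule.span_singleton_eq_span_singleton.1 h.choose_spec.2
  exact ⟨c, c.ne_zero, by rw [gn, dif_pos h, ← hc]; rfl⟩

omit [Finite σ] in
lemma gn_pair {x y : σ → L} (hx : x ≠ 0) (hy : y ≠ 0) :
    PP (gn (Submodule.span L {x})) (gn (Submodule.span L {y})) = PP x y ∧
      FF (gn (Submodule.span L {x})) (gn (Submodule.span L {y})) = FF x y := by
  obtain ⟨a, ha, e1⟩ := gn_span hx
  obtain ⟨b, hb, e2⟩ := gn_span hy
  rw [e1, e2]
  exact ⟨PP_smul ha hb x y, FF_smul ha hb x y⟩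

lemma sred_nz {O : Pl M} {x : σ → M} {s : σ} (hs : x s ≠ 0) (hx : IntV O (nz s x)) :
    rdV O (nz s x) s = 1 ∧
      sred O (Submodule.span M {x}) = Submodule.span O.res {rdV O (nz s x)} := by
  have h : rdV O (nz s x) s = 1 := by rw [rdV, nz_self hs, O.rd_one]
  refine ⟨h, ?_⟩
  rw [← sred_single hx fun e => one_ne_zero (h.symm.trans (congrFun e s)),
    Submodule.span_singleton_smul_eq (inv_ne_zero hs).isUnit]

omit [Finite σ] in
lemma int_nz {O : Pl M} {x : σ → M} {s s' : σ} (hs : x s' ≠ 0) (hx : IntV O (nz s' x))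
    (h : rdV O (nz s' x) s ≠ 0) : x s ≠ 0 ∧ IntV O (nz s x) := by
  obtain ⟨h1, h2⟩ := (O.rd_ne_zero_iff (hx s)).1 h
  have h3 : x s ≠ 0 := right_ne_zero_of_mul h1
  refine ⟨h3, fun i => ?_⟩
  have e : nz s x i = (nz s' x s)⁻¹ * nz s' x i := by
    simp only [Pi.smul_apply, smul_eq_mul]
    field_simp
  rw [e]
  exact mul_mem h2 (hx i)

end Pool.Agent.Lib.MP_557161_ag.DL.Bridge
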