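import Pool.Agent.Lib.MP_557161_ag.DL.Bridge3

/-!
The divisor of a rational function on the closure of a generic pair of lines, as a sum over places.
-/

namespace Pool.Agent.Lib.MP_557161_ag.DL.Bridge

open MvPolynomial Function
open Pool.Agent.Lib.MP_60ec62_ag.DL

variable {K : Type} [Field K] {σ : Type} [Finite σ] {M : Fld K} {j : ℕ}

/-- The prime of the reduction. -/
noncomputable def pr (x y : σ → M) (O : Pl M) : PrimeSpectrum (SS K σ) :=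
  PP (gn (sred O (Submodule.span M {x}))) (gn (sred O (Submodule.span M {y})))

open Classical in
/-- The multiplicity of a place. -/
noncomputable def mt (j : ℕ) (x y : σ → M) (f : M) (O : Pl M) : ℚ :=
  if O.IsDiv j then (O.ord f : ℚ) *
    dg (FF (gn (sred O (Submodule.span M {x}))) (gn (sred O (Submodule.span M {y})))) else 0

/-- The reduction lies in the chart. -/
def InC (x y : σ → M) (O : Pl M) (s t : σ) : Prop :=
  (x s ≠ 0 ∧ IntV O (nz s x)) ∧ y t ≠ 0 ∧ IntV O (nz t y)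

variable {x y : σ → M} {O : Pl M} {s t : σ}

lemma exists_inC (hx : x ≠ 0) (hy : y ≠ 0) (O : Pl M) : ∃ s t, InC x y O s t := by
  obtain ⟨s, hs⟩ := exists_scale O hx
  obtain ⟨t, ht⟩ := exists_scale O hy
  exact ⟨s, t, hs, ht⟩

lemma InC.spec (h : InC x y O s t) : rdV O (nz s x) s = 1 ∧ rdV O (nz t y) t = 1 ∧
    pr x y O = PP (rdV O (nz s x)) (rdV O (nz t y)) ∧
    FF (gn (sred O (Submodule.span M {x}))) (gn (sred O (Submodule.span M {y}))) =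
      FF (rdV O (nz s x)) (rdV O (nz t y)) := by
  obtain ⟨h1, e1⟩ := sred_nz h.1.1 h.1.2
  obtain ⟨h2, e2⟩ := sred_nz h.2.1 h.2.2
  rw [pr, e1, e2]
  exact ⟨h1, h2, gn_pair (fun e => one_ne_zero (h1.symm.trans (congrFun e s)))
    fun e => one_ne_zero (h2.symm.trans (congrFun e t))⟩

omit [Finite σ] in
lemma InC.cen (h : InC x y O s t) : Pl.Cen (ev (nz s x) (nz t y))
    (kr (ev (rdV O (nz s x)) (rdV O (nz t y)))) O :=
  ⟨fun a => (ev_rd h.1.2 h.2.2 a).1, fun a => by rw [(ev_rd h.1.2 h.2.2 a).2, mem_kr]⟩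

lemma InC.mt (h : InC x y O s t) (hO : O.IsDiv j) (f : M) :
    mt j x y f O = O.ord f * Pl.cenDeg (ev (nz s x) (nz t y)) O := by
  obtain ⟨h1, h2, -, h4⟩ := h.spec
  rw [Bridge.mt, if_pos hO, h4, FF_eq h1 h2, ← funext fun a => (ev_rd h.1.2 h.2.2 a).2]
  rfl

lemma inC_of_not_mem (hx : x ≠ 0) (hy : y ≠ 0)
    (h : X (Sum.inl s) * X (Sum.inr t) ∉ (pr x y O).asIdeal) : InC x y O s t := by
  obtain ⟨s', t', h1⟩ := exists_inC hx hy O
  rw [h1.spec.2.2.1, mem_PP ((isWeightedHomogeneous_X K _ _).mul (isWeightedHomogeneous_X K _ _)),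
    map_mul, ev_inl, ev_inr] at h
  exact ⟨int_nz h1.1.1 h1.1.2 (left_ne_zero_of_mul h), int_nz h1.2.1 h1.2.2 (right_ne_zero_of_mul h)⟩

variable {f : M} {g h : SS K σ} {γ : N2}

omit [Finite σ] in
lemma ratio_nz (hg : g.IsWeightedHomogeneous (w2 σ σ) γ) (hh : h.IsWeightedHomogeneous (w2 σ σ) γ)
    (h0 : ev x y h ≠ 0) (e : f * ev x y h = ev x y g) (hs : x s ≠ 0) (ht : y t ≠ 0) :
    ev (nz s x) (nz t y) h ≠ 0 ∧ f * ev (nz s x) (nz t y) h = ev (nz s x) (nz t y) g := by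
  rw [ev_smul _ _ _ _ hg, ev_smul _ _ _ _ hh, ← e]
  exact ⟨mul_ne_zero (mon_ne (inv_ne_zero hs) (inv_ne_zero ht) γ) h0, mul_left_comm _ _ _⟩

lemma mt_supp (hx : x ≠ 0) (hy : y ≠ 0) (hg : g.IsWeightedHomogeneous (w2 σ σ) γ)
    (hh : h.IsWeightedHomogeneous (w2 σ σ) γ) (h0 : ev x y h ≠ 0) (hf : f ≠ 0)
    (e : f * ev x y h = ev x y g) (hO : mt j x y f O ≠ 0) :
    O.IsDiv j ∧ PP x y ≤ pr x y O ∧ dm K (pr x y O) = j + 2 ∧ g * h ∈ (pr x y O).asIdeal ∧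
      ∃ s t, X (Sum.inl s) * X (Sum.inr t) ∉ (pr x y O).asIdeal := by
  have h1 : O.IsDiv j := by_contra fun e => hO (if_neg e)
  obtain ⟨s, t, h2⟩ := exists_inC hx hy O
  obtain ⟨h3, h4, h5, h6⟩ := h2.spec
  obtain ⟨h7, h8⟩ := ratio_nz hg hh h0 e h2.1.1 h2.2.1
  rw [mt, if_pos h1, h6] at hO
  rw [h5]
  refine ⟨h1, ?_, dm_PP (fun e => one_ne_zero (h3.symm.trans (congrFun e s)))
    (fun e => one_ne_zero (h4.symm.trans (congrFun e t))) h1.2
    (Nat.cast_ne_zero.1 (right_ne_zero_of_mul hO)), ?_, s, t, ?_⟩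
  · rw [← PP_smul (inv_ne_zero h2.1.1) (inv_ne_zero h2.2.1)]
    exact PP_rd h2.1.2 h2.2.2
  · obtain ⟨g1, g2⟩ := ev_rd h2.1.2 h2.2.2 g
    obtain ⟨g3, g4⟩ := ev_rd h2.1.2 h2.2.2 h
    rw [mem_PP (hg.mul hh), map_mul, ← g2, ← g4]
    by_contra h9
    have u1 := Pl.ValB.un_of_rd g1 (left_ne_zero_of_mul h9)
    have u2 := u1.mul (Pl.ValB.un_of_rd g3 (right_ne_zero_of_mul h9)).inv
    rw [← h8, mul_inv_cancel_right₀ h7] at u2
    exact left_ne_zero_of_mul hO (by rw [Pl.ord_eq_zero_of_mem hf u2.2.1 u2.2.2, Int.cast_zero])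
  · rw [mem_PP ((isWeightedHomogeneous_X K _ _).mul (isWeightedHomogeneous_X K _ _)),
      map_mul, ev_inl, ev_inr, h3, h4, one_mul]
    exact one_ne_zero

variable [Base K]

open Classical in
lemma fibre (hx : x ≠ 0) (hy : y ≠ 0) (hF : FF x y = ⊤) (hM : Good (j + 1) M)
    (hg : g.IsWeightedHomogeneous (w2 σ σ) γ) (hh : h.IsWeightedHomogeneous (w2 σ σ) γ)
    (h0 : ev x y h ≠ 0) (hf : f ≠ 0) (e : f * ev x y h = ev x y g) {Z : PrimeSpectrum (SS K σ)}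
    (hZ : WHomog (w2 σ σ) Z.asIdeal) (hle : PP x y ≤ Z) (hd : dm K Z = j + 2)
    (hst : X (Sum.inl s) * X (Sum.inr t) ∉ Z.asIdeal) :
    {O | O.IsDiv j ∧ pr x y O = Z}.Finite ∧ (∑ᶠ O, if pr x y O = Z then mt j x y f O else 0) =
      dv K (PP x y) g Z - dv K (PP x y) h Z := by
  obtain ⟨L, a, b, ha, hb, -, rfl⟩ := exists_point hZ hst
  have h1 : ev x y (X (Sum.inl s) * X (Sum.inr t)) ≠ 0 := fun e => hst (hle ((mem_PP
    ((isWeightedHomogeneous_X K _ _).mul (isWeightedHomogeneous_X K _ _))).2 e))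
  rw [map_mul, ev_inl, ev_inr] at h1
  have hs := left_ne_zero_of_mul h1
  have ht := right_ne_zero_of_mul h1
  obtain ⟨h2, h3⟩ := ratio_nz hg hh h0 e hs ht
  have hz := ch_ev ha hb
  have hw := ch_ev (nz_self hs) (nz_self ht)
  have h4 : dm K (kr (ev a b)) = j := Nat.add_right_cancel ((dm_hom hz).symm.trans hd)
  obtain ⟨h5, h6⟩ := Pl.sum_cen (ev (nz s x) (nz t y)) (kr _) (kr (ev a b)) (fun _ => Iff.rfl)
    (frac_of_top ((FF_smul (inv_ne_zero hs) (inv_ne_zero ht) x y).trans hF)) hM.2 h4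
  have h7 : ∀ O, Pl.Cen (ev (nz s x) (nz t y)) (kr (ev a b)) O → InC x y O s t := fun O c =>
    ⟨⟨hs, fun i => ev_inl (nz s x) (nz t y) i ▸ c.1 _⟩, ht,
      fun i => ev_inr (nz s x) (nz t y) i ▸ c.1 _⟩
  have h8 : ∀ O, pr x y O = PP a b ↔ Pl.Cen (ev (nz s x) (nz t y)) (kr (ev a b)) O := fun O => by
    refine ⟨fun e => ?_, fun c => ?_⟩
    · have h : InC x y O s t := inC_of_not_mem hx hy (e ▸ hst)
      rw [← hom_inj (ch_ev h.spec.1 h.spec.2.1) hz (h.spec.2.2.1.symm.trans e)]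
      exact h.cen
    · rw [(h7 O c).spec.2.2.1]
      exact congrArg hom (PrimeSpectrum.ext (Ideal.ext fun u =>
        ((h7 O c).cen.2 u).symm.trans (c.2 u)))
  refine ⟨by simpa only [h8] using h5, ?_⟩
  have : Finite {O : Pl M // O.IsDiv j ∧ Pl.Cen (ev (nz s x) (nz t y)) (kr (ev a b)) O} := h5
  have h9 : ev (nz s x) (nz t y) g ≠ 0 := h3 ▸ mul_ne_zero hf h2
  rw [← PP_smul (inv_ne_zero hs) (inv_ne_zero ht) x y]
  refine Eq.trans ?_ (congrArg₂ (· - ·) (dv_hom hw hz hg) (dv_hom hw hz hh)).symm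
  rw [← h6 g h9, ← h6 h h2, ← finsum_sub_distrib (Set.toFinite _) (Set.toFinite _)]
  refine fs_sub _ _ _ (fun O c => ?_) fun O c => ?_
  · rw [if_pos ((h8 O).2 c.2), (h7 O c.2).mt c.1, ← h3, Pl.ord_mul c.1.1 hf h2]
    push_cast
    ring
  · split_ifs with c'
    · exact if_neg fun c'' => c ⟨c'', (h8 O).1 c'⟩
    · rfl

lemma mt_sum (hx : x ≠ 0) (hy : y ≠ 0) (hF : FF x y = ⊤) (hM : Good (j + 1) M) (hf : f ≠ 0)
    (b : Cyc (SS K σ) →ₗ[ℚ] ℚ)
    (b1 : ∀ (g h : SS K σ) (γ : N2), g.IsWeightedHomogeneous (w2 σ σ) γ →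
      h.IsWeightedHomogeneous (w2 σ σ) γ → g ∉ (PP x y).asIdeal → h ∉ (PP x y).asIdeal →
        b (dv K (PP x y) g - dv K (PP x y) h) = 0)
    (b2 : ∀ Z : PrimeSpectrum (SS K σ), (∀ s t, X (Sum.inl s) * X (Sum.inr t) ∈ Z.asIdeal) →
      b (Finsupp.single Z 1) = 0) :
    (support (mt j x y f)).Finite ∧
      ∑ᶠ O, mt j x y f O * b (Finsupp.single (pr x y O) 1) = 0 := by
  classical
  obtain ⟨γ, g, h, hg, hh, h0, e⟩ := exists_ratio (x := x) (y := y) (m := f) (hF ▸ trivial)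
  have g0 : ev x y g ≠ 0 := e ▸ mul_ne_zero hf h0
  have h1 : dm K (PP x y) = j + 1 + 2 := dm_PP hx hy hM.2 (by rw [hF, dg_top]; exact one_ne_zero)
  let T : Set (PrimeSpectrum (SS K σ)) := {Z | WHomog (w2 σ σ) Z.asIdeal ∧ PP x y ≤ Z ∧
    dm K Z = j + 2 ∧ ∃ s t, X (Sum.inl s) * X (Sum.inr t) ∉ Z.asIdeal}
  have h2 : ∀ O, mt j x y f O ≠ 0 → pr x y O ∈ T := fun O hO =>
    (mt_supp hx hy hg hh h0 hf e hO).elim fun _ h => ⟨hom_hom _, h.1, h.2.1, h.2.2.2⟩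
  have h3 := fun Z (hZ : Z ∈ T) => hZ.2.2.2.elim fun s h => h.elim fun t hst =>
    fibre hx hy hF hM hg hh h0 hf e hZ.1 hZ.2.1 hZ.2.2.1 hst
  have h4 : (support (mt j x y f)).Finite := by
    refine (((dv K (PP x y) (g * h)).support.finite_toSet.inter_of_left T).biUnion
      fun Z hZ => (h3 Z hZ.2).1).subset fun O hO => ?_
    obtain ⟨k1, k2, k3, k4, -⟩ := mt_supp hx hy hg hh h0 hf e hO
    refine Set.mem_biUnion (x := pr x y O) ⟨Finsupp.mem_support_iff.2 (dv_ne k2 k4 ?_ ?_), h2 O hO⟩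
      ⟨k1, rfl⟩
    · rw [mem_PP (hg.mul hh), map_mul]
      exact mul_ne_zero g0 h0
    · rw [k3, h1]
  refine ⟨h4, ?_⟩
  rw [fs_fib _ (h4.subset fun O hO => left_ne_zero_of_mul hO) (pr x y)]
  refine (finsum_congr fun Z => ?_).trans ((fs_lin b _).trans
    (b1 g h γ hg hh (fun k => g0 ((mem_PP hg).1 k)) fun k => h0 ((mem_PP hh).1 k)))
  have h5 : (∑ᶠ O, if pr x y O = Z then mt j x y f O * b (Finsupp.single (pr x y O) 1) else 0) =
      (∑ᶠ O, if pr x y O = Z then mt j x y f O else 0) * b (Finsupp.single Z 1) := by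
    rw [finsum_mul]
    refine finsum_congr fun O => ?_
    split_ifs with k
    · rw [k]
    · exact (zero_mul _).symm
  rw [h5, Finsupp.sub_apply]
  by_cases h6 : Z ∈ T
  · rw [(h3 Z h6).2]
  by_cases h7 : ∀ s t, X (Sum.inl s) * X (Sum.inr t) ∈ Z.asIdeal
  · rw [b2 Z h7, mul_zero, mul_zero]
  have h8 : ∀ u : SS K σ, u.IsWeightedHomogeneous (w2 σ σ) γ → dv K (PP x y) u Z = 0 :=
    fun u hu => by_contra fun k => h6 ⟨hom_of_dv (hom_hom _) hu k, (dv_supp k).1.le,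
      by have := (dv_supp k).2.2.2; omega, by simpa only [not_forall] using h7⟩
  rw [h8 g hg, h8 h hh, sub_zero, finsum_eq_zero_of_forall_eq_zero fun O => ?_]
  split_ifs with k
  · exact by_contra fun k' => h6 (k ▸ h2 O k')
  · rfl

end Pool.Agent.Lib.MP_557161_ag.DL.Bridge
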