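import Pool.Agent.Lib.MP_557161_ag.DL.Fld

/-!
Functionals on cycles modulo rational equivalence, described by their values at points over
function fields; the Chow-Kuenneth generation property.
-/

namespace Pool.Agent.Lib.MP_557161_ag.DL

/-- A functor of points with specialisation maps. -/
structure Amb (K : Type) [Field K] where
  pt : Fld K → Type
  map : ∀ {L L' : Fld K}, (L →ₐ[K] L') → pt L → pt L'
  map_id : ∀ {L : Fld K} (y : pt L), map (AlgHom.id K L) y = y
  map_comp : ∀ {L L' L'' : Fld K} (ι : L →ₐ[K] L') (κ : L' →ₐ[K] L'') (y : pt L),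
    map (κ.comp ι) y = map κ (map ι y)
  inj : ∀ {L L' : Fld K} (ι : L →ₐ[K] L'), Function.Injective (map ι)
  red : ∀ {M : Fld K} (O : Pl M), pt M → pt O.res
  red_map : ∀ {M M' : Fld K} {ι : M →ₐ[K] M'} {O : Pl M} {O' : Pl M'} (h : Pl.Over ι O O')
    (y : pt M), red O' (map ι y) = map h.resHom (red O y)
  red_triv : ∀ {L M : Fld K} {ι : L →ₐ[K] M} {O : Pl M} (h : Pl.Triv ι O) (y : pt L),
    red O (map ι y) = map h.hom y
  fg : ∀ {L : Fld K} (y : pt L), ∃ s : Finset L, ∀ (L₀ : Fld K) (κ : L₀ →ₐ[K] L),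
    (∀ x ∈ s, x ∈ Set.range κ) → y ∈ Set.range (map κ)

variable {K : Type} [Field K]

/-- The product of two functors. -/
def Amb.prod (A B : Amb K) : Amb K where
  pt L := A.pt L × B.pt L
  map ι y := (A.map ι y.1, B.map ι y.2)
  map_id y := Prod.ext (A.map_id _) (B.map_id _)
  map_comp ι κ y := Prod.ext (A.map_comp _ _ _) (B.map_comp _ _ _)
  inj ι _ _ h := Prod.ext (A.inj ι (congrArg Prod.fst h)) (B.inj ι (congrArg Prod.snd h))
  red O y := (A.red O y.1, B.red O y.2)
  red_map h y := Prod.ext (A.red_map h _) (B.red_map h _)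
  red_triv h y := Prod.ext (A.red_triv h _) (B.red_triv h _)
  fg y := by
    classical
    obtain ⟨s, hs⟩ := A.fg y.1
    obtain ⟨t, ht⟩ := B.fg y.2
    refine ⟨s ∪ t, fun L₀ κ h => ?_⟩
    obtain ⟨a, ha⟩ := hs L₀ κ fun x hx => h x (Finset.mem_union_left _ hx)
    obtain ⟨b, hb⟩ := ht L₀ κ fun x hx => h x (Finset.mem_union_right _ hx)
    exact ⟨(a, b), Prod.ext ha hb⟩

/-- A constant functor. -/
def Amb.const (K : Type) [Field K] (α : Type) : Amb K where
  pt _ := α
  map _ y := y
  map_id _ := rfl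
  map_comp _ _ _ := rfl
  inj _ _ _ h := h
  red _ y := y
  red_map _ _ := rfl
  red_triv _ _ := rfl
  fg y := ⟨∅, fun _ _ _ => ⟨y, rfl⟩⟩

/-- A set of points that is invariant under field extensions. -/
structure Sp (A : Amb K) where
  mem : ∀ {L : Fld K}, A.pt L → Prop
  map_iff : ∀ {L L' : Fld K} (ι : L →ₐ[K] L') (y : A.pt L), mem (A.map ι y) ↔ mem y

variable {A A' B C : Amb K}

/-- The product of two spaces. -/
def Sp.prod (Y : Sp A) (Z : Sp B) : Sp (A.prod B) where
  mem y := Y.mem y.1 ∧ Z.mem y.2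
  map_iff ι y := and_congr (Y.map_iff ι y.1) (Z.map_iff ι y.2)

/-- The intersection of two spaces. -/
def Sp.inter (Y Z : Sp A) : Sp A where
  mem y := Y.mem y ∧ Z.mem y
  map_iff ι y := and_congr (Y.map_iff ι y) (Z.map_iff ι y)

/-- The difference of two spaces. -/
def Sp.diff (Y Z : Sp A) : Sp A where
  mem y := Y.mem y ∧ ¬ Z.mem y
  map_iff ι y := and_congr (Y.map_iff ι y) (not_congr (Z.map_iff ι y))

/-- The one point space. -/
def Sp.point (K : Type) [Field K] : Sp (Amb.const K Unit) := ⟨fun _ => True, fun _ _ => Iff.rfl⟩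

/-- A linear functional on `j`-dimensional cycles of `P` modulo rational equivalence. -/
structure Fn (j : ℕ) (P : Sp A) where
  v : ∀ L : Fld K, A.pt L → ℚ
  supp : ∀ L y, v L y ≠ 0 → Good j L ∧ P.mem y
  ext : ∀ {L L' : Fld K} (ι : L →ₐ[K] L') (y : A.pt L), Good j L → Good j L' →
    v L' (A.map ι y) = deg ι * v L y
  low : ∀ {L L' : Fld K} (ι : L →ₐ[K] L') (y : A.pt L), L.tr < j → v L' (A.map ι y) = 0
  rat : ∀ (M : Fld K) (y : A.pt M) (f : M), Good (j + 1) M → P.mem y → f ≠ 0 →
    (Function.support fun O : {O : Pl M // O.IsDiv j} =>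
      (O.1.ord f : ℚ) * v O.1.res (A.red O.1 y)).Finite ∧
    ∑ᶠ O : {O : Pl M // O.IsDiv j}, (O.1.ord f : ℚ) * v O.1.res (A.red O.1 y) = 0

/-- The functional vanishes on exterior products. -/
def Fn.Kills {j : ℕ} {P : Sp (A.prod B)} (φ : Fn j P) : Prop :=
  ∀ (L L₁ L₂ : Fld K) (ι₁ : L₁ →ₐ[K] L) (ι₂ : L₂ →ₐ[K] L) (y : A.pt L₁) (z : B.pt L₂),
    L₁.tr + L₂.tr ≤ j → φ.v L (A.map ι₁ y, B.map ι₂ z) = 0

/-- Cycles on the product are generated by exterior products. -/
def Van (Y : Sp A) (Z : Sp B) : Prop :=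
  ∀ (j : ℕ) (φ : Fn j (Y.prod Z)), φ.Kills → ∀ L y, φ.v L y = 0

/-- The Chow-Kuenneth generation property. -/
def CK (Y : Sp A) : Prop :=
  ∀ (B C : Amb K) (W : Sp B) (Z : Sp C), Van W Z → Van (Y.prod W) Z

/-- `Z` is closed under specialisation inside `Y`. -/
def Sp.Closed (Z Y : Sp A) : Prop :=
  ∀ {M : Fld K} (O : Pl M) (y : A.pt M), O.IsDVR → Y.mem y → Z.mem y → Y.mem (A.red O y) →
    Z.mem (A.red O y)

/-- A map of spaces that commutes with field extensions and specialisations. -/
structure Mor (Y : Sp A) (Z : Sp B) where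
  f : ∀ {L : Fld K}, A.pt L → B.pt L
  mem : ∀ {L : Fld K} (y : A.pt L), Y.mem y → Z.mem (f y)
  nat : ∀ {L L' : Fld K} (ι : L →ₐ[K] L') (y : A.pt L), Y.mem y → f (A.map ι y) = B.map ι (f y)
  cont : ∀ {M : Fld K} (O : Pl M) (y : A.pt M), O.IsDVR → Y.mem y → Y.mem (A.red O y) →
    f (A.red O y) = B.red O (f y)

variable {Y : Sp A} {Z : Sp B}

/-- The valuative criterion of properness. -/
def Mor.Proper (f : Mor Y Z) : Prop :=
  ∀ {M : Fld K} (O : Pl M) (y : A.pt M), O.IsDVR → Y.mem y → Z.mem (B.red O (f.f y)) →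
    Y.mem (A.red O y)

/-- Surjectivity on geometric points. -/
def Mor.Surj (f : Mor Y Z) : Prop :=
  ∀ (L : Fld K) [IsAlgClosed L] (z : B.pt L), Z.mem z → ∃ y, Y.mem y ∧ f.f y = z

/-- Injectivity on points. -/
def Mor.Inj (f : Mor Y Z) : Prop :=
  ∀ (L : Fld K) (y y' : A.pt L), Y.mem y → Y.mem y' → f.f y = f.f y' → y = y'

/-- Affine space with a point at infinity. -/
noncomputable def Aff (K : Type) [Field K] (ι : Type) [Finite ι] : Amb K where
  pt L := Option (ι → L)
  map κ y := y.map fun x i => κ (x i)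
  map_id y := by cases y <;> rfl
  map_comp _ _ y := by cases y <;> rfl
  inj κ := Option.map_injective fun _ _ h => funext fun i => κ.injective (congrFun h i)
  red O y := open Classical in y.bind fun x => if ∀ i, x i ∈ O.O then some fun i => O.rd (x i) else none
  red_map {M M' ι O O'} h y := by
    cases y with
    | none => rfl
    | some x =>
      simp only [Option.map_some, Option.bind_some]
      by_cases hx : ∀ i, x i ∈ O.O
      · rw [if_pos hx, if_pos fun i => (h _).1 (hx i)]
        simp only [Option.map_some, h.resHom_rd]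
      · rw [if_neg hx, if_neg fun h' => hx fun i => (h _).2 (h' i)]; rfl
  red_triv {L M ι O} h y := by
    cases y with
    | none => rfl
    | some x =>
      simp only [Option.map_some, Option.bind_some]
      rw [if_pos fun i => h _]
      simp only [h.hom_apply]
  fg y := by
    classical
    cases y with
    | none => exact ⟨∅, fun _ _ _ => ⟨none, rfl⟩⟩
    | some x =>
      refine ⟨(Set.finite_range x).toFinset, fun L₀ κ h => ?_⟩
      choose z hz using fun i => h (x i) (by simp)
      exact ⟨some z, congrArg some (funext hz)⟩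

/-- The vectors with coordinates in the valuation ring. -/
def IntV {M : Fld K} (O : Pl M) {ι : Type} (x : ι → M) : Prop := ∀ i, x i ∈ O.O

/-- The residue of a vector. -/
noncomputable def rdV {M : Fld K} (O : Pl M) {ι : Type} (x : ι → M) : ι → O.res := fun i => O.rd (x i)

/-- The image of a vector. -/
def mapV {L L' : Type} (κ : L → L') {ι : Type} (x : ι → L) : ι → L' := fun i => κ (x i)

/-- Extension of scalars of a subspace. -/
def smap {L L' : Type} [Field L] [Field L'] (κ : L →+* L') {ι : Type} (E : Submodule L (ι → L)) :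
    Submodule L' (ι → L') := Submodule.span L' (mapV κ '' (E : Set (ι → L)))

/-- Reduction of a subspace. -/
noncomputable def sred {M : Fld K} (O : Pl M) {ι : Type} (E : Submodule M (ι → M)) :
    Submodule O.res (ι → O.res) where
  carrier := {u | ∃ x ∈ E, IntV O x ∧ rdV O x = u}
  zero_mem' := ⟨0, E.zero_mem, fun _ => zero_mem _, funext fun _ => O.rd_zero⟩
  add_mem' := by
    rintro _ _ ⟨x, hx, ix, rfl⟩ ⟨y, hy, iy, rfl⟩
    exact ⟨x + y, E.add_mem hx hy, fun i => add_mem (ix i) (iy i),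
      funext fun i => O.rd_add (ix i) (iy i)⟩
  smul_mem' := by
    rintro c _ ⟨x, hx, ix, rfl⟩
    obtain ⟨c, hc, rfl⟩ := O.rd_surj c
    exact ⟨c • x, E.smul_mem c hx, fun i => mul_mem hc (ix i), funext fun i => O.rd_mul hc (ix i)⟩

end Pool.Agent.Lib.MP_557161_ag.DL
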