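import Pool.Agent.Lib.MP_557161_ag.DL.CKL1

/-!
Bundles of affine lines preserve the Chow-Kuenneth generation property.
-/

namespace Pool.Agent.Lib.MP_557161_ag.DL

variable {K : Type} [Field K] {A A' B C D : Amb K}

namespace CKL2

theorem transfer {α β : Type*} (g : α → ℚ) (g' : β → ℚ) (R : α → β → Prop)
    (h1 : ∀ a, g a ≠ 0 → ∃ b, R a b) (h2 : ∀ b, g' b ≠ 0 → ∃ a, R a b)
    (h3 : ∀ a b, R a b → g a = g' b) (h4 : ∀ a b b', R a b → R a b' → b = b')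
    (h5 : ∀ a a' b, R a b → R a' b → a = a')
    (hf : (Function.support g').Finite ∧ ∑ᶠ b, g' b = 0) :
    (Function.support g).Finite ∧ ∑ᶠ a, g a = 0 := by
  classical
  choose e he using h1
  let E : Function.support g → Function.support g' := fun a =>
    ⟨e a.1 a.2, fun h => a.2 ((h3 _ _ (he a.1 a.2)).trans h)⟩
  have hE : Function.Bijective E := by
    refine ⟨fun a a' h => Subtype.ext (h5 _ _ _ (he a.1 a.2) ?_), fun b => ?_⟩
    · have h' : e a.1 a.2 = e a'.1 a'.2 := congrArg Subtype.val h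
      rw [h']
      exact he a'.1 a'.2
    · obtain ⟨a, ha⟩ := h2 b.1 b.2
      have ha0 : g a ≠ 0 := fun h => b.2 ((h3 _ _ ha).symm.trans h)
      exact ⟨⟨a, ha0⟩, Subtype.ext (h4 _ _ _ (he a ha0) ha)⟩
  refine ⟨?_, ?_⟩
  · have : Finite (Function.support g') := hf.1
    exact Finite.of_injective E hE.1
  · rw [← finsum_mem_support, ← finsum_set_coe_eq_finsum_mem,
      finsum_eq_of_bijective E hE (g := fun b => g' b.1) fun a => h3 _ _ (he a.1 a.2),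
      finsum_set_coe_eq_finsum_mem (f := g'), finsum_mem_support, hf.2]

/-- The product of a bundle with a space. -/
def prod {E : Sp A} {W : Sp B} (b : Bun E W C) (W' : Sp D) : Bun (E.prod W') (W.prod W') C where
  π := {
    f := fun y => (b.π.f y.1, y.2)
    mem := fun y h => ⟨b.π.mem y.1 h.1, h.2⟩
    nat := fun ι y h => Prod.ext (b.π.nat ι y.1 h.1) rfl
    cont := fun O y h₁ h₂ h₃ => Prod.ext (b.π.cont O y.1 h₁ h₂.1 h₃.1) rfl }
  fr y φ := b.fr y.1 φ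
  θ y φ t := (b.θ y.1 φ t, y.2)
  ex y h := b.ex y.1 h.1
  fr_map ι y φ h h' := b.fr_map ι y.1 φ h.1 h'
  θ_map ι y φ t h h' := Prod.ext (b.θ_map ι y.1 φ t h.1 h') rfl
  mem y φ t h h' := ⟨⟨(b.mem y.1 φ t h.1 h').1, h.2⟩, Prod.ext (b.mem y.1 φ t h.1 h').2 rfl⟩
  surj e φ h h' := by
    obtain ⟨t, ht⟩ := b.surj e.1 φ h.1 h'
    exact ⟨t, Prod.ext ht rfl⟩
  trans y φ φ' h h₁ h₂ := by
    obtain ⟨a, c, ha, hh⟩ := b.trans y.1 φ φ' h.1 h₁ h₂
    exact ⟨a, c, ha, fun L' ι t => Prod.ext (hh L' ι t) rfl⟩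
  int O y d h h' := b.int O y.1 d h.1 h'.1
  red O y φ t d h h' h₁ h₂ :=
    ⟨fun ht => Prod.ext ((b.red O y.1 φ t d h.1 h'.1 h₁ h₂).1 ht) rfl,
      fun ht hh => (b.red O y.1 φ t d h.1 h'.1 h₁ h₂).2 ht hh.1⟩

variable {E : Sp A} {W : Sp B} {Z : Sp D} (b : Bun E W C) {j : ℕ} (φ : Fn (j + 1) (E.prod Z))

/-- The point with coordinate `T` in the frame `c`. -/
def pt {L M : Fld K} (α : L →ₐ[K] M) (y : B.pt L) (c : C.pt L) (T : M) (z : D.pt L) :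
    (A.prod D).pt M := (b.θ (B.map α y) (C.map α c) T, D.map α z)

theorem pt_map {L M M' : Fld K} (α : L →ₐ[K] M) (κ : M →ₐ[K] M') {y : B.pt L} {c : C.pt L}
    (T : M) (z : D.pt L) (hy : W.mem y) (hc : b.fr y c) :
    (A.prod D).map κ (pt b α y c T z) = pt b (κ.comp α) y c (κ T) z := by
  refine Prod.ext ?_ (D.map_comp _ _ _).symm
  show A.map κ _ = b.θ _ _ _
  rw [B.map_comp, C.map_comp]
  exact (b.θ_map κ _ _ T ((W.map_iff α y).2 hy) (b.fr_map α y c hy hc)).symm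

theorem pt_comp {L L' M : Fld K} (ι : L →ₐ[K] L') (α : L' →ₐ[K] M) (y : B.pt L) (c : C.pt L)
    (T : M) (z : D.pt L) :
    pt b α (B.map ι y) (C.map ι c) T (D.map ι z) = pt b (α.comp ι) y c T z := by
  rw [pt, pt, B.map_comp, C.map_comp, D.map_comp]

open Classical in
/-- The value at the generic point of a fibre. -/
noncomputable def val (L : Fld K) (y : (B.prod D).pt L) : ℚ :=
  if h : Good j L ∧ W.mem y.1 then
    φ.v L.rat (pt b L.toRat y.1 (b.ex y.1 h.2).choose RatFunc.X y.2) else 0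

theorem val_eq {L M : Fld K} (hL : Good j L) {α : L →ₐ[K] M} {T : M} (ht : Trans' α T)
    (hg : Gen α T) {y : B.pt L} {c : C.pt L} (hy : W.mem y) (hc : b.fr y c) (z : D.pt L) :
    φ.v M (pt b α y c T z) = val b φ L (y, z) := by
  have h : Good j L ∧ W.mem y := ⟨hL, hy⟩
  have hc0 := (b.ex y h.2).choose_spec
  refine Eq.trans ?_ (dif_pos h).symm
  obtain ⟨a, a', ha, hh⟩ := b.trans y c _ hy hc hc0
  obtain ⟨κ, hκ, hT⟩ := exists_lift (trans_rat L) (gen_rat L) (ht.affine ha a')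
  have hs : Function.Surjective κ := Gen.surj hκ (hT ▸ hg.affine ha a')
  have e := φ.ext κ (pt b L.toRat y (b.ex y h.2).choose RatFunc.X z)
    (hL.succ (trans_rat L) (gen_rat L)) (hL.succ ht hg)
  rw [pt_map b _ _ _ _ hy hc0, hκ, hT, deg_of_surj hs, Nat.cast_one, one_mul] at e
  refine Eq.trans ?_ e
  rw [pt, pt, hh]

theorem val_ne {L : Fld K} {y : (B.prod D).pt L} (h : val b φ L y ≠ 0) :
    Good j L ∧ (W.prod Z).mem y := by
  by_cases h' : Good j L ∧ W.mem y.1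
  · rw [val, dif_pos h'] at h
    exact ⟨h'.1, h'.2, (Z.map_iff _ _).1 (φ.supp _ _ h).2.2⟩
  · rw [val, dif_neg h'] at h
    exact absurd rfl h

theorem rat_lift {L L' : Fld K} (ι : L →ₐ[K] L') :
    ∃ κ : L.rat →ₐ[K] L'.rat, κ.comp L.toRat = L'.toRat.comp ι ∧ κ RatFunc.X = RatFunc.X :=
  exists_lift (trans_rat L) (gen_rat L) ((trans_rat L').comp ι)

theorem val_map {L L' : Fld K} (ι : L →ₐ[K] L') (hL' : Good j L') {y : B.pt L} {c : C.pt L}
    (hy : W.mem y) (hc : b.fr y c) (z : D.pt L') :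
    val b φ L' (B.map ι y, z) = φ.v L'.rat
      (A.map (rat_lift ι).choose (b.θ (B.map L.toRat y) (C.map L.toRat c) RatFunc.X),
        D.map L'.toRat z) := by
  obtain ⟨hκ, hT⟩ := (rat_lift ι).choose_spec
  rw [← val_eq b φ hL' (trans_rat L') (gen_rat L') ((W.map_iff ι y).2 hy) (b.fr_map ι y c hy hc),
    ← b.θ_map _ _ _ _ ((W.map_iff _ y).2 hy) (b.fr_map _ y c hy hc), ← B.map_comp, ← C.map_comp,
    hκ, hT, pt, B.map_comp, C.map_comp]

/-- The reduction of a point in an integral frame. -/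
theorem red_pt {M N : Fld K} {ρ : M →ₐ[K] N} {O : Pl M} {O' : Pl N} (h : Pl.Over ρ O O')
    (d : O'.IsDVR) {y : B.pt M} {c : C.pt M} (hy : W.mem y) (hy' : W.mem (B.red O y)) (hc : b.fr y c)
    (hc' : b.fr (B.red O y) (C.red O c)) (T : N) (z : D.pt M) :
    (T ∈ O'.O → (A.prod D).red O' (pt b ρ y c T z) =
      pt b h.resHom (B.red O y) (C.red O c) (O'.rd T) (D.red O z)) ∧
    (T ∉ O'.O → ¬ (E.prod Z).mem ((A.prod D).red O' (pt b ρ y c T z))) := by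
  have H := b.red O' (B.map ρ y) (C.map ρ c) T d ((W.map_iff ρ y).2 hy)
    (by rw [B.red_map h]; exact (W.map_iff _ _).2 hy') (b.fr_map ρ y c hy hc)
    (by rw [B.red_map h, C.red_map h]; exact b.fr_map _ _ _ hy' hc')
  refine ⟨fun hT => Prod.ext ?_ (D.red_map h z), fun hT hh => H.2 hT hh.1⟩
  have := H.1 hT
  rw [B.red_map h, C.red_map h] at this
  exact this

variable [Base K]

/-- The value at a Gauss extension. -/
theorem gauss_eq {M N : Fld K} (hM : Good (j + 1) M) {ρ : M →ₐ[K] N} {O : Pl M} {O' : Pl N}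
    (h : Pl.Over ρ O O') (hO : O.IsDiv j) {y : B.pt M} {c : C.pt M} (hy : W.mem y)
    (hy' : W.mem (B.red O y)) (hc : b.fr y c) (hc' : b.fr (B.red O y) (C.red O c)) {T : N}
    (ht : Trans' ρ T) (hg : Gen ρ T) (hT : T ∈ O'.O) (ht' : Trans' h.resHom (O'.rd T))
    (z : D.pt M) :
    O'.IsDiv (j + 1) ∧ (∀ f, O'.ord (ρ f) = O.ord f) ∧
      φ.v O'.res ((A.prod D).red O' (pt b ρ y c T z)) =
        val b φ O.res ((B.prod D).red O (y, z)) := by
  obtain ⟨O₁, h₁, m₁, t₁, g₁, d₁⟩ := Pl.exists_gauss ht hg O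
  obtain rfl : O₁ = O' := Pl.gauss_unique hg h₁ h m₁ hT t₁ ht'
  refine ⟨⟨(d₁ hO.1).1, ?_⟩, (d₁ hO.1).2, ?_⟩
  · rw [t₁.tr_eq g₁, hO.2, Nat.cast_succ]
  · rw [(red_pt b (Z := Z) h (d₁ hO.1).1 hy hy' hc hc' T z).1 hT]
    exact val_eq b φ (hO.good hM) t₁ g₁ hy' hc' _

omit [Base K] in
/-- A place with a nonzero value is trivial on the base or a Gauss extension. -/
theorem gauss_of {M N : Fld K} (hM : Good (j + 1) M) {ρ : M →ₐ[K] N} {O : Pl M} {O' : Pl N}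
    (h : Pl.Over ρ O O') (hO : O.O ≠ ⊤) (hO' : O'.IsDiv (j + 1)) {y : B.pt M} {c : C.pt M}
    (hy : W.mem y) (hc : b.fr y c) {T : N} (hg : Gen ρ T) {z : D.pt M}
    (hv : φ.v O'.res ((A.prod D).red O' (pt b ρ y c T z)) ≠ 0) :
    O.IsDiv j ∧ W.mem (B.red O y) ∧
      (b.fr (B.red O y) (C.red O c) → T ∈ O'.O ∧ Trans' h.resHom (O'.rd T)) := by
  have htr : O.res.tr = j := by
    have h1 : O.res.tr < (j + 1 : ℕ) := O.tr_res_lt hO hM.2.le
    have h2 := h.tr_res_le hg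
    rw [hO'.2] at h2
    obtain ⟨n, hn⟩ := Cardinal.lt_aleph0.1 (h1.trans Cardinal.natCast_lt_aleph0)
    rw [hn] at h1 h2 ⊢
    norm_cast at h1 h2 ⊢
    omega
  have hm := b.mem (B.map ρ y) (C.map ρ c) T ((W.map_iff ρ y).2 hy) (b.fr_map ρ y c hy hc)
  have hE : E.mem (A.red O' (b.θ (B.map ρ y) (C.map ρ c) T)) := (φ.supp _ _ hv).2.1
  have hy' : W.mem (B.red O y) := by
    have h1 := b.π.mem _ hE
    rw [b.π.cont O' _ hO'.1 hm.1 hE, hm.2, B.red_map h] at h1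
    exact (W.map_iff _ _).1 h1
  refine ⟨⟨h.isDVR hO'.1 hO, htr⟩, hy', fun hc' => ?_⟩
  have H := red_pt b (Z := Z) h hO'.1 hy hy' hc hc' T z
  have hT : T ∈ O'.O := by
    by_contra hT
    exact H.2 hT (φ.supp _ _ hv).2
  refine ⟨hT, ?_⟩
  by_contra ht
  obtain ⟨M₁, α, κ, T₁, hκ, hT₁, hg₁⟩ := exists_gen h.resHom (O'.rd T)
  have hf : Fin' α := hg₁.fin fun h' => ht (by rw [← hκ, ← hT₁]; exact Trans'.of_map.2 h')
  apply hv
  rw [H.1 hT, ← hκ, ← hT₁, ← pt_map b _ _ _ _ hy' hc']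
  refine φ.low κ _ ?_
  rw [hf.tr_eq, htr]
  exact_mod_cast Nat.lt_succ_self j

/-- The Gauss extension for an integral frame. -/
def Rel {M N : Fld K} (ρ : M →ₐ[K] N) (y : B.pt M) (e : A.pt N) (O : Pl M) (O' : Pl N) : Prop :=
  ∃ (h : Pl.Over ρ O O') (c : C.pt M) (T : N), W.mem (B.red O y) ∧ b.fr y c ∧
    b.fr (B.red O y) (C.red O c) ∧ b.θ (B.map ρ y) (C.map ρ c) T = e ∧ Trans' ρ T ∧ Gen ρ T ∧
    T ∈ O'.O ∧ Trans' h.resHom (O'.rd T)

omit [Base K] in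
theorem exists_int {M N : Fld K} {ρ : M →ₐ[K] N} {y : B.pt M} {c : C.pt M} (hy : W.mem y)
    (hc : b.fr y c) {T : N} (ht : Trans' ρ T) (hg : Gen ρ T) (O : Pl M) (d : O.IsDVR)
    (hy' : W.mem (B.red O y)) :
    ∃ (c' : C.pt M) (T' : N), b.fr y c' ∧ b.fr (B.red O y) (C.red O c') ∧
      b.θ (B.map ρ y) (C.map ρ c') T' = b.θ (B.map ρ y) (C.map ρ c) T ∧ Trans' ρ T' ∧
      Gen ρ T' := by
  obtain ⟨c', h₁, h₂⟩ := b.int O y d hy hy'
  obtain ⟨a, a', ha, hh⟩ := b.trans y c c' hy hc h₁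
  exact ⟨c', _, h₁, h₂, (hh N ρ T).symm, ht.affine ha a', hg.affine ha a'⟩

omit [Base K] in
theorem rel_of {M N : Fld K} (hM : Good (j + 1) M) {ρ : M →ₐ[K] N} {O' : Pl N}
    (hO : (Pl.comap ρ O').O ≠ ⊤) (hO' : O'.IsDiv (j + 1)) {y : B.pt M} {c : C.pt M}
    (hy : W.mem y) (hc : b.fr y c) {T : N} (ht : Trans' ρ T) (hg : Gen ρ T) {z : D.pt M}
    (hv : φ.v O'.res ((A.prod D).red O' (pt b ρ y c T z)) ≠ 0) :
    (Pl.comap ρ O').IsDiv j ∧
      Rel b ρ y (b.θ (B.map ρ y) (C.map ρ c) T) (Pl.comap ρ O') O' := by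
  obtain ⟨h₁, h₂, -⟩ := gauss_of b φ hM (Pl.over_comap ρ O') hO hO' hy hc hg hv
  obtain ⟨c', T', a₁, a₂, a₃, a₄, a₅⟩ := exists_int b hy hc ht hg _ h₁.1 h₂
  have hv' : φ.v O'.res ((A.prod D).red O' (pt b ρ y c' T' z)) ≠ 0 := by
    rw [pt, a₃]
    exact hv
  obtain ⟨a₆, a₇⟩ := (gauss_of b φ hM (Pl.over_comap ρ O') hO hO' hy a₁ a₅ hv').2.2 a₂
  exact ⟨h₁, Pl.over_comap ρ O', c', T', h₂, a₁, a₂, a₃, a₄, a₅, a₆, a₇⟩

theorem rel_eq {M N : Fld K} (hM : Good (j + 1) M) {ρ : M →ₐ[K] N} {O : Pl M} {O' : Pl N}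
    (hO : O.IsDiv j) {y : B.pt M} (hy : W.mem y) {e : A.pt N} (h : Rel b ρ y e O O')
    (z : D.pt M) :
    O'.IsDiv (j + 1) ∧ (∀ f, O'.ord (ρ f) = O.ord f) ∧
      φ.v O'.res ((A.prod D).red O' (e, D.map ρ z)) =
        val b φ O.res ((B.prod D).red O (y, z)) := by
  obtain ⟨h, c, T, a₁, a₂, a₃, rfl, a₅, a₆, a₇, a₈⟩ := h
  exact gauss_eq b φ hM h hO hy a₁ a₂ a₃ a₅ a₆ a₇ a₈ z

theorem val_rat (M : Fld K) (y : (B.prod D).pt M) (f : M) (hM : Good (j + 1) M)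
    (hy : (W.prod Z).mem y) (hf : f ≠ 0) :
    (Function.support fun O : {O : Pl M // O.IsDiv j} =>
      (O.1.ord f : ℚ) * val b φ O.1.res ((B.prod D).red O.1 y)).Finite ∧
    ∑ᶠ O : {O : Pl M // O.IsDiv j},
      (O.1.ord f : ℚ) * val b φ O.1.res ((B.prod D).red O.1 y) = 0 := by
  classical
  obtain ⟨y, z⟩ := y
  obtain ⟨c, hc⟩ := b.ex y hy.1
  have hm := b.mem (B.map M.toRat y) (C.map M.toRat c) RatFunc.X ((W.map_iff _ y).2 hy.1)
    (b.fr_map _ y c hy.1 hc)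
  have H := φ.rat M.rat (pt b M.toRat y c RatFunc.X z) (M.toRat f)
    (hM.succ (trans_rat M) (gen_rat M)) ⟨hm.1, (Z.map_iff _ z).2 hy.2⟩
    ((map_ne_zero M.toRat).2 hf)
  choose c' T' a₁ a₂ a₃ a₄ a₅ using fun O : {O : Pl M // O.IsDiv j} =>
    exists_int b hy.1 hc (trans_rat M) (gen_rat M) O.1 O.2.1
  refine transfer _ _ (fun O O' => ∃ (h : Pl.Over M.toRat O.1 O'.1) (hy' : W.mem (B.red O.1 y)),
    T' O hy' ∈ O'.1.O ∧ Trans' h.resHom (O'.1.rd (T' O hy'))) ?_ ?_ ?_ ?_ ?_ H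
  · intro O hO
    have hy' : W.mem (B.red O.1 y) := (val_ne b φ (right_ne_zero_of_mul hO)).2.1
    obtain ⟨O', h, m, t, -⟩ := Pl.exists_gauss (a₄ _ hy') (a₅ _ hy') O.1
    exact ⟨⟨O', (gauss_eq b φ hM h O.2 hy.1 hy' (a₁ _ hy') (a₂ _ hy') (a₄ _ hy') (a₅ _ hy') m t
      z).1⟩, h, hy', m, t⟩
  · intro O' hO'
    have h0 : (Pl.comap M.toRat O'.1).O ≠ ⊤ := by
      intro h0
      apply left_ne_zero_of_mul hO'
      have h1 : ∀ x : M, M.toRat x ∈ O'.1.O := fun x =>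
        (Pl.over_comap M.toRat O'.1 x).1 (h0 ▸ ValuationSubring.mem_top x)
      rw [Pl.ord_eq_zero_of_mem' O'.2.1 (h1 f) (by rw [← map_inv₀]; exact h1 _), Int.cast_zero]
    have hv := right_ne_zero_of_mul hO'
    obtain ⟨h₁, h₂, -⟩ := gauss_of b φ hM (Pl.over_comap _ O'.1) h0 O'.2 hy.1 hc (gen_rat M) hv
    have hv' : φ.v O'.1.res ((A.prod D).red O'.1 (pt b M.toRat y (c' ⟨_, h₁⟩ h₂) (T' ⟨_, h₁⟩ h₂) z)) ≠ 0 := by
      rw [pt, a₃]
      exact hv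
    exact ⟨⟨_, h₁⟩, Pl.over_comap _ O'.1, h₂,
      (gauss_of b φ hM (Pl.over_comap _ O'.1) h0 O'.2 hy.1 (a₁ ⟨_, h₁⟩ h₂) (a₅ ⟨_, h₁⟩ h₂) hv').2.2
        (a₂ ⟨_, h₁⟩ h₂)⟩
  · rintro O O' ⟨h, hy', m, t⟩
    obtain ⟨-, e₁, e₂⟩ := gauss_eq b φ hM h O.2 hy.1 hy' (a₁ _ hy') (a₂ _ hy') (a₄ _ hy')
      (a₅ _ hy') m t z
    rw [pt, a₃] at e₂
    rw [← e₁, ← e₂]
    rfl
  · rintro O O₁ O₂ ⟨h₁, hy', m₁, t₁⟩ ⟨h₂, _, m₂, t₂⟩
    exact Subtype.ext (Pl.gauss_unique (a₅ _ hy') h₁ h₂ m₁ m₂ t₁ t₂)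
  · rintro O₁ O₂ O' ⟨h₁, -⟩ ⟨h₂, -⟩
    exact Subtype.ext (h₁.eq_comap.trans h₂.eq_comap.symm)

/-- The functional on the base. -/
noncomputable def down : Fn j (W.prod Z) where
  v := val b φ
  supp _ _ h := val_ne b φ h
  ext {L L'} ι y hL hL' := by
    by_cases hy : W.mem y.1
    · obtain ⟨c, hc⟩ := b.ex y.1 hy
      obtain ⟨hκ, hT⟩ := (rat_lift ι).choose_spec
      have e := φ.ext (rat_lift ι).choose (pt b L.toRat y.1 c RatFunc.X y.2)
        (hL.succ (trans_rat L) (gen_rat L)) (hL'.succ (trans_rat L') (gen_rat L'))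
      rw [val_eq b φ hL (trans_rat L) (gen_rat L) hy hc, pt_map b _ _ _ _ hy hc, hκ, hT,
        ← pt_comp, val_eq b φ hL' (trans_rat L') (gen_rat L') ((W.map_iff ι _).2 hy)
          (b.fr_map ι _ c hy hc),
        deg_rat hκ (gen_rat L) (hT.symm ▸ trans_rat L') (hT.symm ▸ gen_rat L')] at e
      exact e
    · rw [val, val, dif_neg fun h => hy ((W.map_iff ι _).1 h.2), dif_neg fun h => hy h.2, mul_zero]
  low {L L'} ι y hL := by
    by_contra h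
    obtain ⟨h₁, h₂, -⟩ := val_ne b φ h
    have hy : W.mem y.1 := (W.map_iff ι _).1 h₂
    obtain ⟨c, hc⟩ := b.ex y.1 hy
    obtain ⟨hκ, hT⟩ := (rat_lift ι).choose_spec
    have e := φ.low (rat_lift ι).choose (pt b L.toRat y.1 c RatFunc.X y.2) (by
      rw [(trans_rat L).tr_eq (gen_rat L)]
      obtain ⟨n, hn⟩ := Cardinal.lt_aleph0.1 (hL.trans Cardinal.natCast_lt_aleph0)
      rw [hn] at hL ⊢
      norm_cast at hL ⊢
      omega)
    rw [pt_map b _ _ _ _ hy hc, hκ, hT, ← pt_comp] at e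
    exact h ((val_eq b φ h₁ (trans_rat L') (gen_rat L') h₂ (b.fr_map ι _ c hy hc) _).symm.trans e)
  rat := val_rat b φ

theorem down_kills (h : φ.Kills) : (down b φ).Kills := by
  intro L L₁ L₂ ι₁ ι₂ y z hL
  by_contra hv
  obtain ⟨h₁, h₂, -⟩ := val_ne b φ hv
  have hy : W.mem y := (W.map_iff ι₁ _).1 h₂
  obtain ⟨c, hc⟩ := b.ex y hy
  apply hv
  show val b φ L _ = 0
  rw [val_map b φ ι₁ h₁ hy hc, ← D.map_comp]
  refine h _ _ _ _ _ _ _ ?_
  rw [(trans_rat L₁).tr_eq (gen_rat L₁), add_right_comm, Nat.cast_succ]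
  exact add_le_add hL le_rfl

theorem up (h : ∀ L y, val b φ L y = 0) (L : Fld K) (e : (A.prod D).pt L) : φ.v L e = 0 := by
  by_contra hv
  obtain ⟨hL, he, hz⟩ := φ.supp _ _ hv
  obtain ⟨e, z⟩ := e
  have hy := b.π.mem e he
  obtain ⟨c, hc⟩ := b.ex _ hy
  obtain ⟨t, ht⟩ := b.surj e c he hc
  set y := b.π.f e
  have hm := b.mem (B.map L.toRat y) (C.map L.toRat c) RatFunc.X ((W.map_iff _ y).2 hy)
    (b.fr_map _ y c hy hc)
  set f : L.rat := L.toRat 1 * RatFunc.X + L.toRat (-t) with hf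
  have hf1 : Trans' L.toRat f := (trans_rat L).affine one_ne_zero _
  have hf2 : Gen L.toRat f := (gen_rat L).affine one_ne_zero _
  have hX : RatFunc.X = f + L.toRat t := by rw [hf, map_one, map_neg]; ring
  have hf0 : f ≠ 0 := fun h => hf1.ne 0 (h.trans (map_zero _).symm)
  have hN := hL.succ (trans_rat L) (gen_rat L)
  have H := (φ.rat L.rat (pt b L.toRat y c RatFunc.X z) f hN ⟨hm.1, (Z.map_iff _ z).2 hz⟩ hf0).2
  have triv : ∀ (O : Pl L.rat) (_ : O.IsDVR) (h : Pl.Triv L.toRat O),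
      (RatFunc.X ∈ O.O → (A.prod D).red O (pt b L.toRat y c RatFunc.X z) =
        pt b h.hom y c (O.rd RatFunc.X) z) ∧
      (RatFunc.X ∉ O.O → ¬ (E.prod Z).mem ((A.prod D).red O (pt b L.toRat y c RatFunc.X z))) := by
    intro O d h
    have H := b.red O (B.map L.toRat y) (C.map L.toRat c) RatFunc.X d ((W.map_iff _ y).2 hy)
      (by rw [B.red_triv h]; exact (W.map_iff _ _).2 hy) (b.fr_map _ y c hy hc)
      (by rw [B.red_triv h, C.red_triv h]; exact b.fr_map _ _ _ hy hc)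
    refine ⟨fun hT => Prod.ext ?_ (D.red_triv h z), fun hT hh => H.2 hT hh.1⟩
    have := H.1 hT
    rw [B.red_triv h, C.red_triv h] at this
    exact this
  obtain ⟨O₀, h₀, d₀, o₀, s₀⟩ := Pl.exists_zero_place hf1 hf2
  have i₀ : O₀.IsDiv (j + 1) := ⟨d₀, (Fin'.of_surj s₀).tr_eq.trans hL.2⟩
  have hinv : ∀ O : Pl L.rat, O.IsDVR → 0 < O.ord f → f⁻¹ ∉ O.O := by
    intro O d ho hh
    have := (Pl.ord_nonneg_iff d).2 hh
    rw [Pl.ord_inv d] at this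
    omega
  rw [finsum_eq_single _ ⟨O₀, i₀⟩] at H
  · obtain ⟨m, r⟩ := (Pl.ord_pos_iff d₀ hf0).1 (by omega)
    have hX' : RatFunc.X ∈ O₀.O := hX ▸ add_mem m (h₀ t)
    have hr : O₀.rd RatFunc.X = h₀.hom t := by
      rw [hX, O₀.rd_add m (h₀ t), r, zero_add, h₀.hom_apply]
    have e₁ := φ.ext h₀.hom (e, z) hL (i₀.good hN)
    have e₂ : (A.prod D).map h₀.hom (e, z) = pt b h₀.hom y c (h₀.hom t) z := by
      refine Prod.ext ?_ rfl
      show A.map h₀.hom e = _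
      rw [← ht]
      exact (b.θ_map _ _ _ _ hy hc).symm
    simp only [o₀, Int.cast_one, one_mul] at H
    rw [(triv O₀ d₀ h₀).1 hX', hr, ← e₂, e₁, deg_of_surj s₀, Nat.cast_one, one_mul] at H
    exact hv H
  · intro O hO
    by_contra hne
    have hv' := right_ne_zero_of_mul hne
    by_cases hT : Pl.Triv L.toRat O.1
    · have hX' : RatFunc.X ∈ O.1.O := by
        by_contra hX'
        exact (triv O.1 O.2.1 hT).2 hX' (φ.supp _ _ hv').2
      have m : f ∈ O.1.O := add_mem (mul_mem (hT 1) hX') (hT _)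
      have o₁ := (Pl.ord_nonneg_iff O.2.1).2 m
      have o₂ : O.1.ord f ≠ 0 := by exact_mod_cast left_ne_zero_of_mul hne
      exact hO (Subtype.ext (Pl.zero_place_unique hf1 hf2 hT h₀ (hinv _ O.2.1 (by omega))
        (hinv _ d₀ (o₀ ▸ one_pos))))
    · have h0 : (Pl.comap L.toRat O.1).O ≠ ⊤ := fun h0 => hT fun x =>
        (Pl.over_comap L.toRat O.1 x).1 (h0 ▸ ValuationSubring.mem_top x)
      obtain ⟨r₁, r₂⟩ := rel_of b φ hL h0 O.2 hy hc (trans_rat L) (gen_rat L) hv'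
      exact hv' ((rel_eq b φ hL r₁ hy r₂ z).2.2.trans (h _ _))

theorem van (b : Bun E W C) (h : Van W Z) : Van E Z := by
  intro j φ hφ L y
  cases j with
  | zero =>
    by_contra hv
    have h1 := hφ L L L (AlgHom.id K L) (AlgHom.id K L) y.1 y.2
      (by rw [(φ.supp _ _ hv).1.2]; simp)
    rw [A.map_id, D.map_id] at h1
    exact hv h1
  | succ j => exact up b φ (h j (down b φ) (down_kills b φ hφ)) L y

end CKL2

variable [Base K] {W : Sp B}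

theorem Bun.ck {E : Sp A} (b : Bun E W C) (h : CK W) : CK E :=
  fun _ _ W' _ hv => CKL2.van (CKL2.prod b W') (h _ _ W' _ hv)

end Pool.Agent.Lib.MP_557161_ag.DL
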