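import Pool.Agent.Lib.MP_557161_ag.DL.CK
import Pool.Agent.Lib.MP_557161_ag.DL.ValC

/-!
Permanence properties of the Chow-Kuenneth generation property.
-/

namespace Pool.Agent.Lib.MP_557161_ag.DL

variable {K : Type} [Field K] {A A' B C : Amb K}

/-- A bundle of affine lines, trivialised by frames. -/
structure Bun (E : Sp A) (Y : Sp B) (C : Amb K) where
  π : Mor E Y
  fr : ∀ {L : Fld K}, B.pt L → C.pt L → Prop
  θ : ∀ {L : Fld K}, B.pt L → C.pt L → L → A.pt L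
  ex : ∀ {L : Fld K} (y : B.pt L), Y.mem y → ∃ φ, fr y φ
  fr_map : ∀ {L L' : Fld K} (ι : L →ₐ[K] L') (y : B.pt L) (φ : C.pt L), Y.mem y → fr y φ →
    fr (B.map ι y) (C.map ι φ)
  θ_map : ∀ {L L' : Fld K} (ι : L →ₐ[K] L') (y : B.pt L) (φ : C.pt L) (t : L), Y.mem y → fr y φ →
    θ (B.map ι y) (C.map ι φ) (ι t) = A.map ι (θ y φ t)
  mem : ∀ {L : Fld K} (y : B.pt L) (φ : C.pt L) (t : L), Y.mem y → fr y φ →
    E.mem (θ y φ t) ∧ π.f (θ y φ t) = y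
  surj : ∀ {L : Fld K} (e : A.pt L) (φ : C.pt L), E.mem e → fr (π.f e) φ → ∃ t, θ (π.f e) φ t = e
  trans : ∀ {L : Fld K} (y : B.pt L) (φ φ' : C.pt L), Y.mem y → fr y φ → fr y φ' →
    ∃ a b : L, a ≠ 0 ∧ ∀ (L' : Fld K) (ι : L →ₐ[K] L') (t : L'),
      θ (B.map ι y) (C.map ι φ) t = θ (B.map ι y) (C.map ι φ') (ι a * t + ι b)
  int : ∀ {M : Fld K} (O : Pl M) (y : B.pt M), O.IsDVR → Y.mem y → Y.mem (B.red O y) →
    ∃ φ, fr y φ ∧ fr (B.red O y) (C.red O φ)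
  red : ∀ {M : Fld K} (O : Pl M) (y : B.pt M) (φ : C.pt M) (t : M), O.IsDVR → Y.mem y →
    Y.mem (B.red O y) → fr y φ → fr (B.red O y) (C.red O φ) →
    (t ∈ O.O → A.red O (θ y φ t) = θ (B.red O y) (C.red O φ) (O.rd t)) ∧
      (t ∉ O.O → ¬ E.mem (A.red O (θ y φ t)))

/-- An action of a commutative group on a space. -/
structure Act (H : Type) [AddCommGroup H] (Y : Sp A) where
  act : H → Mor Y Y
  zero : ∀ {L : Fld K} (y : A.pt L), Y.mem y → (act 0).f y = y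
  add : ∀ {L : Fld K} (g h : H) (y : A.pt L), Y.mem y → (act (g + h)).f y = (act g).f ((act h).f y)

/-- A level set. -/
def Sp.level (r : ∀ {L : Fld K}, A.pt L → ℕ)
    (h : ∀ {L L' : Fld K} (ι : L →ₐ[K] L') (y : A.pt L), r (A.map ι y) = r y) (n : ℕ) : Sp A :=
  ⟨fun y => r y = n, fun ι y => by rw [h]⟩

/-- The product of a map with an identity map. -/
def Mor.prod {Y : Sp A} {Y' : Sp A'} (f : Mor Y' Y) (Z : Sp B) : Mor (Y'.prod Z) (Y.prod Z) where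
  f y := (f.f y.1, y.2)
  mem y h := ⟨f.mem y.1 h.1, h.2⟩
  nat ι y h := Prod.ext (f.nat ι y.1 h.1) rfl
  cont O y hO h h' := Prod.ext (f.cont O y.1 hO h.1 h'.1) rfl

/-- The action on the first factor of a product. -/
def Act.prod {H : Type} [AddCommGroup H] {Y : Sp A} (a : Act H Y) (Z : Sp B) :
    Act H (Y.prod Z) where
  act h := (a.act h).prod Z
  zero y h := Prod.ext (a.zero y.1 h.1) rfl
  add g h y hy := Prod.ext (a.add g h y.1 hy.1) rfl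

/-- The inclusion of a subspace. -/
def Mor.incl {Y Y' : Sp A} (h : ∀ (L : Fld K) (y : A.pt L), Y'.mem y → Y.mem y) : Mor Y' Y :=
  ⟨fun y => y, fun y => h _ y, fun _ _ _ => rfl, fun _ _ _ _ _ => rfl⟩

section
variable {Y : Sp A} {Y' : Sp A'} {Z : Sp B} {j : ℕ}

theorem Mor.Proper.prod {f : Mor Y' Y} (h : f.Proper) (Z : Sp B) : (f.prod Z).Proper :=
  fun O y hO hy h' => ⟨h O y.1 hO hy.1 h'.1, h'.2⟩

theorem Mor.Surj.prod {f : Mor Y' Y} (h : f.Surj) (Z : Sp B) : (f.prod Z).Surj := by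
  intro L _ z hz
  obtain ⟨y, hy, e⟩ := h L z.1 hz.1
  exact ⟨(y, z.2), ⟨hy, hz.2⟩, Prod.ext e rfl⟩

theorem Act.proper {H : Type} [AddCommGroup H] (a : Act H Y) (h : H) : (a.act h).Proper := by
  intro M O y hO hy h'
  have e := (a.act (-h)).cont O _ hO ((a.act h).mem y hy) h'
  rw [← a.add _ _ _ hy, neg_add_cancel, a.zero y hy] at e
  exact e ▸ (a.act (-h)).mem _ h'

open Classical in
/-- The pull back of a functional along a proper map. -/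
noncomputable def Fn.pull (f : Mor Y' Y) (hp : f.Proper) (φ : Fn j Y) : Fn j Y' where
  v L y := if Y'.mem y then φ.v L (f.f y) else 0
  supp L y h := by
    split_ifs at h with hy
    · exact ⟨(φ.supp L _ h).1, hy⟩
    · exact absurd rfl h
  ext ι y h h' := by
    by_cases hy : Y'.mem y
    · rw [if_pos hy, if_pos ((Y'.map_iff ι y).2 hy), f.nat ι y hy, φ.ext ι _ h h']
    · rw [if_neg hy, if_neg fun e => hy ((Y'.map_iff ι y).1 e), mul_zero]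
  low ι y h := by
    split_ifs with hy
    · rw [f.nat ι y ((Y'.map_iff ι y).1 hy), φ.low ι _ h]
    · rfl
  rat M y g hM hy hg := by
    have e : ∀ O : {O : Pl M // O.IsDiv j},
        (if Y'.mem (A'.red O.1 y) then φ.v O.1.res (f.f (A'.red O.1 y)) else 0) =
          φ.v O.1.res (A.red O.1 (f.f y)) := fun O => by
      split_ifs with h
      · rw [f.cont O.1 y O.2.1 hy h]
      · by_contra h'
        exact h (hp O.1 y O.2.1 hy (φ.supp _ _ (Ne.symm h')).2)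
    simp only [e]
    exact φ.rat M _ g hM (f.mem y hy) hg

theorem Fn.pull_of_mem (f : Mor Y' Y) (hp : f.Proper) (φ : Fn j Y) {L : Fld K} {y : A'.pt L}
    (h : Y'.mem y) : (φ.pull f hp).v L y = φ.v L (f.f y) := if_pos h

theorem Fn.Kills.pull {φ : Fn j (Y.prod Z)} (h : φ.Kills) (f : Mor Y' Y) (hp : f.Proper) :
    (φ.pull (f.prod Z) (hp.prod Z)).Kills := by
  intro L L₁ L₂ ι₁ ι₂ y z hj
  by_contra h'
  have hm := (Fn.supp _ _ _ h').2
  rw [Fn.pull_of_mem _ _ _ hm] at h'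
  refine h' ?_
  have e := f.nat ι₁ y ((Y'.map_iff ι₁ y).1 hm.1)
  exact (congrArg (fun u => φ.v L (u, B.map ι₂ z)) e).trans (h L L₁ L₂ ι₁ ι₂ _ z hj)

theorem Fn.exists_sum {α : Type} (s : Finset α) (φ : α → Fn j Y) :
    ∃ ψ : Fn j Y, ∀ L y, ψ.v L y = ∑ a ∈ s, (φ a).v L y := by
  classical
  induction s using Finset.induction_on with
  | empty =>
    exact ⟨⟨fun _ _ => 0, fun _ _ h => absurd rfl h, fun _ _ _ _ => (mul_zero _).symm,
      fun _ _ _ => rfl, fun _ _ _ _ _ _ => by simp⟩, fun _ _ => rfl⟩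
  | insert a s ha ih =>
    obtain ⟨ψ, hψ⟩ := ih
    refine ⟨⟨fun L y => (φ a).v L y + ψ.v L y, fun L y h => ?_, fun ι y h h' => ?_,
      fun ι y h => ?_, fun M y g hM hy hg => ?_⟩, fun L y => by rw [Finset.sum_insert ha, ← hψ]⟩
    · by_cases h1 : (φ a).v L y = 0
      · exact ψ.supp L y fun h2 => h (by rw [h1, h2, add_zero])
      · exact (φ a).supp L y h1
    · rw [(φ a).ext ι y h h', ψ.ext ι y h h', mul_add]
    · rw [(φ a).low ι y h, ψ.low ι y h, add_zero]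
    · obtain ⟨h1, h2⟩ := (φ a).rat M y g hM hy hg
      obtain ⟨h3, h4⟩ := ψ.rat M y g hM hy hg
      simp only [mul_add]
      exact ⟨(h1.union h3).subset (Function.support_add _ _),
        by rw [finsum_add_distrib h1 h3, h2, h4, add_zero]⟩

namespace CKL

theorem deg_ne {L L' : Fld K} {ι : L →ₐ[K] L'} (h : Fin' ι) : (deg ι : ℚ) ≠ 0 :=
  Nat.cast_ne_zero.2 ((deg_pos_iff ι).2 h).ne'

theorem fin_lift (f : Mor Y' Y) {L : Fld K} {y : A.pt L} {w : A'.pt L.cl} (hw : Y'.mem w)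
    (e : f.f w = A.map L.toCl y) :
    ∃ (L' : Fld K) (ι : L →ₐ[K] L') (w' : A'.pt L'), Fin' ι ∧ Y'.mem w' ∧ f.f w' = A.map ι y := by
  obtain ⟨s, hs⟩ := A'.fg w
  obtain ⟨L', ι, κ, h1, h2, h3⟩ := exists_fin_sub L s
  obtain ⟨w', rfl⟩ := hs L' κ h3
  have hw' := (Y'.map_iff κ w').1 hw
  refine ⟨L', ι, w', h1, hw', A.inj κ ?_⟩
  rw [← f.nat κ w' hw', e, ← A.map_comp, h2]

theorem surj_lift {f : Mor Y' Y} (hs : f.Surj) {L : Fld K} {y : A.pt L} (hy : Y.mem y) :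
    ∃ (L' : Fld K) (ι : L →ₐ[K] L') (w' : A'.pt L'), Fin' ι ∧ Y'.mem w' ∧ f.f w' = A.map ι y := by
  obtain ⟨w, hw, e⟩ := hs L.cl _ ((Y.map_iff L.toCl y).2 hy)
  exact fin_lift f hw e

theorem fib_sum {α β : Type} (c : α → β) {F : α → ℚ} (hF : (Function.support F).Finite)
    {G : β → ℚ} (hG : ∀ b, ∑ᶠ a ∈ {a | c a = b}, F a = G b) :
    (Function.support G).Finite ∧ ∑ᶠ b, G b = ∑ᶠ a, F a := by
  classical
  have e : ∀ b, G b = ∑ a ∈ hF.toFinset with c a = b, F a := fun b => by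
    rw [← hG]
    refine finsum_mem_eq_sum_of_inter_support_eq F ?_
    ext a
    simp only [Set.mem_inter_iff, Set.mem_ofPred_eq, Finset.coe_filter, Set.Finite.mem_toFinset]
    tauto
  have hs : Function.support G ⊆ ↑(hF.toFinset.image c) := fun b hb => by
    rw [Function.mem_support, e] at hb
    obtain ⟨a, ha, -⟩ := Finset.exists_ne_zero_of_sum_ne_zero hb
    exact Finset.mem_coe.2 (Finset.mem_image.2 ⟨a, (Finset.mem_filter.1 ha).1,
      (Finset.mem_filter.1 ha).2⟩)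
  refine ⟨(Finset.finite_toSet _).subset hs, ?_⟩
  rw [finsum_eq_sum_of_support_subset G hs, finsum_eq_sum F hF]
  simp only [e]
  exact Finset.sum_fiberwise_of_maps_to (fun a ha => Finset.mem_image_of_mem c ha) F

theorem isDiv_comap {M M' : Fld K} {ι : M →ₐ[K] M'} (hι : Fin' ι) {O' : Pl M'} (h : O'.IsDiv j) :
    (Pl.comap ι O').IsDiv j :=
  have h1 := Pl.over_comap ι O'
  ⟨h1.isDVR h.1 (h1.ne_top hι h.1.ne_top), (h1.fin_res hι).tr_eq.symm.trans h.2⟩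

variable [Base K]

theorem descent {f : Mor Y' Y} (hp : f.Proper) (hs : f.Surj) (φ : Fn j Y')
    (hf : ∀ (L : Fld K) (y y' : A'.pt L), Y'.mem y → Y'.mem y' → f.f y = f.f y' →
      φ.v L y = φ.v L y') :
    ∃ ψ : Fn j Y, ∀ (L L' : Fld K) (ι : L →ₐ[K] L') (y : A.pt L) (w : A'.pt L'), Good j L →
      Fin' ι → Y'.mem w → f.f w = A.map ι y → φ.v L' w = deg ι * ψ.v L y := by
  have key : ∀ (L : Fld K) (y : A.pt L), ∃ r : ℚ, (r ≠ 0 → Good j L ∧ Y.mem y) ∧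
      ∀ (L' : Fld K) (ι : L →ₐ[K] L') (w : A'.pt L'), Good j L →
        Fin' ι → Y'.mem w → f.f w = A.map ι y → φ.v L' w = deg ι * r := by
    intro L y
    by_cases h : Good j L ∧ Y.mem y
    · obtain ⟨L₁, ι₁, w₁, a1, a2, a3⟩ := surj_lift hs h.2
      refine ⟨φ.v L₁ w₁ / deg ι₁, fun _ => h, fun L₂ ι₂ w₂ _ b1 b2 b3 => ?_⟩
      obtain ⟨N, κ₁, κ₂, c1, c2⟩ := exists_amalgam ι₁ ι₂ a1
      have c3 : Fin' (κ₁.comp ι₁) := c1 ▸ b1.comp c2
      have c4 := hf N _ _ ((Y'.map_iff κ₁ w₁).2 a2) ((Y'.map_iff κ₂ w₂).2 b2) (by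
        rw [f.nat _ _ a2, f.nat _ _ b2, a3, b3, ← A.map_comp, ← A.map_comp, c1])
      rw [φ.ext κ₁ w₁ (h.1.of_fin a1) (h.1.of_fin c3),
        φ.ext κ₂ w₂ (h.1.of_fin b1) (h.1.of_fin c3)] at c4
      have c5 : (deg ι₁ : ℚ) * deg κ₁ = deg ι₂ * deg κ₂ := by
        rw [← Nat.cast_mul, ← Nat.cast_mul, ← deg_comp, ← deg_comp, c1]
      have c6 := deg_ne a1
      refine mul_left_cancel₀ (deg_ne c2) ?_
      rw [← c4, ← mul_assoc, mul_comm (deg κ₂ : ℚ), ← c5]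
      field_simp
    · refine ⟨0, fun e => absurd rfl e, fun L' ι w a1 _ a3 a4 => absurd ⟨a1, ?_⟩ h⟩
      exact (Y.map_iff ι y).1 (a4 ▸ f.mem w a3)
  choose v h1 h2 using key
  refine ⟨⟨v, h1, fun {L L'} ι y a1 a2 => ?_, fun {L L'} ι y a1 => ?_,
    fun M y g hM hy hg => ?_⟩, fun L L' ι y w => h2 L y L' ι w⟩
  · by_cases hy : Y.mem y
    · obtain ⟨L₁, κ, w, b1, b2, b3⟩ := surj_lift hs ((Y.map_iff ι y).2 hy)
      have c1 := h2 _ _ _ κ w a2 b1 b2 b3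
      rw [h2 _ y _ (κ.comp ι) w a1 ((a2.fin ι a1.2).comp b1) b2 (by rw [b3, A.map_comp]),
        deg_comp, Nat.cast_mul, mul_comm (deg ι : ℚ), mul_assoc] at c1
      exact (mul_left_cancel₀ (deg_ne b1) c1).symm
    · rw [not_not.1 fun e => hy (h1 _ y e).2, mul_zero]
      exact not_not.1 fun e => hy ((Y.map_iff ι y).1 (h1 _ _ e).2)
  · by_contra e
    obtain ⟨L₁, ι₁, w, b1, b2, b3⟩ := surj_lift hs ((Y.map_iff ι y).1 (h1 _ _ e).2)
    obtain ⟨N, κ₁, κ₂, c1, c2⟩ := exists_amalgam ι₁ ι b1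
    have c3 := h2 _ _ _ κ₂ _ (h1 _ _ e).1 c2 ((Y'.map_iff κ₁ w).2 b2) (by
      rw [f.nat _ _ b2, b3, ← A.map_comp, ← A.map_comp, c1])
    rw [φ.low κ₁ w (b1.tr_eq ▸ a1)] at c3
    exact mul_ne_zero (deg_ne c2) e c3.symm
  · obtain ⟨M', ι, w, b1, b2, b3⟩ := surj_lift hs hy
    obtain ⟨c1, c2⟩ := φ.rat M' w (ι g) (hM.of_fin b1) b2 ((map_ne_zero ι).2 hg)
    have c3 : ∀ (O : Pl M) (O' : Pl M') (h : Pl.Over ι O O'), O.IsDiv j →
        φ.v O'.res (A'.red O' w) = deg h.resHom * v O.res (A.red O y) := fun O O' h hO => by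
      have d1 := (h.isDiv b1 hM hO).1
      have d2 : A.red O' (f.f w) = A.map h.resHom (A.red O y) := by rw [b3, A.red_map h]
      by_cases d3 : Y'.mem (A'.red O' w)
      · exact h2 _ _ _ _ _ (hO.good hM) (h.fin_res b1) d3 ((f.cont O' w d1 b2 d3).trans d2)
      · rw [not_not.1 fun e => d3 (φ.supp _ _ e).2, not_not.1 fun e => d3
          (hp O' w d1 b2 (d2 ▸ (Y.map_iff _ _).2 (h1 _ _ e).2)), mul_zero]
    obtain ⟨c4, c5⟩ := fib_sum (β := {O : Pl M // O.IsDiv j})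
      (fun O' : {O' : Pl M' // O'.IsDiv j} => ⟨Pl.comap ι O'.1, isDiv_comap b1 O'.2⟩) c1
      (G := fun O => deg ι * ((O.1.ord g : ℚ) * v O.1.res (A.red O.1 y))) fun O => by
        have d1 : Function.Injective fun O' : {O' : Pl M' // Pl.Over ι O.1 O'} =>
            (⟨O'.1, O'.2.isDiv b1 hM O.2⟩ : {O' : Pl M' // O'.IsDiv j}) :=
          fun _ _ e => Subtype.ext (congrArg Subtype.val e :)
        have d2 := Pl.sum_ord_nrm b1 hM O.2 ((map_ne_zero ι).2 hg)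
        have : Finite {O' : Pl M' // Pl.Over ι O.1 O'} := Pl.finite_over b1 hM O.2
        have := Fintype.ofFinite {O' : Pl M' // Pl.Over ι O.1 O'}
        rw [nrm_map, Pl.ord_pow O.2.1, finsum_eq_sum_of_fintype] at d2
        refine (finsum_mem_congr (t := Set.range _) ?_ fun _ _ => rfl).trans
          ((finsum_mem_range d1).trans ?_)
        · ext O'
          exact ⟨fun e => ⟨⟨O'.1, e ▸ Pl.over_comap ι O'.1⟩, rfl⟩,
            by rintro ⟨O'', rfl⟩; exact Subtype.ext O''.2.eq_comap.symm⟩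
        · rw [finsum_eq_sum_of_fintype, ← mul_assoc, ← Int.cast_natCast, ← Int.cast_mul, ← d2,
            Int.cast_sum, Finset.sum_mul]
          refine Finset.sum_congr rfl fun O' _ => ?_
          rw [c3 O.1 O'.1 O'.2 O.2, Int.cast_mul, Int.cast_natCast, mul_assoc]
    have c6 := c4.subset (Function.support_subset_iff.2 fun O (h : (O.1.ord g : ℚ) *
      v O.1.res (A.red O.1 y) ≠ 0) => Function.mem_support.2 (mul_ne_zero (deg_ne b1) h))
    rw [c2, ← mul_finsum] at c5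
    exact ⟨c6, (mul_eq_zero.1 c5).resolve_left (deg_ne b1)⟩

theorem van_descent {f : Mor Y' Y} (hp : f.Proper) (hs : f.Surj) (h : Van Y Z)
    (φ : Fn j (Y'.prod Z)) (hk : φ.Kills)
    (hf : ∀ (L : Fld K) (y y' : A'.pt L) (z : B.pt L), Y'.mem y → Y'.mem y' → Z.mem z →
      f.f y = f.f y' → φ.v L (y, z) = φ.v L (y', z)) (L : Fld K) (p : (A'.prod B).pt L) :
    φ.v L p = 0 := by
  obtain ⟨ψ, hψ⟩ := descent (hp.prod Z) (hs.prod Z) φ fun L y y' a1 a2 e => by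
    obtain ⟨y, z⟩ := y
    obtain ⟨y', z'⟩ := y'
    obtain rfl : z = z' := congrArg Prod.snd e
    exact hf L y y' z a1.1 a2.1 a1.2 (congrArg Prod.fst e)
  have hk' : ψ.Kills := fun L L₁ L₂ ι₁ ι₂ y z hj => by
    by_contra e
    obtain ⟨a1, a2, a3⟩ := ψ.supp _ _ e
    obtain ⟨L', ι, w, b1, b2, b3⟩ := surj_lift hs ((Y.map_iff ι₁ y).1 a2)
    obtain ⟨N, κ₁, κ₂, c1, c2⟩ := exists_amalgam ι ι₁ b1
    have c3 := hψ L N κ₂ (A.map ι₁ y, B.map ι₂ z) (A'.map κ₁ w, B.map (κ₂.comp ι₂) z) a1 c2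
      ⟨(Y'.map_iff κ₁ w).2 b2, (Z.map_iff _ z).2 ((Z.map_iff ι₂ z).1 a3)⟩
      (Prod.ext (show f.f (A'.map κ₁ w) = A.map κ₂ (A.map ι₁ y) by
        rw [f.nat _ _ b2, b3, ← A.map_comp, ← A.map_comp, c1]) (B.map_comp _ _ _))
    rw [hk N L' L₂ κ₁ _ w z (b1.tr_eq ▸ hj)] at c3
    exact mul_ne_zero (deg_ne c2) e c3.symm
  by_contra e
  obtain ⟨a1, a2⟩ := φ.supp _ _ e
  refine e ((hψ L L (AlgHom.id K L) _ p a1 (Fin'.of_surj Function.surjective_id) a2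
    ((A.prod B).map_id _).symm).trans ?_)
  rw [h j ψ hk', mul_zero]

omit [Base K] in
theorem van_family {α : Type} {B' : α → Amb K} {W : ∀ a, Sp (B' a)} (f : ∀ a, Mor (W a) Y)
    (hp : ∀ a, (f a).Proper)
    (hs : ∀ (L : Fld K) [IsAlgClosed L] (y : A.pt L), Y.mem y → ∃ a z, (W a).mem z ∧ (f a).f z = y)
    (h : ∀ a, Van (W a) Z) : Van Y Z := by
  rintro j φ hk L ⟨y, z⟩
  by_contra e
  obtain ⟨a1, a2, a3⟩ := φ.supp _ _ e
  obtain ⟨a, w, b1, b2⟩ := hs L.cl _ ((Y.map_iff L.toCl y).2 a2)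
  obtain ⟨L', ι, w', c1, c2, c3⟩ := fin_lift (f a) b1 b2
  have d1 := (Fn.pull_of_mem _ _ _ (by exact ⟨c2, (Z.map_iff ι z).2 a3⟩)).symm.trans
    (h a j _ (hk.pull (f a) (hp a)) L' (w', B.map ι z))
  refine mul_ne_zero (deg_ne c1) e ((φ.ext ι (y, z) a1 (a1.of_fin c1)).symm.trans ?_)
  exact (congrArg (fun u => φ.v L' (u, B.map ι z)) c3.symm).trans d1

omit [Base K] in
theorem van_image (f : Mor Y' Y) (hp : f.Proper) (hs : f.Surj) (h : Van Y' Z) : Van Y Z :=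
  van_family (α := Unit) (fun _ => f) (fun _ => hp) (fun L _ y hy => ⟨(), hs L y hy⟩) fun _ => h

omit [Base K] in
theorem van_closed {Y₁ Y₂ : Sp A} (i₁ : ∀ (L : Fld K) (y : A.pt L), Y₁.mem y → Y.mem y)
    (hp : (Mor.incl i₁).Proper) (i₂ : ∀ (L : Fld K) (y : A.pt L), Y₂.mem y → Y.mem y)
    (hc : ∀ (L : Fld K) (y : A.pt L), Y.mem y → ¬ Y₁.mem y → Y₂.mem y) (h₁ : Van Y₁ Z)
    (h₂ : Van Y₂ Z) : Van Y Z := by
  intro j φ hk
  refine h₂ j ⟨φ.v, fun L y e => ?_, φ.ext, φ.low, fun M y g hM hy hg =>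
    φ.rat M y g hM ⟨i₂ _ _ hy.1, hy.2⟩ hg⟩ hk
  obtain ⟨a1, a2, a3⟩ := φ.supp _ _ e
  refine ⟨a1, hc _ _ a2 fun a4 => e ?_, a3⟩
  have := h₁ j _ (hk.pull _ hp) L y
  rwa [Fn.pull_of_mem _ _ _ (by exact ⟨a4, a3⟩)] at this

omit [Base K] in
theorem van_open {Y₂ : Sp A} (i₂ : ∀ (L : Fld K) (y : A.pt L), Y₂.mem y → Y.mem y)
    (hc : ∀ (M : Fld K) (O : Pl M) (y : A.pt M), O.IsDVR → Y.mem y → Y₂.mem (A.red O y) →
      Y₂.mem y) (h : Van Y Z) : Van Y₂ Z := by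
  intro j φ hk
  refine h j ⟨φ.v, fun L y e => ?_, φ.ext, φ.low, fun M y g hM hy hg => ?_⟩ hk
  · obtain ⟨a1, a2, a3⟩ := φ.supp _ _ e
    exact ⟨a1, i₂ _ _ a2, a3⟩
  · by_cases h2 : Y₂.mem y.1
    · exact φ.rat M y g hM ⟨h2, hy.2⟩ hg
    · have e : ∀ O : {O : Pl M // O.IsDiv j}, φ.v O.1.res ((A.prod B).red O.1 y) = 0 := fun O =>
        not_not.1 fun e => h2 (hc M O.1 y.1 O.2.1 hy.1 (φ.supp _ _ e).2.1)
      simp [e]

theorem van_kr {H : Type} [AddCommGroup H] [Finite H] (a : Act H Y) {α : Type} [Fintype α]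
    (S : α → AddSubgroup H) [∀ i, DecidablePred (· ∈ S i)] [DecidableEq H] (c : α → ℚ) (c₀ : ℚ)
    (h₀ : c₀ ≠ 0) (hc : ∀ h, (∑ i, if h ∈ S i then c i else 0) = if h = 0 then c₀ else 0)
    {B' : α → Amb K} {W : ∀ i, Sp (B' i)} (f : ∀ i, Mor Y (W i)) (hp : ∀ i, (f i).Proper)
    (hs : ∀ i, (f i).Surj)
    (hf : ∀ i (L : Fld K) (y y' : A.pt L), Y.mem y → Y.mem y' → (f i).f y = (f i).f y' →
      ∃ h ∈ S i, (a.act h).f y = y')
    (h : ∀ i, Van (W i) Z) : Van Y Z := by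
  rintro j φ hk L ⟨y, z⟩
  have := Fintype.ofFinite H
  by_contra e
  have hm := (φ.supp _ _ e).2
  have key : ∀ i, ∑ g with g ∈ S i, φ.v L ((a.act g).f y, z) = 0 := fun i => by
    obtain ⟨ψ, hψ⟩ := Fn.exists_sum (Finset.univ.filter (· ∈ S i))
      fun g => φ.pull ((a.act g).prod Z) (Mor.Proper.prod (a.proper g) Z)
    have e1 : ∀ (L : Fld K) (y : A.pt L) (z : B.pt L), Y.mem y → Z.mem z →
        ψ.v L (y, z) = ∑ g with g ∈ S i, φ.v L ((a.act g).f y, z) := fun L y z h1 h2 =>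
      (hψ _ _).trans (Finset.sum_congr rfl fun g _ => Fn.pull_of_mem _ _ _ ⟨h1, h2⟩)
    rw [← e1 L y z hm.1 hm.2]
    refine van_descent (hp i) (hs i) (h i) ψ (fun L L₁ L₂ ι₁ ι₂ y z hj => ?_)
      (fun L y y' z a1 a2 a3 a4 => ?_) L (y, z)
    · exact (hψ _ _).trans (Finset.sum_eq_zero fun g _ =>
        hk.pull (a.act g) (a.proper g) L L₁ L₂ ι₁ ι₂ y z hj)
    · obtain ⟨g, hg, rfl⟩ := hf i L y y' a1 a2 a4
      rw [e1 L y z a1 a3, e1 L _ z a2 a3]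
      refine (Finset.sum_equiv (Equiv.addRight g) (fun k => ?_) fun k _ => ?_).symm
      · simp [(S i).add_mem_cancel_right hg]
      · rw [Equiv.coe_addRight, a.add k g y a1]
  have e2 : ∑ i, c i * ∑ g with g ∈ S i, φ.v L ((a.act g).f y, z) =
      ∑ g, (if g = 0 then c₀ else 0) * φ.v L ((a.act g).f y, z) := by
    simp only [← hc, Finset.sum_filter, Finset.mul_sum, Finset.sum_mul]
    rw [Finset.sum_comm]
    refine Finset.sum_congr rfl fun g _ => Finset.sum_congr rfl fun i _ => ?_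
    split_ifs <;> simp
  simp only [key, mul_zero, Finset.sum_const_zero, ite_mul, zero_mul, Finset.sum_ite_eq',
    Finset.mem_univ, if_true, a.zero y hm.1] at e2
  exact mul_ne_zero h₀ e e2.symm

end CKL

end

variable [Base K] {Y Y' Z : Sp A} {W : Sp B}

set_option linter.unusedSectionVars false

theorem van_point (W : Sp B) : Van (Sp.point K) W := by
  rintro j φ hk L ⟨u, z⟩
  by_contra e
  refine e ?_
  have := hk L (Fld.base K) L (Algebra.ofId K L) (AlgHom.id K L) u z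
    (by rw [tr_base, zero_add, (φ.supp _ _ e).1.2])
  rwa [B.map_id] at this

/-- A jointly surjective family of proper maps. -/
theorem CK.family {α : Type} {B : α → Amb K} {W : ∀ a, Sp (B a)} (f : ∀ a, Mor (W a) Y)
    (hp : ∀ a, (f a).Proper)
    (hs : ∀ (L : Fld K) [IsAlgClosed L] (y : A.pt L), Y.mem y → ∃ a z, (W a).mem z ∧ (f a).f z = y)
    (h : ∀ a, CK (W a)) : CK Y := fun _ _ U V hV =>
  CKL.van_family (fun a => (f a).prod U) (fun a => Mor.Proper.prod (hp a) U) (fun L _ y hy =>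
    let ⟨a, z, h1, h2⟩ := hs L y.1 hy.1; ⟨a, (z, y.2), ⟨h1, hy.2⟩, Prod.ext h2 rfl⟩)
    fun a => h a _ _ U V hV

theorem CK.image (f : Mor W Y) (hp : f.Proper) (hs : f.Surj) (h : CK W) : CK Y :=
  fun _ _ U V hV => CKL.van_image (f.prod U) (hp.prod U) (hs.prod U) (h _ _ U V hV)

theorem CK.congr (h : CK Y) (e : ∀ (L : Fld K) (y : A.pt L), Y.mem y ↔ Y'.mem y) : CK Y' :=
  h.image (Mor.incl fun L y => (e L y).1) (fun _ _ _ _ h => (e _ _).2 h)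
    fun L _ y hy => ⟨y, (e L y).2 hy, rfl⟩

theorem CK.of_closed (hc : Z.Closed Y) (h₁ : CK (Y.inter Z)) (h₂ : CK (Y.diff Z)) : CK Y :=
  fun _ _ U V hV => CKL.van_closed (Y₁ := (Y.inter Z).prod U) (Y₂ := (Y.diff Z).prod U)
    (fun _ _ h => ⟨h.1.1, h.2⟩)
    (fun O y hO h h' => ⟨⟨h'.1, hc O y.1 hO h.1.1 h.1.2 h'.1⟩, h'.2⟩) (fun _ _ h => ⟨h.1.1, h.2⟩)
    (fun _ _ h h' => ⟨⟨h.1, fun e => h' ⟨⟨h.1, e⟩, h.2⟩⟩, h.2⟩) (h₁ _ _ U V hV) (h₂ _ _ U V hV)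

theorem CK.open (hc : Z.Closed Y) (h : CK Y) : CK (Y.diff Z) :=
  fun _ _ U V hV => CKL.van_open (Y := Y.prod U) (fun _ _ h => ⟨h.1.1, h.2⟩)
    (fun _ O y hO h h' => ⟨⟨h.1, fun e => h'.1.2 (hc O y.1 hO h.1 e h'.1.1)⟩, h.2⟩) (h _ _ U V hV)

theorem CK.strata (r : ∀ {L : Fld K}, A.pt L → ℕ)
    (hr : ∀ {L L' : Fld K} (ι : L →ₐ[K] L') (y : A.pt L), r (A.map ι y) = r y)
    (hc : ∀ {M : Fld K} (O : Pl M) (y : A.pt M), O.IsDVR → Y.mem y → Y.mem (A.red O y) →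
      r y ≤ r (A.red O y))
    (N : ℕ) (hN : ∀ (L : Fld K) (y : A.pt L), Y.mem y → r y ≤ N)
    (h : ∀ n, CK (Y.inter (Sp.level r hr n))) : CK Y := by
  have key : ∀ n : ℕ, CK (Y.inter ⟨fun y => r y < n, fun ι y => by rw [hr]⟩) := fun n => by
    induction n with
    | zero =>
      exact fun _ _ _ _ _ _ φ _ L y => not_not.1 fun e =>
        Nat.not_lt_zero _ (φ.supp L y e).2.1.1.2
    | succ n ih =>
      refine CK.of_closed (Z := Sp.level r hr n) (fun O y hO a1 a2 a3 => ?_)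
        ((h n).congr fun L y => ⟨fun a => ⟨⟨a.1, (le_of_eq a.2).trans_lt n.lt_succ_self⟩, a.2⟩,
          fun a => ⟨a.1.1, a.2⟩⟩)
        (ih.congr fun L y => ⟨fun a => ⟨⟨a.1, Nat.lt_succ_of_lt a.2⟩, ne_of_lt a.2⟩,
          fun a => ⟨a.1.1, lt_of_le_of_ne (Nat.le_of_lt_succ a.1.2) a.2⟩⟩)
      exact le_antisymm (Nat.le_of_lt_succ a3.2) ((le_of_eq (Eq.symm a2)).trans
        (hc O y hO a1.1 a3.1))
  exact (key (N + 1)).congr fun L y => ⟨fun a => a.1, fun a => ⟨a, Nat.lt_succ_of_le (hN L y a)⟩⟩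

/-- Descent along a universal homeomorphism. -/
theorem CK.of_bij (f : Mor W Y) (hi : f.Inj) (hp : f.Proper) (hs : f.Surj) (h : CK Y) : CK W :=
  fun _ _ U V hV _ φ hk => CKL.van_descent (hp.prod U) (hs.prod U) (h _ _ U V hV) φ hk
    fun L y y' z a1 a2 _ e => congrArg (fun u => φ.v L (u, z))
      (Prod.ext (hi L y.1 y'.1 a1.1 a2.1 (congrArg Prod.fst e)) (congrArg Prod.snd e :))

theorem CK.prod (h : CK Y) (h' : CK W) : CK (Y.prod W) := fun _ _ U V hV =>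
  CKL.van_image (Y' := Y.prod (W.prod U))
    ⟨fun y => ((y.1, y.2.1), y.2.2), fun _ h => ⟨⟨h.1, h.2.1⟩, h.2.2⟩, fun _ _ _ => rfl,
      fun _ _ _ _ _ => rfl⟩ (fun _ _ _ _ h => ⟨h.1.1, h.1.2, h.2⟩)
    (fun _ _ y hy => ⟨(y.1.1, y.1.2, y.2), ⟨hy.1.1, hy.1.2, hy.2⟩, rfl⟩)
    (h _ _ _ V (h' _ _ U V hV))

theorem ck_point : CK (Sp.point K) := fun _ _ U _ hV =>
  CKL.van_image (Y' := U) ⟨fun y => ((), y), fun _ h => ⟨trivial, h⟩, fun _ _ _ => rfl,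
    fun _ _ _ _ _ => rfl⟩ (fun _ _ _ _ h => h.2) (fun _ _ y hy => ⟨y.2, hy.2, rfl⟩) hV

theorem CK.van (h : CK Y) : Van Y Y :=
  CKL.van_image (Y' := Y.prod (Sp.point K)) ⟨fun y => y.1, fun _ h => h.1, fun _ _ _ => rfl,
    fun _ _ _ _ _ => rfl⟩ (fun _ _ _ _ h => ⟨h, trivial⟩)
    (fun _ _ y hy => ⟨(y, ()), ⟨hy, trivial⟩, rfl⟩) (h _ _ _ _ (van_point Y))

/-- A space whose points are constant. -/
theorem CK.of_const (h : ∀ (L : Fld K) [IsAlgClosed L] (y : A.pt L), Y.mem y →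
    ∃ y₀ : A.pt (Fld.base K), A.map (L := Fld.base K) (Algebra.ofId K L) y₀ = y) : CK Y := by
  refine CK.family (α := {y₀ : A.pt (Fld.base K) // Y.mem y₀}) (W := fun _ => Sp.point K)
    (fun a => ⟨fun {L} _ => A.map (L := Fld.base K) (Algebra.ofId K L) a.1,
      fun _ _ => (Y.map_iff _ _).2 a.2, fun ι _ _ => ?_, fun {M} O _ _ _ _ => ?_⟩)
    (fun _ _ _ _ _ _ _ => trivial) (fun L _ y hy => ?_) fun _ => ck_point
  · rw [← A.map_comp]
    exact congrArg (A.map · a.1) (Subsingleton.elim _ _)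
  · rw [A.red_triv (L := Fld.base K) (ι := Algebra.ofId K M) O.const]
    exact congrArg (A.map · a.1) (Subsingleton.elim _ _)
  · obtain ⟨y₀, rfl⟩ := h L y hy
    exact ⟨⟨y₀, (Y.map_iff _ _).1 hy⟩, (), trivial, rfl⟩

/-- Descent from quotients by a family of subgroups with an idempotent relation. -/
theorem CK.kani_rosen {H : Type} [AddCommGroup H] [Finite H] (a : Act H Y) {α : Type} [Fintype α]
    (S : α → AddSubgroup H) [∀ i, DecidablePred (· ∈ S i)] [DecidableEq H] (c : α → ℚ) (c₀ : ℚ)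
    (h₀ : c₀ ≠ 0) (hc : ∀ h, (∑ i, if h ∈ S i then c i else 0) = if h = 0 then c₀ else 0)
    {B : α → Amb K} {W : ∀ i, Sp (B i)} (f : ∀ i, Mor Y (W i)) (hp : ∀ i, (f i).Proper)
    (hs : ∀ i, (f i).Surj)
    (hf : ∀ i (L : Fld K) (y y' : A.pt L), Y.mem y → Y.mem y' → (f i).f y = (f i).f y' →
      ∃ h ∈ S i, (a.act h).f y = y')
    (h : ∀ i, CK (W i)) : CK Y := fun _ _ U V hV =>
  CKL.van_kr (a.prod U) S c c₀ h₀ hc (fun i => (f i).prod U) (fun i => Mor.Proper.prod (hp i) U)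
    (fun i => Mor.Surj.prod (hs i) U) (fun i L y y' a1 a2 e =>
      let ⟨g, h1, h2⟩ := hf i L y.1 y'.1 a1.1 a2.1 (congrArg Prod.fst e)
      ⟨g, h1, Prod.ext h2 (congrArg Prod.snd e :)⟩) fun i => h i _ _ U V hV

end Pool.Agent.Lib.MP_557161_ag.DL
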