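import Pool.Agent.Lib.MP_557161_ag.DL.TwoD

/-!
Restriction to the graph of Frobenius.
-/

namespace Pool.Agent.Lib.MP_557161_ag.DL

open MvPolynomial Filter
open Pool.Agent.Lib.MP_60ec62_ag.DL (dm dv cyc DimLE Cyc cm)

namespace Cmp

section General

variable {K : Type} [Field K] {τ Γ τ' Γ' : Type} [AddCommMonoid Γ] [AddCommMonoid Γ']
  {w : τ → Γ} {w' : τ' → Γ'}

/-- A semilinear map that is bijective on the parts of large degree. -/
structure Rel (P : Pb K w w') (l : Filter Γ) (N : GMod K w) (M : GMod K w')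
    (θ : N.V →ₗ[K] M.V) : Prop where
  smul : ∀ (f : MvPolynomial τ K) v, θ (f • v) = P.φ f • θ v
  part : ∀ a, ∀ v ∈ N.part a, θ v ∈ M.part (P.ρ a)
  ev : ∀ᶠ a in l, (∀ v ∈ N.part a, θ v = 0 → v = 0) ∧
    ∀ u ∈ M.part (P.ρ a), ∃ v ∈ N.part a, θ v = u

variable {P : Pb K w w'} {l : Filter Γ}

lemma Rel.hf_eq {N : GMod K w} {M : GMod K w'} {θ : N.V →ₗ[K] M.V} (h : Rel P l N M θ) :
    ∀ᶠ a in l, hf N a = hf M (P.ρ a) := by
  filter_upwards [h.ev] with a ha
  have hb : Function.Bijective (θ.restrict (h.part a)) := by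
    constructor
    · rw [injective_iff_map_eq_zero]
      intro v hv
      exact Subtype.ext (ha.1 v v.2 (congrArg Subtype.val hv))
    · intro u
      obtain ⟨v, hv, e⟩ := ha.2 u u.2
      exact ⟨⟨v, hv⟩, Subtype.ext e⟩
  unfold hf
  rw [(LinearEquiv.ofBijective _ hb).finrank_eq]

lemma mem_part_quot {N : GMod K w} {U : Submodule (MvPolynomial τ K) N.V} {hU : N.Hmg U} {a : Γ}
    {x : (N.quot U hU).V} :
    x ∈ (N.quot U hU).part a ↔ ∃ v ∈ N.part a, Submodule.Quotient.mk v = x := by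
  constructor
  · intro h
    obtain ⟨v, rfl⟩ := Submodule.Quotient.mk_surjective U x
    exact ⟨N.π a v, N.π_mem_part a v, h⟩
  · rintro ⟨v, hv, rfl⟩
    show N.quotπ U hU a _ = Submodule.Quotient.mk v
    rw [GMod.quotπ_mk, GMod.mem_part.1 hv]

lemma Rel.quot {N₀ N₁ : GMod K w} {M₀ M₁ : GMod K w'} {θ₀ : N₀.V →ₗ[K] M₀.V}
    {θ₁ : N₁.V →ₗ[K] M₁.V} (h₀ : Rel P l N₀ M₀ θ₀) (h₁ : Rel P l N₁ M₁ θ₁) (f : GHom N₁ N₀)
    (g : GHom M₁ M₀) (hc : ∀ v, θ₀ (f.f v) = g.f (θ₁ v)) :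
    ∃ θ, Rel P l (N₀.quot _ f.hmg_range) (M₀.quot _ g.hmg_range) θ := by
  have hle : (LinearMap.range f.f).restrictScalars K ≤
      ((LinearMap.range g.f).restrictScalars K).comap θ₀ := by
    rintro _ ⟨v, rfl⟩
    exact ⟨θ₁ v, (hc v).symm⟩
  let θ : (N₀.quot _ f.hmg_range).V →ₗ[K] (M₀.quot _ g.hmg_range).V :=
    ((Submodule.Quotient.restrictScalarsEquiv K (LinearMap.range g.f)).toLinearMap ∘ₗ
      Submodule.mapQ _ _ θ₀ hle) ∘ₗ
      (Submodule.Quotient.restrictScalarsEquiv K (LinearMap.range f.f)).symm.toLinearMap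
  have hθ : ∀ v : N₀.V, θ (Submodule.Quotient.mk v) = Submodule.Quotient.mk (θ₀ v) :=
    fun _ => rfl
  refine ⟨θ, fun r x => ?_, fun a x hx => ?_, ?_⟩
  · obtain ⟨v, rfl⟩ := Submodule.Quotient.mk_surjective (LinearMap.range f.f) x
    have e : θ (Submodule.Quotient.mk (r • v)) = Submodule.Quotient.mk (P.φ r • θ₀ v) := by
      rw [hθ, h₀.smul]
    exact e
  · obtain ⟨v, hv, rfl⟩ := mem_part_quot.1 hx
    exact mem_part_quot.2 ⟨θ₀ v, h₀.part a v hv, (hθ v).symm⟩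
  · filter_upwards [h₀.ev, h₁.ev] with a ha₀ ha₁
    constructor
    · intro x hx h
      obtain ⟨v, hv, rfl⟩ := mem_part_quot.1 hx
      rw [hθ] at h
      obtain ⟨u, hu⟩ := (Submodule.Quotient.mk_eq_zero _).1 h
      obtain ⟨v₁, hv₁, e⟩ := ha₁.2 _ (M₁.π_mem_part (P.ρ a) u)
      have h1 : f.f v₁ ∈ N₀.part a := by
        rw [GMod.mem_part, ← f.comm, GMod.mem_part.1 hv₁]
      have h2 : θ₀ (v - f.f v₁) = 0 := by
        rw [map_sub, hc, e, g.comm, hu, GMod.mem_part.1 (h₀.part a v hv), sub_self]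
      have h3 := ha₀.1 _ (Submodule.sub_mem _ hv h1) h2
      exact (Submodule.Quotient.mk_eq_zero _).2 ⟨v₁, (sub_eq_zero.1 h3).symm⟩
    · intro y hy
      obtain ⟨u, hu, rfl⟩ := mem_part_quot.1 hy
      obtain ⟨v, hv, rfl⟩ := ha₀.2 u hu
      exact ⟨_, mem_part_quot.2 ⟨v, hv, rfl⟩, hθ v⟩

lemma mem_part_pi {β : Type} [Fintype β] {N : β → GMod K w} {a : Γ} {v : (GMod.pi N).V} :
    v ∈ (GMod.pi N).part a ↔ ∀ b, v b ∈ (N b).part a := funext_iff

lemma theta_hom {A B : Type} [AddCommGroup A] [AddCommGroup B] [IsCancelAdd Γ] (h : A →+ B)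
    (F : Cx K w) (c : ℕ) (Λ : GMod K w → A) (N : GMod K w) :
    F.theta c (fun N => h (Λ N)) N = h (F.theta c Λ N) := by
  simp only [Cx.theta, map_add, map_sum, map_zsmul]

lemma map_free (F : Cx K w) (P : Pb K w w') (i : ℕ) :
    (F.map P).free i = (F.free i).map P := by
  simp only [Cx.free, Pres.free, Pres.map, Cx.map]
  congr 1
  · funext c; exact c.elim
  · funext b c; exact c.elim

lemma map_map {τ'' Γ'' : Type} [AddCommMonoid Γ''] {w'' : τ'' → Γ''} (F : Cx K w)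
    (P : Pb K w w') (P' : Pb K w' w'') (P'' : Pb K w w'') (hρ : ∀ a, P'.ρ (P.ρ a) = P''.ρ a)
    (hφ : ∀ f, P'.φ (P.φ f) = P''.φ f) : (F.map P).map P' = F.map P'' := by
  simp only [Cx.map]
  congr 1
  · funext i b; exact hρ _
  · funext i b c; exact hφ _

lemma map_map_id (F : Cx K w) (P : Pb K w w') (P' : Pb K w' w) (hρ : ∀ a, P'.ρ (P.ρ a) = a)
    (hφ : ∀ f, P'.φ (P.φ f) = f) : (F.map P).map P' = F := by
  cases F
  simp only [Cx.map]
  congr 1
  · funext i b; exact hρ _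
  · funext i b c; exact hφ _

variable [IsCancelAdd Γ] [IsCancelAdd Γ']

lemma mem_part_shift {N : GMod K w} {g b : Γ} {v : N.V} :
    v ∈ (N.shift g).part (g + b) ↔ v ∈ N.part b := by
  show (N.shift g).π (g + b) v = v ↔ N.π b v = v
  rw [GMod.shift_π_add]
  exact Iff.rfl

lemma Rel.shift (hl : ∀ g, Filter.map (g + ·) l = l) {N : GMod K w} {M : GMod K w'}
    {θ : N.V →ₗ[K] M.V} (h : Rel P l N M θ) (g : Γ) :
    Rel P l (N.shift g) (M.shift (P.ρ g)) θ := by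
  refine ⟨h.smul, fun a v hv => ?_, ?_⟩
  · by_cases ha : ∃ b, g + b = a
    · obtain ⟨b, rfl⟩ := ha
      rw [map_add]
      exact mem_part_shift.2 (h.part b v (mem_part_shift.1 hv))
    · have e : v = 0 := (GMod.mem_part.1 hv).symm.trans (N.shift_π_of_not ha v)
      rw [e, map_zero]
      exact Submodule.zero_mem _
  · rw [← hl g, Filter.eventually_map]
    filter_upwards [h.ev] with b hb
    refine ⟨fun v hv => hb.1 v (mem_part_shift.1 hv), fun u hu => ?_⟩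
    rw [map_add] at hu
    obtain ⟨v, hv, e⟩ := hb.2 u (mem_part_shift.1 hu)
    exact ⟨v, mem_part_shift.2 hv, e⟩

lemma Rel.fr (hl : ∀ g, Filter.map (g + ·) l = l) {N : GMod K w} {M : GMod K w'}
    {θ : N.V →ₗ[K] M.V} (h : Rel P l N M θ) {β : Type} [Fintype β] (d : β → Γ) :
    Rel P l (N.fr d) (M.fr (P.ρ ∘ d)) (θ.compLeft β) := by
  refine ⟨fun f v => funext fun b => h.smul f (v b), fun a v hv => mem_part_pi.2 fun b =>
    (h.shift hl (d b)).part a _ (mem_part_pi.1 hv b), ?_⟩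
  filter_upwards [Filter.eventually_all.2 fun b => (h.shift hl (d b)).ev] with a ha
  refine ⟨fun v hv e => funext fun b => (ha b).1 _ (mem_part_pi.1 hv b) (congrFun e b),
    fun u hu => ?_⟩
  choose v hv e using fun b => (ha b).2 _ (mem_part_pi.1 hu b)
  exact ⟨v, mem_part_pi.2 hv, funext e⟩

lemma Rel.coker (hl : ∀ g, Filter.map (g + ·) l = l) {N : GMod K w} {M : GMod K w'}
    {θ : N.V →ₗ[K] M.V} (h : Rel P l N M θ) (A : Pres K w) :
    ∃ θ', Rel P l (A.coker N) ((A.map P).coker M) θ' := by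
  refine (h.fr hl A.d₀).quot (h.fr hl A.d₁) (matHom N A.hom) (matHom M (A.map P).hom) fun v => ?_
  funext b
  show θ (∑ c, A.D b c • (show N.V from v c)) = ∑ c, P.φ (A.D b c) • θ (v c)
  rw [map_sum]
  exact Finset.sum_congr rfl fun c _ => h.smul _ _

lemma theta_ev (F : Cx K w) (c : ℕ) {Λ : GMod K w → Γ → ℤ} {Λ' : GMod K w' → Γ' → ℤ}
    {N : GMod K w} {M : GMod K w'}
    (h : ∀ A : Pres K w, ∀ᶠ a in l, Λ (A.coker N) a = Λ' ((A.map P).coker M) (P.ρ a)) :
    ∀ᶠ a in l, F.theta c Λ N a = (F.map P).theta c Λ' M (P.ρ a) := by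
  filter_upwards [(Filter.eventually_all_finset (Finset.range c)).2 fun i _ => h (F.free i),
    h (F.pres c)] with a h1 h2
  simp only [Cx.theta, Pi.add_apply, Finset.sum_apply, Pi.smul_apply, map_free]
  rw [h2, Finset.sum_congr rfl fun i hi => by rw [h1 i hi]]
  rfl

end General

end Cmp

variable {K : Type} [Field K] {σ : Type} [Finite σ]

/-- The substitution `x = y ^ Q`. -/
noncomputable def pbG (K σ : Type) [Field K] (Q : ℕ) : Pb K (w2 σ σ) (w1 σ) where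
  ψ := Sum.elim (fun s => X s ^ Q) X
  ρ := { toFun := fun a => Q * (ofLex a).1 + (ofLex a).2
         map_zero' := by simp
         map_add' := fun a b => by
           show Q * ((ofLex a).1 + (ofLex b).1) + ((ofLex a).2 + (ofLex b).2) = _
           ring }
  hom := by
    rintro (s | s)
    · simpa [w2, w1] using (isWeightedHomogeneous_X K (w1 σ) s).pow Q
    · simpa [w2, w1] using isWeightedHomogeneous_X K (w1 σ) s

namespace Cmp

omit [Finite σ] in
lemma par_monomial (Y : Sm K σ) (Q : ℕ) (m : σ ⊕ σ →₀ ℕ) (c : K) :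
    Y.par Q (monomial m c) = Polynomial.X ^ (ofLex (Finsupp.weight (w2 σ σ) m)).1 *
      Polynomial.C (Ideal.Quotient.mk Y.I ((pbG K σ Q).φ (monomial m c))) := by
  induction m using Finsupp.induction_linear generalizing c with
  | zero =>
    have e : (monomial (0 : σ ⊕ σ →₀ ℕ) c : MvPolynomial (σ ⊕ σ) K) = algebraMap K _ c := rfl
    rw [e, AlgHom.commutes, AlgHom.commutes, map_zero]
    simp only [show (ofLex (0 : N2)).1 = 0 from rfl, pow_zero, one_mul]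
    rfl
  | add f g hf hg =>
    have e : (monomial (f + g) c : MvPolynomial (σ ⊕ σ) K) = monomial f c * monomial g 1 := by
      rw [monomial_mul, mul_one]
    rw [e, map_mul, hf, hg, map_add, map_mul, map_mul, map_mul]
    have e2 : (ofLex (Finsupp.weight (w2 σ σ) f + Finsupp.weight (w2 σ σ) g)).1 =
      (ofLex (Finsupp.weight (w2 σ σ) f)).1 + (ofLex (Finsupp.weight (w2 σ σ) g)).1 := rfl
    rw [e2]; ring
  | single i n =>
    have e : (monomial (Finsupp.single i n) c : MvPolynomial (σ ⊕ σ) K) =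
        algebraMap K _ c * X i ^ n := by
      rw [X_pow_eq_monomial, MvPolynomial.algebraMap_eq, C_mul_monomial, mul_one]
    have e0 : algebraMap K (Polynomial (MvPolynomial σ K ⧸ Y.I)) c =
        Polynomial.C (Ideal.Quotient.mk Y.I (algebraMap K _ c)) := rfl
    rw [e, map_mul, map_mul, AlgHom.commutes, AlgHom.commutes, map_pow, map_pow, e0,
      Finsupp.weight_single]
    cases i with
    | inl s =>
      have e2 : (ofLex (n • w2 σ σ (Sum.inl s))).1 = n := by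
        show n • 1 = n
        simp
      rw [e2]
      simp only [Sm.par, pbG, aeval_X, Sum.elim_inl, map_mul, map_pow]
      ring
    | inr s =>
      have e2 : (ofLex (n • w2 σ σ (Sum.inr s))).1 = 0 := by
        show n • 0 = 0
        simp
      rw [e2]
      simp only [Sm.par, pbG, aeval_X, Sum.elim_inr, map_mul, map_pow]
      ring

omit [Finite σ] in
lemma par_hom (Y : Sm K σ) (Q : ℕ) {f : MvPolynomial (σ ⊕ σ) K} {a : N2}
    (hf : f.IsWeightedHomogeneous (w2 σ σ) a) :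
    Y.par Q f = Polynomial.X ^ (ofLex a).1 *
      Polynomial.C (Ideal.Quotient.mk Y.I ((pbG K σ Q).φ f)) := by
  conv_lhs => rw [f.as_sum]
  conv_rhs => rw [f.as_sum]
  simp only [map_sum, Finset.mul_sum]
  refine Finset.sum_congr rfl fun m hm => ?_
  rw [par_monomial, hf (mem_support_iff.1 hm)]

omit [Finite σ] in
lemma eval_par (Y : Sm K σ) (Q : ℕ) (f : MvPolynomial (σ ⊕ σ) K) :
    (Y.par Q f).eval 1 = Ideal.Quotient.mk Y.I ((pbG K σ Q).φ f) := by
  conv_lhs => rw [f.as_sum]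
  conv_rhs => rw [f.as_sum]
  simp only [map_sum, Polynomial.eval_finsetSum]
  refine Finset.sum_congr rfl fun m _ => ?_
  rw [par_monomial]; simp

omit [Finite σ] in
lemma weight_w1 (m : σ →₀ ℕ) : Finsupp.weight (w1 σ) m = ∑ s ∈ m.support, m s := by
  simp [Finsupp.weight_apply, Finsupp.sum, w1]

lemma lift_monomial {Q : ℕ} (hQ : 0 < Q) (a b : ℕ) (hb : Q * Nat.card σ ≤ b) (m : σ →₀ ℕ) (c : K)
    (hm : Finsupp.weight (w1 σ) m = Q * a + b) :
    ∃ f : MvPolynomial (σ ⊕ σ) K, f.IsWeightedHomogeneous (w2 σ σ) (toLex (a, b)) ∧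
      (pbG K σ Q).φ f = monomial m c := by
  induction a generalizing m with
  | zero =>
    have h1 : (monomial m c : MvPolynomial σ K).IsWeightedHomogeneous (w1 σ) b :=
      isWeightedHomogeneous_monomial _ _ _ (by simpa using hm)
    refine ⟨_, (pbR K σ σ).map_hom h1, ?_⟩
    have : (pbG K σ Q).φ.comp (pbR K σ σ).φ = AlgHom.id K _ := by
      ext s : 1
      simp [pbG, pbR]
    exact DFunLike.congr_fun this _
  | succ a ih =>
    have hs : ∃ s, Q ≤ m s := by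
      by_contra h
      push Not at h
      have := Fintype.ofFinite σ
      have h1 : ∑ s ∈ m.support, m s ≤ m.support.card • Q :=
        Finset.sum_le_card_nsmul _ _ _ fun s _ => (h s).le
      have h2 : m.support.card ≤ Nat.card σ := by
        rw [Nat.card_eq_fintype_card]; exact Finset.card_le_univ _
      rw [← weight_w1, hm, smul_eq_mul] at h1
      nlinarith
    obtain ⟨s, hs⟩ := hs
    obtain ⟨m', rfl⟩ : ∃ m', m = Finsupp.single s Q + m' :=
      exists_add_of_le (Finsupp.single_le_iff.2 hs)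
    obtain ⟨f, hf, e⟩ := ih m' (by
      rw [map_add, Finsupp.weight_single] at hm
      simp only [w1, smul_eq_mul, mul_one] at hm
      rw [mul_add] at hm
      omega)
    refine ⟨X (Sum.inl s) * f, ?_, ?_⟩
    · have h1 := (isWeightedHomogeneous_X K (w2 σ σ) (Sum.inl s)).mul hf
      have e2 : w2 σ σ (Sum.inl s) + toLex (a, b) = toLex (a + 1, b) := by
        show toLex (1 + a, 0 + b) = _
        rw [add_comm 1 a, zero_add]
      rwa [e2] at h1
    · rw [map_mul, e]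
      simp only [pbG, aeval_X, Sum.elim_inl]
      rw [X_pow_eq_monomial, monomial_mul, one_mul]

lemma lift_hom {Q : ℕ} (hQ : 0 < Q) (a b : ℕ) (hb : Q * Nat.card σ ≤ b) {g : MvPolynomial σ K}
    (hg : g.IsWeightedHomogeneous (w1 σ) (Q * a + b)) :
    ∃ f : MvPolynomial (σ ⊕ σ) K, f.IsWeightedHomogeneous (w2 σ σ) (toLex (a, b)) ∧
      (pbG K σ Q).φ f = g := by
  have h : ∀ m : g.support, ∃ f : MvPolynomial (σ ⊕ σ) K,
      f.IsWeightedHomogeneous (w2 σ σ) (toLex (a, b)) ∧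
        (pbG K σ Q).φ f = monomial m.1 (coeff m.1 g) :=
    fun m => lift_monomial hQ a b hb _ _ (hg (mem_support_iff.1 m.2))
  choose f hf e using h
  refine ⟨∑ m, f m, IsWeightedHomogeneous.sum _ _ _ fun m _ => hf m, ?_⟩
  rw [map_sum]
  simp only [e]
  rw [Finset.sum_coe_sort g.support fun m => monomial m (coeff m g)]
  exact g.as_sum.symm

lemma mem_part_poly {τ Γ : Type} [AddCommMonoid Γ] {w : τ → Γ} {a : Γ} {f : MvPolynomial τ K} :
    f ∈ (GMod.poly K w).part a ↔ f.IsWeightedHomogeneous w a := by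
  classical
  constructor
  · intro h
    rw [← GMod.mem_part.1 h]
    exact weightedHomogeneousComponent_isWeightedHomogeneous a f
  · intro h
    show weightedHomogeneousComponent w a f = f
    rw [weightedHomogeneousComponent_of_mem (n := a) h, if_pos rfl]

lemma rel_gr (Y : Sm K σ) {Q : ℕ} (hQ : 0 < Q) :
    ∃ θ, Rel (pbG K σ Q) l2 (GMod.cyc (Y.gr Q) (Y.gr_hom Q)) Y.C1.R θ := by
  have hle : ∀ f ∈ Y.gr Q, ((Ideal.Quotient.mkₐ K Y.I).comp (pbG K σ Q).φ) f = 0 := by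
    intro f hf
    have h := eval_par Y Q f
    rw [show Y.par Q f = 0 from hf, Polynomial.eval_zero] at h
    exact h.symm
  let θ : (GMod.cyc (Y.gr Q) (Y.gr_hom Q)).V →ₗ[K] Y.C1.R.V :=
    (Ideal.Quotient.liftₐ (Y.gr Q) _ hle).toLinearMap
  have hθ : ∀ f : MvPolynomial (σ ⊕ σ) K,
      θ (Submodule.Quotient.mk f) = Submodule.Quotient.mk ((pbG K σ Q).φ f) := fun _ => rfl
  refine ⟨θ, fun r x => ?_, fun a x hx => ?_, ?_⟩
  · obtain ⟨v, rfl⟩ := Submodule.Quotient.mk_surjective (Y.gr Q) x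
    have e : θ (Submodule.Quotient.mk (r * v)) =
        Submodule.Quotient.mk ((pbG K σ Q).φ r * (pbG K σ Q).φ v) := by
      rw [hθ, map_mul]
    exact e
  · obtain ⟨v, hv, rfl⟩ := mem_part_quot.1 hx
    exact mem_part_quot.2 ⟨_, mem_part_poly.2 ((pbG K σ Q).map_hom (mem_part_poly.1 hv)),
      (hθ v).symm⟩
  · rw [l2, Filter.eventually_map]
    filter_upwards [Filter.eventually_ge_atTop ((0, Q * Nat.card σ) : ℕ × ℕ)] with a ha
    constructor
    · intro x hx h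
      obtain ⟨v, hv, rfl⟩ := mem_part_quot.1 hx
      have h1 : Ideal.Quotient.mk Y.I ((pbG K σ Q).φ v) = 0 := (hθ v).symm.trans h
      refine (Submodule.Quotient.mk_eq_zero _).2 ?_
      show Y.par Q v = 0
      rw [par_hom Y Q (mem_part_poly.1 hv), h1, map_zero, mul_zero]
    · intro y hy
      obtain ⟨u, hu, rfl⟩ := mem_part_quot.1 hy
      obtain ⟨f, hf, rfl⟩ := lift_hom hQ a.1 a.2 ha.2 (mem_part_poly.1 hu)
      exact ⟨_, mem_part_quot.2 ⟨f, mem_part_poly.2 hf, rfl⟩, hθ f⟩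

lemma dimLE_quot {τ : Type} [Finite τ] {J : Ideal (MvPolynomial τ K)}
    {a : PrimeSpectrum (MvPolynomial τ K)}
    (h : ∀ q : PrimeSpectrum (MvPolynomial τ K), J ≤ q.asIdeal → a ≤ q) :
    DimLE K (MvPolynomial τ K) (dm K a) (MvPolynomial τ K ⧸ J) := by
  intro q hq
  rcases (h q ((MP_60ec62_ag.DL.CycA.mem_supp _ _).1 hq)).eq_or_lt with e | e
  · rw [e]
  · exact ((MP_60ec62_ag.DL.hD K).1 _ _ _ e).le

omit [Finite σ] in
lemma tendsto_rho (Q : ℕ) : Tendsto (pbG K σ Q).ρ l2 atTop := by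
  rw [l2, Filter.tendsto_map'_iff]
  refine tendsto_atTop_mono (f := fun a : ℕ × ℕ => a.2) (fun a => Nat.le_add_left _ _) ?_
  rw [← Filter.prod_atTop_atTop_eq]
  exact tendsto_snd

lemma theta_theta_mu {τ Γ : Type} [AddCommMonoid Γ] [IsCancelAdd Γ] {w : τ → Γ} (F G : Cx K w)
    (c c' : ℕ) (l : Filter Γ) (N : GMod K w) :
    G.theta c' (F.theta c (mu l)) N = ((G.theta c' (F.theta c hf) N : Γ → ℤ) : Germ l ℤ) := by
  have e : F.theta c (mu l) =
      fun N => (Germ.coeRingHom l).toAddMonoidHom (F.theta c hf N) :=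
    funext fun N => F.theta_mu c l N
  rw [e, theta_hom]
  rfl

end Cmp

namespace Sm

variable (Y : Sm K σ)

/-- In large bidegrees a cokernel on the graph is the cokernel of the substituted matrix. -/
theorem hf_coker_gr {Q : ℕ} (hQ : 0 < Q) (A : Pres K (w2 σ σ)) :
    ∀ᶠ a in l2, hf (A.coker (GMod.cyc (Y.gr Q) (Y.gr_hom Q))) a =
      hf ((A.map (pbG K σ Q)).coker Y.C1.R) ((pbG K σ Q).ρ a) := by
  obtain ⟨θ, h⟩ := Cmp.rel_gr Y hQ
  obtain ⟨θ', h'⟩ := h.coker Y.C2.map_add A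
  exact h'.hf_eq

theorem hf_coker_coker_gr {Q : ℕ} (hQ : 0 < Q) (A B : Pres K (w2 σ σ)) :
    ∀ᶠ a in l2, hf (A.coker (B.coker (GMod.cyc (Y.gr Q) (Y.gr_hom Q)))) a =
      hf ((A.map (pbG K σ Q)).coker ((B.map (pbG K σ Q)).coker Y.C1.R)) ((pbG K σ Q).ρ a) := by
  obtain ⟨θ, h⟩ := Cmp.rel_gr Y hQ
  obtain ⟨θ', h'⟩ := h.coker Y.C2.map_add B
  obtain ⟨θ'', h''⟩ := h'.coker Y.C2.map_add A
  exact h''.hf_eq

variable {p : ℕ} [FBar K p] [IsAlgClosed K]

/-- The intersection of the graph of Frobenius with a product. -/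
theorem bil_gr {m : ℕ} (hI : DefOver (p ^ m) Y.I) (a b : PrimeSpectrum (MvPolynomial σ K))
    (ha : Y.C1.HP a) (hb : Y.C1.HP b) (h : dm K a + dm K b = Y.d + 2) :
    Y.C2.bil (Finsupp.single (bxP (cm (expand (p ^ m)) a) b) 1) (Y.grC (p ^ m)) =
      (((p ^ m) ^ (Y.d + 1 - dm K a) : ℕ) : ℚ) * Y.C1.ip a b := by
  have hQ : 0 < p ^ m := pow_pos (FBar.prime (K := K)).pos m
  set a₀ := cm (expand (p ^ m)) a with ha₀
  have hp₀ : Y.C1.HP a₀ := (Y.C1.hp_cm_iff hI a).2 ha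
  by_cases hr : ¬ Y.C1.Rel a
  · have h1 : ¬ Y.C2.Rel (bxP a₀ b) := by
      rintro ⟨_, ⟨s, t, rfl⟩, hf⟩
      refine hr ((Y.C1.rel_cm_iff (m := m) a).1 ⟨X s, ⟨s, rfl⟩, fun hs => hf ?_⟩)
      refine Ideal.mul_mem_right _ _ (Ideal.mem_sup_left ?_)
      rw [← rename_X Sum.inl s]
      exact Ideal.mem_map_of_mem _ hs
    rw [Y.C1.ip_symm, Y.C1.ip_of_not_rel b hr, Y.C2.bil_symm, Ctx.bil,
      Finsupp.linearCombination_apply, Finsupp.sum, LinearMap.sum_apply]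
    simp only [LinearMap.smul_apply, Finsupp.linearCombination_single,
      Y.C2.ip_of_not_rel _ h1]
    simp
  replace hr := not_not.1 hr
  have hd₀ : dm K a₀ = dm K a := dm_cm_expand hQ a
  have hdb : dm K (bxP a₀ b) = Y.d + 2 := by rw [dm_bxP, hd₀, h]
  obtain ⟨F, hF⟩ := exists_cycRes Y.hI (Set.range X) hp₀.1 hp₀.2
  obtain ⟨G, hG⟩ := exists_cycRes Y.hI (Set.range X) hb.1 hb.2
  -- the side of the scheme itself
  have hφ : (frobPb K (w1 σ) (p ^ m)).φ = expand (p ^ m) := frobPb_φ _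
  have hIm : Y.I.map (frobPb K (w1 σ) (p ^ m)).φ ≤ Y.I := by rw [hφ]; exact hI.map_le hQ
  have hF' := hF.map (frobPb K (w1 σ) (p ^ m)) hIm (Y.C1.frob_qex hI hF.cx hF.ex)
  rw [hφ] at hF'
  have hJ : WHomog (w1 σ) (Y.I ⊔ a₀.asIdeal.map (expand (p ^ m) : MvPolynomial σ K →ₐ[K] _)) :=
    Y.hI.sup hp₀.1.map_expand
  have qF := Y.et.qproj hF'.cx hF'.ex
  have aR : Adm Y.I Y.C1.R := adm_cyc Y.hI le_rfl
  have ab : Adm Y.I (GMod.cyc b.asIdeal hb.1) := adm_cyc hb.1 hb.2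
  have hL := Y.C1.mu_addF.theta qF
  obtain ⟨c1, c2⟩ := Y.C1.chi_bil (M := GMod.cyc _ hJ) (N := GMod.cyc b.asIdeal hb.1)
    (δ₁ := dm K a) (δ₂ := dm K b) (adm_cyc hJ le_sup_left) ab
    (Cmp.dimLE_quot fun q hq => le_of_map_cm_le m a q (le_sup_right.trans hq))
    (Cmp.dimLE_quot fun q hq => hq) h
  have e1 : cyc K (dm K a) (GMod.cyc _ hJ).V =
      Finsupp.single a (((p ^ m) ^ (Y.d + 1 - dm K a) : ℕ) : ℚ) :=
    Y.C1.cyc_frob_pull hI ha.2 hr
  have e2 : cyc K (dm K b) (GMod.cyc b.asIdeal hb.1).V = Finsupp.single b 1 :=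
    MP_60ec62_ag.DL.CycA.cyc_self (MP_60ec62_ag.DL.hD K).1 b
  rw [e1, e2, Ctx.bil, Finsupp.linearCombination_single, LinearMap.smul_apply,
    Finsupp.linearCombination_single, one_smul, smul_eq_mul] at c2
  rw [Y.C1.chi_eq (hF'.resolves Y.hI hJ) qF ab,
    ← hL.congr (aR.coker (G.pres 0)) (hG.resolves Y.hI hb.1).iso,
    Cx.tele hL hG.cx aR hG.ex (Y.d + 1), Cmp.theta_theta_mu] at c1
  -- the side of the square
  have aN : Adm (bx Y.I Y.I) (GMod.cyc (Y.gr (p ^ m)) (Y.gr_hom _)) :=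
    adm_cyc _ (Y.le_gr hQ hI)
  have aM : Adm (bx Y.I Y.I) (GMod.cyc (bx a₀.asIdeal b.asIdeal) (hp₀.1.bx hb.1)) :=
    adm_cyc _ (sup_le_sup (Ideal.map_mono hp₀.2) (Ideal.map_mono hb.2))
  obtain ⟨-, d2⟩ := Y.C2.chi_bil (δ₁ := Y.d + 2) (δ₂ := Y.d + 2) aM aN
    (hdb ▸ Cmp.dimLE_quot (a := bxP a₀ b) fun q hq => hq) (Y.dimLE_gr _)
    (by show _ = Y.d + 1 + (Y.d + 1) + 2; omega)
  have e3 : cyc K (Y.d + 2) (GMod.cyc (bx a₀.asIdeal b.asIdeal) (hp₀.1.bx hb.1)).V =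
      Finsupp.single (bxP a₀ b) 1 :=
    hdb ▸ MP_60ec62_ag.DL.CycA.cyc_self (MP_60ec62_ag.DL.hD K).1 (bxP a₀ b)
  rw [e3] at d2
  refine d2.symm.trans (Eq.trans ?_ c2)
  congr 1
  refine Y.C2.ci_eq ?_
  rw [Y.chi_bx hp₀.1 hb.1 hF hG aN, Cmp.theta_theta_mu]
  have m1 : (F.map (pbL K σ σ)).map (pbG K σ (p ^ m)) = F.map (frobPb K (w1 σ) (p ^ m)) := by
    refine Cmp.map_map _ _ _ _ (fun n => rfl) fun f => ?_
    have : (pbG K σ (p ^ m)).φ.comp (pbL K σ σ).φ = (frobPb K (w1 σ) (p ^ m)).φ := by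
      ext s : 1
      simp [pbG, pbL, frobPb]
    exact DFunLike.congr_fun this _
  have m2 : (G.map (pbR K σ σ)).map (pbG K σ (p ^ m)) = G := by
    refine Cmp.map_map_id _ _ _ (fun n => zero_add n) fun f => ?_
    have : (pbG K σ (p ^ m)).φ.comp (pbR K σ σ).φ = AlgHom.id K _ := by
      ext s : 1
      simp [pbG, pbR]
    exact DFunLike.congr_fun this _
  have ev := Cmp.theta_ev (P := pbG K σ (p ^ m)) (l := l2) (G.map (pbR K σ σ)) (Y.d + 1)
    (Λ := (F.map (pbL K σ σ)).theta (Y.d + 1) hf)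
    (Λ' := ((F.map (pbL K σ σ)).map (pbG K σ (p ^ m))).theta (Y.d + 1) hf)
    (N := GMod.cyc (Y.gr (p ^ m)) (Y.gr_hom _)) (M := Y.C1.R) fun B =>
      Cmp.theta_ev _ _ fun A => Y.hf_coker_coker_gr hQ A B
  rw [m1, m2] at ev
  have c3 := (Cmp.tendsto_rho (K := K) (σ := σ) (p ^ m)).eventually (Germ.coe_eq.1 c1)
  refine Germ.coe_eq.2 ?_
  filter_upwards [ev, c3] with x h1 h2
  exact h1.trans h2

end Sm

end Pool.Agent.Lib.MP_557161_ag.DL
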