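import Pool.Agent.Lib.MP_557161_ag.DL.Defs

/-!
The two conclusions: smoothness with well defined intersection numbers, and the equality of the
order of the zeta function with the rank of the cycles modulo numerical equivalence.
-/

namespace Pool.Agent.Lib.MP_557161_ag.DL

open MvPolynomial Filter

variable {k : Type} [Field k] {σ : Type}

/-- `Proj (k[X] / I)` is smooth of pure dimension `d`, graded free resolutions exist and the
Euler characteristics that define the intersection numbers are eventually constant. -/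
def SmProj (I : Ideal (MvPolynomial σ k)) (d : ℕ) : Prop :=
  Homog I ∧ (∀ s, Algebra.Smooth k (Chart I s)) ∧
    (∀ P ∈ I.minimalPrimes, ringKrullDim (MvPolynomial σ k ⧸ P) = (d + 1 : ℕ)) ∧
    (∀ (i : ℕ) (P : Var I i), Nonempty (Res I P.1)) ∧
    ∀ i n : ℕ, i + n = d → ∀ (P : Var I i) (Q : Var I n) (F : Res I P.1),
      ∀ᶠ m in atTop, F.chi Q.1 d m = F.inter Q.1 d

/-- `ζ` is a meromorphic function on the plane that is given for `Re s > d` by the series that
defines the zeta function of `Proj (k[X] / I)`; `L m` is an extension of `k` of degree `m + 1`. -/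
def IsZeta (I : Ideal (MvPolynomial σ k)) (d : ℕ) (L : ℕ → Type) [∀ m, Field (L m)]
    [∀ m, Algebra k (L m)] (ζ : ℂ → ℂ) : Prop :=
  Meromorphic ζ ∧ ∀ s : ℂ, (d : ℝ) < s.re → ζ s = Complex.exp (∑' m : ℕ,
    (points I (L m) : ℂ) * (Nat.card k : ℂ) ^ (-((m + 1 : ℕ) : ℂ) * s) / (m + 1 : ℕ))

/-- The order of `ζ` at `n` is minus the rank of the cycles of codimension `n` modulo numerical
equivalence; there are no cycles of codimension `n > d`. -/
def TateOrd (I : Ideal (MvPolynomial σ k)) (d : ℕ) (ζ : ℂ → ℂ) : Prop :=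
  (∀ i n : ℕ, i + n = d → ∀ F : ∀ P : Var I i, Res I P.1, ∃ ρ : ℕ,
    Module.rank ℤ (Num I i n F) = ρ ∧ meromorphicOrderAt ζ n = (-(ρ : ℤ) : ℤ)) ∧
  ∀ n : ℕ, d < n → meromorphicOrderAt ζ n = 0

end Pool.Agent.Lib.MP_557161_ag.DL
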