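import Pool.Agent.Lib.MP_557161_ag.DL.Link
import Pool.Agent.Lib.MP_557161_ag.DL.Defs2

/-!
Unions of irreducible components of a smooth projective scheme.
-/

namespace Pool.Agent.Lib.MP_557161_ag.DL

open MvPolynomial TensorProduct

namespace Comp

open Model Model.ModelC

lemma exists_idem (A B : Type) [CommRing A] [IsDomain A] [IsIntegrallyClosed A] [CommRing B]
    [Algebra A B] [Algebra.Etale A B] (x : B) :
    ∃ (e y : B) (c : A), c ≠ 0 ∧ algebraMap A B c * e = x * y ∧ x * e = x := by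
  let F := FractionRing A
  have hi : Function.Injective (Algebra.TensorProduct.includeLeft : B →ₐ[A] B ⊗[A] F) :=
    Algebra.TensorProduct.includeLeft_injective (IsFractionRing.injective A F)
  have h1 : IsReduced (F ⊗[A] B) := Algebra.FormallyUnramified.isReduced_of_field F _
  have h2 : Module.Finite F (F ⊗[A] B) := Algebra.FormallyUnramified.finite_of_free F _
  have h3 : IsArtinianRing (F ⊗[A] B) := IsArtinianRing.of_finite F _
  let E := Algebra.TensorProduct.comm A F B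
  obtain ⟨y, hy⟩ : ∃ y : B ⊗[A] F, (x ⊗ₜ 1) * ((x ⊗ₜ 1) * y) = x ⊗ₜ 1 := by
    obtain ⟨n, y, hy⟩ := IsArtinian.exists_pow_succ_smul_dvd ((1 : F) ⊗ₜ[A] x) (1 : F ⊗[A] B)
    generalize hz : (1 : F) ⊗ₜ[A] x = z at hy
    simp only [smul_eq_mul, mul_one, Nat.succ_eq_add_one] at hy
    have h4 : z * (z * y) = z := by
      rw [← sub_eq_zero]
      refine IsNilpotent.eq_zero ⟨n + 1, ?_⟩
      have : (z * (z * y) - z) ^ (n + 1) = (z ^ (n + 1) * y - z ^ n) * (z * (z * y - 1) ^ n) := by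
        rw [show z * (z * y) - z = z * (z * y - 1) by ring, mul_pow]
        ring
      rw [this, hy, sub_self, zero_mul]
    refine ⟨E y, ?_⟩
    have h5 : E z = x ⊗ₜ 1 := by rw [← hz]; rfl
    rw [← h5, ← map_mul, ← map_mul, h4]
  have hint : IsIntegral B ((x ⊗ₜ[A] (1 : F)) * y) := by
    refine ⟨Polynomial.X ^ 2 - Polynomial.X, ?_, ?_⟩
    · refine Polynomial.monic_X_pow_sub (Polynomial.degree_X_le.trans_lt ?_)
      norm_num
    · rw [Polynomial.eval₂_sub, Polynomial.eval₂_pow, Polynomial.eval₂_X, pow_two,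
        mul_right_comm, hy, sub_self]
  obtain ⟨t, ht⟩ := (toIntegralClosure_bijective_of_smooth (R := A) (S := B) (B := F)).2 ⟨_, hint⟩
  obtain ⟨e, he⟩ : ∃ e : B, e ⊗ₜ[A] (1 : F) = (x ⊗ₜ 1) * y := by
    rw [show (x ⊗ₜ[A] (1 : F)) * y = (toIntegralClosure A B F t).1 from
      (congrArg Subtype.val ht).symm]
    clear ht
    induction t with
    | zero => exact ⟨0, by simp⟩
    | add a b ha hb =>
      obtain ⟨a', ha⟩ := ha
      obtain ⟨b', hb⟩ := hb
      exact ⟨a' + b', by rw [add_tmul, ha, hb, map_add]; rfl⟩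
    | tmul a b =>
      obtain ⟨c, hc⟩ := IsIntegrallyClosed.algebraMap_eq_of_integral (R := A) (K := F) b.2
      refine ⟨c • a, ?_⟩
      change _ = a ⊗ₜ[A] b.1
      rw [smul_tmul, ← hc, Algebra.algebraMap_eq_smul_one]
  obtain ⟨c, y₀, hc, hy₀⟩ : ∃ (c : A) (y₀ : B), c ≠ 0 ∧ c • y = y₀ ⊗ₜ 1 := by
    clear he ht hint hy
    induction y with
    | zero => exact ⟨1, 0, one_ne_zero, by simp⟩
    | add a b ha hb =>
      obtain ⟨c, a', hc, ha⟩ := ha
      obtain ⟨d, b', hd, hb⟩ := hb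
      refine ⟨c * d, d • a' + c • b', mul_ne_zero hc hd, ?_⟩
      rw [smul_add, add_tmul, ← smul_tmul', ← smul_tmul', ← ha, ← hb, smul_smul, smul_smul,
        mul_comm d c]
    | tmul a b =>
      obtain ⟨⟨u, v⟩, huv⟩ := IsLocalization.surj (nonZeroDivisors A) b
      refine ⟨v, u • a, nonZeroDivisors.coe_ne_zero v, ?_⟩
      rw [← tmul_smul, smul_tmul, Algebra.smul_def, Algebra.smul_def, mul_comm, huv, mul_one]
  refine ⟨e, y₀, c, hc, hi ?_, hi ?_⟩
  · change _ ⊗ₜ[A] (1 : F) = _ ⊗ₜ[A] (1 : F)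
    rw [← Algebra.smul_def, ← smul_tmul', he, ← mul_smul_comm, hy₀,
      Algebra.TensorProduct.tmul_mul_tmul, mul_one]
  · change _ ⊗ₜ[A] (1 : F) = _ ⊗ₜ[A] (1 : F)
    rw [← hy, ← he, Algebra.TensorProduct.tmul_mul_tmul, mul_one]

lemma comax (k R : Type) [Field k] [CommRing R] [Algebra k R] [Algebra.Smooth k R] {p p' : Ideal R}
    (hp : p ∈ minimalPrimes R) (hp' : p'.IsPrime) (hne : ¬ p ≤ p') : p ⊔ p' = ⊤ := by
  by_contra h0
  obtain ⟨m, hm, hle⟩ := Ideal.exists_le_maximal _ h0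
  obtain ⟨f, hf, n, _, _, _⟩ :=
    Algebra.IsSmoothAt.exists_isStandardEtale_mvPolynomial (R := k) (p := m)
  obtain ⟨x, hx, hx'⟩ := SetLike.not_le_iff_exists.1 hne
  let B := Localization.Away f
  have key : ∀ Q : Ideal R, Q.IsPrime → Q ≤ m → (Q.map (algebraMap R B)).IsPrime ∧
      (Q.map (algebraMap R B)).under R = Q := fun Q hQ h =>
    have hdis : Disjoint (Submonoid.powers f : Set R) Q :=
      (Ideal.disjoint_powers_iff_notMem_of_isPrime _).mpr fun h0 => hf (h h0)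
    ⟨IsLocalization.isPrime_of_isPrime_disjoint (.powers f) _ _ hQ hdis,
      IsLocalization.under_map_of_isPrime_disjoint (.powers f) _ hQ hdis⟩
  obtain ⟨a1, a2⟩ := key p hp.1.1 (le_sup_left.trans hle)
  obtain ⟨b1, b2⟩ := key p' hp' (le_sup_right.trans hle)
  obtain ⟨c1, -⟩ := key m hm.isPrime le_rfl
  have hmin : p.map (algebraMap R B) ∈ minimalPrimes B := by
    have := IsLocalization.minimalPrimes_map (Submonoid.powers f) B (⊥ : Ideal R)
    rw [Ideal.map_bot] at this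
    change _ ∈ (⊥ : Ideal B).minimalPrimes
    rw [this, Set.mem_preimage, a2]
    exact hp
  obtain ⟨e, y, c, hc, h1, h2⟩ := exists_idem (MvPolynomial (Fin n) k) B (algebraMap R B x)
  have h3 : e ∈ p.map (algebraMap R B) := by
    refine (a1.mem_or_mem (h1 ▸ Ideal.mul_mem_right _ _ (Ideal.mem_map_of_mem _ hx))).resolve_left
      fun h => ?_
    exact notMem_nonZeroDivisors_of_mem_mem_minimalPrimes h hmin (etale_nzd _ B c hc)
  have h4 : 1 - e ∈ p'.map (algebraMap R B) := by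
    refine (b1.mem_or_mem (x := algebraMap R B x) ?_).resolve_left fun h => hx' (b2 ▸ h)
    rw [mul_sub, mul_one, h2, sub_self]
    exact zero_mem _
  refine c1.ne_top ((Ideal.eq_top_iff_one _).2 ?_)
  simpa using add_mem (Ideal.map_mono (le_sup_left.trans hle) h3)
    (Ideal.map_mono (le_sup_right.trans hle) h4)

variable {k σ : Type} [Field k] {I : Ideal (MvPolynomial σ k)}

open Model.ModelE

lemma homog_min (hI : Homog I) {P : Ideal (MvPolynomial σ k)} (hP : P ∈ I.minimalPrimes) :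
    Homog P := by
  obtain ⟨Q, q1, q2, q3, q4⟩ := exists_core P hP.1.1
  rwa [le_antisymm q3 (hP.2 ⟨q1, q4 I hI hP.1.2⟩ q3)] at q2

open Pool.Agent.Lib.MP_60ec62_ag.DL in
lemma min_chart [Finite σ] (hI : Homog I) {P Q : Ideal (MvPolynomial σ k)} {s : σ}
    (hP : P ∈ I.minimalPrimes) (hQ : Q ∈ (P ⊔ Ideal.span {X s - 1}).minimalPrimes) :
    Q ∈ (I ⊔ Ideal.span {X s - 1}).minimalPrimes ∧ ∀ J, Homog J → J ≤ Q → J ≤ P := by
  have p1 : P.IsPrime := hP.1.1
  have p2 : I ≤ P := hP.1.2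
  have hH := homog_min hI hP
  have q1 : Q.IsPrime := hQ.1.1
  have hd := Dim.dm_min (𝕜 := k) ⟨P, p1⟩ ⟨Q, q1⟩ _ (not_mem p1.ne_top hH s) hQ
  obtain ⟨Z, z1, z2, z3, z4⟩ := exists_core Q q1
  have h1 : (⟨Z, z1⟩ : PrimeSpectrum _) < ⟨Q, q1⟩ := lt_of_le_of_ne z3 fun e =>
    not_mem z1.ne_top z2 s (by
      rw [show Z = Q from congrArg PrimeSpectrum.asIdeal e]
      exact (Ideal.span_singleton_le_iff_mem _).1 (le_sup_right.trans hQ.1.2))
  have h2 := Dim.dm_lt (𝕜 := k) h1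
  have h3 : Z ≤ P := by
    rcases (show (⟨P, p1⟩ : PrimeSpectrum _) ≤ ⟨Z, z1⟩ from
      z4 P hH (le_sup_left.trans hQ.1.2)).eq_or_lt with e | e
    · exact e.ge
    · have := Dim.dm_lt (𝕜 := k) e
      omega
  refine ⟨⟨⟨q1, (sup_le_sup_right p2 _).trans hQ.1.2⟩, fun Q' hq hle => ?_⟩,
    fun J hJ h => (z4 J hJ h).trans h3⟩
  obtain ⟨Z', y1, y2, y3, y4⟩ := exists_core Q' hq.1
  have h4 := (hP.2 ⟨y1, y4 I hI (le_sup_left.trans hq.2)⟩
    ((z4 Z' y2 (y3.trans hle)).trans h3)).trans y3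
  exact hQ.2 ⟨hq.1, sup_le h4 (le_sup_right.trans hq.2)⟩ hle

lemma exists_le [Finite σ] {C : Set (Ideal (MvPolynomial σ k))} (hC : C ⊆ I.minimalPrimes)
    {M : Ideal (MvPolynomial σ k)} (hM : M.IsPrime) (h : sInf C ≤ M) : ∃ P ∈ C, P ≤ M := by
  have hf : C.Finite := (I.finite_minimalPrimes_of_isNoetherianRing _).subset hC
  rw [← hf.coe_toFinset, ← hf.toFinset.inf_id_eq_sInf, hM.inf_le'] at h
  obtain ⟨P, hP, h⟩ := h
  exact ⟨P, hf.mem_toFinset.1 hP, h⟩

lemma sup_top [Finite σ] (hI : Homog I) {s : σ} (hs : Algebra.Smooth k (Chart I s))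
    {C : Set (Ideal (MvPolynomial σ k))} (hC : C ⊆ I.minimalPrimes) :
    sInf C ⊔ sInf (I.minimalPrimes \ C) ⊔ Ideal.span {X s - 1} = ⊤ := by
  by_contra h0
  obtain ⟨M, hM, hle⟩ := Ideal.exists_le_maximal _ h0
  obtain ⟨P, hP, h1⟩ := exists_le hC hM.isPrime (le_sup_left.trans (le_sup_left.trans hle))
  obtain ⟨P', hP', h2⟩ := exists_le (I := I) Set.diff_subset hM.isPrime
    (le_sup_right.trans (le_sup_left.trans hle))
  have hMp := hM.isPrime
  obtain ⟨Q, hQ, h3⟩ := Ideal.exists_minimalPrimes_le (sup_le h1 (le_sup_right.trans hle))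
  obtain ⟨Q', hQ', h4⟩ := Ideal.exists_minimalPrimes_le (sup_le h2 (le_sup_right.trans hle))
  obtain ⟨a1, -⟩ := min_chart hI (hC hP) hQ
  obtain ⟨b1, b2⟩ := min_chart hI hP'.1 hQ'
  rw [Ideal.minimalPrimes_eq_comap] at a1 b1
  obtain ⟨T, hT, rfl⟩ := a1
  obtain ⟨T', hT', rfl⟩ := b1
  have h5 := comax k (Chart I s) hT hT'.1.1 fun h => by
    have h6 : P ≤ P' := b2 P (homog_min hI (hC hP))
      ((le_sup_left.trans hQ.1.2).trans (Ideal.comap_mono h))
    exact hP'.2 (le_antisymm h6 (hP'.1.2 (hC hP).1 h6) ▸ hP)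
  obtain ⟨a, ha, b, hb, hab⟩ := Submodule.mem_sup.1 ((Ideal.eq_top_iff_one _).1 h5)
  obtain ⟨a, rfl⟩ := Ideal.Quotient.mk_surjective a
  obtain ⟨b, rfl⟩ := Ideal.Quotient.mk_surjective b
  rw [← map_add, ← map_one (Ideal.Quotient.mk _), Ideal.Quotient.eq] at hab
  have h7 : a + b - 1 ∈ M := sup_le ((hC hP).1.2.trans h1) (le_sup_right.trans hle) hab
  refine hM.ne_top ((Ideal.eq_top_iff_one _).2 ?_)
  simpa using M.sub_mem (add_mem (h3 ha) (h4 hb)) h7

lemma inf_eq {C : Set (Ideal (MvPolynomial σ k))} (hC : C ⊆ I.minimalPrimes) :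
    sInf C ⊓ sInf (I.minimalPrimes \ C) = I.radical := by
  rw [← sInf_union, Set.union_diff_cancel hC, Ideal.sInf_minimalPrimes]

end Comp

open Comp

variable {k σ : Type} [Field k] {I : Ideal (MvPolynomial σ k)}
  {C : Set (Ideal (MvPolynomial σ k))}

theorem comp_le (hC : C ⊆ I.minimalPrimes) : I ≤ sInf C := le_sInf fun _ hP => (hC hP).1.2

theorem comp_homog (hI : Homog I) (hC : C ⊆ I.minimalPrimes) : Homog (sInf C) :=
  fun f hf n => Submodule.mem_sInf.2 fun P hP =>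
    homog_min hI (hC hP) f (Submodule.mem_sInf.1 hf P hP) n

theorem comp_min [Finite σ] (hC : C ⊆ I.minimalPrimes) : (sInf C).minimalPrimes ⊆ C := by
  intro P hP
  obtain ⟨Q, hQ, h⟩ := exists_le hC hP.1.1 hP.1.2
  rwa [le_antisymm (hP.2 ⟨(hC hQ).1.1, sInf_le hQ⟩ h) h]

theorem comp_smooth [Finite σ] (hI : Homog I) (hC : C ⊆ I.minimalPrimes) {s : σ}
    (hs : Algebra.Smooth k (Chart I s)) : Algebra.Smooth k (Chart (sInf C) s) := by
  have hr := Model.smooth_reduced k (Chart I s)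
  obtain ⟨u, hu, c, hc, h1⟩ := Submodule.mem_sup.1 ((Ideal.eq_top_iff_one _).1 (sup_top hI hs hC))
  obtain ⟨a, ha, b, hb, rfl⟩ := Submodule.mem_sup.1 hu
  let π := Ideal.Quotient.mk (I ⊔ Ideal.span {X s - 1})
  have h2 : ∀ j ∈ sInf C, π j * π b = 0 := fun j hj => by
    have : j * b ∈ I.radical := inf_eq hC ▸ ⟨Ideal.mul_mem_right _ _ hj, Ideal.mul_mem_left _ _ hb⟩
    obtain ⟨n, hn⟩ := this
    refine IsNilpotent.eq_zero ⟨n, ?_⟩
    rw [← map_mul, ← map_pow]
    exact Ideal.Quotient.eq_zero_iff_mem.2 (Ideal.mem_sup_left hn)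
  have h3 : π a = 1 - π b := by
    have : π c = 0 := Ideal.Quotient.eq_zero_iff_mem.2 (Ideal.mem_sup_right hc)
    have h3 := congrArg π h1
    rw [map_add, map_add, this, map_one] at h3
    rw [← h3]
    ring
  have h4 : IsIdempotentElem (π b) := by
    have := h2 a ha
    rw [h3, sub_mul, one_mul, sub_eq_zero] at this
    exact this.symm
  let φ : Chart I s →ₐ[k] Chart (sInf C) s :=
    Ideal.Quotient.factorₐ k (sup_le_sup_right (comp_le hC) _)
  letI := φ.toRingHom.toAlgebra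
  haveI : IsScalarTower k (Chart I s) (Chart (sInf C) s) :=
    IsScalarTower.of_algebraMap_eq fun x => (φ.commutes x).symm
  haveI : IsLocalization.Away (π b) (Chart (sInf C) s) := by
    refine IsLocalization.away_of_isIdempotentElem h4 (le_antisymm (fun x hx => ?_) ?_) ?_
    · obtain ⟨x, rfl⟩ := Ideal.Quotient.mk_surjective x
      obtain ⟨j, hj, t, ht, rfl⟩ := Submodule.mem_sup.1
        (Ideal.Quotient.eq_zero_iff_mem.1 (show Ideal.Quotient.mk _ x = 0 from hx))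
      refine Ideal.mem_span_singleton'.2 ⟨π j, ?_⟩
      have : π t = 0 := Ideal.Quotient.eq_zero_iff_mem.2 (Ideal.mem_sup_right ht)
      change _ = π (j + t)
      rw [mul_sub, h2 j hj, map_add, this]
      ring
    · rw [Ideal.span_singleton_le_iff_mem, ← h3]
      exact Ideal.Quotient.eq_zero_iff_mem.2 (Ideal.mem_sup_left ha)
    · intro x
      obtain ⟨x, rfl⟩ := Ideal.Quotient.mk_surjective x
      exact ⟨π x, rfl⟩
  haveI := Algebra.Smooth.of_isLocalization_Away (R := Chart I s) (A := Chart (sInf C) s) (π b)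
  exact Algebra.Smooth.comp k (Chart I s) _

variable [Finite k] [Finite σ]

theorem comp_ck (hI : Homog I) (hs : ∀ s, Algebra.Smooth k (Chart I s)) (hC : C ⊆ I.minimalPrimes)
    (h : CK (XS (upI I) hI.upI)) : CK (XS (upI (sInf C)) (comp_homog hI hC).upI) := by
  have hJ' := comp_homog hI (Set.diff_subset : I.minimalPrimes \ C ⊆ _)
  have key : ∀ (L : Fld (AlgebraicClosure k)) (x : σ → L) (J : Ideal (MvPolynomial σ k)),
      x ∈ zeroLocus L (upI J) ↔ J ≤ RingHom.ker ((aeval x : MvPolynomial σ (AlgebraicClosure k)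
        →ₐ[AlgebraicClosure k] L).toRingHom.comp (map (algebraMap k (AlgebraicClosure k)))) :=
    fun L x J => Ideal.map_le_iff_le_comap (K := RingHom.ker (aeval x :
      MvPolynomial σ (AlgebraicClosure k) →ₐ[AlgebraicClosure k] L).toRingHom)
  refine (h.open (Z := XS (upI _) hJ'.upI) fun O y _ _ hy _ => Bridge.mem_red _ O hy).congr
    fun L E => ⟨?_, ?_⟩
  · rintro ⟨⟨x, h0, hx, rfl⟩, hn⟩
    refine ⟨x, h0, ?_, rfl⟩
    rw [key] at hx ⊢
    have hp := RingHom.ker_isPrime ((aeval x : MvPolynomial σ (AlgebraicClosure k)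
      →ₐ[AlgebraicClosure k] L).toRingHom.comp (map (algebraMap k (AlgebraicClosure k))))
    exact (hp.inf_le.1 ((inf_eq hC).le.trans (hp.radical_le_iff.2 hx))).resolve_right
      fun h' => hn ⟨x, h0, (key _ _ _).2 h', rfl⟩
  · rintro ⟨x, h0, hx, rfl⟩
    refine ⟨⟨x, h0, (key _ _ _).2 ((comp_le hC).trans ((key _ _ _).1 hx)), rfl⟩, ?_⟩
    rintro ⟨x', -, hx', e⟩
    obtain ⟨c, hc⟩ := Submodule.mem_span_singleton.1 (e ▸ Submodule.mem_span_singleton_self x)
    obtain ⟨s, hs0⟩ := Function.ne_iff.1 h0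
    have h1 := (key _ _ _).1 ((comp_homog hI hC).upI.smul_mem hx (x s)⁻¹)
    have h2 := (key _ _ _).1 (hJ'.upI.smul_mem (hc ▸ hJ'.upI.smul_mem hx' c) (x s)⁻¹)
    refine RingHom.ker_ne_top _ (top_le_iff.1 ((sup_top hI (hs s) hC).ge.trans
      (sup_le (sup_le h1 h2) ?_)))
    rw [Ideal.span_singleton_le_iff_mem, RingHom.mem_ker]
    have : x s ≠ 0 := hs0
    simp [this]

end Pool.Agent.Lib.MP_557161_ag.DL
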