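import Pool.Agent.Lib.MP_557161_ag.DL.CxA1

/-!
Formal properties of additive functions, cokernels and Euler characteristics.
-/

namespace Pool.Agent.Lib.MP_557161_ag.DL

open MvPolynomial Filter

variable {K : Type} [Field K] {τ Γ : Type} [AddCommMonoid Γ] {w : τ → Γ}
  {I : Ideal (MvPolynomial τ K)} {E : Set (MvPolynomial τ K)} {M N N₁ N₂ N₃ : GMod K w}
  {A : Type} [AddCommGroup A] {Λ : GMod K w → A}

open CxA

lemma CxA.mat_gi {S : Type} [CommRing S] {β₀ β₁ : Type} [Fintype β₀] [Fintype β₁]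
    {D : Matrix β₀ β₁ S} {D' : Matrix β₁ β₀ S} {J : Ideal S} {f : S}
    (h : ∀ b c, (D * D' * D) b c - f * D b c ∈ J) {V : Type} [AddCommGroup V] [Module S V]
    (hV : ∀ f ∈ J, ∀ v : V, f • v = 0) (u : β₁ → V) :
    mat D V (mat D' V (mat D V u)) = f • mat D V u := by
  have h1 := mat_eq_zero (D := D * D' * D - f • D) (J := J) h hV u
  rw [← mat_mul, ← mat_mul]
  funext b
  have h2 := congrFun h1 b
  simp only [mat_apply, Matrix.sub_apply, Matrix.smul_apply, smul_eq_mul, sub_smul,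
    Finset.sum_sub_distrib, Pi.zero_apply, sub_eq_zero] at h2
  simp only [mat_apply, Pi.smul_apply, Finset.smul_sum, smul_smul]
  exact h2

/-- A finitely generated graded module has finitely many homogeneous generators. -/
lemma CxA.exists_gens (N : GMod K w) (hN : Module.Finite (MvPolynomial τ K) N.V) :
    ∃ (β : Type) (_ : Fintype β) (d : β → Γ) (v : β → N.V), (∀ b, v b ∈ N.part (d b)) ∧
      Submodule.span (MvPolynomial τ K) (Set.range v) = ⊤ := by
  have h1 : Submodule.span (MvPolynomial τ K) {v : N.V | ∃ a, v ∈ N.part a} = ⊤ := by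
    rw [eq_top_iff]
    intro v _
    induction v using N.induction with
    | h0 => exact Submodule.zero_mem _
    | hadd u v hu hv => exact add_mem (hu trivial) (hv trivial)
    | h a v hv => exact Submodule.subset_span ⟨a, hv⟩
  obtain ⟨s, hs, e⟩ := (Submodule.fg_span_iff_fg_span_finset_subset _).1
    (h1 ▸ Module.Finite.fg_top (R := MvPolynomial τ K) (M := N.V))
  choose d hd using fun x : s => hs x.2
  exact ⟨s, inferInstance, d, Subtype.val, hd, by rw [Subtype.range_coe, ← e, h1]⟩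

lemma CxA.cyc_part {J : Ideal (MvPolynomial τ K)} (hJ : WHomog w J) {a : Γ}
    {y : (GMod.cyc J hJ).V} (h : y ∈ (GMod.cyc J hJ).part a) :
    ∃ r : MvPolynomial τ K, r.IsWeightedHomogeneous w a ∧ Ideal.Quotient.mk J r = y := by
  obtain ⟨r, rfl⟩ := Submodule.Quotient.mk_surjective J y
  exact ⟨_, weightedHomogeneousComponent_isWeightedHomogeneous a r, h⟩

variable [IsCancelAdd Γ]

lemma CxA.shift_part {g a : Γ} {v : N.V} (h : N.shiftπ g a v = v) :
    v = 0 ∨ ∃ b, g + b = a ∧ v ∈ N.part b := by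
  by_cases e : ∃ b, g + b = a
  · obtain ⟨b, rfl⟩ := e
    rw [GMod.shiftπ_add] at h
    exact Or.inr ⟨b, rfl, h⟩
  · rw [N.shiftπ_of_not e] at h
    exact Or.inl h.symm

/-- The terms of a truncated complex. -/
def CxA.tr (F : Cx K w) (c i : ℕ) : Pres K w := if i < c then F.free i else F.pres c

lemma CxA.theta_eq (F : Cx K w) (c : ℕ) (Λ : GMod K w → A) (N : GMod K w) :
    F.theta c Λ N = ∑ i ∈ Finset.range (c + 1), (-1 : ℤ) ^ i • Λ ((tr F c i).coker N) := by
  rw [Finset.sum_range_succ, Cx.theta, tr, if_neg (lt_irrefl c)]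
  congr 1
  exact Finset.sum_congr rfl fun i hi => by rw [tr, if_pos (Finset.mem_range.1 hi)]

variable [Finite τ]

lemma AddF.coker (h : AddF I E Λ) {B : Pres K w} (hB : B.QProj I E) :
    AddF I E fun N => Λ (B.coker N) := by
  refine ⟨fun N₁ N₂ N₃ s hN => ?_, fun N hN hn => h.neg _ (hN.coker B) fun g hg => ?_⟩
  · have hs := cokerMap_surj B s.surj
    show Λ (B.coker N₂) = Λ (B.coker N₁) + Λ (B.coker N₃)
    rw [h.add _ _ _ (sesKer _ hs) (hN.coker B)]
    congr 1
    symm
    have h0 : ∀ y, (cokerMap B s.g).f ((cokerMap B s.f).f y) = 0 := fun y => by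
      obtain ⟨v, rfl⟩ := mkc_surj' B N₁ y
      rw [cokerMap_mk, cokerMap_mk]
      exact (mkc_eq_zero B N₃ _).2 ⟨0, by
        rw [map_zero]; exact _root_.funext fun b => (s.exact.apply_apply_eq_zero (v b)).symm⟩
    refine eq_of_surj h ((hN.left s).coker B)
      ⟨(cokerMap B s.f).f.codRestrict _ h0, fun a v => Subtype.ext ((cokerMap B s.f).comm a v)⟩
      (fun y => ?_) fun g hg => ?_
    · obtain ⟨y, hy⟩ := y
      obtain ⟨v, rfl⟩ := mkc_surj' B N₂ y
      obtain ⟨u, hu⟩ := (mkc_eq_zero B N₃ _).1 ((cokerMap_mk B s.g v).symm.trans hy)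
      choose u' hu' using fun c => s.surj (u c)
      obtain rfl : u = fun c => s.g.f (u' c) := _root_.funext fun c => (hu' c).symm
      rw [mat_comp] at hu
      have h1 : ∀ b, s.g.f (v b - mat B.D N₂.V u' b) = 0 := fun b => by
        rw [map_sub, sub_eq_zero]; exact (congrFun hu b).symm
      choose x hx using fun b => (s.exact _).1 (h1 b)
      refine ⟨(mkc B N₁).f x, Subtype.ext ?_⟩
      refine (cokerMap_mk B s.f x).trans ?_
      have h2 : (fun b => s.f.f (x b)) = v - mat B.D N₂.V u' := _root_.funext hx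
      have h3 : (mkc B N₂).f (mat B.D N₂.V u') = 0 := (mkc_eq_zero B N₂ _).2 ⟨u', rfl⟩
      rw [h2]
      exact ((mkc B N₂).f.map_sub _ _).trans (by rw [h3, sub_zero])
    · obtain ⟨n, D', hD'⟩ := hB g hg
      refine ⟨n, fun y hy => ?_⟩
      obtain ⟨v, rfl⟩ := mkc_surj' B N₁ y
      obtain ⟨u, hu⟩ := (mkc_eq_zero B N₂ _).1
        ((cokerMap_mk B s.f v).symm.trans (congrArg Subtype.val hy))
      have h1 := mat_gi hD' hN.2 u
      rw [hu, mat_comp, mat_comp] at h1
      refine ((mkc B N₁).f.map_smul _ _).symm.trans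
        ((mkc_eq_zero B N₁ (g ^ n • v)).2 ⟨mat D' N₁.V v, _root_.funext fun b => s.inj ?_⟩)
      rw [Pi.smul_apply, map_smul]
      exact congrFun h1 b
  · obtain ⟨n, hn'⟩ := hn g hg
    refine ⟨n, fun y => ?_⟩
    obtain ⟨v, rfl⟩ := mkc_surj' B N y
    refine ((mkc B N).f.map_smul _ _).symm.trans ((mkc_eq_zero B N (g ^ n • v)).2 ⟨0, ?_⟩)
    rw [map_zero]
    exact _root_.funext fun b => (hn' (v b)).symm

lemma AddF.theta (h : AddF I E Λ) {F : Cx K w} {c : ℕ} (hF : (F.pres c).QProj I E) :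
    AddF I E (F.theta c Λ) := by
  have hq : ∀ i, (tr F c i).QProj I E := fun i => by
    unfold tr
    split_ifs
    exacts [Pres.free_qproj _, hF]
  refine ⟨fun N₁ N₂ N₃ s hN => ?_, fun N hN hn => ?_⟩
  · simp only [theta_eq, ← Finset.sum_add_distrib, ← smul_add]
    exact Finset.sum_congr rfl fun i _ => congrArg _ ((h.coker (hq i)).add _ _ _ s hN)
  · rw [theta_eq]
    refine Finset.sum_eq_zero fun i _ => ?_
    have := (h.coker (hq i)).neg N hN hn
    beta_reduce at this
    rw [this, smul_zero]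

lemma Cx.theta_comm (h : AddF I E Λ) (F G : Cx K w) (c c' : ℕ) (hN : Adm I N) :
    F.theta c (G.theta c' Λ) N = G.theta c' (F.theta c Λ) N := by
  simp only [theta_eq, Finset.smul_sum]
  rw [Finset.sum_comm]
  refine Finset.sum_congr rfl fun j _ => Finset.sum_congr rfl fun i _ => ?_
  rw [smul_comm, h.congr ((hN.coker _).coker _) (coker_comm _ _ N)]

lemma Cx.tele (h : AddF I E Λ) {F : Cx K w} (hF : F.IsCx I) (hN : Adm I N) (hx : F.QEx E N.V)
    (c : ℕ) : Λ ((F.pres 0).coker N) = F.theta c Λ N := by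
  have key : ∀ c, Λ ((F.free c).coker N) =
      Λ ((F.pres (c + 1)).coker N) + Λ ((F.pres c).coker N) := fun c => by
    have h1 : Λ ((F.free c).coker N) = Λ (N.fr (F.deg c)) :=
      h.congr (hN.coker _) (free_coker_iso N _)
    have h2 := h.add _ _ _ (sesSubQuot _ _ (matHom N (F.hom c)).hmg_range) (hN.fr (F.deg c))
    have hle : LinearMap.range (matHom N (F.hom (c + 1))).f ≤
        LinearMap.ker (toRange (matHom N (F.hom c))).f := by
      rintro _ ⟨u, rfl⟩
      exact Subtype.ext ((mat_mul _ _ N.V u).symm.trans (mat_eq_zero (hF c) hN.2 u))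
    have h3 := eq_of_surj h (hN.coker (F.pres (c + 1)))
      (lift (toRange (matHom N (F.hom c))) _ (matHom N (F.hom (c + 1))).hmg_range hle)
      (fun y => by
        obtain ⟨v, rfl⟩ := (matHom N (F.hom c)).f.surjective_rangeRestrict y
        exact ⟨Submodule.Quotient.mk v, rfl⟩)
      fun g hg => (hx c g hg).imp fun n hn y hy => by
        obtain ⟨v, rfl⟩ := mkc_surj' (F.pres (c + 1)) N y
        exact (Submodule.Quotient.mk_eq_zero _).2 (hn v (congrArg Subtype.val hy))
    rw [h1, h2, h3]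
    rfl
  induction c with
  | zero => simp [Cx.theta]
  | succ c ih =>
    rw [ih, Cx.theta, Cx.theta, Finset.sum_range_succ, key c, pow_succ]
    simp only [smul_add, mul_smul, neg_smul, one_smul, smul_neg]
    abel

lemma Cx.theta_symm (h : AddF I E Λ) {hI : WHomog w I} {F G : Cx K w} {c c' : ℕ}
    (hF : F.Resolves hI E M) (hG : G.Resolves hI E N) (qF : (F.pres c).QProj I E)
    (qG : (G.pres c').QProj I E) : F.theta c Λ N = G.theta c' Λ M := by
  have hR : Adm I (GMod.cyc I hI) := adm_cyc hI le_rfl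
  rw [← (h.theta qF).congr (hR.coker _) hG.iso, ← (h.theta qG).congr (hR.coker _) hF.iso,
    Cx.tele (h.theta qF) hG.cx hR hG.ex c', Cx.tele (h.theta qG) hF.cx hR hF.ex c,
    Cx.theta_comm h F G c c' hR]

omit [IsCancelAdd Γ] [Finite τ] in
lemma CxA.rad_local {S : Type} [CommRing S] {V : Type} [AddCommGroup V] [Module S V]
    {H R : Submodule S V} (hH : H.FG) {J : Ideal S} (hV : ∀ f ∈ J, ∀ v : V, f • v = 0) {f : S}
    (h : ∀ p : Ideal S, p.IsPrime → J ≤ p → f ∉ p → ∀ v ∈ H, ∃ s ∉ p, s • v ∈ R) :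
    ∃ n : ℕ, ∀ v ∈ H, f ^ n • v ∈ R := by
  let a : Ideal S :=
    { carrier := {s | ∀ v ∈ H, s • v ∈ R}
      zero_mem' := fun v _ => by simp
      add_mem' := fun hs ht v hv => by rw [add_smul]; exact add_mem (hs v hv) (ht v hv)
      smul_mem' := fun r s hs v hv => by
        rw [smul_eq_mul, mul_smul]; exact R.smul_mem r (hs v hv) }
  show f ∈ a.radical
  rw [Ideal.radical_eq_sInf, Submodule.mem_sInf]
  rintro p ⟨hp, hp'⟩
  by_contra hf
  have hJ : J ≤ p := fun x hx => hp fun v _ => by rw [hV x hx]; exact R.zero_mem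
  obtain ⟨t, rfl⟩ := hH
  choose s hs hs' using fun x : t => h p hp' hJ hf x (Submodule.subset_span x.2)
  have h1 : ∏ x, s x ∈ a := by
    intro v hv
    induction hv using Submodule.span_induction with
    | mem v hv =>
      obtain ⟨r, hr⟩ := Finset.dvd_prod_of_mem s (Finset.mem_univ (⟨v, hv⟩ : t))
      rw [hr, mul_comm, mul_smul]
      exact R.smul_mem r (hs' ⟨v, hv⟩)
    | zero => simp
    | add u v _ _ hu hv => rw [smul_add]; exact add_mem hu hv
    | smul r v _ hv => rw [smul_comm]; exact R.smul_mem r hv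
  obtain ⟨x, -, hx⟩ := (Ideal.IsPrime.prod_mem_iff (hp := hp')).1 (hp h1)
  exact hs x hx

/-- Local criterion for exactness up to negligible modules. -/
lemma Cx.qex_of_local {F : Cx K w} (hF : F.IsCx I) {V : Type} [AddCommGroup V]
    [Module (MvPolynomial τ K) V] [Module.Finite (MvPolynomial τ K) V]
    (hV : ∀ f ∈ I, ∀ v : V, f • v = 0)
    (h : ∀ i, ∀ p : PrimeSpectrum (MvPolynomial τ K), I ≤ p.asIdeal → (∃ f ∈ E, f ∉ p.asIdeal) →
      ∀ v, mat (F.D i) V v = 0 → ∃ s ∉ p.asIdeal, s • v ∈ LinearMap.range (mat (F.D (i + 1)) V)) :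
    F.QEx E V := by
  intro i f hf
  exact rad_local (H := LinearMap.ker (mat (F.D i) V)) (J := I) (IsNoetherian.noetherian _)
    (fun g hg v => _root_.funext fun b => hV g hg (v b))
    fun p hp hI hf' v hv => h i ⟨p, hp⟩ hI ⟨f, hf, hf'⟩ v hv

namespace CxA

/-- A homogeneous submodule of a graded free module over the quotient by `I`. -/
structure St (hI : WHomog w I) where
  β : Type
  [fin : Fintype β]
  d : β → Γ
  U : Submodule (MvPolynomial τ K) (β → MvPolynomial τ K ⧸ I)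
  hU : ((GMod.cyc I hI).fr d).Hmg U

attribute [instance] St.fin

lemma St.step {hI : WHomog w I} (s : St hI) :
    ∃ (t : St hI) (D : Matrix s.β t.β (MvPolynomial τ K)), MatHom w s.d t.d D ∧
      LinearMap.range (mat D (MvPolynomial τ K ⧸ I)) = s.U ∧
      t.U = LinearMap.ker (mat D (MvPolynomial τ K ⧸ I)) := by
  have hR : Adm I (((GMod.cyc I hI).fr s.d).sub s.U s.hU) :=
    ((adm_cyc hI le_rfl).fr s.d).left (sesSubQuot ((GMod.cyc I hI).fr s.d) s.U s.hU)
  obtain ⟨β, _, d, v, hv, hsp⟩ := exists_gens _ hR.1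
  let u : β → s.β → MvPolynomial τ K ⧸ I := fun c => (v c).1
  have h1 : ∀ b c, ∃ x : MvPolynomial τ K,
      (x = 0 ∨ ∃ g, x.IsWeightedHomogeneous w g ∧ s.d b + g = d c) ∧
        Ideal.Quotient.mk I x = u c b := fun b c => by
    have h2 : (GMod.cyc I hI).shiftπ (s.d b) (d c) (u c b) = u c b :=
      congrFun (congrArg Subtype.val (GMod.mem_part.1 (hv c))) b
    rcases shift_part h2 with h3 | ⟨g, hg, h3⟩
    · exact ⟨0, Or.inl rfl, h3.symm⟩
    · obtain ⟨r, hr, e⟩ := cyc_part hI h3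
      exact ⟨r, Or.inr ⟨g, hr, hg⟩, e⟩
  choose D hD hD' using h1
  have h2 : Submodule.span (MvPolynomial τ K) (Set.range u) = s.U := by
    let v' : β → s.U := v
    have hsp' : Submodule.span (MvPolynomial τ K) (Set.range v') = ⊤ := hsp
    have := congrArg (Submodule.map s.U.subtype) hsp'
    rw [Submodule.map_span, Submodule.map_top, Submodule.range_subtype, ← Set.range_comp] at this
    exact this
  have h3 : ∀ r : β → MvPolynomial τ K, mat D (MvPolynomial τ K ⧸ I)
      (fun c => Ideal.Quotient.mk I (r c)) = ∑ c, r c • u c := fun r => by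
    funext b
    rw [mat_mk, map_sum, Finset.sum_apply]
    refine Finset.sum_congr rfl fun c _ => ?_
    rw [map_mul, hD', Pi.smul_apply]
    exact (Algebra.smul_def (r c) (u c b)).symm
  refine ⟨⟨β, d, LinearMap.ker (mat D _), (matHom (GMod.cyc I hI) hD).hmg_ker⟩, D, hD, ?_, rfl⟩
  rw [← h2]
  ext y
  rw [Submodule.mem_span_range_iff_exists_fun]
  constructor
  · rintro ⟨x, rfl⟩
    choose r hr using fun c => Ideal.Quotient.mk_surjective (I := I) (x c)
    obtain rfl : x = fun c => Ideal.Quotient.mk I (r c) := _root_.funext fun c => (hr c).symm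
    exact ⟨r, (h3 r).symm⟩
  · rintro ⟨r, rfl⟩
    exact ⟨_, h3 r⟩

/-- The sequence of syzygies. -/
noncomputable def St.seq {hI : WHomog w I} (s : St hI) : ℕ → St hI
  | 0 => s
  | n + 1 => (St.seq s n).step.choose

/-- The resolution of the quotient by a homogeneous submodule. -/
noncomputable def St.cx {hI : WHomog w I} (s : St hI) : Cx K w where
  β i := (s.seq i).β
  deg i := (s.seq i).d
  D i := (s.seq i).step.choose_spec.choose
  hom i := (s.seq i).step.choose_spec.choose_spec.1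

lemma St.range_eq {hI : WHomog w I} (s : St hI) (i : ℕ) :
    LinearMap.range (mat (s.cx.D i) (MvPolynomial τ K ⧸ I)) = (s.seq i).U :=
  (s.seq i).step.choose_spec.choose_spec.2.1

lemma St.range_eq_ker {hI : WHomog w I} (s : St hI) (i : ℕ) :
    LinearMap.range (mat (s.cx.D (i + 1)) (MvPolynomial τ K ⧸ I)) =
      LinearMap.ker (mat (s.cx.D i) (MvPolynomial τ K ⧸ I)) :=
  (s.range_eq (i + 1)).trans (s.seq i).step.choose_spec.choose_spec.2.2

lemma St.isCx {hI : WHomog w I} (s : St hI) : s.cx.IsCx I := by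
  classical
  intro i b c
  rw [← Ideal.Quotient.eq_zero_iff_mem, ← mat_single, mat_mul]
  exact congrFun ((s.range_eq_ker i).le ⟨Pi.single c 1, rfl⟩) b

lemma St.qex {hI : WHomog w I} (s : St hI) (E : Set (MvPolynomial τ K)) :
    s.cx.QEx E (MvPolynomial τ K ⧸ I) := fun i _ _ =>
  ⟨0, fun v hv => by rw [pow_zero, one_smul]; exact (s.range_eq_ker i).ge hv⟩

end CxA

lemma exists_resolves (hI : WHomog w I) (E : Set (MvPolynomial τ K)) (hM : Adm I M) :
    ∃ F : Cx K w, F.Resolves hI E M := by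
  obtain ⟨β, _, d, v, hv, hsp⟩ := exists_gens M hM.1
  let ℓ : β → (MvPolynomial τ K ⧸ I) →ₗ[MvPolynomial τ K] M.V := fun b =>
    Submodule.liftQ I (LinearMap.toSpanSingleton _ _ (v b)) fun f hf => hM.2 f hf _
  let p₀ : (β → MvPolynomial τ K ⧸ I) →ₗ[MvPolynomial τ K] M.V :=
    ∑ b, ℓ b ∘ₗ LinearMap.proj b
  have hp₀ : ∀ y, p₀ y = ∑ b, ℓ b (y b) := fun y => by simp [p₀]
  let p : GHom ((GMod.cyc I hI).fr d) M := ofPart p₀ fun a y hy => by
    refine (hp₀ y).symm ▸ Submodule.sum_mem _ fun b _ => ?_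
    have h2 : (GMod.cyc I hI).shiftπ (d b) a (y b) = y b := congrFun (GMod.mem_part.1 hy) b
    rcases shift_part h2 with h3 | ⟨g, hg, h3⟩
    · have h4 : ℓ b (y b) = 0 := (congrArg (ℓ b) h3).trans (map_zero _)
      rw [h4]; exact Submodule.zero_mem _
    · obtain ⟨r, hr, e⟩ := cyc_part hI h3
      have h4 : ℓ b (y b) = r • v b := (congrArg (ℓ b) e).symm
      rw [h4, ← hg, add_comm]
      exact GMod.smul_mem_part hr (hv b)
  have hp : Function.Surjective p.f := fun x => by
    obtain ⟨r, rfl⟩ := (Submodule.mem_span_range_iff_exists_fun _).1 (hsp.ge (Submodule.mem_top (x := x)))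
    exact ⟨fun b => Ideal.Quotient.mk I (r b), hp₀ _⟩
  let s : St hI := ⟨β, d, LinearMap.ker p₀, p.hmg_ker⟩
  refine ⟨s.cx, s.isCx, s.qex E, iso_of_surj (mkc (s.cx.pres 0) _) p (mkc_surj _ _) hp fun t => ?_⟩
  exact (mkc_eq_zero (s.cx.pres 0) _ t).trans (SetLike.ext_iff.1 (s.range_eq 0) t)

/-- A resolution of the cyclic module given by `J`, with one generator of degree zero. -/
structure Cx.CycRes (F : Cx K w) (I : Ideal (MvPolynomial τ K)) (E : Set (MvPolynomial τ K))
    (J : Ideal (MvPolynomial τ K)) : Prop where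
  cx : F.IsCx I
  ex : F.QEx E (MvPolynomial τ K ⧸ I)
  one : Nonempty (Unique (F.β 0))
  deg : ∀ b, F.deg 0 b = 0
  gen : J = I ⊔ Ideal.span (Set.range fun x : F.β 0 × F.β 1 => F.D 0 x.1 x.2)

omit [IsCancelAdd Γ] [Finite τ] in
lemma CxA.range_pair {α β γ : Type} [Unique α] (D : α → β → γ) :
    (Set.range fun x : α × β => D x.1 x.2) = Set.range fun c => D default c := by
  ext y
  exact ⟨fun ⟨x, hx⟩ => ⟨x.2, by rw [← hx, Subsingleton.elim default x.1]⟩,
    fun ⟨c, hc⟩ => ⟨(default, c), hc⟩⟩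

lemma exists_cycRes (hI : WHomog w I) (E : Set (MvPolynomial τ K)) {J : Ideal (MvPolynomial τ K)}
    (hJ : WHomog w J) (h : I ≤ J) : ∃ F : Cx K w, F.CycRes I E J := by
  let ev : GHom ((GMod.cyc I hI).fr fun _ : Unit => 0) (GMod.cyc I hI) :=
    ⟨LinearMap.proj (R := MvPolynomial τ K) (φ := fun _ : Unit => MvPolynomial τ K ⧸ I) (),
      fun a v => LinearMap.congr_fun (shiftπ_zero (GMod.cyc I hI) a) (v ())⟩
  let p := comp (cycMap hI hJ h) ev
  let s : St hI := ⟨Unit, fun _ => 0, LinearMap.ker p.f, p.hmg_ker⟩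
  letI : Unique (s.cx.β 0) := (inferInstance : Unique Unit)
  refine ⟨s.cx, s.isCx, s.qex E, ⟨this⟩, fun _ => rfl, ?_⟩
  rw [range_pair]
  ext t
  exact ((row_iff (s.cx.D 0) I t).symm.trans ((SetLike.ext_iff.1 (s.range_eq 0) _).trans
    (Submodule.Quotient.mk_eq_zero J))).symm

lemma Cx.CycRes.resolves {F : Cx K w} {J : Ideal (MvPolynomial τ K)} (h : F.CycRes I E J)
    (hI : WHomog w I) (hJ : WHomog w J) : F.Resolves hI E (GMod.cyc J hJ) := by
  obtain ⟨u⟩ := h.one
  letI : Unique (F.pres 0).β₀ := u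
  exact ⟨h.cx, h.ex, coker_cyc (F.pres 0) h.deg hI hJ (h.gen.trans (by rw [range_pair]; rfl))⟩

section Pull

variable {τ' Γ' : Type} [AddCommMonoid Γ'] {w' : τ' → Γ'} (P : Pb K w w')
  {I' : Ideal (MvPolynomial τ' K)} {E' : Set (MvPolynomial τ' K)}

lemma Cx.IsCx.map {F : Cx K w} (h : F.IsCx I) (hI : I.map P.φ ≤ I') : (F.map P).IsCx I' := by
  intro i b c
  have h1 := hI (Ideal.mem_map_of_mem P.φ (h i b c))
  rw [Matrix.mul_apply, map_sum] at h1
  simp only [map_mul] at h1
  exact h1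

lemma Pres.QProj.map {B : Pres K w} (h : B.QProj I E) (hI : I.map P.φ ≤ I')
    (hE : ∀ f ∈ E', f ∈ (I' ⊔ Ideal.span (P.φ '' E)).radical) : (B.map P).QProj I' E' := by
  intro f hf
  have h0 : I' ≤ (B.map P).gi I' := fun x hx => by
    refine ⟨0, fun b c => ?_⟩
    simpa using I'.mul_mem_right _ hx
  refine Ideal.radical_le_radical_iff.2 (sup_le (h0.trans Ideal.le_radical)
    (Ideal.span_le.2 ?_)) (hE f hf)
  rintro _ ⟨g, hg, rfl⟩
  obtain ⟨n, D', hD'⟩ := h g hg
  refine ⟨n, D'.map P.φ, fun b c => ?_⟩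
  have h1 := hI (Ideal.mem_map_of_mem P.φ (hD' b c))
  simp only [Matrix.mul_apply, map_sub, map_sum, map_mul, map_pow] at h1
  exact h1

lemma Cx.CycRes.map {F : Cx K w} {J : Ideal (MvPolynomial τ K)} (h : F.CycRes I E J)
    (hI : I.map P.φ ≤ I') (hx : (F.map P).QEx E' (MvPolynomial τ' K ⧸ I')) :
    (F.map P).CycRes I' E' (I' ⊔ J.map P.φ) := by
  refine ⟨h.cx.map P hI, hx, h.one, fun b => (congrArg P.ρ (h.deg b)).trans (map_zero _), ?_⟩
  rw [h.gen, Ideal.map_sup, ← sup_assoc, sup_eq_left.2 hI, Ideal.map_span, ← Set.range_comp]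
  rfl

end Pull

lemma finite_part (hw : ∀ a, {m : τ →₀ ℕ | Finsupp.weight w m = a}.Finite)
    (hN : Module.Finite (MvPolynomial τ K) N.V) (a : Γ) : Module.Finite K (N.part a) := by
  obtain ⟨β, _, d, v, hv, hsp⟩ := exists_gens N hN
  let T : Set N.V := ⋃ b, (fun m => (monomial m 1 : MvPolynomial τ K) • v b) ''
    {m | Finsupp.weight w m + d b = a}
  have hT : T.Finite := Set.finite_iUnion fun b => Set.Finite.image _ (by
    by_cases h : ∃ g, g + d b = a
    · obtain ⟨g, rfl⟩ := h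
      exact (hw g).subset fun m hm => add_right_cancel hm
    · exact Set.finite_empty.subset fun m hm => h ⟨_, hm⟩)
  haveI := FiniteDimensional.span_of_finite K hT
  refine Submodule.finiteDimensional_of_le (S₂ := Submodule.span K T) fun x hx => ?_
  obtain ⟨r, hr⟩ := (Submodule.mem_span_range_iff_exists_fun _).1 (hsp.ge (Submodule.mem_top (x := x)))
  rw [← GMod.mem_part.1 hx, ← hr, map_sum]
  refine Submodule.sum_mem _ fun b _ => ?_
  rw [(r b).as_sum, Finset.sum_smul, map_sum]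
  refine Submodule.sum_mem _ fun m _ => π_mem_of_part (GMod.monomial_smul_mem (hv b) m _) fun e => ?_
  rw [← mul_one (coeff m (r b)), ← C_mul_monomial, mul_smul, GMod.C_smul]
  exact Submodule.smul_mem _ _ (Submodule.subset_span (Set.mem_iUnion.2 ⟨b, m, e.symm, rfl⟩))

lemma hf_addv (hw : ∀ a, {m : τ →₀ ℕ | Finsupp.weight w m = a}.Finite) :
    Addv I (hf : GMod K w → Γ → ℤ) := by
  intro N₁ N₂ N₃ s hN
  funext a
  haveI := finite_part hw hN.1 a
  let f : N₁.part a →ₗ[K] N₂.part a := (s.f.f.restrictScalars K).restrict fun v hv => map_part s.f hv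
  let g : N₂.part a →ₗ[K] N₃.part a := (s.g.f.restrictScalars K).restrict fun v hv => map_part s.g hv
  have hf' : Function.Injective f := fun u v e => Subtype.ext (s.inj (congrArg Subtype.val e))
  have hg : LinearMap.range g = ⊤ := LinearMap.range_eq_top.2 fun y => by
    obtain ⟨v, hv⟩ := s.surj y.1
    refine ⟨⟨N₂.π a v, N₂.π_mem_part a v⟩, Subtype.ext ?_⟩
    show s.g.f (N₂.π a v) = y.1
    rw [s.g.comm, hv]; exact y.2
  have hk : LinearMap.ker g = LinearMap.range f := Submodule.ext fun y => by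
    constructor
    · intro hy
      obtain ⟨v, hv⟩ := (s.exact y.1).1 (congrArg Subtype.val hy)
      refine ⟨⟨N₁.π a v, N₁.π_mem_part a v⟩, Subtype.ext ?_⟩
      show s.f.f (N₁.π a v) = y.1
      rw [s.f.comm, hv]; exact y.2
    · rintro ⟨v, rfl⟩
      exact Subtype.ext (s.exact.apply_apply_eq_zero v.1)
  have h1 := g.finrank_range_add_finrank_ker
  rw [hg, hk, finrank_top, LinearMap.finrank_range_of_inj hf'] at h1
  show (Module.finrank K (N₂.part a) : ℤ) =
    (Module.finrank K (N₁.part a) : ℤ) + (Module.finrank K (N₃.part a) : ℤ)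
  omega

lemma Ctx.mu_addF (C : Ctx K w) : AddF (w := w) C.I C.E (mu C.l) := by
  refine ⟨fun N₁ N₂ N₃ s hN => ?_, fun N hN hn => ?_⟩
  · unfold mu
    rw [hf_addv C.fin_wt N₁ N₂ N₃ s hN]
    rfl
  · refine Germ.coe_eq.2 ((C.neg N hN.1 hn).mono fun a ha => ?_)
    show (Module.finrank K (N.part a) : ℤ) = 0
    rw [ha]
    simp

end Pool.Agent.Lib.MP_557161_ag.DL
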