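import Pool.Agent.Lib.MP_557161_ag.DL.CxD

/-!
Formal properties of additive functions and cokernels, first part.
-/

namespace Pool.Agent.Lib.MP_557161_ag.DL

open MvPolynomial Filter

variable {K : Type} [Field K] {τ Γ : Type} [AddCommMonoid Γ] {w : τ → Γ}
  {I : Ideal (MvPolynomial τ K)} {E : Set (MvPolynomial τ K)} {M N N₁ N₂ N₃ : GMod K w}
  {A : Type} [AddCommGroup A] {Λ : GMod K w → A}

namespace CxA

/-- The composition of homomorphisms. -/
noncomputable def comp (g : GHom N₂ N₃) (f : GHom N₁ N₂) : GHom N₁ N₃ :=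
  ⟨g.f ∘ₗ f.f, fun a v => by rw [LinearMap.comp_apply, f.comm, g.comm]; rfl⟩

/-- The quotient map. -/
noncomputable def mkq (N : GMod K w) (U : Submodule (MvPolynomial τ K) N.V) (hU : N.Hmg U) :
    GHom N (N.quot U hU) := ⟨U.mkQ, fun _ _ => rfl⟩

/-- The inclusion of a submodule. -/
noncomputable def incl (N : GMod K w) (U : Submodule (MvPolynomial τ K) N.V) (hU : N.Hmg U) :
    GHom (N.sub U hU) N := ⟨U.subtype, fun _ _ => rfl⟩

/-- The map onto the image. -/
noncomputable def toRange (f : GHom M N) : GHom M (N.sub (LinearMap.range f.f) f.hmg_range) :=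
  ⟨f.f.rangeRestrict, fun a v => Subtype.ext (f.comm a v)⟩

/-- The map induced on a quotient. -/
noncomputable def lift (f : GHom M N) (U : Submodule (MvPolynomial τ K) M.V) (hU : M.Hmg U)
    (h : U ≤ LinearMap.ker f.f) : GHom (M.quot U hU) N :=
  ⟨U.liftQ f.f h, fun a v => by
    obtain ⟨v, rfl⟩ := Submodule.Quotient.mk_surjective U v
    exact f.comm a v⟩

/-- A coordinate of a product. -/
noncomputable def proj {β : Type} [Fintype β] (N : β → GMod K w) (b : β) : GHom (GMod.pi N) (N b) :=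
  ⟨LinearMap.proj b, fun _ _ => rfl⟩

/-- A linear map that preserves degrees. -/
def ofPart (f : M.V →ₗ[MvPolynomial τ K] N.V) (h : ∀ a, ∀ v ∈ M.part a, f v ∈ N.part a) :
    GHom M N :=
  ⟨f, fun a v => by
    induction v using M.induction with
    | h0 => simp
    | hadd u v hu hv => simp only [map_add, hu, hv]
    | h b v hv =>
      by_cases e : a = b
      · subst e
        rw [GMod.mem_part.1 hv, GMod.mem_part.1 (h a v hv)]
      · rw [GMod.π_of_mem_part hv e, GMod.π_of_mem_part (h b v hv) e, map_zero]⟩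

lemma map_part (f : GHom M N) {a : Γ} {v : M.V} (h : v ∈ M.part a) : f.f v ∈ N.part a := by
  rw [GMod.mem_part, ← f.comm, GMod.mem_part.1 h]

lemma iso_of_surj {T : GMod K w} (p : GHom T M) (q : GHom T N) (hp : Function.Surjective p.f)
    (hq : Function.Surjective q.f) (h : ∀ t, p.f t = 0 ↔ q.f t = 0) : GIso M N := by
  let e := (p.f.quotKerEquivOfSurjective hp).symm ≪≫ₗ
    Submodule.quotEquivOfEq (LinearMap.ker p.f) (LinearMap.ker q.f) (Submodule.ext h) ≪≫ₗ
      q.f.quotKerEquivOfSurjective hq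
  have he : ∀ t, e (p.f t) = q.f t := fun t => by
    simp [e, LinearMap.quotKerEquivOfSurjective_symm_apply]
  refine ⟨⟨e.toLinearMap, fun a v => ?_⟩, e.bijective⟩
  obtain ⟨t, rfl⟩ := hp v
  show e _ = N.π a (e _)
  rw [← p.comm, he, he, q.comm]

lemma poly_part {a : Γ} {f : MvPolynomial τ K} :
    f ∈ (GMod.poly K w).part a ↔ f.IsWeightedHomogeneous w a :=
  ⟨fun h => by
    have h' : weightedHomogeneousComponent w a f = f := h
    rw [← h']; exact weightedHomogeneousComponent_isWeightedHomogeneous a f,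
    fun h => h.weightedHomogeneousComponent_same⟩

lemma π_mem_of_part {a b : Γ} {v : N.V} (hv : v ∈ N.part b) {R : Type} [Semiring R]
    [Module R N.V] {U : Submodule R N.V} (h : a = b → v ∈ U) : N.π a v ∈ U := by
  by_cases e : a = b
  · rw [e, GMod.mem_part.1 hv]; exact h e
  · rw [GMod.π_of_mem_part hv e]; exact U.zero_mem

lemma hmg_span (N : GMod K w) {s : Set N.V} (h : ∀ v ∈ s, ∃ a, v ∈ N.part a) :
    N.Hmg (Submodule.span (MvPolynomial τ K) s) := by
  have key : ∀ v ∈ Submodule.span (MvPolynomial τ K) s, ∀ (r : MvPolynomial τ K) a,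
      N.π a (r • v) ∈ Submodule.span (MvPolynomial τ K) s := by
    intro v hv
    induction hv using Submodule.span_induction with
    | mem v hv =>
      obtain ⟨b, hb⟩ := h v hv
      intro r a
      refine (GMod.poly K w).induction
        (p := fun r : MvPolynomial τ K => N.π a (r • v) ∈ Submodule.span (MvPolynomial τ K) s)
        ?_ (fun r r' h h' => ?_) (fun g r hr => ?_) r
      · show N.π a ((0 : MvPolynomial τ K) • v) ∈ _
        simp
      · have := add_mem h h'
        rwa [← map_add, ← add_smul] at this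
      · exact π_mem_of_part (GMod.smul_mem_part (poly_part.1 hr) hb) fun _ =>
          Submodule.smul_mem _ _ (Submodule.subset_span hv)
    | zero => intro r a; simp
    | add u v _ _ hu hv => intro r a; rw [smul_add, map_add]; exact add_mem (hu r a) (hv r a)
    | smul c v _ hv => intro r a; rw [smul_smul]; exact hv _ a
  intro a v hv
  simpa using key v hv 1 a

lemma adm_pi {β : Type} [Fintype β] {N : β → GMod K w} (hN : ∀ b, Adm I (N b)) :
    Adm I (GMod.pi N) :=
  haveI := fun b => (hN b).1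
  ⟨inferInstanceAs (Module.Finite (MvPolynomial τ K) (∀ b, (N b).V)),
    fun f hf v => funext fun b => (hN b).2 f hf (v b)⟩

lemma mat_comp {S : Type} [CommRing S] {β₀ β₁ : Type} [Fintype β₁] (D : Matrix β₀ β₁ S)
    {V V' : Type} [AddCommGroup V] [Module S V] [AddCommGroup V'] [Module S V'] (f : V →ₗ[S] V')
    (v : β₁ → V) : mat D V' (fun c => f (v c)) = fun b => f (mat D V v b) := by
  funext b
  simp [mat_apply]

lemma mat_mul {S : Type} [CommRing S] {β₀ β₁ β₂ : Type} [Fintype β₁] [Fintype β₂]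
    (D : Matrix β₀ β₁ S) (D' : Matrix β₁ β₂ S) (V : Type) [AddCommGroup V] [Module S V]
    (v : β₂ → V) : mat (D * D') V v = mat D V (mat D' V v) := by
  funext b
  simp only [mat_apply, Matrix.mul_apply, Finset.sum_smul, Finset.smul_sum, smul_smul]
  exact Finset.sum_comm

lemma mat_eq_zero {S : Type} [CommRing S] {β₀ β₁ : Type} [Fintype β₁] {D : Matrix β₀ β₁ S}
    {J : Ideal S} (h : ∀ b c, D b c ∈ J) {V : Type} [AddCommGroup V] [Module S V]
    (hV : ∀ f ∈ J, ∀ v : V, f • v = 0) (v : β₁ → V) : mat D V v = 0 :=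
  funext fun b => Finset.sum_eq_zero fun c _ => hV _ (h b c) _

lemma mat_single {S : Type} [CommRing S] {β₀ β₁ : Type} [Fintype β₁] [DecidableEq β₁]
    (D : Matrix β₀ β₁ S) (J : Ideal S) (c : β₁) (b : β₀) :
    mat D (S ⧸ J) (Pi.single c 1) b = Ideal.Quotient.mk J (D b c) := by
  rw [mat_apply, Finset.sum_eq_single c (fun c' _ h => by simp [h]) (by simp), Pi.single_eq_same,
    Algebra.smul_def, mul_one]
  rfl

lemma mat_mk {S : Type} [CommRing S] {β₀ β₁ : Type} [Fintype β₁] (D : Matrix β₀ β₁ S)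
    (J : Ideal S) (r : β₁ → S) (b : β₀) :
    mat D (S ⧸ J) (fun c => Ideal.Quotient.mk J (r c)) b =
      Ideal.Quotient.mk J (∑ c, r c * D b c) := by
  rw [mat_apply, map_sum]
  refine Finset.sum_congr rfl fun c _ => ?_
  rw [mul_comm, map_mul, Algebra.smul_def]
  rfl

lemma comm_shiftπ [IsCancelAdd Γ] (f : GHom M N) (g a : Γ) (v : M.V) :
    f.f (M.shiftπ g a v) = N.shiftπ g a (f.f v) := by
  by_cases h : ∃ b, g + b = a
  · obtain ⟨b, rfl⟩ := h
    rw [GMod.shiftπ_add, GMod.shiftπ_add, f.comm]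
  · rw [M.shiftπ_of_not h, N.shiftπ_of_not h]; simp

lemma shiftπ_zero [IsCancelAdd Γ] (N : GMod K w) (a : Γ) : N.shiftπ 0 a = N.π a := by
  have := N.shiftπ_add 0 a
  rwa [zero_add] at this

lemma shift_shift [IsCancelAdd Γ] (N : GMod K w) (g d a : Γ) (v : N.V) :
    (N.shift g).shiftπ d a v = N.shiftπ (d + g) a v := by
  by_cases h : ∃ b, d + g + b = a
  · obtain ⟨b, rfl⟩ := h
    rw [GMod.shiftπ_add, add_assoc, GMod.shiftπ_add]
    exact N.shift_π_add g b v
  · rw [N.shiftπ_of_not h]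
    by_cases h' : ∃ b, d + b = a
    · obtain ⟨b, rfl⟩ := h'
      rw [GMod.shiftπ_add]
      exact N.shift_π_of_not (fun ⟨c, hc⟩ => h ⟨c, by rw [← hc, add_assoc]⟩) v
    · rw [GMod.shiftπ_of_not _ h']; rfl

/-- The shift of a homomorphism. -/
noncomputable def shiftMap [IsCancelAdd Γ] (f : GHom M N) (g : Γ) : GHom (M.shift g) (N.shift g) :=
  ⟨f.f, fun a v => comm_shiftπ f g a v⟩

/-- A homomorphism applied to all coordinates. -/
noncomputable def frMap [IsCancelAdd Γ] (f : GHom M N) {β : Type} [Fintype β] (d : β → Γ) :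
    GHom (M.fr d) (N.fr d) :=
  ⟨f.f.compLeft β, fun a v => funext fun b => comm_shiftπ f (d b) a (v b)⟩

/-- The quotient map to a cokernel. -/
noncomputable def mkc [IsCancelAdd Γ] (B : Pres K w) (N : GMod K w) :
    GHom (N.fr B.d₀) (B.coker N) := mkq _ _ _

lemma mkc_surj [IsCancelAdd Γ] (B : Pres K w) (N : GMod K w) : Function.Surjective (mkc B N).f :=
  Submodule.Quotient.mk_surjective _

lemma mkc_surj' [IsCancelAdd Γ] (B : Pres K w) (N : GMod K w) (y : (B.coker N).V) :
    ∃ v : B.β₀ → N.V, (mkc B N).f v = y := mkc_surj B N y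

lemma mkc_eq_zero [IsCancelAdd Γ] (B : Pres K w) (N : GMod K w) (v : B.β₀ → N.V) :
    (mkc B N).f v = 0 ↔ ∃ u, mat B.D N.V u = v :=
  Submodule.Quotient.mk_eq_zero _

/-- The map induced on cokernels. -/
noncomputable def cokerMap [IsCancelAdd Γ] (B : Pres K w) (f : GHom M N) :
    GHom (B.coker M) (B.coker N) :=
  lift (comp (mkc B N) (frMap f B.d₀)) _ _ (by
    rintro _ ⟨u, rfl⟩
    exact (mkc_eq_zero B N _).2 ⟨fun c => f.f (u c), mat_comp B.D f.f u⟩)

lemma cokerMap_mk [IsCancelAdd Γ] (B : Pres K w) (f : GHom M N) (v : B.β₀ → M.V) :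
    (cokerMap B f).f ((mkc B M).f v) = (mkc B N).f fun b => f.f (v b) := rfl

lemma cokerMap_surj [IsCancelAdd Γ] (B : Pres K w) {f : GHom M N} (h : Function.Surjective f.f) :
    Function.Surjective (cokerMap B f).f := by
  intro y
  obtain ⟨v, rfl⟩ := mkc_surj B N y
  choose u hu using fun b => h (v b)
  exact ⟨(mkc B M).f u, by rw [cokerMap_mk]; exact congrArg _ (funext hu)⟩

/-- The map between cyclic modules. -/
noncomputable def cycMap {J J' : Ideal (MvPolynomial τ K)} (hJ : WHomog w J) (hJ' : WHomog w J')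
    (h : J ≤ J') : GHom (GMod.cyc J hJ) (GMod.cyc J' hJ') :=
  lift (mkq (GMod.poly K w) J' _) J _ fun _ hx => (Submodule.Quotient.mk_eq_zero _).2 (h hx)

lemma dbl_zero [IsCancelAdd Γ] (B B' : Pres K w) (N : GMod K w) (t : B.β₀ → B'.β₀ → N.V) :
    ((mkc B (B'.coker N)).f fun b => (mkc B' N).f (t b)) = 0 ↔
      ∃ (u : B.β₁ → B'.β₀ → N.V) (u' : B'.β₁ → B.β₀ → N.V), ∀ b b',
        t b b' = ∑ c, B.D b c • u c b' + ∑ c', B'.D b' c' • u' c' b := by
  rw [mkc_eq_zero]
  constructor
  · rintro ⟨y, hy⟩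
    choose u hu using fun c => mkc_surj' B' N (y c)
    obtain rfl : y = fun c => (mkc B' N).f (u c) := funext fun c => (hu c).symm
    rw [mat_comp] at hy
    have h1 : ∀ b, (mkc B' N).f (t b - mat B.D (B'.β₀ → N.V) u b) = 0 := fun b => by
      have := congrFun hy b
      exact ((mkc B' N).f.map_sub _ _).trans (sub_eq_zero.2 this.symm)
    choose u' hu' using fun b => (mkc_eq_zero B' N _).1 (h1 b)
    refine ⟨u, fun c' b => u' b c', fun b b' => ?_⟩
    have h2 := congrFun (hu' b) b'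
    have h3 : ∑ c', B'.D b' c' • u' b c' = t b b' - (∑ c, B.D b c • u c) b' := h2
    rw [Finset.sum_apply] at h3
    rw [h3]
    exact (add_sub_cancel _ _).symm
  · rintro ⟨u, u', h⟩
    refine ⟨fun c => (mkc B' N).f (u c), ?_⟩
    rw [mat_comp]
    funext b
    have h1 : (mkc B' N).f (t b - mat B.D (B'.β₀ → N.V) u b) = 0 := by
      refine (mkc_eq_zero B' N _).2 ⟨fun c' => u' c' b, funext fun b' => ?_⟩
      show ∑ c', B'.D b' c' • u' c' b = t b b' - (∑ c, B.D b c • u c) b'
      rw [Finset.sum_apply, h]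
      simp
    exact (sub_eq_zero.1 (((mkc B' N).f.map_sub _ _).symm.trans h1)).symm

end CxA

open CxA

lemma GIso.refl (N : GMod K w) : GIso N N :=
  ⟨⟨LinearMap.id, fun _ _ => rfl⟩, Function.bijective_id⟩

lemma GIso.symm (h : GIso M N) : GIso N M := by
  obtain ⟨f, hf⟩ := h
  exact iso_of_surj f ⟨LinearMap.id, fun _ _ => rfl⟩ hf.2 Function.surjective_id fun t =>
    map_eq_zero_iff _ hf.1

lemma GIso.trans (h : GIso N₁ N₂) (h' : GIso N₂ N₃) : GIso N₁ N₃ := by
  obtain ⟨f, hf⟩ := h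
  obtain ⟨g, hg⟩ := h'
  exact ⟨comp g f, hg.comp hf⟩

lemma GIso.hf_eq (h : GIso M N) : hf M = hf N := by
  obtain ⟨f, hf⟩ := h
  funext a
  have e : M.part a ≃ₗ[K] N.part a := LinearEquiv.ofBijective
    ((f.f.restrictScalars K).restrict fun v hv => map_part f hv)
    ⟨fun u v e => Subtype.ext (hf.1 (congrArg Subtype.val e)), fun y => by
      obtain ⟨v, hv⟩ := hf.2 y.1
      refine ⟨⟨M.π a v, M.π_mem_part a v⟩, Subtype.ext ?_⟩
      show f.f (M.π a v) = y.1
      rw [f.comm, hv]; exact y.2⟩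
  exact congrArg _ e.finrank_eq

lemma CxA.adm_surj (h : Adm I M) (f : GHom M N) (hf : Function.Surjective f.f) : Adm I N :=
  haveI := h.1
  ⟨Module.Finite.of_surjective f.f hf, fun g hg v => by
    obtain ⟨u, rfl⟩ := hf v
    rw [← map_smul, h.2 g hg, map_zero]⟩

lemma CxA.adm_inj [Finite τ] (h : Adm I N) (f : GHom M N) (hf : Function.Injective f.f) :
    Adm I M :=
  haveI := h.1
  ⟨Module.Finite.of_injective f.f hf, fun g hg v => hf (by rw [map_smul, h.2 g hg, map_zero])⟩

lemma Adm.of_iso (h : Adm I M) (e : GIso M N) : Adm I N := by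
  obtain ⟨f, hf⟩ := e
  exact adm_surj h f hf.2

lemma Adm.left [Finite τ] (s : SES N₁ N₂ N₃) (h : Adm I N₂) : Adm I N₁ := adm_inj h s.f s.inj

lemma Adm.right (s : SES N₁ N₂ N₃) (h : Adm I N₂) : Adm I N₃ := adm_surj h s.g s.surj

lemma adm_cyc {J : Ideal (MvPolynomial τ K)} (hJ : WHomog w J) (h : I ≤ J) :
    Adm I (GMod.cyc J hJ) := by
  refine ⟨inferInstanceAs (Module.Finite (MvPolynomial τ K) (MvPolynomial τ K ⧸ J)),
    fun f hf v => ?_⟩
  obtain ⟨a, rfl⟩ := Submodule.Quotient.mk_surjective J v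
  exact (Submodule.Quotient.mk_eq_zero J).2 (J.mul_mem_right a (h hf))

/-- The sequence of a submodule and its quotient. -/
noncomputable def sesSubQuot (N : GMod K w) (U : Submodule (MvPolynomial τ K) N.V) (hU : N.Hmg U) :
    SES (N.sub U hU) N (N.quot U hU) :=
  ⟨incl N U hU, mkq N U hU, Subtype.val_injective, Submodule.Quotient.mk_surjective U,
    LinearMap.exact_subtype_mkQ U⟩

/-- The sequence of a surjection and its kernel. -/
noncomputable def CxA.sesKer (f : GHom M N) (hf : Function.Surjective f.f) :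
    SES (M.sub (LinearMap.ker f.f) f.hmg_ker) M N :=
  ⟨incl M _ _, f, Subtype.val_injective, hf, LinearMap.exact_subtype_ker_map f.f⟩

lemma AddF.of_subsingleton (h : AddF I E Λ) (hN : Subsingleton N.V) : Λ N = 0 :=
  h.neg N ⟨inferInstance, fun _ _ _ => Subsingleton.elim _ _⟩
    fun _ _ => ⟨0, fun _ => Subsingleton.elim _ _⟩

lemma AddF.congr (h : AddF I E Λ) (hM : Adm I M) (e : GIso M N) : Λ M = Λ N := by
  obtain ⟨f, hf⟩ := e
  rw [h.add _ _ _ (sesKer f hf.2) hM, h.of_subsingleton, zero_add]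
  exact ⟨fun u v => Subtype.ext (hf.1 (u.2.trans v.2.symm))⟩

lemma AddF.pi [Finite τ] (h : AddF I E Λ) {β : Type} [Fintype β] (N : β → GMod K w)
    (hN : ∀ b, Adm I (N b)) : Λ (GMod.pi N) = ∑ b, Λ (N b) := by
  revert N
  refine Fintype.induction_empty_option (P := fun β _ => ∀ N : β → GMod K w,
    (∀ b, Adm I (N b)) → Λ (GMod.pi N) = ∑ b, Λ (N b)) ?_ ?_ ?_ β
  · intro α β _ e ih N hN
    letI := Fintype.ofEquiv β e.symm
    rw [← e.sum_comp, ← ih (fun a => N (e a)) fun a => hN (e a)]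
    refine h.congr (adm_pi hN) ⟨⟨LinearMap.pi fun a => LinearMap.proj (e a), fun _ _ => rfl⟩,
      fun u v huv => funext fun b => ?_, fun u => ?_⟩
    · obtain ⟨a, rfl⟩ := e.surjective b
      exact congrFun huv a
    · exact ⟨Equiv.piCongrLeft (fun b => (N b).V) e u,
        funext fun a => Equiv.piCongrLeft_apply_apply (fun b => (N b).V) e u a⟩
  · intro N _
    rw [h.of_subsingleton ⟨fun u v => funext fun b => b.elim⟩]
    simp
  · intro α _ ih N hN
    classical
    rw [Fintype.sum_option, ← ih (fun a => N (some a)) fun a => hN (some a)]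
    refine h.add _ _ _ ⟨⟨LinearMap.single _ (fun b => (N b).V) none, fun a v => ?_⟩,
      ⟨LinearMap.pi fun a => LinearMap.proj (some a), fun _ _ => rfl⟩, ?_, fun u => ?_,
      fun v => ⟨fun hv => ⟨v none, funext fun b => ?_⟩, ?_⟩⟩ (adm_pi hN)
    · funext b
      show Pi.single (M := fun b => (N b).V) none ((N none).π a v) b =
        (N b).π a (Pi.single (M := fun b => (N b).V) none v b)
      cases b <;> simp
    · exact Pi.single_injective (M := fun b => (N b).V) none
    · exact ⟨fun b => Option.rec 0 u b, rfl⟩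
    · show Pi.single (M := fun b => (N b).V) none (v none) b = v b
      cases b with
      | none => simp
      | some b =>
        have h1 : v (some b) = 0 := congrFun hv b
        simp [h1]
    · rintro ⟨x, rfl⟩
      funext b
      show Pi.single (M := fun b => (N b).V) none x (some b) = 0
      simp

lemma CxA.eq_of_surj [Finite τ] (h : AddF I E Λ) (hM : Adm I M) (f : GHom M N)
    (hf : Function.Surjective f.f) (h₁ : ∀ g ∈ E, ∃ n : ℕ, ∀ v, f.f v = 0 → g ^ n • v = 0) :
    Λ M = Λ N := by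
  rw [h.add _ _ _ (sesKer f hf) hM, h.neg _ (hM.left (sesKer f hf)), zero_add]
  intro g hg
  obtain ⟨n, hn⟩ := h₁ g hg
  exact ⟨n, fun v => Subtype.ext (hn v.1 v.2)⟩

/-- A homomorphism whose kernel and cokernel are negligible. -/
lemma AddF.eq_of_neg [Finite τ] (h : AddF I E Λ) (hM : Adm I M) (hN : Adm I N) (f : GHom M N)
    (h₁ : ∀ g ∈ E, ∃ n : ℕ, ∀ v, f.f v = 0 → g ^ n • v = 0)
    (h₂ : ∀ g ∈ E, ∃ n : ℕ, ∀ v, g ^ n • v ∈ LinearMap.range f.f) : Λ M = Λ N := by
  rw [eq_of_surj h hM (toRange f) f.f.surjective_rangeRestrict fun g hg =>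
      (h₁ g hg).imp fun n hn v hv => hn v (congrArg Subtype.val hv),
    h.add _ _ _ (sesSubQuot N _ f.hmg_range) hN, h.neg _ (hN.right (sesSubQuot N _ f.hmg_range)),
    add_zero]
  intro g hg
  obtain ⟨n, hn⟩ := h₂ g hg
  refine ⟨n, fun v => ?_⟩
  obtain ⟨v, rfl⟩ := Submodule.Quotient.mk_surjective _ v
  exact (Submodule.Quotient.mk_eq_zero _).2 (hn v)

lemma WHomog.sup {J J' : Ideal (MvPolynomial τ K)} (h : WHomog w J) (h' : WHomog w J') :
    WHomog w (J ⊔ J') := by
  intro f hf a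
  obtain ⟨x, hx, y, hy, rfl⟩ := Submodule.mem_sup.1 hf
  rw [map_add]
  exact Submodule.add_mem_sup (h x hx a) (h' y hy a)

lemma wHomog_span [IsCancelAdd Γ] {s : Set (MvPolynomial τ K)}
    (h : ∀ f ∈ s, ∃ g, f.IsWeightedHomogeneous w g) : WHomog w (Ideal.span s) :=
  fun f hf a => hmg_span (GMod.poly K w) (s := s)
    (fun v hv => (h v hv).imp fun _ hg => poly_part.2 hg) a f hf

/-- A homogeneous ideal is generated by its homogeneous elements. -/
lemma WHomog.le_span {J : Ideal (MvPolynomial τ K)} (h : WHomog w J) :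
    J ≤ Ideal.span {f | f ∈ J ∧ ∃ g, f.IsWeightedHomogeneous w g} := by
  intro f hf
  rw [← (GMod.poly K w).sum_π f]
  exact Submodule.sum_mem _ fun a _ => Ideal.subset_span
    ⟨h f hf a, a, weightedHomogeneousComponent_isWeightedHomogeneous a f⟩

lemma Pres.free_qproj {β : Type} [Fintype β] (d : β → Γ) : (Pres.free K w d).QProj I E :=
  fun _ _ => Ideal.le_radical ⟨0, fun _ c => Empty.elim c⟩

variable [IsCancelAdd Γ]

lemma Adm.shift (h : Adm I N) (g : Γ) : Adm I (N.shift g) := ⟨h.1, h.2⟩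

lemma Adm.fr (h : Adm I N) {β : Type} [Fintype β] (d : β → Γ) : Adm I (N.fr d) :=
  adm_pi fun b => h.shift (d b)

lemma Adm.coker (h : Adm I N) (B : Pres K w) : Adm I (B.coker N) :=
  adm_surj (h.fr B.d₀) (mkc B N) (mkc_surj B N)

lemma shift_zero_iso (N : GMod K w) : GIso (N.shift 0) N :=
  ⟨⟨LinearMap.id, fun a v => LinearMap.congr_fun (shiftπ_zero N a) v⟩, Function.bijective_id⟩

lemma hf_shift (N : GMod K w) (g a : Γ) : hf (N.shift g) (g + a) = hf N a := by
  have e : (N.shift g).part (g + a) = N.part a := Submodule.ext fun v => by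
    rw [GMod.mem_part, GMod.shift_π_add]; rfl
  unfold hf
  rw [e]
  rfl

lemma free_coker_iso (N : GMod K w) {β : Type} [Fintype β] (d : β → Γ) :
    GIso ((Pres.free K w d).coker N) (N.fr d) := by
  refine GIso.symm ⟨mkc (Pres.free K w d) N, (injective_iff_map_eq_zero _).2 fun v hv => ?_,
    mkc_surj _ _⟩
  obtain ⟨u, rfl⟩ := (mkc_eq_zero (Pres.free K w d) N v).1 hv
  funext b
  rw [mat_apply]
  exact Finset.sum_eq_zero fun c _ => Empty.elim c

lemma GIso.coker (e : GIso M N) (B : Pres K w) : GIso (B.coker M) (B.coker N) := by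
  obtain ⟨f, hf⟩ := e
  refine ⟨cokerMap B f, (injective_iff_map_eq_zero _).2 fun y hy => ?_, cokerMap_surj B hf.2⟩
  obtain ⟨v, rfl⟩ := mkc_surj B M y
  obtain ⟨u, hu⟩ := (mkc_eq_zero B N _).1 ((cokerMap_mk B f v).symm.trans hy)
  choose u' hu' using fun c => hf.2 (u c)
  obtain rfl : u = fun c => f.f (u' c) := funext fun c => (hu' c).symm
  rw [mat_comp] at hu
  exact (mkc_eq_zero B M v).2 ⟨u', funext fun b => hf.1 (congrFun hu b)⟩

lemma CxA.fr_shiftπ (N : GMod K w) {β : Type} [Fintype β] (d : β → Γ) (g a : Γ) (v : β → N.V)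
    (b : β) : (N.fr d).shiftπ g a v b = N.shiftπ (g + d b) a (v b) :=
  (comm_shiftπ (proj (fun b => N.shift (d b)) b) g a v).trans (shift_shift N (d b) g a (v b))

lemma coker_shift (B : Pres K w) (N : GMod K w) (g : Γ) :
    GIso (B.coker (N.shift g)) ((B.coker N).shift g) := by
  let e : GHom ((N.shift g).fr B.d₀) ((N.fr B.d₀).shift g) :=
    ⟨{ toFun := fun t b => t b, map_add' := fun _ _ => rfl, map_smul' := fun _ _ => rfl },
      fun a t => funext fun b => (shift_shift N g (B.d₀ b) a (t b)).trans (by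
        rw [add_comm]; exact (fr_shiftπ N B.d₀ g a (fun b => t b) b).symm)⟩
  refine iso_of_surj (mkc B (N.shift g)) (comp (shiftMap (mkc B N) g) e) (mkc_surj _ _)
    (fun y => ?_) fun t => ?_
  · obtain ⟨v, hv⟩ := mkc_surj B N y
    exact ⟨fun b => v b, hv⟩
  · exact (mkc_eq_zero B (N.shift g) t).trans (mkc_eq_zero B N fun b => t b).symm

lemma coker_comm (B B' : Pres K w) (N : GMod K w) :
    GIso (B.coker (B'.coker N)) (B'.coker (B.coker N)) := by
  let sw : GHom ((N.fr B'.d₀).fr B.d₀) ((N.fr B.d₀).fr B'.d₀) :=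
    ⟨{ toFun := fun t b' b => t b b', map_add' := fun _ _ => rfl, map_smul' := fun _ _ => rfl },
      fun a t => funext fun b' => funext fun b =>
        (fr_shiftπ N B'.d₀ (B.d₀ b) a (t b) b').trans (by
          rw [add_comm]; exact (fr_shiftπ N B.d₀ (B'.d₀ b') a (fun b => t b b') b).symm)⟩
  have hs : ∀ (B B' : Pres K w), Function.Surjective
      (comp (mkc B (B'.coker N)) (frMap (mkc B' N) B.d₀)).f := fun B B' y => by
    obtain ⟨v, rfl⟩ := mkc_surj B _ y
    choose u hu using fun b => mkc_surj B' N (v b)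
    exact ⟨u, congrArg (mkc B (B'.coker N)).f (funext hu)⟩
  refine iso_of_surj (comp (mkc B (B'.coker N)) (frMap (mkc B' N) B.d₀))
    (comp (comp (mkc B' (B.coker N)) (frMap (mkc B N) B'.d₀)) sw) (hs B B')
    ((hs B' B).comp fun t => ⟨fun b b' => t b' b, rfl⟩) fun t => ?_
  refine (dbl_zero B B' N t).trans (Iff.trans ?_ (dbl_zero B' B N fun b' b => t b b').symm)
  exact ⟨fun ⟨u, u', h⟩ => ⟨u', u, fun b' b => (h b b').trans (add_comm _ _)⟩,
    fun ⟨u', u, h⟩ => ⟨u, u', fun b b' => (h b' b).trans (add_comm _ _)⟩⟩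

omit [IsCancelAdd Γ] in
lemma CxA.row_iff {S : Type} [CommRing S] {β₀ β₁ : Type} [Fintype β₁] [Unique β₀]
    (D : Matrix β₀ β₁ S) (J : Ideal S) (t : S) :
    (∃ u, mat D (S ⧸ J) u = fun _ => Ideal.Quotient.mk J t) ↔
      t ∈ J ⊔ Ideal.span (Set.range fun c => D default c) := by
  constructor
  · rintro ⟨u, hu⟩
    choose r hr using fun c => Ideal.Quotient.mk_surjective (I := J) (u c)
    obtain rfl : u = fun c => Ideal.Quotient.mk J (r c) := funext fun c => (hr c).symm
    have h1 : Ideal.Quotient.mk J t = _ :=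
      (congrFun hu default).symm.trans (mat_mk D J r default)
    have h3 : ∑ c, r c * D default c ∈ Ideal.span (Set.range fun c => D default c) :=
      Ideal.mem_span_range_iff_exists_fun.2 ⟨r, rfl⟩
    have h2 := Submodule.add_mem_sup (Ideal.Quotient.eq.1 h1) h3
    rwa [sub_add_cancel] at h2
  · intro ht
    obtain ⟨x, hx, y, hy, rfl⟩ := Submodule.mem_sup.1 ht
    obtain ⟨r, rfl⟩ := Ideal.mem_span_range_iff_exists_fun.1 hy
    refine ⟨fun c => Ideal.Quotient.mk J (r c), funext fun b => ?_⟩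
    rw [Subsingleton.elim b default]
    refine (mat_mk D J r default).trans (Ideal.Quotient.eq.2 ?_)
    simpa using hx

/-- The cokernel of a row vector on a cyclic module. -/
lemma coker_cyc (B : Pres K w) [Unique B.β₀] (hd : ∀ b, B.d₀ b = 0)
    {J J' : Ideal (MvPolynomial τ K)} (hJ : WHomog w J) (hJ' : WHomog w J')
    (h : J' = J ⊔ Ideal.span (Set.range fun c => B.D default c)) :
    GIso (B.coker (GMod.cyc J hJ)) (GMod.cyc J' hJ') := by
  let dg : GHom (GMod.cyc J hJ) ((GMod.cyc J hJ).fr B.d₀) :=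
    ⟨LinearMap.pi fun _ => LinearMap.id, fun a v => funext fun b => by
      show _ = (GMod.cyc J hJ).shiftπ (B.d₀ b) a v
      rw [hd, shiftπ_zero]; rfl⟩
  refine iso_of_surj (comp (mkc B _) (comp dg (mkq (GMod.poly K w) J _)))
    (mkq (GMod.poly K w) J' _) (fun y => ?_) (Submodule.Quotient.mk_surjective _) fun t => ?_
  · obtain ⟨v, rfl⟩ := mkc_surj B _ y
    obtain ⟨a, ha⟩ := Submodule.Quotient.mk_surjective J (v default)
    refine ⟨a, congrArg (mkc B _).f (funext fun b => ?_)⟩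
    rw [Subsingleton.elim b default]
    exact ha
  · refine (mkc_eq_zero B _ _).trans (Iff.trans ?_ (Submodule.Quotient.mk_eq_zero _).symm)
    rw [h]
    exact row_iff B.D J t

/-- The sequence of multiplication by a homogeneous nonzerodivisor. -/
lemma ses_mul {J : Ideal (MvPolynomial τ K)} (hJ : WHomog w J) {f : MvPolynomial τ K} {g : Γ}
    (hf : f.IsWeightedHomogeneous w g) (hr : ∀ a, f * a ∈ J → a ∈ J)
    (hJ' : WHomog w (J ⊔ Ideal.span {f})) (g' : Γ) :
    Nonempty (SES ((GMod.cyc J hJ).shift (g + g')) ((GMod.cyc J hJ).shift g')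
      ((GMod.cyc (J ⊔ Ideal.span {f}) hJ').shift g')) := by
  refine ⟨⟨⟨LinearMap.lsmul _ (GMod.cyc J hJ).V f, fun a v =>
      (GMod.cyc J hJ).shift_smul_π hf (add_comm g' g) a v⟩,
    shiftMap (cycMap hJ hJ' le_sup_left) g', (injective_iff_map_eq_zero _).2 fun v hv => ?_,
    fun y => ?_, fun v => ?_⟩⟩
  · obtain ⟨a, rfl⟩ := Submodule.Quotient.mk_surjective J v
    exact (Submodule.Quotient.mk_eq_zero J).2 (hr a ((Submodule.Quotient.mk_eq_zero J).1 hv))
  · obtain ⟨a, rfl⟩ := Submodule.Quotient.mk_surjective _ y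
    exact ⟨Submodule.Quotient.mk a, rfl⟩
  · obtain ⟨a, rfl⟩ := Submodule.Quotient.mk_surjective J v
    refine (Submodule.Quotient.mk_eq_zero (J ⊔ Ideal.span {f})).trans ⟨fun ha => ?_, ?_⟩
    · obtain ⟨x, hx, y, hy, rfl⟩ := Submodule.mem_sup.1 ha
      obtain ⟨r, rfl⟩ := Ideal.mem_span_singleton'.1 hy
      refine ⟨Submodule.Quotient.mk r, (Submodule.Quotient.eq J).2 ?_⟩
      show f * r - (x + r * f) ∈ J
      rw [mul_comm r f]
      simpa using hx
    · rintro ⟨y, hy⟩
      obtain ⟨r, rfl⟩ := Submodule.Quotient.mk_surjective J y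
      have h1 : a - f * r ∈ J := (Submodule.Quotient.eq J).1 hy.symm
      have h2 := Submodule.add_mem_sup h1
        (Ideal.mul_mem_right r _ (Ideal.mem_span_singleton_self f))
      rwa [sub_add_cancel] at h2

lemma Cx.theta_mu (F : Cx K w) (c : ℕ) (l : Filter Γ) (N : GMod K w) :
    F.theta c (mu l) N = (F.theta c hf N : Γ → ℤ) := by
  show _ = Germ.coeAddHom l (F.theta c hf N)
  simp only [Cx.theta, map_add, map_sum, map_zsmul]
  rfl

lemma Cx.theta_shift (F : Cx K w) (c : ℕ) (N : GMod K w) (g a : Γ) :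
    F.theta c hf (N.shift g) (g + a) = F.theta c hf N a := by
  have e : ∀ B : Pres K w, hf (B.coker (N.shift g)) (g + a) = hf (B.coker N) a := fun B => by
    rw [(coker_shift B N g).hf_eq, hf_shift]
  simp only [Cx.theta, Pi.add_apply, Finset.sum_apply, Pi.smul_apply, e]

end Pool.Agent.Lib.MP_557161_ag.DL
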