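import Pool.Agent.Lib.MP_557161_ag.DL.Gr
import Pool.Agent.Lib.MP_557161_ag.DL.Defs
import Pool.Agent.Lib.MP_60ec62_ag.DL.FinNorm

/-!
Presentations and complexes of graded free modules given by matrices, Euler characteristics.
-/

namespace Pool.Agent.Lib.MP_557161_ag.DL

open MvPolynomial Filter
open Pool.Agent.Lib.MP_60ec62_ag.DL (dm dv Cyc)

variable {K : Type} [Field K] {τ Γ : Type} [AddCommMonoid Γ] {w : τ → Γ}

/-- Isomorphic graded modules. -/
def GIso (M N : GMod K w) : Prop := ∃ f : GHom M N, Function.Bijective f.f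

/-- Modules killed by powers of the elements of `E`. -/
def Neg (E : Set (MvPolynomial τ K)) (N : GMod K w) : Prop :=
  ∀ f ∈ E, ∃ n : ℕ, ∀ v : N.V, f ^ n • v = 0

/-- Additive functions that vanish on negligible modules. -/
structure AddF {A : Type} [AddCommGroup A] (I : Ideal (MvPolynomial τ K))
    (E : Set (MvPolynomial τ K)) (Λ : GMod K w → A) : Prop where
  add : Addv I Λ
  neg : ∀ N, Adm I N → Neg E N → Λ N = 0

/-- The matrix has homogeneous entries for the degrees `d₀`, `d₁` of the basis vectors. -/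
def MatHom (w : τ → Γ) {β₀ β₁ : Type} (d₀ : β₀ → Γ) (d₁ : β₁ → Γ)
    (D : Matrix β₀ β₁ (MvPolynomial τ K)) : Prop :=
  ∀ b c, D b c = 0 ∨ ∃ g, (D b c).IsWeightedHomogeneous w g ∧ d₀ b + g = d₁ c

/-- A homogeneous matrix. -/
structure Pres (K : Type) [Field K] (w : τ → Γ) where
  β₀ : Type
  β₁ : Type
  [fin₀ : Fintype β₀]
  [fin₁ : Fintype β₁]
  d₀ : β₀ → Γ
  d₁ : β₁ → Γ
  D : Matrix β₀ β₁ (MvPolynomial τ K)
  hom : MatHom w d₀ d₁ D

attribute [instance] Pres.fin₀ Pres.fin₁

/-- The presentation of a free module. -/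
def Pres.free (K : Type) [Field K] (w : τ → Γ) {β : Type} [Fintype β] (d : β → Γ) : Pres K w where
  β₀ := β
  β₁ := Empty
  d₀ := d
  d₁ := Empty.elim
  D := fun _ c => c.elim
  hom _ c := c.elim

/-- The action of a matrix on vectors with entries in a module. -/
def mat {S : Type} [CommRing S] {β₀ β₁ : Type} [Fintype β₁] (D : Matrix β₀ β₁ S) (V : Type)
    [AddCommGroup V] [Module S V] : (β₁ → V) →ₗ[S] (β₀ → V) where
  toFun v b := ∑ c, D b c • v c
  map_add' u v := by ext b; simp [Finset.sum_add_distrib]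
  map_smul' r v := by ext b; simp [Finset.smul_sum, smul_comm r]

lemma mat_apply {S : Type} [CommRing S] {β₀ β₁ : Type} [Fintype β₁] (D : Matrix β₀ β₁ S) (V : Type)
    [AddCommGroup V] [Module S V] (v : β₁ → V) (b : β₀) : mat D V v b = ∑ c, D b c • v c := rfl

/-- The elements `f` such that `f D = D E D` modulo `I` for some matrix `E`. -/
def Pres.gi (A : Pres K w) (I : Ideal (MvPolynomial τ K)) : Ideal (MvPolynomial τ K) where
  carrier := {f | ∃ E : Matrix A.β₁ A.β₀ (MvPolynomial τ K),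
    ∀ b c, (A.D * E * A.D) b c - f * A.D b c ∈ I}
  zero_mem' := ⟨0, fun b c => by simp⟩
  add_mem' := by
    rintro f g ⟨E, hE⟩ ⟨E', hE'⟩
    refine ⟨E + E', fun b c => ?_⟩
    have := I.add_mem (hE b c) (hE' b c)
    rw [Matrix.mul_add, Matrix.add_mul, Matrix.add_apply]
    convert this using 1; ring
  smul_mem' := by
    rintro r f ⟨E, hE⟩
    refine ⟨r • E, fun b c => ?_⟩
    have := I.mul_mem_left r (hE b c)
    rw [Matrix.mul_smul, Matrix.smul_mul, Matrix.smul_apply]
    convert this using 1; simp only [smul_eq_mul]; ring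

/-- The cokernel is projective where an element of `E` is invertible. -/
def Pres.QProj (A : Pres K w) (I : Ideal (MvPolynomial τ K)) (E : Set (MvPolynomial τ K)) : Prop :=
  ∀ f ∈ E, f ∈ (A.gi I).radical

/-- A sequence of homogeneous matrices. -/
structure Cx (K : Type) [Field K] (w : τ → Γ) where
  β : ℕ → Type
  [fin : ∀ i, Fintype (β i)]
  deg : ∀ i, β i → Γ
  D : ∀ i, Matrix (β i) (β (i + 1)) (MvPolynomial τ K)
  hom : ∀ i, MatHom w (deg i) (deg (i + 1)) (D i)

attribute [instance] Cx.fin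

/-- The `i`-th matrix. -/
def Cx.pres (F : Cx K w) (i : ℕ) : Pres K w := ⟨F.β i, F.β (i + 1), F.deg i, F.deg (i + 1), F.D i, F.hom i⟩

/-- The `i`-th free module. -/
def Cx.free (F : Cx K w) (i : ℕ) : Pres K w := Pres.free K w (F.deg i)

/-- The sequence is a complex modulo `I`. -/
def Cx.IsCx (F : Cx K w) (I : Ideal (MvPolynomial τ K)) : Prop :=
  ∀ i b c, (F.D i * F.D (i + 1)) b c ∈ I

/-- The higher homology with coefficients in `V` is killed by powers of the elements of `E`. -/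
def Cx.QEx (F : Cx K w) (E : Set (MvPolynomial τ K)) (V : Type) [AddCommGroup V]
    [Module (MvPolynomial τ K) V] : Prop :=
  ∀ i, ∀ f ∈ E, ∃ n : ℕ, ∀ v, mat (F.D i) V v = 0 → f ^ n • v ∈ LinearMap.range (mat (F.D (i + 1)) V)

section Cancel

variable [IsCancelAdd Γ]

/-- A sum of shifted copies. -/
noncomputable def GMod.fr (N : GMod K w) {β : Type} [Fintype β] (d : β → Γ) : GMod K w :=
  GMod.pi fun b => N.shift (d b)

lemma GMod.shift_smul_π (N : GMod K w) {f : MvPolynomial τ K} {g d₀ d₁ : Γ}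
    (hf : f.IsWeightedHomogeneous w g) (h : d₀ + g = d₁) (a : Γ) (v : N.V) :
    f • N.shiftπ d₁ a v = N.shiftπ d₀ a (f • v) := by
  induction v using N.induction with
  | h0 => simp
  | hadd u v hu hv => simp only [map_add, smul_add, hu, hv]
  | h b v hv =>
    have h1 := GMod.smul_mem_part hf hv
    by_cases e : d₁ + b = a
    · subst e
      rw [N.shiftπ_add, GMod.mem_part.1 hv, ← h, add_assoc, N.shiftπ_add, GMod.mem_part.1 h1]
    · have e1 : N.shiftπ d₁ a v = 0 := by
        by_cases h2 : ∃ b', d₁ + b' = a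
        · obtain ⟨b', rfl⟩ := h2
          rw [N.shiftπ_add]
          exact GMod.π_of_mem_part hv fun e' => e (by rw [e'])
        · rw [N.shiftπ_of_not h2]; rfl
      rw [e1, smul_zero]
      by_cases h2 : ∃ b', d₀ + b' = a
      · obtain ⟨b', rfl⟩ := h2
        rw [N.shiftπ_add]
        exact (GMod.π_of_mem_part h1 fun e' => e (by rw [e', ← h, add_assoc])).symm
      · rw [N.shiftπ_of_not h2]; rfl

/-- A homogeneous matrix as a homomorphism of graded modules. -/
noncomputable def matHom (N : GMod K w) {β₀ β₁ : Type} [Fintype β₀] [Fintype β₁] {d₀ : β₀ → Γ}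
    {d₁ : β₁ → Γ} {D : Matrix β₀ β₁ (MvPolynomial τ K)} (h : MatHom w d₀ d₁ D) :
    GHom (N.fr d₁) (N.fr d₀) where
  f := mat D N.V
  comm a v := by
    funext b
    show ∑ c, D b c • N.shiftπ (d₁ c) a (v c) = N.shiftπ (d₀ b) a (∑ c, D b c • (show N.V from v c))
    rw [map_sum]
    refine Finset.sum_congr rfl fun c _ => ?_
    rcases h b c with h0 | ⟨g, hg, e⟩
    · simp [h0]
    · exact N.shift_smul_π hg e a _

omit [IsCancelAdd Γ] in
lemma GHom.hmg_range {M N : GMod K w} (f : GHom M N) : N.Hmg (LinearMap.range f.f) := by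
  rintro a _ ⟨v, rfl⟩
  exact ⟨M.π a v, f.comm a v⟩

omit [IsCancelAdd Γ] in
lemma GHom.hmg_ker {M N : GMod K w} (f : GHom M N) : M.Hmg (LinearMap.ker f.f) := by
  intro a v hv
  rw [LinearMap.mem_ker] at hv ⊢
  rw [f.comm, hv, map_zero]

/-- The cokernel of a homogeneous matrix with coefficients in `N`. -/
noncomputable def Pres.coker (A : Pres K w) (N : GMod K w) : GMod K w :=
  (N.fr A.d₀).quot (LinearMap.range (matHom N A.hom).f) (matHom N A.hom).hmg_range

/-- The Euler characteristic of a complex truncated at `c`. -/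
noncomputable def Cx.theta {A : Type} [AddCommGroup A] (F : Cx K w) (c : ℕ) (Λ : GMod K w → A)
    (N : GMod K w) : A :=
  ∑ i ∈ Finset.range c, (-1 : ℤ) ^ i • Λ ((F.free i).coker N) +
    (-1 : ℤ) ^ c • Λ ((F.pres c).coker N)

/-- `F` is a resolution of `M` over the quotient by `I`, up to modules killed by powers of `E`. -/
structure Cx.Resolves (F : Cx K w) {I : Ideal (MvPolynomial τ K)} (hI : WHomog w I)
    (E : Set (MvPolynomial τ K)) (M : GMod K w) : Prop where
  cx : F.IsCx I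
  ex : F.QEx E (MvPolynomial τ K ⧸ I)
  iso : GIso ((F.pres 0).coker (GMod.cyc I hI)) M

end Cancel

/-- The Hilbert function. -/
noncomputable def hf (N : GMod K w) (a : Γ) : ℤ := Module.finrank K (N.part a)

/-- The germ of the Hilbert function. -/
noncomputable def mu (l : Filter Γ) (N : GMod K w) : Germ l ℤ := (hf N : Γ → ℤ)

section Pull

variable {τ' Γ' : Type} [AddCommMonoid Γ'] {w' : τ' → Γ'}

/-- A graded homomorphism of polynomial rings. -/
structure Pb (K : Type) [Field K] (w : τ → Γ) (w' : τ' → Γ') where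
  ψ : τ → MvPolynomial τ' K
  ρ : Γ →+ Γ'
  hom : ∀ i, (ψ i).IsWeightedHomogeneous w' (ρ (w i))

/-- The algebra map. -/
noncomputable abbrev Pb.φ (P : Pb K w w') : MvPolynomial τ K →ₐ[K] MvPolynomial τ' K := aeval P.ψ

lemma Pb.map_hom (P : Pb K w w') {f : MvPolynomial τ K} {g : Γ}
    (hf : f.IsWeightedHomogeneous w g) : (P.φ f).IsWeightedHomogeneous w' (P.ρ g) := by
  classical
  rw [f.as_sum, map_sum]
  refine IsWeightedHomogeneous.sum _ _ _ fun m hm => ?_
  rw [← hf (mem_support_iff.1 hm), aeval_monomial, Finsupp.weight_apply, map_finsuppSum,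
    ← zero_add (Finsupp.sum _ _)]
  refine (isWeightedHomogeneous_C w' _).mul (IsWeightedHomogeneous.prod _ _ _ fun i _ => ?_)
  beta_reduce
  rw [map_nsmul]
  exact (P.hom i).pow _

lemma MatHom.map (P : Pb K w w') {β₀ β₁ : Type} {d₀ : β₀ → Γ} {d₁ : β₁ → Γ}
    {D : Matrix β₀ β₁ (MvPolynomial τ K)} (h : MatHom w d₀ d₁ D) :
    MatHom w' (P.ρ ∘ d₀) (P.ρ ∘ d₁) (D.map P.φ) := fun b c =>
  (h b c).imp (fun e => by simp [e]) fun ⟨g, hg, e⟩ =>
    ⟨P.ρ g, P.map_hom hg, by simp [← e]⟩

/-- The pull-back of a matrix. -/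
noncomputable def Pres.map (A : Pres K w) (P : Pb K w w') : Pres K w' :=
  ⟨A.β₀, A.β₁, P.ρ ∘ A.d₀, P.ρ ∘ A.d₁, A.D.map P.φ, A.hom.map P⟩

/-- The pull-back of a complex. -/
noncomputable def Cx.map (F : Cx K w) (P : Pb K w w') : Cx K w' :=
  ⟨F.β, fun i => P.ρ ∘ F.deg i, fun i => (F.D i).map P.φ, fun i => (F.hom i).map P⟩

end Pull

/-- Near every prime that does not contain `E` the quotient by `I` is etale over affine space of
dimension `e`. -/
def LocEt (I : Ideal (MvPolynomial τ K)) (E : Set (MvPolynomial τ K)) (e : ℕ) : Prop :=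
  ∀ p : PrimeSpectrum (MvPolynomial τ K), I ≤ p.asIdeal → (∃ f ∈ E, f ∉ p.asIdeal) →
    ∃ g ∉ p.asIdeal, ∃ t : Fin e → Localization.Away (Ideal.Quotient.mk I g),
      (aeval t : MvPolynomial (Fin e) K →ₐ[K] _).toRingHom.Etale

/-- The ideal is generated by polynomials with coefficients in the field with `Q` elements. -/
def DefOver (Q : ℕ) (J : Ideal (MvPolynomial τ K)) : Prop :=
  J ≤ Ideal.span {g | g ∈ J ∧ expand Q g = g ^ Q}

/-- Fields of characteristic `p` that are algebraic closures of the prime field. -/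
class FBar (K : Type) [Field K] (p : outParam ℕ) : Prop where
  prime : p.Prime
  char : CharP K p
  closed : IsAlgClosed K
  alg : ∀ x : K, ∃ m : ℕ, 0 < m ∧ x ^ p ^ m = x

/-- A smooth multiprojective scheme: the ideal `I`, the irrelevant monomials `E`, the filter `l` of
large degrees, the dimension `e` of the cone and the rank `r` of the grading. -/
structure Ctx (K : Type) [Field K] (w : τ → Γ) where
  I : Ideal (MvPolynomial τ K)
  hI : WHomog w I
  E : Set (MvPolynomial τ K)
  l : Filter Γ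
  e : ℕ
  r : ℕ
  neBot : l.NeBot
  et : LocEt I E e
  mon : ∀ f ∈ E, ∀ Q, expand Q f = f ^ Q
  fin_wt : ∀ a, {m : τ →₀ ℕ | Finsupp.weight w m = a}.Finite
  neg : ∀ N : GMod K w, Module.Finite (MvPolynomial τ K) N.V → Neg E N →
    ∀ᶠ a in l, N.part a = ⊥
  map_add : ∀ g, Filter.map (g + ·) l = l
  const : ∀ p : PrimeSpectrum (MvPolynomial τ K), (∃ f ∈ E, f ∉ p.asIdeal) → ∀ u : Γ → ℤ,
    (∀ i, X i ∉ p.asIdeal → ∀ᶠ a in l, u (w i + a) = u a) → ∃ c, ∀ᶠ a in l, u a = c
  fl : ℕ → Γ → Γ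
  fl_add : ∀ Q, 0 < Q → ∀ a b, fl Q (Q • a + b) = a + fl Q b
  fib : ℕ → Γ → Finset Γ
  mem_fib : ∀ Q, 0 < Q → ∀ a b, b ∈ fib Q a ↔ fl Q b = a
  card_fib : ∀ Q a, (fib Q a).card = Q ^ r
  fib_ev : ∀ Q, 0 < Q → ∀ S ∈ l, ∀ᶠ a in l, ∀ b ∈ fib Q a, b ∈ S

/-- The Frobenius pull-back. -/
noncomputable def frobPb (K : Type) [Field K] (w : τ → Γ) (Q : ℕ) : Pb K w w where
  ψ i := X i ^ Q
  ρ := nsmulAddMonoidHom Q
  hom i := (isWeightedHomogeneous_X K w i).pow Q

namespace Ctx

variable (C : Ctx K w)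

/-- The coordinate ring as a graded module. -/
noncomputable abbrev R : GMod K w := GMod.cyc C.I C.hI

/-- The Frobenius push-forward. -/
noncomputable def frobChg (Q : ℕ) (hQ : 0 < Q) : Chg K w w where
  ψ i := X i ^ Q
  ρ := C.fl Q
  compat i := ⟨Q • w i, (isWeightedHomogeneous_X K w i).pow Q, C.fl_add Q hQ (w i)⟩

/-- The subvarieties of the cone: homogeneous primes that contain `I`. -/
def HP (p : PrimeSpectrum (MvPolynomial τ K)) : Prop := WHomog w p.asIdeal ∧ C.I ≤ p.asIdeal

/-- Relevant primes. -/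
def Rel (p : PrimeSpectrum (MvPolynomial τ K)) : Prop := ∃ f ∈ C.E, f ∉ p.asIdeal

variable [IsCancelAdd Γ]

open Classical in
/-- The Euler characteristic of the derived tensor product. -/
noncomputable def chi (M N : GMod K w) : Germ C.l ℤ :=
  if h : ∃ F : Cx K w, F.Resolves C.hI C.E M then h.choose.theta C.e (mu C.l) N else 0

open Classical in
/-- The eventual value of the Euler characteristic. -/
noncomputable def ci (M N : GMod K w) : ℤ :=
  if h : ∃ c : ℤ, C.chi M N = c then h.choose else 0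

open Classical in
/-- The intersection number of two subvarieties. -/
noncomputable def ip (p q : PrimeSpectrum (MvPolynomial τ K)) : ℤ :=
  if h : C.HP p ∧ C.HP q ∧ dm K p + dm K q = C.e + C.r then
    C.ci (GMod.cyc p.asIdeal h.1.1) (GMod.cyc q.asIdeal h.2.1.1) else 0

/-- The intersection pairing on cycles. -/
noncomputable def bil : Cyc (MvPolynomial τ K) →ₗ[ℚ] Cyc (MvPolynomial τ K) →ₗ[ℚ] ℚ :=
  Finsupp.linearCombination ℚ fun p => Finsupp.linearCombination ℚ fun q => (C.ip p q : ℚ)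

end Ctx

end Pool.Agent.Lib.MP_557161_ag.DL
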