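import Pool.Agent.Lib.MP_557161_ag.DL.Defs
import Pool.Agent.Lib.MP_60ec62_ag.DF.Stm3

/-!
Realisations of a projective scheme: a vector space with a Frobenius, cycle classes and an action
of the subvarieties of the square.
-/

namespace Pool.Agent.Lib.MP_557161_ag.DL.Rl

open MvPolynomial Pool.Agent.Lib.MP_60ec62_ag.DL

variable {K : Type} [Field K] {σ : Type}

/-- The subvarieties of `X = Proj (K[x] / J)`. -/
def Sub (J : Ideal (MvPolynomial σ K)) : Set (PrimeSpectrum (MvPolynomial σ K)) :=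
  {P | Homog P.asIdeal ∧ J ≤ P.asIdeal ∧ ∃ s, X s ∉ P.asIdeal}

/-- The bidegrees of the variables `x` and `y`. -/
def biw (σ : Type) : σ ⊕ σ → ℕ × ℕ := Sum.elim (fun _ => (1, 0)) fun _ => (0, 1)

/-- The ideal `a(x) + b(y)` of a product. -/
noncomputable def box (a b : Ideal (MvPolynomial σ K)) : Ideal (MvPolynomial (σ ⊕ σ) K) :=
  a.map (rename Sum.inl) ⊔ b.map (rename Sum.inr)

/-- The subvarieties of `X × X`. -/
def Sq (J : Ideal (MvPolynomial σ K)) : Set (PrimeSpectrum (MvPolynomial (σ ⊕ σ) K)) :=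
  {Z | (∀ f ∈ Z.asIdeal, ∀ γ, weightedHomogeneousComponent (biw σ) γ f ∈ Z.asIdeal) ∧
    box J J ≤ Z.asIdeal ∧ ∃ s t, X (Sum.inl s) * X (Sum.inr t) ∉ Z.asIdeal}

open Classical in
/-- The order of vanishing of the form `f` along the prime divisor `z` of the subvariety `w` of
`X × X`. -/
noncomputable def ord (J : Ideal (MvPolynomial σ K))
    (w z : PrimeSpectrum (MvPolynomial (σ ⊕ σ) K)) (f : MvPolynomial (σ ⊕ σ) K) : ℕ :=
  if z ∈ Sq J ∧ w ⋖ z then (Module.length (Localization.AtPrime z.asIdeal)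
    (Localization.AtPrime z.asIdeal ⧸ (w.asIdeal ⊔ Ideal.span {f}).map
      (algebraMap _ (Localization.AtPrime z.asIdeal)))).toNat else 0

/-- The action of the subvarieties of `X × X` respects rational equivalence: the divisor of a
rational function `f / g` on a subvariety `w` acts by zero. -/
def Kills {H : Type} [AddCommGroup H] (J : Ideal (MvPolynomial σ K))
    (act : PrimeSpectrum (MvPolynomial (σ ⊕ σ) K) → H) : Prop :=
  ∀ w ∈ Sq J, ∀ (γ : ℕ × ℕ) (f g : MvPolynomial (σ ⊕ σ) K), f.IsWeightedHomogeneous (biw σ) γ →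
    g.IsWeightedHomogeneous (biw σ) γ → f ∉ w.asIdeal → g ∉ w.asIdeal →
    ∑ᶠ z, ord J w z f • act z = ∑ᶠ z, ord J w z g • act z

/-- The diagonal of the subvariety `P`: the points `(T y, y)` with `y` on the cone over `P`. -/
noncomputable def diag (P : PrimeSpectrum (MvPolynomial σ K)) :
    PrimeSpectrum (MvPolynomial (σ ⊕ σ) K) :=
  Stm.kerP (D := Polynomial (MvPolynomial σ K ⧸ P.asIdeal)) (aeval (R := K) (Sum.elim
    (fun s => Polynomial.X * Polynomial.C (Ideal.Quotient.mk P.asIdeal (X s)))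
    fun s => Polynomial.C (Ideal.Quotient.mk P.asIdeal (X s)))).toRingHom

/-- For every vector space with an endomorphism `Fr`, cycle classes and an action of the
subvarieties of `X × X` as correspondences, the Tate classes are algebraic. -/
def Tate (q : ℕ) (J : Ideal (MvPolynomial σ K)) : Prop :=
  ∀ (E V : Type) [Field E] [CharZero E] [AddCommGroup V] [Module E V] (Fr : Module.End E V)
    (cl : PrimeSpectrum (MvPolynomial σ K) → V) (cd : PrimeSpectrum (MvPolynomial σ K) → ℕ)
    (act : PrimeSpectrum (MvPolynomial (σ ⊕ σ) K) → Module.End E V), Kills J act →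
    (∀ a ∈ Sub J, ∀ b ∈ Sub J, ∀ Z, Z.asIdeal = box a.asIdeal b.asIdeal →
      ∀ x, ∃ c : E, act Z x = c • cl b) →
    ∑ᶠ P ∈ {P | Minimal (· ∈ Sub J) P}, act (diag P) = 1 →
    Stm.Compat q (Sub J) (Stm.tw q) Fr cl cd → Stm.Alg q (Sub J) (Stm.tw q) Fr cl cd

end Pool.Agent.Lib.MP_557161_ag.DL.Rl
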