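import Mathlib

/-!
Fields over a base field `K`, their places, residue fields and orders of vanishing.
-/

namespace Pool.Agent.Lib.MP_557161_ag.DL

open IsLocalRing

/-- A field extension of `K`. -/
structure Fld (K : Type) [Field K] where
  L : Type
  [fld : Field L]
  [alg : Algebra K L]

attribute [instance] Fld.fld Fld.alg

/-- Algebraically closed fields of positive characteristic. -/
class Base (K : Type) [Field K] : Prop where
  closed : IsAlgClosed K
  char : ∃ p : ℕ, p.Prime ∧ CharP K p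

variable {K : Type} [Field K]

instance [h : Base K] : IsAlgClosed K := h.closed

instance : CoeSort (Fld K) Type := ⟨Fld.L⟩

/-- The base field. -/
abbrev Fld.base (K : Type) [Field K] : Fld K := ⟨K⟩

/-- The algebraic closure. -/
noncomputable abbrev Fld.cl (L : Fld K) : Fld K := ⟨AlgebraicClosure L⟩

/-- The field of rational functions. -/
noncomputable abbrev Fld.rat (L : Fld K) : Fld K := ⟨RatFunc L⟩

/-- A subfield. -/
abbrev Fld.sub (L : Fld K) (F : IntermediateField K L) : Fld K := ⟨F⟩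

/-- The inclusion into the algebraic closure. -/
noncomputable def Fld.toCl (L : Fld K) : L →ₐ[K] L.cl :=
  IsScalarTower.toAlgHom K L (AlgebraicClosure L)

/-- The inclusion into the field of rational functions. -/
noncomputable def Fld.toRat (L : Fld K) : L →ₐ[K] L.rat := IsScalarTower.toAlgHom K L (RatFunc L)

/-- The transcendence degree. -/
noncomputable def Fld.tr (L : Fld K) : Cardinal := Algebra.trdeg K L

/-- Finitely generated fields of transcendence degree `j`. -/
def Good (j : ℕ) (L : Fld K) : Prop := Algebra.EssFiniteType K L ∧ L.tr = j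

variable {L L' M M' M'' : Fld K}

/-- The degree of a field extension (zero if infinite). -/
noncomputable def deg (ι : L →ₐ[K] L') : ℕ :=
  letI := ι.toRingHom.toAlgebra
  Module.finrank L L'

/-- The norm of a field extension. -/
noncomputable def nrm (ι : L →ₐ[K] L') (x : L') : L :=
  letI := ι.toRingHom.toAlgebra
  Algebra.norm L x

/-- Finite extensions. -/
def Fin' (ι : L →ₐ[K] L') : Prop := ι.toRingHom.Finite

/-- `T` is transcendental over the image of `ι`. -/
def Trans' (ι : L →ₐ[K] L') (T : L') : Prop :=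
  ∀ P : Polynomial L, P.eval₂ ι.toRingHom T = 0 → P = 0

/-- The field `L'` is generated by the image of `ι` and `T`. -/
def Gen (ι : L →ₐ[K] L') (T : L') : Prop :=
  ∀ x : L', ∃ P Q : Polynomial L, Q.eval₂ ι.toRingHom T ≠ 0 ∧
    x * Q.eval₂ ι.toRingHom T = P.eval₂ ι.toRingHom T

/-- The places of `M` over `K`. -/
structure Pl (M : Fld K) where
  O : ValuationSubring M
  const : ∀ c : K, algebraMap K M c ∈ O

namespace Pl

@[ext] lemma ext {O O' : Pl M} (h : ∀ x, x ∈ O.O ↔ x ∈ O'.O) : O = O' := by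
  obtain ⟨O, _⟩ := O
  obtain ⟨O', _⟩ := O'
  obtain rfl : O = O' := ValuationSubring.ext _ _ h
  rfl

variable (O : Pl M)

/-- The constants in the valuation ring. -/
def cst : K →+* O.O := (algebraMap K M).codRestrict O.O.toSubring O.const

/-- The residue field. -/
noncomputable def res : Fld K :=
  @Fld.mk K _ (ResidueField O.O) _ ((residue O.O).comp O.cst).toAlgebra

/-- The residue map. -/
noncomputable def rh : O.O →+* O.res := residue O.O

lemma rh_eq_zero (x : O.O) : O.rh x = 0 ↔ x ∈ maximalIdeal O.O := residue_eq_zero_iff x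

lemma rh_surj : Function.Surjective O.rh := residue_surjective

open Classical in
/-- The residue of an element (zero outside the valuation ring). -/
noncomputable def rd (x : M) : O.res := if h : x ∈ O.O then O.rh ⟨x, h⟩ else 0

lemma rd_of_mem {x : M} (h : x ∈ O.O) : O.rd x = O.rh ⟨x, h⟩ := dif_pos h

lemma rd_of_not_mem {x : M} (h : x ∉ O.O) : O.rd x = 0 := dif_neg h

lemma rd_coe (x : O.O) : O.rd x = O.rh x := dif_pos x.2

lemma rd_add {x y : M} (hx : x ∈ O.O) (hy : y ∈ O.O) : O.rd (x + y) = O.rd x + O.rd y := by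
  rw [rd_of_mem O hx, rd_of_mem O hy, rd_of_mem O (add_mem hx hy), ← map_add]; rfl

lemma rd_mul {x y : M} (hx : x ∈ O.O) (hy : y ∈ O.O) : O.rd (x * y) = O.rd x * O.rd y := by
  rw [rd_of_mem O hx, rd_of_mem O hy, rd_of_mem O (mul_mem hx hy), ← map_mul]; rfl

lemma rd_neg {x : M} (hx : x ∈ O.O) : O.rd (-x) = -O.rd x := by
  rw [rd_of_mem O hx, rd_of_mem O (neg_mem hx), ← map_neg]; rfl

lemma rd_sub {x y : M} (hx : x ∈ O.O) (hy : y ∈ O.O) : O.rd (x - y) = O.rd x - O.rd y := by
  rw [rd_of_mem O hx, rd_of_mem O hy, rd_of_mem O (sub_mem hx hy), ← map_sub]; rfl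

lemma rd_pow {x : M} (hx : x ∈ O.O) (n : ℕ) : O.rd (x ^ n) = O.rd x ^ n := by
  rw [rd_of_mem O hx, rd_of_mem O (pow_mem hx n), ← map_pow]; rfl

@[simp] lemma rd_zero : O.rd 0 = 0 := by
  rw [rd_of_mem O (zero_mem _)]; exact map_zero O.rh

@[simp] lemma rd_one : O.rd 1 = 1 := by
  rw [rd_of_mem O (one_mem _)]; exact map_one O.rh

@[simp] lemma rd_const (c : K) : O.rd (algebraMap K M c) = algebraMap K O.res c := by
  rw [rd_of_mem O (O.const c)]; rfl

lemma rd_sum {α : Type*} (s : Finset α) (f : α → M) (h : ∀ a ∈ s, f a ∈ O.O) :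
    O.rd (∑ a ∈ s, f a) = ∑ a ∈ s, O.rd (f a) := by
  classical
  induction s using Finset.induction_on with
  | empty => simp
  | insert a s ha ih =>
    rw [Finset.sum_insert ha, Finset.sum_insert ha, rd_add O (h a (by simp))
      (sum_mem fun b hb => h b (by simp [hb])), ih fun b hb => h b (by simp [hb])]

lemma rd_surj (c : O.res) : ∃ x ∈ O.O, O.rd x = c := by
  obtain ⟨x, rfl⟩ := O.rh_surj c
  exact ⟨x, x.2, O.rd_coe x⟩

/-- An element of the valuation ring has nonzero residue iff its inverse is integral. -/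
lemma rd_ne_zero_iff {x : M} (hx : x ∈ O.O) : O.rd x ≠ 0 ↔ x ≠ 0 ∧ x⁻¹ ∈ O.O := by
  rw [rd_of_mem O hx, Ne, rh_eq_zero, ← ValuationSubring.coe_mem_nonunits_iff,
    ValuationSubring.mem_nonunits_iff_or]
  simp

lemma rd_inv {x : M} (hx : x ∈ O.O) (h : O.rd x ≠ 0) : O.rd x⁻¹ = (O.rd x)⁻¹ := by
  obtain ⟨h0, h1⟩ := (O.rd_ne_zero_iff hx).1 h
  exact eq_inv_of_mul_eq_one_right (by rw [← rd_mul O hx h1, mul_inv_cancel₀ h0, rd_one])

/-- The place `O'` lies over the place `O`. -/
def Over (ι : M →ₐ[K] M') (O : Pl M) (O' : Pl M') : Prop := ∀ x, x ∈ O.O ↔ ι x ∈ O'.O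

/-- The restriction of a place. -/
def comap (ι : M →ₐ[K] M') (O' : Pl M') : Pl M :=
  ⟨O'.O.comap ι.toRingHom, fun c => by
    show ι (algebraMap K M c) ∈ O'.O
    rw [ι.commutes]; exact O'.const c⟩

lemma over_comap (ι : M →ₐ[K] M') (O' : Pl M') : Over ι (comap ι O') O' := fun _ => Iff.rfl

lemma Over.eq_comap {ι : M →ₐ[K] M'} {O : Pl M} {O' : Pl M'} (h : Over ι O O') :
    O = comap ι O' := Pl.ext h

/-- The map of valuation rings. -/
def Over.hom {ι : M →ₐ[K] M'} {O : Pl M} {O' : Pl M'} (h : Over ι O O') : O.O →+* O'.O :=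
  (ι.toRingHom.comp O.O.subtype).codRestrict O'.O.toSubring fun x => (h x).1 x.2

instance {ι : M →ₐ[K] M'} {O : Pl M} {O' : Pl M'} (h : Over ι O O') : IsLocalHom h.hom := by
  refine ⟨fun x hx => ?_⟩
  by_contra h1
  have h2 : (x : M) ∈ O.O.nonunits := ValuationSubring.coe_mem_nonunits_iff.2 h1
  have h3 : ¬ ((h.hom x : O'.O) : M') ∈ O'.O.nonunits := fun e =>
    ValuationSubring.coe_mem_nonunits_iff.1 e hx
  rw [ValuationSubring.mem_nonunits_iff_or] at h2 h3
  refine h3 (h2.imp (fun e => ?_) fun e e' => e ((h _).2 ?_))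
  · show ι x = 0
    rw [e, map_zero]
  · rw [map_inv₀]; exact e'

/-- The map of residue fields. -/
noncomputable def Over.resHom {ι : M →ₐ[K] M'} {O : Pl M} {O' : Pl M'} (h : Over ι O O') :
    O.res →ₐ[K] O'.res where
  toRingHom := ResidueField.map h.hom
  commutes' c := by
    show ResidueField.map h.hom (residue O.O (O.cst c)) = residue O'.O (O'.cst c)
    rw [ResidueField.map_residue]
    congr 1
    exact Subtype.ext (ι.commutes c)

lemma Over.resHom_rd {ι : M →ₐ[K] M'} {O : Pl M} {O' : Pl M'} (h : Over ι O O') (x : M) :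
    h.resHom (O.rd x) = O'.rd (ι x) := by
  by_cases hx : x ∈ O.O
  · rw [rd_of_mem O hx, rd_of_mem O' ((h x).1 hx)]; rfl
  · rw [rd_of_not_mem O hx, rd_of_not_mem O' fun e => hx ((h x).2 e), map_zero]

/-- The place is trivial on the image of `ι`. -/
def Triv (ι : L →ₐ[K] M) (O : Pl M) : Prop := ∀ x, ι x ∈ O.O

/-- The map to the residue field of a place that is trivial on a subfield. -/
noncomputable def Triv.hom {ι : L →ₐ[K] M} {O : Pl M} (h : Triv ι O) : L →ₐ[K] O.res where
  toRingHom := O.rh.comp (ι.toRingHom.codRestrict O.O.toSubring h)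
  commutes' c := by
    show O.rh _ = O.rh (O.cst c)
    congr 1
    exact Subtype.ext (ι.commutes c)

lemma Triv.hom_apply {ι : L →ₐ[K] M} {O : Pl M} (h : Triv ι O) (x : L) :
    h.hom x = O.rd (ι x) := (O.rd_of_mem (h x)).symm

/-- Discrete places. -/
def IsDVR : Prop := IsDiscreteValuationRing O.O

/-- Discrete places with residue field of transcendence degree `j`. -/
def IsDiv (j : ℕ) : Prop := O.IsDVR ∧ O.res.tr = j

open Classical in
/-- The order of vanishing at a discrete place. -/
noncomputable def ord (f : M) : ℤ :=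
  if h : f ∈ O.O then ((Ring.ord O.O ⟨f, h⟩).toNat : ℤ)
  else -((Ring.ord O.O ⟨f⁻¹, (O.O.mem_or_inv_mem f).resolve_left h⟩).toNat : ℤ)

end Pl

end Pool.Agent.Lib.MP_557161_ag.DL
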