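import Pool.Agent.Lib.MP_557161_ag.DL.ValC1

/-!
Commutative algebra of the Frobenius: rank, flatness, lengths.
-/

namespace Pool.Agent.Lib.MP_557161_ag.DL.Frob

open MvPolynomial TensorProduct
open Pool.Agent.Lib.MP_60ec62_ag.DL

/-- A module seen along a ring homomorphism. -/
def Tw {R D : Type} [CommRing R] [CommRing D] (_f : R →+* D) (M : Type) : Type := M

instance {R D M : Type} [CommRing R] [CommRing D] (f : R →+* D) [AddCommGroup M] :
    AddCommGroup (Tw f M) := inferInstanceAs (AddCommGroup M)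

instance {R D M : Type} [CommRing R] [CommRing D] (f : R →+* D) [AddCommGroup M] [Module D M] :
    Module R (Tw f M) := Module.compHom M f

/-- The rank of a ring homomorphism. -/
noncomputable def rk {R D : Type} [CommRing R] [CommRing D] (f : R →+* D) : ℕ :=
  Module.finrank R (Tw f D)

lemma finite_iff {R D : Type} [CommRing R] [CommRing D] (f : R →+* D) :
    f.Finite ↔ Module.Finite R (Tw f D) := Iff.rfl

lemma flat_iff {R D : Type} [CommRing R] [CommRing D] (f : R →+* D) :
    f.Flat ↔ Module.Flat R (Tw f D) := Iff.rfl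

section Expand

variable {K σ : Type} [CommRing K] [Fintype σ] {Q : ℕ}

/-- Small exponent vectors. -/
noncomputable def ex (α : σ → Fin Q) : σ →₀ ℕ := Finsupp.equivFunOnFinite.symm fun i => α i

/-- The polynomial ring is free over itself along `expand`. -/
noncomputable def exMap (K σ : Type) [CommRing K] [Fintype σ] [DecidableEq σ] (Q : ℕ) :
    ((σ → Fin Q) → MvPolynomial σ K) →ₗ[MvPolynomial σ K]
      Tw (expand Q : MvPolynomial σ K →ₐ[K] _).toRingHom (MvPolynomial σ K) where
  toFun v := (∑ α, expand Q (v α) * monomial (ex α) 1 : MvPolynomial σ K)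
  map_add' u v := by
    show (_ : MvPolynomial σ K) = _ + _
    simp only [Pi.add_apply, map_add, add_mul, Finset.sum_add_distrib]
  map_smul' r v := by
    show (_ : MvPolynomial σ K) = expand Q r * _
    simp only [Pi.smul_apply, smul_eq_mul, map_mul, Finset.mul_sum, mul_assoc]

lemma coeff_ex (hQ : 0 < Q) (f : MvPolynomial σ K) (β : σ →₀ ℕ) (α α' : σ → Fin Q) :
    coeff (Q • β + ex α) (expand Q f * monomial (ex α') 1) =
      open Classical in if α' = α then coeff β f else 0 := by
  classical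
  split_ifs with h
  · rw [h, coeff_mul_monomial, mul_one, coeff_expand_smul _ hQ.ne']
  · rw [coeff_mul_monomial']
    split_ifs with h'
    · obtain ⟨i, hi⟩ := Function.ne_iff.1 h
      rw [coeff_expand_of_not_dvd (i := i), zero_mul]
      rintro ⟨c, hc⟩
      have h1 : (α' i : ℕ) ≤ Q * β i + α i := h' i
      have h2 : Q * β i + α i - α' i = Q * c := hc
      have h3 : Q * β i + α i = Q * c + α' i := by omega
      have h4 := congrArg (· % Q) h3
      simp only [Nat.mul_add_mod, Nat.mod_eq_of_lt (Fin.is_lt _)] at h4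
      exact hi (Fin.ext h4.symm)
    · rfl

lemma exMap_bijective [DecidableEq σ] (hQ : 0 < Q) : Function.Bijective (exMap K σ Q) := by
  constructor
  · rw [injective_iff_map_eq_zero]
    intro v hv
    funext α
    ext β
    have h : coeff (Q • β + ex α) (∑ α, expand Q (v α) * monomial (ex α) 1 : MvPolynomial σ K) =
      0 := congrArg (coeff (Q • β + ex α)) hv
    rw [coeff_sum, Finset.sum_eq_single α (fun α' _ h => by rw [coeff_ex hQ, if_neg h])
      (by simp), coeff_ex hQ, if_pos rfl] at h
    simpa using h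
  · intro f
    induction (show MvPolynomial σ K from f) using MvPolynomial.induction_on' with
    | monomial u c =>
      let α : σ → Fin Q := fun i => ⟨u i % Q, Nat.mod_lt _ hQ⟩
      refine ⟨Pi.single α (monomial (u.mapRange (· / Q) (Nat.zero_div Q)) c), ?_⟩
      show (∑ α', expand Q _ * monomial (ex α') 1 : MvPolynomial σ K) = _
      rw [Finset.sum_eq_single α (fun α' _ h => by simp [Pi.single_eq_of_ne h]) (by simp),
        Pi.single_eq_same, expand_monomial, monomial_mul, mul_one]
      congr 2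
      ext i
      exact Nat.div_add_mod (u i) Q
    | add f g hf hg =>
      obtain ⟨u, hu⟩ := hf
      obtain ⟨v, hv⟩ := hg
      exact ⟨u + v, by rw [map_add, hu, hv]; rfl⟩

lemma expand_finite {σ : Type} [Finite σ] (hQ : 0 < Q) :
    (expand Q : MvPolynomial σ K →ₐ[K] _).toRingHom.Finite := by
  classical
  have := Fintype.ofFinite σ
  rw [finite_iff]
  exact Module.Finite.equiv (LinearEquiv.ofBijective _ (exMap_bijective (K := K) (σ := σ) hQ))

lemma expand_flat {σ : Type} [Finite σ] (hQ : 0 < Q) :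
    (expand Q : MvPolynomial σ K →ₐ[K] _).toRingHom.Flat := by
  classical
  have := Fintype.ofFinite σ
  rw [flat_iff]
  exact Module.Flat.of_linearEquiv
    (LinearEquiv.ofBijective _ (exMap_bijective (K := K) (σ := σ) hQ)).symm

lemma rk_expand [Nontrivial K] (hQ : 0 < Q) :
    rk (expand Q : MvPolynomial σ K →ₐ[K] _).toRingHom = Q ^ Fintype.card σ := by
  classical
  rw [rk, ← (LinearEquiv.ofBijective _ (exMap_bijective (K := K) (σ := σ) hQ)).finrank_eq]
  simp

end Expand

section Rank

variable {A B C : Type} [CommRing A] [CommRing B] [CommRing C]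

lemma rk_algebraMap [Algebra A B] : rk (algebraMap A B) = Module.finrank A B :=
  (AddEquiv.toLinearEquiv (R := A) (M := B) (M₂ := Tw (algebraMap A B) B) (AddEquiv.refl B)
    fun c x => Algebra.smul_def c x).finrank_eq.symm

lemma rk_comp [IsDomain C] (f : A →+* B) (g : B →+* C) (hg : Function.Injective g) :
    rk (g.comp f) = rk f * rk g := by
  algebraize [f, g, g.comp f]
  have : FaithfulSMul B C := (faithfulSMul_iff_algebraMap_injective B C).2 hg
  exact (Module.finrank_mul_finrank' (R := A) (S := B) C).symm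

lemma rk_bij [Nontrivial A] (f : A →+* B) (hf : Function.Bijective f) : rk f = 1 := by
  algebraize [f]
  exact ((LinearEquiv.ofBijective (Algebra.linearMap A B) hf).finrank_eq.symm).trans
    (Module.finrank_self A)

lemma rk_pos [IsDomain B] (f : A →+* B) (hf : Function.Injective f) (h : f.Finite) :
    0 < rk f := by
  algebraize [f]
  have : FaithfulSMul A B := (faithfulSMul_iff_algebraMap_injective A B).2 hf
  have : IsDomain A := hf.isDomain
  exact Module.finrank_pos (R := A) (M := B)

variable {K : Type} [Field K] (p : ℕ) [ExpChar K p] [PerfectRing K p] (m : ℕ)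

/-- The twist of the coefficients. -/
noncomputable def tw (K : Type) [Field K] (p : ℕ) [ExpChar K p] [PerfectRing K p] (m : ℕ)
    (σ : Type) : MvPolynomial σ K ≃+* MvPolynomial σ K :=
  MvPolynomial.mapEquiv σ (iterateFrobeniusEquiv K p m)

lemma tw_apply {σ : Type} (f : MvPolynomial σ K) :
    tw K p m σ f = MvPolynomial.map (iterateFrobenius K p m) f := rfl

lemma expand_tw {σ : Type} (f : MvPolynomial σ K) :
    expand (p ^ m) (tw K p m σ f) = f ^ p ^ m := by
  rw [tw_apply, ← map_expand, map_iterateFrobenius_expand]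

lemma expand_eq {σ : Type} (f : MvPolynomial σ K) :
    expand (p ^ m) f = (tw K p m σ).symm f ^ p ^ m := by
  rw [← expand_tw, RingEquiv.apply_symm_apply]

/-- The absolute Frobenius of a polynomial ring. -/
noncomputable def fr (K : Type) [Field K] (p : ℕ) [ExpChar K p] [PerfectRing K p] (m : ℕ)
    (σ : Type) : MvPolynomial σ K →+* MvPolynomial σ K :=
  (expand (p ^ m) : MvPolynomial σ K →ₐ[K] _).toRingHom.comp (tw K p m σ).toRingHom

lemma fr_apply {σ : Type} (f : MvPolynomial σ K) : fr K p m σ f = f ^ p ^ m := expand_tw p m f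

lemma fr_flat {σ : Type} [Finite σ] : (fr K p m σ).Flat :=
  RingHom.Flat.comp (RingHom.Flat.of_bijective (tw K p m σ).bijective)
    (expand_flat (expChar_pow_pos K p m))

lemma rk_fr {σ : Type} [Fintype σ] : rk (fr K p m σ) = (p ^ m) ^ Fintype.card σ := by
  rw [fr, rk_comp _ _ (expand_injective (expChar_pow_pos K p m)),
    rk_bij (tw K p m σ).toRingHom (tw K p m σ).bijective, one_mul, rk_expand (expChar_pow_pos K p m)]

/-- The degree of the Frobenius of a finitely generated domain. -/
lemma rk_frob [IsDomain B] [Algebra K B] [Algebra.FiniteType K B] (ψ θ : A →+* B)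
    (hθ : Function.Bijective θ) (h : ∀ x, ψ x = θ x ^ p ^ m) :
    rk ψ = (p ^ m) ^ Cardinal.toNat (Algebra.trdeg K B) := by
  obtain ⟨s, g, hg, hf⟩ := exists_finite_inj_algHom_of_fg K B
  have hs : Algebra.trdeg K B = s := by
    have := Dim.trdeg_eq_of_alg g hg (by
      have hf' : g.toRingHom.Finite := hf
      algebraize [g.toRingHom]
      exact fun b => Algebra.IsAlgebraic.isAlgebraic b)
    rw [← this]
    simp
  have : IsDomain A := hθ.1.isDomain
  let e := RingEquiv.ofBijective θ hθ
  let ι : MvPolynomial (Fin s) K →+* A := e.symm.toRingHom.comp g.toRingHom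
  have hι : ∀ x, θ (ι x) = g x := fun x => e.apply_symm_apply _
  have hψ : Function.Injective ψ := by
    rw [injective_iff_map_eq_zero]
    intro x hx
    rw [h] at hx
    exact hθ.1 (by rw [pow_eq_zero_iff (expChar_pow_pos K p m).ne' |>.1 hx, map_zero])
  have e1 : ψ.comp ι = g.toRingHom.comp (fr K p m (Fin s)) := RingHom.ext fun x => by
    simp [h, hι, fr_apply]
  have e2 : θ.comp ι = g.toRingHom := RingHom.ext hι
  have h1 := rk_comp ι ψ hψ
  have h2 := rk_comp ι θ hθ.1
  rw [e1, rk_comp _ _ hg, rk_fr] at h1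
  rw [e2, rk_bij θ hθ, mul_one] at h2
  have h3 := rk_pos g.toRingHom hg hf
  rw [← h2, mul_comm] at h1
  rw [hs, Cardinal.toNat_natCast, ← Nat.eq_of_mul_eq_mul_left h3 h1, Fintype.card_fin]

/-- The Frobenius of an etale algebra over a polynomial ring is flat. -/
lemma frob_flat {σ : Type} [Finite σ] (α : MvPolynomial σ K →+* A) (hα : α.Etale) (F : A →+* A)
    (hF : ∀ x, F x = x ^ p ^ m) : F.Flat := by
  have e : F.comp α = α.comp (fr K p m σ) := RingHom.ext fun x => by simp [hF, fr_apply]
  have h1 : (F.comp α).Flat := by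
    rw [e]
    refine (fr_flat p m).comp ?_
    algebraize [α]
    exact RingHom.flat_algebraMap_iff.2 inferInstance
  rw [flat_iff] at h1 ⊢
  algebraize [α]
  let : Module (MvPolynomial σ K) (Tw F A) := Module.compHom A (F.comp α)
  have : IsScalarTower (MvPolynomial σ K) A (Tw F A) := ⟨fun r a x => by
    show F (α r * a) * (show A from x) = F (α r) * (F a * (show A from x))
    rw [map_mul, mul_assoc]⟩
  have : Module.Flat (MvPolynomial σ K) (Tw F A) := h1
  exact Algebra.FormallyUnramified.flat_of_restrictScalars (MvPolynomial σ K) A (Tw F A)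

end Rank

section Len

variable {R D : Type} [CommRing R] [CommRing D]

lemma len_free (M N : Type) [AddCommGroup M] [Module R M] [AddCommGroup N] [Module R N]
    [Nontrivial R] [Module.Finite R M] [Module.Free R M] :
    Module.length R (M ⊗[R] N) = Module.finrank R M * Module.length R N := by
  let e : M ⊗[R] N ≃ₗ[R] (Fin (Module.finrank R M) →₀ N) :=
    TensorProduct.congr (Module.finBasis R M).repr (LinearEquiv.refl _ _) ≪≫ₗ
      finsuppScalarLeft _ _ _
  rw [e.length_eq, Module.length_finsupp]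
  simp

lemma len_tensor (z : PrimeSpectrum R) (M N : Type) [AddCommGroup M] [Module R M] [AddCommGroup N]
    [Module R N] [Module.Finite R M] [Module.Flat R M] :
    lenAt z (M ⊗[R] N) = Module.rankAtStalk M z * lenAt z N := by
  let B := Localization.AtPrime z.asIdeal
  have : Module.Free B (B ⊗[R] M) := Module.free_of_flat_of_isLocalRing
  let e : B ⊗[R] (M ⊗[R] N) ≃ₗ[B] (B ⊗[R] M) ⊗[B] (B ⊗[R] N) :=
    (AlgebraTensorModule.assoc _ _ _ _ _ _).symm ≪≫ₗ
      (AlgebraTensorModule.cancelBaseChange _ _ _ _ _).symm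
  have h := LinearEquiv.length_eq (R := B) (M := B ⊗[R] (M ⊗[R] N))
    (N := (B ⊗[R] M) ⊗[B] (B ⊗[R] N)) e
  rw [lenAt, lenAt, (LocalizedModule.equivTensorProduct z.asIdeal.primeCompl _).length_eq,
    (LocalizedModule.equivTensorProduct z.asIdeal.primeCompl N).length_eq,
    Module.rankAtStalk_eq_finrank_tensorProduct]
  exact h.trans (len_free _ _)

lemma len_rank (z : PrimeSpectrum R) (E M : Type) [CommRing E] [IsDomain E] [Algebra R E]
    (hs : Function.Surjective (algebraMap R E)) (hz : ∀ r, algebraMap R E r = 0 ↔ r ∈ z.asIdeal)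
    [AddCommGroup M] [Module E M] [Module R M] [IsScalarTower R E M] :
    lenAt z M = Cardinal.toENat (Module.rank E M) := by
  let L := FractionRing E
  let N := LocalizedModule (nonZeroDivisors E) M
  have : IsScalarTower R L N := ⟨fun r l n => by
    rw [← algebraMap_smul E r l, smul_assoc, algebraMap_smul]⟩
  rw [ValC.lenAt_eq_length (R := L) z ?_ ?_
    ((LocalizedModule.mkLinearMap (nonZeroDivisors E) M).restrictScalars R) ?_ ?_,
    Module.length_eq_rank, IsLocalization.rank_eq L (nonZeroDivisors E) le_rfl,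
    IsLocalizedModule.rank_eq (nonZeroDivisors E) le_rfl
      (LocalizedModule.mkLinearMap (nonZeroDivisors E) M)]
  · intro a ha
    rw [IsScalarTower.algebraMap_apply R E L]
    exact IsLocalization.map_units L
      (⟨_, mem_nonZeroDivisors_of_ne_zero (mt (hz a).1 ha)⟩ : nonZeroDivisors E)
  · intro l
    obtain ⟨⟨a, b, hb⟩, e⟩ := IsLocalization.surj (nonZeroDivisors E) l
    obtain ⟨a, rfl⟩ := hs a
    obtain ⟨b, rfl⟩ := hs b
    exact ⟨a, b, mt (hz b).2 (nonZeroDivisors.ne_zero hb), e⟩
  · intro n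
    obtain ⟨⟨a, b, hb⟩, e⟩ := IsLocalizedModule.surj (nonZeroDivisors E)
      (LocalizedModule.mkLinearMap (nonZeroDivisors E) M) n
    obtain ⟨b, rfl⟩ := hs b
    exact ⟨a, b, mt (hz b).2 (nonZeroDivisors.ne_zero hb), by
      rw [← algebraMap_smul E b n]; exact e⟩
  · intro n hn
    obtain ⟨⟨b, hb⟩, e⟩ := (IsLocalizedModule.eq_zero_iff (nonZeroDivisors E)
      (LocalizedModule.mkLinearMap (nonZeroDivisors E) M)).1 hn
    obtain ⟨b, rfl⟩ := hs b
    exact ⟨b, mt (hz b).2 (nonZeroDivisors.ne_zero hb), by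
      rw [← algebraMap_smul E b n]; exact e⟩

variable [Algebra R D]

lemma len_down_aux (q : PrimeSpectrum D)
    (h : ∀ s ∉ q.asIdeal, ∃ r, algebraMap R D r ∉ q.asIdeal ∧ s ∣ algebraMap R D r) :
    ∃ c : ℕ∞, ∀ (N : Type) [AddCommGroup N] [Module D N] [Module R N] [IsScalarTower R D N],
      lenAt (PrimeSpectrum.comap (algebraMap R D) q) N = lenAt q N * c := by
  set z := PrimeSpectrum.comap (algebraMap R D) q
  have : q.asIdeal.LiesOver z.asIdeal := ⟨rfl⟩
  let := Localization.AtPrime.algebraOfLiesOver z.asIdeal q.asIdeal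
  let B₀ := Localization.AtPrime z.asIdeal
  let B := Localization.AtPrime q.asIdeal
  refine ⟨Module.length (IsLocalRing.ResidueField B₀) (IsLocalRing.ResidueField B),
    fun N _ _ _ _ => ?_⟩
  let N' := LocalizedModule q.asIdeal.primeCompl N
  let : Module B₀ N' := Module.compHom N' (algebraMap B₀ B)
  have : IsScalarTower B₀ B N' := ⟨fun s r n => mul_smul (algebraMap B₀ B s) r n⟩
  have : IsScalarTower R B N' := ⟨fun r l n => by
    rw [← algebraMap_smul D r l, smul_assoc, algebraMap_smul]⟩
  have : IsScalarTower R B₀ N' := ⟨fun r l n => by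
    rw [← algebraMap_smul B l n, ← smul_assoc, ← algebraMap_smul B (r • l) n, Algebra.smul_def,
      Algebra.smul_def, map_mul, ← IsScalarTower.algebraMap_apply]⟩
  refine Eq.trans ?_ (IsLocalRing.length_restrictScalars B₀ B N')
  refine ValC.lenAt_eq_length (R := B₀) z (fun a ha => ?_) (fun l => ?_)
    ((LocalizedModule.mkLinearMap q.asIdeal.primeCompl N).restrictScalars R) (fun n => ?_)
    (fun n hn => ?_)
  · exact IsLocalization.map_units B₀ (⟨a, ha⟩ : z.asIdeal.primeCompl)
  · obtain ⟨⟨a, b, hb⟩, e⟩ := IsLocalization.surj z.asIdeal.primeCompl l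
    exact ⟨a, b, hb, e⟩
  · obtain ⟨⟨a, s, hs⟩, e⟩ := IsLocalizedModule.surj q.asIdeal.primeCompl
      (LocalizedModule.mkLinearMap q.asIdeal.primeCompl N) n
    obtain ⟨r, hr, t, ht⟩ := h s hs
    refine ⟨t • a, r, hr, ?_⟩
    have e' : s • n = LocalizedModule.mkLinearMap q.asIdeal.primeCompl N a := e
    rw [← algebraMap_smul D r n, ht, mul_comm, mul_smul, e', ← map_smul]
    rfl
  · obtain ⟨⟨s, hs⟩, e⟩ := (IsLocalizedModule.eq_zero_iff q.asIdeal.primeCompl
      (LocalizedModule.mkLinearMap q.asIdeal.primeCompl N)).1 hn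
    obtain ⟨r, hr, t, ht⟩ := h s hs
    have e' : s • n = 0 := e
    exact ⟨r, hr, by rw [← algebraMap_smul D r n, ht, mul_comm, mul_smul, e', smul_zero]⟩

lemma len_down (q : PrimeSpectrum D)
    (h : ∀ s ∉ q.asIdeal, ∃ r, algebraMap R D r ∉ q.asIdeal ∧ s ∣ algebraMap R D r)
    (N : Type) [AddCommGroup N] [Module D N] [Module R N] [IsScalarTower R D N] :
    lenAt (PrimeSpectrum.comap (algebraMap R D) q) N =
      lenAt q N * lenAt (PrimeSpectrum.comap (algebraMap R D) q) (D ⧸ q.asIdeal) := by
  obtain ⟨c, hc⟩ := len_down_aux q h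
  rw [hc, hc, CycA.lenAt_self, one_mul]

variable {K : Type} [Field K] (p : ℕ) [ExpChar K p] [PerfectRing K p] (m : ℕ) [Algebra K D]
  [Algebra.FiniteType K D]

lemma len_push (θ : R →+* D) (hθ : Function.Surjective θ)
    (h : ∀ x, algebraMap R D x = θ x ^ p ^ m) (q : PrimeSpectrum D)
    (N : Type) [AddCommGroup N] [Module D N] [Module R N] [IsScalarTower R D N] :
    lenAt (PrimeSpectrum.comap (algebraMap R D) q) N =
      lenAt q N * ((p ^ m) ^ dm K q : ℕ) := by
  have hQ := expChar_pow_pos K p m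
  have hq : ∀ x, algebraMap R D x ∈ q.asIdeal ↔ θ x ∈ q.asIdeal := fun x => by
    rw [h, q.isPrime.pow_mem_iff_mem _ hQ]
  rw [len_down q (fun s hs => by
    obtain ⟨r, rfl⟩ := hθ s
    exact ⟨r, mt (hq r).1 hs, h r ▸ dvd_pow_self _ hQ.ne'⟩)]
  congr 1
  set z := PrimeSpectrum.comap (algebraMap R D) q
  have : q.asIdeal.LiesOver z.asIdeal := ⟨rfl⟩
  rw [len_rank z (R ⧸ z.asIdeal) _ Ideal.Quotient.mk_surjective
    fun r => Ideal.Quotient.eq_zero_iff_mem]
  have h1 := rk_frob (K := K) p m (algebraMap (R ⧸ z.asIdeal) (D ⧸ q.asIdeal))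
    (Ideal.quotientMap q.asIdeal θ fun x hx => (hq x).1 hx)
    ⟨Ideal.quotientMap_injective' fun x hx => (hq x).2 hx, Ideal.quotientMap_surjective hθ⟩
    (fun x => by
      obtain ⟨x, rfl⟩ := Ideal.Quotient.mk_surjective x
      exact (congrArg (Ideal.Quotient.mk q.asIdeal) (h x)).trans (map_pow _ _ _))
  have h2 : Module.rank (R ⧸ z.asIdeal) (D ⧸ q.asIdeal) = ((p ^ m) ^ dm K q : ℕ) :=
    (Cardinal.toNat_eq_iff (pow_pos hQ _).ne').1 (rk_algebraMap.symm.trans h1)
  rw [h2, Cardinal.toENat_nat]

lemma len_pull [Module.Finite R D] [Module.Flat R D] (θ : R →+* D) (hθ : Function.Surjective θ)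
    (h : ∀ x, algebraMap R D x = θ x ^ p ^ m) {a b : PrimeSpectrum D} (hab : b ≤ a)
    (h1 : lenAt b D = 1) (h2 : lenAt (PrimeSpectrum.comap (algebraMap R D) b) R = 1) :
    lenAt a (D ⧸ (PrimeSpectrum.comap (algebraMap R D) a).asIdeal.map (algebraMap R D)) *
      ((p ^ m) ^ dm K a : ℕ) = ((p ^ m) ^ dm K b : ℕ) := by
  have e := len_push (K := K) p m θ hθ h b D
  rw [h1, one_mul, ← CycA.lenAt_congr (TensorProduct.rid R D), len_tensor, h2,
    Module.rankAtStalk_eq_of_le_of_finite_of_flat D
      (p := PrimeSpectrum.comap (algebraMap R D) b) (q := PrimeSpectrum.comap (algebraMap R D) a)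
      fun x hx => hab hx] at e
  rw [← len_push p m θ hθ h, CycA.lenAt_congr
    ((Algebra.TensorProduct.quotIdealMapEquivTensorQuot D
      (PrimeSpectrum.comap (algebraMap R D) a).asIdeal).toLinearEquiv.restrictScalars R),
    len_tensor, CycA.lenAt_self, e]

omit [Algebra R D] in
lemma len_tw (ψ θ : R →+* D) (hθ : Function.Surjective θ) (h : ∀ x, ψ x = θ x ^ p ^ m)
    (q : PrimeSpectrum D) (N : Type) [AddCommGroup N] [Module D N] :
    lenAt (PrimeSpectrum.comap ψ q) (Tw ψ N) = lenAt q N * ((p ^ m) ^ dm K q : ℕ) := by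
  algebraize [ψ]
  let : Module D (Tw ψ N) := inferInstanceAs (Module D N)
  have : IsScalarTower R D (Tw ψ N) := ⟨fun r a x => mul_smul (ψ r) a x⟩
  exact len_push p m θ hθ h q (Tw ψ N)

omit [Algebra R D] in
lemma len_pull' (ψ θ : R →+* D) (hθ : Function.Surjective θ) (h : ∀ x, ψ x = θ x ^ p ^ m)
    (hf : ψ.Finite) (hf' : ψ.Flat) {a b : PrimeSpectrum D} (hab : b ≤ a)
    (h1 : lenAt b D = 1) (h2 : lenAt (PrimeSpectrum.comap ψ b) R = 1) :
    lenAt a (D ⧸ (PrimeSpectrum.comap ψ a).asIdeal.map ψ) *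
      ((p ^ m) ^ dm K a : ℕ) = ((p ^ m) ^ dm K b : ℕ) := by
  algebraize [ψ]
  exact len_pull p m θ hθ h hab h1 h2

end Len

/-- Flat maps preserve exactness of matrices. -/
lemma flat_exact {S R A : Type} [CommRing S] [CommRing R] [CommRing A] (π : S →+* R) (ψ : R →+* A)
    (hψ : ψ.Flat) {β₀ β₁ β₂ : Type} [Finite β₀] [Fintype β₁] [Fintype β₂] (D : Matrix β₀ β₁ S)
    (D' : Matrix β₁ β₂ S) (f : R)
    (h : ∀ v : β₁ → R, (∀ b, ∑ c, π (D b c) * v c = 0) →
      ∃ z : β₂ → R, ∀ c, f * v c = ∑ c', π (D' c c') * z c')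
    (v : β₁ → A) (hv : ∀ b, ∑ c, ψ (π (D b c)) * v c = 0) :
    ∃ z : β₂ → A, ∀ c, ψ f * v c = ∑ c', ψ (π (D' c c')) * z c' := by
  classical
  have := Fintype.ofFinite β₀
  algebraize [ψ]
  let x : (β₁ → R) →ₗ[R] A := Fintype.linearCombination R v
  let g : (β₀ → R) →ₗ[R] (β₁ → R) := Fintype.linearCombination R fun b c => π (D b c)
  have hx : x ∘ₗ g = 0 := by
    refine (Pi.basisFun R β₀).ext fun b => ?_
    simp only [x, g, LinearMap.comp_apply, Pi.basisFun_apply,
      Fintype.linearCombination_apply_single, one_smul, LinearMap.zero_apply]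
    rw [Fintype.linearCombination_apply]
    exact hv b
  obtain ⟨k, a, y, e1, e2⟩ := Module.Flat.exists_factorization_of_comp_eq_zero_of_free hx
  have h1 : ∀ j b, ∑ c, π (D b c) * a (Pi.single c 1) j = 0 := fun j b => by
    have h2 := LinearMap.congr_fun e2 (Pi.single b 1)
    simp only [g, LinearMap.comp_apply, Fintype.linearCombination_apply_single, one_smul,
      LinearMap.zero_apply] at h2
    rw [← Finset.univ_sum_single fun c => π (D b c), map_sum] at h2
    have h3 := DFunLike.congr_fun h2 j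
    rw [Finsupp.finset_sum_apply] at h3
    refine Eq.trans (Finset.sum_congr rfl fun c _ => ?_) h3
    rw [← smul_eq_mul, ← Finsupp.smul_apply, ← map_smul, ← Pi.single_smul', smul_eq_mul, mul_one]
  choose z hz using fun j => h _ (h1 j)
  refine ⟨fun c' => ∑ j, ψ (z j c') * y (Finsupp.single j 1), fun c => ?_⟩
  have h2 : v c = ∑ j, ψ (a (Pi.single c 1) j) * y (Finsupp.single j 1) := by
    have h3 := LinearMap.congr_fun e1 (Pi.single c 1)
    simp only [x, Fintype.linearCombination_apply_single, one_smul, LinearMap.comp_apply] at h3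
    rw [h3, ← Finsupp.univ_sum_single (a (Pi.single c 1)), map_sum]
    refine Finset.sum_congr rfl fun j _ => ?_
    rw [Finsupp.univ_sum_single, ← Finsupp.smul_single_one, map_smul]
    rfl
  rw [h2, Finset.mul_sum]
  simp only [Finset.mul_sum, ← mul_assoc, ← map_mul, hz, map_sum, Finset.sum_mul]
  exact Finset.sum_comm

end Pool.Agent.Lib.MP_557161_ag.DL.Frob
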