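import Pool.Agent.Lib.MP_557161_ag.DL.CxA

/-!
The projection formula for the Frobenius on cokernels.
-/

namespace Pool.Agent.Lib.MP_557161_ag.DL.Frob

open MvPolynomial Filter

variable {K : Type} [Field K] {τ Γ : Type} [AddCommMonoid Γ] {w : τ → Γ}

lemma pres_ext {β₀ β₁ : Type} {i₀ : Fintype β₀} {i₁ : Fintype β₁} {d₀ : β₀ → Γ} {d₁ d₁' : β₁ → Γ}
    {D D' : Matrix β₀ β₁ (MvPolynomial τ K)} {h : MatHom w d₀ d₁ D} {h' : MatHom w d₀ d₁' D'}
    (e : d₁ = d₁') (e' : D = D') : Pres.mk β₀ β₁ d₀ d₁ D h = Pres.mk β₀ β₁ d₀ d₁' D' h' := by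
  subst e e'
  rfl

lemma free_map {β : Type} [Fintype β] (d : β → Γ) (P : Pb K w w) :
    Pres.free K w (P.ρ ∘ d) = (Pres.free K w d).map P :=
  pres_ext (h := (Pres.free K w (P.ρ ∘ d)).hom) (h' := ((Pres.free K w d).map P).hom)
    (funext fun c => Empty.elim c) (Matrix.ext fun _ c => Empty.elim c)

lemma hf_res {τ' Γ' : Type} [AddCommMonoid Γ']
    {w' : τ' → Γ'} (M : GMod K w) (c : Chg K w w') (a : Γ') (s : Finset Γ)
    (hs : ∀ b, b ∈ s ↔ c.ρ b = a) (hM : ∀ b, Module.Finite K (M.part b)) :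
    hf (M.res c) a = ∑ b ∈ s, hf M b := by
  classical
  let f : (M.res c).part a →ₗ[K] ∀ b : s, M.part b :=
    LinearMap.pi fun b => (M.π b ∘ₗ ((M.res c).part a).subtype).codRestrict _
      fun v => M.π_mem_part b v.1
  have hf' : Function.Bijective f := by
    constructor
    · rw [injective_iff_map_eq_zero]
      rintro ⟨v, hv⟩ h
      refine Subtype.ext ((GMod.mem_part.1 hv).symm.trans
        (finsum_eq_zero_of_forall_eq_zero fun b => ?_))
      split_ifs with e
      · exact congrArg Subtype.val (congrFun h ⟨b, (hs b).2 e⟩)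
      · rfl
    · intro u
      refine ⟨⟨(∑ b : s, (u b).1 : M.V), Submodule.sum_mem _ fun b _ => ?_⟩,
        funext fun b => Subtype.ext ?_⟩
      · exact (GMod.resπ_of_mem_part c (u b).2 a).trans (if_pos ((hs b).1 b.2))
      · show M.π b (∑ b : s, (u b).1) = (u b).1
        rw [map_sum, Finset.sum_eq_single b (fun b' _ h => GMod.π_of_mem_part (u b').2
          fun e => h (Subtype.ext e.symm)) (by simp)]
        exact (u b).2
  rw [hf, (LinearEquiv.ofBijective f hf').finrank_eq, Module.finrank_pi_fintype,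
    ← Finset.sum_coe_sort s]
  simp [hf]

variable [IsCancelAdd Γ] (C : Ctx K w)

lemma fr_part {Q : ℕ} (hQ : 0 < Q) (N : GMod K w) {β : Type} [Fintype β] (d : β → Γ) {a : Γ}
    {v : (N.fr ((frobPb K w Q).ρ ∘ d)).V} (hv : v ∈ (N.fr ((frobPb K w Q).ρ ∘ d)).part a) :
    ((N.res (C.frobChg Q hQ)).fr d).π (C.fl Q a) v = v := by
  funext b
  have h : N.shiftπ (Q • d b) a (v b) = v b := congrFun hv b
  show (N.res (C.frobChg Q hQ)).shiftπ (d b) (C.fl Q a) (v b) = v b
  by_cases e : ∃ g, Q • d b + g = a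
  · obtain ⟨g, rfl⟩ := e
    rw [N.shiftπ_add] at h
    rw [C.fl_add Q hQ, GMod.shiftπ_add]
    exact (GMod.resπ_of_mem_part (C.frobChg Q hQ) h _).trans (if_pos rfl)
  · rw [N.shiftπ_of_not e] at h
    rw [← h]
    exact map_zero _

lemma coker_res {Q : ℕ} (hQ : 0 < Q) (B : Pres K w) (N : GMod K w) :
    GIso (B.coker (N.res (C.frobChg Q hQ)))
      (((B.map (frobPb K w Q)).coker N).res (C.frobChg Q hQ)) := by
  classical
  let U := LinearMap.range (matHom N (B.map (frobPb K w Q)).hom).f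
  let U' := LinearMap.range (matHom (N.res (C.frobChg Q hQ)) B.hom).f
  have hU : ∀ v, v ∈ U' ↔ v ∈ U := fun _ => Iff.rfl
  let g : ((N.res (C.frobChg Q hQ)).fr B.d₀).V →ₗ[MvPolynomial τ K]
      (((B.map (frobPb K w Q)).coker N).res (C.frobChg Q hQ)).V :=
    { toFun := fun v => U.mkQ v
      map_add' := fun _ _ => rfl
      map_smul' := fun _ _ => rfl }
  have hg : ∀ v, g v = 0 ↔ v ∈ U' := fun v => (Submodule.Quotient.mk_eq_zero U).trans (hU v).symm
  refine ⟨⟨U'.liftQ g fun v hv => (hg v).2 hv, fun a x => ?_⟩, ?_, fun x => ?_⟩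
  · obtain ⟨v, rfl⟩ := U'.mkQ_surjective x
    show g (((N.res (C.frobChg Q hQ)).fr B.d₀).π a v) =
      (((B.map (frobPb K w Q)).coker N).res (C.frobChg Q hQ)).π a (g v)
    induction v using (N.fr ((frobPb K w Q).ρ ∘ B.d₀)).induction with
    | h0 => exact (congrArg g (map_zero _)).trans (map_zero _).symm
    | hadd u v hu hv =>
      exact ((congrArg g (LinearMap.map_add _ u v)).trans ((g.map_add _ _).trans
        (congrArg₂ (· + ·) hu hv))).trans
        ((congrArg _ (g.map_add u v)).trans (LinearMap.map_add _ _ _)).symm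
    | h b v hv =>
      have h1 := fr_part C hQ N B.d₀ hv
      have h2 : g v ∈ ((B.map (frobPb K w Q)).coker N).part b := congrArg U.mkQ hv
      refine Eq.trans ?_ (GMod.resπ_of_mem_part (C.frobChg Q hQ) h2 a).symm
      split_ifs with e
      · exact congrArg g (e ▸ h1)
      · exact (congrArg g (GMod.π_of_mem_part h1 (Ne.symm e))).trans (map_zero g)
  · exact LinearMap.ker_eq_bot.1 (Submodule.ker_liftQ_eq_bot _ _ _ fun v hv => (hg v).1 hv)
  · obtain ⟨v, rfl⟩ := U.mkQ_surjective x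
    exact ⟨U'.mkQ v, rfl⟩

lemma hf_coker_res [Finite τ] {Q : ℕ} (hQ : 0 < Q) (B : Pres K w) {N : GMod K w}
    (hN : Module.Finite (MvPolynomial τ K) N.V) (a : Γ) :
    hf (B.coker (N.res (C.frobChg Q hQ))) a =
      ∑ b ∈ C.fib Q a, hf ((B.map (frobPb K w Q)).coker N) b := by
  have h : Adm ⊥ N := ⟨hN, fun f hf v => by rw [Ideal.mem_bot.1 hf, zero_smul]⟩
  rw [(coker_res C hQ B N).hf_eq]
  exact hf_res _ _ a _ (C.mem_fib Q hQ a) (finite_part C.fin_wt (h.coker _).1)

end Pool.Agent.Lib.MP_557161_ag.DL.Frob
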