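import Pool.Agent.Lib.MP_557161_ag.DL.L4
import Pool.Agent.Lib.MP_557161_ag.DL.Frob1
import Pool.Agent.Lib.MP_557161_ag.DL.Frob2

/-!
The Frobenius: fields of definition, local flatness, degrees, projection formula.
-/

namespace Pool.Agent.Lib.MP_557161_ag.DL

open MvPolynomial Filter
open Pool.Agent.Lib.MP_60ec62_ag.DL (dm cyc DimLE Cyc cm)

variable {K : Type} [Field K] {p : ℕ} [FBar K p] {τ Γ : Type} [Finite τ] [AddCommMonoid Γ]
  {w : τ → Γ}

namespace Frob

open Pool.Agent.Lib.MP_60ec62_ag.DL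

theorem expChar : ExpChar K p :=
  have : CharP K p := FBar.char
  ExpChar.prime (FBar.prime K)

attribute [local instance] expChar

theorem perfect : PerfectRing K p :=
  have : IsAlgClosed K := FBar.closed (p := p)
  inferInstance

attribute [local instance] perfect

omit [Finite τ] in
lemma mem_cm_expand (m : ℕ) (a : PrimeSpectrum (MvPolynomial τ K)) (f : MvPolynomial τ K) :
    tw K p m τ f ∈ (cm (expand (p ^ m)) a).asIdeal ↔ f ∈ a.asIdeal := by
  rw [mem_cm, expand_tw, a.isPrime.pow_mem_iff_mem _ (expChar_pow_pos K p m)]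

omit [Finite τ] in
lemma tw_mem {m : ℕ} {J : Ideal (MvPolynomial τ K)} (h : DefOver (p ^ m) J)
    (f : MvPolynomial τ K) : tw K p m τ f ∈ J ↔ f ∈ J := by
  have h1 : ∀ g, expand (p ^ m) g = g ^ p ^ m → tw K p m τ g = g := fun g hg =>
    expand_injective (expChar_pow_pos K p m) ((expand_tw p m g).trans hg.symm)
  have h2 : J ≤ J.comap (tw K p m τ) := h.trans (Ideal.span_le.2 fun g hg => by
    show tw K p m τ g ∈ J
    rw [h1 g hg.2]; exact hg.1)
  have h3 : J ≤ J.comap (tw K p m τ).symm := h.trans (Ideal.span_le.2 fun g hg => by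
    show (tw K p m τ).symm g ∈ J
    rw [← h1 g hg.2, RingEquiv.symm_apply_apply]; exact hg.1)
  exact ⟨fun hf => by simpa using h3 hf, fun hf => h2 hf⟩

omit [Finite τ] in
lemma comp_tw (m : ℕ) (g : Γ) (f : MvPolynomial τ K) :
    weightedHomogeneousComponent w g (tw K p m τ f) =
      tw K p m τ (weightedHomogeneousComponent w g f) := by
  classical
  ext u
  simp only [tw_apply, coeff_weightedHomogeneousComponent, coeff_map]
  split_ifs <;> simp

lemma exists_frob (m : ℕ) (A : Type) [CommRing A] [Algebra K A] [Algebra.FiniteType K A] :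
    ∃ F : A →+* A, (∀ x, F x = x ^ p ^ m) ∧ F.Finite := by
  cases subsingleton_or_nontrivial A
  · exact ⟨RingHom.id A, fun _ => Subsingleton.elim _ _, RingHom.Finite.id A⟩
  · have : ExpChar A p := expChar_of_injective_algebraMap (algebraMap K A).injective p
    have : CharP K p := FBar.char
    have : Fact p.Prime := ⟨FBar.prime K⟩
    exact ⟨iterateFrobenius A p m, fun _ => rfl, FinNorm.frob_finite (K := K) p A m⟩

lemma enat_cancel {x : ℕ∞} {Q d e : ℕ} (hQ : 0 < Q) (h : d ≤ e)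
    (hx : x * (Q ^ d : ℕ) = (Q ^ e : ℕ)) : x = (Q ^ (e - d) : ℕ) := by
  have h4 : Q ^ d ≠ 0 := (pow_pos hQ _).ne'
  induction x using ENat.recTopCoe with
  | top => rw [ENat.top_mul (by exact_mod_cast h4)] at hx; exact absurd hx (ENat.top_ne_coe _)
  | coe x =>
    have h5 : x * Q ^ d = Q ^ e := by exact_mod_cast hx
    rw [← Nat.sub_add_cancel h, pow_add] at h5
    rw [mul_right_cancel₀ h4 h5]

omit [Finite τ] in
lemma exists_flat {m : ℕ} {I : Ideal (MvPolynomial τ K)} (hI : DefOver (p ^ m) I) (A : Type)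
    [CommRing A] [Algebra (MvPolynomial τ K ⧸ I) A] [Module.Flat (MvPolynomial τ K ⧸ I) A]
    (Fr : A →+* A) (hFr : ∀ x, Fr x = x ^ p ^ m) (h : Fr.Flat) :
    ∃ ψ : (MvPolynomial τ K ⧸ I) →+* A, ψ.Flat ∧ ∀ x, ψ (Ideal.Quotient.mk I x) =
      algebraMap _ A (Ideal.Quotient.mk I (expand (p ^ m) x)) := by
  let θ := Ideal.quotientMap (I := I) I (tw K p m τ).symm.toRingHom fun x hx =>
    (tw_mem hI _).1 (by simpa using hx)
  have hθ : Function.Bijective θ :=
    ⟨Ideal.quotientMap_injective' fun x hx => by simpa using (tw_mem hI _).2 hx,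
      Ideal.quotientMap_surjective (tw K p m τ).symm.surjective⟩
  refine ⟨Fr.comp ((algebraMap _ A).comp θ), ((RingHom.Flat.of_bijective hθ).comp
    (RingHom.flat_algebraMap_iff.2 inferInstance)).comp h, fun x => ?_⟩
  rw [expand_eq, map_pow, map_pow, ← hFr]
  rfl

section Gen

variable {R D : Type} [CommRing R] [CommRing D]

lemma tw_finite (ψ : R →+* D) (h : ψ.Finite) (N : Type) [AddCommGroup N] [Module D N]
    [hN : Module.Finite D N] : Module.Finite R (Tw ψ N) := by
  algebraize [ψ]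
  let : Module D (Tw ψ N) := inferInstanceAs (Module D N)
  have : IsScalarTower R D (Tw ψ N) := ⟨fun r a x => mul_smul (ψ r) a x⟩
  have : Module.Finite D (Tw ψ N) := hN
  exact Module.Finite.trans D _

lemma clear_den {S : Type} [CommRing S] (π : S →+* R) (φ : S → S) [Algebra R D] (g : R)
    [IsLocalization.Away g D] (ψ : R →+* D) (hψ : ψ.Flat)
    (e : ∀ x, ψ (π x) = algebraMap R D (π (φ x))) {β₀ β₁ β₂ : Type} [Finite β₀] [Fintype β₁]
    [Fintype β₂] (M : Matrix β₀ β₁ S) (M' : Matrix β₁ β₂ S) (f : S)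
    (h : ∀ v : β₁ → R, (∀ b, ∑ c, π (M b c) * v c = 0) →
      ∃ z : β₂ → R, ∀ c, π f * v c = ∑ c', π (M' c c') * z c')
    (v : β₁ → R) (hv : ∀ b, ∑ c, π (φ (M b c)) * v c = 0) :
    ∃ (k : ℕ) (z : β₂ → R), ∀ c, ∑ c', π (φ (M' c c')) * z c' = g ^ k * π (φ f) * v c := by
  obtain ⟨z, hz⟩ := flat_exact π ψ hψ M M' (π f) h (fun c => algebraMap R D (v c)) fun b => by
    simp only [e, ← map_mul, ← map_sum, hv, map_zero]
  obtain ⟨⟨_, k, rfl⟩, hk⟩ :=
    IsLocalization.exist_integer_multiples_of_finite (Submonoid.powers g) z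
  choose z' hz' using hk
  have h1 : ∀ c, algebraMap R D (g ^ k * π (φ f) * v c -
      ∑ c', π (φ (M' c c')) * z' c') = 0 := fun c => by
    rw [map_sub, map_mul, map_mul, ← e, mul_assoc, hz, map_sum, Finset.mul_sum, sub_eq_zero]
    refine Finset.sum_congr rfl fun c' _ => ?_
    rw [map_mul (algebraMap R D), hz', e, Algebra.smul_def]
    ring
  choose s hs using fun c => (IsLocalization.map_eq_zero_iff (Submonoid.powers g) D _).1 (h1 c)
  obtain ⟨k', hk'⟩ := (∏ c, s c).2
  refine ⟨k' + k, fun c' => g ^ k' * z' c', fun c => ?_⟩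
  obtain ⟨u, hu⟩ : (s c : R) ∣ g ^ k' := by
    rw [show g ^ k' = _ from hk', Submonoid.coe_finset_prod]
    exact Finset.dvd_prod_of_mem _ (Finset.mem_univ c)
  have h2 : g ^ k' * (g ^ k * π (φ f) * v c - ∑ c', π (φ (M' c c')) * z' c') = 0 := by
    rw [hu, mul_right_comm, hs, zero_mul]
  rw [mul_sub, sub_eq_zero, Finset.mul_sum] at h2
  rw [pow_add, mul_assoc, mul_assoc, ← mul_assoc (g ^ k), h2]
  exact Finset.sum_congr rfl fun c' _ => by ring

variable [Algebra K R] [Algebra K D]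

lemma dimLE_tw (ψ : R →ₐ[K] D) (h : ψ.toRingHom.Finite) (N : Type) [AddCommGroup N] [Module D N]
    [hN : Module.Finite D N] {δ : ℕ} (hd : DimLE K D δ N) : DimLE K R δ (Tw ψ.toRingHom N) := by
  algebraize [ψ.toRingHom]
  have : IsScalarTower K R D := IsScalarTower.of_algebraMap_eq fun c => (ψ.commutes c).symm
  let : Module D (Tw ψ.toRingHom N) := inferInstanceAs (Module D N)
  have : IsScalarTower R D (Tw ψ.toRingHom N) := ⟨fun r a x => mul_smul (ψ r) a x⟩
  have : Module.Finite D (Tw ψ.toRingHom N) := hN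
  exact Key.dimLE_down (D := D) (M := Tw ψ.toRingHom N) (hD K) hd

lemma cyc_single [Algebra.EssFiniteType K R] (M : Type) [AddCommGroup M] [Module R M]
    [Module.Finite R M] (a : PrimeSpectrum R) (h : ∀ q ∈ Module.support R M, a ≤ q) {n : ℕ}
    (hn : lenAt a M = n) : cyc K (dm K a) M = Finsupp.single a (n : ℚ) := by
  have : IsNoetherianRing R := CycA.noeth (𝕜 := K)
  ext q
  by_cases hq : q = a
  · rw [hq, CycA.cyc_apply, if_pos rfl, hn]
    simp
  · rw [Finsupp.single_eq_of_ne hq]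
    by_contra h'
    obtain ⟨h1, h2⟩ := CycA.cyc_ne h'
    exact hq (eq_of_le_of_dm_le (h q h2) h1.ge).symm

/-- The map to a chart. -/
noncomputable def chart (K : Type) [Field K] [Algebra K R] (I : Ideal R) (g : R) :
    R →ₐ[K] Localization.Away (Ideal.Quotient.mk I g) :=
  (IsScalarTower.toAlgHom K (R ⧸ I) _).comp (Ideal.Quotient.mkₐ K I)

lemma chart_apply (I : Ideal R) (g f : R) :
    chart K I g f = algebraMap (R ⧸ I) _ (Ideal.Quotient.mk I f) := rfl

lemma chart_locSurj (I : Ideal R) (g : R) : LocSurj (chart K I g) := by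
  intro r
  obtain ⟨⟨a, s, hs⟩, e⟩ := IsLocalization.surj (Submonoid.powers (Ideal.Quotient.mk I g)) r
  obtain ⟨a, rfl⟩ := Ideal.Quotient.mk_surjective a
  obtain ⟨s, rfl⟩ := Ideal.Quotient.mk_surjective s
  exact ⟨a, s, IsLocalization.map_units _ (⟨_, hs⟩ : Submonoid.powers _), e⟩

lemma chart_ker (I : Ideal R) (g k : R) (h : chart K I g k = 0) : ∃ n : ℕ, g ^ n * k ∈ I := by
  obtain ⟨⟨_, n, rfl⟩, e⟩ :=
    (IsLocalization.map_eq_zero_iff (Submonoid.powers (Ideal.Quotient.mk I g)) _ _).1 h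
  exact ⟨n, Ideal.Quotient.eq_zero_iff_mem.1 (by simpa using e)⟩

lemma chart_kerLE (I : Ideal R) (g : R) : KerLE (chart K I g) I := fun k hk => by
  obtain ⟨n, h⟩ := chart_ker I g k hk
  refine ⟨g ^ n, ?_, h⟩
  rw [map_pow]
  exact (IsLocalization.Away.algebraMap_isUnit (Ideal.Quotient.mk I g)).pow n

lemma chart_range (I : Ideal R) (g : R) {q : PrimeSpectrum R} (hI : I ≤ q.asIdeal)
    (hg : g ∉ q.asIdeal) : ∃ P, cm (chart K I g) P = q := by
  refine (Res.mem_range_iff (chart_locSurj (K := K) I g) q).2 ⟨fun k hk => ?_, fun s hs hu => ?_⟩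
  · obtain ⟨n, h⟩ := chart_ker (K := K) I g k hk
    exact (q.isPrime.mem_or_mem (hI h)).resolve_left fun h => hg (q.isPrime.mem_of_pow_mem n h)
  · rw [chart_apply] at hu
    obtain ⟨n, u, h⟩ := (IsLocalization.Away.algebraMap_isUnit_iff (Ideal.Quotient.mk I g)).1 hu
    obtain ⟨u, rfl⟩ := Ideal.Quotient.mk_surjective u
    rw [← map_pow, ← map_mul, Ideal.Quotient.eq] at h
    have := q.asIdeal.add_mem (hI h) (q.asIdeal.mul_mem_right u hs)
    rw [sub_add_cancel] at this
    exact hg (q.isPrime.mem_of_pow_mem n this)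

lemma chart_map (I : Ideal R) (g : R) :
    I.map (chart K I g : R →+* Localization.Away (Ideal.Quotient.mk I g)) = ⊥ := by
  rw [Ideal.map_eq_bot_iff_le_ker]
  intro f hf
  show chart K I g f = 0
  rw [chart_apply, Ideal.Quotient.eq_zero_iff_mem.2 hf, map_zero]

end Gen

end Frob

open Frob

attribute [local instance] Frob.expChar Frob.perfect

theorem exists_defOver (J : Ideal (MvPolynomial τ K)) :
    ∃ m, 0 < m ∧ ∀ m', m ∣ m' → DefOver (p ^ m') J := by
  classical
  obtain ⟨s, hs⟩ : J.FG := IsNoetherian.noetherian J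
  choose n hn0 hn using FBar.alg (K := K) (p := p)
  refine ⟨∏ g ∈ s, ∏ u ∈ g.support, n (coeff u g),
    Finset.prod_pos fun g _ => Finset.prod_pos fun u _ => hn0 _, fun m' hm' => ?_⟩
  refine hs.ge.trans (Ideal.span_mono fun g hg => ⟨hs ▸ Ideal.subset_span hg, ?_⟩)
  have h1 : ∀ (c : K) (k : ℕ), c ^ p ^ (n c * k) = c := fun c k => by
    induction k with
    | zero => simp
    | succ k ih => rw [mul_add, mul_one, pow_add, pow_mul, ih, hn]
  have h2 : tw K p m' τ g = g := by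
    ext u
    rw [tw_apply, coeff_map]
    by_cases hu : u ∈ g.support
    · obtain ⟨k, hk⟩ := ((Finset.dvd_prod_of_mem (fun u => n (coeff u g)) hu).trans
        (Finset.dvd_prod_of_mem (fun g => ∏ u ∈ g.support, n (coeff u g)) hg)).trans hm'
      rw [iterateFrobenius_def, hk, h1]
    · rw [notMem_support_iff.1 hu, map_zero]
  rw [← expand_tw, h2]

omit [Finite τ] in
theorem DefOver.map_le {Q : ℕ} (hQ : 0 < Q) {J : Ideal (MvPolynomial τ K)} (h : DefOver Q J) :
    J.map (expand Q : MvPolynomial τ K →ₐ[K] _) ≤ J := by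
  refine Ideal.map_le_iff_le_comap.2 (le_trans h (Ideal.span_le.2 fun g hg => ?_))
  show expand Q g ∈ J
  rw [hg.2]
  exact J.pow_mem_of_mem hg.1 Q hQ

theorem dm_cm_expand {Q : ℕ} (hQ : 0 < Q) (a : PrimeSpectrum (MvPolynomial τ K)) :
    dm K (cm (expand Q) a) = dm K a := by
  exact Pool.Agent.Lib.MP_60ec62_ag.DL.Dim.dm_integral (φ := expand Q)
    (expand_finite hQ).to_isIntegral a

theorem DefOver.cm_eq {Q : ℕ} (hQ : 0 < Q) {a : PrimeSpectrum (MvPolynomial τ K)}
    (h : DefOver Q a.asIdeal) : cm (expand Q) a = a := by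
  refine (Pool.Agent.Lib.MP_60ec62_ag.DL.eq_of_le_of_dm_le (K := K) ?_ (dm_cm_expand hQ a).ge).symm
  exact Ideal.map_le_iff_le_comap.1 (h.map_le hQ)

theorem cm_expand_bijective (m : ℕ) : Function.Bijective
    (cm (expand (p ^ m)) : PrimeSpectrum (MvPolynomial τ K) → PrimeSpectrum (MvPolynomial τ K)) := by
  refine ⟨fun a b h => PrimeSpectrum.ext (Ideal.ext fun f => ?_), fun a => ?_⟩
  · rw [← mem_cm_expand m a, h, mem_cm_expand]
  · refine ⟨PrimeSpectrum.comap (tw K p m τ).toRingHom a, PrimeSpectrum.ext (Ideal.ext fun f => ?_)⟩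
    obtain ⟨f, rfl⟩ := (tw K p m τ).surjective f
    exact mem_cm_expand m _ f

theorem cm_expand_le_iff (m : ℕ) (a b : PrimeSpectrum (MvPolynomial τ K)) :
    cm (expand (p ^ m)) a ≤ cm (expand (p ^ m)) b ↔ a ≤ b := by
  exact ⟨fun h f hf => (mem_cm_expand m b f).1 (h ((mem_cm_expand m a f).2 hf)),
    fun h f hf => h hf⟩

/-- The support of the pull-back. -/
theorem le_of_map_cm_le (m : ℕ) (a b : PrimeSpectrum (MvPolynomial τ K))
    (h : (cm (expand (p ^ m)) a).asIdeal.map (expand (p ^ m) : MvPolynomial τ K →ₐ[K] _) ≤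
      b.asIdeal) : a ≤ b := by
  intro f hf
  exact (mem_cm_expand m b f).1 (h (Ideal.mem_map_of_mem _ ((mem_cm_expand m a f).2 hf)))

theorem frobPb_φ (Q : ℕ) : (frobPb K w Q).φ = expand Q := by
  rfl

variable [IsCancelAdd Γ]

theorem WHomog.map_expand {Q : ℕ} {J : Ideal (MvPolynomial τ K)} (h : WHomog w J) :
    WHomog w (J.map (expand Q : MvPolynomial τ K →ₐ[K] _)) := by
  rw [le_antisymm h.le_span (Ideal.span_le.2 fun f hf => hf.1), Ideal.map_span]
  refine wHomog_span ?_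
  rintro _ ⟨f, ⟨-, g, hg⟩, rfl⟩
  exact ⟨_, (frobPb K w Q).map_hom hg⟩

namespace Ctx

variable (C : Ctx K w) {m : ℕ}

theorem hp_cm_iff (hI : DefOver (p ^ m) C.I) (a : PrimeSpectrum (MvPolynomial τ K)) :
    C.HP (cm (expand (p ^ m)) a) ↔ C.HP a := by
  refine and_congr ⟨fun h f hf g => ?_, fun h f hf g => ?_⟩ ⟨fun h f hf => ?_, fun h f hf => ?_⟩
  · rw [← mem_cm_expand m, ← comp_tw]
    exact h _ ((mem_cm_expand m a f).2 hf) g
  · obtain ⟨f, rfl⟩ := (tw K p m τ).surjective f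
    rw [comp_tw, mem_cm_expand]
    exact h _ ((mem_cm_expand m a f).1 hf) g
  · exact (mem_cm_expand m a f).1 (h ((tw_mem hI f).2 hf))
  · exact h (hI.map_le (expChar_pow_pos K p m) (Ideal.mem_map_of_mem _ hf))

theorem rel_cm_iff (a : PrimeSpectrum (MvPolynomial τ K)) :
    C.Rel (cm (expand (p ^ m)) a) ↔ C.Rel a := by
  refine exists_congr fun f => and_congr_right fun hf => not_congr ?_
  rw [Pool.Agent.Lib.MP_60ec62_ag.DL.mem_cm, C.mon f hf,
    a.isPrime.pow_mem_iff_mem _ (expChar_pow_pos K p m)]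

/-- The Frobenius is flat away from the irrelevant locus. -/
theorem frob_qex (hI : DefOver (p ^ m) C.I) {F : Cx K w} (hF : F.IsCx C.I)
    (hx : F.QEx C.E (MvPolynomial τ K ⧸ C.I)) :
    (F.map (frobPb K w (p ^ m))).QEx C.E (MvPolynomial τ K ⧸ C.I) := by
  have hQ := expChar_pow_pos K p m
  have hcx : (F.map (frobPb K w (p ^ m))).IsCx C.I :=
    hF.map _ (by rw [frobPb_φ]; exact hI.map_le hQ)
  let R := MvPolynomial τ K ⧸ C.I
  let π : MvPolynomial τ K →+* R := Ideal.Quotient.mk C.I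
  have sm : ∀ (x : MvPolynomial τ K) (y : R), x • y = π x * y := fun x y => Algebra.smul_def x y
  refine Cx.qex_of_local hcx (fun f hf v => ?_) fun i P hP hr v hv => ?_
  · rw [sm, show π f = 0 from Ideal.Quotient.eq_zero_iff_mem.2 hf, zero_mul]
  obtain ⟨g, hg, t, ht⟩ := C.et P hP hr
  obtain ⟨f, hf, hfP⟩ := hr
  obtain ⟨n, hn⟩ := hx i f hf
  let A := Localization.Away (π g)
  obtain ⟨Fr, hFr, -⟩ := exists_frob (K := K) m A
  obtain ⟨ψ, hψ, e⟩ := exists_flat hI A Fr hFr (frob_flat p m _ ht Fr hFr)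
  obtain ⟨k, z, hz⟩ := clear_den π (expand (p ^ m)) (π g) ψ hψ e (F.D i) (F.D (i + 1)) (f ^ n)
    (fun u hu => by
      obtain ⟨z, hz⟩ := hn u (funext fun b => by simp only [mat_apply, sm]; exact hu b)
      exact ⟨z, fun c => by simpa only [mat_apply, sm, Pi.smul_apply] using (congrFun hz c).symm⟩)
    v fun b => by
      have := congrFun hv b
      simp only [mat_apply, sm] at this
      exact this
  refine ⟨g ^ k * expand (p ^ m) (f ^ n), fun h => ?_, z, funext fun c => ?_⟩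
  · rw [map_pow, C.mon f hf] at h
    rcases P.isPrime.mem_or_mem h with h | h
    · exact hg (P.isPrime.mem_of_pow_mem _ h)
    · exact hfP (P.isPrime.mem_of_pow_mem _ (P.isPrime.mem_of_pow_mem _ h))
  · simp only [← map_pow, ← map_mul] at hz
    simp only [mat_apply, sm, Pi.smul_apply]
    exact hz c

/-- The multiplicity of the pull-back of a subvariety. -/
theorem cyc_frob_pull (hI : DefOver (p ^ m) C.I) {a : PrimeSpectrum (MvPolynomial τ K)}
    (ha : C.I ≤ a.asIdeal) (hr : C.Rel a) :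
    cyc K (dm K a) (MvPolynomial τ K ⧸ (C.I ⊔ (cm (expand (p ^ m)) a).asIdeal.map
      (expand (p ^ m) : MvPolynomial τ K →ₐ[K] _))) =
      Finsupp.single a (((p ^ m) ^ (C.e - dm K a) : ℕ) : ℚ) := by
  open Pool.Agent.Lib.MP_60ec62_ag.DL in
  have hQ := expChar_pow_pos K p m
  refine cyc_single _ a (fun q hq => le_of_map_cm_le m a q
    (le_sup_right.trans ((CycA.mem_supp _ q).1 hq))) ?_
  obtain ⟨g, hg, t, ht⟩ := C.et a ha hr
  have hle := C.et.dm_le ha hr
  have := a.isPrime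
  obtain ⟨b₀, hb, hba⟩ := Ideal.exists_minimalPrimes_le ha
  let b : PrimeSpectrum (MvPolynomial τ K) := ⟨b₀, hb.1.1⟩
  have hrb : C.Rel b := hr.imp fun f h => ⟨h.1, fun h' => h.2 (hba h')⟩
  let A := Localization.Away (Ideal.Quotient.mk C.I g)
  have hL := chart_locSurj (K := K) C.I g
  have hK := chart_kerLE (K := K) C.I g
  obtain ⟨a', ha'⟩ := chart_range (K := K) C.I g ha hg
  obtain ⟨b', hb'⟩ := chart_range (K := K) C.I g (q := b) hb.1.2 fun h => hg (hba h)
  obtain ⟨Fr, hFr, hfin⟩ := exists_frob (K := K) m A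
  have hc : ∀ q, PrimeSpectrum.comap Fr q = q := fun q => PrimeSpectrum.ext (Ideal.ext fun x => by
    rw [PrimeSpectrum.comap_asIdeal, Ideal.mem_comap, hFr, q.isPrime.pow_mem_iff_mem _ hQ])
  have h1 : lenAt b' A = 1 := by
    rw [← C.et.lenAt_min (p := b) hb hrb, ← hb', Res.lenAt_eq hL b' hK]
    exact (CycA.lenAt_congr (Submodule.quotEquivOfEqBot _ (chart_map C.I g)) b').symm
  have h2 := len_pull' (K := K) p m Fr (RingHom.id A) Function.surjective_id hFr hfin
    (frob_flat p m _ ht Fr hFr) (a := a') (b := b')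
    ((hL.cm_le_iff _ _).1 (by rw [ha', hb']; exact hba)) h1 (by rw [hc, h1])
  have h3 : (C.I ⊔ (cm (expand (p ^ m)) a).asIdeal.map
      (expand (p ^ m) : MvPolynomial τ K →ₐ[K] _)).map (chart K C.I g : _ →+* A) =
      (PrimeSpectrum.comap Fr a').asIdeal.map Fr := by
    rw [hc, Ideal.map_sup, chart_map, bot_sup_eq, ← Res.map_cm hL a', ha']
    refine le_antisymm (Ideal.map_le_iff_le_comap.2 (Ideal.map_le_iff_le_comap.2 fun f hf => ?_))
      (Ideal.map_le_iff_le_comap.2 (Ideal.map_le_iff_le_comap.2 fun f hf => ?_))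
    · obtain ⟨f, rfl⟩ := (tw K p m τ).surjective f
      rw [Ideal.mem_comap, Ideal.mem_comap, expand_tw, map_pow, ← hFr]
      exact Ideal.mem_map_of_mem _ (Ideal.mem_map_of_mem _ ((mem_cm_expand m a f).1 hf))
    · rw [Ideal.mem_comap, Ideal.mem_comap, hFr, ← map_pow, ← expand_tw]
      exact Ideal.mem_map_of_mem _ (Ideal.mem_map_of_mem _ ((mem_cm_expand m a f).2 hf))
  rw [← h3, ← Res.lenAt_eq hL a' (Res.kerLE_mono hK le_sup_left), ← Dim.dm_locSurj hL a',
    ← Dim.dm_locSurj hL b', ha', hb', C.et.dm_min (p := b) hb hrb] at h2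
  exact enat_cancel hQ hle h2

theorem adm_res (hI : DefOver (p ^ m) C.I) (hQ : 0 < p ^ m) {N : GMod K w} (hN : Adm C.I N) :
    Adm C.I (N.res (C.frobChg (p ^ m) hQ)) := by
  have := hN.1
  exact ⟨tw_finite _ (expand_finite hQ) N.V,
    fun f hf v => hN.2 _ (hI.map_le hQ (Ideal.mem_map_of_mem _ hf)) v⟩

theorem dimLE_res (hQ : 0 < p ^ m) {N : GMod K w} (hN : Module.Finite (MvPolynomial τ K) N.V)
    {δ : ℕ} (h : DimLE K (MvPolynomial τ K) δ N.V) :
    DimLE K (MvPolynomial τ K) δ (N.res (C.frobChg (p ^ m) hQ)).V := by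
  exact dimLE_tw (expand (p ^ m)) (expand_finite hQ) N.V h

/-- The degree of the Frobenius on a subvariety. -/
theorem cyc_frob_push (hQ : 0 < p ^ m) (a : PrimeSpectrum (MvPolynomial τ K))
    (ha : WHomog w a.asIdeal) :
    cyc K (dm K a) ((GMod.cyc a.asIdeal ha).res (C.frobChg (p ^ m) hQ)).V =
      Finsupp.single (cm (expand (p ^ m)) a) (((p ^ m) ^ dm K a : ℕ) : ℚ) := by
  have := tw_finite _ (expand_finite (K := K) (σ := τ) hQ) (MvPolynomial τ K ⧸ a.asIdeal)
  have h := cyc_single (K := K) (Tw (expand (p ^ m) : MvPolynomial τ K →ₐ[K] _).toRingHom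
    (MvPolynomial τ K ⧸ a.asIdeal)) (cm (expand (p ^ m)) a) (n := (p ^ m) ^ dm K a)
    (fun q hq f hf => Module.annihilator_le_of_mem_support hq (Module.mem_annihilator.2 fun v => by
      obtain ⟨v, rfl⟩ := Ideal.Quotient.mk_surjective (I := a.asIdeal) v
      exact Ideal.Quotient.eq_zero_iff_mem.2 (a.asIdeal.mul_mem_right v hf)))
    ((len_tw (K := K) p m _ (tw K p m τ).symm.toRingHom (tw K p m τ).symm.surjective
      (expand_eq p m) a _).trans (by
        rw [Pool.Agent.Lib.MP_60ec62_ag.DL.CycA.lenAt_self, one_mul]))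
  rw [dm_cm_expand hQ] at h
  exact h

/-- The projection formula. -/
theorem theta_res {Q : ℕ} (hQ : 0 < Q) (F : Cx K w) (c : ℕ) {N : GMod K w}
    (hN : Module.Finite (MvPolynomial τ K) N.V) (a : Γ) :
    F.theta c hf (N.res (C.frobChg Q hQ)) a =
      ∑ b ∈ C.fib Q a, (F.map (frobPb K w Q)).theta c hf N b := by
  have h1 : ∀ i, (F.map (frobPb K w Q)).free i = (F.free i).map (frobPb K w Q) := fun i =>
    free_map (F.deg i) _
  have h2 : (F.map (frobPb K w Q)).pres c = (F.pres c).map (frobPb K w Q) := rfl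
  simp only [Cx.theta, Pi.add_apply, Finset.sum_apply, Pi.smul_apply, h1, h2,
    hf_coker_res C hQ _ hN, Finset.sum_add_distrib, Finset.smul_sum]
  rw [Finset.sum_comm]

end Ctx

end Pool.Agent.Lib.MP_557161_ag.DL
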