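import Pool.Agent.Lib.MP_557161_ag.DL.Sub

/-!
Forms, Frobenius, flags and the spaces of the inductive proof.
-/

namespace Pool.Agent.Lib.MP_557161_ag.DL

open Module Submodule Matrix

section Amb

variable {K : Type} [Field K]

/-- Lists of points. -/
def Amb.list (A : Amb K) : Amb K where
  pt L := List (A.pt L)
  map κ y := y.map (A.map κ)
  map_id y := by simp [show A.map (AlgHom.id K _) = id from funext A.map_id]
  map_comp ι κ y := by simp [List.map_map, A.map_comp]
  inj κ := List.map_injective_iff.2 (A.inj κ)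
  red O y := y.map (A.red O)
  red_map h y := by simp [List.map_map, A.red_map h]
  red_triv h y := by simp [List.map_map, A.red_triv h]
  fg y := by
    classical
    induction y with
    | nil => exact ⟨∅, fun _ _ _ => ⟨[], rfl⟩⟩
    | cons a y ih =>
      obtain ⟨s, hs⟩ := A.fg a
      obtain ⟨t, ht⟩ := ih
      refine ⟨s ∪ t, fun L₀ κ h => ?_⟩
      obtain ⟨a', ha⟩ := hs L₀ κ fun x hx => h x (Finset.mem_union_left _ hx)
      obtain ⟨y', hy⟩ := ht L₀ κ fun x hx => h x (Finset.mem_union_right _ hx)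
      exact ⟨a' :: y', by rw [← ha, ← hy]; rfl⟩

/-- The whole functor as a space. -/
def Sp.univ (A : Amb K) : Sp A := ⟨fun _ => True, fun _ _ => Iff.rfl⟩

/-- Finite sequences of subspaces. -/
abbrev Flg (L ι : Type) [Field L] : Type := ℕ →₀ Submodule L (ι → L)

/-- Extension of scalars of a sequence of subspaces. -/
noncomputable def fmap {L L' ι : Type} [Field L] [Field L'] (κ : L →+* L') (D : Flg L ι) :
    Flg L' ι := D.mapRange (smap κ) (smap_bot κ)

@[simp] lemma fmap_apply {L L' ι : Type} [Field L] [Field L'] (κ : L →+* L') (D : Flg L ι) (i : ℕ) :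
    fmap κ D i = smap κ (D i) := rfl

variable {ι : Type} [Finite ι]

/-- Reduction of a sequence of subspaces. -/
noncomputable def fred {M : Fld K} (O : Pl M) (D : Flg M ι) : Flg O.res ι :=
  D.mapRange (sred O) (sred_bot O)

@[simp] lemma fred_apply {M : Fld K} (O : Pl M) (D : Flg M ι) (i : ℕ) :
    fred O D i = sred O (D i) := rfl

/-- Sequences of subspaces as a functor. -/
noncomputable def Fl (K : Type) [Field K] (ι : Type) [Finite ι] : Amb K where
  pt L := Flg L ι
  map κ D := fmap κ.toRingHom D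
  map_id _ := Finsupp.ext fun _ => (Sub K ι).map_id _
  map_comp ι₁ κ _ := Finsupp.ext fun _ => (Sub K ι).map_comp ι₁ κ _
  inj κ _ _ h := Finsupp.ext fun i => (Sub K ι).inj κ (DFunLike.congr_fun h i)
  red O D := fred O D
  red_map h _ := Finsupp.ext fun _ => (Sub K ι).red_map h _
  red_triv h _ := Finsupp.ext fun _ => (Sub K ι).red_triv h _
  fg {L} D := by
    classical
    choose s hs using fun i => (Sub K ι).fg (L := L) (D i)
    refine ⟨D.support.biUnion s, fun L₀ κ h => ?_⟩
    have : ∀ i, ∃ E, smap κ.toRingHom E = D i := fun i => by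
      by_cases hi : i ∈ D.support
      · exact hs i L₀ κ fun x hx => h x (Finset.mem_biUnion.2 ⟨i, hi, hx⟩)
      · exact ⟨⊥, by rw [smap_bot]; exact (Finsupp.notMem_support_iff.1 hi).symm⟩
    choose E hE using this
    refine ⟨Finsupp.onFinset D.support E fun i hi => Finsupp.mem_support_iff.2 fun e => hi ?_,
      Finsupp.ext fun i => hE i⟩
    exact (smap_eq_bot κ.toRingHom).1 ((hE i).trans e)

end Amb

section Form

variable {L L' : Type} [Field L] [Field L'] {ι ι₂ : Type} [Fintype ι] [Fintype ι₂]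

/-- The bilinear form of a matrix. -/
def bf (G : Matrix ι ι L) (x y : ι → L) : L := x ⬝ᵥ G *ᵥ y

/-- The orthogonal complement. -/
def perp (G : Matrix ι ι L) (E : Submodule L (ι → L)) : Submodule L (ι → L) where
  carrier := {y | ∀ x ∈ E, bf G x y = 0}
  zero_mem' x _ := by simp [bf]
  add_mem' hy hz x hx := by
    have := hy x hx
    have := hz x hx
    simp_all [bf, mulVec_add]
  smul_mem' c y hy x hx := by
    have := hy x hx
    simp_all [bf, mulVec_smul]

/-- Isotropic subspaces. -/
def Iso (G : Matrix ι ι L) (E : Submodule L (ι → L)) : Prop := E ≤ perp G E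

/-- Lagrangian subspaces. -/
def Lag (G : Matrix ι ι L) (E : Submodule L (ι → L)) : Prop := perp G E = E

/-- Nondegenerate symmetric or alternating matrices. -/
structure EForm (G : Matrix ι ι L) : Prop where
  symm : Gᵀ = G ∨ Gᵀ = -G
  inj : ∀ x, G *ᵥ x = 0 → x = 0

/-- The orthogonal sum of `G` and `- G₂`. -/
def dsum (G : Matrix ι ι L) (G₂ : Matrix ι₂ ι₂ L) : Matrix (ι ⊕ ι₂) (ι ⊕ ι₂) L :=
  Matrix.fromBlocks G 0 0 (-G₂)

/-- The vectors whose first component lies in `E`. -/
def cyl (ι₂ : Type) (E : Submodule L (ι → L)) : Submodule L (ι ⊕ ι₂ → L) :=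
  E.comap (LinearMap.funLeft L L Sum.inl)

/-- The transfer of a subspace along a correspondence. -/
def trf (Λ : Submodule L (ι ⊕ ι₂ → L)) (E : Submodule L (ι₂ → L)) : Submodule L (ι → L) :=
  (Λ ⊓ E.comap (LinearMap.funLeft L L Sum.inr)).map (LinearMap.funLeft L L Sum.inl)

/-- Lagrangian subspaces that are graphs of isometries from a subquotient. -/
def GoodL (G : Matrix ι ι L) (G₂ : Matrix ι₂ ι₂ L) (b : ℕ) (Λ : Submodule L (ι ⊕ ι₂ → L)) : Prop :=
  Lag (dsum G G₂) Λ ∧ finrank L (trf Λ ⊥) = b ∧ Fintype.card ι = Fintype.card ι₂ + 2 * b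

/-- Complete isotropic flags. -/
structure IsFl (G : Matrix ι ι L) (n : ℕ) (D : Flg L ι) : Prop where
  rank : ∀ i ≤ n, finrank L (D i) = i
  le : ∀ i < n, D i ≤ D (i + 1)
  iso : Iso G (D n)
  out : ∀ i, n < i → D i = ⊥

/-- The flags agree except possibly in dimension `s`. -/
def Adj (s : ℕ) (D D' : Flg L ι) : Prop := ∀ i, i ≠ s → D i = D' i

/-- A gallery of flags of type `u` from `D` to `Z`. -/
def Path (G : Matrix ι ι L) (n : ℕ) : List ℕ → Flg L ι → List (Flg L ι) → Flg L ι → Prop
  | [], D, [], Z => D = Z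
  | s :: u, D, D' :: Es, Z => Adj s D D' ∧ IsFl G n D' ∧ Path G n u D' Es Z
  | _, _, _, _ => False

/-- The position of a line relative to a flag. -/
def Pos (G : Matrix ι ι L) : Bool → ℕ → Submodule L (ι → L) → Flg L ι → Prop
  | true, b, ℓ, D => ℓ ≤ D b ∧ ¬ ℓ ≤ D (b - 1)
  | false, b, ℓ, D => ¬ D b ≤ perp G ℓ

/-- The flag `A` is the projection of the flag `D` to the flags through the line `A 1`. -/
structure Rel (G : Matrix ι ι L) (n : ℕ) (τ : Bool) (b : ℕ) (A D : Flg L ι) : Prop where
  pos : Pos G τ b (A 1) D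
  lo : ∀ i < b, D i ≤ A (i + 1)
  hi : ∀ i, b ≤ i → i ≤ n → D i ⊓ perp G (A 1) ≤ A i

/-- The span of the first `m` images of a subspace. -/
noncomputable def Asp (κ : L →+* L) (ℓ : Submodule L (ι → L)) : ℕ → Submodule L (ι → L)
  | 0 => ⊥
  | m + 1 => ℓ ⊔ smap κ (Asp κ ℓ m)

/-- The iterated intersections of a subspace with its image. -/
noncomputable def Jc (κ : L →+* L) (A : Submodule L (ι → L)) : ℕ → Submodule L (ι → L)
  | 0 => A
  | t + 1 => Jc κ A t ⊓ smap κ (Jc κ A t)

end Form

section Rat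

variable (k₀ : Type) [Field k₀] [Fintype k₀] {K : Type} [Field K] [Algebra k₀ K]

/-- The inclusion of the finite field. -/
def rat (L : Fld K) : k₀ →+* L := (algebraMap K L).comp (algebraMap k₀ K)

/-- The Frobenius. -/
noncomputable def frH (L : Fld K) : L →+* L :=
  letI := (rat k₀ L).toAlgebra
  (FiniteField.frobeniusAlgHom k₀ L).toRingHom

lemma frH_apply (L : Fld K) (x : L) : frH k₀ L x = x ^ Fintype.card k₀ := rfl

variable {k₀} {ι : Type}

/-- A rational matrix over `L`. -/
def gm (G : Matrix ι ι k₀) (L : Fld K) : Matrix ι ι L := G.map (rat k₀ L)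

/-- A rational subspace over `L`. -/
def ext (L : Fld K) (U : Submodule k₀ (ι → k₀)) : Submodule L (ι → L) := smap (rat k₀ L) U

end Rat

end Pool.Agent.Lib.MP_557161_ag.DL
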