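import Pool.Agent.Lib.MP_557161_ag.DL.Geo

/-!
Linear algebra of forms, flags and correspondences; compatibility with extension of scalars and
reduction.
-/

namespace Pool.Agent.Lib.MP_557161_ag.DL

open Module Submodule Matrix

section Form

variable {L L' : Type} [Field L] [Field L'] {ι ι₂ : Type} [Fintype ι] [Fintype ι₂]
  {G : Matrix ι ι L} {G₂ : Matrix ι₂ ι₂ L} {E E' : Submodule L (ι → L)}

lemma mem_perp {y : ι → L} : y ∈ perp G E ↔ ∀ x ∈ E, bf G x y = 0 := Iff.rfl

lemma bf_add_left (G : Matrix ι ι L) (x y z : ι → L) : bf G (x + y) z = bf G x z + bf G y z := by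
  simp [bf, add_dotProduct]

lemma bf_add_right (G : Matrix ι ι L) (x y z : ι → L) : bf G x (y + z) = bf G x y + bf G x z := by
  simp [bf, mulVec_add, dotProduct_add]

lemma bf_sub_left (G : Matrix ι ι L) (x y z : ι → L) : bf G (x - y) z = bf G x z - bf G y z := by
  simp [bf, sub_dotProduct]

lemma bf_sub_right (G : Matrix ι ι L) (x y z : ι → L) : bf G x (y - z) = bf G x y - bf G x z := by
  simp [bf, mulVec_sub, dotProduct_sub]

lemma bf_smul_left (G : Matrix ι ι L) (c : L) (x y : ι → L) : bf G (c • x) y = c * bf G x y := by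
  simp [bf, smul_dotProduct]

lemma bf_smul_right (G : Matrix ι ι L) (c : L) (x y : ι → L) : bf G x (c • y) = c * bf G x y := by
  simp [bf, mulVec_smul, dotProduct_smul]

@[simp] lemma bf_zero_left (G : Matrix ι ι L) (y : ι → L) : bf G 0 y = 0 := by
  simp [bf]

@[simp] lemma bf_zero_right (G : Matrix ι ι L) (y : ι → L) : bf G y 0 = 0 := by
  simp [bf]

lemma GeoA.bf_transpose (G : Matrix ι ι L) (x y : ι → L) : bf G x y = bf Gᵀ y x := by
  rw [bf, bf, dotProduct_mulVec, ← mulVec_transpose, dotProduct_comm]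

lemma bf_symm (h : Gᵀ = G) (x y : ι → L) : bf G x y = bf G y x := by
  rw [GeoA.bf_transpose, h]

lemma bf_alt (h : Gᵀ = -G) (x y : ι → L) : bf G x y = -bf G y x := by
  rw [GeoA.bf_transpose, h, bf, bf, neg_mulVec, dotProduct_neg]

lemma bf_self_of_alt [NeZero (2 : L)] (h : Gᵀ = -G) (x : ι → L) : bf G x x = 0 := by
  have h1 := bf_alt h x x
  have h2 : (2 : L) * bf G x x = 0 := by linear_combination h1
  exact (mul_eq_zero.1 h2).resolve_left (NeZero.ne 2)

lemma bf_mapV (κ : L →+* L') (G : Matrix ι ι L) (x y : ι → L) :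
    bf (G.map κ) (mapV κ x) (mapV κ y) = κ (bf G x y) := by
  simp [bf, dotProduct, mulVec, mapV, map_sum, map_mul]

lemma bf_dsum (G : Matrix ι ι L) (G₂ : Matrix ι₂ ι₂ L) (x y : ι ⊕ ι₂ → L) :
    bf (dsum G G₂) x y = bf G (x ∘ Sum.inl) (y ∘ Sum.inl) - bf G₂ (x ∘ Sum.inr) (y ∘ Sum.inr) := by
  simp only [bf, dsum, dotProduct, mulVec, Fintype.sum_sum_type, fromBlocks_apply₁₁,
    fromBlocks_apply₁₂, fromBlocks_apply₂₁, fromBlocks_apply₂₂, Matrix.zero_apply, zero_mul,
    Finset.sum_const_zero, add_zero, zero_add, Matrix.neg_apply, neg_mul, Finset.sum_neg_distrib,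
    mul_neg, Function.comp_apply, sub_eq_add_neg]

lemma dsum_map (κ : L →+* L') (G : Matrix ι ι L) (G₂ : Matrix ι₂ ι₂ L) :
    (dsum G G₂).map κ = dsum (G.map κ) (G₂.map κ) := by
  ext (i | i) (j | j) <;> simp [dsum]

lemma EForm.map (h : EForm G) (κ : L →+* L') : EForm (G.map κ) := by
  classical
  refine ⟨h.symm.imp (fun e => ?_) fun e => ?_, fun x hx => ?_⟩
  · rw [← transpose_map, e]
  · rw [← transpose_map, e]; ext i j; simp
  · by_contra h0
    have h1 : (G.map κ).det = 0 := Matrix.exists_mulVec_eq_zero_iff.1 ⟨x, h0, hx⟩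
    have h2 : G.det = 0 := by
      apply κ.injective
      rw [RingHom.map_det, map_zero]; exact h1
    obtain ⟨v, hv, e⟩ := Matrix.exists_mulVec_eq_zero_iff.2 h2
    exact hv (h.inj v e)

lemma EForm.refl (h : EForm G) {x y : ι → L} (hxy : bf G x y = 0) : bf G y x = 0 := by
  rcases h.symm with e | e
  · rw [bf_symm e, hxy]
  · rw [bf_alt e, hxy, neg_zero]

lemma EForm.left (h : EForm (dsum G G₂)) : EForm G := by
  refine ⟨h.symm.imp (fun e => ?_) fun e => ?_, fun x hx => ?_⟩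
  · ext i j; exact congrFun (congrFun e (Sum.inl i)) (Sum.inl j)
  · ext i j; exact congrFun (congrFun e (Sum.inl i)) (Sum.inl j)
  · have := h.inj (Sum.elim x 0) (by rw [dsum, fromBlocks_mulVec]; simp [hx])
    ext i; exact congrFun this (Sum.inl i)

lemma EForm.right (h : EForm (dsum G G₂)) : EForm G₂ := by
  refine ⟨h.symm.imp (fun e => ?_) fun e => ?_, fun x hx => ?_⟩
  · ext i j; exact neg_injective (congrFun (congrFun e (Sum.inr i)) (Sum.inr j))
  · ext i j; exact neg_injective (congrFun (congrFun e (Sum.inr i)) (Sum.inr j))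
  · have := h.inj (Sum.elim 0 x) (by rw [dsum, fromBlocks_mulVec]; simp [neg_mulVec, hx])
    ext i; exact congrFun this (Sum.inr i)

lemma perp_anti (G : Matrix ι ι L) (h : E ≤ E') : perp G E' ≤ perp G E := by
  exact fun y hy x hx => hy x (h hx)

@[simp] lemma perp_bot (G : Matrix ι ι L) : perp G ⊥ = ⊤ := by
  refine eq_top_iff.2 fun y _ x hx => ?_
  rw [(mem_bot L).1 hx, bf_zero_left]

lemma perp_sup (G : Matrix ι ι L) (E E' : Submodule L (ι → L)) :
    perp G (E ⊔ E') = perp G E ⊓ perp G E' := by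
  refine le_antisymm (le_inf (perp_anti G le_sup_left) (perp_anti G le_sup_right)) ?_
  rintro y ⟨h1, h2⟩ x hx
  obtain ⟨a, ha, b, hb, rfl⟩ := mem_sup.1 hx
  rw [bf_add_left, h1 a ha, h2 b hb, add_zero]

lemma mem_perp_span {x y : ι → L} : y ∈ perp G (span L {x}) ↔ bf G x y = 0 := by
  refine ⟨fun h => h x (mem_span_singleton_self x), fun h z hz => ?_⟩
  obtain ⟨c, rfl⟩ := mem_span_singleton.1 hz
  rw [bf_smul_left, h, mul_zero]

lemma EForm.le_perp_comm (h : EForm G) : E ≤ perp G E' ↔ E' ≤ perp G E := by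
  exact ⟨fun e y hy x hx => h.refl (e hx y hy), fun e y hy x hx => h.refl (e hx y hy)⟩

lemma EForm.finrank_perp (h : EForm G) (E : Submodule L (ι → L)) :
    finrank L E + finrank L (perp G E) = Fintype.card ι := by
  classical
  have h1 : perp G E = LinearMap.BilinForm.orthogonal (Matrix.toBilin' G) E := by
    ext y
    simp only [mem_perp, LinearMap.BilinForm.mem_orthogonal_iff, Matrix.toBilin'_apply', bf]
  have h2 := LinearMap.BilinForm.finrank_add_finrank_orthogonal' (B := Matrix.toBilin' G) E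
  have h3 : LinearMap.ker (Matrix.toBilin' G) = ⊥ := by
    refine eq_bot_iff.2 fun x hx => (mem_bot L).2 (h.inj x ?_)
    refine dotProduct_eq_zero _ fun y => ?_
    rw [dotProduct_comm]
    refine h.refl ?_
    have := LinearMap.congr_fun (LinearMap.mem_ker.1 hx) y
    rwa [Matrix.toBilin'_apply'] at this
  rw [h3, inf_bot_eq, finrank_bot, add_zero, finrank_fintype_fun_eq_card] at h2
  rw [h1, h2]

lemma EForm.perp_perp (h : EForm G) (E : Submodule L (ι → L)) : perp G (perp G E) = E := by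
  refine (eq_of_le_of_finrank_le (h.le_perp_comm.1 le_rfl) ?_).symm
  have h1 := h.finrank_perp E
  have h2 := h.finrank_perp (perp G E)
  omega

lemma EForm.perp_inf (h : EForm G) (E E' : Submodule L (ι → L)) :
    perp G (E ⊓ E') = perp G E ⊔ perp G E' := by
  conv_lhs => rw [← h.perp_perp E, ← h.perp_perp E', ← perp_sup, h.perp_perp]

lemma Iso.mono (h : Iso G E') (h' : E ≤ E') : Iso G E := by
  exact h'.trans (le_trans h (perp_anti G h'))

lemma EForm.iso_finrank (h : EForm G) (hE : Iso G E) : 2 * finrank L E ≤ Fintype.card ι := by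
  have h1 := h.finrank_perp E
  have h2 := finrank_mono hE
  omega

lemma EForm.lag_iff (h : EForm G) : Lag G E ↔ Iso G E ∧ 2 * finrank L E = Fintype.card ι := by
  have h1 := h.finrank_perp E
  refine ⟨fun e => ⟨Eq.ge e, ?_⟩, fun e => (eq_of_le_of_finrank_le e.1 ?_).symm⟩
  · rw [show perp G E = E from e] at h1; omega
  · have := e.2; omega

lemma GeoA.finrank_comap {V W : Type} [AddCommGroup V] [Module L V] [AddCommGroup W] [Module L W]
    [FiniteDimensional L V] (f : V →ₗ[L] W) (F : Submodule L W) :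
    finrank L (F.comap f) + finrank L (LinearMap.range f) =
      finrank L V + finrank L ↥(F ⊓ LinearMap.range f) := by
  have h1 := LinearMap.finrank_range_add_finrank_ker (f.domRestrict (F.comap f))
  have h2 := LinearMap.finrank_range_add_finrank_ker f
  have h3 : LinearMap.ker f ≤ F.comap f := LinearMap.ker_le_comap f
  rw [LinearMap.range_domRestrict, map_comap_eq, inf_comm, LinearMap.ker_domRestrict,
    (comapSubtypeEquivOfLe h3).finrank_eq] at h1
  omega

/-- The form as a linear map in the second variable. -/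
def GeoA.bfl (G : Matrix ι ι L) (x : ι → L) : (ι → L) →ₗ[L] L where
  toFun := bf G x
  map_add' := bf_add_right G x
  map_smul' c := bf_smul_right G c x

/-- Cutting with the orthogonal of a line drops the dimension by at most one. -/
lemma finrank_inf_perp_line (G : Matrix ι ι L) {ℓ : Submodule L (ι → L)} (hℓ : finrank L ℓ = 1)
    (E : Submodule L (ι → L)) : finrank L E ≤ finrank L ↥(E ⊓ perp G ℓ) + 1 := by
  obtain ⟨x, -, rfl⟩ := exists_gen_line hℓ
  have h1 := LinearMap.finrank_range_add_finrank_ker ((GeoA.bfl G x).domRestrict E)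
  have h2 : finrank L (LinearMap.range ((GeoA.bfl G x).domRestrict E)) ≤ 1 :=
    (finrank_le _).trans (finrank_self L).le
  have h3 : LinearMap.ker ((GeoA.bfl G x).domRestrict E) =
      (E ⊓ perp G (span L {x})).comap E.subtype := by
    ext y
    simp only [LinearMap.mem_ker, mem_comap, mem_inf, mem_perp_span, subtype_apply, y.2, true_and]
    rfl
  rw [h3, (comapSubtypeEquivOfLe inf_le_left).finrank_eq] at h1
  omega

lemma finrank_inf_perp_line_eq {ℓ : Submodule L (ι → L)} (hℓ : finrank L ℓ = 1)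
    (h : ¬ E ≤ perp G ℓ) : finrank L ↥(E ⊓ perp G ℓ) + 1 = finrank L E := by
  have h1 := finrank_inf_perp_line G hℓ E
  have h2 : finrank L ↥(E ⊓ perp G ℓ) < finrank L E :=
    finrank_lt_finrank_of_lt (lt_of_le_of_ne inf_le_left fun e => h (inf_eq_left.1 e))
  omega

lemma finrank_sup_line {ℓ : Submodule L (ι → L)} (hℓ : finrank L ℓ = 1) (h : ¬ ℓ ≤ E) :
    finrank L ↥(E ⊔ ℓ) = finrank L E + 1 := by
  have h1 := finrank_sup_add_finrank_inf_eq E ℓ
  have h2 : finrank L ↥(E ⊓ ℓ) < finrank L ℓ :=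
    finrank_lt_finrank_of_lt (lt_of_le_of_ne inf_le_right fun e => h (inf_eq_right.1 e))
  omega

omit [Fintype ι] [Fintype ι₂] in
lemma GeoA.smap_map (κ : L →+* L') (f : (ι → L) →ₗ[L] ι₂ → L) (f' : (ι → L') →ₗ[L'] ι₂ → L')
    (h : ∀ x, f' (mapV κ x) = mapV κ (f x)) (E : Submodule L (ι → L)) :
    smap κ (E.map f) = (smap κ E).map f' := by
  rw [smap, smap, Submodule.map_span, map_coe, ← Set.image_comp, ← Set.image_comp]
  congr 2
  exact funext fun x => (h x).symm

lemma GeoA.smap_comap (κ : L →+* L') (f : (ι → L) →ₗ[L] ι₂ → L) (f' : (ι → L') →ₗ[L'] ι₂ → L')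
    (h : ∀ x, f' (mapV κ x) = mapV κ (f x)) (E : Submodule L (ι₂ → L)) :
    smap κ (E.comap f) = (smap κ E).comap f' := by
  refine eq_of_le_of_finrank_le (smap_le.2 fun x hx => ?_) ?_
  · rw [mem_comap, h]; exact mapV_mem κ hx
  · have h1 := GeoA.finrank_comap f E
    have h2 := GeoA.finrank_comap f' (smap κ E)
    have h3 : LinearMap.range f' = smap κ (LinearMap.range f) := by
      rw [← Submodule.map_top, ← Submodule.map_top, GeoA.smap_map κ f f' h, smap_top]
    rw [h3, ← smap_inf] at h2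
    simp only [finrank_smap, finrank_fintype_fun_eq_card] at h1 h2 ⊢
    omega

lemma GeoA.perp_span_range {r : ℕ} (G : Matrix ι ι L) (b : Fin r → ι → L) :
    perp G (span L (Set.range b)) = (⊥ : Submodule L (Fin r → L)).comap
      (LinearMap.pi fun a => GeoA.bfl G (b a)) := by
  ext y
  rw [mem_comap, mem_bot]
  refine ⟨fun h => funext fun a => h _ (subset_span ⟨a, rfl⟩), fun h x hx => ?_⟩
  obtain ⟨c, rfl⟩ := (mem_span_range_iff_exists_fun L).1 hx
  have h1 : ∀ a, bf G (b a) y = 0 := fun a => congrFun h a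
  simp only [bf] at h1
  simp [bf, sum_dotProduct, h1]

lemma smap_perp (κ : L →+* L') (G : Matrix ι ι L) (E : Submodule L (ι → L)) :
    smap κ (perp G E) = perp (G.map κ) (smap κ E) := by
  obtain ⟨r, b, s, h⟩ := exists_nb' E
  rw [← (h.smap κ).span, ← h.span, GeoA.perp_span_range, GeoA.perp_span_range,
    GeoA.smap_comap κ _ (LinearMap.pi fun a => GeoA.bfl (G.map κ) (mapV κ (b a))), smap_bot]
  exact fun x => funext fun a => bf_mapV κ G (b a) x

lemma iso_smap (κ : L →+* L') : Iso (G.map κ) (smap κ E) ↔ Iso G E := by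
  rw [Iso, Iso, ← smap_perp, smap_le_iff]

lemma lag_smap (κ : L →+* L') : Lag (G.map κ) (smap κ E) ↔ Lag G E := by
  rw [Lag, Lag, ← smap_perp, (smap_inj κ).eq_iff]

lemma smap_map_funLeft (κ : L →+* L') (e : ι₂ → ι) (E : Submodule L (ι → L)) :
    smap κ (E.map (LinearMap.funLeft L L e)) = (smap κ E).map (LinearMap.funLeft L' L' e) := by
  exact GeoA.smap_map κ _ _ (fun _ => rfl) E

lemma smap_comap_funLeft (κ : L →+* L') (e : ι → ι₂) (E : Submodule L (ι → L)) :
    smap κ (E.comap (LinearMap.funLeft L L e)) = (smap κ E).comap (LinearMap.funLeft L' L' e) := by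
  exact GeoA.smap_comap κ _ _ (fun _ => rfl) E

lemma smap_cyl (κ : L →+* L') (E : Submodule L (ι → L)) :
    smap κ (cyl ι₂ E) = cyl ι₂ (smap κ E) := by
  exact smap_comap_funLeft κ _ E

omit [Fintype ι] in
lemma GeoA.smap_comm {φ : L →+* L} {φ' : L' →+* L'} (κ : L →+* L') (h : ∀ x, κ (φ x) = φ' (κ x))
    (E : Submodule L (ι → L)) : smap κ (smap φ E) = smap φ' (smap κ E) := by
  rw [← smap_comp, ← smap_comp, show κ.comp φ = φ'.comp κ from RingHom.ext h]

lemma smap_asp {φ : L →+* L} {φ' : L' →+* L'} (κ : L →+* L') (h : ∀ x, κ (φ x) = φ' (κ x))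
    (ℓ : Submodule L (ι → L)) (m : ℕ) : smap κ (Asp φ ℓ m) = Asp φ' (smap κ ℓ) m := by
  induction m with
  | zero => exact smap_bot κ
  | succ m ih => rw [Asp, Asp, smap_sup, GeoA.smap_comm κ h, ih]

lemma smap_jc {φ : L →+* L} {φ' : L' →+* L'} (κ : L →+* L') (h : ∀ x, κ (φ x) = φ' (κ x))
    (A : Submodule L (ι → L)) (t : ℕ) : smap κ (Jc φ A t) = Jc φ' (smap κ A) t := by
  induction t with
  | zero => rfl
  | succ t ih => rw [Jc, Jc, smap_inf, GeoA.smap_comm κ h, ih]

/-! Flags -/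

variable {n : ℕ} {A D D' Z Z' : Flg L ι}

lemma IsFl.mono (h : IsFl G n D) {i j : ℕ} (hij : i ≤ j) (hj : j ≤ n) : D i ≤ D j := by
  induction j, hij using Nat.le_induction with
  | base => exact le_rfl
  | succ j _ ih => exact (ih (by omega)).trans (h.le j (by omega))

lemma IsFl.zero (h : IsFl G n D) : D 0 = ⊥ := by
  exact finrank_eq_zero.1 (h.rank 0 (Nat.zero_le n))

lemma IsFl.le_perp (h : IsFl G n D) (i j : ℕ) : D i ≤ perp G (D j) := by
  rcases le_or_gt i n with hi | hi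
  · rcases le_or_gt j n with hj | hj
    · exact (h.mono hi le_rfl).trans (le_trans h.iso (perp_anti G (h.mono hj le_rfl)))
    · rw [h.out j hj, perp_bot]; exact le_top
  · rw [h.out i hi]; exact bot_le

lemma isFl_fmap (κ : L →+* L') : IsFl (G.map κ) n (fmap κ D) ↔ IsFl G n D := by
  refine ⟨fun h => ⟨fun i hi => ?_, fun i hi => (smap_le_iff κ).1 (h.le i hi),
    (iso_smap κ).1 h.iso, fun i hi => (smap_eq_bot κ).1 (h.out i hi)⟩,
    fun h => ⟨fun i hi => ?_, fun i hi => smap_mono κ (h.le i hi),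
    (iso_smap κ).2 h.iso, fun i hi => (smap_eq_bot κ).2 (h.out i hi)⟩⟩
  · rw [← finrank_smap κ]; exact h.rank i hi
  · rw [fmap_apply, finrank_smap]; exact h.rank i hi

lemma fmap_inj (κ : L →+* L') : Function.Injective (fmap κ : Flg L ι → Flg L' ι) := by
  exact fun _ _ h => Finsupp.ext fun i => smap_inj κ (DFunLike.congr_fun h i)

lemma fmap_surj {κ : L →+* L'} (h : Function.Surjective κ) :
    Function.Surjective (fmap κ : Flg L ι → Flg L' ι) := by
  exact Finsupp.mapRange_surjective _ (smap_bot κ) (smap_surj h)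

lemma fmap_comm {φ : L →+* L} {φ' : L' →+* L'} (κ : L →+* L') (h : ∀ x, κ (φ x) = φ' (κ x))
    (D : Flg L ι) : fmap κ (fmap φ D) = fmap φ' (fmap κ D) := by
  exact Finsupp.ext fun i => GeoA.smap_comm κ h (D i)

lemma adj_fmap (κ : L →+* L') {s : ℕ} : Adj s (fmap κ D) (fmap κ D') ↔ Adj s D D' := by
  exact forall₂_congr fun _ _ => (smap_inj κ).eq_iff

lemma path_fmap (κ : L →+* L') {u : List ℕ} {Es : List (Flg L ι)} :
    Path (G.map κ) n u (fmap κ D) (Es.map (fmap κ)) (fmap κ Z) ↔ Path G n u D Es Z := by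
  induction u generalizing D Es with
  | nil =>
    cases Es with
    | nil => exact (fmap_inj κ).eq_iff
    | cons _ _ => exact Iff.rfl
  | cons s u ih =>
    cases Es with
    | nil => exact Iff.rfl
    | cons D' Es => exact and_congr (adj_fmap κ) (and_congr (isFl_fmap κ) ih)

lemma pos_smap (κ : L →+* L') {τ : Bool} {b : ℕ} :
    Pos (G.map κ) τ b (smap κ E) (fmap κ D) ↔ Pos G τ b E D := by
  cases τ
  · show ¬ smap κ (D b) ≤ perp (G.map κ) (smap κ E) ↔ ¬ D b ≤ perp G E
    rw [← smap_perp, smap_le_iff]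
  · exact and_congr (smap_le_iff κ) (not_congr (smap_le_iff κ))

lemma rel_fmap (κ : L →+* L') {τ : Bool} {b : ℕ} :
    Rel (G.map κ) n τ b (fmap κ A) (fmap κ D) ↔ Rel G n τ b A D := by
  have key : ∀ i, fmap κ D i ⊓ perp (G.map κ) (fmap κ A 1) ≤ fmap κ A i ↔
      D i ⊓ perp G (A 1) ≤ A i := fun i => by
    rw [fmap_apply, fmap_apply, fmap_apply, ← smap_perp, ← smap_inf, smap_le_iff]
  exact ⟨fun h => ⟨(pos_smap κ).1 h.pos, fun i hi => (smap_le_iff κ).1 (h.lo i hi),
    fun i h1 h2 => (key i).1 (h.hi i h1 h2)⟩, fun h => ⟨(pos_smap κ).2 h.pos,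
    fun i hi => smap_mono κ (h.lo i hi), fun i h1 h2 => (key i).2 (h.hi i h1 h2)⟩⟩

lemma path_cons {s : ℕ} {u : List ℕ} {Es : List (Flg L ι)} : Path G n (s :: u) D Es Z ↔
    ∃ D' Es', Es = D' :: Es' ∧ Adj s D D' ∧ IsFl G n D' ∧ Path G n u D' Es' Z := by
  cases Es with
  | nil => exact ⟨False.elim, fun ⟨_, _, e, _⟩ => nomatch e⟩
  | cons D' Es =>
    refine ⟨fun h => ⟨D', Es, rfl, h⟩, ?_⟩
    rintro ⟨_, _, e, h⟩
    cases e
    exact h

lemma path_nil {Es : List (Flg L ι)} : Path G n [] D Es Z ↔ Es = [] ∧ D = Z := by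
  cases Es with
  | nil => exact ⟨fun h => ⟨rfl, h⟩, fun h => h.2⟩
  | cons D' Es => exact ⟨False.elim, fun ⟨e, _⟩ => nomatch e⟩

lemma path_concat {s : ℕ} {u : List ℕ} {Es : List (Flg L ι)} : Path G n (u ++ [s]) D Es Z' ↔
    ∃ Es' Z, Es = Es' ++ [Z'] ∧ Path G n u D Es' Z ∧ Adj s Z Z' ∧ IsFl G n Z' := by
  induction u generalizing D Es with
  | nil =>
    rw [List.nil_append, path_cons]
    constructor
    · rintro ⟨D', Es', rfl, h1, h2, h3⟩
      obtain ⟨rfl, rfl⟩ := path_nil.1 h3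
      exact ⟨[], D, rfl, rfl, h1, h2⟩
    · rintro ⟨Es', Z, rfl, h1, h2, h3⟩
      obtain ⟨rfl, rfl⟩ := path_nil.1 h1
      exact ⟨Z', [], rfl, h2, h3, rfl⟩
  | cons t u ih =>
    rw [List.cons_append, path_cons]
    constructor
    · rintro ⟨D', Es', rfl, h1, h2, h3⟩
      obtain ⟨Es'', Z, rfl, h4, h5, h6⟩ := ih.1 h3
      exact ⟨D' :: Es'', Z, rfl, ⟨h1, h2, h4⟩, h5, h6⟩
    · rintro ⟨Es', Z, rfl, h1, h2, h3⟩
      obtain ⟨D', Es'', rfl, h4, h5, h6⟩ := path_cons.1 h1
      exact ⟨D', Es'' ++ [Z'], rfl, h4, h5, ih.2 ⟨Es'', Z, rfl, h6, h2, h3⟩⟩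

lemma Path.unique {u : List ℕ} {Es : List (Flg L ι)} (h : Path G n u D Es Z)
    (h' : Path G n u D Es Z') : Z = Z' := by
  induction u generalizing D Es with
  | nil => exact (path_nil.1 h).2.symm.trans (path_nil.1 h').2
  | cons s u ih =>
    obtain ⟨D', Es', rfl, -, -, h1⟩ := path_cons.1 h
    exact ih h1 h'.2.2

lemma Path.isFl {u : List ℕ} {Es : List (Flg L ι)} (h : Path G n u D Es Z) (hD : IsFl G n D) :
    IsFl G n Z ∧ ∀ E ∈ Es, IsFl G n E := by
  induction u generalizing D Es with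
  | nil =>
    obtain ⟨rfl, rfl⟩ := path_nil.1 h
    exact ⟨hD, fun _ h => nomatch h⟩
  | cons s u ih =>
    obtain ⟨D', Es', rfl, -, h1, h2⟩ := path_cons.1 h
    exact ⟨(ih h2 h1).1, List.forall_mem_cons.2 ⟨h1, (ih h2 h1).2⟩⟩

/-- Members that are not moved by the letters are constant along a gallery. -/
lemma Path.const {u : List ℕ} {Es : List (Flg L ι)} (h : Path G n u D Es Z) {i : ℕ} (hi : i ∉ u) :
    Z i = D i ∧ ∀ E ∈ Es, E i = D i := by
  induction u generalizing D Es with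
  | nil =>
    obtain ⟨rfl, rfl⟩ := path_nil.1 h
    exact ⟨rfl, fun _ h => nomatch h⟩
  | cons s u ih =>
    obtain ⟨D', Es', rfl, h1, -, h2⟩ := path_cons.1 h
    rw [List.mem_cons, not_or] at hi
    have e := h1 i hi.1
    rw [e]
    exact ⟨(ih h2 hi.2).1, List.forall_mem_cons.2 ⟨rfl, (ih h2 hi.2).2⟩⟩

end Form

section Red

variable {K : Type} [Field K] {M : Fld K} {O : Pl M} {ι ι₂ : Type} [Fintype ι] [Fintype ι₂]
  {E E' : Submodule M (ι → M)}

/-- The matrix `G'` is the reduction of the integral matrix `G`. -/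
def MRed (O : Pl M) (G : Matrix ι ι M) (G' : Matrix ι ι O.res) : Prop :=
  ∀ i j, G i j ∈ O.O ∧ O.rd (G i j) = G' i j

variable {G : Matrix ι ι M} {G' : Matrix ι ι O.res}

lemma MRed.bf (h : MRed O G G') {x y : ι → M} (hx : IntV O x) (hy : IntV O y) :
    bf G x y ∈ O.O ∧ O.rd (bf G x y) = bf G' (rdV O x) (rdV O y) := by
  have h1 : ∀ i, ∑ j, G i j * y j ∈ O.O := fun i => sum_mem fun j _ => mul_mem (h i j).1 (hy j)
  refine ⟨sum_mem fun i _ => mul_mem (hx i) (h1 i), ?_⟩
  show O.rd (∑ i, x i * ∑ j, G i j * y j) = ∑ i, O.rd (x i) * ∑ j, G' i j * O.rd (y j)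
  rw [O.rd_sum _ _ fun i _ => mul_mem (hx i) (h1 i)]
  refine Finset.sum_congr rfl fun i _ => ?_
  rw [O.rd_mul (hx i) (h1 i), O.rd_sum _ _ fun j _ => mul_mem (h i j).1 (hy j)]
  refine congrArg _ (Finset.sum_congr rfl fun j _ => ?_)
  rw [O.rd_mul (h i j).1 (hy j), (h i j).2]

lemma MRed.dsum (h : MRed O G G') {G₂ : Matrix ι₂ ι₂ M} {G₂' : Matrix ι₂ ι₂ O.res}
    (h₂ : MRed O G₂ G₂') : MRed O (dsum G G₂) (dsum G' G₂') := by
  rintro (i | i) (j | j)
  · exact h i j
  · exact ⟨zero_mem _, O.rd_zero⟩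
  · exact ⟨zero_mem _, O.rd_zero⟩
  · exact ⟨neg_mem (h₂ i j).1, (O.rd_neg (h₂ i j).1).trans (congrArg Neg.neg (h₂ i j).2)⟩

lemma MRed.perp_le (h : MRed O G G') (E : Submodule M (ι → M)) :
    sred O (perp G E) ≤ perp G' (sred O E) := by
  rintro _ ⟨y, hy, iy, rfl⟩ _ ⟨x, hx, ix, rfl⟩
  rw [← (h.bf ix iy).2, hy x hx, O.rd_zero]

lemma MRed.perp (h : MRed O G G') (hG : EForm G) (hG' : EForm G') (E : Submodule M (ι → M)) :
    sred O (perp G E) = perp G' (sred O E) := by
  refine eq_of_le_of_finrank_le (h.perp_le E) ?_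
  have h1 := hG.finrank_perp E
  have h2 := hG'.finrank_perp (sred O E)
  rw [finrank_sred] at h2 ⊢
  omega

lemma MRed.iso (h : MRed O G G') (hE : Iso G E) : Iso G' (sred O E) := by
  exact (sred_mono O hE).trans (h.perp_le E)

lemma MRed.lag (h : MRed O G G') (hG : EForm G) (hG' : EForm G') (hE : Lag G E) :
    Lag G' (sred O E) := by
  rw [Lag, ← h.perp hG hG', show DL.perp G E = E from hE]

lemma sred_map_funLeft (O : Pl M) (e : ι₂ → ι) (E : Submodule M (ι → M)) :
    (sred O E).map (LinearMap.funLeft O.res O.res e) ≤ sred O (E.map (LinearMap.funLeft M M e)) := by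
  rintro _ ⟨_, ⟨x, hx, ix, rfl⟩, rfl⟩
  exact ⟨_, ⟨x, hx, rfl⟩, fun i => ix (e i), rfl⟩

lemma sred_comap_funLeft (O : Pl M) {e : ι → ι₂} (he : Function.Injective e)
    (E : Submodule M (ι → M)) : sred O (E.comap (LinearMap.funLeft M M e)) =
      (sred O E).comap (LinearMap.funLeft O.res O.res e) := by
  refine eq_of_le_of_finrank_le ?_ ?_
  · rintro _ ⟨x, hx, ix, rfl⟩
    exact ⟨_, hx, fun i => ix (e i), rfl⟩
  · have h1 := GeoA.finrank_comap (LinearMap.funLeft M M e) E
    have h2 := GeoA.finrank_comap (LinearMap.funLeft O.res O.res e) (sred O E)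
    rw [LinearMap.range_eq_top.2 (LinearMap.funLeft_surjective_of_injective _ _ _ he), inf_top_eq,
      finrank_top, finrank_fintype_fun_eq_card, finrank_fintype_fun_eq_card] at h1 h2
    rw [finrank_sred] at h2 ⊢
    omega

variable {n : ℕ} {A D D' Z : Flg M ι}

lemma MRed.isFl (h : MRed O G G') (hD : IsFl G n D) : IsFl G' n (fred O D) := by
  refine ⟨fun i hi => ?_, fun i hi => sred_mono O (hD.le i hi), h.iso hD.iso,
    fun i hi => sred_eq_bot.2 (hD.out i hi)⟩
  rw [fred_apply, finrank_sred]; exact hD.rank i hi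

lemma Adj.red {s : ℕ} (h : Adj s D D') (O : Pl M) : Adj s (fred O D) (fred O D') := by
  exact fun i hi => congrArg (sred O) (h i hi)

lemma MRed.path (h : MRed O G G') {u : List ℕ} {Es : List (Flg M ι)} (hp : Path G n u D Es Z) :
    Path G' n u (fred O D) (Es.map (fred O)) (fred O Z) := by
  induction u generalizing D Es with
  | nil =>
    obtain ⟨rfl, rfl⟩ := path_nil.1 hp
    exact rfl
  | cons s u ih =>
    obtain ⟨D', Es', rfl, h1, h2, h3⟩ := path_cons.1 hp
    exact ⟨h1.red O, h.isFl h2, ih h3⟩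

/-- The relation specialises as long as the position is kept. -/
lemma MRed.rel (h : MRed O G G') (hG : EForm G) (hG' : EForm G') {τ : Bool} {b : ℕ} (hb : 1 ≤ b)
    (hbn : b ≤ n) (hA : IsFl G n A) (hD : IsFl G n D) (hr : Rel G n τ b A D)
    (hp : Pos G' τ b (sred O (A 1)) (fred O D)) : Rel G' n τ b (fred O A) (fred O D) := by
  refine ⟨hp, fun i hi => sred_mono O (hr.lo i hi), fun i h1 h2 => ?_⟩
  show sred O (D i) ⊓ DL.perp G' (sred O (A 1)) ≤ sred O (A i)
  have hi := hr.hi i h1 h2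
  cases τ
  · have hℓ : finrank M (A 1) = 1 := hA.rank 1 (hb.trans hbn)
    have h3 : ¬ sred O (D i) ≤ DL.perp G' (sred O (A 1)) := fun e =>
      hp ((sred_mono O (hD.mono h1 h2)).trans e)
    have h4 := finrank_inf_perp_line_eq (by rw [finrank_sred, hℓ]) h3
    have h5 := finrank_inf_perp_line G hℓ (D i)
    rw [finrank_sred, ← h.perp hG hG'] at h4
    rw [← h.perp hG hG', ← sred_inf (by omega)]
    exact sred_mono O hi
  · have h3 : D i ≤ DL.perp G (A 1) :=
      (hD.le_perp i b).trans (perp_anti G hr.pos.1)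
    rw [inf_eq_left.2 h3] at hi
    exact inf_le_left.trans (sred_mono O hi)

end Red

section Rat

variable {k₀ : Type} [Field k₀] [Fintype k₀] {K : Type} [Field K] [Algebra k₀ K] {L L' M : Fld K}
  {ι : Type}

omit [Fintype k₀] in
lemma map_rat (κ : L →ₐ[K] L') (c : k₀) : κ (rat k₀ L c) = rat k₀ L' c := by
  exact κ.commutes _

lemma frH_rat (c : k₀) : frH k₀ L (rat k₀ L c) = rat k₀ L c := by
  rw [frH_apply, ← map_pow, FiniteField.pow_card]

lemma frH_eq_iff {x : L} : frH k₀ L x = x ↔ x ∈ Set.range (rat k₀ L) := by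
  refine ⟨fun h => ?_, fun ⟨c, e⟩ => e ▸ frH_rat c⟩
  have h0 := FiniteField.X_pow_card_sub_X_ne_zero k₀ (Fintype.one_lt_card (α := k₀))
  have h1 : (Polynomial.X ^ Fintype.card k₀ - Polynomial.X : Polynomial k₀).Splits := by
    rw [Polynomial.splits_iff_card_roots, FiniteField.roots_X_pow_card_sub_X,
      FiniteField.X_pow_card_sub_X_natDegree_eq k₀ Fintype.one_lt_card]
    rfl
  refine h1.mem_range_of_isRoot h0 (i := rat k₀ L) ?_
  rw [frH_apply] at h
  simp [h]

lemma map_frH (κ : L →ₐ[K] L') (x : L) : κ.toRingHom (frH k₀ L x) = frH k₀ L' (κ.toRingHom x) := by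
  rw [frH_apply, frH_apply, map_pow]

lemma frH_surj [IsAlgClosed L] : Function.Surjective (frH k₀ L) := by
  exact fun x => IsAlgClosed.exists_pow_nat_eq x Fintype.card_pos

lemma exists_as [IsAlgClosed L] (c : L) : ∃ z, frH k₀ L z - z = c := by
  have hq : 1 < Fintype.card k₀ := Fintype.one_lt_card
  have h1 := FiniteField.X_pow_card_sub_X_natDegree_eq L hq
  obtain ⟨z, hz⟩ := IsAlgClosed.exists_root
    (Polynomial.X ^ Fintype.card k₀ - Polynomial.X - Polynomial.C c : Polynomial L) (by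
      intro e
      have := Polynomial.natDegree_eq_zero_iff_degree_le_zero.2 e.le
      rw [Polynomial.natDegree_sub_C, h1] at this
      omega)
  refine ⟨z, ?_⟩
  rw [frH_apply, ← sub_eq_zero]
  simpa using hz

lemma frH_mem_iff (O : Pl M) {x : M} : frH k₀ M x ∈ O.O ↔ x ∈ O.O := by
  rw [frH_apply, ← ValuationSubring.valuation_le_one_iff, ← ValuationSubring.valuation_le_one_iff,
    map_pow, pow_le_one_iff Fintype.card_ne_zero]

lemma rd_frH (O : Pl M) (x : M) : O.rd (frH k₀ M x) = frH k₀ O.res (O.rd x) := by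
  by_cases hx : x ∈ O.O
  · rw [frH_apply, frH_apply, O.rd_pow hx]
  · rw [O.rd_of_not_mem hx, O.rd_of_not_mem fun e => hx ((frH_mem_iff O).1 e), map_zero]

/-- Solutions of an Artin-Schreier equation with integral right side are integral. -/
lemma mem_of_as (O : Pl M) {x : M} (h : frH k₀ M x - x ∈ O.O) : x ∈ O.O := by
  by_contra hx
  rw [← ValuationSubring.valuation_le_one_iff] at h hx
  rw [not_le] at hx
  have h1 : O.O.valuation x < O.O.valuation (frH k₀ M x) := by
    rw [frH_apply, map_pow]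
    exact lt_self_pow₀ hx Fintype.one_lt_card
  rw [Valuation.map_sub_eq_of_lt_left _ h1] at h
  exact absurd (hx.trans h1) (not_lt.2 h)

omit [Fintype k₀] in
lemma rd_rat (O : Pl M) (c : k₀) : rat k₀ M c ∈ O.O ∧ O.rd (rat k₀ M c) = rat k₀ O.res c := by
  exact ⟨O.const _, O.rd_const _⟩

omit [Fintype k₀] in
lemma neZero_two [NeZero (2 : k₀)] (L : Fld K) : NeZero (2 : L) := by
  refine ⟨fun e => NeZero.ne (2 : k₀) ((rat k₀ L).injective ?_)⟩
  rw [map_ofNat, map_zero, e]

omit [Fintype k₀] in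
lemma gm_map (G : Matrix ι ι k₀) (κ : L →ₐ[K] L') : (gm G L).map κ.toRingHom = gm G L' := by
  ext i j; exact map_rat κ _

lemma gm_frH (G : Matrix ι ι k₀) (L : Fld K) : (gm G L).map (frH k₀ L) = gm G L := by
  ext i j; exact frH_rat _

omit [Fintype k₀] in
lemma gm_dsum {ι₂ : Type} (G : Matrix ι ι k₀) (G₂ : Matrix ι₂ ι₂ k₀) (L : Fld K) :
    gm (dsum G G₂) L = dsum (gm G L) (gm G₂ L) := by
  ext (i | i) (j | j) <;> simp [gm, dsum]

omit [Fintype k₀] in
lemma smap_ext (κ : L →ₐ[K] L') (U : Submodule k₀ (ι → k₀)) :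
    smap κ.toRingHom (ext L U) = ext L' U := by
  rw [ext, ext, ← smap_comp, show κ.toRingHom.comp (rat k₀ L) = rat k₀ L' from
    RingHom.ext (map_rat κ)]

lemma frH_ext (U : Submodule k₀ (ι → k₀)) : smap (frH k₀ L) (ext L U) = ext L U := by
  rw [ext, ← smap_comp, show (frH k₀ L).comp (rat k₀ L) = rat k₀ L from RingHom.ext frH_rat]

variable [Fintype ι]

omit [Fintype k₀] in
lemma EForm.gm {G : Matrix ι ι k₀} (h : EForm G) (L : Fld K) : EForm (gm G L) := h.map _

omit [Fintype k₀] in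
lemma gm_red (G : Matrix ι ι k₀) (O : Pl M) : MRed O (gm G M) (gm G O.res) := by
  exact fun _ _ => rd_rat O _

omit [Fintype k₀] in
lemma sred_ext (O : Pl M) (U : Submodule k₀ (ι → k₀)) : sred O (ext M U) = ext O.res U := by
  exact sred_smap_triv _ _ (rd_rat O) U

lemma sred_frH (O : Pl M) (E : Submodule M (ι → M)) :
    sred O (smap (frH k₀ M) E) = smap (frH k₀ O.res) (sred O E) := by
  exact sred_smap _ _ (fun x hx => ⟨(frH_mem_iff O).2 hx, rd_frH O x⟩) E

lemma fred_frH (O : Pl M) (D : Flg M ι) :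
    fred O (fmap (frH k₀ M) D) = fmap (frH k₀ O.res) (fred O D) := by
  exact Finsupp.ext fun i => sred_frH O (D i)

lemma asp_le_sred (O : Pl M) (ℓ : Submodule M (ι → M)) (m : ℕ) :
    Asp (frH k₀ O.res) (sred O ℓ) m ≤ sred O (Asp (frH k₀ M) ℓ m) := by
  induction m with
  | zero => exact bot_le
  | succ m ih =>
    refine le_trans (sup_le_sup_left ?_ _) (le_sred_sup O _ _)
    rw [sred_frH]
    exact smap_mono _ ih

lemma sred_jc_le (O : Pl M) (A : Submodule M (ι → M)) (t : ℕ) :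
    sred O (Jc (frH k₀ M) A t) ≤ Jc (frH k₀ O.res) (sred O A) t := by
  induction t with
  | zero => exact le_rfl
  | succ t ih =>
    refine (sred_inf_le O _ _).trans (inf_le_inf ih ?_)
    rw [sred_frH]
    exact smap_mono _ ih

/-- A vector of a rational subspace that is fixed by Frobenius is rational. -/
lemma exists_rat_of_fixed {U : Submodule k₀ (ι → k₀)} {x : ι → L} (hx : x ∈ ext L U)
    (h : mapV (frH k₀ L) x = x) : ∃ u ∈ U, mapV (rat k₀ L) u = x := by
  choose u hu using fun i => frH_eq_iff.1 (congrFun h i)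
  obtain rfl : mapV (rat k₀ L) u = x := funext hu
  exact ⟨u, (mapV_mem_iff _).1 hx, rfl⟩

end Rat

end Pool.Agent.Lib.MP_557161_ag.DL
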