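import Mathlib

/-!
Graded modules over a polynomial ring whose variables have weights `w`, given by their projections.
-/

namespace Pool.Agent.Lib.MP_557161_ag.DL

open MvPolynomial

/-- A graded module over the polynomial ring with variables `τ` of weights `w`. -/
structure GMod (K : Type) [Field K] {τ Γ : Type} [AddCommMonoid Γ] (w : τ → Γ) where
  V : Type
  [acg : AddCommGroup V]
  [mP : Module (MvPolynomial τ K) V]
  [mK : Module K V]
  [tow : IsScalarTower K (MvPolynomial τ K) V]
  π : Γ → V →ₗ[K] V
  π_same : ∀ a v, π a (π a v) = π a v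
  π_ne : ∀ a b v, a ≠ b → π a (π b v) = 0
  π_fin : ∀ v, (Function.support fun a => π a v).Finite
  π_sum : ∀ v, ∑ᶠ a, π a v = v
  X_smul : ∀ i a v, π (w i + a) ((X i : MvPolynomial τ K) • π a v) = (X i : MvPolynomial τ K) • π a v

attribute [instance] GMod.acg GMod.mP GMod.mK GMod.tow

/-- Bidegrees, ordered lexicographically. -/
abbrev N2 : Type := Lex (ℕ × ℕ)

/-- The weights `1` of a standard grading. -/
def w1 (σ : Type) : σ → ℕ := fun _ => 1

/-- The weights `(1, 0)` and `(0, 1)` of a bigrading. -/
def w2 (σ σ' : Type) : σ ⊕ σ' → N2 := Sum.elim (fun _ => toLex (1, 0)) fun _ => toLex (0, 1)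

variable {K : Type} [Field K] {τ Γ : Type} [AddCommMonoid Γ] {w : τ → Γ}

/-- An ideal that contains the weighted homogeneous components of its elements. -/
def WHomog (w : τ → Γ) (J : Ideal (MvPolynomial τ K)) : Prop :=
  ∀ f ∈ J, ∀ a, weightedHomogeneousComponent w a f ∈ J

namespace GMod

variable (N : GMod K w)

/-- The part of degree `a`. -/
def part (a : Γ) : Submodule K N.V := LinearMap.eqLocus (N.π a) LinearMap.id

lemma mem_part {N : GMod K w} {a : Γ} {v : N.V} : v ∈ N.part a ↔ N.π a v = v := Iff.rfl

lemma π_mem_part (a : Γ) (v : N.V) : N.π a v ∈ N.part a := N.π_same a v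

lemma π_of_mem_part {N : GMod K w} {a b : Γ} {v : N.V} (h : v ∈ N.part a) (hb : b ≠ a) :
    N.π b v = 0 := by
  rw [← mem_part.1 h]; exact N.π_ne b a v hb

lemma sum_π (v : N.V) : ∑ a ∈ (N.π_fin v).toFinset, N.π a v = v := by
  rw [← finsum_eq_sum _ (N.π_fin v)]; exact N.π_sum v

/-- Induction over homogeneous elements. -/
lemma induction {p : N.V → Prop} (h0 : p 0) (hadd : ∀ u v, p u → p v → p (u + v))
    (h : ∀ a, ∀ v ∈ N.part a, p v) (v : N.V) : p v := by
  rw [← N.sum_π v]
  exact Finset.sum_induction _ p hadd h0 fun a _ => h a _ (N.π_mem_part a v)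

lemma ext_π {u v : N.V} (h : ∀ a, N.π a u = N.π a v) : u = v := by
  rw [← N.π_sum u, ← N.π_sum v]; exact finsum_congr h

lemma C_smul (c : K) (v : N.V) : (C c : MvPolynomial τ K) • v = c • v := by
  rw [← MvPolynomial.algebraMap_eq, algebraMap_smul]

lemma X_smul_mem {N : GMod K w} {a : Γ} {v : N.V} (h : v ∈ N.part a) (i : τ) :
    (X i : MvPolynomial τ K) • v ∈ N.part (w i + a) := by
  rw [← mem_part.1 h]; exact N.X_smul i a v

lemma monomial_smul_mem {N : GMod K w} {a : Γ} {v : N.V} (h : v ∈ N.part a) (m : τ →₀ ℕ)
    (c : K) : (monomial m c : MvPolynomial τ K) • v ∈ N.part (Finsupp.weight w m + a) := by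
  induction m using Finsupp.induction_linear generalizing a v c with
  | zero => simpa [← MvPolynomial.C_apply, C_smul] using Submodule.smul_mem _ c h
  | add f g hf hg =>
    have : (monomial (f + g) c : MvPolynomial τ K) = monomial f c * monomial g 1 := by
      rw [monomial_mul, mul_one]
    rw [this, mul_smul, map_add, add_assoc]
    exact hf (hg h 1) c
  | single i n =>
    have e : (monomial (Finsupp.single i n) c : MvPolynomial τ K) = C c * X i ^ n := by
      rw [X_pow_eq_monomial, C_mul_monomial, mul_one]
    rw [e, mul_smul, C_smul]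
    refine Submodule.smul_mem _ c ?_
    rw [Finsupp.weight_single]
    clear e
    induction n with
    | zero => simpa using h
    | succ n ih =>
      rw [pow_succ', mul_smul, succ_nsmul', add_assoc]
      exact X_smul_mem ih i

lemma smul_mem_part {N : GMod K w} {a g : Γ} {v : N.V} {f : MvPolynomial τ K}
    (hf : f.IsWeightedHomogeneous w g) (h : v ∈ N.part a) : f • v ∈ N.part (g + a) := by
  rw [f.as_sum, Finset.sum_smul]
  refine Submodule.sum_mem _ fun m hm => ?_
  rw [← hf (mem_support_iff.1 hm)]
  exact monomial_smul_mem h m _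

/-- A submodule that contains the components of its elements. -/
def Hmg (U : Submodule (MvPolynomial τ K) N.V) : Prop := ∀ a, ∀ v ∈ U, N.π a v ∈ U

/-- A homogeneous submodule as a graded module. -/
noncomputable def sub (U : Submodule (MvPolynomial τ K) N.V) (hU : N.Hmg U) : GMod K w where
  V := U
  tow := ⟨fun c f v => Subtype.ext (smul_assoc c f v.1)⟩
  π a := (N.π a).restrict (p := U.restrictScalars K) (q := U.restrictScalars K) (hU a)
  π_same a v := Subtype.ext (N.π_same a v)
  π_ne a b v h := Subtype.ext (N.π_ne a b v h)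
  π_fin v := (N.π_fin v.1).subset fun a ha h => ha (Subtype.ext h)
  π_sum v := by
    apply Subtype.ext
    have hf : (Function.support fun a => ((N.π a).restrict (p := U.restrictScalars K)
        (q := U.restrictScalars K) (hU a)) v).Finite :=
      (N.π_fin v.1).subset fun a ha h => ha (Subtype.ext h)
    exact (AddMonoidHom.map_finsum (U.subtype.toAddMonoidHom) hf).trans (N.π_sum v.1)
  X_smul i a v := Subtype.ext (N.X_smul i a v)

/-- The projection of a quotient. -/
noncomputable def quotπ (U : Submodule (MvPolynomial τ K) N.V) (hU : N.Hmg U) (a : Γ) :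
    (N.V ⧸ U) →ₗ[K] (N.V ⧸ U) :=
  ((Submodule.Quotient.restrictScalarsEquiv K U).toLinearMap ∘ₗ
    Submodule.mapQ (U.restrictScalars K) (U.restrictScalars K) (N.π a) (hU a)) ∘ₗ
      (Submodule.Quotient.restrictScalarsEquiv K U).symm.toLinearMap

lemma quotπ_mk (U : Submodule (MvPolynomial τ K) N.V) (hU : N.Hmg U) (a : Γ) (v : N.V) :
    N.quotπ U hU a (Submodule.Quotient.mk v) = Submodule.Quotient.mk (N.π a v) := rfl

/-- The quotient by a homogeneous submodule as a graded module. -/
noncomputable def quot (U : Submodule (MvPolynomial τ K) N.V) (hU : N.Hmg U) : GMod K w where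
  V := N.V ⧸ U
  π := N.quotπ U hU
  π_same a v := by
    obtain ⟨v, rfl⟩ := Submodule.Quotient.mk_surjective U v
    rw [quotπ_mk, quotπ_mk, N.π_same]
  π_ne a b v h := by
    obtain ⟨v, rfl⟩ := Submodule.Quotient.mk_surjective U v
    rw [quotπ_mk, quotπ_mk, N.π_ne a b v h, Submodule.Quotient.mk_zero]
  π_fin v := by
    obtain ⟨v, rfl⟩ := Submodule.Quotient.mk_surjective U v
    refine (N.π_fin v).subset fun a ha h => ha ?_
    have h' : N.π a v = 0 := h
    show N.quotπ U hU a _ = 0
    rw [quotπ_mk, h', Submodule.Quotient.mk_zero]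
  π_sum v := by
    obtain ⟨v, rfl⟩ := Submodule.Quotient.mk_surjective U v
    simp only [quotπ_mk]
    exact (AddMonoidHom.map_finsum (U.mkQ.toAddMonoidHom) (N.π_fin v)).symm.trans
      (congrArg _ (N.π_sum v))
  X_smul i a v := by
    obtain ⟨v, rfl⟩ := Submodule.Quotient.mk_surjective U v
    rw [quotπ_mk, ← Submodule.Quotient.mk_smul, quotπ_mk, N.X_smul]

/-- A finite product of graded modules. -/
noncomputable def pi {β : Type} [Fintype β] (M : β → GMod K w) : GMod K w where
  V := ∀ b, (M b).V
  π a := LinearMap.pi fun b => (M b).π a ∘ₗ LinearMap.proj b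
  π_same a v := funext fun b => (M b).π_same a (v b)
  π_ne a a' v h := funext fun b => (M b).π_ne a a' (v b) h
  π_fin v := (Set.finite_iUnion fun b => (M b).π_fin (v b)).subset fun a ha => by
    by_contra h
    refine ha (funext fun b => ?_)
    by_contra h'
    exact h (Set.mem_iUnion.2 ⟨b, h'⟩)
  π_sum v := by
    have hf : (Function.support fun a => (LinearMap.pi fun b => (M b).π a ∘ₗ
        LinearMap.proj (R := K) b) v).Finite :=
      (Set.finite_iUnion fun b => (M b).π_fin (v b)).subset fun a ha => by
        by_contra h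
        refine ha (funext fun b => ?_)
        by_contra h'
        exact h (Set.mem_iUnion.2 ⟨b, h'⟩)
    funext b
    exact (AddMonoidHom.map_finsum (Pi.evalAddMonoidHom (fun b => (M b).V) b) hf).trans
      ((M b).π_sum (v b))
  X_smul i a v := funext fun b => (M b).X_smul i a (v b)

variable (K w) in
/-- The polynomial ring as a graded module. -/
noncomputable def poly : GMod K w where
  V := MvPolynomial τ K
  π a := weightedHomogeneousComponent w a
  π_same a v := by
    classical
    rw [weightedHomogeneousComponent_of_mem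
      (weightedHomogeneousComponent_mem w v a), if_pos rfl]
  π_ne a b v h := by
    classical
    rw [weightedHomogeneousComponent_of_mem
      (weightedHomogeneousComponent_mem w v b), if_neg h]
  π_fin v := weightedHomogeneousComponent_finsupp v
  π_sum v := sum_weightedHomogeneousComponent w v
  X_smul i a v := by
    classical
    rw [weightedHomogeneousComponent_of_mem (n := w i + a), if_pos rfl]
    exact (isWeightedHomogeneous_X K w i).mul
      (weightedHomogeneousComponent_isWeightedHomogeneous a v)

/-- The quotient of the polynomial ring by a homogeneous ideal. -/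
noncomputable def cyc (J : Ideal (MvPolynomial τ K)) (hJ : WHomog w J) : GMod K w :=
  (poly K w).quot J fun a v hv => hJ v hv a

open Classical in
/-- The projection of the shifted module. -/
noncomputable def shiftπ (g a : Γ) : N.V →ₗ[K] N.V :=
  if h : ∃ b, g + b = a then N.π h.choose else 0

lemma shiftπ_add [IsCancelAdd Γ] (g b : Γ) : N.shiftπ g (g + b) = N.π b := by
  have h : ∃ b', g + b' = g + b := ⟨b, rfl⟩
  rw [shiftπ, dif_pos h, add_left_cancel h.choose_spec]

lemma shiftπ_of_not {g a : Γ} (h : ¬ ∃ b, g + b = a) : N.shiftπ g a = 0 := by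
  rw [shiftπ, dif_neg h]

/-- The module `N(-g)`: the part of degree `g + b` is the part of degree `b` of `N`. -/
noncomputable def shift [IsCancelAdd Γ] (g : Γ) : GMod K w where
  V := N.V
  π := N.shiftπ g
  π_same a v := by
    by_cases h : ∃ b, g + b = a
    · obtain ⟨b, rfl⟩ := h
      rw [shiftπ_add, N.π_same]
    · rw [N.shiftπ_of_not h]; rfl
  π_ne a a' v hne := by
    by_cases h : ∃ b, g + b = a
    · obtain ⟨b, rfl⟩ := h
      by_cases h' : ∃ b, g + b = a'
      · obtain ⟨b', rfl⟩ := h'
        rw [shiftπ_add, shiftπ_add]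
        exact N.π_ne _ _ _ fun e => hne (by rw [e])
      · rw [N.shiftπ_of_not h', LinearMap.zero_apply, map_zero]
    · rw [N.shiftπ_of_not h]; rfl
  π_fin v := ((N.π_fin v).image (g + ·)).subset fun a ha => by
    by_cases h : ∃ b, g + b = a
    · obtain ⟨b, rfl⟩ := h
      exact ⟨b, by simpa [shiftπ_add] using ha, rfl⟩
    · exact absurd (show N.shiftπ g a v = 0 by rw [N.shiftπ_of_not h]; rfl) ha
  π_sum v := by
    rw [← finsum_mem_inter_support_eq' (s := Set.univ) (t := Set.range (g + ·)) _ ?_ |>.symm.trans
      (finsum_mem_univ _), finsum_mem_range (add_right_injective g)]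
    · simp only [shiftπ_add]; exact N.π_sum v
    · intro a ha
      refine ⟨fun _ => ?_, fun _ => trivial⟩
      by_contra h
      exact ha (show N.shiftπ g a v = 0 by rw [N.shiftπ_of_not h]; rfl)
  X_smul i a v := by
    by_cases h : ∃ b, g + b = a
    · obtain ⟨b, rfl⟩ := h
      rw [add_left_comm, shiftπ_add, shiftπ_add]
      exact N.X_smul i b v
    · rw [N.shiftπ_of_not h]; simp

lemma shift_π_add [IsCancelAdd Γ] (g b : Γ) (v : N.V) : (N.shift g).π (g + b) v = N.π b v := by
  show N.shiftπ g (g + b) v = _
  rw [shiftπ_add]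

lemma shift_π_of_not [IsCancelAdd Γ] {g a : Γ} (h : ¬ ∃ b, g + b = a) (v : N.V) :
    (N.shift g).π a v = 0 := by
  show N.shiftπ g a v = _
  rw [N.shiftπ_of_not h]; rfl

end GMod


variable {τ' Γ' : Type} [AddCommMonoid Γ'] {w' : τ' → Γ'}

/-- The data for a change of rings and gradings: the new variable `i` acts as the homogeneous
polynomial `ψ i`, and the degree `a` becomes `ρ a`. -/
structure Chg (K : Type) [Field K] (w : τ → Γ) (w' : τ' → Γ') where
  ψ : τ' → MvPolynomial τ K
  ρ : Γ → Γ'
  compat : ∀ i, ∃ g, (ψ i).IsWeightedHomogeneous w g ∧ ∀ a, ρ (g + a) = w' i + ρ a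

namespace GMod

variable (N : GMod K w) (c : Chg K w w')

open Classical in
lemma resπ_fin (a' : Γ') (v : N.V) :
    (Function.support fun a => if c.ρ a = a' then N.π a v else 0).Finite :=
  (N.π_fin v).subset fun a ha h => ha (by
    have h' : N.π a v = 0 := h
    simp [h'])

open Classical in
/-- The projection after a change of gradings. -/
noncomputable def resπ (a' : Γ') : N.V →ₗ[K] N.V where
  toFun v := ∑ᶠ a, if c.ρ a = a' then N.π a v else 0
  map_add' u v := by
    rw [← finsum_add_distrib (N.resπ_fin c a' u) (N.resπ_fin c a' v)]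
    refine finsum_congr fun a => ?_
    split_ifs <;> simp
  map_smul' r v := by
    rw [RingHom.id_apply, smul_finsum' r (N.resπ_fin c a' v)]
    refine finsum_congr fun a => ?_
    split_ifs <;> simp

open Classical in
lemma resπ_of_mem_part {N : GMod K w} (c : Chg K w w') {a : Γ} {v : N.V} (h : v ∈ N.part a)
    (a' : Γ') : N.resπ c a' v = if c.ρ a = a' then v else 0 := by
  show (∑ᶠ b, if c.ρ b = a' then N.π b v else 0) = _
  rw [finsum_eq_single _ a, mem_part.1 h]
  intro b hb
  rw [π_of_mem_part h hb, ite_self]

/-- Restriction along a change of rings and gradings. -/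
noncomputable def res : GMod K w' where
  V := N.V
  mP := Module.compHom N.V (aeval c.ψ : MvPolynomial τ' K →ₐ[K] MvPolynomial τ K).toRingHom
  tow := by
    letI := Module.compHom N.V (aeval c.ψ : MvPolynomial τ' K →ₐ[K] MvPolynomial τ K).toRingHom
    refine ⟨fun r f v => ?_⟩
    show (aeval c.ψ (r • f)) • v = r • (aeval c.ψ f) • v
    rw [map_smul, smul_assoc]
  π := N.resπ c
  π_same a' v := by
    classical
    induction v using N.induction with
    | h0 => simp
    | hadd u v hu hv => simp only [map_add, hu, hv]
    | h a v hv =>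
      rw [resπ_of_mem_part c hv]
      split_ifs with h
      · rw [resπ_of_mem_part c hv, if_pos h]
      · simp
  π_ne a' b' v hne := by
    classical
    induction v using N.induction with
    | h0 => simp
    | hadd u v hu hv => simp only [map_add, hu, hv, add_zero]
    | h a v hv =>
      rw [resπ_of_mem_part c hv]
      split_ifs with h
      · rw [resπ_of_mem_part c hv, if_neg (fun e => hne (e.symm.trans h))]
      · simp
  π_fin v := by
    refine ((N.π_fin v).image c.ρ).subset fun a' ha' => ?_
    by_contra h
    refine ha' (finsum_eq_zero_of_forall_eq_zero fun a => ?_)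
    split_ifs with e
    · by_contra h'
      exact h ⟨a, h', e⟩
    · rfl
  π_sum v := by
    classical
    have hf : ∀ v : N.V, (Function.support fun a' => N.resπ c a' v).Finite := fun v => by
      refine ((N.π_fin v).image c.ρ).subset fun a' ha' => ?_
      by_contra h
      refine ha' (finsum_eq_zero_of_forall_eq_zero fun a => ?_)
      split_ifs with e
      · by_contra h'
        exact h ⟨a, h', e⟩
      · rfl
    induction v using N.induction with
    | h0 => simp
    | hadd u v hu hv => simp only [map_add, finsum_add_distrib (hf u) (hf v), hu, hv]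
    | h a v hv =>
      rw [finsum_eq_single _ (c.ρ a), resπ_of_mem_part c hv, if_pos rfl]
      intro b hb
      rw [resπ_of_mem_part c hv, if_neg (Ne.symm hb)]
  X_smul i a' v := by
    classical
    obtain ⟨g, hg, hρ⟩ := c.compat i
    show N.resπ c (w' i + a') (aeval c.ψ (X i : MvPolynomial τ' K) • N.resπ c a' v) =
      aeval c.ψ (X i : MvPolynomial τ' K) • N.resπ c a' v
    rw [aeval_X]
    induction v using N.induction with
    | h0 => simp
    | hadd u v hu hv => simp only [map_add, smul_add, hu, hv]
    | h a v hv =>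
      rw [resπ_of_mem_part c hv]
      split_ifs with h
      · rw [resπ_of_mem_part c (smul_mem_part hg hv), if_pos (by rw [hρ, h])]
      · simp

lemma res_smul (f : MvPolynomial τ' K) (v : (N.res c).V) :
    f • v = (show (N.res c).V from (aeval c.ψ f : MvPolynomial τ K) • (show N.V from v)) := rfl

end GMod

/-- A homomorphism of graded modules. -/
structure GHom (M N : GMod K w) where
  f : M.V →ₗ[MvPolynomial τ K] N.V
  comm : ∀ a v, f (M.π a v) = N.π a (f v)

/-- A short exact sequence of graded modules. -/
structure SES (N₁ N₂ N₃ : GMod K w) where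
  f : GHom N₁ N₂
  g : GHom N₂ N₃
  inj : Function.Injective f.f
  surj : Function.Surjective g.f
  exact : Function.Exact f.f g.f

/-- Finitely generated graded modules that are killed by the ideal `I`. -/
def Adm (I : Ideal (MvPolynomial τ K)) (N : GMod K w) : Prop :=
  Module.Finite (MvPolynomial τ K) N.V ∧ ∀ f ∈ I, ∀ v : N.V, f • v = 0

/-- A function on graded modules that is additive on short exact sequences of admissible ones. -/
def Addv {A : Type} [AddCommGroup A] (I : Ideal (MvPolynomial τ K)) (Λ : GMod K w → A) : Prop :=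
  ∀ N₁ N₂ N₃, SES N₁ N₂ N₃ → Adm I N₂ → Λ N₂ = Λ N₁ + Λ N₃

end Pool.Agent.Lib.MP_557161_ag.DL
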