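import Pool.Agent.Lib.MP_557161_ag.DL.Trf

/-!
Linear algebra for Lagrangian subspaces that meet their Frobenius image in codimension at most one.
-/

namespace Pool.Agent.Lib.MP_557161_ag.DL

open Module Submodule Matrix

namespace HP

section Lin

variable {L : Type} [Field L] {ι ι₂ : Type} [Fintype ι] [Fintype ι₂] {G : Matrix ι ι L}
  {G₂ : Matrix ι₂ ι₂ L} {φ : L →+* L} {ℓ ℓ' : Submodule L (ι → L)} {b m : ℕ}
  {Λ Λ' : Submodule L (ι ⊕ ι₂ → L)} {E : Submodule L (ι₂ → L)}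

lemma finrank_le_card (A : Submodule L (ι → L)) : finrank L A ≤ Fintype.card ι := by
  simpa using finrank_le A

lemma finrank_asp_le' (hℓ : finrank L ℓ = 1) (k : ℕ) : finrank L (Asp φ ℓ k) ≤ k := by
  induction k with
  | zero => exact (finrank_bot L _).le
  | succ k ih => exact (finrank_asp_le hℓ k).trans (by omega)

omit [Fintype ι] in
lemma le_asp (k : ℕ) : ℓ ≤ Asp φ ℓ (k + 1) := le_sup_left

lemma iso_frob (hφ : G.map φ = G) {A : Submodule L (ι → L)} (h : Iso G A) : Iso G (smap φ A) := by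
  have := (iso_smap (G := G) (E := A) φ).2 h
  rwa [hφ] at this

lemma lag_frob (hφ : G.map φ = G) {A : Submodule L (ι → L)} (h : Lag G A) : Lag G (smap φ A) := by
  have := (lag_smap (G := G) (E := A) φ).2 h
  rwa [hφ] at this

lemma iso_asp (hG : EForm G) (hφ : G.map φ = G) {n : ℕ} (h : Asp φ ℓ n ≤ perp G ℓ) {k : ℕ}
    (hk : k ≤ n) : Iso G (Asp φ ℓ k) := by
  induction k with
  | zero => exact bot_le
  | succ k ih =>
    have h1 : Asp φ ℓ (k + 1) ≤ perp G ℓ := (asp_mono hk).trans h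
    show Asp φ ℓ (k + 1) ≤ perp G (ℓ ⊔ smap φ (Asp φ ℓ k))
    rw [perp_sup]
    exact le_inf h1 (sup_le (hG.le_perp_comm.1 (le_sup_right.trans h1))
      (iso_frob hφ (ih (by omega))))

omit [Fintype ι] in
lemma asp_le {U : Submodule L (ι → L)} (hU : smap φ U = U) (h : ℓ ≤ U) (k : ℕ) :
    Asp φ ℓ k ≤ U := by
  induction k with
  | zero => exact bot_le
  | succ k ih => exact sup_le h ((smap_mono φ ih).trans hU.le)

lemma jc_asp_top (hℓ : finrank L ℓ = 1) (h : finrank L (Asp φ ℓ (m + 1)) = m + 1) :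
    Jc φ (Asp φ ℓ m) m = ⊥ := by
  rw [jc_asp hℓ h le_rfl, Nat.sub_self]
  exact Function.iterate_fixed (smap_bot φ) m

lemma jc_asp_line (hℓ : finrank L ℓ = 1) (h : finrank L (Asp φ ℓ (m + 2)) = m + 2) :
    Jc φ (Asp φ ℓ (m + 1)) m = (smap φ)^[m] ℓ := by
  rw [jc_asp hℓ h (Nat.le_succ m), show m + 1 - m = 1 by omega, asp_one]

/-! Transfer along a Frobenius stable correspondence. -/

lemma frob_trf (hΛ : smap φ Λ = Λ) (E : Submodule L (ι₂ → L)) :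
    smap φ (trf Λ E) = trf Λ (smap φ E) := by
  rw [smap_trf, hΛ]

lemma jc_trf (hG : EForm (dsum G G₂)) (h : GoodL G G₂ b Λ) (hΛ : smap φ Λ = Λ)
    (E : Submodule L (ι₂ → L)) (t : ℕ) : Jc φ (trf Λ E) t = trf Λ (Jc φ E t) := by
  induction t with
  | zero => rfl
  | succ t ih =>
    show Jc φ (trf Λ E) t ⊓ smap φ (Jc φ (trf Λ E) t) = trf Λ (Jc φ E t ⊓ smap φ (Jc φ E t))
    rw [ih, frob_trf hΛ, h.trf_inf hG]

lemma lag_trf (hG : EForm (dsum G G₂)) (h : GoodL G G₂ b Λ) : Lag G (trf Λ E) ↔ Lag G₂ E := by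
  rw [Lag, Lag, h.perp_trf hG, le_antisymm_iff, le_antisymm_iff, h.trf_le_iff hG, h.trf_le_iff hG]

lemma codim_trf (hG : EForm (dsum G G₂)) (h : GoodL G G₂ b Λ) (hΛ : smap φ Λ = Λ) :
    finrank L (trf Λ E) ≤ finrank L ↥(trf Λ E ⊓ smap φ (trf Λ E)) + 1 ↔
      finrank L E ≤ finrank L ↥(E ⊓ smap φ E) + 1 := by
  rw [frob_trf hΛ, ← h.trf_inf hG, h.finrank_trf hG, h.finrank_trf hG]
  omega

lemma lev_trf (hG : EForm (dsum G G₂)) (h : GoodL G G₂ b Λ) (hΛ : smap φ Λ = Λ) :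
    finrank L (Jc φ (trf Λ E) (Fintype.card ι)) = b ↔ Jc φ E (finrank L E) = ⊥ := by
  have h1 : finrank L E ≤ Fintype.card ι := (finrank_le_card E).trans (by have := h.2.2; omega)
  rw [jc_trf hG h hΛ, h.finrank_trf hG, (jc_stab h1).2, ← finrank_eq_zero]
  omega

/-! The first summand. -/

/-- The inclusion of the first summand. -/
def jl (L : Type) [Field L] (ι ι₂ : Type) : (ι → L) →ₗ[L] (ι ⊕ ι₂ → L) where
  toFun v := Sum.elim v 0
  map_add' v w := by ext (i | i) <;> simp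
  map_smul' c v := by ext (i | i) <;> simp

omit [Fintype ι] [Fintype ι₂] in
lemma jl_inj : Function.Injective (jl L ι ι₂) := fun _ _ h => funext fun i => congrFun h (Sum.inl i)

lemma trf_bot (Λ : Submodule L (ι ⊕ ι₂ → L)) : trf Λ ⊥ = Λ.comap (jl L ι ι₂) := by
  ext v
  rw [mem_trf, mem_comap]
  exact ⟨fun ⟨_, hz, h⟩ => by rw [mem_bot] at hz; subst hz; exact h, fun h => ⟨0, zero_mem _, h⟩⟩

omit [Fintype ι] [Fintype ι₂] in
lemma finrank_map_jl (A : Submodule L (ι → L)) : finrank L (A.map (jl L ι ι₂)) = finrank L A :=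
  (equivMapOfInjective _ jl_inj A).finrank_eq.symm

lemma finrank_trf_bot (Λ : Submodule L (ι ⊕ ι₂ → L)) :
    finrank L (trf Λ ⊥) = finrank L ↥(LinearMap.range (jl L ι ι₂) ⊓ Λ) := by
  rw [trf_bot, ← map_comap_eq, finrank_map_jl]

lemma trf_bot_mono (h : Λ' ≤ Λ) : trf Λ' ⊥ ≤ trf Λ ⊥ := by
  rw [trf_bot, trf_bot]; exact comap_mono h

lemma codim_trf_bot (h : Λ' ≤ Λ) (h1 : finrank L Λ ≤ finrank L Λ' + 1) :
    finrank L (trf Λ ⊥) ≤ finrank L (trf Λ' ⊥) + 1 := by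
  rw [finrank_trf_bot, finrank_trf_bot]
  have h2 := finrank_sup_add_finrank_inf_eq (LinearMap.range (jl L ι ι₂) ⊓ Λ) Λ'
  rw [inf_assoc, inf_eq_right.2 h] at h2
  have h3 : finrank L ↥(LinearMap.range (jl L ι ι₂) ⊓ Λ ⊔ Λ') ≤ finrank L Λ :=
    finrank_mono (sup_le inf_le_right h)
  omega

lemma frob_trf_bot (φ : L →+* L) (Λ : Submodule L (ι ⊕ ι₂ → L)) :
    smap φ (trf Λ ⊥) = trf (smap φ Λ) ⊥ := by
  rw [smap_trf, smap_bot]

lemma codim_bot (h : finrank L Λ ≤ finrank L ↥(Λ ⊓ smap φ Λ) + 1) :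
    finrank L (trf Λ ⊥) ≤ finrank L ↥(trf Λ ⊥ ⊓ smap φ (trf Λ ⊥)) + 1 := by
  refine (codim_trf_bot inf_le_left h).trans (Nat.succ_le_succ (finrank_mono ?_))
  rw [frob_trf_bot]
  exact le_inf (trf_bot_mono inf_le_left) (trf_bot_mono inf_le_right)

lemma cyl_perp (G₂ : Matrix ι₂ ι₂ L) (A : Submodule L (ι → L)) :
    cyl ι₂ (perp G A) = perp (dsum G G₂) (A.map (jl L ι ι₂)) := by
  have key : ∀ (x : ι → L) (y : ι ⊕ ι₂ → L),
      bf (dsum G G₂) (jl L ι ι₂ x) y = bf G x (y ∘ Sum.inl) := fun x y => by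
    rw [bf_dsum, show jl L ι ι₂ x ∘ Sum.inr = 0 from rfl, bf_zero_left, sub_zero]; rfl
  ext y
  rw [mem_cyl, mem_perp, mem_perp]
  exact ⟨fun h _ ⟨x, hx, e⟩ => e ▸ (key x y).trans (h x hx),
    fun h x hx => (key x y).symm.trans (h _ ⟨x, hx, rfl⟩)⟩

lemma map_jl_le {A : Submodule L (ι → L)} : A.map (jl L ι ι₂) ≤ Λ ↔ A ≤ trf Λ ⊥ := by
  rw [trf_bot, map_le_iff_le_comap]

lemma dsum_frob (hφ : G.map φ = G) (hφ₂ : G₂.map φ = G₂) : (dsum G G₂).map φ = dsum G G₂ := by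
  rw [dsum_map, hφ, hφ₂]

/-- In the first position the correspondence is stable under Frobenius. -/
lemma frob_eq (hG : EForm (dsum G G₂)) (hφ : G.map φ = G) (hφ₂ : G₂.map φ = G₂)
    (h : IsT G G₂ φ true b ℓ Λ) : smap φ Λ = Λ := by
  refine eq_of_le_of_finrank_le (le_trans (le_inf le_rfl ?_) h.adapt) (finrank_smap φ Λ).ge
  have h1 : ℓ ≤ smap φ (Asp φ ℓ b) := h.pos
  rw [h.asp, frob_trf_bot, ← map_jl_le] at h1
  rw [cyl_perp G₂, hG.le_perp_comm, lag_frob (dsum_frob hφ hφ₂) h.good.1]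
  exact h1

lemma isT_finrank (h : IsT G G₂ φ false b ℓ Λ) (hG : EForm (dsum G G₂)) (hφ : G.map φ = G) :
    finrank L (Asp φ ℓ (b + 1)) = b + 1 := by
  have h1 : Iso G (smap φ (Asp φ ℓ b)) := by
    rw [h.asp]; exact iso_frob hφ ((h.good.iso_trf hG).2 bot_le)
  have h2 : ¬ ℓ ≤ smap φ (Asp φ ℓ b) := fun e => h.pos (le_trans h1 (perp_anti G e))
  show finrank L ↥(ℓ ⊔ smap φ (Asp φ ℓ b)) = b + 1
  rw [sup_comm, finrank_sup_line h.line h2, finrank_smap, h.asp, h.good.2.1]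

lemma isT_codim (h : IsT G G₂ φ false b ℓ Λ) :
    finrank L Λ ≤ finrank L ↥(Λ ⊓ smap φ Λ) + 1 := by
  have h1 := finrank_inf_perp_line (dsum G G₂) ((finrank_map_jl (ι₂ := ι₂) ℓ).trans h.line)
    (smap φ Λ)
  rw [finrank_smap, ← cyl_perp] at h1
  exact h1.trans (Nat.succ_le_succ (finrank_mono (le_inf h.adapt inf_le_left)))

/-- In the second position the line is determined by the correspondence. -/
lemma isT_of_jc (hG : EForm (dsum G G₂)) (hφ : G.map φ = G) (hφ₂ : G₂.map φ = G₂)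
    (hΛ : GoodL G G₂ (m + 1) Λ) (h₁ : finrank L Λ ≤ finrank L ↥(Λ ⊓ smap φ Λ) + 1)
    (h₀ : Jc φ (trf Λ ⊥) (m + 1) = ⊥) (hℓ : finrank L ℓ = 1)
    (h : (smap φ)^[m] ℓ ≤ Jc φ (trf Λ ⊥) m) : IsT G G₂ φ false (m + 1) ℓ Λ := by
  have h2 := codim_bot h₁
  obtain ⟨e1, e2⟩ := asp_of_jc hΛ.2.1 (by have := hΛ.2.1; omega) h₀ hℓ h
  have e3 : Asp φ ℓ (m + 2) = ℓ ⊔ smap φ (trf Λ ⊥) := by rw [← e1]; rfl
  have hl : ℓ ≤ trf Λ ⊥ := e1 ▸ le_asp m
  have h3 : ¬ ℓ ≤ smap φ (trf Λ ⊥) := fun e => by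
    rw [e3, sup_eq_right.2 e, finrank_smap, hΛ.2.1] at e2
    omega
  have h4 : ¬ smap φ Λ ≤ perp (dsum G G₂) (ℓ.map (jl L ι ι₂)) := fun e => by
    rw [hG.le_perp_comm, lag_frob (dsum_frob hφ hφ₂) hΛ.1, map_jl_le, ← frob_trf_bot] at e
    exact h3 e
  have h5 := finrank_inf_perp_line_eq ((finrank_map_jl (ι₂ := ι₂) ℓ).trans hℓ) h4
  have h6 : Λ ≤ perp (dsum G G₂) (ℓ.map (jl L ι ι₂)) := by
    rw [hG.le_perp_comm, hΛ.1, map_jl_le]; exact hl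
  have ad : smap φ Λ ⊓ cyl ι₂ (perp G ℓ) ≤ Λ := by
    rw [cyl_perp G₂, ← eq_of_le_of_finrank_le (le_inf inf_le_right (inf_le_left.trans h6) :
      Λ ⊓ smap φ Λ ≤ _) (by rw [finrank_smap] at h5; omega)]
    exact inf_le_left
  refine ⟨hℓ, hΛ, e1, ad, fun e => ?_⟩
  rw [e1] at e
  have h7 : smap φ (trf Λ ⊥) ≤ trf Λ ⊥ := by
    rw [← map_jl_le]
    refine le_trans (le_inf ?_ ?_) ad
    · rw [map_jl_le, frob_trf_bot]
    · exact map_le_iff_le_comap.2 e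
  have h8 : finrank L (Asp φ ℓ (m + 2)) ≤ finrank L (trf Λ ⊥) :=
    finrank_mono (e3 ▸ sup_le hl h7)
  rw [e2, hΛ.2.1] at h8
  omega

end Lin

end HP

end Pool.Agent.Lib.MP_557161_ag.DL
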