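import Pool.Agent.Lib.MP_557161_ag.DL.Trf

/-!
The theorem of Lang for the general linear group; rational subspaces; existence of Lagrangian
correspondences.
-/

namespace Pool.Agent.Lib.MP_557161_ag.DL

open Module Submodule Matrix

namespace Lang

open Polynomial in
/-- The recursion for the coefficients of a fixed vector has a nonzero solution. -/
lemma exists_coeffs {L : Type} [Field L] [IsAlgClosed L] {q : ℕ} (hq : 1 < q) (a : ℕ → L)
    (ha : a 0 ≠ 0) (m : ℕ) : ∃ (t : L) (x : ℕ → L), t ≠ 0 ∧ x 0 = a 0 * t ^ q ∧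
      (∀ i, x (i + 1) = x i ^ q + a (i + 1) * t ^ q) ∧ x m = t := by
  let P : ℕ → L[X] := fun i => Nat.rec (C (a 0) * X ^ q) (fun i p => p ^ q + C (a (i + 1)) * X ^ q) i
  have P0 : P 0 = C (a 0) * X ^ q := rfl
  have Ps : ∀ i, P (i + 1) = P i ^ q + C (a (i + 1)) * X ^ q := fun _ => rfl
  have hd : ∀ i, q ≤ (P i).natDegree := by
    intro i
    induction i with
    | zero => rw [P0, natDegree_C_mul_X_pow _ _ ha]
    | succ i ih =>
      have h1 : (C (a (i + 1)) * X ^ q : L[X]).natDegree ≤ q := natDegree_C_mul_X_pow_le _ _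
      have h2 : (P i ^ q).natDegree = q * (P i).natDegree := natDegree_pow _ _
      have h3 : q < q * (P i).natDegree := by nlinarith
      rw [Ps, natDegree_add_eq_left_of_natDegree_lt (by omega)]
      omega
  have hX : ∀ i, X ^ 2 ∣ P i := by
    intro i
    induction i with
    | zero => rw [P0]; exact Dvd.dvd.mul_left (pow_dvd_pow _ hq) _
    | succ i ih =>
      rw [Ps]
      exact dvd_add (ih.trans (dvd_pow_self _ (by omega))) (Dvd.dvd.mul_left (pow_dvd_pow _ hq) _)
  obtain ⟨Q, hQ⟩ := hX m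
  have hQ0 : Q ≠ 0 := by
    rintro rfl
    have := hd m
    rw [hQ, mul_zero, natDegree_zero] at this
    omega
  have hdeg : (X * Q - 1 : L[X]).degree ≠ 0 := by
    have h1 : 0 < (X * Q : L[X]).natDegree := by
      rw [natDegree_X_mul hQ0]; omega
    have h2 : (X * Q - 1 : L[X]).natDegree = (X * Q : L[X]).natDegree := by
      rw [← C_1, natDegree_sub_C]
    intro h
    have := natDegree_eq_of_degree_eq_some (n := 0) h
    omega
  obtain ⟨t, ht⟩ := IsAlgClosed.exists_root _ hdeg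
  simp only [IsRoot.def, eval_sub, eval_mul, eval_X, eval_one] at ht
  refine ⟨t, fun i => (P i).eval t, ?_, ?_, ?_, ?_⟩
  · rintro rfl
    simp at ht
  · simp [P0]
  · intro i
    simp [Ps]
  · show (P m).eval t = t
    rw [hQ]
    simp only [eval_mul, eval_pow, eval_X]
    linear_combination t * ht

variable {L V : Type} [Field L] [IsAlgClosed L] [AddCommGroup V] [Module L V]

lemma surj_of_pow {φ : L →+* L} {q : ℕ} (hq : 1 < q) (hφ : ∀ x, φ x = x ^ q) (c : L) :
    ∃ z, φ z = c := by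
  obtain ⟨z, hz⟩ := IsAlgClosed.exists_pow_nat_eq c (show 0 < q by omega)
  exact ⟨z, by rw [hφ, hz]⟩

open Polynomial in
lemma as_of_pow {φ : L →+* L} {q : ℕ} (hq : 1 < q) (hφ : ∀ x, φ x = x ^ q) (c : L) :
    ∃ z, φ z - z = c := by
  have hdeg : (X ^ q - (X + C c) : L[X]).degree ≠ 0 := by
    have h1 : (X + C c : L[X]).natDegree = 1 := natDegree_X_add_C c
    have h2 : (X ^ q - (X + C c) : L[X]).natDegree = q := by
      rw [natDegree_sub_eq_left_of_natDegree_lt (by rw [h1, natDegree_X_pow]; exact hq),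
        natDegree_X_pow]
    intro h
    have := natDegree_eq_of_degree_eq_some (n := 0) h
    omega
  obtain ⟨t, ht⟩ := IsAlgClosed.exists_root _ hdeg
  simp only [IsRoot.def, eval_sub, eval_add, eval_pow, eval_X, eval_C] at ht
  exact ⟨t, by rw [hφ]; linear_combination ht⟩

/-- There is a nonzero fixed vector. -/
lemma exists_fixed [Module.Finite L V] {φ : L →+* L} {q : ℕ} (hq : 1 < q) (hφ : ∀ x, φ x = x ^ q)
    (f : V →ₛₗ[φ] V) (hf : Function.Injective f) {v : V} (hv : v ≠ 0) :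
    ∃ u, u ≠ 0 ∧ f u = u := by
  classical
  let w : ℕ → V := fun i => f^[i] v
  have ws : ∀ i, w (i + 1) = f (w i) := fun i => Function.iterate_succ_apply' f i v
  let S : ℕ → Submodule L V := fun n => span L (w '' {i | i < n})
  have hmono : Monotone S := fun i j h =>
    span_mono (Set.image_mono fun k (hk : k < i) => lt_of_lt_of_le hk h)
  have hex : ∃ n, w n ∈ S n := by
    obtain ⟨n, hn⟩ := monotone_stabilizes_iff_noetherian.2 (inferInstance : IsNoetherian L V)
      ⟨S, hmono⟩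
    refine ⟨n, ?_⟩
    have : S n = S (n + 1) := hn (n + 1) (Nat.le_succ n)
    rw [this]
    exact subset_span ⟨n, Nat.lt_succ_self n, rfl⟩
  have hrep : ∀ n y, y ∈ S n ↔ ∃ a : ℕ → L, y = ∑ i ∈ Finset.range n, a i • w i := by
    intro n y
    have : S n = span L (w '' (Finset.range n : Set ℕ)) := by simp [S]; rfl
    rw [this, Submodule.mem_span_image_finset_iff_exists_fun']
    exact ⟨fun ⟨a, h⟩ => ⟨a, h.symm⟩, fun ⟨a, h⟩ => ⟨a, h.symm⟩⟩
  obtain ⟨m, hm⟩ : ∃ m, Nat.find hex = m + 1 := by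
    refine Nat.exists_eq_succ_of_ne_zero fun h => hv ?_
    have := Nat.find_spec hex
    rw [h, hrep] at this
    obtain ⟨a, ha⟩ := this
    simpa [w] using ha
  have h1 : w (m + 1) ∈ S (m + 1) := hm ▸ Nat.find_spec hex
  have h2 : w m ∉ S m := Nat.find_min hex (by omega)
  obtain ⟨a, ha⟩ := (hrep _ _).1 h1
  have ha0 : a 0 ≠ 0 := by
    intro h0
    apply h2
    choose r hr using surj_of_pow hq hφ
    refine (hrep _ _).2 ⟨fun i => r (a (i + 1)), hf ?_⟩
    rw [← ws, ha, Finset.sum_range_succ', h0, zero_smul, add_zero, map_sum]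
    exact Finset.sum_congr rfl fun i _ => by rw [LinearMap.map_smulₛₗ, hr, ws]
  obtain ⟨t, x, ht, x0, xs, xm⟩ := exists_coeffs hq a ha0 m
  refine ⟨∑ i ∈ Finset.range (m + 1), x i • w i, fun h => h2 ?_, ?_⟩
  · rw [Finset.sum_range_succ, xm] at h
    have : w m = (-t⁻¹) • ∑ i ∈ Finset.range m, x i • w i := by
      rw [eq_neg_of_add_eq_zero_left h, smul_neg, neg_smul, neg_neg, smul_smul, inv_mul_cancel₀ ht,
        one_smul]
    rw [this]
    exact smul_mem _ _ ((hrep _ _).2 ⟨x, rfl⟩)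
  · rw [map_sum, Finset.sum_range_succ, Finset.sum_range_succ' (fun i => x i • w i)]
    simp only [LinearMap.map_smulₛₗ, hφ, ← ws]
    rw [ha, Finset.sum_range_succ' (fun i => a i • w i), xm, smul_add, Finset.smul_sum, ← add_assoc,
      ← Finset.sum_add_distrib, x0, smul_smul, mul_comm]
    congr 1
    exact Finset.sum_congr rfl fun i _ => by rw [xs, add_smul, smul_smul, mul_comm (t ^ q)]

end Lang

/-- The fixed vectors of an injective `q`-semilinear map span the space. -/
theorem lang_span {L V : Type} [Field L] [IsAlgClosed L] [AddCommGroup V] [Module L V]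
    [Module.Finite L V] (φ : L →+* L) {q : ℕ} (hq : 1 < q) (hφ : ∀ x, φ x = x ^ q)
    (f : V →ₛₗ[φ] V) (hf : Function.Injective f) : span L {v | f v = v} = ⊤ := by
  set W := span L {v | f v = v} with hW
  have h1 : W ≤ W.comap f := span_le.2 fun v (hv : f v = v) => by
    show f v ∈ W
    rw [hv]; exact subset_span hv
  have h2 : ∀ w ∈ W, ∀ c : L, ∃ y ∈ W, f y = c • w := by
    intro w hw
    induction hw using span_induction with
    | mem x hx =>
      intro c
      obtain ⟨z, hz⟩ := Lang.surj_of_pow hq hφ c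
      exact ⟨z • x, smul_mem _ _ (subset_span hx), by rw [LinearMap.map_smulₛₗ, hz, hx]⟩
    | zero => exact fun c => ⟨0, zero_mem _, by simp⟩
    | add x y _ _ hx hy =>
      intro c
      obtain ⟨x', hx', ex⟩ := hx c
      obtain ⟨y', hy', ey⟩ := hy c
      exact ⟨x' + y', add_mem hx' hy', by rw [map_add, ex, ey, smul_add]⟩
    | smul d x _ hx =>
      intro c
      obtain ⟨x', hx', ex⟩ := hx (c * d)
      exact ⟨x', hx', by rw [ex, smul_smul]⟩
  have h3 : ∀ w ∈ W, ∀ c : L, ∃ y ∈ W, f y - y = c • w := by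
    intro w hw
    induction hw using span_induction with
    | mem x hx =>
      intro c
      obtain ⟨z, hz⟩ := Lang.as_of_pow hq hφ c
      exact ⟨z • x, smul_mem _ _ (subset_span hx), by
        rw [LinearMap.map_smulₛₗ, hx, ← sub_smul, hz]⟩
    | zero => exact fun c => ⟨0, zero_mem _, by simp⟩
    | add x y _ _ hx hy =>
      intro c
      obtain ⟨x', hx', ex⟩ := hx c
      obtain ⟨y', hy', ey⟩ := hy c
      exact ⟨x' + y', add_mem hx' hy', by rw [map_add, smul_add, ← ex, ← ey]; abel⟩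
    | smul d x _ hx =>
      intro c
      obtain ⟨x', hx', ex⟩ := hx (c * d)
      exact ⟨x', hx', by rw [ex, smul_smul]⟩
  by_contra hne
  obtain ⟨v, hv⟩ : ∃ v, v ∉ W := by
    by_contra h
    push Not at h
    exact hne (eq_top_iff'.2 h)
  have hg : Function.Injective (W.mapQ W f h1) := by
    rw [injective_iff_map_eq_zero]
    intro y hy
    obtain ⟨y, rfl⟩ := Submodule.Quotient.mk_surjective W y
    rw [mapQ_apply, Submodule.Quotient.mk_eq_zero] at hy
    obtain ⟨z, hz, e⟩ := h2 _ hy 1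
    rw [one_smul] at e
    rw [Submodule.Quotient.mk_eq_zero, ← hf e]
    exact hz
  obtain ⟨u, hu, e⟩ := Lang.exists_fixed hq hφ _ hg
    (v := Submodule.Quotient.mk v) (by rwa [Ne, Submodule.Quotient.mk_eq_zero])
  obtain ⟨u, rfl⟩ := Submodule.Quotient.mk_surjective W u
  rw [mapQ_apply, Submodule.Quotient.eq] at e
  obtain ⟨y, hy, ey⟩ := h3 _ e 1
  rw [one_smul] at ey
  apply hu
  rw [Submodule.Quotient.mk_eq_zero]
  have : u - y ∈ W := subset_span (show f (u - y) = u - y by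
    rw [map_sub, sub_eq_sub_iff_sub_eq_sub, ey])
  simpa using add_mem this hy

namespace Lang

/-- The relative version. -/
lemma lang_rel {L V : Type} [Field L] [IsAlgClosed L] [AddCommGroup V] [Module L V]
    [Module.Finite L V] (φ : L →+* L) {q : ℕ} (hq : 1 < q) (hφ : ∀ x, φ x = x ^ q)
    (f : V →ₛₗ[φ] V) {A P : Submodule L V} (hP : ∀ v ∈ P, f v ∈ P) (hA : ∀ v ∈ A, f v ∈ A)
    (hi : ∀ v ∈ P, f v ∈ A → v ∈ A) : P ≤ A ⊔ span L {v | v ∈ P ∧ f v - v ∈ A} := by
  let f₀ : P →ₛₗ[φ] P := (f.comp P.subtype).codRestrict P fun v => hP v v.2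
  have f₀a : ∀ v : P, (f₀ v : V) = f v := fun _ => rfl
  let A' : Submodule L P := A.comap P.subtype
  have h1 : A' ≤ A'.comap f₀ := fun v hv => hA v hv
  have hg : Function.Injective (A'.mapQ A' f₀ h1) := by
    rw [injective_iff_map_eq_zero]
    intro y hy
    obtain ⟨y, rfl⟩ := Submodule.Quotient.mk_surjective A' y
    rw [mapQ_apply, Submodule.Quotient.mk_eq_zero] at hy
    rw [Submodule.Quotient.mk_eq_zero]
    exact hi y y.2 hy
  have h := lang_span φ hq hφ _ hg
  have key : ∀ y ∈ span L {v | A'.mapQ A' f₀ h1 v = v}, ∀ v : P, Submodule.Quotient.mk v = y →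
      (v : V) ∈ A ⊔ span L {v | v ∈ P ∧ f v - v ∈ A} := by
    intro y hy
    induction hy using span_induction with
    | mem x hx =>
      rintro v rfl
      rw [Set.mem_ofPred_eq, mapQ_apply, Submodule.Quotient.eq] at hx
      exact mem_sup_right (subset_span ⟨v.2, hx⟩)
    | zero =>
      intro v hv
      rw [Submodule.Quotient.mk_eq_zero] at hv
      exact mem_sup_left hv
    | add x y _ _ hx hy =>
      intro v hv
      obtain ⟨x, rfl⟩ := Submodule.Quotient.mk_surjective A' x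
      have := add_mem (hx x rfl) (hy (v - x) (by rw [Submodule.Quotient.mk_sub, hv]; abel))
      simpa using this
    | smul c x _ hx =>
      intro v hv
      obtain ⟨x, rfl⟩ := Submodule.Quotient.mk_surjective A' x
      rw [← Submodule.Quotient.mk_smul, Submodule.Quotient.eq] at hv
      have := add_mem (smul_mem _ c (hx x rfl)) (mem_sup_left (T := span L
        {v | v ∈ P ∧ f v - v ∈ A}) (show ((v - c • x : P) : V) ∈ A from hv))
      simpa using this
  intro v hv
  exact key _ (h ▸ mem_top) ⟨v, hv⟩ rfl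

/-- A basis modulo a subspace chosen in a generating set. -/
lemma exists_basis_mod {L V : Type} [Field L] [AddCommGroup V] [Module L V] [Module.Finite L V]
    (A : Submodule L V) (S : Set V) : ∃ (m : ℕ) (v : Fin m → V), (∀ a, v a ∈ S) ∧
      (∀ y ∈ A ⊔ span L S, ∃ c : Fin m → L, y - ∑ a, c a • v a ∈ A) ∧
      ∀ c : Fin m → L, ∑ a, c a • v a ∈ A → c = 0 := by
  obtain ⟨b, hb, hs, hl⟩ := exists_linearIndependent L (A.mkQ '' S)
  have hfin : Finite b := hl.finite_of_isNoetherian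
  obtain ⟨m, ⟨e⟩⟩ := Finite.exists_equiv_fin b
  choose v hv hv' using fun a : Fin m => hb (e.symm a).2
  have hl' : LinearIndependent L fun a => A.mkQ (v a) := by
    have := hl.comp e.symm e.symm.injective
    rwa [show (fun a => A.mkQ (v a)) = Subtype.val ∘ e.symm from funext hv']
  refine ⟨m, v, hv, fun y hy => ?_, fun c hc => ?_⟩
  · have h1 : A.mkQ y ∈ span L (Set.range fun a => A.mkQ (v a)) := by
      have : (Set.range fun a => A.mkQ (v a)) = b := by
        ext z
        exact ⟨fun ⟨a, ha⟩ => by rw [← ha]; show A.mkQ (v a) ∈ b; rw [hv']; exact (e.symm a).2,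
          fun hz => ⟨e ⟨z, hz⟩, by show A.mkQ (v _) = z; rw [hv']; simp⟩⟩
      rw [this, hs, ← map_span]
      obtain ⟨y₁, h₁, y₂, h₂, rfl⟩ := mem_sup.1 hy
      refine ⟨y₂, h₂, ?_⟩
      rw [map_add, mkQ_apply A y₁, (Submodule.Quotient.mk_eq_zero A).2 h₁, zero_add]
    obtain ⟨c, hc⟩ := (mem_span_range_iff_exists_fun L).1 h1
    refine ⟨c, ?_⟩
    rw [← Submodule.Quotient.mk_eq_zero, ← mkQ_apply, map_sub, map_sum, ← hc]
    simp
  · rw [← Submodule.Quotient.mk_eq_zero, ← mkQ_apply, map_sum] at hc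
    simp only [map_smul] at hc
    exact funext (Fintype.linearIndependent_iff.1 hl' c hc)

end Lang

namespace Lang

section Form

variable {L L' : Type} [Field L] [Field L'] {ι ι₂ : Type} [Fintype ι] [Fintype ι₂]
  {G : Matrix ι ι L} {A : Submodule L (ι → L)}

lemma bf_sum_left (G : Matrix ι ι L) {α : Type} [Fintype α] (c : α → L) (v : α → ι → L)
    (y : ι → L) : bf G (∑ a, c a • v a) y = ∑ a, c a * bf G (v a) y := by
  simp [bf, sum_dotProduct, smul_dotProduct]

lemma bf_sum_right (G : Matrix ι ι L) {α : Type} [Fintype α] (c : α → L) (v : α → ι → L)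
    (y : ι → L) : bf G y (∑ a, c a • v a) = ∑ a, c a * bf G y (v a) := by
  simp [bf, dotProduct_sum, mulVec_sum, mulVec_smul, dotProduct_smul]

/-- The form descends to the subquotient. -/
lemma bf_congr (hG : EForm G) (hA : Iso G A) {u w u' w' : ι → L} (hu : u ∈ perp G A)
    (hw : w ∈ perp G A) (h₁ : u' - u ∈ A) (h₂ : w' - w ∈ A) : bf G u' w' = bf G u w := by
  have e₁ : u' = u + (u' - u) := by abel
  have e₂ : w' = w + (w' - w) := by abel
  rw [e₁, e₂, bf_add_left, bf_add_right, bf_add_right, hG.refl (hu _ h₂), hw _ h₁, hA h₂ _ h₁]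
  ring

lemma eform_of_map {M : Matrix ι ι L} (κ : L →+* L') (h : EForm (M.map κ)) : EForm M := by
  refine ⟨h.symm.imp (fun e => ?_) fun e => ?_, fun x hx => ?_⟩
  · ext i j
    exact κ.injective (congrFun (congrFun e i) j)
  · ext i j
    apply κ.injective
    have := congrFun (congrFun e i) j
    simpa using this
  · refine (mapV_eq_zero κ).1 (h.inj _ (funext fun i => ?_))
    have := congrArg κ (congrFun hx i)
    simpa [mulVec, dotProduct, mapV] using this

lemma exists_mapV {κ : L →+* L'} (h : Function.Surjective κ) {E : Submodule L (ι → L)}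
    {y : ι → L'} (hy : y ∈ smap κ E) : ∃ x ∈ E, mapV κ x = y := by
  choose x hx using fun i => h (y i)
  have e : mapV κ x = y := funext hx
  exact ⟨x, (mapV_mem_iff κ).1 (e ▸ hy), e⟩

/-- The correspondence given by a basis of the subquotient. -/
def corr (A : Submodule L (ι → L)) {m : ℕ} (v : Fin m → ι → L) : Submodule L (ι ⊕ Fin m → L) where
  carrier := {x | x ∘ Sum.inl - ∑ a, x (Sum.inr a) • v a ∈ A}
  zero_mem' := by
    show (0 : ι ⊕ Fin m → L) ∘ Sum.inl - ∑ a, (0 : L) • v a ∈ A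
    simp
  add_mem' {x y} hx hy := by
    have := A.add_mem hx hy
    show (x ∘ Sum.inl + y ∘ Sum.inl) - ∑ a, (x (Sum.inr a) + y (Sum.inr a)) • v a ∈ A
    simp only [add_smul, Finset.sum_add_distrib]
    convert this using 1
    abel
  smul_mem' c x hx := by
    have := smul_mem A c hx
    show c • (x ∘ Sum.inl) - ∑ a, (c * x (Sum.inr a)) • v a ∈ A
    simpa only [smul_sub, Finset.smul_sum, smul_smul] using this

omit [Fintype ι] in
lemma mem_corr {m : ℕ} {v : Fin m → ι → L} {x : ι ⊕ Fin m → L} :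
    x ∈ corr A v ↔ x ∘ Sum.inl - ∑ a, x (Sum.inr a) • v a ∈ A := Iff.rfl

lemma good_corr (hG : EForm G) (hA : Iso G A) {m : ℕ} {v : Fin m → ι → L}
    (hv : ∀ a, v a ∈ perp G A) (hsp : ∀ y ∈ perp G A, ∃ c : Fin m → L, y - ∑ a, c a • v a ∈ A)
    (hind : ∀ c : Fin m → L, ∑ a, c a • v a ∈ A → c = 0) {G₂ : Matrix (Fin m) (Fin m) L}
    (h₂ : ∀ a b, G₂ a b = bf G (v a) (v b)) :
    EForm (dsum G G₂) ∧ GoodL G G₂ (finrank L A) (corr A v) ∧ trf (corr A v) ⊥ = A := by
  have hsum : ∀ c : Fin m → L, ∑ a, c a • v a ∈ perp G A := fun c =>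
    sum_mem fun a _ => smul_mem _ _ (hv a)
  have hbf : ∀ c d : Fin m → L, bf G₂ c d = bf G (∑ a, c a • v a) (∑ a, d a • v a) := by
    intro c d
    rw [bf_sum_left]
    simp only [bf_sum_right, ← h₂]
    simp [bf, dotProduct, mulVec, mul_comm]
  have hinj : ∀ c : Fin m → L, (∀ d, bf G₂ d c = 0) → c = 0 := by
    intro c hc
    apply hind
    rw [← hG.perp_perp A]
    intro y hy
    obtain ⟨d, hd⟩ := hsp y hy
    rw [bf_congr hG hA (hsum d) (hsum c) hd (by simp), ← hbf, hc]
  have htrf : trf (corr A v) ⊥ = A := by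
    ext y
    rw [mem_trf]
    simp only [mem_bot, exists_eq_left, mem_corr, Sum.elim_comp_inl, Sum.elim_inr, Pi.zero_apply,
      zero_smul, Finset.sum_const_zero, sub_zero]
  refine ⟨⟨hG.symm.imp (fun e => ?_) fun e => ?_, fun x hx => ?_⟩, ⟨?_, by rw [htrf], ?_⟩, htrf⟩
  · have : G₂ᵀ = G₂ := by
      ext a b
      rw [transpose_apply, h₂, h₂, bf_symm e]
    rw [dsum, fromBlocks_transpose, e, transpose_neg, this]
    simp
  · have : G₂ᵀ = -G₂ := by
      ext a b
      rw [transpose_apply, neg_apply, h₂, h₂, bf_alt e]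
    rw [dsum, fromBlocks_transpose, e, transpose_neg, this, fromBlocks_neg]
    simp
  · have hx' : ∀ y, bf (dsum G G₂) y x = 0 := fun y => by rw [bf, hx, dotProduct_zero]
    have e₁ : x ∘ Sum.inl = 0 := hG.inj _ (by
      rw [← Sum.elim_comp_inl_inr x, dsum, fromBlocks_mulVec] at hx
      have := congrArg (· ∘ Sum.inl) hx
      simpa using this)
    have e₂ : x ∘ Sum.inr = 0 := hinj _ fun d => by
      have := hx' (Sum.elim 0 d)
      rw [bf_dsum, e₁] at this
      simpa using this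
    rw [← Sum.elim_comp_inl_inr x, e₁, e₂]
    exact Sum.elim_zero_zero
  · refine le_antisymm (fun y hy => ?_) fun y hy x hx => ?_
    · have h1 : y ∘ Sum.inl ∈ perp G A := fun a ha => by
        have := hy (Sum.elim a 0) (by simpa [mem_corr] using ha)
        rw [bf_dsum] at this
        simpa using this
      obtain ⟨c, hc⟩ := hsp _ h1
      have h2 : c - y ∘ Sum.inr = 0 := hinj _ fun d => by
        have := hy (Sum.elim (∑ a, d a • v a) d) (by simp [mem_corr])
        rw [bf_dsum, Sum.elim_comp_inl, Sum.elim_comp_inr,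
          bf_congr hG hA (hsum d) (hsum c) (by simp) hc, ← hbf] at this
        rw [bf_sub_right, this]
      rw [sub_eq_zero.1 h2] at hc
      exact hc
    · rw [bf_dsum, hbf, bf_congr hG hA (hsum _) (hsum _) hx hy]
      exact sub_self _
  · have hl : LinearIndependent L v :=
      Fintype.linearIndependent_iff.2 fun c hc => congrFun (hind c (hc ▸ zero_mem _))
    have e₁ : perp G A = A ⊔ span L (Set.range v) := by
      refine le_antisymm (fun y hy => ?_) (sup_le hA (span_le.2 (Set.range_subset_iff.2 hv)))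
      obtain ⟨c, hc⟩ := hsp y hy
      have := add_mem (mem_sup_left (T := span L (Set.range v)) hc) (mem_sup_right (S := A)
        ((mem_span_range_iff_exists_fun L).2 ⟨c, rfl⟩))
      simpa using this
    have e₂ : A ⊓ span L (Set.range v) = ⊥ := by
      refine eq_bot_iff.2 fun y ⟨h1, h2⟩ => ?_
      obtain ⟨c, rfl⟩ := (mem_span_range_iff_exists_fun L).1 h2
      simp [hind c h1]
    have e₃ := finrank_sup_add_finrank_inf_eq A (span L (Set.range v))
    rw [← e₁, e₂, finrank_bot, finrank_span_eq_card hl] at e₃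
    have e₄ := hG.finrank_perp A
    omega

/-- Coordinatewise application of a ring homomorphism as a semilinear map. -/
def mapS (κ : L →+* L) : (ι → L) →ₛₗ[κ] (ι → L) where
  toFun := mapV κ
  map_add' := mapV_add κ
  map_smul' := mapV_smul κ

/-- The projection that makes Frobenius act on the subquotient. -/
lemma exists_rho (hG : EForm G) {φ : L →+* L} (hφ : G.map φ = G) {τ : Bool} {b : ℕ} (hb : 1 ≤ b)
    {ℓ : Submodule L (ι → L)} (hℓ : finrank L ℓ = 1) (hr : finrank L (Asp φ ℓ b) = b)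
    (hi : Iso G (Asp φ ℓ b)) (hp : PosT G φ τ b ℓ) : ∃ ρ : (ι → L) →ₗ[L] (ι → L),
      (∀ v, ρ v - v ∈ smap φ (Asp φ ℓ b)) ∧
      (∀ v ∈ perp G (smap φ (Asp φ ℓ b)), ρ v ∈ perp G (Asp φ ℓ b)) ∧
      (∀ v ∈ smap φ (Asp φ ℓ b), ρ v ∈ Asp φ ℓ b) ∧ (∀ v ∈ perp G ℓ, ρ v = v) ∧
      ∀ v ∈ perp G (smap φ (Asp φ ℓ b)), ρ v ∈ Asp φ ℓ b → v ∈ smap φ (Asp φ ℓ b) := by
  obtain ⟨c, rfl⟩ : ∃ c, b = c + 1 := ⟨b - 1, by omega⟩
  have hA : Asp φ ℓ (c + 1) = ℓ ⊔ smap φ (Asp φ ℓ c) := rfl
  have hB : smap φ (Asp φ ℓ c) ≤ smap φ (Asp φ ℓ (c + 1)) := smap_mono _ (asp_mono (Nat.le_succ c))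
  cases τ with
  | true =>
    have e : Asp φ ℓ (c + 1) = smap φ (Asp φ ℓ (c + 1)) :=
      eq_of_le_of_finrank_eq (hA.le.trans (sup_le hp hB)) (finrank_smap _ _).symm
    refine ⟨LinearMap.id, fun v => by simp, ?_, ?_, fun v _ => rfl, ?_⟩ <;> rw [← e]
    · exact fun v hv => hv
    · exact fun v hv => hv
    · exact fun v _ hv => hv
  | false =>
    have hp' : ¬ smap φ (Asp φ ℓ (c + 1)) ≤ perp G ℓ := hp
    have hFi : Iso G (smap φ (Asp φ ℓ (c + 1))) := by
      have := (iso_smap (G := G) (E := Asp φ ℓ (c + 1)) φ).2 hi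
      rwa [hφ] at this
    have hℓA : ℓ ≤ Asp φ ℓ (c + 1) := hA ▸ le_sup_left
    have hBA : smap φ (Asp φ ℓ c) ≤ Asp φ ℓ (c + 1) := hA ▸ le_sup_right
    have hinf : smap φ (Asp φ ℓ c) = smap φ (Asp φ ℓ (c + 1)) ⊓ perp G ℓ := by
      refine eq_of_le_of_finrank_eq (le_inf hB (hBA.trans (le_trans hi (perp_anti G hℓA)))) ?_
      have h1 := finrank_inf_perp_line_eq hℓ hp'
      rw [finrank_smap, hr] at h1
      rw [finrank_smap, finrank_asp_of_le hℓ hr (Nat.le_succ c)]
      omega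
    obtain ⟨x, -, hx⟩ := exists_gen_line hℓ
    obtain ⟨x', hx', hx''⟩ := SetLike.not_le_iff_exists.1 hp'
    have hmem : ∀ y, y ∈ perp G ℓ ↔ bf G x y = 0 := fun y => by rw [hx, mem_perp_span]
    rw [hmem] at hx''
    let ρ : (ι → L) →ₗ[L] (ι → L) :=
      { toFun := fun v => v - (bf G x v / bf G x x') • x'
        map_add' := fun u v => by rw [bf_add_right, add_div, add_smul]; abel
        map_smul' := fun a v => by
          rw [bf_smul_right, RingHom.id_apply, smul_sub, smul_smul, mul_div_assoc] }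
    have hρ : ∀ v, ρ v = v - (bf G x v / bf G x x') • x' := fun _ => rfl
    have h1 : ∀ v, ρ v - v ∈ smap φ (Asp φ ℓ (c + 1)) := fun v => by
      rw [hρ, sub_sub_cancel_left]
      exact neg_mem (smul_mem _ _ hx')
    have h2 : ∀ v, ρ v ∈ perp G ℓ := fun v => by
      rw [hmem, hρ, bf_sub_right, bf_smul_right, div_mul_cancel₀ _ hx'', sub_self]
    have h3 : ∀ v ∈ perp G (smap φ (Asp φ ℓ (c + 1))), ρ v ∈ perp G (smap φ (Asp φ ℓ (c + 1))) :=
      fun v hv => by simpa using add_mem (hFi (h1 v)) hv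
    refine ⟨ρ, h1, fun v hv => ?_, fun v hv => ?_, fun v hv => ?_, fun v hv h => ?_⟩
    · have := perp_anti G hB (h3 v hv)
      rw [hA, perp_sup]
      exact ⟨h2 v, this⟩
    · apply hBA
      rw [hinf]
      exact ⟨by simpa using add_mem (h1 v) hv, h2 v⟩
    · rw [hρ, (hmem v).1 hv, zero_div, zero_smul, sub_zero]
    · have h4 := h3 v hv
      rw [hA] at h
      obtain ⟨y, hy, z, hz, e⟩ := mem_sup.1 h
      have h5 : y ∈ perp G (smap φ (Asp φ ℓ (c + 1))) := by
        have := sub_mem h4 (hFi (hB hz))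
        rwa [← e, add_sub_cancel_right] at this
      rw [hx] at hy
      obtain ⟨a, rfl⟩ := mem_span_singleton.1 hy
      have h6 := hG.refl (h5 x' hx')
      rw [bf_smul_left] at h6
      have h7 : ρ v ∈ smap φ (Asp φ ℓ (c + 1)) := by
        rw [← e, (mul_eq_zero.1 h6).resolve_right hx'', zero_smul, zero_add]
        exact hB hz
      simpa using sub_mem h7 (h1 v)

end Form

end Lang

variable {k₀ : Type} [Field k₀] [Fintype k₀] {K : Type} [Field K] [Algebra k₀ K]
  {ι : Type} [Fintype ι]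

/-- A subspace that is stable under Frobenius is rational. -/
theorem exists_ext {L : Fld K} [IsAlgClosed L] {E : Submodule L (ι → L)}
    (h : smap (frH k₀ L) E = E) : ∃ U : Submodule k₀ (ι → k₀), ext L U = E := by
  let U : Submodule k₀ (ι → k₀) :=
    { carrier := {u | mapV (rat k₀ L) u ∈ E}
      zero_mem' := by show mapV (rat k₀ L) 0 ∈ E; simp
      add_mem' := fun {x y} hx hy => by
        show mapV (rat k₀ L) (x + y) ∈ E
        rw [mapV_add]; exact add_mem hx hy
      smul_mem' := fun c x hx => by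
        show mapV (rat k₀ L) (c • x) ∈ E
        rw [mapV_smul]; exact smul_mem _ _ hx }
  refine ⟨U, le_antisymm (smap_le.2 fun x hx => hx) ?_⟩
  have := Lang.lang_rel (frH k₀ L) Fintype.one_lt_card (frH_apply k₀ L) (Lang.mapS (frH k₀ L))
    (A := ⊥) (P := E) (fun v hv => h ▸ mapV_mem _ hv)
    (fun v hv => by rw [mem_bot] at hv ⊢; rw [hv, map_zero])
    (fun v _ hv => (mapV_eq_zero (frH k₀ L)).1 hv)
  rw [bot_sup_eq] at this
  refine this.trans (span_le.2 fun v ⟨hv, e⟩ => ?_)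
  rw [mem_bot, sub_eq_zero] at e
  choose u hu using fun i => frH_eq_iff.1 (congrFun e i)
  have e' : mapV (rat k₀ L) u = v := funext hu
  rw [← e']
  exact mapV_mem _ (show mapV (rat k₀ L) u ∈ E from e' ▸ hv)

omit [Fintype k₀] in
/-- The subquotient of an isotropic subspace. -/
theorem exists_goodL {G : Matrix ι ι k₀} (hG : EForm G) {U : Submodule k₀ (ι → k₀)}
    (hU : Iso G U) : ∃ (m : ℕ) (G₂ : Matrix (Fin m) (Fin m) k₀)
      (Λ : Submodule k₀ (ι ⊕ Fin m → k₀)), EForm (dsum G G₂) ∧ GoodL G G₂ (finrank k₀ U) Λ ∧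
      trf Λ ⊥ = U := by
  obtain ⟨m, v, hv, hsp, hind⟩ := Lang.exists_basis_mod U (perp G U : Set (ι → k₀))
  exact ⟨m, Matrix.of fun a b => bf G (v a) (v b), _, Lang.good_corr hG hU hv
    (fun y hy => hsp y (mem_sup_right (subset_span hy))) hind fun _ _ => rfl⟩

/-- Trivialisation of the subquotient with its Frobenius structure. -/
theorem exists_isT {G : Matrix ι ι k₀} (hG : EForm G) {L : Fld K} [IsAlgClosed L] {τ : Bool}
    {b : ℕ} (hb : 1 ≤ b) {ℓ : Submodule L (ι → L)} (hℓ : finrank L ℓ = 1)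
    (hr : finrank L (Asp (frH k₀ L) ℓ b) = b) (hi : Iso (gm G L) (Asp (frH k₀ L) ℓ b))
    (hp : PosT (gm G L) (frH k₀ L) τ b ℓ) :
    ∃ (m : ℕ) (G₂ : Matrix (Fin m) (Fin m) k₀) (Λ : Submodule L (ι ⊕ Fin m → L)),
      EForm (dsum G G₂) ∧ IsT (gm G L) (gm G₂ L) (frH k₀ L) τ b ℓ Λ := by
  have hG' := hG.gm L
  obtain ⟨ρ, h1, h2, h3, h4, h5⟩ := Lang.exists_rho hG' (gm_frH G L) hb hℓ hr hi hp
  set A := Asp (frH k₀ L) ℓ b with hA
  have hF : ∀ v ∈ perp (gm G L) A, mapV (frH k₀ L) v ∈ perp (gm G L) (smap (frH k₀ L) A) := by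
    intro v hv
    have := mapV_mem (frH k₀ L) hv
    rwa [smap_perp, gm_frH] at this
  have hFi : Iso (gm G L) (smap (frH k₀ L) A) := by
    have := (iso_smap (G := gm G L) (E := A) (frH k₀ L)).2 hi
    rwa [gm_frH] at this
  let f : (ι → L) →ₛₗ[frH k₀ L] (ι → L) := ρ.comp (Lang.mapS (frH k₀ L))
  have hf : ∀ v, f v = ρ (mapV (frH k₀ L) v) := fun _ => rfl
  have hrel := Lang.lang_rel (frH k₀ L) Fintype.one_lt_card (frH_apply k₀ L) f (A := A)
    (P := perp (gm G L) A) (fun v hv => h2 _ (hF v hv)) (fun v hv => h3 _ (mapV_mem _ hv))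
    fun v hv h => (mapV_mem_iff (frH k₀ L)).1 (h5 _ (hF v hv) h)
  obtain ⟨m, v, hv, hsp, hind⟩ :=
    Lang.exists_basis_mod A {v | v ∈ perp (gm G L) A ∧ f v - v ∈ A}
  have hfix : ∀ a c, frH k₀ L (bf (gm G L) (v a) (v c)) = bf (gm G L) (v a) (v c) := by
    intro a c
    rw [← bf_mapV, gm_frH, ← Lang.bf_congr hG' hFi (hF _ (hv a).1) (hF _ (hv c).1) (h1 _) (h1 _)]
    exact Lang.bf_congr hG' hi (hv a).1 (hv c).1 (hv a).2 (hv c).2
  choose g hg using fun a c => frH_eq_iff.1 (hfix a c)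
  obtain ⟨e1, e2, e3⟩ := Lang.good_corr hG' hi (fun a => (hv a).1) (fun y hy => hsp y (hrel hy))
    hind (G₂ := gm (Matrix.of g) L) hg
  refine ⟨m, Matrix.of g, Lang.corr A v, Lang.eform_of_map (rat k₀ L) ?_,
    hℓ, hr ▸ e2, e3.symm, fun y ⟨hy, hy'⟩ => ?_, hp⟩
  · rw [dsum_map]
    exact e1
  · obtain ⟨x, hx, rfl⟩ := Lang.exists_mapV frH_surj hy
    have h6 := h3 _ (mapV_mem (frH k₀ L) (Lang.mem_corr.1 hx))
    have h7 : ρ (mapV (frH k₀ L) (x ∘ Sum.inl)) = mapV (frH k₀ L) (x ∘ Sum.inl) := h4 _ hy'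
    rw [mapV_sub, mapV_sum, map_sub, h7, map_sum] at h6
    have h8 : ∑ a, frH k₀ L (x (Sum.inr a)) • (f (v a) - v a) ∈ A :=
      sum_mem fun a _ => smul_mem _ _ (hv a).2
    have := add_mem h6 h8
    simp only [mapV_smul, map_smul, smul_sub, Finset.sum_sub_distrib, hf] at this
    rw [Lang.mem_corr]
    convert this using 1
    show mapV (frH k₀ L) (x ∘ Sum.inl) - ∑ a, frH k₀ L (x (Sum.inr a)) • v a = _
    abel

end Pool.Agent.Lib.MP_557161_ag.DL
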