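import Pool.Agent.Lib.MP_557161_ag.DL.HPs
import Pool.Agent.Lib.MP_557161_ag.DL.Lang
import Pool.Agent.Lib.MP_557161_ag.DL.HP1

/-!
The variety of Lagrangian subspaces that meet their Frobenius image in codimension at most one,
and the trivialising torsors.
-/

namespace Pool.Agent.Lib.MP_557161_ag.DL

open Module Submodule Matrix

variable {k₀ : Type} [Field k₀] [Fintype k₀] {K : Type} [Field K] [Algebra k₀ K] [Base K]
  {ι ι₂ : Type} [Fintype ι] [Fintype ι₂] [NeZero (2 : k₀)]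

omit [Base K] [NeZero (2 : k₀)] in
lemma hp_red {G : Matrix ι ι k₀} (hG : EForm G) {M : Fld K} (O : Pl M) {Λ : Submodule M (ι → M)}
    (h : (HP K G).mem (L := M) Λ) : (HP K G).mem (L := O.res) (sred O Λ) := by
  refine ⟨(gm_red G O).lag (hG.gm M) (hG.gm O.res) h.1, ?_⟩
  rw [finrank_sred, ← sred_frH]
  exact h.2.trans (Nat.succ_le_succ (finrank_inf_le_sred O _ _))

namespace HP

section Aux

omit [Base K] [NeZero (2 : k₀)]

lemma sred_iter {M : Fld K} (O : Pl M) (E : Submodule M (ι → M)) (t : ℕ) :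
    sred O ((smap (frH k₀ M))^[t] E) = (smap (frH k₀ O.res))^[t] (sred O E) := by
  induction t with
  | zero => rfl
  | succ t ih => rw [Function.iterate_succ_apply', Function.iterate_succ_apply', sred_frH, ih]

variable (k₀ K ι) in
/-- Subspaces whose first `k` images span a space of small dimension. -/
def LowA (k : ℕ) : Sp (Sub K ι) :=
  Sp.sub (fun L ℓ => finrank L (Asp (frH k₀ L) ℓ k) < k)
    fun κ ℓ => by rw [← smap_asp _ (map_frH κ), finrank_smap]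

lemma finrank_asp_red {M : Fld K} (O : Pl M) (ℓ : Submodule M (ι → M)) (k : ℕ) :
    finrank O.res (Asp (frH k₀ O.res) (sred O ℓ) k) ≤ finrank M (Asp (frH k₀ M) ℓ k) := by
  rw [← finrank_sred O]; exact finrank_mono (asp_le_sred O ℓ k)

lemma lowA_closed (k : ℕ) (Y : Sp (Sub K ι)) : (LowA k₀ K ι k).Closed Y :=
  fun O ℓ _ _ h _ => (finrank_asp_red O ℓ k).trans_lt h

lemma mem_open {G : Matrix ι ι k₀} {U : Submodule k₀ (ι → k₀)} {m k : ℕ} {L : Fld K}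
    {ℓ : Submodule L (ι → L)} : ((PS K G U m).diff (LowA k₀ K ι k)).mem (L := L) ℓ ↔
      (PS K G U m).mem (L := L) ℓ ∧ finrank L (Asp (frH k₀ L) ℓ k) = k :=
  and_congr_right fun h =>
    ⟨fun e => le_antisymm (finrank_asp_le' h.1 k) (not_lt.1 e), fun e => not_lt.2 e.ge⟩

omit [Fintype k₀] in
lemma eform_gm {G : Matrix ι ι k₀} {G₂ : Matrix ι₂ ι₂ k₀} (hG : EForm (dsum G G₂)) (L : Fld K) :
    EForm (dsum (gm G L) (gm G₂ L)) := gm_dsum G G₂ L ▸ hG.gm L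

omit [Fintype k₀] in
lemma goodL_ext {G : Matrix ι ι k₀} {G₂ : Matrix ι₂ ι₂ k₀} {b : ℕ}
    {Λ : Submodule k₀ (ι ⊕ ι₂ → k₀)} (L : Fld K) :
    GoodL (gm G L) (gm G₂ L) b (ext L Λ) ↔ GoodL G G₂ b Λ := goodL_smap _

omit [Fintype k₀] in
lemma trf_ext (Λ : Submodule k₀ (ι ⊕ ι₂ → k₀)) (L : Fld K) :
    trf (ext L Λ) ⊥ = ext L (trf Λ ⊥) := by
  rw [ext, ext, smap_trf, smap_bot]

/-- The span of the images of a line. -/
noncomputable def aspMor {G : Matrix ι ι k₀} (hG : EForm G) {m : ℕ}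
    (hc : Fintype.card ι = 2 * (m + 1)) :
    Mor ((PS K G ⊤ (m + 1)).diff (LowA k₀ K ι (m + 2))) ((HP K G).inter (NoRat k₀ K ι)) where
  f {L} ℓ := Asp (frH k₀ L) ℓ (m + 1)
  mem {L} ℓ h := by
    obtain ⟨⟨h1, -, h3⟩, h4⟩ := mem_open.1 h
    have h5 := finrank_asp_of_le h1 h4 (Nat.le_succ (m + 1))
    refine ⟨⟨(hG.gm L).lag_iff.2 ⟨iso_asp (hG.gm L) (gm_frH G L) h3 le_rfl, by omega⟩, ?_⟩, ?_⟩
    · rw [asp_inf h1 h4, finrank_smap, h5, finrank_asp_of_le h1 h4 (by omega : m ≤ m + 2)]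
    · show Jc _ _ (finrank L (Asp (frH k₀ L) ℓ (m + 1))) = ⊥
      rw [h5]; exact jc_asp_top h1 h4
  nat κ ℓ _ := (smap_asp _ (map_frH κ) ℓ _).symm
  cont O ℓ _ h h' := by
    obtain ⟨h1, h4⟩ := mem_open.1 h
    obtain ⟨h1', h4'⟩ := mem_open.1 h'
    refine eq_of_le_of_finrank_le (asp_le_sred O ℓ _) ?_
    exact ((finrank_sred O _).trans (finrank_asp_of_le h1.1 h4 (Nat.le_succ _))).trans_le
      (finrank_asp_of_le h1'.1 h4' (Nat.le_succ _)).ge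

lemma finrank_jc_map {L L' : Fld K} (κ : L →ₐ[K] L') (Λ : Submodule L (ι → L)) (t : ℕ) :
    finrank L' (Jc (frH k₀ L') (smap κ.toRingHom Λ) t) = finrank L (Jc (frH k₀ L) Λ t) := by
  rw [← smap_jc _ (map_frH κ), finrank_smap]

lemma of_mem_hp0 {G : Matrix ι ι k₀} (hG : EForm G) {m : ℕ} (hc : Fintype.card ι = 2 * (m + 1))
    {L : Fld K} {Λ : Submodule L (ι → L)} (h : ((HP K G).inter (NoRat k₀ K ι)).mem (L := L) Λ) :
    finrank L Λ = m + 1 ∧ m ≤ finrank L ↥(Λ ⊓ smap (frH k₀ L) Λ) ∧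
      Jc (frH k₀ L) Λ (m + 1) = ⊥ := by
  have h1 := ((hG.gm L).lag_iff.1 h.1.1).2
  have h2 : finrank L Λ ≤ finrank L ↥(Λ ⊓ smap (frH k₀ L) Λ) + 1 := h.1.2
  have h3 : Jc (frH k₀ L) Λ (finrank L Λ) = ⊥ := h.2
  have h4 : finrank L Λ = m + 1 := by omega
  exact ⟨h4, by omega, h4 ▸ h3⟩

/-- The level sets of the dimension of the rational part. -/
noncomputable def Lev (k₀ : Type) [Field k₀] [Fintype k₀] (K : Type) [Field K] [Algebra k₀ K]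
    (ι : Type) [Fintype ι] (r : ℕ) : Sp (Sub K ι) :=
  Sp.level (A := Sub K ι) (fun {L} Λ => finrank L (Jc (frH k₀ L) Λ (Fintype.card ι)))
    (fun κ Λ => finrank_jc_map κ Λ _) r

lemma mem_trf_iff {G : Matrix ι ι k₀} {G₂ : Matrix ι₂ ι₂ k₀} (hG : EForm (dsum G G₂)) {r : ℕ}
    {Λ : Submodule k₀ (ι ⊕ ι₂ → k₀)} (h : GoodL G G₂ r Λ) {L : Fld K} (E : Submodule L (ι₂ → L)) :
    ((HP K G).inter (Lev k₀ K ι r)).mem (L := L) (trf (ext L Λ) E) ↔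
      ((HP K G₂).inter (NoRat k₀ K ι₂)).mem (L := L) E :=
  have h' := (goodL_ext L).2 h
  and_congr (and_congr (lag_trf (eform_gm hG L) h') (codim_trf (eform_gm hG L) h' (frH_ext Λ)))
    (lev_trf (eform_gm hG L) h' (frH_ext Λ))

omit [Fintype k₀] in
lemma sred_trf_ext {G : Matrix ι ι k₀} {G₂ : Matrix ι₂ ι₂ k₀} (hG : EForm (dsum G G₂)) {r : ℕ}
    {Λ : Submodule k₀ (ι ⊕ ι₂ → k₀)} (h : GoodL G G₂ r Λ) {M : Fld K} (O : Pl M)
    (E : Submodule M (ι₂ → M)) : sred O (trf (ext M Λ) E) = trf (ext O.res Λ) (sred O E) := by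
  rw [sred_trf (eform_gm hG M) (eform_gm hG O.res) ((goodL_ext M).2 h)
    (by rw [sred_ext]; exact (goodL_ext _).2 h), sred_ext]

/-- Transfer along a rational correspondence. -/
noncomputable def trfMor {G : Matrix ι ι k₀} {G₂ : Matrix ι₂ ι₂ k₀} (hG : EForm (dsum G G₂))
    {r : ℕ} {Λ : Submodule k₀ (ι ⊕ ι₂ → k₀)} (h : GoodL G G₂ r Λ) :
    Mor ((HP K G₂).inter (NoRat k₀ K ι₂)) ((HP K G).inter (Lev k₀ K ι r)) where
  f {L} E := trf (ext L Λ) E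
  mem E hE := (mem_trf_iff hG h E).2 hE
  nat κ E _ := by
    show _ = smap κ.toRingHom (trf _ E)
    rw [smap_trf, smap_ext]; rfl
  cont O E _ _ _ := (sred_trf_ext hG h O E).symm

/-- Lines in the kernel of a rational correspondence. -/
noncomputable def ratMor {G : Matrix ι ι k₀} {G₂ : Matrix ι₂ ι₂ k₀} {b : ℕ}
    {Λ : Submodule k₀ (ι ⊕ ι₂ → k₀)} (h : GoodL G G₂ b Λ) :
    Mor ((PS K G (trf Λ ⊥) 0).diff (LowA k₀ K ι b)) (TS K G G₂ true b) where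
  f {L} ℓ := (ℓ, ext L Λ)
  mem {L} ℓ hl := by
    obtain ⟨⟨h1, h2, -⟩, h4⟩ := mem_open.1 hl
    have h' := (goodL_ext L).2 h
    have e : Asp (frH k₀ L) ℓ b = ext L (trf Λ ⊥) :=
      eq_of_le_of_finrank_le (asp_le (frH_ext _) h2 b) (by rw [h4, ← trf_ext, h'.2.1])
    refine ⟨h1, h', e.trans (trf_ext Λ L).symm, ?_, ?_⟩
    · exact inf_le_left.trans (frH_ext Λ).le
    · exact le_trans h2 ((frH_ext _).symm.trans (congrArg _ e.symm)).le
  nat κ _ _ := Prod.ext rfl (smap_ext κ Λ).symm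
  cont O _ _ _ _ := Prod.ext rfl (sred_ext O Λ).symm

variable (k₀ K ι ι₂) in
/-- Correspondences with a degenerate kernel. -/
def Deg (b : ℕ) : Sp (Sub K (ι ⊕ ι₂)) :=
  Sp.sub (fun L Λ => b < finrank L (trf Λ ⊥) ∨ Jc (frH k₀ L) (trf Λ ⊥) b ≠ ⊥) fun κ Λ => by
    rw [← smap_bot κ.toRingHom, ← smap_trf, finrank_smap, ← smap_jc _ (map_frH κ),
      ← smap_bot κ.toRingHom, (smap_inj _).ne_iff]

lemma sred_jc_trf {M : Fld K} (O : Pl M) (Λ : Submodule M (ι ⊕ ι₂ → M)) (t : ℕ) :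
    sred O (Jc (frH k₀ M) (trf Λ ⊥) t) ≤ Jc (frH k₀ O.res) (trf (sred O Λ) ⊥) t :=
  (sred_jc_le O _ t).trans (jc_mono (sred_trf_bot_le O Λ) t)

lemma deg_closed (b : ℕ) (Y : Sp (Sub K (ι ⊕ ι₂))) : (Deg k₀ K ι ι₂ b).Closed Y := by
  rintro M O Λ - - (h | h) -
  · refine Or.inl (h.trans_le ?_)
    rw [← finrank_sred O]; exact finrank_mono (sred_trf_bot_le O Λ)
  · exact Or.inr fun e => h (sred_eq_bot.1 (le_bot_iff.1 ((sred_jc_trf O Λ b).trans e.le)))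

lemma isT_of_mem {G : Matrix ι ι k₀} {G₂ : Matrix ι₂ ι₂ k₀} (hG : EForm (dsum G G₂)) {m : ℕ}
    (hc : Fintype.card ι = Fintype.card ι₂ + 2 * (m + 1)) {L : Fld K}
    {Λ : Submodule L (ι ⊕ ι₂ → L)}
    (h : ((HP K (dsum G G₂)).diff (Deg k₀ K ι ι₂ (m + 1))).mem (L := L) Λ) :
    GoodL (gm G L) (gm G₂ L) (m + 1) Λ ∧ Jc (frH k₀ L) (trf Λ ⊥) (m + 1) = ⊥ := by
  have h1 : Lag (dsum (gm G L) (gm G₂ L)) Λ := gm_dsum G G₂ L ▸ h.1.1
  obtain ⟨h2, h3⟩ := not_or.1 h.2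
  exact ⟨⟨h1, le_antisymm (not_lt.1 h2) (h1.le_finrank_trf (eform_gm hG L) hc), hc⟩, not_not.1 h3⟩

/-- The projection to the correspondence. -/
noncomputable def sndMor {G : Matrix ι ι k₀} {G₂ : Matrix ι₂ ι₂ k₀} (hG : EForm (dsum G G₂))
    (b : ℕ) : Mor (TS K G G₂ false b) ((HP K (dsum G G₂)).diff (Deg k₀ K ι ι₂ b)) where
  f y := y.2
  mem {L} y h := by
    refine ⟨⟨(gm_dsum G G₂ L).symm ▸ h.good.1, isT_codim h⟩, not_or.2 ⟨not_lt.2 h.good.2.1.le,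
      not_not.2 ?_⟩⟩
    rw [← h.asp]
    exact jc_asp_top h.line (isT_finrank h (eform_gm hG L) (gm_frH G L))
  nat _ _ _ := rfl
  cont _ _ _ _ _ := rfl

lemma isT_line {G : Matrix ι ι k₀} {G₂ : Matrix ι₂ ι₂ k₀} (hG : EForm (dsum G G₂)) {m : ℕ}
    {L : Fld K} {ℓ : Submodule L (ι → L)} {Λ : Submodule L (ι ⊕ ι₂ → L)}
    (h : IsT (gm G L) (gm G₂ L) (frH k₀ L) false (m + 1) ℓ Λ) :
    Jc (frH k₀ L) (trf Λ ⊥) m = (smap (frH k₀ L))^[m] ℓ := by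
  rw [← h.asp]
  exact jc_asp_line h.line (isT_finrank h (eform_gm hG L) (gm_frH G L))

end Aux

end HP

open HP

theorem ck_hp0_symm {G : Matrix ι ι k₀} (hG : EForm G) (h : Gᵀ = G) :
    CK ((HP K G).inter (NoRat k₀ K ι)) := by
  by_cases hc : ∃ m, Fintype.card ι = 2 * (m + 1)
  · obtain ⟨m, hc⟩ := hc
    refine CK.image (aspMor hG hc) (fun {M} O ℓ _ hl hr => ?_) (fun L _ Λ hΛ => ?_)
      (CK.open (lowA_closed _ _) (ck_ps h ⊤ (m + 1)))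
    · obtain ⟨h1, h4⟩ := mem_open.1 hl
      obtain ⟨h5, h6, h7⟩ := of_mem_hp0 (Λ := sred O (Asp (frH k₀ M) ℓ (m + 1))) hG hc hr
      refine mem_open.2 ⟨ps_red O h1, (asp_of_jc h5 h6 h7 (ps_red O h1).1 ?_).2⟩
      rw [← sred_iter, ← jc_asp_line h1.1 h4]
      exact sred_jc_le O _ m
    · obtain ⟨h5, h6, h7⟩ := of_mem_hp0 hG hc hΛ
      obtain ⟨ℓ, h1, h2⟩ := exists_line_jc frH_surj h5 h6 h7
      obtain ⟨e1, e2⟩ := asp_of_jc h5 h6 h7 h1 h2.le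
      refine ⟨ℓ, mem_open.2 ⟨⟨h1, by rw [ext, smap_top]; exact le_top, ?_⟩, e2⟩, e1⟩
      rw [e1, (hG.gm L).le_perp_comm, hΛ.1.1, ← e1]
      exact le_asp m
  · refine CK.of_const fun L _ (Λ : Submodule L (ι → L)) hΛ =>
      ⟨(⊥ : Submodule K (ι → K)), (smap_bot _).trans ?_⟩
    have := ((hG.gm L).lag_iff.1 hΛ.1.1).2
    refine (finrank_eq_zero.1 (by_contra fun e => hc ⟨finrank L Λ - 1, ?_⟩)).symm
    omega

theorem ck_hp {G : Matrix ι ι k₀} (hG : EForm G) : CK (HP K G) := by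
  refine CK.strata (A := Sub K ι) (fun {L} Λ => finrank L (Jc (frH k₀ L) Λ (Fintype.card ι)))
    (fun κ Λ => finrank_jc_map κ Λ _) (fun O Λ _ _ _ => (finrank_sred O _).ge.trans
      (finrank_mono (sred_jc_le O Λ _))) (Fintype.card ι) (fun L Λ _ => finrank_le_card _)
    fun r => ?_
  refine CK.family (Y := (HP K G).inter (Lev k₀ K ι r))
    (α := Σ m : ℕ, {x : Matrix (Fin m) (Fin m) k₀ × Submodule k₀ (ι ⊕ Fin m → k₀) //
      EForm (dsum G x.1) ∧ GoodL G x.1 r x.2})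
    (fun a => trfMor a.2.2.1 a.2.2.2) (fun a M O E _ _ hr => ?_)
    (fun L _ (Λ : Submodule L (ι → L)) hΛ => ?_) fun a => ?_
  · refine (mem_trf_iff a.2.2.1 a.2.2.2 (sred O E)).1 ?_
    rw [← sred_trf_ext a.2.2.1 a.2.2.2]; exact hr
  · obtain ⟨U, hU⟩ := exists_ext (jc_stab (φ := frH k₀ L) (finrank_le_card Λ)).1
    have h1 : ext L U ≤ Λ := hU ▸ jc_anti (φ := frH k₀ L) (A := Λ) (Nat.zero_le _)
    have h2 : Iso (gm G L) Λ := hΛ.1.1.ge
    obtain ⟨m, G₂, Λ₀, e1, e2, e3⟩ := exists_goodL hG ((iso_smap (rat k₀ L)).1 (h2.mono h1))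
    have h3 : finrank k₀ U = r := by
      rw [← finrank_smap (rat k₀ L) U]
      exact (congrArg (fun E : Submodule L (ι → L) => finrank L E) hU).trans hΛ.2
    rw [h3] at e2
    obtain ⟨E, hE⟩ := ((goodL_ext L).2 e2).exists_trf (eform_gm e1 L) (D := Λ)
      (by rw [trf_ext, e3]; exact h1) (by rw [trf_ext, e3]; exact le_trans h2 (perp_anti _ h1))
    exact ⟨⟨m, (G₂, Λ₀), e1, e2⟩, E, (mem_trf_iff e1 e2 E).1 (hE ▸ hΛ), hE⟩
  · exact a.2.2.1.right.symm.elim (ck_hp0_symm a.2.2.1.right) (ck_hp0_alt a.2.2.1.right)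

theorem ck_ts {G : Matrix ι ι k₀} {G₂ : Matrix ι₂ ι₂ k₀} (hG : EForm (dsum G G₂)) (τ : Bool)
    {b : ℕ} (hb : 1 ≤ b) : CK (TS K G G₂ τ b) := by
  obtain ⟨m, rfl⟩ : ∃ m, b = m + 1 := ⟨b - 1, by omega⟩
  cases τ with
  | true =>
    refine CK.family (α := {Λ : Submodule k₀ (ι ⊕ ι₂ → k₀) // GoodL G G₂ (m + 1) Λ})
      (fun a => ratMor a.2) (fun a M O ℓ _ hl hr => ?_) (fun L _ y hy => ?_)
      fun a => CK.open (lowA_closed _ _) (ck_proj G _)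
    · exact mem_open.2 ⟨ps_red O hl.1, by
        have := hr.good.2.1
        rwa [← hr.asp] at this⟩
    · obtain ⟨Λ, hΛ⟩ := exists_ext (frob_eq (eform_gm hG L) (gm_frH G L) (gm_frH G₂ L) hy)
      refine ⟨⟨Λ, (goodL_ext L).1 (hΛ ▸ hy.good)⟩, y.1, mem_open.2 ⟨⟨hy.line, ?_, bot_le⟩, ?_⟩,
        Prod.ext rfl hΛ⟩
      · rw [← trf_ext, hΛ, ← hy.asp]; exact le_asp m
      · rw [hy.asp]; exact hy.good.2.1
  | false =>
    by_cases hc : Fintype.card ι = Fintype.card ι₂ + 2 * (m + 1)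
    · refine CK.of_bij (sndMor hG (m + 1)) (fun L y y' hy hy' e => ?_) (fun {M} O y _ hy hr => ?_)
        (fun L _ Λ hΛ => ?_) (CK.open (deg_closed _ _) (ck_hp hG))
      · have e' : y.2 = y'.2 := e
        refine Prod.ext ((smap_inj (frH k₀ L)).iterate m ?_) e'
        rw [← isT_line hG hy, ← isT_line hG hy', e']
      · obtain ⟨h1, h2⟩ := isT_of_mem hG hc hr
        refine isT_of_jc (eform_gm hG _) (gm_frH G _) (gm_frH G₂ _) h1 hr.1.2 h2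
          ((finrank_sred O y.1).trans hy.line) ?_
        show (smap (frH k₀ O.res))^[m] (sred O y.1) ≤ _
        rw [← sred_iter, ← isT_line hG hy]
        exact sred_jc_trf O _ m
      · obtain ⟨h1, h2⟩ := isT_of_mem hG hc hΛ
        have h3 := codim_bot hΛ.1.2
        obtain ⟨ℓ, h4, h5⟩ := exists_line_jc frH_surj h1.2.1 (by have := h1.2.1; omega) h2
        exact ⟨(ℓ, Λ), isT_of_jc (eform_gm hG _) (gm_frH G _) (gm_frH G₂ _) h1 hΛ.1.2 h2 h4 h5.le,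
          rfl⟩
    · exact CK.of_const fun L _ y hy => (hc hy.good.2.2).elim

end Pool.Agent.Lib.MP_557161_ag.DL
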