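import Pool.Agent.Lib.MP_557161_ag.DL.Trf

/-!
Linear algebra of Lagrangian subspaces that are graphs over a symplectic basis.
-/

namespace Pool.Agent.Lib.MP_557161_ag.DL.HPs

open Module Submodule Matrix

variable {L L' : Type} [Field L] [Field L'] {ι : Type} [Fintype ι] {G : Matrix ι ι L}

omit [Fintype ι] in
lemma smap_pow (φ : L →+* L) (s : ℕ) (E : Submodule L (ι → L)) :
    smap (φ ^ (s + 1)) E = smap φ (smap (φ ^ s) E) := by
  rw [pow_succ', RingHom.mul_def, smap_comp]

/-- A Lagrangian subspace of the open stratum meets no stable isotropic subspace. -/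
lemma key (hG : EForm G) (φ : L →+* L) (hφ : G.map φ = G) {Λ N : Submodule L (ι → L)}
    (hΛ : Lag G Λ) (h1 : finrank L Λ ≤ finrank L ↥(Λ ⊓ smap φ Λ) + 1)
    (h0 : Jc φ Λ (finrank L Λ) = ⊥) (hN : Iso G N) (hf : smap φ N = N) : Λ ⊓ N = ⊥ := by
  have e0 : ∀ E : Submodule L (ι → L), smap (φ ^ 0) E = E := smap_id
  have lag : ∀ s, Lag G (smap (φ ^ s) Λ) := fun s => by
    induction s with
    | zero => rwa [e0]
    | succ s ih => rw [smap_pow, ← hφ]; exact (lag_smap φ).2 ih
  have fix : ∀ s, smap (φ ^ s) N = N := fun s => by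
    induction s with
    | zero => exact e0 N
    | succ s ih => rw [smap_pow, ih, hf]
  have jc : ∀ t, Jc φ Λ (t + 1) = Jc φ Λ t ⊓ smap (φ ^ (t + 1)) Λ := fun t => by
    induction t with
    | zero => rw [smap_pow, e0]; rfl
    | succ t ih =>
      rw [smap_pow, Jc]
      conv_lhs => rw [ih, smap_inf, ← ih, ← inf_assoc]
      rw [inf_eq_left.2 (show Jc φ Λ (t + 1) ≤ _ from inf_le_right)]
  have st : smap φ (Λ ⊓ N) ≤ Λ ⊓ N := smap_le.2 fun w hw => by
    refine ⟨?_, hf ▸ mapV_mem φ hw.2⟩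
    by_contra hc
    have a1 : ∀ s, w ∈ smap (φ ^ s) Λ := fun s => by
      induction s with
      | zero => rw [e0]; exact hw.1
      | succ s ih =>
        by_contra hs
        have b1 : ¬smap (φ ^ (s + 1)) Λ ≤ perp G (span L {w}) := fun h =>
          hs ((lag (s + 1)).le ((span_singleton_le_iff_mem _ _).1 (hG.le_perp_comm.1 h)))
        have w0 : w ≠ 0 := fun h => hs (h ▸ zero_mem _)
        have b2 := finrank_inf_perp_line_eq (finrank_span_singleton w0) b1
        have b3 : smap (φ ^ s) (Λ ⊓ smap φ Λ) = smap (φ ^ (s + 1)) Λ ⊓ perp G (span L {w}) := by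
          refine eq_of_le_of_finrank_le ?_ ?_
          · rw [smap_inf, ← smap_comp, ← RingHom.mul_def, ← pow_succ]
            exact le_inf inf_le_right (inf_le_left.trans ((lag s).ge.trans
              (perp_anti G ((span_singleton_le_iff_mem _ _).2 ih))))
          · rw [finrank_smap] at b2 ⊢
            omega
        have b4 : mapV (φ ^ (s + 1) :) w ∈ smap (φ ^ s) (Λ ⊓ smap φ Λ) :=
          b3 ▸ ⟨mapV_mem _ hw.1, mem_perp_span.2 (hN (fix (s + 1) ▸ mapV_mem _ hw.2) w hw.2)⟩
        exact hc ((mapV_mem_iff (x := mapV φ w) (φ ^ s)).1 b4).1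
    have a2 : ∀ t, w ∈ Jc φ Λ t := fun t => by
      induction t with
      | zero => exact hw.1
      | succ t ih => exact jc t ▸ ⟨ih, a1 _⟩
    have a3 := a2 (finrank L Λ)
    rw [h0, mem_bot] at a3
    exact hc (by rw [a3, mapV_zero]; exact zero_mem _)
  exact le_bot_iff.1 (h0 ▸ le_jc (eq_of_le_of_finrank_le st (finrank_smap φ _).ge) inf_le_left _)

variable {n : ℕ} {e f : Fin n → ι → L}

lemma bf_sum_left (G : Matrix ι ι L) (c : Fin n → L) (v : Fin n → ι → L) (y : ι → L) :
    bf G (∑ i, c i • v i) y = ∑ i, c i * bf G (v i) y := by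
  simp [bf, sum_dotProduct]

lemma bf_sum_right (G : Matrix ι ι L) (c : Fin n → L) (v : Fin n → ι → L) (y : ι → L) :
    bf G y (∑ i, c i • v i) = ∑ i, c i * bf G y (v i) := by
  simp [bf, mulVec_sum, dotProduct_sum, mulVec_smul]

lemma mem_perp_range (hG : EForm G) {x : ι → L} :
    x ∈ perp G (span L (Set.range f)) ↔ ∀ j, bf G x (f j) = 0 := by
  rw [← span_singleton_le_iff_mem, hG.le_perp_comm, span_le, Set.range_subset_iff]
  exact forall_congr' fun j => mem_perp_span

lemma exists_dual (hG : EForm G) (hf : Lag G (span L (Set.range f))) {Λ : Submodule L (ι → L)}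
    (h : n + finrank L ↥(Λ ⊓ span L (Set.range f)) ≤ finrank L Λ) :
    ∃ x : Fin n → ι → L, ∀ i, x i ∈ Λ ∧ ∀ j, bf G (x i) (f j) = if i = j then 1 else 0 := by
  let T : (ι → L) →ₗ[L] Fin n → L := (Matrix.of fun j => G *ᵥ f j).mulVecLin
  have hT : ∀ x j, T x j = bf G x (f j) := fun x j => dotProduct_comm _ _
  have h1 : LinearMap.ker T = span L (Set.range f) := by
    ext x
    rw [← hf, mem_perp_range hG, LinearMap.mem_ker, funext_iff]
    simp only [hT, Pi.zero_apply]
  have h2 := (T.domRestrict Λ).finrank_range_add_finrank_ker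
  rw [LinearMap.ker_domRestrict, ← finrank_map_subtype_eq, map_comap_subtype, h1] at h2
  have h3 : LinearMap.range (T.domRestrict Λ) = ⊤ :=
    eq_top_of_finrank_eq (le_antisymm (finrank_le _) (by rw [Module.finrank_fin_fun]; omega))
  choose x hx using fun i : Fin n => LinearMap.range_eq_top.1 h3 (Pi.single i 1)
  exact ⟨fun i => x i, fun i => ⟨(x i).2, fun j => by
    rw [← hT, show T (x i) = _ from hx i, Pi.single_apply]; simp only [eq_comm]⟩⟩

/-- Dual families, the second one spans a Lagrangian subspace. -/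
structure SB (G : Matrix ι ι L) (e f : Fin n → ι → L) : Prop where
  ef : ∀ i j, bf G (e i) (f j) = if i = j then 1 else 0
  lag : Lag G (span L (Set.range f))

/-- The rows of the graph of a matrix. -/
def row (e f : Fin n → ι → L) (y : Fin n × Fin n → L) (i : Fin n) : ι → L :=
  e i + ∑ j, y (i, j) • f j

/-- The graph of a matrix. -/
def gr (e f : Fin n → ι → L) (y : Fin n × Fin n → L) : Submodule L (ι → L) :=
  span L (Set.range (row e f y))

lemma SB.ff (h : SB G e f) (i j : Fin n) : bf G (f i) (f j) = 0 :=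
  h.lag.ge (subset_span ⟨j, rfl⟩) _ (subset_span ⟨i, rfl⟩)

lemma SB.row (h : SB G e f) (y : Fin n × Fin n → L) : SB G (row e f y) f :=
  ⟨fun i j => by simp [HPs.row, bf_add_left, bf_sum_left, h.ef, h.ff], h.lag⟩

lemma SB.left (h : SB G e f) (a : Fin n → L) (j : Fin n) : bf G (∑ i, a i • e i) (f j) = a j := by
  simp [bf_sum_left, h.ef]

lemma SB.right (h : SB G e f) (a : Fin n → L) (j : Fin n) : bf G (e j) (∑ i, a i • f i) = a j := by
  simp [bf_sum_right, h.ef]

lemma SB.indep (h : SB G e f) : LinearIndependent L e :=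
  Fintype.linearIndependent_iff.2 fun a ha j => by rw [← h.left a j, ha, bf_zero_left]

lemma SB.finrank_gr (h : SB G e f) (y : Fin n × Fin n → L) : finrank L (gr e f y) = n := by
  rw [gr, finrank_span_eq_card (h.row y).indep, Fintype.card_fin]

lemma SB.card (h : SB G e f) (hG : EForm G) : 2 * n = Fintype.card ι := by
  rw [← (hG.lag_iff.1 h.lag).2, finrank_span_eq_card (Fintype.linearIndependent_iff.2
    fun a ha j => by rw [← h.right a j, ha, bf_zero_right]), Fintype.card_fin]

lemma SB.bf_row (h : SB G e f) (ha : Gᵀ = -G) (y : Fin n × Fin n → L) (i k : Fin n) :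
    bf G (HPs.row e f y i) (HPs.row e f y k) = bf G (e i) (e k) + y (k, i) - y (i, k) := by
  have h1 := (h.row y).right (fun j => y (k, j)) i
  have h2 := h.right (fun j => y (i, j)) k
  rw [show HPs.row e f y k = e k + ∑ j, y (k, j) • f j from rfl, bf_add_right, h1, HPs.row,
    bf_add_left, bf_alt ha _ (e k), bf_alt ha (∑ j, _) (e k), h2, bf_alt ha (e k)]
  ring

omit [Fintype ι] in
lemma mapV_row (κ : L →+* L') (y : Fin n × Fin n → L) (i : Fin n) : mapV κ (row e f y i) =
    row (fun i => mapV κ (e i)) (fun i => mapV κ (f i)) (mapV κ y) i := by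
  simp only [row, mapV_add, mapV_sum, mapV_smul]; rfl

omit [Fintype ι] in
lemma smap_range (κ : L →+* L') (f : Fin n → ι → L) :
    smap κ (span L (Set.range f)) = span L' (Set.range fun i => mapV κ (f i)) := by
  rw [smap_span, ← Set.range_comp]; rfl

omit [Fintype ι] in
lemma smap_gr (κ : L →+* L') (y : Fin n × Fin n → L) : smap κ (gr e f y) =
    gr (fun i => mapV κ (e i)) (fun i => mapV κ (f i)) (mapV κ y) := by
  simp only [gr, smap_range, mapV_row]

lemma SB.map (h : SB G e f) (κ : L →+* L') :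
    SB (G.map κ) (fun i => mapV κ (e i)) fun i => mapV κ (f i) :=
  ⟨fun i j => by rw [bf_mapV, h.ef]; split_ifs <;> simp, smap_range κ f ▸ (lag_smap κ).2 h.lag⟩

lemma exists_sb [NeZero (2 : L)] (hG : EForm G) (ha : Gᵀ = -G) :
    ∃ (n : ℕ) (e f : Fin n → ι → L), SB G e f ∧ ∀ i k, bf G (e i) (e k) = 0 := by
  obtain ⟨E, h1, h2⟩ := wellFounded_gt.has_min {E | Iso G E} ⟨⊥, show Iso G ⊥ from bot_le⟩
  have h3 : Lag G E := le_antisymm (fun x hx => by
    have a1 : span L {x} ≤ perp G E := (span_singleton_le_iff_mem _ _).2 hx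
    have a2 : Iso G (E ⊔ span L {x}) := by
      rw [Iso, perp_sup]
      exact sup_le (le_inf h1 (hG.le_perp_comm.1 a1)) (le_inf a1 ((span_singleton_le_iff_mem _ _).2
        (mem_perp_span.2 (bf_self_of_alt ha x))))
    exact (eq_of_le_of_not_lt le_sup_left (h2 _ a2)).ge (mem_sup_right (mem_span_singleton_self x))) h1
  obtain ⟨n, f, s, hf⟩ := exists_nb' E
  have h4 := (hG.lag_iff.1 h3).2
  have h5 := hf.finrank
  rw [← hf.span] at h3
  obtain ⟨e, he⟩ := exists_dual hG h3 (Λ := ⊤) (by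
    rw [top_inf_eq, hf.span, finrank_top, Module.finrank_fintype_fun_eq_card]; omega)
  have h6 : SB G e f := ⟨fun i => (he i).2, h3⟩
  refine ⟨n, _, f, h6.row fun p => bf G (e p.1) (e p.2) / 2, fun i k => ?_⟩
  rw [h6.bf_row ha, bf_alt ha (e k)]
  field_simp [NeZero.ne (2 : L)]
  ring

/-- Symmetric matrices. -/
def Sy (w : Fin n × Fin n → L) : Prop := ∀ i j, w (i, j) = w (j, i)

/-- Matrices of rank at most one. -/
def Rk (w : Fin n × Fin n → L) : Prop := ∀ i j k l, w (i, j) * w (k, l) = w (i, l) * w (k, j)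

lemma SB.lag_gr (h : SB G e f) (hG : EForm G) (ha : Gᵀ = -G) (he : ∀ i k, bf G (e i) (e k) = 0)
    {y : Fin n × Fin n → L} : Lag G (gr e f y) ↔ Sy y := by
  rw [hG.lag_iff, h.finrank_gr, and_iff_left (h.card hG), Iso, gr, span_le, Set.range_subset_iff]
  simp only [SetLike.mem_coe, mem_perp_range hG, h.bf_row ha, he, zero_add, sub_eq_zero]
  exact forall_comm

lemma SB.rk_iff (h : SB G e f) (y y' : Fin n × Fin n → L) :
    finrank L (gr e f y) ≤ finrank L ↥(gr e f y ⊓ gr e f y') + 1 ↔ Rk (y' - y) := by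
  let W : (Fin n → L) →ₗ[L] Fin n → L := (Matrix.of fun i j => (y' - y) (i, j)).vecMulLinear
  have hW : ∀ a, ∑ i, a i • HPs.row e f y' i = ∑ i, a i • HPs.row e f y i + ∑ j, W a j • f j :=
    fun a => by
      simp only [HPs.row, W, vecMulLinear_apply, vecMul, dotProduct, of_apply, Finset.sum_smul,
        Pi.sub_apply]
      rw [Finset.sum_comm (f := fun j i => (a i * _) • f j), ← Finset.sum_add_distrib]
      refine Finset.sum_congr rfl fun i _ => ?_
      simp only [mul_smul, ← Finset.smul_sum, ← smul_add, add_assoc, ← Finset.sum_add_distrib,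
        ← add_smul, add_sub_cancel]
  have h1 : gr e f y ⊓ gr e f y' =
      (LinearMap.ker W).map (Fintype.linearCombination L (HPs.row e f y)) := by
    ext x
    simp only [gr, mem_inf, mem_span_range_iff_exists_fun, mem_map, LinearMap.mem_ker,
      Fintype.linearCombination_apply]
    refine ⟨fun ⟨⟨a, ha⟩, a', ha'⟩ => ?_, fun ⟨a, h1, h2⟩ => ⟨⟨a, h2⟩, a, by simp [hW, h1, h2]⟩⟩
    obtain rfl : a = a' := funext fun j => by
      rw [← (h.row y).left a j, ← (h.row y').left a' j, ha, ha']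
    rw [hW, ha, add_eq_left] at ha'
    exact ⟨a, funext fun j => by rw [← h.right (W a) j, ha', bf_zero_right, Pi.zero_apply], ha⟩
  have h2 := W.finrank_range_add_finrank_ker
  rw [Module.finrank_fin_fun] at h2
  rw [h.finrank_gr, h1, ← (equivMapOfInjective _
    (h.row y).indep.fintypeLinearCombination_injective _).finrank_eq,
    show n ≤ finrank L (LinearMap.ker W) + 1 ↔ finrank L (LinearMap.range W) ≤ 1 by omega]
  have h3 : ∀ i j, W (Pi.single i 1) j = (y' - y) (i, j) := fun i j => by simp [W]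
  refine ⟨fun h4 i j k l => ?_, fun h4 => ?_⟩
  · obtain ⟨v, hv⟩ := finrank_le_one_iff.1 h4
    obtain ⟨c, hc⟩ := hv ⟨_, Pi.single i 1, rfl⟩
    obtain ⟨d, hd⟩ := hv ⟨_, Pi.single k 1, rfl⟩
    have hc' : ∀ j, c * v.1 j = _ := fun j => (congrFun (congrArg Subtype.val hc) j).trans (h3 i j)
    have hd' : ∀ j, d * v.1 j = _ := fun j => (congrFun (congrArg Subtype.val hd) j).trans (h3 k j)
    rw [← hc', ← hc', ← hd', ← hd']
    ring
  · by_cases h5 : y' - y = 0
    · rw [show W = 0 from LinearMap.ext fun a => by simp only [W, h5]; exact vecMul_zero a,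
        LinearMap.range_zero, finrank_bot]
      exact zero_le_one
    obtain ⟨⟨k, l⟩, h6⟩ := Function.ne_iff.1 h5
    refine (finrank_mono (t := span L {fun j => (y' - y) (k, j)}) ?_).trans
      ((finrank_span_le_card _).trans (by simp))
    rintro _ ⟨a, rfl⟩
    refine mem_span_singleton.2 ⟨W a l / (y' - y) (k, l), funext fun j => ?_⟩
    rw [Pi.smul_apply, smul_eq_mul, div_mul_eq_mul_div, div_eq_iff h6]
    simp only [W, vecMulLinear_apply, vecMul, dotProduct, of_apply, Finset.sum_mul, mul_assoc, h4 _ j]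

lemma SB.exists_gr (h : SB G e f) (hG : EForm G) {Λ : Submodule L (ι → L)} (hΛ : Lag G Λ)
    (h0 : Λ ⊓ span L (Set.range f) = ⊥) : ∃ y, gr e f y = Λ := by
  have h1 := (hG.lag_iff.1 hΛ).2
  have h2 := h.card hG
  obtain ⟨x, hx⟩ := exists_dual hG h.lag (Λ := Λ) (by rw [h0, finrank_bot]; omega)
  have h3 : ∀ i, ∃ c : Fin n → L, ∑ j, c j • f j = x i - e i := fun i =>
    (mem_span_range_iff_exists_fun L).1 (h.lag.le ((mem_perp_range hG).2 fun j => by
      rw [bf_sub_left, (hx i).2, h.ef, sub_self]))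
  choose c hc using h3
  refine ⟨fun p => c p.1 p.2, eq_of_le_of_finrank_le (span_le.2 ?_) (by rw [h.finrank_gr]; omega)⟩
  rintro _ ⟨i, rfl⟩
  rw [HPs.row, hc, add_sub_cancel]
  exact (hx i).1

/-- The square of a vector. -/
def vv (x : Fin n → L) : Fin n × Fin n → L := fun p => x p.1 * x p.2

lemma vv_ne {x : Fin n → L} (h : x ≠ 0) : vv x ≠ 0 := fun h' =>
  h (funext fun i => mul_self_eq_zero.1 (congrFun h' (i, i)))

lemma exists_vv [IsAlgClosed L] {w : Fin n × Fin n → L} (h0 : w ≠ 0) (h1 : Sy w) (h2 : Rk w) :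
    ∃ x, vv x = w := by
  obtain ⟨⟨i, j⟩, h3⟩ := Function.ne_iff.1 h0
  have h4 : w (i, i) ≠ 0 := fun h => by
    have := h2 i i j j
    rw [h, zero_mul, h1 j i] at this
    exact h3 (mul_self_eq_zero.1 this.symm)
  obtain ⟨r, hr⟩ := IsAlgClosed.exists_eq_mul_self (w (i, i))
  refine ⟨fun k => w (i, k) / r, funext fun ⟨k, l⟩ => ?_⟩
  rw [vv, div_mul_div_comm, ← hr, div_eq_iff h4, h1 i k, h2]

/-- The span of the squares. -/
def sq (ℓ : Submodule L (Fin n → L)) : Submodule L (Fin n × Fin n → L) := span L (vv '' ℓ)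

lemma sq_span (x : Fin n → L) : sq (span L {x}) = span L {vv x} := by
  refine le_antisymm (span_le.2 ?_)
    (span_mono (Set.singleton_subset_iff.2 ⟨x, mem_span_singleton_self x, rfl⟩))
  rintro _ ⟨y, hy, rfl⟩
  obtain ⟨c, rfl⟩ := mem_span_singleton.1 hy
  exact mem_span_singleton.2 ⟨c * c, funext fun p => by simp [vv]; ring⟩

end Pool.Agent.Lib.MP_557161_ag.DL.HPs
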