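import Pool.Agent.Lib.MP_557161_ag.DL.PS
import Pool.Agent.Lib.MP_557161_ag.DL.HPs1

/-!
The open stratum of the variety of Lagrangian subspaces in the symplectic case.
-/

namespace Pool.Agent.Lib.MP_557161_ag.DL

open Module Submodule Matrix

variable {k₀ : Type} [Field k₀] [Fintype k₀] {K : Type} [Field K] [Algebra k₀ K] [Base K]
  {ι : Type} [Fintype ι] [NeZero (2 : k₀)]

namespace HPs

variable {n : ℕ}

/-- Symmetric matrices of rank at most one on a hyperplane. -/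
def Q {L : Type} [Field L] (c w : Fin n × Fin n → L) : Prop := Sy w ∧ Rk w ∧ c ⬝ᵥ w = 0

lemma Q.smul {L : Type} [Field L] {c w : Fin n × Fin n → L} (h : Q c w) (a : L) : Q c (a • w) :=
  ⟨fun i j => congrArg (a * ·) (h.1 i j), fun i j k l => by
    simp only [Pi.smul_apply, smul_eq_mul]; linear_combination a * a * h.2.1 i j k l,
    by rw [dotProduct_smul, h.2.2, smul_zero]⟩

lemma q_map {L L' : Type} [Field L] [Field L'] (κ : L →+* L') {c w : Fin n × Fin n → L} :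
    Q (mapV κ c) (mapV κ w) ↔ Q c w := by
  simp only [Q, Sy, Rk, mapV, dotProduct, ← map_mul, ← map_sum, κ.injective.eq_iff, map_eq_zero]

lemma q_span {L : Type} [Field L] {c w : Fin n × Fin n → L} :
    (∀ v ∈ span L {w}, Q c v) ↔ Q c w :=
  ⟨fun h => h w (mem_span_singleton_self w), fun h _ hv => by
    obtain ⟨a, rfl⟩ := mem_span_singleton.1 hv
    exact h.smul a⟩

omit [Fintype k₀] [Base K] [NeZero (2 : k₀)] in
lemma mapV_rat {α : Type} {L L' : Fld K} (κ : L →ₐ[K] L') (c : α → k₀) :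
    mapV κ.toRingHom (mapV (rat k₀ L) c) = mapV (rat k₀ L') c := funext fun _ => map_rat κ _

variable (K) in
/-- Lines spanned by symmetric matrices of rank one on a hyperplane. -/
def PQ (c : Fin n × Fin n → k₀) : Sp (Sub K (Fin n × Fin n)) :=
  Sp.sub (fun L ℓ => finrank L ℓ = 1 ∧ ∀ w ∈ ℓ, Q (mapV (rat k₀ L) c) w) fun κ ℓ => by
    rw [finrank_smap]
    refine and_congr_right fun h => ?_
    obtain ⟨x, -, rfl⟩ := exists_gen_line h
    rw [smap_single, q_span, q_span, ← mapV_rat κ, q_map]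

omit [Fintype k₀] [Base K] [NeZero (2 : k₀)] in
lemma pq_red {c : Fin n × Fin n → k₀} {M : Fld K} (O : Pl M) {ℓ : Submodule M (Fin n × Fin n → M)}
    (h : (PQ K c).mem (L := M) ℓ) : (PQ K c).mem (L := O.res) (sred O ℓ) := by
  refine ⟨(finrank_sred O ℓ).trans h.1, ?_⟩
  rintro _ ⟨x, h1, h2, rfl⟩
  obtain ⟨h3, h4, h5⟩ := h.2 x h1
  refine ⟨fun i j => congrArg O.rd (h3 i j), fun i j k l => ?_, ?_⟩
  · simp only [rdV, ← O.rd_mul (h2 _) (h2 _), h4 i j k l]
  · have := congrArg O.rd h5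
    rw [dotProduct, O.rd_sum _ (fun p => mapV (rat k₀ M) c p * x p)
      fun p _ => mul_mem (rd_rat O _).1 (h2 p), O.rd_zero] at this
    rw [← this]
    exact Finset.sum_congr rfl fun p _ => by
      rw [mapV, mapV, O.rd_mul (rd_rat O _).1 (h2 p), (rd_rat O _).2, rdV]

theorem ck_pq (c : Fin n × Fin n → k₀) : CK (PQ K c) := by
  let η : Matrix (Fin n) (Fin n) k₀ := Matrix.of fun i j => c (i, j) + c (j, i)
  have hη : ∀ (L : Fld K) (x : Fin n → L), x ≠ 0 →
      ((PS K η ⊤ 1).mem (L := L) (span L {x}) ↔ mapV (rat k₀ L) c ⬝ᵥ vv x = 0) := fun L x hx => by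
    have h1 : bf (gm η L) x x = 2 * (mapV (rat k₀ L) c ⬝ᵥ vv x) := by
      simp only [bf, gm, η, dotProduct, mulVec, map_apply, of_apply, map_add, add_mul, mul_add,
        Finset.mul_sum, Finset.sum_add_distrib, Fintype.sum_prod_type, mapV, vv, two_mul]
      congr 1
      · simp only [mul_left_comm]
      · rw [Finset.sum_comm]
        simp only [mul_left_comm, mul_comm, mul_assoc]
    have := neZero_two (k₀ := k₀) L
    simp [mem_ps_span hx, ext, h1, NeZero.ne (2 : L)]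
  refine CK.image (W := PS K η ⊤ 1) ⟨fun ℓ => sq ℓ, fun {L} ℓ h => ?_, fun κ ℓ h => ?_,
    fun O ℓ _ h _ => ?_⟩ (fun O _ _ h _ => ps_red O h) (fun L _ ℓ h => ?_)
    (ck_ps (by ext i j; exact add_comm _ _) ⊤ 1)
  · obtain ⟨x, hx, rfl⟩ := exists_gen_line h.1
    rw [sq_span]
    exact ⟨finrank_span_singleton (vv_ne hx), q_span.2 ⟨fun i j => mul_comm _ _,
      fun i j k l => by simp only [vv]; ring, (hη L x hx).1 h⟩⟩
  · obtain ⟨x, hx, rfl⟩ := exists_gen_line h.1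
    show sq (smap κ.toRingHom _) = smap κ.toRingHom _
    rw [smap_single, sq_span, sq_span, smap_single]
    exact congrArg (span _ {·}) (funext fun p => (map_mul κ _ _).symm)
  · obtain ⟨x, hx, rfl⟩ := exists_gen_line h.1
    obtain ⟨s, h1, h2⟩ := exists_scale O hx
    have h3 : rdV O ((x s)⁻¹ • x) ≠ 0 := fun h => by simpa [rdV, h1] using congrFun h s
    have h4 : rdV O (vv ((x s)⁻¹ • x)) = vv (rdV O ((x s)⁻¹ • x)) :=
      funext fun p => O.rd_mul (h2 _) (h2 _)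
    show sq (sred O _) = sred O _
    rw [← span_singleton_smul_eq (inv_ne_zero h1).isUnit x, sred_single h2 h3, sq_span, sq_span,
      sred_single (x := vv _) (fun p => mul_mem (h2 _) (h2 _)) (h4 ▸ vv_ne h3), h4]
  · obtain ⟨w, hw, rfl⟩ := exists_gen_line h.1
    obtain ⟨h1, h2, h3⟩ := q_span.1 h.2
    obtain ⟨x, rfl⟩ := exists_vv hw h1 h2
    have hx : x ≠ 0 := fun h => hw (funext fun p => by simp [vv, h])
    exact ⟨span L {x}, (hη L x hx).2 h3, sq_span x⟩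

variable (n) in
/-- The space of symmetric matrices. -/
def SyM (L : Type) [Field L] : Submodule L (Fin n × Fin n → L) where
  carrier := {w | Sy w}
  zero_mem' _ _ := rfl
  add_mem' h h' i j := congrArg₂ (· + ·) (h i j) (h' i j)
  smul_mem' a _ h i j := congrArg (a * ·) (h i j)

omit [Fintype k₀] [Base K] in
lemma mem_ext {L : Fld K} {w : Fin n × Fin n → L} : w ∈ ext L (SyM n k₀) ↔ Sy w := by
  refine ⟨fun h => (show ext L (SyM n k₀) ≤ SyM n L from
    smap_le.2 fun x hx i j => congrArg (rat k₀ L) (hx i j)) h, fun h => ?_⟩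
  have := neZero_two (k₀ := k₀) L
  have : w = ∑ p, (w p / 2) • mapV (rat k₀ L)
      (fun q : Fin n × Fin n => (if q = p then 1 else 0) + if q.swap = p then 1 else 0) := by
    funext q
    simp only [Finset.sum_apply, Pi.smul_apply, mapV, map_add, apply_ite (rat k₀ L), map_one, map_zero,
      smul_eq_mul, mul_add, mul_ite, mul_one, mul_zero, Finset.sum_add_distrib, Finset.sum_ite_eq,
      Finset.mem_univ, if_true]
    rw [show w q.swap = w q from h _ _, add_halves]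
  rw [this]
  exact sum_mem fun p _ => smul_mem _ _ (mapV_mem _ fun i j => add_comm _ _)

omit [Base K] in
lemma lp_iff {L : Fld K} {y : Fin n × Fin n → L} :
    (LP (SyM n k₀) (PQ K (0 : Fin n × Fin n → k₀))).mem (L := L) (some y) ↔
      Sy y ∧ Rk (lang k₀ y) := by
  refine ⟨fun ⟨x, e, h1, h2⟩ => ?_, fun h => ⟨y, rfl, mem_ext.2 h.1, ?_⟩⟩
  · obtain rfl := Option.some.inj e
    exact ⟨mem_ext.1 h1, h2.elim (fun h _ _ _ _ => by rw [h]; rfl) fun h => (q_span.1 h.2).2.1⟩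
  · refine or_iff_not_imp_left.2 fun h0 => ⟨finrank_span_singleton h0, q_span.2 ⟨fun i j => ?_, h.2, ?_⟩⟩
    · simp only [lang, mapV, Pi.sub_apply, h.1 i j]
    · rw [mapV_zero, zero_dotProduct]

lemma exists_hyp {α L : Type} [Fintype α] [DecidableEq α] [Field L] {U V : Submodule L (α → L)}
    (h1 : U ≤ V) (h2 : finrank L U + 1 = finrank L V) : ∃ c, U = V ⊓ perp 1 (span L {c}) := by
  have h3 : EForm (1 : Matrix α α L) := ⟨.inl transpose_one, fun x h => by rwa [one_mulVec] at h⟩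
  have h4 : ¬perp 1 U ≤ perp 1 V := fun h => by
    rw [h3.le_perp_comm, h3.perp_perp] at h
    have := Submodule.finrank_mono h
    omega
  obtain ⟨c, h5, h6⟩ := SetLike.not_le_iff_exists.1 h4
  rw [← span_singleton_le_iff_mem, h3.le_perp_comm] at h5 h6
  have h0 : c ≠ 0 := fun h => h6 (by rw [h, span_zero_singleton, perp_bot]; exact le_top)
  have h7 := finrank_inf_perp_line_eq (finrank_span_singleton h0) h6
  exact ⟨c, eq_of_le_of_finrank_le (le_inf h1 h5) (by omega)⟩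

theorem ck_lp' : CK (LP (SyM n k₀) (PQ K (0 : Fin n × Fin n → k₀))) := by
  refine ck_lp _ _ (fun L ℓ h => ⟨h.1, fun w hw => mem_ext.2 (h.2 w hw).1⟩)
    (fun M O ℓ _ h => pq_red O h) (ck_pq 0) fun U h1 h2 => ?_
  obtain ⟨c, h8⟩ := exists_hyp h1 h2
  have h9 : ∀ (L : Fld K) (w : Fin n × Fin n → L),
      w ∈ ext L U ↔ Sy w ∧ mapV (rat k₀ L) c ⬝ᵥ w = 0 := fun L w => by
    rw [h8, ext, smap_inf, mem_inf, smap_perp, smap_single, mem_perp_span, bf,
      Matrix.map_one _ (map_zero _) (map_one _), one_mulVec]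
    exact and_congr_left' mem_ext
  refine (ck_pq c).congr fun L (ℓ : Submodule L _) =>
    ⟨fun h => ⟨⟨h.1, fun w hw => ⟨(h.2 w hw).1, (h.2 w hw).2.1, ?_⟩⟩,
    show ℓ ≤ ext L U from fun w hw => (h9 L w).2 ⟨(h.2 w hw).1, (h.2 w hw).2.2⟩⟩,
    fun h => ⟨h.1.1, fun w hw => ⟨(h.1.2 w hw).1, (h.1.2 w hw).2.1,
      ((h9 L w).1 ((show ℓ ≤ ext L U from h.2) hw)).2⟩⟩⟩
  rw [mapV_zero, zero_dotProduct]

omit [Base K] in
lemma aff_red {α : Type} [Finite α] {M : Fld K} (O : Pl M) {x : α → M} (h : IntV O x) :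
    (Aff K α).red O (some x) = some (rdV O x) := if_pos h

omit [Base K] in
lemma aff_int {α : Type} [Finite α] {M : Fld K} {O : Pl M} {x : α → M} {z : α → O.res}
    (h : (Aff K α).red O (some x) = some z) : IntV O x := by
  by_contra hx
  exact nomatch (if_neg hx).symm.trans h

/-- The graph over a rational basis. -/
def Gr (e f : Fin n → ι → k₀) {L : Fld K} (y : Fin n × Fin n → L) : Submodule L (ι → L) :=
  gr (fun i => mapV (rat k₀ L) (e i)) (fun i => mapV (rat k₀ L) (f i)) y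

variable {G : Matrix ι ι k₀} {e f : Fin n → ι → k₀}

omit [Fintype k₀] [Base K] [NeZero (2 : k₀)] [Fintype ι] in
lemma smap_Gr {L L' : Fld K} (κ : L →ₐ[K] L') (y : Fin n × Fin n → L) :
    smap κ.toRingHom (Gr e f y) = Gr e f (mapV κ.toRingHom y) := by
  simp only [Gr, smap_gr, mapV_rat]

omit [Fintype k₀] [Base K] [NeZero (2 : k₀)] [Fintype ι] in
lemma int_rat {M : Fld K} (O : Pl M) (v : ι → k₀) :
    IntV O (mapV (rat k₀ M) v) ∧ rdV O (mapV (rat k₀ M) v) = mapV (rat k₀ O.res) v :=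
  ⟨fun _ => (rd_rat O _).1, funext fun _ => (rd_rat O _).2⟩

omit [Fintype k₀] [Base K] [NeZero (2 : k₀)] [Fintype ι] in
lemma int_sum {M : Fld K} (O : Pl M) {c : Fin n → M} (h : IntV O c) :
    IntV O (∑ j, c j • mapV (rat k₀ M) (f j)) ∧
      rdV O (∑ j, c j • mapV (rat k₀ M) (f j)) = ∑ j, O.rd (c j) • mapV (rat k₀ O.res) (f j) :=
  ⟨.sum _ fun j _ => .smul (h j) (int_rat O _).1, by
    rw [rdV_sum _ fun j _ => .smul (h j) (int_rat O _).1]
    exact Finset.sum_congr rfl fun j _ => by rw [rdV_smul (h j) (int_rat O _).1, (int_rat O _).2]⟩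

omit [Fintype k₀] [Base K] [NeZero (2 : k₀)] in
lemma sred_Gr (h : SB G e f) {M : Fld K} (O : Pl M) {y : Fin n × Fin n → M} (hy : IntV O y) :
    sred O (Gr e f y) = Gr e f (rdV O y) := by
  refine (eq_of_le_of_finrank_le (span_le.2 ?_) ?_).symm
  · rintro _ ⟨i, rfl⟩
    have h1 := int_sum (f := f) O (c := fun j => y (i, j)) fun j => hy _
    refine ⟨_, subset_span ⟨i, rfl⟩, (int_rat O _).1.add h1.1, ?_⟩
    rw [row, rdV_add (int_rat O _).1 h1.1, h1.2, (int_rat O _).2]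
    rfl
  · exact (((finrank_sred O _).trans ((h.map _).finrank_gr _)).trans ((h.map _).finrank_gr _).symm).le

omit [Base K] in
lemma hp_iff (hG : EForm G) (ha : Gᵀ = -G) (h : SB G e f) (he : ∀ i k, bf G (e i) (e k) = 0)
    {L : Fld K} {y : Fin n × Fin n → L} : (HP K G).mem (L := L) (Gr e f y) ↔
      (LP (SyM n k₀) (PQ K (0 : Fin n × Fin n → k₀))).mem (L := L) (some y) := by
  have h1 : smap (frH k₀ L) (Gr e f y) = Gr e f (mapV (frH k₀ L) y) := by
    have : ∀ v : ι → k₀, mapV (frH k₀ L) (mapV (rat k₀ L) v) = mapV (rat k₀ L) v :=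
      fun v => funext fun _ => frH_rat _
    simp only [Gr, smap_gr, this]
  rw [lp_iff]
  refine and_congr ((h.map _).lag_gr (hG.gm L) ?_ fun i k => by rw [bf_mapV, he, map_zero]) ?_
  · rw [← transpose_map, ha, Matrix.map_neg _ (map_neg _)]
  · rw [h1]
    exact (h.map _).rk_iff _ _

omit [Base K] [NeZero (2 : k₀)] in
lemma disj (hG : EForm G) (h : SB G e f) {L : Fld K} {Λ : Submodule L (ι → L)}
    (hΛ : ((HP K G).inter (NoRat k₀ K ι)).mem (L := L) Λ) :
    Λ ⊓ span L (Set.range fun i => mapV (rat k₀ L) (f i)) = ⊥ :=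
  key (hG.gm L) (frH k₀ L) (gm_frH G L) hΛ.1.1 hΛ.1.2 hΛ.2 (h.map _).lag.ge
    (smap_range (rat k₀ L) f ▸ frH_ext _)

omit [Base K] [NeZero (2 : k₀)] in
lemma int_of (hG : EForm G) (h : SB G e f) {M : Fld K} (O : Pl M) {y : Fin n × Fin n → M}
    (hΛ : ((HP K G).inter (NoRat k₀ K ι)).mem (L := O.res) (sred O (Gr e f y))) : IntV O y := by
  by_contra hy
  obtain ⟨⟨i, j⟩, h1, h2⟩ := exists_scale O (x := y) fun h => hy (h ▸ fun _ => zero_mem _)
  have h3 : y (i, j) ∉ O.O := fun h => hy (by simpa [h1] using h2.smul h)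
  have h4 : (y (i, j))⁻¹ ∈ O.O := (O.O.mem_or_inv_mem _).resolve_left h3
  have h5 : O.rd (y (i, j))⁻¹ = 0 := by
    by_contra hc
    exact h3 (by simpa using ((O.rd_ne_zero_iff h4).1 hc).2)
  have h6 := int_sum (f := f) O (c := fun k => (y (i, j))⁻¹ * y (i, k)) fun k => h2 (i, k)
  have h7 : ∑ k, O.rd ((y (i, j))⁻¹ * y (i, k)) • mapV (rat k₀ O.res) (f k) ∈ sred O (Gr e f y) ⊓
      span O.res (Set.range fun i => mapV (rat k₀ O.res) (f i)) := by
    refine ⟨⟨_, smul_mem _ (y (i, j))⁻¹ (subset_span ⟨i, rfl⟩), ?_⟩,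
      sum_mem fun k _ => smul_mem _ _ (subset_span ⟨k, rfl⟩)⟩
    have a1 := (int_rat O (e i)).1.smul h4
    simp only [row, smul_add, Finset.smul_sum, smul_smul]
    exact ⟨a1.add h6.1, by rw [rdV_add a1 h6.1, h6.2, rdV_smul h4 (int_rat O _).1, h5, zero_smul,
      zero_add]⟩
  rw [disj hG h hΛ, mem_bot] at h7
  have h8 := (h.map (rat k₀ O.res)).right (fun k => O.rd ((y (i, j))⁻¹ * y (i, k))) j
  rw [h7, bf_zero_right, inv_mul_cancel₀ h1, O.rd_one] at h8
  exact zero_ne_one h8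

end HPs

open HPs in
theorem ck_hp0_alt {G : Matrix ι ι k₀} (hG : EForm G) (h : Gᵀ = -G) :
    CK ((HP K G).inter (NoRat k₀ K ι)) := by
  obtain ⟨n, e, f, h1, h2⟩ := exists_sb hG h
  let Z : Sp (Aff K (Fin n × Fin n)) :=
    Sp.aff (fun L y => ¬(NoRat k₀ K ι).mem (L := L) (Gr e f y)) fun κ y => by
      rw [← smap_Gr]; exact not_congr ((NoRat k₀ K ι).map_iff κ _)
  have hZ : ∀ (L : Fld K) (y : Fin n × Fin n → L), ¬Z.mem (L := L) (some y) ↔
      (NoRat k₀ K ι).mem (L := L) (Gr e f y) := fun L y =>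
    ⟨fun h => by_contra fun h' => h ⟨y, rfl, h'⟩, fun h ⟨_, e, h'⟩ => h' (Option.some.inj e ▸ h)⟩
  refine CK.image (W := (LP (SyM n k₀) (PQ K (0 : Fin n × Fin n → k₀))).diff Z)
    ⟨fun {L} y => Option.elim y (⊥ : Submodule L (ι → L)) (Gr e f), ?_, ?_, ?_⟩ ?_ (fun L _ Λ hΛ => ?_) (ck_lp'.open ?_)
  · rintro L _ ⟨⟨y, rfl, h3⟩, h4⟩
    exact ⟨(hp_iff hG h h1 h2).2 ⟨y, rfl, h3⟩, (hZ L y).1 h4⟩
  · rintro L L' κ _ ⟨⟨y, rfl, -⟩, -⟩
    exact (smap_Gr κ y).symm
  · rintro M O _ - ⟨⟨y, rfl, -⟩, -⟩ ⟨⟨z, h3, -⟩, -⟩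
    rw [aff_red O (aff_int h3)]
    exact (sred_Gr h1 O (aff_int h3)).symm
  · rintro M O _ - ⟨⟨y, rfl, -⟩, -⟩ h3
    have h4 := int_of hG h1 O h3
    rw [aff_red O h4]
    have h5 : ((HP K G).inter (NoRat k₀ K ι)).mem (L := O.res) (Gr e f (rdV O y)) :=
      sred_Gr h1 O h4 ▸ h3
    exact ⟨(hp_iff hG h h1 h2).1 h5.1, (hZ _ _).2 h5.2⟩
  · obtain ⟨y, rfl⟩ := (h1.map (rat k₀ L)).exists_gr (hG.gm L) hΛ.1.1 (disj hG h1 hΛ)
    exact ⟨some y, ⟨(hp_iff hG h h1 h2).1 hΛ.1, (hZ L y).2 hΛ.2⟩, rfl⟩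
  · rintro M O _ - - ⟨y, rfl, h3⟩ ⟨z, h4, -⟩
    rw [aff_red O (aff_int h4)]
    refine ⟨_, rfl, fun h5 => h3 (sred_eq_bot.1 (le_bot_iff.1 ((sred_jc_le O _ _).trans ?_)))⟩
    rw [← sred_Gr h1 O (aff_int h4)] at h5
    rw [← finrank_sred O]
    exact le_of_eq h5

end Pool.Agent.Lib.MP_557161_ag.DL
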