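import Pool.Agent.Lib.MP_557161_ag.DL.Frob

/-!
The intersection pairing: vanishing, constancy, bilinearity and rational equivalence.
-/

namespace Pool.Agent.Lib.MP_557161_ag.DL.Ctx

open MvPolynomial Filter
open Pool.Agent.Lib.MP_60ec62_ag.DL (dm dv cyc DimLE Cyc cm dm_lt dm_anti dv_supp hD)
open Pool.Agent.Lib.MP_60ec62_ag.DL.CycA (mem_supp cyc_self)

variable {K : Type} [Field K] {p : ℕ} [FBar K p] {τ Γ : Type} [Finite τ] [AddCommMonoid Γ]
  [LinearOrder Γ] [IsOrderedCancelAddMonoid Γ] {w : τ → Γ} (C : Ctx K w) {M N : GMod K w}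
  {δ₁ δ₂ : ℕ}

namespace IntA

omit [Finite τ] [AddCommMonoid Γ] [LinearOrder Γ] [IsOrderedCancelAddMonoid Γ] in
lemma germ_iff {l : Filter Γ} (u : Γ → ℤ) (c : ℤ) :
    (u : Germ l ℤ) = (c : Germ l ℤ) ↔ ∀ᶠ a in l, u a = c :=
  Germ.coe_eq (g := fun _ => c)

omit [Finite τ] [LinearOrder Γ] [IsOrderedCancelAddMonoid Γ] in
lemma ev_add {P : Γ → Prop} (g : Γ) : (∀ᶠ a in C.l, P (g + a)) ↔ ∀ᶠ a in C.l, P a := by
  conv_rhs => rw [← C.map_add g]
  exact eventually_map.symm

/-- A constant Euler characteristic does not see shifts. -/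
lemma chi_shift (hM : Adm C.I M) {c : ℤ} (h : C.chi M N = c) (g : Γ) :
    C.chi M (N.shift g) = c := by
  obtain ⟨u, h1, h2⟩ := C.exists_fun hM
  rw [h1, germ_iff] at h ⊢
  rw [← ev_add C g]
  simpa only [h2] using h

omit [Finite τ] [LinearOrder Γ] [IsOrderedCancelAddMonoid Γ] in
lemma dimLE_cyc {J : Ideal (MvPolynomial τ K)} (hJ : WHomog w J) {δ : ℕ}
    (h : ∀ q : PrimeSpectrum (MvPolynomial τ K), J ≤ q.asIdeal → dm K q ≤ δ) :
    DimLE K (MvPolynomial τ K) δ (GMod.cyc J hJ).V := fun q hq =>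
  h q ((mem_supp J q).1 hq)

omit [LinearOrder Γ] [IsOrderedCancelAddMonoid Γ] in
lemma dimLE_self (a : PrimeSpectrum (MvPolynomial τ K)) (ha : WHomog w a.asIdeal) :
    DimLE K (MvPolynomial τ K) (dm K a) (GMod.cyc a.asIdeal ha).V :=
  dimLE_cyc ha fun _ hq => dm_anti hq

omit [LinearOrder Γ] [IsOrderedCancelAddMonoid Γ] in
lemma cyc_cyc (a : PrimeSpectrum (MvPolynomial τ K)) (ha : WHomog w a.asIdeal) :
    cyc K (dm K a) (GMod.cyc a.asIdeal ha).V = Finsupp.single a 1 :=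
  cyc_self (hD K).1 a

omit [LinearOrder Γ] [IsOrderedCancelAddMonoid Γ] in
lemma dm_lt_of_sup {z q : PrimeSpectrum (MvPolynomial τ K)} {f : MvPolynomial τ K}
    (hf : f ∉ z.asIdeal) (h : z.asIdeal ⊔ Ideal.span {f} ≤ q.asIdeal) : dm K q < dm K z := by
  refine dm_lt (lt_of_le_of_ne (le_sup_left.trans h) ?_)
  rintro rfl
  exact hf ((le_sup_right.trans h) (Ideal.mem_span_singleton_self f))

lemma vanish {A : Type} [AddCommGroup A] {Λ : GMod K w → A} (h : AddF C.I C.E Λ) (n : ℕ)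
    (hb : ∀ (q : PrimeSpectrum (MvPolynomial τ K)) (hq : WHomog w q.asIdeal), C.I ≤ q.asIdeal →
      dm K q < n → ∀ g, Λ ((GMod.cyc q.asIdeal hq).shift g) = 0)
    (hN : Adm C.I N) (hd : ∀ q ∈ Module.support (MvPolynomial τ K) N.V, dm K q < n) :
    Λ N = 0 := by
  cases n with
  | zero =>
    exact h.of_subsingleton (Module.support_eq_empty_iff.1
      (Set.eq_empty_of_forall_notMem fun q hq => absurd (hd q hq) (Nat.not_lt_zero _)))
  | succ n =>
    obtain ⟨k, hk, -⟩ := h.cycle 0 n (fun _ => 0) (fun q hq h1 h2 g => by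
      rw [smul_zero]
      exact hb q hq h1 (Nat.lt_succ_of_le h2) g) hN fun q hq => Nat.le_of_lt_succ (hd q hq)
    rw [hk, smul_zero]

lemma chi_not_rel (hM : Adm C.I M) {b : PrimeSpectrum (MvPolynomial τ K)} (hb : C.HP b)
    (h : ¬ C.Rel b) : C.chi M (GMod.cyc b.asIdeal hb.1) = 0 := by
  refine (C.chi_addF hM).neg _ (adm_cyc hb.1 hb.2) fun f hf => ⟨1, fun v => ?_⟩
  rw [pow_one]
  exact (adm_cyc hb.1 le_rfl).2 f (by_contra fun h' => h ⟨f, hf, h'⟩) v

omit [Finite τ] in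
lemma homog_sup {z : PrimeSpectrum (MvPolynomial τ K)} (hz : WHomog w z.asIdeal)
    {f : MvPolynomial τ K} {γ : Γ} (hf : f.IsWeightedHomogeneous w γ) :
    WHomog w (z.asIdeal ⊔ Ideal.span {f}) :=
  hz.sup (wHomog_span fun _ hg => ⟨γ, (Set.mem_singleton_iff.1 hg).symm ▸ hf⟩)

/-- The sequence of a hypersurface section. -/
lemma chi_mul (hM : Adm C.I M) {z : PrimeSpectrum (MvPolynomial τ K)} (hz : C.HP z)
    {f : MvPolynomial τ K} {γ : Γ} (hf : f.IsWeightedHomogeneous w γ) (hf' : f ∉ z.asIdeal) :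
    C.chi M ((GMod.cyc z.asIdeal hz.1).shift 0) =
      C.chi M ((GMod.cyc z.asIdeal hz.1).shift (γ + 0)) +
        C.chi M ((GMod.cyc _ (homog_sup hz.1 hf)).shift 0) := by
  obtain ⟨s⟩ := ses_mul hz.1 hf (fun a ha => (z.isPrime.mem_or_mem ha).resolve_left hf')
    (homog_sup hz.1 hf) 0
  exact (C.chi_addF hM).add _ _ _ s ((adm_cyc hz.1 hz.2).shift 0)

/-- Constancy of the Euler characteristic. -/
lemma chi_const (hM : Adm C.I M) {b : PrimeSpectrum (MvPolynomial τ K)} (hb : C.HP b)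
    (h : ∀ (q : PrimeSpectrum (MvPolynomial τ K)) (hq : C.HP q), dm K q < dm K b →
      C.chi M (GMod.cyc q.asIdeal hq.1) = 0) :
    C.chi M (GMod.cyc b.asIdeal hb.1) = C.ci M (GMod.cyc b.asIdeal hb.1) := by
  suffices H : ∃ c : ℤ, C.chi M (GMod.cyc b.asIdeal hb.1) = c by
    obtain ⟨c, hc⟩ := H
    rw [C.ci_eq hc, hc]
  by_cases hr : C.Rel b
  swap
  · exact ⟨0, by rw [chi_not_rel C hM hb hr, Int.cast_zero]⟩
  obtain ⟨u, h1, h2⟩ := C.exists_fun hM
  obtain ⟨c, hc⟩ := C.const b hr (u (GMod.cyc b.asIdeal hb.1)) fun i hi => by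
    have hX := isWeightedHomogeneous_X K w i
    have e := chi_mul C hM hb hX hi
    rw [vanish C (C.chi_addF hM) (dm K b) (fun q hq h3 h4 g => by
      have := chi_shift C hM (c := 0) (by rw [h q ⟨hq, h3⟩ h4, Int.cast_zero]) g
      rwa [Int.cast_zero] at this)
      ((adm_cyc (homog_sup hb.1 hX) (hb.2.trans le_sup_left)).shift 0)
      (fun q hq => dm_lt_of_sup hi ((mem_supp _ q).1 hq)), add_zero, h1, h1, Germ.coe_eq] at e
    filter_upwards [(ev_add C (w i)).2 e] with a ha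
    have e1 := h2 (GMod.cyc b.asIdeal hb.1) 0 (w i + a)
    have e2 := h2 (GMod.cyc b.asIdeal hb.1) (w i + 0) a
    rw [zero_add] at e1
    rw [← e1, ← e2, ha]
    congr 1
    rw [add_zero]
  exact ⟨c, by rw [h1, germ_iff]; exact hc⟩

/-- The Euler characteristics of subvarieties of bounded dimensions are given by `c`. -/
def Tab (δ₁ δ₂ : ℕ)
    (c : PrimeSpectrum (MvPolynomial τ K) → PrimeSpectrum (MvPolynomial τ K) → ℤ) : Prop :=
  ∀ (a b : PrimeSpectrum (MvPolynomial τ K)) (ha : C.HP a) (hb : C.HP b), dm K a ≤ δ₁ →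
    dm K b ≤ δ₂ → C.chi (GMod.cyc a.asIdeal ha.1) (GMod.cyc b.asIdeal hb.1) =
      ((if dm K a = δ₁ ∧ dm K b = δ₂ then c a b else 0 : ℤ) : Germ C.l ℤ)

/-- The cycle formula in both variables. -/
lemma chi_cycle
    {c : PrimeSpectrum (MvPolynomial τ K) → PrimeSpectrum (MvPolynomial τ K) → ℤ}
    (h : Tab C δ₁ δ₂ c) (hM : Adm C.I M) (hN : Adm C.I N)
    (dM : DimLE K (MvPolynomial τ K) δ₁ M.V) (dN : DimLE K (MvPolynomial τ K) δ₂ N.V) :
    ∃ n : ℤ, C.chi M N = n ∧ (n : ℚ) = Finsupp.linearCombination ℚ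
      (fun a => Finsupp.linearCombination ℚ (fun b => (c a b : ℚ)) (cyc K δ₂ N.V))
        (cyc K δ₁ M.V) := by
  classical
  have s1 : ∀ (a : PrimeSpectrum (MvPolynomial τ K)) (ha : C.HP a), dm K a ≤ δ₁ →
      ∃ n : ℤ, C.chi (GMod.cyc a.asIdeal ha.1) N = n ∧ (n : ℚ) = if dm K a = δ₁ then
        Finsupp.linearCombination ℚ (fun b => (c a b : ℚ)) (cyc K δ₂ N.V) else 0 := by
    intro a ha hd
    have hA := adm_cyc ha.1 ha.2
    obtain ⟨n, h1, h2⟩ := (C.chi_addF hA).cycle 1 δ₂ (fun b => if dm K a = δ₁ then c a b else 0)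
      (fun q hq h3 h4 g => by
        rw [zsmul_one]
        refine chi_shift C hA ((h a q ha ⟨hq, h3⟩ hd h4).trans (congrArg _ ?_)) g
        by_cases e1 : dm K a = δ₁ <;> by_cases e2 : dm K q = δ₂ <;> simp [e1, e2]) hN dN
    refine ⟨n, by rw [h1, zsmul_one], h2.trans ?_⟩
    by_cases e1 : dm K a = δ₁
    · simp only [e1, if_true]
    · simp [e1, Finsupp.linearCombination_apply]
  obtain ⟨n, h1, h2⟩ := (C.chi_addF hN).cycle 1 δ₁
    (fun a => if ha : C.HP a then C.ci (GMod.cyc a.asIdeal ha.1) N else 0)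
    (fun q hq h3 h4 g => by
      rw [zsmul_one]
      obtain ⟨n, e1, e2⟩ := s1 q ⟨hq, h3⟩ h4
      refine chi_shift C hN ((C.chi_symm hN (adm_cyc hq h3)).trans (e1.trans (congrArg _ ?_))) g
      split_ifs at e2 ⊢ with e3 e4
      · exact (C.ci_eq e1).symm
      · exact absurd ⟨hq, h3⟩ e4
      · exact_mod_cast e2) hM dM
  refine ⟨n, by rw [C.chi_symm hM hN, h1, zsmul_one], h2.trans ?_⟩
  rw [Finsupp.linearCombination_apply, Finsupp.linearCombination_apply]
  refine Finsupp.sum_congr fun a ha => congrArg _ ?_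
  obtain ⟨a1, a2, a3⟩ := cyc_support hM dM (Finsupp.mem_support_iff.1 ha)
  obtain ⟨k, e1, e2⟩ := s1 a ⟨a1, a2⟩ a3.le
  rw [dif_pos ⟨a1, a2⟩, C.ci_eq e1, e2, if_pos a3]

/-- The relation given by the projection formula for the Frobenius. -/
lemma frob_rel {m : ℕ} (hI : DefOver (p ^ m) C.I) {a b : PrimeSpectrum (MvPolynomial τ K)}
    (ha : C.HP a) (hb : C.HP b) (hr : C.Rel a)
    {c : PrimeSpectrum (MvPolynomial τ K) → PrimeSpectrum (MvPolynomial τ K) → ℤ}
    (h : Tab C (dm K a) (dm K b) c) :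
    ((p ^ m) ^ (C.r + (C.e - dm K a)) : ℕ) * c a b =
      ((p ^ m) ^ dm K b : ℕ) * c (cm (expand (p ^ m)) a) (cm (expand (p ^ m)) b) := by
  have hQ : 0 < p ^ m := pow_pos (FBar.prime K).pos m
  have ha0 := (C.hp_cm_iff hI a).2 ha
  obtain ⟨F, hF⟩ := exists_cycRes C.hI C.E ha0.1 ha0.2
  have hB := adm_cyc hb.1 hb.2
  have hF' := hF.map (frobPb K w (p ^ m)) (I' := C.I) (E' := C.E)
    (by rw [frobPb_φ]; exact hI.map_le hQ) (C.frob_qex hI hF.cx hF.ex)
  rw [frobPb_φ] at hF'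
  have hJ := C.hI.sup (ha0.1.map_expand (Q := p ^ m))
  obtain ⟨n₁, e1, e2⟩ := chi_cycle C h (adm_cyc hJ le_sup_left) hB
    (dimLE_cyc hJ fun q hq => dm_anti (le_of_map_cm_le m a q (le_sup_right.trans hq)))
    (dimLE_self b hb.1)
  obtain ⟨n₂, e3, e4⟩ := chi_cycle C h (adm_cyc ha0.1 ha0.2) (C.adm_res hI hQ hB)
    (dm_cm_expand hQ a ▸ dimLE_self _ ha0.1) (C.dimLE_res hQ hB.1 (dimLE_self b hb.1))
  have e5 : (cyc K (dm K a) (GMod.cyc _ hJ).V : Cyc (MvPolynomial τ K)) = _ :=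
    C.cyc_frob_pull hI ha.2 hr
  have e6 := cyc_cyc _ ha0.1
  rw [dm_cm_expand hQ] at e6
  rw [e5, cyc_cyc, Finsupp.linearCombination_single, Finsupp.linearCombination_single] at e2
  rw [e6, C.cyc_frob_push hQ b hb.1, Finsupp.linearCombination_single,
    Finsupp.linearCombination_single] at e4
  rw [C.chi_eq (hF'.resolves C.hI hJ) (C.et.qproj hF'.cx hF'.ex) hB, Cx.theta_mu, germ_iff] at e1
  rw [C.chi_eq (hF.resolves C.hI ha0.1) (C.et.qproj hF.cx hF.ex) (C.adm_res hI hQ hB),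
    Cx.theta_mu, germ_iff] at e3
  have := C.neBot
  obtain ⟨x, x1, x2⟩ := (e3.and (C.fib_ev _ hQ _ e1)).exists
  rw [C.theta_res hQ F C.e hB.1, Finset.sum_congr rfl x2, Finset.sum_const, C.card_fib] at x1
  have e7 : (((p ^ m) ^ C.r : ℕ) : ℚ) * n₁ = n₂ := by
    rw [← x1, nsmul_eq_mul]
    push_cast
    rfl
  rw [e2, e4] at e7
  simp only [smul_eq_mul, one_mul] at e7
  rw [pow_add]
  rw [← mul_assoc] at e7
  exact_mod_cast e7

open Classical in
/-- The eventual value of the Euler characteristic of two subvarieties. -/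
noncomputable def cc (a b : PrimeSpectrum (MvPolynomial τ K)) : ℤ :=
  if h : C.HP a ∧ C.HP b then C.ci (GMod.cyc a.asIdeal h.1.1) (GMod.cyc b.asIdeal h.2.1) else 0

/-- Vanishing below the total dimension `n`. -/
def Van (n : ℕ) : Prop :=
  ∀ (a b : PrimeSpectrum (MvPolynomial τ K)) (ha : C.HP a) (hb : C.HP b), dm K a + dm K b < n →
    C.chi (GMod.cyc a.asIdeal ha.1) (GMod.cyc b.asIdeal hb.1) = 0

variable {C} in
lemma Van.tab (h : Van C (δ₁ + δ₂)) : Tab C δ₁ δ₂ (cc C) := by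
  intro a b ha hb h1 h2
  split_ifs with e
  · rw [cc, dif_pos ⟨ha, hb⟩]
    exact chi_const C (adm_cyc ha.1 ha.2) hb fun q hq hd => h a q ha hq (by omega)
  · rw [Int.cast_zero]
    exact h a b ha hb (by omega)

include p in
lemma van (n : ℕ) (hn : n ≤ C.e + C.r) : Van C n := by
  induction n with
  | zero => exact fun a b _ _ h => absurd h (Nat.not_lt_zero _)
  | succ n ih =>
    intro a b ha hb h
    have ih := ih (by omega)
    rcases (Nat.le_of_lt_succ h).eq_or_lt with e | e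
    swap
    · exact ih a b ha hb e
    by_cases hr : C.Rel a
    swap
    · rw [C.chi_symm (adm_cyc ha.1 ha.2) (adm_cyc hb.1 hb.2)]
      exact chi_not_rel C (adm_cyc hb.1 hb.2) ha hr
    subst e
    obtain ⟨m₁, p1, h1⟩ := exists_defOver (p := p) C.I
    obtain ⟨m₂, p2, h2⟩ := exists_defOver (p := p) a.asIdeal
    obtain ⟨m₃, p3, h3⟩ := exists_defOver (p := p) b.asIdeal
    have hp := (FBar.prime K : p.Prime)
    have hQ : 1 < p ^ (m₁ * m₂ * m₃) := Nat.one_lt_pow (by positivity) hp.one_lt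
    have e := frob_rel C (h1 (m₁ * m₂ * m₃) ⟨m₂ * m₃, by ring⟩) ha hb hr ih.tab
    rw [(h2 _ ⟨m₁ * m₃, by ring⟩).cm_eq (by omega), (h3 _ ⟨m₁ * m₂, by ring⟩).cm_eq (by omega)] at e
    have hd := C.et.dm_le ha.2 hr
    have e0 : cc C a b = 0 := by
      by_contra h0
      have := Nat.pow_right_injective hQ (Nat.cast_injective (mul_right_cancel₀ h0 e))
      omega
    have := ih.tab a b ha hb le_rfl le_rfl
    rwa [e0, ite_self, Int.cast_zero] at this

omit [Finite τ] in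
lemma ip_eq {a b : PrimeSpectrum (MvPolynomial τ K)} (h : dm K a + dm K b = C.e + C.r) :
    C.ip a b = cc C a b := by
  unfold ip cc
  by_cases h' : C.HP a ∧ C.HP b
  · rw [dif_pos h', dif_pos ⟨h'.1, h'.2, h⟩]
  · rw [dif_neg h', dif_neg fun h'' => h' ⟨h''.1, h''.2.1⟩]

include p in
lemma tab_ip (h : δ₁ + δ₂ = C.e + C.r) : Tab C δ₁ δ₂ C.ip := by
  intro a b ha hb h1 h2
  rw [(van C _ h.le).tab a b ha hb h1 h2]
  split_ifs with e
  · rw [ip_eq C (by omega)]
  · rfl

lemma ci_congr {M' N' : GMod K w} (h : C.chi M N = C.chi M' N') : C.ci M N = C.ci M' N' := by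
  by_cases e : ∃ c : ℤ, C.chi M N = c
  · obtain ⟨c, e⟩ := e
    rw [C.ci_eq e, C.ci_eq (h.symm.trans e)]
  · rw [ci, ci, dif_neg e, dif_neg (h ▸ e)]

omit [Finite τ] in
lemma bil_single (a : PrimeSpectrum (MvPolynomial τ K)) (x : ℚ) (y : Cyc (MvPolynomial τ K)) :
    C.bil (Finsupp.single a x) y =
      x * Finsupp.linearCombination ℚ (fun b => (C.ip a b : ℚ)) y := by
  rw [bil, Finsupp.linearCombination_single, LinearMap.smul_apply, smul_eq_mul]

omit [Finite τ] in
lemma bil_apply (x y : Cyc (MvPolynomial τ K)) : C.bil x y = Finsupp.linearCombination ℚ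
    (fun a => Finsupp.linearCombination ℚ (fun b => (C.ip a b : ℚ)) y) x := by
  induction x using Finsupp.induction_linear with
  | zero => simp
  | add f g hf hg => rw [_root_.map_add, LinearMap.add_apply, _root_.map_add, hf, hg]
  | single a x => rw [bil_single, Finsupp.linearCombination_single, smul_eq_mul]

end IntA

open IntA

include p

theorem chi_zero (hM : Adm C.I M) (hN : Adm C.I N) (dM : DimLE K (MvPolynomial τ K) δ₁ M.V)
    (dN : DimLE K (MvPolynomial τ K) δ₂ N.V) (h : δ₁ + δ₂ < C.e + C.r) : C.chi M N = 0 := by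
  obtain ⟨n, h1, h2⟩ := chi_cycle C (c := fun _ _ => 0) (fun a b ha hb h1 h2 => by
    rw [ite_self, Int.cast_zero]
    exact van C _ le_rfl a b ha hb (by omega)) hM hN dM dN
  have : n = 0 := by
    simpa [Finsupp.linearCombination_apply] using h2
  rw [h1, this, Int.cast_zero]

theorem chi_bil (hM : Adm C.I M) (hN : Adm C.I N) (dM : DimLE K (MvPolynomial τ K) δ₁ M.V)
    (dN : DimLE K (MvPolynomial τ K) δ₂ N.V) (h : δ₁ + δ₂ = C.e + C.r) :
    C.chi M N = C.ci M N ∧ (C.ci M N : ℚ) = C.bil (cyc K δ₁ M.V) (cyc K δ₂ N.V) := by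
  obtain ⟨n, h1, h2⟩ := chi_cycle C (tab_ip C h) hM hN dM dN
  rw [C.ci_eq h1, bil_apply]
  exact ⟨h1, h2⟩

theorem ip_symm (a b : PrimeSpectrum (MvPolynomial τ K)) : C.ip a b = C.ip b a := by
  unfold ip
  by_cases h : C.HP a ∧ C.HP b ∧ dm K a + dm K b = C.e + C.r
  · rw [dif_pos h, dif_pos ⟨h.2.1, h.1, by omega⟩]
    exact ci_congr C (C.chi_symm (adm_cyc _ h.1.2) (adm_cyc _ h.2.1.2))
  · rw [dif_neg h, dif_neg fun h' => h ⟨h'.2.1, h'.1, by omega⟩]

theorem bil_symm (a b : Cyc (MvPolynomial τ K)) : C.bil a b = C.bil b a := by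
  induction a using Finsupp.induction_linear with
  | zero => simp
  | add f g hf hg => rw [_root_.map_add, LinearMap.add_apply, _root_.map_add, hf, hg]
  | single a x =>
    induction b using Finsupp.induction_linear with
    | zero => simp
    | add f g hf hg => rw [_root_.map_add, _root_.map_add, LinearMap.add_apply, hf, hg]
    | single b y =>
      rw [bil_single, bil_single, Finsupp.linearCombination_single,
        Finsupp.linearCombination_single, C.ip_symm a b, smul_eq_mul, smul_eq_mul]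
      ring

theorem ip_of_not_rel (a : PrimeSpectrum (MvPolynomial τ K)) {b : PrimeSpectrum (MvPolynomial τ K)}
    (h : ¬ C.Rel b) : C.ip a b = 0 := by
  unfold ip
  split_ifs with h'
  · exact C.ci_eq (by rw [chi_not_rel C (adm_cyc _ h'.1.2) h'.2.1 h, Int.cast_zero])
  · rfl

theorem bil_rat (c : Cyc (MvPolynomial τ K)) {z : PrimeSpectrum (MvPolynomial τ K)} (hz : C.HP z)
    {f g : MvPolynomial τ K} {γ : Γ} (hf : f.IsWeightedHomogeneous w γ)
    (hg : g.IsWeightedHomogeneous w γ) (hf' : f ∉ z.asIdeal) (hg' : g ∉ z.asIdeal) :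
    C.bil c (dv K z f - dv K z g) = 0 := by
  induction c using Finsupp.induction_linear with
  | zero => simp
  | add u v hu hv => rw [_root_.map_add, LinearMap.add_apply, hu, hv, add_zero]
  | single a x =>
    rw [← mul_one x, ← smul_eq_mul, ← Finsupp.smul_single, map_smul, LinearMap.smul_apply, map_sub]
    refine smul_eq_zero_of_right _ (sub_eq_zero.2 ?_)
    by_cases h : C.HP a ∧ dm K a + (dm K z - 1) = C.e + C.r
    · have hA := adm_cyc h.1.1 h.1.2
      have key : ∀ {f : MvPolynomial τ K} (hf : f.IsWeightedHomogeneous w γ), f ∉ z.asIdeal →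
          C.bil (Finsupp.single a 1) (dv K z f) = C.ci (GMod.cyc a.asIdeal h.1.1)
            ((GMod.cyc _ (homog_sup hz.1 hf)).shift 0) := by
        intro f hf hf'
        rw [(C.chi_bil hA ((adm_cyc (homog_sup hz.1 hf) (hz.2.trans le_sup_left)).shift 0)
          (dimLE_self a h.1.1) (δ₂ := dm K z - 1) (dimLE_cyc (homog_sup hz.1 hf) fun q hq => by
            have := dm_lt_of_sup hf' hq
            omega) h.2).2, cyc_cyc, dv, if_neg hf']
        rfl
      rw [key hf hf', key hg hg']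
      exact congrArg _ (ci_congr C (add_left_cancel
        ((chi_mul C hA hz hf hf').symm.trans (chi_mul C hA hz hg hg'))))
    · have key : ∀ f : MvPolynomial τ K, C.bil (Finsupp.single a 1) (dv K z f) = 0 := by
        intro f
        rw [bil_single, one_mul, Finsupp.linearCombination_apply]
        refine Finset.sum_eq_zero fun q hq => ?_
        have := (dv_supp (Finsupp.mem_support_iff.1 hq)).2.2.2
        have e : C.ip a q = 0 := dif_neg fun h' => h ⟨h'.1, by omega⟩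
        simp [e]
      rw [key, key]

/-- The pairing is invariant under the Frobenius of a field of definition. -/
theorem ip_cm {m : ℕ} (hI : DefOver (p ^ m) C.I) (a b : PrimeSpectrum (MvPolynomial τ K)) :
    C.ip (cm (expand (p ^ m)) a) (cm (expand (p ^ m)) b) = C.ip a b := by
  have hQ : 0 < p ^ m := pow_pos (FBar.prime K).pos m
  by_cases h : C.HP a ∧ C.HP b ∧ dm K a + dm K b = C.e + C.r
  · by_cases hr : C.Rel a
    · have e := frob_rel C hI h.1 h.2.1 hr (tab_ip C h.2.2)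
      have hd := C.et.dm_le h.1.2 hr
      rw [show C.r + (C.e - dm K a) = dm K b by omega] at e
      exact (mul_left_cancel₀ (by positivity) e).symm
    · rw [C.ip_symm a b, C.ip_symm _ (cm _ b), C.ip_of_not_rel _ hr,
        C.ip_of_not_rel _ fun h' => hr ((C.rel_cm_iff a).1 h')]
  · rw [ip, ip, dif_neg h, dif_neg]
    rwa [C.hp_cm_iff hI, C.hp_cm_iff hI, dm_cm_expand hQ, dm_cm_expand hQ]

end Pool.Agent.Lib.MP_557161_ag.DL.Ctx
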