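import Pool.Agent.Lib.MP_557161_ag.DL.TwoD

/-!
The Kuenneth formula for intersection numbers.
-/

namespace Pool.Agent.Lib.MP_557161_ag.DL.Kun

open MvPolynomial Filter TensorProduct

variable {K : Type} [Field K] {τ₁ τ₂ τ Γ₁ Γ₂ Γ : Type} [AddCommMonoid Γ₁] [AddCommMonoid Γ₂]
  [AddCommMonoid Γ] {w₁ : τ₁ → Γ₁} {w₂ : τ₂ → Γ₂} {w : τ → Γ}

/-- `N` is the exterior tensor product of `M` and `W`. -/
def Box (P₁ : Pb K w₁ w) (P₂ : Pb K w₂ w) (M : GMod K w₁) (W : GMod K w₂) (N : GMod K w) : Prop :=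
  ∃ e : M.V ⊗[K] W.V ≃ₗ[K] N.V,
    (∀ m n x y, N.π (P₁.ρ m + P₂.ρ n) (e (x ⊗ₜ y)) = e (M.π m x ⊗ₜ W.π n y)) ∧
    (∀ f x y, P₁.φ f • e (x ⊗ₜ y) = e ((f • x) ⊗ₜ y)) ∧
    ∀ f x y, P₂.φ f • e (x ⊗ₜ y) = e (x ⊗ₜ (f • y))

variable {P₁ : Pb K w₁ w} {P₂ : Pb K w₂ w} {M : GMod K w₁} {W : GMod K w₂} {N : GMod K w}

lemma Box.symm (h : Box P₁ P₂ M W N) : Box P₂ P₁ W M N := by
  obtain ⟨e, h1, h2, h3⟩ := h
  refine ⟨TensorProduct.comm K _ _ ≪≫ₗ e, fun m n x y => ?_, fun f x y => h3 f y x,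
    fun f x y => h2 f y x⟩
  rw [add_comm]
  exact h1 n m y x

lemma part_eq (N : GMod K w) (a : Γ) : N.part a = LinearMap.range (N.π a) := by
  ext v
  exact ⟨fun h => ⟨v, h⟩, fun ⟨u, hu⟩ => hu ▸ N.π_mem_part a u⟩

lemma Box.hf_eq (h : Box P₁ P₂ M W N) (m : Γ₁) (n : Γ₂) :
    hf N (P₁.ρ m + P₂.ρ n) = hf M m * hf W n := by
  obtain ⟨e, h1, -, -⟩ := h
  have e1 : N.π (P₁.ρ m + P₂.ρ n) ∘ₗ e.toLinearMap = e.toLinearMap ∘ₗ map (M.π m) (W.π n) :=
    TensorProduct.ext' fun x y => h1 m n x y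
  have e2 : N.part (P₁.ρ m + P₂.ρ n) =
      LinearMap.range (e.toLinearMap ∘ₗ mapIncl (M.part m) (W.part n)) := by
    rw [part_eq, ← LinearMap.range_comp_of_range_eq_top _ e.range, e1, LinearMap.range_comp,
      LinearMap.range_comp, range_mapIncl, range_map, part_eq, part_eq]
  rw [hf, hf, hf, e2, LinearMap.finrank_range_of_inj (f := e.toLinearMap ∘ₗ _) (e.injective.comp
    (Module.Flat.tensorProduct_mapIncl_injective_of_right _ _)), Module.finrank_tensorProduct,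
    Nat.cast_mul]

lemma exists_pi {A B C : Type} [AddCommGroup A] [Module K A] [AddCommGroup B] [Module K B]
    [AddCommGroup C] [Module K C] (e : A ⊗[K] B ≃ₗ[K] C) (β : Type) [Fintype β] :
    ∃ e' : (β → A) ⊗[K] B ≃ₗ[K] (β → C), ∀ x y, e' (x ⊗ₜ y) = fun b => e (x b ⊗ₜ y) := by
  classical
  exact ⟨piLeft K B (fun _ => A) ≪≫ₗ LinearEquiv.piCongrRight fun _ => e, fun x y => rfl⟩

lemma exists_equiv {A B C : Type} [AddCommGroup A] [Module K A] [AddCommGroup B] [Module K B]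
    [AddCommGroup C] [Module K C] {g : A →ₗ[K] B} {g' : A →ₗ[K] C} (hg : Function.Surjective g)
    (hg' : Function.Surjective g') (h : LinearMap.ker g = LinearMap.ker g') :
    ∃ e : B ≃ₗ[K] C, ∀ x, e (g x) = g' x :=
  ⟨(g.quotKerEquivOfSurjective hg).symm ≪≫ₗ Submodule.quotEquivOfEq _ _ h ≪≫ₗ
    g'.quotKerEquivOfSurjective hg', fun x => by simp⟩

variable [IsCancelAdd Γ₁] [IsCancelAdd Γ]

omit [IsCancelAdd Γ] in
lemma exists_qq (N : GMod K w) (U : Submodule (MvPolynomial τ K) N.V) (hU : N.Hmg U) :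
    ∃ g : N.V →ₗ[K] (N.quot U hU).V, Function.Surjective g ∧ (∀ x, g x = 0 ↔ x ∈ U) ∧
      (∀ a x, (N.quot U hU).π a (g x) = g (N.π a x)) ∧
      ∀ (p : MvPolynomial τ K) x, p • g x = g (p • x) :=
  ⟨U.mkQ.restrictScalars K, U.mkQ_surjective, fun _ => Submodule.Quotient.mk_eq_zero U,
    fun _ _ => rfl, fun _ _ => rfl⟩

lemma exists_cq (A : Pres K w) (N : GMod K w) : ∃ g : (A.β₀ → N.V) →ₗ[K] (A.coker N).V,
    Function.Surjective g ∧ Function.Exact (mat A.D N.V) g ∧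
      (∀ a x, (A.coker N).π a (g x) = g fun b => N.shiftπ (A.d₀ b) a (x b)) ∧
      ∀ (p : MvPolynomial τ K) x, p • g x = g fun b => p • x b := by
  obtain ⟨g, h1, h2, h3, h4⟩ := exists_qq (N.fr A.d₀) _ (matHom N A.hom).hmg_range
  exact ⟨g, h1, h2, h3, h4⟩

lemma Box.coker (H : ∀ g m n c, P₁.ρ g + c = P₁.ρ m + P₂.ρ n → ∃ m', g + m' = m)
    (h : Box P₁ P₂ M W N) (A : Pres K w₁) :
    Box P₁ P₂ (A.coker M) W ((A.map P₁).coker N) := by
  obtain ⟨e, h1, h2, h3⟩ := h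
  obtain ⟨e₀, he₀⟩ := exists_pi e A.β₀
  obtain ⟨e₁, he₁⟩ := exists_pi e A.β₁
  let f : (A.β₁ → M.V) →ₗ[K] (A.β₀ → M.V) := (mat A.D M.V).restrictScalars K
  let f' : (A.β₁ → N.V) →ₗ[K] (A.β₀ → N.V) := (mat (A.D.map P₁.φ) N.V).restrictScalars K
  obtain ⟨g, sg, xg, p1, s1⟩ := exists_cq A M
  obtain ⟨g', sg', xg', p2, s2⟩ : ∃ g : (A.β₀ → N.V) →ₗ[K] ((A.map P₁).coker N).V,
      Function.Surjective g ∧ Function.Exact f' g ∧ (∀ a x, ((A.map P₁).coker N).π a (g x) =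
        g fun b => N.shiftπ (P₁.ρ (A.d₀ b)) a (x b)) ∧
      ∀ (p : MvPolynomial τ K) x, p • g x = g fun b => p • x b := exists_cq (A.map P₁) N
  have c : e₀.toLinearMap ∘ₗ f.rTensor W.V = f' ∘ₗ e₁.toLinearMap :=
    TensorProduct.ext' fun x y => by
      show e₀ (f x ⊗ₜ y) = f' (e₁ (x ⊗ₜ y))
      rw [he₀, he₁]
      funext b
      show e ((∑ c, A.D b c • x c) ⊗ₜ y) = ∑ c, P₁.φ (A.D b c) • e (x c ⊗ₜ y)
      rw [sum_tmul, map_sum]
      exact Finset.sum_congr rfl fun c _ => (h2 _ _ _).symm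
  obtain ⟨e', he'⟩ := exists_equiv (g := g.rTensor W.V) (g' := g' ∘ₗ e₀.toLinearMap)
    (LinearMap.rTensor_surjective _ sg) (sg'.comp e₀.surjective) (by
      ext t
      refine ((rTensor_exact W.V (f := f) xg sg) t).trans (Iff.trans ?_ (xg' (e₀ t)).symm)
      constructor
      · rintro ⟨s, rfl⟩
        exact ⟨e₁ s, (LinearMap.congr_fun c s).symm⟩
      · rintro ⟨v, hv⟩
        obtain ⟨s, rfl⟩ := e₁.surjective v
        exact ⟨s, e₀.injective ((LinearMap.congr_fun c s).trans hv)⟩)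
  have k : ∀ x y, e' (g x ⊗ₜ y) = g' fun b => e (x b ⊗ₜ y) := fun x y =>
    (he' (x ⊗ₜ y)).trans (congrArg g' (he₀ x y))
  refine ⟨e', fun m n x y => ?_, fun p x y => ?_, fun p x y => ?_⟩ <;>
    obtain ⟨x, rfl⟩ := sg x
  · rw [k, p1, p2, k]
    refine congrArg g' (funext fun b => ?_)
    by_cases c1 : ∃ m', A.d₀ b + m' = m
    · obtain ⟨m', rfl⟩ := c1
      rw [map_add, add_assoc, N.shiftπ_add, M.shiftπ_add, h1]
    · rw [M.shiftπ_of_not c1, N.shiftπ_of_not fun ⟨c, hc⟩ => c1 (H _ _ _ c hc)]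
      simp
  · simp only [k, s1, s2, h2]
  · simp only [k, s2, h3]

omit [IsCancelAdd Γ₁] [IsCancelAdd Γ] in
lemma pres_ext {β : Type} [Fintype β] (d : β → Γ) {d₁ d₂ : Empty → Γ}
    {D₁ D₂ : Matrix β Empty (MvPolynomial τ K)} (h₁ : MatHom w d d₁ D₁) (h₂ : MatHom w d d₂ D₂) :
    (⟨β, Empty, d, d₁, D₁, h₁⟩ : Pres K w) = ⟨β, Empty, d, d₂, D₂, h₂⟩ := by
  obtain rfl : d₁ = d₂ := funext fun x => x.elim
  obtain rfl : D₁ = D₂ := Matrix.ext fun _ x => x.elim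
  exact Eq.refl _

omit [IsCancelAdd Γ₁] [IsCancelAdd Γ] in
lemma free_map (P : Pb K w₁ w) {β : Type} [Fintype β] (d : β → Γ₁) :
    Pres.free K w (P.ρ ∘ d) = (Pres.free K w₁ d).map P :=
  pres_ext _ (fun _ c => c.elim) fun _ c => c.elim

lemma theta_eval (P : Pb K w₁ w) (F : Cx K w₁) (c : ℕ) (Λ : GMod K w → Γ → ℤ) (a : Γ) (m : Γ₁)
    (k : ℤ) (h : ∀ B : Pres K w₁, Λ ((B.map P).coker N) a = k * hf (B.coker M) m) :
    (F.map P).theta c Λ N a = k * F.theta c hf M m := by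
  have e : ∀ i, (F.map P).free i = (F.free i).map P := fun i => free_map P (F.deg i)
  have e' : (F.map P).pres c = (F.pres c).map P := rfl
  simp only [Cx.theta, Pi.add_apply, Finset.sum_apply, Pi.smul_apply, e, e', h, smul_eq_mul,
    mul_add, Finset.mul_sum, mul_left_comm k]

omit [IsCancelAdd Γ₁] in
lemma theta_germ (F : Cx K w) (c : ℕ) (l : Filter Γ) (u : GMod K w → Γ → ℤ) (N : GMod K w) :
    F.theta c (fun N => (u N : Germ l ℤ)) N = (F.theta c u N : Γ → ℤ) := by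
  show _ = Germ.coeAddHom l (F.theta c u N)
  simp only [Cx.theta, map_add, map_sum, map_zsmul]
  rfl

/-- The class of a polynomial. -/
noncomputable def q (J : Ideal (MvPolynomial τ K)) (hJ : WHomog w J) (f : MvPolynomial τ K) :
    (GMod.cyc J hJ).V := Ideal.Quotient.mk J f

omit [IsCancelAdd Γ] in
lemma q_surj (J : Ideal (MvPolynomial τ K)) (hJ : WHomog w J) : Function.Surjective (q J hJ) :=
  Ideal.Quotient.mk_surjective

omit [IsCancelAdd Γ] in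
lemma q_π (J : Ideal (MvPolynomial τ K)) (hJ : WHomog w J) (a : Γ) (f : MvPolynomial τ K) :
    (GMod.cyc J hJ).π a (q J hJ f) = q J hJ (weightedHomogeneousComponent w a f) := rfl

omit [IsCancelAdd Γ] in
lemma q_smul (J : Ideal (MvPolynomial τ K)) (hJ : WHomog w J) (p f : MvPolynomial τ K) :
    p • q J hJ f = q J hJ (p * f) := rfl

omit [IsCancelAdd Γ] in
lemma poly_ind (w : τ → Γ) {p : MvPolynomial τ K → Prop} (h0 : p 0)
    (hadd : ∀ u v, p u → p v → p (u + v)) (h : ∀ a f, f.IsWeightedHomogeneous w a → p f)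
    (f : MvPolynomial τ K) : p f :=
  (GMod.poly K w).induction (p := p) h0 hadd (fun a v hv => h a v
    ((show weightedHomogeneousComponent w a v = v from hv) ▸
      weightedHomogeneousComponent_isWeightedHomogeneous a v)) f

variable {σ σ' : Type}

lemma box_cyc [Finite σ] {a : Ideal (MvPolynomial σ K)} {b : Ideal (MvPolynomial σ' K)}
    (ha : WHomog (w1 σ) a) (hb : WHomog (w1 σ') b) :
    Box (pbL K σ σ') (pbR K σ σ') (GMod.cyc a ha) (GMod.cyc b hb)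
      (GMod.cyc (bx a b) (ha.bx hb)) := by
  classical
  obtain ⟨φ, h1, h2⟩ := exists_bx_equiv a b
  have eL : ∀ f, (pbL K σ σ').φ f = rename Sum.inl f := fun f => by
    rw [rename_eq_aeval]
    rfl
  have eR : ∀ f, (pbR K σ σ').φ f = rename Sum.inr f := fun f => by
    rw [rename_eq_aeval]
    rfl
  have k0 : ∀ f g, φ.symm (Ideal.Quotient.mk a f ⊗ₜ Ideal.Quotient.mk b g) =
      Ideal.Quotient.mk _ ((pbL K σ σ').φ f * (pbR K σ σ').φ g) := fun f g => by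
    rw [AlgEquiv.symm_apply_eq, map_mul, map_mul, eL, eR, h1, h2,
      Algebra.TensorProduct.tmul_mul_tmul, mul_one, one_mul]
  let e : (GMod.cyc a ha).V ⊗[K] (GMod.cyc b hb).V ≃ₗ[K] (GMod.cyc (bx a b) (ha.bx hb)).V :=
    φ.symm.toLinearEquiv
  have k : ∀ f g, e (q a ha f ⊗ₜ q b hb g) =
      q (bx a b) (ha.bx hb) ((pbL K σ σ').φ f * (pbR K σ σ').φ g) := k0
  clear_value e
  refine ⟨e, fun m n x y => ?_, fun p x y => ?_, fun p x y => ?_⟩ <;>
    obtain ⟨f, rfl⟩ := q_surj a ha x <;> obtain ⟨g, rfl⟩ := q_surj b hb y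
  · rw [k, q_π, q_π, q_π, k]
    refine congrArg _ ?_
    induction f using poly_ind (w1 σ) with
    | h0 => simp
    | hadd u v hu hv => simp only [map_add, add_mul, hu, hv]
    | h m' f hf' =>
      induction g using poly_ind (w1 σ') with
      | h0 => simp
      | hadd u v hu hv => simp only [map_add, mul_add, hu, hv]
      | h n' g hg' =>
        rw [weightedHomogeneousComponent_of_mem (((pbL K σ σ').map_hom hf').mul
          ((pbR K σ σ').map_hom hg')), weightedHomogeneousComponent_of_mem hf',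
          weightedHomogeneousComponent_of_mem hg']
        have e : (pbL K σ σ').ρ m + (pbR K σ σ').ρ n = (pbL K σ σ').ρ m' + (pbR K σ σ').ρ n' ↔
            m = m' ∧ n = n' := by
          show ((m + 0, 0 + n) : ℕ × ℕ) = (m' + 0, 0 + n') ↔ _
          simp
        simp only [e]
        by_cases c1 : m = m' <;> by_cases c2 : n = n' <;> simp [c1, c2]
  · rw [k, q_smul, q_smul, k, map_mul, mul_assoc]
  · rw [k, q_smul, q_smul, k, map_mul, mul_left_comm]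

lemma theta_box {M : GMod K (w1 σ)} {W : GMod K (w1 σ')} {N : GMod K (w2 σ σ')}
    (h : Box (pbL K σ σ') (pbR K σ σ') M W N) (F : Cx K (w1 σ)) (G : Cx K (w1 σ')) (c c' m n : ℕ) :
    (G.map (pbR K σ σ')).theta c' ((F.map (pbL K σ σ')).theta c hf) N (toLex (m, n)) =
      F.theta c hf M m * G.theta c' hf W n := by
  refine theta_eval _ G c' _ _ n _ fun B => ?_
  rw [mul_comm]
  refine theta_eval _ F c _ _ m _ fun A => ?_
  have h1 := (h.symm.coker (fun g m n c e => ⟨(ofLex c).2,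
    congrArg (fun z => (ofLex z).2) e⟩) B).symm.coker (fun g m n c e =>
      ⟨(ofLex c).1, congrArg (fun z => (ofLex z).1) e⟩) A
  rw [mul_comm, ← h1.hf_eq m n]
  congr 1
  show ((m, n) : ℕ × ℕ) = (m + 0, 0 + n)
  simp

end Pool.Agent.Lib.MP_557161_ag.DL.Kun

namespace Pool.Agent.Lib.MP_557161_ag.DL.Sm

open MvPolynomial Filter
open Pool.Agent.Lib.MP_60ec62_ag.DL (dm dv cyc DimLE Cyc cm)

variable {K : Type} [Field K] {p : ℕ} [FBar K p] [IsAlgClosed K] {σ : Type} [Finite σ] (Y : Sm K σ)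

include p in
theorem kun_ev {z a : PrimeSpectrum (MvPolynomial σ K)} (hz : Y.C1.HP z) (ha : Y.C1.HP a)
    {F : Cx K (w1 σ)} (hF : F.CycRes Y.I (Set.range X) z.asIdeal)
    (h : dm K z + dm K a ≤ Y.d + 2) :
    ∀ᶠ m in atTop, F.theta (Y.d + 1) hf (GMod.cyc a.asIdeal ha.1) m = Y.C1.ip z a := by
  have hD := Pool.Agent.Lib.MP_60ec62_ag.DL.hD K
  have dz := Pool.Agent.Lib.MP_60ec62_ag.DL.Key.dimLE_quot hD z
  have da := Pool.Agent.Lib.MP_60ec62_ag.DL.Key.dimLE_quot hD a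
  have e := Y.C1.chi_eq (hF.resolves Y.hI hz.1) (Y.et.qproj hF.cx hF.ex) (adm_cyc ha.1 ha.2)
  rw [Cx.theta_mu] at e
  refine Germ.coe_eq.1 (e.symm.trans ?_)
  rcases h.eq_or_lt with h | h
  · rw [(Y.C1.chi_bil (adm_cyc hz.1 hz.2) (adm_cyc ha.1 ha.2) dz da h).1, Ctx.ip,
      dif_pos ⟨hz, ha, h⟩]
    rfl
  · rw [Y.C1.chi_zero (adm_cyc hz.1 hz.2) (adm_cyc ha.1 ha.2) dz da h, Ctx.ip,
      dif_neg fun c => h.ne c.2.2]
    rfl

include p in
theorem ip_bxP (z u a b : PrimeSpectrum (MvPolynomial σ K)) (hz : Y.C1.HP z) (hu : Y.C1.HP u)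
    (ha : Y.C1.HP a) (hb : Y.C1.HP b) (h : dm K z + dm K u + (dm K a + dm K b) = 2 * Y.d + 4) :
    Y.C2.ip (bxP z u) (bxP a b) = Y.C1.ip z a * Y.C1.ip u b := by
  have hp : ∀ {z u : PrimeSpectrum (MvPolynomial σ K)}, Y.C1.HP z → Y.C1.HP u →
      Y.C2.HP (bxP z u) := fun hz hu =>
    ⟨hz.1.bx hu.1, sup_le_sup (Ideal.map_mono hz.2) (Ideal.map_mono hu.2)⟩
  obtain ⟨F, hF⟩ := exists_cycRes Y.hI (Set.range X) hz.1 hz.2
  obtain ⟨G, hG⟩ := exists_cycRes Y.hI (Set.range X) hu.1 hu.2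
  have hd : dm K (bxP z u) + dm K (bxP a b) = Y.C2.e + Y.C2.r := by
    rw [dm_bxP, dm_bxP, h]
    show _ = Y.d + 1 + (Y.d + 1) + 2
    omega
  rw [Ctx.ip, dif_pos ⟨hp hz hu, hp ha hb, hd⟩]
  refine Y.C2.ci_eq ((Y.chi_bx hz.1 hu.1 hF hG (adm_cyc (hp ha hb).1 (hp ha hb).2)).trans ?_)
  rw [show (F.map (pbL K σ σ)).theta (Y.d + 1) (mu l2) = _ from
    funext fun N => Cx.theta_mu _ _ _ N, Kun.theta_germ]
  refine Germ.coe_eq.2 (eventually_map.2 ?_)
  have e : ∀ x : ℕ × ℕ, _ = _ := fun x => Kun.theta_box (Kun.box_cyc ha.1 hb.1) F G (Y.d + 1)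
    (Y.d + 1) x.1 x.2
  have t1 : Tendsto (Prod.fst : ℕ × ℕ → ℕ) atTop atTop := by
    rw [← prod_atTop_atTop_eq]
    exact tendsto_fst
  have t2 : Tendsto (Prod.snd : ℕ × ℕ → ℕ) atTop atTop := by
    rw [← prod_atTop_atTop_eq]
    exact tendsto_snd
  have z0 : ∀ {z a : PrimeSpectrum (MvPolynomial σ K)}, dm K z + dm K a ≠ Y.d + 2 →
      Y.C1.ip z a = 0 := fun h => dif_neg fun c => h c.2.2
  rcases lt_trichotomy (dm K z + dm K a) (Y.d + 2) with c | c | c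
  · filter_upwards [t1.eventually (Y.kun_ev hz ha hF c.le)] with x hx
    refine (e x).trans ?_
    rw [hx, z0 c.ne, zero_mul, zero_mul]
    rfl
  · filter_upwards [t1.eventually (Y.kun_ev hz ha hF c.le),
      t2.eventually (Y.kun_ev hu hb hG (by omega))] with x hx hy
    refine (e x).trans ?_
    rw [hx, hy]
    rfl
  · filter_upwards [t2.eventually (Y.kun_ev hu hb hG (by omega))] with x hx
    refine (e x).trans ?_
    rw [hx, z0 (show dm K u + dm K b ≠ _ by omega), mul_zero, mul_zero]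
    rfl

end Pool.Agent.Lib.MP_557161_ag.DL.Sm
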