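import Pool.Agent.Lib.MP_557161_ag.DL.PD

/-!
Graded prime filtrations, the cycle formula for additive functions, properties of `chi`.
-/

namespace Pool.Agent.Lib.MP_557161_ag.DL

open MvPolynomial Filter
open Pool.Agent.Lib.MP_60ec62_ag.DL (dm cyc DimLE Cyc)

variable {K : Type} [Field K] {τ Γ : Type} [Finite τ] [AddCommMonoid Γ] [LinearOrder Γ]
  [IsOrderedCancelAddMonoid Γ] {w : τ → Γ}
  {I : Ideal (MvPolynomial τ K)} {E : Set (MvPolynomial τ K)}

namespace L4

omit [Finite τ] [LinearOrder Γ] [IsOrderedCancelAddMonoid Γ] in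
lemma poly_induction {p : MvPolynomial τ K → Prop} (h0 : p 0)
    (hadd : ∀ x y, p x → p y → p (x + y))
    (h : ∀ a x, weightedHomogeneousComponent w a x = x → p x) (f : MvPolynomial τ K) : p f :=
  (GMod.poly K w).induction (p := p) h0 hadd h f

omit [Finite τ] [LinearOrder Γ] [IsOrderedCancelAddMonoid Γ] in
lemma π_smul [IsCancelAdd Γ] {N : GMod K w} {a : Γ} {v : N.V} (hv : v ∈ N.part a) (g : Γ)
    (f : MvPolynomial τ K) : N.π (a + g) (f • v) = weightedHomogeneousComponent w g f • v := by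
  classical
  refine poly_induction (w := w) (p := fun f : MvPolynomial τ K =>
    N.π (a + g) (f • v) = weightedHomogeneousComponent w g f • v) ?_ ?_ ?_ f
  · simp
  · intro x y hx hy
    rw [add_smul, map_add, map_add, add_smul, hx, hy]
  · intro b x hx
    have h1 : weightedHomogeneousComponent w b x = x := hx
    have h2 : MvPolynomial.IsWeightedHomogeneous w x b :=
      h1 ▸ weightedHomogeneousComponent_isWeightedHomogeneous b x
    have h3 := GMod.smul_mem_part h2 hv
    by_cases e : g = b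
    · subst e
      rw [h1, add_comm a g]
      exact h3
    · have h4 : weightedHomogeneousComponent w g x = 0 :=
        GMod.π_of_mem_part (N := GMod.poly K w) hx e
      rw [h4, zero_smul]
      exact GMod.π_of_mem_part h3 fun e' => e (add_left_cancel (e'.trans (add_comm b a)))

omit [Finite τ] [LinearOrder Γ] [IsOrderedCancelAddMonoid Γ] in
lemma π_smul_of_not {N : GMod K w} {a : Γ} {v : N.V} (hv : v ∈ N.part a) {b : Γ}
    (hb : ¬∃ g, a + g = b) (f : MvPolynomial τ K) : N.π b (f • v) = 0 := by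
  refine poly_induction (w := w) (p := fun f : MvPolynomial τ K => N.π b (f • v) = 0) ?_ ?_ ?_ f
  · simp
  · intro x y hx hy
    rw [add_smul, map_add, hx, hy, add_zero]
  · intro c x hx
    have h1 : weightedHomogeneousComponent w c x = x := hx
    have h2 : MvPolynomial.IsWeightedHomogeneous w x c :=
      h1 ▸ weightedHomogeneousComponent_isWeightedHomogeneous c x
    exact GMod.π_of_mem_part (GMod.smul_mem_part h2 hv) fun e => hb ⟨c, by rw [e, add_comm]⟩

/-- The annihilator of an element. -/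
noncomputable abbrev ann {N : GMod K w} (v : N.V) : Ideal (MvPolynomial τ K) :=
  LinearMap.ker (LinearMap.toSpanSingleton (MvPolynomial τ K) N.V v)

omit [Finite τ] [LinearOrder Γ] [IsOrderedCancelAddMonoid Γ] in
lemma mem_ann {N : GMod K w} {v : N.V} {f : MvPolynomial τ K} : f ∈ ann v ↔ f • v = 0 := by
  rw [LinearMap.mem_ker, LinearMap.toSpanSingleton_apply]

omit [Finite τ] in
lemma ann_homog {N : GMod K w} {a : Γ} {v : N.V} (hv : v ∈ N.part a) : WHomog w (ann v) := by
  intro f hf g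
  rw [mem_ann] at hf ⊢
  rw [← π_smul hv, hf, map_zero]

omit [Finite τ] in
lemma isPrime_of_homog {J : Ideal (MvPolynomial τ K)} (hJ : WHomog w J) (h1 : J ≠ ⊤)
    (h : ∀ (x y : MvPolynomial τ K) (a b : Γ), x.IsWeightedHomogeneous w a →
      y.IsWeightedHomogeneous w b → x * y ∈ J → x ∈ J ∨ y ∈ J) : J.IsPrime := by
  let _ := weightedGradedAlgebra K w
  have h2 : J.IsHomogeneous (weightedHomogeneousSubmodule K w) := fun a f hf => by
    have := hJ f hf a
    rwa [← weightedDecomposition.decompose'_apply] at this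
  refine h2.isPrime_of_homogeneous_mem_or_mem h1 ?_
  rintro x y ⟨a, ha⟩ ⟨b, hb⟩ hxy
  exact h x y a b ha hb hxy

lemma exists_prime (N : GMod K w) (hN : ¬Subsingleton N.V) :
    ∃ a, ∃ v ∈ N.part a, v ≠ 0 ∧ (ann v).IsPrime := by
  have hne : ({J | ∃ a, ∃ v ∈ N.part a, v ≠ 0 ∧ J = ann v} :
      Set (Ideal (MvPolynomial τ K))).Nonempty := by
    by_contra hc
    refine hN ⟨fun u v => N.ext_π fun a => ?_⟩
    have h0 : ∀ x : N.V, N.π a x = 0 := fun x => by
      by_contra hx
      exact hc ⟨_, a, _, N.π_mem_part a x, hx, rfl⟩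
    rw [h0, h0]
  obtain ⟨J, ⟨a, v, hv, hv0, rfl⟩, hmax⟩ :=
    set_has_maximal_iff_noetherian.2 (inferInstance : IsNoetherian _ (MvPolynomial τ K)) _ hne
  refine ⟨a, v, hv, hv0, isPrime_of_homog (ann_homog hv) ?_ ?_⟩
  · intro h
    have h1 : (1 : MvPolynomial τ K) ∈ ann v := h ▸ Submodule.mem_top
    rw [mem_ann, one_smul] at h1
    exact hv0 h1
  · intro x y b c _ hy hxy
    by_cases h0 : y • v = 0
    · exact Or.inr (mem_ann.2 h0)
    · left
      have hle : ann v ≤ ann (y • v) := fun f hf => by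
        rw [mem_ann] at hf ⊢
        rw [smul_comm, hf, smul_zero]
      have h1 : ann v = ann (y • v) := by
        by_contra hne'
        exact hmax _ ⟨c + a, y • v, GMod.smul_mem_part hy hv, h0, rfl⟩ (lt_of_le_of_ne hle hne')
      rw [h1, mem_ann, ← mul_smul]
      exact mem_ann.1 hxy

omit [Finite τ] in
lemma hmg_range {N : GMod K w} {a : Γ} {v : N.V} (hv : v ∈ N.part a) :
    N.Hmg (LinearMap.range (LinearMap.toSpanSingleton (MvPolynomial τ K) N.V v)) := by
  rintro b _ ⟨f, rfl⟩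
  rw [LinearMap.toSpanSingleton_apply]
  by_cases h : ∃ g, a + g = b
  · obtain ⟨g, rfl⟩ := h
    rw [π_smul hv]
    exact ⟨_, rfl⟩
  · rw [π_smul_of_not hv h]
    exact Submodule.zero_mem _

omit [Finite τ] in
lemma iso_span {N : GMod K w} {a : Γ} {v : N.V} (hv : v ∈ N.part a) :
    GIso ((GMod.cyc (ann v) (ann_homog hv)).shift a) (N.sub _ (hmg_range hv)) := by
  refine ⟨⟨(LinearMap.toSpanSingleton (MvPolynomial τ K) N.V v).quotKerEquivRange.toLinearMap,
    fun b x => ?_⟩,
    (LinearMap.toSpanSingleton (MvPolynomial τ K) N.V v).quotKerEquivRange.bijective⟩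
  obtain ⟨f, rfl⟩ := Submodule.Quotient.mk_surjective (ann v) x
  apply Subtype.ext
  by_cases h : ∃ g, a + g = b
  · obtain ⟨g, rfl⟩ := h
    rw [GMod.shift_π_add]
    exact (π_smul hv g f).symm
  · rw [GMod.shift_π_of_not _ h, map_zero]
    exact (π_smul_of_not hv h f).symm

end L4

theorem gr_induction {P : GMod K w → Prop} (h0 : ∀ N, Subsingleton N.V → P N)
    (hp : ∀ (q : PrimeSpectrum (MvPolynomial τ K)) (hq : WHomog w q.asIdeal), I ≤ q.asIdeal →
      ∀ g N, GIso ((GMod.cyc q.asIdeal hq).shift g) N → P N)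
    (hs : ∀ N₁ N₂ N₃, SES N₁ N₂ N₃ → Adm I N₂ → P N₁ → P N₃ → P N₂) (N : GMod K w)
    (hN : Adm I N) : P N := by
  have := hN.1
  have key : ∀ U : Submodule (MvPolynomial τ K) N.V, ∀ (M : GMod K w) (f : GHom N M),
      Function.Surjective f.f → LinearMap.ker f.f = U → Adm I M → P M := by
    intro U
    induction U using IsNoetherian.induction with
    | hgt U ih =>
    intro M f hf hU hM
    by_cases hsub : Subsingleton M.V
    · exact h0 M hsub
    obtain ⟨a, v, hv, hv0, hpr⟩ := L4.exists_prime M hsub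
    have s := sesSubQuot M _ (L4.hmg_range hv)
    refine hs _ _ _ s hM (hp ⟨L4.ann v, hpr⟩ (L4.ann_homog hv)
      (fun g hg => L4.mem_ann.2 (hM.2 g hg v)) a _ (L4.iso_span hv)) ?_
    set W := LinearMap.range (LinearMap.toSpanSingleton (MvPolynomial τ K) M.V v) with hW
    refine ih (LinearMap.ker (W.mkQ ∘ₗ f.f)) ?_ (M.quot W (L4.hmg_range hv))
      ⟨W.mkQ ∘ₗ f.f, fun b x => ?_⟩ (W.mkQ_surjective.comp hf) rfl (hM.right s)
    · rw [← hU]
      refine lt_of_le_of_ne (LinearMap.ker_le_ker_comp _ _) fun e => hv0 ?_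
      obtain ⟨u, rfl⟩ := hf v
      have h1 : u ∈ LinearMap.ker (W.mkQ ∘ₗ f.f) := by
        rw [LinearMap.mem_ker, LinearMap.comp_apply, Submodule.mkQ_apply,
          Submodule.Quotient.mk_eq_zero]
        exact ⟨1, by rw [LinearMap.toSpanSingleton_apply, one_smul]⟩
      rw [← e] at h1
      exact h1
    · exact congrArg (Submodule.Quotient.mk (p := W)) (f.comm b x)
  exact key _ N ⟨LinearMap.id, fun _ _ => rfl⟩ Function.surjective_id rfl hN

/-- Minimal primes of homogeneous ideals are homogeneous. -/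
theorem WHomog.minimalPrimes {J P : Ideal (MvPolynomial τ K)} (hJ : WHomog w J)
    (hP : P ∈ J.minimalPrimes) : WHomog w P := by
  let _ := weightedGradedAlgebra K w
  have h2 : J.IsHomogeneous (weightedHomogeneousSubmodule K w) := fun a f hf => by
    have := hJ f hf a
    rwa [← weightedDecomposition.decompose'_apply] at this
  have h3 := hP.1.1.homogeneousCore (𝒜 := weightedHomogeneousSubmodule K w)
  have h4 : J ≤ (P.homogeneousCore (weightedHomogeneousSubmodule K w)).toIdeal := by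
    conv_lhs => rw [← h2.toIdeal_homogeneousCore_eq_self]
    exact Ideal.homogeneousCore_mono _ hP.1.2
  have h5 := Ideal.toIdeal_homogeneousCore_le (weightedHomogeneousSubmodule K w) P
  have h6 := hP.2 ⟨h3, h4⟩ h5
  intro f hf a
  exact h5 (weightedHomogeneousComponent_mem_of_mem K w
    (P.homogeneousCore (weightedHomogeneousSubmodule K w)).isHomogeneous (h6 hf) a)

/-- The cycle of a graded module is supported on homogeneous primes. -/
theorem cyc_support {N : GMod K w} (hN : Adm I N) {δ : ℕ}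
    (hd : DimLE K (MvPolynomial τ K) δ N.V) {q : PrimeSpectrum (MvPolynomial τ K)}
    (hq : cyc K δ N.V q ≠ 0) : WHomog w q.asIdeal ∧ I ≤ q.asIdeal ∧ dm K q = δ := by
  have := hN.1
  obtain ⟨h1, h2⟩ := MP_60ec62_ag.DL.CycA.cyc_ne hq
  have h3 : Module.annihilator (MvPolynomial τ K) N.V ≤ q.asIdeal :=
    Module.mem_support_iff_of_finite.1 h2
  have h4 : WHomog w (Module.annihilator (MvPolynomial τ K) N.V) := by
    intro f hf g
    rw [Module.mem_annihilator] at hf ⊢
    intro v
    induction v using N.induction with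
    | h0 => exact smul_zero _
    | hadd u v hu hv => rw [smul_add, hu, hv, add_zero]
    | h a v hv => rw [← L4.π_smul hv, hf, map_zero]
  refine ⟨h4.minimalPrimes ⟨⟨q.isPrime, h3⟩, fun p hp hpq => ?_⟩,
    le_trans (fun f hf => Module.mem_annihilator.2 (hN.2 f hf)) h3, h1⟩
  have h5 := hd ⟨p, hp.1⟩ (Module.mem_support_iff_of_finite.2 hp.2)
  have h6 : (⟨p, hp.1⟩ : PrimeSpectrum (MvPolynomial τ K)) = q :=
    MP_60ec62_ag.DL.eq_of_le_of_dm_le (K := K) hpq (h1 ▸ h5)
  rw [← h6]

/-- The cycle formula. -/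
theorem AddF.cycle {A : Type} [AddCommGroup A] {Λ : GMod K w → A} (h : AddF I E Λ) (one : A)
    (δ : ℕ) (b : PrimeSpectrum (MvPolynomial τ K) → ℤ)
    (hb : ∀ (q : PrimeSpectrum (MvPolynomial τ K)) (hq : WHomog w q.asIdeal), I ≤ q.asIdeal →
      dm K q ≤ δ → ∀ g, Λ ((GMod.cyc q.asIdeal hq).shift g) = (if dm K q = δ then b q else 0) • one)
    {N : GMod K w} (hN : Adm I N) (hd : DimLE K (MvPolynomial τ K) δ N.V) :
    ∃ n : ℤ, Λ N = n • one ∧
      (n : ℚ) = Finsupp.linearCombination ℚ (fun q => (b q : ℚ)) (cyc K δ N.V) := by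
  refine gr_induction (I := I) (P := fun N => Adm I N → DimLE K (MvPolynomial τ K) δ N.V →
    ∃ n : ℤ, Λ N = n • one ∧
      (n : ℚ) = Finsupp.linearCombination ℚ (fun q => (b q : ℚ)) (cyc K δ N.V)) ?_ ?_ ?_ N hN hN hd
  · intro M hM hA _
    have := hA.1
    refine ⟨0, by rw [h.of_subsingleton hM, zero_smul], ?_⟩
    rw [MP_60ec62_ag.DL.CycA.cyc_zero (by simp [Module.support_eq_empty]), map_zero, Int.cast_zero]
  · intro q hq hI g M e hA hD
    have e' := e
    obtain ⟨f, hf⟩ := e'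
    have φ : (MvPolynomial τ K ⧸ q.asIdeal) ≃ₗ[MvPolynomial τ K] M.V :=
      LinearEquiv.ofBijective f.f hf
    have h1 : dm K q ≤ δ := hD q (φ.support_eq ▸ (MP_60ec62_ag.DL.CycA.mem_supp _ _).2 le_rfl)
    refine ⟨if dm K q = δ then b q else 0, ?_, ?_⟩
    · rw [← h.congr ((adm_cyc hq hI).shift g) e, hb q hq hI h1 g]
    · rw [← MP_60ec62_ag.DL.CycA.cyc_congr φ]
      by_cases e2 : dm K q = δ
      · rw [if_pos e2, ← e2, MP_60ec62_ag.DL.CycA.cyc_self (MP_60ec62_ag.DL.hD K).1,
          Finsupp.linearCombination_single, one_smul]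
      · rw [if_neg e2, MP_60ec62_ag.DL.CycA.cyc_zero, map_zero, Int.cast_zero]
        intro p hp e3
        have h2 : dm K p ≤ dm K q :=
          MP_60ec62_ag.DL.dm_anti ((MP_60ec62_ag.DL.CycA.mem_supp _ _).1 hp)
        omega
  · intro N₁ N₂ N₃ s hA h1 h3 _ hD
    have := hA.1
    obtain ⟨n₁, a1, b1⟩ := h1 (hA.left s) fun p hp =>
      hD p (Module.support_subset_of_injective s.f.f s.inj hp)
    obtain ⟨n₃, a3, b3⟩ := h3 (hA.right s) fun p hp =>
      hD p (Module.support_subset_of_surjective s.g.f s.surj hp)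
    refine ⟨n₁ + n₃, by rw [h.add _ _ _ s hA, a1, a3, add_smul], ?_⟩
    rw [MP_60ec62_ag.DL.CycA.cyc_add (MP_60ec62_ag.DL.hD K).1 s.f.f s.g.f δ s.inj s.surj s.exact hD,
      map_add, Int.cast_add, b1, b3]

namespace Ctx

variable (C : Ctx K w) {M N : GMod K w}

theorem chi_eq {F : Cx K w} {c : ℕ} (hF : F.Resolves C.hI C.E M) (qF : (F.pres c).QProj C.I C.E)
    (hN : Adm C.I N) : C.chi M N = F.theta c (mu C.l) N := by
  have h : ∃ F : Cx K w, F.Resolves C.hI C.E M := ⟨F, hF⟩
  obtain ⟨H, hH⟩ := exists_resolves C.hI C.E hN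
  have hG := h.choose_spec
  have qH := C.et.qproj hH.cx hH.ex
  rw [chi, dif_pos h, Cx.theta_symm C.mu_addF hG hH (C.et.qproj hG.cx hG.ex) qH,
    Cx.theta_symm C.mu_addF hF hH qF qH]

theorem chi_symm (hM : Adm C.I M) (hN : Adm C.I N) : C.chi M N = C.chi N M := by
  obtain ⟨F, hF⟩ := exists_resolves C.hI C.E hM
  obtain ⟨H, hH⟩ := exists_resolves C.hI C.E hN
  have qF := C.et.qproj hF.cx hF.ex
  have qH := C.et.qproj hH.cx hH.ex
  rw [C.chi_eq hF qF hN, C.chi_eq hH qH hM, Cx.theta_symm C.mu_addF hF hH qF qH]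

theorem chi_addF (hM : Adm C.I M) : AddF C.I C.E (C.chi M) := by
  have h := exists_resolves C.hI C.E hM
  have hG := h.choose_spec
  have e : C.chi M = h.choose.theta C.e (mu C.l) := funext fun N => by rw [chi, dif_pos h]
  rw [e]
  exact C.mu_addF.theta (C.et.qproj hG.cx hG.ex)

/-- The Euler characteristic is the germ of a function that is compatible with shifts. -/
theorem exists_fun (hM : Adm C.I M) : ∃ u : GMod K w → Γ → ℤ,
    (∀ N, C.chi M N = (u N : Germ C.l ℤ)) ∧ ∀ N g a, u (N.shift g) (g + a) = u N a := by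
  have h := exists_resolves C.hI C.E hM
  refine ⟨h.choose.theta C.e hf, fun N => ?_, fun N g a => Cx.theta_shift _ _ N g a⟩
  rw [chi, dif_pos h, Cx.theta_mu]

theorem ci_eq {c : ℤ} (h : C.chi M N = c) : C.ci M N = c := by
  have h' : ∃ c : ℤ, C.chi M N = c := ⟨c, h⟩
  have := C.neBot
  rw [ci, dif_pos h']
  exact Germ.const_inj.1 (h'.choose_spec.symm.trans h)

end Ctx

end Pool.Agent.Lib.MP_557161_ag.DL
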