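import Pool.Agent.Lib.MP_557161_ag.DL.Pen

/-!
The preimage of a cone under the Lang map.
-/

namespace Pool.Agent.Lib.MP_557161_ag.DL

open Module Submodule Matrix

namespace LP

variable {k₀ : Type} [Field k₀] [Fintype k₀] {K : Type} [Field K] [Algebra k₀ K]
  {ι : Type} [Fintype ι]

section Ov

variable {σ τ : Type} [Finite σ] [Finite τ] {L L' M : Fld K}

lemma red_some {O : Pl M} {x : σ → M} (hx : IntV O x) :
    (Aff K σ).red O (some x) = some (rdV O x) := if_pos hx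

lemma red_eq {O : Pl M} {x : σ → M} {u : σ → O.res} (h : (Aff K σ).red O (some x) = some u) :
    IntV O x := by
  by_contra hx
  have e : (Aff K σ).red O (some x) = none := if_neg hx
  rw [e] at h
  exact nomatch h

variable (K ι σ) in
/-- A condition on a subspace and a vector. -/
structure Cnd where
  p : ∀ L : Fld K, Submodule L (ι → L) → (σ → L) → Prop
  h : ∀ {L L' : Fld K} (κ : L →ₐ[K] L') (ℓ : Submodule L (ι → L)) (x : σ → L),
    p L' (smap κ.toRingHom ℓ) (mapV κ.toRingHom x) ↔ p L ℓ x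

/-- The space of pairs that satisfy a condition. -/
def ov (Q : Sp (Sub K ι)) (p : Cnd K ι σ) : Sp ((Sub K ι).prod (Aff K σ)) where
  mem {L} y := Q.mem y.1 ∧ ∃ x, y.2 = some x ∧ p.p L y.1 x
  map_iff κ y := by
    obtain ⟨ℓ, y⟩ := y
    refine and_congr (Q.map_iff κ ℓ) ?_
    cases y with
    | none => exact ⟨fun ⟨_, e, _⟩ => (nomatch e), fun ⟨_, e, _⟩ => nomatch e⟩
    | some x =>
      exact ⟨fun ⟨_, e, hx⟩ => ⟨x, rfl, (p.h κ ℓ x).1
          (by obtain rfl := Option.some.inj e; exact hx)⟩,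
        fun ⟨_, e, hx⟩ => ⟨_, rfl, (p.h κ ℓ x).2 (by obtain rfl := Option.some.inj e; exact hx)⟩⟩

variable (K σ τ) in
/-- A map of affine spaces that is compatible with extension and reduction. -/
structure PM where
  g : ∀ {L : Fld K}, (σ → L) → τ → L
  nat : ∀ {L L' : Fld K} (κ : L →ₐ[K] L') (x : σ → L),
    g (mapV κ.toRingHom x) = mapV κ.toRingHom (g x)
  red : ∀ {M : Fld K} (O : Pl M) (x : σ → M), IntV O x →
    IntV O (g x) ∧ rdV O (g x) = g (rdV O x)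

variable {Q Q' : Sp (Sub K ι)} {p : Cnd K ι σ} {p' : Cnd K ι τ}

/-- The induced map of spaces. -/
def mor (φ : PM K σ τ) (h : ∀ (L : Fld K) (ℓ : Submodule L (ι → L)) (x : σ → L),
    Q.mem (L := L) ℓ → p.p L ℓ x → Q'.mem (L := L) ℓ ∧ p'.p L ℓ (φ.g x)) :
    Mor (ov Q p) (ov Q' p') where
  f y := (y.1, y.2.map φ.g)
  mem := by
    rintro L ⟨ℓ, _⟩ ⟨h1, x, rfl, h2⟩
    exact ⟨(h L ℓ x h1 h2).1, _, rfl, (h L ℓ x h1 h2).2⟩
  nat := by
    rintro L L' κ ⟨ℓ, _⟩ ⟨-, x, rfl, -⟩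
    exact Prod.ext rfl (congrArg some (φ.nat κ x))
  cont := by
    rintro M O ⟨ℓ, _⟩ - ⟨-, x, rfl, -⟩ ⟨-, u, e, -⟩
    have hx := red_eq e
    refine Prod.ext rfl ?_
    show Option.map φ.g ((Aff K σ).red O (some x)) = (Aff K τ).red O (some (φ.g x))
    rw [red_some hx, red_some (φ.red O x hx).1, (φ.red O x hx).2]
    rfl

lemma mor_proper (φ : PM K σ τ) (h : ∀ (L : Fld K) (ℓ : Submodule L (ι → L)) (x : σ → L),
    Q.mem (L := L) ℓ → p.p L ℓ x → Q'.mem (L := L) ℓ ∧ p'.p L ℓ (φ.g x))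
    (hp : ∀ (M : Fld K) (O : Pl M) (ℓ : Submodule M (ι → M)) (x : σ → M), Q.mem (L := M) ℓ →
      p.p M ℓ x → IntV O (φ.g x) → Q'.mem (L := O.res) (sred O ℓ) →
      IntV O x ∧ Q.mem (L := O.res) (sred O ℓ) ∧ p.p O.res (sred O ℓ) (rdV O x)) :
    (mor φ h).Proper := by
  rintro M O ⟨ℓ, _⟩ - ⟨h1, x, rfl, h2⟩ ⟨h3, u, e, -⟩
  obtain ⟨k1, k2, k3⟩ := hp M O ℓ x h1 h2 (red_eq e) h3
  exact ⟨k2, _, red_some k1, k3⟩

lemma ov_strata [Base K] {Z : Sp (Sub K ι)} (hc : Z.Closed Q) (h₁ : CK (ov (Q.inter Z) p))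
    (h₂ : CK (ov (Q.diff Z) p)) : CK (ov Q p) :=
  CK.of_closed (Z := Z.prod (Sp.univ _))
    (fun O y d hy hz hy' => ⟨hc O y.1 d hy.1 hz.1 hy'.1, trivial⟩)
    (h₁.congr fun _ _ => ⟨fun h => ⟨⟨h.1.1, h.2⟩, h.1.2, trivial⟩,
      fun h => ⟨⟨h.1.1, h.2.1⟩, h.1.2⟩⟩)
    (h₂.congr fun _ _ => ⟨fun h => ⟨⟨h.1.1, h.2⟩, fun e => h.1.2 e.1⟩,
      fun h => ⟨⟨h.1.1, fun e => h.2 ⟨e, trivial⟩⟩, h.1.2⟩⟩)

end Ov

section Alg

variable {L L' M : Fld K} {U : Submodule k₀ (ι → k₀)} (η : ι → k₀)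

omit [Fintype k₀] in
/-- A rational linear form. -/
def dt (y : ι → L) : L := mapV (rat k₀ L) η ⬝ᵥ y

open Classical in
/-- The kernel of a linear form. -/
noncomputable def kr {F : Type} [Field F] (η : ι → F) : Submodule F (ι → F) := perp 1 (span F {η})

lemma mem_kr {F : Type} [Field F] {η y : ι → F} : y ∈ kr η ↔ η ⬝ᵥ y = 0 := by
  classical
  rw [kr, mem_perp_span, bf, one_mulVec]

lemma finrank_kr {F : Type} [Field F] {η : ι → F} {E : Submodule F (ι → F)} (h : ¬ E ≤ kr η) :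
    finrank F ↥(E ⊓ kr η) + 1 = finrank F E :=
  finrank_inf_perp_line_eq (finrank_span_singleton fun e => h fun y _ => by
    rw [mem_kr, e, zero_dotProduct]) h

omit [Fintype k₀] in
lemma mem_ext_kr {y : ι → L} : y ∈ ext L (U ⊓ kr η) ↔ y ∈ ext L U ∧ dt η y = 0 := by
  classical
  rw [ext, smap_inf, kr, smap_perp, smap_single, Matrix.map_one _ (map_zero _) (map_one _)]
  exact and_congr Iff.rfl mem_kr

omit [Fintype k₀] in
lemma dt_mapV (κ : L →ₐ[K] L') (y : ι → L) :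
    dt η (mapV κ.toRingHom y) = κ.toRingHom (dt η y) := by
  simp only [dt, dotProduct, mapV, map_sum, map_mul]
  exact Finset.sum_congr rfl fun i _ => congrArg (· * _) (map_rat κ _).symm

lemma dt_lang (y : ι → L) : dt η (lang k₀ y) = frH k₀ L (dt η y) - dt η y := by
  rw [dt, lang, dotProduct_sub]
  simp only [dt, dotProduct, mapV, map_sum, map_mul, frH_rat]

omit [Fintype k₀] in
lemma dt_rat (u : ι → k₀) : dt η (mapV (rat k₀ L) u) = rat k₀ L (η ⬝ᵥ u) := by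
  simp only [dt, dotProduct, mapV, map_sum, map_mul]

omit [Fintype k₀] in
lemma dt_red {O : Pl M} {y : ι → M} (hy : IntV O y) :
    dt η y ∈ O.O ∧ O.rd (dt η y) = dt η (rdV O y) := by
  have h : ∀ i, mapV (rat k₀ M) η i * y i ∈ O.O := fun i => mul_mem (rd_rat O _).1 (hy i)
  refine ⟨sum_mem fun i _ => h i, (O.rd_sum _ _ fun i _ => h i).trans
    (Finset.sum_congr rfl fun i _ => ?_)⟩
  exact (O.rd_mul (rd_rat O _).1 (hy i)).trans (congrArg (· * _) (rd_rat O _).2)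

omit [Fintype ι] in
lemma lang_add (y y' : ι → L) : lang k₀ (y + y') = lang k₀ y + lang k₀ y' := by
  rw [lang, lang, lang, mapV_add, add_sub_add_comm]

omit [Fintype ι] in
lemma lang_rat (u : ι → k₀) : lang k₀ (mapV (rat k₀ L) u) = 0 :=
  funext fun i => sub_eq_zero.2 (frH_rat (u i))

omit [Fintype ι] in
lemma as_red {O : Pl M} {z : M} (hz : z ∈ O.O) :
    frH k₀ M z - z ∈ O.O ∧ O.rd (frH k₀ M z - z) = frH k₀ O.res (O.rd z) - O.rd z :=
  ⟨sub_mem ((frH_mem_iff O).2 hz) hz, by rw [O.rd_sub ((frH_mem_iff O).2 hz) hz, rd_frH]⟩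

omit [Fintype ι] in
lemma lang_red {O : Pl M} {y : ι → M} (hy : IntV O y) :
    IntV O (lang k₀ y) ∧ rdV O (lang k₀ y) = lang k₀ (rdV O y) :=
  ⟨fun i => (as_red (hy i)).1, funext fun i => (as_red (hy i)).2⟩

lemma lang_surj [IsAlgClosed L] {v : ι → L} (hv : v ∈ ext L U) :
    ∃ y ∈ ext L U, lang k₀ y = v := by
  obtain ⟨r, b, s, h⟩ := exists_nb' U
  choose z hz using fun a => exists_as (k₀ := k₀) (v (s a))
  refine ⟨∑ a, z a • mapV (rat k₀ L) (b a),
    sum_mem fun a _ => smul_mem _ _ (mapV_mem _ (h.mem a)), ?_⟩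
  rw [(h.smap (rat k₀ L)).eq_sum hv, lang, mapV_sum, ← Finset.sum_sub_distrib]
  refine Finset.sum_congr rfl fun a _ => ?_
  have e : mapV (frH k₀ L) (mapV (rat k₀ L) (b a)) = mapV (rat k₀ L) (b a) :=
    sub_eq_zero.1 (lang_rat (b a))
  rw [mapV_smul, e, ← sub_smul, hz]

omit [Fintype k₀] in
lemma ext_red {O : Pl M} {y : ι → M} (h : y ∈ ext M U) (hy : IntV O y) : rdV O y ∈ ext O.res U :=
  sred_ext O U ▸ rdV_mem h hy

lemma line_eq {F : Type} [Field F] {ℓ : Submodule F (ι → F)} (h : finrank F ℓ = 1) {x v : ι → F}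
    (hx : x ∈ ℓ) (h0 : x ≠ 0) (hv : v ∈ ℓ) : ℓ = span F {x} ∧ ∃ c : F, c • x = v := by
  have e : span F {x} = ℓ := eq_of_le_of_finrank_le ((span_singleton_le_iff_mem _ _).2 hx)
    (by rw [h, finrank_span_singleton h0])
  exact ⟨e.symm, mem_span_singleton.1 (e ▸ hv)⟩

omit [Fintype k₀] in
lemma exists_dt {ℓ : Submodule L (ι → L)} (h : ℓ ≤ ext L U) (h' : ¬ ℓ ≤ ext L (U ⊓ kr η)) :
    ∃ x ∈ ℓ, dt η x ≠ 0 := by
  by_contra e
  exact h' fun x hx => (mem_ext_kr η).2 ⟨h hx, by_contra fun e' => e ⟨x, hx, e'⟩⟩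

omit [Fintype k₀] in
lemma dt_smul (c : L) (x : ι → L) : dt η (c • x) = c * dt η x := dotProduct_smul _ _ _

open Classical in
lemma count (h : U) : (∑ η : ι → k₀, if η ⬝ᵥ h.1 = 0 then
      1 - if η = 0 then (Fintype.card k₀ : ℚ) ^ Fintype.card ι / Fintype.card k₀ else 0 else 0)
    = if h = 0 then (Fintype.card k₀ : ℚ) ^ Fintype.card ι
      - (Fintype.card k₀ : ℚ) ^ Fintype.card ι / Fintype.card k₀ else 0 := by
  generalize ha : (Fintype.card k₀ : ℚ) ^ Fintype.card ι / Fintype.card k₀ = a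
  have e : ∀ η : ι → k₀, (if η ⬝ᵥ h.1 = 0 then 1 - if η = 0 then a else 0 else 0)
      = (if η ∈ kr h.1 then 1 else 0) - if η = 0 then a else 0 := fun η => by
    rw [mem_kr, dotProduct_comm]
    by_cases h0 : η = 0 <;> simp [h0]
  simp only [e, Finset.sum_sub_distrib, Finset.sum_ite_eq', Finset.mem_univ, if_true,
    Finset.sum_boole]
  rw [← Fintype.card_subtype, Module.card_eq_pow_finrank (K := k₀)]
  split_ifs with h0
  · rw [h0, show kr (0 : U).1 = ⊤ from eq_top_iff.2 fun y _ => mem_kr.2 (zero_dotProduct _)]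
    simp
  · have k := finrank_kr (η := h.1) (E := ⊤) fun t => h0 (Subtype.ext (funext fun i => by
      simpa using mem_kr.1 (t (mem_top (x := Pi.single i 1)))))
    rw [top_inf_eq, finrank_top, Module.finrank_fintype_fun_eq_card] at k
    rw [← ha, ← k, pow_succ, mul_div_cancel_right₀ _ (Nat.cast_ne_zero.2 Fintype.card_ne_zero)]
    simp

end Alg

section Spaces

variable (U : Submodule k₀ (ι → k₀)) (η : ι → k₀)

variable (K) in
/-- The vector lies over the line. -/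
def cY : Cnd K ι ι := ⟨fun L ℓ y => y ∈ ext L U ∧ lang k₀ y ∈ ℓ, fun κ ℓ y => by
  rw [← smap_ext κ, mapV_mem_iff, lang_mapV, mapV_mem_iff]⟩

variable (K ι) in
/-- The vector lies on the line. -/
def cT : Cnd K ι ι := ⟨fun _ ℓ y => y ∈ ℓ, fun κ _ _ => mapV_mem_iff κ.toRingHom⟩

variable (K ι) in
/-- No condition. -/
def cA : Cnd K ι Unit := ⟨fun _ _ _ => True, fun _ _ _ => Iff.rfl⟩

variable (K) in
/-- An Artin-Schreier cover of the tautological bundle. -/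
def cW : Cnd K ι (Option ι) :=
  ⟨fun L ℓ w => w ∘ some ∈ ℓ ∧ frH k₀ L (w none) - w none = dt η (w ∘ some) ∧
    (U ≤ kr η → w none = 0), fun {L L'} κ ℓ w => by
    show mapV κ.toRingHom (w ∘ some) ∈ _ ∧ frH k₀ L' (κ.toRingHom (w none)) - κ.toRingHom (w none)
      = dt η (mapV κ.toRingHom (w ∘ some)) ∧ (_ → κ.toRingHom (w none) = 0) ↔ _
    rw [mapV_mem_iff, dt_mapV, ← map_frH, ← map_sub, κ.toRingHom.injective.eq_iff,
      map_eq_zero_iff _ κ.toRingHom.injective]⟩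

lemma cW_red {M : Fld K} {O : Pl M} {ℓ : Submodule M (ι → M)} {w : Option ι → M} (hw : IntV O w)
    (h : (cW K U η).p M ℓ w) : (cW K U η).p O.res (sred O ℓ) (rdV O w) :=
  have i : IntV O (w ∘ some) := fun i => hw (some i)
  ⟨rdV_mem h.1 i, (as_red (hw none)).2.symm.trans ((congrArg O.rd h.2.1).trans (dt_red η i).2),
    fun t => (congrArg O.rd (h.2.2 t)).trans O.rd_zero⟩

lemma cY_red {M : Fld K} {O : Pl M} {ℓ : Submodule M (ι → M)} {y : ι → M} (hy : IntV O y)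
    (h : (cY K U).p M ℓ y) : (cY K U).p O.res (sred O ℓ) (rdV O y) :=
  ⟨ext_red h.1 hy, (lang_red (k₀ := k₀) hy).2 ▸ rdV_mem h.2 (lang_red hy).1⟩

variable (K) in
/-- Translation by a rational vector. -/
def mT (u : ι → k₀) : PM K ι ι where
  g {L} y := y + mapV (rat k₀ L) u
  nat κ y := by
    rw [mapV_add]
    exact congrArg _ (funext fun i => (map_rat κ (u i)).symm)
  red O y hy := by
    have h : IntV O (mapV (rat k₀ _) u) := fun i => (rd_rat O (u i)).1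
    exact ⟨hy.add h, (rdV_add hy h).trans (congrArg _ (funext fun i => (rd_rat O (u i)).2))⟩

variable (K) in
/-- The quotient map. -/
noncomputable def mQ : PM K ι (Option ι) where
  g y := fun i => i.elim (dt η y) (lang k₀ y)
  nat κ y := funext fun i => by
    cases i with
    | none => exact dt_mapV η κ y
    | some i => exact congrFun (lang_mapV κ y) i
  red O y hy := ⟨fun i => by
    cases i with
    | none => exact (dt_red η hy).1
    | some i => exact (lang_red hy).1 i, funext fun i => by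
    cases i with
    | none => exact (dt_red η hy).2
    | some i => exact congrFun (lang_red hy).2 i⟩

variable (K ι) in
/-- A constant section. -/
def mC (c : k₀) : PM K ι (Option ι) where
  g {L} y := fun i => i.elim (rat k₀ L c) y
  nat κ y := funext fun i => by
    cases i with
    | none => exact (map_rat κ c).symm
    | some i => rfl
  red O y hy := ⟨fun i => by
    cases i with
    | none => exact (rd_rat O c).1
    | some i => exact hy i, funext fun i => by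
    cases i with
    | none => exact (rd_rat O c).2
    | some i => rfl⟩

variable (K ι) in
/-- The last coordinate. -/
def mZ : PM K (Option ι) Unit := ⟨fun w _ => w none, fun _ _ => rfl, fun _ _ h => ⟨fun _ => h none, rfl⟩⟩

variable [Base K] {U} {P : Sp (Sub K ι)}
  (hl : ∀ (L : Fld K) (ℓ : Submodule L (ι → L)), P.mem (L := L) ℓ → finrank L ℓ = 1 ∧ ℓ ≤ ext L U)
include hl

lemma ck_closed (h : CK (P.inter (inS K (U ⊓ kr η)))) :
    CK (ov (P.inter (inS K (U ⊓ kr η))) (cW K U η)) := by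
  refine CK.family (α := {c : k₀ // U ≤ kr η → c = 0})
    (W := fun _ => ov (P.inter (inS K (U ⊓ kr η))) (cT K ι))
    (fun c => mor (mC K ι c.1) fun L ℓ x h1 h2 => ⟨h1, h2, ?_, fun t => ?_⟩)
    (fun c => mor_proper _ _ fun M O ℓ x _ h2 h3 h4 => ?_) ?_ fun _ => ?_
  · exact (sub_eq_zero.2 (frH_rat c.1)).trans ((mem_ext_kr η).1 (h1.2 h2)).2.symm
  · exact (congrArg (rat k₀ L) (c.2 t)).trans (map_zero _)
  · exact ⟨fun i => h3 (some i), h4, rdV_mem h2 fun i => h3 (some i)⟩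
  · rintro L _ ⟨ℓ, _⟩ ⟨h1, w, rfl, h2, h3, h4⟩
    obtain ⟨c, hc⟩ := frH_eq_iff.1 (sub_eq_zero.1 (h3.trans ((mem_ext_kr η).1 (h1.2 h2)).2))
    refine ⟨⟨c, fun t => (rat k₀ L).injective (hc.trans ((h4 t).trans (map_zero _).symm))⟩,
      (ℓ, some (w ∘ some)), ⟨h1, _, rfl, h2⟩, Prod.ext rfl (congrArg some (funext fun i => ?_))⟩
    cases i with
    | none => exact hc
    | some i => rfl
  · exact (ck_tot (Y := P.inter (inS K (U ⊓ kr η))) (Mor.incl fun _ _ _ => trivial)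
      (fun L y hy => (hl L y hy.1).1) h).congr fun _ _ => Iff.rfl

omit [Fintype k₀] [Base K] hl in
lemma inS_closed (U' : Submodule k₀ (ι → k₀)) : (inS K U').Closed P :=
  fun O _ _ _ h _ => (sred_mono O h).trans (sred_ext O U').le

lemma ck_open (h : CK P) : CK (ov (P.diff (inS K (U ⊓ kr η))) (cW K U η)) := by
  have ex : ∀ (L : Fld K) (ℓ : Submodule L (ι → L)), (P.diff (inS K (U ⊓ kr η))).mem (L := L) ℓ →
      ∃ x ∈ ℓ, dt η x ≠ 0 := fun L ℓ h => exists_dt η (hl L ℓ h.1).2 h.2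
  have nz : ∀ {L : Fld K} {x : ι → L}, dt η x ≠ 0 → x ≠ 0 := fun h e =>
    h (e ▸ dotProduct_zero _)
  refine CK.of_bij (Y := ov (P.diff (inS K (U ⊓ kr η))) (cA K ι))
    (mor (mZ K ι) fun L ℓ x h1 _ => ⟨h1, trivial⟩) ?_
    (mor_proper _ _ fun M O ℓ w h1 h2 h3 h4 => ?_) ?_
    (((h.open (inS_closed _)).prod ck_a1).congr fun _ _ => Iff.rfl)
  · rintro L ⟨ℓ, _⟩ ⟨ℓ', _⟩ ⟨h1, w, rfl, h2⟩ ⟨-, w', rfl, h2'⟩ e
    obtain rfl : ℓ = ℓ' := congrArg Prod.fst e
    have e' : w none = w' none := congrFun (Option.some.inj (congrArg Prod.snd e)) ()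
    obtain ⟨x, hx, x0⟩ := ex L ℓ h1
    obtain ⟨c, hc⟩ := (line_eq (hl L ℓ h1.1).1 hx (nz x0) h2.1).2
    obtain ⟨c', hc'⟩ := (line_eq (hl L ℓ h1.1).1 hx (nz x0) h2'.1).2
    have k := h2.2.1.symm.trans (e' ▸ h2'.2.1)
    rw [← hc, ← hc', dt_smul, dt_smul] at k
    obtain rfl := mul_right_cancel₀ x0 k
    refine Prod.ext rfl (congrArg some (funext fun i => ?_))
    cases i with
    | none => exact e'
    | some i => exact congrFun (hc.symm.trans hc') i
  · obtain ⟨_, ⟨x, hx, ix, rfl⟩, x0⟩ := ex _ _ h4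
    rw [← (dt_red η ix).2] at x0
    obtain ⟨x1, x2⟩ := (O.rd_ne_zero_iff (dt_red η ix).1).1 x0
    obtain ⟨c, hc⟩ := (line_eq (hl M ℓ h1.1).1 hx (nz x1) h2.1).2
    have k := (as_red (k₀ := k₀) (h3 ())).1
    rw [show frH k₀ M ((mZ K ι).g w ()) - (mZ K ι).g w () = _ from h2.2.1, ← hc, dt_smul] at k
    have k' : c ∈ O.O := by simpa [x1] using mul_mem k x2
    have hw : IntV O w := fun i => by
      cases i with
      | none => exact h3 ()
      | some i => exact (hc ▸ IntV.smul k' ix : IntV O (w ∘ some)) i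
    exact ⟨hw, h4, cW_red U η hw h2⟩
  · rintro L _ ⟨ℓ, _⟩ ⟨h1, z, rfl, -⟩
    obtain ⟨x, hx, x0⟩ := ex L ℓ h1
    refine ⟨(ℓ, some fun i => i.elim (z ()) (((frH k₀ L (z ()) - z ()) / dt η x) • x)),
      ⟨h1, _, rfl, smul_mem _ _ hx, ?_, fun t => absurd ?_ h1.2⟩, rfl⟩
    · exact ((dt_smul η _ x).trans (div_mul_cancel₀ _ x0)).symm
    · rw [inf_eq_left.2 t]
      exact (hl L ℓ h1.1).2

lemma ck_y (h : ∀ η, CK (ov P (cW K U η))) : CK (ov P (cY K U)) := by
  classical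
  have q1 : (1 : ℚ) < Fintype.card k₀ := Nat.one_lt_cast.2 Fintype.one_lt_card
  refine CK.kani_rosen (H := U) (W := fun η => ov P (cW K U η))
    ⟨fun u => mor (mT K u.1) fun L ℓ y h1 h2 => ⟨h1, add_mem h2.1 (mapV_mem _ u.2), ?_⟩, ?_, ?_⟩
    (fun η => ((kr η).comap U.subtype).toAddSubgroup)
    (fun η => 1 - if η = 0 then (Fintype.card k₀ : ℚ) ^ Fintype.card ι / Fintype.card k₀ else 0)
    _ (sub_pos.2 (div_lt_self (by positivity) q1)).ne' (fun u => Eq.trans ?_ (count u))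
    (fun η => mor (mQ K η) fun L ℓ y h1 h2 => ⟨h1, h2.2, (dt_lang η y).symm, fun t => ?_⟩)
    (fun η => mor_proper _ _ fun M O ℓ y _ h2 h3 h4 => ?_) (fun η => ?_) (fun η => ?_) h
  · show lang k₀ (y + _) ∈ ℓ
    rw [lang_add, lang_rat, add_zero]
    exact h2.2
  · rintro L ⟨ℓ, _⟩ ⟨-, y, rfl, -⟩
    exact Prod.ext rfl (congrArg some (show y + mapV (rat k₀ L) 0 = y by simp))
  · rintro L g u ⟨ℓ, _⟩ ⟨-, y, rfl, -⟩
    refine Prod.ext rfl (congrArg some (show y + mapV (rat k₀ L) (g.1 + u.1)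
      = y + mapV (rat k₀ L) u.1 + mapV (rat k₀ L) g.1 from ?_))
    rw [mapV_add, add_comm (mapV _ g.1), add_assoc]
  · exact Finset.sum_congr rfl fun η _ => if_congr mem_kr rfl rfl
  · exact ((mem_ext_kr η).1 ((inf_eq_left.2 t).symm ▸ h2.1)).2
  · have hy : IntV O y := fun i => mem_of_as O (h3 (some i))
    exact ⟨hy, h4, cY_red U hy h2⟩
  · rintro L _ ⟨ℓ, _⟩ ⟨h1, w, rfl, h2, h3, h4⟩
    obtain ⟨y, hy, e⟩ := lang_surj ((hl L ℓ h1).2 h2)
    obtain ⟨c, hc⟩ := frH_eq_iff.1 (show frH k₀ L (w none - dt η y) = w none - dt η y by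
      rw [map_sub]
      linear_combination h3 + dt_lang η y - congrArg (dt η) e)
    obtain ⟨u, hu, e'⟩ : ∃ u ∈ U, η ⬝ᵥ u = c := by
      by_cases t : U ≤ kr η
      · refine ⟨0, zero_mem _, (rat k₀ L).injective ?_⟩
        rw [hc, h4 t, ((mem_ext_kr η).1 ((inf_eq_left.2 t).symm ▸ hy)).2, dotProduct_zero, map_zero,
          sub_zero]
      · obtain ⟨u, hu, u0⟩ := SetLike.not_le_iff_exists.1 t
        exact ⟨(c / η ⬝ᵥ u) • u, smul_mem _ _ hu,
          (dotProduct_smul _ _ _).trans (div_mul_cancel₀ _ (mt mem_kr.2 u0))⟩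
    have e1 : lang k₀ (y + mapV (rat k₀ L) u) = w ∘ some := by rw [lang_add, lang_rat, add_zero, e]
    refine ⟨(ℓ, some (y + mapV (rat k₀ L) u)), ⟨h1, _, rfl, add_mem hy (mapV_mem _ hu), e1 ▸ h2⟩,
      Prod.ext rfl (congrArg some (funext fun i => ?_))⟩
    cases i with
    | none =>
      refine (dotProduct_add _ _ _).trans ?_
      rw [← dt, ← dt, dt_rat, e', hc, add_sub_cancel]
    | some i => exact congrFun e1 i
  · rintro L ⟨ℓ, _⟩ ⟨ℓ', _⟩ ⟨-, y, rfl, h2⟩ ⟨-, y', rfl, h2'⟩ e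
    obtain rfl : ℓ = ℓ' := congrArg Prod.fst e
    have e' : (mQ K η).g y = (mQ K η).g y' := Option.some.inj (congrArg Prod.snd e)
    have e1 : lang k₀ y = lang k₀ y' := funext fun i => congrFun e' (some i)
    have e2 : dt η y = dt η y' := congrFun e' none
    obtain ⟨u, hu, e3⟩ := exists_rat_of_fixed (sub_mem h2'.1 h2.1) (sub_eq_zero.1
      (show lang k₀ (y' - y) = 0 from add_left_cancel (a := lang k₀ y) (by
        rw [← lang_add, add_sub_cancel, add_zero, e1])))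
    refine ⟨⟨u, hu⟩, mem_kr.2 ((rat k₀ L).injective ?_), Prod.ext rfl (congrArg some
      (show y + mapV (rat k₀ L) u = y' by rw [e3, add_sub_cancel]))⟩
    refine (dt_rat η u).symm.trans ?_
    rw [e3, map_zero, dt, dotProduct_sub, ← dt, ← dt, e2, sub_self]

end Spaces

end LP

variable {k₀ : Type} [Field k₀] [Fintype k₀] {K : Type} [Field K] [Algebra k₀ K] [Base K]
  {ι : Type} [Fintype ι]

open LP in
theorem ck_lp (U : Submodule k₀ (ι → k₀)) (P : Sp (Sub K ι))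
    (hl : ∀ (L : Fld K) (ℓ : Submodule L (ι → L)), P.mem (L := L) ℓ →
      finrank L ℓ = 1 ∧ ℓ ≤ ext L U)
    (hc : ∀ (M : Fld K) (O : Pl M) (ℓ : Submodule M (ι → M)), O.IsDVR → P.mem (L := M) ℓ →
      P.mem (L := O.res) (sred O ℓ))
    (h : CK P)
    (h' : ∀ U' ≤ U, finrank k₀ U' + 1 = finrank k₀ U → CK (P.inter (inS K U'))) :
    CK (LP U P) := by
  have hY : CK (ov P (cY K U)) := ck_y hl fun η => ov_strata (inS_closed _) (ck_closed η hl (by
    by_cases t : U ≤ kr η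
    · rw [inf_eq_left.2 t]
      exact h.congr fun L ℓ => ⟨fun e => ⟨e, (hl L ℓ e).2⟩, fun e => e.1⟩
    · exact h' _ inf_le_left (finrank_kr t))) (ck_open η hl h)
  let Z : Sp (Sub K ι) := Sp.sub (fun _ ℓ => ℓ = ⊥) fun κ _ => smap_eq_bot _
  have hZ : CK (ov Z (cY K U)) := CK.of_const (by
    rintro L _ ⟨_, _⟩ ⟨rfl, y, rfl, h1, h2⟩
    obtain ⟨u, -, rfl⟩ := exists_rat_of_fixed h1 (sub_eq_zero.1 ((mem_bot _).1 h2))
    exact ⟨((⊥ : Submodule K (ι → K)), some (mapV (rat k₀ (Fld.base K)) u)), Prod.ext (smap_bot _)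
      (congrArg some (funext fun i => map_rat (L := Fld.base K) (Algebra.ofId K L) (u i)))⟩)
  refine CK.family (α := Bool) (W := fun b => ov (bif b then P else Z) (cY K U))
    (fun b => ⟨fun y => y.2, ?_, fun _ _ _ => rfl, fun _ _ _ _ _ => rfl⟩) (fun b => ?_) ?_
    fun b => by cases b <;> assumption
  · rintro L ⟨ℓ, _⟩ ⟨h1, y, rfl, h2, h3⟩
    refine ⟨y, rfl, h2, or_iff_not_imp_left.2 fun y0 => ?_⟩
    cases b with
    | false => exact absurd ((mem_bot _).1 (le_of_eq h1 h3)) y0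
    | true => exact (line_eq (hl L ℓ h1).1 h3 y0 h3).1 ▸ h1
  · rintro M O ⟨ℓ, _⟩ d ⟨h1, y, rfl, h2⟩ ⟨u, e, -⟩
    refine ⟨?_, _, red_some (red_eq e), cY_red U (red_eq e) h2⟩
    cases b with
    | false => exact sred_eq_bot.2 h1
    | true => exact hc M O ℓ d h1
  · rintro L _ _ ⟨y, rfl, h1, h2 | h2⟩
    · exact ⟨false, ((⊥ : Submodule L (ι → L)), some y), ⟨rfl, y, rfl, h1, (mem_bot _).2 h2⟩, rfl⟩
    · exact ⟨true, (_, some y), ⟨h2, y, rfl, h1, mem_span_singleton_self _⟩, rfl⟩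

end Pool.Agent.Lib.MP_557161_ag.DL
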