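import Pool.Agent.Lib.MP_557161_ag.DL.Lef4

/-!
The graph of Frobenius meets the diagonal transversally in the rational points.
-/

namespace Pool.Agent.Lib.MP_557161_ag.DL.Sm

open MvPolynomial Filter
open Pool.Agent.Lib.MP_60ec62_ag.DL (dm dv cyc DimLE Cyc cm)

variable {K : Type} [Field K] {p : ℕ} [FBar K p] {σ : Type} [Finite σ] (Y : Sm K σ) {m : ℕ}

/-- Tor independence of the diagonal and the graph. -/
theorem qex_diag (hm : 0 < m) (hI : DefOver (p ^ m) Y.I) {G : Cx K (w2 σ σ)}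
    (hG : G.CycRes (bx Y.I Y.I) {1} (Y.gr 1)) :
    (G.map (pbG K σ (p ^ m))).QEx (Set.range X) (MvPolynomial σ K ⧸ Y.I) := by
  have hp := FBar.prime (K := K)
  have hQ : 0 < p ^ m := pow_pos hp.pos m
  refine Cx.qex_of_local (I := Y.I) (hG.cx.map _ (Lef.map_bx_le hQ hI)) (fun f hf v => ?_) ?_
  · obtain ⟨v, rfl⟩ := Ideal.Quotient.mk_surjective v
    exact Ideal.Quotient.eq_zero_iff_mem.2 (Y.I.mul_mem_right v hf)
  rintro i P hP ⟨_, ⟨s, rfl⟩, hs⟩ v hv
  have hs' : expand (p ^ m) (X s) ∉ P.asIdeal := by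
    rw [expand_X]
    exact fun h => hs (P.2.mem_of_pow_mem _ h)
  obtain ⟨g, hg, t, ht⟩ := Y.et
    (PrimeSpectrum.comap (expand (p ^ m) : MvPolynomial σ K →ₐ[K] _).toRingHom P)
    (fun f hf => hP (hI.map_le hQ (Ideal.mem_map_of_mem _ hf))) ⟨X s, ⟨s, rfl⟩, hs'⟩
  have hg' : expand (p ^ m) (X s * g) ∉ P.asIdeal := by
    rw [map_mul]
    exact fun h => (P.2.mem_or_mem h).elim hs' hg
  let A := Localization.Away (algebraMap _ (Localization.Away (Ideal.Quotient.mk Y.I g))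
    (Ideal.Quotient.mk Y.I (X s)))
  have hA : IsLocalization.Away (Ideal.Quotient.mk Y.I (X s * g)) A := by
    rw [map_mul]
    exact IsLocalization.Away.mul (Localization.Away (Ideal.Quotient.mk Y.I g)) A _ _
  have ht' : (aeval fun a => algebraMap _ A (t a) :
      MvPolynomial (Fin (Y.d + 1)) K →ₐ[K] A).toRingHom.Etale := by
    have e : (aeval fun a => algebraMap _ A (t a) :
        MvPolynomial (Fin (Y.d + 1)) K →ₐ[K] A) = (IsScalarTower.toAlgHom K _ A).comp (aeval t) :=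
      MvPolynomial.algHom_ext fun a => by simp
    rw [e]
    exact RingHom.Etale.stableUnderComposition _ _ ht
      (RingHom.etale_algebraMap.2 (Algebra.Etale.of_isLocalizationAway
        (algebraMap _ (Localization.Away (Ideal.Quotient.mk Y.I g))
          (Ideal.Quotient.mk Y.I (X s)))))
  obtain ⟨w, hw⟩ := Lef.core Y (A := A)
    (B := Localization.Away (Ideal.Quotient.mk Y.I (expand (p ^ m) (X s * g)))) hm hI hG (X s * g) s
    (by
      have := IsLocalization.Away.algebraMap_isUnit (S := A) (Ideal.Quotient.mk Y.I (X s * g))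
      rw [map_mul, map_mul] at this
      exact isUnit_of_mul_isUnit_left this) ht' i (fun c => algebraMap _ _ (v c))
    (Lef.mulVec_of_mat _ _ hv)
  obtain ⟨n, w', hw'⟩ := Lef.descend (Ideal.Quotient.mk Y.I (expand (p ^ m) (X s * g)))
    ((G.D (i + 1)).map fun f => Ideal.Quotient.mk Y.I ((pbG K σ (p ^ m)).φ f)) v hw
  refine ⟨expand (p ^ m) (X s * g) ^ n, fun h => hg' (P.2.mem_of_pow_mem _ h), w', ?_⟩
  rw [← map_pow] at hw'
  exact hw'

/-- The Hilbert function of the fixed point scheme. -/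
theorem hf_fixed (hm : 0 < m)
    (h : WHomog (w1 σ) (Y.I ⊔ (Y.gr 1).map (pbG K σ (p ^ m)).φ)) :
    ∀ᶠ n in atTop, hf (GMod.cyc _ h) n = Y.fixed (p ^ m) := by
  have hp := FBar.prime (K := K)
  have := Lef.finite_fix Y (le_trans hp.two_le (Nat.le_self_pow hm.ne' p))
  have := Fintype.ofFinite (Lef.Fix Y (p ^ m))
  rw [fixed, Nat.card_eq_fintype_card]
  exact Lef.hf_points h (fun k : Lef.Fix Y (p ^ m) => k.1) Subtype.val_injective
    (fun k _ hf => Lef.fixI_vanish Y k hf) (fun _ _ hf h0 j => Lef.sat_fix Y hm h hf h0 j) Y.C1.neg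

theorem lefschetz (hm : 0 < m) (hI : DefOver (p ^ m) Y.I) :
    Y.C2.bil (Y.grC 1) (Y.grC (p ^ m)) = Y.fixed (p ^ m) := by
  have hp := FBar.prime (K := K)
  have hQ : 0 < p ^ m := pow_pos hp.pos m
  have l1 := Y.le_gr one_pos (Lef.defOver_one _)
  have hM : Adm Y.C2.I (GMod.cyc _ (Y.gr_hom 1)) := adm_cyc _ l1
  have hN : Adm Y.C2.I (GMod.cyc _ (Y.gr_hom (p ^ m))) := adm_cyc _ (Y.le_gr hQ hI)
  have h1 := (Y.C2.chi_bil hM hN (Y.dimLE_gr 1) (Y.dimLE_gr (p ^ m))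
    (show Y.d + 2 + (Y.d + 2) = Y.d + 1 + (Y.d + 1) + 2 by ring)).2
  obtain ⟨G, hG⟩ := exists_cycRes Y.C2.hI {1} (Y.gr_hom 1) l1
  have hex : G.QEx Y.C2.E (MvPolynomial (σ ⊕ σ) K ⧸ Y.C2.I) := fun i f _ => ⟨0, fun v hv => by
    obtain ⟨n, hn⟩ := hG.ex i 1 rfl
    simpa using hn v hv⟩
  have h2 := Y.C2.chi_eq ⟨hG.cx, hex, (hG.resolves Y.C2.hI (Y.gr_hom 1)).iso⟩
    (Y.C2.et.qproj hG.cx hex) hN
  have hle := Lef.map_bx_le hQ hI
  have hx := Y.qex_diag hm hI hG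
  have hF := hG.map (pbG K σ (p ^ m)) hle hx
  have hh : WHomog (w1 σ) (Y.I ⊔ (Y.gr 1).map (pbG K σ (p ^ m)).φ) := by
    rw [hF.gen]
    refine Y.hI.sup (wHomog_span ?_)
    rintro _ ⟨⟨b, c⟩, rfl⟩
    rcases (G.map (pbG K σ (p ^ m))).hom 0 b c with h | ⟨g, h, -⟩
    · exact ⟨0, by beta_reduce; rw [h]; exact isWeightedHomogeneous_zero _ _ _⟩
    · exact ⟨g, h⟩
  have h3 := Cx.tele Y.C1.mu_addF hF.cx (adm_cyc Y.hI le_rfl) hx Y.C2.e
  rw [Cx.theta_mu, mu, (hF.resolves Y.hI hh).iso.hf_eq, Germ.coe_eq] at h3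
  have h4 : ∀ᶠ n in atTop, (G.map (pbG K σ (p ^ m))).theta Y.C2.e hf Y.C1.R n =
      Y.fixed (p ^ m) := by
    filter_upwards [h3, Y.hf_fixed hm hh] with n a b
    exact a.symm.trans b
  have h5 : Tendsto (pbG K σ (p ^ m)).ρ l2 atTop := by
    rw [l2, tendsto_map'_iff]
    refine tendsto_atTop_mono (f := Prod.snd) (fun a => Nat.le_add_left _ _) ?_
    rw [← prod_atTop_atTop_eq]
    exact tendsto_snd
  have h6 : ∀ i, (G.free i).map (pbG K σ (p ^ m)) = (G.map (pbG K σ (p ^ m))).free i :=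
    fun i => Lef.free_map _ _
  have h7 : ∀ᶠ a in l2, G.theta Y.C2.e hf (GMod.cyc _ (Y.gr_hom (p ^ m))) a =
      Y.fixed (p ^ m) := by
    filter_upwards [h5.eventually h4, (eventually_all_finset (Finset.range Y.C2.e)).2
      fun i _ => Y.hf_coker_gr hQ (G.free i), Y.hf_coker_gr hQ (G.pres Y.C2.e)] with a a1 a2 a3
    rw [← a1]
    simp only [Cx.theta, Pi.add_apply, Finset.sum_apply, Pi.smul_apply]
    rw [a3]
    congr 1
    exact Finset.sum_congr rfl fun i hi => by rw [a2 i hi, h6]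
  have h8 : Y.C2.chi (GMod.cyc _ (Y.gr_hom 1)) (GMod.cyc _ (Y.gr_hom (p ^ m))) =
      ((Y.fixed (p ^ m) : ℤ) : Germ Y.C2.l ℤ) := by
    rw [h2, Cx.theta_mu]
    exact Germ.coe_eq.2 h7
  rw [Y.C2.ci_eq h8] at h1
  exact h1.symm

end Pool.Agent.Lib.MP_557161_ag.DL.Sm
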