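import Mathlib

/-!
Commutative algebra for the transversality of the diagonal and the graph of Frobenius.
-/

namespace Pool.Agent.Lib.MP_557161_ag.DL.Lef

open MvPolynomial Matrix TensorProduct

/-- The equational criterion for flatness in matrix form. -/
theorem ker_of_flat {P T : Type} [CommRing P] [CommRing T] {f : P →+* T} (hf : f.Flat)
    {β₀ β₁ : Type} [Fintype β₀] [Fintype β₁] (D : Matrix β₀ β₁ P) {v : β₁ → T}
    (hv : D.map f *ᵥ v = 0) :
    ∃ (k : ℕ) (a : Fin k → β₁ → P) (y : Fin k → T), (∀ j, D *ᵥ a j = 0) ∧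
      ∀ c, v c = ∑ j, f (a j c) * y j := by
  classical
  algebraize [f]
  obtain ⟨k, a, y, h1, h2⟩ := Module.Flat.exists_factorization_of_comp_eq_zero_of_free
    (f := D.vecMulLinear) (x := Fintype.linearCombination P v) (by
      ext b
      have := congrFun hv b
      simpa [Fintype.linearCombination_apply, mulVec, dotProduct, Algebra.smul_def,
        RingHom.algebraMap_toAlgebra] using this)
  refine ⟨k, fun j c => a (Pi.single c 1) j, fun j => y (Finsupp.single j 1), fun j => ?_,
    fun c => ?_⟩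
  · funext b
    have h3 := congrArg (fun g => g (Pi.single b 1) j) h2
    simp only [LinearMap.comp_apply, vecMulLinear_apply, single_one_vecMul, LinearMap.zero_apply,
      Finsupp.coe_zero, Pi.zero_apply] at h3
    have h4 : D.row b = ∑ c, D b c • (Pi.single c 1 : β₁ → P) := by
      funext c
      simp [Finset.sum_apply, Pi.single_apply]
    rw [h4, map_sum] at h3
    simpa [mulVec, dotProduct, Finsupp.finsetSum_apply] using h3
  · have h3 := congrArg (fun g => g (Pi.single c 1)) h1
    simp only [LinearMap.comp_apply, Fintype.linearCombination_apply_single, one_smul] at h3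
    rw [h3]
    conv_lhs => rw [← Finsupp.univ_sum_single (a (Pi.single c 1)), map_sum]
    refine Finset.sum_congr rfl fun j _ => ?_
    rw [← RingHom.algebraMap_toAlgebra f, ← Algebra.smul_def, ← map_smul, Finsupp.smul_single,
      smul_eq_mul, mul_one]

theorem exact_of_flat {P T : Type} [CommRing P] [CommRing T] {f : P →+* T} (hf : f.Flat)
    {β₀ β₁ β₂ : Type} [Fintype β₀] [Fintype β₁] [Fintype β₂] (D : Matrix β₀ β₁ P)
    (D' : Matrix β₁ β₂ P) (h : ∀ v, D *ᵥ v = 0 → ∃ w, D' *ᵥ w = v) (v : β₁ → T)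
    (hv : D.map f *ᵥ v = 0) : ∃ w, D'.map f *ᵥ w = v := by
  obtain ⟨k, a, y, h1, h2⟩ := ker_of_flat hf D hv
  choose w hw using fun j => h _ (h1 j)
  refine ⟨fun d => ∑ j, f (w j d) * y j, funext fun c => ?_⟩
  rw [h2]
  simp only [mulVec, dotProduct, map_apply, Finset.mul_sum]
  rw [Finset.sum_comm]
  refine Finset.sum_congr rfl fun j _ => ?_
  rw [← hw j]
  simp only [mulVec, dotProduct, map_sum, map_mul, Finset.sum_mul, mul_assoc]

theorem colon_of_flat {P T : Type} [CommRing P] [CommRing T] {f : P →+* T} (hf : f.Flat)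
    {ι : Type} [Fintype ι] (u : ι → P) {x : P}
    (h : ∀ a, x * a ∈ Ideal.span (Set.range u) → a ∈ Ideal.span (Set.range u)) {z : T}
    (hz : f x * z ∈ Ideal.span (Set.range fun i => f (u i))) :
    z ∈ Ideal.span (Set.range fun i => f (u i)) := by
  obtain ⟨c, hc⟩ := Ideal.mem_span_range_iff_exists_fun.1 hz
  obtain ⟨k, a, y, h1, h2⟩ := ker_of_flat hf
    (Matrix.of fun (_ : Unit) (o : Option ι) => o.elim x u) (v := fun o => o.elim z fun i => -c i)
    (by
      funext b
      simp only [mulVec, dotProduct, map_apply, of_apply, Fintype.sum_option, Option.elim,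
        Pi.zero_apply, ← hc]
      rw [← Finset.sum_add_distrib]
      exact Finset.sum_eq_zero fun i _ => by ring)
  have h3 : z = _ := h2 none
  rw [h3]
  refine Ideal.sum_mem _ fun j _ => Ideal.mul_mem_right _ _ ?_
  have h4 : a j none ∈ Ideal.span (Set.range u) := by
    apply h
    have h5 := congrFun (h1 j) ()
    simp only [mulVec, dotProduct, of_apply, Fintype.sum_option, Option.elim,
      Pi.zero_apply] at h5
    rw [eq_neg_of_add_eq_zero_left h5]
    exact neg_mem (Ideal.sum_mem _ fun i _ =>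
      Ideal.mul_mem_right _ _ (Ideal.subset_span ⟨i, rfl⟩))
  have h6 := Ideal.mem_map_of_mem f h4
  rwa [Ideal.map_span, ← Set.range_comp] at h6

theorem X_reg {ι B : Type} [CommRing B] {s : Set ι} {j : ι} (hj : j ∉ s) {a : MvPolynomial ι B}
    (h : X j * a ∈ Ideal.span (X '' s : Set (MvPolynomial ι B))) :
    a ∈ Ideal.span (X '' s : Set (MvPolynomial ι B)) := by
  classical
  rw [mem_ideal_span_X_image] at h ⊢
  intro m hm
  obtain ⟨i, hi, h1⟩ := h (Finsupp.single j 1 + m) (by
    rw [mem_support_iff, coeff_X_mul]; exact mem_support_iff.1 hm)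
  refine ⟨i, hi, ?_⟩
  have : j ≠ i := fun e => hj (e ▸ hi)
  simpa [Finsupp.single_apply, this] using h1

/-- The images of the variables under a flat map form a regular sequence. -/
theorem reg_of_flat {ι B T : Type} [CommRing B] [CommRing T] {f : MvPolynomial ι B →+* T}
    (hf : f.Flat) (s : Finset ι) {j : ι} (hj : j ∉ s) {z : T}
    (hz : f (X j) * z ∈ Ideal.span ((fun i => f (X i)) '' s)) :
    z ∈ Ideal.span ((fun i => f (X i)) '' s) := by
  rw [Set.image_eq_range] at hz ⊢
  refine colon_of_flat hf (fun i : (s : Set ι) => X i.1) (fun a ha => ?_) hz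
  rw [← Set.image_eq_range] at ha ⊢
  exact X_reg (by simpa using hj) ha

theorem mulVec_mem {T : Type} [CommRing T] {β₀ β₁ : Type} [Fintype β₁] (D : Matrix β₀ β₁ T)
    {U : Ideal T} {v : β₁ → T} (hv : ∀ c, v c ∈ U) (b : β₀) : (D *ᵥ v) b ∈ U :=
  Ideal.sum_mem _ fun c _ => Ideal.mul_mem_left _ _ (hv c)

/-- A resolution stays exact modulo a sequence that is regular on the ring and the module. -/
theorem exact_mod {T : Type} [CommRing T] {β : ℕ → Type} [∀ i, Fintype (β i)]
    (D : ∀ i, Matrix (β i) (β (i + 1)) T) (hcx : ∀ i, D i * D (i + 1) = 0)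
    (hex : ∀ i v, D i *ᵥ v = 0 → ∃ w, D (i + 1) *ᵥ w = v) {ι : Type} (u : ι → T)
    (hT : ∀ (s : Finset ι) j, j ∉ s → ∀ z, u j * z ∈ Ideal.span (u '' s) →
      z ∈ Ideal.span (u '' s))
    (hN : ∀ (s : Finset ι) j, j ∉ s → ∀ z : β 0 → T,
      (∃ w, ∀ b, u j * z b - (D 0 *ᵥ w) b ∈ Ideal.span (u '' s)) →
        ∃ w, ∀ b, z b - (D 0 *ᵥ w) b ∈ Ideal.span (u '' s))
    (s : Finset ι) : ∀ i v, (∀ b, (D i *ᵥ v) b ∈ Ideal.span (u '' s)) →
      ∃ w, ∀ c, v c - (D (i + 1) *ᵥ w) c ∈ Ideal.span (u '' s) := by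
  classical
  induction s using Finset.induction_on with
  | empty =>
    intro i v hv
    obtain ⟨w, hw⟩ := hex i v (funext fun b => by simpa using hv b)
    exact ⟨w, fun c => by simp [hw]⟩
  | insert j s hj ih =>
    intro i v hv
    simp only [Finset.coe_insert, Set.image_insert_eq, Ideal.mem_span_insert'] at hv ⊢
    choose z hz using hv
    have key : ∃ z', ∀ b, z b - (D i *ᵥ z') b ∈ Ideal.span (u '' s) := by
      cases i with
      | zero =>
        refine hN s j hj z ⟨-v, fun b => ?_⟩
        have := hz b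
        rw [mulVec_neg, Pi.neg_apply]
        convert this using 1; ring
      | succ i =>
        refine ih i z fun b => hT s j hj _ ?_
        have h1 := mulVec_mem (D i) (v := D (i + 1) *ᵥ v + u j • z)
          (fun c => by simpa [mul_comm] using hz c) b
        rw [mulVec_add, mulVec_mulVec, hcx, zero_mulVec, zero_add, mulVec_smul] at h1
        exact h1
    obtain ⟨z', hz'⟩ := key
    obtain ⟨w, hw⟩ := ih i (v + u j • z') fun b => by
      rw [mulVec_add, mulVec_smul]
      have := sub_mem (hz b) (Ideal.mul_mem_left _ (u j) (hz' b))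
      convert this using 1
      simp only [Pi.add_apply, Pi.smul_apply, smul_eq_mul]; ring
    refine ⟨w, fun c => ⟨z' c, ?_⟩⟩
    convert hw c using 1
    simp only [Pi.add_apply, Pi.smul_apply, smul_eq_mul]; ring

theorem lift_of_fs {P N C : Type} [CommRing P] [CommRing N] [CommRing C] {f : P →+* N}
    (hf : f.FormallySmooth) (I : Ideal C) (hI : I ^ 2 = ⊥) (c : P →+* C) (φ : N →+* C ⧸ I)
    (h : φ.comp f = (Ideal.Quotient.mk I).comp c) :
    ∃ φ' : N →+* C, φ'.comp f = c ∧ (Ideal.Quotient.mk I).comp φ' = φ := by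
  algebraize [f, c]
  obtain ⟨g, hg⟩ := Algebra.FormallySmooth.comp_surjective P N I hI
    { φ with commutes' := fun x => RingHom.congr_fun h x }
  exact ⟨g.toRingHom, RingHom.ext fun x => g.commutes x, RingHom.ext fun x => AlgHom.congr_fun hg x⟩

theorem fs_of_lift {P N : Type} [CommRing P] [CommRing N] {f : P →+* N}
    (H : ∀ (C : Type) [CommRing C] (I : Ideal C), I ^ 2 = ⊥ → ∀ (c : P →+* C) (φ : N →+* C ⧸ I),
      φ.comp f = (Ideal.Quotient.mk I).comp c →
      ∃ φ' : N →+* C, φ'.comp f = c ∧ (Ideal.Quotient.mk I).comp φ' = φ) :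
    f.FormallySmooth := by
  let := f.toAlgebra
  refine Algebra.FormallySmooth.of_comp_surjective fun C _ _ I hI φ => ?_
  obtain ⟨φ', h1, h2⟩ := H C I hI (algebraMap P C) φ.toRingHom
    (RingHom.ext fun x => φ.commutes x)
  exact ⟨{ φ' with commutes' := fun x => RingHom.congr_fun h1 x },
    AlgHom.ext fun x => RingHom.congr_fun h2 x⟩

theorem pow_eq_of_sub_mem {C : Type} [CommRing C] {p m : ℕ} (hp : p.Prime) (hm : 0 < m)
    (h0 : (p : C) = 0) {I : Ideal C} (hI : I ^ 2 = ⊥) {x y : C} (h : x - y ∈ I) :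
    x ^ p ^ m = y ^ p ^ m := by
  obtain ⟨r, hr⟩ := exists_add_pow_prime_pow_eq hp y (x - y) m
  have h2 : (x - y) ^ p ^ m = 0 := by
    have h3 : (x - y) ^ 2 = 0 := by
      have := Ideal.pow_mem_pow h 2
      rwa [hI, Ideal.mem_bot] at this
    refine pow_eq_zero_of_le ?_ h3
    exact le_trans hp.two_le (Nat.le_self_pow hm.ne' p)
  rw [add_sub_cancel, h2, h0] at hr
  simpa using hr

/-- Changing smooth coordinates by powers of the characteristic. -/
theorem twist_flat {K ι N : Type} [Field K] [Finite ι] [CommRing N] [Algebra K N] {p m : ℕ}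
    (hp : p.Prime) (hm : 0 < m) (h0 : (p : K) = 0) {f g : MvPolynomial ι K →ₐ[K] N}
    (hf : f.toRingHom.Smooth) (h : ∀ a, ∃ z, f (X a) = g (X a) + z ^ p ^ m) :
    g.toRingHom.Flat := by
  refine RingHom.Smooth.flat (RingHom.smooth_def.2 ⟨fs_of_lift fun C _ I hI c φ hφ => ?_, ?_⟩)
  · choose z hz using h
    choose z' hz' using fun a => Ideal.Quotient.mk_surjective (φ (z a))
    have hC : (p : C) = 0 := by
      rw [← map_natCast (c.comp MvPolynomial.C) p, h0, map_zero]
    obtain ⟨φ', h1, h2⟩ := lift_of_fs hf.formallySmooth I hI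
      (eval₂Hom (c.comp MvPolynomial.C) fun a => c (X a) + z' a ^ p ^ m) φ (by
        refine ringHom_ext (fun r => ?_) fun a => ?_
        · have e1 := RingHom.congr_fun hφ (MvPolynomial.C r)
          have e2 : f (MvPolynomial.C r) = g (MvPolynomial.C r) := by
            rw [← algebraMap_eq, f.commutes, g.commutes]
          simpa [e2] using e1
        · have e1 := RingHom.congr_fun hφ (X a)
          simp only [RingHom.comp_apply, AlgHom.toRingHom_eq_coe, RingHom.coe_coe] at e1
          simp [hz, hz', e1])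
    refine ⟨φ', ringHom_ext (fun r => ?_) fun a => ?_, h2⟩
    · have e1 := RingHom.congr_fun h1 (MvPolynomial.C r)
      have e2 : f (MvPolynomial.C r) = g (MvPolynomial.C r) := by
        rw [← algebraMap_eq, f.commutes, g.commutes]
      simpa [e2] using e1
    · have e1 := RingHom.congr_fun h1 (X a)
      have e2 : φ' (z a) ^ p ^ m = z' a ^ p ^ m := by
        refine pow_eq_of_sub_mem hp hm hC hI ?_
        rw [← Ideal.Quotient.eq, hz']
        exact RingHom.congr_fun h2 (z a)
      simpa [hz, e2] using e1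
  · refine RingHom.FinitePresentation.of_finiteType.1 ?_
    refine RingHom.FiniteType.of_comp_finiteType (f := algebraMap K (MvPolynomial ι K)) ?_
    have e : g.toRingHom.comp (algebraMap K (MvPolynomial ι K)) =
        f.toRingHom.comp (algebraMap K (MvPolynomial ι K)) :=
      RingHom.ext fun r => (g.commutes r).trans (f.commutes r).symm
    rw [e]
    exact (RingHom.FiniteType.of_finitePresentation hf.finitePresentation).comp
      (RingHom.finiteType_algebraMap.2 inferInstance)

/-- The diagonal of an unramified map is open. -/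
theorem exists_idem {P A T B : Type} [CommRing P] [CommRing A] [CommRing T] [CommRing B]
    {f : P →+* A} (hf : f.Etale) (i₁ i₂ : A →+* T) (h : i₁.comp f = i₂.comp f) (π : T →+* B)
    (hπ : π.comp i₁ = π.comp i₂) : ∃ e : T, π e = 1 ∧ ∀ s, (i₂ s - i₁ s) * e = 0 := by
  algebraize [f, i₁.comp f]
  obtain ⟨t, h1, h2⟩ := (Algebra.FormallyUnramified.iff_exists_tensorProduct
    (R := P) (S := A)).1 inferInstance
  let j₁ : A →ₐ[P] T := { i₁ with commutes' := fun _ => rfl }
  let j₂ : A →ₐ[P] T := { i₂ with commutes' := fun x => (RingHom.congr_fun h x).symm }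
  refine ⟨Algebra.TensorProduct.productMap j₁ j₂ t, ?_, fun s => ?_⟩
  · have : ∀ x, π (Algebra.TensorProduct.productMap j₁ j₂ x) =
        π (i₁ (Algebra.TensorProduct.lmul' P x)) := by
      intro x
      induction x with
      | zero => simp
      | add x y hx hy => simp only [map_add, hx, hy]
      | tmul a b =>
        rw [Algebra.TensorProduct.productMap_apply_tmul, Algebra.TensorProduct.lmul'_apply_tmul,
          map_mul, map_mul, map_mul]
        exact congrArg _ (RingHom.congr_fun hπ b).symm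
    rw [this, h2, map_one, map_one]
  · have := congrArg (Algebra.TensorProduct.productMap j₁ j₂) (h1 s)
    rw [map_mul, map_sub, Algebra.TensorProduct.productMap_apply_tmul,
      Algebra.TensorProduct.productMap_apply_tmul, map_one, map_one, one_mul, mul_one,
      map_zero] at this
    exact this

/-- Clearing denominators. -/
theorem descend {R B : Type} [CommRing R] [CommRing B] [Algebra R B] (r : R)
    [IsLocalization.Away r B] {β₁ β₂ : Type} [Fintype β₁] [Fintype β₂] (D : Matrix β₁ β₂ R)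
    (v : β₁ → R) {w : β₂ → B} (h : D.map (algebraMap R B) *ᵥ w = fun c => algebraMap R B (v c)) :
    ∃ (n : ℕ) (w' : β₂ → R), D *ᵥ w' = r ^ n • v := by
  obtain ⟨⟨_, n, rfl⟩, hn⟩ :=
    IsLocalization.exist_integer_multiples_of_finite (Submonoid.powers r) w
  choose w' hw' using hn
  have h1 : ∀ c, ∃ k : ℕ, r ^ k * ((D *ᵥ w') c - r ^ n * v c) = 0 := by
    intro c
    have h2 : algebraMap R B ((D *ᵥ w') c - r ^ n * v c) = 0 := by
      have h3 := congrFun h c
      rw [map_sub, map_mul, ← h3, RingHom.map_mulVec]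
      simp only [mulVec, dotProduct, Function.comp_apply, hw', Finset.mul_sum, Algebra.smul_def,
        ← Finset.sum_sub_distrib]
      exact Finset.sum_eq_zero fun d _ => by ring
    obtain ⟨⟨_, k, rfl⟩, hk⟩ := (IsLocalization.map_eq_zero_iff (Submonoid.powers r) B _).1 h2
    exact ⟨k, hk⟩
  choose k hk using h1
  refine ⟨∑ c, k c + n, r ^ (∑ c, k c) • w', funext fun c => ?_⟩
  obtain ⟨l, hl⟩ := Nat.exists_eq_add_of_le
    (Finset.single_le_sum (f := k) (fun _ _ => Nat.zero_le _) (Finset.mem_univ c))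
  rw [mulVec_smul]
  simp only [Pi.smul_apply, smul_eq_mul]
  rw [hl]
  linear_combination r ^ l * hk c

/-- The powers with exponent a power of the characteristic form a subalgebra. -/
theorem exists_powAlg {K : Type} (W : Type) [Field K] [IsAlgClosed K] [CommRing W] [Algebra K W]
    {p : ℕ} (hp : p.Prime) (h0 : (p : K) = 0) (m : ℕ) :
    ∃ Z : Subalgebra K W, ∀ w, w ∈ Z ↔ ∃ z, w = z ^ p ^ m := by
  have hW : (p : W) = 0 := by rw [← map_natCast (algebraMap K W) p, h0, map_zero]
  refine ⟨{ carrier := {w | ∃ z, w = z ^ p ^ m}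
            mul_mem' := ?_
            add_mem' := ?_
            algebraMap_mem' := ?_ }, fun _ => Iff.rfl⟩
  · rintro _ _ ⟨a, rfl⟩ ⟨b, rfl⟩
    exact ⟨a * b, (mul_pow _ _ _).symm⟩
  · rintro _ _ ⟨a, rfl⟩ ⟨b, rfl⟩
    obtain ⟨r, hr⟩ := exists_add_pow_prime_pow_eq hp a b m
    exact ⟨a + b, by rw [hr, hW]; simp⟩
  · intro c
    obtain ⟨z, hz⟩ := IsAlgClosed.exists_pow_nat_eq c (pow_pos hp.pos m)
    exact ⟨algebraMap K W z, by rw [← map_pow, hz]⟩

/-- A Noetherian ring in which every element is a `Q`-th power is reduced. -/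
theorem eq_zero_of_pow {W : Type} [CommRing W] [IsNoetherianRing W] {Q : ℕ} (hQ : 2 ≤ Q)
    (h : ∀ w : W, ∃ z, w = z ^ Q) {a : W} (ha : IsNilpotent a) : a = 0 := by
  obtain ⟨n, hn⟩ := IsNoetherianRing.isNilpotent_nilradical W
  have key : ∀ k : ℕ, ∃ b : W, a = b ^ Q ^ k := by
    intro k
    induction k with
    | zero => exact ⟨a, by simp⟩
    | succ k ih =>
      obtain ⟨b, hb⟩ := ih
      obtain ⟨z, hz⟩ := h b
      exact ⟨z, by rw [hb, hz, ← pow_mul, pow_succ']⟩
  obtain ⟨b, hb⟩ := key n
  have h1 : b ∈ nilradical W := mem_nilradical.2 (IsNilpotent.of_pow (hb ▸ ha))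
  have h2 := Ideal.pow_mem_pow h1 n
  rw [hn] at h2
  rw [hb]
  exact pow_eq_zero_of_le (Nat.lt_pow_self (by omega)).le h2

end Pool.Agent.Lib.MP_557161_ag.DL.Lef
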