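import Pool.Agent.Lib.MP_557161_ag.DL.Lef1

/-!
Exactness after restriction to the graph of a map that is transversal to a module.
-/

namespace Pool.Agent.Lib.MP_557161_ag.DL.Lef

open MvPolynomial Matrix TensorProduct

variable {K A B ι : Type} [Field K] [CommRing A] [CommRing B] [Algebra K A] [Algebra K B]

/-- The local equations of the graph. -/
noncomputable def uu (θ : A →ₐ[K] B) (t : ι → A) (a : ι) : A ⊗[K] B := t a ⊗ₜ 1 - 1 ⊗ₜ θ (t a)

/-- The restriction to the graph. -/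
noncomputable abbrev piG (θ : A →ₐ[K] B) : A ⊗[K] B →ₐ[K] B :=
  Algebra.TensorProduct.productMap θ (AlgHom.id K B)

theorem exists_flat (θ : A →ₐ[K] B) {t : ι → A}
    (ht : (aeval t : MvPolynomial ι K →ₐ[K] A).toRingHom.Flat) :
    ∃ φ : MvPolynomial ι B →+* A ⊗[K] B, φ.Flat ∧ ∀ a, φ (X a) = uu θ t a := by
  let τ : MvPolynomial ι B ≃ₐ[B] MvPolynomial ι B :=
    AlgEquiv.ofAlgHom (aeval fun a => X a - C (θ (t a))) (aeval fun a => X a + C (θ (t a)))
      (by ext1 a; simp) (by ext1 a; simp)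
  have h1 := RingHom.Flat.tensorProductMap (f := AlgHom.id K B) (g := aeval t)
    (RingHom.Flat.id B) ht
  refine ⟨(Algebra.TensorProduct.comm K B A).toRingEquiv.toRingHom.comp
    ((Algebra.TensorProduct.map (AlgHom.id K B) (aeval t) :
      B ⊗[K] MvPolynomial ι K →ₐ[K] B ⊗[K] A).toRingHom.comp
      ((algebraTensorAlgEquiv K B).symm.toRingEquiv.toRingHom.comp τ.toRingEquiv.toRingHom)),
    RingHom.Flat.comp (RingHom.Flat.comp (RingHom.Flat.comp (.of_bijective τ.bijective)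
      (.of_bijective (algebraTensorAlgEquiv K B).symm.bijective)) h1)
      (.of_bijective (Algebra.TensorProduct.comm K B A).bijective), fun a => ?_⟩
  have e1 : τ (X a) = X a - C (θ (t a)) := by simp [τ]
  have e2 : (algebraTensorAlgEquiv (σ := ι) K B).symm (C (θ (t a))) = θ (t a) ⊗ₜ 1 :=
    (algebraTensorAlgEquiv (σ := ι) K B).symm.commutes _
  show Algebra.TensorProduct.comm K B A (Algebra.TensorProduct.map (AlgHom.id K B) (aeval t)
    ((algebraTensorAlgEquiv K B).symm (τ (X a)))) = _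
  rw [e1, map_sub, e2, algebraTensorAlgEquiv_symm_X]
  simp [uu]

theorem piG_uu (θ : A →ₐ[K] B) (t : ι → A) (a : ι) : piG θ (uu θ t a) = 0 := by
  simp [uu]

theorem exists_sec (θ : A →ₐ[K] B) {t : ι → A}
    (ht : (aeval t : MvPolynomial ι K →ₐ[K] A).toRingHom.Etale) :
    ∃ e : A ⊗[K] B, piG θ e = 1 ∧
      ∀ x, (1 ⊗ₜ piG θ x - x) * e ∈ Ideal.span (Set.range (uu θ t)) := by
  set U := Ideal.span (Set.range (uu θ t)) with hU
  have hk : ∀ x ∈ U, piG θ x = 0 := by
    intro x hx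
    refine (Ideal.span_le (I := RingHom.ker (piG θ))).2 ?_ hx
    rintro _ ⟨a, rfl⟩
    exact piG_uu θ t a
  let j₁ : A →ₐ[K] A ⊗[K] B ⧸ U :=
    (Ideal.Quotient.mkₐ K U).comp Algebra.TensorProduct.includeLeft
  let j₂ : A →ₐ[K] A ⊗[K] B ⧸ U :=
    (Ideal.Quotient.mkₐ K U).comp (Algebra.TensorProduct.includeRight.comp θ)
  have h12 : j₁.comp (aeval t) = j₂.comp (aeval t) := by
    ext1 a
    simp only [j₁, j₂, AlgHom.comp_apply, aeval_X, Ideal.Quotient.mkₐ_eq_mk]
    exact Ideal.Quotient.eq.2 (Ideal.subset_span ⟨a, rfl⟩)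
  obtain ⟨e, h1, h2⟩ := exists_idem ht j₁.toRingHom j₂.toRingHom
    (congrArg AlgHom.toRingHom h12) (Ideal.Quotient.lift U (piG θ).toRingHom hk)
    (RingHom.ext fun a => by simp [j₁, j₂])
  obtain ⟨e, rfl⟩ := Ideal.Quotient.mk_surjective e
  refine ⟨e, h1, fun x => ?_⟩
  induction x with
  | zero => simp
  | add x y hx hy =>
    have := U.add_mem hx hy
    rw [map_add, tmul_add]
    convert this using 1; ring
  | tmul a b =>
    have h3 : ((1 : A) ⊗ₜ[K] θ a - a ⊗ₜ[K] (1 : B)) * e ∈ U := by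
      rw [← Ideal.Quotient.eq_zero_iff_mem, map_mul, map_sub]
      exact h2 a
    have h4 := U.mul_mem_left ((1 : A) ⊗ₜ[K] b) h3
    convert h4 using 1
    rw [← mul_assoc, mul_sub, Algebra.TensorProduct.tmul_mul_tmul,
      Algebra.TensorProduct.tmul_mul_tmul]
    simp [mul_comm]

theorem core_abs [Fintype ι] (θ : A →ₐ[K] B) {t : ι → A}
    (ht : (aeval t : MvPolynomial ι K →ₐ[K] A).toRingHom.Etale)
    {β : ℕ → Type} [∀ i, Fintype (β i)] [Unique (β 0)]
    (D : ∀ i, Matrix (β i) (β (i + 1)) (A ⊗[K] B)) (hcx : ∀ i, D i * D (i + 1) = 0)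
    (hex : ∀ i v, D i *ᵥ v = 0 → ∃ w, D (i + 1) *ᵥ w = v) {J : Ideal (A ⊗[K] B)}
    (hJ : J = Ideal.span (Set.range fun c => D 0 default c))
    {N : Type} [CommRing N] (α : A ⊗[K] B →+* N) (γ : N →+* A ⊗[K] B ⧸ J)
    (h1 : ∀ x ∈ J, α x = 0) (h2 : ∀ x, γ (α x) = Ideal.Quotient.mk J x)
    {g : MvPolynomial ι K →+* N} (hg : g.Flat) (hgu : ∀ a, g (X a) = α (uu θ t a))
    (i : ℕ) (v : β (i + 1) → B) (hv : (D i).map (piG θ) *ᵥ v = 0) :
    ∃ w, (D (i + 1)).map (piG θ) *ᵥ w = v := by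
  obtain ⟨φ, hφ, hφu⟩ := exists_flat θ (RingHom.Etale.iff_flat_and_formallyUnramified.1 ht).1
  obtain ⟨e, he1, he2⟩ := exists_sec θ ht
  have hmod := exact_mod D hcx hex (uu θ t) (fun s j hj z hz => by
      have := reg_of_flat hφ s hj (z := z)
      simp only [hφu] at this
      exact this hz)
    (fun s j hj z ⟨w, hw⟩ => by
      have a1 := reg_of_flat hg s hj (z := α (z default))
      simp only [hgu] at a1
      have a2 := Ideal.mem_map_of_mem α (hw default)
      have a3 : (D 0 *ᵥ w) default ∈ J := by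
        rw [hJ]
        exact Ideal.sum_mem _ fun c _ => Ideal.mul_mem_right _ _ (Ideal.subset_span ⟨c, rfl⟩)
      rw [map_sub, h1 _ a3, sub_zero, map_mul, Ideal.map_span, Set.image_image] at a2
      have a4 := Ideal.mem_map_of_mem γ (a1 a2)
      rw [h2, Ideal.map_span, Set.image_image] at a4
      simp only [h2] at a4
      rw [← Set.image_image (Ideal.Quotient.mk J) (uu θ t), ← Ideal.map_span,
        Ideal.mem_quotient_iff_mem_sup, Submodule.mem_sup] at a4
      obtain ⟨y, hy, x, hx, hxy⟩ := a4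
      rw [hJ] at hx
      obtain ⟨c, rfl⟩ := Ideal.mem_span_range_iff_exists_fun.1 hx
      refine ⟨c, fun b => ?_⟩
      rw [Unique.eq_default b, ← hxy]
      convert hy using 1
      simp [mulVec, dotProduct, mul_comm]) Finset.univ
  simp only [Finset.coe_univ, Set.image_univ] at hmod
  obtain ⟨w, hw⟩ := hmod i (fun c => e * (1 ⊗ₜ v c)) fun b => by
    have a1 : ∑ c, piG θ (D i b c) * v c = 0 := congrFun hv b
    have a2 : (D i *ᵥ fun c => e * (1 ⊗ₜ v c)) b =
        e * (1 : A) ⊗ₜ[K] (∑ c, piG θ (D i b c) * v c) -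
          ∑ c, (1 : A) ⊗ₜ[K] v c * ((1 ⊗ₜ piG θ (D i b c) - D i b c) * e) := by
      rw [tmul_sum, Finset.mul_sum, ← Finset.sum_sub_distrib]
      refine Finset.sum_congr rfl fun c _ => ?_
      have : (1 : A) ⊗ₜ[K] (piG θ (D i b c) * v c) =
          (1 : A) ⊗ₜ[K] piG θ (D i b c) * (1 : A) ⊗ₜ[K] v c := by
        rw [Algebra.TensorProduct.tmul_mul_tmul, one_mul]
      rw [this]; ring
    rw [a2, a1, tmul_zero, mul_zero, zero_sub]
    exact neg_mem (Ideal.sum_mem _ fun c _ => Ideal.mul_mem_left _ _ (he2 _))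
  refine ⟨fun d => piG θ (w d), funext fun c => ?_⟩
  have a1 : piG θ (e * (1 ⊗ₜ v c) - (D (i + 1) *ᵥ w) c) = 0 := by
    refine (Ideal.span_le (I := RingHom.ker (piG θ))).2 ?_ (hw c)
    rintro _ ⟨a, rfl⟩
    exact piG_uu θ t a
  rw [map_sub, map_mul, he1, one_mul, sub_eq_zero] at a1
  simp only [Algebra.TensorProduct.productMap_apply_tmul, map_one, one_mul, AlgHom.id_apply] at a1
  rw [a1]
  simp [mulVec, dotProduct]

end Pool.Agent.Lib.MP_557161_ag.DL.Lef
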