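import Pool.Agent.Lib.MP_557161_ag.DL.Cmp
import Pool.Agent.Lib.MP_557161_ag.DL.Lef2

/-!
The local computation for the transversality of the diagonal and the graph of Frobenius.
-/

namespace Pool.Agent.Lib.MP_557161_ag.DL.Lef

open MvPolynomial Matrix TensorProduct

variable {K : Type} [Field K] {σ : Type} [Finite σ] (Y : Sm K σ)

omit [Finite σ] in
theorem defOver_one (J : Ideal (MvPolynomial σ K)) : DefOver 1 J := fun f hf =>
  Ideal.subset_span ⟨hf, by simp⟩

theorem charK (K : Type) [Field K] (p : ℕ) [h : FBar K p] : (p : K) = 0 := by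
  have := h.char
  exact CharP.cast_eq_zero K p

omit [Finite σ] in
theorem minor_mem (i j : σ) :
    (X (Sum.inl i) * X (Sum.inr j) - X (Sum.inl j) * X (Sum.inr i) :
      MvPolynomial (σ ⊕ σ) K) ∈ Y.gr 1 := by
  rw [Sm.gr, RingHom.mem_ker]
  simp only [Sm.par, map_sub, map_mul, aeval_X, Sum.elim_inl, Sum.elim_inr, pow_one]
  ring

/-- The scaling action on the cone. -/
theorem exists_co : ∃ co : (MvPolynomial σ K ⧸ Y.I) →ₐ[K] Polynomial (MvPolynomial σ K ⧸ Y.I),
    ∀ i, co (Ideal.Quotient.mk _ (X i)) =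
      Polynomial.X * Polynomial.C (Ideal.Quotient.mk _ (X i)) := by
  refine ⟨Ideal.Quotient.liftₐ Y.I ((Y.par 1).comp (rename Sum.inl)) fun f hf => ?_, fun i => ?_⟩
  · exact Y.le_gr one_pos (defOver_one _)
      (Ideal.mem_sup_left (Ideal.mem_map_of_mem _ hf))
  · simp [Sm.par]

omit [Finite σ] in
theorem quot_ext {W : Type} [CommRing W] [Algebra K W] {I : Ideal (MvPolynomial σ K)}
    {f g : (MvPolynomial σ K ⧸ I) →ₐ[K] W}
    (h : ∀ i, f (Ideal.Quotient.mk _ (X i)) = g (Ideal.Quotient.mk _ (X i))) : f = g :=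
  Ideal.Quotient.algHom_ext K (MvPolynomial.algHom_ext h)

theorem exists_awayLift {R B W : Type} [CommRing R] [CommRing B] [CommRing W] [Algebra K R]
    [Algebra K B] [Algebra K W] [Algebra R B] [IsScalarTower K R B] (r : R)
    [IsLocalization.Away r B] (f : R →ₐ[K] W) (h : IsUnit (f r)) :
    ∃ F : B →ₐ[K] W, ∀ x, F (algebraMap R B x) = f x :=
  ⟨IsLocalization.Away.liftAlgHom r (f := f) h, fun x =>
    IsLocalization.Away.lift_eq (g := f.toRingHom) r h x⟩

theorem exists_polyLift {A W : Type} [CommRing A] [CommRing W] [Algebra K A] [Algebra K W]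
    (f : A →ₐ[K] W) (x : W) :
    ∃ F : Polynomial A →ₐ[K] W, (∀ a, F (Polynomial.C a) = f a) ∧ F Polynomial.X = x :=
  ⟨{ Polynomial.eval₂RingHom (f : A →+* W) x with
      commutes' := fun c => by simp [Polynomial.algebraMap_apply] },
    fun a => by simp, by simp⟩

section Loc

variable {A B : Type} [CommRing A] [Algebra K A] [Algebra (MvPolynomial σ K ⧸ Y.I) A]
  [IsScalarTower K (MvPolynomial σ K ⧸ Y.I) A] [CommRing B] [Algebra K B]
  [Algebra (MvPolynomial σ K ⧸ Y.I) B] [IsScalarTower K (MvPolynomial σ K ⧸ Y.I) B]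

variable (A B) in
/-- The map from the polynomial ring of the product to a chart. -/
noncomputable def io : MvPolynomial (σ ⊕ σ) K →ₐ[K] A ⊗[K] B :=
  aeval (Sum.elim (fun i => algebraMap _ A (Ideal.Quotient.mk Y.I (X i)) ⊗ₜ 1)
    fun i => 1 ⊗ₜ algebraMap _ B (Ideal.Quotient.mk Y.I (X i)))

omit [Finite σ] in
theorem exists_io_flat (r r' : MvPolynomial σ K ⧸ Y.I) [IsLocalization.Away r A]
    [IsLocalization.Away r' B] :
    ∃ f : (MvPolynomial (σ ⊕ σ) K ⧸ bx Y.I Y.I) →+* A ⊗[K] B, f.Flat ∧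
      ∀ x, f (Ideal.Quotient.mk _ x) = io Y A B x := by
  obtain ⟨φ, h1, h2⟩ := exists_bx_equiv Y.I Y.I
  have hA : (IsScalarTower.toAlgHom K (MvPolynomial σ K ⧸ Y.I) A).toRingHom.Flat :=
    RingHom.Flat.holdsForLocalizationAway A r
  have hB : (IsScalarTower.toAlgHom K (MvPolynomial σ K ⧸ Y.I) B).toRingHom.Flat :=
    RingHom.Flat.holdsForLocalizationAway B r'
  have h3 := RingHom.Flat.tensorProductMap hA hB
  refine ⟨_, RingHom.Flat.comp (.of_bijective (f := φ.toRingEquiv.toRingHom) φ.bijective) h3, ?_⟩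
  have h4 : ((Algebra.TensorProduct.map (IsScalarTower.toAlgHom K (MvPolynomial σ K ⧸ Y.I) A)
      (IsScalarTower.toAlgHom K (MvPolynomial σ K ⧸ Y.I) B)).comp φ.toAlgHom).comp
      (Ideal.Quotient.mkₐ K _) = io Y A B := by
    ext1 i
    rcases i with i | i
    · have := h1 (X i)
      rw [rename_X] at this
      simp [io, this]
    · have := h2 (X i)
      rw [rename_X] at this
      simp [io, this]
  exact fun x => AlgHom.congr_fun h4 x

omit [Finite σ] [IsScalarTower K (MvPolynomial σ K ⧸ Y.I) A] in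
theorem chart_aux (r' : MvPolynomial σ K ⧸ Y.I) [IsLocalization.Away r' B] (s : σ)
    (hA : IsUnit (algebraMap _ A (Ideal.Quotient.mk Y.I (X s))))
    (hB : IsUnit (algebraMap _ B (Ideal.Quotient.mk Y.I (X s))))
    (ρ : (MvPolynomial σ K ⧸ Y.I) →ₐ[K] Polynomial A)
    (hρ : ∀ i, ρ (Ideal.Quotient.mk _ (X i)) =
      Polynomial.X * Polynomial.C (algebraMap _ A (Ideal.Quotient.mk Y.I (X i))))
    (N : Type) [CommRing N] [Algebra K N] [Algebra (Polynomial A) N]
    [IsScalarTower K (Polynomial A) N] [IsLocalization.Away (ρ r') N]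
    (J : Ideal (A ⊗[K] B)) (hJ : J = (Y.gr 1).map (io Y A B)) :
    ∃ (α : A ⊗[K] B →ₐ[K] N) (γ : N →+* A ⊗[K] B ⧸ J),
      (∀ a, α (a ⊗ₜ 1) = algebraMap _ _ (Polynomial.C a)) ∧
      (∀ x ∈ J, α x = 0) ∧ ∀ x, γ (α x) = Ideal.Quotient.mk _ x := by
  obtain ⟨jN, hjN⟩ : ∃ jN : Polynomial A →ₐ[K] N, ∀ x, jN x = algebraMap _ _ x :=
    ⟨IsScalarTower.toAlgHom K _ N, fun _ => rfl⟩
  obtain ⟨αB, hαB⟩ : ∃ αB : B →ₐ[K] N, ∀ x, αB (algebraMap _ B x) = jN (ρ x) :=
    exists_awayLift r' (jN.comp ρ) (by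
      rw [AlgHom.comp_apply, hjN]; exact IsLocalization.Away.algebraMap_isUnit (ρ r'))
  obtain ⟨α, hα⟩ : ∃ α : A ⊗[K] B →ₐ[K] N, ∀ a b, α (a ⊗ₜ b) = jN (Polynomial.C a) * αB b :=
    ⟨Algebra.TensorProduct.productMap (jN.comp Polynomial.CAlgHom) αB, fun _ _ => rfl⟩
  have hμ : IsUnit (jN Polynomial.X) := by
    have := hB.map αB
    rw [hαB, hρ, map_mul] at this
    exact isUnit_of_mul_isUnit_left this
  obtain ⟨ν, hν⟩ := hμ.exists_left_inv
  obtain ⟨x', hx'⟩ := hA.exists_left_inv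
  obtain ⟨jA, hjA⟩ : ∃ jA : A →ₐ[K] A ⊗[K] B ⧸ J, ∀ a, jA a = Ideal.Quotient.mk J (a ⊗ₜ 1) :=
    ⟨(Ideal.Quotient.mkₐ K J).comp Algebra.TensorProduct.includeLeft, fun _ => rfl⟩
  obtain ⟨jB, hjB⟩ : ∃ jB : B →ₐ[K] A ⊗[K] B ⧸ J, ∀ b, jB b = Ideal.Quotient.mk J (1 ⊗ₜ b) :=
    ⟨(Ideal.Quotient.mkₐ K J).comp Algebra.TensorProduct.includeRight, fun _ => rfl⟩
  obtain ⟨γ₀, hγC, hγX⟩ :=
    exists_polyLift jA (jA x' * jB (algebraMap _ B (Ideal.Quotient.mk Y.I (X s))))
  have hγρ : γ₀.comp ρ = jB.comp (IsScalarTower.toAlgHom K _ B) := by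
    refine quot_ext fun i => ?_
    have e1 : jA (algebraMap _ A (Ideal.Quotient.mk Y.I (X i))) *
        jB (algebraMap _ B (Ideal.Quotient.mk Y.I (X s))) =
        jA (algebraMap _ A (Ideal.Quotient.mk Y.I (X s))) *
        jB (algebraMap _ B (Ideal.Quotient.mk Y.I (X i))) := by
      have := Ideal.mem_map_of_mem (io Y A B) (minor_mem Y i s)
      rw [map_sub, ← hJ, ← Ideal.Quotient.eq] at this
      simpa [io, hjA, hjB, ← map_mul] using this
    have e2 : jA x' * jA (algebraMap _ A (Ideal.Quotient.mk Y.I (X s))) = 1 := by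
      rw [← map_mul, hx', map_one]
    rw [AlgHom.comp_apply, hρ, map_mul, hγX, hγC, AlgHom.comp_apply,
      IsScalarTower.coe_toAlgHom']
    linear_combination jA x' * e1 + jB (algebraMap _ B (Ideal.Quotient.mk Y.I (X i))) * e2
  have hu : IsUnit (γ₀ (ρ r')) := by
    have := AlgHom.congr_fun hγρ r'
    rw [AlgHom.comp_apply] at this
    rw [this]
    exact (IsLocalization.Away.algebraMap_isUnit r').map jB
  obtain ⟨γ, hγ⟩ : ∃ γ : N →ₐ[K] A ⊗[K] B ⧸ J, ∀ x, γ (algebraMap _ _ x) = γ₀ x :=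
    exists_awayLift (ρ r') γ₀ hu
  refine ⟨α, γ.toRingHom, fun a => by rw [hα, map_one, mul_one, hjN], ?_, ?_⟩
  · obtain ⟨δ, hδC, hδX⟩ := exists_polyLift (jN.comp ρ) ν
    have e1 : α.comp (io Y A B) = δ.comp (Y.par 1) := by
      ext1 i
      rcases i with i | i
      · have : δ (Y.par 1 (X (Sum.inl i))) = ν * jN (ρ (Ideal.Quotient.mk _ (X i))) := by
          simp [Sm.par, hδC, hδX, mul_comm]
        rw [AlgHom.comp_apply, AlgHom.comp_apply, this, hρ, map_mul, ← mul_assoc, hν, one_mul]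
        simp [io, hα]
      · have : δ (Y.par 1 (X (Sum.inr i))) = jN (ρ (Ideal.Quotient.mk _ (X i))) := by
          simp [Sm.par, hδC]
        rw [AlgHom.comp_apply, AlgHom.comp_apply, this, ← hαB]
        simp [io, hα]
    intro x hx
    rw [hJ] at hx
    refine (Ideal.map_le_iff_le_comap.2 fun f hf => ?_ : _ ≤ RingHom.ker α) hx
    have e2 := AlgHom.congr_fun e1 f
    have e3 : Y.par 1 f = 0 := hf
    rw [AlgHom.comp_apply, AlgHom.comp_apply, e3, map_zero] at e2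
    exact e2
  · have e1 : γ.comp αB = jB := by
      refine IsLocalization.algHom_ext (Submonoid.powers r') (AlgHom.ext fun x => ?_)
      show γ (αB (algebraMap _ B x)) = jB (algebraMap _ B x)
      rw [hαB, hjN, hγ]
      exact AlgHom.congr_fun hγρ x
    intro x
    show γ (α x) = _
    induction x with
    | zero => simp
    | add x y hx hy => simp only [map_add, hx, hy]
    | tmul a b =>
      have e3 : γ (αB b) = jB b := AlgHom.congr_fun e1 b
      rw [hα, map_mul, hjN, hγ, hγC, e3, hjA, hjB, ← map_mul,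
        Algebra.TensorProduct.tmul_mul_tmul, mul_one, one_mul]

/-- The chart of the cone over the diagonal. -/
theorem exists_chart (r' : MvPolynomial σ K ⧸ Y.I) [IsLocalization.Away r' B] (s : σ)
    (hA : IsUnit (algebraMap _ A (Ideal.Quotient.mk Y.I (X s))))
    (hB : IsUnit (algebraMap _ B (Ideal.Quotient.mk Y.I (X s)))) :
    ∃ (h : Polynomial A) (α : A ⊗[K] B →ₐ[K] Localization.Away h)
      (γ : Localization.Away h →+* A ⊗[K] B ⧸ (Y.gr 1).map (io Y A B)),
      (∀ a, α (a ⊗ₜ 1) = algebraMap _ _ (Polynomial.C a)) ∧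
      (∀ x ∈ (Y.gr 1).map (io Y A B), α x = 0) ∧ ∀ x, γ (α x) = Ideal.Quotient.mk _ x := by
  obtain ⟨co, hco⟩ := exists_co Y
  exact ⟨(Polynomial.mapAlgHom (IsScalarTower.toAlgHom K _ A)).comp co r', chart_aux Y r' s hA hB
    ((Polynomial.mapAlgHom (IsScalarTower.toAlgHom K _ A)).comp co) (fun i => by simp [hco])
    _ _ rfl⟩

omit [Finite σ] in
/-- The Frobenius between charts. -/
theorem exists_theta {p m : ℕ} [FBar K p] (hI : DefOver (p ^ m) Y.I) (g : MvPolynomial σ K)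
    [IsLocalization.Away (Ideal.Quotient.mk Y.I g) A]
    [IsLocalization.Away (Ideal.Quotient.mk Y.I (expand (p ^ m) g)) B] :
    ∃ θ : A →ₐ[K] B, (∀ i, θ (algebraMap _ A (Ideal.Quotient.mk Y.I (X i))) =
      algebraMap _ B (Ideal.Quotient.mk Y.I (X i)) ^ p ^ m) ∧ ∀ a, ∃ z, θ a = z ^ p ^ m := by
  have hp := FBar.prime (K := K)
  have := FBar.closed (K := K)
  have hQ : 0 < p ^ m := pow_pos hp.pos m
  let φ : MvPolynomial σ K →ₐ[K] B := (IsScalarTower.toAlgHom K _ B).comp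
    ((Ideal.Quotient.mkₐ K Y.I).comp (expand (p ^ m)))
  have hφ : ∀ f, φ f = algebraMap _ B (Ideal.Quotient.mk Y.I (expand (p ^ m) f)) := fun _ => rfl
  obtain ⟨θ, hθ⟩ : ∃ θ : A →ₐ[K] B, ∀ f, θ (algebraMap _ A (Ideal.Quotient.mk Y.I f)) = φ f := by
    obtain ⟨θ, hθ⟩ := exists_awayLift (B := A) (Ideal.Quotient.mk Y.I g)
      (Ideal.Quotient.liftₐ Y.I φ fun f hf => by
        rw [hφ, Ideal.Quotient.eq_zero_iff_mem.2 (hI.map_le hQ (Ideal.mem_map_of_mem _ hf)),
          map_zero])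
      (IsLocalization.Away.algebraMap_isUnit (S := B)
        (Ideal.Quotient.mk Y.I (expand (p ^ m) g)))
    exact ⟨θ, fun f => hθ _⟩
  refine ⟨θ, fun i => by rw [hθ, hφ, expand_X, map_pow, map_pow], fun a => ?_⟩
  obtain ⟨Z, hZ⟩ := exists_powAlg (K := K) B hp (charK K p) m
  have h1 : ∀ f, ∃ z, φ f = z ^ p ^ m := by
    intro f
    rw [← hZ]
    induction f using MvPolynomial.induction_on with
    | C c => rw [← algebraMap_eq, φ.commutes]; exact Z.algebraMap_mem c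
    | add f f' h h' => rw [map_add]; exact Z.add_mem h h'
    | mul_X f i h =>
      rw [map_mul]
      refine Z.mul_mem h ((hZ _).2 ⟨algebraMap _ B (Ideal.Quotient.mk Y.I (X i)), ?_⟩)
      rw [hφ, expand_X, map_pow, map_pow]
  obtain ⟨n, r, hr⟩ := IsLocalization.Away.surj (Ideal.Quotient.mk Y.I g) a
  obtain ⟨f, rfl⟩ := Ideal.Quotient.mk_surjective r
  obtain ⟨z, hz⟩ := h1 f
  obtain ⟨y, hy⟩ := h1 g
  have h2 := congrArg θ hr
  rw [map_mul, map_pow, hθ, hθ, hz, hy] at h2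
  have h3 : IsUnit y := by
    refine (isUnit_pow_iff hQ.ne').1 ?_
    rw [← hy, hφ]
    exact IsLocalization.Away.algebraMap_isUnit (S := B) _
  obtain ⟨y', hy'⟩ := h3.exists_right_inv
  refine ⟨z * y' ^ n, ?_⟩
  rw [mul_pow, ← h2, mul_assoc, ← pow_mul, ← pow_mul, mul_comm n, ← mul_pow, hy', one_pow, mul_one]

/-- Exactness of the pulled back complex on a chart. -/
theorem core {p m : ℕ} [FBar K p] (hm : 0 < m) (hI : DefOver (p ^ m) Y.I) {G : Cx K (w2 σ σ)}
    (hG : G.CycRes (bx Y.I Y.I) {1} (Y.gr 1)) (g : MvPolynomial σ K)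
    [IsLocalization.Away (Ideal.Quotient.mk Y.I g) A]
    [IsLocalization.Away (Ideal.Quotient.mk Y.I (expand (p ^ m) g)) B] (s : σ)
    (hA : IsUnit (algebraMap _ A (Ideal.Quotient.mk Y.I (X s)))) {e : ℕ} {t : Fin e → A}
    (ht : (aeval t : MvPolynomial (Fin e) K →ₐ[K] A).toRingHom.Etale) (i : ℕ)
    (v : G.β (i + 1) → B)
    (hv : (G.D i).map (fun f => algebraMap _ B (Ideal.Quotient.mk Y.I ((pbG K σ (p ^ m)).φ f))) *ᵥ
      v = 0) :
    ∃ w, (G.D (i + 1)).map
      (fun f => algebraMap _ B (Ideal.Quotient.mk Y.I ((pbG K σ (p ^ m)).φ f))) *ᵥ w = v := by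
  have hp := FBar.prime (K := K)
  obtain ⟨θ, hθ, hθp⟩ := exists_theta Y (A := A) (B := B) hI g
  obtain ⟨f, hf, hfi⟩ := exists_io_flat Y (A := A) (B := B) (Ideal.Quotient.mk Y.I g)
    (Ideal.Quotient.mk Y.I (expand (p ^ m) g))
  have hB : IsUnit (algebraMap _ B (Ideal.Quotient.mk Y.I (X s))) := by
    have := hA.map θ
    rwa [hθ, isUnit_pow_iff (pow_pos hp.pos m).ne'] at this
  obtain ⟨h, α, γ, hα, h1, h2⟩ := exists_chart Y (Ideal.Quotient.mk Y.I (expand (p ^ m) g)) s hA hB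
  obtain ⟨_⟩ := hG.one
  have hπ : ∀ x, piG θ (io Y A B x) =
      algebraMap _ B (Ideal.Quotient.mk Y.I ((pbG K σ (p ^ m)).φ x)) := by
    have : (piG θ).comp (io Y A B) = ((IsScalarTower.toAlgHom K _ B).comp
        (Ideal.Quotient.mkₐ K Y.I)).comp (pbG K σ (p ^ m)).φ := by
      ext1 i
      rcases i with i | i <;> simp [io, pbG, hθ]
    exact fun x => AlgHom.congr_fun this x
  have hmap : ∀ j, ((G.D j).map (io Y A B)).map (piG θ) = (G.D j).map
      (fun f => algebraMap _ B (Ideal.Quotient.mk Y.I ((pbG K σ (p ^ m)).φ f))) :=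
    fun j => Matrix.ext fun b c => hπ _
  have hmap' : ∀ j, (G.D j).map (io Y A B) = ((G.D j).map (Ideal.Quotient.mk _)).map f :=
    fun j => Matrix.ext fun b c => (hfi _).symm
  have hkill : ∀ x ∈ bx Y.I Y.I, io Y A B x = 0 := fun x hx => by
    rw [← hfi, Ideal.Quotient.eq_zero_iff_mem.2 hx, map_zero]
  have hsm : (aeval fun a => α (t a ⊗ₜ 1) :
      MvPolynomial (Fin e) K →ₐ[K] Localization.Away h).toRingHom.Smooth := by
    have e1 : (aeval fun a => α (t a ⊗ₜ 1) :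
        MvPolynomial (Fin e) K →ₐ[K] Localization.Away h).toRingHom =
        (algebraMap (Polynomial A) _).comp ((algebraMap A (Polynomial A)).comp
          (aeval t : MvPolynomial (Fin e) K →ₐ[K] A).toRingHom) := by
      refine ringHom_ext (fun c => ?_) fun a => ?_
      · simp [IsScalarTower.algebraMap_apply K (Polynomial A) (Localization.Away h)]
      · simp [hα]
    rw [e1]
    exact (((RingHom.etale_iff_formallyUnramified_and_smooth _).1 ht).2.comp
      (RingHom.smooth_algebraMap.2 ⟨inferInstance, inferInstance⟩)).comp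
      (RingHom.Smooth.holdsForLocalizationAway _ h)
  have hfl := twist_flat hp hm (charK K p) (g := aeval fun a => α (uu θ t a)) hsm fun a => by
    obtain ⟨z, hz⟩ := hθp (t a)
    refine ⟨α (1 ⊗ₜ z), ?_⟩
    rw [aeval_X, aeval_X, uu, hz, map_sub, ← map_pow, Algebra.TensorProduct.tmul_pow, one_pow,
      sub_add_cancel]
  rw [← hmap] at hv ⊢
  refine core_abs θ ht (fun j => (G.D j).map (io Y A B)) (fun j => ?_) (fun j u hu => ?_) ?_
    α.toRingHom γ h1 h2 hfl (fun a => aeval_X _ a) i v hv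
  · rw [← Matrix.map_mul]
    exact Matrix.ext fun b c => hkill _ (hG.cx j b c)
  · rw [hmap'] at hu ⊢
    refine exact_of_flat hf _ _ (fun x hx => ?_) u hu
    obtain ⟨n, hn⟩ := hG.ex j 1 rfl
    obtain ⟨y, hy⟩ := hn x hx
    rw [one_pow, one_smul] at hy
    exact ⟨y, hy⟩
  · rw [hG.gen, Ideal.map_sup, (Ideal.map_eq_bot_iff_le_ker _).2 hkill, bot_sup_eq,
      Ideal.map_span, ← Set.range_comp]
    congr 1
    ext x
    constructor
    · rintro ⟨⟨b, c⟩, rfl⟩
      exact ⟨c, by rw [Unique.eq_default b]; rfl⟩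
    · rintro ⟨c, rfl⟩
      exact ⟨(default, c), rfl⟩

end Loc

end Pool.Agent.Lib.MP_557161_ag.DL.Lef
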