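import Pool.Agent.Lib.MP_557161_ag.DL.Lef3

/-!
The fixed point scheme of Frobenius is reduced.
-/

namespace Pool.Agent.Lib.MP_557161_ag.DL.Lef

open MvPolynomial Filter

variable {K : Type} [Field K] {σ : Type}

theorem pbG_inl (Q : ℕ) (f : MvPolynomial σ K) :
    (pbG K σ Q).φ (rename Sum.inl f) = expand Q f := by
  have : (pbG K σ Q).φ.comp (rename Sum.inl) = expand Q := by
    ext1 i; simp [pbG]
  exact AlgHom.congr_fun this f

theorem pbG_inr (Q : ℕ) (f : MvPolynomial σ K) : (pbG K σ Q).φ (rename Sum.inr f) = f := by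
  have : (pbG K σ Q).φ.comp (rename Sum.inr) = AlgHom.id K _ := by
    ext1 i; simp [pbG]
  exact AlgHom.congr_fun this f

theorem map_bx_le {p : ℕ} [FBar K p] {Q : ℕ} (hQ : 0 < Q) {I : Ideal (MvPolynomial σ K)}
    (hI : DefOver Q I) : (bx I I).map (pbG K σ Q).φ ≤ I := by
  rw [Ideal.map_le_iff_le_comap]
  refine sup_le (Ideal.map_le_iff_le_comap.2 fun f hf => ?_)
    (Ideal.map_le_iff_le_comap.2 fun f hf => ?_)
  · show (pbG K σ Q).φ (rename Sum.inl f) ∈ I
    rw [pbG_inl]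
    exact hI.map_le hQ (Ideal.mem_map_of_mem _ hf)
  · show (pbG K σ Q).φ (rename Sum.inr f) ∈ I
    rwa [pbG_inr]

theorem aeval_mul_hom {W : Type} [CommRing W] [Algebra K W] {f : MvPolynomial σ K} {n : ℕ}
    (hf : f.IsWeightedHomogeneous (w1 σ) n) (c : W) (x : σ → W) :
    aeval (fun i => c * x i) f = c ^ n * aeval x f := by
  classical
  conv_lhs => rw [f.as_sum]
  conv_rhs => rw [f.as_sum]
  rw [map_sum, map_sum, Finset.mul_sum]
  refine Finset.sum_congr rfl fun m hm => ?_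
  rw [← hf (mem_support_iff.1 hm), aeval_monomial, aeval_monomial, Finsupp.weight_apply]
  simp only [Finsupp.prod, Finsupp.sum, mul_pow, Finset.prod_mul_distrib, w1, smul_eq_mul,
    mul_one, Finset.prod_pow_eq_pow_sum]
  ring

theorem aeval_pi {ι : Type} (x : ι → σ → K) (f : MvPolynomial σ K) (k : ι) :
    (aeval fun i k => x k i : MvPolynomial σ K →ₐ[K] (ι → K)) f k = aeval (x k) f := by
  have : (Pi.evalAlgHom K (fun _ : ι => K) k).comp (aeval fun i k => x k i) = aeval (x k) := by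
    ext1 i; simp
  exact AlgHom.congr_fun this f

variable (Y : Sm K σ)

/-- The fixed points of Frobenius. -/
abbrev Fix (Q : ℕ) : Type := {x : Projectivization K (σ → K) //
  x.rep ∈ zeroLocus K Y.I ∧ ∃ c : K, (fun s => x.rep s ^ Q) = c • x.rep}

/-- The ideal of the fixed point scheme. -/
noncomputable abbrev fixI (Q : ℕ) : Ideal (MvPolynomial σ K) :=
  Y.I ⊔ (Y.gr 1).map (pbG K σ Q).φ

theorem fixI_vanish {Q : ℕ} (k : Fix Y Q) {f : MvPolynomial σ K} (hf : f ∈ fixI Y Q) :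
    aeval k.1.rep f = 0 := by
  obtain ⟨x, h1, c, h2⟩ := k
  refine (sup_le (fun g hg => h1 g hg) (Ideal.map_le_iff_le_comap.2 fun g hg => ?_) :
    fixI Y Q ≤ RingHom.ker (aeval x.rep : MvPolynomial σ K →ₐ[K] K)) hf
  obtain ⟨δ, hC, hX⟩ := exists_polyLift (Ideal.Quotient.liftₐ Y.I (aeval x.rep) h1) c
  have e1 : (aeval x.rep : MvPolynomial σ K →ₐ[K] K).comp (pbG K σ Q).φ = δ.comp (Y.par 1) := by
    ext1 i
    rcases i with i | i
    · have := congrFun h2 i
      simp only [Pi.smul_apply, smul_eq_mul] at this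
      simp [pbG, Sm.par, hC, hX, this, mul_comm]
    · simp [pbG, Sm.par, hC]
  have e2 := AlgHom.congr_fun e1 g
  have e3 : Y.par 1 g = 0 := hg
  rw [AlgHom.comp_apply, AlgHom.comp_apply, e3, map_zero] at e2
  exact e2

theorem minor_fixI (Q : ℕ) (i j : σ) : X i ^ Q * X j - X j ^ Q * X i ∈ fixI Y Q := by
  have := Ideal.mem_map_of_mem (pbG K σ Q).φ (minor_mem Y i j)
  refine Ideal.mem_sup_right ?_
  simpa [pbG] using this

theorem finite_fix [Finite σ] {Q : ℕ} (hQ : 2 ≤ Q) : Finite (Fix Y Q) := by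
  have h1 : {c : K | c ^ Q = c}.Finite := by
    have h0 : (Polynomial.X ^ Q - Polynomial.X : Polynomial K) ≠ 0 := by
      intro h
      have := congrArg Polynomial.natDegree (sub_eq_zero.1 h)
      rw [Polynomial.natDegree_X_pow, Polynomial.natDegree_X] at this
      omega
    refine (Polynomial.finite_setOfPred_isRoot h0).subset fun c hc => ?_
    have : c ^ Q = c := hc
    simp [this]
  have h2 : {y : σ → K | ∀ i, y i ∈ {c : K | c ^ Q = c}}.Finite := Set.Finite.pi' fun _ => h1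
  have h3 : ∀ k : Fix Y Q, ∃ y : σ → K, (∀ i, y i ^ Q = y i) ∧
      ∃ a : K, a • y = k.1.rep := by
    rintro ⟨x, -, c, hc⟩
    obtain ⟨j, hj⟩ := Function.ne_iff.1 x.rep_nonzero
    have hj' : x.rep j ≠ 0 := hj
    have e : ∀ i, x.rep i ^ Q = c * x.rep i := fun i => congrFun hc i
    have hc0 : c ≠ 0 := fun h => pow_ne_zero Q hj' (by rw [e, h, zero_mul])
    refine ⟨fun i => x.rep i / x.rep j, fun i => ?_, x.rep j, funext fun i => ?_⟩
    · rw [div_pow, e, e, mul_div_mul_left _ _ hc0]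
    · simp only [Pi.smul_apply, smul_eq_mul]
      field_simp
  choose y hy a ha using h3
  refine Set.finite_univ_iff.1 (Set.Finite.of_finite_image (f := y)
    (h2.subset (by rintro _ ⟨k, -, rfl⟩; exact hy k)) fun k _ k' _ h => Subtype.ext ?_)
  rw [← k.1.mk_rep, ← k'.1.mk_rep, Projectivization.mk_eq_mk_iff']
  have h0 : a k' ≠ 0 := fun e => k'.1.rep_nonzero (by rw [← ha, e, zero_smul])
  exact ⟨a k / a k', by rw [← ha k', ← ha k, h, smul_smul, div_mul_cancel₀ _ h0]⟩

/-- A form that vanishes on the fixed points lies in the saturation. -/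
theorem sat_fix [Finite σ] {p m : ℕ} [FBar K p] (hm : 0 < m)
    (h : WHomog (w1 σ) (fixI Y (p ^ m))) {f : MvPolynomial σ K} {n : ℕ}
    (hf : f.IsWeightedHomogeneous (w1 σ) n) (h0 : ∀ k : Fix Y (p ^ m), aeval k.1.rep f = 0)
    (j : σ) : ∃ N : ℕ, X j ^ N * f ∈ fixI Y (p ^ m) := by
  have hp := FBar.prime (K := K)
  have := FBar.closed (K := K)
  have hQ : 2 ≤ p ^ m := le_trans hp.two_le (Nat.le_self_pow hm.ne' p)
  set J := fixI Y (p ^ m) with hJ
  obtain ⟨W, _, _, _, _, _⟩ : ∃ (W : Type) (_ : CommRing W) (_ : Algebra K W)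
      (_ : Algebra (MvPolynomial σ K ⧸ J) W) (_ : IsScalarTower K (MvPolynomial σ K ⧸ J) W),
      IsLocalization.Away (Ideal.Quotient.mk J (X j)) W :=
    ⟨Localization.Away (Ideal.Quotient.mk J (X j)), inferInstance, inferInstance, inferInstance,
      inferInstance, inferInstance⟩
  obtain ⟨φ, hφ⟩ : ∃ φ : MvPolynomial σ K →ₐ[K] W,
      ∀ g, φ g = algebraMap _ W (Ideal.Quotient.mk J g) :=
    ⟨(IsScalarTower.toAlgHom K _ W).comp (Ideal.Quotient.mkₐ K J), fun _ => rfl⟩
  have hφJ : ∀ g ∈ J, φ g = 0 := fun g hg => by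
    rw [hφ, Ideal.Quotient.eq_zero_iff_mem.2 hg, map_zero]
  obtain ⟨ν, hν⟩ : ∃ ν, ν * φ (X j) = 1 := by
    rw [hφ]
    exact (IsLocalization.Away.algebraMap_isUnit _).exists_left_inv
  let ψ : MvPolynomial σ K →ₐ[K] W := aeval fun i => ν * φ (X i)
  have hψX : ∀ i, ψ (X i) = ν * φ (X i) := fun i => aeval_X _ i
  have hψ : ∀ {g : MvPolynomial σ K} {a : ℕ}, g.IsWeightedHomogeneous (w1 σ) a →
      ψ g = ν ^ a * φ g := by
    intro g a hg
    have e : (aeval fun i => φ (X i) : MvPolynomial σ K →ₐ[K] W) = φ :=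
      MvPolynomial.algHom_ext fun i => aeval_X _ i
    rw [aeval_mul_hom hg, e]
  have hJψ : J ≤ RingHom.ker ψ := by
    refine h.le_span.trans (Ideal.span_le.2 ?_)
    rintro g ⟨hg, a, ha⟩
    show ψ g = 0
    rw [hψ ha, hφJ g hg, mul_zero]
  have hpow : ∀ i, X i ^ p ^ m - X i ∈ RingHom.ker ψ := by
    intro i
    have e := hφJ _ (minor_fixI Y (p ^ m) i j)
    rw [map_sub, map_mul, map_mul, map_pow, map_pow] at e
    have e' : (ν * φ (X j)) ^ p ^ m = 1 := by rw [hν, one_pow]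
    rw [RingHom.mem_ker, map_sub, map_pow, hψX]
    rw [mul_pow] at e' ⊢
    linear_combination ν ^ p ^ m * ν * e - ν ^ p ^ m * φ (X i) ^ p ^ m * hν + ν * φ (X i) * e'
  have hrad : (RingHom.ker ψ).radical ≤ RingHom.ker ψ := by
    obtain ⟨Z, hZ⟩ := exists_powAlg (K := K) (MvPolynomial σ K ⧸ RingHom.ker ψ) hp (charK K p) m
    have hall : ∀ w : MvPolynomial σ K ⧸ RingHom.ker ψ, ∃ z, w = z ^ p ^ m := by
      intro w
      obtain ⟨g, rfl⟩ := Ideal.Quotient.mk_surjective w
      rw [← hZ]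
      induction g using MvPolynomial.induction_on with
      | C c => exact Z.algebraMap_mem c
      | add g g' h h' => rw [map_add]; exact Z.add_mem h h'
      | mul_X g i h =>
        rw [map_mul]
        refine Z.mul_mem h ((hZ _).2 ⟨Ideal.Quotient.mk _ (X i), ?_⟩)
        rw [← map_pow]
        exact (Ideal.Quotient.eq.2 (hpow i)).symm
    rintro g ⟨k, hk⟩
    rw [← Ideal.Quotient.eq_zero_iff_mem]
    refine eq_zero_of_pow hQ hall ⟨k, ?_⟩
    rw [← map_pow, Ideal.Quotient.eq_zero_iff_mem]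
    exact hk
  have hfψ : f ∈ RingHom.ker ψ := by
    apply hrad
    rw [← vanishingIdeal_zeroLocus_eq_radical (K := K)]
    intro x hx
    have hxj : x j = 1 := by
      have := hx (X j - 1) (by rw [RingHom.mem_ker, map_sub, hψX, hν, map_one, sub_self])
      simpa [sub_eq_zero] using this
    have hxQ : ∀ i, x i ^ p ^ m = x i := fun i => by
      simpa [sub_eq_zero] using hx _ (hpow i)
    have hx0 : x ≠ 0 := fun e => by simp [e] at hxj
    obtain ⟨a, ha⟩ := Projectivization.exists_smul_eq_mk_rep K x hx0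
    have ha' : (Projectivization.mk K x hx0).rep = fun i => (a : K) * x i := ha.symm
    have hk := h0 ⟨Projectivization.mk K x hx0, ?_, (a : K) ^ (p ^ m - 1), ?_⟩
    · rw [ha', aeval_mul_hom hf] at hk
      exact (mul_eq_zero.1 hk).resolve_left (pow_ne_zero _ a.ne_zero)
    · intro g hg
      refine (Y.hI.le_span.trans (Ideal.span_le.2 ?_) :
        Y.I ≤ RingHom.ker (aeval (Projectivization.mk K x hx0).rep :
          MvPolynomial σ K →ₐ[K] K)) hg
      rintro g ⟨hg, b, hb⟩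
      show aeval (Projectivization.mk K x hx0).rep g = 0
      rw [ha', aeval_mul_hom hb, hx g (hJψ (Ideal.mem_sup_left hg)), mul_zero]
    · funext i
      rw [ha', Pi.smul_apply, smul_eq_mul, mul_pow, hxQ, ← mul_assoc, ← pow_succ,
        Nat.sub_add_cancel (by omega)]
  have e1 : φ f = 0 := by
    have e2 : ν ^ n * φ f = 0 := by rw [← hψ hf]; exact hfψ
    have e3 : (ν * φ (X j)) ^ n = 1 := by rw [hν, one_pow]
    rw [mul_pow] at e3
    linear_combination φ (X j) ^ n * e2 - φ f * e3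
  rw [hφ] at e1
  obtain ⟨⟨_, N, rfl⟩, hN⟩ := (IsLocalization.map_eq_zero_iff
    (Submonoid.powers (Ideal.Quotient.mk J (X j))) W _).1 e1
  refine ⟨N, ?_⟩
  rw [← Ideal.Quotient.eq_zero_iff_mem, map_mul, map_pow]
  exact hN

/-- Forms of large degree separate finitely many points. -/
theorem exists_sep {ι : Type} [Fintype ι] (x : ι → Projectivization K (σ → K))
    (hx : Function.Injective x) {n : ℕ} (hn : Fintype.card ι ≤ n) (k : ι) :
    ∃ f : MvPolynomial σ K, f.IsWeightedHomogeneous (w1 σ) n ∧ aeval (x k).rep f ≠ 0 ∧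
      ∀ k', k' ≠ k → aeval (x k').rep f = 0 := by
  classical
  have h1 : ∀ k', ∃ l : MvPolynomial σ K, l.IsWeightedHomogeneous (w1 σ) 1 ∧
      aeval (x k).rep l ≠ 0 ∧ (k' ≠ k → aeval (x k').rep l = 0) := by
    intro k'
    obtain ⟨j, hj⟩ := Function.ne_iff.1 (x k').rep_nonzero
    have hj' : (x k').rep j ≠ 0 := hj
    by_cases e : k' = k
    · subst e
      exact ⟨X j, isWeightedHomogeneous_X K _ j, by simpa using hj', fun h => absurd rfl h⟩
    · have h2 : ∃ i, (x k').rep j * (x k).rep i - (x k').rep i * (x k).rep j ≠ 0 := by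
        by_contra h3
        push Not at h3
        apply e
        apply hx
        rw [← (x k).mk_rep, ← (x k').mk_rep, eq_comm, Projectivization.mk_eq_mk_iff']
        refine ⟨(x k).rep j / (x k').rep j, funext fun i => ?_⟩
        rw [Pi.smul_apply, smul_eq_mul]
        field_simp
        linear_combination -h3 i
      obtain ⟨i, hi⟩ := h2
      refine ⟨C ((x k').rep j) * X i - C ((x k').rep i) * X j, ?_, by simpa using hi,
        fun _ => by simp [mul_comm]⟩
      exact (weightedHomogeneousSubmodule K (w1 σ) 1).sub_mem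
        ((isWeightedHomogeneous_X K _ i).C_mul _) ((isWeightedHomogeneous_X K _ j).C_mul _)
  choose l hl1 hl2 hl3 using h1
  refine ⟨(∏ k', l k') * l k ^ (n - Fintype.card ι), ?_, ?_, fun k' hk => ?_⟩
  · have a1 := IsWeightedHomogeneous.prod Finset.univ l (fun _ => 1) fun k' _ => hl1 k'
    have a2 := a1.mul ((hl1 k).pow (n - Fintype.card ι))
    simpa [Nat.add_sub_cancel' hn] using a2
  · rw [map_mul, map_prod, map_pow]
    exact mul_ne_zero (Finset.prod_ne_zero_iff.2 fun k' _ => hl2 k') (pow_ne_zero _ (hl2 k))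
  · rw [map_mul, map_prod, Finset.prod_eq_zero (Finset.mem_univ k') (hl3 k' hk), zero_mul]

theorem neg_sat [Finite σ] {J a : Ideal (MvPolynomial σ K)} {g : MvPolynomial σ K}
    {S : Set (MvPolynomial σ K)} (ha : a = Ideal.span S) (h : ∀ f ∈ S, ∃ N : ℕ, g ^ N * f ∈ J) :
    ∃ N : ℕ, ∀ f ∈ a, g ^ N * f ∈ J := by
  obtain ⟨N, hN⟩ := monotone_stabilizes_iff_noetherian.2
    (inferInstance : IsNoetherian (MvPolynomial σ K) (MvPolynomial σ K))
    ⟨fun N => Submodule.comap (LinearMap.mulLeft (MvPolynomial σ K) (g ^ N)) J,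
      monotone_nat_of_le_succ fun N f hf => by
        show g ^ (N + 1) * f ∈ J
        rw [pow_succ', mul_assoc]
        exact J.mul_mem_left _ hf⟩
  refine ⟨N, fun f hf => ?_⟩
  rw [ha] at hf
  refine (Ideal.span_le.2 ?_ :
    _ ≤ Submodule.comap (LinearMap.mulLeft (MvPolynomial σ K) (g ^ N)) J) hf
  intro f hf
  obtain ⟨N', hN'⟩ := h f hf
  have h1 : g ^ (N + N') * f ∈ J := by
    rw [pow_add, mul_assoc]
    exact J.mul_mem_left _ hN'
  exact (hN (N + N') (Nat.le_add_right _ _)).ge h1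

/-- The Hilbert function of a finite set of points. -/
theorem hf_points [Finite σ] {J : Ideal (MvPolynomial σ K)} (h : WHomog (w1 σ) J) {ι : Type}
    [Fintype ι] (x : ι → Projectivization K (σ → K)) (hx : Function.Injective x)
    (hv : ∀ k, ∀ f ∈ J, aeval (x k).rep f = 0)
    (hs : ∀ (f : MvPolynomial σ K) n, f.IsWeightedHomogeneous (w1 σ) n →
      (∀ k, aeval (x k).rep f = 0) → ∀ j, ∃ N : ℕ, X j ^ N * f ∈ J)
    (neg : ∀ N : GMod K (w1 σ), Module.Finite (MvPolynomial σ K) N.V → Neg (Set.range X) N →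
      ∀ᶠ a in atTop, N.part a = ⊥) :
    ∀ᶠ n in atTop, hf (GMod.cyc J h) n = Fintype.card ι := by
  classical
  obtain ⟨a, haS⟩ : ∃ a : Ideal (MvPolynomial σ K), a = Ideal.span
    {f | (∃ n, f.IsWeightedHomogeneous (w1 σ) n) ∧ ∀ k, aeval (x k).rep f = 0} := ⟨_, rfl⟩
  have ha : WHomog (w1 σ) a := haS ▸ wHomog_span fun f hf => hf.1
  have hU : (GMod.cyc J h).Hmg (Submodule.map J.mkQ a) := by
    rintro n _ ⟨f, hf, rfl⟩
    exact ⟨_, ha f hf n, rfl⟩
  have hneg : Neg (Set.range X) ((GMod.cyc J h).sub _ hU) := by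
    rintro _ ⟨j, rfl⟩
    obtain ⟨N, hN⟩ := neg_sat (J := J) (g := X j) haS fun f ⟨⟨n, hn⟩, h0⟩ => hs f n hn h0 j
    refine ⟨N, ?_⟩
    rintro ⟨_, f, hf, rfl⟩
    exact Subtype.ext ((Ideal.Quotient.eq_zero_iff_mem (I := J)).2 (hN f hf))
  have hfin : Module.Finite (MvPolynomial σ K) (Submodule.map J.mkQ a) := inferInstance
  have hbot := neg _ hfin hneg
  obtain ⟨ev, hev⟩ : ∃ ev : (MvPolynomial σ K ⧸ J) →ₐ[K] (ι → K),
      ∀ f k, ev (Ideal.Quotient.mk J f) k = aeval (x k).rep f := by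
    refine ⟨Ideal.Quotient.liftₐ J (aeval fun i k => (x k).rep i) fun g hg => ?_, fun g k => ?_⟩
    · funext k
      rw [aeval_pi (fun k => (x k).rep), Pi.zero_apply]
      exact hv k g hg
    · rw [Ideal.Quotient.liftₐ_apply, Ideal.Quotient.lift_mk]
      exact aeval_pi (fun k => (x k).rep) g k
  filter_upwards [hbot, eventually_ge_atTop (Fintype.card ι)] with n hn hn'
  obtain ⟨e, he⟩ : ∃ e : (GMod.cyc J h).part n →ₗ[K] (ι → K), ∀ v, e v = ev v.1 :=
    ⟨ev.toLinearMap ∘ₗ ((GMod.cyc J h).part n).subtype, fun _ => rfl⟩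
  have hmem : ∀ f : MvPolynomial σ K, f.IsWeightedHomogeneous (w1 σ) n →
      (Ideal.Quotient.mk J f : (GMod.cyc J h).V) ∈ (GMod.cyc J h).part n := fun f hf =>
    congrArg (Ideal.Quotient.mk J) hf.weightedHomogeneousComponent_same
  have hinj : Function.Injective e := by
    rw [injective_iff_map_eq_zero]
    rintro ⟨v, hv⟩ h0
    obtain ⟨f, rfl⟩ := Ideal.Quotient.mk_surjective (I := J) v
    have h1 : Ideal.Quotient.mk J (weightedHomogeneousComponent (w1 σ) n f) =
      Ideal.Quotient.mk J f := hv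
    have h2 : weightedHomogeneousComponent (w1 σ) n f ∈ a := by
      rw [haS]
      refine Ideal.subset_span
        ⟨⟨n, weightedHomogeneousComponent_isWeightedHomogeneous n f⟩, fun k => ?_⟩
      rw [← hev, h1]
      rw [he] at h0
      exact congrFun h0 k
    have h3 : (⟨Ideal.Quotient.mk J f, _, h2, h1⟩ : ((GMod.cyc J h).sub _ hU).V) ∈
        ((GMod.cyc J h).sub _ hU).part n := Subtype.ext hv
    have h4 := congrArg Subtype.val ((Submodule.eq_bot_iff _).1 hn _ h3)
    exact Subtype.ext h4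
  have hsurj : Function.Surjective e := by
    intro y
    choose f hf1 hf2 hf3 using exists_sep x hx hn'
    have h1 : ∀ k k', e ⟨_, hmem _ (hf1 k)⟩ k' = aeval (x k').rep (f k) := fun k k' => by
      rw [he]; exact hev _ _
    refine ⟨∑ k, (y k / aeval (x k).rep (f k)) • ⟨_, hmem _ (hf1 k)⟩, funext fun k => ?_⟩
    rw [map_sum, Finset.sum_apply, Finset.sum_eq_single k]
    · rw [map_smul, Pi.smul_apply, smul_eq_mul, h1, div_mul_cancel₀ _ (hf2 k)]
    · intro k' _ hk
      rw [map_smul, Pi.smul_apply, smul_eq_mul, h1, hf3 k' k hk.symm, mul_zero]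
    · simp
  rw [hf, (LinearEquiv.ofBijective e ⟨hinj, hsurj⟩).finrank_eq, Module.finrank_fintype_fun_eq_card]

theorem mulVec_of_mat {S B β₀ β₁ : Type} [CommRing S] [CommRing B] [Fintype β₁] {I : Ideal S}
    (φ : S ⧸ I →+* B) (D : Matrix β₀ β₁ S) {v : β₁ → S ⧸ I} (hv : mat D (S ⧸ I) v = 0) :
    (D.map fun f => φ (Ideal.Quotient.mk I f)).mulVec (fun c => φ (v c)) = 0 := by
  funext b
  have := congrArg φ (congrFun hv b)
  rw [mat_apply, map_sum, Pi.zero_apply, map_zero] at this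
  refine Eq.trans (Finset.sum_congr rfl fun c _ => ?_) this
  exact (φ.map_mul (Ideal.Quotient.mk I (D b c)) (v c)).symm

theorem free_map {τ τ' Γ Γ' β : Type} [AddCommMonoid Γ] [AddCommMonoid Γ'] {w : τ → Γ}
    {w' : τ' → Γ'} [Fintype β] (d : β → Γ) (P : Pb K w w') :
    (Pres.free K w d).map P = Pres.free K w' (P.ρ ∘ d) := by
  have key : ∀ (d₀ : β → Γ') (d₁ d₁' : Empty → Γ') (D D' : Matrix β Empty (MvPolynomial τ' K))
      (h : MatHom w' d₀ d₁ D) (h' : MatHom w' d₀ d₁' D'),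
      (⟨β, Empty, d₀, d₁, D, h⟩ : Pres K w') = ⟨β, Empty, d₀, d₁', D', h'⟩ := by
    intro d₀ d₁ d₁' D D' h h'
    obtain rfl : d₁ = d₁' := funext fun c => c.elim
    obtain rfl : D = D' := Matrix.ext fun _ c => c.elim
    rfl
  exact key _ _ _ _ _ _ _

end Pool.Agent.Lib.MP_557161_ag.DL.Lef
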