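import Pool.Agent.Lib.MP_557161_ag.DL.Term
import Pool.Agent.Lib.MP_557161_ag.DL.Abs

/-!
All Deligne-Lusztig varieties of the orthogonal and symplectic groups have the Chow-Kuenneth
generation property.
-/

namespace Pool.Agent.Lib.MP_557161_ag.DL

open Module Submodule Matrix

variable {k₀ : Type} [Field k₀] [Fintype k₀] {K : Type} [Field K] [Algebra k₀ K] [Base K]

section

variable {ι : Type} [Fintype ι] {G : Matrix ι ι k₀} {n : ℕ}

lemma ck_rot (hG : EForm G) {τ : Bool} {b : ℕ} (hb : 1 ≤ b) (hbn : b ≤ n) (u₁ : List ℕ)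
    (h₁ : ∀ s ∈ u₁, b < s ∧ s ≤ n) (v : List ℕ) (h : CK (YS K G n τ b (v ++ u₁))) :
    CK (YS K G n τ b (u₁ ++ v)) := by
  induction u₁ generalizing v with
  | nil => simpa using h
  | cons a u ih =>
    have ha := h₁ a (by simp)
    refine ck_pass (s' := a) hG hb hbn (Or.inr ⟨ha.1, ha.2, rfl⟩) ?_
    show CK (YS K G n τ b ((u ++ v) ++ [a]))
    rw [List.append_assoc]
    exact ih (fun s hs => h₁ s (by simp [hs])) _ (by simpa using h)

lemma exists_split (b : ℕ) (u : List ℕ) : (∀ s ∈ u, b < s) ∨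
    ∃ u₁ s u₂, u = u₁ ++ s :: u₂ ∧ (∀ a ∈ u₁, b < a) ∧ s ≤ b := by
  induction u with
  | nil => simp
  | cons a u ih =>
    by_cases ha : a ≤ b
    · exact Or.inr ⟨[], a, u, rfl, by simp, ha⟩
    · rcases ih with h | ⟨u₁, s, u₂, rfl, h₁, h₂⟩
      · exact Or.inl (by simpa [not_le.1 ha] using h)
      · exact Or.inr ⟨a :: u₁, s, u₂, rfl, by simpa [not_le.1 ha] using h₁, h₂⟩

variable [NeZero (2 : k₀)]

lemma ck_ys (hG : EForm G) (hn : n = Fintype.card ι / 2)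
    (ih : ∀ m < Fintype.card ι, ∀ G₂ : Matrix (Fin m) (Fin m) k₀, EForm G₂ →
      ∀ u : List ℕ, (∀ s ∈ u, 1 ≤ s ∧ s ≤ m / 2) → CK (XC K G₂ (m / 2) u))
    (u : List ℕ) (hu : ∀ s ∈ u, 1 ≤ s ∧ s ≤ n) (τ : Bool) (b : ℕ) (hb : 1 ≤ b) (hbn : b ≤ n) :
    CK (YS K G n τ b u) := by
  induction hl : u.length using Nat.strong_induction_on generalizing u τ b with
  | _ len ih₁ =>
  induction hw : (u.map fun s => b - s).sum using Nat.strong_induction_on generalizing u with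
  | _ wt ih₂ =>
  rcases exists_split b u with h | ⟨u₁, s, u₂, rfl, h₁, hs⟩
  · exact ck_terminal hG hn ih τ hb hbn fun s hs => ⟨h s hs, (hu s hs).2⟩
  refine ck_rot hG hb hbn u₁ (fun a ha => ⟨h₁ a ha, (hu a (by simp [ha])).2⟩) _ ?_
  have hs1 := (hu s (by simp)).1
  have hr : ∀ a ∈ u₂ ++ u₁, 1 ≤ a ∧ a ≤ n := fun a ha => hu a (by
    simp only [List.mem_append, List.mem_cons] at ha ⊢; tauto)
  have key : ∀ τ' b', 1 ≤ b' → b' ≤ n → CK (YS K G n τ' b' (u₂ ++ u₁)) := fun τ' b' =>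
    ih₁ _ (by rw [← hl]; simp; omega) _ hr τ' b' (hl := rfl)
  show CK (YS K G n τ b (s :: (u₂ ++ u₁)))
  by_cases h2 : s + 2 ≤ b
  · refine ck_pass (s' := s + 1) hG hb hbn (Or.inl ⟨hs1, h2, rfl⟩) (ih₂ _ ?_ _ ?_ ?_ rfl)
    · rw [← hw]; simp; omega
    · intro a ha
      rcases List.mem_append.1 ha with ha | ha
      · exact hr a ha
      · rw [List.mem_singleton.1 ha]; omega
    · rw [← hl]; simp; omega
  rcases (by omega : s = b ∨ s + 1 = b) with rfl | rfl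
  · rcases hbn.lt_or_eq with h3 | h3
    · cases τ
      · exact (ck_absorb hG hn ⟨hs1, Or.inr (Or.inr ⟨h3, rfl, rfl, rfl, rfl⟩)⟩
          (key _ _ (by omega) h3) (key _ _ hb hbn)).2
      · exact (ck_absorb hG hn ⟨hs1, Or.inl ⟨h3, rfl, rfl, rfl, rfl⟩⟩
          (key _ _ hb hbn) (key _ _ (by omega) h3)).1
    · have := ck_absorb (K := K) hG hn ⟨hs1, Or.inr (Or.inl ⟨h3, rfl, h3, rfl, h3⟩)⟩
        (key _ _ hb hbn) (key _ _ hb hbn)
      cases τ
      · exact this.2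
      · exact this.1
  · cases τ
    · exact (ck_absorb hG hn ⟨hs1, Or.inr (Or.inr ⟨hbn, rfl, rfl, rfl, rfl⟩)⟩
        (key _ _ hb hbn) (key _ _ hs1 (by omega))).1
    · exact (ck_absorb hG hn ⟨hs1, Or.inl ⟨hbn, rfl, rfl, rfl, rfl⟩⟩
        (key _ _ hs1 (by omega)) (key _ _ hb hbn)).2

end

lemma eq_of_rel_one {L ι : Type} [Field L] [Fintype ι] {G : Matrix ι ι L} {n : ℕ} {A D : Flg L ι}
    (hA : IsFl G n A) (hD : IsFl G n D) (h : Rel G n true 1 A D) : D = A := by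
  refine Finsupp.ext fun i => ?_
  rcases Nat.eq_zero_or_pos i with rfl | h0
  · rw [hA.zero, hD.zero]
  by_cases hi : i ≤ n
  · refine eq_of_le_of_finrank_le (le_trans ?_ (h.hi i h0 hi)) (by rw [hA.rank i hi, hD.rank i hi])
    exact le_inf le_rfl ((hD.le_perp i 1).trans (perp_anti G h.pos.1))
  · rw [hA.out i (not_le.1 hi), hD.out i (not_le.1 hi)]

lemma rel_self {L ι : Type} [Field L] [Fintype ι] {G : Matrix ι ι L} {n : ℕ} (hn : 1 ≤ n)
    {A : Flg L ι} (hA : IsFl G n A) : Rel G n true 1 A A := by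
  refine ⟨⟨le_rfl, fun h => ?_⟩, fun i hi => hA.le i (by omega), fun i _ _ => inf_le_left⟩
  have := finrank_mono h
  rw [hA.rank 1 hn, hA.rank (1 - 1) (by omega)] at this
  omega

variable [NeZero (2 : k₀)]

theorem ck_xc {ι : Type} [Fintype ι] {G : Matrix ι ι k₀} (hG : EForm G) {n : ℕ}
    (hn : n = Fintype.card ι / 2) {u : List ℕ} (hu : ∀ s ∈ u, 1 ≤ s ∧ s ≤ n) :
    CK (XC K G n u) := by
  induction hc : Fintype.card ι using Nat.strong_induction_on generalizing ι n u with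
  | _ N ih =>
  rcases Nat.eq_zero_or_pos n with h0 | h0
  · obtain rfl : u = [] := List.eq_nil_iff_forall_not_mem.2 fun s hs => by
      have := hu s hs; omega
    refine CK.of_const fun L _ y hy => ⟨((0 : Flg K ι), []), Prod.ext ?_ (path_nil.1 hy.2).1.symm⟩
    refine Finsupp.ext fun i => (smap_bot _).trans ?_
    rcases Nat.eq_zero_or_pos i with rfl | hi
    · exact hy.1.zero.symm
    · exact (hy.1.out i (by omega)).symm
  refine CK.image (W := YS K G n true 1 u) ⟨fun y => (y.1, y.2.2), fun y hy => ⟨hy.1, ?_⟩,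
    fun _ _ _ => rfl, fun _ _ _ _ _ => rfl⟩ ?_ ?_
    (ck_ys hG hn (fun m hm G₂ h₂ u hu => ih m (hc ▸ hm) h₂ (by simp) hu (by simp)) u hu true 1
      le_rfl h0)
  · have := hy.2.2.2
    rwa [eq_of_rel_one hy.1 hy.2.1 hy.2.2.1] at this
  · rintro M O ⟨A, D, Es⟩ _ hy hz
    obtain rfl : D = A := eq_of_rel_one hy.1 hy.2.1 hy.2.2.1
    exact ⟨hz.1, hz.1, rel_self h0 hz.1, hz.2⟩
  · rintro L _ ⟨A, Es⟩ hz
    exact ⟨(A, A, Es), ⟨hz.1, hz.1, rel_self h0 hz.1, hz.2⟩, rfl⟩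

end Pool.Agent.Lib.MP_557161_ag.DL
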