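import Pool.Agent.Lib.MP_557161_ag.DL.Defs

/-!
The affine charts of the Pluecker-Segre model: chains of flags given by normalised matrices over
any commutative ring.
-/

namespace Pool.Agent.Lib.MP_557161_ag.DL.Model

open Matrix

variable {B B' : Type} [CommRing B] [CommRing B'] {ι α β γ : Type}

/-- The columns `t` of a matrix. -/
abbrev cols (A : Matrix α ι B) (t : β → ι) : Matrix α β B := A.submatrix id t

/-- The rows of `A` lie in the row space of `A'`. -/
def Sub [Fintype β] (A : Matrix α ι B) (A' : Matrix β ι B) : Prop :=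
  ∃ C : Matrix α β B, A = C * A'

/-- The same as an equation, for `A'` whose columns `t` form the identity matrix. -/
def Inc [Fintype β] (t : β → ι) (A : Matrix α ι B) (A' : Matrix β ι B) : Prop :=
  A = cols A t * A'

/-- Basis matrices of the members of a flag. -/
abbrev Fl (ι : Type) (n : ℕ) (B : Type) : Type := ∀ i : Fin (n + 1), Matrix (Fin i) ι B

variable {n l : ℕ}

/-- An isotropic flag with normalised basis matrices. -/
structure IsFl [Fintype ι] (G : Matrix ι ι B) (s : ∀ i : Fin (n + 1), Fin i → ι) (M : Fl ι n B) :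
    Prop where
  norm : ∀ i, cols (M i) (s i) = 1
  mono : ∀ i i', i ≤ i' → Inc (s i') (M i) (M i')
  iso : ∀ i, M i * G * (M i)ᵀ = 0

/-- A chain of flags closed up by Frobenius, with normalised basis matrices. -/
structure IsPt [Fintype ι] (G : Matrix ι ι B) (q : ℕ) (w : Fin l → Fin n) (s : Idx ι n l)
    (M : Fin (l + 1) → Fl ι n B) : Prop where
  fl : ∀ j, IsFl G (s j) (M j)
  adj : ∀ (j : Fin l) i, i ≠ (w j).succ → Inc (s j.succ i) (M j.castSucc i) (M j.succ i)
  frob : ∀ i, Inc (s (Fin.last l) i) ((M 0 i).map (· ^ q)) (M (Fin.last l) i)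

/-- The Pluecker-Segre coordinates over a ring. -/
def plk' (M : Fin (l + 1) → Fl ι n B) (t : Idx ι n l) : B :=
  ∏ j, ∏ i, (cols (M j i) (t j i)).det

/-- The basis matrices read off from the coordinates on the chart `s`. -/
def mat (s : Idx ι n l) (x : Idx ι n l → B) : Fin (l + 1) → Fl ι n B := fun j i =>
  Matrix.of fun a c =>
    x (Function.update s j (Function.update (s j) i (Function.update (s j i) a c)))

/-- The points of the chart `s` with values in a ring. -/
def Good [Fintype ι] (G : Matrix ι ι B) (q : ℕ) (w : Fin l → Fin n) (s : Idx ι n l)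
    (x : Idx ι n l → B) : Prop :=
  IsPt G q w s (mat s x) ∧ x = plk' (mat s x)

omit [CommRing B] [CommRing B'] in
lemma cols_map (A : Matrix α ι B) (t : β → ι) (f : B → B') :
    cols (A.map f) t = (cols A t).map f := rfl

lemma cols_mul [Fintype β] (C : Matrix α β B) (A : Matrix β ι B) (t : γ → ι) :
    cols (C * A) t = C * cols A t := rfl

lemma Inc.sub [Fintype β] {t : β → ι} {A : Matrix α ι B} {A' : Matrix β ι B} (h : Inc t A A') :
    Sub A A' := ⟨_, h⟩

lemma Sub.inc [Fintype β] [DecidableEq β] {t : β → ι} {A : Matrix α ι B} {A' : Matrix β ι B}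
    (h : Sub A A') (h' : cols A' t = 1) : Inc t A A' := by
  obtain ⟨C, rfl⟩ := h
  rw [Inc, cols_mul, h', Matrix.mul_one]

lemma Sub.refl [Fintype β] (A : Matrix β ι B) : Sub A A := by
  classical exact ⟨1, (Matrix.one_mul A).symm⟩

lemma Sub.trans [Fintype β] [Fintype γ] {A : Matrix α ι B} {A' : Matrix β ι B}
    {A'' : Matrix γ ι B} (h : Sub A A') (h' : Sub A' A'') : Sub A A'' := by
  obtain ⟨C, rfl⟩ := h
  obtain ⟨C', rfl⟩ := h'
  exact ⟨C * C', (Matrix.mul_assoc _ _ _).symm⟩

/-- An inclusion of row spaces of normalised matrices of the same size is an equality. -/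
lemma Sub.symm [Fintype β] [DecidableEq β] {t : β → ι} {A A' : Matrix β ι B} (h : Sub A A')
    (hA : cols A t = 1) : Sub A' A := by
  obtain ⟨C, rfl⟩ := h
  rw [cols_mul] at hA
  exact ⟨cols A' t, by rw [← Matrix.mul_assoc, mul_eq_one_comm.1 hA, Matrix.one_mul]⟩

lemma Sub.eq [Fintype β] [DecidableEq β] {t : β → ι} {A A' : Matrix β ι B} (h : Sub A A')
    (hA : cols A t = 1) (hA' : cols A' t = 1) : A = A' := by
  have := h.inc hA'
  rwa [Inc, hA, Matrix.one_mul] at this

lemma Sub.iso [Fintype ι] [Fintype β] {G : Matrix ι ι B} {A : Matrix α ι B} {A₁ : Matrix γ ι B}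
    {A' : Matrix β ι B} (h : Sub A A') (h₁ : Sub A₁ A') (h' : A' * G * A'ᵀ = 0) :
    A * G * A₁ᵀ = 0 := by
  obtain ⟨C, rfl⟩ := h
  obtain ⟨C₁, rfl⟩ := h₁
  rw [transpose_mul, Matrix.mul_assoc C, Matrix.mul_assoc C, ← Matrix.mul_assoc (A' * G), h']
  simp

lemma Inc.map [Fintype β] {t : β → ι} {A : Matrix α ι B} {A' : Matrix β ι B} (h : Inc t A A')
    (f : B →+* B') : Inc t (A.map f) (A'.map f) := by
  rw [Inc, cols_map, ← Matrix.map_mul, ← h]

lemma Sub.map [Fintype β] {A : Matrix α ι B} {A' : Matrix β ι B} (h : Sub A A')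
    (f : B →+* B') : Sub (A.map f) (A'.map f) := by
  obtain ⟨C, rfl⟩ := h
  exact ⟨C.map f, Matrix.map_mul⟩

variable [Fintype ι]

lemma IsFl.map {G : Matrix ι ι B} {s : ∀ i : Fin (n + 1), Fin i → ι} {M : Fl ι n B}
    (h : IsFl G s M) (f : B →+* B') : IsFl (G.map f) s fun i => (M i).map f where
  norm i := by rw [cols_map, h.norm, Matrix.map_one _ f.map_zero f.map_one]
  mono i i' hi := (h.mono i i' hi).map f
  iso i := by
    rw [← transpose_map, ← Matrix.map_mul, ← Matrix.map_mul, h.iso, Matrix.map_zero _ f.map_zero]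

omit [Fintype ι] in
lemma map_pow_map (A : Matrix α ι B) (q : ℕ) (f : B →+* B') :
    (A.map f).map (· ^ q) = (A.map (· ^ q)).map f := by
  ext a b
  simp

lemma IsPt.map {G : Matrix ι ι B} {q : ℕ} {w : Fin l → Fin n} {s : Idx ι n l}
    {M : Fin (l + 1) → Fl ι n B} (h : IsPt G q w s M) (f : B →+* B') :
    IsPt (G.map f) q w s fun j i => (M j i).map f where
  fl j := (h.fl j).map f
  adj j i hi := (h.adj j i hi).map f
  frob i := by rw [map_pow_map]; exact (h.frob i).map f

omit [Fintype ι] in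
lemma plk'_map (M : Fin (l + 1) → Fl ι n B) (f : B →+* B') :
    plk' (fun j i => (M j i).map f) = f ∘ plk' M := by
  funext t
  simp only [plk', Function.comp_apply, map_prod, RingHom.map_det]
  rfl

lemma Good.map {G : Matrix ι ι B} {q : ℕ} {w : Fin l → Fin n} {s : Idx ι n l} {x : Idx ι n l → B}
    (h : Good G q w s x) (f : B →+* B') : Good (G.map f) q w s (f ∘ x) :=
  ⟨h.1.map f, (congrArg (f ∘ ·) h.2).trans (plk'_map _ f).symm⟩

/-- The conditions can be checked after a jointly injective family of ring maps. -/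
lemma Good.of_maps {τ : Type} {C : τ → Type} [∀ a, CommRing (C a)] (f : ∀ a, B →+* C a)
    (hf : ∀ x y, (∀ a, f a x = f a y) → x = y) {G : Matrix ι ι B} {q : ℕ} {w : Fin l → Fin n}
    {s : Idx ι n l} {x : Idx ι n l → B} (h : ∀ a, Good (G.map (f a)) q w s (f a ∘ x)) :
    Good G q w s x := by
  have key : ∀ {α β : Type} (A A' : Matrix α β B), (∀ a, A.map (f a) = A'.map (f a)) → A = A' :=
    fun A A' e => Matrix.ext fun i j => hf _ _ fun a => congrFun (congrFun (e a) i) j
  have inc : ∀ {α β : Type} [Fintype β] (t : β → ι) (A : Matrix α ι B) (A' : Matrix β ι B),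
      (∀ a, Inc t (A.map (f a)) (A'.map (f a))) → Inc t A A' :=
    fun t A A' e => key _ _ fun a => by rw [Matrix.map_mul]; exact e a
  refine ⟨⟨fun j => ⟨fun i => key _ _ fun a => ?_, fun i i' hi => inc _ _ _ fun a =>
    ((h a).1.fl j).mono i i' hi, fun i => key _ _ fun a => ?_⟩, fun j i hi => inc _ _ _ fun a =>
    (h a).1.adj j i hi, fun i => inc _ _ _ fun a => ?_⟩, funext fun t => hf _ _ fun a => ?_⟩
  · rw [Matrix.map_one _ (f a).map_zero (f a).map_one]
    exact ((h a).1.fl j).norm i
  · rw [Matrix.map_zero _ (f a).map_zero, Matrix.map_mul, Matrix.map_mul, transpose_map]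
    exact ((h a).1.fl j).iso i
  · rw [← map_pow_map]
    exact (h a).1.frob i
  · exact (congrFun (h a).2 t).trans (congrFun (plk'_map (mat s x) (f a)) t)

end Pool.Agent.Lib.MP_557161_ag.DL.Model
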