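import Pool.Agent.Lib.MP_557161_ag.DL.Model1

/-!
Lifting chains of flags along square zero extensions.
-/

namespace Pool.Agent.Lib.MP_557161_ag.DL.Model

open Matrix

variable {B B' : Type} [CommRing B] [CommRing B'] {ι α β γ : Type} {f : B →+* B'}

/-- A surjection whose kernel has square zero. -/
structure SqZ (f : B →+* B') : Prop where
  surj : Function.Surjective f
  sq : ∀ a b, f a = 0 → f b = 0 → a * b = 0

lemma SqZ.lift (h : SqZ f) (A : Matrix α β B') : ∃ A₀ : Matrix α β B, A₀.map f = A := by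
  choose g hg using h.surj
  exact ⟨A.map g, Matrix.ext fun i j => hg _⟩

lemma SqZ.mul [Fintype β] (h : SqZ f) {A : Matrix α β B} {A' : Matrix β γ B} (hA : A.map f = 0)
    (hA' : A'.map f = 0) : A * A' = 0 := by
  ext i j
  exact Finset.sum_eq_zero fun b _ =>
    h.sq _ _ (congrFun (congrFun hA i) b) (congrFun (congrFun hA' b) j)

lemma map_sub' (A A' : Matrix α β B) : (A - A').map f = A.map f - A'.map f :=
  Matrix.map_sub f (map_sub f) A A'

lemma map_add' (A A' : Matrix α β B) : (A + A').map f = A.map f + A'.map f :=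
  Matrix.map_add f (map_add f) A A'

lemma map_one' [DecidableEq α] : (1 : Matrix α α B).map f = 1 :=
  Matrix.map_one _ f.map_zero f.map_one

lemma renorm [Fintype α] [DecidableEq α] (h : SqZ f) {X : Matrix α ι B} {Xb : Matrix α ι B'}
    {t : α → ι} (hn : cols Xb t = 1) (hs : Sub Xb (X.map f)) :
    ∃ M : Matrix α ι B, M.map f = Xb ∧ cols M t = 1 ∧ Sub M X ∧ Sub X M := by
  obtain ⟨Cb, hC⟩ := hs
  obtain ⟨C, rfl⟩ := h.lift Cb
  rw [← Matrix.map_mul] at hC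
  obtain ⟨E, hE⟩ : ∃ E, E = cols (C * X) t - 1 := ⟨_, rfl⟩
  have hE0 : E.map f = 0 := by rw [hE, map_sub', ← cols_map, ← hC, hn, map_one', sub_self]
  have hM : cols ((1 - E) * (C * X)) t = 1 := by
    rw [cols_mul, ← sub_eq_iff_eq_add.1 hE.symm |>.symm, mul_add, sub_mul, h.mul hE0 hE0]
    simp
  have hs : Sub ((1 - E) * (C * X)) X := ⟨(1 - E) * C, (Matrix.mul_assoc _ _ _).symm⟩
  refine ⟨_, ?_, hM, hs, hs.symm hM⟩
  rw [Matrix.map_mul, map_sub', hE0, map_one', sub_zero, Matrix.one_mul, hC]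

lemma mid_inc [Fintype α] [Fintype β] [Fintype γ] [DecidableEq γ] (h : SqZ f) {Y : Matrix γ ι B}
    {Z : Matrix β ι B} {Xb : Matrix α ι B'} {u : γ → ι} (hY : cols Y u = 1) (hYZ : Sub Y Z)
    (h1 : Sub (Y.map f) Xb) (h2 : Sub Xb (Z.map f)) :
    ∃ X : Matrix α ι B, X.map f = Xb ∧ Sub Y X ∧ Sub X Z := by
  obtain ⟨A', hA'⟩ := hYZ
  obtain ⟨Cb, hC⟩ := h1
  obtain ⟨Ab, hA⟩ := h2
  obtain ⟨C, rfl⟩ := h.lift Cb
  obtain ⟨A, rfl⟩ := h.lift Ab
  obtain ⟨S, hS⟩ := h.lift (cols Xb u)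
  have h0 : (Y - C * (A * Z)).map f = 0 := by
    rw [map_sub', Matrix.map_mul, Matrix.map_mul, ← hA, ← hC, sub_self]
  have h3 : (C * S - 1).map f = 0 := by
    rw [map_sub', Matrix.map_mul, hS, ← cols_mul, ← hC, cols_map, hY, map_one', sub_self]
  have h4 := h.mul h3 h0
  refine ⟨A * Z + S * (Y - C * (A * Z)), ?_, ⟨C, ?_⟩, ⟨A + S * (A' - C * A), ?_⟩⟩
  · rw [map_add', Matrix.map_mul, Matrix.map_mul, h0, ← hA, Matrix.mul_zero, add_zero]
  · rw [Matrix.sub_mul, Matrix.one_mul, sub_eq_zero] at h4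
    rw [Matrix.mul_add, ← Matrix.mul_assoc C S, h4, add_sub_cancel]
  · rw [Matrix.add_mul, Matrix.mul_assoc, Matrix.sub_mul, Matrix.mul_assoc, ← hA']

variable [Fintype ι]

lemma mid_iso [DecidableEq ι] [Fintype α] [DecidableEq α] [Fintype γ] [DecidableEq γ] (h : SqZ f)
    (h2 : IsUnit (2 : B)) {G : Matrix ι ι B} (hG : Gᵀ = G ∨ Gᵀ = -G) (hd : IsUnit G.det)
    {Y : Matrix γ ι B} {X : Matrix α ι B} {u : γ → ι} {t : α → ι} (hY : cols Y u = 1)
    (hX : cols X t = 1) (hYX : Sub Y X) (iY : Y * G * Yᵀ = 0) (iX : (X * G * Xᵀ).map f = 0) :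
    ∃ X' : Matrix α ι B, X'.map f = X.map f ∧ Sub Y X' ∧ X' * G * X'ᵀ = 0 := by
  obtain ⟨e, he, hG⟩ : ∃ e : B, e * e = 1 ∧ Gᵀ = e • G :=
    hG.elim (fun h => ⟨1, by simp, by simpa using h⟩) fun h => ⟨-1, by simp, by simpa using h⟩
  obtain ⟨c, hc⟩ := h2.exists_left_inv
  obtain ⟨C, hC⟩ := hYX
  obtain ⟨Q, hQ⟩ : ∃ Q, Q = X * G * Xᵀ := ⟨_, rfl⟩
  obtain ⟨S, hS⟩ : ∃ S, S = cols X u := ⟨_, rfl⟩
  have hCS : C * S = 1 := by rw [hS, ← cols_mul, ← hC, hY]
  have hQt : Qᵀ = e • Q := by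
    simp only [hQ, transpose_mul, transpose_transpose, hG, Matrix.smul_mul, Matrix.mul_smul,
      Matrix.mul_assoc]
  have hCQ : C * Q * Cᵀ = 0 := by
    rw [← iY, hQ, hC]
    simp only [transpose_mul, Matrix.mul_assoc]
  obtain ⟨T, hT⟩ : ∃ T : Matrix α ι B, T * G * Xᵀ = 1 := by
    refine ⟨(cols (1 : Matrix ι ι B) t)ᵀ * G⁻¹, ?_⟩
    rw [Matrix.mul_assoc _ G⁻¹, nonsing_inv_mul _ hd, Matrix.mul_one, ← transpose_mul, ← cols_mul,
      Matrix.mul_one, hX, transpose_one]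
  obtain ⟨η, hη⟩ : ∃ η, η = -(Q * (S * C)ᵀ + c • (Q - S * C * Q - Q * (S * C)ᵀ)) := ⟨_, rfl⟩
  have hη0 : η.map f = 0 := by
    rw [← hQ] at iX
    have e1 : (Q * (S * C)ᵀ).map f = 0 := by rw [Matrix.map_mul, iX, Matrix.zero_mul]
    have e2 : (S * C * Q).map f = 0 := by rw [Matrix.map_mul, iX, Matrix.mul_zero]
    ext i j
    have a0 : f (Q i j) = 0 := congrFun (congrFun iX i) j
    have a1 : f ((Q * (S * C)ᵀ) i j) = 0 := congrFun (congrFun e1 i) j
    have a2 : f ((S * C * Q) i j) = 0 := congrFun (congrFun e2 i) j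
    simp only [hη, map_apply, Matrix.neg_apply, Matrix.add_apply, Matrix.smul_apply,
      Matrix.sub_apply, smul_eq_mul, map_neg, map_add, map_mul, map_sub, a0, a1, a2,
      Matrix.zero_apply]
    simp
  have hδ : (η * T).map f = 0 := by rw [Matrix.map_mul, hη0, Matrix.zero_mul]
  refine ⟨X + η * T, by rw [map_add', hδ, add_zero], ⟨C, ?_⟩, ?_⟩
  · have e1 : C * (Q * (S * C)ᵀ) = 0 := by
      rw [transpose_mul, ← Matrix.mul_assoc, ← Matrix.mul_assoc, hCQ, Matrix.zero_mul]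
    have e2 : C * (S * C * Q) = C * Q := by
      rw [← Matrix.mul_assoc, ← Matrix.mul_assoc, hCS, Matrix.one_mul]
    have e3 : C * η = 0 := by
      rw [hη, Matrix.mul_neg, Matrix.mul_add, Matrix.mul_smul, Matrix.mul_sub, Matrix.mul_sub, e1,
        e2]
      simp
    rw [Matrix.mul_add, ← Matrix.mul_assoc, e3, Matrix.zero_mul, add_zero, hC]
  · have e1 : η * T * G * Xᵀ = η := by
      rw [Matrix.mul_assoc η, Matrix.mul_assoc η, hT, Matrix.mul_one]
    have e2 : X * G * (η * T)ᵀ = e • ηᵀ := by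
      have := congrArg transpose e1
      rw [transpose_mul, transpose_mul, transpose_transpose, hG, Matrix.smul_mul,
        Matrix.mul_smul] at this
      rw [← this, smul_smul, he, one_smul, Matrix.mul_assoc]
    have e3 : η * T * G * (η * T)ᵀ = 0 :=
      h.mul (by rw [Matrix.map_mul, hδ, Matrix.zero_mul]) (by rw [transpose_map, hδ]; rfl)
    have e4 : e • ηᵀ = -(S * C * Q + c • (Q - Q * (S * C)ᵀ - S * C * Q)) := by
      simp only [hη, transpose_neg, transpose_add, transpose_smul, transpose_sub,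
        transpose_mul Q, transpose_mul (S * C), transpose_transpose, hQt, Matrix.mul_smul,
        Matrix.smul_mul, smul_neg, smul_add, smul_sub, smul_smul, he, one_smul,
        mul_left_comm e c]
      simp
    rw [transpose_add, Matrix.add_mul, Matrix.add_mul, Matrix.mul_add, Matrix.mul_add, ← hQ, e1,
      e2, e3, e4, hη]
    have : ∀ U V W : Matrix α α B, U + -(V + c • (U - W - V)) + (-(W + c • (U - V - W)) + 0) =
        (1 - c * 2) • (U - V - W) := fun U V W => by module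
    rw [this, hc, sub_self, zero_smul]

variable {n l : ℕ}

lemma IsFl.of_equiv {G : Matrix ι ι B} {s : ∀ i : Fin (n + 1), Fin i → ι} {M N : Fl ι n B}
    (hn : ∀ i, cols (M i) (s i) = 1) (h1 : ∀ i, Sub (M i) (N i)) (h2 : ∀ i, Sub (N i) (M i))
    (hm : ∀ i i', i ≤ i' → Sub (N i) (N i')) (hi : ∀ i, N i * G * (N i)ᵀ = 0) : IsFl G s M :=
  ⟨hn, fun i i' h => (((h1 i).trans (hm i i' h)).trans (h2 i')).inc (hn i'),
    fun i => (h1 i).iso (h1 i) (hi i)⟩

/-- The lifts of a flag that are adjacent to a given flag. -/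
def Step (f : B →+* B') (G : Matrix ι ι B) (s s' : ∀ i : Fin (n + 1), Fin i → ι) (Mb : Fl ι n B')
    (M' : Fl ι n B) (i₀ : Fin (n + 1)) : Type :=
  {M : Fl ι n B // (IsFl G s M ∧ ∀ i, (M i).map f = Mb i) ∧
    ∀ i, i ≠ i₀ → Inc (s' i) (M i) (M' i)}

/-- The lifts of an isotropic subspace between two given subspaces. -/
def Mid [Fintype α] [DecidableEq α] [Fintype β] (f : B →+* B') (G : Matrix ι ι B) (t : α → ι)
    (Xb : Matrix α ι B') (Y : Matrix γ ι B) (Z : Matrix β ι B) : Type :=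
  {X : Matrix α ι B // X.map f = Xb ∧ cols X t = 1 ∧ Sub Y X ∧ Sub X Z ∧ X * G * Xᵀ = 0}

lemma step_equiv [Fintype β] (h : SqZ f) {G : Matrix ι ι B} {s s' : ∀ i : Fin (n + 1), Fin i → ι}
    {Mb : Fl ι n B'} (hMb : IsFl (G.map f) s Mb) {M' : Fl ι n B} (hM' : IsFl G s' M') (i₀ : Fin n)
    (adj : ∀ i, i ≠ i₀.succ → Sub (Mb i) ((M' i).map f)) {Z : Matrix β ι B}
    (hZ : ∀ X : Matrix (Fin i₀.succ) ι B, Sub X Z ↔ ∀ i, i₀.succ < i → Sub X (M' i)) :
    Nonempty (Step f G s s' Mb M' i₀.succ ≃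
      Mid f G (s i₀.succ) (Mb i₀.succ) (M' i₀.castSucc) Z) := by
  have hlt : i₀.castSucc < i₀.succ := Fin.castSucc_lt_succ
  refine ⟨Equiv.ofBijective (fun M => ⟨M.1 i₀.succ, M.2.1.2 _, M.2.1.1.norm _,
    ((M.2.2 _ hlt.ne).sub.symm (M.2.1.1.norm _)).trans (M.2.1.1.mono _ _ hlt.le).sub,
    (hZ _).2 fun i hi => (M.2.1.1.mono _ _ hi.le).sub.trans (M.2.2 _ hi.ne').sub,
    M.2.1.1.iso _⟩) ⟨fun M N e => Subtype.ext (funext fun i => ?_), fun X => ?_⟩⟩
  · by_cases hi : i = i₀.succ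
    · subst hi
      exact congrArg Subtype.val e
    · exact ((M.2.2 i hi).sub.trans ((N.2.2 i hi).sub.symm (N.2.1.1.norm i))).eq
        (M.2.1.1.norm i) (N.2.1.1.norm i)
  · obtain ⟨X, x1, x2, x3, x4, x5⟩ := X
    have hN : ∀ i, Sub (Mb i) ((Function.update M' i₀.succ X i).map f) := fun i => by
      by_cases hi : i = i₀.succ
      · subst hi
        rw [Function.update_self, x1]
        exact Sub.refl _
      · rw [Function.update_of_ne hi]
        exact adj i hi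
    choose M m1 m2 m3 m4 using fun i => renorm h (hMb.norm i) (hN i)
    refine ⟨⟨M, ⟨IsFl.of_equiv m2 m3 m4 (fun i i' hi => ?_) fun i => ?_, m1⟩, fun i hi => ?_⟩,
      Subtype.ext ?_⟩
    · by_cases a : i = i₀.succ
      · subst a
        rcases hi.eq_or_lt with rfl | hi
        · exact Sub.refl _
        · rw [Function.update_self, Function.update_of_ne hi.ne']
          exact (hZ X).1 x4 i' hi
      · rw [Function.update_of_ne a]
        by_cases b : i' = i₀.succ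
        · subst b
          rw [Function.update_self]
          exact (hM'.mono _ _ (Fin.le_castSucc_iff.2 (lt_of_le_of_ne hi a))).sub.trans x3
        · rw [Function.update_of_ne b]
          exact (hM'.mono _ _ hi).sub
    · by_cases a : i = i₀.succ
      · subst a
        rw [Function.update_self]
        exact x5
      · rw [Function.update_of_ne a]
        exact hM'.iso i
    · have := m3 i
      rw [Function.update_of_ne hi] at this
      exact this.inc (hM'.norm i)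
    · have := m3 i₀.succ
      rw [Function.update_self] at this
      exact this.eq (m2 _) x2

lemma next_iff {G : Matrix ι ι B} {s : ∀ i : Fin (n + 1), Fin i → ι} {M : Fl ι n B}
    (hM : IsFl G s M) {i₀ : Fin n} (hi : (i₀ : ℕ) + 1 < n) (X : Matrix α ι B) :
    Sub X (M ⟨i₀ + 2, by omega⟩) ↔ ∀ i, i₀.succ < i → Sub X (M i) :=
  ⟨fun h i hi => h.trans (hM.mono _ _ (show (i₀ : ℕ) + 2 ≤ i from hi)).sub,
    fun h => h _ (show (i₀ : ℕ) + 1 < i₀ + 2 by omega)⟩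

lemma last_iff [DecidableEq ι] (M : Fl ι n B) {i₀ : Fin n} (hi : ¬ (i₀ : ℕ) + 1 < n)
    (X : Matrix α ι B) : Sub X (1 : Matrix ι ι B) ↔ ∀ i, i₀.succ < i → Sub X (M i) :=
  ⟨fun _ i h => absurd (lt_of_lt_of_le (show (i₀ : ℕ) + 1 < i from h) (Nat.lt_succ_iff.1 i.2)) hi,
    fun _ => ⟨X, (Matrix.mul_one X).symm⟩⟩

lemma below_sub {G : Matrix ι ι B} {s : ∀ i : Fin (n + 1), Fin i → ι}
    {Mb : Fl ι n B'} (hMb : IsFl (G.map f) s Mb) {M' : Fl ι n B} {i₀ : Fin n}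
    (adj : ∀ i, i ≠ i₀.succ → Sub (Mb i) ((M' i).map f)) :
    Sub ((M' i₀.castSucc).map f) (Mb i₀.succ) :=
  ((adj _ Fin.castSucc_lt_succ.ne).symm (hMb.norm _)).trans
    (hMb.mono _ _ Fin.castSucc_lt_succ.le).sub

lemma above_sub {G : Matrix ι ι B} {s : ∀ i : Fin (n + 1), Fin i → ι}
    {Mb : Fl ι n B'} (hMb : IsFl (G.map f) s Mb) {M' : Fl ι n B} {i₀ i : Fin (n + 1)}
    (adj : ∀ i, i ≠ i₀ → Sub (Mb i) ((M' i).map f)) (hi : i₀ < i) :
    Sub (Mb i₀) ((M' i).map f) :=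
  (hMb.mono _ _ hi.le).sub.trans (adj _ hi.ne')

lemma step_nonempty [DecidableEq ι] (h : SqZ f) (h2 : IsUnit (2 : B)) {G : Matrix ι ι B}
    (hG : Gᵀ = G ∨ Gᵀ = -G) (hd : IsUnit G.det) {s s' : ∀ i : Fin (n + 1), Fin i → ι}
    {Mb : Fl ι n B'} (hMb : IsFl (G.map f) s Mb) {M' : Fl ι n B} (hM' : IsFl G s' M') (i₀ : Fin n)
    (adj : ∀ i, i ≠ i₀.succ → Sub (Mb i) ((M' i).map f)) :
    Nonempty (Step f G s s' Mb M' i₀.succ) := by
  have b := below_sub hMb adj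
  by_cases hi : (i₀ : ℕ) + 1 < n
  · obtain ⟨e⟩ := step_equiv h hMb hM' i₀ adj (next_iff hM' hi)
    obtain ⟨X, x1, x2, x3⟩ := mid_inc h (hM'.norm _)
      (hM'.mono i₀.castSucc ⟨i₀ + 2, by omega⟩ (show (i₀ : ℕ) ≤ i₀ + 2 by omega)).sub b
      (above_sub hMb adj (show (i₀ : ℕ) + 1 < i₀ + 2 by omega))
    obtain ⟨X', y1, y2, y3, y4⟩ := renorm h (X := X) (hMb.norm i₀.succ) (x1.symm ▸ Sub.refl _)
    exact ⟨e.symm ⟨X', y1, y2, x2.trans y4, y3.trans x3,
      (y3.trans x3).iso (y3.trans x3) (hM'.iso _)⟩⟩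
  · obtain ⟨e⟩ := step_equiv h hMb hM' i₀ adj (last_iff M' hi)
    obtain ⟨X, x1, x2, -⟩ := mid_inc h (hM'.norm _) (Z := (1 : Matrix ι ι B))
      ⟨_, (Matrix.mul_one _).symm⟩ b ⟨_, by rw [map_one', Matrix.mul_one]⟩
    obtain ⟨X', y1, y2, -, y4⟩ := renorm h (X := X) (hMb.norm i₀.succ) (x1.symm ▸ Sub.refl _)
    obtain ⟨X₁, z1, z2, z3⟩ := mid_iso h h2 hG hd (hM'.norm _) y2 (x2.trans y4) (hM'.iso _) (by
      rw [Matrix.map_mul, Matrix.map_mul, transpose_map, y1]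
      exact hMb.iso _)
    obtain ⟨X₂, u1, u2, u3, u4⟩ := renorm h (X := X₁) (hMb.norm i₀.succ)
      ((z1.trans y1).symm ▸ Sub.refl _)
    exact ⟨e.symm ⟨X₂, u1, u2, z2.trans u4, ⟨_, (Matrix.mul_one _).symm⟩, u3.iso u3 z3⟩⟩

/-- The last flag of a lifted chain does not depend on the lift. -/
lemma last_unique (h : SqZ f) {q : ℕ} (hq : 2 ≤ q) (F : B →+* B) (hF : ∀ x, F x = x ^ q)
    {G : Matrix ι ι B} (hG : G.map (· ^ q) = G) {w : Fin l → Fin n} {s : Idx ι n l}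
    {Mb : Fin (l + 1) → Fl ι n B'} (hMb : IsPt (G.map f) q w s Mb) :
    ∃ a : Fl ι n B, (IsFl G (s (Fin.last l)) a ∧ ∀ i, (a i).map f = Mb (Fin.last l) i) ∧
      ∀ M : Fin (l + 1) → Fl ι n B, (∀ j, IsFl G (s j) (M j) ∧ ∀ i, (M j i).map f = Mb j i) →
        ((∀ i, Inc (s (Fin.last l) i) ((M 0 i).map (· ^ q)) (M (Fin.last l) i)) ↔
          M (Fin.last l) = a) := by
  obtain ⟨φ, hφ⟩ : ∃ φ : B' →+* B, ∀ x, φ (f x) = x ^ q := by
    refine ⟨f.liftOfSurjective h.surj ⟨F, fun x hx => ?_⟩, fun x => ?_⟩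
    · obtain ⟨m, rfl⟩ := Nat.exists_eq_add_of_le hq
      rw [RingHom.mem_ker, hF, pow_add, pow_two, h.sq x x hx hx, zero_mul]
    · rw [RingHom.liftOfSurjective, RingHom.liftOfRightInverse_comp_apply, hF]
  have hφ' : ∀ {α β : Type} (A : Matrix α β B), (A.map f).map φ = A.map (· ^ q) :=
    fun A => Matrix.ext fun i j => hφ _
  have h0 := (hMb.fl 0).map φ
  rw [hφ', hG] at h0
  have h1 : ∀ i, ((Mb 0 i).map φ).map f = (Mb 0 i).map (· ^ q) := fun i => by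
    obtain ⟨A, hA⟩ := h.lift (Mb 0 i)
    rw [← hA, hφ', map_pow_map]
  have h2 : ∀ i, Sub (Mb (Fin.last l) i) (((Mb 0 i).map φ).map f) := fun i => by
    refine Sub.symm (t := s 0 i) ?_ ((h0.map f).norm i)
    rw [h1]
    exact (hMb.frob i).sub
  choose a a1 a2 a3 a4 using fun i => renorm h ((hMb.fl _).norm i) (h2 i)
  refine ⟨a, ⟨IsFl.of_equiv a2 a3 a4 (fun i i' hi => (h0.mono i i' hi).sub) h0.iso, a1⟩,
    fun M hM => ?_⟩
  have h3 : ∀ i, (M 0 i).map (· ^ q) = (Mb 0 i).map φ := fun i => by rw [← (hM 0).2 i, hφ']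
  simp only [h3]
  exact ⟨fun e => funext fun i => (((a3 i).trans (e i).sub).eq (a2 i) ((hM _).1.norm i)).symm,
    fun e i => by rw [e]; exact (a4 i).inc (a2 i)⟩

lemma chain_exists {τ : Type} : ∀ (l : ℕ) (S : Fin (l + 1) → τ → Prop) (R : Fin l → τ → τ → Prop),
    (∀ j y, S j.succ y → Nonempty {x // S j.castSucc x ∧ R j x y}) → ∀ a, S (Fin.last l) a →
    ∃ E : Fin (l + 1) → τ, (∀ j, S j (E j)) ∧ (∀ j, R j (E j.castSucc) (E j.succ)) ∧
      E (Fin.last l) = a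
  | 0, S, R, _, a, ha => ⟨fun _ => a, fun j => by rw [Fin.fin_one_eq_zero j]; exact ha,
      fun j => j.elim0, rfl⟩
  | l + 1, S, R, h, a, ha => by
    obtain ⟨E, e1, e2, e3⟩ := chain_exists l (fun j => S j.succ) (fun j => R j.succ)
      (fun j y hy => h j.succ y hy) a ha
    obtain ⟨x, x1, x2⟩ := h 0 (E 0) (e1 0)
    exact ⟨Fin.cons x E, Fin.cases x1 e1, Fin.cases x2 e2, e3⟩

lemma chain_card {τ : Type} [Finite τ] : ∀ (l : ℕ) (S : Fin (l + 1) → τ → Prop)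
    (R : Fin l → τ → τ → Prop) (c : Fin l → ℕ),
    (∀ j y, S j.succ y → Nat.card {x // S j.castSucc x ∧ R j x y} = c j) →
    ∀ a, S (Fin.last l) a → Nat.card {E : Fin (l + 1) → τ // (∀ j, S j (E j)) ∧
      (∀ j, R j (E j.castSucc) (E j.succ)) ∧ E (Fin.last l) = a} = ∏ j, c j
  | 0, S, R, c, _, a, ha => by
    rw [Finset.univ_eq_empty, Finset.prod_empty, Nat.card_eq_one_iff_exists]
    exact ⟨⟨fun _ => a, fun j => by rw [Fin.fin_one_eq_zero j]; exact ha, fun j => j.elim0, rfl⟩,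
      fun E => Subtype.ext (funext fun j => by rw [Fin.fin_one_eq_zero j]; exact E.2.2.2)⟩
  | l + 1, S, R, c, h, a, ha => by
    have ih := chain_card l (fun j => S j.succ) (fun j => R j.succ) (fun j => c j.succ)
      (fun j y hy => h j.succ y hy) a ha
    let e : {E : Fin (l + 2) → τ // (∀ j, S j (E j)) ∧ (∀ j, R j (E j.castSucc) (E j.succ)) ∧
        E (Fin.last (l + 1)) = a} ≃ Σ E : {E : Fin (l + 1) → τ // (∀ j, S j.succ (E j)) ∧
        (∀ j : Fin l, R j.succ (E j.castSucc) (E j.succ)) ∧ E (Fin.last l) = a},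
          {x // S 0 x ∧ R 0 x (E.1 0)} :=
      { toFun := fun E => ⟨⟨Fin.tail E.1, fun j => E.2.1 j.succ, fun j => E.2.2.1 j.succ,
          E.2.2.2⟩, E.1 0, E.2.1 0, E.2.2.1 0⟩
        invFun := fun p => ⟨Fin.cons p.2.1 p.1.1, Fin.cases p.2.2.1 p.1.2.1,
          Fin.cases p.2.2.2 p.1.2.2.1, p.1.2.2.2⟩
        left_inv := fun E => Subtype.ext (Fin.cons_self_tail E.1)
        right_inv := fun p => rfl }
    have := Fintype.ofFinite {E : Fin (l + 1) → τ // (∀ j, S j.succ (E j)) ∧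
      (∀ j : Fin l, R j.succ (E j.castSucc) (E j.succ)) ∧ E (Fin.last l) = a}
    rw [Nat.card_congr e, Nat.card_sigma, Fin.prod_univ_succ, ← ih,
      Finset.sum_congr rfl fun E _ => h 0 (E.1 0) (E.2.1 0)]
    simp [mul_comm]

/-- Chains lift along square zero extensions. -/
theorem pt_lift [DecidableEq ι] (h : SqZ f) (h2 : IsUnit (2 : B)) {q : ℕ} (hq : 2 ≤ q)
    (F : B →+* B) (hF : ∀ x, F x = x ^ q) {G : Matrix ι ι B} (hG : Gᵀ = G ∨ Gᵀ = -G)
    (hd : IsUnit G.det) (hGq : G.map (· ^ q) = G) {w : Fin l → Fin n} {s : Idx ι n l}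
    {Mb : Fin (l + 1) → Fl ι n B'} (hMb : IsPt (G.map f) q w s Mb) :
    ∃ M, IsPt G q w s M ∧ ∀ j i, (M j i).map f = Mb j i := by
  obtain ⟨a, ha, ha'⟩ := last_unique h hq F hF hGq hMb
  obtain ⟨M, m1, m2, m3⟩ := chain_exists l
    (fun j M => IsFl G (s j) M ∧ ∀ i, (M i).map f = Mb j i)
    (fun j M M' => ∀ i, i ≠ (w j).succ → Inc (s j.succ i) (M i) (M' i))
    (fun j M' hM' => step_nonempty h h2 hG hd (hMb.fl _) hM'.1 (w j) fun i hi => by
      rw [hM'.2]; exact (hMb.adj j i hi).sub) a ha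
  exact ⟨M, ⟨fun j => (m1 j).1, m2, (ha' M m1).2 m3⟩, fun j => (m1 j).2⟩

/-- The number of lifts of a chain. -/
theorem pt_card [Finite B] (h : SqZ f) {q : ℕ} (hq : 2 ≤ q) (F : B →+* B) (hF : ∀ x, F x = x ^ q)
    {G : Matrix ι ι B} (hGq : G.map (· ^ q) = G) {w : Fin l → Fin n} {s : Idx ι n l}
    {Mb : Fin (l + 1) → Fl ι n B'} (hMb : IsPt (G.map f) q w s Mb) (c : Fin l → ℕ)
    (hc : ∀ j M', IsFl G (s j.succ) M' → (∀ i, i ≠ (w j).succ →
      Sub (Mb j.castSucc i) ((M' i).map f)) →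
      Nat.card (Step f G (s j.castSucc) (s j.succ) (Mb j.castSucc) M' (w j).succ) = c j) :
    Nat.card {M // IsPt G q w s M ∧ ∀ j i, (M j i).map f = Mb j i} = ∏ j, c j := by
  obtain ⟨a, ha, ha'⟩ := last_unique h hq F hF hGq hMb
  rw [← chain_card l (fun j M => IsFl G (s j) M ∧ ∀ i, (M i).map f = Mb j i)
    (fun j M M' => ∀ i, i ≠ (w j).succ → Inc (s j.succ i) (M i) (M' i)) c
    (fun j M' hM' => hc j M' hM'.1 fun i hi => by rw [hM'.2]; exact (hMb.adj j i hi).sub) a ha]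
  refine Nat.card_congr (Equiv.subtypeEquivRight fun M => ⟨fun hM => ?_, fun hM => ?_⟩)
  · have m1 : ∀ j, IsFl G (s j) (M j) ∧ ∀ i, (M j i).map f = Mb j i :=
      fun j => ⟨hM.1.fl j, hM.2 j⟩
    exact ⟨m1, hM.1.adj, (ha' M m1).1 hM.1.frob⟩
  · exact ⟨⟨fun j => (hM.1 j).1, hM.2.1, (ha' M hM.1).2 hM.2.2⟩, fun j => (hM.1 j).2⟩

end Pool.Agent.Lib.MP_557161_ag.DL.Model
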