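import Pool.Agent.Lib.MP_557161_ag.DL.ModelA

/-!
The number of lifts of a flag to the dual numbers.
-/

namespace Pool.Agent.Lib.MP_557161_ag.DL.Model

open Matrix TrivSqZeroExt Module

variable {L : Type} [Field L] {ι α β γ κ : Type}

lemma card_sub {A C : Type} {p : A → Prop} {r : C → Prop} (g : A → C) (h1 : ∀ a, p a → r (g a))
    (h2 : ∀ a a', g a = g a' → a = a') (h3 : ∀ b, r b → ∃ a, p a ∧ g a = b) :
    Nat.card {b // r b} = Nat.card {a // p a} :=
  (Nat.card_congr (Equiv.ofBijective (fun a : {a // p a} => (⟨g a.1, h1 a.1 a.2⟩ : {b // r b}))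
    ⟨fun _ _ e => Subtype.ext (h2 _ _ (congrArg Subtype.val e)), fun b =>
      let ⟨a, ha, e⟩ := h3 b.1 b.2; ⟨⟨a, ha⟩, Subtype.ext e⟩⟩)).symm

variable (L) in
/-- The projection of the dual numbers. -/
def fs : DualNumber L →+* L := (fstHom L L L).toRingHom

lemma fs_apply (x : DualNumber L) : fs L x = x.fst := rfl

lemma sqz_fs : SqZ (fs L) :=
  ⟨fun x => ⟨inl x, rfl⟩, fun a b ha hb => by
    rw [fs_apply] at ha hb
    ext <;> simp [ha, hb]⟩

/-- An infinitesimal matrix. -/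
def ep (δ : Matrix α β L) : Matrix α β (DualNumber L) := δ.map inr

lemma ep_map (δ : Matrix α β L) : (ep δ).map (fs L) = 0 := Matrix.ext fun _ _ => rfl

lemma ep_mul [Fintype β] (δ : Matrix α β L) (A : Matrix β γ (DualNumber L)) :
    ep δ * A = ep (δ * A.map (fs L)) := by
  refine Matrix.ext fun i j => ?_
  simp only [ep, mul_apply, map_apply, fs_apply]
  ext <;> simp [fst_sum, snd_sum, mul_comm]

lemma mul_ep [Fintype β] (A : Matrix α β (DualNumber L)) (δ : Matrix β γ L) :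
    A * ep δ = ep (A.map (fs L) * δ) := by
  refine Matrix.ext fun i j => ?_
  simp only [ep, mul_apply, map_apply, fs_apply]
  ext <;> simp [fst_sum, snd_sum, mul_comm]

lemma ep_add (δ δ' : Matrix α β L) : ep (δ + δ') = ep δ + ep δ' :=
  Matrix.ext fun _ _ => inr_add _ _ _

lemma ep_zero : ep (0 : Matrix α β L) = 0 := Matrix.ext fun _ _ => inr_zero _

lemma ep_inj {δ δ' : Matrix α β L} (h : ep δ = ep δ') : δ = δ' :=
  Matrix.ext fun i j => inr_injective (congrFun (congrFun h i) j)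

lemma exists_ep {A : Matrix α β (DualNumber L)} (h : A.map (fs L) = 0) : ∃ δ, A = ep δ :=
  ⟨A.map snd, Matrix.ext fun i j =>
    TrivSqZeroExt.ext (congrFun (congrFun h i) j) rfl⟩

variable [Fintype ι] [Fintype α] [DecidableEq α] [Fintype β] [DecidableEq β]

omit [Fintype α] [DecidableEq α] in
lemma iso_ep (G : Matrix ι ι (DualNumber L)) (X : Matrix α ι (DualNumber L)) (δ : Matrix α ι L) :
    (X + ep δ) * G * (X + ep δ)ᵀ = X * G * Xᵀ + ep (δ * G.map (fs L) * (X.map (fs L))ᵀ +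
      X.map (fs L) * G.map (fs L) * δᵀ) := by
  have e : (ep δ)ᵀ = ep δᵀ := rfl
  rw [transpose_add, Matrix.add_mul, Matrix.add_mul, Matrix.mul_add, Matrix.mul_add, e, mul_ep,
    ep_mul, ep_mul, ep_mul, ep_map, Matrix.mul_zero, ep_zero, add_zero, ep_add, Matrix.map_mul,
    transpose_map]
  abel

lemma mid_tangent {G : Matrix ι ι (DualNumber L)} {t : α → ι} {Xb : Matrix α ι L}
    {Y : Matrix γ ι (DualNumber L)} {Z : Matrix β ι (DualNumber L)} {v : β → ι}
    (hZ : cols Z v = 1) (X₀ : Mid (fs L) G t Xb Y Z) :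
    Nat.card (Mid (fs L) G t Xb Y Z) = Nat.card {δ : Matrix α ι L // cols δ t = 0 ∧
      cols (Y.map (fs L)) t * δ = 0 ∧ Sub δ (Z.map (fs L)) ∧
      δ * G.map (fs L) * Xbᵀ + Xb * G.map (fs L) * δᵀ = 0} := by
  obtain ⟨X₀, x1, x2, x3, x4, x5⟩ := X₀
  have x3' : Y = cols Y t * X₀ := x3.inc x2
  refine card_sub (fun δ => X₀ + ep δ) (fun δ hδ => ⟨?_, ?_, ⟨cols Y t, ?_⟩, ?_, ?_⟩)
    (fun δ δ' e => ep_inj (add_left_cancel e)) ?_
  · rw [map_add', ep_map, add_zero, x1]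
  · show cols X₀ t + ep (cols δ t) = 1
    rw [hδ.1, ep_zero, add_zero, x2]
  · rw [Matrix.mul_add, mul_ep, ← cols_map, hδ.2.1, ep_zero, add_zero, ← x3']
  · obtain ⟨A, hA⟩ := x4
    obtain ⟨C, hC⟩ := hδ.2.2.1
    exact ⟨A + ep C, by rw [Matrix.add_mul, ep_mul, ← hA, ← hC]⟩
  · rw [iso_ep, x5, x1, hδ.2.2.2, ep_zero, add_zero]
  · rintro X ⟨y1, y2, y3, y4, y5⟩
    obtain ⟨δ, hδ⟩ := exists_ep (A := X - X₀) (by rw [map_sub', y1, x1, sub_self])
    obtain rfl : X = X₀ + ep δ := by rw [← hδ, add_sub_cancel]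
    have z1 : cols δ t = 0 := ep_inj (by
      have : cols X₀ t + ep (cols δ t) = 1 := y2
      rwa [x2, add_eq_left, ← ep_zero] at this)
    refine ⟨δ, ⟨z1, ep_inj ?_, ⟨cols δ v, ep_inj ?_⟩, ep_inj ?_⟩, rfl⟩
    · have : Y = cols Y t * (X₀ + ep δ) := y3.inc y2
      rwa [Matrix.mul_add, ← x3', left_eq_add, mul_ep, ← ep_zero] at this
    · have e : X₀ + ep δ = (cols X₀ v + ep (cols δ v)) * Z := y4.inc hZ
      have e' : X₀ = cols X₀ v * Z := x4.inc hZ
      rwa [Matrix.add_mul, ← e', add_right_inj, ep_mul] at e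
    · rwa [iso_ep, x5, zero_add, x1, ← ep_zero] at y5

omit [Fintype ι] [DecidableEq α] in
lemma exists_ker [Fintype γ] [DecidableEq γ] {C : Matrix γ α L} {S : Matrix α γ L}
    (h : C * S = 1) (hc : Fintype.card α = Fintype.card γ + 1) :
    ∃ a : α → L, a ≠ 0 ∧ ∀ x, C *ᵥ x = 0 ↔ ∃ c : L, c • a = x := by
  have h1 := C.mulVecLin.finrank_range_add_finrank_ker
  have h2 : LinearMap.range C.mulVecLin = ⊤ := LinearMap.range_eq_top.2 fun y =>
    ⟨S *ᵥ y, by rw [mulVecLin_apply, mulVec_mulVec, h, one_mulVec]⟩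
  rw [h2, finrank_top, finrank_fintype_fun_eq_card, finrank_fintype_fun_eq_card, hc,
    add_right_inj, finrank_eq_one_iff'] at h1
  obtain ⟨a, ha, h3⟩ := h1
  refine ⟨a, fun e => ha (Subtype.ext e), fun x => ⟨fun hx => ?_, ?_⟩⟩
  · obtain ⟨c, hc⟩ := h3 ⟨x, hx⟩
    exact ⟨c, congrArg Subtype.val hc⟩
  · rintro ⟨c, rfl⟩
    exact (c • a).2

omit [Fintype α] [DecidableEq α] in
lemma iso_vec (G : Matrix ι ι L) (X : Matrix α ι L) (a : α → L) (x : ι → L) (i j : α) :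
    (vecMulVec a x * G * Xᵀ + X * G * (vecMulVec a x)ᵀ) i j =
      a i * ((X * Gᵀ) *ᵥ x) j + ((X * G) *ᵥ x) i * a j := by
  rw [transpose_vecMulVec, mul_vecMulVec, Matrix.mul_assoc, vecMulVec_mul, Matrix.add_apply,
    vecMulVec_apply, vecMulVec_apply, ← mulVec_transpose, transpose_mul, transpose_transpose]

omit [DecidableEq β] in
lemma tangent_card [Finite L] [Fintype κ] {G : Matrix ι ι L} {t : α → ι} {X : Matrix α ι L}
    {C : Matrix γ α L} {Z : Matrix β ι L} {W : Matrix κ ι L} {a : α → L} (ha : a ≠ 0)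
    (hC : ∀ x, C *ᵥ x = 0 ↔ ∃ c : L, c • a = x)
    (hW : ∀ x, vecMulVec a x * G * Xᵀ + X * G * (vecMulVec a x)ᵀ = 0 ↔ (W * G) *ᵥ x = 0)
    (hX : cols X t = 1) (hXZ : Sub X Z) (hWX : W * G * Xᵀ = 0) {e : ℕ}
    (he : finrank L ↥(LinearMap.range Z.vecMulLinear ⊓ LinearMap.ker (W * G).mulVecLin) =
      Fintype.card α + e) :
    Nat.card {δ : Matrix α ι L // cols δ t = 0 ∧ C * δ = 0 ∧ Sub δ Z ∧
      δ * G * Xᵀ + X * G * δᵀ = 0} = Nat.card L ^ e := by
  obtain ⟨i₀, hi₀⟩ := Function.ne_iff.1 ha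
  let U := LinearMap.range Z.vecMulLinear ⊓ LinearMap.ker (W * G).mulVecLin
  let φ : U →ₗ[L] α → L := (LinearMap.funLeft L L t).comp U.subtype
  have h2 : LinearMap.range φ = ⊤ := LinearMap.range_eq_top.2 fun y => by
    obtain ⟨A, hA⟩ := hXZ
    refine ⟨⟨y ᵥ* X, ⟨y ᵥ* A, ?_⟩, ?_⟩, ?_⟩
    · rw [vecMulLinear_apply, vecMul_vecMul, ← hA]
    · show (W * G) *ᵥ (y ᵥ* X) = 0
      rw [← mulVec_transpose, mulVec_mulVec, hWX, zero_mulVec]
    · show y ᵥ* cols X t = y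
      rw [hX, vecMul_one]
  have h1 := φ.finrank_range_add_finrank_ker
  rw [h2, finrank_top, finrank_fintype_fun_eq_card, he, add_right_inj] at h1
  rw [← h1, ← natCard_eq_pow_finrank (K := L) (V := LinearMap.ker φ)]
  refine card_sub (fun x : U => vecMulVec a x.1) (fun x hx => ⟨?_, ?_, ?_, (hW _).2 x.2.2⟩)
    (fun x y e => Subtype.ext (funext fun c => ?_)) ?_
  · ext i j
    have : x.1 (t j) = 0 := congrFun hx j
    simp [vecMulVec_apply, this]
  · rw [mul_vecMulVec, (hC a).2 ⟨1, one_smul _ _⟩, zero_vecMulVec]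
  · obtain ⟨r, hr⟩ := x.2.1
    exact ⟨vecMulVec a r, by rw [vecMulVec_mul, ← hr]; rfl⟩
  · exact mul_left_cancel₀ hi₀ (congrFun (congrFun e i₀) c)
  · rintro δ ⟨d1, d2, ⟨A, d3⟩, d4⟩
    choose x hx using fun c => (hC fun i => δ i c).1 (funext fun g => congrFun (congrFun d2 g) c)
    obtain rfl : δ = vecMulVec a x := Matrix.ext fun i c => by
      rw [vecMulVec_apply, mul_comm]; exact (congrFun (hx c) i).symm
    refine ⟨⟨x, ⟨(a i₀)⁻¹ • A i₀, funext fun c => ?_⟩, (hW x).1 d4⟩, funext fun j => ?_, rfl⟩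
    · have : a i₀ * x c = (A i₀ ᵥ* Z) c := congrFun (congrFun d3 i₀) c
      rw [map_smul, Pi.smul_apply, vecMulLinear_apply, ← this, smul_eq_mul, inv_mul_cancel_left₀ hi₀]
    · exact (mul_eq_zero.1 (congrFun (congrFun d1 i₀) j)).resolve_left hi₀

omit [Fintype α] [DecidableEq α] in
lemma iso_symm (h2 : (2 : L) ≠ 0) {G : Matrix ι ι L} (hG : Gᵀ = G) (X : Matrix α ι L) {a : α → L}
    (ha : a ≠ 0) (x : ι → L) :
    vecMulVec a x * G * Xᵀ + X * G * (vecMulVec a x)ᵀ = 0 ↔ (X * G) *ᵥ x = 0 := by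
  obtain ⟨i₀, hi₀⟩ := Function.ne_iff.1 ha
  simp only [← Matrix.ext_iff, iso_vec, hG, Matrix.zero_apply]
  refine ⟨fun h => funext fun j => ?_, fun h i j => by simp [h]⟩
  have h0 : ((X * G) *ᵥ x) i₀ = 0 := by
    have := h i₀ i₀
    rw [mul_comm, ← two_mul] at this
    exact (mul_eq_zero.1 ((mul_eq_zero.1 this).resolve_left h2)).resolve_right hi₀
  have := h i₀ j
  rw [h0, zero_mul, add_zero] at this
  exact (mul_eq_zero.1 this).resolve_left hi₀

omit [DecidableEq α] in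
lemma iso_anti {G : Matrix ι ι L} (hG : Gᵀ = -G) (X : Matrix α ι L) {C : Matrix γ α L}
    {a : α → L} (ha : a ≠ 0) (hC : ∀ x, C *ᵥ x = 0 ↔ ∃ c : L, c • a = x) (x : ι → L) :
    vecMulVec a x * G * Xᵀ + X * G * (vecMulVec a x)ᵀ = 0 ↔ (C * X * G) *ᵥ x = 0 := by
  obtain ⟨i₀, hi₀⟩ := Function.ne_iff.1 ha
  rw [Matrix.mul_assoc C, ← mulVec_mulVec, hC]
  simp only [← Matrix.ext_iff, iso_vec, hG, Matrix.zero_apply, Matrix.mul_neg, neg_mulVec,
    Pi.neg_apply]
  refine ⟨fun h => ⟨((X * G) *ᵥ x) i₀ / a i₀, funext fun j => ?_⟩, ?_⟩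
  · have hi : a i₀ ≠ 0 := hi₀
    rw [Pi.smul_apply, smul_eq_mul, div_mul_eq_mul_div, div_eq_iff hi]
    linear_combination h i₀ j
  · rintro ⟨c, hc⟩ i j
    rw [← hc]
    simp only [Pi.smul_apply, smul_eq_mul]
    ring

lemma rank_inner [Fintype κ] {G : Matrix ι ι L} {Z : Matrix β ι L} {W : Matrix κ ι L} {v : β → ι}
    (hZ : cols Z v = 1) (hW : W * G * Zᵀ = 0) :
    finrank L ↥(LinearMap.range Z.vecMulLinear ⊓ LinearMap.ker (W * G).mulVecLin) =
      Fintype.card β := by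
  rw [inf_eq_left.2, LinearMap.finrank_range_of_inj, finrank_fintype_fun_eq_card]
  · intro x y e
    have : x ᵥ* cols Z v = y ᵥ* cols Z v := funext fun j => congrFun e (v j)
    rwa [hZ, vecMul_one, vecMul_one] at this
  · rintro _ ⟨y, rfl⟩
    show (W * G) *ᵥ (y ᵥ* Z) = 0
    rw [← mulVec_transpose, mulVec_mulVec, hW, zero_mulVec]

lemma rank_last [DecidableEq ι] [Fintype κ] [DecidableEq κ] {G : Matrix ι ι L} (hd : IsUnit G.det)
    {W : Matrix κ ι L} {u : κ → ι} (hW : cols W u = 1) :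
    Fintype.card κ + finrank L ↥(LinearMap.range (1 : Matrix ι ι L).vecMulLinear ⊓
      LinearMap.ker (W * G).mulVecLin) = Fintype.card ι := by
  have h1 := (W * G).mulVecLin.finrank_range_add_finrank_ker
  have h2 : LinearMap.range (W * G).mulVecLin = ⊤ := LinearMap.range_eq_top.2 fun y =>
    ⟨(G⁻¹ * cols (1 : Matrix ι ι L) u) *ᵥ y, by
      rw [mulVecLin_apply, mulVec_mulVec, Matrix.mul_assoc, ← Matrix.mul_assoc G,
        mul_nonsing_inv _ hd, Matrix.one_mul, ← cols_mul, Matrix.mul_one, hW, one_mulVec]⟩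
  rw [h2, finrank_top, finrank_fintype_fun_eq_card, finrank_fintype_fun_eq_card] at h1
  rw [inf_eq_right.2 fun x _ => ⟨x, vecMul_one x⟩, h1]

open Classical in
theorem step_card [Finite L] [DecidableEq ι] (h2 : (2 : L) ≠ 0) {G : Matrix ι ι (DualNumber L)}
    (hG : Gᵀ = G ∨ Gᵀ = -G) (hd : IsUnit G.det) {sy : Prop}
    (hs : sy → (G.map (fs L))ᵀ = G.map (fs L)) (ha : ¬ sy → (G.map (fs L))ᵀ = -G.map (fs L))
    {n : ℕ} (hn : n = Fintype.card ι / 2) {s s' : ∀ i : Fin (n + 1), Fin i → ι} {Mb : Fl ι n L}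
    (hMb : IsFl (G.map (fs L)) s Mb) {M' : Fl ι n (DualNumber L)} (hM' : IsFl G s' M') (i₀ : Fin n)
    (adj : ∀ i, i ≠ i₀.succ → Sub (Mb i) ((M' i).map (fs L))) :
    Nat.card (Step (fs L) G s s' Mb M' i₀.succ) =
      Nat.card L ^ if sy ∧ 2 * ((i₀ : ℕ) + 1) = Fintype.card ι then 0 else 1 := by
  have h2' : IsUnit (2 : DualNumber L) := by
    simpa only [map_ofNat] using (Ne.isUnit h2).map (algebraMap L (DualNumber L))
  have hd' : IsUnit (G.map (fs L)).det := (fs L).map_det G ▸ hd.map (fs L)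
  obtain ⟨M₀⟩ := step_nonempty sqz_fs h2' hG hd hMb hM' i₀ adj
  have b := below_sub hMb adj
  have hb := hM'.map (fs L)
  have b' := b.inc (hMb.norm _)
  unfold Inc at b'
  obtain ⟨a, a0, a1⟩ := exists_ker (C := cols ((M' i₀.castSucc).map (fs L)) (s i₀.succ))
    (S := cols (Mb i₀.succ) (s' i₀.castSucc)) (by rw [← cols_mul, ← b', hb.norm]) (by simp)
  have hi0 := i₀.2
  by_cases hi : (i₀ : ℕ) + 1 < n
  · obtain ⟨e⟩ := step_equiv sqz_fs hMb hM' i₀ adj (next_iff hM' hi)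
    have c := above_sub hMb adj
      (show i₀.succ < ⟨i₀ + 2, by omega⟩ from show (i₀ : ℕ) + 1 < i₀ + 2 by omega)
    rw [Nat.card_congr e, mid_tangent (hM'.norm _) (e M₀), if_neg (by omega)]
    by_cases h : sy
    · exact tangent_card a0 a1 (iso_symm h2 (hs h) _ a0) (hMb.norm _) c (hMb.iso _)
        ((rank_inner (hb.norm _) (c.iso (Sub.refl _) (hb.iso _))).trans (by simp))
    · refine tangent_card a0 a1 (iso_anti (ha h) _ a0 a1) (hMb.norm _) c ?_ ?_
      · rw [← b']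
        exact b.iso (Sub.refl _) (hMb.iso _)
      · rw [← b']
        exact (rank_inner (hb.norm _) ((b.trans c).iso (Sub.refl _) (hb.iso _))).trans (by simp)
  · obtain ⟨e⟩ := step_equiv sqz_fs hMb hM' i₀ adj (last_iff M' hi)
    rw [Nat.card_congr e, mid_tangent (v := id) rfl (e M₀), map_one']
    have c : Sub (Mb i₀.succ) (1 : Matrix ι ι L) := ⟨_, (Matrix.mul_one _).symm⟩
    by_cases h : sy
    · refine tangent_card a0 a1 (iso_symm h2 (hs h) _ a0) (hMb.norm _) c (hMb.iso _) ?_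
      have := rank_last hd' (hMb.norm i₀.succ)
      simp only [Fintype.card_fin, Fin.val_succ, h, true_and] at this ⊢
      split_ifs <;> omega
    · refine tangent_card a0 a1 (iso_anti (ha h) _ a0 a1) (hMb.norm _) c ?_ ?_
      · rw [← b']
        exact b.iso (Sub.refl _) (hMb.iso _)
      · rw [← b']
        have h3 := rank_last hd' (hb.norm i₀.castSucc)
        have h4 := congrArg det (ha h)
        rw [det_transpose, det_neg, eq_comm, mul_eq_right₀ hd'.ne_zero,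
          neg_one_pow_eq_one_iff_even fun e => h2 (by linear_combination -e)] at h4
        obtain ⟨m, hm⟩ := h4
        simp only [Fintype.card_fin, Fin.val_succ, Fin.val_castSucc, h, false_and, if_false]
          at h3 ⊢
        omega

end Pool.Agent.Lib.MP_557161_ag.DL.Model
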