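import Pool.Agent.Lib.MP_557161_ag.DL.CxD
import Pool.Agent.Lib.MP_557161_ag.DL.ModelC

/-!
Localisations of quotients away from one element, etale charts.
-/

namespace Pool.Agent.Lib.MP_557161_ag.DL.PD

open MvPolynomial
open Pool.Agent.Lib.MP_60ec62_ag.DL

variable {K S A B : Type} [Field K] [CommRing S] [Algebra K S] [CommRing A] [Algebra K A]
  [CommRing B] [Algebra K B] {I : Ideal S} {g : S} {φ : S →ₐ[K] A} {ψ : S →ₐ[K] B}

/-- `A` is the localisation of `S / I` away from `g`. -/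
structure IsLoc (I : Ideal S) (g : S) (φ : S →ₐ[K] A) : Prop where
  unit : IsUnit (φ g)
  surj : ∀ a, ∃ (n : ℕ) (s : S), a * φ g ^ n = φ s
  ker : ∀ s, φ s = 0 ↔ ∃ n : ℕ, g ^ n * s ∈ I

variable (K) in
/-- The canonical map to the localisation of the quotient. -/
noncomputable def can (I : Ideal S) (g : S) :
    S →ₐ[K] Localization.Away (Ideal.Quotient.mk I g) :=
  (IsScalarTower.toAlgHom K (S ⧸ I) _).comp (Ideal.Quotient.mkₐ K I)

lemma can_apply (s : S) : can K I g s = algebraMap (S ⧸ I) _ (Ideal.Quotient.mk I s) := rfl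

lemma isLoc_can (I : Ideal S) (g : S) : IsLoc I g (can K I g) where
  unit := IsLocalization.Away.algebraMap_isUnit (Ideal.Quotient.mk I g)
  surj a := by
    obtain ⟨n, s, h⟩ := IsLocalization.Away.surj (Ideal.Quotient.mk I g) a
    obtain ⟨s, rfl⟩ := Ideal.Quotient.mk_surjective s
    exact ⟨n, s, h⟩
  ker s := by
    rw [can_apply, IsLocalization.map_eq_zero_iff (Submonoid.powers (Ideal.Quotient.mk I g))]
    constructor
    · rintro ⟨⟨_, n, rfl⟩, h⟩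
      exact ⟨n, Ideal.Quotient.eq_zero_iff_mem.1 (by simpa using h)⟩
    · rintro ⟨n, h⟩
      exact ⟨⟨_, n, rfl⟩, by simpa using Ideal.Quotient.eq_zero_iff_mem.2 h⟩

namespace IsLoc

lemma zero (h : IsLoc I g φ) {s : S} (hs : s ∈ I) : φ s = 0 := (h.ker s).2 ⟨0, by simpa using hs⟩

lemma ext (h : IsLoc I g φ) {θ θ' : A →ₐ[K] B} (e : ∀ s, θ (φ s) = θ' (φ s)) : θ = θ' := by
  ext a
  obtain ⟨n, s, hs⟩ := h.surj a
  have hu : IsUnit (θ (φ g) ^ n) := (h.unit.map θ).pow n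
  refine hu.mul_right_cancel ?_
  rw [← map_pow, ← map_mul, hs, e, ← hs, map_mul, ← map_pow, e]

lemma lift (h : IsLoc I g φ) (ψ : S →ₐ[K] B) (hI : ∀ s ∈ I, ψ s = 0) (hu : IsUnit (ψ g)) :
    ∃ θ : A →ₐ[K] B, ∀ s, θ (φ s) = ψ s := by
  let φ' : (S ⧸ I) →ₐ[K] A := Ideal.Quotient.liftₐ I φ fun _ hs => h.zero hs
  let : Algebra (S ⧸ I) A := φ'.toRingHom.toAlgebra
  have : IsScalarTower K (S ⧸ I) A := IsScalarTower.of_algebraMap_eq fun c => (φ'.commutes c).symm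
  have : IsLocalization.Away (Ideal.Quotient.mk I g) A := by
    refine IsLocalization.Away.mk _ h.unit (fun a => ?_) fun a b e => ?_
    · obtain ⟨n, s, hs⟩ := h.surj a
      exact ⟨n, Ideal.Quotient.mk I s, hs⟩
    · obtain ⟨a, rfl⟩ := Ideal.Quotient.mk_surjective a
      obtain ⟨b, rfl⟩ := Ideal.Quotient.mk_surjective b
      have e' : φ a = φ b := e
      obtain ⟨n, hn⟩ := (h.ker (a - b)).1 (by rw [map_sub, e', sub_self])
      refine ⟨n, ?_⟩
      rw [← map_pow, ← map_mul, ← map_mul, Ideal.Quotient.eq, ← mul_sub]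
      exact hn
  let ψ' : (S ⧸ I) →ₐ[K] B := Ideal.Quotient.liftₐ I ψ hI
  have hψ : ∀ y : Submonoid.powers (Ideal.Quotient.mk I g), IsUnit (ψ' y) := by
    rintro ⟨_, n, rfl⟩
    simpa [ψ'] using hu.pow n
  exact ⟨IsLocalization.liftAlgHom (S := A) hψ, fun s =>
    IsLocalization.lift_eq (S := A) (g := ψ'.toRingHom) hψ (Ideal.Quotient.mk I s)⟩

lemma equiv (h : IsLoc I g φ) (h' : IsLoc I g ψ) : ∃ e : A ≃ₐ[K] B, ∀ s, e (φ s) = ψ s := by
  obtain ⟨θ, hθ⟩ := h.lift ψ (fun _ => h'.zero) h'.unit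
  obtain ⟨θ', hθ'⟩ := h'.lift φ (fun _ => h.zero) h.unit
  exact ⟨AlgEquiv.ofAlgHom θ θ' (h'.ext fun s => by simp [hθ, hθ'])
    (h.ext fun s => by simp [hθ, hθ']), hθ⟩

lemma of_retract (h' : IsLoc I g ψ) (hu : IsUnit (φ g))
    (hs : ∀ a, ∃ (n : ℕ) (s : S), a * φ g ^ n = φ s) (hI : ∀ s ∈ I, φ s = 0) (θ : A →+* B)
    (hθ : ∀ s, θ (φ s) = ψ s) : IsLoc I g φ where
  unit := hu
  surj := hs
  ker s := by
    refine ⟨fun e => (h'.ker s).1 (by rw [← hθ, e, map_zero]), fun ⟨n, hn⟩ => ?_⟩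
    have := hI _ hn
    rw [map_mul, map_pow] at this
    exact (hu.pow n).mul_right_eq_zero.1 this

lemma away (h : IsLoc I g φ) (s : S) (B : Type) [CommRing B] [Algebra K B] [Algebra A B]
    [IsScalarTower K A B] [IsLocalization.Away (φ s) B] :
    IsLoc I (g * s) ((IsScalarTower.toAlgHom K A B).comp φ) where
  unit := by
    rw [map_mul]
    exact (h.unit.map (algebraMap A B)).mul (IsLocalization.Away.algebraMap_isUnit (φ s))
  surj b := by
    obtain ⟨n, a, ha⟩ := IsLocalization.Away.surj (φ s) b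
    obtain ⟨m, t, ht⟩ := h.surj a
    refine ⟨n + m, t * g ^ n * s ^ m, ?_⟩
    simp only [AlgHom.comp_apply, IsScalarTower.coe_toAlgHom', map_mul, map_pow, ← ht, ← ha]
    ring
  ker t := by
    rw [AlgHom.comp_apply, IsScalarTower.coe_toAlgHom',
      IsLocalization.map_eq_zero_iff (Submonoid.powers (φ s))]
    constructor
    · rintro ⟨⟨_, n, rfl⟩, e⟩
      obtain ⟨m, hm⟩ := (h.ker (s ^ n * t)).1 (by simpa using e)
      refine ⟨n + m, ?_⟩
      convert I.mul_mem_left (g ^ n * s ^ m) hm using 1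
      ring
    · rintro ⟨n, hn⟩
      refine ⟨⟨_, n, rfl⟩, ?_⟩
      have := (h.ker (s ^ n * t)).2 ⟨n, by rwa [← mul_assoc, ← mul_pow]⟩
      simpa using this

lemma locSurj (h : IsLoc I g φ) : LocSurj φ := fun a => by
  obtain ⟨n, s, hs⟩ := h.surj a
  exact ⟨s, g ^ n, by rw [map_pow]; exact h.unit.pow n, by rw [map_pow]; exact hs⟩

lemma le_cm (h : IsLoc I g φ) (P : PrimeSpectrum A) : I ≤ (cm φ P).asIdeal := fun s hs => by
  rw [mem_cm, h.zero hs]; exact P.asIdeal.zero_mem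

lemma not_mem_cm (h : IsLoc I g φ) (P : PrimeSpectrum A) : g ∉ (cm φ P).asIdeal := fun hg =>
  P.isPrime.ne_top (Ideal.eq_top_of_isUnit_mem _ hg h.unit)

lemma exists_prime (h : IsLoc I g φ) {p : PrimeSpectrum S} (hp : I ≤ p.asIdeal)
    (hg : g ∉ p.asIdeal) : ∃ P, cm φ P = p := by
  have hk : ∀ s, φ s = 0 → s ∈ p.asIdeal := fun s hs => by
    obtain ⟨n, hn⟩ := (h.ker s).1 hs
    exact (p.isPrime.mem_or_mem (hp hn)).resolve_left fun h => hg (p.isPrime.mem_of_pow_mem n h)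
  refine (Res.mem_range_iff h.locSurj p).2 ⟨hk, fun s hs hu => hg ?_⟩
  obtain ⟨a, ha⟩ := hu.exists_right_inv
  obtain ⟨n, t, ht⟩ := h.surj a
  have h1 := hk (s * t - g ^ n) (by
    rw [map_sub, map_mul, ← ht, ← mul_assoc, ha, one_mul, map_pow, sub_self])
  refine p.isPrime.mem_of_pow_mem n ?_
  simpa using p.asIdeal.sub_mem (p.asIdeal.mul_mem_right t hs) h1

lemma min_iff (h : IsLoc I g φ) (P : PrimeSpectrum A) :
    (cm φ P).asIdeal ∈ I.minimalPrimes ↔ P.asIdeal ∈ minimalPrimes A := by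
  constructor
  · intro hP
    refine ⟨⟨P.isPrime, bot_le⟩, fun Q hQ hQP => ?_⟩
    let Q' : PrimeSpectrum A := ⟨Q, hQ.1⟩
    have h1 : cm φ Q' ≤ cm φ P := (h.locSurj.cm_le_iff Q' P).2 hQP
    exact (h.locSurj.cm_le_iff P Q').1 (hP.2 ⟨(cm φ Q').isPrime, h.le_cm Q'⟩ h1)
  · intro hP
    refine ⟨⟨(cm φ P).isPrime, h.le_cm P⟩, fun q hq hqP => ?_⟩
    obtain ⟨Q, hQ⟩ := h.exists_prime (p := ⟨q, hq.1⟩) hq.2 fun hg => h.not_mem_cm P (hqP hg)
    have h1 : Q ≤ P := (h.locSurj.cm_le_iff Q P).1 (by rw [hQ]; exact hqP)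
    have h2 : cm φ P ≤ cm φ Q := (h.locSurj.cm_le_iff P Q).2 (hP.2 ⟨Q.isPrime, bot_le⟩ h1)
    rw [hQ] at h2
    exact h2

end IsLoc

variable (K A) in
/-- `A` is etale over the affine space with coordinates `ι`. -/
def EtCh (ι : Type) : Prop := ∃ t : MvPolynomial ι K →ₐ[K] A, t.toRingHom.Etale

namespace EtCh

variable {ι κ : Type}

lemma comp (h : EtCh K A ι) (θ : A →ₐ[K] B) (hθ : θ.toRingHom.Etale) : EtCh K B ι :=
  let ⟨t, ht⟩ := h
  ⟨θ.comp t, RingHom.Etale.stableUnderComposition _ _ ht hθ⟩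

lemma of_equiv (h : EtCh K A ι) (e : A ≃ₐ[K] B) : EtCh K B ι :=
  h.comp e (RingHom.Etale.of_bijective e.bijective)

lemma reindex (h : EtCh K A ι) (e : κ ≃ ι) : EtCh K A κ :=
  let ⟨t, ht⟩ := h
  ⟨t.comp (renameEquiv K e), RingHom.Etale.stableUnderComposition _ _
    (RingHom.Etale.of_bijective (renameEquiv K e).bijective) ht⟩

lemma away (h : EtCh K A ι) (a : A) (B : Type) [CommRing B] [Algebra K B] [Algebra A B]
    [IsScalarTower K A B] [IsLocalization.Away a B] : EtCh K B ι :=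
  h.comp (IsScalarTower.toAlgHom K A B)
    (RingHom.etale_algebraMap.2 (Algebra.Etale.of_isLocalizationAway a))

lemma reduced (h : EtCh K A ι) : IsReduced A := by
  obtain ⟨t, ht⟩ := h
  let := t.toRingHom.toAlgebra
  have : Algebra.Etale (MvPolynomial ι K) A := ht
  exact Model.ModelC.etale_reduced (MvPolynomial ι K) A

lemma trdeg_eq {e : ℕ} (h : EtCh K A (Fin e)) {Q : Ideal A} (hQ : Q ∈ minimalPrimes A) :
    Algebra.trdeg K (A ⧸ Q) = e := by
  obtain ⟨t, ht⟩ := h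
  let := t.toRingHom.toAlgebra
  have : Algebra.Etale (MvPolynomial (Fin e) K) A := ht
  have : IsScalarTower K (MvPolynomial (Fin e) K) A :=
    IsScalarTower.of_algebraMap_eq fun c => (t.commutes c).symm
  rw [← Model.ModelC.etale_trdeg (MvPolynomial (Fin e) K) A Q hQ, MvPolynomial.trdeg_of_isDomain]
  simp

end EtCh

section

variable {τ : Type} {J : Ideal (MvPolynomial τ K)} {E : Set (MvPolynomial τ K)} {e : ℕ}

lemma locEt_elim (h : LocEt J E e) {p : PrimeSpectrum (MvPolynomial τ K)} (hp : J ≤ p.asIdeal)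
    (hE : ∃ f ∈ E, f ∉ p.asIdeal) :
    ∃ g ∉ p.asIdeal, EtCh K (Localization.Away (Ideal.Quotient.mk J g)) (Fin e) :=
  let ⟨g, hg, _, ht⟩ := h p hp hE
  ⟨g, hg, _, ht⟩

lemma locEt_intro (h : ∀ p : PrimeSpectrum (MvPolynomial τ K), J ≤ p.asIdeal →
    (∃ f ∈ E, f ∉ p.asIdeal) → ∃ g ∉ p.asIdeal, ∃ (A : Type) (_ : CommRing A) (_ : Algebra K A)
      (φ : MvPolynomial τ K →ₐ[K] A), IsLoc J g φ ∧ EtCh K A (Fin e)) : LocEt J E e := by
  intro p hp hE
  obtain ⟨g, hg, A, _, _, φ, hφ, hA⟩ := h p hp hE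
  obtain ⟨ε, -⟩ := hφ.equiv (isLoc_can J g)
  obtain ⟨t, ht⟩ := hA.of_equiv ε
  refine ⟨g, hg, fun i => t (X i), ?_⟩
  rwa [show aeval (fun i => t (X i)) = t from algHom_ext fun i => by simp]

end

end Pool.Agent.Lib.MP_557161_ag.DL.PD
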