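import Pool.Agent.Lib.MP_557161_ag.DL.PD1
import Pool.Agent.Lib.MP_557161_ag.DL.PD2

/-!
Matrices over a localisation: exactness and generalised inverses by clearing denominators.
-/

namespace Pool.Agent.Lib.MP_557161_ag.DL.PD

open Pool.Agent.Lib.MP_60ec62_ag.DL

variable {K S A : Type} [Field K] [CommRing S] [Algebra K S] [CommRing A] [Algebra K A]
  {I : Ideal S} {g : S} {φ : S →ₐ[K] A}

lemma exists_mul_pow_mem {p : Ideal S} (hp : p ∈ I.minimalPrimes) {x : S} (hx : x ∈ p) :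
    ∃ y ∉ p, ∃ n : ℕ, y * x ^ n ∈ I := by
  have := hp.1.1
  by_contra h
  push Not at h
  obtain ⟨q, hq, hIq, hd⟩ := I.exists_le_prime_disjoint (p.primeCompl ⊔ Submonoid.powers x)
    (Set.disjoint_left.2 fun z hz hz' => by
      obtain ⟨y, hy, _, ⟨n, rfl⟩, rfl⟩ := Submonoid.mem_sup.1 hz'
      exact h y hy n hz)
  have h1 : q ≤ p := fun z hz => by
    by_contra hz'
    exact Set.disjoint_left.1 hd hz (Submonoid.mem_sup_left hz')
  exact Set.disjoint_left.1 hd (hp.2 ⟨hq, hIq⟩ h1 hx)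
    (Submonoid.mem_sup_right (Submonoid.mem_powers x))

lemma IsLoc.surj_fin (h : IsLoc I g φ) {β : Type} [Finite β] (v : β → A) :
    ∃ (n : ℕ) (s : β → S), ∀ c, v c * φ g ^ n = φ (s c) := by
  choose n s hs using fun c => h.surj (v c)
  obtain ⟨N, hN⟩ := (Set.finite_range n).bddAbove
  refine ⟨N, fun c => s c * g ^ (N - n c), fun c => ?_⟩
  have : n c ≤ N := hN ⟨c, rfl⟩
  rw [map_mul, map_pow, ← hs, mul_assoc, ← pow_add, Nat.add_sub_cancel' this]

lemma IsLoc.ker_fin (h : IsLoc I g φ) {β : Type} [Finite β] (s : β → S) (hs : ∀ b, φ (s b) = 0) :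
    ∃ n : ℕ, ∀ b, g ^ n * s b ∈ I := by
  choose n hn using fun b => (h.ker (s b)).1 (hs b)
  obtain ⟨N, hN⟩ := (Set.finite_range n).bddAbove
  refine ⟨N, fun b => ?_⟩
  have : n b ≤ N := hN ⟨b, rfl⟩
  rw [← Nat.sub_add_cancel this, pow_add, mul_assoc]
  exact I.mul_mem_left _ (hn b)

lemma mat_mk {β₀ β₁ : Type} [Fintype β₁] (D : Matrix β₀ β₁ S) (s : β₁ → S) (b : β₀) :
    mat D (S ⧸ I) (fun c => Ideal.Quotient.mk I (s c)) b =
      Ideal.Quotient.mk I (∑ c, D b c * s c) := by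
  rw [mat_apply, map_sum]
  rfl

lemma IsLoc.exact (h : IsLoc I g φ) {β₀ β₁ β₂ : Type} [Fintype β₁] [Fintype β₂] [Finite β₀]
    (D : Matrix β₀ β₁ S) (D' : Matrix β₁ β₂ S) (hc : ∀ b c, (D * D') b c ∈ I) {f : S}
    (hf : IsUnit (φ f))
    (hx : ∀ v, mat D (S ⧸ I) v = 0 → f • v ∈ LinearMap.range (mat D' (S ⧸ I))) :
    Function.Exact (D'.map φ).mulVecLin (D.map φ).mulVecLin := by
  intro v
  constructor
  · intro hv
    obtain ⟨N, s, hs⟩ := h.surj_fin v
    obtain ⟨m, hm⟩ := h.ker_fin (fun b => ∑ c, D b c * s c) fun b => by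
      have := congrFun hv b
      simp only [Matrix.mulVecLin_apply, Matrix.mulVec, dotProduct, Matrix.map_apply,
        Pi.zero_apply] at this
      simp only [map_sum, map_mul, ← hs, ← mul_assoc]
      rw [← Finset.sum_mul, this, zero_mul]
    obtain ⟨u, hu⟩ := hx (fun c => Ideal.Quotient.mk I (g ^ m * s c)) (by
      funext b
      rw [mat_mk, Pi.zero_apply, Ideal.Quotient.eq_zero_iff_mem]
      convert hm b using 1
      rw [Finset.mul_sum]
      exact Finset.sum_congr rfl fun c _ => by ring)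
    choose s' hs' using fun c => Ideal.Quotient.mk_surjective (u c)
    obtain rfl : u = fun c => Ideal.Quotient.mk I (s' c) := funext fun c => (hs' c).symm
    obtain ⟨y, hy⟩ := ((hf.mul (h.unit.pow m)).mul (h.unit.pow N)).exists_left_inv
    refine ⟨fun c => y * φ (s' c), funext fun b => ?_⟩
    have h1 := congrFun hu b
    rw [mat_mk] at h1
    have h2 : ∑ c, D' b c * s' c - f * (g ^ m * s b) ∈ I := Ideal.Quotient.eq.1 h1
    have h3 := h.zero h2
    rw [map_sub, sub_eq_zero, map_mul, map_mul, map_pow, ← hs, map_sum] at h3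
    simp only [Matrix.mulVecLin_apply, Matrix.mulVec, dotProduct, Matrix.map_apply]
    calc ∑ c, φ (D' b c) * (y * φ (s' c)) = y * ∑ c, φ (D' b c * s' c) := by
          rw [Finset.mul_sum]
          exact Finset.sum_congr rfl fun c _ => by rw [map_mul]; ring
      _ = y * (φ f * φ g ^ m * φ g ^ N) * v b := by rw [h3]; ring
      _ = v b := by rw [hy, one_mul]
  · rintro ⟨u, rfl⟩
    have : D.map φ * D'.map φ = 0 := by
      rw [← Matrix.map_mul]
      ext b c
      exact h.zero (hc b c)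
    rw [Matrix.mulVecLin_apply, Matrix.mulVecLin_apply, Matrix.mulVec_mulVec, this,
      Matrix.zero_mulVec]

lemma IsLoc.gen_inv (h : IsLoc I g φ) {β₀ β₁ : Type} [Fintype β₀] [Fintype β₁]
    (D : Matrix β₀ β₁ S)
    [Module.Projective A ((β₀ → A) ⧸ LinearMap.range (D.map φ).mulVecLin)] :
    ∃ (n : ℕ) (E : Matrix β₁ β₀ S), ∀ b c, (D * E * D) b c - g ^ n * D b c ∈ I := by
  classical
  obtain ⟨ε, hε⟩ := exists_quasi_inverse (D.map φ).mulVecLin
  have h1 : D.map φ * LinearMap.toMatrix' ε * D.map φ = D.map φ := by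
    apply Matrix.toLin'.injective
    rw [Matrix.toLin'_mul, Matrix.toLin'_mul, Matrix.toLin'_toMatrix']
    exact hε
  obtain ⟨N, s, hs⟩ := h.surj_fin fun x : β₁ × β₀ => LinearMap.toMatrix' ε x.1 x.2
  have h2 : (Matrix.of fun c b => s (c, b)).map φ = φ g ^ N • LinearMap.toMatrix' ε := by
    ext c b
    rw [Matrix.map_apply, Matrix.of_apply, ← hs, Matrix.smul_apply, smul_eq_mul, mul_comm]
  obtain ⟨m, hm⟩ := h.ker_fin (fun x : β₀ × β₁ =>
      (D * (Matrix.of fun c b => s (c, b)) * D) x.1 x.2 - g ^ N * D x.1 x.2) fun x => by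
    have h3 : (D * (Matrix.of fun c b => s (c, b)) * D).map φ = φ g ^ N • D.map φ := by
      rw [Matrix.map_mul, Matrix.map_mul, h2, Matrix.mul_smul, Matrix.smul_mul, h1]
    have h4 := congrFun (congrFun h3 x.1) x.2
    rw [Matrix.map_apply, Matrix.smul_apply, Matrix.map_apply, smul_eq_mul] at h4
    rw [map_sub, h4, map_mul, map_pow, sub_self]
  refine ⟨m + N, g ^ m • Matrix.of fun c b => s (c, b), fun b c => ?_⟩
  rw [Matrix.mul_smul, Matrix.smul_mul, Matrix.smul_apply, smul_eq_mul]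
  convert hm (b, c) using 1
  ring

lemma EtCh.pl {e : ℕ} (h : EtCh K A (Fin e)) (M : Type) [AddCommGroup M] [Module A M] :
    PL A M (e + 1) := by
  obtain ⟨t, ht⟩ := h
  let := t.toRingHom.toAlgebra
  have : Algebra.Etale (MvPolynomial (Fin e) K) A := ht
  exact pl_etale K e A M

theorem IsLoc.gen_inv_of_etCh (h : IsLoc I g φ) {e : ℕ} (hA : EtCh K A (Fin e)) {β : ℕ → Type}
    [∀ i, Fintype (β i)] (D : ∀ i, Matrix (β i) (β (i + 1)) S)
    (hc : ∀ i b c, (D i * D (i + 1)) b c ∈ I) {f : S} (hf : IsUnit (φ f))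
    (hx : ∀ i, ∃ n : ℕ, ∀ v, mat (D i) (S ⧸ I) v = 0 →
      f ^ n • v ∈ LinearMap.range (mat (D (i + 1)) (S ⧸ I))) :
    ∃ (n : ℕ) (E : Matrix (β (e + 1)) (β e) S),
      ∀ b c, (D e * E * D e) b c - g ^ n * D e b c ∈ I := by
  have h1 := syz (F := fun i => β i → A) (fun i => ((D i).map φ).mulVecLin) (fun i => by
    obtain ⟨n, hn⟩ := hx i
    exact h.exact _ _ (hc i) (by rw [map_pow]; exact hf.pow n) hn) e 0 (hA.pl _)
  rw [zero_add] at h1
  exact h.gen_inv (D e)

end Pool.Agent.Lib.MP_557161_ag.DL.PD
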