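import Pool.Agent.Lib.MP_557161_ag.DL.PD4

/-!
The cone over a smooth projective scheme.
-/

namespace Pool.Agent.Lib.MP_557161_ag.DL.PD

open MvPolynomial TensorProduct
open Pool.Agent.Lib.MP_60ec62_ag.DL

variable {k σ A : Type} [Field k] [CommRing A] [Algebra k A]

lemma aeval_scale {h : MvPolynomial σ k} {n : ℕ} (hh : h.IsHomogeneous n) (c : A) (v : σ → A) :
    aeval (fun i => c * v i) h = c ^ n * aeval v h := by
  rw [h.as_sum, map_sum, map_sum, Finset.mul_sum]
  refine Finset.sum_congr rfl fun m hm => ?_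
  rw [aeval_monomial, aeval_monomial, ← hh (mem_support_iff.1 hm), Finsupp.weight_apply]
  simp only [mul_pow, Finsupp.prod, Finsupp.sum, Finset.prod_mul_distrib,
    Finset.prod_pow_eq_pow_sum, Pi.one_apply, smul_eq_mul, mul_one]
  ring

lemma Homog.kill {J : Ideal (MvPolynomial σ k)} (hJ : Homog J) (c : A)
    (φ : MvPolynomial σ k →ₐ[k] A) (h : ∀ f ∈ J, φ f = 0) (f : MvPolynomial σ k) (hf : f ∈ J) :
    aeval (fun i => c * φ (X i)) f = 0 := by
  rw [← sum_homogeneousComponent f, map_sum]
  refine Finset.sum_eq_zero fun n _ => ?_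
  rw [aeval_scale (homogeneousComponent_isHomogeneous n f),
    show aeval (fun i => φ (X i)) = φ from algHom_ext fun i => by simp, h _ (hJ f hf n), mul_zero]

/-- Fractions with denominator a power of `φ g`. -/
def frs {S : Type} [CommRing S] [Algebra k S] (φ : S →ₐ[k] A) (g : S) : Subring A where
  carrier := {a | ∃ (n : ℕ) (s : S), a * φ g ^ n = φ s}
  zero_mem' := ⟨0, 0, by simp⟩
  one_mem' := ⟨0, 1, by simp⟩
  add_mem' := by
    rintro a b ⟨n, s, hs⟩ ⟨m, t, ht⟩
    refine ⟨n + m, s * g ^ m + t * g ^ n, ?_⟩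
    rw [map_add, map_mul, map_mul, map_pow, map_pow, ← hs, ← ht]
    ring
  mul_mem' := by
    rintro a b ⟨n, s, hs⟩ ⟨m, t, ht⟩
    refine ⟨n + m, s * t, ?_⟩
    rw [map_mul, ← hs, ← ht]
    ring
  neg_mem' := by
    rintro a ⟨n, s, hs⟩
    exact ⟨n, -s, by rw [map_neg, ← hs, neg_mul]⟩

section Cyl

variable (R : Type) [CommRing R]

/-- The product with the punctured line. -/
abbrev Cyl : Type := Localization.Away (Polynomial.X : Polynomial R)

/-- The coordinate of the punctured line. -/
noncomputable def cylT : Cyl R := algebraMap (Polynomial R) _ Polynomial.X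

lemma cylT_unit : IsUnit (cylT R) := IsLocalization.Away.algebraMap_isUnit _

variable [Algebra k R]

variable (k) in
/-- The map from the base. -/
noncomputable def cylC : R →ₐ[k] Cyl R :=
  (IsScalarTower.toAlgHom k (Polynomial R) _).comp Polynomial.CAlgHom

variable {R}

lemma cyl_surj {S : Type} [CommRing S] [Algebra k S] (φ : S →ₐ[k] Cyl R) (g : S)
    (hg : φ g = cylT R) (h1 : ∀ c, cylC k R c ∈ frs φ g) (a : Cyl R) : a ∈ frs φ g := by
  have h2 : ∀ p : Polynomial R, algebraMap _ (Cyl R) p ∈ frs φ g := by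
    intro p
    induction p using Polynomial.induction_on with
    | C c => exact h1 c
    | add p q hp hq => rw [map_add]; exact add_mem hp hq
    | monomial n c _ =>
      rw [map_mul, map_pow]
      have : cylT R ∈ frs φ g := ⟨0, g, by rw [pow_zero, mul_one, hg]⟩
      exact mul_mem (h1 c) (pow_mem this _)
  obtain ⟨n, p, hp⟩ := IsLocalization.Away.surj (Polynomial.X : Polynomial R) a
  obtain ⟨m, f, hf⟩ := h2 p
  refine ⟨n + m, f, ?_⟩
  rw [← hf, ← hp, hg, pow_add, mul_assoc]
  rfl

lemma cyl_lift (χ : R →ₐ[k] A) {u : A} (hu : IsUnit u) :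
    ∃ θ : Cyl R →+* A, θ (cylT R) = u ∧ ∀ c, θ (cylC k R c) = χ c := by
  have hu' : IsUnit (Polynomial.eval₂RingHom χ.toRingHom u Polynomial.X) := by simpa using hu
  exact ⟨IsLocalization.Away.lift _ hu', by simp [cylT], fun c => by simp [cylC]⟩

lemma smooth_cyl [Algebra.Smooth k R] : Algebra.Smooth k (Cyl R) := by
  have : Algebra.Smooth R (Polynomial R) := {}
  have : Algebra.Smooth k (Polynomial R) := Algebra.Smooth.comp k R _
  have : Algebra.Smooth (Polynomial R) (Cyl R) :=
    Algebra.Smooth.of_isLocalization_Away (Polynomial.X : Polynomial R)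
  exact Algebra.Smooth.comp k (Polynomial R) _

end Cyl

section Cone

variable (J : Ideal (MvPolynomial σ k)) (s : σ)

/-- The parametrisation of the cone. -/
noncomputable def cylMap : MvPolynomial σ k →ₐ[k] Cyl (Chart J s) :=
  aeval fun i => cylT _ * ((cylC k (Chart J s)).comp (Ideal.Quotient.mkₐ k _)) (X i)

lemma cylMap_X (i : σ) :
    cylMap J s (X i) = cylT _ * cylC k (Chart J s) (Ideal.Quotient.mk _ (X i)) := by
  simp [cylMap]

lemma cylMap_s : cylMap J s (X s) = cylT _ := by
  have : (Ideal.Quotient.mk _ (X s) : Chart J s) = 1 := by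
    rw [← map_one (Ideal.Quotient.mk _), Ideal.Quotient.eq]
    exact Ideal.mem_sup_right (Ideal.subset_span rfl)
  rw [cylMap_X, this, map_one, mul_one]

variable {J} in
lemma isLoc_cyl (hJ : Homog J) : IsLoc J (X s) (cylMap J s) := by
  have hc := isLoc_can (K := k) J (X s)
  obtain ⟨y, hy⟩ := hc.unit.exists_left_inv
  let χ : Chart J s →ₐ[k] Localization.Away (Ideal.Quotient.mk J (X s)) :=
    Ideal.Quotient.liftₐ _ (aeval fun i => y * can k J (X s) (X i)) (by
      change _ ≤ RingHom.ker _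
      refine sup_le (fun f hf => Homog.kill hJ y _ (fun _ => hc.zero) f hf) ?_
      rw [Ideal.span_le, Set.singleton_subset_iff, SetLike.mem_coe, RingHom.mem_ker]
      simp [hy])
  have hχ : ∀ i, χ (Ideal.Quotient.mk _ (X i)) = y * can k J (X s) (X i) := fun i => by simp [χ]
  obtain ⟨θ, h1, h2⟩ := cyl_lift χ hc.unit
  refine hc.of_retract ?_ (cyl_surj _ _ (cylMap_s J s) fun c => ?_) ?_ θ ?_
  · rw [cylMap_s]
    exact cylT_unit _
  · obtain ⟨f, rfl⟩ := Ideal.Quotient.mk_surjective c
    induction f using MvPolynomial.induction_on with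
    | C c =>
      refine ⟨0, C c, ?_⟩
      rw [pow_zero, mul_one, ← algebraMap_eq, AlgHom.commutes]
      exact (cylC k (Chart J s)).commutes c
    | add f g hf hg => rw [map_add, map_add]; exact add_mem hf hg
    | mul_X f i hf =>
      rw [map_mul, map_mul]
      exact mul_mem hf ⟨1, X i, by rw [cylMap_s, cylMap_X, pow_one, mul_comm]⟩
  · refine Homog.kill hJ _ _ fun f hf => ?_
    rw [AlgHom.comp_apply, Ideal.Quotient.mkₐ_eq_mk,
      Ideal.Quotient.eq_zero_iff_mem.2 (Ideal.mem_sup_left hf), map_zero]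
  · intro f
    induction f using MvPolynomial.induction_on with
    | C c =>
      rw [← algebraMap_eq, AlgHom.commutes, AlgHom.commutes, ← (cylC k (Chart J s)).commutes, h2,
        AlgHom.commutes]
    | add f g hf hg => rw [map_add, map_add, map_add, hf, hg]
    | mul_X f i hf =>
      rw [map_mul, map_mul, map_mul, hf, cylMap_X, map_mul, h1, h2, hχ, ← mul_assoc _ y,
        mul_comm _ y, hy, one_mul]

end Cone

/-- Etale charts for a smooth localisation. -/
lemma IsLoc.exists_etCh [Finite σ] [Algebra.Smooth k A] {J : Ideal (MvPolynomial σ k)}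
    {g : MvPolynomial σ k} {φ : MvPolynomial σ k →ₐ[k] A} (h : IsLoc J g φ) {d : ℕ}
    (hd : ∀ P ∈ J.minimalPrimes, ringKrullDim (MvPolynomial σ k ⧸ P) = d)
    {p : PrimeSpectrum (MvPolynomial σ k)} (hp : J ≤ p.asIdeal) (hg : g ∉ p.asIdeal) :
    ∃ g' ∉ p.asIdeal, ∃ (B : Type) (_ : CommRing B) (_ : Algebra k B)
      (ψ : MvPolynomial σ k →ₐ[k] B), IsLoc J g' ψ ∧ EtCh k B (Fin d) := by
  obtain ⟨Q, rfl⟩ := h.exists_prime hp hg
  obtain ⟨f, hf, n, _, _, _⟩ :=
    Algebra.IsSmoothAt.exists_isStandardEtale_mvPolynomial (R := k) (p := Q.asIdeal)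
  obtain ⟨m, t, ht⟩ := h.surj f
  have : IsLocalization.Away (φ t) (Localization.Away f) :=
    IsLocalization.Away.of_associated (r := f) (ht ▸ associated_mul_unit_right _ _ (h.unit.pow m))
  have h1 := h.away t (Localization.Away f)
  have hgt : g * t ∉ (cm φ Q).asIdeal := fun e => by
    rcases (cm φ Q).isPrime.mem_or_mem e with e | e
    · exact hg e
    · rw [mem_cm, ← ht] at e
      rcases Q.isPrime.mem_or_mem e with e | e
      · exact hf e
      · exact hg (Q.isPrime.mem_of_pow_mem m e)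
  have h2 : EtCh k (Localization.Away f) (Fin n) :=
    ⟨IsScalarTower.toAlgHom k _ _, RingHom.etale_algebraMap.2 inferInstance⟩
  obtain ⟨P, -⟩ := h1.exists_prime hp hgt
  obtain ⟨P₀, hP₀, -⟩ := Ideal.exists_minimalPrimes_le (I := ⊥) (J := P.asIdeal) bot_le
  have h3 := h2.trdeg_eq hP₀
  let P₁ : PrimeSpectrum (Localization.Away f) := ⟨P₀, hP₀.1.1⟩
  have h4 := hd _ ((h1.min_iff P₁).2 hP₀)
  obtain ⟨r, hr, hr'⟩ := Dim.trdeg_ft (𝕜 := k)
    (cm ((IsScalarTower.toAlgHom k A (Localization.Away f)).comp φ) P₁)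
  rw [MP_2c79a0_ag.H68Dim.ringKrullDim_quot, hr'] at h4
  rw [Dim.trdeg_locSurj h1.locSurj, h3] at hr
  obtain rfl : n = r := by exact_mod_cast hr
  obtain rfl : n = d := by exact_mod_cast h4
  exact ⟨g * t, hgt, _, _, _, _, h1, h2⟩

section Base

variable (K : Type) [Field K] [Algebra k K] (φ : MvPolynomial σ k →ₐ[k] A)

/-- The base change of a map from a polynomial ring. -/
noncomputable def bc : MvPolynomial σ K →ₐ[K] K ⊗[k] A := aeval fun i => 1 ⊗ₜ φ (X i)

lemma bc_map (f : MvPolynomial σ k) : bc K φ (map (algebraMap k K) f) = 1 ⊗ₜ φ f := by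
  induction f using MvPolynomial.induction_on with
  | C c =>
    rw [map_C, ← algebraMap_eq, ← algebraMap_eq, AlgHom.commutes, AlgHom.commutes,
      ← IsScalarTower.algebraMap_apply, ← Algebra.TensorProduct.includeRight_apply,
      AlgHom.commutes]
  | add f g hf hg => rw [map_add, map_add, map_add, hf, hg, tmul_add]
  | mul_X f i hf =>
    rw [map_mul, map_mul, map_mul, hf, map_X, bc, aeval_X, Algebra.TensorProduct.tmul_mul_tmul,
      one_mul]

variable {φ} in
lemma IsLoc.baseChange {J : Ideal (MvPolynomial σ k)} {g : MvPolynomial σ k} (h : IsLoc J g φ) :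
    IsLoc (J.map (map (algebraMap k K))) (map (algebraMap k K) g) (bc K φ) := by
  set I : Ideal (MvPolynomial σ K) := J.map (map (algebraMap k K))
  have hc := isLoc_can (K := K) I (map (algebraMap k K) g)
  obtain ⟨θ, hθ⟩ := h.lift (((can K I _).restrictScalars k).comp (mapAlgHom (Algebra.ofId k K)))
    (fun s hs => hc.zero (Ideal.mem_map_of_mem _ hs)) hc.unit
  refine hc.of_retract ?_ (fun z => ?_) ?_
    (Algebra.TensorProduct.lift (Algebra.ofId K _) θ fun _ _ => Commute.all _ _).toRingHom ?_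
  · rw [bc_map]
    exact h.unit.map (Algebra.TensorProduct.includeRight : A →ₐ[k] K ⊗[k] A)
  · change z ∈ frs (bc K φ) _
    induction z with
    | zero => exact zero_mem _
    | tmul x y =>
      obtain ⟨n, s, hs⟩ := h.surj y
      refine ⟨n, C x * map (algebraMap k K) s, ?_⟩
      rw [map_mul, bc_map, bc_map, ← algebraMap_eq, AlgHom.commutes, ← hs]
      simp
    | add x y hx hy => exact add_mem hx hy
  · change I ≤ RingHom.ker (bc K φ)
    refine Ideal.map_le_iff_le_comap.2 fun s hs => ?_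
    rw [Ideal.mem_comap, RingHom.mem_ker, bc_map, h.zero hs, tmul_zero]
  · intro s
    exact DFunLike.congr_fun (show (Algebra.TensorProduct.lift (Algebra.ofId K _) θ fun _ _ =>
      Commute.all _ _).comp (bc K φ) = can K I _ from algHom_ext fun x => by
        simp [bc, hθ]) s

end Base

end Pool.Agent.Lib.MP_557161_ag.DL.PD
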