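import Pool.Agent.Lib.MP_557161_ag.DL.CxA
import Pool.Agent.Lib.MP_557161_ag.DL.PD3
import Pool.Agent.Lib.MP_557161_ag.DL.PD5

/-!
Consequences of the local etale structure: global dimension, dimension, reducedness; the local
structure of the cone over a smooth projective scheme and of products.
-/

namespace Pool.Agent.Lib.MP_557161_ag.DL

open MvPolynomial Filter
open Pool.Agent.Lib.MP_60ec62_ag.DL (dm lenAt)

variable {K : Type} [Field K] {τ Γ : Type} [Finite τ] [AddCommMonoid Γ] {w : τ → Γ}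
  {I : Ideal (MvPolynomial τ K)} {E : Set (MvPolynomial τ K)} {e : ℕ}

/-- The `e`-th syzygy is locally projective. -/
theorem LocEt.qproj (h : LocEt I E e) {F : Cx K w} (hF : F.IsCx I)
    (hx : F.QEx E (MvPolynomial τ K ⧸ I)) : (F.pres e).QProj I E := by
  intro f hf
  rw [Ideal.radical_eq_sInf, Ideal.mem_sInf]
  rintro p ⟨hp, hp'⟩
  by_contra hfp
  have hI : I ≤ p := fun s hs => hp ⟨0, fun b c => by
    simpa using I.mul_mem_right _ hs⟩
  obtain ⟨g, hg, hA⟩ := PD.locEt_elim h (p := ⟨p, hp'⟩) hI ⟨f, hf, hfp⟩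
  have h1 := (PD.isLoc_can (K := K) I g).away f (Localization.Away (PD.can K I g f))
  obtain ⟨n, hn⟩ := h1.gen_inv_of_etCh (hA.away (PD.can K I g f) _) F.D hF (f := f)
    (IsLocalization.Away.algebraMap_isUnit (PD.can K I g f)) fun i => hx i f hf
  exact (hp'.mem_or_mem (hp'.mem_of_pow_mem n (hp hn))).elim hg hfp

theorem LocEt.dm_min (h : LocEt I E e) {p : PrimeSpectrum (MvPolynomial τ K)}
    (hp : p.asIdeal ∈ I.minimalPrimes) (hE : ∃ f ∈ E, f ∉ p.asIdeal) : dm K p = e := by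
  obtain ⟨g, hg, hA⟩ := PD.locEt_elim h hp.1.2 hE
  have h1 := PD.isLoc_can (K := K) I g
  obtain ⟨P, rfl⟩ := h1.exists_prime hp.1.2 hg
  rw [MP_60ec62_ag.DL.Dim.dm_locSurj h1.locSurj, dm, hA.trdeg_eq ((h1.min_iff P).1 hp)]
  simp

theorem LocEt.lenAt_min (h : LocEt I E e) {p : PrimeSpectrum (MvPolynomial τ K)}
    (hp : p.asIdeal ∈ I.minimalPrimes) (hE : ∃ f ∈ E, f ∉ p.asIdeal) :
    lenAt p (MvPolynomial τ K ⧸ I) = 1 := by
  obtain ⟨g, hg, hA⟩ := PD.locEt_elim h hp.1.2 hE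
  have h1 := PD.isLoc_can (K := K) I g
  have := hA.reduced
  have h2 : ∀ x ∈ p.asIdeal, ∃ r ∉ p.asIdeal, r * x ∈ I := by
    intro x hx
    obtain ⟨y, hy, n, hn⟩ := PD.exists_mul_pow_mem hp hx
    have h3 : PD.can K I g (y * x) = 0 := IsNilpotent.eq_zero ⟨n + 1, by
      rw [← map_pow]
      refine h1.zero ?_
      convert I.mul_mem_left (y ^ n * x) hn using 1
      ring⟩
    obtain ⟨m, hm⟩ := (h1.ker _).1 h3
    refine ⟨g ^ m * y, fun e => ?_, by rwa [mul_assoc]⟩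
    exact (p.isPrime.mem_or_mem e).elim (fun e => hg (p.isPrime.mem_of_pow_mem m e)) hy
  let π : (MvPolynomial τ K ⧸ I) →ₗ[MvPolynomial τ K] (MvPolynomial τ K ⧸ p.asIdeal) :=
    Submodule.factor hp.1.2
  rw [MP_60ec62_ag.DL.CycA.lenAt_add (LinearMap.ker π).subtype π (Submodule.injective_subtype _)
    (Submodule.factor_surjective _) (LinearMap.exact_subtype_ker_map π),
    MP_60ec62_ag.DL.CycA.lenAt_self, (MP_60ec62_ag.DL.CycA.lenAt_zero p).2, zero_add]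
  rw [Module.notMem_support_iff']
  rintro ⟨v, hv⟩
  obtain ⟨x, rfl⟩ := Ideal.Quotient.mk_surjective v
  obtain ⟨r, hr, hrx⟩ := h2 x (Ideal.Quotient.eq_zero_iff_mem.1 hv)
  exact ⟨r, hr, Subtype.ext (Ideal.Quotient.eq_zero_iff_mem.2 hrx)⟩

theorem LocEt.dm_le (h : LocEt I E e) {p : PrimeSpectrum (MvPolynomial τ K)}
    (hp : I ≤ p.asIdeal) (hE : ∃ f ∈ E, f ∉ p.asIdeal) : dm K p ≤ e := by
  obtain ⟨q, hq, hqp⟩ := Ideal.exists_minimalPrimes_le hp
  obtain ⟨f, hf, hfp⟩ := hE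
  rw [← h.dm_min (p := ⟨q, hq.1.1⟩) hq ⟨f, hf, fun e => hfp (hqp e)⟩]
  exact MP_60ec62_ag.DL.dm_anti hqp

/-- The ideal of a product. -/
noncomputable def bx {σ σ' : Type} (a : Ideal (MvPolynomial σ K)) (b : Ideal (MvPolynomial σ' K)) :
    Ideal (MvPolynomial (σ ⊕ σ') K) :=
  a.map (rename Sum.inl) ⊔ b.map (rename Sum.inr)

/-- The irrelevant monomials of a product of two projective spaces. -/
def E2 (K : Type) [Field K] (σ σ' : Type) : Set (MvPolynomial (σ ⊕ σ') K) :=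
  {f | ∃ s t, f = X (Sum.inl s) * X (Sum.inr t)}

open TensorProduct in
/-- The coordinate ring of a product. -/
theorem exists_bx_equiv {σ σ' : Type} (a : Ideal (MvPolynomial σ K))
    (b : Ideal (MvPolynomial σ' K)) :
    ∃ φ : (MvPolynomial (σ ⊕ σ') K ⧸ bx a b) ≃ₐ[K]
        (MvPolynomial σ K ⧸ a) ⊗[K] (MvPolynomial σ' K ⧸ b),
      (∀ f, φ (Ideal.Quotient.mk _ (rename Sum.inl f)) = Ideal.Quotient.mk a f ⊗ₜ 1) ∧
      ∀ f, φ (Ideal.Quotient.mk _ (rename Sum.inr f)) = 1 ⊗ₜ Ideal.Quotient.mk b f := by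
  have h1 := (PD.isLoc_mk (K := K) a).tensor (PD.isLoc_mk (K := K) b)
  rw [map_one, map_one, mul_one] at h1
  obtain ⟨φ, hφ⟩ := (PD.isLoc_mk (K := K) (bx a b)).equiv h1
  exact ⟨φ, fun f => (hφ _).trans (PD.tens_inl _ _ f), fun f => (hφ _).trans (PD.tens_inr _ _ f)⟩

theorem LocEt.bx {σ σ' : Type} [Finite σ] [Finite σ'] {a : Ideal (MvPolynomial σ K)}
    {b : Ideal (MvPolynomial σ' K)} {e e' : ℕ} (ha : LocEt a (Set.range X) e)
    (hb : LocEt b (Set.range X) e') : LocEt (bx a b) (E2 K σ σ') (e + e') := by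
  refine PD.locEt_intro ?_
  rintro p hp ⟨_, ⟨s, t, rfl⟩, hst⟩
  obtain ⟨g, hg, hA⟩ := PD.locEt_elim ha (p := MP_60ec62_ag.DL.cm (rename Sum.inl) p)
    (fun f hf => hp (Ideal.mem_sup_left (Ideal.mem_map_of_mem _ hf)))
    ⟨X s, ⟨s, rfl⟩, fun e => hst (p.asIdeal.mul_mem_right _ (by simpa using e))⟩
  obtain ⟨g', hg', hB⟩ := PD.locEt_elim hb (p := MP_60ec62_ag.DL.cm (rename Sum.inr) p)
    (fun f hf => hp (Ideal.mem_sup_right (Ideal.mem_map_of_mem _ hf)))
    ⟨X t, ⟨t, rfl⟩, fun e => hst (p.asIdeal.mul_mem_left _ (by simpa using e))⟩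
  exact ⟨_, fun e => (p.isPrime.mem_or_mem e).elim hg hg', _, _, _, _,
    (PD.isLoc_can a g).tensor (PD.isLoc_can b g'), (hA.tensor hB).reindex finSumFinEquiv.symm⟩

/-- The cone over a smooth projective scheme of pure dimension `d`, after extension of the base. -/
theorem locEt_of_smooth {k σ : Type} [Field k] [Algebra k K] [Finite σ]
    {J : Ideal (MvPolynomial σ k)} (hJ : Homog J) (hs : ∀ s, Algebra.Smooth k (Chart J s)) {d : ℕ}
    (hd : ∀ P ∈ J.minimalPrimes, ringKrullDim (MvPolynomial σ k ⧸ P) = (d + 1 : ℕ)) :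
    LocEt (J.map (MvPolynomial.map (algebraMap k K))) (Set.range X) (d + 1) := by
  refine PD.locEt_intro ?_
  rintro p hp ⟨_, ⟨s, rfl⟩, hsp⟩
  have := hs s
  have : Algebra.Smooth k (PD.Cyl (Chart J s)) := PD.smooth_cyl
  obtain ⟨g, hg, B, _, _, ψ, h1, h2⟩ := (PD.isLoc_cyl s hJ).exists_etCh hd
    (p := PrimeSpectrum.comap (MvPolynomial.map (algebraMap k K)) p)
    (Ideal.map_le_iff_le_comap.1 hp) (fun e => hsp (by simpa using e))
  exact ⟨_, hg, _, _, _, _, h1.baseChange K, h2.baseChange K⟩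

section Closed

variable [IsAlgClosed K] {σ σ' : Type} [Finite σ] [Finite σ']

theorem bx_isPrime (a : PrimeSpectrum (MvPolynomial σ K)) (b : PrimeSpectrum (MvPolynomial σ' K)) :
    (bx a.asIdeal b.asIdeal).IsPrime := by
  obtain ⟨φ, -⟩ := exists_bx_equiv a.asIdeal b.asIdeal
  have := PD.tensor_isDomain (K := K) (A := MvPolynomial σ K ⧸ a.asIdeal)
    (B := MvPolynomial σ' K ⧸ b.asIdeal)
  exact (Ideal.Quotient.isDomain_iff_prime _).1 φ.toMulEquiv.isDomain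

/-- The product of two subvarieties. -/
noncomputable def bxP (a : PrimeSpectrum (MvPolynomial σ K))
    (b : PrimeSpectrum (MvPolynomial σ' K)) : PrimeSpectrum (MvPolynomial (σ ⊕ σ') K) :=
  ⟨bx a.asIdeal b.asIdeal, bx_isPrime a b⟩

theorem dm_bxP (a : PrimeSpectrum (MvPolynomial σ K)) (b : PrimeSpectrum (MvPolynomial σ' K)) :
    dm K (bxP a b) = dm K a + dm K b := by
  obtain ⟨φ, -⟩ := exists_bx_equiv a.asIdeal b.asIdeal
  have := PD.tensor_isDomain (K := K) (A := MvPolynomial σ K ⧸ a.asIdeal)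
    (B := MvPolynomial σ' K ⧸ b.asIdeal)
  exact (congrArg Cardinal.toNat φ.trdeg_eq).trans PD.trdeg_tensor

end Closed

end Pool.Agent.Lib.MP_557161_ag.DL
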