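import Mathlib

/-!
The global dimension of an etale algebra over a polynomial ring over a field.
-/

namespace Pool.Agent.Lib.MP_557161_ag.DL.PD

open CategoryTheory TensorProduct Function

/-- Projective dimension less than `n`. -/
def PL (A M : Type) [CommRing A] [AddCommGroup M] [Module A M] (n : ℕ) : Prop :=
  HasProjectiveDimensionLT (ModuleCat.of A M) n

section Basic

variable {A M N L : Type} [CommRing A] [AddCommGroup M] [Module A M] [AddCommGroup N] [Module A N]
  [AddCommGroup L] [Module A L] {n : ℕ}

lemma PL.retract (i : M →ₗ[A] N) (r : N →ₗ[A] M) (h : r ∘ₗ i = LinearMap.id) (hN : PL A N n) :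
    PL A M n := by
  have : HasProjectiveDimensionLT (ModuleCat.of A N) n := hN
  exact Retract.hasProjectiveDimensionLT
    (X := ModuleCat.of A M) (Y := ModuleCat.of A N)
    ⟨ModuleCat.ofHom i, ModuleCat.ofHom r, by rw [← ModuleCat.ofHom_comp, h]; rfl⟩ n

lemma PL.of_equiv (e : M ≃ₗ[A] N) (hN : PL A N n) : PL A M n :=
  hN.retract e.toLinearMap e.symm.toLinearMap (by ext; simp)

lemma ses (f : M →ₗ[A] N) (g : N →ₗ[A] L) (hf : Injective f) (hg : Surjective g) (h : Exact f g) :
    (ModuleCat.shortComplexOfCompEqZero f g h.linearMap_comp_eq_zero).ShortExact :=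
  ModuleCat.shortComplex_shortExact _ h hf hg

lemma PL.right (f : M →ₗ[A] N) (g : N →ₗ[A] L) (hf : Injective f) (hg : Surjective g)
    (h : Exact f g) (h1 : PL A M n) (h2 : PL A N (n + 1)) : PL A L (n + 1) :=
  (ses f g hf hg h).hasProjectiveDimensionLT_X₃ n h1 h2

lemma PL.left (f : M →ₗ[A] N) (g : N →ₗ[A] L) (hf : Injective f) (hg : Surjective g)
    (h : Exact f g) (h2 : PL A N n) (h3 : PL A L (n + 1)) : PL A M n :=
  (ses f g hf hg h).hasProjectiveDimensionLT_X₁ n h2 h3

lemma PL.mono {m : ℕ} (h : PL A M n) (hm : n ≤ m) : PL A M m :=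
  have : HasProjectiveDimensionLT (ModuleCat.of A M) n := h
  hasProjectiveDimensionLT_of_ge (ModuleCat.of A M) n m hm

lemma pl_one_iff : PL A M 1 ↔ Module.Projective A M := by
  rw [IsProjective.iff_projective, projective_iff_hasProjectiveDimensionLT_one]
  rfl

end Basic

/-- Base changes of modules to flat algebras have projective dimension at most `n`. -/
def Phi (R : Type) [CommRing R] (n : ℕ) : Prop :=
  ∀ (A : Type) [CommRing A] [Algebra R A] [Module.Flat R A] (M : Type) [AddCommGroup M]
    [Module R M], PL A (A ⊗[R] M) (n + 1)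

lemma phi_field {R : Type} [CommRing R] (h : IsField R) : Phi R 0 := by
  intro A _ _ _ M _ _
  rw [pl_one_iff]
  have : Module.Free R M := by
    let := h.toField
    exact Module.Free.of_divisionRing R M
  infer_instance

section Step

variable {R R' : Type} [CommRing R] [CommRing R'] [Algebra R R'] (x : R')
  (M : Type) [AddCommGroup M] [Module R' M] [Module R M] [IsScalarTower R R' M]

/-- The map `x ⊗ 1 - 1 ⊗ x`. -/
noncomputable def del : R' ⊗[R] M →ₗ[R'] R' ⊗[R] M :=
  x • LinearMap.id - ((LinearMap.lsmul R' M x).restrictScalars R).baseChange R'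

lemma del_tmul (r : R') (m : M) : del (R := R) x M (r ⊗ₜ m) = (x * r) ⊗ₜ m - r ⊗ₜ (x • m) := by
  simp [del, smul_tmul']

variable (R R') in
/-- The multiplication map. -/
noncomputable def mul : R' ⊗[R] M →ₗ[R'] M :=
  TensorProduct.AlgebraTensorModule.lift
    ((Algebra.lsmul R' R' M).toLinearMap.flip.restrictScalars R).flip

lemma mul_tmul (r : R') (m : M) : mul R R' M (r ⊗ₜ m) = r • m := by
  simp [mul]

lemma mul_surj : Surjective (mul R R' M) := fun m => ⟨1 ⊗ₜ m, by simp [mul_tmul]⟩

variable (b : Module.Basis ℕ R R') (hb : ∀ n, b n = x ^ n)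

include hb in
lemma del_exact : Exact (del (R := R) x M) (mul R R' M) := by
  have h1 : ∀ (n : ℕ) (m : M), (x ^ n) ⊗ₜ[R] m - (1 : R') ⊗ₜ[R] (x ^ n • m) ∈
      LinearMap.range (del (R := R) x M) := by
    intro n
    induction n with
    | zero => intro m; simp
    | succ n ih =>
      intro m
      have := add_mem (LinearMap.mem_range_self (del (R := R) x M) ((x ^ n) ⊗ₜ m)) (ih (x • m))
      rw [del_tmul, smul_smul, ← pow_succ, ← pow_succ'] at this
      convert this using 1
      abel
  have h2 : ∀ (r : R') (m : M), r ⊗ₜ[R] m - (1 : R') ⊗ₜ[R] (r • m) ∈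
      LinearMap.range (del (R := R) x M) := by
    intro r m
    have hr : r ∈ Submodule.span R (Set.range b) := b.mem_span r
    induction hr using Submodule.span_induction with
    | mem r hr => obtain ⟨n, rfl⟩ := hr; rw [hb]; exact h1 n m
    | zero => simp
    | add r s _ _ hr hs =>
      convert add_mem hr hs using 1
      rw [add_tmul, add_smul, tmul_add]; abel
    | smul c r _ hr =>
      have := Submodule.smul_of_tower_mem _ c hr
      convert this using 1
      rw [smul_sub, smul_assoc, tmul_smul, smul_tmul']
      rfl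
  have h3 : ∀ z : R' ⊗[R] M, z - (1 : R') ⊗ₜ[R] (mul R R' M z) ∈
      LinearMap.range (del (R := R) x M) := by
    intro z
    induction z with
    | zero => simp
    | tmul r m => rw [mul_tmul]; exact h2 r m
    | add y z hy hz =>
      convert add_mem hy hz using 1
      rw [map_add, tmul_add]; abel
  intro z
  constructor
  · intro hz
    have := h3 z
    rwa [hz, tmul_zero, sub_zero] at this
  · rintro ⟨y, rfl⟩
    induction y with
    | zero => simp
    | tmul r m => rw [del_tmul, map_sub, mul_tmul, mul_tmul, smul_smul, mul_comm, sub_self]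
    | add y z hy hz => rw [map_add, map_add, hy, hz, add_zero]

include hb in
lemma repr_mul (r : R') (n : ℕ) : b.repr (x * r) (n + 1) = b.repr r n := by
  have hr : r ∈ Submodule.span R (Set.range b) := b.mem_span r
  induction hr using Submodule.span_induction with
  | mem r hr =>
    obtain ⟨k, rfl⟩ := hr
    have : x * b k = b (k + 1) := by rw [hb, hb, pow_succ']
    rw [this]
    simp [Finsupp.single_apply]
  | zero => simp
  | add r s _ _ hr hs => simp [mul_add, hr, hs]
  | smul c r _ hr => simp [hr]

include hb in
lemma del_inj : Injective (del (R := R) x M) := by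
  classical
  set e := TensorProduct.equivFinsuppOfBasisLeft (N := M) b with he
  have h1 : ∀ (z : R' ⊗[R] M) (n : ℕ), e (del (R := R) x M z) (n + 1) = e z n - x • e z (n + 1) := by
    intro z n
    induction z with
    | zero => simp
    | tmul r m =>
      rw [del_tmul, map_sub, Finsupp.sub_apply, he]
      simp only [equivFinsuppOfBasisLeft_apply_tmul_apply]
      rw [repr_mul x b hb, smul_comm]
    | add y z hy hz =>
      simp only [map_add, Finsupp.add_apply, hy, hz, smul_add]; abel
  rw [injective_iff_map_eq_zero]
  intro z hz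
  have h2 : ∀ n, e z n = x • e z (n + 1) := fun n => by
    have := h1 z n
    rw [hz, map_zero, Finsupp.zero_apply] at this
    exact sub_eq_zero.1 this.symm
  have h3 : ∀ k n, e z n = x ^ k • e z (n + k) := by
    intro k
    induction k with
    | zero => simp
    | succ k ih => intro n; rw [ih n, h2 (n + k), smul_smul, ← pow_succ, add_assoc]
  apply e.injective
  rw [map_zero]
  ext n
  obtain ⟨N, hN⟩ := (e z).support.bddAbove
  have : e z (n + (N + 1)) = 0 := by
    by_contra h
    have := hN (Finsupp.mem_support_iff.2 h)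
    omega
  rw [h3 (N + 1) n, this, smul_zero, Finsupp.zero_apply]

include hb in
lemma phi_step {n : ℕ} (h : Phi R n) : Phi R' (n + 1) := by
  intro A _ _ _ M _ _
  let : Algebra R A := ((algebraMap R' A).comp (algebraMap R R')).toAlgebra
  have : IsScalarTower R R' A := IsScalarTower.of_algebraMap_eq fun _ => rfl
  let : Module R M := Module.compHom M (algebraMap R R')
  have : IsScalarTower R R' M := IsScalarTower.of_algebraMap_smul fun _ _ => rfl
  have : Module.Free R R' := Module.Free.of_basis b
  have : Module.Flat R A := Module.Flat.trans R R' A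
  have h1 : PL A (A ⊗[R'] (R' ⊗[R] M)) (n + 1) :=
    (h A M).of_equiv (AlgebraTensorModule.cancelBaseChange R R' A A M)
  refine PL.right ((del (R := R) x M).baseChange A) ((mul R R' M).baseChange A) ?_ ?_ ?_ h1
    (h1.mono (by omega))
  · exact Module.Flat.lTensor_preserves_injective_linearMap _ (del_inj x M b hb)
  · exact LinearMap.lTensor_surjective A (mul_surj M)
  · exact lTensor_exact A (del_exact x M b hb) (mul_surj M)

end Step

lemma phi_mv (K : Type) [Field K] (n : ℕ) : Phi (MvPolynomial (Fin n) K) n := by
  induction n with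
  | zero => exact phi_field ((MvPolynomial.isEmptyRingEquiv K (Fin 0)).toMulEquiv.isField
      (Field.toIsField K))
  | succ n ih =>
    let e := (MvPolynomial.finSuccEquiv K n).symm
    let : Algebra (MvPolynomial (Fin n) K) (MvPolynomial (Fin (n + 1)) K) :=
      (e.toRingEquiv.toRingHom.comp Polynomial.C).toAlgebra
    let e' : Polynomial (MvPolynomial (Fin n) K) ≃ₐ[MvPolynomial (Fin n) K]
        MvPolynomial (Fin (n + 1)) K := { e.toRingEquiv with commutes' := fun _ => rfl }
    refine phi_step (e' Polynomial.X) ((Polynomial.basisMonomials _).map e'.toLinearEquiv) ?_ ih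
    intro k
    simp [Polynomial.monomial_one_right_eq_X_pow]

/-- Modules over an etale algebra over affine space of dimension `n` have projective dimension at
most `n`. -/
theorem pl_etale (K : Type) [Field K] (n : ℕ) (A : Type) [CommRing A]
    [Algebra (MvPolynomial (Fin n) K) A] [Algebra.Etale (MvPolynomial (Fin n) K) A]
    (M : Type) [AddCommGroup M] [Module A M] : PL A M (n + 1) := by
  let : Module (MvPolynomial (Fin n) K) M := Module.compHom M (algebraMap _ A)
  have : IsScalarTower (MvPolynomial (Fin n) K) A M :=
    IsScalarTower.of_algebraMap_smul fun _ _ => rfl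
  exact (phi_mv K n A M).retract _ _
    (Algebra.FormallyUnramified.comp_sec (MvPolynomial (Fin n) K) A M)

section Syz

variable {A : Type} [CommRing A] {F : ℕ → Type} [∀ i, AddCommGroup (F i)] [∀ i, Module A (F i)]

/-- The cokernels in an exact sequence of projective modules. -/
theorem syz [∀ i, Module.Projective A (F i)] (d : ∀ i, F (i + 1) →ₗ[A] F i)
    (hd : ∀ i, Exact (d (i + 1)) (d i)) (n k : ℕ)
    (h : PL A (F k ⧸ LinearMap.range (d k)) (n + 1)) :
    Module.Projective A (F (k + n) ⧸ LinearMap.range (d (k + n))) := by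
  induction n generalizing k with
  | zero => exact pl_one_iff.1 h
  | succ n ih =>
    have h1 : PL A (F (k + 1) ⧸ LinearMap.range (d (k + 1))) (n + 1) := by
      refine PL.left ((LinearMap.range (d (k + 1))).liftQ (d k) (hd k).linearMap_ker_eq.ge)
        (LinearMap.range (d k)).mkQ ?_ (Submodule.mkQ_surjective _) ?_
        ((pl_one_iff.2 inferInstance).mono (by omega)) h
      · rw [← LinearMap.ker_eq_bot]
        exact Submodule.ker_liftQ_eq_bot _ _ _ (hd k).linearMap_ker_eq.le
      · rw [LinearMap.exact_iff, Submodule.ker_mkQ, Submodule.range_liftQ]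
    have := ih (k + 1) h1
    rwa [show k + 1 + n = k + (n + 1) by omega] at this

/-- A map with projective cokernel to a module, from a surjection onto its image that splits. -/
theorem exists_quasi_inverse {M N : Type} [AddCommGroup M] [Module A M] [AddCommGroup N]
    [Module A N] [Module.Projective A N] (d : M →ₗ[A] N)
    [Module.Projective A (N ⧸ LinearMap.range d)] : ∃ ε : N →ₗ[A] M, d ∘ₗ ε ∘ₗ d = d := by
  obtain ⟨s, hs⟩ := Module.projective_lifting_property (LinearMap.range d).mkQ LinearMap.id
    (Submodule.mkQ_surjective _)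
  have h1 : ∀ v, (LinearMap.id - s ∘ₗ (LinearMap.range d).mkQ : N →ₗ[A] N) v ∈ LinearMap.range d := by
    intro v
    have := LinearMap.congr_fun hs ((LinearMap.range d).mkQ v)
    refine (Submodule.Quotient.mk_eq_zero _).1 ?_
    change (LinearMap.range d).mkQ _ = 0
    simp only [LinearMap.sub_apply, LinearMap.id_apply, map_sub, LinearMap.comp_apply] at this ⊢
    rw [this, sub_self]
  obtain ⟨ε, hε⟩ := Module.projective_lifting_property d.rangeRestrict
    (LinearMap.codRestrict _ _ h1) d.surjective_rangeRestrict
  refine ⟨ε, ?_⟩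
  ext v
  have h2 := congrArg Subtype.val (LinearMap.congr_fun hε (d v))
  have h3 : (LinearMap.range d).mkQ (d v) = 0 := by
    rw [← LinearMap.mem_ker, Submodule.ker_mkQ]; exact ⟨v, rfl⟩
  simpa [h3] using h2

end Syz

end Pool.Agent.Lib.MP_557161_ag.DL.PD
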