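import Pool.Agent.Lib.MP_557161_ag.DL.PD2

/-!
Tensor products: localisations of quotients, etale charts, domains, transcendence degree.
-/

namespace Pool.Agent.Lib.MP_557161_ag.DL.PD

open MvPolynomial TensorProduct
open Pool.Agent.Lib.MP_60ec62_ag.DL

section Etale

variable {R : Type} (S A : Type) {B C D : Type} [CommRing R] [CommRing S] [Algebra R S] [CommRing A]
  [Algebra R A] [Algebra S A] [IsScalarTower R S A] [CommRing B] [Algebra R B] [CommRing C]
  [Algebra R C] [CommRing D] [Algebra R D]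

attribute [local instance] Algebra.TensorProduct.rightAlgebra in
lemma etale_lTensor {f : B →ₐ[R] D} (hf : f.toRingHom.Etale) :
    (Algebra.TensorProduct.lTensor (S := S) A f).toRingHom.Etale := by
  algebraize [f.toRingHom, (Algebra.TensorProduct.lTensor (S := A) A f).toRingHom]
  let e : A ⊗[R] D ≃ₐ[A ⊗[R] B] (A ⊗[R] B) ⊗[B] D :=
    { __ := (Algebra.IsPushout.cancelBaseChangeAlg _ _ _ _ _).symm,
      commutes' x := congr($(Algebra.IsPushout.cancelBaseChange_symm_comp_lTensor R B D A) x) }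
  exact Algebra.Etale.of_equiv e.symm

variable {A} in
lemma etale_map {f : A →ₐ[R] C} {g : B →ₐ[R] D} (hf : f.toRingHom.Etale) (hg : g.toRingHom.Etale) :
    (Algebra.TensorProduct.map f g).toRingHom.Etale := by
  have heq : Algebra.TensorProduct.map f g =
      ((Algebra.TensorProduct.comm R D C).toAlgHom.comp
        ((Algebra.TensorProduct.lTensor (S := R) D f).comp
          (Algebra.TensorProduct.comm R A D).toAlgHom)).comp
        (Algebra.TensorProduct.lTensor (S := R) A g) := by
    ext <;> simp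
  rw [heq]
  refine RingHom.Etale.stableUnderComposition _ _ (etale_lTensor R A hg)
    (RingHom.Etale.stableUnderComposition _ _ (RingHom.Etale.stableUnderComposition _ _
      (.of_bijective (Algebra.TensorProduct.comm R A D).bijective) (etale_lTensor R D hf))
      (.of_bijective (Algebra.TensorProduct.comm R D C).bijective))

end Etale

variable {K A B : Type} [Field K] [CommRing A] [Algebra K A] [CommRing B] [Algebra K B]

lemma EtCh.tensor {ι κ : Type} (h : EtCh K A ι) (h' : EtCh K B κ) : EtCh K (A ⊗[K] B) (ι ⊕ κ) :=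
  let ⟨t, ht⟩ := h
  let ⟨t', ht'⟩ := h'
  ⟨(Algebra.TensorProduct.map t t').comp (tensorEquivSum K ι κ K).symm.toAlgHom,
    RingHom.Etale.stableUnderComposition _ _
      (.of_bijective (tensorEquivSum K ι κ K).symm.bijective) (etale_map ht ht')⟩

lemma EtCh.baseChange {ι : Type} (h : EtCh K A ι) (L : Type) [Field L] [Algebra K L] :
    EtCh L (L ⊗[K] A) ι :=
  let ⟨t, ht⟩ := h
  ⟨(Algebra.TensorProduct.lTensor (S := L) L t).comp (algebraTensorAlgEquiv K L).symm.toAlgHom,
    RingHom.Etale.stableUnderComposition _ _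
      (.of_bijective (algebraTensorAlgEquiv K L).symm.bijective) (etale_lTensor L L ht)⟩

lemma isLoc_mk {S : Type} [CommRing S] [Algebra K S] (I : Ideal S) :
    IsLoc I 1 (Ideal.Quotient.mkₐ K I) where
  unit := by simp
  surj a := by
    obtain ⟨s, rfl⟩ := Ideal.Quotient.mk_surjective a
    exact ⟨0, s, by simp⟩
  ker s := by simp [Ideal.Quotient.eq_zero_iff_mem]

section Prod

variable {σ σ' : Type} (φ : MvPolynomial σ K →ₐ[K] A) (ψ : MvPolynomial σ' K →ₐ[K] B)

/-- The map from the polynomial ring in both sets of variables to the tensor product. -/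
noncomputable def tens : MvPolynomial (σ ⊕ σ') K →ₐ[K] A ⊗[K] B :=
  aeval (Sum.elim (fun s => φ (X s) ⊗ₜ 1) fun t => 1 ⊗ₜ ψ (X t))

lemma tens_inl (f : MvPolynomial σ K) : tens φ ψ (rename Sum.inl f) = φ f ⊗ₜ 1 :=
  DFunLike.congr_fun (show (tens φ ψ).comp (rename Sum.inl) =
    (Algebra.TensorProduct.includeLeft : A →ₐ[K] A ⊗[K] B).comp φ from
      algHom_ext fun s => by simp [tens]) f

lemma tens_inr (f : MvPolynomial σ' K) : tens φ ψ (rename Sum.inr f) = 1 ⊗ₜ ψ f :=
  DFunLike.congr_fun (show (tens φ ψ).comp (rename Sum.inr) =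
    (Algebra.TensorProduct.includeRight : B →ₐ[K] A ⊗[K] B).comp ψ from
      algHom_ext fun s => by simp [tens]) f

lemma tens_mul (f : MvPolynomial σ K) (f' : MvPolynomial σ' K) :
    tens φ ψ (rename Sum.inl f * rename Sum.inr f') = φ f ⊗ₜ ψ f' := by
  rw [map_mul, tens_inl, tens_inr, Algebra.TensorProduct.tmul_mul_tmul, one_mul, mul_one]

variable {φ ψ} {a : Ideal (MvPolynomial σ K)} {b : Ideal (MvPolynomial σ' K)}
  {g : MvPolynomial σ K} {g' : MvPolynomial σ' K}

lemma IsLoc.tensor (h : IsLoc a g φ) (h' : IsLoc b g' ψ) :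
    IsLoc (a.map (rename Sum.inl) ⊔ b.map (rename Sum.inr))
      (rename Sum.inl g * rename Sum.inr g') (tens φ ψ) := by
  set I : Ideal (MvPolynomial (σ ⊕ σ') K) := a.map (rename Sum.inl) ⊔ b.map (rename Sum.inr)
  have hc := isLoc_can (K := K) I (rename Sum.inl g * rename Sum.inr g')
  have hu := IsUnit.mul_iff.1 ((map_mul (can K I _) _ _) ▸ hc.unit)
  obtain ⟨θ, hθ⟩ := h.lift ((can K I _).comp (rename Sum.inl))
    (fun s hs => hc.zero (Ideal.mem_sup_left (Ideal.mem_map_of_mem _ hs))) hu.1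
  obtain ⟨θ', hθ'⟩ := h'.lift ((can K I _).comp (rename Sum.inr))
    (fun s hs => hc.zero (Ideal.mem_sup_right (Ideal.mem_map_of_mem _ hs))) hu.2
  refine hc.of_retract ?_ (fun z => ?_) ?_
    (Algebra.TensorProduct.lift θ θ' fun _ _ => Commute.all _ _).toRingHom ?_
  · rw [map_mul, tens_inl, tens_inr]
    exact (h.unit.map (Algebra.TensorProduct.includeLeft : A →ₐ[K] A ⊗[K] B)).mul
      (h'.unit.map (Algebra.TensorProduct.includeRight : B →ₐ[K] A ⊗[K] B))
  · induction z with
    | zero => exact ⟨0, 0, by simp⟩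
    | tmul x y =>
      obtain ⟨n, s, hs⟩ := h.surj x
      obtain ⟨m, t, ht⟩ := h'.surj y
      refine ⟨n + m, rename Sum.inl (s * g ^ m) * rename Sum.inr (t * g' ^ n), ?_⟩
      rw [tens_mul, tens_mul, Algebra.TensorProduct.tmul_pow, Algebra.TensorProduct.tmul_mul_tmul,
        map_mul, map_mul, map_pow, map_pow, ← hs, ← ht]
      congr 1 <;> ring
    | add x y hx hy =>
      obtain ⟨n, s, hs⟩ := hx
      obtain ⟨m, t, ht⟩ := hy
      refine ⟨n + m, s * (rename Sum.inl g * rename Sum.inr g') ^ m +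
        t * (rename Sum.inl g * rename Sum.inr g') ^ n, ?_⟩
      rw [map_add, map_mul _ s, map_mul _ t, map_pow, map_pow, ← hs, ← ht]
      ring
  · change I ≤ RingHom.ker (tens φ ψ)
    refine sup_le (Ideal.map_le_iff_le_comap.2 fun s hs => ?_)
      (Ideal.map_le_iff_le_comap.2 fun s hs => ?_)
    · rw [Ideal.mem_comap, RingHom.mem_ker, tens_inl, h.zero hs, zero_tmul]
    · rw [Ideal.mem_comap, RingHom.mem_ker, tens_inr, h'.zero hs, tmul_zero]
  · intro s
    exact DFunLike.congr_fun (show (Algebra.TensorProduct.lift θ θ' fun _ _ =>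
      Commute.all _ _).comp (tens φ ψ) = can K I _ from algHom_ext fun x => by
        cases x <;> simp [tens, hθ, hθ']) s

end Prod

section Dom

lemma exists_point [IsAlgClosed K] [IsDomain A] [Algebra.FiniteType K A] {a : A} (ha : a ≠ 0) :
    ∃ x : A →ₐ[K] K, x a ≠ 0 := by
  have : IsJacobsonRing A := isJacobsonRing_of_finiteType (A := K)
  have h1 : a ∉ (⊥ : Ideal A).jacobson := by
    rw [IsJacobsonRing.out this Ideal.isPrime_bot.isRadical]
    exact ha
  rw [Ideal.jacobson, Ideal.mem_sInf] at h1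
  push Not at h1
  obtain ⟨m, ⟨-, hm⟩, ham⟩ := h1
  let := Ideal.Quotient.field m
  have : Module.Finite K (A ⧸ m) := finite_of_finite_type_of_isJacobsonRing K (A ⧸ m)
  let e : K ≃ₐ[K] (A ⧸ m) :=
    AlgEquiv.ofBijective (Algebra.ofId K _) IsAlgClosed.algebraMap_bijective_of_isIntegral
  refine ⟨e.symm.toAlgHom.comp (Ideal.Quotient.mkₐ K m), fun h => ham ?_⟩
  exact Ideal.Quotient.eq_zero_iff_mem.1 ((map_eq_zero_iff _ e.symm.injective).1 h)

variable (B) in
/-- Evaluation of the first factor at a point. -/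
noncomputable def ev (x : A →ₐ[K] K) : A ⊗[K] B →ₐ[K] B :=
  Algebra.TensorProduct.lift ((Algebra.ofId K B).comp x) (AlgHom.id K B) fun _ _ => Commute.all _ _

lemma exists_ev {z : A ⊗[K] B} (hz : z ≠ 0) :
    ∃ a : A, a ≠ 0 ∧ ∀ x : A →ₐ[K] K, x a ≠ 0 → ev B x z ≠ 0 := by
  classical
  let b := Module.Basis.ofVectorSpace K B
  let e := TensorProduct.equivFinsuppOfBasisRight (M := A) b
  have h1 : ∀ (x : A →ₐ[K] K) (z : A ⊗[K] B) i, b.repr (ev B x z) i = x (e z i) := by
    intro x z i
    induction z with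
    | zero => simp
    | tmul u v =>
      simp only [e, equivFinsuppOfBasisRight_apply_tmul_apply, ev,
        Algebra.TensorProduct.lift_tmul, AlgHom.comp_apply, Algebra.ofId_apply, AlgHom.id_apply,
        ← Algebra.smul_def, map_smul, Finsupp.smul_apply, smul_eq_mul]
      exact mul_comm _ _
    | add u v hu hv => simp only [map_add, Finsupp.add_apply, hu, hv]
  obtain ⟨i, hi⟩ : ∃ i, e z i ≠ 0 := by
    by_contra h
    push Not at h
    exact hz (e.injective (by rw [map_zero]; exact Finsupp.ext h))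
  refine ⟨e z i, hi, fun x hx h => hx ?_⟩
  rw [← h1, h, map_zero, Finsupp.zero_apply]

theorem tensor_isDomain [IsAlgClosed K] [IsDomain A] [Algebra.FiniteType K A] [IsDomain B] :
    IsDomain (A ⊗[K] B) := by
  obtain ⟨x, -⟩ := exists_point (K := K) (one_ne_zero (α := A))
  have : Nontrivial (A ⊗[K] B) := (ev B x).toRingHom.domain_nontrivial
  have : NoZeroDivisors (A ⊗[K] B) := ⟨fun {z w} h => by
    by_contra hne
    push Not at hne
    obtain ⟨a, ha, hz⟩ := exists_ev hne.1
    obtain ⟨c, hc, hw⟩ := exists_ev hne.2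
    obtain ⟨y, hy⟩ := exists_point (K := K) (mul_ne_zero ha hc)
    rw [map_mul, mul_ne_zero_iff] at hy
    exact mul_ne_zero (hz y hy.1) (hw y hy.2) (by rw [← map_mul, h, map_zero])⟩
  exact NoZeroDivisors.to_isDomain _

lemma trdeg_of_finite [IsDomain A] {ι : Type} [Finite ι] (g : MvPolynomial ι K →ₐ[K] A)
    (hg : Function.Injective g) (hf : g.toRingHom.Finite) : Algebra.trdeg K A = Nat.card ι := by
  let := g.toRingHom.toAlgebra
  have := Fintype.ofFinite ι
  rw [← Dim.trdeg_eq_of_alg g hg fun b => IsIntegral.isAlgebraic (hf.to_isIntegral b)]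
  simp

theorem trdeg_tensor [IsDomain A] [Algebra.FiniteType K A] [IsDomain B] [Algebra.FiniteType K B]
    [IsDomain (A ⊗[K] B)] :
    (Algebra.trdeg K (A ⊗[K] B)).toNat = (Algebra.trdeg K A).toNat + (Algebra.trdeg K B).toNat := by
  obtain ⟨s, g, hg, hf⟩ := exists_finite_inj_algHom_of_fg K A
  obtain ⟨t, g', hg', hf'⟩ := exists_finite_inj_algHom_of_fg K B
  have h1 : Function.Injective (Algebra.TensorProduct.map g g') :=
    TensorProduct.map_injective_of_flat_flat g.toLinearMap g'.toLinearMap hg hg'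
  rw [trdeg_of_finite g hg hf, trdeg_of_finite g' hg' hf',
    trdeg_of_finite ((Algebra.TensorProduct.map g g').comp
      (tensorEquivSum K (Fin s) (Fin t) K).symm.toAlgHom)
      (h1.comp (tensorEquivSum K (Fin s) (Fin t) K).symm.injective)
      ((RingHom.Finite.tensorProductMap hf hf').comp
        (tensorEquivSum K (Fin s) (Fin t) K).symm.toRingEquiv.finite)]
  simp

end Dom

end Pool.Agent.Lib.MP_557161_ag.DL.PD
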