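import Pool.Agent.Lib.MP_557161_ag.DL.LP

/-!
The varieties of lines that are orthogonal to their first Frobenius images.
-/

namespace Pool.Agent.Lib.MP_557161_ag.DL

open Module Submodule Matrix

namespace PS

section Lin

variable {L L' : Type} [Field L] [Field L'] {ι : Type} [Fintype ι]

lemma asp_span (φ : L →+* L) (x : ι → L) (m : ℕ) :
    Asp φ (span L {x}) m = span L {y | ∃ i < m, (mapV φ)^[i] x = y} := by
  induction m with
  | zero => simp [Asp]
  | succ m ih =>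
    rw [Asp, ih, smap_span, ← span_union]
    congr 1
    ext y
    constructor
    · rintro (rfl | ⟨_, ⟨i, hi, rfl⟩, rfl⟩)
      · exact ⟨0, m.succ_pos, rfl⟩
      · exact ⟨i + 1, by omega, Function.iterate_succ_apply' _ _ _⟩
    · rintro ⟨i, hi, rfl⟩
      cases i with
      | zero => exact Or.inl rfl
      | succ i => exact Or.inr ⟨_, ⟨i, by omega, rfl⟩, (Function.iterate_succ_apply' _ _ _).symm⟩

omit [Fintype ι] in
lemma iter_add (φ : L →+* L) (i : ℕ) (x y : ι → L) :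
    (mapV φ)^[i] (x + y) = (mapV φ)^[i] x + (mapV φ)^[i] y := by
  induction i with
  | zero => rfl
  | succ i ih => simp only [Function.iterate_succ_apply', ih, mapV_add]

omit [Fintype ι] in
lemma iter_sub (φ : L →+* L) (i : ℕ) (x y : ι → L) :
    (mapV φ)^[i] (x - y) = (mapV φ)^[i] x - (mapV φ)^[i] y := by
  induction i with
  | zero => rfl
  | succ i ih => simp only [Function.iterate_succ_apply', ih, mapV_sub]

omit [Fintype ι] in
lemma iter_mem {φ : L →+* L} {E : Submodule L (ι → L)} (h : smap φ E = E) {x : ι → L} (hx : x ∈ E)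
    (i : ℕ) : (mapV φ)^[i] x ∈ E := by
  induction i with
  | zero => exact hx
  | succ i ih => rw [Function.iterate_succ_apply', ← h]; exact mapV_mem φ ih

/-- The differences of the iterates are isotropic iff the first difference is orthogonal to its
images. -/
lemma diff_iff [NeZero (2 : L)] {g : Matrix ι ι L} (hg : gᵀ = g) {φ : L →+* L} (hφ : g.map φ = g)
    (y : ι → L) (m : ℕ) :
    (∀ i < m + 1, bf g ((mapV φ)^[i] y - y) ((mapV φ)^[i] y - y) = 0) ↔
      ∀ i < m, bf g (mapV φ y - y) ((mapV φ)^[i] (mapV φ y - y)) = 0 := by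
  set c : ℕ → L := fun i => bf g ((mapV φ)^[i] y - y) ((mapV φ)^[i] y - y) with hc
  have h1 : ∀ i, φ (c i) = bf g ((mapV φ)^[i + 1] y - mapV φ y) ((mapV φ)^[i + 1] y - mapV φ y) :=
    fun i => by rw [hc, ← bf_mapV, hφ, mapV_sub, Function.iterate_succ_apply']
  have h2 : ∀ d, 2 * bf g (mapV φ y - y) ((mapV φ)^[d + 1] (mapV φ y - y)) =
      c (d + 2) + φ (c d) - φ (c (d + 1)) - c (d + 1) := fun d => by
    rw [h1, h1, iter_sub, ← Function.iterate_succ_apply]
    simp only [hc, bf_sub_left, bf_sub_right]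
    rw [bf_symm hg ((mapV φ)^[d + 2] y) y, bf_symm hg ((mapV φ)^[d + 1] y) (mapV φ y),
      bf_symm hg ((mapV φ)^[d + 1 + 1] y) (mapV φ y), bf_symm hg ((mapV φ)^[d + 1] y) y]
    ring
  constructor
  · intro h i hi
    cases i with
    | zero => exact h 1 (by omega)
    | succ d =>
      have e := h2 d
      rw [show c (d + 2) = 0 from h _ (by omega), show c (d + 1) = 0 from h _ (by omega),
        show c d = 0 from h _ (by omega), map_zero] at e
      exact (mul_eq_zero.1 (e.trans (by ring))).resolve_left (NeZero.ne 2)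
  · intro h i
    induction i using Nat.strong_induction_on with
    | _ i ih =>
      intro hi
      match i, ih, hi with
      | 0, _, _ => simp
      | 1, _, hi => exact h 0 (by omega)
      | d + 2, ih, hi =>
        have e := h2 d
        rw [h _ (by omega), show c (d + 1) = 0 from ih _ (by omega) (by omega),
          show c d = 0 from ih _ (by omega) (by omega), map_zero] at e
        exact Eq.trans (by ring) (e.symm.trans (mul_zero 2))

lemma line_eq {D E : Submodule L (ι → L)} (h : D ≤ E) (hD : finrank L D = 1)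
    (hE : finrank L E = 1) : D = E := eq_of_le_of_finrank_eq h (hD.trans hE.symm)

/-- The Chevalley-Warning bound for anisotropic subspaces. -/
lemma aniso [Fintype L] (g : Matrix ι ι L) {r : ℕ} {b : Fin r → ι → L} (hb : LinearIndependent L b)
    (h : ∀ u ∈ span L (Set.range b), bf g u u = 0 → u = 0) : r ≤ 2 := by
  classical
  by_contra hr
  obtain ⟨p, hp⟩ := CharP.exists L
  have hp' : p.Prime := (CharP.char_is_prime L p)
  set f : MvPolynomial (Fin r) L :=
    ∑ i, ∑ j, MvPolynomial.C (bf g (b i) (b j)) * (MvPolynomial.X i * MvPolynomial.X j) with hf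
  have h1 : f.totalDegree < Fintype.card (Fin r) := by
    rw [Fintype.card_fin]
    refine lt_of_le_of_lt (b := 2) ?_ (by omega)
    refine MvPolynomial.totalDegree_finsetSum_le fun i _ =>
      MvPolynomial.totalDegree_finsetSum_le fun j _ => ?_
    refine (MvPolynomial.totalDegree_mul _ _).trans ?_
    rw [MvPolynomial.totalDegree_C, zero_add]
    refine (MvPolynomial.totalDegree_mul _ _).trans ?_
    rw [MvPolynomial.totalDegree_X, MvPolynomial.totalDegree_X]
  have h2 := char_dvd_card_solutions p h1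
  have h3 : ∀ x : Fin r → L, MvPolynomial.eval x f = bf g (∑ i, x i • b i) (∑ i, x i • b i) :=
    fun x => by
      simp only [hf, map_sum, map_mul, MvPolynomial.eval_C, MvPolynomial.eval_X, bf, sum_dotProduct,
        mulVec_sum, dotProduct_sum, smul_dotProduct, mulVec_smul, dotProduct_smul, smul_eq_mul,
        Finset.mul_sum]
      exact Finset.sum_comm.trans (Finset.sum_congr rfl fun i _ => Finset.sum_congr rfl
        fun j _ => by ring)
  have h4 : Fintype.card {x : Fin r → L // MvPolynomial.eval x f = 0} = 1 := by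
    rw [Fintype.card_eq_one_iff]
    refine ⟨⟨0, by rw [h3]; simp⟩, fun x => Subtype.ext (funext ?_)⟩
    exact Fintype.linearIndependent_iff.1 hb x.1 (h _ (sum_mem fun i _ =>
      smul_mem _ _ (subset_span ⟨i, rfl⟩)) ((h3 _).symm.trans x.2))
  rw [h4] at h2
  exact hp'.one_lt.ne' (Nat.dvd_one.1 h2)

end Lin

end PS

variable {k₀ : Type} [Field k₀] [Fintype k₀] {K : Type} [Field K] [Algebra k₀ K] [Base K]
  {ι : Type} [Fintype ι]

set_option linter.unusedSectionVars false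

lemma mem_ps_span {G : Matrix ι ι k₀} {U : Submodule k₀ (ι → k₀)} {m : ℕ} {L : Fld K} {x : ι → L}
    (hx : x ≠ 0) : (PS K G U m).mem (L := L) (span L {x}) ↔
      x ∈ ext L U ∧ ∀ i < m, bf (gm G L) x ((mapV (frH k₀ L))^[i] x) = 0 := by
  show finrank L (span L {x}) = 1 ∧ span L {x} ≤ ext L U ∧
    Asp (frH k₀ L) (span L {x}) m ≤ perp (gm G L) (span L {x}) ↔ _
  rw [and_iff_right (finrank_span_singleton hx), span_singleton_le_iff_mem, PS.asp_span, span_le]
  exact and_congr Iff.rfl ⟨fun h i hi => mem_perp_span.1 (h ⟨i, hi, rfl⟩),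
    fun h _ ⟨i, hi, e⟩ => mem_perp_span.2 (e ▸ h i hi)⟩

lemma ps_red {G : Matrix ι ι k₀} {U : Submodule k₀ (ι → k₀)} {m : ℕ} {M : Fld K} (O : Pl M)
    {ℓ : Submodule M (ι → M)} (h : (PS K G U m).mem (L := M) ℓ) :
    (PS K G U m).mem (L := O.res) (sred O ℓ) :=
  ⟨(finrank_sred O ℓ).trans h.1, (sred_mono O h.2.1).trans (sred_ext O U).le,
    (asp_le_sred O ℓ m).trans ((sred_mono O h.2.2).trans ((gm_red G O).perp_le ℓ))⟩

namespace PS

variable {G : Matrix ι ι k₀} {U U' S : Submodule k₀ (ι → k₀)} {m : ℕ}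

lemma inS_closed (S : Submodule k₀ (ι → k₀)) (Y : Sp (Sub K ι)) : (inS K S).Closed Y :=
  fun O _ _ _ h _ => (sred_mono O h).trans (sred_ext O S).le

lemma inter_inS (h : U' ≤ U) (hc : CK (PS K G U' m)) : CK ((PS K G U m).inter (inS K U')) :=
  hc.congr fun L _ => ⟨fun a => ⟨⟨a.1, a.2.1.trans (smap_mono _ h), a.2.2⟩, a.2.1⟩,
    fun a => ⟨a.1.1, a.2, a.1.2.2⟩⟩

/-- A rational subspace as a constant map. -/
noncomputable def cst {A : Amb K} (Y : Sp A) (S : Submodule k₀ (ι → k₀)) :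
    Mor Y (Sp.univ (Sub K ι)) where
  f {L} _ := ext L S
  mem _ _ := trivial
  nat κ _ _ := (smap_ext κ S).symm
  cont O _ _ _ _ := (sred_ext O S).symm

lemma rank_sup (hS : finrank k₀ S = 1) (hd : U' ⊓ S = ⊥) {L : Fld K} {ℓ : Submodule L (ι → L)}
    (h : (PS K G U' m).mem (L := L) ℓ) : finrank L ↥(ext L S ⊔ ℓ) = 2 := by
  rw [finrank_sup_line h.1, ext, finrank_smap, hS]
  intro h'
  have h1 : ℓ ≤ ⊥ := by
    rw [← smap_bot (rat k₀ L), ← hd, smap_inf]
    exact le_inf h.2.1 h'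
  have h2 := h.1
  rw [le_bot_iff.1 h1, finrank_bot] at h2
  exact zero_ne_one h2

lemma sred_join (hS : finrank k₀ S = 1) (hd : U' ⊓ S = ⊥) {M : Fld K} (O : Pl M)
    {ℓ : Submodule M (ι → M)} (h : (PS K G U' m).mem (L := M) ℓ) :
    sred O (ext M S ⊔ ℓ) = ext O.res S ⊔ sred O ℓ := by
  rw [sred_sup, sred_ext]
  rw [sred_ext, rank_sup hS hd h, rank_sup hS hd (ps_red O h)]

/-- The plane spanned by a line and a fixed rational line. -/
noncomputable def join (G : Matrix ι ι k₀) (m : ℕ) (hS : finrank k₀ S = 1) (hd : U' ⊓ S = ⊥) :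
    Mor (PS K G U' m) (Sp.univ (Sub K ι)) where
  f {L} ℓ := (ext L S ⊔ (show Submodule L (ι → L) from ℓ) : Submodule L (ι → L))
  mem _ _ := trivial
  nat κ ℓ _ := ((smap_sup κ.toRingHom _ ℓ).trans (by rw [smap_ext]; rfl)).symm
  cont O _ _ h _ := (sred_join hS hd O h).symm

lemma cone_iff (hU : U' ≤ U) (hS : S ≤ U) (h : m = 0 ∨ U ≤ perp G S ∧ S ≤ perp G U) {L : Fld K}
    {s y : ι → L} (hs : s ∈ ext L S) (hy : y ∈ ext L U') (h0 : y ≠ 0) (h1 : s + y ≠ 0) :
    (PS K G U m).mem (L := L) (span L {s + y}) ↔ (PS K G U' m).mem (L := L) (span L {y}) := by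
  have hy' : y ∈ ext L U := smap_mono _ hU hy
  have hx : s + y ∈ ext L U := add_mem (smap_mono _ hS hs) hy'
  rw [mem_ps_span h0, mem_ps_span h1, and_iff_right hx, and_iff_right hy]
  rcases h with rfl | ⟨h2, h3⟩
  · simp
  · refine forall₂_congr fun i _ => ?_
    have a2 := smap_mono (rat k₀ L) h2
    have a3 := smap_mono (rat k₀ L) h3
    rw [smap_perp] at a2 a3
    have b2 : bf (gm G L) s ((mapV (frH k₀ L))^[i] (s + y)) = 0 :=
      a2 (iter_mem (frH_ext U) hx i) s hs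
    have b3 : bf (gm G L) y ((mapV (frH k₀ L))^[i] s) = 0 :=
      a3 (iter_mem (frH_ext S) hs i) y hy'
    rw [bf_add_left, b2, zero_add, iter_add, bf_add_right, b3, zero_add]

/-- Cones with a rational vertex. -/
lemma cone (hS : finrank k₀ S = 1) (hd : U' ⊓ S = ⊥) (hU : S ⊔ U' = U)
    (h : m = 0 ∨ U ≤ perp G S ∧ S ≤ perp G U) (hc : CK (PS K G U' m)) : CK (PS K G U m) := by
  have hU' : U' ≤ U := hU ▸ le_sup_right
  have hS' : S ≤ U := hU ▸ le_sup_left
  have hr : ∀ L : Fld K, finrank L (ext L S) = 1 := fun L => (finrank_smap _ _).trans hS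
  refine CK.of_closed (inS_closed S _) (CK.of_const fun L _ ℓ hℓ =>
    ⟨ext (Fld.base K) S, (smap_ext _ S).trans (line_eq hℓ.2 hℓ.1.1 (hr L)).symm⟩) ?_
  have hb : ∀ L : Fld K, finrank L (ext L (⊥ : Submodule k₀ (ι → k₀))) = 0 := fun L =>
    (finrank_smap _ _).trans (finrank_bot _ _)
  have hp := ck_pen (cst (PS K G U' m) ⊥) (cst _ S) (join G m hS hd) (fun L ℓ hℓ =>
    ⟨smap_mono _ bot_le, le_sup_left, (hr L).trans (congrArg (· + 1) (hb L)).symm,
      (rank_sup hS hd hℓ).trans (congrArg (· + 2) (hb L)).symm⟩) hc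
  have hm : ∀ (L : Fld K) (ℓ D : Submodule L (ι → L)),
      (Pen (cst (PS K G U' m) ⊥) (cst _ S) (join G m hS hd)).mem (L := L) (ℓ, D) ↔
        (PS K G U' m).mem (L := L) ℓ ∧ D ≤ ext L S ⊔ ℓ ∧ finrank L D = 1 ∧ ¬ D ≤ ext L S :=
    fun L ℓ D => ⟨fun ⟨a, _, b, c, d⟩ =>
      have c' : finrank L D = 1 := c.trans (congrArg (· + 1) (hb L))
      ⟨a, b, c', fun e => d (line_eq e c' (hr L))⟩,
      fun ⟨a, b, c, d⟩ => ⟨a, (smap_bot _).le.trans bot_le, b,
        c.trans (congrArg (· + 1) (hb L)).symm, fun e => d e.le⟩⟩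
  refine CK.image (W := Pen (cst (PS K G U' m) ⊥) (cst _ S) (join G m hS hd)) ⟨fun y => y.2,
    fun {L} y hy => ?_, fun _ _ _ => rfl, fun _ _ _ _ _ => rfl⟩
    (fun {M} O y _ hy hz => ?_) (fun L _ D hD => ?_) hp
  · obtain ⟨ℓ, D⟩ := y
    obtain ⟨h1, h2, h3, h4⟩ := (hm L ℓ D).1 hy
    obtain ⟨x, hx, rfl⟩ := exists_gen_line h3
    obtain ⟨s, hs, y, hy', rfl⟩ := mem_sup.1 ((span_singleton_le_iff_mem _ _).1 h2)
    have h0 : y ≠ 0 := by
      rintro rfl
      exact h4 ((span_singleton_le_iff_mem _ _).2 (by rwa [add_zero]))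
    obtain rfl := line_eq ((span_singleton_le_iff_mem _ _).2 hy') (finrank_span_singleton h0) h1.1
    exact ⟨(cone_iff hU' hS' h hs (h1.2.1 hy') h0 hx).2 h1, h4⟩
  · obtain ⟨ℓ, D⟩ := y
    obtain ⟨h1, h2, h3, -⟩ := (hm M ℓ D).1 hy
    exact (hm O.res (sred O ℓ) (sred O D)).2 ⟨ps_red O h1,
      (sred_mono O h2).trans (sred_join hS hd O h1).le, hz.1.1, hz.2⟩
  · obtain ⟨x, hx, rfl⟩ := exists_gen_line hD.1.1
    have h2 : x ∈ ext L U := (span_singleton_le_iff_mem _ _).1 hD.1.2.1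
    rw [← hU, ext, smap_sup] at h2
    obtain ⟨s, hs, y, hy', rfl⟩ := mem_sup.1 h2
    have h0 : y ≠ 0 := by
      rintro rfl
      exact hD.2 ((span_singleton_le_iff_mem _ _).2 (by rwa [add_zero]))
    exact ⟨(span L {y}, span L {s + y}), (hm L _ _).2 ⟨(cone_iff hU' hS' h hs hy' h0 hx).1 hD.1,
      (span_singleton_le_iff_mem _ _).2 (add_mem_sup hs (mem_span_singleton_self y)), hD.1.1,
      hD.2⟩, rfl⟩

lemma exists_compl {e : ι → k₀} (he : e ∈ U) (h0 : e ≠ 0) : ∃ U' : Submodule k₀ (ι → k₀),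
    U' ⊓ span k₀ {e} = ⊥ ∧ span k₀ {e} ⊔ U' = U ∧ finrank k₀ U' < finrank k₀ U := by
  obtain ⟨W, hW⟩ := (span k₀ {e}).exists_isCompl
  have h1 : W ⊓ U ⊓ span k₀ {e} = ⊥ := by
    rw [inf_right_comm, inf_comm W, hW.inf_eq_bot, bot_inf_eq]
  refine ⟨W ⊓ U, h1, ?_, finrank_lt_finrank_of_lt (lt_of_le_of_ne inf_le_right fun h => h0 ?_)⟩
  · rw [← sup_inf_assoc_of_le _ ((span_singleton_le_iff_mem _ _).2 he), hW.sup_eq_top, top_inf_eq]
  · rw [h] at h1
    exact (mem_bot k₀).1 (h1 ▸ mem_inf.2 ⟨he, mem_span_singleton_self e⟩)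

end PS

/-- Projective spaces. -/
theorem ck_proj (G : Matrix ι ι k₀) (U : Submodule k₀ (ι → k₀)) : CK (PS K G U 0) := by
  induction h : finrank k₀ U using Nat.strong_induction_on generalizing U with
  | _ n ih =>
    by_cases hU : U = ⊥
    · refine CK.of_const fun L _ ℓ hℓ => ?_
      have h1 := hℓ.1
      have h2 := hℓ.2.1
      rw [hU, ext, smap_bot, le_bot_iff] at h2
      rw [h2, finrank_bot] at h1
      exact absurd h1 zero_ne_one
    · obtain ⟨e, he, h0⟩ := exists_mem_ne_zero_of_ne_bot hU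
      obtain ⟨U', h1, h2, h3⟩ := PS.exists_compl he h0
      exact PS.cone (finrank_span_singleton h0) h1 h2 (Or.inl rfl) (ih _ (h ▸ h3) U' rfl)

namespace PS

variable {G : Matrix ι ι k₀} {U : Submodule k₀ (ι → k₀)} {m : ℕ} {e f : ι → k₀}

/-- Anisotropic subspaces have constant isotropic lines. -/
lemma aniso_ck [NeZero (2 : k₀)] (hG : Gᵀ = G) (h : ∀ u ∈ U, bf G u u = 0 → u = 0) :
    CK (PS K G U (m + 1)) := by
  obtain ⟨r, b, s, hb⟩ := exists_nb' U
  have hr : r ≤ 2 := aniso G hb.indep fun u hu =>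
    h u (span_le.2 (by rintro _ ⟨a, rfl⟩; exact hb.mem a) hu)
  refine CK.of_const fun L _ ℓ hℓ => ?_
  obtain ⟨x, hx, rfl⟩ := exists_gen_line hℓ.1
  obtain ⟨h1, h2⟩ := (mem_ps_span hx).1 hℓ
  have h3 : bf (gm G L) x x = 0 := h2 0 m.succ_pos
  have h4 := (hb.smap (rat k₀ L)).eq_sum h1
  have key : ∀ (c : L) (x₀ : ι → K), x = c • mapV (algebraMap K L) x₀ →
      ∃ y₀ : (Sub K ι).pt (Fld.base K),
        (Sub K ι).map (L := Fld.base K) (Algebra.ofId K L) y₀ = span L {x} := fun c x₀ hc =>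
    ⟨span K {x₀}, (smap_single _ x₀).trans (by
      rw [hc, span_singleton_smul_eq (IsUnit.mk0 c (left_ne_zero_of_smul (hc ▸ hx)))]
      rfl)⟩
  obtain rfl | rfl | rfl : r = 0 ∨ r = 1 ∨ r = 2 := by omega
  · exact absurd (h4.trans (by simp)) hx
  · exact key (x (s 0)) (mapV (algebraMap k₀ K) (b 0)) (h4.trans (Fin.sum_univ_one _))
  · rw [Fin.sum_univ_two] at h4
    generalize x (s 0) = u at h4
    generalize x (s 1) = v at h4
    have := neZero_two (k₀ := k₀) L
    have hA : bf G (b 0) (b 0) ≠ 0 := fun e => hb.indep.ne_zero 0 (h _ (hb.mem 0) e)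
    set A : K := algebraMap k₀ K (bf G (b 0) (b 0)) with eA
    set B : K := algebraMap k₀ K (bf G (b 0) (b 1)) with eB
    set C : K := algebraMap k₀ K (bf G (b 1) (b 1)) with eC
    have hA' : A ≠ 0 := (map_ne_zero _).2 hA
    have hA'' : algebraMap K L A ≠ 0 := (map_ne_zero _).2 hA'
    have h5 : algebraMap K L A * u ^ 2 + 2 * algebraMap K L B * u * v
        + algebraMap K L C * v ^ 2 = 0 := by
      rw [h4] at h3
      simp only [bf_add_left, bf_add_right, bf_smul_left, bf_smul_right, gm, bf_mapV,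
        bf_symm hG (b 1) (b 0)] at h3
      refine Eq.trans ?_ h3
      show _ = u * (u * algebraMap K L A + v * algebraMap K L B) +
        v * (u * algebraMap K L B + v * algebraMap K L C)
      ring
    obtain ⟨δ, hδ⟩ := IsAlgClosed.exists_eq_mul_self (B ^ 2 - A * C)
    have hδ' := congrArg (algebraMap K L) hδ
    simp only [map_sub, map_mul, map_pow] at hδ'
    have fin : ∀ ε : K, algebraMap K L A * u = algebraMap K L ε * v →
        x = v • mapV (algebraMap K L) ((ε / A) • mapV (algebraMap k₀ K) (b 0)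
          + mapV (algebraMap k₀ K) (b 1)) := fun ε hε => by
      rw [h4, mapV_add, mapV_smul, smul_add, smul_smul, map_div₀]
      congr 2
      field_simp
      linear_combination hε
    have h6 : (algebraMap K L A * u - algebraMap K L (δ - B) * v) *
        (algebraMap K L A * u - algebraMap K L (-δ - B) * v) = 0 := by
      simp only [map_sub, map_neg]
      linear_combination algebraMap K L A * h5 + v ^ 2 * hδ'
    rcases mul_eq_zero.1 h6 with h7 | h7
    · exact key v _ (fin _ (sub_eq_zero.1 h7))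
    · exact key v _ (fin _ (sub_eq_zero.1 h7))

lemma mem_ext_perp {L : Fld K} {z : ι → L} : z ∈ ext L (U ⊓ perp G (span k₀ {e})) ↔
    z ∈ ext L U ∧ bf (gm G L) (mapV (rat k₀ L) e) z = 0 := by
  rw [ext, smap_inf, smap_perp, smap_single, mem_inf, mem_perp_span]
  rfl

variable (G e f) in
/-- The stereographic parametrisation of the quadric. -/
noncomputable def st (L : Fld K) (y : ι → L) : ι → L :=
  (rat k₀ L (-2⁻¹) * bf (gm G L) y y) • mapV (rat k₀ L) e + mapV (rat k₀ L) f + y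

lemma st_map {L L' : Fld K} (κ : L →+* L') (hκ : ∀ c, κ (rat k₀ L c) = rat k₀ L' c) (y : ι → L) :
    mapV κ (st G e f L y) = st G e f L' (mapV κ y) := by
  have h1 : ∀ u : ι → k₀, mapV κ (mapV (rat k₀ L) u) = mapV (rat k₀ L') u :=
    fun u => funext fun i => hκ _
  have h2 : (gm G L).map κ = gm G L' := Matrix.ext fun i j => hκ _
  rw [st, st, mapV_add, mapV_add, mapV_smul, map_mul, hκ, ← bf_mapV, h1, h1, h2]

lemma st_iter {L : Fld K} (y : ι → L) (i : ℕ) :
    (mapV (frH k₀ L))^[i] (st G e f L y) = st G e f L ((mapV (frH k₀ L))^[i] y) := by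
  induction i with
  | zero => rfl
  | succ i ih => rw [Function.iterate_succ_apply', Function.iterate_succ_apply', ih,
      st_map _ frH_rat]

lemma int_rat {M : Fld K} (O : Pl M) (u : ι → k₀) :
    IntV O (mapV (rat k₀ M) u) ∧ rdV O (mapV (rat k₀ M) u) = mapV (rat k₀ O.res) u :=
  ⟨fun _ => (rd_rat O _).1, funext fun _ => (rd_rat O _).2⟩

lemma st_red {M : Fld K} (O : Pl M) {y : ι → M} (hy : IntV O y) :
    IntV O (st G e f M y) ∧ rdV O (st G e f M y) = st G e f O.res (rdV O y) := by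
  obtain ⟨h1, h2⟩ := (gm_red G O).bf hy hy
  obtain ⟨h3, h4⟩ := rd_rat O (-2⁻¹ : k₀)
  have h5 := IntV.smul (mul_mem h3 h1) (int_rat O e).1
  refine ⟨(h5.add (int_rat O f).1).add hy, ?_⟩
  rw [st, st, rdV_add (h5.add (int_rat O f).1) hy, rdV_add h5 (int_rat O f).1,
    rdV_smul (mul_mem h3 h1) (int_rat O e).1, O.rd_mul h3 h1, h2, h4, (int_rat O e).2,
    (int_rat O f).2]

/-- A hyperbolic pair. -/
structure Hyp (G : Matrix ι ι k₀) (U : Submodule k₀ (ι → k₀)) (e f : ι → k₀) : Prop where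
  symm : Gᵀ = G
  he : e ∈ U
  hf : f ∈ U
  ee : bf G e e = 0
  ef : bf G e f = 1
  ff : bf G f f = 0

variable (G U e f) in
/-- The orthogonal complement of a pair. -/
def oc : Submodule k₀ (ι → k₀) := U ⊓ perp G (span k₀ {e}) ⊓ perp G (span k₀ {f})

lemma mem_oc {L : Fld K} {z : ι → L} : z ∈ ext L (oc G U e f) ↔
    (z ∈ ext L U ∧ bf (gm G L) (mapV (rat k₀ L) e) z = 0) ∧
      bf (gm G L) (mapV (rat k₀ L) f) z = 0 := by
  rw [oc, mem_ext_perp, mem_ext_perp]

lemma Hyp.gm (h : Hyp G U e f) (L : Fld K) : (gm G L)ᵀ = gm G L ∧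
    bf (gm G L) (mapV (rat k₀ L) e) (mapV (rat k₀ L) e) = 0 ∧
    bf (gm G L) (mapV (rat k₀ L) e) (mapV (rat k₀ L) f) = 1 ∧
    bf (gm G L) (mapV (rat k₀ L) f) (mapV (rat k₀ L) e) = 1 ∧
    bf (gm G L) (mapV (rat k₀ L) f) (mapV (rat k₀ L) f) = 0 := by
  simp only [DL.gm, bf_mapV, bf_symm h.symm f e, h.ee, h.ef, h.ff, map_zero, map_one, and_true]
  rw [← Matrix.transpose_map, h.symm]

lemma Hyp.st_e (h : Hyp G U e f) {L : Fld K} {y : ι → L} (hy : y ∈ ext L (oc G U e f)) :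
    bf (DL.gm G L) (mapV (rat k₀ L) e) (st G e f L y) = 1 ∧
    st G e f L y - bf (DL.gm G L) (mapV (rat k₀ L) f) (st G e f L y) • mapV (rat k₀ L) e
      - mapV (rat k₀ L) f = y ∧ st G e f L y ≠ 0 ∧ st G e f L y ∈ ext L U := by
  obtain ⟨-, a1, a2, a3, a4⟩ := h.gm L
  obtain ⟨⟨b1, b2⟩, b3⟩ := mem_oc.1 hy
  have h1 : bf (DL.gm G L) (mapV (rat k₀ L) e) (st G e f L y) = 1 := by
    rw [st, bf_add_right, bf_add_right, bf_smul_right, a1, a2, b2, mul_zero, zero_add, add_zero]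
  refine ⟨h1, ?_, fun h0 => ?_, ?_⟩
  · rw [st, bf_add_right, bf_add_right, bf_smul_right, a3, a4, b3, mul_one, add_zero, add_zero]
    abel
  · rw [h0, bf_zero_right] at h1
    exact zero_ne_one h1
  · exact add_mem (add_mem (smul_mem _ _ (mapV_mem _ h.he)) (mapV_mem _ h.hf)) b1

lemma half [NeZero (2 : k₀)] (L : Fld K) : 2 * rat k₀ L (-2⁻¹) = -1 := by
  rw [← map_ofNat (rat k₀ L) 2, ← map_mul, mul_neg, mul_inv_cancel₀ (NeZero.ne 2), map_neg, map_one]

lemma Hyp.st_bf [NeZero (2 : k₀)] (h : Hyp G U e f) {L : Fld K} {y z : ι → L}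
    (hy : y ∈ ext L (oc G U e f)) (hz : z ∈ ext L (oc G U e f)) :
    bf (DL.gm G L) (st G e f L y) (st G e f L z) =
      rat k₀ L (-2⁻¹) * bf (DL.gm G L) (z - y) (z - y) := by
  obtain ⟨a0, a1, a2, a3, a4⟩ := h.gm L
  obtain ⟨⟨-, b2⟩, b3⟩ := mem_oc.1 hy
  obtain ⟨⟨-, c2⟩, c3⟩ := mem_oc.1 hz
  simp only [st, bf_add_left, bf_add_right, bf_smul_left, bf_smul_right, bf_sub_left, bf_sub_right,
    a1, a2, a3, a4, b2, b3, c2, c3, bf_symm a0 y (mapV (rat k₀ L) e),
    bf_symm a0 y (mapV (rat k₀ L) f), bf_symm a0 z y]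
  linear_combination bf (DL.gm G L) y z * half (k₀ := k₀) L

lemma Hyp.lp_iff [NeZero (2 : k₀)] (h : Hyp G U e f) {L : Fld K} {y : ι → L}
    (hy : y ∈ ext L (oc G U e f)) :
    (lang k₀ y = 0 ∨ (PS K G (oc G U e f) m).mem (L := L) (span L {lang k₀ y})) ↔
      (PS K G U (m + 1)).mem (L := L) (span L {st G e f L y}) := by
  have := neZero_two (k₀ := k₀) L
  obtain ⟨-, -, h1, h2⟩ := h.st_e hy
  have h3 : rat k₀ L (-2⁻¹) ≠ 0 := right_ne_zero_of_mul ((half L).trans_ne (by simp))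
  have h4 := diff_iff (h.gm L).1 (gm_frH G L) y m
  rw [mem_ps_span h1, and_iff_right h2]
  simp only [st_iter, fun i => h.st_bf hy (iter_mem (frH_ext _) hy i), mul_eq_zero, h3, false_or]
  rw [h4]
  show _ ↔ ∀ i < m, bf (DL.gm G L) (lang k₀ y) ((mapV (frH k₀ L))^[i] (lang k₀ y)) = 0
  by_cases h0 : lang k₀ y = 0
  · simp [h0]
  · rw [or_iff_right h0, mem_ps_span h0]
    exact and_iff_right (sub_mem (iter_mem (frH_ext _) hy 1) hy)

lemma red_some {M : Fld K} (O : Pl M) {y : ι → M} (hy : IntV O y) :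
    (Aff K ι).red O (some y) = some (rdV O y) := if_pos hy

lemma int_of_red {M : Fld K} (O : Pl M) {y : ι → M} {z : ι → O.res}
    (h : (Aff K ι).red O (some y) = some z) : IntV O y := by
  by_contra hy
  exact nomatch (if_neg hy).symm.trans h

lemma Hyp.sred_st (h : Hyp G U e f) {M : Fld K} (O : Pl M) {y : ι → M}
    (hy : y ∈ ext M (oc G U e f)) (hi : IntV O y) : rdV O y ∈ ext O.res (oc G U e f) ∧
    sred O (span M {st G e f M y}) = span O.res {st G e f O.res (rdV O y)} := by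
  have h1 : rdV O y ∈ ext O.res (oc G U e f) := sred_ext O (oc G U e f) ▸ rdV_mem hy hi
  refine ⟨h1, ?_⟩
  rw [sred_single (st_red O hi).1, (st_red O hi).2]
  rw [(st_red O hi).2]
  exact (h.st_e h1).2.2.1

/-- The open stratum is the image of the preimage of a cone under the Lang map. -/
noncomputable def Hyp.mor [NeZero (2 : k₀)] (h : Hyp G U e f) (m : ℕ) :
    Mor (LP (oc G U e f) (PS K G (oc G U e f) m))
      ((PS K G U (m + 1)).diff (inS K (U ⊓ perp G (span k₀ {e})))) where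
  f {L} (y : Option (ι → L)) := span L {st G e f L (y.getD 0)}
  mem := by
    rintro L _ ⟨y, rfl, h1, h2⟩
    refine ⟨(h.lp_iff h1).1 h2, fun h3 => ?_⟩
    have h4 := (mem_ext_perp.1 ((span_singleton_le_iff_mem _ _).1 h3)).2
    exact zero_ne_one (h4.symm.trans (h.st_e h1).1)
  nat := by
    rintro L L' κ _ ⟨y, rfl, -⟩
    exact ((smap_single _ _).trans (by rw [st_map κ.toRingHom (map_rat κ)]; rfl)).symm
  cont := by
    rintro M O _ - ⟨y, rfl, h1, -⟩ ⟨z, hz, -⟩
    have hi := int_of_red O hz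
    rw [red_some O hi]
    exact (h.sred_st O h1 hi).2.symm

lemma Hyp.proper [NeZero (2 : k₀)] (h : Hyp G U e f) (m : ℕ) : (h.mor (K := K) m).Proper := by
  rintro M O _ - ⟨y, rfl, h1, -⟩ ⟨h2, h3⟩
  change (PS K G U (m + 1)).mem (L := O.res) (sred O (span M {st G e f M y})) at h2
  change ¬ sred O (span M {st G e f M y}) ≤ _ at h3
  obtain ⟨a1, a2, -, -⟩ := h.st_e h1
  obtain ⟨_, ⟨_, hw, hi, rfl⟩, hz⟩ := SetLike.not_le_iff_exists.1 h3
  obtain ⟨t, rfl⟩ := mem_span_singleton.1 hw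
  obtain ⟨b1, b2⟩ := (gm_red G O).bf (int_rat O e).1 hi
  rw [(int_rat O e).2] at b2
  rw [bf_smul_right, a1, mul_one] at b1 b2
  have b3 : O.rd t ≠ 0 := fun h0 =>
    hz (mem_ext_perp.2 ⟨h2.2.1 (rdV_mem hw hi), b2.symm.trans h0⟩)
  obtain ⟨b4, b5⟩ := (O.rd_ne_zero_iff b1).1 b3
  have b6 := IntV.smul b5 hi
  rw [smul_smul, inv_mul_cancel₀ b4, one_smul] at b6
  have b7 : IntV O y := a2 ▸ (b6.sub (IntV.smul ((gm_red G O).bf (int_rat O f).1 b6).1
    (int_rat O e).1)).sub (int_rat O f).1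
  obtain ⟨c1, c2⟩ := h.sred_st O h1 b7
  rw [red_some O b7]
  exact ⟨_, rfl, c1, (h.lp_iff c1).2 (c2 ▸ h2)⟩

lemma Hyp.surj [NeZero (2 : k₀)] (h : Hyp G U e f) (m : ℕ) : (h.mor (K := K) m).Surj := by
  rintro L _ ℓ ⟨h1, h2⟩
  obtain ⟨x₀, hx, rfl⟩ := exists_gen_line h1.1
  have h3 : bf (DL.gm G L) (mapV (rat k₀ L) e) x₀ ≠ 0 := fun h0 =>
    h2 ((span_singleton_le_iff_mem _ _).2 (mem_ext_perp.2 ⟨((mem_ps_span hx).1 h1).1, h0⟩))
  obtain ⟨x, e1, e2⟩ : ∃ x, span L {x₀} = span L {x} ∧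
      bf (DL.gm G L) (mapV (rat k₀ L) e) x = 1 :=
    ⟨_, (span_singleton_smul_eq (IsUnit.mk0 _ (inv_ne_zero h3)) x₀).symm,
      by rw [bf_smul_right, inv_mul_cancel₀ h3]⟩
  rw [e1] at h1 ⊢
  have hx' : x ≠ 0 := fun h0 => zero_ne_one (by rwa [h0, bf_zero_right] at e2)
  obtain ⟨b1, b2⟩ := (mem_ps_span hx').1 h1
  have b3 : bf (DL.gm G L) x x = 0 := b2 0 m.succ_pos
  obtain ⟨a0, a1, a2, a3, a4⟩ := h.gm L
  set a := bf (DL.gm G L) (mapV (rat k₀ L) f) x with ha
  set y := x - a • mapV (rat k₀ L) e - mapV (rat k₀ L) f with hy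
  have c1 : y ∈ ext L (oc G U e f) := by
    refine mem_oc.2 ⟨⟨sub_mem (sub_mem b1 (smul_mem _ _ (mapV_mem _ h.he))) (mapV_mem _ h.hf),
      ?_⟩, ?_⟩
    · rw [hy, bf_sub_right, bf_sub_right, bf_smul_right, e2, a1, a2]
      ring
    · rw [hy, bf_sub_right, bf_sub_right, bf_smul_right, a3, a4]
      ring
  have c2 : rat k₀ L (-2⁻¹) * bf (DL.gm G L) y y = a := by
    simp only [hy, bf_sub_left, bf_sub_right, bf_smul_left, bf_smul_right, a1, a2, a3, a4, b3, e2,
      bf_symm a0 x (mapV (rat k₀ L) e), bf_symm a0 x (mapV (rat k₀ L) f), ← ha]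
    linear_combination (-a) * half (k₀ := k₀) L
  have c3 : st G e f L y = x := by
    rw [st, c2, hy]
    abel
  exact ⟨some y, ⟨y, rfl, c1, (h.lp_iff c1).2 (c3.symm ▸ h1)⟩, congrArg (span L {·}) c3⟩

lemma exists_hyp [NeZero (2 : k₀)] (hG : Gᵀ = G) (he : e ∈ U) (h0 : bf G e e = 0) {u : ι → k₀}
    (hu : u ∈ U) (h1 : bf G e u ≠ 0) : ∃ f, Hyp G U e f := by
  obtain ⟨v, hv, h2⟩ : ∃ v ∈ U, bf G e v = 1 :=
    ⟨_, smul_mem _ _ hu, by rw [bf_smul_right, inv_mul_cancel₀ h1]⟩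
  refine ⟨v - (bf G v v / 2) • e, hG, he, sub_mem hv (smul_mem _ _ he), h0, ?_, ?_⟩
  · rw [bf_sub_right, bf_smul_right, h0, h2, mul_zero, sub_zero]
  · have := NeZero.ne (2 : k₀)
    simp only [bf_sub_left, bf_sub_right, bf_smul_left, bf_smul_right, h0, h2, bf_symm hG v e]
    field_simp
    ring

end PS

theorem ck_ps [NeZero (2 : k₀)] {G : Matrix ι ι k₀} (hG : Gᵀ = G) (U : Submodule k₀ (ι → k₀))
    (m : ℕ) : CK (PS K G U m) := by
  induction h : finrank k₀ U using Nat.strong_induction_on generalizing U m with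
  | _ n ih =>
    subst h
    cases m with
    | zero => exact ck_proj G U
    | succ m =>
      by_cases ha : ∀ u ∈ U, bf G u u = 0 → u = 0
      · exact PS.aniso_ck hG ha
      push Not at ha
      obtain ⟨e, he, h1, h0⟩ := ha
      by_cases hr : ∀ u ∈ U, bf G e u = 0
      · obtain ⟨U', h2, h3, h4⟩ := PS.exists_compl he h0
        refine PS.cone (finrank_span_singleton h0) h2 h3 (Or.inr ⟨fun u hu => ?_, ?_⟩)
          (ih _ h4 U' _ rfl)
        · exact mem_perp_span.2 (hr u hu)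
        · exact (span_singleton_le_iff_mem _ _).2 fun u hu => (bf_symm hG u e).trans (hr u hu)
      push Not at hr
      obtain ⟨u, hu, h2⟩ := hr
      obtain ⟨f, hf⟩ := PS.exists_hyp hG he h1 hu h2
      have h3 : finrank k₀ ↥(U ⊓ perp G (span k₀ {e})) < finrank k₀ U :=
        finrank_lt_finrank_of_lt (lt_of_le_of_ne inf_le_left fun e' =>
          h2 (mem_perp_span.1 (e'.ge hu).2))
      have h4 : ∀ V ≤ PS.oc G U e f, ∀ m, CK (PS K G V m) := fun V hV m =>
        ih _ ((finrank_mono (hV.trans inf_le_left)).trans_lt h3) V m rfl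
      refine CK.of_closed (PS.inS_closed _ _) (PS.inter_inS inf_le_left (ih _ h3 _ _ rfl)) ?_
      exact CK.image (hf.mor m) (hf.proper m) (hf.surj m)
        (ck_lp _ _ (fun _ _ a => ⟨a.1, a.2.1⟩) (fun _ O _ _ a => ps_red O a) (h4 _ le_rfl m)
          fun V hV _ => PS.inter_inS hV (h4 V hV m))

end Pool.Agent.Lib.MP_557161_ag.DL
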