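import Pool.Agent.Lib.MP_557161_ag.DL.Pen

/-!
A letter passes through the coset representative and is moved to the end of the word.
-/

namespace Pool.Agent.Lib.MP_557161_ag.DL

open Module Submodule Matrix

section Lin

variable {L : Type} [Field L] {ι : Type} [Fintype ι] {G : Matrix ι ι L} {n b s s' : ℕ} {τ : Bool}
  {A A' D D' : Flg L ι}

/-- The letter `s` passes and becomes `s'`. -/
def Passes (n b s s' : ℕ) : Prop := (1 ≤ s ∧ s + 2 ≤ b ∧ s' = s + 1) ∨ (b < s ∧ s ≤ n ∧ s' = s)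

namespace Pass

variable {ℓ m X : Submodule L (ι → L)}

lemma not_le_of_false (hD : IsFl G n D) (h : ¬ D b ≤ perp G ℓ) (i : ℕ) : ¬ ℓ ≤ D i :=
  fun e => h ((hD.le_perp b i).trans (perp_anti G e))

lemma not_le_lo (hD : IsFl G n D) (hbn : b ≤ n) (h : Pos G τ b ℓ D) {i : ℕ} (hi : i < b) :
    ¬ ℓ ≤ D i := by
  cases τ
  · exact not_le_of_false hD h i
  · exact fun e => h.2 (e.trans (hD.mono (by omega) (by omega)))

lemma rank_lo (hD : IsFl G n D) (hbn : b ≤ n) (hl : finrank L ℓ = 1) (h : Pos G τ b ℓ D) {i : ℕ}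
    (hi : i < b) : finrank L ↥(D i ⊔ ℓ) = i + 1 := by
  rw [finrank_sup_line hl (not_le_lo hD hbn h hi), hD.rank i (by omega)]

lemma hi_of_le (hD : IsFl G n D) (h : ℓ ≤ D b) {i : ℕ} (hi : b ≤ i) (hi' : i ≤ n) :
    (D i ⊓ perp G ℓ) ⊔ ℓ = D i := by
  rw [inf_eq_left.2 ((hD.le_perp i b).trans (perp_anti G h)),
    sup_eq_left.2 (h.trans (hD.mono hi hi'))]

lemma rank_hi (hD : IsFl G n D) (hl : finrank L ℓ = 1) (h : Pos G τ b ℓ D) {i : ℕ}
    (hi : b ≤ i) (hi' : i ≤ n) : finrank L ↥((D i ⊓ perp G ℓ) ⊔ ℓ) = i := by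
  cases τ
  · have h1 : ¬ D i ≤ perp G ℓ := fun e => h ((hD.mono hi hi').trans e)
    have h2 : ¬ ℓ ≤ D i ⊓ perp G ℓ := fun e => not_le_of_false hD h i (e.trans inf_le_left)
    rw [finrank_sup_line hl h2, finrank_inf_perp_line_eq hl h1, hD.rank i hi']
  · rw [hi_of_le hD h.1 hi hi', hD.rank i hi']

lemma iso_hi (hG : EForm G) (hX : Iso G X) (hl : Iso G ℓ) : Iso G ((X ⊓ perp G ℓ) ⊔ ℓ) := by
  rw [Iso, perp_sup]
  exact sup_le (le_inf (hX.mono inf_le_left) inf_le_right)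
    (le_inf (hG.le_perp_comm.1 inf_le_right) hl)

lemma pos_congr (h : Pos G τ b ℓ D) (e : D b = D' b) (e' : D (b - 1) = D' (b - 1)) :
    Pos G τ b ℓ D' := by
  cases τ
  · exact fun h' => h (e ▸ h')
  · exact ⟨e ▸ h.1, e' ▸ h.2⟩

omit [Fintype ι] in
lemma upd_ne (D : Flg L ι) {t i : ℕ} (X : Submodule L (ι → L)) (h : i ≠ t) :
    D.update t X i = D i := by
  classical
  rw [Finsupp.coe_update, Function.update_of_ne h]

omit [Fintype ι] in
lemma upd_self (D : Flg L ι) (t : ℕ) (X : Submodule L (ι → L)) : D.update t X t = X := by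
  classical
  rw [Finsupp.coe_update, Function.update_self]

lemma isFl_update (hD : IsFl G n D) {t : ℕ} (ht : t + 1 ≤ n) (hr : finrank L X = t + 1)
    (h1 : D t ≤ X) (h2 : t + 1 < n → X ≤ D (t + 2)) (h3 : Iso G X) :
    IsFl G n (D.update (t + 1) X) := by
  refine ⟨fun i hi => ?_, fun i hi => ?_, ?_, fun i hi => ?_⟩
  · by_cases e : i = t + 1
    · rw [e, upd_self, hr]
    · rw [upd_ne _ _ e, hD.rank i hi]
  · by_cases e : i = t + 1
    · rw [e, upd_self, upd_ne _ _ (by omega)]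
      exact h2 (by omega)
    · by_cases e' : i = t
      · rw [e', upd_self, upd_ne _ _ (by omega)]
        exact h1
      · rw [upd_ne _ _ e, upd_ne _ _ (by omega)]
        exact hD.le i hi
  · by_cases e : n = t + 1
    · rw [e, upd_self]
      exact h3
    · rw [upd_ne _ _ e]
      exact hD.iso
  · rw [upd_ne _ _ (by omega)]
    exact hD.out i hi

lemma iso_mem (hD : IsFl G n D) (i : ℕ) : Iso G (D i) := hD.le_perp i i

lemma exists_line (h : ¬ X ≤ perp G ℓ) :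
    ∃ m : Submodule L (ι → L), finrank L m = 1 ∧ m ≤ X ∧ ¬ m ≤ perp G ℓ := by
  obtain ⟨w, hw, hw'⟩ := SetLike.not_le_iff_exists.1 h
  refine ⟨span L {w}, finrank_span_singleton fun e => hw' (by rw [e]; exact zero_mem _),
    (span_singleton_le_iff_mem _ _).2 hw, fun e => hw' (e (mem_span_singleton_self w))⟩

lemma adj_pos (hs : Passes n b s s') (ha : Adj s D D') (h : Pos G τ b ℓ D) : Pos G τ b ℓ D' := by
  refine pos_congr h (ha _ ?_) (ha _ ?_) <;> rcases hs with h | h <;> omega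

omit [Fintype ι] in
lemma adj_symm (ha : Adj s D D') : Adj s D' D := fun i hi => (ha i hi).symm

omit [Fintype ι] in
lemma adj_one (hb : 1 ≤ b) (hs : Passes n b s s') (ha : Adj s' A A') : A 1 = A' 1 := by
  refine ha _ ?_
  rcases hs with h | h <;> omega

end Pass

open Pass

lemma Rel.eq_lo (hA : IsFl G n A) (hD : IsFl G n D) (hbn : b ≤ n) (h : Rel G n τ b A D) {i : ℕ}
    (hi : i < b) : A (i + 1) = D i ⊔ A 1 := by
  refine (eq_of_le_of_finrank_eq (sup_le (h.lo i hi) (hA.mono (by omega) (by omega))) ?_).symm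
  rw [rank_lo hD hbn (hA.rank 1 (by omega)) h.pos hi, hA.rank _ (by omega)]

lemma Rel.eq_hi (hG : EForm G) (hA : IsFl G n A) (hD : IsFl G n D) (hb : 1 ≤ b)
    (h : Rel G n τ b A D) {i : ℕ} (hi : b ≤ i) (hi' : i ≤ n) :
    A i = (D i ⊓ perp G (A 1)) ⊔ A 1 := by
  have _ := hG
  refine (eq_of_le_of_finrank_eq (sup_le (h.hi i hi hi') (hA.mono (by omega) hi')) ?_).symm
  rw [rank_hi hD (hA.rank 1 (by omega)) h.pos hi hi', hA.rank _ hi']

namespace Pass

variable {m X : Submodule L (ι → L)}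

lemma rank_inf (hA : IsFl G n A) (hD : IsFl G n D) (hbn : b ≤ n) (h : Rel G n τ b A D) {i : ℕ}
    (hi : i + 2 ≤ b) (hX : finrank L X = i + 1) (h1 : A 1 ≤ X) (h2 : X ≤ A (i + 2)) :
    finrank L ↥(D (i + 1) ⊓ X) = i := by
  have e : D (i + 1) ⊔ X = A (i + 2) := by
    refine le_antisymm (sup_le (h.lo _ (by omega)) h2) ?_
    rw [h.eq_lo hA hD hbn (i := i + 1) (by omega)]
    exact sup_le_sup_left h1 _
  have h3 := finrank_sup_add_finrank_inf_eq (D (i + 1)) X
  rw [e, hA.rank _ (by omega), hD.rank _ (by omega), hX] at h3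
  omega

lemma eq_inf (hA : IsFl G n A) (hD : IsFl G n D) (hbn : b ≤ n) (h : Rel G n τ b A D) {i : ℕ}
    (hi : i + 2 ≤ b) : D i = D (i + 1) ⊓ A (i + 1) := by
  refine eq_of_le_of_finrank_eq (le_inf (hD.le i (by omega)) (h.lo i (by omega))) ?_
  rw [rank_inf hA hD hbn h hi (hA.rank _ (by omega)) (hA.mono (by omega) (by omega))
    (hA.le _ (by omega)), hD.rank _ (by omega)]

lemma hi_true (hG : EForm G) (hA : IsFl G n A) (hD : IsFl G n D) (hb : 1 ≤ b)
    (h : Rel G n true b A D) {i : ℕ} (hi : b ≤ i) (hi' : i ≤ n) : A i = D i := by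
  rw [h.eq_hi hG hA hD hb hi hi', hi_of_le hD h.pos.1 hi hi']

lemma hi_false (hG : EForm G) (hA : IsFl G n A) (hD : IsFl G n D) (hb : 1 ≤ b)
    (h : Rel G n false b A D) (hm : finrank L m = 1) (h1 : m ≤ D b) (h2 : ¬ m ≤ perp G (A 1))
    {i : ℕ} (hi : b ≤ i) (hi' : i ≤ n) : D i = (A i ⊓ perp G m) ⊔ m := by
  have hl : finrank L (A 1) = 1 := hA.rank 1 (by omega)
  have h3 : m ≤ D i := h1.trans (hD.mono hi hi')
  have e : (D i ⊓ perp G (A 1)) ⊔ m = D i := by
    refine eq_of_le_of_finrank_eq (sup_le inf_le_left h3) ?_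
    rw [finrank_sup_line hm fun e => h2 (e.trans inf_le_right),
      finrank_inf_perp_line_eq hl fun e => h2 (h3.trans e)]
  refine eq_of_le_of_finrank_eq ?_ ?_
  · rw [← e]
    exact sup_le_sup_right (le_inf (h.hi i hi hi')
      (inf_le_left.trans ((hD.le_perp i b).trans (perp_anti G h1)))) _
  · rw [rank_hi (τ := false) (b := 1) hA hm (fun e => h2 (hG.le_perp_comm.1 e)) (by omega) hi',
      hD.rank i hi']

end Pass

lemma pass_exists_left (hG : EForm G) (hb : 1 ≤ b) (hbn : b ≤ n) (hs : Passes n b s s')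
    (hA : IsFl G n A) (hD : IsFl G n D) (hD' : IsFl G n D') (h : Rel G n τ b A D)
    (ha : Adj s D D') : ∃ A', IsFl G n A' ∧ Adj s' A A' ∧ Rel G n τ b A' D' := by
  have hl : finrank L (A 1) = 1 := hA.rank 1 (by omega)
  have hp := adj_pos hs ha h.pos
  rcases hs with ⟨h1, h2, rfl⟩ | ⟨h1, h2, rfl⟩
  · obtain ⟨t, rfl⟩ : ∃ t, s = t + 1 := ⟨s - 1, by omega⟩
    have hX : D' (t + 1) ⊔ A 1 ≤ A (t + 1 + 2) := by
      rw [h.eq_lo hA hD hbn (i := t + 2) (by omega), ha _ (by omega)]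
      exact sup_le_sup_right (hD'.le _ (by omega)) _
    have e1 : A.update (t + 1 + 1) (D' (t + 1) ⊔ A 1) 1 = A 1 := upd_ne _ _ (by omega)
    refine ⟨A.update (t + 1 + 1) (D' (t + 1) ⊔ A 1), isFl_update hA (by omega)
      (rank_lo hD' hbn hl hp (by omega)) ?_ (fun _ => hX) ((iso_mem hA _).mono hX),
      fun i hi => (upd_ne _ _ hi).symm, e1.symm ▸ hp, fun i hi => ?_, fun i hi hi' => ?_⟩
    · rw [h.eq_lo hA hD hbn (i := t) (by omega), ha _ (by omega)]
      exact sup_le_sup_right (hD'.le _ (by omega)) _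
    · by_cases e : i = t + 1
      · rw [e, upd_self]
        exact le_sup_left
      · rw [upd_ne _ _ (by omega), ← ha _ e]
        exact h.lo i hi
    · rw [e1, upd_ne _ _ (by omega), ← ha _ (by omega)]
      exact h.hi i hi hi'
  · obtain ⟨t, rfl⟩ : ∃ t, s' = t + 1 := ⟨s' - 1, by omega⟩
    have e1 : A.update (t + 1) ((D' (t + 1) ⊓ perp G (A 1)) ⊔ A 1) 1 = A 1 := upd_ne _ _ (by omega)
    refine ⟨A.update (t + 1) ((D' (t + 1) ⊓ perp G (A 1)) ⊔ A 1), isFl_update hA h2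
      (rank_hi hD' hl hp (by omega) h2) ?_ (fun h3 => ?_) (iso_hi hG (iso_mem hD' _) (iso_mem hA _)),
      fun i hi => (upd_ne _ _ hi).symm, e1.symm ▸ hp, fun i hi => ?_, fun i hi hi' => ?_⟩
    · rw [h.eq_hi hG hA hD hb (i := t) (by omega) (by omega), ha _ (by omega)]
      exact sup_le_sup_right (inf_le_inf_right _ (hD'.le _ (by omega))) _
    · rw [h.eq_hi hG hA hD hb (i := t + 2) (by omega) (by omega), ha _ (by omega)]
      exact sup_le_sup_right (inf_le_inf_right _ (hD'.le _ (by omega))) _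
    · rw [upd_ne _ _ (by omega), ← ha _ (by omega)]
      exact h.lo i hi
    · rw [e1]
      by_cases e : i = t + 1
      · rw [e, upd_self]
        exact le_sup_left
      · rw [upd_ne _ _ e, ← ha _ e]
        exact h.hi i hi hi'

lemma pass_exists_right (hG : EForm G) (hb : 1 ≤ b) (hbn : b ≤ n) (hs : Passes n b s s')
    (hA : IsFl G n A) (hA' : IsFl G n A') (hD' : IsFl G n D') (h : Rel G n τ b A' D')
    (ha : Adj s' A A') : ∃ D, IsFl G n D ∧ Adj s D D' ∧ Rel G n τ b A D := by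
  have e1 := adj_one hb hs ha
  have hl : finrank L (A 1) = 1 := hA.rank 1 (by omega)
  have hp : ∀ X, Pos G τ b (A 1) (D'.update s X) := fun X =>
    adj_pos hs (fun i hi => (upd_ne _ _ hi).symm) (e1 ▸ h.pos)
  rcases hs with ⟨h1, h2, rfl⟩ | ⟨h1, h2, rfl⟩
  · obtain ⟨t, rfl⟩ : ∃ t, s = t + 1 := ⟨s - 1, by omega⟩
    refine ⟨D'.update (t + 1) (D' (t + 1 + 1) ⊓ A (t + 1 + 1)), isFl_update hD' (by omega)
      (rank_inf hA' hD' hbn h h2 (hA.rank _ (by omega)) (e1 ▸ hA.mono (by omega) (by omega)) ?_)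
      (le_inf (hD'.mono (by omega) (by omega)) ?_) (fun _ => inf_le_left)
      ((iso_mem hD' _).mono inf_le_left), fun i hi => upd_ne _ _ hi, hp _, fun i hi => ?_,
      fun i hi hi' => ?_⟩
    · rw [← ha _ (by omega)]
      exact hA.le _ (by omega)
    · refine (h.lo t (by omega)).trans ?_
      rw [← ha _ (by omega)]
      exact hA.le _ (by omega)
    · by_cases e : i = t + 1
      · rw [e, upd_self]
        exact inf_le_right
      · rw [upd_ne _ _ e, ha _ (by omega)]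
        exact h.lo i hi
    · rw [upd_ne _ _ (by omega), e1, ha i (by omega)]
      exact h.hi i hi hi'
  · obtain ⟨t, rfl⟩ : ∃ t, s' = t + 1 := ⟨s' - 1, by omega⟩
    have key : ∀ X : Submodule L (ι → L), finrank L X = t + 1 → D' t ≤ X →
        (t + 1 < n → X ≤ D' (t + 2)) → Iso G X → X ⊓ perp G (A 1) ≤ A (t + 1) → ∃ D, IsFl G n D ∧ Adj (t + 1) D D' ∧ Rel G n τ b A D := by
      intro X x1 x2 x3 x4 x5
      refine ⟨D'.update (t + 1) X, isFl_update hD' h2 x1 x2 x3 x4, fun i hi => upd_ne _ _ hi, hp _,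
        fun i hi => ?_, fun i hi hi' => ?_⟩
      · rw [upd_ne _ _ (by omega), ha _ (by omega)]
        exact h.lo i hi
      · by_cases e : i = t + 1
        · rw [e, upd_self]
          exact x5
        · rw [upd_ne _ _ e, e1, ha i e]
          exact h.hi i hi hi'
    cases τ
    · obtain ⟨m, hm, m1, m2⟩ := exists_line h.pos
      have m3 : ¬ m ≤ perp G (A 1) := e1 ▸ m2
      refine key ((A (t + 1) ⊓ perp G m) ⊔ m)
        (rank_hi (τ := false) (b := 1) hA hm (fun e => m3 (hG.le_perp_comm.1 e)) (by omega) h2)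
        ?_ (fun h3 => ?_) (iso_hi hG (iso_mem hA _) ((iso_mem hD' _).mono m1)) ?_
      · rw [hi_false hG hA' hD' hb h hm m1 m2 (i := t) (by omega) (by omega), ← ha _ (by omega)]
        exact sup_le_sup_right (inf_le_inf_right _ (hA.le _ (by omega))) _
      · rw [hi_false hG hA' hD' hb h hm m1 m2 (i := t + 2) (by omega) (by omega), ← ha _ (by omega)]
        exact sup_le_sup_right (inf_le_inf_right _ (hA.le _ (by omega))) _
      · have h4 := finrank_inf_perp_line_eq hl m3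
        rw [hm, add_eq_right, finrank_eq_zero] at h4
        rw [sup_inf_assoc_of_le _ (inf_le_left.trans (hA.le_perp _ 1)), h4, sup_bot_eq]
        exact inf_le_left
    · refine key (A (t + 1)) (hA.rank _ h2) ?_ (fun h3 => ?_) (iso_mem hA _) inf_le_left
      · rw [← hi_true hG hA' hD' hb h (i := t) (by omega) (by omega), ← ha _ (by omega)]
        exact hA.le _ (by omega)
      · rw [← hi_true hG hA' hD' hb h (i := t + 2) (by omega) (by omega), ← ha _ (by omega)]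
        exact hA.le _ (by omega)

lemma pass_unique (hG : EForm G) (hb : 1 ≤ b) (hbn : b ≤ n) (hs : Passes n b s s')
    (hA : IsFl G n A) (hD : IsFl G n D) (hD' : IsFl G n D') (h : Rel G n τ b A D)
    (h' : Rel G n τ b A D') (ha : Adj s D D') : D = D' := by
  refine Finsupp.ext fun i => ?_
  by_cases e : i = s
  swap
  · exact ha i e
  subst e
  rcases hs with ⟨h1, h2, rfl⟩ | ⟨h1, h2, rfl⟩
  · rw [eq_inf hA hD hbn h h2, eq_inf hA hD' hbn h' h2, ha _ (by omega)]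
  · cases τ
    · obtain ⟨m, hm, m1, m2⟩ := exists_line h.pos
      rw [hi_false hG hA hD hb h hm m1 m2 h1.le h2,
        hi_false hG hA hD' hb h' hm (ha b h1.ne ▸ m1) m2 h1.le h2]
    · rw [← hi_true hG hA hD hb h h1.le h2, ← hi_true hG hA hD' hb h' h1.le h2]

end Lin

variable {k₀ : Type} [Field k₀] [Fintype k₀] {K : Type} [Field K] [Algebra k₀ K] [Base K]
  {ι : Type} [Fintype ι]

namespace Pass

variable (K) in
/-- The correspondence between the two varieties. -/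
def Cor (G : Matrix ι ι k₀) (n : ℕ) (τ : Bool) (b s s' : ℕ) (u : List ℕ) :
    Sp (((Fl K ι).prod (Fl K ι)).prod ((Fl K ι).prod ((Fl K ι).prod (Fl K ι).list))) where
  mem {L} y := (IsFl (gm G L) n y.1.1 ∧ IsFl (gm G L) n y.1.2 ∧ Rel (gm G L) n τ b y.1.1 y.1.2) ∧
    (IsFl (gm G L) n y.2.1 ∧ IsFl (gm G L) n y.2.2.1 ∧ Rel (gm G L) n τ b y.2.1 y.2.2.1) ∧
    Adj s' y.1.1 y.2.1 ∧ Adj s y.1.2 y.2.2.1 ∧
    Path (gm G L) n u y.2.2.1 y.2.2.2 (fmap (frH k₀ L) y.1.1)
  map_iff κ y := by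
    rw [← gm_map G κ]
    refine and_congr (and_congr (isFl_fmap _) (and_congr (isFl_fmap _) (rel_fmap _)))
      (and_congr (and_congr (isFl_fmap _) (and_congr (isFl_fmap _) (rel_fmap _)))
      (and_congr (adj_fmap _) (and_congr (adj_fmap _) (Iff.trans ?_ (path_fmap κ.toRingHom)))))
    exact (congrArg (Path _ n u _ _) (fmap_frH κ y.1.1)).to_iff

variable {G : Matrix ι ι k₀} {n b s s' : ℕ} {τ : Bool} {u : List ℕ}

omit [Base K] in
lemma isFl_frH {L : Fld K} {D : Flg L ι} :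
    IsFl (gm G L) n (fmap (frH k₀ L) D) ↔ IsFl (gm G L) n D := by
  have := isFl_fmap (G := gm G L) (n := n) (D := D) (frH k₀ L)
  rwa [gm_frH] at this

variable (K G n b s s' τ u) in
/-- The projection that forgets the second flag through the line. -/
def pL : Mor (Cor K G n τ b s s' u) (YS K G n τ b (s :: u)) where
  f y := (y.1.1, y.1.2, y.2.2.1 :: y.2.2.2)
  mem _ h := ⟨h.1.1, h.1.2.1, h.1.2.2, h.2.2.2.1, h.2.1.2.1, h.2.2.2.2⟩
  nat _ _ _ := rfl
  cont _ _ _ _ _ := rfl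

variable (K G n b s s' τ u) in
/-- The projection that moves the letter to the end. -/
noncomputable def pR : Mor (Cor K G n τ b s s' u) (YS K G n τ b (u ++ [s'])) where
  f {L} y := (y.2.1, y.2.2.1, List.append y.2.2.2 [fmap (frH k₀ L) y.2.1])
  mem _ h := ⟨h.2.1.1, h.2.1.2.1, h.2.1.2.2, path_concat.2 ⟨_, _, rfl, h.2.2.2.2,
    (adj_fmap _).2 h.2.2.1, isFl_frH.2 h.2.1.1⟩⟩
  nat κ y _ := by
    refine Prod.ext rfl (Prod.ext rfl ?_)
    refine Eq.trans ?_ (List.map_append).symm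
    exact congrArg (fun Z => List.append _ [Z]) (fmap_frH κ _)
  cont O y _ _ _ := by
    refine Prod.ext rfl (Prod.ext rfl ?_)
    refine Eq.trans ?_ (List.map_append).symm
    exact congrArg (fun Z => List.append _ [Z]) (fred_frH O _).symm

omit [Base K] in
lemma cor_red (hG : EForm G) (hb : 1 ≤ b) (hbn : b ≤ n) (hs : Passes n b s s') {M : Fld K}
    (O : Pl M) {A D A' D' : Flg M ι} {Es : List (Flg M ι)}
    (h : (Cor K G n τ b s s' u).mem (L := M) ((A, D), A', D', Es))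
    (hp : Pos (gm G O.res) τ b (sred O (A 1)) (fred O D)) :
    (Cor K G n τ b s s' u).mem (L := O.res)
      ((fred O A, fred O D), fred O A', fred O D', Es.map (fred O)) := by
  obtain ⟨⟨a1, a2, a3⟩, ⟨a4, a5, a6⟩, a7, a8, a9⟩ := h
  have r := gm_red G O
  have e : A 1 = A' 1 := adj_one hb hs a7
  refine ⟨⟨r.isFl a1, r.isFl a2, r.rel (hG.gm _) (hG.gm _) hb hbn a1 a2 a3 hp⟩,
    ⟨r.isFl a4, r.isFl a5, r.rel (hG.gm _) (hG.gm _) hb hbn a4 a5 a6
      (e ▸ adj_pos hs (Adj.red a8 O) hp)⟩, Adj.red a7 O, Adj.red a8 O, ?_⟩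
  have := r.path a9
  rwa [fred_frH] at this

end Pass

theorem ck_pass {G : Matrix ι ι k₀} (hG : EForm G) {n b s s' : ℕ} {τ : Bool} (hb : 1 ≤ b)
    (hbn : b ≤ n) (hs : Passes n b s s') {u : List ℕ} (h : CK (YS K G n τ b (u ++ [s']))) :
    CK (YS K G n τ b (s :: u)) := by
  refine CK.image (Pass.pL K G n b s s' τ u) ?_ ?_
    (CK.of_bij (Pass.pR K G n b s s' τ u) ?_ ?_ ?_ h)
  · rintro M O ⟨⟨A, D⟩, A', D', Es⟩ - hy h'
    exact Pass.cor_red hG hb hbn hs O hy h'.2.2.1.pos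
  · rintro L _ ⟨A, D, Es⟩ ⟨a1, a2, a3, a4⟩
    obtain ⟨D', Es', rfl, b1, b2, b3⟩ := path_cons.1 a4
    obtain ⟨A', c1, c2, c3⟩ := pass_exists_left (hG.gm L) hb hbn hs a1 a2 b2 a3 b1
    exact ⟨((A, D), A', D', Es'), ⟨⟨a1, a2, a3⟩, ⟨c1, b2, c3⟩, c2, b1, b3⟩, rfl⟩
  · rintro L ⟨⟨A, D⟩, A', D', Es⟩ ⟨⟨A₂, D₂⟩, A₂', D₂', Es₂⟩ ⟨⟨a1, a2, a3⟩, -, -, a8, a9⟩
      ⟨⟨-, b2, b3⟩, -, -, b8, b9⟩ e
    obtain rfl : A' = A₂' := congrArg Prod.fst e
    obtain rfl : D' = D₂' := congrArg (fun y => y.2.1) e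
    obtain rfl : Es = Es₂ := List.append_cancel_right (congrArg (fun y => y.2.2) e)
    obtain rfl : A = A₂ := fmap_inj _ (a9.unique b9)
    obtain rfl : D = D₂ := pass_unique (hG.gm L) hb hbn hs a1 a2 b2 a3 b3
      fun i hi => (a8 i hi).trans (b8 i hi).symm
    rfl
  · rintro M O ⟨⟨A, D⟩, A', D', Es⟩ - hy h'
    refine Pass.cor_red hG hb hbn hs O hy ?_
    rw [Pass.adj_one (A := A) (A' := A') hb hs hy.2.2.1]
    exact Pass.adj_pos hs (Pass.adj_symm (Adj.red hy.2.2.2.1 O)) h'.2.2.1.pos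
  · rintro L _ ⟨A', D', Es⟩ ⟨a1, a2, a3, a4⟩
    obtain ⟨Es', Z, e, b1, b2, -⟩ := path_concat.1 a4
    obtain ⟨A, rfl⟩ := fmap_surj (frH_surj (k₀ := k₀) (L := L)) Z
    have c1 := Pass.isFl_frH.1 (b1.isFl a2).1
    have c2 := (adj_fmap _).1 b2
    obtain ⟨D, d1, d2, d3⟩ := pass_exists_right (hG.gm L) hb hbn hs c1 a1 a2 a3 c2
    exact ⟨((A, D), A', D', Es'), ⟨⟨c1, d1, d3⟩, ⟨a1, a2, a3⟩, c2, d2, b1⟩,
      Prod.ext rfl (Prod.ext rfl e.symm)⟩

end Pool.Agent.Lib.MP_557161_ag.DL
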