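import Pool.Agent.Lib.MP_557161_ag.DL.Pen1

/-!
Line bundles and pencils of subspaces and of flags.
-/

set_option linter.unusedSectionVars false

namespace Pool.Agent.Lib.MP_557161_ag.DL

open Module Submodule Matrix

variable {k₀ : Type} [Field k₀] [Fintype k₀] {K : Type} [Field K] [Algebra k₀ K] [Base K]
  {ι : Type} [Fintype ι] {A : Amb K} {Y : Sp A}

variable (K) in
/-- The affine line. -/
def A1 : Sp (Aff K Unit) := Sp.aff (fun _ _ => True) fun _ _ => Iff.rfl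

namespace PenA

/-- The affine line as a bundle over the point. -/
def bunA : Bun (A1 K) (Sp.point K) (Amb.const K Unit) where
  π := ⟨fun _ => (), fun _ _ => trivial, fun _ _ _ => rfl, fun _ _ _ _ _ => rfl⟩
  fr _ _ := True
  θ _ _ t := some fun _ => t
  ex _ _ := ⟨(), trivial⟩
  fr_map _ _ _ _ _ := trivial
  θ_map _ _ _ _ _ _ := rfl
  mem _ _ _ _ _ := ⟨⟨_, rfl, trivial⟩, rfl⟩
  surj := by
    rintro L _ _ ⟨x, rfl, -⟩ -
    exact ⟨x (), rfl⟩
  trans _ _ _ _ _ _ := ⟨1, 0, one_ne_zero, fun _ _ _ => by rw [map_one, map_zero, one_mul, add_zero]⟩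
  int _ _ _ _ _ := ⟨(), trivial, trivial⟩
  red O _ _ t _ _ _ _ _ := ⟨fun ht => red_int (x := fun _ => t) fun _ => ht, fun ht h => by
    obtain ⟨x, e, -⟩ := h
    exact ht ((red_eq (x := fun _ => t) e).1 ())⟩

lemma s_nat (P : Mor Y (Sp.univ (Sub K ι))) {L L' : Fld K} (κ : L →ₐ[K] L') {y : A.pt L}
    (hy : Y.mem y) : P.s (A.map κ y) = smap κ.toRingHom (P.s y) := P.nat κ y hy

lemma s_red (P : Mor Y (Sp.univ (Sub K ι))) {M : Fld K} {O : Pl M} (hO : O.IsDVR) {y : A.pt M}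
    (hy : Y.mem y) (hy' : Y.mem (A.red O y)) : P.s (A.red O y) = sred O (P.s y) :=
  P.cont O y hO hy hy'

/-- The projection of a space over `Y`. -/
def fst {B : Amb K} {E : Sp (A.prod B)} (h : ∀ (L : Fld K) (y : (A.prod B).pt L), E.mem y → Y.mem y.1) :
    Mor E Y := ⟨fun y => y.1, fun y => h _ y, fun _ _ _ => rfl, fun _ _ _ _ _ => rfl⟩

lemma line_eq {L : Type} [Field L] {E : Submodule L (ι → L)} (h : finrank L E = 1) {u : ι → L}
    (h0 : u ≠ 0) (hu : u ∈ E) {x : ι → L} (hx : x ∈ E) : ∃ a : L, x = a • u := by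
  obtain ⟨p, hp, a, e⟩ := decomp (P := ⊥) bot_le (by rw [h, finrank_bot]) hu
    (fun e => h0 ((mem_bot L).1 e)) hx
  exact ⟨a, by rw [e, (mem_bot L).1 hp, zero_add]⟩

/-- The total space of a family of lines as a bundle. -/
noncomputable def bunT (P : Mor Y (Sp.univ (Sub K ι)))
    (h : ∀ (L : Fld K) (y : A.pt L), Y.mem y → finrank L (P.s y) = 1) : Bun (Tot P) Y (Aff K ι) where
  π := fst fun _ _ h => h.1
  fr {L} y (φ : Option (ι → L)) := ∃ u, φ = some u ∧ u ≠ 0 ∧ u ∈ P.s y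
  θ {L} y (φ : Option (ι → L)) t := (y, φ.map (t • ·))
  ex y hy := by
    obtain ⟨u, h0, e⟩ := exists_gen_line (h _ y hy)
    exact ⟨some u, u, rfl, h0, e.ge (mem_span_singleton_self u)⟩
  fr_map := by
    rintro L L' κ y _ hy ⟨u, rfl, h0, hu⟩
    refine ⟨mapV κ.toRingHom u, rfl, mt (mapV_eq_zero _).1 h0, ?_⟩
    rw [s_nat P κ hy]
    exact mapV_mem _ hu
  θ_map := by
    rintro L L' κ y _ t hy ⟨u, rfl, h0, hu⟩
    exact Prod.ext rfl (congrArg some (mapV_smul κ.toRingHom t u).symm)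
  mem := by
    rintro L y _ t hy ⟨u, rfl, h0, hu⟩
    exact ⟨⟨hy, _, rfl, smul_mem _ t hu⟩, rfl⟩
  surj := by
    rintro L ⟨y, _⟩ _ ⟨hy, x, rfl, hx⟩ ⟨u, rfl, h0, hu⟩
    obtain ⟨a, rfl⟩ := line_eq (h _ y hy) h0 hu hx
    exact ⟨a, rfl⟩
  trans := by
    rintro L y _ _ hy ⟨u, rfl, h0, hu⟩ ⟨u', rfl, h0', hu'⟩
    obtain ⟨a, rfl⟩ := line_eq (h _ y hy) h0' hu' hu
    refine ⟨a, 0, left_ne_zero_of_smul h0, fun L' κ t => Prod.ext rfl (congrArg some ?_)⟩
    show t • mapV κ.toRingHom (a • u') = (κ a * t + κ 0) • mapV κ.toRingHom u'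
    rw [mapV_smul, smul_smul, map_zero, add_zero, mul_comm]
    rfl
  int O y hO hy hy' := by
    obtain ⟨u, h0, e⟩ := exists_gen_line (h _ _ hy')
    have hu := e.ge (mem_span_singleton_self u)
    have hu' := hu
    rw [s_red P hO hy hy'] at hu'
    obtain ⟨x, hx, ix, rfl⟩ := hu'
    exact ⟨some x, ⟨x, rfl, fun e => h0 (by rw [e, rdV_zero]), hx⟩, _, red_int ix, h0, hu⟩
  red := by
    rintro M O y _ t hO hy hy' ⟨u, rfl, h0, hu⟩ ⟨u', e, h0', hu'⟩
    obtain ⟨iu, rfl⟩ := red_eq e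
    refine ⟨fun ht => Prod.ext rfl ?_, fun ht h => ?_⟩
    · show (Aff K ι).red O (some (t • u)) = Option.map _ ((Aff K ι).red O (some u))
      rw [red_int (IntV.smul ht iu), e, rdV_smul ht iu]
      rfl
    · obtain ⟨-, x, e', -⟩ := h
      obtain ⟨i, hi⟩ := Function.ne_iff.1 h0'
      exact ht (mem_of_mul (iu i) hi ((red_eq (x := t • u) e').1 i))

/-- A pencil as a bundle. -/
noncomputable def bunP (P S R : Mor Y (Sp.univ (Sub K ι)))
    (h : ∀ (L : Fld K) (y : A.pt L), Y.mem y → Ch (P.s y) (S.s y) (R.s y)) :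
    Bun (Pen P S R) Y ((Aff K ι).prod (Aff K ι)) where
  π := fst fun _ _ h => h.1
  fr {L} y (φ : Option (ι → L) × Option (ι → L)) :=
    ∃ σ ρ, φ = (some σ, some ρ) ∧ Fr (P.s y) (S.s y) (R.s y) σ ρ
  θ {L} y (φ : Option (ι → L) × Option (ι → L)) t :=
    (y, (P.s y ⊔ span L {φ.2.getD 0 + t • φ.1.getD 0} : Submodule L (ι → L)))
  ex y hy := by
    obtain ⟨σ, ρ, f⟩ := (h _ y hy).ex
    exact ⟨_, σ, ρ, rfl, f⟩
  fr_map := by
    rintro L L' κ y _ hy ⟨σ, ρ, rfl, f⟩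
    refine ⟨mapV κ.toRingHom σ, mapV κ.toRingHom ρ, rfl, ?_⟩
    rw [s_nat P κ hy, s_nat S κ hy, s_nat R κ hy]
    exact f.map _
  θ_map := by
    rintro L L' κ y _ t hy ⟨σ, ρ, rfl, f⟩
    refine Prod.ext rfl ?_
    show P.s (A.map κ y) ⊔ span L' {mapV κ.toRingHom ρ + κ t • mapV κ.toRingHom σ} =
      smap κ.toRingHom (P.s y ⊔ span L {ρ + t • σ})
    rw [s_nat P κ hy, smap_sup, smap_single, mapV_add, mapV_smul]
    rfl
  mem := by
    rintro L y _ t hy ⟨σ, ρ, rfl, f⟩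
    exact ⟨⟨hy, (h _ y hy).mb f t⟩, rfl⟩
  surj := by
    rintro L ⟨y, D⟩ _ ⟨hy, m⟩ ⟨σ, ρ, rfl, f⟩
    obtain ⟨t, e⟩ := (h _ y hy).surj f m
    exact ⟨t, Prod.ext rfl e⟩
  trans := by
    rintro L y _ _ hy ⟨σ, ρ, rfl, f⟩ ⟨σ', ρ', rfl, f'⟩
    obtain ⟨a, b, ha, e⟩ := (h _ y hy).trans f f'
    refine ⟨a, b, ha, fun L' κ t => Prod.ext rfl ?_⟩
    show P.s (A.map κ y) ⊔ span L' {mapV κ.toRingHom ρ + t • mapV κ.toRingHom σ} =
      P.s (A.map κ y) ⊔ span L' {mapV κ.toRingHom ρ' + (κ a * t + κ b) • mapV κ.toRingHom σ'}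
    rw [s_nat P κ hy]
    exact e L' κ.toRingHom t
  int O y hO hy hy' := by
    obtain ⟨σ, ρ, i1, i2, f, f'⟩ := (h _ y hy).int O
    refine ⟨(some σ, some ρ), ⟨σ, ρ, rfl, f⟩, rdV O σ, rdV O ρ,
      Prod.ext (red_int i1) (red_int i2), ?_⟩
    rw [s_red P hO hy hy', s_red S hO hy hy', s_red R hO hy hy']
    exact f'
  red := by
    rintro M O y _ t hO hy hy' ⟨σ, ρ, rfl, f⟩ ⟨σ', ρ', e, f'⟩
    obtain ⟨i1, rfl⟩ := red_eq (congrArg Prod.fst e)
    obtain ⟨i2, rfl⟩ := red_eq (congrArg Prod.snd e)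
    rw [s_red P hO hy hy', s_red S hO hy hy', s_red R hO hy hy'] at f'
    refine ⟨fun ht => ?_, fun ht hm => hm.2.2.2.2 ?_⟩
    · rw [e]
      refine Prod.ext rfl ?_
      show sred O (P.s y ⊔ span M {ρ + t • σ}) =
        P.s (A.red O y) ⊔ span O.res {rdV O ρ + O.rd t • rdV O σ}
      rw [s_red P hO hy hy']
      exact (h _ y hy).red_mem i1 i2 f f' ht
    · exact ((h _ y hy).red_not i1 i2 f f' ht).trans (s_red S hO hy hy').symm

end PenA

open PenA

theorem ck_a1 : CK (A1 K) := bunA.ck ck_point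

theorem ck_tot (P : Mor Y (Sp.univ (Sub K ι)))
    (h : ∀ (L : Fld K) (y : A.pt L), Y.mem y → finrank L (P.s y) = 1) (hY : CK Y) : CK (Tot P) :=
  (bunT P h).ck hY

theorem ck_pen (P S R : Mor Y (Sp.univ (Sub K ι)))
    (h : ∀ (L : Fld K) (y : A.pt L), Y.mem y → P.s y ≤ S.s y ∧ S.s y ≤ R.s y ∧
      finrank L (S.s y) = finrank L (P.s y) + 1 ∧ finrank L (R.s y) = finrank L (P.s y) + 2)
    (hY : CK Y) : CK (Pen P S R) :=
  (bunP P S R h).ck hY

namespace PenA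

variable {G : Matrix ι ι k₀} {n : ℕ}

/-- The isotropic members of a pencil. -/
noncomputable def IPen (G : Matrix ι ι k₀) (P S R : Mor Y (Sp.univ (Sub K ι))) :
    Sp (A.prod (Sub K ι)) :=
  (Pen P S R).inter ⟨fun {L} y => Iso (gm G L) y.2, fun κ y => by
    rw [← gm_map G κ]
    exact iso_smap _⟩

lemma gm_symm (hs : Gᵀ = G) (L : Fld K) : (gm G L)ᵀ = gm G L := by
  rw [gm, ← transpose_map, hs]

lemma gm_alt (hs : Gᵀ = -G) (L : Fld K) : (gm G L)ᵀ = -gm G L := by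
  rw [gm, ← transpose_map, hs, Matrix.map_neg _ (map_neg _)]

theorem ck_hyp [NeZero (2 : k₀)] (hG : EForm G) (hs : Gᵀ = G) (P S R : Mor Y (Sp.univ (Sub K ι)))
    (h : ∀ (L : Fld K) (y : A.pt L), Y.mem y → Hy (gm G L) (P.s y) (S.s y) (R.s y)) (hY : CK Y) :
    CK (IPen G P S R) := by
  refine CK.of_bij (fst fun _ _ h => h.1.1) ?_ ?_ ?_ hY
  · rintro L ⟨y, D⟩ ⟨y', D'⟩ ⟨⟨hy, m⟩, i⟩ ⟨⟨-, m'⟩, i'⟩ e
    obtain rfl : y = y' := e
    have := neZero_two (k₀ := k₀) L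
    exact Prod.ext rfl ((h L y hy).uniq (gm_symm hs L) m m' i i')
  · rintro M O ⟨y, D⟩ hO ⟨⟨hy, m⟩, i⟩ hy'
    have := neZero_two (k₀ := k₀) O.res
    have h' := h _ _ hy'
    have e1 := s_red P hO hy hy'
    have e2 := s_red S hO hy hy'
    have e3 := s_red R hO hy hy'
    refine ⟨⟨hy', ?_⟩, (gm_red G O).iso i⟩
    show Mb (P.s (A.red O y)) (S.s (A.red O y)) (R.s (A.red O y)) (sred O D)
    rw [e1, e2, e3]
    refine (h M y hy).red (gm_red G O) (gm_symm hs M) ?_ m i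
    rw [← e1, ← e2, ← e3]
    exact h'
  · intro L _ y hy
    have := neZero_two (k₀ := k₀) L
    obtain ⟨D, m, i⟩ := (h L y hy).ex (hG.gm L) (gm_symm hs L)
    exact ⟨(y, D), ⟨⟨hy, m⟩, i⟩, rfl⟩

/-- The value of a map to flags. -/
abbrev fl (S : Mor Y (FlS K G n)) {L : Fld K} (y : A.pt L) : Flg L ι := S.f y

/-- A member of a family of flags. -/
def cmp (S : Mor Y (FlS K G n)) (i : ℕ) : Mor Y (Sp.univ (Sub K ι)) where
  f y := fl S y i
  mem _ _ := trivial
  nat {_ L'} κ y hy := congrArg (fun D : Flg L' ι => D i) (S.nat κ y hy)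
  cont O y hO hy hy' := congrArg (fun D : Flg O.res ι => D i) (S.cont O y hO hy hy')

/-- The orthogonal of a family of subspaces. -/
def prp (hG : EForm G) (P : Mor Y (Sp.univ (Sub K ι))) : Mor Y (Sp.univ (Sub K ι)) where
  f {L} y := perp (gm G L) (P.s y)
  mem _ _ := trivial
  nat κ y hy := by
    rw [s_nat P κ hy, ← gm_map G κ]
    exact (smap_perp _ _ _).symm
  cont O y hO hy hy' := by
    rw [s_red P hO hy hy']
    exact ((gm_red G O).perp (hG.gm _) (hG.gm _) _).symm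

/-- The composition of maps. -/
def comp {B C : Amb K} {Z : Sp B} {W : Sp C} (g : Mor Z W) (f : Mor Y Z) : Mor Y W where
  f y := g.f (f.f y)
  mem y hy := g.mem _ (f.mem y hy)
  nat κ y hy := by rw [f.nat κ y hy, g.nat κ _ (f.mem y hy)]
  cont O y hO hy hy' := by
    rw [f.cont O y hO hy hy', g.cont O _ hO (f.mem y hy)
      (f.cont O y hO hy hy' ▸ f.mem _ hy')]

lemma isFl_update {L : Type} [Field L] {G : Matrix ι ι L} {F : Flg L ι} (hF : IsFl G n F) {s : ℕ}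
    (h1 : 1 ≤ s) (hs : s ≤ n) {E : Submodule L (ι → L)} (e1 : F (s - 1) ≤ E)
    (e2 : s < n → E ≤ F (s + 1)) (e3 : finrank L E = s) (e4 : Iso G E) :
    IsFl G n (F.update s E) := by
  classical
  refine ⟨fun i hi => ?_, fun i hi => ?_, ?_, fun i hi => ?_⟩
  · rw [Finsupp.update_apply]
    by_cases h : i = s
    · rw [if_pos h, e3, h]
    · rw [if_neg h]
      exact hF.rank i hi
  · rw [Finsupp.update_apply, Finsupp.update_apply]
    split_ifs with h h' h'
    · omega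
    · subst h
      exact e2 hi
    · subst h'
      exact e1
    · exact hF.le i hi
  · rw [Finsupp.update_apply]
    split_ifs with h
    · exact e4
    · exact hF.iso
  · rw [Finsupp.update_apply, if_neg (by omega)]
    exact hF.out i hi

theorem ck_of_ipen (S : Mor Y (FlS K G n)) {s : ℕ} (h1 : 1 ≤ s) (hs : s ≤ n)
    (R : Mor Y (Sp.univ (Sub K ι)))
    (hR : ∀ (L : Fld K) (y : A.pt L), Y.mem y →
      R.s y = if s < n then fl S y (s + 1) else perp (gm G L) (fl S y (s - 1)))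
    (h : CK (IPen G (cmp S (s - 1)) (cmp S s) R)) : CK (FPen S s) := by
  classical
  refine CK.of_bij ⟨fun {L} y => (y.1, (show Flg L ι from y.2) s), ?_, fun _ _ _ => rfl,
    fun _ _ _ _ _ => rfl⟩ ?_ ?_ ?_ h
  · rintro L ⟨y, D⟩ ⟨hy, hD, ha, hne⟩
    have hF : IsFl (gm G L) n (fl S y) := S.mem y hy
    have a1 : fl S y (s - 1) = (show Flg L ι from D) (s - 1) := ha _ (by omega)
    refine ⟨⟨hy, ?_, ?_, ?_, hne⟩, hD.le_perp s s⟩
    · exact a1.le.trans (hD.mono (by omega) hs)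
    · show (show Flg L ι from D) s ≤ R.s y
      rw [hR L y hy]
      split_ifs with h
      · exact (hD.le s h).trans (ha (s + 1) (by omega)).ge
      · rw [a1]
        exact hD.le_perp _ _
    · show finrank L ((show Flg L ι from D) s) = finrank L (fl S y (s - 1)) + 1
      rw [hD.rank s hs, hF.rank _ (by omega)]
      omega
  · rintro L ⟨y, D⟩ ⟨y', D'⟩ ⟨-, -, ha, -⟩ ⟨-, -, ha', -⟩ e
    obtain rfl : y = y' := congrArg Prod.fst e
    refine Prod.ext rfl (Finsupp.ext fun i => ?_)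
    by_cases hi : i = s
    · rw [hi]
      exact congrArg Prod.snd e
    · exact (ha i hi).symm.trans (ha' i hi)
  · rintro M O ⟨y, D⟩ hO ⟨hy, hD, ha, -⟩ ⟨⟨hy', -, -, -, hne⟩, -⟩
    refine ⟨hy', (gm_red G O).isFl hD, ?_, hne⟩
    show Adj s (S.f (A.red O y)) (fred O D)
    rw [S.cont O y hO hy hy']
    exact ha.red O
  · rintro L _ ⟨y, E⟩ ⟨⟨hy, e1, e2, e3, e4⟩, e5⟩
    have hF : IsFl (gm G L) n (fl S y) := S.mem y hy
    have u : ((fl S y).update s E) s = E := by rw [Finsupp.update_apply, if_pos rfl]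
    refine ⟨(y, (fl S y).update s E), ⟨hy, isFl_update hF h1 hs e1 (fun h => ?_) ?_ e5,
      fun i hi => ?_, ?_⟩, Prod.ext rfl u⟩
    · have := hR L y hy
      rw [if_pos h] at this
      exact e2.trans this.le
    · refine e3.trans ?_
      show finrank L (fl S y (s - 1)) + 1 = s
      rw [hF.rank _ (by omega)]
      omega
    · exact (Finsupp.update_apply _ _ _ _).trans (if_neg hi) |>.symm
    · exact fun e => e4 (u.symm.trans e)

lemma iso_alt {L : Type} [Field L] [NeZero (2 : L)] {G : Matrix ι ι L} (hG : EForm G)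
    (ha : Gᵀ = -G) {P D : Submodule L (ι → L)} (hP : Iso G P) (h1 : P ≤ D) (h2 : D ≤ perp G P)
    (h3 : finrank L D = finrank L P + 1) : Iso G D := by
  obtain ⟨v, hv, hv'⟩ := exists_not_mem (P := P) (S := D) (by omega)
  rw [eq_sup h1 h3 hv hv']
  exact iso_sup_line hG hP (h2 hv) (bf_self_of_alt ha v)

lemma card_alt {L : Type} [Field L] [NeZero (2 : L)] {G : Matrix ι ι L} (hG : EForm G)
    (ha : Gᵀ = -G) {P : Submodule L (ι → L)} (hP : Iso G P)
    (h : Fintype.card ι = 2 * finrank L P + 1) : False := by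
  have h1 := hG.finrank_perp P
  have h2 := hG.iso_finrank (iso_alt hG ha hP hP le_rfl (by omega))
  omega

end PenA

theorem ck_fpen [NeZero (2 : k₀)] {G : Matrix ι ι k₀} (hG : EForm G) {n : ℕ}
    (hn : n = Fintype.card ι / 2) (S : Mor Y (FlS K G n)) {s : ℕ} (h1 : 1 ≤ s) (hs : s ≤ n)
    (hY : CK Y) : CK (FPen S s) := by
  have hF : ∀ (L : Fld K) (y : A.pt L), Y.mem y → IsFl (gm G L) n (fl S y) := fun _ y => S.mem y
  rcases hs.lt_or_eq with h | rfl
  · refine ck_of_ipen S h1 hs (cmp S (s + 1)) (fun _ _ _ => (if_pos h).symm)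
      ((ck_pen (cmp S (s - 1)) (cmp S s) (cmp S (s + 1)) (fun L y hy => ?_) hY).congr
        fun L y => ⟨fun m => ⟨m, ?_⟩, fun m => m.1⟩)
    · have f := hF L y hy
      refine ⟨f.mono (by omega) hs, f.le s h, ?_, ?_⟩
      · show finrank L (fl S y s) = finrank L (fl S y (s - 1)) + 1
        rw [f.rank _ hs, f.rank _ (by omega)]
        omega
      · show finrank L (fl S y (s + 1)) = finrank L (fl S y (s - 1)) + 2
        rw [f.rank _ h, f.rank _ (by omega)]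
        omega
    · exact Iso.mono ((hF L _ m.1).le_perp (s + 1) (s + 1)) m.2.2.1
  refine ck_of_ipen S h1 hs (prp hG (cmp S (s - 1))) (fun _ _ _ => (if_neg (lt_irrefl s)).symm) ?_
  have r0 : ∀ (L : Fld K) (y : A.pt L), Y.mem y → finrank L (fl S y (s - 1)) + 1 = s :=
    fun L y hy => by
      rw [(hF L y hy).rank _ (by omega)]
      omega
  have r1 : ∀ (L : Fld K) (y : A.pt L), Y.mem y → finrank L (fl S y s) = s :=
    fun L y hy => (hF L y hy).rank _ le_rfl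
  have ch : ∀ (L : Fld K) (y : A.pt L), Y.mem y → Fintype.card ι = 2 * s →
      Ch (fl S y (s - 1)) (fl S y s) (perp (gm G L) (fl S y (s - 1))) := fun L y hy hc => by
    have a := r0 L y hy
    have b := r1 L y hy
    have c := (hG.gm L).finrank_perp (fl S y (s - 1))
    exact ⟨(hF L y hy).mono (by omega) le_rfl, (hF L y hy).le_perp _ _, by omega, by omega⟩
  rcases hG.symm with hsy | ha
  swap
  · refine (ck_pen (cmp S (s - 1)) (cmp S s) (prp hG (cmp S (s - 1))) (fun L y hy => ?_) hY).congr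
      fun L y => ⟨fun m => ⟨m, ?_⟩, fun m => m.1⟩
    · have := neZero_two (k₀ := k₀) L
      refine ch L y hy ?_
      by_contra hc
      exact card_alt (hG.gm L) (gm_alt ha L) (hF L y hy).iso (by rw [r1 L y hy]; omega)
    · have := neZero_two (k₀ := k₀) L
      exact iso_alt (hG.gm L) (gm_alt ha L) ((hF L _ m.1).le_perp _ _) m.2.1 m.2.2.1 m.2.2.2.1
  by_cases hc : Fintype.card ι = 2 * s
  · refine ck_hyp hG hsy _ _ _ (fun L y hy => ⟨ch L y hy hc, (hF L y hy).iso, le_rfl, fun e => ?_⟩) hY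
    have a := finrank_mono (show perp (gm G L) (fl S y (s - 1)) ≤ perp (gm G L) (fl S y s) from e)
    have b := (hG.gm L).finrank_perp (fl S y (s - 1))
    have c := (hG.gm L).finrank_perp (fl S y s)
    have d := r0 L y hy
    have d' := r1 L y hy
    omega
  have hc' : Fintype.card ι = 2 * s + 1 := by omega
  have rp : ∀ (L : Fld K) (y : A.pt L), Y.mem y →
      finrank L (perp (gm G L) (fl S y s)) = s + 1 := fun L y hy => by
    have c := (hG.gm L).finrank_perp (fl S y s)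
    have d' := r1 L y hy
    omega
  have h2 : CK (Pen (cmp S s) (prp hG (cmp S s)) (prp hG (cmp S (s - 1)))) := by
    refine ck_pen _ _ _ (fun L y hy => ⟨(hF L y hy).iso,
      perp_anti _ ((hF L y hy).mono (by omega) le_rfl), ?_, ?_⟩) hY
    · exact (rp L y hy).trans (congrArg (· + 1) (r1 L y hy).symm)
    · have b := (hG.gm L).finrank_perp (fl S y (s - 1))
      have d := r0 L y hy
      have d' := r1 L y hy
      show finrank L (perp (gm G L) (fl S y (s - 1))) = finrank L (fl S y s) + 2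
      omega
  let p1 : Mor (Pen (cmp S s) (prp hG (cmp S s)) (prp hG (cmp S (s - 1)))) Y := fst fun _ _ h => h.1
  let p2 : Mor (Pen (cmp S s) (prp hG (cmp S s)) (prp hG (cmp S (s - 1)))) (Sp.univ (Sub K ι)) :=
    ⟨fun y => y.2, fun _ _ => trivial, fun _ _ _ => rfl, fun _ _ _ _ _ => rfl⟩
  have h3 : CK (IPen G (comp (cmp S (s - 1)) p1) (comp (cmp S s) p1) p2) := by
    refine ck_hyp hG hsy _ _ _ ?_ h2
    rintro L ⟨y, H⟩ ⟨hy, m1, m2, m3, m4⟩
    have d := r0 L y hy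
    have d' := r1 L y hy
    have m3' : finrank L (show Submodule L (ι → L) from H) = finrank L (fl S y s) + 1 := m3
    refine ⟨⟨(hF L y hy).mono (by omega) le_rfl, m1, d'.trans d.symm, ?_⟩, (hF L y hy).iso, m2,
      fun e => m4 (eq_of_le_of_finrank_le e ?_)⟩
    · show finrank L (show Submodule L (ι → L) from H) = finrank L (fl S y (s - 1)) + 2
      omega
    · exact ((rp L y hy).trans (by rw [m3', d'])).le
  have key : ∀ (L : Fld K) (y : A.pt L) (E H : Submodule L (ι → L)), Y.mem y →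
      finrank L E = finrank L (fl S y (s - 1)) + 1 → E ≠ fl S y s → Iso (gm G L) E → E ≤ H →
      H ≠ perp (gm G L) (fl S y s) := by
    rintro L y E _ hy e1 e2 e3 e4 rfl
    have a := (hG.gm L).iso_finrank (iso_sup (hG.gm L) (hF L y hy).iso e3 e4)
    obtain ⟨v, hv, hv'⟩ := exists_of_ne (e1.trans ((r0 L y hy).trans (r1 L y hy).symm)) e2
    have b := finrank_mono (show fl S y s ⊔ span L {v} ≤ fl S y s ⊔ E from
      sup_le_sup_left ((span_singleton_le_iff_mem _ _).2 hv) _)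
    rw [finrank_sup hv', r1 L y hy] at b
    omega
  refine CK.image (W := IPen G (comp (cmp S (s - 1)) p1) (comp (cmp S s) p1) p2)
    ⟨fun y => (y.1.1, y.2), ?_, fun _ _ _ => rfl, fun _ _ _ _ _ => rfl⟩ ?_ ?_ h3
  · rintro L ⟨⟨y, H⟩, E⟩ ⟨⟨⟨hy, m1, m2, -, -⟩, e1, e2, e3, e4⟩, e5⟩
    exact ⟨⟨hy, e1, le_trans e2 m2, e3, e4⟩, e5⟩
  · rintro M O ⟨⟨y, H⟩, E⟩ hO ⟨⟨⟨hy, m1, m2, m3, -⟩, -, e2, -, -⟩, -⟩ ⟨⟨hy', f1, -, f3, f4⟩, f5⟩
    have g : sred O E ≤ sred O H := sred_mono O e2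
    refine ⟨⟨⟨hy', ?_, ?_, ?_, key _ _ _ _ hy' f3 f4 f5 g⟩, f1, g, f3, f4⟩, f5⟩
    · exact (s_red (cmp S s) hO hy hy').le.trans (sred_mono O m1)
    · exact (sred_mono O m2).trans (s_red (prp hG (cmp S (s - 1))) hO hy hy').ge
    · show finrank O.res (sred O H) = finrank O.res ((cmp S s).s (A.red O y)) + 1
      rw [s_red (cmp S s) hO hy hy', finrank_sred, finrank_sred]
      exact m3
  · rintro L _ ⟨y, E⟩ ⟨⟨hy, e1, e2, e3, e4⟩, e5⟩
    obtain ⟨v, hv, hv'⟩ := exists_of_ne (e3.trans ((r0 L y hy).trans (r1 L y hy).symm)) e4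
    have e6 : (show Submodule L (ι → L) from E) ≤ fl S y s ⊔ span L {v} := by
      rw [eq_sup (P := fl S y (s - 1)) (S := E) e1 e3 hv
        fun e => hv' ((hF L y hy).mono (by omega) le_rfl e)]
      exact sup_le_sup_right ((hF L y hy).mono (by omega) le_rfl) _
    exact ⟨((y, (fl S y s ⊔ span L {v} : Submodule L (ι → L))), E), ⟨⟨⟨hy, le_sup_left,
      sup_le ((hF L y hy).le_perp _ _) ((span_singleton_le_iff_mem _ _).2 (e2 hv)),
      finrank_sup hv', key L y E _ hy e3 e4 e5 e6⟩, e1, e6, e3, e4⟩, e5⟩, rfl⟩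

end Pool.Agent.Lib.MP_557161_ag.DL
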