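import Pool.Agent.Lib.MP_557161_ag.DL.Spc
import Pool.Agent.Lib.MP_557161_ag.DL.CKL

/-!
Linear algebra of pencils of subspaces.
-/

set_option linter.unusedSectionVars false

namespace Pool.Agent.Lib.MP_557161_ag.DL

open Module Submodule Matrix

namespace PenA

section Aff

variable {K : Type} [Field K] {M : Fld K} {O : Pl M} {ι : Type} [Finite ι]

lemma red_int {x : ι → M} (h : IntV O x) : (Aff K ι).red O (some x) = some (rdV O x) := by
  classical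
  exact if_pos h

lemma red_not {x : ι → M} (h : ¬ IntV O x) : (Aff K ι).red O (some x) = none := by
  classical
  exact if_neg h

lemma red_eq {x : ι → M} {x' : ι → O.res} (h : (Aff K ι).red O (some x) = some x') :
    IntV O x ∧ x' = rdV O x := by
  by_cases hx : IntV O x
  · rw [red_int hx] at h
    exact ⟨hx, (Option.some.inj h).symm⟩
  · rw [red_not hx] at h
    exact nomatch h

lemma inv_of_not_mem {t : M} (h : t ∉ O.O) : t ≠ 0 ∧ t⁻¹ ∈ O.O ∧ O.rd t⁻¹ = 0 := by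
  have h1 : t⁻¹ ∈ O.O := (O.O.mem_or_inv_mem t).resolve_left h
  refine ⟨fun e => h (e ▸ zero_mem _), h1, ?_⟩
  by_contra h2
  have := ((O.rd_ne_zero_iff h1).1 h2).2
  rw [inv_inv] at this
  exact h this

lemma mem_of_mul {t u : M} (hu : u ∈ O.O) (h0 : O.rd u ≠ 0) (h : t * u ∈ O.O) : t ∈ O.O := by
  obtain ⟨h1, h2⟩ := (O.rd_ne_zero_iff hu).1 h0
  have := mul_mem h h2
  rwa [mul_assoc, mul_inv_cancel₀ h1, mul_one] at this

end Aff

section Lin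

variable {L : Type} [Field L] {ι : Type} [Fintype ι] {P S R D : Submodule L (ι → L)}
  {σ ρ σ' ρ' v : ι → L}

lemma finrank_sup (h : v ∉ P) : finrank L ↥(P ⊔ span L {v}) = finrank L P + 1 :=
  finrank_sup_line (finrank_span_singleton fun e => h (e ▸ zero_mem _))
    fun e => h ((span_singleton_le_iff_mem _ _).1 e)

lemma eq_sup (h : P ≤ S) (hr : finrank L S = finrank L P + 1) (h1 : v ∈ S) (h2 : v ∉ P) :
    S = P ⊔ span L {v} :=
  (eq_of_le_of_finrank_le (sup_le h ((span_singleton_le_iff_mem _ _).2 h1))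
    (by rw [hr, finrank_sup h2])).symm

lemma exists_not_mem (hr : finrank L P < finrank L S) : ∃ v ∈ S, v ∉ P := by
  by_contra H
  push Not at H
  exact absurd (finrank_mono (show S ≤ P from H)) (not_le.2 hr)

lemma exists_of_ne (hr : finrank L D = finrank L S) (h : D ≠ S) : ∃ v ∈ D, v ∉ S := by
  by_contra H
  push Not at H
  exact h (eq_of_le_of_finrank_le H hr.ge)

lemma decomp (h : P ≤ S) (hr : finrank L S = finrank L P + 1) (h1 : v ∈ S) (h2 : v ∉ P)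
    {x : ι → L} (hx : x ∈ S) : ∃ p ∈ P, ∃ a : L, x = p + a • v := by
  rw [eq_sup h hr h1 h2] at hx
  obtain ⟨p, hp, w, hw, rfl⟩ := mem_sup.1 hx
  obtain ⟨a, rfl⟩ := mem_span_singleton.1 hw
  exact ⟨p, hp, a, rfl⟩

lemma sup_congr {p w : ι → L} {c : L} (hp : p ∈ P) (hc : c ≠ 0) (e : w = p + c • v) :
    P ⊔ span L {w} = P ⊔ span L {v} := by
  refine le_antisymm (sup_le le_sup_left ((span_singleton_le_iff_mem _ _).2 ?_))
    (sup_le le_sup_left ((span_singleton_le_iff_mem _ _).2 ?_))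
  · rw [e]
    exact add_mem (mem_sup_left hp) (mem_sup_right (smul_mem _ _ (mem_span_singleton_self v)))
  · have : v = c⁻¹ • (w - p) := by rw [e, add_sub_cancel_left, smul_smul, inv_mul_cancel₀ hc, one_smul]
    rw [this]
    exact smul_mem _ _ (sub_mem (mem_sup_right (mem_span_singleton_self w)) (mem_sup_left hp))

/-- A chain of three subspaces. -/
def Ch (P S R : Submodule L (ι → L)) : Prop :=
  P ≤ S ∧ S ≤ R ∧ finrank L S = finrank L P + 1 ∧ finrank L R = finrank L P + 2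

/-- A frame of a chain. -/
def Fr (P S R : Submodule L (ι → L)) (σ ρ : ι → L) : Prop := σ ∈ S ∧ σ ∉ P ∧ ρ ∈ R ∧ ρ ∉ S

/-- The members of the pencil. -/
def Mb (P S R D : Submodule L (ι → L)) : Prop :=
  P ≤ D ∧ D ≤ R ∧ finrank L D = finrank L P + 1 ∧ D ≠ S

lemma Ch.ex (h : Ch P S R) : ∃ σ ρ, Fr P S R σ ρ := by
  obtain ⟨σ, h1, h2⟩ := exists_not_mem (P := P) (S := S) (by rw [h.2.2.1]; omega)
  obtain ⟨ρ, h3, h4⟩ := exists_not_mem (P := S) (S := R) (by rw [h.2.2.1, h.2.2.2]; omega)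
  exact ⟨σ, ρ, h1, h2, h3, h4⟩

lemma Fr.not_mem (f : Fr P S R σ ρ) (t : L) : ρ + t • σ ∉ S := fun h =>
  f.2.2.2 (by simpa using sub_mem h (smul_mem _ t f.1))

lemma Ch.mb (h : Ch P S R) (f : Fr P S R σ ρ) (t : L) : Mb P S R (P ⊔ span L {ρ + t • σ}) :=
  ⟨le_sup_left, sup_le (h.1.trans h.2.1) ((span_singleton_le_iff_mem _ _).2
    (add_mem f.2.2.1 (smul_mem _ _ (h.2.1 f.1)))), finrank_sup fun e => f.not_mem t (h.1 e),
    fun e => f.not_mem t (e ▸ mem_sup_right (mem_span_singleton_self _))⟩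

lemma Ch.dec (h : Ch P S R) (f : Fr P S R σ ρ) {x : ι → L} (hx : x ∈ R) (hx' : x ∉ S) :
    ∃ p ∈ P, ∃ a b : L, b ≠ 0 ∧ x = p + a • σ + b • ρ := by
  obtain ⟨s, hs, b, rfl⟩ := decomp h.2.1 (by rw [h.2.2.1, h.2.2.2]) f.2.2.1 f.2.2.2 hx
  obtain ⟨p, hp, a, rfl⟩ := decomp h.1 h.2.2.1 f.1 f.2.1 hs
  exact ⟨p, hp, a, b, fun e => hx' (by rw [e, zero_smul, add_zero]; exact hs), rfl⟩

lemma Ch.surj (h : Ch P S R) (f : Fr P S R σ ρ) (m : Mb P S R D) :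
    ∃ t : L, P ⊔ span L {ρ + t • σ} = D := by
  obtain ⟨x, hx, hx'⟩ := exists_of_ne (m.2.2.1.trans h.2.2.1.symm) m.2.2.2
  obtain ⟨p, hp, a, b, hb, e⟩ := h.dec f (m.2.1 hx) hx'
  refine ⟨a / b, ?_⟩
  rw [eq_sup m.1 m.2.2.1 hx fun e => hx' (h.1 e)]
  refine (sup_congr hp hb ?_).symm
  rw [e, smul_add, smul_smul, mul_div_cancel₀ _ hb]
  abel

lemma Ch.trans (h : Ch P S R) (f : Fr P S R σ ρ) (f' : Fr P S R σ' ρ') :
    ∃ a b : L, a ≠ 0 ∧ ∀ (L' : Type) [Field L'] (κ : L →+* L') (t : L'),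
      smap κ P ⊔ span L' {mapV κ ρ + t • mapV κ σ} =
        smap κ P ⊔ span L' {mapV κ ρ' + (κ a * t + κ b) • mapV κ σ'} := by
  obtain ⟨p, hp, a, e⟩ := decomp h.1 h.2.2.1 f'.1 f'.2.1 f.1
  obtain ⟨p', hp', d, c, hc, e'⟩ := h.dec f' f.2.2.1 f.2.2.2
  have ha : a ≠ 0 := fun e0 => f.2.1 (by rw [e, e0, zero_smul, add_zero]; exact hp)
  refine ⟨a / c, d / c, div_ne_zero ha hc, fun L' _ κ t => ?_⟩
  have hc' : κ c ≠ 0 := (map_ne_zero κ).2 hc
  refine sup_congr (p := mapV κ p' + t • mapV κ p) (c := κ c)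
    (add_mem (mapV_mem κ hp') (smul_mem _ _ (mapV_mem κ hp))) hc' ?_
  rw [e, e', smul_add (κ c), smul_smul, map_div₀, map_div₀, mul_add, ← mul_assoc,
    mul_div_cancel₀ _ hc', mul_div_cancel₀ _ hc']
  simp only [mapV_add, mapV_smul]
  module

lemma Fr.map {L' : Type} [Field L'] (κ : L →+* L') (f : Fr P S R σ ρ) :
    Fr (smap κ P) (smap κ S) (smap κ R) (mapV κ σ) (mapV κ ρ) :=
  ⟨mapV_mem κ f.1, mt (mapV_mem_iff κ).1 f.2.1, mapV_mem κ f.2.2.1, mt (mapV_mem_iff κ).1 f.2.2.2⟩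

lemma Ch.sup_eq (h : Ch P S R) (m : Mb P S R D) : S ⊔ D = R := by
  obtain ⟨x, hx, hx'⟩ := exists_of_ne (m.2.2.1.trans h.2.2.1.symm) m.2.2.2
  refine le_antisymm (sup_le h.2.1 m.2.1) ?_
  rw [eq_sup h.2.1 (by rw [h.2.2.1, h.2.2.2]) (m.2.1 hx) hx']
  exact sup_le le_sup_left ((span_singleton_le_iff_mem _ _).2 (mem_sup_right hx))

variable {G : Matrix ι ι L}

lemma iso_sup (hG : EForm G) (hS : Iso G S) (hD : Iso G D) (h : D ≤ perp G S) : Iso G (S ⊔ D) := by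
  rw [Iso, perp_sup]
  exact sup_le (le_inf hS (hG.le_perp_comm.1 h)) (le_inf h hD)

lemma iso_line (h : bf G v v = 0) : Iso G (span L {v}) :=
  (span_singleton_le_iff_mem _ _).2 (mem_perp_span.2 h)

lemma iso_sup_line (hG : EForm G) (hP : Iso G P) (hv : v ∈ perp G P) (h : bf G v v = 0) :
    Iso G (P ⊔ span L {v}) :=
  iso_sup hG hP (iso_line h) ((span_singleton_le_iff_mem _ _).2 hv)

lemma bf_pen (hs : Gᵀ = G) (h0 : bf G σ σ = 0) (t : L) :
    bf G (ρ + t • σ) (ρ + t • σ) = bf G ρ ρ + t * (2 * bf G σ ρ) := by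
  simp only [bf_add_left, bf_add_right, bf_smul_left, bf_smul_right, h0, bf_symm hs ρ σ]
  ring

/-- A chain whose quotient is a hyperbolic plane. -/
def Hy (G : Matrix ι ι L) (P S R : Submodule L (ι → L)) : Prop :=
  Ch P S R ∧ Iso G S ∧ R ≤ perp G P ∧ ¬ R ≤ perp G S

lemma Hy.ne (h : Hy G P S R) (f : Fr P S R σ ρ) : bf G σ ρ ≠ 0 := fun h0 => h.2.2.2 (by
  rw [eq_sup h.1.2.1 (by rw [h.1.2.2.1, h.1.2.2.2]) f.2.2.1 f.2.2.2]
  refine sup_le h.2.1 ((span_singleton_le_iff_mem _ _).2 ?_)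
  rw [eq_sup h.1.1 h.1.2.2.1 f.1 f.2.1, perp_sup]
  exact ⟨h.2.2.1 f.2.2.1, mem_perp_span.2 h0⟩)

lemma Hy.eqn (hs : Gᵀ = G) (h : Hy G P S R) (f : Fr P S R σ ρ) {t : L}
    (hi : Iso G (P ⊔ span L {ρ + t • σ})) : bf G ρ ρ + t * (2 * bf G σ ρ) = 0 := by
  rw [← bf_pen hs (h.2.1 f.1 σ f.1)]
  exact hi (mem_sup_right (mem_span_singleton_self _)) _ (mem_sup_right (mem_span_singleton_self _))

lemma Hy.uniq [NeZero (2 : L)] (hs : Gᵀ = G) (h : Hy G P S R) {D' : Submodule L (ι → L)}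
    (m : Mb P S R D) (m' : Mb P S R D') (i : Iso G D) (i' : Iso G D') : D = D' := by
  obtain ⟨σ, ρ, f⟩ := h.1.ex
  obtain ⟨t, rfl⟩ := h.1.surj f m
  obtain ⟨t', rfl⟩ := h.1.surj f m'
  rw [mul_right_cancel₀ (mul_ne_zero two_ne_zero (h.ne f))
    (add_left_cancel ((h.eqn hs f i).trans (h.eqn hs f i').symm))]

lemma Hy.ex [NeZero (2 : L)] (hG : EForm G) (hs : Gᵀ = G) (h : Hy G P S R) :
    ∃ D, Mb P S R D ∧ Iso G D := by
  obtain ⟨σ, ρ, f⟩ := h.1.ex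
  have m := h.1.mb f (-bf G ρ ρ / (2 * bf G σ ρ))
  refine ⟨_, m, iso_sup_line hG (h.2.1.mono h.1.1)
    (h.2.2.1 (m.2.1 (mem_sup_right (mem_span_singleton_self _)))) ?_⟩
  rw [bf_pen hs (h.2.1 f.1 σ f.1), div_mul_cancel₀ _ (mul_ne_zero two_ne_zero (h.ne f)),
    add_neg_cancel]

end Lin

section Red

variable {K : Type} [Field K] {M : Fld K} {O : Pl M} {ι : Type} [Fintype ι]
  {P S R D : Submodule M (ι → M)} {σ ρ : ι → M}

lemma Ch.red (h : Ch P S R) (O : Pl M) : Ch (sred O P) (sred O S) (sred O R) :=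
  ⟨sred_mono O h.1, sred_mono O h.2.1, by simpa using h.2.2.1, by simpa using h.2.2.2⟩

lemma Ch.int (h : Ch P S R) (O : Pl M) : ∃ σ ρ, IntV O σ ∧ IntV O ρ ∧ Fr P S R σ ρ ∧
    Fr (sred O P) (sred O S) (sred O R) (rdV O σ) (rdV O ρ) := by
  obtain ⟨_, _, f⟩ := (h.red O).ex
  obtain ⟨σ, h1, i1, rfl⟩ := f.1
  obtain ⟨ρ, h2, i2, rfl⟩ := f.2.2.1
  exact ⟨σ, ρ, i1, i2, ⟨h1, fun e => f.2.1 (rdV_mem e i1), h2, fun e => f.2.2.2 (rdV_mem e i2)⟩, f⟩

lemma Ch.red_mem (h : Ch P S R) (i1 : IntV O σ) (i2 : IntV O ρ) (f : Fr P S R σ ρ)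
    (f' : Fr (sred O P) (sred O S) (sred O R) (rdV O σ) (rdV O ρ)) {t : M} (ht : t ∈ O.O) :
    sred O (P ⊔ span M {ρ + t • σ}) = sred O P ⊔ span O.res {rdV O ρ + O.rd t • rdV O σ} := by
  refine (eq_of_le_of_finrank_le (sup_le (sred_mono O le_sup_left)
    ((span_singleton_le_iff_mem _ _).2 ?_)) ?_).symm
  · rw [← rdV_smul ht i1, ← rdV_add i2 (IntV.smul ht i1)]
    exact rdV_mem (mem_sup_right (mem_span_singleton_self _)) (i2.add (IntV.smul ht i1))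
  · rw [finrank_sred, (h.mb f t).2.2.1, ((h.red O).mb f' _).2.2.1, finrank_sred]

lemma Ch.red_not (h : Ch P S R) (i1 : IntV O σ) (i2 : IntV O ρ) (f : Fr P S R σ ρ)
    (f' : Fr (sred O P) (sred O S) (sred O R) (rdV O σ) (rdV O ρ)) {t : M} (ht : t ∉ O.O) :
    sred O (P ⊔ span M {ρ + t • σ}) = sred O S := by
  obtain ⟨h0, h1, h2⟩ := inv_of_not_mem ht
  refine (eq_of_le_of_finrank_le ?_ ?_).symm
  · rw [eq_sup (h.red O).1 (h.red O).2.2.1 f'.1 f'.2.1]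
    refine sup_le (sred_mono O le_sup_left) ((span_singleton_le_iff_mem _ _).2 ?_)
    have e : t⁻¹ • (ρ + t • σ) = t⁻¹ • ρ + σ := by
      rw [smul_add, smul_smul, inv_mul_cancel₀ h0, one_smul]
    refine ⟨t⁻¹ • (ρ + t • σ), smul_mem _ _ (mem_sup_right (mem_span_singleton_self _)), ?_, ?_⟩
    · rw [e]
      exact (IntV.smul h1 i2).add i1
    · rw [e, rdV_add (IntV.smul h1 i2) i1, rdV_smul h1 i2, h2, zero_smul, zero_add]
  · rw [finrank_sred, finrank_sred, (h.mb f t).2.2.1, h.2.2.1]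

lemma Hy.red [NeZero (2 : O.res)] {G : Matrix ι ι M} {G' : Matrix ι ι O.res} (hG : MRed O G G')
    (hs : Gᵀ = G) (h : Hy G P S R) (h' : Hy G' (sred O P) (sred O S) (sred O R))
    (m : Mb P S R D) (i : Iso G D) : Mb (sred O P) (sred O S) (sred O R) (sred O D) := by
  obtain ⟨σ, ρ, i1, i2, f, f'⟩ := h.1.int O
  obtain ⟨t, rfl⟩ := h.1.surj f m
  have e := h.eqn hs f i
  obtain ⟨b1, b2⟩ := hG.bf i1 i2
  have ht : t ∈ O.O := by
    refine mem_of_mul (add_mem b1 b1) ?_ ?_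
    · rw [O.rd_add b1 b1, b2, ← two_mul]
      exact mul_ne_zero two_ne_zero (h'.ne f')
    · rw [← two_mul, eq_neg_of_add_eq_zero_right e]
      exact neg_mem (hG.bf i2 i2).1
  rw [h.1.red_mem i1 i2 f f' ht]
  exact h'.1.mb f' _

end Red

end PenA

end Pool.Agent.Lib.MP_557161_ag.DL
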