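import Pool.Agent.Lib.MP_60ec62_ag.DF.Stm3

/-!
Generalised eigenvectors, and descent of the cycles to the finite field (the linear algebra of
`Pool.Agent.Lib.MP_60ec62_ag.DF.Real2`, repeated here to keep the imports small).
-/

noncomputable section

namespace Pool.Agent.Lib.MP_557161_ag.DL.RlA

open Polynomial Pool.Agent.Lib.MP_60ec62_ag.DL

variable {α E V : Type} [Field E] [AddCommGroup V] [Module E V] {p : ℕ} {S : Set α} {τ : α → α}
  {Fr : Module.End E V} {cl : α → V} {cd : α → ℕ}

lemma iter (hS : ∀ P ∈ S, τ P ∈ S) (h : Stm.Compat p S τ Fr cl cd) (j : ℕ) {P : α} (hP : P ∈ S) :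
    τ^[j] P ∈ S ∧ cd (τ^[j] P) = cd P ∧ (Fr ^ j) (cl (τ^[j] P)) = (p : E) ^ (j * cd P) • cl P := by
  induction j with
  | zero => simpa using hP
  | succ j ih =>
    obtain ⟨h1, h2, h3⟩ := ih
    rw [Function.iterate_succ_apply']
    refine ⟨hS _ h1, (h _ h1).1.trans h2, ?_⟩
    rw [pow_succ, Module.End.mul_apply, (h _ h1).2, map_smul, h3, h2, smul_smul, ← pow_add]
    congr 2
    ring

lemma eigen (hS : ∀ P ∈ S, τ P ∈ S) (h : Stm.Compat p S τ Fr cl cd) (m i : ℕ) {v : V}
    (hv : v ∈ Submodule.span E (Stm.InvCl {P ∈ S | cd P = i} τ^[m] cl)) :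
    (Fr ^ m) v = (p : E) ^ (m * i) • v := by
  induction hv using Submodule.span_induction with
  | mem v hv =>
    obtain ⟨c, h1, h2, rfl⟩ := hv
    conv_lhs => rw [← h2, Finsupp.sum_mapDomain_index (h := fun P (r : ℤ) => r • cl P)
      (fun _ => zero_smul _ _) fun _ _ _ => add_smul _ _ _]
    rw [Finsupp.sum, Finsupp.sum, map_sum, Finset.smul_sum]
    refine Finset.sum_congr rfl fun P hP => ?_
    rw [map_zsmul, (iter hS h m (h1 hP).1).2.2, (h1 hP).2, smul_comm]
  | zero => simp
  | add u v _ _ hu hv => rw [map_add, hu, hv, smul_add]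
  | smul a v _ hv => rw [map_smul, hv, smul_comm]

lemma aeval_eigen {G : Module.End E V} {a : E} {v : V} (h : G v = a • v) (f : E[X]) :
    aeval G f v = f.eval a • v := by
  induction f using Polynomial.induction_on' with
  | add f g hf hg => rw [map_add, LinearMap.add_apply, hf, hg, eval_add, add_smul]
  | monomial n c =>
    have : (G ^ n) v = a ^ n • v := by
      induction n with
      | zero => simp
      | succ n ih => rw [pow_succ', Module.End.mul_apply, ih, map_smul, h, smul_smul, pow_succ]
    rw [aeval_monomial, Module.End.mul_apply, Module.algebraMap_end_apply, this, eval_monomial,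
      smul_smul]

variable [CharZero E]

/-- Every class is carried into the span of the invariant classes by a polynomial that does not
vanish at the eigenvalue. -/
lemma carry (hp : 1 < p) (hS : ∀ P ∈ S, τ P ∈ S) (hper : ∀ P, ∃ N, 0 < N ∧ τ^[N] P = P)
    (h : Stm.Compat p S τ Fr cl cd) {m : ℕ} (hm : 0 < m) (i : ℕ) {v : V}
    (hv : v ∈ Submodule.span E (cl '' S)) : ∃ u : E[X], u.eval ((p : E) ^ (m * i)) ≠ 0 ∧
      aeval (Fr ^ m) u v ∈ Submodule.span E (Stm.InvCl {P ∈ S | cd P = i} τ^[m] cl) := by
  have hp0 : (p : E) ≠ 0 := Nat.cast_ne_zero.2 (by omega)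
  have st : ∀ (u : E[X]), ∀ w ∈ Submodule.span E (Stm.InvCl {P ∈ S | cd P = i} τ^[m] cl),
      aeval (Fr ^ m) u w ∈ Submodule.span E (Stm.InvCl {P ∈ S | cd P = i} τ^[m] cl) :=
    fun u w hw => by rw [aeval_eigen (eigen hS h m i hw)]; exact Submodule.smul_mem _ _ hw
  induction hv using Submodule.span_induction with
  | mem v hv =>
    obtain ⟨P, hP, rfl⟩ := hv
    obtain ⟨N, hN, hNP⟩ := hper P
    have h1 : ∀ j, τ^[N * j] P = P := fun j => by
      rw [Function.iterate_mul]; exact Function.iterate_fixed hNP j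
    by_cases hc : cd P = i
    · refine ⟨∑ j ∈ Finset.range N, C (((p : E) ^ (m * i))⁻¹ ^ (j + 1)) * X ^ (j + 1), ?_, ?_⟩
      · simp only [eval_finsetSum, eval_mul, eval_C, eval_pow, eval_X, ← mul_pow,
          inv_mul_cancel₀ (pow_ne_zero _ hp0), one_pow, Finset.sum_const, Finset.card_range,
          nsmul_eq_mul, mul_one]
        exact Nat.cast_ne_zero.2 hN.ne'
      · refine Submodule.subset_span ⟨∑ j ∈ Finset.range N, Finsupp.single (τ^[m * j] P) 1,
          fun Q hQ => ?_, ?_, ?_⟩
        · classical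
          obtain ⟨j, -, hj⟩ := Finset.mem_biUnion.1 (Finsupp.support_finsetSum hQ)
          rw [Finset.mem_singleton.1 (Finsupp.support_single_subset hj)]
          exact ⟨(iter hS h _ hP).1, (iter hS h _ hP).2.1.trans hc⟩
        · have e := Finset.sum_range_succ (fun j => Finsupp.single (τ^[m * j] P) (1 : ℤ)) N
          rw [Finset.sum_range_succ', mul_comm m N, h1] at e
          rw [Finsupp.mapDomain_finsetSum]
          refine Eq.trans (Finset.sum_congr rfl fun j _ => ?_) (add_right_cancel e)
          rw [Finsupp.mapDomain_single, ← Function.iterate_add_apply, mul_add, mul_one, add_comm]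
        · rw [← Finsupp.sum_finsetSum_index (h := fun P (r : ℤ) => r • cl P)
            (fun _ => zero_smul _ _) fun _ _ _ => add_smul _ _ _, map_sum, LinearMap.sum_apply, ← Finset.sum_range_reflect]
          refine Finset.sum_congr rfl fun j hj => ?_
          have hj' := Finset.mem_range.1 hj
          have e : P = τ^[m * (N - 1 - j + 1)] (τ^[m * j] P) := by
            rw [← Function.iterate_add_apply, ← mul_add, show N - 1 - j + 1 + j = N by omega,
              mul_comm, h1]
          have h2 := iter hS h (m * j) hP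
          have h3 := (iter hS h (m * (N - 1 - j + 1)) h2.1).2.2
          rw [← e, h2.2.1, hc] at h3
          rw [Finsupp.sum_single_index (h := fun P (r : ℤ) => r • cl P) (zero_smul _ _), one_smul,
            map_mul, aeval_C, aeval_X_pow,
            Module.End.mul_apply, Module.algebraMap_end_apply, ← pow_mul, h3, smul_smul,
            mul_right_comm, pow_mul _ (m * i), ← mul_pow, inv_mul_cancel₀ (pow_ne_zero _ hp0),
            one_pow, one_smul]
    · refine ⟨X ^ N - C ((p : E) ^ (m * N * cd P)), ?_, ?_⟩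
      · rw [eval_sub, eval_pow, eval_X, eval_C, sub_ne_zero, ← pow_mul]
        intro e
        have e1 : p ^ (m * i * N) = p ^ (m * N * cd P) := by exact_mod_cast e
        have e2 := Nat.pow_right_injective hp e1
        rw [mul_right_comm] at e2
        exact hc (Nat.eq_of_mul_eq_mul_left (Nat.mul_pos hm hN) e2).symm
      · have h3 := (iter hS h (m * N) hP).2.2
        rw [mul_comm m N, h1, mul_comm N m] at h3
        rw [map_sub, aeval_X_pow, aeval_C, LinearMap.sub_apply, Module.algebraMap_end_apply,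
          ← pow_mul, h3, sub_self]
        exact Submodule.zero_mem _
  | zero => exact ⟨1, by simp, by simp⟩
  | add v w _ _ hv hw =>
    obtain ⟨a, ha, hv⟩ := hv
    obtain ⟨b, hb, hw⟩ := hw
    refine ⟨a * b, by rw [eval_mul]; exact mul_ne_zero ha hb, ?_⟩
    rw [map_add]
    refine add_mem ?_ ?_
    · rw [mul_comm, map_mul, Module.End.mul_apply]; exact st _ _ hv
    · rw [map_mul, Module.End.mul_apply]; exact st _ _ hw
  | smul c v _ hv =>
    obtain ⟨a, ha, hv⟩ := hv
    exact ⟨a, ha, by rw [map_smul]; exact Submodule.smul_mem _ _ hv⟩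

lemma alg (hp : 1 < p) (hS : ∀ P ∈ S, τ P ∈ S) (hper : ∀ P, ∃ N, 0 < N ∧ τ^[N] P = P)
    (h : Stm.Compat p S τ Fr cl cd) (f : E[X])
    (hf : ∀ m, 0 < m → ∀ i, IsCoprime f (X ^ m - C ((p : E) ^ (m * i))))
    (hF : ∀ y, aeval Fr f y ∈ Submodule.span E (cl '' S)) : Stm.Alg p S τ Fr cl cd := by
  intro m i k hm x hx
  have e : (Fr ^ m - (p : E) ^ (m * i) • 1) = aeval Fr (X ^ m - C ((p : E) ^ (m * i))) := by
    rw [map_sub, aeval_X_pow, aeval_C, Algebra.algebraMap_eq_smul_one]
  have e' : (Fr ^ m - (p : E) ^ (m * i) • 1) = aeval (Fr ^ m) (X - C ((p : E) ^ (m * i))) := by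
    rw [map_sub, aeval_X, aeval_C, Algebra.algebraMap_eq_smul_one]
  have h1 : x ∈ Submodule.span E (cl '' S) := by
    obtain ⟨u, v, huv⟩ := (hf m hm i).pow_right (n := k)
    have h4 := congrArg (fun g => aeval Fr g x) huv
    simp only [map_one, Module.End.one_apply] at h4
    rw [mul_comm u, map_add, map_mul, map_mul, LinearMap.add_apply, Module.End.mul_apply,
      Module.End.mul_apply, map_pow, ← e, hx, map_zero, add_zero] at h4
    rw [← h4]
    exact hF _
  obtain ⟨u, hu, hx'⟩ := carry hp hS hper h hm i h1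
  have hc : IsCoprime u (X - C ((p : E) ^ (m * i))) :=
    ((irreducible_X_sub_C _).coprime_iff_not_dvd.2 fun hd => hu (dvd_iff_isRoot.1 hd)).symm
  obtain ⟨a, b, hab⟩ := hc.pow_right (n := k)
  have h4 := congrArg (fun g => aeval (Fr ^ m) g x) hab
  simp only [map_one, Module.End.one_apply] at h4
  rw [map_add, map_mul, map_mul, LinearMap.add_apply, Module.End.mul_apply,
    Module.End.mul_apply, map_pow, ← e', hx, map_zero, add_zero,
    aeval_eigen (eigen hS h m i hx')] at h4
  rw [← h4]
  exact Submodule.smul_mem _ _ hx'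

end Pool.Agent.Lib.MP_557161_ag.DL.RlA
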