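import Pool.Agent.Lib.MP_557161_ag.DL.Comp
import Pool.Agent.Lib.MP_557161_ag.DL.Defs3
import Pool.Agent.Lib.MP_557161_ag.DL.RlA

/-!
If the Chow groups of the square are generated by products, the Tate classes of every realisation
are algebraic.
-/

namespace Pool.Agent.Lib.MP_557161_ag.DL.Rl

open MvPolynomial Pool.Agent.Lib.MP_60ec62_ag.DL

variable {K : Type} [Field K] {σ : Type}

lemma diag_hom (P : PrimeSpectrum (MvPolynomial σ K)) (hP : Homog P.asIdeal) :
    WHomog (w2 σ σ) (diag P).asIdeal := by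
  have h := TwoD.wHomog_comap (TwoD.pG K σ 1) (TwoD.pG_inj 1)
    (TwoD.wHomog_map (TwoD.pS K σ) (wHomog_iff_homog.2 hP))
  have e1 : (aeval (R := K) (Sum.elim
      (fun s => Polynomial.X * Polynomial.C (Ideal.Quotient.mk P.asIdeal (X s)))
      fun s => Polynomial.C (Ideal.Quotient.mk P.asIdeal (X s))) :
        MvPolynomial (σ ⊕ σ) K →ₐ[K] Polynomial (MvPolynomial σ K ⧸ P.asIdeal)) =
      (Polynomial.mapAlgHom (Ideal.Quotient.mkₐ K P.asIdeal)).comp
      ((optionEquivLeft K σ).toAlgHom.comp (TwoD.pG K σ 1).φ) := by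
    ext s : 1
    rcases s with s | s <;> simp [TwoD.pG, optionEquivLeft_X_some, optionEquivLeft_X_none]
  have e2 : (Polynomial.C : MvPolynomial σ K →+* _) = (optionEquivLeft K σ : _ →+* _).comp
      ((TwoD.pS K σ).φ : MvPolynomial σ K →+* MvPolynomial (Option σ) K) := by
    refine MvPolynomial.ringHom_ext (fun r => ?_) fun s => ?_
    · simp [optionEquivLeft_C]
    · simp [TwoD.pS, optionEquivLeft_X_some]
  convert h using 1
  ext f
  rw [diag, Stm.kerP, RingHom.mem_ker, e1, Ideal.mem_comap]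
  show (optionEquivLeft K σ ((TwoD.pG K σ 1).φ f)) ∈
    RingHom.ker (Polynomial.mapRingHom (Ideal.Quotient.mk P.asIdeal)) ↔ _
  rw [Polynomial.ker_mapRingHom, Ideal.mk_ker, e2, ← Ideal.map_map]
  exact Ideal.apply_mem_of_equiv_iff (f := (optionEquivLeft K σ).toRingEquiv)

lemma le_diag (P : PrimeSpectrum (MvPolynomial σ K)) (hP : Homog P.asIdeal) :
    bx P.asIdeal P.asIdeal ≤ (diag P).asIdeal := by
  have e : (aeval fun s => Polynomial.C (Ideal.Quotient.mk P.asIdeal (X s)) :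
      MvPolynomial σ K →ₐ[K] _) = Polynomial.CAlgHom.comp (Ideal.Quotient.mkₐ K P.asIdeal) := by
    ext s : 1; simp
  refine sup_le (Ideal.map_le_iff_le_comap.2 ((wHomog_iff_homog.2 hP).le_span.trans
    (Ideal.span_le.2 ?_))) (Ideal.map_le_iff_le_comap.2 fun g hg => ?_)
  · rintro g ⟨hg, n, hn⟩
    show aeval _ (rename Sum.inl g) = 0
    rw [aeval_rename, Sum.elim_comp_inl]
    refine (TwoD.aeval_scale Polynomial.X
      (fun s => Polynomial.C (Ideal.Quotient.mk P.asIdeal (X s))) hn).trans ?_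
    rw [e]
    simp [Ideal.Quotient.eq_zero_iff_mem.2 hg]
  · show aeval _ (rename Sum.inr g) = 0
    rw [aeval_rename, Sum.elim_comp_inr, e]
    simp [Ideal.Quotient.eq_zero_iff_mem.2 hg]

lemma diag_mem {J : Ideal (MvPolynomial σ K)} {P : PrimeSpectrum (MvPolynomial σ K)}
    (hP : P ∈ Sub J) : diag P ∈ Sq J := by
  obtain ⟨h1, h2, s, h3⟩ := hP
  refine ⟨diag_hom P h1, (sup_le_sup (Ideal.map_mono h2) (Ideal.map_mono h2)).trans
    (le_diag P h1), s, s, fun h => ?_⟩
  have h4 : Ideal.Quotient.mk P.asIdeal (X s) ≠ 0 := fun e =>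
    h3 (Ideal.Quotient.eq_zero_iff_mem.1 e)
  have h5 : aeval (R := K) (Sum.elim
      (fun s => Polynomial.X * Polynomial.C (Ideal.Quotient.mk P.asIdeal (X s)))
      fun s => Polynomial.C (Ideal.Quotient.mk P.asIdeal (X s)))
      (X (Sum.inl s) * X (Sum.inr s) : MvPolynomial (σ ⊕ σ) K) = 0 := h
  simp [h4] at h5

variable [Finite σ]

lemma finite_min {J : Ideal (MvPolynomial σ K)} (hJ : Homog J) :
    {P | Minimal (· ∈ Sub J) P}.Finite := by
  refine ((J.finite_minimalPrimes_of_isNoetherianRing _).preimage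
    (f := PrimeSpectrum.asIdeal) fun _ _ _ _ h => PrimeSpectrum.ext h).subset fun P hP => ?_
  obtain ⟨h1, h2, s, h3⟩ := hP.1
  obtain ⟨Q, hQ, h4⟩ := Ideal.exists_minimalPrimes_le h2
  have h5 : P ≤ ⟨Q, hQ.1.1⟩ :=
    hP.2 (y := ⟨Q, hQ.1.1⟩) ⟨Comp.homog_min hJ hQ, hQ.1.2, s, fun e => h3 (h4 e)⟩ h4
  show P.asIdeal ∈ J.minimalPrimes
  rwa [le_antisymm h5 h4]

lemma ord_eq {J : Ideal (MvPolynomial σ K)} {w z : PrimeSpectrum (MvPolynomial (σ ⊕ σ) K)}
    (hz : z ∈ Sq J) {f : MvPolynomial (σ ⊕ σ) K} (hf : f ∉ w.asIdeal) :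
    dv K w f z = ord J w z f := by
  by_cases hc : w ⋖ z
  · have hd : dm K w = dm K z + 1 := ((hD K).2.1 _ w z).1 hc
    rw [ord, if_pos ⟨hz, hc⟩, dv, if_neg hf, ((hC K).1 _).1, if_pos (by omega), Res.lenAt_quot]
  · rw [ord, if_neg fun h => hc h.2, Nat.cast_zero]
    by_contra h0
    obtain ⟨h1, -, -, h2⟩ := dv_supp h0
    refine hc ⟨h1, fun c h3 h4 => ?_⟩
    have h5 := dm_lt (K := K) h3
    have h6 := dm_lt (K := K) h4
    omega

section Act

variable {E V : Type} [Field E] [CharZero E] [AddCommGroup V] [Module E V]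

open Classical in
/-- The action of the cycles on the square. -/
noncomputable def A (J : Ideal (MvPolynomial σ K))
    (act : PrimeSpectrum (MvPolynomial (σ ⊕ σ) K) → Module.End E V) :
    Cyc (MvPolynomial (σ ⊕ σ) K) →+ Module.End E V :=
  Finsupp.liftAddHom fun Z => ((smulAddHom E _).flip (if Z ∈ Sq J then act Z else 0)).comp
    (Rat.castHom E).toAddMonoidHom

variable {J : Ideal (MvPolynomial σ K)}
  {act : PrimeSpectrum (MvPolynomial (σ ⊕ σ) K) → Module.End E V}

omit [Finite σ] in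
open Classical in
lemma A_apply (c : Cyc (MvPolynomial (σ ⊕ σ) K)) :
    A J act c = c.sum fun Z r => (r : E) • if Z ∈ Sq J then act Z else 0 := rfl

omit [Finite σ] in
lemma A_smul (r : ℚ) (c : Cyc (MvPolynomial (σ ⊕ σ) K)) :
    A J act (r • c) = (r : E) • A J act c := by
  rw [A_apply, A_apply, Finsupp.sum_smul_index' fun _ => by simp, Finsupp.smul_sum]
  exact Finsupp.sum_congr fun Z _ => by rw [smul_eq_mul, Rat.cast_mul, mul_smul]

lemma A_dv {w : PrimeSpectrum (MvPolynomial (σ ⊕ σ) K)} {f : MvPolynomial (σ ⊕ σ) K}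
    (hf : f ∉ w.asIdeal) : A J act (dv K w f) = ∑ᶠ z, ord J w z f • act z := by
  rw [A_apply, Finsupp.sum, finsum_eq_sum_of_support_subset (s := (dv K w f).support)]
  · refine Finset.sum_congr rfl fun z _ => ?_
    by_cases hz : z ∈ Sq J
    · rw [if_pos hz, ord_eq hz hf, Rat.cast_natCast, Nat.cast_smul_eq_nsmul]
    · rw [if_neg hz, ord, if_neg fun h => hz h.1, zero_smul, smul_zero]
  · intro z hz
    by_cases hz' : z ∈ Sq J
    · refine Finsupp.mem_support_iff.2 fun e => hz ?_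
      rw [ord_eq hz' hf, Nat.cast_eq_zero] at e
      show _ • _ = _
      rw [e, zero_smul]
    · refine (hz ?_).elim
      show _ • _ = _
      rw [ord, if_neg fun h => hz' h.1, zero_smul]

lemma A_irr {w : PrimeSpectrum (MvPolynomial (σ ⊕ σ) K)} (hw : E2 K σ σ ⊆ w.asIdeal)
    {c : Cyc (MvPolynomial (σ ⊕ σ) K)} (hc : ∀ z, c z ≠ 0 → w ≤ z) : A J act c = 0 := by
  rw [A_apply]
  refine Finset.sum_eq_zero fun z hz => ?_
  beta_reduce
  rw [if_neg, smul_zero]
  rintro ⟨-, -, s, t, h⟩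
  exact h (hc z (Finsupp.mem_support_iff.1 hz) (hw ⟨s, t, rfl⟩))

variable [Base K]

lemma A_rat (h : Kills J act) {c : Cyc (MvPolynomial (σ ⊕ σ) K)} (hc : c ∈ RatB J) :
    A J act c = 0 := by
  rw [RatB, ← Submodule.span_union] at hc
  induction hc using Submodule.span_induction with
  | mem c hc =>
    rcases hc with ⟨z, f, g, γ, k1, k2, k3, k4, k5, k6, rfl⟩ | ⟨z, hz, rfl⟩
    · by_cases hz : E2 K σ σ ⊆ z.asIdeal
      · rw [map_sub, A_irr hz fun _ e => (dv_supp e).1.le, A_irr hz fun _ e => (dv_supp e).1.le,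
          sub_zero]
      · obtain ⟨_, ⟨s, t, rfl⟩, hst⟩ := Set.not_subset.1 hz
        rw [map_sub, A_dv k5, A_dv k6, h z ⟨k1, k2, s, t, hst⟩ γ f g k3 k4 k5 k6, sub_self]
    · exact A_irr hz fun z' e => (Finsupp.mem_support_single _ _ _).1
        (Finsupp.mem_support_iff.2 e) |>.1.ge
  | zero => exact map_zero _
  | add a b _ _ ha hb => rw [map_add, ha, hb, add_zero]
  | smul r a _ ha => rw [A_smul, ha, smul_zero]

lemma A_prod {cl : PrimeSpectrum (MvPolynomial σ K) → V}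
    (h : ∀ a ∈ Sub J, ∀ b ∈ Sub J, ∀ Z, Z.asIdeal = box a.asIdeal b.asIdeal →
      ∀ x, ∃ c : E, act Z x = c • cl b) {δ : ℕ}
    {c : Cyc (MvPolynomial (σ ⊕ σ) K)} (hc : c ∈ ProdB J δ) (x : V) :
    A J act c x ∈ Submodule.span E (cl '' Sub J) := by
  induction hc using Submodule.span_induction with
  | mem c hc =>
    obtain ⟨a, b, k1, k2, k3, k4, -, rfl⟩ := hc
    rw [A_apply, Finsupp.sum_single_index (by simp), Rat.cast_one, one_smul]
    split_ifs with hZ
    · obtain ⟨-, -, s, t, hst⟩ := hZ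
      have hb : b ∈ Sub J := ⟨k2, k4, t, fun e => hst (Ideal.mul_mem_left _ _
        (Ideal.mem_sup_right (by simpa using Ideal.mem_map_of_mem (rename Sum.inr) e)))⟩
      obtain ⟨d, hd⟩ := h a ⟨k1, k3, s, fun e => hst (Ideal.mul_mem_right _ _
        (Ideal.mem_sup_left (by simpa using Ideal.mem_map_of_mem (rename Sum.inl) e)))⟩ b hb
        (bxP a b) rfl x
      rw [hd]
      exact Submodule.smul_mem _ _ (Submodule.subset_span ⟨b, hb, rfl⟩)
    · exact Submodule.zero_mem _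
  | zero => simp
  | add a b _ _ ha hb => rw [map_add]; exact add_mem ha hb
  | smul r a _ ha => rw [A_smul]; exact Submodule.smul_mem _ _ ha

end Act

omit [Finite σ] in
lemma tw_iter (q N : ℕ) (P : PrimeSpectrum (MvPolynomial σ K)) :
    (Stm.tw q)^[N] P = cm (expand (q ^ N)) P := by
  induction N with
  | zero => exact PrimeSpectrum.ext (Ideal.ext fun f => by simp)
  | succ N ih =>
    rw [Function.iterate_succ_apply', ih]
    refine PrimeSpectrum.ext (Ideal.ext fun f => ?_)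
    rw [mem_cm, pow_succ, expand_mul]
    rfl

theorem tate {k : Type} [Field k] [Finite k] {I : Ideal (MvPolynomial σ k)} (hI : Homog I)
    (hV : Van (XS (upI I) hI.upI) (XS (upI I) hI.upI)) : Tate (Nat.card k) (upI I) := by
  intro E V _ _ _ _ Fr cl cd act h₁ h₂ h₃ h₄
  have := T0.fbar k
  have := Fintype.ofFinite k
  obtain ⟨e, -, hq⟩ := FiniteField.card k (ringChar k)
  have h1 : 1 < Nat.card k := Finite.one_lt_card
  refine RlA.alg h1 (fun P hP => ?_) (fun P => ?_) h₄ 1 (fun _ _ _ => isCoprime_one_left)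
    fun y => ?_
  · obtain ⟨k1, k2, s, k3⟩ := hP
    refine ⟨TwoD.wHomog_comap (frobPb _ (w1 σ) (Nat.card k)) (fun a b hab => ?_) k1, ?_, s,
      fun h => k3 ?_⟩
    · exact Nat.eq_of_mul_eq_mul_left (by omega) hab
    · have h2 := (T0.defOver_up (K := AlgebraicClosure k) I 1).map_le (by
        rw [pow_one]; exact Fintype.card_pos)
      rw [pow_one, ← Nat.card_eq_fintype_card] at h2
      exact Ideal.map_le_iff_le_comap.1 (h2.trans k2)
    · have h2 : expand (Nat.card k) (X s) ∈ P.asIdeal := h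
      rw [expand_X] at h2
      exact P.isPrime.mem_of_pow_mem _ h2
  · obtain ⟨m, hm, h⟩ := exists_defOver (p := ringChar k) P.asIdeal
    refine ⟨m, hm, ?_⟩
    rw [tw_iter, Nat.card_eq_fintype_card, hq, ← pow_mul]
    exact (h _ (Dvd.intro_left _ rfl)).cm_eq (pow_pos (FBar.prime (K := AlgebraicClosure k)).pos _)
  · have hfin := finite_min hI.upI
    rw [map_one, ← h₃, finsum_mem_eq_finite_toFinset_sum _ hfin, LinearMap.sum_apply]
    refine Submodule.sum_mem _ fun P hP => ?_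
    have hd := diag_mem (hfin.mem_toFinset.1 hP).1
    obtain ⟨c₁, k1, c₂, k2, e⟩ := Submodule.mem_sup.1 (bridge hI.upI hV _ hd.1 hd.2.1)
    have k3 := congrArg (A (upI I) act) e
    rw [map_add, A_rat h₁ k1, zero_add, A_apply (Finsupp.single _ _),
      Finsupp.sum_single_index (by simp), Rat.cast_one, one_smul, if_pos hd] at k3
    rw [← k3]
    exact A_prod h₂ k2 y

end Pool.Agent.Lib.MP_557161_ag.DL.Rl
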