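import Pool.Agent.Lib.MP_557161_ag.DL.GeoA

/-!
The spaces of the inductive proof.
-/

namespace Pool.Agent.Lib.MP_557161_ag.DL

open Module Submodule Matrix

variable {k₀ : Type} [Field k₀] [Fintype k₀] {K : Type} [Field K] [Algebra k₀ K]
  {ι ι₂ : Type} [Fintype ι] [Fintype ι₂]

/-- A space of subspaces given by a predicate. -/
def Sp.sub (p : ∀ L : Fld K, Submodule L (ι → L) → Prop)
    (h : ∀ {L L' : Fld K} (κ : L →ₐ[K] L') (E : Submodule L (ι → L)),
      p L' (smap κ.toRingHom E) ↔ p L E) : Sp (Sub K ι) := ⟨fun {L} E => p L E, h⟩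

lemma smap_frH {L L' : Fld K} (κ : L →ₐ[K] L') (E : Submodule L (ι → L)) :
    smap (frH k₀ L') (smap κ.toRingHom E) = smap κ.toRingHom (smap (frH k₀ L) E) := by
  rw [← smap_comp, ← smap_comp]
  congr 1
  exact RingHom.ext fun x => (map_frH κ x).symm

lemma fmap_frH {L L' : Fld K} (κ : L →ₐ[K] L') (D : Flg L ι) :
    fmap (frH k₀ L') (fmap κ.toRingHom D) = fmap κ.toRingHom (fmap (frH k₀ L) D) :=
  Finsupp.ext fun _ => smap_frH κ _

omit [Fintype ι] in
lemma mapV_frH {L L' : Fld K} (κ : L →ₐ[K] L') (x : ι → L) :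
    mapV (frH k₀ L') (mapV κ.toRingHom x) = mapV κ.toRingHom (mapV (frH k₀ L) x) :=
  funext fun _ => (map_frH κ _).symm

lemma smap_trf {L L' : Type} [Field L] [Field L'] (κ : L →+* L') (Λ : Submodule L (ι ⊕ ι₂ → L))
    (E : Submodule L (ι₂ → L)) : smap κ (trf Λ E) = trf (smap κ Λ) (smap κ E) := by
  rw [trf, smap_map_funLeft, smap_inf, smap_comap_funLeft, trf]

lemma goodL_smap {L L' : Type} [Field L] [Field L'] (κ : L →+* L') {G : Matrix ι ι L}
    {G₂ : Matrix ι₂ ι₂ L} {b : ℕ} {Λ : Submodule L (ι ⊕ ι₂ → L)} :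
    GoodL (G.map κ) (G₂.map κ) b (smap κ Λ) ↔ GoodL G G₂ b Λ := by
  rw [GoodL, GoodL, ← dsum_map, lag_smap, ← smap_bot κ, ← smap_trf, finrank_smap]

variable (K) in
/-- Subspaces of a rational subspace. -/
def inS (U : Submodule k₀ (ι → k₀)) : Sp (Sub K ι) :=
  Sp.sub (fun L E => E ≤ ext L U) fun κ E => by rw [← smap_ext κ, smap_le_iff]

variable (K) in
/-- Lines in `U` that are orthogonal to their first `m` Frobenius images. -/
def PS (G : Matrix ι ι k₀) (U : Submodule k₀ (ι → k₀)) (m : ℕ) : Sp (Sub K ι) :=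
  Sp.sub (fun L ℓ => finrank L ℓ = 1 ∧ ℓ ≤ ext L U ∧ Asp (frH k₀ L) ℓ m ≤ perp (gm G L) ℓ)
    fun κ ℓ => by
      rw [finrank_smap, ← smap_ext κ, smap_le_iff, ← smap_asp _ (map_frH κ), ← gm_map G κ,
        ← smap_perp, smap_le_iff]

/-- The Lang map. -/
noncomputable def lang (k₀ : Type) [Field k₀] [Fintype k₀] [Algebra k₀ K] {L : Fld K} (y : ι → L) :
    ι → L := mapV (frH k₀ L) y - y

omit [Fintype ι] in
lemma lang_mapV {L L' : Fld K} (κ : L →ₐ[K] L') (y : ι → L) :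
    lang k₀ (mapV κ.toRingHom y) = mapV κ.toRingHom (lang k₀ y) := by
  rw [lang, lang, mapV_frH, mapV_sub]

/-- A space of vectors given by a predicate. -/
def Sp.aff (p : ∀ L : Fld K, (ι → L) → Prop)
    (h : ∀ {L L' : Fld K} (κ : L →ₐ[K] L') (x : ι → L), p L' (mapV κ.toRingHom x) ↔ p L x) :
    Sp (Aff K ι) where
  mem {L} y := ∃ x, y = some x ∧ p L x
  map_iff κ y := by
    cases y with
    | none => exact ⟨fun ⟨_, e, _⟩ => (nomatch e), fun ⟨_, e, _⟩ => nomatch e⟩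
    | some x =>
      exact ⟨fun ⟨_, e, hx⟩ => ⟨x, rfl, (h κ x).1 (by obtain rfl := Option.some.inj e; exact hx)⟩,
        fun ⟨_, e, hx⟩ => ⟨_, rfl, (h κ x).2 (by obtain rfl := Option.some.inj e; exact hx)⟩⟩

/-- The preimage under the Lang map of the cone over a set of lines. -/
def LP (U : Submodule k₀ (ι → k₀)) (P : Sp (Sub K ι)) : Sp (Aff K ι) :=
  Sp.aff (fun L y => y ∈ ext L U ∧ (lang k₀ y = 0 ∨ P.mem (L := L) (span L {lang k₀ y})))
    fun κ y => by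
      rw [← smap_ext κ, mapV_mem_iff, lang_mapV, mapV_eq_zero, ← smap_single]
      exact and_congr Iff.rfl (or_congr Iff.rfl (P.map_iff κ _))

variable (K) in
/-- Lagrangian subspaces that meet their Frobenius image in codimension at most one. -/
def HP (G : Matrix ι ι k₀) : Sp (Sub K ι) :=
  Sp.sub (fun L Λ => Lag (gm G L) Λ ∧ finrank L Λ ≤ finrank L ↥(Λ ⊓ smap (frH k₀ L) Λ) + 1)
    fun κ Λ => by rw [← gm_map G κ, lag_smap, smap_frH, ← smap_inf, finrank_smap, finrank_smap]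

variable (k₀ K ι) in
/-- Subspaces that contain no rational vector. -/
def NoRat : Sp (Sub K ι) :=
  Sp.sub (fun L Λ => Jc (frH k₀ L) Λ (finrank L Λ) = ⊥)
    fun κ Λ => by rw [finrank_smap, ← smap_jc _ (map_frH κ), smap_eq_bot]

variable (K) in
/-- Complete isotropic flags. -/
def FlS (G : Matrix ι ι k₀) (n : ℕ) : Sp (Fl K ι) where
  mem {L} D := IsFl (gm G L) n D
  map_iff κ _ := by rw [← gm_map G κ]; exact isFl_fmap _

variable (K) in
/-- The Deligne-Lusztig variety of the word `u`. -/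
def XC (G : Matrix ι ι k₀) (n : ℕ) (u : List ℕ) : Sp ((Fl K ι).prod (Fl K ι).list) where
  mem {L} y := IsFl (gm G L) n y.1 ∧ Path (gm G L) n u y.1 y.2 (fmap (frH k₀ L) y.1)
  map_iff κ y := by
    rw [← gm_map G κ]
    refine and_congr (isFl_fmap _) (Iff.trans ?_ (path_fmap κ.toRingHom))
    rw [← fmap_frH]; rfl

variable (K) in
/-- The variety of the word `u` preceded by a minimal coset representative. -/
def YS (G : Matrix ι ι k₀) (n : ℕ) (τ : Bool) (b : ℕ) (u : List ℕ) :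
    Sp ((Fl K ι).prod ((Fl K ι).prod (Fl K ι).list)) where
  mem {L} y := IsFl (gm G L) n y.1 ∧ IsFl (gm G L) n y.2.1 ∧ Rel (gm G L) n τ b y.1 y.2.1 ∧
    Path (gm G L) n u y.2.1 y.2.2 (fmap (frH k₀ L) y.1)
  map_iff κ y := by
    rw [← gm_map G κ]
    refine and_congr (isFl_fmap _) (and_congr (isFl_fmap _) (and_congr (rel_fmap _)
      (Iff.trans ?_ (path_fmap κ.toRingHom))))
    rw [← fmap_frH]; rfl

/-- The position of a line relative to the Frobenius image of its span. -/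
def PosT {L : Type} [Field L] (G : Matrix ι ι L) (φ : L →+* L) :
    Bool → ℕ → Submodule L (ι → L) → Prop
  | true, b, ℓ => ℓ ≤ smap φ (Asp φ ℓ b)
  | false, b, ℓ => ¬ smap φ (Asp φ ℓ b) ≤ perp G ℓ

/-- A line with a Lagrangian correspondence that is compatible with Frobenius. -/
structure IsT {L : Type} [Field L] (G : Matrix ι ι L) (G₂ : Matrix ι₂ ι₂ L) (φ : L →+* L)
    (τ : Bool) (b : ℕ) (ℓ : Submodule L (ι → L)) (Λ : Submodule L (ι ⊕ ι₂ → L)) : Prop where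
  line : finrank L ℓ = 1
  good : GoodL G G₂ b Λ
  asp : Asp φ ℓ b = trf Λ ⊥
  adapt : smap φ Λ ⊓ cyl ι₂ (perp G ℓ) ≤ Λ
  pos : PosT G φ τ b ℓ

lemma isT_smap {G : Matrix ι ι k₀} {G₂ : Matrix ι₂ ι₂ k₀} {L L' : Fld K} (κ : L →ₐ[K] L')
    {τ : Bool} {b : ℕ} {ℓ : Submodule L (ι → L)} {Λ : Submodule L (ι ⊕ ι₂ → L)} :
    IsT (gm G L') (gm G₂ L') (frH k₀ L') τ b (smap κ.toRingHom ℓ) (smap κ.toRingHom Λ) ↔
      IsT (gm G L) (gm G₂ L) (frH k₀ L) τ b ℓ Λ := by
  have h1 := finrank_smap κ.toRingHom ℓ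
  have h2 : GoodL (gm G L') (gm G₂ L') b (smap κ.toRingHom Λ) ↔ GoodL (gm G L) (gm G₂ L) b Λ := by
    rw [← gm_map G κ, ← gm_map G₂ κ, goodL_smap]
  have h3 : Asp (frH k₀ L') (smap κ.toRingHom ℓ) b = trf (smap κ.toRingHom Λ) ⊥ ↔
      Asp (frH k₀ L) ℓ b = trf Λ ⊥ := by
    rw [← smap_asp _ (map_frH κ), ← smap_bot κ.toRingHom, ← smap_trf, (smap_inj _).eq_iff]
  have h4 : smap (frH k₀ L') (smap κ.toRingHom Λ) ⊓ cyl ι₂ (perp (gm G L') (smap κ.toRingHom ℓ)) ≤
      smap κ.toRingHom Λ ↔ smap (frH k₀ L) Λ ⊓ cyl ι₂ (perp (gm G L) ℓ) ≤ Λ := by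
    rw [smap_frH, ← gm_map G κ, ← smap_perp, ← smap_cyl, ← smap_inf, smap_le_iff]
  have h5 : PosT (gm G L') (frH k₀ L') τ b (smap κ.toRingHom ℓ) ↔
      PosT (gm G L) (frH k₀ L) τ b ℓ := by
    cases τ <;> simp only [PosT]
    · rw [← smap_asp _ (map_frH κ), smap_frH, ← gm_map G κ, ← smap_perp, smap_le_iff]
    · rw [← smap_asp _ (map_frH κ), smap_frH, smap_le_iff]
  exact ⟨fun h => ⟨h1 ▸ h.1, h2.1 h.2, h3.1 h.3, h4.1 h.4, h5.1 h.5⟩,
    fun h => ⟨h1 ▸ h.1, h2.2 h.2, h3.2 h.3, h4.2 h.4, h5.2 h.5⟩⟩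

variable (K) in
/-- The torsor that trivialises the terminal varieties. -/
def TS (G : Matrix ι ι k₀) (G₂ : Matrix ι₂ ι₂ k₀) (τ : Bool) (b : ℕ) :
    Sp ((Sub K ι).prod (Sub K (ι ⊕ ι₂))) where
  mem {L} y := IsT (gm G L) (gm G₂ L) (frH k₀ L) τ b y.1 y.2
  map_iff κ _ := isT_smap κ

section Pen

variable {A : Amb K} {Y : Sp A}

/-- The value of a map to subspaces. -/
abbrev Mor.s (P : Mor Y (Sp.univ (Sub K ι))) {L : Fld K} (y : A.pt L) : Submodule L (ι → L) := P.f y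

/-- A space over `Y`. -/
def Sp.over (Y : Sp A) {B : Amb K} (p : ∀ L : Fld K, A.pt L → B.pt L → Prop)
    (h : ∀ {L L' : Fld K} (κ : L →ₐ[K] L') (y : A.pt L) (z : B.pt L), Y.mem y →
      (p L' (A.map κ y) (B.map κ z) ↔ p L y z)) : Sp (A.prod B) where
  mem {L} y := Y.mem y.1 ∧ p L y.1 y.2
  map_iff κ y := (and_congr_left' (Y.map_iff κ y.1)).trans (and_congr_right (h κ y.1 y.2))

/-- A pencil of subspaces with one member removed. -/
noncomputable def Pen (P S R : Mor Y (Sp.univ (Sub K ι))) : Sp (A.prod (Sub K ι)) :=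
  Y.over (fun L y (D : Submodule L (ι → L)) =>
      P.s y ≤ D ∧ D ≤ R.s y ∧ finrank L D = finrank L (P.s y) + 1 ∧ D ≠ S.s y)
    fun {L L'} κ y (D : Submodule L (ι → L)) hy => by
      have e : ∀ Q : Mor Y (Sp.univ (Sub K ι)), Q.s (A.map κ y) = smap κ.toRingHom (Q.s y) :=
        fun Q => Q.nat κ y hy
      show P.s _ ≤ smap κ.toRingHom D ∧ smap κ.toRingHom D ≤ _ ∧
        finrank L' (smap κ.toRingHom D) = _ ∧ smap κ.toRingHom D ≠ _ ↔ _
      rw [e, e, e, smap_le_iff, smap_le_iff, finrank_smap, finrank_smap, (smap_inj _).ne_iff]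

/-- The total space of a family of subspaces. -/
noncomputable def Tot (P : Mor Y (Sp.univ (Sub K ι))) : Sp (A.prod (Aff K ι)) :=
  Y.over (fun L y (v : Option (ι → L)) => ∃ x, v = some x ∧ x ∈ P.s y)
    fun {L L'} κ y (v : Option (ι → L)) hy => by
      have e : P.s (A.map κ y) = smap κ.toRingHom (P.s y) := P.nat κ y hy
      rw [e]
      cases v with
      | none => exact ⟨fun ⟨_, e, _⟩ => (nomatch e), fun ⟨_, e, _⟩ => nomatch e⟩
      | some x =>
        exact ⟨fun ⟨_, e, hx⟩ => ⟨x, rfl, (mapV_mem_iff κ.toRingHom).1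
            (by obtain rfl := Option.some.inj e; exact hx)⟩,
          fun ⟨_, e, hx⟩ => ⟨_, rfl, mapV_mem κ.toRingHom
            (by obtain rfl := Option.some.inj e; exact hx)⟩⟩

/-- The flags adjacent to a given flag and different from it. -/
noncomputable def FPen {G : Matrix ι ι k₀} {n : ℕ} (S : Mor Y (FlS K G n)) (s : ℕ) : Sp (A.prod (Fl K ι)) :=
  Y.over (fun L y (D : Flg L ι) => IsFl (gm G L) n D ∧ Adj s (S.f y) D ∧
      D s ≠ (show Flg L ι from S.f y) s)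
    fun {L L'} κ y (D : Flg L ι) hy => by
      have e : S.f (A.map κ y) = fmap κ.toRingHom (S.f y) := S.nat κ y hy
      rw [e, ← gm_map G κ]
      exact and_congr (isFl_fmap _) (and_congr (adj_fmap _) (smap_inj κ.toRingHom).ne_iff)

end Pen

end Pool.Agent.Lib.MP_557161_ag.DL
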