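import Pool.Agent.Lib.MP_557161_ag.DL.TwoD

/-!
Extension of the base field: subspaces, ideals, resolutions and Euler characteristics.
-/

namespace Pool.Agent.Lib.MP_557161_ag.DL.T0

open MvPolynomial Filter Matrix Module

section Ext

/-- A vector space over `K` with a `k`-structure, given by coordinate maps. -/
structure BC (k K V₀ V : Type) [Field k] [Field K] [Algebra k K] [AddCommGroup V₀] [Module k V₀]
    [AddCommGroup V] [Module K V] where
  ι : V₀ →+ V
  co : (K →ₗ[k] k) → V →+ V₀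
  ι_smul : ∀ (a : k) u, ι (a • u) = algebraMap k K a • ι u
  co_ι : ∀ φ c u, co φ (c • ι u) = φ c • u
  span : ∀ v, v ∈ Submodule.span K (Set.range ι)

variable {k K V₀ V : Type} [Field k] [Field K] [Algebra k K] [AddCommGroup V₀] [Module k V₀]
  [AddCommGroup V] [Module K V] (B : BC k K V₀ V)

lemma BC.recon {J : Type} (b : Basis J k K) (v : V) :
    ∃ T : Finset J, v = ∑ j ∈ T, b j • B.ι (B.co (b.coord j) v) := by
  classical
  have key : ∀ c : K, ∃ T₀ : Finset J, ∀ T, T₀ ⊆ T →
      c • v = ∑ j ∈ T, b j • B.ι (B.co (b.coord j) (c • v)) := by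
    induction B.span v using Submodule.span_induction with
    | mem x hx =>
      obtain ⟨u, rfl⟩ := hx
      intro c
      refine ⟨(b.repr c).support, fun T hT => ?_⟩
      simp only [B.co_ι, B.ι_smul, smul_smul, ← Finset.sum_smul]
      congr 1
      conv_lhs => rw [← b.linearCombination_repr c, Finsupp.linearCombination_apply,
        Finsupp.sum_of_support_subset _ hT _ (by simp)]
      refine Finset.sum_congr rfl fun j _ => ?_
      rw [Basis.coord_apply, Algebra.smul_def, mul_comm]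
    | zero => exact fun c => ⟨∅, fun T _ => by simp⟩
    | add x y _ _ hx hy =>
      intro c
      obtain ⟨T₁, h₁⟩ := hx c
      obtain ⟨T₂, h₂⟩ := hy c
      refine ⟨T₁ ∪ T₂, fun T hT => ?_⟩
      simp only [smul_add, map_add, Finset.sum_add_distrib]
      rw [← h₁ T (Finset.subset_union_left.trans hT), ← h₂ T (Finset.subset_union_right.trans hT)]
    | smul a x _ hx =>
      intro c
      simpa only [smul_smul] using hx (c * a)
  obtain ⟨T, hT⟩ := key 1
  exact ⟨T, by simpa only [one_smul] using hT T le_rfl⟩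

lemma BC.mem_span (U : Submodule k V₀) (v : V) :
    v ∈ Submodule.span K (B.ι '' U) ↔ ∀ φ, B.co φ v ∈ U := by
  constructor
  · intro h φ
    have key : ∀ c : K, B.co φ (c • v) ∈ U := by
      induction h using Submodule.span_induction with
      | mem x hx =>
        obtain ⟨u, hu, rfl⟩ := hx
        intro c
        rw [B.co_ι]
        exact U.smul_mem _ hu
      | zero => intro c; simp
      | add x y _ _ hx hy =>
        intro c
        rw [smul_add, map_add]
        exact U.add_mem (hx c) (hy c)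
      | smul a x _ hx =>
        intro c
        rw [smul_smul]
        exact hx _
    simpa only [one_smul] using key 1
  · intro h
    obtain ⟨T, hT⟩ := B.recon (Basis.ofVectorSpace k K) v
    rw [hT]
    exact Submodule.sum_mem _ fun j _ =>
      Submodule.smul_mem _ _ (Submodule.subset_span ⟨_, h _, rfl⟩)

lemma BC.finrank_eq (U : Submodule k V₀) [FiniteDimensional k U] (U' : Submodule K V)
    (h : ∀ v, v ∈ U' ↔ ∀ φ, B.co φ v ∈ U) : finrank K U' = finrank k U := by
  let b := finBasis k U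
  have li : LinearIndependent K fun i => B.ι (b i) := by
    rw [Fintype.linearIndependent_iff]
    intro g hg i
    refine (Module.forall_dual_apply_eq_zero_iff k (g i)).1 fun φ => ?_
    have h1 := congrArg (B.co φ) hg
    simp only [map_sum, B.co_ι, map_zero] at h1
    refine Fintype.linearIndependent_iff.1 b.linearIndependent (fun i => φ (g i)) ?_ i
    apply Subtype.ext
    simpa using h1
  have e : U' = Submodule.span K (Set.range fun i => B.ι (b i)) := by
    apply le_antisymm
    · intro v hv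
      refine Submodule.span_le.2 ?_ ((B.mem_span U v).2 ((h v).1 hv))
      rintro _ ⟨u, hu, rfl⟩
      have h1 : u = ∑ i, b.repr ⟨u, hu⟩ i • (b i : V₀) := by
        have := congrArg U.subtype (b.sum_repr ⟨u, hu⟩)
        rw [map_sum] at this
        exact this.symm
      rw [h1, map_sum]
      refine Submodule.sum_mem _ fun i _ => ?_
      rw [B.ι_smul]
      exact Submodule.smul_mem _ _ (Submodule.subset_span ⟨i, rfl⟩)
    · rw [Submodule.span_le]
      rintro _ ⟨i, rfl⟩
      refine (h _).2 fun φ => ?_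
      have := B.co_ι φ 1 (b i)
      rw [one_smul] at this
      rw [this]
      exact U.smul_mem _ (b i).2
  rw [e, finrank_span_eq_card li, Fintype.card_fin]

/-- Vectors with entries in a space with a `k`-structure. -/
noncomputable def BC.pi (β : Type) [Fintype β] : BC k K (β → V₀) (β → V) where
  ι := B.ι.compLeft β
  co φ := (B.co φ).compLeft β
  ι_smul a u := funext fun b => B.ι_smul a (u b)
  co_ι φ c u := funext fun b => B.co_ι φ c (u b)
  span v := by
    classical
    rw [← Finset.univ_sum_single v]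
    refine Submodule.sum_mem _ fun b _ => ?_
    generalize v b = y
    induction B.span y using Submodule.span_induction with
    | mem x hx =>
      obtain ⟨u, rfl⟩ := hx
      refine Submodule.subset_span ⟨Pi.single b u, funext fun b' => ?_⟩
      by_cases e : b' = b
      · subst e; simp
      · simp [e]
    | zero => simp
    | add x y _ _ hx hy => rw [Pi.single_add]; exact Submodule.add_mem _ hx hy
    | smul a x _ hx => rw [Pi.single_smul]; exact Submodule.smul_mem _ _ hx

end Ext

section Poly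

variable {k : Type} [Field k] {σ : Type} (K : Type) [Field K] [Algebra k K]

/-- The extension of coefficients. -/
noncomputable abbrev up : MvPolynomial σ k →+* MvPolynomial σ K :=
  MvPolynomial.map (algebraMap k K)

variable {K}

/-- A linear form applied to the coefficients. -/
noncomputable def co (φ : K →ₗ[k] k) : MvPolynomial σ K →+ MvPolynomial σ k where
  toFun f := AddMonoidAlgebra.map φ.toAddMonoidHom f
  map_zero' := by ext m; exact map_zero φ
  map_add' f g := by ext m; exact map_add φ _ _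

lemma coeff_co (φ : K →ₗ[k] k) (f : MvPolynomial σ K) (m : σ →₀ ℕ) :
    coeff m (co φ f) = φ (coeff m f) := rfl

lemma co_mul (φ : K →ₗ[k] k) (g : MvPolynomial σ k) (f : MvPolynomial σ K) :
    co φ (up K g * f) = g * co φ f := by
  classical
  ext m
  rw [coeff_co, coeff_mul, coeff_mul, map_sum]
  refine Finset.sum_congr rfl fun x _ => ?_
  rw [coeff_map, coeff_co, ← Algebra.smul_def, map_smul, smul_eq_mul]

variable (k σ K) in
/-- The `k`-structure of the polynomial ring. -/
noncomputable def bcP : BC k K (MvPolynomial σ k) (MvPolynomial σ K) where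
  ι := (up K).toAddMonoidHom
  co := co
  ι_smul a u := by
    ext m
    simp [coeff_map, Algebra.smul_def]
  co_ι φ c u := by
    ext m
    show φ (coeff m (c • up K u)) = coeff m (φ c • u)
    rw [coeff_smul, coeff_smul, coeff_map, smul_eq_mul, mul_comm, ← Algebra.smul_def, map_smul,
      smul_eq_mul, smul_eq_mul, mul_comm]
  span v := by
    rw [v.as_sum]
    refine Submodule.sum_mem _ fun m _ => ?_
    have : (monomial m (coeff m v) : MvPolynomial σ K) = coeff m v • up K (monomial m (1 : k)) := by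
      rw [map_monomial, map_one, smul_monomial, smul_eq_mul, mul_one]
    rw [this]
    exact Submodule.smul_mem _ _ (Submodule.subset_span ⟨_, rfl⟩)

lemma mem_up (J : Ideal (MvPolynomial σ k)) (f : MvPolynomial σ K) :
    f ∈ J.map (up K) ↔ ∀ φ : K →ₗ[k] k, co φ f ∈ J := by
  constructor
  · intro h φ
    have key : ∀ s, co φ (s * f) ∈ J := by
      induction h using Submodule.span_induction with
      | mem x hx =>
        obtain ⟨g, hg, rfl⟩ := hx
        intro s
        rw [mul_comm, co_mul]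
        exact J.mul_mem_right _ hg
      | zero => intro s; simp
      | add x y _ _ hx hy =>
        intro s
        rw [mul_add, map_add]
        exact J.add_mem (hx s) (hy s)
      | smul a x _ hx =>
        intro s
        rw [smul_eq_mul, ← mul_assoc]
        exact hx _
    simpa only [one_mul] using key 1
  · intro h
    have h1 := ((bcP k σ K).mem_span (J.restrictScalars k) f).2 h
    refine (Submodule.span_le (p := (J.map (up K)).restrictScalars K)).2 ?_ h1
    rintro _ ⟨g, hg, rfl⟩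
    exact Ideal.mem_map_of_mem _ hg

lemma co_comp (φ : K →ₗ[k] k) (n : ℕ) (f : MvPolynomial σ K) :
    co φ (homogeneousComponent n f) = homogeneousComponent n (co φ f) := by
  ext m
  rw [coeff_co, coeff_homogeneousComponent, coeff_homogeneousComponent, coeff_co]
  split_ifs
  · rfl
  · exact map_zero φ

lemma homog_up {J : Ideal (MvPolynomial σ k)} (hJ : Homog J) : Homog (J.map (up K)) := by
  intro f hf n
  rw [mem_up] at hf ⊢
  intro φ
  rw [co_comp]
  exact hJ _ (hf φ) n

lemma co_mulVec {β₀ β₁ : Type} [Fintype β₁] (D : Matrix β₀ β₁ (MvPolynomial σ k))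
    (φ : K →ₗ[k] k) (u : β₁ → MvPolynomial σ K) (b : β₀) :
    co φ ((D.map (up K) *ᵥ u) b) = (D *ᵥ fun c => co φ (u c)) b := by
  simp only [mulVec, dotProduct, map_sum, map_apply, co_mul]

end Poly

section Count

variable {k : Type} [Field k] {σ : Type} {β β₀ β₁ : Type}

lemma finrank_map_add {V W : Type} [AddCommGroup V] [Module k V] [AddCommGroup W] [Module k W]
    (f : V →ₗ[k] W) (U : Submodule k V) [FiniteDimensional k U] :
    finrank k (U.map f) + finrank k ↥(U ⊓ LinearMap.ker f) = finrank k U := by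
  have h := LinearMap.finrank_range_add_finrank_ker (f.domRestrict U)
  rw [LinearMap.range_domRestrict, LinearMap.ker_domRestrict,
    ← Submodule.finrank_map_subtype_eq, Submodule.map_comap_subtype] at h
  exact h

variable (k σ) in
/-- The degree `n` part of a free module. -/
noncomputable def Wp (d : β → ℕ) (n : ℕ) : Submodule k (β → MvPolynomial σ k) :=
  Submodule.pi Set.univ fun b => if d b ≤ n then homogeneousSubmodule σ k (n - d b) else ⊥

variable (k σ) in
/-- The projection onto the degree `n` part. -/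
noncomputable def prj (d : β → ℕ) (n : ℕ) : (β → MvPolynomial σ k) →ₗ[k] β → MvPolynomial σ k :=
  LinearMap.pi fun b => (GMod.poly k (w1 σ)).shiftπ (d b) n ∘ₗ LinearMap.proj b

lemma shiftπ_nat (N : GMod k (w1 σ)) (g n : ℕ) :
    N.shiftπ g n = if g ≤ n then N.π (n - g) else 0 := by
  split_ifs with h
  · conv_lhs => rw [← Nat.add_sub_cancel' h]
    exact N.shiftπ_add g (n - g)
  · exact N.shiftπ_of_not fun ⟨b, e⟩ => h (by omega)

lemma prj_apply (d : β → ℕ) (n : ℕ) (v : β → MvPolynomial σ k) (b : β) :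
    prj k σ d n v b = if d b ≤ n then homogeneousComponent (n - d b) (v b) else 0 := by
  show (GMod.poly k (w1 σ)).shiftπ (d b) n (v b) = _
  rw [shiftπ_nat]
  split_ifs <;> rfl

lemma mem_Wp {d : β → ℕ} {n : ℕ} {v : β → MvPolynomial σ k} :
    v ∈ Wp k σ d n ↔ prj k σ d n v = v := by
  rw [Wp, Submodule.mem_pi, funext_iff]
  refine forall_congr' fun b => ?_
  rw [prj_apply]
  split_ifs
  · exact ⟨fun h => homogeneousComponent_eq_self (h trivial),
      fun h _ => h ▸ homogeneousComponent_mem _ _⟩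
  · exact ⟨fun h => (h trivial).symm, fun h _ => h.symm⟩

lemma prj_mem (d : β → ℕ) (n : ℕ) (v : β → MvPolynomial σ k) : prj k σ d n v ∈ Wp k σ d n := by
  refine Submodule.mem_pi.2 fun b _ => ?_
  rw [prj_apply]
  split_ifs
  · exact homogeneousComponent_mem _ (v b)
  · exact Submodule.zero_mem _

instance fin_Wp [Finite σ] [Finite β] (d : β → ℕ) (n : ℕ) : FiniteDimensional k (Wp k σ d n) := by
  refine Module.Finite.iff_fg.2 (Submodule.fg_pi fun b => ?_)
  split_ifs
  · exact homogeneousSubmodule_fg σ k _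
  · exact Submodule.fg_bot

lemma prj_mulVec [Fintype β₀] [Fintype β₁] {d₀ : β₀ → ℕ} {d₁ : β₁ → ℕ}
    {D : Matrix β₀ β₁ (MvPolynomial σ k)} (h : MatHom (w1 σ) d₀ d₁ D) (n : ℕ)
    (u : β₁ → MvPolynomial σ k) : D *ᵥ prj k σ d₁ n u = prj k σ d₀ n (D *ᵥ u) :=
  (matHom (GMod.poly k (w1 σ)) h).comm n u

/-- The vectors with entries in `Q`. -/
noncomputable abbrev piQ (β : Type) (Q : Ideal (MvPolynomial σ k)) :
    Submodule (MvPolynomial σ k) (β → MvPolynomial σ k) := Submodule.pi Set.univ fun _ => Q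

/-- The boundaries modulo `Q`. -/
noncomputable abbrev bnd [Fintype β₁] (Q : Ideal (MvPolynomial σ k))
    (D : Matrix β₀ β₁ (MvPolynomial σ k)) : Submodule k (β₀ → MvPolynomial σ k) :=
  (piQ β₀ Q ⊔ LinearMap.range D.mulVecLin).restrictScalars k

lemma mem_bnd [Fintype β₁] {Q : Ideal (MvPolynomial σ k)} {D : Matrix β₀ β₁ (MvPolynomial σ k)}
    {v : β₀ → MvPolynomial σ k} : v ∈ bnd Q D ↔ ∃ u, ∀ b, v b - (D *ᵥ u) b ∈ Q := by
  rw [Submodule.restrictScalars_mem, Submodule.mem_sup]
  constructor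
  · rintro ⟨q, hq, _, ⟨u, rfl⟩, rfl⟩
    exact ⟨u, fun b => by simpa using hq b trivial⟩
  · rintro ⟨u, hu⟩
    exact ⟨v - D *ᵥ u, fun b _ => hu b, _, ⟨u, rfl⟩, by simp⟩

lemma prj_piQ {Q : Ideal (MvPolynomial σ k)} (hQ : Homog Q) (d : β → ℕ) (n : ℕ)
    {v : β → MvPolynomial σ k} (hv : ∀ b, v b ∈ Q) (b : β) : prj k σ d n v b ∈ Q := by
  rw [prj_apply]
  split_ifs
  · exact hQ _ (hv b) _
  · exact Q.zero_mem

/-- The dimension of the degree `n` part of a cokernel with coefficients in `k[X] / Q`. -/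
noncomputable def ck [Fintype β₁] (d₀ : β₀ → ℕ) (D : Matrix β₀ β₁ (MvPolynomial σ k))
    (Q : Ideal (MvPolynomial σ k)) (n : ℕ) : ℤ :=
  (finrank k (Wp k σ d₀ n) : ℤ) - finrank k ↥(Wp k σ d₀ n ⊓ bnd Q D)

lemma mat_mk [Fintype β₁] (Q : Ideal (MvPolynomial σ k)) (D : Matrix β₀ β₁ (MvPolynomial σ k))
    (u : β₁ → MvPolynomial σ k) :
    mat D (MvPolynomial σ k ⧸ Q) (fun c => Ideal.Quotient.mk Q (u c)) =
      fun b => Ideal.Quotient.mk Q ((D *ᵥ u) b) := by
  funext b
  simp only [mat_apply, mulVec, dotProduct, map_sum, map_mul]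
  rfl

lemma mem_range_mat [Fintype β₁] (Q : Ideal (MvPolynomial σ k))
    (D : Matrix β₀ β₁ (MvPolynomial σ k)) (v : β₀ → MvPolynomial σ k) :
    (fun b => Ideal.Quotient.mk Q (v b)) ∈ LinearMap.range (mat D (MvPolynomial σ k ⧸ Q)) ↔
      v ∈ bnd Q D := by
  rw [mem_bnd]
  constructor
  · rintro ⟨u, hu⟩
    choose u' hu' using fun c => Ideal.Quotient.mk_surjective (u c)
    obtain rfl : u = fun c => Ideal.Quotient.mk Q (u' c) := funext fun c => (hu' c).symm
    rw [mat_mk] at hu
    exact ⟨u', fun b => Ideal.Quotient.eq.1 (congrFun hu b).symm⟩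
  · rintro ⟨u, hu⟩
    refine ⟨fun c => Ideal.Quotient.mk Q (u c), ?_⟩
    rw [mat_mk]
    exact funext fun b => (Ideal.Quotient.eq.2 (hu b)).symm

lemma hf_coker [Finite σ] (A : Pres k (w1 σ)) {Q : Ideal (MvPolynomial σ k)}
    (hQ : WHomog (w1 σ) Q) (n : ℕ) : hf (A.coker (GMod.cyc Q hQ)) n = ck A.d₀ A.D Q n := by
  let R := LinearMap.range (mat A.D (MvPolynomial σ k ⧸ Q))
  let Φ : (A.β₀ → MvPolynomial σ k) →ₗ[k] (A.coker (GMod.cyc Q hQ)).V :=
    (R.mkQ ∘ₗ (Q.mkQ).compLeft A.β₀).restrictScalars k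
  have hΦ : ∀ v, Φ v = R.mkQ fun b => Ideal.Quotient.mk Q (v b) := fun v => rfl
  have hπ : ∀ v, (A.coker (GMod.cyc Q hQ)).π n (Φ v) = Φ (prj k σ A.d₀ n v) := by
    intro v
    refine (GMod.quotπ_mk _ _ (matHom (GMod.cyc Q hQ) A.hom).hmg_range n _).trans ?_
    refine congrArg R.mkQ (funext fun b => ?_)
    show (GMod.cyc Q hQ).shiftπ (A.d₀ b) n (Ideal.Quotient.mk Q (v b)) =
      Ideal.Quotient.mk Q (prj k σ A.d₀ n v b)
    rw [shiftπ_nat, prj_apply]
    split_ifs
    · rfl
    · rfl
  have hker : LinearMap.ker Φ = bnd Q A.D := by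
    ext v
    rw [LinearMap.mem_ker, ← mem_range_mat]
    exact Submodule.Quotient.mk_eq_zero R
  have hmap : (Wp k σ A.d₀ n).map Φ = (A.coker (GMod.cyc Q hQ)).part n := by
    ext x
    constructor
    · rintro ⟨v, hv, rfl⟩
      rw [GMod.mem_part, hπ, mem_Wp.1 hv]
    · intro hx
      obtain ⟨u, rfl⟩ := Submodule.Quotient.mk_surjective R x
      choose u' hu' using fun c => Ideal.Quotient.mk_surjective (u c)
      obtain rfl : u = fun c => Ideal.Quotient.mk Q (u' c) := funext fun c => (hu' c).symm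
      exact ⟨_, prj_mem A.d₀ n u', (hπ u').symm.trans (GMod.mem_part.1 hx)⟩
  have h := finrank_map_add Φ (Wp k σ A.d₀ n)
  rw [hmap, hker] at h
  rw [hf, ck, ← h]
  push_cast
  ring

lemma ck_step [Finite σ] [Fintype β₀] [Fintype β₁] {d₀ : β₀ → ℕ} {d₁ : β₁ → ℕ}
    {D : Matrix β₀ β₁ (MvPolynomial σ k)} (h : MatHom (w1 σ) d₀ d₁ D)
    {Q : Ideal (MvPolynomial σ k)} (hQ : Homog Q) (n : ℕ) :
    (finrank k (Wp k σ d₁ n) : ℤ) -
      finrank k ↥(Wp k σ d₁ n ⊓ ((piQ β₀ Q).comap D.mulVecLin).restrictScalars k) =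
    ck d₀ (fun _ (c : Empty) => c.elim) Q n - ck d₀ D Q n := by
  let ψ : (β₀ → MvPolynomial σ k) →ₗ[k] _ := ((piQ β₀ Q).restrictScalars k).mkQ
  let δ : (β₁ → MvPolynomial σ k) →ₗ[k] β₀ → MvPolynomial σ k := D.mulVecLin.restrictScalars k
  have h1 := finrank_map_add (ψ ∘ₗ δ) (Wp k σ d₁ n)
  have h2 := finrank_map_add ψ (Wp k σ d₀ n ⊓ bnd Q D)
  have e1 : LinearMap.ker (ψ ∘ₗ δ) = ((piQ β₀ Q).comap D.mulVecLin).restrictScalars k := by
    rw [LinearMap.ker_comp, Submodule.ker_mkQ]
    rfl
  have e2 : Wp k σ d₀ n ⊓ bnd Q D ⊓ LinearMap.ker ψ =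
      Wp k σ d₀ n ⊓ bnd Q (fun _ (c : Empty) => c.elim : Matrix β₀ Empty _) := by
    rw [Submodule.ker_mkQ, inf_assoc]
    congr 1
    ext v
    rw [Submodule.mem_inf, mem_bnd, mem_bnd]
    constructor
    · rintro ⟨-, hv⟩
      exact ⟨0, fun b => by simpa using hv b trivial⟩
    · rintro ⟨u, hu⟩
      have hv : ∀ b, v b ∈ Q := fun b => by simpa [mulVec, dotProduct] using hu b
      exact ⟨⟨0, fun b => by simpa using hv b⟩, fun b _ => hv b⟩
  have e3 : (Wp k σ d₁ n).map (ψ ∘ₗ δ) = (Wp k σ d₀ n ⊓ bnd Q D).map ψ := by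
    ext x
    constructor
    · rintro ⟨u, hu, rfl⟩
      refine ⟨D *ᵥ u, ⟨?_, mem_bnd.2 ⟨u, fun b => by simp⟩⟩, rfl⟩
      rw [SetLike.mem_coe, mem_Wp, ← prj_mulVec h, mem_Wp.1 hu]
    · rintro ⟨v, ⟨hv, hv'⟩, rfl⟩
      obtain ⟨u, hu⟩ := mem_bnd.1 hv'
      refine ⟨_, prj_mem d₁ n u, ((Submodule.Quotient.eq _).2 fun b _ => ?_).symm⟩
      have h3 := prj_piQ hQ d₀ n (v := v - D *ᵥ u) hu b
      rw [map_sub, mem_Wp.1 hv, ← prj_mulVec h] at h3
      exact h3
  rw [e1, e3] at h1
  rw [e2] at h2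
  rw [ck, ck, ← h1, ← h2]
  push_cast
  ring

variable {K : Type} [Field K] [Algebra k K]

lemma mem_bnd_up [Fintype β₀] [Fintype β₁] (Q : Ideal (MvPolynomial σ k))
    (D : Matrix β₀ β₁ (MvPolynomial σ k)) (v : β₀ → MvPolynomial σ K) :
    v ∈ bnd (Q.map (up K)) (D.map (up K)) ↔
      ∀ φ : K →ₗ[k] k, (fun b => co φ (v b)) ∈ bnd Q D := by
  constructor
  · intro h φ
    obtain ⟨u, hu⟩ := mem_bnd.1 h
    refine mem_bnd.2 ⟨fun c => co φ (u c), fun b => ?_⟩
    rw [← co_mulVec, ← map_sub]
    exact (mem_up Q _).1 (hu b) φ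
  · intro h
    refine Submodule.span_le.2 ?_ ((((bcP k σ K).pi β₀).mem_span (bnd Q D) v).2 h)
    rintro _ ⟨x, hx, rfl⟩
    obtain ⟨u, hu⟩ := mem_bnd.1 hx
    refine mem_bnd.2 ⟨fun c => up K (u c), fun b => ?_⟩
    have e : (D.map (up K) *ᵥ fun c => up K (u c)) b = up K ((D *ᵥ u) b) :=
      (RingHom.map_mulVec (up K) D u b).symm
    rw [e]
    have := Ideal.mem_map_of_mem (up K) (hu b)
    rwa [map_sub] at this

lemma mem_Wp_up (d : β → ℕ) (n : ℕ) (v : β → MvPolynomial σ K) :
    v ∈ Wp K σ d n ↔ ∀ φ : K →ₗ[k] k, (fun b => co φ (v b)) ∈ Wp k σ d n := by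
  have key : ∀ φ : K →ₗ[k] k,
      prj k σ d n (fun b => co φ (v b)) = fun b => co φ (prj K σ d n v b) := by
    intro φ
    funext b
    rw [prj_apply, prj_apply]
    split_ifs
    · rw [co_comp]
    · rw [map_zero]
  simp only [mem_Wp, key]
  constructor
  · intro h φ
    rw [h]
  · intro h
    funext b
    ext m
    rw [← sub_eq_zero]
    refine (Module.forall_dual_apply_eq_zero_iff k _).1 fun φ => ?_
    rw [map_sub, sub_eq_zero]
    exact congrArg (coeff m) (congrFun (h φ) b)

lemma ck_up [Finite σ] [Fintype β₀] [Fintype β₁] (d₀ : β₀ → ℕ)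
    (D : Matrix β₀ β₁ (MvPolynomial σ k)) (Q : Ideal (MvPolynomial σ k)) (n : ℕ) :
    ck d₀ (D.map (up K)) (Q.map (up K)) n = ck d₀ D Q n := by
  rw [ck, ck, ((bcP k σ K).pi β₀).finrank_eq (Wp k σ d₀ n) (Wp K σ d₀ n) (mem_Wp_up d₀ n),
    ((bcP k σ K).pi β₀).finrank_eq (Wp k σ d₀ n ⊓ bnd Q D)]
  intro v
  rw [Submodule.mem_inf, mem_Wp_up (k := k), mem_bnd_up, ← forall_and]
  rfl

end Count

section Resol

variable {k : Type} [Field k] {σ : Type} {I P : Ideal (MvPolynomial σ k)} (F : Res I P)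

lemma res_hom (i : ℕ) : MatHom (w1 σ) (F.deg i) (F.deg (i + 1)) (F.D i) := by
  intro b c
  by_cases h : F.deg i b ≤ F.deg (i + 1) c
  · refine Or.inr ⟨F.deg (i + 1) c - F.deg i b, ?_, by omega⟩
    have e : F.D i b c = homogeneousComponent (F.deg (i + 1) c - F.deg i b) (F.D i b c) := by
      ext m
      rw [coeff_homogeneousComponent]
      split_ifs with h'
      · rfl
      · have h1 := congrArg (coeff m) (F.hom i b c m.degree (by omega))
        rwa [coeff_homogeneousComponent, if_pos rfl] at h1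
    rw [e]
    exact homogeneousComponent_isHomogeneous _ _
  · refine Or.inl ?_
    ext m
    have h1 := congrArg (coeff m) (F.hom i b c m.degree (by omega))
    rwa [coeff_homogeneousComponent, if_pos rfl] at h1

lemma chi_ck [Finite σ] {Q : Ideal (MvPolynomial σ k)} (hQ : Homog Q) (n c : ℕ) :
    ∑ i ∈ Finset.range (c + 1), (-1) ^ i * F.tor Q i n =
      ∑ i ∈ Finset.range c, (-1) ^ i * ck (F.deg i) (fun _ (c : Empty) => c.elim) Q n +
        (-1) ^ c * ck (F.deg c) (F.D c) Q n := by
  induction c with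
  | zero =>
    simp only [zero_add, Finset.sum_range_one, pow_zero, one_mul, Finset.sum_range_zero]
    have e : F.part 0 n ⊓ (F.cycles Q 0).restrictScalars k = Wp k σ (F.deg 0) n := inf_top_eq _
    rw [Res.tor, e]
    rfl
  | succ c ih =>
    have h := ck_step (res_hom F c) hQ n
    have e : F.tor Q (c + 1) n = (finrank k ↥(Wp k σ (F.deg (c + 1)) n ⊓
        ((piQ (F.β c) Q).comap (F.D c).mulVecLin).restrictScalars k) : ℤ) -
        finrank k ↥(Wp k σ (F.deg (c + 1)) n ⊓ bnd Q (F.D (c + 1))) := rfl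
    rw [Finset.sum_range_succ, ih, Finset.sum_range_succ, e, ck.eq_1 (F.deg (c + 1))]
    linear_combination (-1) ^ c * h

variable (K : Type) [Field K] [Algebra k K]

/-- The resolution over the bigger field. -/
noncomputable def cx : Cx K (w1 σ) where
  β := F.β
  deg := F.deg
  D i := (F.D i).map (up K)
  hom i b c := (res_hom F i b c).imp (fun e => by simp [e]) fun ⟨g, hg, e⟩ =>
    ⟨g, IsHomogeneous.map hg (algebraMap k K), e⟩

lemma chi_theta [Finite σ] {Q : Ideal (MvPolynomial σ k)} (hQ : Homog Q)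
    (hQ' : WHomog (w1 σ) (Q.map (up K))) (d n : ℕ) :
    F.chi Q d n = (cx F K).theta (d + 1) hf (GMod.cyc _ hQ') n := by
  rw [Res.chi, chi_ck F hQ n (d + 1), Cx.theta, Pi.add_apply, Finset.sum_apply, Pi.smul_apply,
    smul_eq_mul, hf_coker]
  congr 1
  · refine Finset.sum_congr rfl fun i _ => ?_
    rw [Pi.smul_apply, smul_eq_mul, hf_coker, ← ck_up (K := K)]
    congr 2
    funext b c
    exact c.elim
  · rw [← ck_up (K := K)]
    rfl

lemma cx_cycRes (E : Set (MvPolynomial σ K)) :
    (cx F K).CycRes (I.map (up K)) E (P.map (up K)) := by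
  classical
  refine ⟨fun i b c => ?_, fun i f _ => ⟨0, fun v hv => ?_⟩, ⟨F.one⟩, F.deg_zero, ?_⟩
  · have h := (F.exact i ((F.D (i + 1)) *ᵥ Pi.single c 1)).2 ⟨Pi.single c 1, fun _ => by simp⟩ b
    rw [mulVec_mulVec, mulVec_single_one] at h
    have h' := Ideal.mem_map_of_mem (up K) h
    show ((F.D i).map (up K) * (F.D (i + 1)).map (up K)) b c ∈ _
    rw [← Matrix.map_mul]
    exact h'
  · rw [pow_zero, one_smul]
    choose v' hv' using fun c => Ideal.Quotient.mk_surjective (v c)
    obtain rfl : v = fun c => Ideal.Quotient.mk _ (v' c) := funext fun c => (hv' c).symm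
    refine (mem_range_mat _ _ v').2 ((mem_bnd_up I (F.D (i + 1)) v').2 fun φ => mem_bnd.2 ?_)
    refine (F.exact i _).1 fun b => ?_
    rw [← co_mulVec]
    refine (mem_up I _).1 ?_ φ
    rw [mat_mk] at hv
    exact Ideal.Quotient.eq_zero_iff_mem.1 (congrFun hv b)
  · have e : P = I ⊔ Ideal.span (Set.range fun x : F.β 0 × F.β 1 => F.D 0 x.1 x.2) := by
      apply le_antisymm
      · intro f hf
        obtain ⟨u, hu⟩ := (F.aug f).1 hf
        rw [← sub_add_cancel f ((F.D 0 *ᵥ u) default)]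
        refine Submodule.add_mem_sup (hu default) ?_
        exact Ideal.sum_mem _ fun c _ =>
          Ideal.mul_mem_right _ _ (Ideal.subset_span ⟨(default, c), rfl⟩)
      · refine sup_le (fun f hf => (F.aug f).2 ⟨0, fun b => by simpa using hf⟩) ?_
        rw [Ideal.span_le]
        rintro _ ⟨⟨b, c⟩, rfl⟩
        refine (F.aug _).2 ⟨Pi.single c 1, fun b' => ?_⟩
        rw [mulVec_single_one, Subsingleton.elim b' b]
        simp
    conv_lhs => rw [e]
    rw [Ideal.map_sup, Ideal.map_span, ← Set.range_comp]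
    rfl

end Resol

lemma nonempty_res {k : Type} [Field k] {σ : Type} [Finite σ] {I P : Ideal (MvPolynomial σ k)}
    (hI : Homog I) (hP : Homog P) (h : I ≤ P) : Nonempty (Res I P) := by
  obtain ⟨F, hF⟩ := exists_cycRes (wHomog_iff_homog.2 hI) {1} (wHomog_iff_homog.2 hP) h
  obtain ⟨u⟩ := hF.one
  refine ⟨@Res.mk k _ σ I P F.β F.fin u F.deg F.D hF.deg ?_ ?_ ?_⟩
  · intro i b c m hm
    rcases F.hom i b c with e | ⟨g, hg, e⟩
    · rw [e, map_zero]
    · rw [homogeneousComponent_of_mem (n := g) hg, if_neg (by omega)]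
  · intro f
    rw [hF.gen]
    constructor
    · intro hf
      obtain ⟨a, ha, s, hs, rfl⟩ := Submodule.mem_sup.1 hf
      obtain ⟨c, rfl⟩ := Ideal.mem_span_range_iff_exists_fun.1 hs
      refine ⟨fun j => c (default, j), fun b => ?_⟩
      have e : ∑ x : F.β 0 × F.β 1, c x * F.D 0 x.1 x.2 =
          (F.D 0 *ᵥ fun j => c (default, j)) b := by
        rw [Fintype.sum_prod_type, Fintype.sum_unique, Subsingleton.elim b default]
        exact Finset.sum_congr rfl fun j _ => mul_comm _ _
      rw [e, add_sub_cancel_right]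
      exact ha
    · rintro ⟨v, hv⟩
      rw [← sub_add_cancel f ((F.D 0 *ᵥ v) default)]
      refine Submodule.add_mem_sup (hv default) ?_
      exact Ideal.sum_mem _ fun c _ =>
        Ideal.mul_mem_right _ _ (Ideal.subset_span ⟨(default, c), rfl⟩)
  · intro i v
    constructor
    · intro hv
      obtain ⟨n, hn⟩ := hF.ex i 1 rfl
      have h1 := hn (fun c => Ideal.Quotient.mk I (v c)) (by
        rw [mat_mk]
        exact funext fun b => Ideal.Quotient.eq_zero_iff_mem.2 (hv b))
      rw [one_pow, one_smul] at h1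
      exact mem_bnd.1 ((mem_range_mat _ _ v).1 h1)
    · rintro ⟨u', hu⟩ b
      have e : (F.D i *ᵥ v) b = (F.D i *ᵥ (v - F.D (i + 1) *ᵥ u')) b +
          ((F.D i * F.D (i + 1)) *ᵥ u') b := by
        rw [mulVec_sub, ← mulVec_mulVec]
        simp
      rw [e]
      exact I.add_mem (Ideal.sum_mem _ fun c _ => I.mul_mem_left _ (hu c))
        (Ideal.sum_mem _ fun c _ => I.mul_mem_right _ (hF.cx i b c))

end Pool.Agent.Lib.MP_557161_ag.DL.T0
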