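import Pool.Agent.Lib.MP_557161_ag.DL.T0c

/-!
Invariant cycles supported on one orbit, and the invariants of the span of the rows of a pairing.
-/

namespace Pool.Agent.Lib.MP_557161_ag.DL.T0

open Finset Module

variable {Pr : Type} {θ : Equiv.Perm Pr}

/-- An invariant cycle whose support is the orbit of `u`. -/
def Orb (θ : Equiv.Perm Pr) (c : Pr →₀ ℚ) (u : Pr) : Prop :=
  (∀ z, c (θ z) = c z) ∧ c u ≠ 0 ∧ ∀ z, c z ≠ 0 → ∃ j : ℕ, z = (θ ^ j) u

lemma inv_pow {M : Type} {v : Pr → M} (h : ∀ z, v (θ z) = v z) (j : ℕ) (z : Pr) :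
    v ((θ ^ j) z) = v z := by
  induction j with
  | zero => rfl
  | succ j ih => rw [pow_succ', Equiv.Perm.mul_apply, h, ih]

lemma Orb.comb {c : Pr →₀ ℚ} {u : Pr} (h : Orb θ c u) {M : Type} [AddCommGroup M] [Module ℚ M] :
    ∃ t : ℚ, t ≠ 0 ∧ ∀ g : Pr → M, (∀ j : ℕ, g ((θ ^ j) u) = g u) →
      Finsupp.linearCombination ℚ g c = t • g u := by
  refine ⟨c.support.card * c u, mul_ne_zero (Nat.cast_ne_zero.2 (card_ne_zero.2
    ⟨u, Finsupp.mem_support_iff.2 h.2.1⟩)) h.2.1, fun g hg => ?_⟩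
  rw [Finsupp.linearCombination_apply, Finsupp.sum, mul_smul, Nat.cast_smul_eq_nsmul, ← sum_const]
  refine sum_congr rfl fun z hz => ?_
  obtain ⟨j, rfl⟩ := h.2.2 z (Finsupp.mem_support_iff.1 hz)
  rw [hg, inv_pow h.1]

lemma Orb.zero {c : Pr →₀ ℚ} {u : Pr} (h : Orb θ c u) {v : Pr → ℚ} (hv : ∀ z, v (θ z) = v z)
    (h0 : Finsupp.linearCombination ℚ v c = 0) : v u = 0 := by
  obtain ⟨t, ht, e⟩ := h.comb (M := ℚ)
  rw [e v fun j => inv_pow hv j u] at h0
  exact (smul_eq_zero.1 h0).resolve_left ht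

variable {ip : Pr → Pr → ℚ} (hip : ∀ u z, ip (θ u) (θ z) = ip u z)

include hip

lemma comb_inv {c : Pr →₀ ℚ} (h : ∀ z, c (θ z) = c z) (z : Pr) :
    Finsupp.linearCombination ℚ ip c (θ z) = Finsupp.linearCombination ℚ ip c z := by
  have e : c.mapDomain θ = c := by
    ext y
    obtain ⟨y, rfl⟩ := θ.surjective y
    rw [Finsupp.mapDomain_apply θ.injective, h]
  conv_lhs => rw [← e, Finsupp.linearCombination_mapDomain]
  simp only [Finsupp.linearCombination_apply, Finsupp.sum, Finset.sum_apply, Pi.smul_apply,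
    Function.comp_apply, hip]

theorem inv_eq {A : Type} (H : Set Pr) (cl : A → Pr →₀ ℚ) (h1 : ∀ P z, cl P (θ z) = cl P z)
    (h2 : ∀ P z, cl P z ≠ 0 → z ∈ H) (h3 : ∀ u ∈ H, ∃ P, Orb θ (cl P) u)
    (h4 : ∀ u, ∃ r, 0 < r ∧ (θ ^ r) u = u) :
    inv θ ip H = Submodule.span ℚ (Set.range fun P => Finsupp.linearCombination ℚ ip (cl P)) := by
  let Θ : End ℚ (Pr → ℚ) := LinearMap.funLeft ℚ ℚ θ.symm
  have hΘ : ∀ u, Θ (ip u) = ip (θ u) := fun u => funext fun z => by
    show ip u (θ.symm z) = _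
    rw [← hip, θ.apply_symm_apply]
  have hΘm : ∀ m u, (Θ ^ m) (ip u) = ip ((θ ^ m) u) := by
    intro m u
    induction m with
    | zero => rfl
    | succ m ih => rw [pow_succ', End.mul_apply, ih, hΘ, pow_succ', Equiv.Perm.mul_apply]
  have hs : ∀ P, Θ (Finsupp.linearCombination ℚ ip (cl P)) =
      Finsupp.linearCombination ℚ ip (cl P) := fun P => funext fun z => by
    show Finsupp.linearCombination ℚ ip (cl P) (θ.symm z) = _
    rw [← comb_inv hip (h1 P), θ.apply_symm_apply]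
  have havg : ∀ v, Θ v = v → ∀ N, (∑ j ∈ range N, Θ ^ j) v = (N : ℚ) • v := by
    intro v hv N
    have : ∀ m, (Θ ^ m) v = v := fun m => by
      induction m with
      | zero => rfl
      | succ m ih => rw [pow_succ, End.mul_apply, hv, ih]
    rw [LinearMap.sum_apply, sum_congr rfl fun m _ => this m, sum_const, card_range,
      Nat.cast_smul_eq_nsmul]
  apply le_antisymm
  · rintro v ⟨hv, hv'⟩
    suffices ∃ r, 0 < r ∧ ∀ n, (∑ j ∈ range (r * n), Θ ^ j) v ∈ Submodule.span ℚ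
        (Set.range fun P => Finsupp.linearCombination ℚ ip (cl P)) by
      obtain ⟨r, hr, h⟩ := this
      have h5 := h 1
      rw [havg v hv', mul_one] at h5
      exact (Submodule.smul_mem_iff _ (Nat.cast_ne_zero.2 hr.ne')).1 h5
    clear hv'
    induction hv using Submodule.span_induction with
    | mem x hx =>
      obtain ⟨u, hu, rfl⟩ := hx
      obtain ⟨r, hr, hru⟩ := h4 u
      obtain ⟨P, hP⟩ := h3 u hu
      obtain ⟨t, ht, e⟩ := hP.comb (M := Pr → ℚ)
      refine ⟨r, hr, fun n => (Submodule.smul_mem_iff _ ht).1 ?_⟩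
      have h5 : (Θ ^ (r * n)) (ip u) = ip u := by
        rw [hΘm, pow_mul, Equiv.Perm.pow_apply_eq_self_of_apply_eq_self hru]
      have h6 : ∀ j : ℕ, (∑ j ∈ range (r * n), Θ ^ j) (ip ((θ ^ j) u)) =
          (∑ j ∈ range (r * n), Θ ^ j) (ip u) := by
        intro j
        induction j with
        | zero => rfl
        | succ j ih =>
          have h7 := LinearMap.congr_fun (geom_sum_mul Θ (r * n)) (ip ((θ ^ j) u))
          rw [End.mul_apply, LinearMap.sub_apply, LinearMap.sub_apply, map_sub, End.one_apply, hΘ,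
            ← hΘm j u, ← End.mul_apply (Θ ^ (r * n)), ← pow_add, add_comm, pow_add, End.mul_apply,
            h5, sub_self, sub_eq_zero, hΘm, ih] at h7
          rw [pow_succ', Equiv.Perm.mul_apply, h7]
      have h8 := Finsupp.apply_linearCombination ℚ (∑ j ∈ range (r * n), Θ ^ j) ip (cl P)
      rw [havg _ (hs P)] at h8
      rw [← (h8.trans (e _ h6) : _ = t • (∑ j ∈ range (r * n), Θ ^ j) (ip u))]
      exact Submodule.smul_mem _ _ (Submodule.subset_span ⟨P, rfl⟩)
    | zero => exact ⟨1, one_pos, fun n => by simp⟩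
    | add x y _ _ hx hy =>
      obtain ⟨r, hr, hx⟩ := hx
      obtain ⟨s, hs, hy⟩ := hy
      refine ⟨r * s, Nat.mul_pos hr hs, fun n => ?_⟩
      rw [map_add]
      refine Submodule.add_mem _ ?_ ?_
      · rw [mul_assoc]; exact hx _
      · rw [mul_comm r, mul_assoc]; exact hy _
    | smul a x _ hx =>
      obtain ⟨r, hr, hx⟩ := hx
      exact ⟨r, hr, fun n => by rw [map_smul]; exact Submodule.smul_mem _ _ (hx n)⟩
  · rw [Submodule.span_le]
    rintro _ ⟨P, rfl⟩
    refine ⟨?_, hs P⟩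
    show Finsupp.linearCombination ℚ ip (cl P) ∈ Submodule.span ℚ (ip '' H)
    rw [Finsupp.linearCombination_apply]
    exact Submodule.sum_mem _ fun z hz => Submodule.smul_mem _ _
      (Submodule.subset_span ⟨z, h2 P z (Finsupp.mem_support_iff.1 hz), rfl⟩)

end Pool.Agent.Lib.MP_557161_ag.DL.T0
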