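import Pool.Agent.Lib.MP_557161_ag.DL.T0a
import Pool.Agent.Lib.MP_557161_ag.DL.T0d

/-!
The action of the arithmetic Frobenius on the primes over the algebraic closure of a finite field.
-/

namespace Pool.Agent.Lib.MP_557161_ag.DL.T0

open MvPolynomial Filter
open Pool.Agent.Lib.MP_60ec62_ag.DL (dm cyc DimLE Cyc cm lenAt mem_cm)

section Fields

lemma mem_range_of_pow {L K : Type} [Field L] [Fintype L] [Field K] (e : L →+* K) {x : K}
    (hx : x ^ Fintype.card L = x) : x ∈ Set.range e := by
  classical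
  by_contra h
  have h1 : 1 < Fintype.card L := Fintype.one_lt_card
  have h2 := Polynomial.card_le_degree_of_subset_roots
    (p := (Polynomial.X ^ Fintype.card L - Polynomial.X : Polynomial K))
    (Z := insert x (Finset.univ.image e)) (fun y hy => by
      rw [Polynomial.mem_roots (FiniteField.X_pow_card_sub_X_ne_zero K h1)]
      rcases Finset.mem_insert.1 hy with rfl | hy
      · simp [hx]
      · obtain ⟨z, -, rfl⟩ := Finset.mem_image.1 hy
        simp [← map_pow, FiniteField.pow_card])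
  rw [FiniteField.X_pow_card_sub_X_natDegree_eq K h1, Finset.card_insert_of_notMem (by
    simpa using h), Finset.card_image_of_injective _ e.injective, Finset.card_univ] at h2
  omega

lemma fbar (k : Type) [Field k] [Finite k] : FBar (AlgebraicClosure k) (ringChar k) := by
  have := Fintype.ofFinite k
  obtain ⟨n, hp, hn⟩ := FiniteField.card k (ringChar k)
  refine ⟨hp, inferInstance, inferInstance, fun x => ?_⟩
  have hx : IsIntegral k x := Algebra.IsIntegral.isIntegral x
  have := IntermediateField.adjoin.finiteDimensional hx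
  let L := IntermediateField.adjoin k {x}
  have : Finite L := Module.finite_of_finite k
  have := Fintype.ofFinite L
  have : CharP L (ringChar k) := charP_of_injective_algebraMap (algebraMap k L).injective _
  obtain ⟨m, -, hm⟩ := FiniteField.card L (ringChar k)
  refine ⟨m, m.2, ?_⟩
  have := congrArg Subtype.val
    (FiniteField.pow_card (⟨x, IntermediateField.mem_adjoin_simple_self k x⟩ : L))
  rw [hm] at this
  exact this

end Fields

section Frob

variable {k : Type} [Field k] [Fintype k] {K : Type} [Field K] [Algebra k K] {σ : Type}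

variable (k K σ) in
/-- The coefficients are raised to the power `q`. -/
noncomputable def tw : MvPolynomial σ K →ₐ[k] MvPolynomial σ K :=
  mapAlgHom (FiniteField.frobeniusAlgHom k K)

lemma coeff_tw (f : MvPolynomial σ K) (m : σ →₀ ℕ) :
    coeff m (tw k K σ f) = coeff m f ^ Fintype.card k := by
  rw [tw, mapAlgHom_apply, coeff_map]
  rfl

lemma tw_C (a : K) : tw k K σ (C a) = C (a ^ Fintype.card k) := map_C _ a

lemma tw_X (s : σ) : tw k K σ (X s) = X s := map_X _ s

lemma expand_tw (f : MvPolynomial σ K) :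
    expand (Fintype.card k) (tw k K σ f) = f ^ Fintype.card k := by
  induction f using MvPolynomial.induction_on with
  | C a => rw [tw_C, expand_C, map_pow]
  | add f g hf hg =>
    have h := map_add (FiniteField.frobeniusAlgHom k (MvPolynomial σ K)) f g
    simp only [FiniteField.frobeniusAlgHom_apply] at h
    rw [map_add, map_add, hf, hg, h]
  | mul_X f s hf => rw [map_mul, map_mul, hf, tw_X, expand_X, mul_pow]

lemma tw_expand (f : MvPolynomial σ K) :
    tw k K σ (expand (Fintype.card k) f) = f ^ Fintype.card k := by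
  rw [← expand_tw]
  exact map_expand _ _ f

lemma tw_up (g : MvPolynomial σ k) : tw k K σ (up K g) = up K g := by
  ext m
  rw [coeff_tw, coeff_map, ← map_pow, FiniteField.pow_card]

lemma mem_range_up {f : MvPolynomial σ K} (h : tw k K σ f = f) : f ∈ Set.range (up K (k := k)) := by
  rw [mem_range_map_iff_coeffs_subset]
  intro x hx
  obtain ⟨m, -, rfl⟩ := mem_coeffs_iff.1 hx
  exact mem_range_of_pow _ (by rw [← coeff_tw, h])

lemma expand_up (m : ℕ) (g : MvPolynomial σ k) :
    expand (Fintype.card k ^ m) (up K g) = up K g ^ Fintype.card k ^ m := by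
  induction m with
  | zero => simp
  | succ m ih =>
    rw [pow_succ', expand_mul, ih, map_pow, pow_mul]
    conv_lhs => rw [← tw_up, expand_tw]

lemma defOver_up (I : Ideal (MvPolynomial σ k)) (m : ℕ) :
    DefOver (Fintype.card k ^ m) (I.map (up K)) := by
  refine Ideal.map_le_iff_le_comap.2 fun g hg => Ideal.subset_span ?_
  exact ⟨Ideal.mem_map_of_mem _ hg, expand_up m g⟩

variable (k K σ) in
/-- The action of Frobenius on primes. -/
noncomputable def th : Equiv.Perm (PrimeSpectrum (MvPolynomial σ K)) where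
  toFun := cm (tw k K σ)
  invFun := cm (expand (Fintype.card k))
  left_inv a := by
    ext f
    rw [mem_cm, mem_cm, tw_expand]
    exact a.isPrime.pow_mem_iff_mem _ Fintype.card_pos
  right_inv a := by
    ext f
    rw [mem_cm, mem_cm, expand_tw]
    exact a.isPrime.pow_mem_iff_mem _ Fintype.card_pos

lemma mem_th (a : PrimeSpectrum (MvPolynomial σ K)) (f : MvPolynomial σ K) :
    f ∈ (th k K σ a).asIdeal ↔ tw k K σ f ∈ a.asIdeal := mem_cm _ _ _

lemma mem_th_pow (j : ℕ) (a : PrimeSpectrum (MvPolynomial σ K)) (f : MvPolynomial σ K) :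
    f ∈ ((th k K σ ^ j) a).asIdeal ↔ (tw k K σ ^ j) f ∈ a.asIdeal := by
  induction j generalizing f with
  | zero => rw [pow_zero, pow_zero, Equiv.Perm.one_apply, AlgHom.one_apply]
  | succ j ih =>
    rw [pow_succ' (th k K σ), Equiv.Perm.mul_apply, pow_succ (tw k K σ), AlgHom.mul_apply, ← ih,
      mem_th]

lemma cm_th (m : ℕ) (a : PrimeSpectrum (MvPolynomial σ K)) :
    cm (expand (Fintype.card k ^ m)) ((th k K σ ^ m) a) = a := by
  induction m with
  | zero =>
    ext f
    rw [mem_cm, pow_zero (Fintype.card k), expand_one_apply, pow_zero, Equiv.Perm.one_apply]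
  | succ m ih =>
    conv_rhs => rw [← ih]
    ext f
    rw [mem_cm, mem_cm, pow_succ' (Fintype.card k), expand_mul, pow_succ' (th k K σ),
      Equiv.Perm.mul_apply, mem_th, tw_expand]
    exact ((th k K σ ^ m) a).isPrime.pow_mem_iff_mem _ Fintype.card_pos

lemma th_le_iff (I : Ideal (MvPolynomial σ k)) (a : PrimeSpectrum (MvPolynomial σ K)) :
    I.map (up K) ≤ (th k K σ a).asIdeal ↔ I.map (up K) ≤ a.asIdeal := by
  rw [Ideal.map_le_iff_le_comap, Ideal.map_le_iff_le_comap]
  refine forall₂_congr fun g _ => ?_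
  rw [Ideal.mem_comap, Ideal.mem_comap, mem_th, tw_up]

lemma lenAt_th (P : Ideal (MvPolynomial σ k)) (hs : Function.Bijective (tw k K σ))
    (a : PrimeSpectrum (MvPolynomial σ K)) :
    lenAt (th k K σ a) (MvPolynomial σ K ⧸ P.map (up K)) =
      lenAt a (MvPolynomial σ K ⧸ P.map (up K)) := by
  have h := MP_60ec62_ag.DL.Res.lenAt_eq (φ := tw k K σ) (fun r => by
    obtain ⟨g, rfl⟩ := hs.2 r
    exact ⟨g, 1, by simp, by simp⟩) a (I := P.map (up K)) fun g hg =>
      ⟨1, by simp, by rw [hs.1 (hg.trans (map_zero _).symm)]; simp⟩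
  have e : (P.map (up K)).map (tw k K σ : MvPolynomial σ K →+* MvPolynomial σ K) =
      P.map (up K) := by
    have e' : (tw k K σ : MvPolynomial σ K →+* MvPolynomial σ K).comp (up K) = up K :=
      RingHom.ext fun g => by rw [RingHom.comp_apply, RingHom.coe_coe, tw_up]
    rw [Ideal.map_map, e']
  rw [e] at h
  exact h

variable {p : ℕ} [FBar K p] {e : ℕ} (hq : Fintype.card k = p ^ e)

include hq

lemma tw_periodic (f : MvPolynomial σ K) : ∃ n, 0 < n ∧ (tw k K σ ^ n) f = f := by
  have key : ∀ {g : MvPolynomial σ K} {n : ℕ} (m : ℕ), (tw k K σ ^ n) g = g →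
      (tw k K σ ^ (n * m)) g = g := by
    intro g n m h
    induction m with
    | zero => rfl
    | succ m ih => rw [Nat.mul_succ, pow_add, AlgHom.mul_apply, h, ih]
  induction f using MvPolynomial.induction_on with
  | C a =>
    obtain ⟨m, hm, h⟩ := FBar.alg a
    have h1 : ∀ n, (tw k K σ ^ n) (C a) = C (a ^ Fintype.card k ^ n) := by
      intro n
      induction n with
      | zero => simp
      | succ n ih => rw [pow_succ', AlgHom.mul_apply, ih, tw_C, ← pow_mul, ← pow_succ]
    have h2 : ∀ n, a ^ (p ^ m) ^ n = a := by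
      intro n
      induction n with
      | zero => simp
      | succ n ih => rw [pow_succ, pow_mul, ih, h]
    exact ⟨m, hm, by rw [h1, hq, ← pow_mul, mul_comm, pow_mul, h2]⟩
  | add f g hf hg =>
    obtain ⟨n, hn, hf⟩ := hf
    obtain ⟨m, hm, hg⟩ := hg
    exact ⟨n * m, Nat.mul_pos hn hm, by rw [map_add, key m hf, mul_comm, key n hg]⟩
  | mul_X f s hf =>
    obtain ⟨n, hn, hf⟩ := hf
    have h1 : (tw k K σ ^ (1 * n)) (X s) = X s := key n (by rw [pow_one, tw_X])
    rw [one_mul] at h1
    exact ⟨n, hn, by rw [map_mul, hf, h1]⟩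

lemma tw_bijective : Function.Bijective (tw k K σ) := by
  refine ⟨map_injective _ (FiniteField.frobeniusAlgHom k K).toRingHom.injective, fun f => ?_⟩
  obtain ⟨n, hn, h⟩ := tw_periodic hq f
  obtain ⟨n, rfl⟩ := Nat.exists_eq_succ_of_ne_zero hn.ne'
  exact ⟨(tw k K σ ^ n) f, by rw [← AlgHom.mul_apply, ← pow_succ', h]⟩

omit [FBar K p] in
lemma defOver_up' (I : Ideal (MvPolynomial σ k)) (m : ℕ) :
    DefOver (p ^ (e * m)) (I.map (up K)) := by
  rw [pow_mul, ← hq]
  exact defOver_up I m

omit [FBar K p] in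
lemma cm_th' (m : ℕ) (a : PrimeSpectrum (MvPolynomial σ K)) :
    cm (expand (p ^ (e * m))) ((th k K σ ^ m) a) = a := by
  rw [pow_mul, ← hq]
  exact cm_th m a

variable [Finite σ]

lemma th_periodic (a : PrimeSpectrum (MvPolynomial σ K)) :
    ∃ r, 0 < r ∧ (th k K σ ^ r) a = a := by
  obtain ⟨m, hm, h⟩ := exists_defOver a.asIdeal
  refine ⟨m, hm, (cm_expand_bijective (e * m)).1 ?_⟩
  rw [cm_th' hq, (h _ (Dvd.intro_left _ rfl)).cm_eq (pow_pos (FBar.prime K).pos _)]

lemma dm_th (a : PrimeSpectrum (MvPolynomial σ K)) : dm K (th k K σ a) = dm K a := by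
  conv_rhs => rw [← cm_th' hq 1 a, dm_cm_expand (pow_pos (FBar.prime K).pos _), pow_one]

end Frob

section Low

variable {k : Type} [Field k] {K : Type} [Field K] [Algebra k K] {σ : Type}

variable (k) in
/-- The prime below. -/
noncomputable def low (a : PrimeSpectrum (MvPolynomial σ K)) : PrimeSpectrum (MvPolynomial σ k) :=
  cm (mapAlgHom (Algebra.ofId k K)) a

lemma mem_low (a : PrimeSpectrum (MvPolynomial σ K)) (g : MvPolynomial σ k) :
    g ∈ (low k a).asIdeal ↔ up K g ∈ a.asIdeal := Iff.rfl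

lemma le_low {I : Ideal (MvPolynomial σ k)} {a : PrimeSpectrum (MvPolynomial σ K)} :
    I ≤ (low k a).asIdeal ↔ I.map (up K) ≤ a.asIdeal := Ideal.map_le_iff_le_comap.symm

lemma homog_low {a : PrimeSpectrum (MvPolynomial σ K)} (h : Homog a.asIdeal) :
    Homog (low k a).asIdeal := by
  intro g hg n
  have e : up K (homogeneousComponent n g) = homogeneousComponent n (up K g) := by
    ext m
    rw [coeff_map, coeff_homogeneousComponent, coeff_homogeneousComponent, coeff_map]
    split_ifs
    · rfl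
    · exact map_zero _
  rw [mem_low, e]
  exact h _ hg n

variable [Algebra.IsAlgebraic k K]

attribute [local instance] MvPolynomial.algebraMvPolynomial in
lemma up_integral : (up K : MvPolynomial σ k →+* MvPolynomial σ K).IsIntegral := fun x =>
  (inferInstance : Algebra.IsIntegral (MvPolynomial σ k) (MvPolynomial σ K)).isIntegral x

lemma dm_low (a : PrimeSpectrum (MvPolynomial σ K)) : dm k (low k a) = dm K a := by
  have h : dm k (low k a) = dm k a :=
    MP_60ec62_ag.DL.Dim.dm_integral (φ := mapAlgHom (Algebra.ofId k K))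
      (up_integral (k := k) (K := K) (σ := σ)) a
  have : FaithfulSMul K (MvPolynomial σ K ⧸ a.asIdeal) :=
    (faithfulSMul_iff_algebraMap_injective _ _).2 (algebraMap K _).injective
  rw [h, dm, dm, ← trdeg_add_eq k K (A := MvPolynomial σ K ⧸ a.asIdeal), trdeg_eq_zero, zero_add]

attribute [local instance] MvPolynomial.algebraMvPolynomial in
lemma low_surjective (P : PrimeSpectrum (MvPolynomial σ k)) :
    ∃ a : PrimeSpectrum (MvPolynomial σ K), low k a = P := by
  obtain ⟨Q, -, hQ, e⟩ := Ideal.exists_ideal_over_prime_of_isIntegral P.asIdeal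
    (⊥ : Ideal (MvPolynomial σ K)) (by
      exact ((RingHom.injective_iff_ker_eq_bot _).1
        (map_injective _ (algebraMap k K).injective)).le.trans bot_le)
  exact ⟨⟨Q, hQ⟩, PrimeSpectrum.ext e⟩

omit [Algebra.IsAlgebraic k K] in
lemma dim_iff [Finite σ] (P : PrimeSpectrum (MvPolynomial σ k)) (n : ℕ) :
    ringKrullDim (MvPolynomial σ k ⧸ P.asIdeal) = n ↔ dm k P = n := by
  obtain ⟨s, h1, h2⟩ := MP_60ec62_ag.DL.Dim.trdeg_ft (𝕜 := k) P
  rw [MP_2c79a0_ag.H68Dim.ringKrullDim_quot, h2, dm, h1, Cardinal.toNat_natCast]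
  exact ⟨fun h => by exact_mod_cast h, fun h => by rw [h]; rfl⟩

variable (K) in
/-- The cycle of a prime after extension of the base field. -/
noncomputable def cl (P : PrimeSpectrum (MvPolynomial σ k)) : Cyc (MvPolynomial σ K) :=
  cyc K (dm k P) (MvPolynomial σ K ⧸ P.asIdeal.map (up K))

variable [Finite σ]

lemma dimLE_up (P : PrimeSpectrum (MvPolynomial σ k)) :
    DimLE K (MvPolynomial σ K) (dm k P) (MvPolynomial σ K ⧸ P.asIdeal.map (up K)) := by
  intro z hz
  rw [← dm_low (k := k)]
  exact MP_60ec62_ag.DL.dm_anti (le_low.2 ((MP_60ec62_ag.DL.CycA.mem_supp _ _).1 hz))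

lemma cl_ne_iff (P : PrimeSpectrum (MvPolynomial σ k)) (z : PrimeSpectrum (MvPolynomial σ K)) :
    cl K P z ≠ 0 ↔ low k z = P := by
  constructor
  · intro h
    obtain ⟨h1, h2⟩ := MP_60ec62_ag.DL.CycA.cyc_ne h
    rw [← dm_low (k := k)] at h1
    exact (MP_60ec62_ag.DL.eq_of_le_of_dm_le (K := k)
      (le_low.2 ((MP_60ec62_ag.DL.CycA.mem_supp _ _).1 h2)) h1.ge).symm
  · rintro rfl
    have h := dimLE_up (K := K) (low k z)
    rw [dm_low] at h
    rw [cl, MP_60ec62_ag.DL.CycA.cyc_apply, if_pos (dm_low z).symm, Nat.cast_ne_zero, Ne,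
      ENat.toNat_eq_zero, not_or, MP_60ec62_ag.DL.CycA.lenAt_zero, not_not]
    exact ⟨(MP_60ec62_ag.DL.CycA.mem_supp _ _).2 (le_low.1 le_rfl),
      MP_60ec62_ag.DL.CycA.ne_top (MP_60ec62_ag.DL.hD K).1 z h⟩

end Low

section Orbit

variable {k : Type} [Field k] [Fintype k] {K : Type} [Field K] [Algebra k K] {σ : Type} [Finite σ]
  {p : ℕ} [FBar K p] {e : ℕ} (hq : Fintype.card k = p ^ e)

include hq

lemma cl_th (P : PrimeSpectrum (MvPolynomial σ k)) (z : PrimeSpectrum (MvPolynomial σ K)) :
    cl K P (th k K σ z) = cl K P z := by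
  rw [cl, MP_60ec62_ag.DL.CycA.cyc_apply, MP_60ec62_ag.DL.CycA.cyc_apply, dm_th hq,
    lenAt_th _ (tw_bijective hq)]

lemma dm_th_pow (j : ℕ) (a : PrimeSpectrum (MvPolynomial σ K)) :
    dm K ((th k K σ ^ j) a) = dm K a := inv_pow (dm_th hq) j a

variable [Algebra.IsAlgebraic k K]

lemma orbit {a b : PrimeSpectrum (MvPolynomial σ K)} (h : low k a = low k b) :
    ∃ j : ℕ, b = (th k K σ ^ j) a := by
  obtain ⟨r, hr, ha⟩ := th_periodic hq a
  have h1 : (b.asIdeal : Set (MvPolynomial σ K)) ⊆
      ⋃ j ∈ (Finset.range r : Set ℕ), ((th k K σ ^ j) a).asIdeal := by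
    intro f hf
    obtain ⟨n, hn, hfn⟩ := tw_periodic hq f
    obtain ⟨n, rfl⟩ := Nat.exists_eq_succ_of_ne_zero hn.ne'
    have hN : tw k K σ (∏ j ∈ Finset.range (n + 1), (tw k K σ ^ j) f) =
        ∏ j ∈ Finset.range (n + 1), (tw k K σ ^ j) f := by
      rw [map_prod, Finset.prod_range_succ, Finset.prod_range_succ']
      simp only [← AlgHom.mul_apply, ← pow_succ']
      rw [hfn, pow_zero, AlgHom.one_apply]
    obtain ⟨g, hg⟩ := mem_range_up hN
    have h2 : g ∈ (low k b).asIdeal := by
      rw [mem_low, hg, Finset.prod_range_succ', pow_zero, AlgHom.one_apply]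
      exact b.asIdeal.mul_mem_left _ hf
    rw [← h, mem_low, hg] at h2
    have := a.isPrime
    obtain ⟨j, -, hj⟩ := Ideal.IsPrime.prod_mem_iff.1 h2
    rw [← mem_th_pow, ← Nat.mod_add_div j r, pow_add, pow_mul, Equiv.Perm.mul_apply,
      Equiv.Perm.pow_apply_eq_self_of_apply_eq_self ha] at hj
    exact Set.mem_biUnion (Finset.mem_coe.2 (Finset.mem_range.2 (Nat.mod_lt j hr))) hj
  obtain ⟨j, -, hj⟩ := (Ideal.subset_union_prime 0 0 fun j _ _ _ =>
    ((th k K σ ^ j) a).isPrime).1 h1
  refine ⟨j, MP_60ec62_ag.DL.eq_of_le_of_dm_le (K := K) hj ?_⟩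
  rw [dm_th_pow hq, ← dm_low (k := k), ← h, dm_low]

lemma orb_cl (u : PrimeSpectrum (MvPolynomial σ K)) : Orb (th k K σ) (cl K (low k u)) u :=
  ⟨cl_th hq _, (cl_ne_iff _ _).2 rfl, fun _ hz => orbit hq ((cl_ne_iff _ _).1 hz).symm⟩

end Orbit

end Pool.Agent.Lib.MP_557161_ag.DL.T0
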