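import Mathlib

/-!
Linear algebra for the trace formula, and the zeta function of a finite family of eigenvalues.
-/

namespace Pool.Agent.Lib.MP_557161_ag.DL.T0

open Finset Module

theorem trace_avg {F W : Type} [Field F] [AddCommGroup W] [Module F W] [FiniteDimensional F W]
    (S : End F W) {r : ℕ} (hr : (r : F) ≠ 0) (hS : S ^ r = 1) :
    ∑ m ∈ range r, LinearMap.trace F W (S ^ m) =
      r * finrank F (LinearMap.eqLocus S LinearMap.id) := by
  have h1 : S * ∑ m ∈ range r, S ^ m = ∑ m ∈ range r, S ^ m := by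
    have := mul_geom_sum S r
    rw [hS, sub_self, sub_mul, one_mul, sub_eq_zero] at this
    exact this
  have hp : LinearMap.IsProj (LinearMap.eqLocus S LinearMap.id)
      ((r : F)⁻¹ • ∑ m ∈ range r, S ^ m) := by
    refine ⟨fun x => ?_, fun x hx => ?_⟩
    · show S _ = _
      rw [LinearMap.smul_apply, map_smul, ← End.mul_apply, h1]
      rfl
    · have hx' : S x = x := hx
      have h2 : ∀ m, (S ^ m) x = x := fun m => by
        induction m with
        | zero => rfl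
        | succ m ih => rw [pow_succ, End.mul_apply, hx', ih]
      rw [LinearMap.smul_apply, LinearMap.sum_apply, sum_congr rfl fun m _ => h2 m, sum_const,
        card_range, ← Nat.cast_smul_eq_nsmul F, smul_smul, inv_mul_cancel₀ hr, one_smul]
  rw [← hp.trace, map_smul, map_sum, smul_eq_mul, mul_inv_cancel_left₀ hr]

theorem fourier {V : Type} [AddCommGroup V] [Module ℚ V] [FiniteDimensional ℚ V] (θ : End ℚ V)
    {r : ℕ} (hr : 0 < r) (hθ : θ ^ r = 1) {ω : ℂ} (hω : IsPrimitiveRoot ω r) :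
    ∃ μ : ℕ → ℕ, μ 0 = finrank ℚ (LinearMap.eqLocus θ LinearMap.id) ∧
      ∀ m, ((LinearMap.trace ℚ V (θ ^ m) : ℚ) : ℂ) = ∑ a ∈ range r, μ a * ω ^ (a * m) := by
  have hr' : (r : ℂ) ≠ 0 := Nat.cast_ne_zero.2 hr.ne'
  have hω0 : ω ≠ 0 := hω.ne_zero hr.ne'
  let T := θ.baseChange ℂ
  have hT : ∀ m, LinearMap.trace ℂ _ (T ^ m) = ((LinearMap.trace ℚ V (θ ^ m) : ℚ) : ℂ) := by
    intro m
    rw [← LinearMap.baseChange_pow, LinearMap.trace_baseChange]
    rfl
  have hTr : T ^ r = 1 := by rw [← LinearMap.baseChange_pow, hθ, LinearMap.baseChange_one]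
  have hμ : ∀ a, ∑ m ∈ range r, (ω⁻¹ ^ a) ^ m * ((LinearMap.trace ℚ V (θ ^ m) : ℚ) : ℂ) =
      r * finrank ℂ (LinearMap.eqLocus (ω⁻¹ ^ a • T) LinearMap.id) := by
    intro a
    rw [← trace_avg (ω⁻¹ ^ a • T) hr']
    · refine sum_congr rfl fun m _ => ?_
      rw [smul_pow, map_smul, hT, smul_eq_mul]
    · rw [smul_pow, hTr, ← pow_mul, mul_comm, pow_mul, hω.inv.pow_eq_one, one_pow, one_smul]
  refine ⟨fun a => finrank ℂ (LinearMap.eqLocus (ω⁻¹ ^ a • T) LinearMap.id), ?_, fun m => ?_⟩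
  · have h1 := hμ 0
    have h2 := congrArg (fun x : ℚ => (x : ℂ)) (trace_avg θ (Nat.cast_ne_zero.2 hr.ne') hθ)
    simp only [pow_zero, one_pow, one_mul] at h1
    push_cast at h2
    rw [h2] at h1
    have h3 := mul_left_cancel₀ hr' h1
    exact_mod_cast h3.symm
  · refine mul_left_cancel₀ hr' ?_
    rw [mul_sum]
    simp only [← mul_assoc, ← hμ, sum_mul]
    rw [sum_comm, sum_eq_single (m % r)]
    · have e : ∀ a, (ω⁻¹ ^ a) ^ (m % r) * ((LinearMap.trace ℚ V (θ ^ (m % r)) : ℚ) : ℂ) *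
          ω ^ (a * m) = ((LinearMap.trace ℚ V (θ ^ m) : ℚ) : ℂ) := by
        intro a
        have e1 : ω ^ (m % r) = ω ^ m := (pow_eq_pow_mod m hω.pow_eq_one).symm
        rw [← pow_eq_pow_mod m hθ, ← pow_mul, mul_comm a (m % r), pow_mul, inv_pow, e1,
          mul_comm a m, pow_mul, mul_right_comm, ← mul_pow, inv_mul_cancel₀ (pow_ne_zero _ hω0),
          one_pow, one_mul]
      rw [sum_congr rfl fun a _ => e a, sum_const, card_range, nsmul_eq_mul]
    · intro m' hm' hne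
      have e : ∀ a, (ω⁻¹ ^ a) ^ m' * ((LinearMap.trace ℚ V (θ ^ m') : ℚ) : ℂ) * ω ^ (a * m) =
          (ω ^ m / ω ^ m') ^ a * ((LinearMap.trace ℚ V (θ ^ m') : ℚ) : ℂ) := by
        intro a
        rw [← pow_mul, mul_comm a m', pow_mul, inv_pow, mul_comm a m, pow_mul, mul_right_comm,
          ← mul_pow, div_eq_inv_mul]
      have h1 : ω ^ m / ω ^ m' ≠ 1 := by
        rw [Ne, div_eq_one_iff_eq (pow_ne_zero _ hω0), pow_eq_pow_mod m hω.pow_eq_one]
        exact fun h => hne (hω.pow_inj (Nat.mod_lt _ hr) (mem_range.1 hm') h).symm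
      rw [sum_congr rfl fun a _ => e a, ← sum_mul, geom_sum_eq h1, div_pow, ← pow_mul, ← pow_mul,
        mul_comm m, mul_comm m', pow_mul, pow_mul, hω.pow_eq_one]
      simp
    · intro h
      exact absurd (mem_range.2 (Nat.mod_lt _ hr)) h

/-- The invariant functions in the span of the rows of a pairing. -/
def inv {Pr : Type} (θ : Equiv.Perm Pr) (ip : Pr → Pr → ℚ) (H : Set Pr) : Submodule ℚ (Pr → ℚ) :=
  Submodule.span ℚ (ip '' H) ⊓ LinearMap.eqLocus (LinearMap.funLeft ℚ ℚ θ.symm) LinearMap.id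

theorem spec {Pr ι : Type} [Fintype ι] (θ : Equiv.Perm Pr) (ip : Pr → Pr → ℚ) (H : Set Pr)
    (hH : ∀ u ∈ H, θ u ∈ H) (hip : ∀ u z, ip (θ u) (θ z) = ip u z) (c : ι → ℚ) (a b : ι → Pr)
    (ha : ∀ t, a t ∈ H) (h : ∀ u ∈ H, ∀ z, ip u z = ∑ t, c t * (ip u (b t) * ip (a t) z))
    {r : ℕ} (hr : 0 < r) (har : ∀ t, (θ ^ r) (a t) = a t) {ω : ℂ} (hω : IsPrimitiveRoot ω r) :
    FiniteDimensional ℚ (inv θ ip H) ∧ ∃ μ : ℕ → ℕ, μ 0 = finrank ℚ (inv θ ip H) ∧
      ∀ m, ((∑ t, c t * ip ((θ ^ m) (a t)) (b t) : ℚ) : ℂ) =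
        ∑ j ∈ range r, μ j * ω ^ (j * m) := by
  let V := Submodule.span ℚ (ip '' H)
  let Θ : End ℚ (Pr → ℚ) := LinearMap.funLeft ℚ ℚ θ.symm
  have hΘ : ∀ u, Θ (ip u) = ip (θ u) := fun u => funext fun z => by
    show ip u (θ.symm z) = _
    rw [← hip, θ.apply_symm_apply]
  have hΘm : ∀ m u, (Θ ^ m) (ip u) = ip ((θ ^ m) u) := by
    intro m u
    induction m with
    | zero => rfl
    | succ m ih => rw [pow_succ', End.mul_apply, ih, hΘ, pow_succ', Equiv.Perm.mul_apply]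
  have hV : ∀ v ∈ V, Θ v ∈ V := by
    intro v hv
    refine (Submodule.span_le (p := V.comap Θ)).2 ?_ hv
    rintro _ ⟨u, hu, rfl⟩
    show Θ (ip u) ∈ V
    rw [hΘ]
    exact Submodule.subset_span ⟨_, hH u hu, rfl⟩
  have hid : ∀ v ∈ V, v = ∑ t, (c t * v (b t)) • ip (a t) := by
    intro v hv
    induction hv using Submodule.span_induction with
    | mem x hx =>
      obtain ⟨u, hu, rfl⟩ := hx
      funext z
      rw [h u hu z, Finset.sum_apply]
      exact sum_congr rfl fun t _ => (mul_assoc _ _ _).symm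
    | zero => simp
    | add x y _ _ hx hy =>
      simp only [Pi.add_apply, mul_add, add_smul, sum_add_distrib]
      rw [← hx, ← hy]
    | smul s x _ hx =>
      conv_lhs => rw [hx, smul_sum]
      refine sum_congr rfl fun t _ => ?_
      rw [smul_smul, Pi.smul_apply, smul_eq_mul, mul_left_comm]
  have hfin : FiniteDimensional ℚ V := by
    have := FiniteDimensional.span_of_finite ℚ (Set.finite_range fun t => ip (a t))
    refine Submodule.finiteDimensional_of_le
      (S₂ := Submodule.span ℚ (Set.range fun t => ip (a t))) fun v hv => ?_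
    rw [hid v hv]
    exact Submodule.sum_mem _ fun t _ =>
      Submodule.smul_mem _ _ (Submodule.subset_span ⟨t, rfl⟩)
  let Θ' : End ℚ V := Θ.restrict hV
  have hΘ' : ∀ m (v : V), ((Θ' ^ m) v : Pr → ℚ) = (Θ ^ m) v := by
    intro m v
    induction m with
    | zero => rfl
    | succ m ih => rw [pow_succ', pow_succ', End.mul_apply, End.mul_apply, ← ih]; rfl
  let A : ι → V := fun t => ⟨ip (a t), Submodule.subset_span ⟨_, ha t, rfl⟩⟩
  have hpow : ∀ m, Θ' ^ m = ∑ t, c t • (LinearMap.proj (b t) ∘ₗ V.subtype).smulRight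
      ((Θ' ^ m) (A t)) := by
    intro m
    ext1 v
    have e : v = ∑ t, (c t * v.1 (b t)) • A t := by
      apply Subtype.ext
      rw [Submodule.coe_sum]
      exact hid v.1 v.2
    conv_lhs => rw [e, map_sum]
    rw [LinearMap.sum_apply]
    refine sum_congr rfl fun t _ => ?_
    rw [map_smul, LinearMap.smul_apply, LinearMap.smulRight_apply, smul_smul]
    rfl
  have hr1 : Θ' ^ r = 1 := by
    ext1 v
    apply Subtype.ext
    rw [hΘ', End.one_apply]
    conv_lhs => rw [hid v.1 v.2, map_sum]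
    conv_rhs => rw [hid v.1 v.2]
    refine sum_congr rfl fun t _ => ?_
    rw [map_smul, hΘm, har]
  obtain ⟨μ, h0, hμ⟩ := fourier Θ' hr hr1 hω
  refine ⟨Submodule.finiteDimensional_of_le (S₂ := V) inf_le_left, μ, ?_, fun m => ?_⟩
  · have e : (LinearMap.eqLocus Θ' LinearMap.id).map V.subtype = inv θ ip H := by
      ext v
      constructor
      · rintro ⟨v, hv, rfl⟩
        exact ⟨v.2, congrArg Subtype.val hv⟩
      · rintro ⟨h1, h2⟩
        exact ⟨⟨v, h1⟩, Subtype.ext h2, rfl⟩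
    rw [h0, ← e, Submodule.finrank_map_subtype_eq]
  · rw [← hμ, hpow, map_sum]
    congr 1
    refine sum_congr rfl fun t _ => ?_
    rw [map_smul, LinearMap.trace_smulRight, smul_eq_mul]
    congr 1
    show _ = ((Θ' ^ m) (A t) : Pr → ℚ) (b t)
    rw [hΘ', hΘm]

theorem rank_quot {A B W : Type} [AddCommGroup W] [Module ℚ W] (s : A → W)
    (Φ : (A →₀ ℤ) →ₗ[ℤ] (B → ℤ))
    (h : LinearMap.ker Φ = LinearMap.ker (Finsupp.linearCombination ℤ s)) :
    Module.rank ℤ ((A →₀ ℤ) ⧸ LinearMap.ker Φ) =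
      Module.rank ℚ (Submodule.span ℚ (Set.range s)) := by
  rw [(Submodule.quotEquivOfEq _ _ h).rank_eq, (LinearMap.quotKerEquivRange _).rank_eq,
    Finsupp.range_linearCombination]
  apply le_antisymm
  · rw [IsFractionRing.rank_right_eq ℤ ℚ]
    exact Submodule.rank_mono (t := (Submodule.span ℚ (Set.range s)).restrictScalars ℤ)
      (Submodule.span_le.2 Submodule.subset_span)
  · obtain ⟨b, hb, e, li⟩ := exists_linearIndependent ℚ (Set.range s)
    have li' : LinearIndepOn ℤ id b := li.restrict_scalars' ℤ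
    rw [← e, rank_span_set li, ← rank_span_set li']
    exact Submodule.rank_mono (Submodule.span_mono hb)

theorem zeta_all₀ {I : Type*} (S : Finset I) (α : I → ℂ) (q : ℕ) (hq : 1 < q) (d : ℕ)
    (hα : ∀ i ∈ S, ‖α i‖ ≤ (q : ℝ) ^ d) (N : ℕ → ℂ) (hN : ∀ j, N j = ∑ i ∈ S, α i ^ (j + 1)) :
    ∃ ζ : ℂ → ℂ, Meromorphic ζ ∧
      (∀ s : ℂ, (d : ℝ) < s.re →
        ζ s = Complex.exp (∑' j : ℕ, N j * (q : ℂ) ^ (-((j + 1 : ℕ) : ℂ) * s) / (j + 1 : ℕ))) ∧
      ∀ n : ℕ, meromorphicOrderAt ζ n =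
        ((-∑ i ∈ S, if α i = (q : ℂ) ^ n then 1 else 0 : ℤ) : WithTop ℤ) := by
  have hq0 : (q : ℂ) ≠ 0 := Nat.cast_ne_zero.2 (by omega)
  have hq1 : (1 : ℝ) < q := by exact_mod_cast hq
  have hd : ∀ (c s : ℂ), HasDerivAt (fun s : ℂ => 1 - c * (q : ℂ) ^ (-s))
      (c * (q : ℂ) ^ (-s) * Complex.log q) s := by
    intro c s
    have := (((hasDerivAt_neg s).const_cpow (c := (q : ℂ)) (Or.inl hq0)).const_mul c).const_sub 1
    refine this.congr_deriv ?_
    ring
  have han : ∀ (c s : ℂ), AnalyticAt ℂ (fun s : ℂ => 1 - c * (q : ℂ) ^ (-s)) s := fun c s =>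
    Differentiable.analyticAt (fun z => (hd c z).differentiableAt) s
  refine ⟨fun s => ∏ i ∈ S, (1 - α i * (q : ℂ) ^ (-s))⁻¹, fun s => ?_, fun s hs => ?_,
    fun n => ?_⟩
  · exact MeromorphicAt.fun_prod fun i _ => (han _ s).meromorphicAt.inv
  · have h1 : ∀ i ∈ S, ‖α i * (q : ℂ) ^ (-s)‖ < 1 := by
      intro i hi
      rw [norm_mul, Complex.norm_natCast_cpow_of_pos (by omega), Complex.neg_re]
      refine (mul_le_mul_of_nonneg_right (hα i hi) (by positivity)).trans_lt ?_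
      rw [← Real.rpow_natCast, ← Real.rpow_add (by positivity)]
      exact Real.rpow_lt_one_of_one_lt_of_neg hq1 (by linarith)
    have h2 := hasSum_sum fun i hi => Complex.hasSum_taylorSeries_neg_log' (h1 i hi)
    have h3 : ∀ j : ℕ, N j * (q : ℂ) ^ (-((j + 1 : ℕ) : ℂ) * s) / (j + 1 : ℕ)
        = ∑ i ∈ S, (α i * (q : ℂ) ^ (-s)) ^ (j + 1) / (j + 1) := by
      intro j
      rw [hN, neg_mul, ← mul_neg, Complex.cpow_nat_mul, sum_mul, sum_div]
      refine sum_congr rfl fun i _ => ?_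
      rw [mul_pow, Nat.cast_succ]
    simp only [h3]
    rw [h2.tsum_eq, Complex.exp_sum]
    refine prod_congr rfl fun i hi => ?_
    rw [Complex.exp_neg, Complex.exp_log]
    intro h
    have := h1 i hi
    rw [← sub_eq_zero.1 h] at this
    simp at this
  · rw [meromorphicOrderAt_fun_prod (f := fun i s => (1 - α i * (q : ℂ) ^ (-s))⁻¹)
      fun i _ => (han _ _).meromorphicAt.inv, ← sum_neg_distrib,
      WithTop.coe_sum]
    refine sum_congr rfl fun i _ => ?_
    have h1 : (q : ℂ) ^ (-(n : ℂ)) = ((q : ℂ) ^ n)⁻¹ := by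
      rw [Complex.cpow_neg, Complex.cpow_natCast]
    rw [fun_meromorphicOrderAt_inv, (han _ _).meromorphicOrderAt_eq]
    split_ifs with h
    · rw [(han _ _).analyticOrderAt_eq_one_of_zero_deriv_ne_zero]
      · rfl
      · rw [h, h1, mul_inv_cancel₀ (pow_ne_zero _ hq0), sub_self]
      · rw [(hd _ _).deriv, h, h1, mul_inv_cancel₀ (pow_ne_zero _ hq0), one_mul,
          ← Complex.natCast_log, Ne, Complex.ofReal_eq_zero]
        exact (Real.log_pos hq1).ne'
    · rw [(han _ _).analyticOrderAt_eq_zero.2]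
      · rfl
      · rw [h1, sub_ne_zero, ← div_eq_mul_inv, ne_comm, Ne, div_eq_one_iff_eq (pow_ne_zero _ hq0)]
        exact h

/-- The zeta function for point counts with eigenvalues `q ^ n` times roots of unity. -/
theorem zeta_all (q : ℕ) (hq : 1 < q) (d : ℕ) {r : ℕ} (hr : 0 < r) {ω : ℂ}
    (hω : IsPrimitiveRoot ω r) (μ : ℕ → ℕ → ℕ) (N : ℕ → ℂ)
    (hN : ∀ m, N m = ∑ n ∈ range (d + 1), ((q : ℂ) ^ n) ^ (m + 1) *
      ∑ j ∈ range r, μ n j * ω ^ (j * (m + 1))) :
    ∃ ζ : ℂ → ℂ, Meromorphic ζ ∧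
      (∀ s : ℂ, (d : ℝ) < s.re →
        ζ s = Complex.exp (∑' j : ℕ, N j * (q : ℂ) ^ (-((j + 1 : ℕ) : ℂ) * s) / (j + 1 : ℕ))) ∧
      (∀ n : ℕ, n ≤ d → meromorphicOrderAt ζ n = (-(μ n 0 : ℤ) : ℤ)) ∧
      ∀ n : ℕ, d < n → meromorphicOrderAt ζ n = 0 := by
  have hq1 : (1 : ℝ) < q := by exact_mod_cast hq
  have hq0 : (q : ℂ) ≠ 0 := Nat.cast_ne_zero.2 (by omega)
  have hn : ∀ n j : ℕ, ‖(q : ℂ) ^ n * ω ^ j‖ = (q : ℝ) ^ n := by
    intro n j
    rw [norm_mul, norm_pow, norm_pow, hω.norm'_eq_one hr.ne', one_pow, mul_one,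
      Complex.norm_natCast]
  obtain ⟨ζ, h1, h2, h3⟩ := zeta_all₀
    ((range (d + 1) ×ˢ range r).sigma fun x => range (μ x.1 x.2))
    (fun x => (q : ℂ) ^ x.1.1 * ω ^ x.1.2) q hq d (fun x hx => by
      rw [hn]
      have := mem_range.1 (mem_product.1 (mem_sigma.1 hx).1).1
      exact pow_le_pow_right₀ hq1.le (by omega)) N (fun m => by
      rw [hN, sum_sigma, sum_product]
      refine sum_congr rfl fun n _ => ?_
      rw [mul_sum]
      refine sum_congr rfl fun j _ => ?_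
      dsimp only
      rw [sum_const, card_range, nsmul_eq_mul, mul_pow, ← pow_mul ω]
      ring)
  have key : ∀ n : ℕ, (∑ x ∈ (range (d + 1) ×ˢ range r).sigma fun x => range (μ x.1 x.2),
      if (q : ℂ) ^ x.1.1 * ω ^ x.1.2 = (q : ℂ) ^ n then 1 else 0 : ℤ) =
      if n ≤ d then (μ n 0 : ℤ) else 0 := by
    intro n
    have e : ∀ x ∈ range (d + 1) ×ˢ range r, (∑ _y ∈ range (μ x.1 x.2),
        if (q : ℂ) ^ x.1 * ω ^ x.2 = (q : ℂ) ^ n then 1 else 0 : ℤ) =
        if x = (n, 0) then (μ n 0 : ℤ) else 0 := by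
      rintro ⟨n', j⟩ hx
      have hj := mem_range.1 (mem_product.1 hx).2
      by_cases e : (n', j) = (n, 0)
      · obtain ⟨rfl, rfl⟩ := Prod.mk.inj e
        simp
      · rw [if_neg e, if_neg, sum_const_zero]
        intro h
        have a1 := congrArg norm h
        rw [hn, norm_pow, Complex.norm_natCast] at a1
        obtain rfl : n' = n := pow_right_injective₀ (by positivity) hq1.ne' a1
        rw [mul_eq_left₀ (pow_ne_zero _ hq0), ← pow_zero ω] at h
        exact e (Prod.ext rfl (hω.pow_inj hj hr h))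
    rw [sum_sigma, sum_congr rfl e, sum_ite_eq']
    simp only [mem_product, mem_range, hr, and_true, Nat.lt_succ_iff]
  refine ⟨ζ, h1, h2, fun n h => ?_, fun n h => ?_⟩
  · rw [h3, key, if_pos h]
  · rw [h3, key, if_neg (by omega)]
    rfl

end Pool.Agent.Lib.MP_557161_ag.DL.T0
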