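import Pool.Agent.Lib.MP_557161_ag.DL.T0b
import Pool.Agent.Lib.MP_557161_ag.DL.Bridge
import Pool.Agent.Lib.MP_557161_ag.DL.Kun
import Pool.Agent.Lib.MP_557161_ag.DL.Lef

/-!
Rational points as fixed points, the decomposition of the diagonal and the trace formula.
-/

namespace Pool.Agent.Lib.MP_557161_ag.DL.T0

open MvPolynomial Filter
open Pool.Agent.Lib.MP_60ec62_ag.DL (dm cyc DimLE Cyc cm lenAt mem_cm)

section Points

variable {k K L : Type} [Field k] [Field K] [Field L] [Algebra k K] [Algebra k L] {σ : Type}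
  {I : Ideal (MvPolynomial σ k)}

lemma mem_zl_up (v : σ → K) : v ∈ zeroLocus K (I.map (up K)) ↔ v ∈ zeroLocus K I := by
  constructor
  · intro h g hg
    rw [← MvPolynomial.aeval_map_algebraMap K]
    exact h _ (Ideal.mem_map_of_mem _ hg)
  · intro h g hg
    refine (Ideal.map_le_iff_le_comap (K := RingHom.ker (aeval v : _ →ₐ[K] K))).2 ?_ hg
    intro f hf
    rw [Ideal.mem_comap, RingHom.mem_ker, MvPolynomial.aeval_map_algebraMap K]
    exact h f hf

lemma mem_zl_comp (e : L →ₐ[k] K) (x : σ → L) :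
    (fun s => e (x s)) ∈ zeroLocus K I ↔ x ∈ zeroLocus L I := by
  refine forall₂_congr fun g _ => ?_
  rw [← comp_aeval, AlgHom.comp_apply, map_eq_zero]

lemma points_eq [Fintype L] (hI : Homog I) (e : L →ₐ[k] K) :
    points I L = Nat.card {x : Projectivization K (σ → K) // x.rep ∈ zeroLocus K (I.map (up K)) ∧
      ∃ c : K, (fun s => x.rep s ^ Fintype.card L) = c • x.rep} := by
  have h0 : ∀ x : σ → L, x ≠ 0 → (fun s => e (x s)) ≠ 0 := fun x hx h =>
    hx (funext fun s => (map_eq_zero e).1 (congrFun h s))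
  refine Nat.card_eq_of_bijective (fun x => ⟨Projectivization.mk K _ (h0 _ x.1.rep_nonzero), ?_⟩)
    ⟨fun x y h => ?_, fun z => ?_⟩
  · obtain ⟨a, ha⟩ := Projectivization.exists_smul_eq_mk_rep K _ (h0 _ x.1.rep_nonzero)
    rw [← ha, mem_zl_up]
    refine ⟨hI.smul_mem ((mem_zl_comp e _).2 x.2) a, (a : K) ^ Fintype.card L / a, ?_⟩
    funext s
    simp only [Units.smul_def, Pi.smul_apply, smul_eq_mul]
    rw [mul_pow, ← map_pow, FiniteField.pow_card, ← mul_assoc, div_mul_cancel₀ _ a.ne_zero]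
  · obtain ⟨a, ha⟩ := (Projectivization.mk_eq_mk_iff' K _ _ _ _).1 (congrArg Subtype.val h)
    obtain ⟨s, hs⟩ := Function.ne_iff.1 y.1.rep_nonzero
    have hs' : y.1.rep s ≠ 0 := hs
    apply Subtype.ext
    rw [← x.1.mk_rep, ← y.1.mk_rep, Projectivization.mk_eq_mk_iff']
    refine ⟨x.1.rep s / y.1.rep s, funext fun t => e.injective ?_⟩
    have h1 : a * e (y.1.rep s) = e (x.1.rep s) := congrFun ha s
    have h2 : a * e (y.1.rep t) = e (x.1.rep t) := congrFun ha t
    show e (_ * _) = e _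
    rw [map_mul, map_div₀, ← h1, ← h2, mul_div_cancel_right₀ _ ((map_ne_zero e).2 hs')]
  · obtain ⟨z, hz, c, hc⟩ := z
    obtain ⟨s, hs⟩ := Function.ne_iff.1 z.rep_nonzero
    have hs' : z.rep s ≠ 0 := hs
    have h1 : ∀ t, z.rep t / z.rep s ∈ Set.range (e : L →+* K) := fun t => mem_range_of_pow _ (by
      have a1 : z.rep t ^ Fintype.card L = c * z.rep t := congrFun hc t
      have a2 : z.rep s ^ Fintype.card L = c * z.rep s := congrFun hc s
      have a3 : c ≠ 0 := fun h => pow_ne_zero _ hs' (by rw [a2, h, zero_mul])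
      rw [div_pow, a1, a2, mul_div_mul_left _ _ a3])
    choose x hx using h1
    have h2 : (fun t => e (x t)) = (z.rep s)⁻¹ • z.rep := funext fun t => by
      rw [Pi.smul_apply, smul_eq_mul, ← div_eq_inv_mul]
      exact hx t
    have h3 : x ≠ 0 := by
      rintro rfl
      have := congrFun h2 s
      simp [hs'] at this
    obtain ⟨a, ha⟩ := Projectivization.exists_smul_eq_mk_rep L x h3
    refine ⟨⟨Projectivization.mk L x h3, ?_⟩, Subtype.ext ?_⟩
    · rw [← ha]
      refine hI.smul_mem ((mem_zl_comp e x).1 ?_) a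
      rw [h2]
      exact hI.smul_mem ((mem_zl_up _).1 hz) _
    · conv_rhs => rw [show (⟨z, hz, c, hc⟩ : {x : Projectivization K (σ → K) //
        x.rep ∈ zeroLocus K (I.map (up K)) ∧
          ∃ c : K, (fun s => x.rep s ^ Fintype.card L) = c • x.rep}).1 = z from rfl, ← z.mk_rep]
      refine (Projectivization.mk_eq_mk_iff' K _ _ _ _).2 ⟨e a * (z.rep s)⁻¹, funext fun t => ?_⟩
      show _ = e ((Projectivization.mk L x h3).rep t)
      rw [← ha, mul_smul, ← h2]
      exact (map_mul e _ _).symm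

end Points

section Diag

variable {K : Type} [Field K] {p : ℕ} [FBar K p] [IsAlgClosed K] {σ : Type} [Finite σ] (Y : Sm K σ)

omit [Finite σ] [IsAlgClosed K] in
lemma bil_ss {τ Γ : Type} [AddCommMonoid Γ] [IsCancelAdd Γ] {w : τ → Γ} (C : Ctx K w)
    (a b : PrimeSpectrum (MvPolynomial τ K)) :
    C.bil (Finsupp.single a 1) (Finsupp.single b 1) = C.ip a b := by
  simp [Ctx.bil]

omit [Finite σ] [IsAlgClosed K] in
lemma bil_eq {τ Γ : Type} [AddCommMonoid Γ] [IsCancelAdd Γ] {w : τ → Γ} (C : Ctx K w)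
    (x y : Cyc (MvPolynomial τ K)) :
    C.bil x y = Finsupp.linearCombination ℚ
      (Finsupp.linearCombination ℚ (fun a b => (C.ip a b : ℚ)) x) y := by
  induction x using Finsupp.induction_linear with
  | zero => simp [Finsupp.linearCombination_apply]
  | add f g hf hg =>
    rw [map_add, LinearMap.add_apply, hf, hg, map_add]
    simp only [Finsupp.linearCombination_apply, Pi.add_apply, smul_add, Finsupp.sum_add]
  | single a x =>
    simp [Ctx.bil, Finsupp.linearCombination_apply, Finsupp.mul_sum, mul_left_comm]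

omit [IsAlgClosed K] in
lemma ip_ne {a b : PrimeSpectrum (MvPolynomial σ K)} (h : Y.C1.ip a b ≠ 0) :
    Y.C1.HP a ∧ Y.C1.HP b ∧ dm K a + dm K b = Y.d + 2 :=
  by_contra fun h' => h (dif_neg h')

include p

omit [IsAlgClosed K] in
lemma bil_ratB (x : Cyc (MvPolynomial (σ ⊕ σ) K)) {c : Cyc (MvPolynomial (σ ⊕ σ) K)}
    (hc : c ∈ RatB Y.I) : Y.C2.bil x c = 0 := by
  refine (sup_le (Submodule.span_le.2 ?_) (Submodule.span_le.2 ?_) :
    RatB Y.I ≤ LinearMap.ker (Y.C2.bil x)) hc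
  · rintro _ ⟨z, f, g, γ, h1, h2, h3, h4, h5, h6, rfl⟩
    exact Y.C2.bil_rat x ⟨h1, h2⟩ h3 h4 h5 h6
  · rintro _ ⟨z, hz, rfl⟩
    show Y.C2.bil x _ = 0
    rw [bil_eq, Finsupp.linearCombination_single, one_smul, Finsupp.linearCombination_apply,
      Finsupp.sum, Finset.sum_apply]
    refine Finset.sum_eq_zero fun a _ => ?_
    rw [Pi.smul_apply, Y.C2.ip_of_not_rel a fun ⟨f, hf, hf'⟩ => hf' (hz hf), Int.cast_zero,
      smul_zero]

/-- A decomposition of the diagonal. -/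
structure Dec (K : Type) [Field K] [IsAlgClosed K] {σ : Type} [Finite σ] (Y : Sm K σ) where
  n : ℕ
  c : Fin n → ℚ
  a : Fin n → PrimeSpectrum (MvPolynomial σ K)
  b : Fin n → PrimeSpectrum (MvPolynomial σ K)
  ha : ∀ t, Y.C1.HP (a t)
  hb : ∀ t, Y.C1.HP (b t)
  hd : ∀ t, dm K (a t) + dm K (b t) = Y.d + 2
  eq : ∀ x, Y.C2.bil x (Y.grC 1) = ∑ t, c t * Y.C2.bil x (Finsupp.single (bxP (a t) (b t)) 1)

omit [Finite σ] [IsAlgClosed K] [FBar K p] in
lemma defOver_zero (J : Ideal (MvPolynomial σ K)) : DefOver (p ^ 0) J :=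
  fun _ hg => Ideal.subset_span ⟨hg, by simp⟩

lemma exists_dec [Base K] (hI : Homog Y.I) (hV : Van (XS Y.I hI) (XS Y.I hI)) :
    Nonempty (Dec K Y) := by
  have h1 : Y.grC 1 ∈ RatB Y.I ⊔ ProdB Y.I (Y.d + 2) := by
    rw [← Finsupp.sum_single (Y.grC 1)]
    refine Submodule.sum_mem _ fun q hq => ?_
    obtain ⟨h1, h2, h3⟩ := cyc_support (adm_cyc (Y.gr_hom 1)
      (Y.le_gr one_pos (defOver_zero (p := p) Y.I))) (Y.dimLE_gr 1) (Finsupp.mem_support_iff.1 hq)
    rw [← Finsupp.smul_single_one, ← h3]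
    exact Submodule.smul_mem _ _ (bridge hI hV q h1 h2)
  obtain ⟨u, hu, v, hv, e⟩ := Submodule.mem_sup.1 h1
  obtain ⟨n, c, g, rfl⟩ := Submodule.mem_span_set'.1 hv
  choose a b h1 h2 h3 h4 h5 h6 using fun t => (g t).2
  refine ⟨⟨n, c, a, b, fun t => ⟨h1 t, h3 t⟩, fun t => ⟨h2 t, h4 t⟩, h5, fun x => ?_⟩⟩
  rw [← e, map_add, bil_ratB Y x hu, zero_add, map_sum]
  exact Finset.sum_congr rfl fun t _ => by rw [map_smul, h6, smul_eq_mul]

variable {Y} (D : Dec K Y)

lemma Dec.star {z u : PrimeSpectrum (MvPolynomial σ K)} (hz : Y.C1.HP z) (hu : Y.C1.HP u)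
    (h : dm K z + dm K u = Y.d + 2) :
    (Y.C1.ip z u : ℚ) = ∑ t, D.c t * (Y.C1.ip u (D.b t) * Y.C1.ip z (D.a t)) := by
  have h1 := Y.bil_gr (defOver_zero (p := p) Y.I) z u hz hu h
  have e : cm (expand (p ^ 0)) z = z := by
    ext f
    rw [mem_cm, pow_zero, expand_one_apply]
  rw [e, pow_zero, one_pow, Nat.cast_one, one_mul, D.eq] at h1
  rw [← h1]
  refine Finset.sum_congr rfl fun t _ => ?_
  rw [bil_ss, Y.ip_bxP z u _ _ hz hu (D.ha t) (D.hb t) (by rw [h, D.hd]; ring), Int.cast_mul,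
    mul_comm (Y.C1.ip z (D.a t) : ℚ)]

/-- The subvarieties of codimension `n`. -/
def cod (Y : Sm K σ) (n : ℕ) : Set (PrimeSpectrum (MvPolynomial σ K)) :=
  {u | Y.C1.HP u ∧ dm K u + n = Y.d + 1}

lemma Dec.star' (n : ℕ) (u : PrimeSpectrum (MvPolynomial σ K)) (hu : u ∈ cod Y n)
    (z : PrimeSpectrum (MvPolynomial σ K)) :
    (Y.C1.ip u z : ℚ) = ∑ t : {t // dm K (D.a t) + n = Y.d + 1},
      D.c t * (Y.C1.ip u (D.b t) * Y.C1.ip (D.a t) z) := by
  have h0 := hu.2
  by_cases h : Y.C1.HP z ∧ dm K z + dm K u = Y.d + 2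
  · rw [Y.C1.ip_symm, D.star h.1 hu.1 h.2, ← Finset.sum_subtype
      (Finset.univ.filter fun t => dm K (D.a t) + n = Y.d + 1) (by simp)
      fun t => D.c t * ((Y.C1.ip u (D.b t) : ℚ) * Y.C1.ip (D.a t) z), Finset.sum_filter]
    refine Finset.sum_congr rfl fun t _ => ?_
    split_ifs with h'
    · rw [Y.C1.ip_symm z]
    · have : Y.C1.ip z (D.a t) = 0 := by_contra fun h2 => by
        have := (ip_ne Y h2).2.2
        omega
      rw [this, Int.cast_zero, mul_zero, mul_zero]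
  · have h1 : Y.C1.ip u z = 0 := by_contra fun h2 =>
      h ⟨(ip_ne Y h2).2.1, by have := (ip_ne Y h2).2.2; omega⟩
    rw [h1, Int.cast_zero]
    refine (Finset.sum_eq_zero fun t _ => ?_).symm
    have h3 : Y.C1.ip (D.a t) z = 0 := by_contra fun h2 =>
      h ⟨(ip_ne Y h2).2.1, by have := (ip_ne Y h2).2.2; have := t.2; omega⟩
    rw [h3, Int.cast_zero, mul_zero, mul_zero]

lemma Dec.trace {m : ℕ} (hm : 0 < m) (hI : DefOver (p ^ m) Y.I)
    (a' : Fin D.n → PrimeSpectrum (MvPolynomial σ K))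
    (ha : ∀ t, cm (expand (p ^ m)) (a' t) = D.a t) :
    (Y.fixed (p ^ m) : ℚ) = ∑ n ∈ Finset.range (Y.d + 1), ((p ^ m : ℕ) : ℚ) ^ n *
      ∑ t : {t // dm K (D.a t) + n = Y.d + 1}, D.c t * Y.C1.ip (a' t) (D.b t) := by
  have hQ : 0 < p ^ m := pow_pos (FBar.prime K).pos m
  have h1 : ∀ t, dm K (a' t) = dm K (D.a t) := fun t => by rw [← ha, dm_cm_expand hQ]
  have h2 : ∀ t, dm K (D.a t) ≤ Y.d + 1 := fun t => Y.dm_le (D.ha t).2
  rw [← Y.lefschetz hm hI, Y.C2.bil_symm, D.eq, ← Finset.sum_fiberwise_of_maps_to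
    (t := Finset.range (Y.d + 1)) (g := fun t => Y.d + 1 - dm K (D.a t)) fun t _ => by
      have := D.hd t
      have := Y.dm_le (D.hb t).2
      rw [Finset.mem_range]
      omega]
  refine Finset.sum_congr rfl fun n _ => ?_
  rw [Finset.mul_sum, Finset.sum_subtype (p := fun t => dm K (D.a t) + n = Y.d + 1) _ (fun t => by
    have := h2 t
    rw [Finset.mem_filter]
    exact ⟨fun h => by omega, fun h => ⟨Finset.mem_univ _, by omega⟩⟩)]
  refine Finset.sum_congr rfl fun t _ => ?_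
  have h3 := t.2
  rw [Y.C2.bil_symm, ← ha, Y.bil_gr hI _ _ ((Y.C1.hp_cm_iff hI _).1 (ha t ▸ D.ha t)) (D.hb t)
    (by rw [h1, D.hd]), h1, show Y.d + 1 - dm K (D.a t) = n by omega]
  push_cast
  ring

end Diag

section Inter

variable {k : Type} [Field k] (K : Type) [Field K] [Algebra k K] {σ : Type} [Finite σ]
  {I : Ideal (MvPolynomial σ k)} (hI : Homog I) (hs : ∀ s, Algebra.Smooth k (Chart I s))
  {d : ℕ} (hd : ∀ P ∈ I.minimalPrimes, ringKrullDim (MvPolynomial σ k ⧸ P) = (d + 1 : ℕ))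

/-- The scheme over the bigger field. -/
noncomputable def sm : Sm K σ :=
  ⟨I.map (up K), wHomog_iff_homog.2 (homog_up hI), d, locEt_of_smooth hI hs hd⟩

/-- A subvariety as a point of the spectrum. -/
def pr {i : ℕ} (P : Var I i) : PrimeSpectrum (MvPolynomial σ k) := ⟨P.1, P.2.1⟩

lemma dm_pr {i : ℕ} (P : Var I i) : dm k (pr P) = i + 1 := (dim_iff _ _).1 P.2.2.2.2

variable [Algebra.IsAlgebraic k K] {p : ℕ} [FBar K p]

include p in
lemma chi_ev {i n : ℕ} (h : i + n = d) (P : Var I i) (Q : Var I n) (F : Res I P.1) :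
    (∀ᶠ m in atTop, F.chi Q.1 d m = F.inter Q.1 d) ∧
      (F.inter Q.1 d : ℚ) = (sm K hI hs hd).C1.bil (cl K (pr P)) (cl K (pr Q)) := by
  have hP := wHomog_iff_homog.2 (homog_up (K := K) P.2.2.1)
  have hQ := wHomog_iff_homog.2 (homog_up (K := K) Q.2.2.1)
  have aP : Adm (sm K hI hs hd).C1.I (GMod.cyc _ hP) := adm_cyc hP (Ideal.map_mono P.2.2.2.1)
  have aQ : Adm (sm K hI hs hd).C1.I (GMod.cyc _ hQ) := adm_cyc hQ (Ideal.map_mono Q.2.2.2.1)
  obtain ⟨h1, h2⟩ := (sm K hI hs hd).C1.chi_bil aP aQ (dimLE_up (pr P)) (dimLE_up (pr Q)) (by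
    rw [dm_pr, dm_pr]
    show _ = d + 1 + 1
    omega)
  have hF := cx_cycRes F K (Set.range X)
  rw [(sm K hI hs hd).C1.chi_eq (hF.resolves _ hP) ((sm K hI hs hd).et.qproj hF.cx hF.ex) aQ,
    Cx.theta_mu, Ctx.IntA.germ_iff] at h1
  have h3 : ∀ᶠ m in atTop, F.chi Q.1 d m =
      (sm K hI hs hd).C1.ci (GMod.cyc _ hP) (GMod.cyc _ hQ) := by
    refine h1.mono fun m hm => ?_
    rw [chi_theta F K Q.2.2.1 hQ]
    exact hm
  have h4 : F.inter Q.1 d = (sm K hI hs hd).C1.ci (GMod.cyc _ hP) (GMod.cyc _ hQ) :=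
    (tendsto_const_nhds.congr' (h3.mono fun _ e => e.symm)).limUnder_eq
  rw [h4]
  exact ⟨h3, h2⟩

omit [FBar K p] in
lemma mem_cod {i n : ℕ} (h : i + n = d) (P : Var I i) (z : PrimeSpectrum (MvPolynomial σ K))
    (hz : cl K (pr P) z ≠ 0) : z ∈ cod (sm K hI hs hd) n := by
  have hP := wHomog_iff_homog.2 (homog_up (K := K) P.2.2.1)
  obtain ⟨h1, h2, h3⟩ := cyc_support (adm_cyc (I := I.map (up K)) hP (Ideal.map_mono P.2.2.2.1))
    (dimLE_up (pr P)) hz
  refine ⟨⟨h1, h2⟩, ?_⟩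
  rw [h3, dm_pr]
  show _ = d + 1
  omega

omit [FBar K p] in
lemma exists_var {i n : ℕ} (h : i + n = d) {u : PrimeSpectrum (MvPolynomial σ K)}
    (hu : u ∈ cod (sm K hI hs hd) n) : ∃ P : Var I i, pr P = low k u := by
  refine ⟨⟨(low k u).asIdeal, (low k u).isPrime, homog_low (wHomog_iff_homog.1 hu.1.1),
    le_low.2 hu.1.2, (dim_iff _ _).2 ?_⟩, rfl⟩
  have h1 : dm K u + n = d + 1 := hu.2
  rw [dm_low]
  omega

end Inter

section Rank

variable {k : Type} [Field k] [Fintype k] {K : Type} [Field K] [Algebra k K] {σ : Type} [Finite σ]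
  {I : Ideal (MvPolynomial σ k)} (hI : Homog I) (hs : ∀ s, Algebra.Smooth k (Chart I s))
  {d : ℕ} (hd : ∀ P ∈ I.minimalPrimes, ringKrullDim (MvPolynomial σ k ⧸ P) = (d + 1 : ℕ))
  [Algebra.IsAlgebraic k K] {p : ℕ} [FBar K p] {e : ℕ} (hq : Fintype.card k = p ^ e)

include hq

omit [Algebra.IsAlgebraic k K] in
lemma ip_th (u z : PrimeSpectrum (MvPolynomial σ K)) :
    ((sm K hI hs hd).C1.ip (th k K σ u) (th k K σ z) : ℚ) = (sm K hI hs hd).C1.ip u z := by
  rw [← (sm K hI hs hd).C1.ip_cm (defOver_up' hq I 1), ← pow_one (th k K σ), cm_th' hq, cm_th' hq]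

omit [Algebra.IsAlgebraic k K] in
lemma th_cod (n : ℕ) (u : PrimeSpectrum (MvPolynomial σ K)) (hu : u ∈ cod (sm K hI hs hd) n) :
    th k K σ u ∈ cod (sm K hI hs hd) n := by
  refine ⟨((sm K hI hs hd).C1.hp_cm_iff (defOver_up' hq I 1) _).1 ?_, by rw [dm_th hq]; exact hu.2⟩
  rw [← pow_one (th k K σ), cm_th' hq]
  exact hu.1

lemma rank_num {i n : ℕ} (h : i + n = d) (F : ∀ P : Var I i, Res I P.1) :
    Module.rank ℤ (Num I i n F) = Module.rank ℚ (inv (th k K σ)
      (fun u z => ((sm K hI hs hd).C1.ip u z : ℚ)) (cod (sm K hI hs hd) n)) := by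
  have h3 : ∀ {i n : ℕ}, i + n = d → ∀ u ∈ cod (sm K hI hs hd) n, ∃ P : Var I i,
      Orb (th k K σ) (cl K (pr P)) u := fun h u hu => by
    obtain ⟨P, hP⟩ := exists_var K hI hs hd h hu
    exact ⟨P, hP ▸ orb_cl hq u⟩
  rw [inv_eq (ip_th hI hs hd hq) _ (fun P : Var I i => cl K (pr P)) (fun P => cl_th hq _)
    (mem_cod K hI hs hd h) (h3 h) (th_periodic hq)]
  refine rank_quot _ _ (Submodule.ext fun x => ?_)
  set s := fun P : Var I i => Finsupp.linearCombination ℚ
    (fun u z => ((sm K hI hs hd).C1.ip u z : ℚ)) (cl K (pr P)) with hs'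
  have key : ∀ Q : Var I n, ((Finsupp.linearCombination ℤ
      (fun (P : Var I i) (Q : Var I n) => (F P).inter Q.1 (i + n)) x Q : ℤ) : ℚ) =
      Finsupp.linearCombination ℚ (Finsupp.linearCombination ℤ s x) (cl K (pr Q)) := by
    intro Q
    induction x using Finsupp.induction_linear with
    | zero => simp [Finsupp.linearCombination_apply]
    | add f g hf hg =>
      rw [map_add, Pi.add_apply, Int.cast_add, hf, hg, map_add]
      simp only [Finsupp.linearCombination_apply, Pi.add_apply, smul_add, Finsupp.sum_add]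
    | single P a =>
      rw [Finsupp.linearCombination_single, Finsupp.linearCombination_single, Pi.smul_apply,
        smul_eq_mul, Int.cast_mul, h, (chi_ev K hI hs hd h P Q (F P)).2, bil_eq]
      change _ * Finsupp.linearCombination ℚ (s P) _ = _
      generalize s P = v
      simp [Finsupp.linearCombination_apply, Finsupp.mul_sum, mul_left_comm]
  rw [LinearMap.mem_ker, LinearMap.mem_ker]
  constructor
  · intro h0
    funext z
    by_cases hz : z ∈ cod (sm K hI hs hd) i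
    · obtain ⟨Q, hQ⟩ := h3 (by omega : n + i = d) z hz
      refine hQ.zero (fun y => ?_) (by rw [← key, h0]; simp)
      have h5 : ∀ P, s P (th k K σ y) = s P y := fun P =>
        comb_inv (ip_th hI hs hd hq) (cl_th hq _) y
      simp only [Finsupp.linearCombination_apply ℤ, Finsupp.sum, Finset.sum_apply, Pi.smul_apply,
        h5]
    · rw [Finsupp.linearCombination_apply, Finsupp.sum, Finset.sum_apply]
      refine Finset.sum_eq_zero fun P _ => ?_
      rw [Pi.smul_apply, hs']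
      refine smul_eq_zero_of_right _ ?_
      beta_reduce
      rw [Finsupp.linearCombination_apply, Finsupp.sum, Finset.sum_apply]
      refine Finset.sum_eq_zero fun u hu => ?_
      rw [Pi.smul_apply]
      refine smul_eq_zero_of_right _ (Int.cast_eq_zero.2 ?_)
      by_contra h1
      have h2 : dm K u + n = d + 1 := (mem_cod K hI hs hd h P u (Finsupp.mem_support_iff.1 hu)).2
      have h4 : dm K u + dm K z = d + 2 := (ip_ne _ h1).2.2
      exact hz ⟨(ip_ne _ h1).2.1, by show _ = d + 1; omega⟩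
  · intro h0
    funext Q
    have := key Q
    rw [h0] at this
    simpa [Finsupp.linearCombination_apply] using this

end Rank

end Pool.Agent.Lib.MP_557161_ag.DL.T0
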