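import Pool.Agent.Lib.MP_557161_ag.DL.Term1

/-!
The terminal case: all letters are larger than `b`.
-/

namespace Pool.Agent.Lib.MP_557161_ag.DL

open Module Submodule Matrix

namespace Term

section Val

variable {K : Type} [Field K] {M : Fld K} {O : Pl M} {ι ι₂ : Type} [Fintype ι] [Fintype ι₂]

lemma arch (hO : O.IsDVR) {t : M} (ht : t ∈ O.O) (h0 : O.rd t = 0) (a : M) :
    ∀ᶠ n in Filter.atTop, t ^ n * a ∈ O.O ∧ O.rd (t ^ n * a) = 0 := by
  filter_upwards [Filter.eventually_gt_atTop (O.ord a).natAbs] with n hn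
  by_cases h : t ^ n * a = 0
  · rw [h]; exact ⟨zero_mem _, O.rd_zero⟩
  have h1 : t ≠ 0 := by
    rintro rfl
    exact h (by rw [zero_pow (by omega), zero_mul])
  have h2 := (Pl.ord_pos_iff hO h1).2 ⟨ht, h0⟩
  rw [← Pl.ord_pos_iff hO h, Pl.ord_mul hO (left_ne_zero_of_mul h) (right_ne_zero_of_mul h),
    Pl.ord_pow hO]
  have : (n : ℤ) ≤ n * O.ord t := le_mul_of_one_le_right (by positivity) h2
  omega

omit [Fintype ι₂] in
lemma exists_int_gen (O : Pl M) {ℓ : Submodule M (ι → M)} (h : finrank M ℓ = 1) :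
    ∃ x, IntV O x ∧ ℓ = span M {x} ∧ sred O ℓ = span O.res {rdV O x} := by
  obtain ⟨u, u0, hu⟩ := exists_gen_line ((finrank_sred O ℓ).trans h)
  obtain ⟨x, hx, ix, rfl⟩ := hu.ge (mem_span_singleton_self u)
  have h0 : x ≠ 0 := fun e => u0 (by simp [e])
  refine ⟨x, ix, (eq_of_le_of_finrank_le ((span_singleton_le_iff_mem _ _).2 hx) ?_).symm, hu⟩
  rw [h, finrank_span_singleton h0]

/-- A vector of the correspondence whose second component is very small reduces into the kernel. -/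
lemma small (hO : O.IsDVR) {G : Matrix ι ι M} {G₂ : Matrix ι₂ ι₂ M} (hG : EForm (dsum G G₂))
    {b : ℕ} {Λ : Submodule M (ι ⊕ ι₂ → M)} (h : GoodL G G₂ b Λ) {t : ι₂ → M} (ht : IntV O t)
    (h0 : rdV O t = 0) : ∀ᶠ n in Filter.atTop, ∀ y ∈ Λ, IntV O y →
      (∀ j, y (Sum.inr j) = t j ^ n) → rdV O (y ∘ Sum.inl) ∈ sred O (trf Λ ⊥) := by
  classical
  choose v hv using fun j => h.exists_lift hG (Pi.single j 1)
  filter_upwards [Filter.eventually_all.2 fun j => Filter.eventually_all.2 fun i =>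
    arch hO (ht j) (congrFun h0 j) (v j i)] with n hn y hy iy e
  have h1 : ∀ j, IntV O (t j ^ n • v j) := fun j i => (hn j i).1
  have h2 := IntV.sum Finset.univ fun j _ => h1 j
  refine ⟨y ∘ Sum.inl - ∑ j, t j ^ n • v j, mem_trf.2 ⟨0, zero_mem _, ?_⟩,
    IntV.sub (fun i => iy _) h2, ?_⟩
  · convert sub_mem hy (sum_mem (t := Finset.univ) fun j _ => smul_mem _ (t j ^ n) (hv j)) using 1
    funext i
    cases i <;> simp [Finset.sum_apply, e, Pi.single_apply]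
  · rw [rdV_sub (x := y ∘ Sum.inl) (fun i => iy _) h2, rdV_sum _ fun j _ => h1 j, Finset.sum_eq_zero, sub_zero]
    exact fun j _ => funext fun i => (hn j i).2

lemma fred_up {G : Matrix ι ι M} {G₂ : Matrix ι₂ ι₂ M} {G' : Matrix ι ι O.res}
    {G₂' : Matrix ι₂ ι₂ O.res} (hG : EForm (dsum G G₂)) (hG' : EForm (dsum G' G₂')) {n b : ℕ}
    {Λ : Submodule M (ι ⊕ ι₂ → M)} (h : GoodL G G₂ b Λ) (h' : GoodL G' G₂' b (sred O Λ))
    {lo : ℕ → Submodule M (ι → M)} {lo' : ℕ → Submodule O.res (ι → O.res)}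
    (hl : ∀ i ≤ b, sred O (lo i) = lo' i) (E : Flg M ι₂) :
    fred O (up n b lo Λ E) = up n b lo' (sred O Λ) (fred O E) := by
  refine Finsupp.ext fun i => ?_
  rw [fred_apply, up_apply, up_apply]
  split_ifs with h₁ h₂
  · exact sred_bot O
  · exact hl i h₂
  · exact sred_trf hG hG' h h' _

end Val

lemma form {k₀ : Type} [Field k₀] {K : Type} [Field K] [Algebra k₀ K] {ι ι₂ : Type} [Fintype ι]
    [Fintype ι₂] {G : Matrix ι ι k₀} {G₂ : Matrix ι₂ ι₂ k₀} (hG : EForm (dsum G G₂)) (L : Fld K) :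
    EForm (dsum (gm G L) (gm G₂ L)) := gm_dsum G G₂ L ▸ hG.gm L

lemma sred_asp {k₀ : Type} [Field k₀] [Fintype k₀] {K : Type} [Field K] [Algebra k₀ K] {ι : Type}
    [Fintype ι] {M : Fld K} (O : Pl M) {ℓ : Submodule M (ι → M)} {i : ℕ}
    (h : finrank M (Asp (frH k₀ M) ℓ i) = i)
    (h' : finrank O.res (Asp (frH k₀ O.res) (sred O ℓ) i) = i) :
    sred O (Asp (frH k₀ M) ℓ i) = Asp (frH k₀ O.res) (sred O ℓ) i :=
  (eq_of_le_of_finrank_le (asp_le_sred O ℓ i) (by rw [finrank_sred, h, h'])).symm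

end Term

open Term

variable {k₀ : Type} [Field k₀] [Fintype k₀] {K : Type} [Field K] [Algebra k₀ K] [Base K]
  {ι : Type} [Fintype ι] [NeZero (2 : k₀)]

omit [Base K] [NeZero (2 : k₀)] in
/-- The torsor is proper over the space of lines. -/
lemma isT_red {ι₂ : Type} [Fintype ι₂] {G : Matrix ι ι k₀} {G₂ : Matrix ι₂ ι₂ k₀}
    (hG : EForm (dsum G G₂)) {τ : Bool} {b : ℕ} (hb : 1 ≤ b) {M : Fld K} {O : Pl M} (hO : O.IsDVR)
    {ℓ : Submodule M (ι → M)} {Λ : Submodule M (ι ⊕ ι₂ → M)}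
    (h : IsT (gm G M) (gm G₂ M) (frH k₀ M) τ b ℓ Λ)
    (hr : finrank O.res (Asp (frH k₀ O.res) (sred O ℓ) b) = b)
    (hp : PosT (gm G O.res) (frH k₀ O.res) τ b (sred O ℓ)) :
    IsT (gm G O.res) (gm G₂ O.res) (frH k₀ O.res) τ b (sred O ℓ) (sred O Λ) := by
  obtain ⟨x, ix, hx, hx'⟩ := exists_int_gen O h.line
  have hA := sred_asp O (by rw [h.asp]; exact h.good.2.1) hr
  have hL := ((gm_red G O).dsum (gm_red G₂ O)).lag (form hG M) (form hG _) h.good.1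
  obtain ⟨w, hw, iw, hw'⟩ : ∃ w ∈ smap (frH k₀ M) (Asp (frH k₀ M) ℓ b), IntV O w ∧
      (τ = true ∨ bf (gm G M) x w = 1) := by
    obtain ⟨w, hw, hw'⟩ := exists_w hp hx'
    rw [← hA, ← sred_frH] at hw
    obtain ⟨w, hw, iw, rfl⟩ := hw
    rcases hw' with e | e
    · exact ⟨w, hw, iw, Or.inl e⟩
    obtain ⟨h1, h2⟩ := (gm_red G O).bf ix iw
    obtain ⟨h3, h4⟩ := (O.rd_ne_zero_iff h1).1 (h2 ▸ e)
    exact ⟨_ • w, smul_mem _ _ hw, IntV.smul h4 iw,
      Or.inr (by rw [bf_smul_right, inv_mul_cancel₀ h3])⟩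
  have iw' : IntV O (Sum.elim w (0 : ι₂ → M)) := fun i => by
    cases i
    · exact iw _
    · exact zero_mem _
  have step := fun y hy => h.adapt (adj (form hG M) (gm_frH G M) (gm_frH G₂ M) h hx hw hw' (y := y) hy)
  have h1 : Asp (frH k₀ O.res) (sred O ℓ) b ≤ trf (sred O Λ) ⊥ := by
    rw [← hA, h.asp]; exact sred_trf_bot_le O Λ
  have key : trf (sred O Λ) ⊥ ≤ Asp (frH k₀ O.res) (sred O ℓ) b := fun v hv => by
    by_contra hv'
    obtain ⟨z, hz, y₀, hy₀, iy₀, e₀⟩ := mem_trf.1 hv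
    obtain rfl := (mem_bot _).1 hz
    have t0 : ∀ j, O.rd (y₀ (Sum.inr j)) = 0 := fun j => congrFun e₀ (Sum.inr j)
    have hq := Fintype.one_lt_card (α := k₀)
    have it : ∀ k : ℕ, ∃ y ∈ Λ, IntV O y ∧
        (∀ j, y (Sum.inr j) = y₀ (Sum.inr j) ^ Fintype.card k₀ ^ k) ∧
        rdV O (y ∘ Sum.inl) ∉ Asp (frH k₀ O.res) (sred O ℓ) b := fun k => by
      induction k with
      | zero => exact ⟨y₀, hy₀, iy₀, by simp,
          (show rdV O (y₀ ∘ Sum.inl) = v from funext fun i => congrFun e₀ (Sum.inl i)) ▸ hv'⟩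
      | succ k ih =>
        obtain ⟨y, hy, iy, e, hy'⟩ := ih
        have iF : IntV O (mapV (frH k₀ M) y) := fun i => (frH_mem_iff O).2 (iy i)
        have hc := ((gm_red G O).bf ix (y := mapV (frH k₀ M) y ∘ Sum.inl) fun i => iF _).1
        refine ⟨_, step _ (mapV_mem _ hy), iF.sub (IntV.smul hc iw'), fun j => ?_, fun e' => hy' ?_⟩
        · simp [mapV, e, frH_apply, pow_succ, pow_mul]
        refine back (gm_frH G _) hL hb hx' h1 hp (mem_trf.2 ⟨0, zero_mem _, y, hy, iy, ?_⟩)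
          (w := rdV O (bf (gm G M) x (mapV (frH k₀ M) y ∘ Sum.inl) • w)) ?_ ?_
        · funext i
          cases i with
          | inl i => rfl
          | inr j =>
            show O.rd (y (Sum.inr j)) = 0
            rw [e, O.rd_pow (iy₀ _), t0, zero_pow (by positivity)]
        · rw [← hA, ← sred_frH]
          exact rdV_mem (smul_mem _ _ hw) (IntV.smul hc iw)
        · convert e' using 1
          funext i
          exact (congrArg (· - _) (rd_frH O _).symm).trans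
            (O.rd_sub (iF (Sum.inl i)) (IntV.smul hc iw i)).symm
    obtain ⟨k, hk⟩ := ((tendsto_pow_atTop_atTop_of_one_lt hq).eventually
      (small hO (form hG M) h.good (t := y₀ ∘ Sum.inr) (fun j => iy₀ _) (funext t0))).exists
    obtain ⟨y, hy, iy, e, hy'⟩ := it k
    exact hy' (by rw [← hA, h.asp]; exact hk y hy iy e)
  refine ⟨(finrank_sred O ℓ).trans h.line, ⟨hL, by rw [← le_antisymm h1 key, hr], h.good.2.2⟩,
    le_antisymm h1 key, ?_, hp⟩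
  rw [← sred_frH]
  rintro _ ⟨⟨y, hy, iy, rfl⟩, hy'⟩
  obtain ⟨h2, h3⟩ := (gm_red G O).bf ix (y := y ∘ Sum.inl) fun i => iy _
  have h4 : O.rd (bf (gm G M) x (y ∘ Sum.inl)) = 0 :=
    h3.trans (mem_perp_span.1 (hx' ▸ mem_cyl.1 hy'))
  refine ⟨_, step y hy, iy.sub (IntV.smul h2 iw'), ?_⟩
  rw [rdV_sub iy (IntV.smul h2 iw'), rdV_smul h2 iw', h4, zero_smul, sub_zero]

namespace Term

variable {ι₂ : Type} [Fintype ι₂] {G : Matrix ι ι k₀} {G₂ : Matrix ι₂ ι₂ k₀} {n n₂ b : ℕ} {τ : Bool}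
  {u : List ℕ}

/-- The lift of the first flag. -/
noncomputable def upA (k₀ : Type) [Field k₀] [Fintype k₀] [Algebra k₀ K] (n b : ℕ) {L : Fld K}
    (ℓ : Submodule L (ι → L)) (Λ : Submodule L (ι ⊕ ι₂ → L)) : Flg L ι₂ → Flg L ι :=
  up n b (Asp (frH k₀ L) ℓ) Λ

/-- The lift of the other flags. -/
noncomputable def upF (k₀ : Type) [Field k₀] [Fintype k₀] [Algebra k₀ K] (n b : ℕ) {L : Fld K}
    (ℓ : Submodule L (ι → L)) (Λ : Submodule L (ι ⊕ ι₂ → L)) : Flg L ι₂ → Flg L ι :=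
  up n b (fun i => smap (frH k₀ L) (Asp (frH k₀ L) ℓ i)) (smap (frH k₀ L) Λ)

omit [Base K] [NeZero (2 : k₀)]

lemma upA_map {L L' : Fld K} (κ : L →ₐ[K] L') (ℓ : Submodule L (ι → L))
    (Λ : Submodule L (ι ⊕ ι₂ → L)) (E : Flg L ι₂) :
    upA k₀ n b (smap κ.toRingHom ℓ) (smap κ.toRingHom Λ) (fmap κ.toRingHom E) =
      fmap κ.toRingHom (upA k₀ n b ℓ Λ E) := by
  rw [upA, upA, fmap_up]
  simp only [smap_asp _ (map_frH κ)]

lemma upF_map {L L' : Fld K} (κ : L →ₐ[K] L') (ℓ : Submodule L (ι → L))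
    (Λ : Submodule L (ι ⊕ ι₂ → L)) (E : Flg L ι₂) :
    upF k₀ n b (smap κ.toRingHom ℓ) (smap κ.toRingHom Λ) (fmap κ.toRingHom E) =
      fmap κ.toRingHom (upF k₀ n b ℓ Λ E) := by
  rw [upF, upF, fmap_up]
  simp only [← smap_asp _ (map_frH κ), smap_frH]

variable (hG : EForm (dsum G G₂)) {M : Fld K} {O : Pl M} {ℓ : Submodule M (ι → M)}
  {Λ : Submodule M (ι ⊕ ι₂ → M)} (h : IsT (gm G M) (gm G₂ M) (frH k₀ M) τ b ℓ Λ)
  (h' : IsT (gm G O.res) (gm G₂ O.res) (frH k₀ O.res) τ b (sred O ℓ) (sred O Λ))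

include hG h h'

lemma upA_red (E : Flg M ι₂) :
    upA k₀ n b (sred O ℓ) (sred O Λ) (fred O E) = fred O (upA k₀ n b ℓ Λ E) :=
  (fred_up (form hG M) (form hG _) h.good h'.good (fun i hi => sred_asp O
    ((ch_of_isT (form hG M) h).rank i hi) ((ch_of_isT (form hG _) h').rank i hi)) E).symm

lemma upF_red (E : Flg M ι₂) :
    upF k₀ n b (sred O ℓ) (sred O Λ) (fred O E) = fred O (upF k₀ n b ℓ Λ E) := by
  have h1 := (ch_frob (form hG _) (gm_frH G _) (gm_frH G₂ _) h').good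
  rw [← sred_frH] at h1
  rw [upF, upF, ← sred_frH]
  refine (fred_up (form hG M) (form hG _) (ch_frob (form hG _) (gm_frH G _) (gm_frH G₂ _) h).good
    h1 (fun i hi => ?_) E).symm
  rw [sred_frH, sred_asp O ((ch_of_isT (form hG M) h).rank i hi)
    ((ch_of_isT (form hG _) h').rank i hi)]

omit h h'

/-- The covering of a terminal variety. -/
noncomputable def mor (τ : Bool) (hb : 1 ≤ b) (hn : n = n₂ + b) (hu : ∀ s ∈ u, b < s) :
    Mor ((TS K G G₂ τ b).prod (XC K G₂ n₂ (u.map (· - b)))) (YS K G n τ b u) where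
  f y := (upA k₀ n b y.1.1 y.1.2 y.2.1, upF k₀ n b y.1.1 y.1.2 y.2.1,
    y.2.2.map (upF k₀ n b y.1.1 y.1.2))
  mem {L} := by
    rintro ⟨⟨ℓ, Λ⟩, E, Es⟩ ⟨h, hE, hp⟩
    have hc := ch_frob (form hG L) (gm_frH G L) (gm_frH G₂ L) h
    have h₁ := hc.path hn hu hp
    rw [← fmap_up] at h₁
    exact ⟨(ch_of_isT (form hG L) h).isFl hn hE, hc.isFl hn hE,
      rel_up (form hG L) (gm_frH G L) (gm_frH G₂ L) hb (by omega) h hE, h₁⟩
  nat κ := by
    rintro ⟨⟨ℓ, Λ⟩, E, Es⟩ -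
    refine Prod.ext (upA_map κ ℓ Λ E) (Prod.ext (upF_map κ ℓ Λ E) ?_)
    exact (List.map_map.trans (List.map_congr_left fun E _ => upF_map κ ℓ Λ E)).trans
      List.map_map.symm
  cont O := by
    rintro ⟨⟨ℓ, Λ⟩, E, Es⟩ - ⟨h, -⟩ ⟨h', -⟩
    refine Prod.ext (upA_red hG h h' E) (Prod.ext (upF_red hG h h' E) ?_)
    exact (List.map_map.trans (List.map_congr_left fun E _ => upF_red hG h h' E)).trans
      List.map_map.symm

lemma mor_proper (τ : Bool) (hb : 1 ≤ b) (hn : n = n₂ + b) (hu : ∀ s ∈ u, b < s) :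
    (mor (K := K) hG τ hb hn hu).Proper := by
  rintro M O ⟨⟨ℓ, Λ⟩, E, Es⟩ hO ⟨h, hE, hp⟩ ⟨hA, hD, hr, hp'⟩
  obtain ⟨h1, -, h2⟩ := lower hb (by omega) hu hA hD hr hp'
  have e : (fred O (upA k₀ n b ℓ Λ E)) 1 = sred O ℓ :=
    congrArg (sred O) ((up_lo (by omega) hb).trans asp_one)
  refine ⟨isT_red hG hb hO h ?_ (e ▸ h2), (gm_red G₂ O).isFl hE,
    (fred_frH (k₀ := k₀) O E) ▸ (gm_red G₂ O).path hp⟩
  exact e ▸ h1 b le_rfl ▸ hA.rank b (by omega)

end Term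

theorem ck_terminal {G : Matrix ι ι k₀} (hG : EForm G) {n : ℕ} (hn : n = Fintype.card ι / 2)
    (ih : ∀ m < Fintype.card ι, ∀ G₂ : Matrix (Fin m) (Fin m) k₀, EForm G₂ →
      ∀ u : List ℕ, (∀ s ∈ u, 1 ≤ s ∧ s ≤ m / 2) → CK (XC K G₂ (m / 2) u))
    (τ : Bool) {b : ℕ} (hb : 1 ≤ b) (hbn : b ≤ n) {u : List ℕ} (hu : ∀ s ∈ u, b < s ∧ s ≤ n) :
    CK (YS K G n τ b u) := by
  have hu' : ∀ s ∈ u, b < s := fun s hs => (hu s hs).1
  refine CK.family (α := {p : Σ m : ℕ, Matrix (Fin m) (Fin m) k₀ //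
      EForm (dsum G p.2) ∧ Fintype.card ι = p.1 + 2 * b})
    (fun a => mor a.2.1 τ hb (n₂ := a.1.1 / 2) (by have := a.2.2; omega) hu')
    (fun a => mor_proper _ _ _ _ _) ?_ fun a => (ck_ts a.2.1 τ hb).prod
      (ih _ (by have := a.2.2; omega) _ a.2.1.right _ fun s hs => ?_)
  · rintro L _ ⟨A, D, Es⟩ ⟨hA, hD, hr, hp⟩
    obtain ⟨h1, h2, h3⟩ := lower hb hbn hu' hA hD hr hp
    obtain ⟨m, G₂, Λ, h₂, h⟩ := exists_isT hG hb (hA.rank 1 (by omega))
      (h1 b le_rfl ▸ hA.rank b hbn) (h1 b le_rfl ▸ hA.le_perp b b) h3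
    have hm : Fintype.card ι = m + 2 * b := by simpa using h.good.2.2
    have hn' : n = m / 2 + b := by omega
    have hc := ch_frob (form h₂ L) (gm_frH G L) (gm_frH G₂ L) h
    obtain ⟨E, hE, eA⟩ := (ch_of_isT (form h₂ L) h).exists_down hn' hA h1
    obtain ⟨E', hE', eD⟩ := hc.exists_down hn' hD h2
    obtain rfl := eq_of_rel (form h₂ L) (gm_frH G L) (gm_frH G₂ L) hb hn' h hE hE'
      (eA.symm ▸ eD.symm ▸ hr)
    have hF : IsFl (gm G₂ L) (m / 2) (fmap (frH k₀ L) E') := by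
      have := (isFl_fmap (frH k₀ L)).2 hE
      rwa [gm_frH] at this
    obtain ⟨Es₂, hp₂, eE⟩ := hc.path_down hn' hu' hE hF (Es := Es) (by
      rw [← fmap_up, eA, eD]; exact hp)
    exact ⟨⟨⟨m, G₂⟩, h₂, hm⟩, ((_, Λ), E', Es₂), ⟨h, hE, hp₂⟩, Prod.ext eA (Prod.ext eD eE)⟩
  · obtain ⟨t, ht, rfl⟩ := List.mem_map.1 hs
    have := hu t ht
    have := a.2.2
    omega

end Pool.Agent.Lib.MP_557161_ag.DL
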