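import Pool.Agent.Lib.MP_557161_ag.DL.HP

/-!
Lifting of flags along a Lagrangian correspondence.
-/

namespace Pool.Agent.Lib.MP_557161_ag.DL

open Module Submodule Matrix

namespace Term

variable {L L' : Type} [Field L] [Field L'] {ι ι₂ : Type} [Fintype ι] [Fintype ι₂]
  {G : Matrix ι ι L} {G₂ : Matrix ι₂ ι₂ L} {n n₂ b : ℕ} {lo : ℕ → Submodule L (ι → L)}
  {Λ : Submodule L (ι ⊕ ι₂ → L)} {E E' : Flg L ι₂} {D : Flg L ι}

lemma iso_trf_bot (h : Lag (dsum G G₂) Λ) : Iso G (trf Λ ⊥) := by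
  intro v hv w hw
  obtain ⟨z, hz, hv⟩ := mem_trf.1 hv
  obtain ⟨z', hz', hw⟩ := mem_trf.1 hw
  obtain rfl := (mem_bot L).1 hz
  have := h.ge hv _ hw
  rw [bf_dsum] at this
  simpa using this

/-- The flag with lower part `lo` whose upper part is the transfer of `E`. -/
noncomputable def up (n b : ℕ) (lo : ℕ → Submodule L (ι → L)) (Λ : Submodule L (ι ⊕ ι₂ → L))
    (E : Flg L ι₂) : Flg L ι :=
  Finsupp.onFinset (Finset.range (n + 1))
    (fun i => if n < i then ⊥ else if i ≤ b then lo i else trf Λ (E (i - b))) fun i h => by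
      by_contra hi
      exact h (if_pos (by simpa [Nat.lt_succ_iff] using hi))

omit [Fintype ι] [Fintype ι₂] in
lemma up_apply (i : ℕ) : up n b lo Λ E i =
    if n < i then ⊥ else if i ≤ b then lo i else trf Λ (E (i - b)) := rfl

omit [Fintype ι] [Fintype ι₂] in
lemma up_out {i : ℕ} (h : n < i) : up n b lo Λ E i = ⊥ := if_pos h

omit [Fintype ι] [Fintype ι₂] in
lemma up_lo (hn : b ≤ n) {i : ℕ} (h : i ≤ b) : up n b lo Λ E i = lo i := by
  rw [up_apply, if_neg (by omega), if_pos h]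

omit [Fintype ι] [Fintype ι₂] in
lemma up_hi' {i : ℕ} (h : b < i) (h' : i ≤ n) : up n b lo Λ E i = trf Λ (E (i - b)) := by
  rw [up_apply, if_neg (by omega), if_neg (by omega)]

lemma fmap_up (κ : L →+* L') : fmap κ (up n b lo Λ E) =
    up n b (fun i => smap κ (lo i)) (smap κ Λ) (fmap κ E) := by
  refine Finsupp.ext fun i => ?_
  rw [fmap_apply, up_apply, up_apply]
  split_ifs
  · exact smap_bot κ
  · rfl
  · exact smap_trf κ _ _

/-- The lower part is a flag that ends in the kernel of the correspondence. -/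
structure Ch (G : Matrix ι ι L) (G₂ : Matrix ι₂ ι₂ L) (b : ℕ) (lo : ℕ → Submodule L (ι → L))
    (Λ : Submodule L (ι ⊕ ι₂ → L)) : Prop where
  form : EForm (dsum G G₂)
  good : GoodL G G₂ b Λ
  rank : ∀ i ≤ b, finrank L (lo i) = i
  le : ∀ i < b, lo i ≤ lo (i + 1)
  top : lo b = trf Λ ⊥

lemma Ch.map (h : Ch G G₂ b lo Λ) (κ : L →+* L') :
    Ch (G.map κ) (G₂.map κ) b (fun i => smap κ (lo i)) (smap κ Λ) :=
  ⟨dsum_map κ G G₂ ▸ h.form.map κ, (goodL_smap κ).2 h.good,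
    fun i hi => (finrank_smap κ _).trans (h.rank i hi), fun i hi => smap_mono κ (h.le i hi),
    by rw [h.top, smap_trf, smap_bot]⟩

lemma Ch.up_hi (h : Ch G G₂ b lo Λ) (hE : IsFl G₂ n₂ E) {i : ℕ} (hi : b ≤ i) (hi' : i ≤ n) :
    up n b lo Λ E i = trf Λ (E (i - b)) := by
  rcases hi.lt_or_eq with hi | rfl
  · exact up_hi' hi hi'
  · rw [up_lo hi' le_rfl, h.top, Nat.sub_self, hE.zero]

lemma Ch.isFl (h : Ch G G₂ b lo Λ) (hn : n = n₂ + b) (hE : IsFl G₂ n₂ E) :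
    IsFl G n (up n b lo Λ E) := by
  refine ⟨fun i hi => ?_, fun i hi => ?_, ?_, fun i hi => up_out hi⟩
  · by_cases hb : i ≤ b
    · rw [up_lo (by omega) hb, h.rank i hb]
    · rw [up_hi' (by omega) hi, h.good.finrank_trf h.form, hE.rank _ (by omega)]; omega
  · by_cases hb : i < b
    · rw [up_lo (by omega) hb.le, up_lo (by omega) hb]; exact h.le i hb
    · rw [h.up_hi hE (by omega) hi.le, h.up_hi hE (by omega) hi]
      exact trf_mono Λ (hE.mono (by omega) (by omega))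
  · rw [h.up_hi hE (by omega) le_rfl, h.good.iso_trf h.form, show n - b = n₂ by omega]
    exact hE.iso

omit [Fintype ι] [Fintype ι₂] in
lemma adj_up {s : ℕ} (hs : b < s) (ha : Adj (s - b) E E') :
    Adj s (up n b lo Λ E) (up n b lo Λ E') := fun i hi => by
  rw [up_apply, up_apply]
  split_ifs
  · rfl
  · rfl
  · rw [ha _ (by omega)]

lemma Ch.eq_of_up (h : Ch G G₂ b lo Λ) (hn : n = n₂ + b) (hE : IsFl G₂ n₂ E) (hE' : IsFl G₂ n₂ E')
    {j : ℕ} (e : up n b lo Λ E (j + b) = up n b lo Λ E' (j + b)) : E j = E' j := by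
  by_cases hj : j ≤ n₂
  · rw [h.up_hi hE (by omega) (by omega), h.up_hi hE' (by omega) (by omega),
      Nat.add_sub_cancel] at e
    exact le_antisymm ((h.good.trf_le_iff h.form).1 e.le) ((h.good.trf_le_iff h.form).1 e.ge)
  · rw [hE.out j (by omega), hE'.out j (by omega)]

lemma Ch.path (h : Ch G G₂ b lo Λ) (hn : n = n₂ + b) {u : List ℕ} (hu : ∀ s ∈ u, b < s)
    {Es : List (Flg L ι₂)} {Z : Flg L ι₂} (hp : Path G₂ n₂ (u.map (· - b)) E Es Z) :
    Path G n u (up n b lo Λ E) (Es.map (up n b lo Λ)) (up n b lo Λ Z) := by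
  induction u generalizing E Es with
  | nil =>
    obtain ⟨rfl, rfl⟩ := path_nil.1 hp
    exact path_nil.2 ⟨rfl, rfl⟩
  | cons s u ih =>
    obtain ⟨E', Es', rfl, h₁, h₂, h₃⟩ := path_cons.1 hp
    exact path_cons.2 ⟨_, _, rfl, adj_up (hu s (by simp)) h₁, h.isFl hn h₂,
      ih (fun t ht => hu t (by simp [ht])) h₃⟩

lemma Ch.exists_down (h : Ch G G₂ b lo Λ) (hn : n = n₂ + b) (hD : IsFl G n D)
    (hl : ∀ i ≤ b, D i = lo i) : ∃ E, IsFl G₂ n₂ E ∧ up n b lo Λ E = D := by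
  have h0 : trf Λ ⊥ = D b := h.top.symm.trans (hl b le_rfl).symm
  have ex : ∀ j, ∃ E, (j ≤ n₂ → trf Λ E = D (j + b)) ∧ (n₂ < j → E = ⊥) := fun j => by
    by_cases hj : j ≤ n₂
    · obtain ⟨E, hE⟩ := h.good.exists_trf h.form (D := D (j + b))
        (h0 ▸ hD.mono (by omega) (by omega)) (h0 ▸ hD.le_perp _ _)
      exact ⟨E, fun _ => hE, fun e => absurd hj (by omega)⟩
    · exact ⟨⊥, fun e => absurd e hj, fun _ => rfl⟩
  choose f hf hf' using ex
  refine ⟨Finsupp.onFinset (Finset.range (n₂ + 1)) f fun j hj => ?_,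
    ⟨fun j hj => ?_, fun j hj => ?_, ?_, hf'⟩, Finsupp.ext fun i => ?_⟩
  · by_contra e
    exact hj (hf' j (by simpa [Nat.lt_succ_iff] using e))
  · have := h.good.finrank_trf h.form (f j)
    rw [hf j hj, hD.rank _ (by omega)] at this
    show finrank L (f j) = j
    omega
  · refine (h.good.trf_le_iff h.form (E := f j) (E' := f (j + 1))).1 ?_
    rw [hf j hj.le, hf (j + 1) hj]
    exact hD.mono (by omega) (by omega)
  · refine (h.good.iso_trf h.form (E := f n₂)).1 ?_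
    rw [hf n₂ le_rfl, ← hn]
    exact hD.iso
  · rw [up_apply]
    split_ifs with h₁ h₂
    · exact (hD.out i h₁).symm
    · exact (hl i h₂).symm
    · refine (hf (i - b) (by omega)).trans ?_
      rw [Nat.sub_add_cancel (by omega)]

lemma Ch.path_down (h : Ch G G₂ b lo Λ) (hn : n = n₂ + b) {u : List ℕ} (hu : ∀ s ∈ u, b < s)
    (hE : IsFl G₂ n₂ E) {Es : List (Flg L ι)} {Z : Flg L ι₂} (hZ : IsFl G₂ n₂ Z)
    (hp : Path G n u (up n b lo Λ E) Es (up n b lo Λ Z)) :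
    ∃ Es₂, Path G₂ n₂ (u.map (· - b)) E Es₂ Z ∧ Es₂.map (up n b lo Λ) = Es := by
  induction u generalizing E Es with
  | nil =>
    obtain ⟨rfl, e⟩ := path_nil.1 hp
    exact ⟨[], path_nil.2 ⟨rfl, Finsupp.ext fun j => h.eq_of_up hn hE hZ (by rw [e])⟩, rfl⟩
  | cons s u ih =>
    obtain ⟨D', Es', rfl, h₁, h₂, h₃⟩ := path_cons.1 hp
    have hs := hu s (by simp)
    obtain ⟨E', hE', rfl⟩ := h.exists_down hn h₂ fun i hi =>
      (h₁ i (by omega)).symm.trans (up_lo (by omega) hi)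
    obtain ⟨Es₂, h₄, rfl⟩ := ih (fun t ht => hu t (by simp [ht])) hE' h₃
    exact ⟨E' :: Es₂, path_cons.2 ⟨_, _, rfl,
      fun j (hj : j ≠ s - b) => h.eq_of_up hn hE hE' (h₁ _ (by omega)), hE', h₄⟩, rfl⟩

variable {φ : L →+* L} {τ : Bool} {ℓ : Submodule L (ι → L)} {x w : ι → L}

lemma ch_of_isT (hG : EForm (dsum G G₂)) (h : IsT G G₂ φ τ b ℓ Λ) : Ch G G₂ b (Asp φ ℓ) Λ :=
  ⟨hG, h.good, fun _ hi => finrank_asp_of_le h.line (by rw [h.asp]; exact h.good.2.1) hi,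
    fun _ _ => asp_mono (Nat.le_succ _), h.asp⟩

lemma ch_frob (hG : EForm (dsum G G₂)) (hφ : G.map φ = G) (hφ₂ : G₂.map φ = G₂)
    (h : IsT G G₂ φ τ b ℓ Λ) : Ch G G₂ b (fun i => smap φ (Asp φ ℓ i)) (smap φ Λ) := by
  have := (ch_of_isT hG h).map φ
  rwa [hφ, hφ₂] at this

/-- A vector of the image of the correspondence is moved into the correspondence. -/
lemma adj (hG : EForm (dsum G G₂)) (hφ : G.map φ = G) (hφ₂ : G₂.map φ = G₂)
    (h : IsT G G₂ φ τ b ℓ Λ) (hx : ℓ = span L {x}) (hw : w ∈ smap φ (Asp φ ℓ b))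
    (hw' : τ = true ∨ bf G x w = 1) {y : ι ⊕ ι₂ → L} (hy : y ∈ smap φ Λ) :
    y - bf G x (y ∘ Sum.inl) • Sum.elim w 0 ∈ smap φ Λ ⊓ cyl ι₂ (perp G ℓ) := by
  have hc := ch_frob hG hφ hφ₂ h
  have h0 : ∀ v ∈ smap φ (Asp φ ℓ b), Sum.elim v (0 : ι₂ → L) ∈ smap φ Λ := fun v hv => by
    obtain ⟨z, hz, e⟩ := mem_trf.1 (hc.top.le hv)
    rwa [(mem_bot L).1 hz] at e
  refine ⟨sub_mem hy (smul_mem _ _ (h0 w hw)), mem_cyl.2 ?_⟩
  rw [hx, mem_perp_span]
  show bf G x (y ∘ Sum.inl - bf G x (y ∘ Sum.inl) • w) = 0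
  rw [bf_sub_right, bf_smul_right]
  rcases hw' with rfl | e
  · have h1 := hc.good.1.ge hy _ (h0 x (h.pos (hx.ge (mem_span_singleton_self x))))
    rw [bf_dsum] at h1
    have h2 : bf G x (y ∘ Sum.inl) = 0 := by simpa using h1
    rw [h2, zero_mul, sub_zero]
  · rw [e, mul_one, sub_self]

lemma exists_w (hp : PosT G φ τ b ℓ) (hx : ℓ = span L {x}) :
    ∃ w ∈ smap φ (Asp φ ℓ b), τ = true ∨ bf G x w ≠ 0 := by
  cases τ
  · obtain ⟨w, hw, h⟩ := SetLike.not_le_iff_exists.1 hp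
    exact ⟨w, hw, Or.inr fun e => h (hx ▸ mem_perp_span.2 e)⟩
  · exact ⟨0, zero_mem _, Or.inl rfl⟩

lemma back (hφ : G.map φ = G) (hL : Lag (dsum G G₂) Λ) (hb : 1 ≤ b) (hx : ℓ = span L {x})
    (hA : Asp φ ℓ b ≤ trf Λ ⊥) (hp : PosT G φ τ b ℓ) {v : ι → L} (hv : v ∈ trf Λ ⊥)
    (hw : w ∈ smap φ (Asp φ ℓ b)) (h : mapV φ v - w ∈ Asp φ ℓ b) : v ∈ Asp φ ℓ b := by
  obtain ⟨b, rfl⟩ : ∃ c, b = c + 1 := ⟨b - 1, by omega⟩
  have h1 : smap φ (Asp φ ℓ b) ≤ smap φ (Asp φ ℓ (b + 1)) := smap_mono φ (asp_mono b.le_succ)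
  rw [← mapV_mem_iff φ]
  cases τ
  · by_contra hv'
    obtain ⟨a, ha, u, hu, e⟩ := mem_sup.1 h
    rw [hx, mem_span_singleton] at ha
    obtain ⟨a, rfl⟩ := ha
    have e' : mapV φ v = a • x + u + w := by rw [e, sub_add_cancel]
    have h2 : a ≠ 0 := by
      rintro rfl
      exact hv' (by rw [e', zero_smul, zero_add]; exact add_mem (h1 hu) hw)
    have h3 : Iso G (smap φ (trf Λ ⊥)) := by
      have := (iso_smap φ).2 (iso_trf_bot hL)
      rwa [hφ] at this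
    have h4 : ℓ ≤ smap φ (trf Λ ⊥) := by
      rw [hx, span_singleton_le_iff_mem, ← smul_mem_iff _ h2,
        show a • x = mapV φ v - w - u by rw [← e, add_sub_cancel_right]]
      exact sub_mem (sub_mem (mapV_mem φ hv) (smap_mono φ hA hw)) (smap_mono φ hA (h1 hu))
    exact hp ((smap_mono φ hA).trans (le_trans h3 (perp_anti G h4)))
  · have h2 : Asp φ ℓ (b + 1) ≤ smap φ (Asp φ ℓ (b + 1)) := sup_le hp h1
    simpa using add_mem (h2 h) hw

lemma rel_up (hG : EForm (dsum G G₂)) (hφ : G.map φ = G) (hφ₂ : G₂.map φ = G₂) (hb : 1 ≤ b)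
    (hn : b ≤ n) (h : IsT G G₂ φ τ b ℓ Λ) (hE : IsFl G₂ n₂ E) :
    Rel G n τ b (up n b (Asp φ ℓ) Λ E) (up n b (fun i => smap φ (Asp φ ℓ i)) (smap φ Λ) E) := by
  have hc := ch_of_isT hG h
  have hc' := ch_frob hG hφ hφ₂ h
  have h1 : up n b (Asp φ ℓ) Λ E 1 = ℓ := (up_lo hn hb).trans asp_one
  refine ⟨?_, fun i hi => ?_, fun i hi hi' => ?_⟩
  · rw [h1]
    have hp := h.pos
    cases τ
    · show ¬ _ ≤ _
      rw [up_lo hn le_rfl]; exact hp
    · refine ⟨by rw [up_lo hn le_rfl]; exact hp, fun e => ?_⟩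
      rw [up_lo hn (Nat.sub_le _ _)] at e
      obtain ⟨b, rfl⟩ : ∃ c, b = c + 1 := ⟨b - 1, by omega⟩
      have := finrank_mono (show Asp φ ℓ (b + 1) ≤ smap φ (Asp φ ℓ b) from sup_le e le_rfl)
      rw [hc.rank _ le_rfl, hc'.rank _ b.le_succ] at this
      omega
  · rw [up_lo hn hi.le, up_lo hn hi]
    exact le_sup_right
  · rw [h1, hc.up_hi hE hi hi', hc'.up_hi hE hi hi']
    rintro v ⟨hv, hv'⟩
    obtain ⟨z, hz, e⟩ := mem_trf.1 hv
    exact mem_trf.2 ⟨z, hz, h.adapt ⟨e, hv'⟩⟩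

lemma eq_of_rel (hG : EForm (dsum G G₂)) (hφ : G.map φ = G) (hφ₂ : G₂.map φ = G₂) (hb : 1 ≤ b)
    (hn : n = n₂ + b) (h : IsT G G₂ φ τ b ℓ Λ) (hE : IsFl G₂ n₂ E) (hE' : IsFl G₂ n₂ E')
    (hr : Rel G n τ b (up n b (Asp φ ℓ) Λ E)
      (up n b (fun i => smap φ (Asp φ ℓ i)) (smap φ Λ) E')) : E' = E := by
  have hc := ch_of_isT hG h
  have hc' := ch_frob hG hφ hφ₂ h
  obtain ⟨x, -, hx⟩ := exists_gen_line h.line
  obtain ⟨w, hw, hw'⟩ : ∃ w ∈ smap φ (Asp φ ℓ b), τ = true ∨ bf G x w = 1 := by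
    obtain ⟨w, hw, hw'⟩ := exists_w h.pos hx
    exact ⟨(bf G x w)⁻¹ • w, smul_mem _ _ hw, hw'.imp_right fun e => by
      rw [bf_smul_right, inv_mul_cancel₀ e]⟩
  refine Finsupp.ext fun j => ?_
  by_cases hj : j ≤ n₂
  swap
  · rw [hE.out j (by omega), hE'.out j (by omega)]
  refine eq_of_le_of_finrank_le (fun z hz => ?_) (by rw [hE.rank j hj, hE'.rank j hj])
  have h1 := hr.hi (j + b) (by omega) (by omega)
  rw [up_lo (by omega) hb, asp_one, hc.up_hi hE (by omega) (by omega),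
    hc'.up_hi hE' (by omega) (by omega), Nat.add_sub_cancel] at h1
  obtain ⟨v, hv⟩ := hc'.good.exists_lift hG z
  have h2 := adj hG hφ hφ₂ h hx hw hw' hv
  have e : Sum.elim v z - bf G x (Sum.elim v z ∘ Sum.inl) • Sum.elim w 0 =
      Sum.elim (v - bf G x v • w) z := by
    funext i; cases i <;> simp
  rw [e] at h2
  obtain ⟨z', hz', h3⟩ := mem_trf.1 (h1 ⟨mem_trf.2 ⟨z, hz, h2.1⟩, h2.2⟩)
  have h4 := h.good.eq_zero hG (z := z - z') (by
    convert sub_mem (h.adapt h2) h3 using 1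
    funext i; cases i <;> simp)
  rwa [sub_eq_zero.1 h4]

/-- The lower parts of the flags of a point of a terminal variety. -/
lemma lower {A : Flg L ι} {u : List ℕ} {Es : List (Flg L ι)} (hb : 1 ≤ b) (hn : b ≤ n)
    (hu : ∀ s ∈ u, b < s) (hA : IsFl G n A) (hD : IsFl G n D) (hr : Rel G n τ b A D)
    (hp : Path G n u D Es (fmap φ A)) :
    (∀ i ≤ b, A i = Asp φ (A 1) i) ∧ (∀ i ≤ b, D i = smap φ (Asp φ (A 1) i)) ∧
      PosT G φ τ b (A 1) := by
  have h1 : ∀ i ≤ b, D i = smap φ (A i) := fun i hi =>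
    (hp.const fun e => absurd (hu i e) (by omega)).1.symm
  have h2 : ∀ i < b, ¬ A 1 ≤ D i := fun i hi e => by
    have hp := hr.pos
    cases τ
    · exact hp ((hD.le_perp b i).trans (perp_anti G e))
    · exact hp.2 (e.trans (hD.mono (by omega) (by omega)))
  have h3 : ∀ i ≤ b, A i = Asp φ (A 1) i := fun i hi => by
    induction i with
    | zero => exact hA.zero
    | succ i ih =>
      show _ = A 1 ⊔ _
      rw [← ih (by omega), ← h1 i (by omega), sup_comm]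
      refine (eq_of_le_of_finrank_le (sup_le (hr.lo i hi) (hA.mono (by omega) (by omega))) ?_).symm
      rw [finrank_sup_line (hA.rank 1 (by omega)) (h2 i hi), h1 i (by omega), finrank_smap,
        hA.rank i (by omega), hA.rank _ (by omega)]
  have h4 : ∀ i ≤ b, D i = smap φ (Asp φ (A 1) i) := fun i hi => by rw [← h3 i hi, h1 i hi]
  refine ⟨h3, h4, ?_⟩
  have hp := hr.pos
  cases τ
  · show ¬ _ ≤ _
    rw [← h4 b le_rfl]; exact hp
  · show _ ≤ _
    rw [← h4 b le_rfl]; exact hp.1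

end Term

end Pool.Agent.Lib.MP_557161_ag.DL
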