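import Pool.Agent.Lib.MP_557161_ag.DL.Spc

/-!
Transfer of subspaces along Lagrangian correspondences; iterated intersections.
-/

namespace Pool.Agent.Lib.MP_557161_ag.DL

open Module Submodule Matrix

namespace Trf

lemma finrank_map_add {L V W : Type} [Field L] [AddCommGroup V] [Module L V] [AddCommGroup W]
    [Module L W] [FiniteDimensional L V] (f : V →ₗ[L] W) (S : Submodule L V) :
    finrank L (S.map f) + finrank L ↥(S ⊓ LinearMap.ker f) = finrank L S := by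
  have := LinearMap.finrank_range_add_finrank_ker (f.domRestrict S)
  rw [LinearMap.range_domRestrict, LinearMap.ker_domRestrict,
    ← Submodule.finrank_map_subtype_eq S, Submodule.map_comap_subtype] at this
  exact this

lemma elim_sub {L ι ι₂ : Type} [Field L] (v v' : ι → L) (z z' : ι₂ → L) :
    Sum.elim v z - Sum.elim v' z' = Sum.elim (v - v') (z - z') := by
  funext i; cases i <;> rfl

variable {L : Type} [Field L] {ι : Type} [Fintype ι] {φ : L →+* L}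

lemma finrank_iter (t : ℕ) (E : Submodule L (ι → L)) :
    finrank L ((smap φ)^[t] E : Submodule L (ι → L)) = finrank L E := by
  induction t with
  | zero => rfl
  | succ t ih => rw [Function.iterate_succ_apply', finrank_smap, ih]

lemma iter_inf (t : ℕ) (E E' : Submodule L (ι → L)) :
    (smap φ)^[t] (E ⊓ E') = (smap φ)^[t] E ⊓ (smap φ)^[t] E' := by
  induction t with
  | zero => rfl
  | succ t ih => simp only [Function.iterate_succ_apply', ih, smap_inf]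

omit [Fintype ι] in
lemma iter_sup (t : ℕ) (E E' : Submodule L (ι → L)) :
    (smap φ)^[t] (E ⊔ E') = (smap φ)^[t] E ⊔ (smap φ)^[t] E' := by
  induction t with
  | zero => rfl
  | succ t ih => simp only [Function.iterate_succ_apply', ih, smap_sup]

end Trf

section Trf

variable {L : Type} [Field L] {ι ι₂ : Type} [Fintype ι] [Fintype ι₂] {G : Matrix ι ι L}
  {G₂ : Matrix ι₂ ι₂ L} {b : ℕ} {Λ : Submodule L (ι ⊕ ι₂ → L)} {E E' : Submodule L (ι₂ → L)}

lemma mem_trf {v : ι → L} : v ∈ trf Λ E ↔ ∃ z ∈ E, Sum.elim v z ∈ Λ := by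
  constructor
  · rintro ⟨x, ⟨hx, hz⟩, rfl⟩
    refine ⟨x ∘ Sum.inr, hz, ?_⟩
    have : Sum.elim (LinearMap.funLeft L L Sum.inl x) (x ∘ Sum.inr) = x := by
      funext i; cases i <;> rfl
    rw [this]; exact hx
  · rintro ⟨z, hz, h⟩
    exact ⟨Sum.elim v z, ⟨h, hz⟩, rfl⟩

lemma mem_cyl {P : Submodule L (ι → L)} {x : ι ⊕ ι₂ → L} : x ∈ cyl ι₂ P ↔ x ∘ Sum.inl ∈ P :=
  Iff.rfl

lemma trf_mono (Λ : Submodule L (ι ⊕ ι₂ → L)) (h : E ≤ E') : trf Λ E ≤ trf Λ E' := by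
  intro v hv
  obtain ⟨z, hz, h'⟩ := mem_trf.1 hv
  exact mem_trf.2 ⟨z, h hz, h'⟩

lemma Trf.finrank_trf_bot (Λ : Submodule L (ι ⊕ ι₂ → L)) :
    finrank L (Λ.map (LinearMap.funLeft L L (Sum.inr : ι₂ → ι ⊕ ι₂))) + finrank L (trf Λ ⊥) =
      finrank L Λ := by
  have h1 := Trf.finrank_map_add (LinearMap.funLeft L L (Sum.inr : ι₂ → ι ⊕ ι₂)) Λ
  have h2 := Trf.finrank_map_add (LinearMap.funLeft L L (Sum.inl : ι → ι ⊕ ι₂))
    (Λ ⊓ (⊥ : Submodule L (ι₂ → L)).comap (LinearMap.funLeft L L Sum.inr))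
  have h3 : (Λ ⊓ (⊥ : Submodule L (ι₂ → L)).comap (LinearMap.funLeft L L Sum.inr)) ⊓
      LinearMap.ker (LinearMap.funLeft L L (Sum.inl : ι → ι ⊕ ι₂)) = ⊥ := by
    rw [eq_bot_iff]
    rintro x ⟨⟨-, hz⟩, hv⟩
    rw [mem_bot]
    funext i
    cases i with
    | inl i => exact congrFun (LinearMap.mem_ker.1 hv) i
    | inr i => exact congrFun ((mem_bot L).1 hz) i
  rw [h3, finrank_bot, add_zero] at h2
  rw [trf, h2, ← h1]; rfl

variable (hG : EForm (dsum G G₂))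

include hG

lemma Lag.le_finrank_trf (h : Lag (dsum G G₂) Λ) (hb : Fintype.card ι = Fintype.card ι₂ + 2 * b) :
    b ≤ finrank L (trf Λ ⊥) := by
  have h1 := (hG.lag_iff.1 h).2
  have h2 := Trf.finrank_trf_bot Λ
  have h3 := Submodule.finrank_le (Λ.map (LinearMap.funLeft L L (Sum.inr : ι₂ → ι ⊕ ι₂)))
  rw [Fintype.card_sum] at h1
  rw [finrank_fintype_fun_eq_card] at h3
  omega

lemma GoodL.finrank_eq (h : GoodL G G₂ b Λ) : finrank L Λ = Fintype.card ι₂ + b := by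
  have h1 := (hG.lag_iff.1 h.1).2
  have := h.2.2
  rw [Fintype.card_sum] at h1
  omega

lemma Trf.exists_lift (h : GoodL G G₂ b Λ) (z : ι₂ → L) : ∃ v, Sum.elim v z ∈ Λ := by
  have h1 := h.finrank_eq hG
  have h2 := Trf.finrank_trf_bot Λ
  have h3 : Λ.map (LinearMap.funLeft L L (Sum.inr : ι₂ → ι ⊕ ι₂)) = ⊤ := by
    apply eq_top_of_finrank_eq
    rw [finrank_fintype_fun_eq_card]
    have := h.2.1
    omega
  obtain ⟨x, hx, rfl⟩ := h3.ge (mem_top (x := z))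
  refine ⟨x ∘ Sum.inl, ?_⟩
  have : Sum.elim (x ∘ Sum.inl) (LinearMap.funLeft L L Sum.inr x) = x := by
    funext i; cases i <;> rfl
  rw [this]; exact hx

omit hG in
lemma Trf.bf_eq (h : Lag (dsum G G₂) Λ) {v v' : ι → L} {z z' : ι₂ → L} (h₁ : Sum.elim v z ∈ Λ)
    (h₂ : Sum.elim v' z' ∈ Λ) : bf G v v' = bf G₂ z z' := by
  have := mem_perp.1 (h.ge h₂) _ h₁
  rw [bf_dsum] at this
  exact sub_eq_zero.1 this

lemma GoodL.eq_zero (h : GoodL G G₂ b Λ) {z : ι₂ → L} (hz : Sum.elim (0 : ι → L) z ∈ Λ) : z = 0 := by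
  classical
  refine hG.right.inj z (funext fun i => ?_)
  obtain ⟨v, hv⟩ := Trf.exists_lift hG h (Pi.single i 1)
  have := Trf.bf_eq h.1 hv hz
  rw [bf_zero_right, bf, single_one_dotProduct] at this
  exact this.symm

lemma GoodL.exists_lift (h : GoodL G G₂ b Λ) (z : ι₂ → L) : ∃ v, Sum.elim v z ∈ Λ := by
  exact Trf.exists_lift hG h z

lemma Trf.uniq (h : GoodL G G₂ b Λ) {v : ι → L} {z z' : ι₂ → L} (h₁ : Sum.elim v z ∈ Λ)
    (h₂ : Sum.elim v z' ∈ Λ) : z = z' := by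
  have := sub_mem h₁ h₂
  rw [Trf.elim_sub, sub_self] at this
  exact sub_eq_zero.1 (h.eq_zero hG this)

lemma Trf.finrank_trf_eq (h : GoodL G G₂ b Λ) (E : Submodule L (ι₂ → L)) :
    finrank L (trf Λ E) = finrank L ↥(Λ ⊓ E.comap (LinearMap.funLeft L L Sum.inr)) := by
  have h2 := Trf.finrank_map_add (LinearMap.funLeft L L (Sum.inl : ι → ι ⊕ ι₂))
    (Λ ⊓ E.comap (LinearMap.funLeft L L Sum.inr))
  have h3 : (Λ ⊓ E.comap (LinearMap.funLeft L L Sum.inr)) ⊓
      LinearMap.ker (LinearMap.funLeft L L (Sum.inl : ι → ι ⊕ ι₂)) = ⊥ := by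
    rw [eq_bot_iff]
    rintro x ⟨⟨hx, -⟩, hv⟩
    have e : Sum.elim (0 : ι → L) (x ∘ Sum.inr) = x := by
      funext i
      cases i with
      | inl i => exact (congrFun (LinearMap.mem_ker.1 hv) i).symm
      | inr i => rfl
    rw [mem_bot, ← e, h.eq_zero hG (z := x ∘ Sum.inr) (by rw [e]; exact hx)]
    funext i; cases i <;> rfl
  rw [h3, finrank_bot, add_zero] at h2
  exact h2

lemma GoodL.finrank_trf (h : GoodL G G₂ b Λ) (E : Submodule L (ι₂ → L)) :
    finrank L (trf Λ E) = b + finrank L E := by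
  have h1 := Trf.finrank_map_add (LinearMap.funLeft L L (Sum.inr : ι₂ → ι ⊕ ι₂))
    (Λ ⊓ E.comap (LinearMap.funLeft L L Sum.inr))
  have h2 : (Λ ⊓ E.comap (LinearMap.funLeft L L Sum.inr)).map
      (LinearMap.funLeft L L (Sum.inr : ι₂ → ι ⊕ ι₂)) = E := by
    refine le_antisymm ?_ fun z hz => ?_
    · rintro _ ⟨x, ⟨-, hx⟩, rfl⟩; exact hx
    · obtain ⟨v, hv⟩ := h.exists_lift hG z
      exact ⟨Sum.elim v z, ⟨hv, hz⟩, rfl⟩
  have h3 : (Λ ⊓ E.comap (LinearMap.funLeft L L Sum.inr)) ⊓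
      LinearMap.ker (LinearMap.funLeft L L (Sum.inr : ι₂ → ι ⊕ ι₂)) =
      Λ ⊓ (⊥ : Submodule L (ι₂ → L)).comap (LinearMap.funLeft L L Sum.inr) := by
    refine le_antisymm (fun x hx => ⟨hx.1.1, hx.2⟩) fun x hx => ⟨⟨hx.1, ?_⟩, hx.2⟩
    have : LinearMap.funLeft L L Sum.inr x = 0 := hx.2
    show LinearMap.funLeft L L Sum.inr x ∈ E
    rw [this]; exact zero_mem _
  rw [h2, h3, ← Trf.finrank_trf_eq hG h, ← Trf.finrank_trf_eq hG h, h.2.1] at h1
  omega

lemma GoodL.trf_le_iff (h : GoodL G G₂ b Λ) : trf Λ E ≤ trf Λ E' ↔ E ≤ E' := by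
  refine ⟨fun hE z hz => ?_, trf_mono Λ⟩
  obtain ⟨v, hv⟩ := h.exists_lift hG z
  obtain ⟨z', hz', hv'⟩ := mem_trf.1 (hE (mem_trf.2 ⟨z, hz, hv⟩))
  rw [Trf.uniq hG h hv hv']; exact hz'

lemma GoodL.trf_inf (h : GoodL G G₂ b Λ) (E E' : Submodule L (ι₂ → L)) :
    trf Λ (E ⊓ E') = trf Λ E ⊓ trf Λ E' := by
  refine le_antisymm (le_inf (trf_mono Λ inf_le_left) (trf_mono Λ inf_le_right)) fun v hv => ?_
  obtain ⟨z, hz, h₁⟩ := mem_trf.1 hv.1
  obtain ⟨z', hz', h₂⟩ := mem_trf.1 hv.2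
  obtain rfl := Trf.uniq hG h h₁ h₂
  exact mem_trf.2 ⟨z, ⟨hz, hz'⟩, h₁⟩

lemma GoodL.perp_trf (h : GoodL G G₂ b Λ) (E : Submodule L (ι₂ → L)) :
    perp G (trf Λ E) = trf Λ (perp G₂ E) := by
  refine (eq_of_le_of_finrank_le (fun w hw => mem_perp.2 fun v hv => ?_) ?_).symm
  · obtain ⟨z, hz, h₁⟩ := mem_trf.1 hv
    obtain ⟨z', hz', h₂⟩ := mem_trf.1 hw
    rw [Trf.bf_eq h.1 h₁ h₂]
    exact mem_perp.1 hz' z hz
  · have h1 := hG.left.finrank_perp (trf Λ E)
    have h2 := hG.right.finrank_perp E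
    have h3 := h.2.2
    rw [h.finrank_trf hG] at h1 ⊢
    omega

lemma GoodL.iso_trf (h : GoodL G G₂ b Λ) : Iso G (trf Λ E) ↔ Iso G₂ E := by
  rw [Iso, Iso, h.perp_trf hG, h.trf_le_iff hG]

lemma GoodL.exists_trf (h : GoodL G G₂ b Λ) {D : Submodule L (ι → L)} (h₁ : trf Λ ⊥ ≤ D)
    (h₂ : D ≤ perp G (trf Λ ⊥)) : ∃ E, trf Λ E = D := by
  rw [h.perp_trf hG] at h₂
  refine ⟨(Λ ⊓ cyl ι₂ D).map (LinearMap.funLeft L L Sum.inr), le_antisymm (fun v hv => ?_)
    fun v hv => ?_⟩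
  · obtain ⟨_, ⟨x, ⟨hx, hD⟩, rfl⟩, h₃⟩ := mem_trf.1 hv
    have e : Sum.elim (x ∘ Sum.inl) (LinearMap.funLeft L L Sum.inr x) = x := by
      funext i; cases i <;> rfl
    have h₄ := sub_mem h₃ (show Sum.elim (x ∘ Sum.inl) (LinearMap.funLeft L L Sum.inr x) ∈ Λ by
      rw [e]; exact hx)
    rw [Trf.elim_sub, sub_self] at h₄
    have h₅ := add_mem (h₁ (mem_trf.2 ⟨0, zero_mem _, h₄⟩)) (mem_cyl.1 hD)
    rwa [sub_add_cancel] at h₅
  · obtain ⟨z, -, h₃⟩ := mem_trf.1 (h₂ hv)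
    exact mem_trf.2 ⟨z, ⟨Sum.elim v z, ⟨h₃, hv⟩, rfl⟩, h₃⟩

end Trf

section Red

variable {K : Type} [Field K] {M : Fld K} {O : Pl M} {ι ι₂ : Type} [Fintype ι] [Fintype ι₂]

lemma sred_trf_bot_le (O : Pl M) (Λ : Submodule M (ι ⊕ ι₂ → M)) :
    sred O (trf Λ ⊥) ≤ trf (sred O Λ) ⊥ := by
  rintro _ ⟨x, hx, ix, rfl⟩
  obtain ⟨z, hz, h⟩ := mem_trf.1 hx
  obtain rfl := (mem_bot M).1 hz
  refine mem_trf.2 ⟨0, zero_mem _, Sum.elim x 0, h, fun i => ?_, funext fun i => ?_⟩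
  · cases i with
    | inl i => exact ix i
    | inr i => exact zero_mem _
  · cases i with
    | inl i => rfl
    | inr i => exact O.rd_zero

lemma sred_cyl (O : Pl M) (P : Submodule M (ι → M)) : sred O (cyl ι₂ P) = cyl ι₂ (sred O P) := by
  exact sred_comap_funLeft O Sum.inl_injective P

lemma sred_trf {G : Matrix ι ι M} {G₂ : Matrix ι₂ ι₂ M} {G' : Matrix ι ι O.res}
    {G₂' : Matrix ι₂ ι₂ O.res} (hG : EForm (dsum G G₂)) (hG' : EForm (dsum G' G₂')) {b : ℕ}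
    {Λ : Submodule M (ι ⊕ ι₂ → M)} (h : GoodL G G₂ b Λ) (h' : GoodL G' G₂' b (sred O Λ))
    (E : Submodule M (ι₂ → M)) : sred O (trf Λ E) = trf (sred O Λ) (sred O E) := by
  have h1 : sred O (Λ ⊓ E.comap (LinearMap.funLeft M M Sum.inr)) =
      sred O Λ ⊓ (sred O E).comap (LinearMap.funLeft O.res O.res Sum.inr) := by
    rw [← sred_comap_funLeft O Sum.inr_injective]
    refine sred_inf ?_
    rw [sred_comap_funLeft O Sum.inr_injective, ← Trf.finrank_trf_eq hG' h',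
      ← Trf.finrank_trf_eq hG h, h.finrank_trf hG, h'.finrank_trf hG', finrank_sred]
  refine (eq_of_le_of_finrank_le ?_ ?_).symm
  · rw [trf, ← h1]
    exact sred_map_funLeft O _ _
  · rw [finrank_sred, h.finrank_trf hG, h'.finrank_trf hG', finrank_sred]

end Red

section Chain

variable {L : Type} [Field L] {ι : Type} [Fintype ι] {φ : L →+* L} {A ℓ : Submodule L (ι → L)}

lemma asp_one : Asp φ ℓ 1 = ℓ := by
  simp [Asp]

omit [Fintype ι] in
lemma Trf.asp_succ (m : ℕ) : Asp φ ℓ (m + 1) = Asp φ ℓ m ⊔ (smap φ)^[m] ℓ := by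
  induction m with
  | zero => simp [Asp]
  | succ m ih =>
    rw [Asp, Function.iterate_succ_apply']
    conv_lhs => rw [ih, smap_sup, ← sup_assoc]
    rfl

lemma asp_mono {i j : ℕ} (h : i ≤ j) : Asp φ ℓ i ≤ Asp φ ℓ j := by
  exact monotone_nat_of_le_succ (fun m => by rw [Trf.asp_succ]; exact le_sup_left) h

lemma asp_succ' (m : ℕ) : Asp φ ℓ (m + 1) = Asp φ ℓ m ⊔ (smap φ)^[m] ℓ := by
  exact Trf.asp_succ m

lemma finrank_asp_le (hℓ : finrank L ℓ = 1) (m : ℕ) :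
    finrank L (Asp φ ℓ (m + 1)) ≤ finrank L (Asp φ ℓ m) + 1 := by
  rw [asp_succ']
  have := Submodule.finrank_add_le_finrank_add_finrank (Asp φ ℓ m) ((smap φ)^[m] ℓ)
  rwa [Trf.finrank_iter, hℓ] at this

lemma Trf.finrank_asp_add (hℓ : finrank L ℓ = 1) (i k : ℕ) :
    finrank L (Asp φ ℓ (i + k)) ≤ finrank L (Asp φ ℓ i) + k := by
  induction k with
  | zero => exact le_rfl
  | succ k ih =>
    have := finrank_asp_le (φ := φ) hℓ (i + k)
    rw [← add_assoc]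
    omega

lemma Trf.asp_sup (m : ℕ) : Asp φ ℓ (m + 1) ⊔ smap φ (Asp φ ℓ (m + 1)) = Asp φ ℓ (m + 2) :=
  le_antisymm (sup_le (asp_mono (by omega)) le_sup_right)
    (sup_le (le_sup_of_le_left le_sup_left) le_sup_right)

lemma finrank_asp_of_le (hℓ : finrank L ℓ = 1) {m i : ℕ} (h : finrank L (Asp φ ℓ m) = m)
    (hi : i ≤ m) : finrank L (Asp φ ℓ i) = i := by
  obtain ⟨k, rfl⟩ := Nat.exists_eq_add_of_le hi
  have h1 := Trf.finrank_asp_add (φ := φ) hℓ i k
  have h2 := Trf.finrank_asp_add (φ := φ) hℓ 0 i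
  rw [zero_add, Asp, finrank_bot] at h2
  omega

lemma asp_inf (hℓ : finrank L ℓ = 1) {m : ℕ} (h : finrank L (Asp φ ℓ (m + 2)) = m + 2) :
    Asp φ ℓ (m + 1) ⊓ smap φ (Asp φ ℓ (m + 1)) = smap φ (Asp φ ℓ m) := by
  have h0 : smap φ (Asp φ ℓ m) ≤ Asp φ ℓ (m + 1) ⊓ smap φ (Asp φ ℓ (m + 1)) :=
    le_inf le_sup_right (smap_mono φ (asp_mono (by omega)))
  refine (eq_of_le_of_finrank_le h0 ?_).symm
  have h1 := finrank_sup_add_finrank_inf_eq (Asp φ ℓ (m + 1)) (smap φ (Asp φ ℓ (m + 1)))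
  rw [Trf.asp_sup, finrank_smap, h, finrank_asp_of_le hℓ h (Nat.le_succ _)] at h1
  rw [finrank_smap, finrank_asp_of_le hℓ h (i := m) (by omega)]
  omega

lemma jc_anti {s t : ℕ} (h : s ≤ t) : Jc φ A t ≤ Jc φ A s := by
  exact antitone_nat_of_succ_le (f := Jc φ A) (fun _ => inf_le_left) h

lemma jc_mono {A' : Submodule L (ι → L)} (h : A ≤ A') (t : ℕ) : Jc φ A t ≤ Jc φ A' t := by
  induction t with
  | zero => exact h
  | succ t ih => exact inf_le_inf ih (smap_mono φ ih)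

lemma Trf.jc_stab_or (t : ℕ) :
    smap φ (Jc φ A t) = Jc φ A t ∨ finrank L (Jc φ A t) + t ≤ finrank L A := by
  induction t with
  | zero => exact Or.inr le_rfl
  | succ t ih =>
    by_cases e : smap φ (Jc φ A t) = Jc φ A t
    · left; rw [Jc, e, inf_idem, e]
    · right
      have h1 : Jc φ A (t + 1) < Jc φ A t := lt_of_le_of_ne inf_le_left fun e' => e
        (eq_of_le_of_finrank_le (inf_eq_left.1 e') (finrank_smap φ _).le).symm
      have h2 := Submodule.finrank_lt_finrank_of_lt h1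
      have h3 := ih.resolve_left e
      omega

/-- The chain is stationary from the dimension on. -/
lemma jc_stab {t : ℕ} (h : finrank L A ≤ t) :
    smap φ (Jc φ A t) = Jc φ A t ∧ Jc φ A t = Jc φ A (finrank L A) := by
  have h0 : smap φ (Jc φ A (finrank L A)) = Jc φ A (finrank L A) := by
    refine (Trf.jc_stab_or _).elim id fun h1 => ?_
    rw [finrank_eq_zero.1 (show finrank L (Jc φ A (finrank L A)) = 0 by omega), smap_bot]
  have h1 : Jc φ A t = Jc φ A (finrank L A) := by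
    induction t, h using Nat.le_induction with
    | base => rfl
    | succ t _ ih => rw [Jc, ih, h0, inf_idem]
  exact ⟨by rw [h1, h0], h1⟩

lemma le_jc {U : Submodule L (ι → L)} (hU : smap φ U = U) (h : U ≤ A) (t : ℕ) : U ≤ Jc φ A t := by
  induction t with
  | zero => exact h
  | succ t ih => exact le_inf ih (hU.ge.trans (smap_mono φ ih))

lemma jc_asp (hℓ : finrank L ℓ = 1) {m : ℕ} (h : finrank L (Asp φ ℓ (m + 1)) = m + 1) {t : ℕ}
    (ht : t ≤ m) : Jc φ (Asp φ ℓ m) t = (smap φ)^[t] (Asp φ ℓ (m - t)) := by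
  induction t with
  | zero => rfl
  | succ t ih =>
    obtain ⟨k, rfl⟩ := Nat.exists_eq_add_of_le ht
    rw [Jc, ih (by omega), show t + 1 + k - t = k + 1 by omega, show t + 1 + k - (t + 1) = k by omega,
      ← Function.iterate_succ_apply' (smap φ), Function.iterate_succ_apply, ← Trf.iter_inf,
      asp_inf hℓ (finrank_asp_of_le hℓ h (by omega)), Function.iterate_succ_apply]

lemma Trf.jc_step (h₁ : finrank L A ≤ finrank L ↥(A ⊓ smap φ A) + 1) (t : ℕ) :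
    finrank L (Jc φ A t) ≤ finrank L (Jc φ A (t + 1)) + 1 := by
  induction t with
  | zero => exact h₁
  | succ t ih =>
    have h2 := finrank_sup_add_finrank_inf_eq (Jc φ A (t + 1)) (smap φ (Jc φ A (t + 1)))
    have h3 : Jc φ A (t + 1) ⊔ smap φ (Jc φ A (t + 1)) ≤ smap φ (Jc φ A t) :=
      sup_le inf_le_right (smap_mono φ inf_le_left)
    have h4 := Submodule.finrank_mono h3
    rw [finrank_smap] at h2 h4
    have h5 : finrank L (Jc φ A (t + 1 + 1)) =
      finrank L ↥(Jc φ A (t + 1) ⊓ smap φ (Jc φ A (t + 1))) := rfl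
    omega

lemma Trf.jc_add (h₁ : finrank L A ≤ finrank L ↥(A ⊓ smap φ A) + 1) (t k : ℕ) :
    finrank L (Jc φ A t) ≤ finrank L (Jc φ A (t + k)) + k := by
  induction k with
  | zero => exact le_rfl
  | succ k ih =>
    have := Trf.jc_step h₁ (t + k)
    rw [← add_assoc t]
    omega

/-- The dimensions in the chain of a subspace without rational vectors. -/
lemma finrank_jc {m : ℕ} (hA : finrank L A = m) (h₁ : m ≤ finrank L ↥(A ⊓ smap φ A) + 1)
    (h₀ : Jc φ A m = ⊥) {t : ℕ} (ht : t ≤ m) : finrank L (Jc φ A t) = m - t := by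
  obtain ⟨k, rfl⟩ := Nat.exists_eq_add_of_le ht
  have h2 := Trf.jc_add (φ := φ) (hA.le.trans h₁) t k
  have h3 := Trf.jc_add (φ := φ) (hA.le.trans h₁) 0 t
  rw [h₀, finrank_bot] at h2
  rw [zero_add, Jc, hA] at h3
  omega

/-- Such a subspace is spanned by the images of a line. -/
lemma asp_of_jc {m : ℕ} (hA : finrank L A = m + 1) (h₁ : m ≤ finrank L ↥(A ⊓ smap φ A))
    (h₀ : Jc φ A (m + 1) = ⊥) (hℓ : finrank L ℓ = 1) (h : (smap φ)^[m] ℓ ≤ Jc φ A m) :
    Asp φ ℓ (m + 1) = A ∧ finrank L (Asp φ ℓ (m + 2)) = m + 2 := by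
  have hd : ∀ t ≤ m + 1, finrank L (Jc φ A t) = m + 1 - t := fun t ht =>
    finrank_jc hA (by omega) h₀ ht
  have step : ∀ j t, j + t = m → Jc φ A t = (smap φ)^[t] (Asp φ ℓ (j + 1)) →
      finrank L (Asp φ ℓ (j + 2)) = j + 2 := fun j t hjt e => by
    have h2 := hd t (by omega)
    have h3 := hd (t + 1) (by omega)
    rw [Jc, e, ← Function.iterate_succ_apply' (smap φ), Function.iterate_succ_apply,
      ← Trf.iter_inf, Trf.finrank_iter] at h3
    rw [e, Trf.finrank_iter] at h2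
    have h4 := finrank_sup_add_finrank_inf_eq (Asp φ ℓ (j + 1)) (smap φ (Asp φ ℓ (j + 1)))
    rw [Trf.asp_sup, finrank_smap] at h4
    omega
  have key : ∀ j t, j + t = m → Jc φ A t = (smap φ)^[t] (Asp φ ℓ (j + 1)) := by
    intro j
    induction j with
    | zero =>
      intro t ht
      obtain rfl : t = m := by omega
      rw [zero_add, asp_one]
      refine (eq_of_le_of_finrank_le h ?_).symm
      rw [hd t (by omega), Trf.finrank_iter, hℓ]; omega
    | succ j ih =>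
      intro t ht
      have e := ih (t + 1) (by omega)
      have h2 := step j (t + 1) (by omega) e
      refine (eq_of_le_of_finrank_le ?_ ?_).symm
      · rw [← Trf.asp_sup, Trf.iter_sup]
        refine sup_le ((smap_le_iff φ).1 ?_) ?_
        · rw [← Function.iterate_succ_apply' (smap φ), ← e]; exact inf_le_right
        · rw [← Function.iterate_succ_apply (smap φ), ← e]; exact inf_le_left
      · rw [hd t (by omega), Trf.finrank_iter, h2]; omega
  exact ⟨(key m 0 rfl).symm, step m 0 rfl (key m 0 rfl)⟩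

lemma exists_line_jc (hφ : Function.Surjective φ) {m : ℕ} (hA : finrank L A = m + 1)
    (h₁ : m ≤ finrank L ↥(A ⊓ smap φ A)) (h₀ : Jc φ A (m + 1) = ⊥) :
    ∃ ℓ : Submodule L (ι → L), finrank L ℓ = 1 ∧ (smap φ)^[m] ℓ = Jc φ A m := by
  obtain ⟨ℓ, e⟩ := Function.Surjective.iterate (smap_surj (ι := ι) hφ) m (Jc φ A m)
  refine ⟨ℓ, ?_, e⟩
  rw [← Trf.finrank_iter (φ := φ) m, e, finrank_jc hA (by omega) h₀ (Nat.le_succ m)]
  omega

end Chain

end Pool.Agent.Lib.MP_557161_ag.DL
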