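import Pool.Agent.Lib.MP_557161_ag.DL.Fld

/-!
Degrees, transcendence degrees, simple transcendental extensions and amalgams of fields.
-/

namespace Pool.Agent.Lib.MP_557161_ag.DL

variable {K : Type} [Field K] {L L' L'' M M' N : Fld K}

open Polynomial IntermediateField

namespace ValA

/-- The algebra structure given by a homomorphism. -/
abbrev alg (ι : L →ₐ[K] L') : Algebra L L' := ι.toRingHom.toAlgebra

lemma tower (ι : L →ₐ[K] L') :
    letI := alg ι
    IsScalarTower K L L' :=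
  letI := alg ι
  IsScalarTower.of_algebraMap_eq fun c => (ι.commutes c).symm

lemma tower' (ι : L →ₐ[K] L') (κ : L' →ₐ[K] L'') :
    letI := alg ι
    letI := alg κ
    letI := alg (κ.comp ι)
    IsScalarTower L L' L'' :=
  letI := alg ι
  letI := alg κ
  letI := alg (κ.comp ι)
  IsScalarTower.of_algebraMap_eq fun _ => rfl

lemma trans_iff (ι : L →ₐ[K] M) (T : M) :
    letI := alg ι
    Trans' ι T ↔ Transcendental L T :=
  letI := alg ι
  transcendental_iff.symm

lemma gen_iff (ι : L →ₐ[K] M) (T : M) :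
    letI := alg ι
    Gen ι T ↔ adjoin L {T} = ⊤ := by
  letI := alg ι
  rw [eq_top_iff]
  constructor
  · intro h x _
    obtain ⟨P, Q, hQ, e⟩ := h x
    exact (mem_adjoin_simple_iff L x).2 ⟨P, Q, eq_div_of_mul_eq hQ e⟩
  · intro h x
    obtain ⟨P, Q, e⟩ := (mem_adjoin_simple_iff L x).1 (h mem_top)
    by_cases hQ : aeval T Q = 0
    · refine ⟨0, 1, by simp, ?_⟩
      rw [e, hQ]; simp
    · exact ⟨P, Q, hQ, by rw [e]; exact div_mul_cancel₀ _ hQ⟩

lemma tr_add (ι : L →ₐ[K] M) :
    letI := alg ι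
    L.tr + Algebra.trdeg L M = M.tr := by
  letI := alg ι
  haveI := tower ι
  exact trdeg_add_eq K L

lemma alg_of_tr {j : ℕ} (ι : L →ₐ[K] L') (h : L'.tr = j) (hL : L.tr = j) :
    letI := alg ι
    Algebra.IsAlgebraic L L' := by
  letI := alg ι
  have h1 := tr_add ι
  rw [h, hL] at h1
  rw [← trdeg_eq_zero_iff]
  have h2 : (j : Cardinal) + Algebra.trdeg L L' = j + 0 := by rw [h1, add_zero]
  exact Cardinal.eq_of_add_eq_add_left h2 (Cardinal.natCast_lt_aleph0)

lemma trdeg_simple {F E : Type} [Field F] [Field E] [Algebra F E] {T : E}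
    (h : adjoin F {T} = ⊤) : Algebra.trdeg F E ≤ 1 := by
  open scoped IntermediateField.algebraAdjoinAdjoin in
  haveI : Algebra.IsAlgebraic (adjoin F ({T} : Set E)) E := by
    rw [h]; infer_instance
  haveI : Algebra.IsAlgebraic (Algebra.adjoin F ({T} : Set E)) E :=
    (IntermediateField.isAlgebraic_adjoin_iff_top).1 ‹_›
  simpa using Algebra.IsAlgebraic.trdeg_le_cardinalMk F ({T} : Set E)

lemma map_eval₂ (κ : M →ₐ[K] N) (α : L →ₐ[K] M) (T : M) (P : L[X]) :
    κ (P.eval₂ α.toRingHom T) = P.eval₂ (κ.comp α).toRingHom (κ T) :=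
  hom_eval₂ P α.toRingHom κ.toRingHom T

/-- A simple transcendental extension is the fraction field of the polynomial ring. -/
lemma isFrac {α : L →ₐ[K] M} {T : M} (h : Trans' α T) (h' : Gen α T) :
    letI := (eval₂RingHom α.toRingHom T).toAlgebra
    IsFractionRing L[X] M := by
  letI := (eval₂RingHom α.toRingHom T).toAlgebra
  haveI : FaithfulSMul L[X] M := (faithfulSMul_iff_algebraMap_injective _ _).2
    ((injective_iff_map_eq_zero _).2 h)
  refine IsFractionRing.of_field _ _ fun z => ?_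
  obtain ⟨P, Q, hQ, e⟩ := h' z
  exact ⟨P, Q, eq_div_of_mul_eq hQ e⟩

end ValA

open ValA

lemma deg_comp (ι : L →ₐ[K] L') (κ : L' →ₐ[K] L'') : deg (κ.comp ι) = deg ι * deg κ := by
  letI := alg ι
  letI := alg κ
  letI := alg (κ.comp ι)
  haveI := tower' ι κ
  exact (Module.finrank_mul_finrank L L' L'').symm

lemma deg_pos_iff (ι : L →ₐ[K] L') : 0 < deg ι ↔ Fin' ι := by
  letI := alg ι
  exact ⟨fun h => Module.finite_of_finrank_pos h, fun h => by
    haveI : Module.Finite L L' := h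
    exact Module.finrank_pos⟩

lemma deg_of_surj {ι : L →ₐ[K] L'} (h : Function.Surjective ι) : deg ι = 1 := by
  letI := alg ι
  have e : L ≃ₗ[L] L' := LinearEquiv.ofBijective (Algebra.linearMap L L') ⟨ι.injective, h⟩
  show Module.finrank L L' = 1
  rw [← e.finrank_eq, Module.finrank_self]

lemma Fin'.of_surj {ι : L →ₐ[K] L'} (h : Function.Surjective ι) : Fin' ι := by
  exact RingHom.Finite.of_surjective _ h

lemma Fin'.comp {ι : L →ₐ[K] L'} {κ : L' →ₐ[K] L''} (h : Fin' ι) (h' : Fin' κ) :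
    Fin' (κ.comp ι) := by
  exact RingHom.Finite.comp h' h

lemma Fin'.left {ι : L →ₐ[K] L'} {κ : L' →ₐ[K] L''} (h : Fin' (κ.comp ι)) : Fin' ι := by
  rw [← deg_pos_iff, deg_comp] at h
  rw [← deg_pos_iff]
  exact Nat.pos_of_mul_pos_right h

lemma Fin'.right {ι : L →ₐ[K] L'} {κ : L' →ₐ[K] L''} (h : Fin' (κ.comp ι)) : Fin' κ := by
  exact RingHom.Finite.of_comp_finite (f := ι.toRingHom) (g := κ.toRingHom) h

lemma nrm_map (ι : L →ₐ[K] L') (x : L) : nrm ι (ι x) = x ^ deg ι := by
  letI := alg ι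
  exact Algebra.norm_algebraMap (S := L') x

lemma nrm_ne_zero {ι : L →ₐ[K] L'} (h : Fin' ι) {x : L'} (hx : x ≠ 0) : nrm ι x ≠ 0 := by
  letI := alg ι
  haveI : Module.Finite L L' := h
  exact Algebra.norm_ne_zero_iff.2 hx

lemma tr_base : (Fld.base K).tr = 0 := by
  exact trdeg_eq_zero (R := K) (A := K)

lemma tr_le (ι : L →ₐ[K] L') : L.tr ≤ L'.tr := by
  exact trdeg_le_of_injective ι ι.injective

lemma Fin'.tr_eq {ι : L →ₐ[K] L'} (h : Fin' ι) : L'.tr = L.tr := by
  letI := alg ι
  haveI : Module.Finite L L' := h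
  rw [← tr_add ι, trdeg_eq_zero, add_zero]

lemma tr_cl (L : Fld K) : L.cl.tr = L.tr := by
  have h := trdeg_add_eq K L (A := AlgebraicClosure L)
  rw [trdeg_eq_zero (R := L), add_zero] at h
  exact h.symm

lemma good_base : Good 0 (Fld.base K) := by
  exact ⟨Algebra.EssFiniteType.of_id K, by rw [tr_base]; simp⟩

lemma Good.of_fin {j : ℕ} {ι : L →ₐ[K] L'} (h : Good j L) (hι : Fin' ι) : Good j L' := by
  letI := alg ι
  haveI := tower ι
  haveI : Module.Finite L L' := hι
  haveI := h.1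
  exact ⟨Algebra.EssFiniteType.comp K L L', hι.tr_eq.trans h.2⟩

/-- A subfield of a finitely generated field is finitely generated. -/
lemma Good.down {j : ℕ} {ι : L →ₐ[K] L'} (h : Good j L') (hι : L.tr = j) : Good j L := by
  letI := alg ι
  haveI := tower ι
  haveI := alg_of_tr ι h.2 hι
  haveI := h.1
  haveI : FinTrdeg K L := .of_trdeg (by
    show L.tr < _
    rw [hι]; exact Cardinal.natCast_lt_aleph0)
  obtain ⟨E, hE, _⟩ := FinTrdeg.exists_fg_isAlgebraic K L
  haveI : Algebra.EssFiniteType K E := essFiniteType_iff.2 hE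
  haveI : Algebra.IsAlgebraic E L' := Algebra.IsAlgebraic.trans E L L'
  haveI : Algebra.EssFiniteType E L' := Algebra.EssFiniteType.of_comp K E L'
  haveI : Module.Finite E L' := Algebra.finite_of_essFiniteType_of_isAlgebraic
  haveI : Module.Finite E L := Module.Finite.left E L L'
  exact ⟨Algebra.EssFiniteType.comp K E L, hι⟩

lemma Good.fin {j : ℕ} (ι : L →ₐ[K] L') (h : Good j L') (hL : L.tr = j) : Fin' ι := by
  letI := alg ι
  haveI := tower ι
  haveI := alg_of_tr ι h.2 hL
  haveI := h.1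
  haveI : Algebra.EssFiniteType L L' := Algebra.EssFiniteType.of_comp K L L'
  exact (Algebra.finite_of_essFiniteType_of_isAlgebraic : Module.Finite L L')

lemma trans_rat (L : Fld K) : Trans' L.toRat (RatFunc.X : RatFunc L) := by
  intro P hP
  exact transcendental_iff.1 (RatFunc.transcendental_X (K := L)) P hP

lemma gen_rat (L : Fld K) : Gen L.toRat (RatFunc.X : RatFunc L) := by
  intro x
  have e : ∀ P : L[X], P.eval₂ L.toRat.toRingHom (RatFunc.X : RatFunc L) =
      algebraMap L[X] (RatFunc L) P := fun P => RatFunc.aeval_X_left_eq_algebraMap P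
  refine ⟨RatFunc.num x, RatFunc.denom x, ?_, ?_⟩
  · rw [e]; exact RatFunc.algebraMap_ne_zero (RatFunc.denom_ne_zero x)
  · rw [e, e]
    have h1 := RatFunc.num_div_denom (x : RatFunc L)
    exact (div_eq_iff (RatFunc.algebraMap_ne_zero (RatFunc.denom_ne_zero x))).1 h1 |>.symm

lemma Trans'.affine {ι : L →ₐ[K] M} {T : M} (h : Trans' ι T) {a : L} (ha : a ≠ 0) (b : L) :
    Trans' ι (ι a * T + ι b) := by
  letI := alg ι
  rw [trans_iff] at h ⊢
  have h1 := h.aeval (C a * X + C b) (by rw [natDegree_linear ha]; simp)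
    (by rw [leadingCoeff_linear ha]; exact mem_nonZeroDivisors_of_ne_zero ha)
  have h2 : Transcendental L (algebraMap L M a * T + algebraMap L M b) := by simpa using h1
  exact h2

lemma Gen.affine {ι : L →ₐ[K] M} {T : M} (h : Gen ι T) {a : L} (ha : a ≠ 0) (b : L) :
    Gen ι (ι a * T + ι b) := by
  letI := alg ι
  rw [gen_iff] at h ⊢
  rw [eq_top_iff, ← h, adjoin_simple_le_iff]
  have ha' : ι a ≠ 0 := (map_ne_zero ι).2 ha
  have e : T = (ι a * T + ι b - algebraMap L M b) / algebraMap L M a := by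
    show T = (ι a * T + ι b - ι b) / ι a
    field_simp
    ring
  have hm : (ι a * T + ι b - algebraMap L M b) / algebraMap L M a ∈ adjoin L {ι a * T + ι b} :=
    div_mem (sub_mem (mem_adjoin_simple_self _ _) (IntermediateField.algebraMap_mem _ _))
      (IntermediateField.algebraMap_mem _ _)
  rwa [← e] at hm

lemma Trans'.inv {ι : L →ₐ[K] M} {T : M} (h : Trans' ι T) : Trans' ι T⁻¹ := by
  letI := alg ι
  rw [trans_iff] at h ⊢
  exact fun e => h (IsAlgebraic.inv_iff.1 e)

lemma Gen.inv {ι : L →ₐ[K] M} {T : M} (h : Gen ι T) : Gen ι T⁻¹ := by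
  letI := alg ι
  rw [gen_iff] at h ⊢
  rw [eq_top_iff, ← h, adjoin_simple_le_iff]
  have hm := inv_mem (mem_adjoin_simple_self L T⁻¹)
  rwa [inv_inv] at hm

lemma Trans'.ne {ι : L →ₐ[K] M} {T : M} (h : Trans' ι T) (a : L) : T ≠ ι a := by
  letI := alg ι
  rw [trans_iff] at h
  rintro rfl
  exact h (isAlgebraic_algebraMap a)

lemma Gen.tr_le {ι : L →ₐ[K] M} {T : M} (h : Gen ι T) : M.tr ≤ L.tr + 1 := by
  letI := alg ι
  rw [gen_iff] at h
  rw [← tr_add ι]
  exact add_le_add_right (trdeg_simple h) _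

lemma Trans'.tr_eq {ι : L →ₐ[K] M} {T : M} (h : Trans' ι T) (h' : Gen ι T) :
    M.tr = L.tr + 1 := by
  letI := alg ι
  refine le_antisymm h'.tr_le ?_
  rw [trans_iff] at h
  haveI : Algebra.Transcendental L M := ⟨T, h⟩
  rw [← tr_add ι]
  exact add_le_add_right (Cardinal.one_le_iff_pos.2 (trdeg_pos L M)) _

lemma Good.succ {j : ℕ} {ι : L →ₐ[K] M} {T : M} (hL : Good j L) (h : Trans' ι T) (h' : Gen ι T) :
    Good (j + 1) M := by
  letI := alg ι
  haveI := tower ι
  haveI := hL.1
  haveI : Algebra.EssFiniteType L M := fg_top_iff.1 ⟨{T}, by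
    rw [Finset.coe_singleton]; exact (gen_iff ι T).1 h'⟩
  exact ⟨Algebra.EssFiniteType.comp K L M, by rw [h.tr_eq h', hL.2]; simp⟩

/-- The universal property of a simple transcendental extension. -/
lemma exists_lift {α : L →ₐ[K] M} {T : M} (h : Trans' α T) (h' : Gen α T) {β : L →ₐ[K] N} {U : N}
    (hU : Trans' β U) : ∃ κ : M →ₐ[K] N, κ.comp α = β ∧ κ T = U := by
  letI := (eval₂RingHom α.toRingHom T).toAlgebra
  haveI := isFrac h h'
  have hinj : Function.Injective (eval₂RingHom β.toRingHom U) :=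
    (injective_iff_map_eq_zero _).2 hU
  let κ₀ : M →+* N := IsFractionRing.lift (A := L[X]) hinj
  have h1 : ∀ P : L[X], κ₀ (P.eval₂ α.toRingHom T) = P.eval₂ β.toRingHom U := fun P =>
    IsFractionRing.lift_algebraMap hinj P
  have h2 : ∀ x : L, κ₀ (α x) = β x := fun x => by simpa using h1 (C x)
  refine ⟨⟨κ₀, fun c => ?_⟩, AlgHom.ext h2, by simpa using h1 X⟩
  show κ₀ (algebraMap K M c) = _
  rw [← α.commutes, h2, β.commutes]

lemma Gen.surj {α : L →ₐ[K] M} {β : L →ₐ[K] N} {κ : M →ₐ[K] N} (hκ : κ.comp α = β) {T : M}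
    (h : Gen β (κ T)) : Function.Surjective κ := by
  subst hκ
  intro y
  obtain ⟨P, Q, hQ, e⟩ := h y
  refine ⟨P.eval₂ α.toRingHom T / Q.eval₂ α.toRingHom T, ?_⟩
  rw [map_div₀, map_eval₂, map_eval₂]
  exact (eq_div_of_mul_eq hQ e).symm

/-- Transcendence is preserved by finite extensions of the base. -/
lemma Trans'.of_fin {ι : L →ₐ[K] L'} (hι : Fin' ι) {β : L' →ₐ[K] N} {U : N}
    (h : Trans' (β.comp ι) U) : Trans' β U := by
  letI := alg ι
  letI := alg β
  letI := alg (β.comp ι)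
  haveI := tower' ι β
  haveI : Module.Finite L L' := hι
  rw [trans_iff] at h ⊢
  exact h.extendScalars L'

lemma Trans'.comp (ι : L →ₐ[K] L') {β : L' →ₐ[K] N} {U : N} (h : Trans' β U) :
    Trans' (β.comp ι) U := by
  letI := alg ι
  letI := alg β
  letI := alg (β.comp ι)
  haveI := tower' ι β
  rw [trans_iff] at h ⊢
  exact h.restrictScalars ι.injective

/-- The degree is preserved by adjoining a transcendental element. -/
lemma deg_rat {ι : L →ₐ[K] L'} {α : L →ₐ[K] M} {α' : L' →ₐ[K] M'} {κ : M →ₐ[K] M'} {T : M}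
    (hc : κ.comp α = α'.comp ι) (hg : Gen α T) (ht' : Trans' α' (κ T)) (hg' : Gen α' (κ T)) :
    deg κ = deg ι := by
  have ht : Trans' α T := by
    intro P hP
    refine ht'.comp ι P ?_
    rw [← hc, ← map_eval₂, hP, map_zero]
  letI := alg ι
  letI := alg κ
  letI := (eval₂RingHom α.toRingHom T).toAlgebra
  letI := (eval₂RingHom α'.toRingHom (κ T)).toAlgebra
  letI := (eval₂RingHom (κ.comp α).toRingHom (κ T)).toAlgebra
  letI : Algebra L[X] L'[X] := Polynomial.algebra L L'
  haveI := isFrac ht hg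
  haveI := isFrac ht' hg'
  haveI : IsScalarTower L[X] M M' :=
    IsScalarTower.of_algebraMap_eq fun P => (map_eval₂ κ α T P).symm
  haveI : IsScalarTower L[X] L'[X] M' := IsScalarTower.of_algebraMap_eq fun P => by
    show P.eval₂ (κ.comp α).toRingHom (κ T) = (P.map ι.toRingHom).eval₂ α'.toRingHom (κ T)
    rw [eval₂_map, hc]; rfl
  show Module.finrank M M' = Module.finrank L L'
  rw [IsFractionRing.finrank_eq L[X] M L'[X] M']
  exact congrArg Cardinal.toNat (rank_polynomial_polynomial L L')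

/-- The subfield generated by the image of `ι` and one element. -/
lemma exists_gen (ι : L →ₐ[K] N) (U : N) :
    ∃ (M : Fld K) (α : L →ₐ[K] M) (κ : M →ₐ[K] N) (T : M), κ.comp α = ι ∧ κ T = U ∧ Gen α T := by
  letI := alg ι
  haveI := tower ι
  refine ⟨⟨adjoin L {U}⟩, IsScalarTower.toAlgHom K L _, (adjoin L {U}).val.restrictScalars K,
    AdjoinSimple.gen L U, AlgHom.ext fun _ => rfl, rfl, ?_⟩
  intro x
  obtain ⟨P, Q, e⟩ := (mem_adjoin_simple_iff L x.1).1 x.2
  have h1 : ∀ P : L[X], ((aeval (AdjoinSimple.gen L U) P : adjoin L {U}) : N) = aeval U P :=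
    fun P => (aeval_algHom_apply (adjoin L {U}).val _ P).symm
  by_cases hQ : aeval U Q = 0
  · refine ⟨0, 1, by simp, ?_⟩
    have : x = 0 := Subtype.ext (by rw [e, hQ]; simp)
    rw [this]; simp
  · refine ⟨P, Q, fun e' => hQ ?_, Subtype.ext ?_⟩
    · rw [← h1]
      exact congrArg Subtype.val e'
    · show x.1 * ((aeval (AdjoinSimple.gen L U) Q : adjoin L {U}) : N) =
        ((aeval (AdjoinSimple.gen L U) P : adjoin L {U}) : N)
      rw [h1, h1, e]; exact div_mul_cancel₀ _ hQ

lemma Gen.fin {α : L →ₐ[K] M} {T : M} (h : Gen α T) (h' : ¬ Trans' α T) : Fin' α := by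
  letI := alg α
  rw [gen_iff] at h
  rw [trans_iff, Transcendental, not_not] at h'
  have h1 := adjoin.finiteDimensional h'.isIntegral
  rw [h] at h1
  exact (IntermediateField.topEquiv.toLinearEquiv.finiteDimensional : Module.Finite L M)

lemma Trans'.of_map {α : L →ₐ[K] M} {κ : M →ₐ[K] N} {T : M} :
    Trans' (κ.comp α) (κ T) ↔ Trans' α T := by
  refine forall_congr' fun P => ?_
  rw [← map_eval₂, map_eq_zero_iff κ κ.injective]

/-- Amalgamation with a finite extension. -/
lemma exists_amalgam (ι₁ : L →ₐ[K] M) (ι₂ : L →ₐ[K] M') (h : Fin' ι₁) :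
    ∃ (N : Fld K) (κ₁ : M →ₐ[K] N) (κ₂ : M' →ₐ[K] N), κ₁.comp ι₁ = κ₂.comp ι₂ ∧ Fin' κ₂ := by
  letI := alg ι₁
  letI := alg ι₂
  haveI := tower ι₁
  haveI := tower ι₂
  haveI : Module.Finite L M := h
  let φ : M →ₐ[L] AlgebraicClosure M' := IsAlgClosed.lift
  obtain ⟨s, hs⟩ := Module.Finite.fg_top (R := L) (M := M)
  let F : IntermediateField M' (AlgebraicClosure M') := adjoin M' (φ '' (s : Set M))
  have hF : ∀ x, φ x ∈ F := by
    intro x
    have hx : x ∈ Submodule.span L (s : Set M) := hs ▸ Submodule.mem_top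
    induction hx using Submodule.span_induction with
    | mem x hx => exact subset_adjoin _ _ ⟨x, hx, rfl⟩
    | zero => rw [map_zero]; exact zero_mem _
    | add x y _ _ hx hy => rw [map_add]; exact add_mem hx hy
    | smul a x _ hx =>
      rw [map_smul, Algebra.smul_def]
      exact mul_mem (IntermediateField.algebraMap_mem F (ι₂ a)) hx
  haveI : Finite (φ '' (s : Set M)) := (s.finite_toSet.image φ).to_subtype
  have hfin : FiniteDimensional M' F :=
    finiteDimensional_adjoin fun x _ => Algebra.IsIntegral.isIntegral x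
  refine ⟨⟨F⟩, ⟨φ.toRingHom.codRestrict F hF, fun c => Subtype.ext ?_⟩,
    IsScalarTower.toAlgHom K M' F, AlgHom.ext fun x => Subtype.ext ?_,
    RingHom.finite_algebraMap.2 hfin⟩
  · exact (φ.restrictScalars K).commutes c
  · exact φ.commutes x

/-- Finitely many algebraic elements lie in a finite extension. -/
lemma exists_fin_sub (L : Fld K) (s : Finset L.cl) :
    ∃ (L' : Fld K) (ι : L →ₐ[K] L') (κ : L' →ₐ[K] L.cl), Fin' ι ∧ κ.comp ι = L.toCl ∧
      ∀ x ∈ s, x ∈ Set.range κ := by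
  let F : IntermediateField L (AlgebraicClosure L) := adjoin L (s : Set (AlgebraicClosure L))
  have hfin : FiniteDimensional L F :=
    finiteDimensional_adjoin fun x _ => Algebra.IsIntegral.isIntegral x
  exact ⟨⟨F⟩, IsScalarTower.toAlgHom K L F, F.val.restrictScalars K,
    RingHom.finite_algebraMap.2 hfin, AlgHom.ext fun _ => rfl,
    fun x hx => ⟨⟨x, subset_adjoin _ _ hx⟩, rfl⟩⟩

/-- An embedding into an algebraically closed field extends to the algebraic closure. -/
lemma exists_cl_lift (ι : L →ₐ[K] N) [IsAlgClosed N] : ∃ κ : L.cl →ₐ[K] N, κ.comp L.toCl = ι := by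
  letI := alg ι
  haveI := tower ι
  let φ : AlgebraicClosure L →ₐ[L] N := IsAlgClosed.lift
  exact ⟨φ.restrictScalars K, AlgHom.ext fun x => φ.commutes x⟩

/-- The subfield generated by finitely many elements. -/
lemma good_adjoin (L : Fld K) (s : Set L) (hs : s.Finite) :
    ∃ j, Good j (L.sub (IntermediateField.adjoin K s)) := by
  haveI : Algebra.EssFiniteType K (adjoin K s) := essFiniteType_iff.2 (fg_adjoin_of_finite hs)
  obtain ⟨j, hj⟩ := Cardinal.lt_aleph0.1 (trdeg_lt_aleph0 K (adjoin K s))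
  exact ⟨j, ‹_›, hj⟩

end Pool.Agent.Lib.MP_557161_ag.DL
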