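import Pool.Agent.Lib.MP_557161_ag.DL.ValB1

/-!
Orders of vanishing, residue fields and Gauss extensions of places.
-/

namespace Pool.Agent.Lib.MP_557161_ag.DL.Pl

open ValB

variable {K : Type} [Field K] {L M M' : Fld K}

lemma IsDVR.ne_top {O : Pl M} (h : O.IsDVR) : O.O ≠ ⊤ := by
  obtain ⟨π, hπ⟩ := exists_unif h
  exact fun e => hπ.2.2.1 (e ▸ ValuationSubring.mem_top _)

lemma ord_zero (O : Pl M) (h : O.IsDVR) : O.ord 0 = 0 := by
  have : IsDiscreteValuationRing O.O := h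
  rw [ord, dif_pos (zero_mem _), Ring.ord_eq_addVal]
  exact congrArg (fun x : ℕ∞ => (x.toNat : ℤ)) IsDiscreteValuationRing.addVal_zero

lemma ord_mul {O : Pl M} (h : O.IsDVR) {f g : M} (hf : f ≠ 0) (hg : g ≠ 0) :
    O.ord (f * g) = O.ord f + O.ord g := by
  obtain ⟨π, hπ⟩ := exists_unif h
  obtain ⟨n, u, hu, rfl⟩ := hπ.2.2.2 f hf
  obtain ⟨m, v, hv, rfl⟩ := hπ.2.2.2 g hg
  rw [mul_mul_mul_comm, ← zpow_add₀ hπ.1, hπ.ord_eq (hu.mul hv), hπ.ord_eq hu, hπ.ord_eq hv]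

lemma ValB.ord_zpow {O : Pl M} (h : O.IsDVR) {f : M} (hf : f ≠ 0) (k : ℤ) :
    O.ord (f ^ k) = k * O.ord f := by
  obtain ⟨π, hπ⟩ := exists_unif h
  obtain ⟨n, u, hu, rfl⟩ := hπ.2.2.2 f hf
  rw [mul_zpow, ← zpow_mul, hπ.ord_eq (hu.zpow k), hπ.ord_eq hu, mul_comm]

lemma ord_inv {O : Pl M} (h : O.IsDVR) (f : M) : O.ord f⁻¹ = -O.ord f := by
  by_cases hf : f = 0
  · rw [hf, inv_zero, ord_zero O h, neg_zero]
  · rw [← zpow_neg_one, ord_zpow h hf, neg_one_mul]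

lemma ord_nonneg_iff {O : Pl M} (h : O.IsDVR) {f : M} : 0 ≤ O.ord f ↔ f ∈ O.O := by
  by_cases hf : f = 0
  · rw [hf, ord_zero O h]
    exact iff_of_true le_rfl (zero_mem _)
  · obtain ⟨π, hπ⟩ := exists_unif h
    obtain ⟨n, u, hu, rfl⟩ := hπ.2.2.2 f hf
    rw [hπ.ord_eq hu, hπ.mem_iff hu]

lemma ord_pos_iff {O : Pl M} (h : O.IsDVR) {f : M} (hf : f ≠ 0) :
    0 < O.ord f ↔ f ∈ O.O ∧ O.rd f = 0 := by
  have h1 := ord_nonneg_iff h (f := f)
  have h2 := ord_nonneg_iff h (f := f⁻¹)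
  rw [ord_inv h] at h2
  constructor
  · intro e
    have hm := h1.1 e.le
    exact ⟨hm, by_contra fun e' => by have := h2.2 (un_of_rd hm e').2.2; omega⟩
  · rintro ⟨hm, e⟩
    by_contra e'
    exact Un.rd ⟨hf, hm, h2.1 (by omega)⟩ e

lemma ord_eq_zero_of_mem {O : Pl M} {f : M} (h₀ : f ≠ 0) (h₁ : f ∈ O.O) (h₂ : f⁻¹ ∈ O.O) :
    O.ord f = 0 := by
  rw [ord, dif_pos h₁, Ring.ord_of_isUnit (Un.isUnit ⟨h₀, h₁, h₂⟩)]
  rfl

lemma ord_eq_zero_of_mem' {O : Pl M} (h : O.IsDVR) {f : M} (h₁ : f ∈ O.O) (h₂ : f⁻¹ ∈ O.O) :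
    O.ord f = 0 := by
  by_cases hf : f = 0
  · rw [hf, ord_zero O h]
  · exact ord_eq_zero_of_mem hf h₁ h₂

lemma ord_pow {O : Pl M} (h : O.IsDVR) (f : M) (n : ℕ) : O.ord (f ^ n) = n * O.ord f := by
  by_cases hf : f = 0
  · rw [hf, ord_zero O h, mul_zero]
    rcases n.eq_zero_or_pos with rfl | hn
    · rw [pow_zero, ← zpow_zero (1 : M), ord_zpow h one_ne_zero, zero_mul]
    · rw [zero_pow hn.ne', ord_zero O h]
  · rw [← zpow_natCast, ord_zpow h hf]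

lemma min_le_ord_add {O : Pl M} (h : O.IsDVR) {f g : M} (hfg : f + g ≠ 0) (hf : f ≠ 0)
    (hg : g ≠ 0) : min (O.ord f) (O.ord g) ≤ O.ord (f + g) := by
  have key : ∀ f g : M, f + g ≠ 0 → f ≠ 0 → g ≠ 0 → O.ord f ≤ O.ord g →
      O.ord f ≤ O.ord (f + g) := fun f g hfg hf hg e => by
    have h1 : g * f⁻¹ ∈ O.O := (ord_nonneg_iff h).1 (by
      rw [ord_mul h hg (inv_ne_zero hf), ord_inv h]; omega)
    have h2 : (f + g) * f⁻¹ ∈ O.O := by
      rw [add_mul, mul_inv_cancel₀ hf]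
      exact add_mem (one_mem _) h1
    rw [← ord_nonneg_iff h, ord_mul h hfg (inv_ne_zero hf), ord_inv h] at h2
    omega
  rcases le_total (O.ord f) (O.ord g) with e | e
  · exact (min_le_left _ _).trans (key f g hfg hf hg e)
  · rw [add_comm] at hfg ⊢
    exact (min_le_right _ _).trans (key g f hfg hg hf e)

lemma ValB.Unif.ord_self {O : Pl M} {π : M} (h : Unif O π) : O.ord π = 1 := by
  simpa using h.ord_eq Un.one 1

lemma exists_ord_eq_one {O : Pl M} (h : O.IsDVR) : ∃ f : M, f ≠ 0 ∧ O.ord f = 1 := by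
  obtain ⟨π, hπ⟩ := exists_unif h
  exact ⟨π, hπ.1, hπ.ord_self⟩

lemma ValB.exists_nonunit {O : Pl M} (h : O.O ≠ ⊤) : ∃ π : M, π ≠ 0 ∧ π ∈ O.O ∧ π⁻¹ ∉ O.O := by
  obtain ⟨f, hf⟩ : ∃ f, f ∉ O.O := by
    by_contra e
    exact h (ValuationSubring.ext _ _ fun x =>
      iff_of_true (by_contra fun e' => e ⟨x, e'⟩) (ValuationSubring.mem_top _))
  exact ⟨f⁻¹, inv_ne_zero fun e => hf (e ▸ zero_mem _), (O.O.mem_or_inv_mem f).resolve_left hf,
    by rwa [inv_inv]⟩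

lemma tr_res_le (O : Pl M) : O.res.tr ≤ M.tr := by
  letI := O.cst.toAlgebra
  exact (trdeg_le_of_surjective ({ O.rh with commutes' := fun _ => rfl } : O.O →ₐ[K] O.res)
    O.rh_surj).trans (trdeg_le_of_injective
      ({ O.O.subtype with commutes' := fun _ => rfl } : O.O →ₐ[K] M) Subtype.val_injective)

/-- The residue field of a nontrivial place has smaller transcendence degree. -/
lemma tr_res_lt (O : Pl M) (h : O.O ≠ ⊤) {n : ℕ} (hM : M.tr ≤ n) : O.res.tr < n := by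
  letI := O.cst.toAlgebra
  let ρ : O.O →ₐ[K] O.res := { O.rh with commutes' := fun _ => rfl }
  let σ : O.O →ₐ[K] M := { O.O.subtype with commutes' := fun _ => rfl }
  obtain ⟨α, x, hx⟩ := exists_isTranscendenceBasis' K O.res
  choose y hy using fun a => O.rh_surj (x a)
  have e : ρ ∘ y = x := funext hy
  have h1 : AlgebraicIndependent K y := AlgebraicIndependent.of_comp ρ (e ▸ hx.1)
  obtain ⟨π, p0, p1, p2⟩ := exists_nonunit h
  have p3 : ρ ⟨π, p1⟩ = 0 := by_contra fun e =>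
    p2 (un_of_rd p1 (by rw [rd_of_mem O p1]; exact e)).2.2
  have h2 : Transcendental (Algebra.adjoin K (Set.range y)) (⟨π, p1⟩ : O.O) := fun ha => by
    obtain ⟨q, q1, q2⟩ := ha.exists_nonzero_coeff_and_aeval_eq_zero
      (mem_nonZeroDivisors_of_ne_zero fun e => p0 (congrArg Subtype.val e))
    have q3 := congrArg ρ.toRingHom q2
    rw [Polynomial.aeval_def, Polynomial.hom_eval₂, map_zero] at q3
    erw [p3] at q3
    rw [Polynomial.eval₂_at_zero] at q3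
    obtain ⟨P, hP⟩ : (q.coeff 0).1 ∈ (MvPolynomial.aeval y : MvPolynomial α K →ₐ[K] O.O).range := by
      rw [← Algebra.adjoin_range_eq_range_aeval]
      exact (q.coeff 0).2
    have q4 : MvPolynomial.aeval x P = 0 := by
      rw [← e, Function.comp_def, ← MvPolynomial.comp_aeval_apply]
      exact (congrArg ρ hP).trans q3
    rw [algebraicIndependent_iff.1 hx.1 P q4, map_zero] at hP
    exact q1 (Subtype.ext hP.symm)
  have h3 := (((h1.option_iff_transcendental _).2 h2).map' (f := σ)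
    Subtype.val_injective).cardinalMk_le_trdeg
  rw [Cardinal.mk_option, hx.cardinalMk_eq_trdeg] at h3
  by_contra h4
  have h5 : (n : Cardinal) + 1 ≤ n :=
    (add_le_add_left (not_lt.1 h4) 1).trans (h3.trans hM)
  norm_cast at h5
  omega

lemma ValB.over_unif {ι : M →ₐ[K] M'} {O : Pl M} {O' : Pl M'} (h : Over ι O O') (h' : O'.IsDVR)
    (hO : O.O ≠ ⊤) : ∃ π, Unif O π ∧ 0 < O'.ord (ι π) := by
  have hu : ∀ u, u ≠ 0 → O'.ord (ι u) = 0 → Un O u := fun u h0 e =>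
    ⟨h0, (h _).2 ((ord_nonneg_iff h').1 e.ge), (h _).2 ((ord_nonneg_iff h').1 (by
      rw [map_inv₀, ord_inv h', e, neg_zero]))⟩
  obtain ⟨e, ⟨e0, π, p0, rfl⟩, hmin⟩ := Int.exists_least_of_bdd
    (P := fun e => 0 < e ∧ ∃ π, π ≠ 0 ∧ O'.ord (ι π) = e) ⟨0, fun z hz => hz.1.le⟩ (by
      obtain ⟨π, p0, p1, p2⟩ := exists_nonunit hO
      refine ⟨_, ?_, π, p0, rfl⟩
      rw [h, map_inv₀, ← ord_nonneg_iff h', ord_inv h'] at p2
      omega)
  refine ⟨π, ⟨p0, (h _).2 ((ord_nonneg_iff h').1 e0.le), ?_, fun f hf => ?_⟩, e0⟩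
  · rw [h, map_inv₀, ← ord_nonneg_iff h', ord_inv h']
    omega
  · have h0 : f * π ^ (-(O'.ord (ι f) / O'.ord (ι π))) ≠ 0 := mul_ne_zero hf (zpow_ne_zero _ p0)
    have h1 : O'.ord (ι (f * π ^ (-(O'.ord (ι f) / O'.ord (ι π))))) =
        O'.ord (ι f) % O'.ord (ι π) := by
      rw [map_mul, map_zpow₀, ord_mul h' ((map_ne_zero ι).2 hf)
        (zpow_ne_zero _ ((map_ne_zero ι).2 p0)), ord_zpow h' ((map_ne_zero ι).2 p0), Int.emod_def]
      ring
    refine ⟨O'.ord (ι f) / O'.ord (ι π), _, hu _ h0 ?_, ?_⟩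
    · have h2 := Int.emod_nonneg (O'.ord (ι f)) e0.ne'
      have h3 := Int.emod_lt_of_pos (O'.ord (ι f)) e0
      by_contra h4
      have := hmin _ ⟨by omega, _, h0, h1⟩
      omega
    · rw [mul_assoc, ← zpow_add₀ p0, neg_add_cancel, zpow_zero, mul_one]

lemma Over.isDVR {ι : M →ₐ[K] M'} {O : Pl M} {O' : Pl M'} (h : Over ι O O') (h' : O'.IsDVR)
    (hO : O.O ≠ ⊤) : O.IsDVR := by
  obtain ⟨π, hπ, -⟩ := over_unif h h' hO
  exact hπ.isDVR

lemma Over.exists_ram {ι : M →ₐ[K] M'} {O : Pl M} {O' : Pl M'} (h : Over ι O O') (h' : O'.IsDVR)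
    (hO : O.O ≠ ⊤) : ∃ e : ℤ, 0 < e ∧ ∀ f, O'.ord (ι f) = e * O.ord f := by
  obtain ⟨π, hπ, e0⟩ := over_unif h h' hO
  refine ⟨_, e0, fun f => ?_⟩
  by_cases hf : f = 0
  · rw [hf, map_zero, ord_zero _ h', ord_zero _ hπ.isDVR, mul_zero]
  · obtain ⟨n, u, hu, rfl⟩ := hπ.2.2.2 f hf
    have hu' := (Un.map h).2 hu
    have h0 := (map_ne_zero ι).2 hπ.1
    rw [hπ.ord_eq hu, map_mul, map_zpow₀, ord_mul h' hu'.1 (zpow_ne_zero _ h0), ord_zpow h' h0,
      ord_eq_zero_of_mem hu'.1 hu'.2.1 hu'.2.2, zero_add, mul_comm]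

lemma Over.fin_res {ι : M →ₐ[K] M'} {O : Pl M} {O' : Pl M'} (h : Over ι O O') (hι : Fin' ι) :
    Fin' h.resHom := by
  letI := ι.toRingHom.toAlgebra
  letI := h.resHom.toRingHom.toAlgebra
  have : Module.Finite M M' := hι
  change Module.Finite O.res O'.res
  refine Module.rank_lt_aleph0_iff.1 ((rank_le (n := Module.finrank M M') fun s hs => ?_).trans_lt
    Cardinal.natCast_lt_aleph0)
  choose y h1 h2 using O'.rd_surj
  have := (lift_li h (fun a : s => y a) (fun a => h1 a)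
    (by simpa only [h2] using hs)).fintype_card_le_finrank
  rwa [Fintype.card_coe] at this

lemma Over.ne_top {ι : M →ₐ[K] M'} {O : Pl M} {O' : Pl M'} (h : Over ι O O') (hι : Fin' ι)
    (h' : O'.O ≠ ⊤) : O.O ≠ ⊤ := by
  intro e
  refine h' (ValuationSubring.ext _ _ fun x => iff_of_true ?_ (ValuationSubring.mem_top _))
  obtain ⟨P, hP, h0⟩ := hι.to_isIntegral x
  let φ : M →+* O'.O := ι.toRingHom.codRestrict O'.O.toSubring fun c =>
    (h c).1 (e ▸ ValuationSubring.mem_top _)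
  have h1 : IsIntegral O'.O x := ⟨P.map φ, hP.map φ, by rw [Polynomial.eval₂_map]; exact h0⟩
  obtain ⟨y, rfl⟩ := IsIntegrallyClosed.isIntegral_iff.1 h1
  exact y.2

lemma Over.tr_res_le {ι : M →ₐ[K] M'} {O : Pl M} {O' : Pl M'} (h : Over ι O O') {T : M'}
    (hT : Gen ι T) : O'.res.tr ≤ O.res.tr + 1 := by
  letI := ι.toRingHom.toAlgebra
  letI := h.resHom.toRingHom.toAlgebra
  have : IsScalarTower K O.res O'.res :=
    IsScalarTower.of_algebraMap_eq fun c => (h.resHom.commutes c).symm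
  have h1 : Algebra.trdeg M M' ≤ 1 := by
    have := Gen.tr_le (K := M) (L := Fld.base M) (M := ⟨M'⟩) (ι := Algebra.ofId M M') (T := T) hT
    rwa [tr_base, zero_add] at this
  obtain ⟨α, x, hx⟩ := exists_isTranscendenceBasis' O.res O'.res
  choose y y1 y2 using O'.rd_surj
  have h2 : AlgebraicIndependent M fun a => y (x a) := by
    rw [algInd_iff]
    refine lift_li h _ (fun m => prod_mem fun a _ => pow_mem (y1 _) _) ?_
    have := (algInd_iff x).1 hx.1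
    simpa only [Finsupp.prod, rd_prod O' _ _ fun a => pow_mem (y1 _) _, rd_pow O' (y1 _), y2]
      using this
  have h3 := h2.cardinalMk_le_trdeg.trans h1
  rw [hx.cardinalMk_eq_trdeg] at h3
  exact (trdeg_add_eq K O.res (A := O'.res)).ge.trans (add_le_add_right h3 _)

/-- Existence of the Gauss extension. -/
lemma exists_gauss {ι : M →ₐ[K] M'} {T : M'} (ht : Trans' ι T) (hg : Gen ι T) (O : Pl M) :
    ∃ (O' : Pl M') (h : Over ι O O'), T ∈ O'.O ∧ Trans' h.resHom (O'.rd T) ∧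
      Gen h.resHom (O'.rd T) ∧ (O.IsDVR → O'.IsDVR ∧ ∀ f, O'.ord (ι f) = O.ord f) := by
  let ev : Polynomial O.O →+* M' := Polynomial.eval₂RingHom (ph ι O) T
  let ρ : Polynomial O.O →+* Polynomial O.res := Polynomial.mapRingHom O.rh
  have hi : Function.Injective ev := (injective_iff_map_eq_zero _).2 fun a ha =>
    (Polynomial.map_eq_zero_iff (f := O.O.subtype) Subtype.val_injective).1
      (ht _ (by rw [Polynomial.eval₂_map]; exact ha))
  have hC : ∀ c : O.O, ev (Polynomial.C c) = ι c := fun c => Polynomial.eval₂_C _ _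
  have H : ∀ x : M', ∃ a b, ρ b ≠ 0 ∧ (x * ev b = ev a ∨ x⁻¹ * ev b = ev a) := fun x => by
    by_cases hx : x = 0
    · exact ⟨0, 1, by simp, Or.inl (by simp [hx])⟩
    obtain ⟨c, a, b, c0, ha, hb, e⟩ := gauss_decomp hg O hx
    rcases O.O.mem_or_inv_mem c with hc | hc
    · exact ⟨Polynomial.C ⟨c, hc⟩ * a, b, hb, Or.inl (by rw [map_mul, hC]; exact e)⟩
    · refine ⟨Polynomial.C ⟨c⁻¹, hc⟩ * b, a, ha, Or.inr ?_⟩
      rw [map_mul, hC, map_inv₀, inv_mul_eq_iff_eq_mul₀ hx, mul_left_comm,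
        eq_inv_mul_iff_mul_eq₀ ((map_ne_zero ι).2 c0)]
      exact e.symm
  let O' : Pl M' := ⟨loc ev ρ H, fun c => by
    rw [← ι.commutes]
    exact hC ⟨_, O.const c⟩ ▸ ev_mem_loc _⟩
  have h : Over ι O O' := fun f => ⟨fun hf => hC ⟨f, hf⟩ ▸ ev_mem_loc (H := H) _, fun hf => by
    by_contra h1
    have h2 := (O.O.mem_or_inv_mem f).resolve_left h1
    have h0 : f ≠ 0 := fun e => h1 (e ▸ zero_mem _)
    have h3 := (inv_mem_loc (H := H) hi (a := Polynomial.C ⟨f⁻¹, h2⟩)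
      (Polynomial.C_ne_zero.2 fun e => inv_ne_zero h0 (congrArg Subtype.val e))).1
      (by rw [hC, map_inv₀, inv_inv]; exact hf)
    refine h1 (inv_inv f ▸ (un_of_rd h2 fun e => h3 ?_).2.2)
    rw [rd_of_mem O h2] at e
    simp [ρ, e]⟩
  have hT : T ∈ O'.O := (Polynomial.eval₂_X (ph ι O) T : ev Polynomial.X = T) ▸ ev_mem_loc (H := H) _
  have ht' : Trans' h.resHom (O'.rd T) := fun P hP => by
    obtain ⟨a, rfl⟩ := Polynomial.map_surjective _ O.rh_surj P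
    exact by_contra fun e => (rd_ev_iff (O := O') (H := H) hi rfl a).2 e
      ((gauss_rd h hT a).2.trans hP)
  refine ⟨O', h, hT, ht', fun z => ?_, fun hO => ?_⟩
  · obtain ⟨x, hx, rfl⟩ := O'.rd_surj z
    obtain ⟨a, b, hb, e⟩ := id hx
    refine ⟨a.map O.rh, b.map O.rh, fun e => hb (ht' _ e), ?_⟩
    rw [← (gauss_rd h hT a).2, ← (gauss_rd h hT b).2, ← rd_mul _ hx (gauss_rd h hT b).1]
    exact congrArg O'.rd e
  · obtain ⟨π, hπ⟩ := exists_unif hO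
    have h1 : Unif O' (ι π) := by
      refine ⟨(map_ne_zero ι).2 hπ.1, (h _).1 hπ.2.1, by rw [← map_inv₀, ← h]; exact hπ.2.2.1,
        fun x hx => ?_⟩
      obtain ⟨c, a, b, c0, ha, hb, e⟩ := gauss_decomp hg O hx
      obtain ⟨n, u, hu, rfl⟩ := hπ.2.2.2 c c0
      have h2 := gauss_un h hT ht' hb
      refine ⟨n, _, (((Un.map h).2 hu).mul (gauss_un h hT ht' ha)).mul h2.inv, ?_⟩
      rw [(eq_mul_inv_iff_mul_eq₀ h2.1).2 e, map_mul, map_zpow₀]
      ring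
    refine ⟨h1.isDVR, fun f => ?_⟩
    by_cases hf : f = 0
    · rw [hf, map_zero, ord_zero _ hO, ord_zero _ h1.isDVR]
    · obtain ⟨n, u, hu, rfl⟩ := hπ.2.2.2 f hf
      rw [hπ.ord_eq hu, map_mul, map_zpow₀, h1.ord_eq ((Un.map h).2 hu)]

/-- Uniqueness of the Gauss extension. -/
lemma gauss_unique {ι : M →ₐ[K] M'} {T : M'} (hg : Gen ι T) {O : Pl M} {O₁ O₂ : Pl M'}
    (h₁ : Over ι O O₁) (h₂ : Over ι O O₂) (m₁ : T ∈ O₁.O) (m₂ : T ∈ O₂.O)
    (t₁ : Trans' h₁.resHom (O₁.rd T)) (t₂ : Trans' h₂.resHom (O₂.rd T)) : O₁ = O₂ := by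
  refine Pl.ext fun x => ?_
  by_cases hx : x = 0
  · rw [hx]
    exact iff_of_true (zero_mem _) (zero_mem _)
  obtain ⟨c, a, b, -, ha, hb, e⟩ := gauss_decomp hg O hx
  rw [← (gauss_un h₁ m₁ t₁ hb).mul_mem_iff, ← (gauss_un h₂ m₂ t₂ hb).mul_mem_iff (x := x),
    mul_comm, e, mul_comm, (gauss_un h₁ m₁ t₁ ha).mul_mem_iff, (gauss_un h₂ m₂ t₂ ha).mul_mem_iff,
    ← h₁, ← h₂]

/-- The place `T = 0`. -/
lemma exists_zero_place {ι : L →ₐ[K] M} {T : M} (ht : Trans' ι T) (hg : Gen ι T) :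
    ∃ (O : Pl M) (h : Triv ι O), O.IsDVR ∧ O.ord T = 1 ∧ Function.Surjective h.hom := by
  let ev : Polynomial L →+* M := Polynomial.eval₂RingHom ι.toRingHom T
  let ρ : Polynomial L →+* L := Polynomial.constantCoeff
  have hi : Function.Injective ev := (injective_iff_map_eq_zero _).2 ht
  have hC : ∀ c : L, ev (Polynomial.C c) = ι c := fun c => Polynomial.eval₂_C _ _
  have hX : ev Polynomial.X = T := Polynomial.eval₂_X _ _
  have h0 : T ≠ 0 := fun e => ht.ne 0 (by rw [e, map_zero])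
  have H : ∀ x : M, ∃ a b, ρ b ≠ 0 ∧ (x * ev b = ev a ∨ x⁻¹ * ev b = ev a) := fun x => by
    by_cases hx : x = 0
    · exact ⟨0, 1, by simp, Or.inl (by simp [hx])⟩
    obtain ⟨n, a, b, ha, hb, e⟩ := zero_decomp hg h0 hx
    obtain ⟨k, rfl | rfl⟩ := n.eq_nat_or_neg
    · exact ⟨Polynomial.X ^ k * a, b, hb, Or.inl (by
        rw [map_mul, map_pow, hX, ← zpow_natCast]; exact e)⟩
    · refine ⟨Polynomial.X ^ k * b, a, ha, Or.inr ?_⟩
      rw [zpow_neg, zpow_natCast, eq_inv_mul_iff_mul_eq₀ (pow_ne_zero _ h0)] at e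
      rw [map_mul, map_pow, hX, inv_mul_eq_iff_eq_mul₀ hx, mul_left_comm]
      exact e.symm
  let O : Pl M := ⟨loc ev ρ H, fun c => by
    rw [← ι.commutes]
    exact hC _ ▸ ev_mem_loc _⟩
  have h : Triv ι O := fun f => hC f ▸ ev_mem_loc (H := H) _
  have hT : T⁻¹ ∉ O.O := fun e =>
    (inv_mem_loc (H := H) hi Polynomial.X_ne_zero).1 (hX ▸ e) Polynomial.coeff_X_zero
  have h1 := (zero_unif hg h h0 hT (a := 1) (by simp)).2
  have h2 : O.rd T = 0 := by_contra fun e => hT (un_of_rd h1.2.1 e).2.2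
  refine ⟨O, h, h1.isDVR, h1.ord_self, fun z => ?_⟩
  obtain ⟨x, hx, rfl⟩ := O.rd_surj z
  obtain ⟨a, b, hb, e⟩ := id hx
  refine ⟨a.coeff 0 / b.coeff 0, ?_⟩
  rw [map_div₀, div_eq_iff ((map_ne_zero h.hom (a := b.coeff 0)).2 hb), ← (zero_rd h h1.2.1 h2 a).2,
    ← (zero_rd h h1.2.1 h2 b).2, ← rd_mul _ hx (zero_rd h h1.2.1 h2 b).1]
  exact (congrArg O.rd e).symm

lemma zero_place_unique {ι : L →ₐ[K] M} {T : M} (ht : Trans' ι T) (hg : Gen ι T) {O₁ O₂ : Pl M}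
    (h₁ : Triv ι O₁) (h₂ : Triv ι O₂) (m₁ : T⁻¹ ∉ O₁.O) (m₂ : T⁻¹ ∉ O₂.O) : O₁ = O₂ := by
  have h0 : T ≠ 0 := fun e => ht.ne 0 (by rw [e, map_zero])
  refine Pl.ext fun x => ?_
  by_cases hx : x = 0
  · rw [hx]
    exact iff_of_true (zero_mem _) (zero_mem _)
  obtain ⟨n, a, b, ha, hb, e⟩ := zero_decomp hg h0 hx
  rw [← (zero_unif hg h₁ h0 m₁ hb).1.mul_mem_iff,
    ← (zero_unif hg h₂ h0 m₂ hb).1.mul_mem_iff (x := x), mul_comm, e, mul_comm,
    (zero_unif hg h₁ h0 m₁ ha).2.mem_iff (zero_unif hg h₁ h0 m₁ ha).1,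
    (zero_unif hg h₂ h0 m₂ ha).2.mem_iff (zero_unif hg h₂ h0 m₂ ha).1]

end Pool.Agent.Lib.MP_557161_ag.DL.Pl
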