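import Pool.Agent.Lib.MP_557161_ag.DL.ValA

/-!
Units and uniformizers of places.
-/

namespace Pool.Agent.Lib.MP_557161_ag.DL.Pl.ValB

open Polynomial

variable {K : Type} [Field K] {L M M' : Fld K}

/-- Units of the valuation ring. -/
def Un (O : Pl M) (x : M) : Prop := x ≠ 0 ∧ x ∈ O.O ∧ x⁻¹ ∈ O.O

/-- Uniformizers. -/
def Unif (O : Pl M) (π : M) : Prop :=
  π ≠ 0 ∧ π ∈ O.O ∧ π⁻¹ ∉ O.O ∧ ∀ f : M, f ≠ 0 → ∃ (n : ℤ) (u : M), Un O u ∧ f = u * π ^ n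

variable {O : Pl M} {x y u π : M}

lemma Un.one : Un O 1 := ⟨one_ne_zero, one_mem _, by rw [inv_one]; exact one_mem _⟩

lemma Un.mul (h : Un O x) (h' : Un O y) : Un O (x * y) :=
  ⟨mul_ne_zero h.1 h'.1, mul_mem h.2.1 h'.2.1, by rw [mul_inv]; exact mul_mem h.2.2 h'.2.2⟩

lemma Un.inv (h : Un O x) : Un O x⁻¹ := ⟨inv_ne_zero h.1, h.2.2, by rw [inv_inv]; exact h.2.1⟩

lemma Un.pow (h : Un O x) (n : ℕ) : Un O (x ^ n) :=
  ⟨pow_ne_zero _ h.1, pow_mem h.2.1 _, by rw [← inv_pow]; exact pow_mem h.2.2 _⟩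

lemma Un.zpow (h : Un O x) (n : ℤ) : Un O (x ^ n) := by
  obtain ⟨k, rfl | rfl⟩ := n.eq_nat_or_neg
  · rw [zpow_natCast]; exact h.pow k
  · rw [zpow_neg, zpow_natCast]; exact (h.pow k).inv

lemma Un.mul_mem_iff (h : Un O u) : u * x ∈ O.O ↔ x ∈ O.O :=
  ⟨fun e => by simpa only [inv_mul_cancel_left₀ h.1] using mul_mem h.2.2 e, mul_mem h.2.1⟩

lemma un_of_rd (hx : x ∈ O.O) (h : O.rd x ≠ 0) : Un O x :=
  ⟨((O.rd_ne_zero_iff hx).1 h).1, hx, ((O.rd_ne_zero_iff hx).1 h).2⟩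

lemma Un.rd (h : Un O x) : O.rd x ≠ 0 := (O.rd_ne_zero_iff h.2.1).2 ⟨h.1, h.2.2⟩

lemma Un.isUnit (h : Un O x) : IsUnit (⟨x, h.2.1⟩ : O.O) :=
  IsUnit.of_mul_eq_one ⟨x⁻¹, h.2.2⟩ (Subtype.ext (mul_inv_cancel₀ h.1))

lemma un_of_isUnit {a : O.O} (h : IsUnit a) : Un O a := by
  obtain ⟨b, hb⟩ := h.exists_right_inv
  have e : (a : M) * b = 1 := congrArg Subtype.val hb
  exact ⟨left_ne_zero_of_mul_eq_one e, a.2, by rw [← eq_inv_of_mul_eq_one_right e]; exact b.2⟩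

lemma Un.map {ι : M →ₐ[K] M'} {O' : Pl M'} (h : Over ι O O') : Un O' (ι x) ↔ Un O x := by
  rw [Un, Un, ← map_inv₀, ← h, ← h, _root_.map_ne_zero]

lemma zpow_mem_iff (h0 : π ≠ 0) (h1 : π ∈ O.O) (h2 : π⁻¹ ∉ O.O) (n : ℤ) :
    π ^ n ∈ O.O ↔ 0 ≤ n := by
  constructor
  · intro h
    by_contra hn
    obtain ⟨k, hk⟩ : ∃ k : ℕ, -1 = n + k := ⟨(-1 - n).toNat, by omega⟩
    refine h2 ?_
    rw [← zpow_neg_one, hk, zpow_add₀ h0, zpow_natCast]
    exact mul_mem h (pow_mem h1 k)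
  · intro h
    obtain ⟨k, rfl⟩ := Int.eq_ofNat_of_zero_le h
    rw [zpow_natCast]
    exact pow_mem h1 k

lemma Unif.mem_iff (h : Unif O π) (hu : Un O u) (n : ℤ) : u * π ^ n ∈ O.O ↔ 0 ≤ n := by
  rw [hu.mul_mem_iff, zpow_mem_iff h.1 h.2.1 h.2.2.1]

lemma Unif.assoc (h : Unif O π) {a : O.O} (ha : a ≠ 0) :
    ∃ n : ℕ, Associated ((⟨π, h.2.1⟩ : O.O) ^ n) a := by
  obtain ⟨n, u, hu, e⟩ := h.2.2.2 a fun e => ha (Subtype.ext e)
  obtain ⟨k, rfl⟩ := Int.eq_ofNat_of_zero_le ((h.mem_iff hu n).1 (e ▸ a.2))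
  refine ⟨k, hu.isUnit.unit, Subtype.ext ?_⟩
  rw [e, zpow_natCast, mul_comm]
  rfl

lemma Unif.irred (h : Unif O π) : Irreducible (⟨π, h.2.1⟩ : O.O) := by
  refine ⟨fun e => h.2.2.1 (un_of_isUnit e).2.2, fun a b e => ?_⟩
  have e' : π = (a : M) * b := congrArg Subtype.val e
  have ha : (a : M) ≠ 0 := left_ne_zero_of_mul (e' ▸ h.1)
  have hb : (b : M) ≠ 0 := right_ne_zero_of_mul (e' ▸ h.1)
  obtain ⟨n, u, hu, e1⟩ := h.2.2.2 a ha
  obtain ⟨m, v, hv, e2⟩ := h.2.2.2 b hb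
  have h1 := (h.mem_iff hu n).1 (e1 ▸ a.2)
  have h2 := (h.mem_iff hv m).1 (e2 ▸ b.2)
  have h3 : 0 ≤ 1 - (n + m) := by
    refine (zpow_mem_iff h.1 h.2.1 h.2.2.1 _).1 ?_
    have : π ^ (1 - (n + m)) = u * v := by
      rw [zpow_sub₀ h.1, zpow_one, zpow_add₀ h.1,
        div_eq_iff (mul_ne_zero (zpow_ne_zero _ h.1) (zpow_ne_zero _ h.1))]
      rw [e1, e2] at e'
      rw [mul_mul_mul_comm, ← e']
    rw [this]
    exact (hu.mul hv).2.1
  by_cases hn : n = 0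
  · rw [hn, zpow_zero, mul_one] at e1
    exact Or.inl (Un.isUnit (O := O) (x := a) (e1 ▸ hu))
  · rw [show m = 0 by omega, zpow_zero, mul_one] at e2
    exact Or.inr (Un.isUnit (O := O) (x := b) (e2 ▸ hv))

lemma Unif.isDVR (h : Unif O π) : O.IsDVR :=
  IsDiscreteValuationRing.ofHasUnitMulPowIrreducibleFactorization ⟨_, h.irred, h.assoc⟩

lemma exists_unif (h : O.IsDVR) : ∃ π, Unif O π := by
  have : IsDiscreteValuationRing O.O := h
  obtain ⟨ϖ, hϖ⟩ := IsDiscreteValuationRing.exists_irreducible O.O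
  have h0 : (ϖ : M) ≠ 0 := fun e => hϖ.ne_zero (Subtype.ext e)
  have key : ∀ f : M, f ≠ 0 → f ∈ O.O → ∃ (n : ℤ) (u : M), Un O u ∧ f = u * (ϖ : M) ^ n := by
    intro f hf hm
    obtain ⟨n, u, e⟩ := IsDiscreteValuationRing.eq_unit_mul_pow_irreducible
      (x := (⟨f, hm⟩ : O.O)) (fun e => hf (congrArg Subtype.val e)) hϖ
    exact ⟨n, _, un_of_isUnit u.isUnit, by rw [zpow_natCast]; exact congrArg Subtype.val e⟩
  refine ⟨ϖ, h0, ϖ.2, fun e => hϖ.not_isUnit (Un.isUnit (O := O) (x := ϖ) ⟨h0, ϖ.2, e⟩), fun f hf => ?_⟩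
  rcases O.O.mem_or_inv_mem f with hm | hm
  · exact key f hf hm
  · obtain ⟨n, u, hu, e⟩ := key _ (inv_ne_zero hf) hm
    exact ⟨-n, u⁻¹, hu.inv, by rw [zpow_neg, ← mul_inv, ← e, inv_inv]⟩

lemma Unif.ord_nat (h : Unif O π) (hu : Un O u) (n : ℕ) {f : M} (hf : f ∈ O.O)
    (e : f = u * π ^ n) : (Ring.ord O.O ⟨f, hf⟩).toNat = n := by
  have : IsDiscreteValuationRing O.O := h.isDVR
  rw [Ring.ord_eq_addVal, IsDiscreteValuationRing.addVal_def _ hu.isUnit.unit h.irred n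
    (Subtype.ext e)]
  rfl

lemma Unif.ord_eq (h : Unif O π) (hu : Un O u) (n : ℤ) : O.ord (u * π ^ n) = n := by
  rw [ord]
  split_ifs with hm
  · obtain ⟨k, rfl⟩ := Int.eq_ofNat_of_zero_le ((h.mem_iff hu n).1 hm)
    rw [h.ord_nat hu k hm (by rw [zpow_natCast])]
  · rw [h.mem_iff hu] at hm
    obtain ⟨k, rfl⟩ : ∃ k : ℕ, n = -k := ⟨(-n).toNat, by omega⟩
    rw [h.ord_nat hu.inv k _ (by rw [mul_inv, zpow_neg, inv_inv, zpow_natCast])]

/-- A coefficient of maximal absolute value. -/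
lemma exists_max (O : Pl M) {α : Type*} (s : Finset α) (c : α → M) (h : ∃ a ∈ s, c a ≠ 0) :
    ∃ a ∈ s, c a ≠ 0 ∧ ∀ b ∈ s, c b / c a ∈ O.O := by
  obtain ⟨a₀, h₀, h₁⟩ := h
  obtain ⟨a, ha, hm⟩ := s.exists_max_image (fun a => O.O.valuation (c a)) ⟨a₀, h₀⟩
  have h2 : c a ≠ 0 := fun e => h₁ (by
    have := hm a₀ h₀
    rw [e, map_zero, le_zero_iff] at this
    exact (Valuation.zero_iff _).1 this)
  refine ⟨a, ha, h2, fun b hb => ?_⟩
  rw [← O.O.valuation_le_one_iff, map_div₀]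
  exact div_le_one_of_le₀ (hm b hb) zero_le

/-- Linear independence of residues lifts. -/
lemma lift_li {ι : M →ₐ[K] M'} {O' : Pl M'} (h : Over ι O O') {α : Type*} (y : α → M')
    (hy : ∀ a, y a ∈ O'.O) :
    letI := ι.toRingHom.toAlgebra
    letI := h.resHom.toRingHom.toAlgebra
    LinearIndependent O.res (fun a => O'.rd (y a)) → LinearIndependent M y := by
  letI := ι.toRingHom.toAlgebra
  letI := h.resHom.toRingHom.toAlgebra
  intro H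
  rw [linearIndependent_iff'] at H ⊢
  intro s c hc
  by_contra h1
  obtain ⟨a, ha, h2, h3⟩ := exists_max O s c (by simpa using h1)
  have h4 : ∑ b ∈ s, ι (c b / c a) * y b = 0 := by
    have : ∀ b ∈ s, ι (c b / c a) * y b = (ι (c a))⁻¹ * c b • y b := fun b _ => by
      rw [map_div₀, div_eq_inv_mul, mul_assoc]
      rfl
    rw [Finset.sum_congr rfl this, ← Finset.mul_sum, hc, mul_zero]
  have h5 := congrArg O'.rd h4
  rw [rd_zero, rd_sum _ _ _ fun b hb => mul_mem ((h _).1 (h3 b hb)) (hy b)] at h5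
  have h6 := H s (fun b => O.rd (c b / c a)) (by
    refine Eq.trans (Finset.sum_congr rfl fun b hb => ?_) h5
    rw [rd_mul _ ((h _).1 (h3 b hb)) (hy b), ← h.resHom_rd]
    rfl) a ha
  simp only [div_self h2, rd_one] at h6
  exact one_ne_zero h6

lemma algInd_iff {R A α : Type*} [CommRing R] [CommRing A] [Algebra R A] (x : α → A) :
    AlgebraicIndependent R x ↔
      LinearIndependent R fun m : α →₀ ℕ => m.prod fun a k => x a ^ k := by
  have e : (fun m : α →₀ ℕ => m.prod fun a k => x a ^ k) =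
      (MvPolynomial.aeval x : MvPolynomial α R →ₐ[R] A).toLinearMap ∘
        MvPolynomial.basisMonomials α R := by
    funext m
    simp [MvPolynomial.aeval_monomial]
  constructor
  · intro h
    rw [e]
    exact (MvPolynomial.basisMonomials α R).linearIndependent.map' _
      (LinearMap.ker_eq_bot_of_injective h)
  · intro h
    rw [linearIndependent_iff'] at h
    refine algebraicIndependent_iff.2 fun P hP => ?_
    rw [MvPolynomial.aeval_def, MvPolynomial.eval₂_eq] at hP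
    by_contra h0
    obtain ⟨m, hm⟩ := MvPolynomial.support_nonempty.2 h0
    refine MvPolynomial.mem_support_iff.1 hm (h P.support (fun m => P.coeff m) ?_ m hm)
    refine Eq.trans (Finset.sum_congr rfl fun m _ => ?_) hP
    rw [Algebra.smul_def]
    rfl

lemma rd_prod (O : Pl M) {α : Type*} (s : Finset α) (f : α → M) (h : ∀ a, f a ∈ O.O) :
    O.rd (∏ a ∈ s, f a) = ∏ a ∈ s, O.rd (f a) := by
  classical
  induction s using Finset.induction_on with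
  | empty => simp
  | insert a s ha ih =>
    rw [Finset.prod_insert ha, Finset.prod_insert ha, rd_mul O (h a) (prod_mem fun b _ => h b), ih]

/-- The valuation subring given by a localisation. -/
def loc {A F : Type} [CommRing A] [CommRing F] [IsDomain F] (ev : A →+* M) (ρ : A →+* F)
    (H : ∀ x : M, ∃ a b, ρ b ≠ 0 ∧ (x * ev b = ev a ∨ x⁻¹ * ev b = ev a)) : ValuationSubring M where
  carrier := {x | ∃ a b, ρ b ≠ 0 ∧ x * ev b = ev a}
  mul_mem' := by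
    rintro x y ⟨a, b, h, e⟩ ⟨c, d, h', e'⟩
    refine ⟨a * c, b * d, by rw [map_mul]; exact mul_ne_zero h h', ?_⟩
    rw [map_mul, map_mul, ← e, ← e']
    ring
  one_mem' := ⟨1, 1, by simp, by simp⟩
  add_mem' := by
    rintro x y ⟨a, b, h, e⟩ ⟨c, d, h', e'⟩
    refine ⟨a * d + c * b, b * d, by rw [map_mul]; exact mul_ne_zero h h', ?_⟩
    rw [map_add, map_mul, map_mul, map_mul, ← e, ← e']
    ring
  zero_mem' := ⟨0, 1, by simp, by simp⟩
  neg_mem' := by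
    rintro x ⟨a, b, h, e⟩
    exact ⟨-a, b, h, by rw [map_neg, ← e, neg_mul]⟩
  mem_or_inv_mem' x := by
    obtain ⟨a, b, h, e | e⟩ := H x
    · exact Or.inl ⟨a, b, h, e⟩
    · exact Or.inr ⟨a, b, h, e⟩

section
variable {A F : Type} [CommRing A] [CommRing F] [IsDomain F] {ev : A →+* M} {ρ : A →+* F}
  {H : ∀ x : M, ∃ a b, ρ b ≠ 0 ∧ (x * ev b = ev a ∨ x⁻¹ * ev b = ev a)}

lemma ev_mem_loc (a : A) : ev a ∈ loc ev ρ H := ⟨a, 1, by simp, by simp⟩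

lemma inv_mem_loc (hi : Function.Injective ev) {a : A} (ha : a ≠ 0) :
    (ev a)⁻¹ ∈ loc ev ρ H ↔ ρ a ≠ 0 := by
  have h0 : ev a ≠ 0 := (map_ne_zero_iff _ hi).2 ha
  refine ⟨fun ⟨c, b, h, e⟩ => ?_, fun h => ⟨1, a, h, by rw [inv_mul_cancel₀ h0, map_one]⟩⟩
  rw [inv_mul_eq_iff_eq_mul₀ h0, ← map_mul] at e
  rw [hi e, map_mul] at h
  exact left_ne_zero_of_mul h

lemma rd_ev_iff (hi : Function.Injective ev) (hO : O.O = loc ev ρ H) (a : A) :
    O.rd (ev a) ≠ 0 ↔ ρ a ≠ 0 := by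
  rw [O.rd_ne_zero_iff (by rw [hO]; exact ev_mem_loc a), hO, map_ne_zero_iff _ hi]
  refine ⟨fun h => (inv_mem_loc hi h.1).1 h.2, fun h => ?_⟩
  have ha : a ≠ 0 := fun e => h (by rw [e, map_zero])
  exact ⟨ha, (inv_mem_loc hi ha).2 h⟩

end

/-- The residue of the value of a polynomial. -/
lemma rd_eval {A : Type} [CommRing A] (φ : A →+* M) (hφ : ∀ a, φ a ∈ O.O) {T : M} (hT : T ∈ O.O)
    (ψ : A →+* O.res) (hψ : ∀ a, ψ a = O.rd (φ a)) (P : A[X]) :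
    P.eval₂ φ T ∈ O.O ∧ O.rd (P.eval₂ φ T) = P.eval₂ ψ (O.rd T) := by
  induction P using Polynomial.induction_on' with
  | add p q hp hq =>
    rw [eval₂_add, eval₂_add, rd_add _ hp.1 hq.1, hp.2, hq.2]
    exact ⟨add_mem hp.1 hq.1, rfl⟩
  | monomial n a =>
    rw [eval₂_monomial, eval₂_monomial, rd_mul _ (hφ a) (pow_mem hT n), rd_pow _ hT, hψ]
    exact ⟨mul_mem (hφ a) (pow_mem hT n), rfl⟩

lemma exists_prim (O : Pl M) {P : M[X]} (hP : P ≠ 0) : ∃ (c : M) (a : O.O[X]), c ≠ 0 ∧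
    a.map O.rh ≠ 0 ∧ P = C c * a.map O.O.subtype := by
  obtain ⟨i, hi, h1, h2⟩ := exists_max O P.support P.coeff
    (by obtain ⟨i, hi⟩ := support_nonempty.2 hP; exact ⟨i, hi, mem_support_iff.1 hi⟩)
  have h3 : ∀ j, (C (P.coeff i)⁻¹ * P).coeff j ∈ O.O := fun j => by
    rw [coeff_C_mul, ← div_eq_inv_mul]
    by_cases hj : j ∈ P.support
    · exact h2 j hj
    · rw [notMem_support_iff.1 hj, zero_div]
      exact zero_mem _
  obtain ⟨a, ha⟩ := (mem_lifts (f := O.O.subtype) _).1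
    ((lifts_iff_coeff_lifts (C (P.coeff i)⁻¹ * P)).2 fun j => ⟨⟨_, h3 j⟩, rfl⟩)
  refine ⟨P.coeff i, a, h1, fun e => ?_, ?_⟩
  · have e1 : a.coeff i = 1 := Subtype.ext (by
      have := congrArg (coeff · i) ha
      simp only [coeff_map, coeff_C_mul, inv_mul_cancel₀ h1] at this
      exact this)
    have := congrArg (coeff · i) e
    simp only [coeff_map, e1, map_one, coeff_zero] at this
    exact one_ne_zero this
  · rw [ha, ← mul_assoc, ← C_mul, mul_inv_cancel₀ h1, C_1, one_mul]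

/-- The inclusion of the valuation ring followed by `ι`. -/
abbrev ph (ι : M →ₐ[K] M') (O : Pl M) : O.O →+* M' := ι.toRingHom.comp O.O.subtype

lemma gauss_decomp {ι : M →ₐ[K] M'} {T : M'} (hg : Gen ι T) (O : Pl M) {x : M'} (hx : x ≠ 0) :
    ∃ (c : M) (a b : O.O[X]), c ≠ 0 ∧ a.map O.rh ≠ 0 ∧ b.map O.rh ≠ 0 ∧
      x * b.eval₂ (ph ι O) T = ι c * a.eval₂ (ph ι O) T := by
  obtain ⟨P, Q, h1, e⟩ := hg x
  have hQ : Q ≠ 0 := fun e => h1 (by rw [e, eval₂_zero])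
  have hP : P ≠ 0 := fun e' => mul_ne_zero hx h1 (by rw [e, e', eval₂_zero])
  obtain ⟨c, a, c1, c2, rfl⟩ := exists_prim O hP
  obtain ⟨d, b, d1, d2, rfl⟩ := exists_prim O hQ
  refine ⟨c / d, a, b, div_ne_zero c1 d1, c2, d2, ?_⟩
  rw [eval₂_mul, eval₂_mul, eval₂_C, eval₂_C, eval₂_map, eval₂_map] at e
  have hd : ι d ≠ 0 := (_root_.map_ne_zero ι).2 d1
  rw [map_div₀, div_mul_eq_mul_div, eq_div_iff hd, mul_assoc, mul_comm _ (ι d)]
  exact e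

lemma gauss_rd {ι : M →ₐ[K] M'} {O' : Pl M'} (h : Over ι O O') {T : M'} (hT : T ∈ O'.O)
    (a : O.O[X]) : a.eval₂ (ph ι O) T ∈ O'.O ∧
      O'.rd (a.eval₂ (ph ι O) T) = (a.map O.rh).eval₂ h.resHom.toRingHom (O'.rd T) := by
  rw [eval₂_map]
  refine rd_eval (ph ι O) (fun c : O.O => (h (c : M)).1 c.2) hT _ (fun c => ?_) a
  exact (congrArg h.resHom (O.rd_coe c).symm).trans (h.resHom_rd c)

lemma gauss_un {ι : M →ₐ[K] M'} {O' : Pl M'} (h : Over ι O O') {T : M'} (hT : T ∈ O'.O)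
    (ht : Trans' h.resHom (O'.rd T)) {a : O.O[X]} (ha : a.map O.rh ≠ 0) :
    Un O' (a.eval₂ (ph ι O) T) :=
  un_of_rd (gauss_rd h hT a).1 fun e => ha (ht _ ((gauss_rd h hT a).2.symm.trans e))

lemma zero_decomp {ι : L →ₐ[K] M} {T : M} (hg : Gen ι T) (hT : T ≠ 0) {x : M} (hx : x ≠ 0) :
    ∃ (n : ℤ) (a b : L[X]), a.coeff 0 ≠ 0 ∧ b.coeff 0 ≠ 0 ∧
      x * b.eval₂ ι.toRingHom T = T ^ n * a.eval₂ ι.toRingHom T := by
  obtain ⟨P, Q, h1, e⟩ := hg x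
  have hQ : Q ≠ 0 := fun e => h1 (by rw [e, eval₂_zero])
  have hP : P ≠ 0 := fun e' => mul_ne_zero hx h1 (by rw [e, e', eval₂_zero])
  obtain ⟨a, a1, a2⟩ := exists_eq_pow_rootMultiplicity_mul_and_not_dvd P hP 0
  obtain ⟨b, b1, b2⟩ := exists_eq_pow_rootMultiplicity_mul_and_not_dvd Q hQ 0
  rw [C_0, sub_zero] at a1 a2 b1 b2
  rw [X_dvd_iff] at a2 b2
  generalize rootMultiplicity 0 P = k at a1
  generalize rootMultiplicity 0 Q = l at b1
  refine ⟨(k : ℤ) - l, a, b, a2, b2, ?_⟩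
  rw [a1, b1, eval₂_mul, eval₂_mul, eval₂_X_pow, eval₂_X_pow] at e
  rw [zpow_sub₀ hT, zpow_natCast, zpow_natCast, div_mul_eq_mul_div, eq_div_iff (pow_ne_zero _ hT),
    mul_assoc, mul_comm _ (T ^ l)]
  exact e

lemma zero_rd {ι : L →ₐ[K] M} (h : Triv ι O) {T : M} (hT : T ∈ O.O) (h0 : O.rd T = 0)
    (a : L[X]) : a.eval₂ ι.toRingHom T ∈ O.O ∧
      O.rd (a.eval₂ ι.toRingHom T) = h.hom (a.coeff 0) := by
  have := rd_eval ι.toRingHom h hT h.hom.toRingHom h.hom_apply a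
  rwa [h0, eval₂_at_zero] at this

lemma zero_unif {ι : L →ₐ[K] M} {T : M} (hg : Gen ι T) (h : Triv ι O) (h0 : T ≠ 0)
    (hT : T⁻¹ ∉ O.O) {a : L[X]} (ha : a.coeff 0 ≠ 0) : Un O (a.eval₂ ι.toRingHom T) ∧ Unif O T := by
  have h1 : T ∈ O.O := (O.O.mem_or_inv_mem T).resolve_right hT
  have h2 : O.rd T = 0 := by_contra fun e => hT (un_of_rd h1 e).2.2
  have h3 : ∀ a : L[X], a.coeff 0 ≠ 0 → Un O (a.eval₂ ι.toRingHom T) := fun a ha =>
    un_of_rd (zero_rd h h1 h2 a).1 (by rw [(zero_rd h h1 h2 a).2]; exact (_root_.map_ne_zero _).2 ha)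
  refine ⟨h3 a ha, h0, h1, hT, fun x hx => ?_⟩
  obtain ⟨n, a, b, ha, hb, e⟩ := zero_decomp hg h0 hx
  refine ⟨n, _, (h3 a ha).mul (h3 b hb).inv, ?_⟩
  rw [(eq_mul_inv_iff_mul_eq₀ (h3 b hb).1).2 e]
  ring

end Pool.Agent.Lib.MP_557161_ag.DL.Pl.ValB
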