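import Pool.Agent.Lib.MP_60ec62_ag.DL.FinNorm

/-!
Lengths, norms and finiteness of integral closures.
-/

namespace Pool.Agent.Lib.MP_557161_ag.DL.ValC

open Pool.Agent.Lib.MP_60ec62_ag.DL

lemma lenAt_eq_length {A R N' N : Type} [CommRing A] [CommRing R] [Algebra A R]
    (z : PrimeSpectrum A) (hu : ∀ a ∉ z.asIdeal, IsUnit (algebraMap A R a))
    (hs : ∀ r : R, ∃ a b, b ∉ z.asIdeal ∧ r * algebraMap A R b = algebraMap A R a)
    [AddCommGroup N'] [Module A N'] [AddCommGroup N] [Module R N] [Module A N]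
    [IsScalarTower A R N] (f : N' →ₗ[A] N) (h1 : ∀ n, ∃ n', ∃ s ∉ z.asIdeal, s • n = f n')
    (h2 : ∀ n', f n' = 0 → ∃ s ∉ z.asIdeal, s • n' = 0) : lenAt z N' = Module.length R N := by
  let S := Localization.AtPrime z.asIdeal
  let g : S →+* R := IsLocalization.lift (M := z.asIdeal.primeCompl) fun s => hu s s.2
  have hg : ∀ a, g (algebraMap A S a) = algebraMap A R a := IsLocalization.lift_eq _
  let : Algebra S R := g.toAlgebra
  let : Module S N := Module.compHom N g
  have : IsScalarTower S R N := ⟨fun s r n => mul_smul (g s) r n⟩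
  have : IsScalarTower A S N := ⟨fun a s n => by
    show g (a • s) • n = a • g s • n
    rw [Algebra.smul_def, map_mul, hg, mul_smul, algebraMap_smul]⟩
  have : IsLocalizedModule z.asIdeal.primeCompl f := by
    refine ⟨fun s => ?_, fun n => ?_, fun {x y} h => ?_⟩
    · rw [Module.End.isUnit_iff]
      obtain ⟨u, hu⟩ := hu s s.2
      have e : ∀ n : N, algebraMap A (Module.End A N) s n = u • n := fun n => by
        rw [Units.smul_def, hu, algebraMap_smul]; rfl
      rw [funext e]
      exact MulAction.bijective u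
    · obtain ⟨n', s, hs, e⟩ := h1 n
      exact ⟨(n', ⟨s, hs⟩), e⟩
    · obtain ⟨s, hs, e⟩ := h2 (x - y) (by rw [map_sub, h, sub_self])
      exact ⟨⟨s, hs⟩, by rwa [smul_sub, sub_eq_zero] at e⟩
  rw [lenAt, ((IsLocalizedModule.iso z.asIdeal.primeCompl f).extendScalarsOfIsLocalization
    z.asIdeal.primeCompl S).length_eq]
  refine Module.length_eq_of_surjective fun r => ?_
  obtain ⟨a, b, hb, e⟩ := hs r
  refine ⟨IsLocalization.mk' S a (⟨b, hb⟩ : z.asIdeal.primeCompl), (hu b hb).mul_right_cancel ?_⟩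
  rw [e, ← hg b, ← hg a]
  exact (map_mul g _ _).symm.trans (congrArg g (IsLocalization.mk'_spec S a _))

lemma ord_prod {R ι : Type} [CommRing R] [IsDomain R] (s : Finset ι) (f : ι → R)
    (h : ∀ i, f i ≠ 0) : Ring.ord R (∏ i ∈ s, f i) = ∑ i ∈ s, Ring.ord R (f i) := by
  classical
  induction s using Finset.induction_on with
  | empty => simp
  | insert a s ha ih =>
    rw [Finset.prod_insert ha, Finset.sum_insert ha,
      Ring.ord_mul' R (mem_nonZeroDivisors_of_ne_zero (h a)), ih]

lemma len_norm (R S : Type) [CommRing R] [IsDomain R] [IsPrincipalIdealRing R] [CommRing S]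
    [IsDomain S] [Algebra R S] [Module.Free R S] [Module.Finite R S] {b : S} (hb : b ≠ 0) :
    Module.length R (S ⧸ (⊥ ⊔ Ideal.span {b})) = Ring.ord R (Algebra.norm R b) := by
  let B := Module.Free.chooseBasis R S
  have hI := Ideal.span_singleton_eq_bot.not.2 hb
  rw [bot_sup_eq, (Ideal.quotientEquivPiSpan _ B hI).length_eq, Module.length_pi_of_fintype,
    Ring.ord_eq_of_associated (associated_norm_prod_smith B hb),
    ord_prod _ _ (Ideal.smithCoeffs_ne_zero B _ hI)]
  rfl

variable {K : Type} [Field K]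

lemma frob_ess (p : ℕ) [Fact p.Prime] [CharP K p] [PerfectRing K p] (R : Type) [CommRing R]
    [Nontrivial R] [Algebra K R] [Algebra.EssFiniteType K R] [ExpChar R p] (n : ℕ) :
    (iterateFrobenius R p n).Finite := by
  classical
  obtain ⟨σ, hσ⟩ := (Algebra.essFiniteType_iff K R).1 inferInstance
  refine RingHom.IsIntegral.to_finite (fun x => ?_) ?_
  · refine ⟨Polynomial.X ^ p ^ n - Polynomial.C x,
      Polynomial.monic_X_pow_sub_C _ (pow_ne_zero _ (Fact.out : p.Prime).ne_zero), ?_⟩
    simp [iterateFrobenius_def]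
  · let T : Subring R := Subring.closure (Set.range (iterateFrobenius R p n) ∪ σ)
    have h1 : ∀ x ∈ Algebra.adjoin K (σ : Set R), x ∈ T := fun x hx => by
      refine (Subring.closure_le (t := T)).2 ?_ (Algebra.mem_adjoin_iff.1 hx)
      rintro _ (⟨c, rfl⟩ | h)
      · obtain ⟨c, rfl⟩ := (bijective_iterateFrobenius K p n).2 c
        exact Subring.subset_closure (Or.inl ⟨algebraMap K R c, by simp [iterateFrobenius_def]⟩)
      · exact Subring.subset_closure (Or.inr h)
    have h2 : ∀ x, x ∈ T := fun x => by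
      obtain ⟨t, ht, ⟨u, rfl⟩, hx⟩ := hσ x
      obtain ⟨m, hm⟩ := Nat.exists_eq_succ_of_ne_zero
        (pow_ne_zero n (Fact.out : p.Prime).ne_zero)
      have e : x = x * u * u ^ m * iterateFrobenius R p n (u⁻¹ : Rˣ) := by
        rw [iterateFrobenius_def, hm, mul_assoc x, ← pow_succ', mul_assoc, ← mul_pow]
        simp
      rw [e]
      exact T.mul_mem (T.mul_mem (h1 _ hx) (T.pow_mem (h1 _ ht) m))
        (Subring.subset_closure (Or.inl ⟨_, rfl⟩))
    exact @Algebra.FiniteType.mk R R _ _ (iterateFrobenius R p n).toAlgebra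
      ⟨σ, @Algebra.eq_top_iff R R _ _ (iterateFrobenius R p n).toAlgebra _ |>.2 fun x =>
        (@Algebra.mem_adjoin_iff R R _ _ (iterateFrobenius R p n).toAlgebra _ _).2 (h2 x)⟩

lemma finNorm' (p : ℕ) [Fact p.Prime] [CharP K p] [IsAlgClosed K] (A M : Type) [CommRing A]
    [IsDomain A] [Algebra K A] [Algebra.FiniteType K A] [Field M] [Algebra A M]
    [IsFractionRing A M] : Module.Finite A (integralClosure A M) :=
  haveI := finNorm (K := K) p A
  Module.Finite.equiv (FractionRing.algEquiv A M).mapIntegralClosure.toLinearEquiv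

lemma exists_model (p : ℕ) [Fact p.Prime] [CharP K p] [IsAlgClosed K] {A M : Type} [CommRing A]
    [Algebra K A] [Algebra.FiniteType K A] [Field M] [Algebra K M] (φ : A →ₐ[K] M)
    (hfr : ∀ x : M, ∃ a b, φ b ≠ 0 ∧ x * φ b = φ a) :
    ∃ (D : Type) (_ : CommRing D) (_ : IsDomain D) (_ : IsIntegrallyClosed D) (_ : Algebra A D)
      (_ : Algebra K D) (_ : IsScalarTower K A D) (_ : Module.Finite A D) (ψ : D →ₐ[K] M),
      Function.Injective ψ ∧ ∀ a, ψ (algebraMap A D a) = φ a := by
  have : IsFractionRing φ.range M := IsFractionRing.of_field _ M fun x => by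
    obtain ⟨a, b, hb, e⟩ := hfr x
    exact ⟨⟨φ a, a, rfl⟩, ⟨φ b, b, rfl⟩, eq_div_of_mul_eq hb e⟩
  have : Algebra.FiniteType K φ.range := .of_surjective φ.rangeRestrict φ.rangeRestrict_surjective
  have := finNorm' (K := K) p φ.range M
  let : Algebra A φ.range := φ.rangeRestrict.toRingHom.toAlgebra
  let : Algebra A (integralClosure φ.range M) :=
    ((algebraMap φ.range _).comp (algebraMap A φ.range)).toAlgebra
  have : IsScalarTower A φ.range (integralClosure φ.range M) :=
    IsScalarTower.of_algebraMap_eq fun _ => rfl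
  have : Module.Finite A φ.range :=
    .of_surjective (Algebra.linearMap A φ.range) φ.rangeRestrict_surjective
  exact ⟨integralClosure φ.range M, inferInstance, inferInstance,
    integralClosure.isIntegrallyClosedOfFiniteExtension M, inferInstance, inferInstance,
    IsScalarTower.of_algebraMap_eq fun c => Subtype.ext (φ.commutes c).symm,
    Module.Finite.trans φ.range _, (integralClosure φ.range M).val.restrictScalars K,
    Subtype.val_injective, fun _ => rfl⟩

end Pool.Agent.Lib.MP_557161_ag.DL.ValC
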