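import Pool.Agent.Lib.MP_557161_ag.DL.ValB
import Pool.Agent.Lib.MP_557161_ag.DL.ValC1

/-!
Centres of places on normal models.
-/

namespace Pool.Agent.Lib.MP_557161_ag.DL.Pl

variable {K : Type} [Field K] [Base K] {L M M' : Fld K} {j : ℕ}

section Centre

variable {A : Type} [CommRing A] [Algebra K A]

/-- The place contains the image of `A` and has centre `z`. -/
def Cen (φ : A →ₐ[K] M) (z : PrimeSpectrum A) (O : Pl M) : Prop :=
  (∀ a, φ a ∈ O.O) ∧ ∀ a, O.rd (φ a) = 0 ↔ a ∈ z.asIdeal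

/-- The subfield of the residue field generated by the residues of the elements of `A`. -/
noncomputable abbrev cenFld (φ : A →ₐ[K] M) (O : Pl M) : Fld K :=
  O.res.sub (IntermediateField.adjoin K (Set.range fun a => O.rd (φ a)))

/-- The degree of the residue field over the residue field of the centre. -/
noncomputable def cenDeg (φ : A →ₐ[K] M) (O : Pl M) : ℕ :=
  deg (L := cenFld φ O) (L' := O.res) (IntermediateField.val _)

end Centre

end Pool.Agent.Lib.MP_557161_ag.DL.Pl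

namespace Pool.Agent.Lib.MP_557161_ag.DL.ValC

open Pool.Agent.Lib.MP_60ec62_ag.DL Pl Algebra

variable {K : Type} [Field K] {L M : Fld K} {j : ℕ} {D : Type} [CommRing D] [Algebra K D]

/-- The residue map on a ring contained in the place. -/
noncomputable def rho {ψ : D →ₐ[K] M} {O : Pl M} (h : ∀ a, ψ a ∈ O.O) : D →ₐ[K] O.res where
  toRingHom := O.rh.comp (ψ.toRingHom.codRestrict O.O.toSubring h)
  commutes' c := by
    show O.rh _ = O.rh (O.cst c)
    congr 1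
    exact Subtype.ext (ψ.commutes c)

lemma rho_apply {ψ : D →ₐ[K] M} {O : Pl M} (h : ∀ a, ψ a ∈ O.O) (a : D) :
    rho h a = O.rd (ψ a) := (O.rd_of_mem (h a)).symm

/-- The centre. -/
noncomputable def ctr {ψ : D →ₐ[K] M} {O : Pl M} (h : ∀ a, ψ a ∈ O.O) : PrimeSpectrum D :=
  cm (rho h) (gen O.res)

lemma cen_ctr {ψ : D →ₐ[K] M} {O : Pl M} (h : ∀ a, ψ a ∈ O.O) : Cen ψ (ctr h) O :=
  ⟨h, fun a => by rw [← rho_apply h]; rfl⟩

/-- The place is the localisation at `q`. -/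
def Loc (ψ : D →ₐ[K] M) (q : PrimeSpectrum D) (O : Pl M) : Prop :=
  ∀ x ∈ O.O, ∃ a b, b ∉ q.asIdeal ∧ x * ψ b = ψ a

lemma tr_eq_dm [EssFiniteType K D] (ρ : D →ₐ[K] L) (q : PrimeSpectrum D)
    (hq : ∀ a, ρ a = 0 ↔ a ∈ q.asIdeal) (hfr : ∀ x, ∃ a b, ρ b ≠ 0 ∧ x * ρ b = ρ a) :
    Good (dm K q) L := by
  have h : LocSurj ρ := fun x => (hfr x).imp fun a ⟨b, hb, e⟩ => ⟨b, hb.isUnit, e⟩
  have e : cm ρ (gen L) = q := PrimeSpectrum.ext (Ideal.ext hq)
  refine ⟨Res.essFiniteType h, ?_⟩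
  rw [← Dim.trdeg_eq_dm, ← e, Dim.trdeg_locSurj h]
  exact (AlgEquiv.quotientBot K L).trdeg_eq.symm

lemma Loc.frac {ψ : D →ₐ[K] M} {q : PrimeSpectrum D} {O : Pl M} (h : Loc ψ q O) (hc : Cen ψ q O)
    (x : O.res) : ∃ a b, rho hc.1 b ≠ 0 ∧ x * rho hc.1 b = rho hc.1 a := by
  obtain ⟨x, hx, rfl⟩ := O.rd_surj x
  obtain ⟨a, b, hb, e⟩ := h x hx
  refine ⟨a, b, by rw [rho_apply]; exact mt (hc.2 b).1 hb, ?_⟩
  rw [rho_apply, rho_apply, ← e, O.rd_mul hx (hc.1 b)]

lemma Loc.good [EssFiniteType K D] {ψ : D →ₐ[K] M} {q : PrimeSpectrum D} {O : Pl M}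
    (h : Loc ψ q O) (hc : Cen ψ q O) : Good (dm K q) O.res :=
  tr_eq_dm (rho hc.1) q (fun a => by rw [rho_apply]; exact hc.2 a) (h.frac hc)

lemma Loc.unique {ψ : D →ₐ[K] M} (hψ : Function.Injective ψ) {q : PrimeSpectrum D}
    (hq : q.asIdeal ≠ ⊥) {O O' : Pl M} (h : Loc ψ q O) (hd : O.IsDVR) (hc : Cen ψ q O') :
    O' = O := by
  have : IsDiscreteValuationRing O.O := hd
  obtain ⟨a, ha, a0⟩ := Submodule.exists_mem_ne_zero_of_ne_bot hq
  have e : O.O = O'.O := ValuationSubring.eq_of_le_of_ne_top _ (fun x hx => by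
    obtain ⟨a, b, hb, e⟩ := h x hx
    obtain ⟨b0, b1⟩ := (O'.rd_ne_zero_iff (hc.1 b)).1 (mt (hc.2 b).1 hb)
    rw [eq_mul_inv_iff_mul_eq₀ b0 |>.2 e]
    exact mul_mem (hc.1 a) b1) fun e => (O'.rd_ne_zero_iff (hc.1 a)).2
      ⟨(map_ne_zero_iff _ hψ).2 a0, e ▸ trivial⟩ ((hc.2 a).2 ha)
  exact Pl.ext fun x => by rw [e]

lemma exists_place [IsDomain D] [IsNoetherianRing D] [IsIntegrallyClosed D] (ψ : D →ₐ[K] M)
    (hψ : Function.Injective ψ) (hfr : ∀ x : M, ∃ a b, ψ b ≠ 0 ∧ x * ψ b = ψ a)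
    (q : PrimeSpectrum D) (hq : q.asIdeal.height = 1) :
    ∃ O : Pl M, O.IsDVR ∧ Cen ψ q O ∧ Loc ψ q O := by
  let : Algebra D M := ψ.toRingHom.toAlgebra
  have : FaithfulSMul D M := (faithfulSMul_iff_algebraMap_injective D M).2 hψ
  have : IsFractionRing D M := IsFractionRing.of_field D M fun x => by
    obtain ⟨a, b, hb, e⟩ := hfr x
    exact ⟨a, b, eq_div_of_mul_eq hb e⟩
  have hle := q.asIdeal.primeCompl_le_nonZeroDivisors
  let S := Localization.subalgebra.ofField M _ hle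
  have : IsLocalRing S := IsLocalization.AtPrime.isLocalRing S q.asIdeal
  have : IsNoetherianRing S := IsLocalization.isNoetherianRing q.asIdeal.primeCompl S inferInstance
  have ic : IsIntegrallyClosed S := isIntegrallyClosed_of_isLocalization S _ hle
  have hd : ringKrullDim S = 1 := by
    rw [IsLocalization.AtPrime.ringKrullDim_eq_height q.asIdeal S, hq]; rfl
  have : Ring.KrullDimLE 1 S := Ring.krullDimLE_iff.2 hd.le
  have nf : ¬ IsField S := fun h => by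
    rw [ringKrullDim_eq_zero_of_isField h] at hd
    exact zero_ne_one hd
  have h3 : IsIntegrallyClosed S ∧ ∃! P : Ideal S, P ≠ ⊥ ∧ P.IsPrime :=
    ⟨ic, IsLocalRing.maximalIdeal S, ⟨IsLocalRing.isField_iff_maximalIdeal_eq.not.1 nf,
      inferInstance⟩, fun P hP => IsLocalRing.eq_maximalIdeal (hP.2.isMaximal_of_ne_bot hP.1)⟩
  have dv : IsDiscreteValuationRing S := ((IsDiscreteValuationRing.TFAE S nf).out 0 3).2 h3
  have hm : ∀ a, ψ a ∈ S := S.algebraMap_mem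
  let O : Pl M := ⟨⟨S.toSubring, fun x => (ValuationRing.isInteger_or_isInteger S x).imp
    (fun ⟨y, e⟩ => e ▸ y.2) fun ⟨y, e⟩ => e ▸ y.2⟩, fun c => ψ.commutes c ▸ hm _⟩
  refine ⟨O, dv, ⟨hm, fun a => ?_⟩, ?_⟩
  · rw [O.rd_of_mem (hm a), O.rh_eq_zero]
    exact IsLocalization.AtPrime.to_map_mem_maximal_iff S q.asIdeal a
  · rintro _ ⟨a, s, hs, rfl⟩
    exact ⟨a, s, hs, inv_mul_cancel_right₀ ((map_ne_zero_iff _ hψ).2
      (nonZeroDivisors.ne_zero (hle hs))) _⟩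

lemma Loc.len {ψ : D →ₐ[K] M} (hψ : Function.Injective ψ) {q : PrimeSpectrum D} {O : Pl M}
    (h : Loc ψ q O) (hc : Cen ψ q O) (x : D) :
    O.ord (ψ x) = (lenAt q (D ⧸ (⊥ ⊔ Ideal.span {x}))).toNat := by
  let : Algebra D O.O := (ψ.toRingHom.codRestrict O.O.toSubring hc.1).toAlgebra
  have hu : ∀ a ∉ q.asIdeal, IsUnit (algebraMap D O.O a) := fun a ha => by
    have := mt (hc.2 a).1 ha
    rw [O.rd_of_mem (hc.1 a), O.rh_eq_zero] at this
    exact IsLocalRing.notMem_maximalIdeal.1 this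
  have hs : ∀ r : O.O, ∃ a b, b ∉ q.asIdeal ∧ r * algebraMap D O.O b = algebraMap D O.O a :=
    fun r => by
      obtain ⟨a, b, hb, e⟩ := h r r.2
      exact ⟨a, b, hb, Subtype.ext e⟩
  rw [Pl.ord, dif_pos (hc.1 x), Ring.ord, bot_sup_eq, lenAt_eq_length q hu hs
    (Ideal.quotientMapₐ (R₁ := D) (Ideal.span {algebraMap D O.O x}) (Algebra.ofId D O.O)
      ((Ideal.span_singleton_le_iff_mem _).2 (Ideal.mem_span_singleton_self _))).toLinearMap]
  · rfl
  · intro n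
    obtain ⟨r, rfl⟩ := Ideal.Quotient.mk_surjective n
    obtain ⟨a, b, hb, e⟩ := hs r
    refine ⟨Ideal.Quotient.mk _ a, b, hb, ?_⟩
    show Ideal.Quotient.mk _ (b • r) = Ideal.Quotient.mk _ (algebraMap D O.O a)
    rw [Algebra.smul_def, mul_comm, e]
  · intro n hn
    obtain ⟨d, rfl⟩ := Ideal.Quotient.mk_surjective n
    obtain ⟨r, hr⟩ := Ideal.mem_span_singleton'.1 (Ideal.Quotient.eq_zero_iff_mem.1 hn)
    obtain ⟨a, b, hb, e⟩ := hs r
    refine ⟨b, hb, Ideal.Quotient.eq_zero_iff_mem.2 (Ideal.mem_span_singleton'.2 ⟨a, hψ ?_⟩)⟩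
    have e1 : (r : M) * ψ b = ψ a := congrArg Subtype.val e
    have e2 : (r : M) * ψ x = ψ d := congrArg Subtype.val hr
    show ψ (a * x) = ψ (b * d)
    rw [map_mul, map_mul, ← e1, ← e2]
    ring

variable {A : Type} [CommRing A] [Algebra K A] [Algebra A D] [IsScalarTower K A D]
  [Module.Finite A D]

omit [Algebra K A] [IsScalarTower K A D] in
lemma len_res (ρ : D →ₐ[K] L) (q : PrimeSpectrum D) (hq : ∀ a, ρ a = 0 ↔ a ∈ q.asIdeal)
    (hfr : ∀ x, ∃ a b, ρ b ≠ 0 ∧ x * ρ b = ρ a) (F : Type) [Field F] [Algebra F L] (g : A →+* F)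
    (hg : ∀ a, algebraMap F L (g a) = ρ (algebraMap A D a))
    (hF : ∀ x, ∃ a b, g b ≠ 0 ∧ x * g b = g a) :
    (lenAt (PrimeSpectrum.comap (algebraMap A D) q) (D ⧸ q.asIdeal)).toNat = Module.finrank F L := by
  let : Algebra A F := g.toAlgebra
  let : Algebra D L := ρ.toRingHom.toAlgebra
  let : Algebra A L := ((algebraMap D L).comp (algebraMap A D)).toAlgebra
  have : IsScalarTower A D L := IsScalarTower.of_algebraMap_eq fun _ => rfl
  have : IsScalarTower A F L := IsScalarTower.of_algebraMap_eq fun a => (hg a).symm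
  have h0 : ∀ a, g a = 0 ↔ algebraMap A D a ∈ q.asIdeal := fun a => by
    rw [← hq, ← hg, map_eq_zero (algebraMap F L)]
  rw [lenAt_eq_length (R := F) _ (fun a ha => Ne.isUnit (mt (h0 a).1 ha))
    (fun x => (hF x).imp fun a ⟨b, hb, e⟩ => ⟨b, mt (h0 b).2 hb, e⟩)
    (Ideal.Quotient.liftₐ q.asIdeal (IsScalarTower.toAlgHom A D L) fun a => (hq a).2).toLinearMap,
    Module.length_eq_rank, Module.finrank]
  · simp
  · intro n
    obtain ⟨d, e, he, h⟩ := hfr n
    have := q.isPrime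
    obtain ⟨s, h1, h2⟩ := SetLike.exists_of_lt (Ideal.comap_lt_comap_of_integral_mem_sdiff
      (R := A) (le_sup_right : q.asIdeal ≤ Ideal.span {e} ⊔ q.asIdeal)
      ⟨Ideal.mem_sup_left (Ideal.mem_span_singleton_self e), mt (hq e).2 he⟩
      (Algebra.IsIntegral.isIntegral e))
    obtain ⟨c, y, hy, e1⟩ := Ideal.mem_span_singleton_sup.1 h1
    refine ⟨Ideal.Quotient.mk _ (c * d), s, h2, ?_⟩
    show ρ (algebraMap A D s) * n = ρ (c * d)
    rw [← e1, map_add, (hq y).2 hy, add_zero, map_mul, map_mul, ← h]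
    ring
  · intro n hn
    obtain ⟨d, rfl⟩ := Ideal.Quotient.mk_surjective n
    exact ⟨1, (Ideal.ne_top_iff_one _).1 (PrimeSpectrum.isPrime _).ne_top, by
      rw [one_smul]; exact Ideal.Quotient.eq_zero_iff_mem.2 ((hq d).1 hn)⟩

lemma len_cen {ψ : D →ₐ[K] M} {q : PrimeSpectrum D} {O : Pl M} (h : Loc ψ q O) (hc : Cen ψ q O)
    {φ : A →ₐ[K] M} (hφ : ∀ a, ψ (algebraMap A D a) = φ a) :
    (lenAt (PrimeSpectrum.comap (algebraMap A D) q) (D ⧸ q.asIdeal)).toNat = cenDeg φ O := by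
  let r : A →ₐ[K] O.res := (rho hc.1).comp (IsScalarTower.toAlgHom K A D)
  have hr : ∀ a, r a = O.rd (φ a) := fun a => by rw [← hφ, ← rho_apply hc.1]; rfl
  refine len_res (rho hc.1) q (fun a => by rw [rho_apply]; exact hc.2 a) (h.frac hc)
    (IntermediateField.adjoin K (Set.range fun a => O.rd (φ a)))
    (r.toRingHom.codRestrict _ fun a => IntermediateField.subset_adjoin _ _ ⟨a, (hr a).symm⟩)
    (fun _ => rfl) fun x => ?_
  obtain ⟨u, hu, v, hv, e⟩ := IntermediateField.mem_adjoin_iff_div.1 x.2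
  have hs : Algebra.adjoin K (Set.range fun a => O.rd (φ a)) ≤ r.range :=
    Algebra.adjoin_le (by rintro _ ⟨a, rfl⟩; exact ⟨a, hr a⟩)
  obtain ⟨a, rfl⟩ := hs hu
  obtain ⟨b, rfl⟩ := hs hv
  by_cases hb : r b = 0
  · refine ⟨0, 1, by simp, ?_⟩
    rw [map_one, map_zero, mul_one]
    exact Subtype.ext (e.trans (by show r a / r b = 0; rw [hb, div_zero]))
  · exact ⟨a, b, fun h => hb (congrArg Subtype.val h), Subtype.ext ((eq_div_iff hb).1 e)⟩

omit [Algebra K D] [Algebra K A] [IsScalarTower K A D] [Module.Finite A D] [Algebra A D] in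
lemma mem_of_integral [Algebra A M] {O : Pl M} (h : ∀ a, algebraMap A M a ∈ O.O) {x : M}
    (hx : IsIntegral A x) : x ∈ O.O := by
  let : Algebra A O.O := ((algebraMap A M).codRestrict O.O.toSubring h).toAlgebra
  have : IsScalarTower A O.O M := IsScalarTower.of_algebraMap_eq fun _ => rfl
  obtain ⟨y, rfl⟩ := IsIntegrallyClosed.isIntegral_iff.1 (hx.tower_top (A := O.O))
  exact y.2

theorem main [EssFiniteType K A] [IsDomain D] [IsIntegrallyClosed D] (ψ : D →ₐ[K] M)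
    (hψ : Function.Injective ψ) (hfr : ∀ x : M, ∃ a b, ψ b ≠ 0 ∧ x * ψ b = ψ a)
    (hM : M.tr = (j + 1 : ℕ)) {φ : A →ₐ[K] M} (hφ : ∀ a, ψ (algebraMap A D a) = φ a)
    (z : PrimeSpectrum A) (hz : dm K z = j) :
    (∀ O, Cen φ z O → O.IsDiv j ∧ ∃ q, Cen ψ q O ∧ Loc ψ q O) ∧ {O | Cen φ z O}.Finite ∧
      ∀ x, x ≠ 0 → ∑ᶠ O ∈ {O | Cen φ z O}, ((O.ord (ψ x) * cenDeg φ O : ℤ) : ℚ) =
        Key.push K A (dv K (gen D) x) z := by
  have : EssFiniteType K D := EssFiniteType.comp K A D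
  have : IsNoetherianRing D := EssFiniteType.isNoetherianRing K D
  have : IsNoetherianRing A := EssFiniteType.isNoetherianRing K A
  have hg : dm K (gen D) = j + 1 := by
    have := (tr_eq_dm ψ (gen D) (fun a => map_eq_zero_iff _ hψ) hfr).2
    rw [hM] at this
    exact_mod_cast this.symm
  have hq : ∀ q : PrimeSpectrum D, PrimeSpectrum.comap (algebraMap A D) q = z →
      dm K q = j ∧ q.asIdeal.height = 1 := fun q e => by
    have h1 : dm K q = j := by rw [← Key.dm_comap (R := A) (hD K), e, hz]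
    have h2 := Dim.dm_height (𝕜 := K) q
    rw [h1, hg, Nat.cast_add, add_comm] at h2
    exact ⟨h1, WithTop.add_left_cancel (ENat.natCast_ne_top j) h2⟩
  choose P p1 p2 p3 using fun q : {q // PrimeSpectrum.comap (algebraMap A D) q = z} =>
    exists_place ψ hψ hfr q.1 (hq _ q.2).2
  have inj : Function.Injective P := fun q q' e => Subtype.ext (PrimeSpectrum.ext
    (Ideal.ext fun a => by rw [← (p2 q).2, e, (p2 q').2]))
  have rg : {O | Cen φ z O} = Set.range P := by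
    ext O
    constructor
    · intro h
      let : Algebra A M := φ.toRingHom.toAlgebra
      have hm : ∀ d, ψ d ∈ O.O := fun d => mem_of_integral (A := A) h.1
        ((Algebra.IsIntegral.isIntegral (R := A) d).map
          ({ ψ.toRingHom with commutes' := hφ } : D →ₐ[A] M))
      have e : PrimeSpectrum.comap (algebraMap A D) (ctr hm) = z := PrimeSpectrum.ext
        (Ideal.ext fun a => by rw [← h.2, ← hφ, (cen_ctr hm).2]; rfl)
      exact ⟨⟨_, e⟩, ((p3 ⟨_, e⟩).unique hψ (Ideal.ne_bot_of_height_eq_one (hq _ e).2) (p1 _)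
        (cen_ctr hm)).symm⟩
    · rintro ⟨q, rfl⟩
      exact ⟨fun a => hφ a ▸ (p2 q).1 _, fun a => by
        rw [← hφ, (p2 q).2]; exact (congrArg (a ∈ ·.asIdeal) q.2).to_iff⟩
  have : Finite {q // PrimeSpectrum.comap (algebraMap A D) q = z} :=
    QuasiFinite.finite_comap_preimage_singleton (S := D) z
  refine ⟨fun O h => ?_, rg ▸ Set.finite_range P, fun x hx => ?_⟩
  · obtain ⟨q, rfl⟩ : O ∈ Set.range P := rg ▸ h
    exact ⟨⟨p1 q, (hq _ q.2).1 ▸ ((p3 q).good (p2 q)).2⟩, q, p2 q, p3 q⟩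
  rw [rg, finsum_mem_range inj, Key.push, Finsupp.linearCombination_apply, Finsupp.sum_apply,
    Finsupp.sum, ← finsum_eq_sum_of_support_subset (fun q => (dv K (gen D) x q •
      (cyc K (dm K q) (D ⧸ q.asIdeal) : Cyc A)) z) (fun q h => Finset.mem_coe.2
      (Finsupp.mem_support_iff.2 (left_ne_zero_of_mul h))), ← finsum_mem_univ fun q =>
      (dv K (gen D) x q • (cyc K (dm K q) (D ⧸ q.asIdeal) : Cyc A)) z,
    finsum_mem_inter_support_eq' _ _ {q | PrimeSpectrum.comap (algebraMap A D) q = z},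
    ← finsum_set_coe_eq_finsum_mem]
  · refine finsum_congr fun q => ?_
    have h1 := len_cen (p3 q) (p2 q) hφ
    rw [q.2] at h1
    rw [Finsupp.smul_apply, CycA.cyc_apply, if_pos (hz.trans (hq _ q.2).1.symm), h1, dv,
      if_neg (show x ∉ (gen D).asIdeal from hx), CycA.cyc_apply,
      if_pos (by rw [(hq _ q.2).1, hg]; rfl), (p3 q).len hψ (p2 q)]
    push_cast
    rfl
  · intro q h
    obtain ⟨h1, h2⟩ := CycA.cyc_ne (right_ne_zero_of_mul h)
    exact iff_of_true trivial (eq_of_le_of_dm_le (K := K) ((Key.mem_support_down _ z).1 h2)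
      (by rw [Key.dm_comap (hD K), h1]))

end Pool.Agent.Lib.MP_557161_ag.DL.ValC
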