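import Pool.Agent.Lib.MP_557161_ag.DL.ValC2

/-!
Models of divisorial places and their extensions.
-/

namespace Pool.Agent.Lib.MP_557161_ag.DL.ValC

open Pool.Agent.Lib.MP_60ec62_ag.DL Pl Algebra
open scoped nonZeroDivisors

variable {K : Type} [Field K] [Base K] {L M M' : Fld K} {j : ℕ}

theorem model {O : Pl M} (h : O.IsDiv j) (hM : Good (j + 1) M) :
    ∃ (D : Type) (_ : CommRing D) (_ : Algebra K D) (_ : EssFiniteType K D) (ψ : D →ₐ[K] M)
      (q : PrimeSpectrum D), Cen ψ q O ∧ Loc ψ q O := by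
  classical
  obtain ⟨p, hp, _⟩ := Base.char (K := K)
  have := Fact.mk hp
  obtain ⟨σ, hσ⟩ := (essFiniteType_iff K M).1 hM.1
  obtain ⟨t, ht⟩ := exists_isTranscendenceBasis K O.res
  have hc : Cardinal.mk t = j := ht.cardinalMk_eq_trdeg.trans h.2
  have : Finite t := Cardinal.mk_lt_aleph0_iff.1 (hc ▸ Cardinal.natCast_lt_aleph0)
  choose x x1 x2 using fun i : t => O.rd_surj i
  let S : Set M := Set.range x ∪ (fun s => if s ∈ O.O then s else s⁻¹) '' σ
  let A := Algebra.adjoin K S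
  have : FiniteType K A := .adjoin_of_finite ((Set.finite_range x).union (σ.finite_toSet.image _))
  have hA : ∀ a : A, A.val a ∈ O.O := fun a =>
    Algebra.adjoin_le (S := { O.O.toSubring with algebraMap_mem' := O.const }) (by
      rintro _ (⟨i, rfl⟩ | ⟨s, -, rfl⟩)
      · exact x1 i
      · show ite _ _ _ ∈ O.O
        split_ifs with hs
        exacts [hs, (O.O.mem_or_inv_mem s).resolve_left hs]) a.2
  have hfr : ∀ m : M, ∃ a b : A, A.val b ≠ 0 ∧ m * A.val b = A.val a := fun m => by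
    have h1 : Algebra.adjoin K (σ : Set M) ≤ (IntermediateField.adjoin K S).toSubalgebra :=
      Algebra.adjoin_le fun s hs => by
        have := IntermediateField.subset_adjoin K S (Or.inr ⟨s, hs, rfl⟩)
        simp only [] at this
        split_ifs at this
        exacts [this, (inv_mem_iff (H := IntermediateField.adjoin K S)).1 this]
    obtain ⟨u, hu, u0, hm⟩ := hσ m
    have h2 : m ∈ IntermediateField.adjoin K S := by
      rw [← mul_div_cancel_right₀ m u0.ne_zero]
      exact div_mem (h1 hm) (h1 hu)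
    obtain ⟨r, hr, s, hs, e⟩ := IntermediateField.mem_adjoin_iff_div.1 h2
    by_cases s0 : s = 0
    · exact ⟨0, 1, by simp, by simp [e, s0]⟩
    · exact ⟨⟨r, hr⟩, ⟨s, hs⟩, s0, (eq_div_iff s0).1 e⟩
  have hz : dm K (ctr hA) = j := by
    let ρ := Ideal.Quotient.liftₐ (ctr hA).asIdeal (rho hA) fun _ h => h
    have h1 := trdeg_le_of_injective ρ (RingHom.lift_injective_of_ker_le_ideal _ _ le_rfl)
    have h2 := AlgebraicIndependent.cardinalMk_le_trdeg (AlgebraicIndependent.of_comp ρ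
      (x := fun i : t => Ideal.Quotient.mk _ ⟨x i, Algebra.subset_adjoin (Or.inl ⟨i, rfl⟩)⟩) (by
      have e : (ρ ∘ fun i : t => Ideal.Quotient.mk _
          ⟨x i, Algebra.subset_adjoin (Or.inl ⟨i, rfl⟩)⟩) = Subtype.val :=
        funext fun i => (rho_apply hA _).trans (x2 i)
      rw [e]; exact ht.1))
    rw [Dim.trdeg_eq_dm] at h1 h2
    exact_mod_cast le_antisymm (h1.trans h.2.le) (hc.ge.trans h2)
  obtain ⟨D, _, _, _, _, _, _, _, ψ, h1, h2⟩ := exists_model p A.val hfr
  obtain ⟨q, hq⟩ := ((main ψ h1 (fun m => (hfr m).elim fun a ⟨b, h⟩ =>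
    ⟨algebraMap A D a, algebraMap A D b, by rwa [h2, h2]⟩) hM.2 h2 _ hz).1 O (cen_ctr hA)).2
  exact ⟨D, _, _, EssFiniteType.comp K A D, ψ, q, hq⟩

omit [Base K] in
lemma deg_res {ι : M →ₐ[K] M'} {O : Pl M} {O' : Pl M'} (h : Over ι O O') {A : Type} [CommRing A]
    [Algebra K A] {φ : A →ₐ[K] M'} (h1 : ∀ a, ∃ x, ι x = φ a) (h2 : ∀ x ∈ O.O, ∃ a, ι x = φ a) :
    deg h.resHom = cenDeg φ O' := by
  let κ : O.res →ₐ[K] cenFld φ O' := h.resHom.codRestrict
    (IntermediateField.adjoin K (Set.range fun a => O'.rd (φ a))).toSubalgebra fun c => by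
      obtain ⟨x, hx, rfl⟩ := O.rd_surj c
      obtain ⟨a, e⟩ := h2 x hx
      exact IntermediateField.subset_adjoin _ _ ⟨a, by rw [h.resHom_rd, e]⟩
  have hκ : Function.Surjective κ := fun y => by
    have : IntermediateField.adjoin K (Set.range fun a => O'.rd (φ a)) ≤ h.resHom.fieldRange :=
      IntermediateField.adjoin_le_iff.2 (by
        rintro _ ⟨a, rfl⟩
        obtain ⟨x, e⟩ := h1 a
        exact ⟨O.rd x, (h.resHom_rd x).trans (by rw [e])⟩)
    exact (this y.2).imp fun c e => Subtype.ext e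
  exact (deg_comp (L' := cenFld φ O') κ (IntermediateField.val _)).trans
    (by rw [deg_of_surj hκ, one_mul]; rfl)

theorem over_main {ι : M →ₐ[K] M'} (hι : Fin' ι) (hM : Good (j + 1) M) {O : Pl M}
    (h : O.IsDiv j) : (∀ O', Over ι O O' → O'.IsDiv j) ∧ {O' | Over ι O O'}.Finite ∧
      ∀ f, f ≠ 0 → ∑ᶠ O' : {O' : Pl M' // Over ι O O'}, O'.1.ord f * (deg O'.2.resHom : ℤ) =
        O.ord (nrm ι f) := by
  obtain ⟨p, hp, _⟩ := Base.char (K := K)
  have := Fact.mk hp
  have : IsDiscreteValuationRing O.O := h.1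
  let : Algebra K O.O := O.cst.toAlgebra
  have : EssFiniteType K O.O := by
    obtain ⟨D, _, _, _, ψ, q, h1, h2⟩ := model h hM
    refine Res.essFiniteType (φ := ({ ψ.toRingHom.codRestrict O.O.toSubring h1.1 with
      commutes' := fun c => Subtype.ext (ψ.commutes c) } : D →ₐ[K] O.O)) fun r => ?_
    obtain ⟨a, b, hb, e⟩ := h2 r r.2
    have := mt (h1.2 b).1 hb
    rw [O.rd_of_mem (h1.1 b), O.rh_eq_zero] at this
    exact ⟨a, b, IsLocalRing.notMem_maximalIdeal.1 this, Subtype.ext e⟩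
  let : Algebra M M' := ι.toRingHom.toAlgebra
  have : Module.Finite M M' := hι
  let : Algebra O.O M' := (ι.toRingHom.comp O.O.subtype).toAlgebra
  have : IsScalarTower O.O M M' := IsScalarTower.of_algebraMap_eq fun _ => rfl
  have : IsScalarTower K O.O M' := IsScalarTower.of_algebraMap_eq fun c => (ι.commutes c).symm
  have : CharP O.O p := charP_of_injective_algebraMap (algebraMap K O.O).injective p
  let B := integralClosure O.O M'
  have : Module.Finite O.O B := FinNorm.closure_finite p O.O M M' B (frob_ess (K := K) p O.O)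
  have : IsFractionRing B M' := integralClosure.isFractionRing_of_finite_extension M M'
  have : IsIntegrallyClosed B := integralClosure.isIntegrallyClosedOfFiniteExtension M
  have := IsIntegralClosure.isLocalization O.O M M' B
  have : FaithfulSMul O.O B := (faithfulSMul_iff_algebraMap_injective _ _).2 fun x y e =>
    Subtype.ext (ι.injective (congrArg Subtype.val e))
  have : EssFiniteType K B := EssFiniteType.comp K O.O B
  let ψ : B →ₐ[K] M' := B.val.restrictScalars K
  have hfr : ∀ x : M', ∃ a b, ψ b ≠ 0 ∧ x * ψ b = ψ a := fun x => by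
    obtain ⟨a, b, hb, rfl⟩ := IsFractionRing.div_surjective B x
    have : ψ b ≠ 0 := fun e => nonZeroDivisors.ne_zero hb (Subtype.ext e)
    exact ⟨a, b, this, div_mul_cancel₀ _ this⟩
  let φ := IsScalarTower.toAlgHom K O.O M'
  let v : O.O →ₐ[K] M := { O.O.subtype with commutes' := fun _ => rfl }
  have cv : Cen v (IsLocalRing.closedPoint O.O) O :=
    ⟨fun a => a.2, fun a => (congrArg (· = 0) (O.rd_coe a)).to_iff.trans (O.rh_eq_zero a)⟩
  have hz : dm K (IsLocalRing.closedPoint O.O) = j := by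
    have := (Loc.good (fun x hx => ⟨⟨x, hx⟩, 1, (Ideal.ne_top_iff_one _).1
      (PrimeSpectrum.isPrime _).ne_top, by rw [map_one, mul_one]; rfl⟩) cv).2
    exact_mod_cast this.symm.trans h.2
  have hM' : M'.tr = (j + 1 : ℕ) := hι.tr_eq.trans hM.2
  have hg : dm K (gen B) = j + 1 := by
    have := (tr_eq_dm ψ (gen B) (fun a => map_eq_zero_iff _ Subtype.val_injective) hfr).2
    exact_mod_cast this.symm.trans hM'
  obtain ⟨m1, m2, m3⟩ := main ψ Subtype.val_injective hfr hM' (φ := φ) (fun _ => rfl) _ hz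
  have e : {O' | Cen φ (IsLocalRing.closedPoint O.O) O'} = {O' | Over ι O O'} := by
    ext O'
    refine ⟨fun h' x => ⟨fun hx => h'.1 ⟨x, hx⟩, fun hx => by_contra fun hn => ?_⟩,
      fun h' => ⟨fun a => (h' a).1 a.2, fun a => ?_⟩⟩
    · have h1 := (O.O.mem_or_inv_mem x).resolve_left hn
      have h2 := (h'.2 ⟨_, h1⟩).2 ((cv.2 ⟨_, h1⟩).1 (by_contra fun h3 =>
        hn (inv_inv x ▸ ((O.rd_ne_zero_iff h1).1 h3).2)))
      refine (O'.rd_ne_zero_iff (h'.1 ⟨_, h1⟩)).2 ⟨?_, ?_⟩ h2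
      · exact (map_ne_zero ι).2 (inv_ne_zero fun e => hn (e ▸ zero_mem _))
      · show (ι x⁻¹)⁻¹ ∈ _
        rwa [map_inv₀, inv_inv]
    · rw [← cv.2, ← map_eq_zero (Over.resHom h'), Over.resHom_rd]
      rfl
  have m4 : ∀ O', Over ι O O' → O'.IsDiv j := fun O' h' => (m1 O' (e.ge h')).1
  have fin : Finite {O' : Pl M' // Over ι O O'} := (e ▸ m2 : {O' | Over ι O O'}.Finite)
  have key : ∀ b, ψ b ≠ 0 → ∑ᶠ O' : {O' : Pl M' // Over ι O O'},
      O'.1.ord (ψ b) * (deg O'.2.resHom : ℤ) = O.ord (nrm ι (ψ b)) := fun b hb => by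
    have b0 : b ≠ 0 := fun e => hb (by rw [e, map_zero])
    have : IsNoetherianRing O.O := inferInstance
    have h1 := m3 b b0
    rw [e, ← finsum_set_coe_eq_finsum_mem, Key.push_dv (hD K) (hC K) (gen B) b0, CycA.cyc_apply,
      if_pos (by rw [hz, hg]; rfl), lenAt_eq_length (R := O.O) _
        (fun a ha => IsLocalRing.notMem_maximalIdeal.1 ha) (fun r => ⟨r, 1, (Ideal.ne_top_iff_one _).1
          (PrimeSpectrum.isPrime _).ne_top, by simp⟩) LinearMap.id
        (fun n => ⟨n, 1, (Ideal.ne_top_iff_one _).1 (PrimeSpectrum.isPrime _).ne_top, one_smul _ _⟩)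
        fun n hn => ⟨1, (Ideal.ne_top_iff_one _).1 (PrimeSpectrum.isPrime _).ne_top,
          (one_smul _ _).trans hn⟩] at h1
    have h2 : nrm ι (ψ b) = (Algebra.norm O.O b : O.O) := Algebra.norm_localization O.O O.O⁰ b
    refine Int.cast_injective (α := ℚ) ?_
    rw [h2, Pl.ord, dif_pos (Algebra.norm O.O b).2, Int.cast_natCast]
    refine Eq.trans ?_ (h1.trans (congrArg (fun t : ℕ∞ => (t.toNat : ℚ)) (len_norm O.O B b0)))
    refine ((Int.castAddHom ℚ).map_finsum_of_injective Int.cast_injective _).trans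
      (finsum_congr fun O' => ?_)
    rw [deg_res O'.2 (φ := φ) (fun a => ⟨a, rfl⟩) fun x hx => ⟨⟨x, hx⟩, rfl⟩]
    rfl
  refine ⟨m4, e ▸ m2, fun f hf => ?_⟩
  obtain ⟨a, b, hb, e1⟩ := hfr f
  have h1 := key a (e1 ▸ mul_ne_zero hf hb)
  have h2 : nrm ι (f * ψ b) = nrm ι f * nrm ι (ψ b) := map_mul (Algebra.norm M) _ _
  rw [← e1, h2, ord_mul h.1 (nrm_ne_zero hι hf) (nrm_ne_zero hι hb), ← key b hb,
    finsum_congr fun O' : {O' : Pl M' // Over ι O O'} => by
      rw [ord_mul (m4 _ O'.2).1 hf hb, add_mul],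
    finsum_add_distrib (Set.toFinite _) (Set.toFinite _)] at h1
  exact add_right_cancel h1

end Pool.Agent.Lib.MP_557161_ag.DL.ValC
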